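import Pool.Agent.Lib.MP_9ac97d_al.TEnds

/-!
# The minimal subtree and its cuts (task TCut)
-/

set_option autoImplicit false

noncomputable section

open Pointwise

namespace Pool.Agent.Lib.MP_9ac97d_al

variable {n : ℕ}

section Abstract

open Pool.Agent.Lib.MP_d87150_al Pool.Agent.Lib.MP_d87150_al.LTree

variable {Λ T G : Type} [AddCommGroup Λ] [LinearOrder Λ] [IsOrderedAddMonoid Λ] [Group G]
  [MulAction G T] {𝒯 : LTree Λ T}

theorem tcut_eq_one (hH : ∀ g : G, g ≠ 1 → 𝒯.Hyp g) {g : G} {p : T} (h : g • p = p) :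
    g = 1 := by
  by_contra hg
  exact (hH g hg).1 p h

theorem tcut_pos {g : G} (hg : 𝒯.Hyp g) (p : T) : 0 < 𝒯.d p (g • p) :=
  lt_of_le_of_ne (𝒯.d_nonneg _ _) fun h => hg.1 p (𝒯.eq_of_d _ _ h.symm).symm

theorem tcut_tf (hI : 𝒯.Iso G) (hH : ∀ g : G, g ≠ 1 → 𝒯.Hyp g) (x : G) (hx : x ≠ 1) :
    ¬ IsOfFinOrder x := by
  intro h
  obtain ⟨n, hn, h1⟩ := isOfFinOrder_iff_pow_eq_one.1 h
  obtain ⟨p, hp⟩ := (hH x hx).2
  have h2 := d_zpow_smul hI (hH x hx) hp (n : ℤ)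
  rw [zpow_natCast, h1, one_smul] at h2
  have h3 := abs_sd (𝒯 := 𝒯) x p p
  rw [𝒯.d_self, abs_eq_zero, h2, natCast_zsmul] at h3
  exact (nsmul_pos (tcut_pos (hH x hx) p) hn.ne').ne' h3

theorem tcut_transl (hI : 𝒯.Iso G) (hH : ∀ g : G, g ≠ 1 → 𝒯.Hyp g) {x : G} (hx : x ≠ 1) :
    ∃ τ : Subgroup.centralizer ({x} : Set G) →* Multiplicative Λ, Function.Injective τ ∧
      ∀ (h : Subgroup.centralizer ({x} : Set G)), ∀ p ∈ 𝒯.Ax x,
        |Multiplicative.toAdd (τ h)| = 𝒯.d p ((h : G) • p) := by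
  obtain ⟨τ, hτ⟩ := exists_transl hI (hH x hx)
  have key : ∀ (h : Subgroup.centralizer ({x} : Set G)), ∀ p ∈ 𝒯.Ax x,
      |Multiplicative.toAdd (τ h)| = 𝒯.d p ((h : G) • p) := fun h p hp => by
    rw [hτ h p hp, abs_sd]
  refine ⟨τ, (injective_iff_map_eq_one τ).2 fun h h1 => ?_, key⟩
  obtain ⟨p, hp⟩ := (hH x hx).2
  have := key h p hp
  rw [h1, toAdd_one, abs_zero] at this
  exact Subtype.ext (tcut_eq_one hH (𝒯.eq_of_d _ _ this.symm).symm)

theorem tcut_ct (hI : 𝒯.Iso G) (hH : ∀ g : G, g ≠ 1 → 𝒯.Hyp g) (x y z : G) (hx : x ≠ 1)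
    (hy : Commute x y) (hz : Commute x z) : Commute y z := by
  obtain ⟨τ, hinj, -⟩ := tcut_transl hI hH hx
  let y' : Subgroup.centralizer ({x} : Set G) :=
    ⟨y, Subgroup.mem_centralizer_singleton_iff.2 hy.symm.eq⟩
  let z' : Subgroup.centralizer ({x} : Set G) :=
    ⟨z, Subgroup.mem_centralizer_singleton_iff.2 hz.symm.eq⟩
  have : y' * z' = z' * y' := hinj (by rw [map_mul, map_mul, mul_comm])
  exact congrArg Subtype.val this

theorem tcut_len (hI : 𝒯.Iso G) (hH : ∀ g : G, g ≠ 1 → 𝒯.Hyp g) {x : G} (hx : x ≠ 1) (g : G)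
    {p q : T} (hp : p ∈ 𝒯.Ax x) (hq : q ∈ 𝒯.Ax (g * x * g⁻¹)) :
    𝒯.d q ((g * x * g⁻¹) • q) = 𝒯.d p (x • p) := by
  have hx' : g * x * g⁻¹ ≠ 1 := fun h => hx (by simpa using h)
  rw [d_smul_eq_of_mem_ax hI (hH _ hx') hq ((mem_ax_conj hI x g p).2 hp), mul_smul, inv_smul_smul,
    mul_smul, hI]

theorem tcut_mal (hI : 𝒯.Iso G) (hH : ∀ g : G, g ≠ 1 → 𝒯.Hyp g) (x g : G) (hx : x ≠ 1)
    (hc : Commute x (g * x * g⁻¹)) : Commute x g := by
  obtain ⟨τ, hinj, hτ⟩ := tcut_transl hI hH hx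
  obtain ⟨p, hp⟩ := (hH x hx).2
  let x₀ : Subgroup.centralizer ({x} : Set G) :=
    ⟨x, Subgroup.mem_centralizer_singleton_iff.2 rfl⟩
  let x' : Subgroup.centralizer ({x} : Set G) :=
    ⟨g * x * g⁻¹, Subgroup.mem_centralizer_singleton_iff.2 hc.symm.eq⟩
  have h1 : |Multiplicative.toAdd (τ x')| = |Multiplicative.toAdd (τ x₀)| := by
    rw [hτ x' p hp, hτ x₀ p hp]
    exact tcut_len hI hH hx g hp (ax_subset_of_commute hI (hH x hx) hc hp)
  rcases abs_eq_abs.1 h1 with h2 | h2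
  · have h3 : g * x * g⁻¹ = x := congrArg Subtype.val (hinj (Multiplicative.toAdd.injective h2))
    exact (mul_inv_eq_iff_eq_mul.1 h3).symm
  · rw [← toAdd_inv, ← map_inv] at h2
    have h3 : g * x * g⁻¹ = x⁻¹ := congrArg Subtype.val (hinj (Multiplicative.toAdd.injective h2))
    by_cases hg : g = 1
    · rw [hg]
      exact Commute.one_right x
    have h4 : g * g ≠ 1 := fun h => tcut_tf hI hH g hg
      (isOfFinOrder_iff_pow_eq_one.2 ⟨2, two_pos, by rw [pow_two, h]⟩)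
    refine tcut_ct hI hH (g * g) x g h4 ?_ ((Commute.refl g).mul_left (Commute.refl g))
    have h5 : g * x⁻¹ * g⁻¹ = x := by
      have := congrArg (·⁻¹) h3
      simpa [mul_assoc] using this
    show g * g * x = x * (g * g)
    calc g * g * x = g * (g * x * g⁻¹) * g⁻¹ * (g * g) := by group
      _ = x * (g * g) := by rw [h3, h5]

theorem tcut_btw_of_sd (hI : 𝒯.Iso G) {a : G} (ha : 𝒯.Hyp a) {p q r : T} (hp : p ∈ 𝒯.Ax a)
    (hq : q ∈ 𝒯.Ax a) (hr : r ∈ 𝒯.Ax a)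
    (h : (0 ≤ 𝒯.sd a p q ∧ 𝒯.sd a p q ≤ 𝒯.sd a p r) ∨
      (𝒯.sd a p q ≤ 0 ∧ 𝒯.sd a p r ≤ 𝒯.sd a p q)) : 𝒯.Btw p q r := by
  have h1 := sd_add hI ha hp hq hr
  unfold LTree.Btw
  rw [← abs_sd a p q, ← abs_sd a q r, ← abs_sd a p r]
  grind

theorem tcut_pp (hI : 𝒯.Iso G) {a : G} (ha : 𝒯.Hyp a) {q : T} (hq : q ∈ 𝒯.Ax a) {z : T}
    (hz : ¬ 𝒯.Btw q (a⁻¹ • q) z) : 𝒯.Btw q (a • q) ((a * a) • z) := by
  obtain ⟨m, hm, hpr, -⟩ := LTree.exists_proj hI ha z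
  have hα := tcut_pos ha q
  have e1 : 𝒯.sd a q (a⁻¹ • q) = -𝒯.d q (a • q) := by
    simpa using d_zpow_smul hI ha hq (-1)
  have e2 : 𝒯.sd a q (a • q) = 𝒯.d q (a • q) := sd_smul_self hI ha hq
  have hc2 : Commute a (a * a) := (Commute.refl a).mul_right (Commute.refl a)
  have hm2 : (a * a) • m ∈ 𝒯.Ax a := smul_mem_ax hI hc2 hm
  have e3 : 𝒯.sd a m ((a * a) • m) = 𝒯.d q (a • q) + 𝒯.d q (a • q) := by
    have := d_zpow_smul hI ha hm 2
    rw [zpow_two, two_zsmul, d_smul_eq_of_mem_ax hI ha hm hq] at this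
    exact this
  have e4 := sd_add hI ha hq hm hm2
  have h1 : -𝒯.d q (a • q) < 𝒯.sd a q m := by
    by_contra hc
    refine hz ((hpr q hq).symm.left (tcut_btw_of_sd hI ha hq
      (smul_mem_ax hI (Commute.refl a).inv_right hq) hm (Or.inr ?_))).1
    grind
  have h2 : 𝒯.Btw q ((a * a) • m) ((a * a) • z) := by
    have := hI.btw (a * a) (hpr _ (smul_mem_ax hI hc2.inv_right hq))
    rw [smul_inv_smul] at this
    exact this.symm
  refine (h2.left (tcut_btw_of_sd hI ha hq (smul_mem_ax hI (Commute.refl a) hq) hm2 (Or.inl ?_))).1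
  grind

theorem tcut_d_inv (hI : 𝒯.Iso G) (a : G) (q : T) : 𝒯.d q (a⁻¹ • q) = 𝒯.d q (a • q) := by
  rw [← hI a, smul_inv_smul, 𝒯.d_comm]

theorem tcut_cross (hH : ∀ g : G, g ≠ 1 → 𝒯.Hyp g) {b b' : G} {q q' z : T} (hb : b ≠ b')
    (hpos : 0 < 𝒯.d q (b • q)) (hlen : 𝒯.d q' (b' • q') = 𝒯.d q (b • q))
    (h1 : 𝒯.Btw q' q (b • q)) (h2 : 𝒯.Btw q q' (b' • q')) (h3 : 𝒯.Btw q (b • q) z)
    (h4 : 𝒯.Btw q' (b' • q') z) : False := by
  by_cases hq : q = q'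
  · subst hq
    have := h3.unique h4 hlen.symm
    exact hb (inv_mul_eq_one.1 (tcut_eq_one hH (p := q)
      (by rw [mul_smul, ← this, inv_smul_smul])))
  have h5 : q' ≠ b' • q' := fun h => by
    rw [← h, 𝒯.d_self] at hlen
    exact hpos.ne hlen
  have h6 := (h2.trans h4 h5).1
  have h7 : 0 < 𝒯.d q q' := lt_of_le_of_ne (𝒯.d_nonneg _ _) fun h => hq (𝒯.eq_of_d _ _ h.symm)
  have c1 := 𝒯.d_comm q q'
  have c2 := 𝒯.d_comm q' (b • q)
  unfold LTree.Btw at h1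
  rcases le_total (𝒯.d q (b • q)) (𝒯.d q q') with h | h
  · have := (h3.order h6 h).1
    unfold LTree.Btw at this
    grind
  · have := (h6.order h3 h).1
    unfold LTree.Btw at this
    grind

theorem tcut_same (hI : 𝒯.Iso G) {a : G} (ha : 𝒯.Hyp a) {q z : T} (hq : q ∈ 𝒯.Ax a)
    (h1 : 𝒯.Btw q (a • q) z) (h2 : 𝒯.Btw q (a⁻¹ • q) z) : False := by
  have h3 := h1.unique h2 (tcut_d_inv hI a q).symm
  have h4 : 𝒯.d q (a • a • q) = 𝒯.d q (a • q) + 𝒯.d q (a • q) := hq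
  have h5 := tcut_pos ha q
  rw [show a • a • q = q by rw [h3, smul_inv_smul], 𝒯.d_self] at h4
  grind

theorem tcut_free (hI : 𝒯.Iso G) (hH : ∀ g : G, g ≠ 1 → 𝒯.Hyp g) {x y : G} (hxy : ¬ Commute x y) :
    FreePair (x * x) (y * x * y⁻¹ * (y * x * y⁻¹)) := by
  have hx : x ≠ 1 := fun h => hxy (h ▸ Commute.one_left y)
  have hx' : y * x * y⁻¹ ≠ 1 := fun h => hx (by simpa using h)
  have hnc : ¬ Commute x (y * x * y⁻¹) := fun h => hxy (tcut_mal hI hH x y hx h)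
  set a' := y * x * y⁻¹ with ha'
  obtain ⟨p', hp'⟩ := (hH a' hx').2
  obtain ⟨q, hq, hq1, -⟩ := LTree.exists_proj hI (hH x hx) p'
  obtain ⟨q', hq', hq1', -⟩ := LTree.exists_proj hI (hH a' hx') q
  have hq2 : ∀ r ∈ 𝒯.Ax x, 𝒯.Btw q' q r := fun r hr =>
    ((hq1 r hr).left (hq1' p' hp').symm).2
  have hlen : 𝒯.d q' (a' • q') = 𝒯.d q (x • q) := tcut_len hI hH hx y hq hq'
  have hpos := tcut_pos (hH x hx) q
  have m1 := smul_mem_ax hI (Commute.refl x) hq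
  have m2 := smul_mem_ax hI (Commute.refl x).inv_right hq
  have m3 := smul_mem_ax hI (Commute.refl a') hq'
  have m4 := smul_mem_ax hI (Commute.refl a').inv_right hq'
  have i1 := tcut_d_inv hI x q
  have i2 := tcut_d_inv hI a' q'
  have d12 : ∀ z, 𝒯.Btw q (x • q) z → 𝒯.Btw q (x⁻¹ • q) z → False :=
    fun z h1 h2 => tcut_same hI (hH x hx) hq h1 h2
  have d13 : ∀ z, 𝒯.Btw q (x • q) z → 𝒯.Btw q' (a' • q') z → False :=
    fun z h1 h2 => tcut_cross hH (fun h : x = a' => hnc (h ▸ Commute.refl x))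
      hpos hlen (hq2 _ m1) (hq1' _ m3) h1 h2
  have d14 : ∀ z, 𝒯.Btw q (x • q) z → 𝒯.Btw q' (a'⁻¹ • q') z → False :=
    fun z h1 h2 => tcut_cross hH
      (fun h => hnc (by rw [h]; exact (Commute.refl a').inv_left))
      hpos (i2.trans hlen) (hq2 _ m1) (hq1' _ m4) h1 h2
  have d23 : ∀ z, 𝒯.Btw q (x⁻¹ • q) z → 𝒯.Btw q' (a' • q') z → False :=
    fun z h1 h2 => tcut_cross hH
      (fun h => hnc (by rw [← h]; exact (Commute.refl x).inv_right))
      (i1 ▸ hpos) (hlen.trans i1.symm) (hq2 _ m2) (hq1' _ m3) h1 h2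
  have d34 : ∀ z, 𝒯.Btw q' (a' • q') z → 𝒯.Btw q' (a'⁻¹ • q') z → False :=
    fun z h1 h2 => tcut_same hI (hH a' hx') hq' h1 h2
  have h0 : 𝒯.Btw q (x • q) (x • q) := by
    unfold LTree.Btw
    rw [𝒯.d_self, add_zero]
  exact pingpong (X := T) (MonoidHom.id G) (fun e he p => by
      rw [MonoidHom.id_apply] at he
      rw [he, one_smul])
    (B := {z | ¬ 𝒯.Btw q (x⁻¹ • q) z ∧ ¬ 𝒯.Btw q' (a'⁻¹ • q') z})
    (P := {z | 𝒯.Btw q (x • q) z}) (Q := {z | 𝒯.Btw q' (a' • q') z})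
    ⟨x • q, d12 _ h0, d14 _ h0⟩ (fun z hz => ⟨d12 z hz, d14 z hz⟩)
    (fun z hz => ⟨fun h => d23 z h hz, d34 z hz⟩) (Set.disjoint_left.2 fun z h1 h2 => d13 z h1 h2)
    (fun z hz => tcut_pp hI (hH x hx) hq hz.1) (fun z hz => tcut_pp hI (hH a' hx') hq' hz.2)

end Abstract

/-- The Cayley tree as a `ℤ`-tree. -/
def tcut_tree (n : ℕ) : Pool.Agent.Lib.MP_d87150_al.LTree ℤ (Fr n) where
  d x y := (dd x y : ℤ)
  d_self x := by rw [dd_self]; rfl
  d_comm x y := by rw [dd_comm]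
  eq_of_d x y h := dd_eq_zero.1 (by exact_mod_cast h)
  four x y z w := by exact_mod_cast dd_four x y z w
  geo x y t h0 ht := by
    obtain ⟨t, rfl⟩ := Int.eq_ofNat_of_zero_le h0
    obtain ⟨m, hm, hd⟩ := exists_btw x y (t := t) (by exact_mod_cast ht)
    refine ⟨m, by exact_mod_cast hd, ?_⟩
    unfold Btw at hm
    omega
  half x y z := by
    obtain ⟨c, hc⟩ := dd_parity x y z
    exact ⟨c - dd y z, by omega⟩

theorem tcut_iso (n : ℕ) : (tcut_tree n).Iso (Fr n) := fun g x y => by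
  change ((dd (g * x) (g * y) : ℕ) : ℤ) = dd x y
  rw [dd_mul_left]

theorem tcut_hyp (g : Fr n) (hg : g ≠ 1) : (tcut_tree n).Hyp g := by
  refine ⟨fun p hp => hg ?_, ?_⟩
  · have : g * p = p := hp
    simpa using this
  · obtain ⟨p, hp⟩ := ax_nonempty g
    refine ⟨p, ?_⟩
    have h : dd p (g * g * p) = 2 * dd p (g * p) := hp
    change ((dd p (g * (g * p)) : ℕ) : ℤ) = (dd p (g * p) : ℤ) + (dd p (g * p) : ℤ)
    rw [← mul_assoc, h]
    push_cast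
    ring

theorem tcut_mem_conj {S : Subgroup (Fr n)} {g a : Fr n} :
    a ∈ MulAut.conj g • S ↔ ∃ s ∈ S, g * s * g⁻¹ = a := by
  rw [Subgroup.mem_smul_pointwise_iff_exists]
  simp only [MulAut.smul_def, MulAut.conj_apply]

theorem tcut_btw_pow {b y : Fr n} (hy : y ∈ Ax b) (k : ℕ) : Btw (b⁻¹ ^ k * y) y (b ^ k * y) := by
  have h1 := dd_pow_of_mem_ax hy k
  have h2 := dd_pow_of_mem_ax hy (k + k)
  have h3 : dd (b⁻¹ ^ k * y) y = dd y (b ^ k * y) := by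
    rw [← dd_mul_left (b ^ k), ← mul_assoc, inv_pow, mul_inv_cancel, one_mul]
  have h4 : dd (b⁻¹ ^ k * y) (b ^ k * y) = dd y (b ^ (k + k) * y) := by
    rw [← dd_mul_left (b ^ k), ← mul_assoc, inv_pow, mul_inv_cancel, one_mul, ← mul_assoc, pow_add]
  unfold Btw
  rw [h3, h4, h1, h2, add_mul]

/-- If both ends of `b` lie in a half tree, so does its axis. -/
theorem tcut_ax_half {b x y p : Fr n} (hb : b ≠ 1) (h : dd x y = 1) (h1 : Att b x y)
    (h2 : Att b⁻¹ x y) (hp : p ∈ Ax b) : p ∈ Half x y := by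
  obtain ⟨k, hk1, hk2⟩ := (((att_iff hb h p).1 h1).and
    ((att_iff (inv_ne_one.2 hb) h p).1 h2)).exists
  exact half_convex h hk2 hk1 (tcut_btw_pow hp k)

theorem tt_convex {S : Subgroup (Fr n)} {p m q : Fr n} (hp : p ∈ TT S) (hq : q ∈ TT S)
    (hm : Btw p m q) : m ∈ TT S := by
  obtain ⟨a, haS, ha, hp⟩ := hp
  obtain ⟨b, hbS, hb, hq⟩ := hq
  rcases meet_or_bridge ha hb with ⟨r, hr1, hr2⟩ | ⟨p0, hp0, q0, hq0, hne, h1, h2⟩
  · rcases hm.or r with h | h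
    · exact ⟨a, haS, ha, ax_convex hp hr1 h⟩
    · exact ⟨b, hbS, hb, ax_convex hr2 hq h⟩
  · obtain ⟨hab, hp1, hq1, -⟩ := bridge ha hb hp0 hq0 hne h1 h2
    rcases hm.or p0 with h | h
    · exact ⟨a, haS, ha, ax_convex hp hp0 h⟩
    · rcases h.or q0 with h' | h'
      · exact ⟨a * b, mul_mem haS hbS, hab, ax_convex hp1 hq1 h'⟩
      · exact ⟨b, hbS, hb, ax_convex hq0 hq h'⟩

theorem mul_mem_tt_conj (S : Subgroup (Fr n)) (g y : Fr n) :
    g * y ∈ TT (MulAut.conj g • S) ↔ y ∈ TT S := by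
  constructor
  · rintro ⟨a, haS, ha, hy⟩
    obtain ⟨s, hs, rfl⟩ := tcut_mem_conj.1 haS
    exact ⟨s, hs, fun h => ha (by simp [h]), (mul_mem_ax_conj g s y).1 hy⟩
  · rintro ⟨a, haS, ha, hy⟩
    exact ⟨g * a * g⁻¹, tcut_mem_conj.2 ⟨a, haS, rfl⟩, fun h => ha (by simpa using h),
      (mul_mem_ax_conj g a y).2 hy⟩

theorem mul_mem_tt {S : Subgroup (Fr n)} {s y : Fr n} (hs : s ∈ S) (hy : y ∈ TT S) :
    s * y ∈ TT S := by
  obtain ⟨a, haS, ha, hy⟩ := hy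
  exact ⟨s * a * s⁻¹, mul_mem (mul_mem hs haS) (inv_mem hs), fun h => ha (by simpa using h),
    (mul_mem_ax_conj s a y).2 hy⟩

theorem tt_mono {S L : Subgroup (Fr n)} (h : S ≤ L) : TT S ⊆ TT L := by
  rintro y ⟨a, haS, ha, hy⟩
  exact ⟨a, h haS, ha, hy⟩

theorem tt_nonempty {S : Subgroup (Fr n)} (h : S ≠ ⊥) : (TT S).Nonempty := by
  obtain ⟨⟨a, haS⟩, ha⟩ := Subgroup.ne_bot_iff_exists_ne_one.1 h
  obtain ⟨y, hy⟩ := ax_nonempty a
  exact ⟨y, a, haS, fun h' => ha (Subtype.ext h'), hy⟩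

theorem ess_iff {S : Subgroup (Fr n)} {x y : Fr n} :
    Ess S x y ↔ dd x y = 1 ∧ x ∈ TT S ∧ y ∈ TT S := by
  constructor
  · rintro ⟨h, ⟨a, haS, ha, ha'⟩, ⟨b, hbS, hb, hb'⟩⟩
    have h' : dd y x = 1 := by rwa [dd_comm]
    obtain ⟨p, hp⟩ := ax_nonempty a
    obtain ⟨q, hq⟩ := ax_nonempty b
    obtain ⟨k, hk⟩ := ((att_iff ha h p).1 ha').exists
    obtain ⟨l, hl⟩ := ((att_iff hb h' q).1 hb').exists
    have h1 : a ^ k * p ∈ TT S := mul_mem_tt (pow_mem haS k) ⟨a, haS, ha, hp⟩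
    have h2 : b ^ l * q ∈ TT S := mul_mem_tt (pow_mem hbS l) ⟨b, hbS, hb, hq⟩
    obtain ⟨h3, h4, -⟩ := (sep_iff h _ _).1 ⟨hl, hk⟩
    exact ⟨h, tt_convex h2 h1 h3, tt_convex h2 h1 h4⟩
  · have key : ∀ x y : Fr n, dd x y = 1 → y ∈ TT S → (cut S x y).Nonempty := by
      rintro x y h ⟨b, hbS, hb, hy⟩
      have h' : dd y x = 1 := by rwa [dd_comm]
      rcases att_or hb h with h1 | h1
      · exact ⟨b, hbS, hb, h1⟩
      · rcases att_or (inv_ne_one.2 hb) h with h2 | h2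
        · exact ⟨b⁻¹, inv_mem hbS, inv_ne_one.2 hb, h2⟩
        · have h3 : dd y x < dd y y := tcut_ax_half hb h' h1 h2 hy
          rw [dd_self] at h3
          exact absurd h3 (Nat.not_lt_zero _)
    rintro ⟨h, hx, hy⟩
    exact ⟨h, key x y h hy, key y x (by rwa [dd_comm]) hx⟩

theorem exists_two_nbrs {S : Subgroup (Fr n)} {y : Fr n} (hy : y ∈ TT S) :
    ∃ z w, z ≠ w ∧ Ess S y z ∧ Ess S y w := by
  obtain ⟨a, haS, ha, hy⟩ := hy
  have ht := tl_pos ha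
  have hb := tcut_btw_pow hy 1
  rw [pow_one, pow_one] at hb
  have h1 : dd y (a * y) = tl a := mem_ax_iff.1 hy
  have h2 : dd y (a⁻¹ * y) = tl a := by
    rw [← dd_mul_left a, mul_inv_cancel_left, dd_comm, h1]
  obtain ⟨z, hz, hz1⟩ := exists_btw y (a * y) (t := 1) (by omega)
  obtain ⟨w, hw, hw1⟩ := exists_btw y (a⁻¹ * y) (t := 1) (by omega)
  have hz2 : z ∈ Ax a := ax_convex hy (mul_mem_ax (Commute.refl a) hy) hz
  have hw2 : w ∈ Ax a := ax_convex hy (mul_mem_ax (Commute.refl a).inv_right hy) hw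
  refine ⟨z, w, ?_, ess_iff.2 ⟨hz1, ⟨a, haS, ha, hy⟩, ⟨a, haS, ha, hz2⟩⟩,
    ess_iff.2 ⟨hw1, ⟨a, haS, ha, hy⟩, ⟨a, haS, ha, hw2⟩⟩⟩
  rintro rfl
  have h3 := dd_triangle (a⁻¹ * y) z (a * y)
  have h4 := dd_comm (a⁻¹ * y) z
  have h5 := dd_comm (a⁻¹ * y) y
  unfold Btw at hb hz hw
  omega

theorem Ess.symm {S : Subgroup (Fr n)} {x y : Fr n} (h : Ess S x y) : Ess S y x := by
  exact ⟨by rw [dd_comm]; exact h.1, h.2.2, h.2.1⟩

theorem cut_symm (S : Subgroup (Fr n)) {x y : Fr n} (h : dd x y = 1) :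
    cut S y x = opp S (cut S x y) := by
  ext a
  constructor
  · rintro ⟨haS, ha, h1⟩
    exact ⟨⟨haS, ha⟩, fun h2 => not_att_both h h2.2.2 h1⟩
  · rintro ⟨⟨haS, ha⟩, h1⟩
    exact ⟨haS, ha, (att_or ha h).resolve_left fun h2 => h1 ⟨haS, ha, h2⟩⟩

theorem cut_conj (S : Subgroup (Fr n)) {x y : Fr n} (h : dd x y = 1) (g : Fr n) :
    cut (MulAut.conj g • S) (g * x) (g * y) = MulAut.conj g • cut S x y := by
  ext a
  rw [Set.mem_smul_set]
  simp only [MulAut.smul_def, MulAut.conj_apply]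
  constructor
  · rintro ⟨haS, ha, h1⟩
    obtain ⟨s, hs, rfl⟩ := tcut_mem_conj.1 haS
    have hs1 : s ≠ 1 := fun h => ha (by simp [h])
    exact ⟨s, ⟨hs, hs1, (att_conj hs1 h g).1 h1⟩, rfl⟩
  · rintro ⟨s, ⟨hs, hs1, h1⟩, rfl⟩
    exact ⟨tcut_mem_conj.2 ⟨s, hs, rfl⟩, fun h => hs1 (by simpa using h), (att_conj hs1 h g).2 h1⟩

theorem cut_mono (S : Subgroup (Fr n)) {x y x' y' : Fr n} (h : Half x y ⊆ Half x' y') :
    cut S x y ⊆ cut S x' y' := by
  rintro a ⟨haS, ha, h1⟩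
  exact ⟨haS, ha, h1.mono fun k hk => h hk⟩

/-- All edges with the cut `U` separate `b ^ k` from `a ^ k` for fixed `a ∈ U`, `b ∉ U` and large
`k`, so they are nested along a line. If there were infinitely many, say towards the end of `a`,
no edge would separate the ends of two elements of `U`, so they would all commute; but `U` contains
two elements that do not commute (`exists_both_ends`, `north_south`). -/
theorem finite_cutEdges {S : Subgroup (Fr n)} (hS : NonAb S) (U : Set (Fr n)) :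
    (cutEdges S U).Finite := by
  rcases (cutEdges S U).eq_empty_or_nonempty with h | ⟨⟨x0, y0⟩, h0, hU⟩
  · rw [h]
    exact Set.finite_empty
  obtain ⟨q, hqS, hq, hq1, hq2⟩ := exists_both_ends hS h0
  obtain ⟨r, hrS, hr, hr1, hr2⟩ := exists_both_ends hS h0.symm
  obtain ⟨p, hp⟩ := ax_nonempty q
  obtain ⟨p', hp'⟩ := ax_nonempty r
  refine ((finite_dball p' (dd p' p)).prod (finite_dball p' (dd p' p))).subset ?_
  rintro ⟨x, y⟩ ⟨h1, h2⟩
  have e1 : cut S x y = cut S x0 y0 := h2.trans hU.symm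
  have e2 : cut S y x = cut S y0 x0 := by
    rw [cut_symm S h1.1, cut_symm S h0.1, e1]
  have m1 : q ∈ cut S x y := e1 ▸ ⟨hqS, hq, hq1⟩
  have m2 : q⁻¹ ∈ cut S x y := e1 ▸ ⟨inv_mem hqS, inv_ne_one.2 hq, hq2⟩
  have m3 : r ∈ cut S y x := e2 ▸ ⟨hrS, hr, hr1⟩
  have m4 : r⁻¹ ∈ cut S y x := e2 ▸ ⟨inv_mem hrS, inv_ne_one.2 hr, hr2⟩
  have h3 : p ∈ Half x y := tcut_ax_half hq h1.1 m1.2.2 m2.2.2 hp
  have h4 : p' ∈ Half y x := tcut_ax_half hr h1.symm.1 m3.2.2 m4.2.2 hp'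
  obtain ⟨h5, h6, -⟩ := (sep_iff h1.1 _ _).1 ⟨h4, h3⟩
  have h5' : dd p' x + dd x p = dd p' p := h5
  have h6' : dd p' y + dd y p = dd p' p := h6
  constructor
  · change dd p' x ≤ dd p' p
    omega
  · change dd p' y ≤ dd p' p
    omega

/-- An element that normalizes `S` and fixes a cut permutes its finitely many edges, hence has
finite order. -/
theorem eq_one_of_fix_cut {S : Subgroup (Fr n)} (hS : NonAb S) {x y g : Fr n} (h : Ess S x y)
    (hg : MulAut.conj g • S = S) (hU : MulAut.conj g • cut S x y = cut S x y) : g = 1 := by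
  by_contra hg1
  have step : ∀ k : ℕ, (g ^ k * x, g ^ k * y) ∈ cutEdges S (cut S x y) := by
    intro k
    induction k with
    | zero => exact ⟨by simpa using h, by simp⟩
    | succ k ih =>
      obtain ⟨h1, h2⟩ := ih
      obtain ⟨h3, h4, h5⟩ := ess_iff.1 h1
      simp only at h1 h2 h3 h4 h5
      refine ⟨?_, ?_⟩
      · simp only [pow_succ', mul_assoc]
        refine ess_iff.2 ⟨by rw [dd_mul_left]; exact h3, ?_, ?_⟩
        · rw [← hg, mul_mem_tt_conj]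
          exact h4
        · rw [← hg, mul_mem_tt_conj]
          exact h5
      · simp only [pow_succ', mul_assoc]
        have h6 := cut_conj S h3 g
        rw [hg, h2, hU] at h6
        exact h6
  refine Set.infinite_of_injective_forall_mem (f := fun k : ℕ => (g ^ k * x, g ^ k * y)) ?_ step
    (finite_cutEdges hS _)
  intro k l hkl
  have h1 : g ^ k = g ^ l := mul_right_cancel (congrArg Prod.fst hkl)
  exact (injective_pow_iff_not_isOfFinOrder.2 (not_isOfFinOrder_of_isMulTorsionFree hg1)) h1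

/-- Non commuting elements give a short free pair (compare `nice_of_free` in
`Pool.Agent.Lib.MP_d87150_al.FreeTree`; any pair of words of bounded length would do, but prove
this one: `x` and `y x y⁻¹` have the same translation length and do not commute). -/
theorem freePair_of_not_commute {x y : Fr n} (h : ¬ Commute x y) :
    FreePair (x * x) (y * x * y⁻¹ * (y * x * y⁻¹)) := by
  exact tcut_free (tcut_iso n) tcut_hyp h

end Pool.Agent.Lib.MP_9ac97d_al
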