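import Pool.Agent.Lib.MP_9ac97d_al.GVn
import Pool.Agent.Lib.MP_9ac97d_al.TCut

/-!
# The filter `FF` (task GFF)
-/

set_option autoImplicit false

noncomputable section

open Pointwise

namespace Pool.Agent.Lib.MP_9ac97d_al

variable {H H' : Type} [Group H] [Group H']

theorem FF.mono {K K' : Subgroup H} (h : FF K) (hle : K ≤ K') : FF K' := by
  obtain ⟨A, hA, c, hc⟩ := h
  exact ⟨A, hA, c, hc.trans hle⟩

theorem FF.inf {K K' : Subgroup H} (h : FF K) (h' : FF K') : FF (K ⊓ K') := by
  obtain ⟨A, hA, c, hc⟩ := h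
  obtain ⟨A', hA', c', hc'⟩ := h'
  refine ⟨A ⊓ A', inferInstance, max c c', le_inf ?_ ?_⟩
  · exact (Subgroup.lowerCentralSeries_mono _ inf_le_left).trans
      ((A.lowerCentralSeries_antitone (le_max_left _ _)).trans hc)
  · exact (Subgroup.lowerCentralSeries_mono _ inf_le_right).trans
      ((A'.lowerCentralSeries_antitone (le_max_right _ _)).trans hc')

theorem FF.iInf {κ : Type} [Finite κ] {K : κ → Subgroup H} (h : ∀ i, FF (K i)) :
    FF (⨅ i, K i) := by
  obtain ⟨_⟩ := nonempty_fintype κ
  choose A hA c hc using h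
  refine ⟨⨅ i, A i, Subgroup.finiteIndex_iInf hA, Finset.univ.sup c, le_iInf fun i => ?_⟩
  exact (Subgroup.lowerCentralSeries_mono _ (iInf_le _ i)).trans
    (((A i).lowerCentralSeries_antitone (Finset.le_sup (Finset.mem_univ i))).trans (hc i))

theorem ff_of_finiteIndex (K : Subgroup H) [K.FiniteIndex] : FF K :=
  ⟨K, inferInstance, 0, le_rfl⟩

theorem gff_map {K : Subgroup H} (h : FF K) (f : H →* H') [f.range.FiniteIndex] :
    FF (K.map f) := by
  obtain ⟨A, hA, c, hc⟩ := h
  refine ⟨A.map f, ⟨?_⟩, c, ?_⟩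
  · rw [Subgroup.index_map]
    have : (A ⊔ f.ker).FiniteIndex := Subgroup.finiteIndex_of_le le_sup_left
    exact mul_ne_zero Subgroup.FiniteIndex.index_ne_zero Subgroup.FiniteIndex.index_ne_zero
  · rw [← Subgroup.map_lowerCentralSeries]
    exact Subgroup.map_mono hc

theorem FF.smul {K : Subgroup H} (h : FF K) (Φ : MulAut H) : FF (Φ • K) := by
  have e : (MulDistribMulAction.toMonoidEnd (MulAut H) H Φ : H →* H).range = ⊤ :=
    MonoidHom.range_eq_top.2 Φ.surjective
  have : (MulDistribMulAction.toMonoidEnd (MulAut H) H Φ : H →* H).range.FiniteIndex := by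
    rw [e]; infer_instance
  rw [Subgroup.pointwise_smul_def]
  exact gff_map h _

theorem FF.map {K : Subgroup H} (h : FF K) (f : H →* H') [f.range.FiniteIndex] :
    FF (K.map f) := gff_map h f

theorem FF.comap {K : Subgroup H'} (h : FF K) (f : H →* H') : FF (K.comap f) := by
  obtain ⟨A, hA, c, hc⟩ := h
  refine ⟨A.comap f, ⟨?_⟩, c, ?_⟩
  · rw [Subgroup.index_comap]
    exact Subgroup.FiniteIndex.index_ne_zero (H := A.subgroupOf f.range)
  · rw [← Subgroup.map_le_iff_le_comap, Subgroup.map_lowerCentralSeries]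
    exact (Subgroup.lowerCentralSeries_mono _ (Subgroup.map_comap_le f A)).trans hc

theorem ff_commutator (K : Subgroup H) [K.FiniteIndex] : FF ⁅K, K⁆ :=
  ⟨K, inferInstance, 1, le_rfl⟩

theorem gff_not_commute {G : Type} [Group G] [IsFreeGroup G] {i j : IsFreeGroup.Generators G}
    (h : i ≠ j) : ¬ Commute (IsFreeGroup.of i) (IsFreeGroup.of j) := by
  classical
  intro hc
  have := hc.map (IsFreeGroup.lift fun k =>
    if k = i then (Equiv.swap 0 1 : Equiv.Perm (Fin 3)) else Equiv.swap 1 2)
  rw [IsFreeGroup.lift_of, IsFreeGroup.lift_of, if_pos rfl, if_neg h.symm] at this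
  revert this
  unfold Commute SemiconjBy
  decide

theorem gff_cyc {G : Type} [Group G] [IsFreeGroup G]
    (h : ∀ i j : IsFreeGroup.Generators G, i = j) : ∃ a : G, ∀ x, ∃ k : ℤ, a ^ k = x := by
  obtain ⟨a, ha⟩ : ∃ a : G, ∀ i, IsFreeGroup.of i = a := by
    rcases isEmpty_or_nonempty (IsFreeGroup.Generators G) with h0 | ⟨⟨i⟩⟩
    · exact ⟨1, fun i => h0.elim i⟩
    · exact ⟨IsFreeGroup.of i, fun j => by rw [h j i]⟩
  have e : (zpowersHom G a).comp (IsFreeGroup.lift fun _ => Multiplicative.ofAdd (1 : ℤ)) =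
      MonoidHom.id G := by
    refine IsFreeGroup.ext_hom fun i => ?_
    rw [MonoidHom.comp_apply, IsFreeGroup.lift_of, MonoidHom.id_apply, ha]
    simp
  exact ⟨a, fun x => ⟨_, DFunLike.congr_fun e x⟩⟩

theorem gff_char {G : Type} [Group G] [IsFreeGroup G] {x y : G} (hG : ¬ Commute x y) (T : Set G)
    (hT : ∀ x ∈ T, ∀ y ∈ T, Commute x y) :
    ∃ χ : G →* Multiplicative ℂ, χ ≠ 1 ∧ ∀ x ∈ T, χ x = 1 := by
  classical
  obtain ⟨i, j, hij⟩ : ∃ i j : IsFreeGroup.Generators G, i ≠ j := by
    by_contra hcon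
    push Not at hcon
    obtain ⟨a, ha⟩ := gff_cyc hcon
    obtain ⟨k, rfl⟩ := ha x
    obtain ⟨l, rfl⟩ := ha y
    exact hG (Commute.zpow_zpow_self a k l)
  have hA : ∀ p ∈ Subgroup.closure T, ∀ q ∈ Subgroup.closure T, Commute p q := by
    intro p hp q hq
    induction hp, hq using Subgroup.closure_induction₂ with
    | mem a b ha hb => exact hT a ha b hb
    | one_left a _ => exact Commute.one_left a
    | one_right a _ => exact Commute.one_right a
    | mul_left a b c _ _ _ h1 h2 => exact h1.mul_left h2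
    | mul_right a b c _ _ _ h1 h2 => exact h1.mul_right h2
    | inv_left a b _ _ h1 => exact h1.inv_left
    | inv_right a b _ _ h1 => exact h1.inv_right
  obtain ⟨a, ha⟩ := gff_cyc (G := Subgroup.closure T) fun k l => by
    by_contra hkl
    exact gff_not_commute hkl (Subtype.ext (hA _ (IsFreeGroup.of k).2 _ (IsFreeGroup.of l).2))
  let e : IsFreeGroup.Generators G → G →* Multiplicative ℂ := fun k =>
    IsFreeGroup.lift fun l => Multiplicative.ofAdd (if l = k then (1 : ℂ) else 0)
  let χ : ℂ → ℂ → G →* Multiplicative ℂ := fun α β =>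
    { toFun := fun g => Multiplicative.ofAdd (α * (e i g).toAdd + β * (e j g).toAdd)
      map_one' := by simp
      map_mul' := fun g g' => by
        rw [(e i).map_mul, (e j).map_mul, toAdd_mul, toAdd_mul, ← ofAdd_add]
        congr 1
        ring }
  have hχ : ∀ α β g, (χ α β g).toAdd = α * (e i g).toAdd + β * (e j g).toAdd := fun _ _ _ => rfl
  have hi : ∀ α β, (χ α β (IsFreeGroup.of i)).toAdd = α := by
    intro α β
    rw [hχ]
    simp [e, hij]
  have hj : ∀ α β, (χ α β (IsFreeGroup.of j)).toAdd = β := by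
    intro α β
    rw [hχ]
    simp [e, hij.symm]
  have fin : ∀ α β, (α ≠ 0 ∨ β ≠ 0) → α * (e i a).toAdd + β * (e j a).toAdd = 0 →
      ∃ χ : G →* Multiplicative ℂ, χ ≠ 1 ∧ ∀ x ∈ T, χ x = 1 := by
    intro α β h1 h2
    refine ⟨χ α β, fun h3 => ?_, fun t ht => ?_⟩
    · have a1 := hi α β
      have a2 := hj α β
      rw [h3] at a1 a2
      rcases h1 with h1 | h1
      · exact h1 a1.symm
      · exact h1 a2.symm
    · obtain ⟨k, hk⟩ := ha ⟨t, Subgroup.subset_closure ht⟩
      have hk' : (a : G) ^ k = t := by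
        rw [← Subgroup.coe_zpow, hk]
      have h4 : χ α β a = 1 := by
        apply Multiplicative.toAdd.injective
        rw [hχ, h2]
        rfl
      rw [← hk', map_zpow, h4, one_zpow]
  by_cases h0 : (e i a).toAdd = 0
  · exact fin 1 0 (Or.inl one_ne_zero) (by rw [h0]; ring)
  · exact fin (-(e j a).toAdd) (e i a).toAdd (Or.inr h0) (by ring)

/-- Images of short elements commute pairwise (`freePair_of_not_commute`), so they lie in a cyclic
subgroup. If the image of `u` is not abelian it is free of rank at least two and has two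
independent characters, hence a nonzero character that kills this cyclic subgroup, against
`span_short`. -/
theorem sp_lcs (hH : NF H) (c : ℕ) : SP ((⊤ : Subgroup H).lowerCentralSeries c) := by
  intro n u x y
  by_contra hxy
  obtain ⟨L₀, hL⟩ := span_short (lcs_fg hH c)
  obtain ⟨S, -, hS, hno, -⟩ := hH (L₀ + L₀ + L₀ + (L₀ + L₀ + L₀))
  have hcomm : ∀ p q : (⊤ : Subgroup H).lowerCentralSeries c, (p : H) ∈ ball S L₀ →
      (q : H) ∈ ball S L₀ → Commute (u p) (u q) := by
    intro p q hp hq
    by_contra hpq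
    have h1 := freePair_of_not_commute hpq
    have h2 : FreePair (u (p * p)) (u (q * p * q⁻¹ * (q * p * q⁻¹))) := by
      simpa only [map_mul, map_inv] using h1
    have h3 := FreePair.of_map u h2
    have h4 : FreePair ((p : H) * p) (q * p * (q : H)⁻¹ * (q * p * (q : H)⁻¹)) := by
      intro l l' hl hw
      refine h3 l l' hl (Subtype.ext ?_)
      have e1 := wd_map ((⊤ : Subgroup H).lowerCentralSeries c).subtype (p * p)
        (q * p * q⁻¹ * (q * p * q⁻¹)) l
      have e2 := wd_map ((⊤ : Subgroup H).lowerCentralSeries c).subtype (p * p)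
        (q * p * q⁻¹ * (q * p * q⁻¹)) l'
      exact e1.symm.trans (hw.trans e2)
    have h5 := mul_mem_ball (mul_mem_ball hq hp) (inv_mem_ball hq)
    exact hno _ (ball_mono (by omega) (mul_mem_ball hp hp)) _ (mul_mem_ball h5 h5) h4
  have hG : ¬ Commute (u.rangeRestrict x) (u.rangeRestrict y) := fun h =>
    hxy (h.map u.range.subtype)
  obtain ⟨χ, h1, h2⟩ := gff_char hG
    (u.rangeRestrict '' {p : (⊤ : Subgroup H).lowerCentralSeries c | (p : H) ∈ ball S L₀}) (by
      rintro _ ⟨p, hp, rfl⟩ _ ⟨q, hq, rfl⟩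
      exact Subtype.ext (hcomm p q hp hq))
  have h3 := hL S hS (χ.comp u.rangeRestrict) fun p hp => h2 _ ⟨p, hp, rfl⟩
  refine h1 (MonoidHom.ext fun g => ?_)
  obtain ⟨p, rfl⟩ := u.rangeRestrict_surjective g
  exact DFunLike.congr_fun h3 p

theorem gff_normal (N : Subgroup H) [N.Normal] (c : ℕ) : (N.lowerCentralSeries c).Normal := by
  induction c with
  | zero => exact (inferInstance : N.Normal)
  | succ c ih => rw [Subgroup.lowerCentralSeries_succ]; infer_instance

/-- Apply `lcs_fg`, `sp_lcs` to the normal core of the finite index subgroup and transfer along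
`Subgroup.subtype`. -/
theorem FF.exists_normal (hH : NF H) {K : Subgroup H} (h : FF K) :
    ∃ M ≤ K, FF M ∧ M.Normal ∧ M.FG ∧ SP M := by
  obtain ⟨A, hA, c, hc⟩ := h
  have hN : NF A.normalCore := hH.subgroup _
  refine ⟨A.normalCore.lowerCentralSeries c,
    (Subgroup.lowerCentralSeries_mono _ A.normalCore_le).trans hc, ⟨_, inferInstance, c, le_rfl⟩,
    gff_normal _ c, ?_, ?_⟩
  · rw [← Subgroup.top_subtype_lowerCentralSeries]
    obtain ⟨T, hT⟩ := lcs_fg hN c
    classical
    exact ⟨T.image A.normalCore.subtype, by rw [Finset.coe_image, ← MonoidHom.map_closure, hT]⟩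
  · rw [← Subgroup.top_subtype_lowerCentralSeries]
    intro n u x y
    let e := ((⊤ : Subgroup A.normalCore).lowerCentralSeries c).equivMapOfInjective
      A.normalCore.subtype A.normalCore.subtype_injective
    obtain ⟨p, rfl⟩ := e.surjective x
    obtain ⟨q, rfl⟩ := e.surjective y
    exact sp_lcs hN c n (u.comp e.toMonoidHom) p q

theorem gff_finite_hom (M Q : Type) [Group M] [Group Q] [Group.FG M] [Finite Q] :
    Finite (M →* Q) := by
  obtain ⟨S, hS, hf⟩ := Group.fg_iff.1 (inferInstance : Group.FG M)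
  have := hf.to_subtype
  refine Finite.of_injective (fun (φ : M →* Q) (s : S) => φ s) fun φ ψ h => ?_
  exact MonoidHom.eq_of_eqOn_dense hS fun s hs => congrFun h ⟨s, hs⟩

/-- Let `C` be a finitely generated term of the lower central series of `H₁`, `C₁` the intersection
of the `H₁`-conjugates of `K₀ ⊓ C` (finitely many, all of the same finite index in the finitely
generated group `C`), and `H₂` the kernel of the action of `H₁` on `C / C₁`; then
`⁅C, H₂⁆ ≤ C₁`. -/
theorem FF.of_relIndex (hH : NF H) {K K₀ : Subgroup H} (h : FF K)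
    (h₀ : (K₀.subgroupOf K).FiniteIndex) : FF K₀ := by
  obtain ⟨M, hMK, ⟨A, hA, c, hc⟩, hMn, hMf, -⟩ := h.exists_normal hH
  have hfi : (K₀.subgroupOf M).FiniteIndex :=
    ⟨fun h1 => h₀.index_ne_zero (Subgroup.relIndex_eq_zero_of_le_right hMK h1)⟩
  have : Group.FG M := (Group.fg_iff_subgroup_fg M).2 hMf
  let C := (K₀.subgroupOf M).normalCore
  have := gff_finite_hom M (M ⧸ C)
  let act : MulAction H (M →* M ⧸ C) :=
    { smul := fun g φ => φ.comp (MulAut.conjNormal g⁻¹ : MulAut M).toMonoidHom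
      one_smul := fun φ => by
        change φ.comp _ = φ
        ext m
        simp
      mul_smul := fun g g' φ => by
        change φ.comp _ = (φ.comp _).comp _
        ext m
        simp }
  let B := (MulAction.toPermHom H (M →* M ⧸ C)).ker
  have hB : B.FiniteIndex := Subgroup.finiteIndex_ker _
  have hBM : ⁅M, B⁆ ≤ K₀ := by
    rw [Subgroup.commutator_le]
    intro m hm g hg
    have h1 : g⁻¹ • QuotientGroup.mk' C = QuotientGroup.mk' C :=
      DFunLike.congr_fun (MonoidHom.mem_ker.1 (B.inv_mem hg)) (QuotientGroup.mk' C)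
    have h2 : QuotientGroup.mk' C ((MulAut.conjNormal g⁻¹⁻¹ : MulAut M) ⟨m, hm⟩⁻¹) =
        QuotientGroup.mk' C ⟨m, hm⟩⁻¹ := DFunLike.congr_fun h1 ⟨m, hm⟩⁻¹
    have h3 : (⟨m, hm⟩ : M) * (MulAut.conjNormal g⁻¹⁻¹ : MulAut M) ⟨m, hm⟩⁻¹ ∈ C := by
      rw [← QuotientGroup.ker_mk' C, MonoidHom.mem_ker, map_mul, h2, ← map_mul, mul_inv_cancel,
        map_one]
    have h4 := Subgroup.mem_subgroupOf.1 (Subgroup.normalCore_le _ h3)
    convert h4 using 1
    simp [commutatorElement_def, mul_assoc]
  refine ⟨A ⊓ B, inferInstance, c + 1, le_trans ?_ hBM⟩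
  rw [Subgroup.lowerCentralSeries_succ]
  exact Subgroup.commutator_mono ((Subgroup.lowerCentralSeries_mono _ inf_le_left).trans hc)
    inf_le_right

/-- From `vn` applied to the finite index subgroup. -/
theorem FF.commutator (hH : NF H) {K : Subgroup H} (h : FF K) : FF ⁅K, K⁆ := by
  obtain ⟨A, hA, c, hc⟩ := h
  have : A.subtype.range.FiniteIndex := by rw [Subgroup.range_subtype]; exact hA
  have h1 := (vn (hH.subgroup A) c).map A.subtype
  rw [Subgroup.map_commutator, Subgroup.top_subtype_lowerCentralSeries] at h1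
  exact h1.mono (Subgroup.commutator_mono hc hc)

/-- If the image of a member of the filter is nilpotent, the kernel is a member. -/
theorem FF.ker_of_nilpotent (hH : NF H) {K : Subgroup H} (h : FF K) (f : H →* H') {c : ℕ}
    (hc : (K.map f).lowerCentralSeries c = ⊥) : FF f.ker := by
  have h1 : ∀ k, FF (K.lowerCentralSeries k) := by
    intro k
    induction k with
    | zero => exact h
    | succ k ih =>
      exact (ih.commutator hH).mono
        (Subgroup.commutator_mono le_rfl (K.lowerCentralSeries_le_self k))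
  refine (h1 c).mono ?_
  rw [← Subgroup.map_eq_bot_iff, Subgroup.map_lowerCentralSeries, hc]

end Pool.Agent.Lib.MP_9ac97d_al
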