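import Pool.Agent.Lib.MP_9ac97d_al.GBasic

/-!
# Polynomial growth of virtually nilpotent groups (task GWolf)
-/

set_option autoImplicit false

noncomputable section

open Pointwise

namespace Pool.Agent.Lib.MP_9ac97d_al

variable {H : Type} [Group H]

/-- Iterated commutators of letters. -/
def wolfT (A : Set H) : ℕ → Set H
  | 0 => A
  | i + 1 => Set.image2 (fun t s => t⁻¹ * s⁻¹ * t * s) (wolfT A i) A

/-- All iterated commutators of weight between `2` and `c + 1`. -/
def wolfU (A : Set H) (c : ℕ) : Set H := ⋃ i ∈ Set.Icc 1 c, wolfT A i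

theorem wolfT_finite {A : Set H} (hA : A.Finite) : ∀ i, (wolfT A i).Finite
  | 0 => hA
  | i + 1 => (wolfT_finite hA i).image2 _ hA

theorem wolfU_finite {A : Set H} (hA : A.Finite) (c : ℕ) : (wolfU A c).Finite :=
  (Set.finite_Icc 1 c).biUnion fun i _ => wolfT_finite hA i

theorem wolfT_subset {A : Set H} {K : Subgroup H} (hA : A ⊆ K) :
    ∀ i, wolfT A i ⊆ K.lowerCentralSeries i
  | 0 => hA
  | i + 1 => by
    rintro _ ⟨t, ht, s, hs, rfl⟩
    have h := Subgroup.commutator_mem_commutator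
      ((K.lowerCentralSeries i).inv_mem (wolfT_subset hA i ht)) (K.inv_mem (hA hs))
    simpa [commutatorElement_def] using h

theorem wolfU_subset {A : Set H} {K : Subgroup H} (hA : A ⊆ K) (c : ℕ) :
    wolfU A c ⊆ K.lowerCentralSeries 1 := by
  intro t ht
  simp only [wolfU, Set.mem_iUnion] at ht
  obtain ⟨i, hi, ht⟩ := ht
  exact K.lowerCentralSeries_antitone hi.1 (wolfT_subset hA i ht)

theorem wolf_lcs_le (K : Subgroup H) :
    ∀ c, (K.lowerCentralSeries 1).lowerCentralSeries c ≤ K.lowerCentralSeries (c + 1)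
  | 0 => le_rfl
  | c + 1 => by
    rw [Subgroup.lowerCentralSeries_succ, Subgroup.lowerCentralSeries_succ K (c + 1)]
    exact Subgroup.commutator_mono (wolf_lcs_le K c)
      (K.lowerCentralSeries_antitone (Nat.zero_le 1))

theorem wolf_conj {A : Set H} {c : ℕ} (h1 : ∀ t ∈ wolfT A c, t = 1) :
    ∀ j i, 1 ≤ i → i + j = c → ∀ l : List H, (∀ x ∈ l, x ∈ A) → ∀ t ∈ wolfT A i,
      l.prod⁻¹ * t * l.prod ∈ ball (wolfU A c) ((l.length + 1) ^ j) := by
  intro j
  induction j with
  | zero =>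
    intro i _ hic l _ t ht
    obtain rfl : i = c := by omega
    rw [h1 t ht, mul_one, inv_mul_cancel]
    exact one_mem_ball _ _
  | succ j ih =>
    intro i hi hic l
    induction l with
    | nil =>
      intro _ t ht
      simp only [List.prod_nil, inv_one, one_mul, mul_one, List.length_nil, zero_add, one_pow]
      refine mem_ball_one (Or.inl ?_)
      simp only [wolfU, Set.mem_iUnion]
      exact ⟨i, ⟨hi, by omega⟩, ht⟩
    | cons s l ihl =>
      intro hl t ht
      have hl' : ∀ x ∈ l, x ∈ A := fun x hx => hl x (List.mem_cons_of_mem _ hx)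
      have ha := ihl hl' t ht
      have hb := ih (i + 1) (by omega) (by omega) l hl' (t⁻¹ * s⁻¹ * t * s)
        ⟨t, ht, s, hl s List.mem_cons_self, rfl⟩
      have hc := mul_mem_ball ha hb
      have he : (s :: l).prod⁻¹ * t * (s :: l).prod =
          l.prod⁻¹ * t * l.prod * (l.prod⁻¹ * (t⁻¹ * s⁻¹ * t * s) * l.prod) := by
        rw [List.prod_cons]; group
      rw [he]
      refine ball_mono ?_ hc
      have : (l.length + 1) ^ j ≤ (l.length + 1 + 1) ^ j := Nat.pow_le_pow_left (by omega) _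
      rw [List.length_cons, pow_succ, pow_succ]
      nlinarith

theorem wolf_move {A : Set H} {c : ℕ} (h1 : ∀ t ∈ wolfT A (c + 1), t = 1) {x : H} (hx : x ∈ A)
    {n : ℕ} (l2 : List H) (h2 : ∀ y ∈ l2, y ∈ A) : ∀ l1 : List H, (∀ y ∈ l1, y ∈ A) →
      (l1 ++ l2).length ≤ n → ∃ u ∈ ball (wolfU A (c + 1)) (l1.length * (n + 1) ^ c),
        (l1 ++ x :: l2).prod = x * (l1 ++ l2).prod * u := by
  intro l1
  induction l1 with
  | nil => exact fun _ _ => ⟨1, one_mem_ball _ _, by simp⟩
  | cons y l ih =>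
    intro hl hn
    have hl' : ∀ z ∈ l, z ∈ A := fun z hz => hl z (List.mem_cons_of_mem _ hz)
    have hn' : (l ++ l2).length ≤ n := by
      simp only [List.cons_append, List.length_cons] at hn; omega
    obtain ⟨u, hu, he⟩ := ih hl' hn'
    have hA : ∀ z ∈ l ++ l2, z ∈ A := fun z hz => (List.mem_append.1 hz).elim (hl' z) (h2 z)
    have hc := wolf_conj h1 c 1 le_rfl (by omega) (l ++ l2) hA (y⁻¹ * x⁻¹ * y * x)
      ⟨y, hl y List.mem_cons_self, x, hx, rfl⟩
    have hc' := ball_mono (Nat.pow_le_pow_left (Nat.add_le_add_right hn' 1) c) hc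
    refine ⟨_, ball_mono (le_of_eq ?_) (mul_mem_ball hc' hu), ?_⟩
    · rw [List.length_cons]; ring
    · rw [List.cons_append, List.cons_append, List.prod_cons, List.prod_cons, he]; group

theorem wolf_perm {A : Set H} {c : ℕ} (h1 : ∀ t ∈ wolfT A (c + 1), t = 1) {n : ℕ} :
    ∀ l' l : List H, l.Perm l' → (∀ y ∈ l, y ∈ A) → l.length ≤ n →
      ∃ u ∈ ball (wolfU A (c + 1)) (l'.length * (n * (n + 1) ^ c)), l.prod = l'.prod * u := by
  intro l'
  induction l' with
  | nil =>
    intro l hp _ _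
    rw [List.perm_nil.1 hp]
    exact ⟨1, one_mem_ball _ _, by simp⟩
  | cons x l' ih =>
    intro l hp hl hn
    obtain ⟨l1, l2, rfl⟩ := List.append_of_mem (hp.symm.subset List.mem_cons_self)
    have hp' : (l1 ++ l2).Perm l' := (List.perm_middle.symm.trans hp).cons_inv
    have hA1 : ∀ y ∈ l1, y ∈ A := fun y hy => hl y (List.mem_append_left _ hy)
    have hA2 : ∀ y ∈ l2, y ∈ A := fun y hy =>
      hl y (List.mem_append_right _ (List.mem_cons_of_mem _ hy))
    have hx : x ∈ A := hl x (List.mem_append_right _ List.mem_cons_self)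
    simp only [List.length_append, List.length_cons] at hn
    have hn' : (l1 ++ l2).length ≤ n := by rw [List.length_append]; omega
    obtain ⟨u, hu, he⟩ := wolf_move h1 hx l2 hA2 l1 hA1 hn'
    obtain ⟨u', hu', he'⟩ := ih (l1 ++ l2) hp'
      (fun y hy => (List.mem_append.1 hy).elim (hA1 y) (hA2 y)) hn'
    have hu2 := ball_mono (Nat.mul_le_mul_right ((n + 1) ^ c) (show l1.length ≤ n by omega)) hu
    refine ⟨_, ball_mono (le_of_eq ?_) (mul_mem_ball hu' hu2), ?_⟩
    · rw [List.length_cons]; ring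
    · rw [he, he', List.prod_cons]; group

theorem wolf_ncard {B R T : Set H} (hR : R.Finite) (hT : T.Finite) (h : B ⊆ R * T) :
    B.ncard ≤ R.ncard * T.ncard :=
  (Set.ncard_le_ncard h (hR.mul hT)).trans Set.natCard_mul_le

omit [Group H] in
/-- Representatives of the words of length at most `n` up to permutation. -/
theorem wolf_reps {A : Set H} (hA : A.Finite) : ∃ k : ℕ, ∀ n : ℕ, ∃ R : Set (List H), R.Finite ∧
    R.ncard ≤ (n + 1) ^ k ∧ ∀ l : List H, (∀ y ∈ l, y ∈ A) → l.length ≤ n →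
      ∃ l' ∈ R, l.Perm l' := by
  classical
  refine ⟨hA.toFinset.card, fun n => ?_⟩
  let φ : List H → hA.toFinset → ℕ := fun l a => l.count a.1
  have hex : ∀ f : hA.toFinset → ℕ, ∃ l' : List H,
      ∀ l : List H, (∀ y ∈ l, y ∈ A) → φ l = f → l.Perm l' := by
    intro f
    by_cases h : ∃ l : List H, (∀ y ∈ l, y ∈ A) ∧ φ l = f
    · obtain ⟨l', hl', hf⟩ := h
      refine ⟨l', fun l hl hf' => List.perm_iff_count.2 fun a => ?_⟩
      by_cases ha : a ∈ A
      · exact congrFun (hf'.trans hf.symm) ⟨a, hA.mem_toFinset.2 ha⟩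
      · rw [List.count_eq_zero_of_not_mem fun h => ha (hl a h),
          List.count_eq_zero_of_not_mem fun h => ha (hl' a h)]
    · exact ⟨[], fun l hl hf => absurd ⟨l, hl, hf⟩ h⟩
  choose rep hrep using hex
  refine ⟨((Fintype.piFinset fun _ : hA.toFinset => Finset.range (n + 1)).image rep : Finset _),
    Finset.finite_toSet _, ?_, fun l hl hn => ⟨rep (φ l), ?_, hrep _ l hl rfl⟩⟩
  · rw [Set.ncard_coe_finset]
    refine Finset.card_image_le.trans (le_of_eq ?_)
    simp
  · refine Finset.mem_coe.2 (Finset.mem_image_of_mem _ (Fintype.mem_piFinset.2 fun a => ?_))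
    exact Finset.mem_range.2 (Nat.lt_succ_of_le (List.count_le_length.trans hn))

theorem wolf_main : ∀ (c : ℕ) (K : Subgroup H), K.lowerCentralSeries c = ⊥ →
    ∀ S : Set H, S.Finite → S ⊆ K → PolyGrowth S := by
  intro c
  induction c with
  | zero =>
    intro K hK S hS hSK
    refine ⟨1, 0, fun k => ⟨finite_ball hS k, ?_⟩⟩
    have hsub : ball S k ⊆ {1} := by
      intro g hg
      have h : g ∈ K := (Subgroup.closure_le K).2 hSK (mem_closure_iff_ball.2 ⟨k, hg⟩)
      rw [Subgroup.lowerCentralSeries_zero] at hK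
      rw [hK] at h
      exact Subgroup.mem_bot.1 h
    simpa using Set.ncard_le_ncard hsub (Set.finite_singleton _)
  | succ c ih =>
    intro K hK S hS hSK
    have hA : (S ∪ S⁻¹).Finite := hS.union hS.inv
    have hAK : S ∪ S⁻¹ ⊆ K := by
      rintro x (hx | hx)
      · exact hSK hx
      · exact K.inv_mem_iff.1 (hSK hx)
    have h1 : ∀ t ∈ wolfT (S ∪ S⁻¹) (c + 1), t = 1 := by
      intro t ht
      have h := wolfT_subset hAK (c + 1) ht
      rw [hK] at h
      exact Subgroup.mem_bot.1 h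
    obtain ⟨C, d, hU⟩ := ih (K.lowerCentralSeries 1)
      (le_bot_iff.1 ((wolf_lcs_le K c).trans hK.le)) _ (wolfU_finite hA (c + 1))
      (wolfU_subset hAK (c + 1))
    obtain ⟨k, hk⟩ := wolf_reps hA
    refine ⟨C * 2 ^ d, k + (c + 2) * d, fun n => ⟨finite_ball hS n, ?_⟩⟩
    obtain ⟨R, hR, hRc, hRp⟩ := hk n
    have hsub : ball S n ⊆ (List.prod '' R) * ball (wolfU (S ∪ S⁻¹) (c + 1)) ((n + 1) ^ (c + 2)) := by
      rintro _ ⟨l, hn, hl, rfl⟩
      have hl' : ∀ y ∈ l, y ∈ S ∪ S⁻¹ := fun y hy => hl y hy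
      obtain ⟨l', hl'R, hp⟩ := hRp l hl' hn
      obtain ⟨u, hu, he⟩ := wolf_perm h1 l' l hp hl' hn
      refine ⟨_, ⟨l', hl'R, rfl⟩, u, ball_mono ?_ hu, he.symm⟩
      rw [← hp.length_eq]
      calc l.length * (n * (n + 1) ^ c) ≤ (n + 1) * ((n + 1) * (n + 1) ^ c) :=
            Nat.mul_le_mul (by omega) (Nat.mul_le_mul_right _ (by omega))
        _ = (n + 1) ^ (c + 2) := by ring
    have h2 := wolf_ncard (hR.image _) (hU _).1 hsub
    have h3 : (List.prod '' R).ncard ≤ (n + 1) ^ k := (Set.ncard_image_le hR).trans hRc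
    have h4 : (n + 1) ^ (c + 2) + 1 ≤ 2 * (n + 1) ^ (c + 2) := by
      have : 0 < (n + 1) ^ (c + 2) := by positivity
      omega
    calc (ball S n).ncard ≤ (n + 1) ^ k * (C * (2 * (n + 1) ^ (c + 2)) ^ d) :=
          h2.trans (Nat.mul_le_mul h3 ((hU _).2.trans
            (Nat.mul_le_mul_left _ (Nat.pow_le_pow_left h4 d))))
      _ = C * 2 ^ d * (n + 1) ^ (k + (c + 2) * d) := by
          rw [mul_pow, ← pow_mul, pow_add]; ring

/-- Collection. Let `T` be the finite list of all iterated commutators of weight `1 ≤ w ≤ c + 1`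
in `S ∪ S⁻¹` and their inverses, with weights, ordered by weight; the commutator of two letters of
weights `i`, `j` is a letter of weight `i + j`, or trivial if `i + j` is too large. A word of length
`m` in the letters of index `≥ k` equals `t k ^ a * w'` with `a ≤ m` and `w'` a word in the letters of
index `> k` of length at most `3 m ^ (c + 2)`: moving one `t k` to the left multiplies the potential
`∑ m ^ (- weight)` by at most `1 + 1 / m`. Any other proof is welcome (for instance induction on the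
class with a polynomial distortion bound). -/
theorem polyGrowth_of_nilpotent {c : ℕ} (hc : (⊤ : Subgroup H).lowerCentralSeries c = ⊥)
    {S : Set H} (hS : S.Finite) : PolyGrowth S :=
  wolf_main c ⊤ hc S hS fun _ _ => trivial

/-- Pass to the finite index subgroup: the ball of radius `k` is covered by finitely many
translates of the ball of radius `k` for the finite set of Schreier generators. -/
theorem polyGrowth_of_ff (h : FF (⊥ : Subgroup H)) {S : Set H} (hS : S.Finite)
    (hgen : Subgroup.closure S = ⊤) : PolyGrowth S := by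
  classical
  have _ := hgen
  obtain ⟨K, hK, c, hc⟩ := h
  let r : H → H := fun g => (QuotientGroup.mk g : H ⧸ K).out
  have hr : ∀ g, (r g)⁻¹ * g ∈ K := fun g =>
    QuotientGroup.eq.1 (QuotientGroup.out_eq' (QuotientGroup.mk g : H ⧸ K))
  have hR : (Set.range r).Finite :=
    (Set.finite_range (fun q : H ⧸ K => q.out)).subset (by rintro _ ⟨g, rfl⟩; exact ⟨_, rfl⟩)
  have hA : (S ∪ S⁻¹).Finite := hS.union hS.inv
  let T : Set H := Set.image2 (fun s g => (r (s * g))⁻¹ * (s * g)) (S ∪ S⁻¹) (Set.range r)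
  have hT : T.Finite := hA.image2 _ hR
  have hTK : T ⊆ K := by
    rintro _ ⟨s, -, g, -, rfl⟩
    exact hr _
  obtain ⟨C, d, hP⟩ := wolf_main c K (le_bot_iff.1 hc) T hT hTK
  have key : ∀ l : List H, (∀ x ∈ l, x ∈ S ∨ x⁻¹ ∈ S) →
      ∃ g ∈ Set.range r, ∃ u ∈ ball T l.length, l.prod * r 1 = g * u := by
    intro l
    induction l with
    | nil => exact fun _ => ⟨r 1, ⟨1, rfl⟩, 1, one_mem_ball _ _, by simp⟩
    | cons s l ih =>
      intro hl
      obtain ⟨g, hg, u, hu, he⟩ := ih fun x hx => hl x (List.mem_cons_of_mem _ hx)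
      have ht : (r (s * g))⁻¹ * (s * g) ∈ ball T 1 :=
        mem_ball_one (Or.inl ⟨s, hl s List.mem_cons_self, g, hg, rfl⟩)
      refine ⟨r (s * g), ⟨_, rfl⟩, _, ball_mono (le_of_eq ?_) (mul_mem_ball ht hu), ?_⟩
      · rw [List.length_cons]; ring
      · rw [List.prod_cons, mul_assoc, he]; group
  refine ⟨(Set.range r).ncard * C, d, fun k => ⟨finite_ball hS k, ?_⟩⟩
  have hsub : (fun g => g * r 1) '' ball S k ⊆ Set.range r * ball T k := by
    rintro _ ⟨_, ⟨l, hn, hl, rfl⟩, rfl⟩
    obtain ⟨g, hg, u, hu, he⟩ := key l hl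
    exact ⟨g, hg, u, ball_mono hn hu, he.symm⟩
  have h2 := wolf_ncard hR (hP k).1 hsub
  rw [Set.ncard_image_of_injective _ (mul_left_injective (r 1))] at h2
  rw [mul_assoc]
  exact h2.trans (Nat.mul_le_mul_left _ (hP k).2)

theorem wolf_not_le {a C : ℝ} (ha : 1 < a) (d : ℕ) : ¬ ∀ k : ℕ, a ^ k ≤ C * ((k : ℝ) + 1) ^ d := by
  intro h
  have ht := ((tendsto_pow_const_div_const_pow_of_one_lt d ha).comp
    (Filter.tendsto_add_atTop_nat 1)).const_mul (C * a)
  rw [mul_zero] at ht
  obtain ⟨k, hk⟩ := (ht.eventually (gt_mem_nhds zero_lt_one)).exists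
  have ha0 : 0 < a := by linarith
  have hp : 0 < a ^ k := by positivity
  have he : C * a * ((fun n : ℕ => (n : ℝ) ^ d / a ^ n) ∘ fun n => n + 1) k =
      C * ((k : ℝ) + 1) ^ d / a ^ k := by
    simp only [Function.comp_apply, Nat.cast_add, Nat.cast_one, pow_succ]
    field_simp
  rw [he, div_lt_one hp] at hk
  exact absurd (h k) (not_le.2 hk)

theorem PolyGrowth.not_exp {S : Set H} (h : PolyGrowth S) {c : ℝ} (hc : 1 < c) :
    ¬ ∀ k : ℕ, c ^ k ≤ ((ball S k).ncard : ℝ) := by
  obtain ⟨C, d, h⟩ := h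
  intro hk
  refine wolf_not_le (C := C) hc d fun k => (hk k).trans ?_
  exact_mod_cast (h k).2

theorem PolyGrowth.exists_lt_two_mul {S : Set H} (h : PolyGrowth S) (c : ℕ) :
    ∃ k, (ball S (k + c)).ncard < 2 * (ball S k).ncard := by
  obtain ⟨C, d, h⟩ := h
  by_contra hn
  push Not at hn
  have h1 : ∀ j : ℕ, 2 ^ j ≤ (ball S (j * c)).ncard := by
    intro j
    induction j with
    | zero =>
      exact (Set.ncard_pos (h _).1).2 ⟨1, one_mem_ball _ _⟩
    | succ j ih =>
      have := hn (j * c)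
      rw [Nat.succ_mul, pow_succ]
      omega
  refine wolf_not_le (a := 2) (C := C * ((c : ℝ) + 1) ^ d) one_lt_two d fun k => ?_
  have h2 : 2 ^ k ≤ C * (c + 1) ^ d * (k + 1) ^ d := by
    refine (h1 k).trans ((h _).2.trans ?_)
    rw [mul_assoc, ← mul_pow]
    exact Nat.mul_le_mul_left _ (Nat.pow_le_pow_left (by nlinarith) d)
  exact_mod_cast h2

end Pool.Agent.Lib.MP_9ac97d_al
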