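import Pool.Agent.Lib.MP_9ac97d_al.Grp

/-!
# Balls, ping-pong, inheritance of `NF` (task GBasic)
-/

set_option autoImplicit false

noncomputable section

open Pointwise

namespace Pool.Agent.Lib.MP_9ac97d_al

variable {H H' : Type} [Group H] [Group H']

theorem ball_mono {S : Set H} {a b : ℕ} (h : a ≤ b) : ball S a ⊆ ball S b := by
  rintro g ⟨l, hl, hs, rfl⟩
  exact ⟨l, hl.trans h, hs, rfl⟩

theorem one_mem_ball (S : Set H) (a : ℕ) : (1 : H) ∈ ball S a := by
  exact ⟨[], Nat.zero_le _, by simp, rfl⟩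

theorem mem_ball_one {S : Set H} {s : H} (h : s ∈ S ∨ s⁻¹ ∈ S) : s ∈ ball S 1 := by
  exact ⟨[s], le_rfl, by simpa using h, by simp⟩

theorem mul_mem_ball {S : Set H} {a b : ℕ} {x y : H} (hx : x ∈ ball S a) (hy : y ∈ ball S b) :
    x * y ∈ ball S (a + b) := by
  obtain ⟨l, hl, hs, rfl⟩ := hx
  obtain ⟨l', hl', hs', rfl⟩ := hy
  refine ⟨l ++ l', by rw [List.length_append]; omega, fun z hz => ?_, List.prod_append⟩
  rcases List.mem_append.1 hz with h | h
  · exact hs z h
  · exact hs' z h

theorem inv_mem_ball {S : Set H} {a : ℕ} {x : H} (hx : x ∈ ball S a) : x⁻¹ ∈ ball S a := by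
  obtain ⟨l, hl, hs, rfl⟩ := hx
  refine ⟨(l.map fun z => z⁻¹).reverse, by simpa using hl, fun z hz => ?_,
    (List.prod_inv_reverse l).symm⟩
  obtain ⟨w, hw, rfl⟩ := List.mem_map.1 (List.mem_reverse.1 hz)
  rw [inv_inv]
  exact (hs w hw).symm

theorem pow_mem_ball {S : Set H} {a : ℕ} {x : H} (hx : x ∈ ball S a) (k : ℕ) :
    x ^ k ∈ ball S (k * a) := by
  induction k with
  | zero => rw [pow_zero]; exact one_mem_ball _ _
  | succ k ih => rw [pow_succ, Nat.succ_mul]; exact mul_mem_ball ih hx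

theorem gbasic_mem_succ {S : Set H} {a : ℕ} {g : H} (h : g ∈ ball S (a + 1)) :
    g = 1 ∨ ∃ s g', (s ∈ S ∨ s⁻¹ ∈ S) ∧ g' ∈ ball S a ∧ g = s * g' := by
  obtain ⟨l, hl, hs, rfl⟩ := h
  cases l with
  | nil => exact Or.inl rfl
  | cons s l =>
    refine Or.inr ⟨s, l.prod, hs s (by simp), ⟨l, by simpa using hl,
      fun z hz => hs z (by simp [hz]), rfl⟩, List.prod_cons⟩

theorem gbasic_mem_zero {S : Set H} {g : H} (h : g ∈ ball S 0) : g = 1 := by
  obtain ⟨l, hl, -, rfl⟩ := h
  rw [List.length_eq_zero_iff.1 (Nat.le_zero.1 hl)]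
  rfl

theorem finite_ball {S : Set H} (hS : S.Finite) (a : ℕ) : (ball S a).Finite := by
  induction a with
  | zero => exact (Set.finite_singleton 1).subset fun g hg => gbasic_mem_zero hg
  | succ a ih =>
    refine ((Set.finite_singleton 1).union ((hS.union hS.inv).mul ih)).subset fun g hg => ?_
    rcases gbasic_mem_succ hg with h | ⟨s, g', hs, hg', rfl⟩
    · exact Or.inl h
    · exact Or.inr (Set.mul_mem_mul hs hg')

theorem ball_image (f : H →* H') (S : Set H) (a : ℕ) : ball (f '' S) a = f '' ball S a := by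
  induction a with
  | zero =>
    ext g
    constructor
    · intro hg
      exact ⟨1, one_mem_ball _ _, by rw [map_one, gbasic_mem_zero hg]⟩
    · rintro ⟨g, hg, rfl⟩
      rw [gbasic_mem_zero hg, map_one]
      exact one_mem_ball _ _
  | succ a ih =>
    ext g
    constructor
    · intro hg
      rcases gbasic_mem_succ hg with rfl | ⟨s, g', hs, hg', rfl⟩
      · exact ⟨1, one_mem_ball _ _, map_one f⟩
      · rw [ih] at hg'
        obtain ⟨g', hg', rfl⟩ := hg'
        have : ∃ t, (t ∈ S ∨ t⁻¹ ∈ S) ∧ f t = s := by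
          rcases hs with ⟨t, ht, rfl⟩ | ⟨t, ht, h⟩
          · exact ⟨t, Or.inl ht, rfl⟩
          · exact ⟨t⁻¹, Or.inr (by simpa using ht), by rw [map_inv, h, inv_inv]⟩
        obtain ⟨t, ht, rfl⟩ := this
        refine ⟨t * g', ?_, map_mul f _ _⟩
        rw [add_comm]
        exact mul_mem_ball (mem_ball_one ht) hg'
    · rintro ⟨g, hg, rfl⟩
      rcases gbasic_mem_succ hg with rfl | ⟨s, g', hs, hg', rfl⟩
      · rw [map_one]; exact one_mem_ball _ _
      · rw [map_mul, add_comm]
        refine mul_mem_ball (mem_ball_one ?_) (ih ▸ Set.mem_image_of_mem f hg')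
        rcases hs with h | h
        · exact Or.inl ⟨s, h, rfl⟩
        · exact Or.inr ⟨s⁻¹, h, map_inv f s⟩

theorem ball_subset_of_subset {S T : Set H} {a : ℕ} (h : T ⊆ ball S a) (b : ℕ) :
    ball T b ⊆ ball S (b * a) := by
  induction b with
  | zero => intro g hg; rw [gbasic_mem_zero hg]; exact one_mem_ball _ _
  | succ b ih =>
    intro g hg
    rcases gbasic_mem_succ hg with rfl | ⟨s, g', hs, hg', rfl⟩
    · exact one_mem_ball _ _
    · rw [Nat.succ_mul, add_comm]
      refine mul_mem_ball ?_ (ih hg')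
      rcases hs with hs | hs
      · exact h hs
      · simpa using inv_mem_ball (h hs)

theorem mem_closure_iff_ball {S : Set H} {g : H} :
    g ∈ Subgroup.closure S ↔ ∃ a, g ∈ ball S a := by
  constructor
  · intro hg
    induction hg using Subgroup.closure_induction with
    | mem x hx => exact ⟨1, mem_ball_one (Or.inl hx)⟩
    | one => exact ⟨0, one_mem_ball _ _⟩
    | mul x y _ _ hx hy =>
      obtain ⟨a, ha⟩ := hx
      obtain ⟨b, hb⟩ := hy
      exact ⟨a + b, mul_mem_ball ha hb⟩
    | inv x _ hx =>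
      obtain ⟨a, ha⟩ := hx
      exact ⟨a, inv_mem_ball ha⟩
  · rintro ⟨a, l, -, hs, rfl⟩
    refine Subgroup.list_prod_mem _ fun x hx => ?_
    rcases hs x hx with h | h
    · exact Subgroup.subset_closure h
    · exact (Subgroup.inv_mem_iff _).1 (Subgroup.subset_closure h)

theorem gbasic_wd_nil (x y : H) : wd x y [] = 1 := rfl

theorem gbasic_wd_true (x y : H) (l : List Bool) : wd x y (true :: l) = x * wd x y l := by
  simp [wd]

theorem gbasic_wd_false (x y : H) (l : List Bool) : wd x y (false :: l) = y * wd x y l := by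
  simp [wd]

theorem wd_map (f : H →* H') (x y : H) (l : List Bool) : wd (f x) (f y) l = f (wd x y l) := by
  induction l with
  | nil => simp [gbasic_wd_nil]
  | cons b l ih => cases b <;> simp [gbasic_wd_true, gbasic_wd_false, ih]

theorem FreePair.of_map (f : H →* H') {x y : H} (h : FreePair (f x) (f y)) : FreePair x y := by
  intro l l' hl he
  exact h l l' hl (by rw [wd_map, wd_map, he])

theorem gbasic_freePair_map (f : H →* H') (hf : Function.Injective f) {x y : H}
    (h : FreePair x y) : FreePair (f x) (f y) := by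
  intro l l' hl he
  rw [wd_map, wd_map] at he
  exact h l l' hl (hf he)

theorem gbasic_wd_mem {S : Set H} {a : ℕ} {x y : H} (hx : x ∈ ball S a) (hy : y ∈ ball S a)
    (l : List Bool) : wd x y l ∈ ball S (l.length * a) := by
  induction l with
  | nil => exact one_mem_ball _ _
  | cons b l ih =>
    rw [List.length_cons, Nat.succ_mul, add_comm]
    cases b
    · rw [gbasic_wd_false]; exact mul_mem_ball hy ih
    · rw [gbasic_wd_true]; exact mul_mem_ball hx ih

/-- Ping-pong, for an action of `H` in which the kernel of `π` acts trivially. -/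
theorem pingpong {X : Type} [MulAction H X] (π : H →* H')
    (hπ : ∀ e, π e = 1 → ∀ p : X, e • p = p) {x y : H} {B P Q : Set X} (hB : B.Nonempty)
    (hP : P ⊆ B) (hQ : Q ⊆ B) (hPQ : Disjoint P Q) (hx : ∀ p ∈ B, x • p ∈ P)
    (hy : ∀ p ∈ B, y • p ∈ Q) : FreePair (π x) (π y) := by
  obtain ⟨p, hp⟩ := hB
  have hw : ∀ l : List Bool, wd x y l • p ∈ B := by
    intro l
    induction l with
    | nil => simpa [gbasic_wd_nil] using hp
    | cons b l ih =>
      cases b
      · rw [gbasic_wd_false, mul_smul]; exact hQ (hy _ ih)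
      · rw [gbasic_wd_true, mul_smul]; exact hP (hx _ ih)
  have hne : ∀ l l' : List Bool,
      wd (π x) (π y) (true :: l) ≠ wd (π x) (π y) (false :: l') := by
    intro l l' he
    rw [wd_map, wd_map] at he
    have h1 := hπ (wd x y (true :: l) * (wd x y (false :: l'))⁻¹)
      (by rw [map_mul, map_inv, he, mul_inv_cancel]) (wd x y (false :: l') • p)
    rw [mul_smul, inv_smul_smul, gbasic_wd_true, gbasic_wd_false, mul_smul, mul_smul] at h1
    exact Set.disjoint_left.1 hPQ (hx _ (hw l)) (h1 ▸ hy _ (hw l'))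
  intro l
  induction l with
  | nil => intro l' hl _; exact (List.length_eq_zero_iff.1 hl.symm).symm
  | cons b l ih =>
    intro l' hl he
    cases l' with
    | nil => simp at hl
    | cons b' l' =>
      have hl' : l.length = l'.length := by simpa using hl
      cases b <;> cases b'
      · rw [gbasic_wd_false, gbasic_wd_false] at he
        rw [ih l' hl' (mul_left_cancel he)]
      · exact absurd he.symm (hne _ _)
      · exact absurd he (hne _ _)
      · rw [gbasic_wd_true, gbasic_wd_true] at he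
        rw [ih l' hl' (mul_left_cancel he)]

theorem NoFree.mono {S : Set H} {a b : ℕ} (h : NoFree S b) (hab : a ≤ b) : NoFree S a := by
  exact fun x hx y hy => h x (ball_mono hab hx) y (ball_mono hab hy)

theorem NFP.mono {P Q : Set H → Prop} (h : NFP H P)
    (hPQ : ∀ S, S.Finite → Subgroup.closure S = ⊤ → P S → Q S) : NFP H Q := by
  intro L
  obtain ⟨S, h1, h2, h3, h4⟩ := h L
  exact ⟨S, h1, h2, h3, hPQ S h1 h2 h4⟩

theorem NFP.nf {P : Set H → Prop} (h : NFP H P) : NF H := h.mono fun _ _ _ _ => trivial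

/-- Pigeonhole: one alternative occurs for unboundedly many `L`. -/
theorem NFP.pigeon {κ : Type} [Finite κ] {P : κ → Set H → Prop}
    (h : NFP H fun S => ∃ i, P i S) : ∃ i, NFP H (P i) := by
  by_contra hc
  have hc' : ∀ i, ∃ L : ℕ, ¬ ∃ S : Set H,
      S.Finite ∧ Subgroup.closure S = ⊤ ∧ NoFree S L ∧ P i S := fun i =>
    not_forall.1 fun h' => hc ⟨i, h'⟩
  choose L hL using hc'
  obtain ⟨M, hM⟩ := (Set.finite_range L).bddAbove
  obtain ⟨S, h1, h2, h3, i, h4⟩ := h M
  exact hL i ⟨S, h1, h2, h3.mono (hM ⟨i, rfl⟩), h4⟩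

theorem NFP.map {P : Set H → Prop} (h : NFP H P) (f : H →* H') (hf : Function.Surjective f) :
    NFP H' fun S' => ∃ S, S.Finite ∧ Subgroup.closure S = ⊤ ∧ P S ∧ S' = f '' S := by
  intro L
  obtain ⟨S, h1, h2, h3, h4⟩ := h L
  refine ⟨f '' S, h1.image f, ?_, ?_, S, h1, h2, h4, rfl⟩
  · rw [← MonoidHom.map_closure, h2, ← MonoidHom.range_eq_map, MonoidHom.range_eq_top]
    exact hf
  · intro x hx y hy hxy
    rw [ball_image] at hx hy
    obtain ⟨x, hx, rfl⟩ := hx
    obtain ⟨y, hy, rfl⟩ := hy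
    exact h3 x hx y hy (FreePair.of_map f hxy)

theorem NF.map (h : NF H) (f : H →* H') (hf : Function.Surjective f) : NF H' :=
  (NFP.map h f hf).nf

theorem NF.fg (h : NF H) : Group.FG H := by
  obtain ⟨S, h1, h2, -⟩ := h 0
  exact Group.fg_iff.2 ⟨S, h2, h1⟩

theorem gbasic_induction {S : Set H} (hS : Subgroup.closure S = ⊤) {P : H → Prop} (h1 : P 1)
    (hs : ∀ s g, (s ∈ S ∨ s⁻¹ ∈ S) → P g → P (s * g)) (g : H) : P g := by
  obtain ⟨a, l, -, hl, rfl⟩ := mem_closure_iff_ball.1 (hS ▸ Subgroup.mem_top g)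
  induction l with
  | nil => exact h1
  | cons s l ih =>
    rw [List.prod_cons]
    exact hs _ _ (hl s (by simp)) (ih fun z hz => hl z (by simp [hz]))

theorem gbasic_orbit {X : Type} [MulAction H X] {S : Set H} (hS : Subgroup.closure S = ⊤)
    (p : X) (m : ℕ) :
    (∃ z : Fin (m + 1) → H, (∀ i, z i ∈ ball S m) ∧ Function.Injective fun i => z i • p) ∨
      ∃ Z : Set H, Z.Finite ∧ Z ⊆ ball S m ∧ ∀ g : H, ∃ z ∈ Z, g • p = z • p := by
  induction m with
  | zero =>
    exact Or.inl ⟨fun _ => 1, fun _ => one_mem_ball _ _, fun i j _ => Fin.ext (by omega)⟩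
  | succ m ih =>
    rcases ih with ⟨z, hz, hi⟩ | ⟨Z, h1, h2, h3⟩
    · by_cases hc : ∀ g ∈ ball S (m + 1), ∃ i, g • p = z i • p
      · refine Or.inr ⟨Set.range z, Set.finite_range z, ?_, fun g => ?_⟩
        · rintro _ ⟨i, rfl⟩
          exact ball_mono (Nat.le_succ m) (hz i)
        · induction g using gbasic_induction hS with
          | h1 =>
            obtain ⟨i, h⟩ := hc 1 (one_mem_ball _ _)
            exact ⟨z i, ⟨i, rfl⟩, h⟩
          | hs s g hs ih =>
            obtain ⟨_, ⟨i, rfl⟩, h⟩ := ih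
            obtain ⟨j, h'⟩ := hc (s * z i)
              (by rw [add_comm]; exact mul_mem_ball (mem_ball_one hs) (hz i))
            exact ⟨z j, ⟨j, rfl⟩, by rw [← h', mul_smul, mul_smul, h]⟩
      · push Not at hc
        obtain ⟨g, hg, hne⟩ := hc
        refine Or.inl ⟨Fin.cons g z, fun i => ?_, fun i j hij => ?_⟩
        · refine Fin.cases ?_ (fun i => ?_) i
          · exact hg
          · exact ball_mono (Nat.le_succ m) (hz i)
        · revert hij
          refine Fin.cases ?_ (fun i => ?_) i <;> refine Fin.cases ?_ (fun j => ?_) j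
          · exact fun _ => rfl
          · exact fun h => absurd h (hne j)
          · exact fun h => absurd h.symm (hne i)
          · exact fun h => congrArg Fin.succ (hi h)
    · exact Or.inr ⟨Z, h1, h2.trans (ball_mono (Nat.le_succ m)), h3⟩

/-- An infinite orbit has at least `m + 1` points within distance `m`. -/
theorem exists_orbit_points {X : Type} [MulAction H X] {S : Set H}
    (hS : Subgroup.closure S = ⊤) {p : X} (hp : (MulAction.orbit H p).Infinite) (m : ℕ) :
    ∃ z : Fin (m + 1) → H, (∀ i, z i ∈ ball S m) ∧ Function.Injective fun i => z i • p := by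
  rcases gbasic_orbit hS p m with h | ⟨Z, h1, -, h3⟩
  · exact h
  · refine absurd ((h1.image fun z => z • p).subset ?_) hp
    rintro _ ⟨g, rfl⟩
    obtain ⟨z, hz, h⟩ := h3 g
    exact ⟨z, hz, h.symm⟩

/-- Schreier: a finite index subgroup is generated by its short elements. (Each coset has a
representative of length less than the index, by the argument of `exists_orbit_points`.) -/
theorem schreier (K : Subgroup H) [K.FiniteIndex] {S : Set H} (hS : Subgroup.closure S = ⊤) :
    Subgroup.closure (K.subtype ⁻¹' ball S (2 * K.index + 1)) = ⊤ := by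
  have hr : ∀ g : H, ∃ z ∈ ball S K.index, (z : H ⧸ K) = (g : H ⧸ K) := by
    rcases gbasic_orbit hS ((1 : H) : H ⧸ K) K.index with ⟨z, -, hi⟩ | ⟨Z, -, h2, h3⟩
    · have h := Nat.card_le_card_of_injective _ hi
      rw [Nat.card_eq_fintype_card, Fintype.card_fin, ← Subgroup.index_eq_card] at h
      omega
    · intro g
      obtain ⟨z, hz, h⟩ := h3 g
      refine ⟨z, h2 hz, ?_⟩
      simpa [MulAction.Quotient.smul_mk] using h.symm
  set T := Subgroup.closure (K.subtype ⁻¹' ball S (2 * K.index + 1)) with hT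
  have key : ∀ g : H, ∃ z ∈ ball S K.index, ∃ k ∈ T, g = z * (k : K) := by
    intro g
    induction g using gbasic_induction hS with
    | h1 => exact ⟨1, one_mem_ball _ _, 1, T.one_mem, by simp⟩
    | hs s g hs ih =>
      obtain ⟨z, hz, k, hk, rfl⟩ := ih
      obtain ⟨z', hz', h⟩ := hr (s * z)
      have hK : z'⁻¹ * (s * z) ∈ K := QuotientGroup.eq.1 h
      refine ⟨z', hz', ⟨_, hK⟩ * k, T.mul_mem (Subgroup.subset_closure ?_) hk, ?_⟩
      · change z'⁻¹ * (s * z) ∈ ball S (2 * K.index + 1)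
        exact ball_mono (by omega)
          (mul_mem_ball (inv_mem_ball hz') (mul_mem_ball (mem_ball_one hs) hz))
      · simp [mul_assoc]
  rw [eq_top_iff]
  rintro ⟨g, hg⟩ -
  obtain ⟨z, hz, k, hk, rfl⟩ := key g
  have hzK : z ∈ K := (K.mul_mem_cancel_right k.2).1 hg
  have h1 : (⟨z, hzK⟩ : K) ∈ T := Subgroup.subset_closure (ball_mono (by omega) hz)
  exact T.mul_mem h1 hk

theorem NF.subgroup (h : NF H) (K : Subgroup H) [K.FiniteIndex] : NF K := by
  intro L
  obtain ⟨S, h1, h2, h3, -⟩ := h (L * (2 * K.index + 1))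
  refine ⟨K.subtype ⁻¹' ball S (2 * K.index + 1),
    (finite_ball h1 _).preimage K.subtype_injective.injOn, schreier K h2, ?_, trivial⟩
  have hsub : ∀ x ∈ ball (K.subtype ⁻¹' ball S (2 * K.index + 1)) L,
      K.subtype x ∈ ball S (L * (2 * K.index + 1)) := fun x hx =>
    ball_subset_of_subset (Set.image_preimage_subset K.subtype _) L
      (by rw [ball_image]; exact Set.mem_image_of_mem _ hx)
  intro x hx y hy hxy
  exact h3 _ (hsub x hx) _ (hsub y hy) (gbasic_freePair_map _ K.subtype_injective hxy)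

/-- A finite symmetric set of lifts of a finite set. -/
theorem exists_lifts (π : H →* H') (hπ : Function.Surjective π) {S : Set H'} (hS : S.Finite) :
    ∃ T : Set H, T.Finite ∧ π '' T = S := by
  refine ⟨Function.surjInv hπ '' S, hS.image _, ?_⟩
  rw [Set.image_image]
  simp [Function.surjInv_eq hπ]

/-- In a nilpotent action, an element with a unique fixed point yields a global fixed point.
(Induct up the series: if the term `c + 1` fixes `p`, then for `z` in the term `c`,
`x z p = z x [..] p = z p`.) -/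
theorem fixed_of_unique {X : Type} [MulAction H X] {c : ℕ}
    (hc : ∀ g ∈ (⊤ : Subgroup H).lowerCentralSeries c, ∀ q : X, g • q = q) {x : H} {p : X}
    (hx : ∀ q : X, x • q = q ↔ q = p) (g : H) : g • p = p := by
  have key : ∀ c : ℕ, (∀ g ∈ (⊤ : Subgroup H).lowerCentralSeries c, g • p = p) →
      ∀ g : H, g • p = p := by
    intro c
    induction c with
    | zero => exact fun h g => h g (Subgroup.mem_top g)
    | succ c ih =>
      intro h
      refine ih fun z hz => (hx _).1 ?_
      have h1 : z⁻¹ * x⁻¹ * z⁻¹⁻¹ * x⁻¹⁻¹ ∈ (⊤ : Subgroup H).lowerCentralSeries (c + 1) :=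
        Subgroup.commutator_mem_commutator (Subgroup.inv_mem _ hz) (Subgroup.mem_top _)
      have h2 := h _ (Subgroup.inv_mem _ h1)
      have h3 : x * z = z * (x * (z⁻¹ * x⁻¹ * z⁻¹⁻¹ * x⁻¹⁻¹)⁻¹) := by group
      rw [← mul_smul, h3, mul_smul, mul_smul, h2, (hx p).2 rfl]
  exact key c (fun g hg => hc g hg p) g

/-- No uniform exponential growth implies `NF`. If `x, y` are an `L`-short free pair then the ball
of radius `k ≥ 1` has at least `max 2 (2 ^ (k / L)) ≥ 2 ^ (k / (2 L))` elements. -/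
theorem nf_of_not_ueg
    (h : ¬ ∃ c : ℝ, 1 < c ∧ ∀ S : Set H, S.Finite → Subgroup.closure S = ⊤ →
      ∀ k : ℕ, c ^ k ≤ ((ball S k).ncard : ℝ)) : NF H := by
  intro L
  by_contra hc
  apply h
  have hM : 2 * (L + 1) ≠ 0 := by omega
  obtain ⟨c, hc1, hc2⟩ : ∃ c : ℝ, 1 < c ∧ c ^ (2 * (L + 1)) = 2 :=
    ⟨(2 : ℝ) ^ (((2 * (L + 1) : ℕ) : ℝ)⁻¹), Real.one_lt_rpow one_lt_two (by positivity),
      Real.rpow_inv_natCast_pow zero_le_two hM⟩
  refine ⟨c, hc1, fun S hS hS' k => ?_⟩
  have hfree : ∃ x ∈ ball S L, ∃ y ∈ ball S L, FreePair x y := by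
    by_contra h'
    exact hc ⟨S, hS, hS', fun x hx y hy hxy => h' ⟨x, hx, y, hy, hxy⟩, trivial⟩
  obtain ⟨x, hx, y, hy, hxy⟩ := hfree
  have hA : ∀ n : ℕ, n * L ≤ k → 2 ^ n ≤ (ball S k).ncard := by
    intro n hn
    have h1 := Set.ncard_le_ncard_of_injOn (s := (Set.univ : Set (Fin n → Bool)))
      (t := ball S k) (fun v => wd x y (List.ofFn v))
      (fun v _ => ball_mono (by rwa [List.length_ofFn]) (gbasic_wd_mem hx hy _))
      (fun v _ v' _ he => List.ofFn_injective (hxy _ _ (by simp) he)) (finite_ball hS k)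
    rwa [Set.ncard_univ, Nat.card_eq_fintype_card, Fintype.card_fun, Fintype.card_bool,
      Fintype.card_fin] at h1
  have hB : 1 ≤ k → 2 ^ 1 ≤ (ball S k).ncard := by
    intro hk
    have hs : ∃ s ∈ ball S 1, s ≠ 1 := by
      by_contra h'
      push Not at h'
      have h1 : ∀ g ∈ ball S L, g = 1 := fun g hg =>
        gbasic_mem_zero (S := S) (ball_subset_of_subset (a := 0) (T := S)
          (fun s hs => by rw [h' s (mem_ball_one (Or.inl hs))]; exact one_mem_ball _ _) L hg)
      have h2 := hxy [true] [false] rfl (by simp [wd, h1 x hx, h1 y hy])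
      simp at h2
    obtain ⟨s, hs, hs1⟩ := hs
    rw [pow_one, ← Set.ncard_pair hs1]
    refine Set.ncard_le_ncard ?_ (finite_ball hS k)
    rintro g (rfl | rfl)
    · exact ball_mono hk hs
    · exact one_mem_ball _ _
  have hC : ∀ n : ℕ, k ≤ 2 * (L + 1) * n → 2 ^ n ≤ (ball S k).ncard →
      c ^ k ≤ ((ball S k).ncard : ℝ) := by
    intro n hn h2
    calc c ^ k ≤ c ^ (2 * (L + 1) * n) := pow_le_pow_right₀ hc1.le hn
      _ = 2 ^ n := by rw [pow_mul, hc2]
      _ ≤ _ := by exact_mod_cast h2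
  rcases Nat.eq_zero_or_pos k with hk | hk
  · exact hC 0 (by omega) (hA 0 (by omega))
  · rcases lt_or_ge k (L + 1) with hk' | hk'
    · exact hC 1 (by omega) (hB hk)
    · have h1 : 1 ≤ k / (L + 1) := (Nat.one_le_div_iff (by omega)).2 hk'
      have h2 := Nat.div_add_mod k (L + 1)
      have h3 := Nat.mod_lt k (show 0 < L + 1 by omega)
      generalize k / (L + 1) = n at h1 h2
      generalize k % (L + 1) = r at h2 h3
      refine hC n ?_ (hA _ ?_) <;> nlinarith

end Pool.Agent.Lib.MP_9ac97d_al
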