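import Pool.Agent.Lib.MP_9ac97d_al.SL
import Pool.Agent.Lib.MP_9ac97d_al.GBasic

/-!
# Almost orthogonal bases and almost extremal norms (task Auer)
-/

set_option autoImplicit false

noncomputable section

open Pointwise

namespace Pool.Agent.Lib.MP_9ac97d_al

variable {D V : Type} [NormedDivisionRing D] [AddCommGroup V] [Module D V] [Module.Finite D V]

omit [Module.Finite D V] in
theorem auer_zero {N : V → ℝ} (h : IsNorm D N) : N 0 = 0 := by
  have := h.smul 0 0
  simpa using this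

omit [Module.Finite D V] in
theorem auer_neg {N : V → ℝ} (h : IsNorm D N) (v : V) : N (-v) = N v := by
  have := h.smul (-1) v
  simpa using this

omit [Module.Finite D V] in
theorem auer_nonneg {N : V → ℝ} (h : IsNorm D N) (v : V) : 0 ≤ N v := by
  have h1 := h.add v (-v)
  rw [add_neg_cancel, auer_zero h, auer_neg h] at h1
  linarith

omit [Module.Finite D V] in
theorem auer_sum_le {N : V → ℝ} (h : IsNorm D N) {ι : Type} (s : Finset ι) (f : ι → V) :
    N (∑ i ∈ s, f i) ≤ ∑ i ∈ s, N (f i) := by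
  classical
  induction s using Finset.induction_on with
  | empty => simp [auer_zero h]
  | insert a s ha ih =>
    rw [Finset.sum_insert ha, Finset.sum_insert ha]
    exact (h.add _ _).trans (by linarith)

omit [Module.Finite D V] in
theorem auer_bdd {N : V → ℝ} (h : IsNorm D N) (f : V →ₗ[D] D) :
    ∃ C : ℝ, 0 < C ∧ ∀ v, ‖f v‖ ≤ C * N v := by
  obtain ⟨C, hC⟩ := h.bdd f
  refine ⟨|C| + 1, by positivity, fun v => (hC v).trans ?_⟩
  exact mul_le_mul_of_nonneg_right ((le_abs_self C).trans (by linarith)) (auer_nonneg h v)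

omit [Module.Finite D V] in
theorem auer_repr_le {N : V → ℝ} (h : IsNorm D N) {κ : Type} [Fintype κ]
    (b : Module.Basis κ D V) (v : V) : N v ≤ ∑ i, ‖b.repr v i‖ * N (b i) := by
  conv_lhs => rw [← b.sum_repr v]
  refine (auer_sum_le h _ _).trans (le_of_eq ?_)
  exact Finset.sum_congr rfl fun i _ => h.smul _ _

theorem IsNorm.nonneg {N : V → ℝ} (h : IsNorm D N) (v : V) : 0 ≤ N v :=
  auer_nonneg h v

theorem IsNorm.eq_zero {N : V → ℝ} (h : IsNorm D N) {v : V} (hv : N v = 0) : v = 0 := by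
  let b := Module.finBasis D V
  refine b.repr.injective ?_
  ext i
  obtain ⟨C, hC⟩ := h.bdd (b.coord i)
  have h1 := hC v
  rw [hv, mul_zero, norm_le_zero_iff] at h1
  simpa using h1

theorem auer_pos {N : V → ℝ} (h : IsNorm D N) {v : V} (hv : v ≠ 0) : 0 < N v :=
  lt_of_le_of_ne (h.nonneg v) fun h0 => hv (h.eq_zero h0.symm)

theorem isNorm_basis {κ : Type} [Fintype κ] (b : Module.Basis κ D V) :
    IsNorm D fun v => ‖(fun i => b.repr v i : κ → D)‖ := by
  refine ⟨fun v w => ?_, fun d v => ?_, fun f => ?_⟩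
  · have : (fun i => b.repr (v + w) i : κ → D) =
        (fun i => b.repr v i : κ → D) + (fun i => b.repr w i : κ → D) := by
      funext i; simp
    rw [this]
    exact norm_add_le _ _
  · have : (fun i => b.repr (d • v) i : κ → D) = d • (fun i => b.repr v i : κ → D) := by
      funext i; simp
    rw [this]
    exact norm_smul _ _
  · refine ⟨∑ i, ‖f (b i)‖, fun v => ?_⟩
    conv_lhs => rw [← b.sum_repr v]
    rw [map_sum, Finset.sum_mul]
    refine (norm_sum_le _ _).trans (Finset.sum_le_sum fun i _ => ?_)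
    rw [map_smul, smul_eq_mul, norm_mul, mul_comm]
    exact mul_le_mul_of_nonneg_left
      (norm_le_pi_norm (fun i => b.repr v i : κ → D) i) (norm_nonneg _)

theorem IsNorm.equiv {N N' : V → ℝ} (h : IsNorm D N) (h' : IsNorm D N') :
    ∃ C : ℝ, 0 < C ∧ ∀ v, N v ≤ C * N' v := by
  let b := Module.finBasis D V
  choose C hC0 hC using fun i => auer_bdd h' (b.coord i)
  have hs : 0 ≤ ∑ i, C i * N (b i) :=
    Finset.sum_nonneg fun i _ => mul_nonneg (hC0 i).le (h.nonneg _)
  refine ⟨∑ i, C i * N (b i) + 1, by linarith, fun v => (auer_repr_le h b v).trans ?_⟩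
  have h2 : ∑ i, ‖b.repr v i‖ * N (b i) ≤ (∑ i, C i * N (b i)) * N' v := by
    rw [Finset.sum_mul]
    refine Finset.sum_le_sum fun i _ => ?_
    have h3 : ‖b.repr v i‖ ≤ C i * N' v := hC i v
    calc ‖b.repr v i‖ * N (b i) ≤ C i * N' v * N (b i) :=
          mul_le_mul_of_nonneg_right h3 (h.nonneg _)
      _ = C i * N (b i) * N' v := by ring
  have h4 := h'.nonneg v
  nlinarith

omit [Module.Finite D V] in
theorem auer_restrict {N : V → ℝ} (h : IsNorm D N) (W : Submodule D V) :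
    IsNorm D fun w : W => N w := by
  refine ⟨fun v w => h.add _ _, fun d v => h.smul _ _, fun f => ?_⟩
  obtain ⟨g, hg⟩ := LinearMap.exists_extend f
  obtain ⟨C, hC⟩ := h.bdd g
  refine ⟨C, fun v => ?_⟩
  rw [← hg]
  exact hC v

omit [Module.Finite D V] in
/-- A vector with `f e = 1` of almost minimal norm. -/
theorem auer_min {N : V → ℝ} (h : IsNorm D N) (f : V →ₗ[D] D) {e₀ : V} (he : f e₀ = 1)
    {θ : ℝ} (hθ : 1 < θ) : ∃ e, f e = 1 ∧ ∀ v, ‖f v‖ * N e ≤ θ * N v := by
  obtain ⟨C, hC0, hC⟩ := auer_bdd h f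
  let X : Set ℝ := N '' {e | f e = 1}
  have hne : X.Nonempty := ⟨_, e₀, he, rfl⟩
  have hlow : ∀ x ∈ X, C⁻¹ ≤ x := by
    rintro _ ⟨e, he1, rfl⟩
    have h1 := hC e
    rw [show f e = 1 from he1, norm_one] at h1
    rw [inv_le_iff_one_le_mul₀' hC0]
    exact h1
  have hbd : BddBelow X := ⟨_, hlow⟩
  have hpos : 0 < sInf X := lt_of_lt_of_le (inv_pos.2 hC0) (le_csInf hne hlow)
  obtain ⟨_, ⟨e, he1, rfl⟩, hlt⟩ := exists_lt_of_csInf_lt hne
    (show sInf X < θ * sInf X by nlinarith)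
  refine ⟨e, he1, fun v => ?_⟩
  by_cases hv : f v = 0
  · rw [hv, norm_zero, zero_mul]
    exact mul_nonneg (by linarith) (auer_nonneg h v)
  · have h1 : sInf X ≤ N ((f v)⁻¹ • v) := by
      refine csInf_le hbd ⟨_, ?_, rfl⟩
      simp [hv]
    rw [h.smul, norm_inv] at h1
    have h2 : 0 < ‖f v‖ := norm_pos_iff.2 hv
    have h3 : ‖f v‖ * sInf X ≤ N v := by
      calc ‖f v‖ * sInf X ≤ ‖f v‖ * (‖f v‖⁻¹ * N v) := mul_le_mul_of_nonneg_left h1 h2.le
        _ = N v := by field_simp
    calc ‖f v‖ * N e ≤ ‖f v‖ * (θ * sInf X) := mul_le_mul_of_nonneg_left hlt.le h2.le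
      _ = θ * (‖f v‖ * sInf X) := by ring
      _ ≤ θ * N v := mul_le_mul_of_nonneg_left h3 (by linarith)

/-- The common core of the two statements on almost orthogonal bases. -/
theorem auer_core (D : Type) [NormedDivisionRing D] {θ c : ℝ} (hθ : 1 < θ) (hc : θ ≤ c) (m : ℕ) :
    ∀ (V : Type) [AddCommGroup V] [Module D V] [Module.Finite D V], Module.finrank D V = m →
      ∀ N : V → ℝ, IsNorm D N → (∀ v w, N w ≤ θ * N v → N (v - w) ≤ c * N v) →
        ∃ b : Module.Basis (Fin m) D V,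
          ∀ (x : Fin m → D) i, ‖x i‖ * N (b i) ≤ c ^ m * N (∑ j, x j • b j) := by
  induction m with
  | zero =>
    intro V _ _ _ hm N _ _
    exact ⟨Module.finBasisOfFinrankEq D V hm, fun _ i => i.elim0⟩
  | succ m ih =>
    intro V _ _ _ hm N h hN
    let a := Module.finBasisOfFinrankEq D V hm
    let f : V →ₗ[D] D := a.coord 0
    have hf : f (a 0) = 1 := by simp [f]
    obtain ⟨e, he1, he⟩ := auer_min h f hf hθ
    have hsurj : LinearMap.range f = ⊤ := by
      rw [eq_top_iff]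
      intro d _
      exact ⟨d • e, by rw [map_smul, he1, smul_eq_mul, mul_one]⟩
    have hker : Module.finrank D (LinearMap.ker f) = m := by
      have h1 := f.finrank_range_add_finrank_ker
      rw [hsurj, finrank_top, Module.finrank_self, hm] at h1
      omega
    obtain ⟨b, hb⟩ := ih (LinearMap.ker f) hker (fun w => N w) (auer_restrict h _)
      fun v w hvw => hN v w hvw
    have hli : ∀ (d : D), ∀ x ∈ LinearMap.ker f, d • e + x = 0 → d = 0 := by
      intro d x hx h0
      have h1 := congrArg f h0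
      rw [map_add, map_smul, he1, LinearMap.mem_ker.1 hx, map_zero] at h1
      simpa using h1
    have hsp : ∀ z : V, ∃ d : D, z + d • e ∈ LinearMap.ker f := by
      intro z
      refine ⟨-f z, ?_⟩
      rw [LinearMap.mem_ker, map_add, map_smul, he1]
      simp
    refine ⟨Module.Basis.mkFinCons e b hli hsp, fun x i => ?_⟩
    rw [Module.Basis.coe_mkFinCons, Fin.sum_univ_succ]
    simp only [Fin.cons_zero, Fin.cons_succ, Function.comp_apply]
    set w : LinearMap.ker f := ∑ j, x (Fin.succ j) • b j with hw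
    have hw' : ∑ j : Fin m, x j.succ • (b j : V) = (w : V) := by
      rw [hw, Submodule.coe_sum]; rfl
    rw [hw']
    have hfv : f (x 0 • e + w) = x 0 := by
      rw [map_add, map_smul, he1, LinearMap.mem_ker.1 w.2]
      simp
    have h0 := he (x 0 • e + w)
    rw [hfv] at h0
    have hn := h.nonneg (x 0 • e + w)
    have hc1 : 1 ≤ c := by linarith
    have hcm : 1 ≤ c ^ m := one_le_pow₀ hc1
    refine Fin.cases ?_ (fun i => ?_) i
    · rw [Fin.cons_zero]
      refine h0.trans (mul_le_mul_of_nonneg_right ?_ hn)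
      rw [pow_succ]
      nlinarith
    · rw [Fin.cons_succ]
      have h1 := hN (x 0 • e + w) (x 0 • e) (by rw [h.smul]; exact h0)
      rw [add_sub_cancel_left] at h1
      have h2 := hb (fun j => x j.succ) i
      calc ‖x i.succ‖ * N (b i : V) ≤ c ^ m * N (w : V) := h2
        _ ≤ c ^ m * (c * N (x 0 • e + w)) := mul_le_mul_of_nonneg_left h1 (by linarith)
        _ = c ^ (m + 1) * N (x 0 • e + w) := by ring

/-- Choose `e k` in the step `k` of a flag with `N (e k) ≤ 2 dist (e k, previous step)`; then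
`‖x k‖ N (e k) ≤ 2 * 3 ^ m N v`. Rescale by powers of `t`. The constant depends only on `m` and
`t`. -/
theorem exists_auerbach (D : Type) [NormedDivisionRing D] {t : D} (ht0 : t ≠ 0) (ht1 : ‖t‖ < 1)
    (m : ℕ) : ∃ C : ℝ, 1 ≤ C ∧ ∀ (V : Type) [AddCommGroup V] [Module D V] [Module.Finite D V],
      Module.finrank D V = m → ∀ N : V → ℝ, IsNorm D N →
        ∃ b : Module.Basis (Fin (Module.finrank D V)) D V,
          (∀ i, N (b i) ≤ C) ∧ ∀ v i, ‖b.repr v i‖ ≤ C * N v := by
  have ht : 0 < ‖t‖ := norm_pos_iff.2 ht0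
  have hy : 1 < ‖t‖⁻¹ := (one_lt_inv₀ ht).2 ht1
  have h3 : (1 : ℝ) ≤ 3 ^ m := one_le_pow₀ (by norm_num)
  refine ⟨‖t‖⁻¹ * 3 ^ m, by nlinarith, ?_⟩
  intro V _ _ _ hm N h
  subst hm
  obtain ⟨b, hb⟩ := auer_core D (θ := 2) (c := 3) (by norm_num) (by norm_num) _ V rfl N h
    fun v w hvw => by
      have h1 := h.add v (-w)
      rw [auer_neg h, ← sub_eq_add_neg] at h1
      linarith
  choose n hn using fun i => exists_mem_Ioc_zpow (auer_pos h (b.ne_zero i)) hy
  have hu : ∀ i, IsUnit (t ^ n i) := fun i => (zpow_ne_zero _ ht0).isUnit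
  have hN : ∀ i, 1 ≤ N (b.isUnitSMul hu i) ∧ N (b.isUnitSMul hu i) ≤ ‖t‖⁻¹ := by
    intro i
    rw [Module.Basis.isUnitSMul_apply, h.smul, norm_zpow]
    obtain ⟨h1, h2⟩ := hn i
    have hp : 0 < ‖t‖ ^ n i := zpow_pos ht _
    rw [inv_zpow] at h1
    rw [zpow_add_one₀ (by positivity), inv_zpow] at h2
    constructor
    · calc (1 : ℝ) = ‖t‖ ^ n i * (‖t‖ ^ n i)⁻¹ := by field_simp
        _ ≤ _ := mul_le_mul_of_nonneg_left h1.le hp.le
    · calc ‖t‖ ^ n i * N (b i) ≤ ‖t‖ ^ n i * ((‖t‖ ^ n i)⁻¹ * ‖t‖⁻¹) :=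
            mul_le_mul_of_nonneg_left h2 hp.le
        _ = ‖t‖⁻¹ := by field_simp
  refine ⟨b.isUnitSMul hu, fun i => (hN i).2.trans (by nlinarith), fun v i => ?_⟩
  set b' := b.isUnitSMul hu with hb'
  have h1 := hb (fun j => b'.repr v j * t ^ n j) i
  have h2 : ∑ j, (b'.repr v j * t ^ n j) • b j = v := by
    conv_rhs => rw [← b'.sum_repr v]
    refine Finset.sum_congr rfl fun j _ => ?_
    rw [mul_smul]
    congr 1
    exact (Module.Basis.isUnitSMul_apply hu j).symm
  have h4 : N (b' i) = ‖t ^ n i‖ * N (b i) := by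
    rw [hb', Module.Basis.isUnitSMul_apply, h.smul]
  rw [h2, norm_mul, mul_assoc, ← h4] at h1
  have h5 := (hN i).1
  have h6 := norm_nonneg (b'.repr v i)
  have h7 := h.nonneg v
  calc ‖b'.repr v i‖ ≤ ‖b'.repr v i‖ * N (b' i) := by nlinarith
    _ ≤ 3 ^ Module.finrank D V * N v := h1
    _ ≤ ‖t‖⁻¹ * 3 ^ Module.finrank D V * N v := by
        refine mul_le_mul_of_nonneg_right ?_ h7
        nlinarith

/-- The ultrametric version, with constant arbitrarily close to one. -/
theorem exists_almost_orth [IsUltrametricDist D] {N : V → ℝ} (h : IsNorm D N)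
    (hu : ∀ v w, N (v + w) ≤ max (N v) (N w)) {θ : ℝ} (hθ : 1 < θ) :
    ∃ b : Module.Basis (Fin (Module.finrank D V)) D V,
      ∀ v i, ‖b.repr v i‖ * N (b i) ≤ θ * N v := by
  obtain ⟨c, hc1, hc⟩ : ∃ c : ℝ, 1 < c ∧ c ^ Module.finrank D V ≤ θ := by
    refine ⟨θ ^ ((Module.finrank D V + 1 : ℕ) : ℝ)⁻¹, Real.one_lt_rpow hθ (by positivity), ?_⟩
    have h1 := Real.rpow_inv_natCast_pow (x := θ) (n := Module.finrank D V + 1) (by linarith)
      (Nat.succ_ne_zero _)
    refine le_trans ?_ h1.le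
    exact pow_le_pow_right₀ (Real.one_lt_rpow hθ (by positivity)).le (Nat.le_succ _)
  obtain ⟨b, hb⟩ := auer_core D hc1 le_rfl _ V rfl N h fun v w hvw => by
    have h1 := hu v (-w)
    rw [auer_neg h, ← sub_eq_add_neg] at h1
    refine h1.trans (max_le ?_ hvw)
    have := h.nonneg v
    nlinarith
  refine ⟨b, fun v i => ?_⟩
  have h1 := hb (fun j => b.repr v j) i
  rw [b.sum_repr] at h1
  exact h1.trans (mul_le_mul_of_nonneg_right hc (h.nonneg v))

/-- The product of a list of elements, all in `S` or inverses of elements of `S`. -/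
def IsWord {E : Type} [Group E] (S : Set E) (k : ℕ) (w : E) : Prop :=
  ∃ l : List E, l.length = k ∧ (∀ x ∈ l, x ∈ S ∨ x⁻¹ ∈ S) ∧ l.prod = w

theorem auer_word_zero {E : Type} [Group E] (S : Set E) : IsWord S 0 1 :=
  ⟨[], rfl, by simp, rfl⟩

theorem auer_word_mul {E : Type} [Group E] {S : Set E} {k : ℕ} {w s : E} (hw : IsWord S k w)
    (hs : s ∈ S ∨ s⁻¹ ∈ S) : IsWord S (k + 1) (w * s) := by
  obtain ⟨l, hl, hS, rfl⟩ := hw
  refine ⟨l ++ [s], by simp [hl], fun x hx => ?_, by simp⟩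
  rcases List.mem_append.1 hx with hx | hx
  · exact hS x hx
  · rw [List.mem_singleton.1 hx]; exact hs

theorem auer_letters_finite {E : Type} [Group E] {S : Set E} (hS : S.Finite) :
    {s | s ∈ S ∨ s⁻¹ ∈ S}.Finite :=
  hS.union hS.inv

theorem auer_words_finite {E : Type} [Group E] {S : Set E} (hS : S.Finite) (k : ℕ) :
    {w | IsWord S k w}.Finite := by
  induction k with
  | zero =>
    refine (Set.finite_singleton 1).subset ?_
    rintro _ ⟨l, hl, -, rfl⟩
    rw [List.length_eq_zero_iff.1 hl]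
    rfl
  | succ k ih =>
    refine (Set.Finite.image2 (· * ·) (auer_letters_finite hS) ih).subset ?_
    rintro _ ⟨l, hl, hS', rfl⟩
    cases l with
    | nil => simp at hl
    | cons a l =>
      refine ⟨a, hS' a (by simp), l.prod, ⟨l, by simpa using hl, fun x hx => hS' x ?_, rfl⟩, ?_⟩
      · simp [hx]
      · simp

omit [Module.Finite D V] in
theorem auer_act_mul {E : Type} [Group E] (A : SL E D V) (a b : E) (v : V) :
    A.act (a * b) v = A.act a (A.act b v) := by
  rw [map_mul]; rfl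

omit [Module.Finite D V] in
theorem auer_act_one {E : Type} [Group E] (A : SL E D V) (v : V) : A.act 1 v = v := by
  rw [map_one]; rfl

omit [Module.Finite D V] in
theorem auer_comp {E : Type} [Group E] (A : SL E D V) {N : V → ℝ} (h : IsNorm D N) (s : E)
    {c : ℝ} (hc : 0 < c) : IsNorm D fun v => N (A.act s v) / c := by
  refine ⟨fun v w => ?_, fun d v => ?_, fun f => ?_⟩
  · rw [map_add, ← add_div]
    exact div_le_div_of_nonneg_right (h.add _ _) hc.le
  · rw [A.smul, h.smul, A.iso, mul_div_assoc]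
  · let g : V →ₗ[D] D :=
      { toFun := fun u => A.α s (f (A.act s⁻¹ u))
        map_add' := fun u u' => by rw [map_add, map_add, map_add]
        map_smul' := fun d u => by
          rw [A.smul, map_smul, smul_eq_mul, map_mul, RingHom.id_apply, smul_eq_mul]
          congr 1
          change (A.α s * A.α s⁻¹) d = d
          rw [← map_mul, mul_inv_cancel, map_one]
          rfl }
    obtain ⟨C, hC⟩ := h.bdd g
    refine ⟨C * c, fun v => ?_⟩
    have h1 := hC (A.act s v)
    have h2 : g (A.act s v) = A.α s (f v) := by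
      change A.α s (f (A.act s⁻¹ (A.act s v))) = _
      rw [← auer_act_mul, inv_mul_cancel, auer_act_one]
    rw [h2, A.iso] at h1
    refine h1.trans (le_of_eq ?_)
    field_simp

omit [Module.Finite D V] in
theorem auer_sup {ι : Type} {P : Set ι} (hP : P.Finite) (hne : P.Nonempty) (M : ι → V → ℝ)
    (hM : ∀ i ∈ P, IsNorm D (M i)) : ∃ N : V → ℝ, IsNorm D N ∧ (∀ i ∈ P, ∀ v, M i v ≤ N v) ∧
      ∀ v, ∃ i ∈ P, N v = M i v := by
  choose g hg hmax using fun v => Set.exists_max_image P (fun i => M i v) hP hne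
  refine ⟨fun v => M (g v) v, ⟨fun v w => ?_, fun d v => ?_, fun f => ?_⟩,
    fun i hi v => hmax v i hi, fun v => ⟨g v, hg v, rfl⟩⟩
  · exact ((hM _ (hg _)).add v w).trans (add_le_add (hmax v _ (hg _)) (hmax w _ (hg _)))
  · apply le_antisymm
    · rw [(hM _ (hg _)).smul]
      exact mul_le_mul_of_nonneg_left (hmax v _ (hg _)) (norm_nonneg _)
    · rw [← (hM _ (hg v)).smul]
      exact hmax _ _ (hg _)
  · obtain ⟨i, hi⟩ := hne
    obtain ⟨C, hC0, hC⟩ := auer_bdd (hM i hi) f
    exact ⟨C, fun v => (hC v).trans (mul_le_mul_of_nonneg_left (hmax v i hi) hC0.le)⟩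

omit [Module.Finite D V] in
theorem auer_upper {E : Type} [Group E] (A : SL E D V) (δ : E →* ℝ) (hδ : ∀ e, 0 < δ e)
    {S : Set E} {N : V → ℝ} {r : ℝ} (hr : 0 ≤ r)
    (hN : ∀ s, (s ∈ S ∨ s⁻¹ ∈ S) → ∀ v, N (A.act s v) ≤ r * δ s * N v) {k : ℕ} {w : E}
    (hw : IsWord S k w) (v : V) : N (A.act w v) ≤ δ w * r ^ k * N v := by
  obtain ⟨l, rfl, hS, rfl⟩ := hw
  induction l with
  | nil => simp [auer_act_one]
  | cons a l ih =>
    rw [List.prod_cons, auer_act_mul, List.length_cons, map_mul]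
    have h1 := ih fun x hx => hS x (by simp [hx])
    calc N (A.act a (A.act l.prod v)) ≤ r * δ a * N (A.act l.prod v) := hN a (hS a (by simp)) _
      _ ≤ r * δ a * (δ l.prod * r ^ l.length * N v) :=
          mul_le_mul_of_nonneg_left h1 (mul_nonneg hr (hδ a).le)
      _ = δ a * δ l.prod * r ^ (l.length + 1) * N v := by ring

omit [Module.Finite D V] in
/-- The improvement trick. -/
theorem auer_improve {E : Type} [Group E] (A : SL E D V) (δ : E →* ℝ) (hδ : ∀ e, 0 < δ e)
    {S : Set E} (hS : S.Finite) {N : V → ℝ} (h : IsNorm D N) {r : ℝ} (hr : 0 < r) {k : ℕ}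
    (hk : ∀ w, IsWord S (k + 1) w → ∀ v, N (A.act w v) ≤ δ w * r ^ (k + 1) * N v) :
    ∃ N' : V → ℝ, IsNorm D N' ∧
      ∀ s, (s ∈ S ∨ s⁻¹ ∈ S) → ∀ v, N' (A.act s v) ≤ r * δ s * N' v := by
  let P : Set (ℕ × E) := {p | p.1 ≤ k ∧ IsWord S p.1 p.2}
  have hP : P.Finite := by
    refine ((Set.finite_Iic k).prod
      ((Set.finite_Iic k).biUnion fun j _ => auer_words_finite hS j)).subset ?_
    rintro ⟨j, w⟩ ⟨hj, hw⟩
    exact ⟨hj, Set.mem_biUnion hj hw⟩
  have h0 : ((0 : ℕ), (1 : E)) ∈ P := ⟨Nat.zero_le _, auer_word_zero S⟩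
  have hpos : ∀ (j : ℕ) (w : E), 0 < δ w * r ^ j := fun j w => mul_pos (hδ w) (pow_pos hr j)
  obtain ⟨N', hN', hle, heq⟩ := auer_sup (D := D) hP ⟨_, h0⟩
    (fun p v => N (A.act p.2 v) / (δ p.2 * r ^ p.1)) fun p _ => auer_comp A h p.2 (hpos _ _)
  refine ⟨N', hN', fun s hs v => ?_⟩
  obtain ⟨⟨j, w⟩, ⟨hj, hw⟩, he⟩ := heq (A.act s v)
  dsimp only at hj hw he
  have hws := auer_word_mul hw hs
  have key : N (A.act (w * s) v) ≤ δ (w * s) * r ^ (j + 1) * N' v := by
    rcases hj.lt_or_eq with hj | rfl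
    · have h1 := hle (j + 1, w * s) ⟨hj, hws⟩ v
      rw [div_le_iff₀' (hpos _ _)] at h1
      exact h1
    · have h1 := hle _ h0 v
      dsimp only at h1
      rw [auer_act_one, map_one, pow_zero, mul_one, div_one] at h1
      exact (hk _ hws v).trans (mul_le_mul_of_nonneg_left h1 (hpos _ _).le)
  rw [he, div_le_iff₀' (hpos _ _), ← auer_act_mul]
  refine key.trans (le_of_eq ?_)
  rw [map_mul]
  ring

/-- Let `ρ` be the infimum over all norms of the least `r` with `N (s v) ≤ r δ s N v` for all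
letters `s`. For a norm within the factor `1 + η` of the infimum: the upper bound is clear, and for
every `k` some word of length `k` has `N (w v) ≥ ρ ^ k δ w N v / 2` for some `v ≠ 0`, since otherwise
`v ↦ max over words w of length j < k of N (w v) / (δ w r ^ j)` would be a better norm for some
`r < ρ`. Pass to the basis of `exists_auerbach`. -/
theorem exists_extremal (D : Type) [NormedDivisionRing D] {t : D} (ht0 : t ≠ 0) (ht1 : ‖t‖ < 1)
    (m : ℕ) : ∃ C : ℝ, 1 ≤ C ∧ ∀ (E V : Type) [Group E] [AddCommGroup V] [Module D V]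
      [Module.Finite D V] [Nontrivial V], Module.finrank D V = m → ∀ (A : SL E D V) (δ : E →* ℝ),
      (∀ e, 0 < δ e) → ∀ S : Set E, S.Finite → ∀ r₀ : ℝ, 0 < r₀ →
      (∀ N : V → ℝ, IsNorm D N → ∃ s, (s ∈ S ∨ s⁻¹ ∈ S) ∧ ∃ v, r₀ * δ s * N v < N (A.act s v)) →
      ∃ ρ : ℝ, r₀ ≤ ρ ∧ ∀ η : ℝ, 0 < η → ∃ b : Module.Basis (Fin (Module.finrank D V)) D V,
        (∀ k w, IsWord S k w → ∀ i j,
          ‖b.repr (A.act w (b i)) j‖ ≤ C * δ w * (ρ * (1 + η)) ^ k) ∧
        ∀ k, ∃ w, IsWord S k w ∧ ∃ i j, δ w * ρ ^ k ≤ C * ‖b.repr (A.act w (b i)) j‖ := by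
  obtain ⟨C, hC1, hC⟩ := exists_auerbach D ht0 ht1 m
  have hm2 : (0 : ℝ) ≤ (m : ℝ) ^ 2 := by positivity
  have hC2 : 1 ≤ C ^ 2 := one_le_pow₀ hC1
  refine ⟨(2 * (m : ℝ) ^ 2 + 1) * C ^ 2, by nlinarith, ?_⟩
  intro E V _ _ _ _ _ hm A δ hδ S hS r₀ hr₀ hyp
  let R : Set ℝ := {r | ∃ N : V → ℝ, IsNorm D N ∧
    ∀ s, (s ∈ S ∨ s⁻¹ ∈ S) → ∀ v, N (A.act s v) ≤ r * δ s * N v}
  have hlow : ∀ r ∈ R, r₀ ≤ r := by
    rintro r ⟨N, h, hN⟩
    obtain ⟨s, hs, v, hv⟩ := hyp N h
    have h1 := hv.trans_le (hN s hs v)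
    rw [mul_assoc, mul_assoc] at h1
    exact (lt_of_mul_lt_mul_right h1 (mul_nonneg (hδ s).le (h.nonneg v))).le
  have hne : R.Nonempty := by
    have h := isNorm_basis (Module.finBasis D V)
    generalize (fun v => ‖(fun i => (Module.finBasis D V).repr v i : _ → D)‖) = N at h
    choose c _ hc using fun s => (auer_comp A h s (hδ s)).equiv h
    obtain ⟨r, hr⟩ := ((auer_letters_finite hS).image c).bddAbove
    refine ⟨r, N, h, fun s hs v => ?_⟩
    have h1 := hc s v
    rw [div_le_iff₀ (hδ s)] at h1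
    have h2 : c s ≤ r := hr ⟨s, hs, rfl⟩
    calc N (A.act s v) ≤ c s * N v * δ s := h1
      _ = c s * (δ s * N v) := by ring
      _ ≤ r * (δ s * N v) :=
          mul_le_mul_of_nonneg_right h2 (mul_nonneg (hδ s).le (h.nonneg v))
      _ = r * δ s * N v := by ring
  have hbd : BddBelow R := ⟨_, hlow⟩
  have hρ : r₀ ≤ sInf R := le_csInf hne hlow
  have hρ0 : 0 < sInf R := hr₀.trans_le hρ
  refine ⟨sInf R, hρ, fun η hη => ?_⟩
  obtain ⟨r, ⟨N, h, hN⟩, hr⟩ := exists_lt_of_csInf_lt hne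
    (show sInf R < sInf R * (1 + η) by nlinarith)
  have hN' : ∀ s, (s ∈ S ∨ s⁻¹ ∈ S) → ∀ v,
      N (A.act s v) ≤ sInf R * (1 + η) * δ s * N v := fun s hs v =>
    (hN s hs v).trans (mul_le_mul_of_nonneg_right
      (mul_le_mul_of_nonneg_right hr.le (hδ s).le) (h.nonneg v))
  obtain ⟨b, hb1, hb2⟩ := hC V hm N h
  refine ⟨b, fun k w hw i j => ?_, fun k => ?_⟩
  · have h1 := auer_upper A δ hδ (by positivity) hN' hw (b i)
    have h2 : 0 ≤ δ w * (sInf R * (1 + η)) ^ k := mul_nonneg (hδ w).le (by positivity)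
    calc ‖b.repr (A.act w (b i)) j‖ ≤ C * N (A.act w (b i)) := hb2 _ _
      _ ≤ C * (δ w * (sInf R * (1 + η)) ^ k * C) :=
          mul_le_mul_of_nonneg_left (h1.trans (mul_le_mul_of_nonneg_left (hb1 i) h2))
            (by linarith)
      _ = C ^ 2 * (δ w * (sInf R * (1 + η)) ^ k) := by ring
      _ ≤ (2 * (m : ℝ) ^ 2 + 1) * C ^ 2 * (δ w * (sInf R * (1 + η)) ^ k) :=
          mul_le_mul_of_nonneg_right (by nlinarith) h2
      _ = _ := by ring
  · cases k with
    | zero =>
      have i : Fin (Module.finrank D V) := ⟨0, Module.finrank_pos⟩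
      refine ⟨1, auer_word_zero S, i, i, ?_⟩
      rw [auer_act_one, map_one, pow_zero, b.repr_self, Finsupp.single_eq_same, norm_one]
      nlinarith
    | succ k =>
      by_contra hcon
      push Not at hcon
      set ρ := sInf R with hρdef
      have hk0 : (0 : ℝ) < (k : ℝ) + 1 := by positivity
      set a : ℝ := -(1 / (2 * ((k : ℝ) + 1))) with ha
      have ha1 : a < 0 := by rw [ha]; exact neg_lt_zero.2 (by positivity)
      have ha2 : ((k + 1 : ℕ) : ℝ) * a = -(1 / 2) := by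
        rw [ha]; push_cast; field_simp
      have ha3 : -(1 / 2) ≤ a := by
        rw [← ha2]; push_cast
        have : (0 : ℝ) ≤ k := Nat.cast_nonneg k
        nlinarith
      have hB : 1 / 2 ≤ (1 + a) ^ (k + 1) := by
        have := one_add_mul_le_pow (a := a) (by linarith) (k + 1)
        linarith
      have hr0 : 0 < ρ * (1 + a) := mul_pos hρ0 (by linarith)
      have hmem : ρ * (1 + a) ∈ R := by
        refine auer_improve A δ hδ hS h hr0 (k := k) fun w hw v => ?_
        set B := δ w * ρ ^ (k + 1) with hBdef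
        have hB0 : 0 < B := mul_pos (hδ w) (pow_pos hρ0 _)
        set K := (2 * (m : ℝ) ^ 2 + 1) * C ^ 2 with hK
        have hK0 : 0 < K := by rw [hK]; positivity
        have h1 : ∀ i, N (A.act w (b i)) ≤ m * (B / K * C) := by
          intro i
          refine (auer_repr_le h b _).trans ?_
          have h2 : ∀ j ∈ Finset.univ, ‖b.repr (A.act w (b i)) j‖ * N (b j) ≤ B / K * C := by
            intro j _
            refine mul_le_mul ?_ (hb1 j) (h.nonneg _) (by positivity)
            rw [le_div_iff₀' hK0]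
            exact (hcon w hw i j).le
          refine (Finset.sum_le_card_nsmul _ _ _ h2).trans (le_of_eq ?_)
          simp [hm]
        have hv := h.nonneg v
        have h3 : N (A.act w v) ≤ m * (C * N v * (m * (B / K * C))) := by
          conv_lhs => rw [← b.sum_repr v]
          rw [map_sum]
          refine (auer_sum_le h _ _).trans ?_
          have h2 : ∀ i ∈ Finset.univ,
              N (A.act w (b.repr v i • b i)) ≤ C * N v * (m * (B / K * C)) := by
            intro i _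
            rw [A.smul, h.smul, A.iso]
            exact mul_le_mul (hb2 v i) (h1 i) (h.nonneg _) (by positivity)
          refine (Finset.sum_le_card_nsmul _ _ _ h2).trans (le_of_eq ?_)
          simp [hm]
        have h4 : (m : ℝ) ^ 2 * C ^ 2 / K ≤ 1 / 2 := by
          rw [div_le_iff₀ hK0, hK]
          nlinarith
        calc N (A.act w v) ≤ m * (C * N v * (m * (B / K * C))) := h3
          _ = (m : ℝ) ^ 2 * C ^ 2 / K * (B * N v) := by ring
          _ ≤ (1 + a) ^ (k + 1) * (B * N v) :=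
              mul_le_mul_of_nonneg_right (h4.trans hB) (by positivity)
          _ = δ w * (ρ * (1 + a)) ^ (k + 1) * N v := by rw [hBdef, mul_pow]; ring
      have h5 := csInf_le hbd hmem
      rw [← hρdef] at h5
      nlinarith

end Pool.Agent.Lib.MP_9ac97d_al
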