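import Pool.Agent.Lib.MP_9ac97d_al.SubQ

/-!
# Ping-pong in an affine chart of a Grassmannian (task Chart)
-/

set_option autoImplicit false

noncomputable section

open Pointwise

namespace Pool.Agent.Lib.MP_9ac97d_al

namespace SL

variable {E D V : Type} [Group E] [NormedDivisionRing D] [AddCommGroup V] [Module D V]
  (A : SL E D V) {p q : ℕ}

/-- The matrix of `c • e` in the basis `b` (rows are the images of the basis vectors). -/
def mtx {κ : Type} (b : Module.Basis κ D V) (c : D) (e : E) : Matrix κ κ D :=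
  fun i j => c * b.repr (A.act e (b i)) j

/-- After scaling, `e` has an invertible upper left block with inverse bounded by `K`, lower left
block bounded by `K`, and right blocks bounded by `ε`. -/
def Contr (b : Module.Basis (Fin p ⊕ Fin q) D V) (e : E) (K ε : ℝ) : Prop :=
  ∃ c : D, c ≠ 0 ∧ (∃ B : Matrix (Fin p) (Fin p) D, (A.mtx b c e).toBlocks₁₁ * B = 1 ∧
      B * (A.mtx b c e).toBlocks₁₁ = 1 ∧ ∀ i j, ‖B i j‖ ≤ K) ∧
    (∀ i j, ‖(A.mtx b c e).toBlocks₂₁ i j‖ ≤ K) ∧ (∀ i j, ‖(A.mtx b c e).toBlocks₁₂ i j‖ ≤ ε) ∧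
    ∀ i j, ‖(A.mtx b c e).toBlocks₂₂ i j‖ ≤ ε

/-- The smallness condition. -/
def Small (p q : ℕ) (K ε : ℝ) : Prop :=
  1 ≤ K ∧ 0 ≤ ε ∧ ε * (100 * ((p : ℝ) + q + 1) ^ 4 * K ^ 4) ≤ 1

theorem chart_repr {κ : Type} [Fintype κ] (b : Module.Basis κ D V) (e : E) (v : V) (j : κ) :
    b.repr (A.act e v) j = ∑ k, A.α e (b.repr v k) * b.repr (A.act e (b k)) j := by
  conv_lhs => rw [← b.sum_repr v]
  simp only [map_sum, A.smul, map_smul, Finsupp.finsetSum_apply, Finsupp.smul_apply, smul_eq_mul]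

theorem mtx_mul {κ : Type} [Fintype κ] (b : Module.Basis κ D V) {c : D} (hc : c ≠ 0) (c' : D)
    (e e' : E) :
    A.mtx b (c * A.α e c') (e * e') =
      ((A.mtx b c' e').map fun d => c * A.α e d * c⁻¹) * A.mtx b c e := by
  ext i j
  simp only [mtx, Matrix.mul_apply, Matrix.map_apply, map_mul]
  rw [AddMonoid.End.coe_mul, Function.comp_apply, A.chart_repr b e, Finset.mul_sum]
  refine Finset.sum_congr rfl fun k _ => ?_
  simp only [mul_assoc, inv_mul_cancel_left₀ hc]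

/-- The twist of the scalars by `c • e`. -/
def chart_tw {c : D} (hc : c ≠ 0) (e : E) : D →+* D where
  toFun d := c * A.α e d * c⁻¹
  map_one' := by rw [map_one, mul_one, mul_inv_cancel₀ hc]
  map_mul' x y := by simp only [map_mul, mul_assoc, inv_mul_cancel_left₀ hc]
  map_zero' := by rw [map_zero, mul_zero, zero_mul]
  map_add' x y := by rw [map_add, mul_add, add_mul]

theorem chart_tw_nnnorm {c : D} (hc : c ≠ 0) (e : E) (d : D) : ‖A.chart_tw hc e d‖₊ = ‖d‖₊ := by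
  apply NNReal.eq
  change ‖c * A.α e d * c⁻¹‖ = ‖d‖
  rw [norm_mul, norm_mul, A.iso, norm_inv, mul_right_comm, mul_inv_cancel₀ (norm_ne_zero_iff.2 hc),
    one_mul]

theorem chart_tw_surj {c : D} (hc : c ≠ 0) (e : E) : Function.Surjective (A.chart_tw hc e) :=
  fun d => ⟨(A.α e).symm (c⁻¹ * d * c), by
    change c * A.α e _ * c⁻¹ = d
    rw [RingEquiv.apply_symm_apply]
    simp only [mul_assoc, mul_inv_cancel_left₀ hc, mul_inv_cancel₀ hc, mul_one]⟩

/-- The graph of a matrix. -/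
def chart_graph (b : Module.Basis (Fin p ⊕ Fin q) D V) (x : Matrix (Fin p) (Fin q) D) :
    Submodule D V where
  carrier := {v | ∀ j, b.repr v (.inr j) = ∑ i, b.repr v (.inl i) * x i j}
  add_mem' := fun {v w} hv hw j => by
    simp only [map_add, Finsupp.add_apply, add_mul, Finset.sum_add_distrib, hv j, hw j]
  zero_mem' := fun j => by simp
  smul_mem' := fun d v hv j => by
    simp only [map_smul, Finsupp.smul_apply, smul_eq_mul, hv j, Finset.mul_sum, mul_assoc]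

theorem chart_mem {b : Module.Basis (Fin p ⊕ Fin q) D V} {x : Matrix (Fin p) (Fin q) D} {v : V} :
    v ∈ chart_graph b x ↔ (fun j => b.repr v (.inr j)) =
      Matrix.vecMul (fun i => b.repr v (.inl i)) x :=
  funext_iff.symm

theorem chart_vec (b : Module.Basis (Fin p ⊕ Fin q) D V) (x : Matrix (Fin p) (Fin q) D)
    (a : Fin p → D) : ∃ v ∈ chart_graph b x, (fun i => b.repr v (.inl i)) = a := by
  have h : ∀ k, b.repr (b.equivFun.symm (Sum.elim a (Matrix.vecMul a x))) k =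
      Sum.elim a (Matrix.vecMul a x) k := fun k => by
    rw [← b.equivFun_apply, LinearEquiv.apply_symm_apply]
  exact ⟨_, chart_mem.2 (by simp only [h, Sum.elim_inl, Sum.elim_inr]), funext fun i => h _⟩

theorem chart_inj (b : Module.Basis (Fin p ⊕ Fin q) D V) : Function.Injective (chart_graph b) := by
  intro x y h
  ext i j
  obtain ⟨v, hv, e⟩ := chart_vec b x (Pi.single i 1)
  have h1 := chart_mem.1 hv
  have h2 := chart_mem.1 (h ▸ hv)
  rw [h1, e, Matrix.single_one_vecMul, Matrix.single_one_vecMul] at h2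
  exact congrFun h2 j

theorem chart_coord (b : Module.Basis (Fin p ⊕ Fin q) D V) {c : D} (hc : c ≠ 0) (e : E)
    {x : Matrix (Fin p) (Fin q) D} {v : V} (hv : v ∈ chart_graph b x) :
    (fun i => b.repr (c • A.act e v) (.inl i)) =
      Matrix.vecMul (fun i => A.chart_tw hc e (b.repr v (.inl i)))
        ((A.mtx b c e).toBlocks₁₁ + x.map (A.chart_tw hc e) * (A.mtx b c e).toBlocks₂₁) ∧
    (fun j => b.repr (c • A.act e v) (.inr j)) =
      Matrix.vecMul (fun i => A.chart_tw hc e (b.repr v (.inl i)))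
        ((A.mtx b c e).toBlocks₁₂ + x.map (A.chart_tw hc e) * (A.mtx b c e).toBlocks₂₂) := by
  have h1 : ∀ k, b.repr (c • A.act e v) k =
      ∑ i, A.chart_tw hc e (b.repr v (.inl i)) * A.mtx b c e (.inl i) k +
        ∑ j, A.chart_tw hc e (b.repr v (.inr j)) * A.mtx b c e (.inr j) k := fun k => by
    rw [map_smul, Finsupp.smul_apply, smul_eq_mul, A.chart_repr, Finset.mul_sum,
      ← Fintype.sum_sum_type fun l => A.chart_tw hc e (b.repr v l) * A.mtx b c e l k]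
    refine Finset.sum_congr rfl fun l _ => ?_
    change _ = c * A.α e _ * c⁻¹ * (c * _)
    simp only [mul_assoc, inv_mul_cancel_left₀ hc]
  have h2 : Matrix.vecMul (fun i => A.chart_tw hc e (b.repr v (.inl i))) (x.map (A.chart_tw hc e)) =
      fun j => A.chart_tw hc e (b.repr v (.inr j)) := funext fun j => by
    rw [hv j, map_sum]
    simp only [map_mul]
    rfl
  constructor
  · rw [Matrix.vecMul_add, ← Matrix.vecMul_vecMul, h2]
    exact funext fun i => h1 _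
  · rw [Matrix.vecMul_add, ← Matrix.vecMul_vecMul, h2]
    exact funext fun j => h1 _

theorem chart_sub (b : Module.Basis (Fin p ⊕ Fin q) D V) {c : D} (hc : c ≠ 0) (e : E)
    {x y : Matrix (Fin p) (Fin q) D} {N : Matrix (Fin p) (Fin p) D}
    (hN : N * ((A.mtx b c e).toBlocks₁₁ + x.map (A.chart_tw hc e) * (A.mtx b c e).toBlocks₂₁) = 1)
    (hy : ((A.mtx b c e).toBlocks₁₁ + x.map (A.chart_tw hc e) * (A.mtx b c e).toBlocks₂₁) * y =
      (A.mtx b c e).toBlocks₁₂ + x.map (A.chart_tw hc e) * (A.mtx b c e).toBlocks₂₂) :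
    A.sub e (chart_graph b x) = chart_graph b y := by
  have key : ∀ v ∈ chart_graph b x, c • A.act e v ∈ chart_graph b y := fun v hv => by
    obtain ⟨h1, h2⟩ := A.chart_coord b hc e hv
    rw [chart_mem, h1, h2, Matrix.vecMul_vecMul, hy]
  refine le_antisymm ?_ fun w hw => ?_
  · rintro _ ⟨v, hv, rfl⟩
    exact (Submodule.smul_mem_iff _ hc).1 (key v hv)
  · choose a ha using fun i =>
      A.chart_tw_surj hc e (Matrix.vecMul (fun i => b.repr (c • w) (.inl i)) N i)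
    obtain ⟨v, hv, rfl⟩ := chart_vec b x a
    refine ⟨v, hv, smul_right_injective V hc (b.repr.injective ?_)⟩
    have h1 := (A.chart_coord b hc e hv).1
    rw [funext ha, Matrix.vecMul_vecMul, hN, Matrix.vecMul_one] at h1
    have h2 := chart_mem.1 (key v hv)
    rw [h1, ← chart_mem.1 (Submodule.smul_mem _ c hw)] at h2
    ext (i | j)
    · exact congrFun h1 i
    · exact congrFun h2 j

open scoped Matrix.Norms.Operator

theorem chart_norm_le {m n : ℕ} {M : Matrix (Fin m) (Fin n) D} {K : ℝ} (hK : 0 ≤ K)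
    (h : ∀ i j, ‖M i j‖ ≤ K) : ‖M‖ ≤ n * K := by
  lift K to NNReal using hK
  have h1 : ‖M‖₊ ≤ n * K := by
    rw [Matrix.linfty_opNNNorm_def]
    refine Finset.sup_le fun i _ => (Finset.sum_le_card_nsmul _ _ K fun j _ => h i j).trans ?_
    simp
  exact_mod_cast h1

theorem chart_norm_map {c : D} (hc : c ≠ 0) (e : E) (x : Matrix (Fin p) (Fin q) D) :
    ‖x.map (A.chart_tw hc e)‖ = ‖x‖ := by
  simp only [Matrix.linfty_opNorm_def, Matrix.map_apply, A.chart_tw_nnnorm]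

theorem chart_complete [CompleteSpace D] (m n : ℕ) :
    @CompleteSpace (Matrix (Fin m) (Fin n) D) PseudoMetricSpace.toUniformSpace :=
  inferInstanceAs (CompleteSpace (Fin m → Fin n → D))

theorem chart_unit [CompleteSpace D] {m : ℕ} {t : Matrix (Fin m) (Fin m) D} (h : ‖t‖ < 1) :
    ∃ u, u * (1 + t) = 1 ∧ (1 + t) * u = 1 := by
  have := chart_complete (D := D) m m
  have h1 := Units.inv_mul (Units.oneSub (-t) (by rwa [norm_neg]))
  have h2 := Units.mul_inv (Units.oneSub (-t) (by rwa [norm_neg]))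
  rw [Units.val_oneSub, sub_neg_eq_add] at h1 h2
  exact ⟨_, h1, h2⟩

/-- The Moebius map is a contraction of the small ball. -/
theorem chart_map [CompleteSpace D] (b : Module.Basis (Fin p ⊕ Fin q) D V) {e : E} {K ε : ℝ}
    (hs : Small p q K ε) (he : A.Contr b e K ε) :
    ∃ f : Matrix (Fin p) (Fin q) D → Matrix (Fin p) (Fin q) D,
      (∀ x, ‖x‖ ≤ 4 * ((p + q + 1) * K) * ((p + q + 1) * ε) →
        ‖f x‖ ≤ 4 * ((p + q + 1) * K) * ((p + q + 1) * ε) ∧
          A.sub e (chart_graph b x) = chart_graph b (f x)) ∧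
      ∀ x z, ‖x‖ ≤ 4 * ((p + q + 1) * K) * ((p + q + 1) * ε) →
        ‖z‖ ≤ 4 * ((p + q + 1) * K) * ((p + q + 1) * ε) → ‖f x - f z‖ ≤ ‖x - z‖ / 5 := by
  obtain ⟨c, hc, ⟨B, hB1, hB2, hB⟩, h21, h12, h22⟩ := he
  obtain ⟨hK, hε, hsm⟩ := hs
  have hK0 : 0 ≤ K := zero_le_one.trans hK
  have hp0 : (0 : ℝ) ≤ p := Nat.cast_nonneg p
  have hq0 : (0 : ℝ) ≤ q := Nat.cast_nonneg q
  set k : ℝ := (p + q + 1) * K with hk
  set η : ℝ := (p + q + 1) * ε with hη
  have k1 : 1 ≤ k := one_le_mul_of_one_le_of_one_le (by linarith) hK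
  have η0 : 0 ≤ η := by positivity
  have hsm' : k * k * k * η ≤ 1 / 100 := by
    have h1 : k * k * k * η * K = ε * (100 * ((p : ℝ) + q + 1) ^ 4 * K ^ 4) / 100 := by
      rw [hk, hη]
      ring
    have h2 : k * k * k * η ≤ k * k * k * η * K := le_mul_of_one_le_right (by positivity) hK
    linarith
  have nB : ‖B‖ ≤ k := (chart_norm_le hK0 hB).trans (mul_le_mul_of_nonneg_right (by linarith) hK0)
  have n21 : ‖(A.mtx b c e).toBlocks₂₁‖ ≤ k :=
    (chart_norm_le hK0 h21).trans (mul_le_mul_of_nonneg_right (by linarith) hK0)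
  have n12 : ‖(A.mtx b c e).toBlocks₁₂‖ ≤ η :=
    (chart_norm_le hε h12).trans (mul_le_mul_of_nonneg_right (by linarith) hε)
  have n22 : ‖(A.mtx b c e).toBlocks₂₂‖ ≤ η :=
    (chart_norm_le hε h22).trans (mul_le_mul_of_nonneg_right (by linarith) hε)
  have hsub := fun x y N => A.chart_sub b hc e (x := x) (y := y) (N := N)
  generalize (A.mtx b c e).toBlocks₁₁ = M₁₁ at *
  generalize (A.mtx b c e).toBlocks₁₂ = M₁₂ at *
  generalize (A.mtx b c e).toBlocks₂₁ = M₂₁ at *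
  generalize (A.mtx b c e).toBlocks₂₂ = M₂₂ at *
  have hτ := A.chart_norm_map (p := p) (q := q) hc e
  set τ := A.chart_tw hc e
  have k2 : k * η ≤ 1 / 100 := by
    have h1 : k * η ≤ k * k * (k * η) :=
      le_mul_of_one_le_left (by positivity) (one_le_mul_of_one_le_of_one_le k1 k1)
    linarith
  have mul : ∀ {l m n : ℕ} {X : Matrix (Fin l) (Fin m) D} {Y : Matrix (Fin m) (Fin n) D}
      {s t : ℝ}, ‖X‖ ≤ s → ‖Y‖ ≤ t → ‖X * Y‖ ≤ s * t := fun hX hY =>
    (Matrix.linfty_opNorm_mul _ _).trans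
      (mul_le_mul hX hY (norm_nonneg _) ((norm_nonneg _).trans hX))
  have nT : ∀ x : Matrix (Fin p) (Fin q) D, ‖x‖ ≤ 4 * k * η → ‖B * (x.map τ * M₂₁)‖ ≤ 1 / 25 :=
    fun x hx => (mul nB (mul ((hτ x).trans_le hx) n21)).trans (by linarith)
  have ex : ∀ x : Matrix (Fin p) (Fin q) D, ∃ y, ‖x‖ ≤ 4 * k * η →
      (M₁₁ + x.map τ * M₂₁) * y = M₁₂ + x.map τ * M₂₂ ∧
        A.sub e (chart_graph b x) = chart_graph b y := fun x => by
    by_cases hx : ‖x‖ ≤ 4 * k * η
    · obtain ⟨u, hu1, hu2⟩ := chart_unit (t := B * (x.map τ * M₂₁)) (by linarith [nT x hx])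
      have hu : M₁₁ + x.map τ * M₂₁ = M₁₁ * (1 + B * (x.map τ * M₂₁)) := by
        rw [mul_add, mul_one, ← mul_assoc, hB1, one_mul]
      have hy : (M₁₁ + x.map τ * M₂₁) * (u * B * (M₁₂ + x.map τ * M₂₂)) =
          M₁₂ + x.map τ * M₂₂ := by
        rw [hu, ← Matrix.mul_assoc, mul_assoc, ← mul_assoc _ u, hu2, one_mul, hB1, Matrix.one_mul]
      refine ⟨_, fun _ => ⟨hy, hsub x _ (u * B) ?_ hy⟩⟩
      rw [hu, mul_assoc, ← mul_assoc B, hB2, one_mul, hu1]
    · exact ⟨0, fun h => (hx h).elim⟩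
  choose f hf using ex
  have hB3 : ∀ x, ‖x‖ ≤ 4 * k * η →
      f x = B * M₁₂ + B * (x.map τ * M₂₂) - B * (x.map τ * M₂₁) * f x := fun x hx => by
    rw [← Matrix.mul_add, ← (hf x hx).1, ← Matrix.mul_assoc, mul_add, hB2, Matrix.add_mul,
      Matrix.one_mul, add_sub_cancel_right]
  have nf : ∀ x, ‖x‖ ≤ 4 * k * η → ‖f x‖ ≤ 4 * k * η := fun x hx => by
    have h1 := (congrArg norm (hB3 x hx)).trans_le
      ((norm_sub_le _ _).trans (add_le_add (norm_add_le _ _) (mul (nT x hx) le_rfl)))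
    have h2 := mul nB n12
    have h3 := mul nB (mul ((hτ x).trans_le hx) n22)
    have h4 : k * (4 * k * η * η) ≤ k * η := by
      have h5 : 0 ≤ k * η := by positivity
      nlinarith
    have h5 : 0 ≤ k * η := by positivity
    linarith
  refine ⟨f, fun x hx => ⟨nf x hx, (hf x hx).2⟩, fun x z hx hz => ?_⟩
  have e1 : f x - f z = B * ((x - z).map τ * (M₂₂ - M₂₁ * f z)) -
      B * (x.map τ * M₂₁) * (f x - f z) := by
    conv_lhs => rw [hB3 x hx, hB3 z hz]
    rw [Matrix.map_sub _ (map_sub τ)]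
    simp only [Matrix.mul_sub, Matrix.sub_mul, Matrix.mul_assoc]
    abel
  have h1 := (congrArg norm e1).trans_le ((norm_sub_le _ _).trans (add_le_add
    (mul nB (mul (hτ (x - z)).le ((norm_sub_le _ _).trans (add_le_add n22 (mul n21 (nf z hz))))))
    (mul (nT x hx) le_rfl)))
  have h2 : k * (η + k * (4 * k * η)) ≤ 1 / 20 := by linarith
  have h3 := mul_le_mul_of_nonneg_left h2 (norm_nonneg (x - z))
  linarith [norm_nonneg (x - z)]

theorem chart_mono {b : Module.Basis (Fin p ⊕ Fin q) D V} {e : E} {K ε K' ε' : ℝ}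
    (h : A.Contr b e K ε) (hK : K ≤ K') (hε : ε ≤ ε') : A.Contr b e K' ε' := by
  obtain ⟨c, hc, ⟨B, h1, h2, h3⟩, h4, h5, h6⟩ := h
  exact ⟨c, hc, ⟨B, h1, h2, fun i j => (h3 i j).trans hK⟩, fun i j => (h4 i j).trans hK,
    fun i j => (h5 i j).trans hε, fun i j => (h6 i j).trans hε⟩

/-- For a matrix `x` let `graph x` be the span of the vectors `b (inl i) + ∑ j, x i j • b (inr j)`;
`graph` is injective. With blocks `M₁₁, M₁₂, M₂₁, M₂₂` of `c • e` and `x' = c α(x) c⁻¹` entrywise,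
`e` maps `graph x` to `graph ((M₁₁ + x' M₂₁)⁻¹ (M₁₂ + x' M₂₂))`. On the ball of radius
`ξ = 4 (p + q) K ε` (sup norm of the entries) this map is defined, preserves the ball and is
`1 / 5`-Lipschitz, by `e x - e y = (M₁₁ + x' M₂₁)⁻¹ (x' - y') (M₂₂ - M₂₁ (e y))`. Take for `U` the
graph of the fixed point `x₀` of `g` (Banach); it lies in the ball for `(K', ε')` too. With
`δ = dist x₀ (h x₀) > 0` play `pingpong` (for `subAction`) on the graphs of the points of the ball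
within `2 δ` of `x₀`. -/
theorem chart [CompleteSpace D] (b : Module.Basis (Fin p ⊕ Fin q) D V) (hp : 0 < p) (hq : 0 < q)
    {H : Type} [Group H] (π : E →* H) (hπ : ∀ e, π e = 1 → A.Scal e) {g : E} {K ε : ℝ}
    (hs : Small p q K ε) (hg : A.Contr b g K ε) :
    ∃ U : Submodule D V, U ≠ ⊥ ∧ U ≠ ⊤ ∧ A.sub g U = U ∧
      ∀ (h : E) (K' ε' : ℝ), K ≤ K' → ε ≤ ε' → Small p q K' ε' → A.Contr b h K' ε' →
        A.sub h U ≠ U → FreePair (π g) (π h) := by
  obtain ⟨f, hf, hl⟩ := A.chart_map b hs hg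
  have hK := zero_le_one.trans hs.1
  have hε := hs.2.1
  have := chart_complete (D := D) p q
  obtain ⟨x₀, hx₀, hfx, -⟩ := ContractingWith.exists_fixedPoint' (K := 1 / 5) (f := f)
    (s := Metric.closedBall 0 (4 * ((p + q + 1) * K) * ((p + q + 1) * ε)))
    Metric.isClosed_closedBall.isComplete
    (fun x hx => mem_closedBall_zero_iff.2 (hf x (mem_closedBall_zero_iff.1 hx)).1)
    ⟨by norm_num, LipschitzWith.of_dist_le_mul fun x z => by
      have h := hl x z (mem_closedBall_zero_iff.1 x.2) (mem_closedBall_zero_iff.1 z.2)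
      rw [← dist_eq_norm, ← dist_eq_norm] at h
      refine h.trans_eq ?_
      rw [Subtype.dist_eq]
      push_cast
      ring⟩
    (Metric.mem_closedBall_self (by positivity)) (edist_ne_top _ _)
  rw [mem_closedBall_zero_iff] at hx₀
  have hU : A.sub g (chart_graph b x₀) = chart_graph b x₀ := by rw [(hf x₀ hx₀).2, hfx.eq]
  refine ⟨chart_graph b x₀, fun h => ?_, fun h => ?_, hU, fun h K' ε' hK' hε' hs' hh hne => ?_⟩
  · obtain ⟨v, hv, e⟩ := chart_vec b x₀ fun _ => 1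
    rw [h, Submodule.mem_bot] at hv
    simpa [hv] using congrFun e ⟨0, hp⟩
  · have h1 : b (.inr ⟨0, hq⟩) ∈ chart_graph b x₀ := h ▸ Submodule.mem_top
    simpa using h1 ⟨0, hq⟩
  obtain ⟨f₁, hf₁, hl₁⟩ := A.chart_map b hs' (A.chart_mono hg hK' hε')
  obtain ⟨f₂, hf₂, hl₂⟩ := A.chart_map b hs' hh
  have hx : ‖x₀‖ ≤ 4 * ((p + q + 1) * K') * ((p + q + 1) * ε') := by
    have hK0 := hK.trans hK'
    exact hx₀.trans (by gcongr)
  set ξ : ℝ := 4 * ((p + q + 1) * K') * ((p + q + 1) * ε')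
  have e1 : f₁ x₀ = x₀ := chart_inj b (by rw [← (hf₁ x₀ hx).2, hU])
  have hδ : 0 < ‖x₀ - f₂ x₀‖ := norm_pos_iff.2 (sub_ne_zero.2 fun e => hne (by
    rw [(hf₂ x₀ hx).2, ← e]))
  let := A.subAction
  refine pingpong (X := Submodule D V) π (fun e he U => by
      obtain ⟨d, hd⟩ := hπ e he
      exact A.sub_of_scal ⟨d, hd⟩ U)
    (B := chart_graph b '' {x | ‖x‖ ≤ ξ ∧ ‖x - x₀‖ ≤ 2 * ‖x₀ - f₂ x₀‖})
    (P := chart_graph b '' {x | ‖x‖ ≤ ξ ∧ ‖x - x₀‖ ≤ 2 * ‖x₀ - f₂ x₀‖ / 5})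
    (Q := chart_graph b '' {x | ‖x‖ ≤ ξ ∧ ‖x - f₂ x₀‖ ≤ 2 * ‖x₀ - f₂ x₀‖ / 5})
    ⟨_, x₀, ⟨hx, by rw [sub_self, norm_zero]; positivity⟩, rfl⟩
    (Set.image_mono fun x h => ⟨h.1, by linarith [h.2]⟩)
    (Set.image_mono fun x h => ⟨h.1, by
      linarith [h.2, norm_sub_le_norm_sub_add_norm_sub x (f₂ x₀) x₀, norm_sub_rev (f₂ x₀) x₀]⟩)
    ((Set.disjoint_image_iff (chart_inj b)).2 (Set.disjoint_left.2 fun x h h' => by
      linarith [h.2, h'.2, norm_sub_le_norm_sub_add_norm_sub x₀ x (f₂ x₀), norm_sub_rev x₀ x]))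
    ?_ ?_
  · rintro _ ⟨x, h, rfl⟩
    refine ⟨f₁ x, ⟨(hf₁ x h.1).1, ?_⟩, (hf₁ x h.1).2.symm⟩
    have := hl₁ x x₀ h.1 hx
    rw [e1] at this
    linarith [h.2]
  · rintro _ ⟨x, h, rfl⟩
    exact ⟨f₂ x, ⟨(hf₂ x h.1).1, by linarith [h.2, hl₂ x x₀ h.1 hx]⟩, (hf₂ x h.1).2.symm⟩

end SL

end Pool.Agent.Lib.MP_9ac97d_al
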