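import Pool.Agent.Lib.MP_9ac97d_al.SubQ
import Pool.Agent.Lib.MP_9ac97d_al.Auer

/-!
# The volume character (task Deg)
-/

set_option autoImplicit false

noncomputable section

open Pointwise

namespace Pool.Agent.Lib.MP_9ac97d_al

/-- The norm is discrete: its values are the integral powers of `exp 1`. -/
structure Disc (D : Type) [NormedDivisionRing D] : Prop where
  int : ∀ d : D, d ≠ 0 → ∃ k : ℤ, ‖d‖ = Real.exp k
  unif : ∃ t : D, ‖t‖ = Real.exp (-1)

section Aux

variable {D V : Type} [NormedDivisionRing D] [AddCommGroup V] [Module D V]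

/-- Ultrametric seminorms. -/
structure DegUS (D : Type) {V : Type} [NormedDivisionRing D] [AddCommGroup V] [Module D V]
    (N : V → ℝ) : Prop where
  nonneg : ∀ v, 0 ≤ N v
  smul : ∀ (d : D) (v : V), N (d • v) = ‖d‖ * N v
  ultra : ∀ v w, N (v + w) ≤ max (N v) (N w)

/-- The distance to a subspace. -/
def degQ (N : V → ℝ) (U : Submodule D V) (v : V) : ℝ := ⨅ u : U, N (v - u)

/-- The volume of a list of vectors modulo a subspace. -/
def degVol (N : V → ℝ) : Submodule D V → List V → ℝ
  | _, [] => 1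
  | U, v :: l => degQ N U v * degVol N (U ⊔ Submodule.span D {v}) l

variable {N N' : V → ℝ}

theorem degQ_le (h : DegUS D N) {U : Submodule D V} (v : V) {u : V} (hu : u ∈ U) :
    degQ N U v ≤ N (v - u) :=
  ciInf_le (f := fun u : U => N (v - u)) ⟨0, by rintro _ ⟨u, rfl⟩; exact h.nonneg _⟩ ⟨u, hu⟩

theorem deg_le_Q {U : Submodule D V} {v : V} {c : ℝ} (hc : ∀ u ∈ U, c ≤ N (v - u)) :
    c ≤ degQ N U v :=
  le_ciInf fun u => hc u u.2

theorem degQ_nonneg (h : DegUS D N) (U : Submodule D V) (v : V) : 0 ≤ degQ N U v :=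
  deg_le_Q fun _ _ => h.nonneg _

theorem degQ_le_self (h : DegUS D N) (U : Submodule D V) (v : V) : degQ N U v ≤ N v := by
  simpa using degQ_le h v U.zero_mem

theorem DegUS.zero (h : DegUS D N) : N 0 = 0 := by
  simpa using h.smul 0 0

theorem degQ_of_mem (h : DegUS D N) {U : Submodule D V} {v : V} (hv : v ∈ U) :
    degQ N U v = 0 := by
  refine le_antisymm ?_ (degQ_nonneg h U v)
  simpa [h.zero] using degQ_le h v hv

theorem deg_mul_le_Q {U : Submodule D V} {v : V} {a c : ℝ} (ha : 0 ≤ a)
    (hc : ∀ u ∈ U, c ≤ a * N (v - u)) : c ≤ a * degQ N U v := by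
  unfold degQ
  rw [Real.mul_iInf_of_nonneg ha]
  exact le_ciInf fun u => hc u u.2

theorem degQ_smul_le (h : DegUS D N) (U : Submodule D V) (d : D) (v : V) :
    degQ N U (d • v) ≤ ‖d‖ * degQ N U v :=
  deg_mul_le_Q (norm_nonneg d) fun u hu => by
    rw [← h.smul, smul_sub]
    exact degQ_le h _ (U.smul_mem d hu)

theorem degQ_us (h : DegUS D N) (U : Submodule D V) : DegUS D (degQ N U) where
  nonneg := degQ_nonneg h U
  smul d v := by
    refine le_antisymm (degQ_smul_le h U d v) ?_
    by_cases hd : d = 0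
    · rw [hd, norm_zero, zero_mul]
      exact degQ_nonneg h U _
    · have h1 := degQ_smul_le h U d⁻¹ (d • v)
      rw [inv_smul_smul₀ hd, norm_inv] at h1
      have h2 : 0 < ‖d‖ := norm_pos_iff.2 hd
      calc ‖d‖ * degQ N U v ≤ ‖d‖ * (‖d‖⁻¹ * degQ N U (d • v)) :=
            mul_le_mul_of_nonneg_left h1 h2.le
        _ = degQ N U (d • v) := by rw [mul_inv_cancel_left₀ h2.ne']
  ultra v w := by
    by_contra hc
    rw [not_le, max_lt_iff] at hc
    obtain ⟨u, hu⟩ := exists_lt_of_ciInf_lt hc.1
    obtain ⟨u', hu'⟩ := exists_lt_of_ciInf_lt hc.2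
    have h1 := degQ_le h (v + w) (U.add_mem u.2 u'.2)
    have e : v + w - (u + u' : V) = (v - u) + (w - u') := by abel
    rw [e] at h1
    exact absurd (h1.trans (h.ultra _ _)) (not_le.2 (max_lt hu hu'))

theorem degQ_congr (h : DegUS D N) {U : Submodule D V} {v w : V} (hvw : v - w ∈ U) :
    degQ N U v = degQ N U w := by
  have key : ∀ v w : V, v - w ∈ U → degQ N U v ≤ degQ N U w := fun v w hvw =>
    deg_le_Q fun u hu => by
      have h1 := degQ_le h v (U.add_mem hvw hu)
      have e : v - (v - w + u) = w - u := by abel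
      rwa [e] at h1
  refine le_antisymm (key v w hvw) (key w v ?_)
  simpa using U.neg_mem hvw

theorem deg_swap_le (h : DegUS D N) (U : Submodule D V) (x y : V) :
    degQ N U y * degQ N (U ⊔ Submodule.span D {y}) x
      ≤ degQ N U x * degQ N (U ⊔ Submodule.span D {x}) y := by
  have hP := degQ_us h U
  have hb0 := degQ_nonneg h (U ⊔ Submodule.span D {y}) x
  have hb : ∀ c : D, degQ N (U ⊔ Submodule.span D {y}) x ≤ degQ N U (x - c • y) := fun c =>
    deg_le_Q fun u hu => by
      have h1 := degQ_le h x (Submodule.add_mem_sup hu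
        (Submodule.mem_span_singleton.2 ⟨c, rfl⟩ : c • y ∈ Submodule.span D {y}))
      have e : x - (u + c • y) = x - c • y - u := by abel
      rwa [e] at h1
  generalize degQ N (U ⊔ Submodule.span D {y}) x = b at hb hb0 ⊢
  refine deg_mul_le_Q (hP.nonneg x) fun z hz => ?_
  obtain ⟨u, hu, z', hz', rfl⟩ := Submodule.mem_sup.1 hz
  obtain ⟨d, rfl⟩ := Submodule.mem_span_singleton.1 hz'
  have h1 : degQ N U (y - d • x) ≤ N (y - (u + d • x)) := by
    have h1 := degQ_le h (y - d • x) hu
    have e : y - d • x - u = y - (u + d • x) := by abel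
    rwa [e] at h1
  refine le_trans ?_ (mul_le_mul_of_nonneg_left h1 (hP.nonneg x))
  generalize degQ N U = P at hP hb ⊢
  have hbx : b ≤ P x := by simpa using hb 0
  by_cases hc : P (d • x) < P y
  · have h2 : P y ≤ P (y - d • x) := by
      have h3 := hP.ultra (y - d • x) (d • x)
      rw [sub_add_cancel] at h3
      rcases le_max_iff.1 h3 with h4 | h4
      · exact h4
      · exact absurd h4 (not_le.2 hc)
    rw [mul_comm (P x)]
    exact mul_le_mul h2 hbx hb0 (hP.nonneg _)
  · rw [not_lt, hP.smul] at hc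
    by_cases hd : d = 0
    · rw [hd, norm_zero, zero_mul] at hc
      exact (mul_nonpos_of_nonpos_of_nonneg hc hb0).trans
        (mul_nonneg (hP.nonneg _) (hP.nonneg _))
    · have e : y - d • x = (-d) • (x - d⁻¹ • y) := by
        rw [neg_smul, smul_sub, smul_inv_smul₀ hd, neg_sub]
      rw [e, hP.smul, norm_neg, ← mul_assoc, mul_comm (P x)]
      exact mul_le_mul hc (hb _) hb0 (mul_nonneg (norm_nonneg d) (hP.nonneg x))

theorem degVol_nonneg (h : DegUS D N) : ∀ (l : List V) (U : Submodule D V), 0 ≤ degVol N U l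
  | [], _ => zero_le_one
  | v :: l, U => mul_nonneg (degQ_nonneg h U v) (degVol_nonneg h l _)

theorem degVol_perm (h : DegUS D N) {l l' : List V} (hp : l.Perm l') :
    ∀ U : Submodule D V, degVol N U l = degVol N U l' := by
  induction hp with
  | nil => exact fun _ => rfl
  | cons x _ ih => intro U; simp only [degVol, ih]
  | swap x y l =>
    intro U
    simp only [degVol]
    rw [← mul_assoc, ← mul_assoc, le_antisymm (deg_swap_le h U x y) (deg_swap_le h U y x),
      sup_right_comm]
  | trans _ _ ih ih' => intro U; rw [ih, ih']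

theorem deg_span_cons (U : Submodule D V) (x : V) (l : List V) :
    U ⊔ Submodule.span D {z | z ∈ x :: l}
      = (U ⊔ Submodule.span D {x}) ⊔ Submodule.span D {z | z ∈ l} := by
  have : {z | z ∈ x :: l} = insert x {z | z ∈ l} := by
    ext z
    simp
  rw [this, Submodule.span_insert, sup_assoc]

theorem degVol_concat (w : V) : ∀ (l : List V) (U : Submodule D V),
    degVol N U (l ++ [w]) = degVol N U l * degQ N (U ⊔ Submodule.span D {z | z ∈ l}) w
  | [], U => by simp [degVol]
  | x :: l, U => by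
    simp only [List.cons_append, degVol]
    rw [degVol_concat w l, deg_span_cons, mul_assoc]

theorem deg_exch {v : V} : ∀ (l : List V) (U : Submodule D V),
    v ∈ U ⊔ Submodule.span D {z | z ∈ l} → v ∉ U →
      ∃ (w : V) (l₂ : List V) (c : D), l.Perm (w :: l₂) ∧ c ≠ 0 ∧
        v - c • w ∈ U ⊔ Submodule.span D {z | z ∈ l₂}
  | [], U, h, h' => absurd (by simpa using h) h'
  | x :: l, U, h, h' => by
    by_cases hx : v ∈ U ⊔ Submodule.span D {x}
    · obtain ⟨u, hu, z, hz, rfl⟩ := Submodule.mem_sup.1 hx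
      obtain ⟨c, rfl⟩ := Submodule.mem_span_singleton.1 hz
      refine ⟨x, l, c, List.Perm.refl _, ?_, ?_⟩
      · rintro rfl
        exact h' (by simpa using hu)
      · rw [add_sub_cancel_right]
        exact Submodule.mem_sup_left hu
    · rw [deg_span_cons] at h
      obtain ⟨w, l₃, c, h1, h2, h3⟩ := deg_exch l _ h hx
      refine ⟨w, x :: l₃, c, (h1.cons x).trans (List.Perm.swap w x l₃), h2, ?_⟩
      rwa [deg_span_cons]

theorem deg_exch_vol (h : DegUS D N) {U : Submodule D V} {v w : V} {l l₂ : List V} {c : D}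
    (hp : l.Perm (w :: l₂)) (hv : v - c • w ∈ U ⊔ Submodule.span D {z | z ∈ l₂}) :
    degVol N U (v :: l₂) = ‖c‖ * degVol N U l := by
  rw [degVol_perm h (List.perm_append_singleton v l₂).symm,
    degVol_perm h (hp.trans (List.perm_append_singleton w l₂).symm), degVol_concat,
    degVol_concat, degQ_congr h hv, (degQ_us h _).smul]
  ring

/-- The ratio of the volumes for two seminorms does not depend on the basis. -/
theorem deg_ratio (h : DegUS D N) (h' : DegUS D N') : ∀ (l : List V) (U : Submodule D V)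
    (l' : List V), l'.length = l.length → (∀ x ∈ l, x ∈ U ⊔ Submodule.span D {z | z ∈ l'}) →
      degVol N U l ≠ 0 → degVol N U l * degVol N' U l' = degVol N U l' * degVol N' U l
  | [], U, l', hl, _, _ => by
    rw [List.length_eq_zero_iff.1 hl]
  | v :: l, U, l', hl, hs, h0 => by
    have hv : v ∉ U := fun hv => h0 (by simp only [degVol, degQ_of_mem h hv, zero_mul])
    have h0' : degVol N (U ⊔ Submodule.span D {v}) l ≠ 0 := right_ne_zero_of_mul h0
    obtain ⟨w, l₂, c, hp, hc, hw⟩ := deg_exch l' U (hs v List.mem_cons_self) hv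
    have hlen : l₂.length = l.length := by
      have := hp.length_eq
      simp only [List.length_cons] at this hl
      omega
    have hle : U ⊔ Submodule.span D {z | z ∈ l'}
        ≤ (U ⊔ Submodule.span D {v}) ⊔ Submodule.span D {z | z ∈ l₂} := by
      refine sup_le (le_sup_left.trans le_sup_left) (Submodule.span_le.2 fun z hz => ?_)
      rcases List.mem_cons.1 (hp.subset hz) with rfl | hz'
      · have h1 : v - c • z ∈ (U ⊔ Submodule.span D {v}) ⊔ Submodule.span D {z | z ∈ l₂} :=
          (sup_le_sup_right le_sup_left _ : U ⊔ Submodule.span D {z | z ∈ l₂} ≤ _) hw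
        have h2 : v ∈ (U ⊔ Submodule.span D {v}) ⊔ Submodule.span D {z | z ∈ l₂} :=
          Submodule.mem_sup_left (Submodule.mem_sup_right (Submodule.mem_span_singleton_self v))
        have h3 := Submodule.smul_mem _ c⁻¹ (Submodule.sub_mem _ h2 h1)
        rwa [sub_sub_cancel, inv_smul_smul₀ hc] at h3
      · exact Submodule.mem_sup_right (Submodule.subset_span hz')
    have ih := deg_ratio h h' l _ l₂ hlen
      (fun x hx => hle (hs x (List.mem_cons_of_mem v hx))) h0'
    have e1 := deg_exch_vol h hp hw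
    have e2 := deg_exch_vol h' hp hw
    refine mul_left_cancel₀ (norm_ne_zero_iff.2 hc) ?_
    rw [← mul_assoc, mul_comm ‖c‖, mul_assoc, ← e2, ← mul_assoc ‖c‖, ← e1]
    simp only [degVol]
    linear_combination (degQ N U v * degQ N' U v) * ih

theorem degVol_const_mul {a : ℝ} (ha : 0 ≤ a) : ∀ (l : List V) (U : Submodule D V),
    degVol (fun v => a * N v) U l = a ^ l.length * degVol N U l
  | [], _ => by simp [degVol]
  | v :: l, U => by
    have e : degQ (fun v => a * N v) U v = a * degQ N U v :=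
      (Real.mul_iInf_of_nonneg ha _).symm
    simp only [degVol, List.length_cons]
    rw [degVol_const_mul ha l, e]
    ring

theorem degVol_le (h : DegUS D N) {κ : ℝ} : ∀ (l : List V) (U : Submodule D V),
    (∀ x ∈ l, N x ≤ κ) → degVol N U l ≤ κ ^ l.length
  | [], _, _ => by simp [degVol]
  | v :: l, U, hl => by
    have h1 := hl v List.mem_cons_self
    simp only [degVol, List.length_cons]
    rw [pow_succ']
    exact mul_le_mul ((degQ_le_self h U v).trans h1)
      (degVol_le h l _ fun x hx => hl x (List.mem_cons_of_mem v hx)) (degVol_nonneg h l _)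
      ((h.nonneg v).trans h1)

theorem degQ_int (h : DegUS D N) (hN : ∀ v, N v ≠ 0 → ∃ k : ℤ, N v = Real.exp k)
    (U : Submodule D V) (v : V) (h0 : degQ N U v ≠ 0) : ∃ k : ℤ, degQ N U v = Real.exp k := by
  have hpos : 0 < degQ N U v := lt_of_le_of_ne (degQ_nonneg h U v) (Ne.symm h0)
  have hex : ∀ u ∈ U, ∃ k : ℤ, N (v - u) = Real.exp k := fun u hu =>
    hN _ (lt_of_lt_of_le hpos (degQ_le h v hu)).ne'
  obtain ⟨k, ⟨u, hu, hk⟩, hmin⟩ := Int.exists_least_of_bdd
    (P := fun k : ℤ => ∃ u ∈ U, N (v - u) = Real.exp k)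
    ⟨⌊Real.log (degQ N U v)⌋, by
      rintro k ⟨u, hu, hk⟩
      have h1 := degQ_le h v hu
      rw [hk] at h1
      have h2 := (Real.log_le_iff_le_exp hpos).2 h1
      exact Int.cast_le.1 ((Int.floor_le _).trans h2)⟩
    (let ⟨k, hk⟩ := hex 0 U.zero_mem; ⟨k, 0, U.zero_mem, hk⟩)
  refine ⟨k, le_antisymm (hk ▸ degQ_le h v hu) (deg_le_Q fun u' hu' => ?_)⟩
  obtain ⟨k', hk'⟩ := hex u' hu'
  rw [hk']
  exact Real.exp_le_exp.2 (Int.cast_le.2 (hmin k' ⟨u', hu', hk'⟩))

theorem degVol_int (h : DegUS D N) (hN : ∀ v, N v ≠ 0 → ∃ k : ℤ, N v = Real.exp k) :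
    ∀ (l : List V) (U : Submodule D V), degVol N U l ≠ 0 → ∃ k : ℤ, degVol N U l = Real.exp k
  | [], _, _ => ⟨0, by simp [degVol]⟩
  | v :: l, U, h0 => by
    obtain ⟨k, hk⟩ := degQ_int h hN U v (left_ne_zero_of_mul h0)
    obtain ⟨k', hk'⟩ := degVol_int h hN l _ (right_ne_zero_of_mul h0)
    refine ⟨k + k', ?_⟩
    simp only [degVol]
    rw [hk, hk', Int.cast_add, Real.exp_add]

/-- The sup norm of the coordinates. -/
def degN {m : ℕ} (b : Module.Basis (Fin m) D V) (v : V) : ℝ := ‖(fun i => b.repr v i : Fin m → D)‖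

/-- The list of the vectors of a basis. -/
def degL {m : ℕ} (b : Module.Basis (Fin m) D V) : List V := (List.finRange m).map b

theorem degN_us [IsUltrametricDist D] {m : ℕ} (b : Module.Basis (Fin m) D V) :
    DegUS D (degN b) where
  nonneg _ := norm_nonneg _
  smul d v := by
    unfold degN
    rw [← norm_smul]
    congr 1
    funext i
    simp
  ultra v w := by
    unfold degN
    refine (pi_norm_le_iff_of_nonneg (le_max_of_le_left (norm_nonneg _))).2 fun i => ?_
    rw [map_add, Finsupp.add_apply]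
    exact (IsUltrametricDist.norm_add_le_max _ _).trans
      (max_le_max (norm_le_pi_norm (fun i => b.repr v i) i)
        (norm_le_pi_norm (fun i => b.repr w i) i))

theorem degN_int (hD : Disc D) {m : ℕ} (b : Module.Basis (Fin m) D V) (v : V)
    (h0 : degN b v ≠ 0) : ∃ k : ℤ, degN b v = Real.exp k := by
  rcases Nat.eq_zero_or_pos m with rfl | hm
  · exact absurd (norm_of_subsingleton _) h0
  · have : Nonempty (Fin m) := ⟨⟨0, hm⟩⟩
    obtain ⟨i, hi⟩ := Finite.exists_max fun i : Fin m => ‖b.repr v i‖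
    have e : degN b v = ‖b.repr v i‖ :=
      le_antisymm ((pi_norm_le_iff_of_nonneg (norm_nonneg _)).2 hi)
        (norm_le_pi_norm (fun i => b.repr v i) i)
    rw [e] at h0 ⊢
    exact hD.int _ (norm_ne_zero_iff.1 h0)

theorem deg_one_le_vol {m : ℕ} (b : Module.Basis (Fin m) D V) :
    ∀ (s : List (Fin m)) (U : Submodule D V), s.Nodup → (∀ i ∈ s, ∀ u ∈ U, b.repr u i = 0) →
      1 ≤ degVol (degN b) U (s.map b)
  | [], _, _, _ => le_rfl
  | i :: s, U, hs, hU => by
    obtain ⟨hi, hs'⟩ := List.nodup_cons.1 hs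
    simp only [List.map_cons, degVol]
    refine one_le_mul_of_one_le_of_one_le (deg_le_Q fun u hu => ?_)
      (deg_one_le_vol b s _ hs' fun j hj u hu => ?_)
    · have h1 := norm_le_pi_norm (fun j => b.repr (b i - u) j) i
      rw [map_sub, Finsupp.sub_apply, hU i List.mem_cons_self u hu] at h1
      simpa [degN] using h1
    · obtain ⟨u', hu', z, hz, rfl⟩ := Submodule.mem_sup.1 hu
      obtain ⟨c, rfl⟩ := Submodule.mem_span_singleton.1 hz
      have hij : i ≠ j := fun e => hi (e ▸ hj)
      simp [hU j (List.mem_cons_of_mem i hj) u' hu', Finsupp.single_eq_of_ne hij.symm]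

theorem deg_one_le {m : ℕ} (b : Module.Basis (Fin m) D V) :
    1 ≤ degVol (degN b) (⊥ : Submodule D V) (degL b) :=
  deg_one_le_vol b _ _ (List.nodup_finRange m) fun i _ u hu => by
    rw [(Submodule.mem_bot D).1 hu]
    simp

theorem degL_length {m : ℕ} (b : Module.Basis (Fin m) D V) : (degL b).length = m := by
  simp [degL]

theorem degL_span {m : ℕ} (b : Module.Basis (Fin m) D V) (v : V) :
    v ∈ Submodule.span D {z | z ∈ degL b} := by
  have : {z | z ∈ degL b} = Set.range b := by
    ext z
    simp [degL]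
  rw [this, b.span_eq]
  trivial

variable {E : Type} [Group E] (A : SL E D V)

theorem DegUS.comp (h : DegUS D N) (e : E) : DegUS D fun v => N (A.act e v) where
  nonneg _ := h.nonneg _
  smul d v := by rw [A.smul, h.smul, A.iso]
  ultra v w := by
    rw [map_add]
    exact h.ultra _ _

theorem deg_sub_sup (e : E) (U : Submodule D V) (x : V) :
    A.sub e (U ⊔ Submodule.span D {x}) = A.sub e U ⊔ Submodule.span D {A.act e x} := by
  refine le_antisymm ?_ (sup_le ?_ ?_)
  · rintro _ ⟨v, hv, rfl⟩
    obtain ⟨u, hu, z, hz, rfl⟩ := Submodule.mem_sup.1 hv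
    obtain ⟨c, rfl⟩ := Submodule.mem_span_singleton.1 hz
    rw [map_add, A.smul]
    exact Submodule.add_mem_sup ⟨u, hu, rfl⟩ (Submodule.mem_span_singleton.2 ⟨_, rfl⟩)
  · rintro _ ⟨v, hv, rfl⟩
    exact ⟨v, Submodule.mem_sup_left hv, rfl⟩
  · rw [Submodule.span_le, Set.singleton_subset_iff]
    exact ⟨x, Submodule.mem_sup_right (Submodule.mem_span_singleton_self x), rfl⟩

theorem degVol_map (h : DegUS D N) (e : E) : ∀ (l : List V) (U : Submodule D V),
    degVol N (A.sub e U) (l.map (A.act e)) = degVol (fun v => N (A.act e v)) U l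
  | [], _ => rfl
  | v :: l, U => by
    have e1 : degQ N (A.sub e U) (A.act e v) = degQ (fun v => N (A.act e v)) U v := by
      refine le_antisymm (deg_le_Q fun u hu => ?_) (deg_le_Q ?_)
      · rw [map_sub]
        exact degQ_le h _ ⟨u, hu, rfl⟩
      · rintro _ ⟨u, hu, rfl⟩
        rw [← map_sub]
        exact degQ_le (h.comp A e) v hu
    simp only [List.map_cons, degVol]
    rw [← deg_sub_sup, degVol_map h e l, e1]

theorem degVol_map_bot (h : DegUS D N) (e : E) (l : List V) :
    degVol N (⊥ : Submodule D V) (l.map (A.act e))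
      = degVol (fun v => N (A.act e v)) (⊥ : Submodule D V) l := by
  have : A.sub e ⊥ = ⊥ := by
    rw [eq_bot_iff]
    rintro _ ⟨v, hv, rfl⟩
    rw [(Submodule.mem_bot D).1 hv, map_zero]
    exact Submodule.zero_mem _
  rw [← degVol_map A h e l ⊥, this]

theorem deg_map_span {l : List V} (hl : ∀ v, v ∈ Submodule.span D {z | z ∈ l}) (e : E) (v : V) :
    v ∈ Submodule.span D {z | z ∈ l.map (A.act e)} := by
  have key : ∀ w ∈ Submodule.span D {z | z ∈ l},
      A.act e w ∈ Submodule.span D {z | z ∈ l.map (A.act e)} := by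
    intro w hw
    induction hw using Submodule.span_induction with
    | mem x hx => exact Submodule.subset_span (List.mem_map_of_mem hx)
    | zero => rw [map_zero]; exact Submodule.zero_mem _
    | add x y _ _ hx hy => rw [map_add]; exact Submodule.add_mem _ hx hy
    | smul c x _ hx => rw [A.smul]; exact Submodule.smul_mem _ _ hx
  have h1 := key _ (hl (A.act e⁻¹ v))
  have e1 : A.act e (A.act e⁻¹ v) = v := by
    have : A.act (e * e⁻¹) v = A.act e (A.act e⁻¹ v) := by
      rw [map_mul]
      rfl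
    rw [← this, mul_inv_cancel, map_one]
    rfl
  rwa [e1] at h1

theorem deg_root (a : E →* ℝ) (ha : ∀ e, 0 ≤ a e) {m : ℕ} (hm : 0 < m) :
    ∃ δ : E →* ℝ, ∀ e, 0 < δ e ∧ δ e ^ m = a e := by
  have hpos : ∀ e, 0 < a e := fun e => lt_of_le_of_ne (ha e) fun h0 => by
    have h1 := a.map_mul e e⁻¹
    rw [mul_inv_cancel, map_one, ← h0, zero_mul] at h1
    exact one_ne_zero h1
  refine ⟨⟨⟨fun e => a e ^ ((m : ℝ)⁻¹), by simp⟩, fun e e' => ?_⟩, fun e => ⟨?_, ?_⟩⟩
  · simp only [map_mul]
    exact Real.mul_rpow (ha e) (ha e')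
  · exact Real.rpow_pos_of_pos (hpos e) _
  · exact Real.rpow_inv_natCast_pow (ha e) hm.ne'

end Aux

/-- Discretely valued case. The volume of a list of vectors for an ultrametric norm is the product
of the distances of each vector to the span of the previous ones; the ratio of the volumes for two
norms does not depend on the basis, which gives a character. -/
theorem exists_vol_disc {E D V : Type} [Group E] [NormedDivisionRing D] [IsUltrametricDist D]
    [AddCommGroup V] [Module D V] [Module.Finite D V] [Nontrivial V] (hD : Disc D)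
    (A : SL E D V) :
    ∃ (δ : E →* ℝ) (m' : ℕ), 0 < m' ∧ A.Vol δ ∧ ∀ e, ∃ k : ℤ, δ e = Real.exp (k / m') := by
  have hm : 0 < Module.finrank D V := Module.finrank_pos
  let b₀ := Module.finBasis D V
  have hN := degN_us b₀
  have h1 := deg_one_le b₀
  have h0 : degVol (degN b₀) (⊥ : Submodule D V) (degL b₀) ≠ 0 := (zero_lt_one.trans_le h1).ne'
  have hsp : ∀ l : List V, (∀ v, v ∈ Submodule.span D {z | z ∈ l}) → ∀ l' : List V, ∀ x ∈ l',
      x ∈ (⊥ : Submodule D V) ⊔ Submodule.span D {z | z ∈ l} :=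
    fun l hl _ x _ => Submodule.mem_sup_right (hl x)
  let a : E →* ℝ :=
    { toFun := fun e => degVol (degN b₀) (⊥ : Submodule D V) ((degL b₀).map (A.act e)) /
        degVol (degN b₀) (⊥ : Submodule D V) (degL b₀)
      map_one' := by
        have : (degL b₀).map (A.act 1) = degL b₀ := by
          rw [map_one]
          exact List.map_id _
        rw [this, div_self h0]
      map_mul' := fun e e' => by
        have e1 : (degL b₀).map (A.act (e * e')) = ((degL b₀).map (A.act e')).map (A.act e) := by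
          rw [map_mul, List.map_map]
          rfl
        have e2 := deg_ratio hN (hN.comp A e) (degL b₀) ⊥ ((degL b₀).map (A.act e'))
          (List.length_map _) (hsp _ (deg_map_span A (degL_span b₀) e') _) h0
        rw [e1, degVol_map_bot A hN e, degVol_map_bot A hN e]
        field_simp
        linear_combination e2 }
  have ha : ∀ e, a e = degVol (degN b₀) (⊥ : Submodule D V) ((degL b₀).map (A.act e)) /
      degVol (degN b₀) (⊥ : Submodule D V) (degL b₀) := fun _ => rfl
  have ha0 : ∀ e, 0 ≤ a e := fun e => div_nonneg (degVol_nonneg hN _ _) (degVol_nonneg hN _ _)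
  obtain ⟨δ, hδ⟩ := deg_root a ha0 hm
  refine ⟨δ, Module.finrank D V, hm, ⟨fun e => (hδ e).1, ⟨1, fun b e κ hκ => ?_⟩,
    fun e d hd => ?_⟩, fun e => ?_⟩
  · have hκ0 : 0 ≤ κ := (norm_nonneg _).trans (hκ ⟨0, hm⟩ ⟨0, hm⟩)
    have hNb := degN_us b
    have hb1 := deg_one_le b
    have hb0 : degVol (degN b) (⊥ : Submodule D V) (degL b) ≠ 0 := (zero_lt_one.trans_le hb1).ne'
    have hl : (degL b).length = (degL b₀).length := by rw [degL_length, degL_length]
    have e1 := deg_ratio hN (hN.comp A e) (degL b₀) ⊥ (degL b) hl (hsp _ (degL_span b) _) h0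
    have e2 := deg_ratio hNb hN (degL b) ⊥ ((degL b).map (A.act e)) (List.length_map _)
      (hsp _ (deg_map_span A (degL_span b) e) _) hb0
    have e3 := deg_ratio hNb hN (degL b) ⊥ (degL b₀) hl.symm (hsp _ (degL_span b₀) _) hb0
    have h3 : degVol (degN b₀) (⊥ : Submodule D V) (degL b) ≠ 0 :=
      right_ne_zero_of_mul (e3 ▸ mul_ne_zero hb0 h0)
    rw [← degVol_map_bot A hN e, ← degVol_map_bot A hN e] at e1
    have e4 : a e * degVol (degN b) (⊥ : Submodule D V) (degL b)
        = degVol (degN b) (⊥ : Submodule D V) ((degL b).map (A.act e)) := by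
      rw [ha, div_mul_eq_mul_div, div_eq_iff h0]
      refine mul_left_cancel₀ h3 ?_
      linear_combination degVol (degN b₀) (⊥ : Submodule D V) (degL b₀) * e2
        - degVol (degN b) (⊥ : Submodule D V) (degL b) * e1
    have h5 : degVol (degN b) (⊥ : Submodule D V) ((degL b).map (A.act e))
        ≤ κ ^ Module.finrank D V := by
      have := degVol_le hNb (κ := κ) ((degL b).map (A.act e)) ⊥ (by
        intro x hx
        obtain ⟨y, hy, rfl⟩ := List.mem_map.1 hx
        obtain ⟨i, -, rfl⟩ := List.mem_map.1 hy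
        exact (pi_norm_le_iff_of_nonneg hκ0).2 (hκ i))
      rwa [List.length_map, degL_length] at this
    have h6 : δ e ^ Module.finrank D V ≤ κ ^ Module.finrank D V := by
      rw [(hδ e).2]
      exact (le_mul_of_one_le_right (ha0 e) hb1).trans (e4 ▸ h5)
    rw [one_mul]
    exact (pow_le_pow_iff_left₀ (hδ e).1.le hκ0 hm.ne').1 h6
  · have e1 : (fun v => degN b₀ (A.act e v)) = fun v => ‖d‖ * degN b₀ v := by
      funext v
      rw [hd, hN.smul]
    have e2 : a e = ‖d‖ ^ Module.finrank D V := by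
      rw [ha, degVol_map_bot A hN e, e1, degVol_const_mul (norm_nonneg d), degL_length,
        mul_div_cancel_right₀ _ h0]
    exact (pow_left_inj₀ (hδ e).1.le (norm_nonneg d) hm.ne').1 ((hδ e).2.trans e2)
  · have hne : a e ≠ 0 := by
      rw [← (hδ e).2]
      exact (pow_pos (hδ e).1 _).ne'
    rw [ha] at hne
    obtain ⟨k, hk⟩ := degVol_int hN (degN_int hD b₀) _ _ (div_ne_zero_iff.1 hne).1
    obtain ⟨k', hk'⟩ := degVol_int hN (degN_int hD b₀) _ _ h0
    refine ⟨k - k', (pow_left_inj₀ (hδ e).1.le (Real.exp_pos _).le hm.ne').1 ?_⟩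
    have hm' : ((Module.finrank D V : ℕ) : ℝ) ≠ 0 := Nat.cast_ne_zero.2 hm.ne'
    rw [(hδ e).2, ha, hk, hk', ← Real.exp_nat_mul, mul_div_cancel₀ _ hm', Int.cast_sub,
      Real.exp_sub]

/-- Complex linear case: `δ e = ‖det‖ ^ (1 / m)`. -/
theorem exists_vol_complex {E V : Type} [Group E] [AddCommGroup V] [Module ℂ V]
    [Module.Finite ℂ V] [Nontrivial V] (A : SL E ℂ V) (hA : ∀ e, A.α e = 1) :
    ∃ δ : E →* ℝ, A.Vol δ := by
  have hm : 0 < Module.finrank ℂ V := Module.finrank_pos
  let φ : E →* Module.End ℂ V :=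
    { toFun := fun e =>
        { toFun := A.act e
          map_add' := map_add _
          map_smul' := fun d v => by
            rw [A.smul, hA]
            rfl }
      map_one' := by
        ext v
        simp
      map_mul' := fun e e' => by
        ext v
        simp }
  have hφ : ∀ e v, φ e v = A.act e v := fun _ _ => rfl
  let a : E →* ℝ :=
    { toFun := fun e => ‖LinearMap.det (φ e)‖
      map_one' := by simp
      map_mul' := fun e e' => by simp }
  have ha : ∀ e, a e = ‖LinearMap.det (φ e)‖ := fun _ => rfl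
  obtain ⟨δ, hδ⟩ := deg_root a (fun e => norm_nonneg (LinearMap.det (φ e))) hm
  refine ⟨δ, fun e => (hδ e).1, ⟨(Module.finrank ℂ V).factorial, fun b e κ hκ => ?_⟩,
    fun e d hd => ?_⟩
  · have hκ0 : 0 ≤ κ := (norm_nonneg _).trans (hκ ⟨0, hm⟩ ⟨0, hm⟩)
    have h1 := Matrix.det_le (A := LinearMap.toMatrix b b (φ e))
      (abv := NormedField.toAbsoluteValue ℂ) (x := κ) (fun i j => by
        rw [LinearMap.toMatrix_apply]
        exact hκ j i)
    rw [LinearMap.det_toMatrix, Fintype.card_fin, nsmul_eq_mul] at h1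
    have hf : (1 : ℝ) ≤ (Module.finrank ℂ V).factorial :=
      Nat.one_le_cast.2 (Nat.factorial_pos _)
    have h2 : δ e ^ Module.finrank ℂ V
        ≤ ((Module.finrank ℂ V).factorial * κ) ^ Module.finrank ℂ V := by
      rw [(hδ e).2, mul_pow]
      exact le_trans h1 (mul_le_mul_of_nonneg_right (le_self_pow₀ hf hm.ne') (pow_nonneg hκ0 _))
    exact (pow_le_pow_iff_left₀ (hδ e).1.le (by positivity) hm.ne').1 h2
  · have e1 : φ e = d • (LinearMap.id : V →ₗ[ℂ] V) := by
      ext v
      rw [hφ, hd]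
      rfl
    refine (pow_left_inj₀ (hδ e).1.le (norm_nonneg d) hm.ne').1 ?_
    rw [(hδ e).2, ha, e1, LinearMap.det_smul, LinearMap.det_id, mul_one, norm_pow]

end Pool.Agent.Lib.MP_9ac97d_al
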