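import Pool.Agent.Lib.MP_9ac97d_al.Tree

/-!
# Extensions of a free group and the basic notions attached to them
-/

set_option autoImplicit false

noncomputable section

open Pointwise

namespace Pool.Agent.Lib.MP_9ac97d_al

/-- A group `E` acting on the free group `Fr n`, with quotient `H` by the image of `Fr n`, which
acts by conjugation. -/
structure Ext (E H : Type) [Group E] [Group H] (n : ℕ) where
  π : E →* H
  ρ : E →* MulAut (Fr n)
  j : Fr n →* E
  surj : Function.Surjective π
  ker : π.ker = j.range
  ρ_j : ∀ g, ρ (j g) = MulAut.conj g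
  conj_j : ∀ e g, e * j g * e⁻¹ = j (ρ e g)

namespace Ext

variable {E H : Type} [Group E] [Group H] {n : ℕ} (X : Ext E H n)

/-- The elements of `E` that map `S` onto itself. -/
def norm (S : Subgroup (Fr n)) : Subgroup E := (MulAction.stabilizer (MulAut (Fr n)) S).comap X.ρ

/-- The elements of `E` that fix `S` pointwise. -/
def cent (S : Subgroup (Fr n)) : Subgroup E where
  carrier := {e | ∀ s ∈ S, X.ρ e s = s}
  mul_mem' := fun {a b} ha hb s hs => by rw [map_mul, MulAut.mul_apply, hb s hs, ha s hs]
  one_mem' := fun s _ => by simp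
  inv_mem' := fun {a} ha s hs => by
    rw [map_inv]; exact (MulEquiv.symm_apply_eq _).2 (ha s hs).symm

/-- The stabilizer in `H` of the conjugacy class of `S`. -/
def stabH (S : Subgroup (Fr n)) : Subgroup H := (X.norm S).map X.π

/-- The elements of `H` with a lift in `E'` that fixes `S` pointwise. -/
def kerIn (E' : Subgroup E) (S : Subgroup (Fr n)) : Subgroup H := (E' ⊓ X.cent S).map X.π

/-- A term of the lower central series of a finite index subgroup acts trivially on `S`. -/
def Good (S : Subgroup (Fr n)) : Prop := FF (X.kerIn ⊤ S)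

/-- The conjugacy class of `S` has a finite orbit. -/
def Per (S : Subgroup (Fr n)) : Prop := (X.stabH S).FiniteIndex

/-- Every finitely generated subgroup of `N` lies in a periodic one. -/
def Tame (N : Subgroup (Fr n)) : Prop :=
  ∀ D ≤ N, D.FG → ∃ P, D ≤ P ∧ P ≤ N ∧ P.FG ∧ X.Per P

/-- `N` is invariant under `E`. -/
def Inv (N : Subgroup (Fr n)) : Prop := ∀ e, X.ρ e • N = N

/-- `E'` preserves `S` and meets the free group exactly in `S`. -/
structure Pair (E' : Subgroup E) (S : Subgroup (Fr n)) : Prop where
  le : E' ≤ X.norm S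
  cap : ∀ g, X.j g ∈ E' ↔ g ∈ S

/-- All lifts of elements of `K` preserve the order `o`. -/
def OrdOn (o : BiOrd (Fr n)) (K : Subgroup H) : Prop := ∀ e, X.π e ∈ K → o.Pres (X.ρ e)

theorem smul_mem {E' : Subgroup E} {S : Subgroup (Fr n)} (h : X.Pair E' S) {e : E} (he : e ∈ E')
    {s : Fr n} (hs : s ∈ S) : X.ρ e s ∈ S := by
  have h1 : X.ρ e • S = S := h.le he
  rw [← h1]
  exact Subgroup.smul_mem_pointwise_smul _ _ _ hs

/-- The action of `E'` on `S`. -/
def resAut {E' : Subgroup E} {S : Subgroup (Fr n)} (h : X.Pair E' S) : E' →* MulAut S where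
  toFun e :=
    { toFun := fun s => ⟨X.ρ e s, X.smul_mem h e.2 s.2⟩
      invFun := fun s => ⟨X.ρ (e⁻¹ : E') s, X.smul_mem h (e⁻¹).2 s.2⟩
      left_inv := fun s => Subtype.ext (by simp)
      right_inv := fun s => Subtype.ext (by simp)
      map_mul' := fun s t => by ext; simp }
  map_one' := by ext s; simp
  map_mul' := fun e e' => by ext s; simp

/-- Restriction of the extension to a pair `(E', S)` with a chosen basis of `S`. -/
def restrict {E' : Subgroup E} {S : Subgroup (Fr n)} (h : X.Pair E' S) {r : ℕ}
    (b : Fr r ≃* S) : Ext E' (E'.map X.π) r where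
  π := X.π.subgroupMap E'
  ρ := (MulAut.congr b.symm).toMonoidHom.comp (X.resAut h)
  j := ((X.j.comp S.subtype).comp b.toMonoidHom).codRestrict E' fun g => (h.cap _).2 (b g).2
  surj := X.π.subgroupMap_surjective E'
  ker := by
    ext e
    simp only [MonoidHom.mem_ker, MonoidHom.mem_range]
    constructor
    · intro he
      have h1 : (e : E) ∈ X.π.ker := by
        have := congrArg Subtype.val he
        simpa using this
      rw [X.ker] at h1
      obtain ⟨g, hg⟩ := h1
      have hgS : g ∈ S := (h.cap g).1 (hg ▸ e.2)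
      exact ⟨b.symm ⟨g, hgS⟩, by ext; simp [hg]⟩
    · rintro ⟨g, rfl⟩
      ext
      have : X.j (b g) ∈ X.π.ker := by rw [X.ker]; exact ⟨_, rfl⟩
      simpa using this
  ρ_j := fun g => by
    ext x
    apply b.injective
    ext
    simp [resAut, X.ρ_j]
  conj_j := fun e g => by
    ext
    simp [resAut, X.conj_j]

/-- A counterexample in rank `r` sitting inside `X`. -/
structure Bad (r : ℕ) (E' : Subgroup E) (S : Subgroup (Fr n)) : Prop where
  pair : X.Pair E' S
  onto : E'.map X.π = ⊤
  fg : S.FG
  rank : rk S = r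
  bad : ¬ FF (X.kerIn E' S)

end Ext

/-- The main statement in rank `n`. -/
def Main (n : ℕ) : Prop :=
  ∀ (E H : Type) [Group E] [Group H] (X : Ext E H n), NF H → X.Good ⊤

end Pool.Agent.Lib.MP_9ac97d_al
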