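import Pool.Agent.Lib.MP_9ac97d_al.GBasic

/-!
# Short commutators (task GLcs)
-/

set_option autoImplicit false

noncomputable section

open Pointwise
open scoped commutatorElement

namespace Pool.Agent.Lib.MP_9ac97d_al

variable {H : Type} [Group H]

/-- Left normed commutators of weight `c + 1` in the letters `S ∪ S⁻¹`. -/
def lcomms (S : Set H) : ℕ → Set H
  | 0 => {s | s ∈ S ∨ s⁻¹ ∈ S}
  | c + 1 => {z | ∃ x ∈ lcomms S c, ∃ s, (s ∈ S ∨ s⁻¹ ∈ S) ∧ z = x * s * x⁻¹ * s⁻¹}

theorem lcomms_subset_ball (S : Set H) (c : ℕ) : lcomms S c ⊆ ball S (3 * 2 ^ c) := by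
  have key : ∀ c : ℕ, ∃ a, a + 2 = 3 * 2 ^ c ∧ lcomms S c ⊆ ball S a := by
    intro c
    induction c with
    | zero => exact ⟨1, rfl, fun s hs => mem_ball_one hs⟩
    | succ c ih =>
      obtain ⟨a, ha, h⟩ := ih
      refine ⟨a + 1 + a + 1, by rw [pow_succ]; omega, ?_⟩
      rintro z ⟨x, hx, s, hs, rfl⟩
      exact mul_mem_ball (mul_mem_ball (mul_mem_ball (h hx) (mem_ball_one hs))
        (inv_mem_ball (h hx))) (inv_mem_ball (mem_ball_one hs))
  obtain ⟨a, ha, h⟩ := key c
  exact h.trans (ball_mono (by omega))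

/-- Induction on `c`: modulo the normal closure of `lcomms S (c + 1)` the elements of
`lcomms S c` are central, so their normal closure is central. -/
theorem lcs_eq_normalClosure {S : Set H} (hS : Subgroup.closure S = ⊤) (c : ℕ) :
    (⊤ : Subgroup H).lowerCentralSeries c = Subgroup.normalClosure (lcomms S c) := by
  induction c with
  | zero =>
    rw [Subgroup.lowerCentralSeries_zero, eq_comm, eq_top_iff, ← hS, Subgroup.closure_le]
    exact fun s hs => Subgroup.subset_normalClosure (Or.inl hs)
  | succ c ih =>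
    rw [Subgroup.lowerCentralSeries_succ]
    apply le_antisymm
    · set N := Subgroup.normalClosure (lcomms S (c + 1)) with hN
      have h1 : (⊤ : Subgroup H).lowerCentralSeries c ≤
          (Subgroup.center (H ⧸ N)).comap (QuotientGroup.mk' N) := by
        rw [ih]
        apply Subgroup.normalClosure_le_normal
        intro x hx
        have h2 : Subgroup.closure S ≤
            (Subgroup.centralizer {QuotientGroup.mk' N x}).comap (QuotientGroup.mk' N) := by
          rw [Subgroup.closure_le]
          intro s hs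
          have h3 : x * s * x⁻¹ * s⁻¹ ∈ N :=
            Subgroup.subset_normalClosure ⟨x, hx, s, Or.inl hs, rfl⟩
          have h4 : QuotientGroup.mk' N (x * s * x⁻¹ * s⁻¹) = 1 :=
            (QuotientGroup.eq_one_iff _).2 h3
          rw [SetLike.mem_coe, Subgroup.mem_comap, Subgroup.mem_centralizer_singleton_iff]
          simp only [map_mul, map_inv] at h4
          rw [mul_inv_eq_one, mul_inv_eq_iff_eq_mul] at h4
          exact h4.symm
        rw [SetLike.mem_coe, Subgroup.mem_comap, Subgroup.mem_center_iff]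
        intro g
        obtain ⟨h, rfl⟩ := QuotientGroup.mk'_surjective N g
        have h5 := h2 (hS.symm ▸ Subgroup.mem_top h : h ∈ Subgroup.closure S)
        rwa [Subgroup.mem_comap, Subgroup.mem_centralizer_singleton_iff] at h5
      rw [Subgroup.commutator_le]
      intro p hp q _
      have h6 := Subgroup.mem_center_iff.1 (h1 hp) (QuotientGroup.mk' N q)
      apply (QuotientGroup.eq_one_iff _).1
      change QuotientGroup.mk' N ⁅p, q⁆ = 1
      rw [map_commutatorElement, commutatorElement_eq_one_iff_mul_comm]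
      exact h6.symm
    · apply Subgroup.normalClosure_le_normal
      rintro z ⟨x, hx, s, -, rfl⟩
      have h7 : x ∈ (⊤ : Subgroup H).lowerCentralSeries c := by
        rw [ih]
        exact Subgroup.subset_normalClosure hx
      exact Subgroup.commutator_mem_commutator h7 (Subgroup.mem_top s)

/-- A conjugation invariant character of a term of the lower central series that is not zero is
not zero on a short element. -/
theorem exists_short_ne {c : ℕ} {χ : H → ℝ}
    (hadd : ∀ x ∈ (⊤ : Subgroup H).lowerCentralSeries c,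
      ∀ y ∈ (⊤ : Subgroup H).lowerCentralSeries c, χ (x * y) = χ x + χ y)
    (hconj : ∀ h, ∀ x ∈ (⊤ : Subgroup H).lowerCentralSeries c, χ (h * x * h⁻¹) = χ x)
    (hne : ∃ x ∈ (⊤ : Subgroup H).lowerCentralSeries c, χ x ≠ 0) {S : Set H}
    (hS : Subgroup.closure S = ⊤) :
    ∃ a ∈ (⊤ : Subgroup H).lowerCentralSeries c, a ∈ ball S (3 * 2 ^ c) ∧ χ a ≠ 0 := by
  by_contra hcon
  push Not at hcon
  obtain ⟨x, hx, hx0⟩ := hne
  have h1 : χ 1 = 0 := by
    have := hadd 1 (Subgroup.one_mem _) 1 (Subgroup.one_mem _)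
    rw [mul_one] at this
    linarith
  let K : Subgroup H :=
    { carrier := {y | y ∈ (⊤ : Subgroup H).lowerCentralSeries c ∧ χ y = 0}
      mul_mem' := fun {a b} ha hb => ⟨Subgroup.mul_mem _ ha.1 hb.1, by
        rw [hadd a ha.1 b hb.1, ha.2, hb.2, add_zero]⟩
      one_mem' := ⟨Subgroup.one_mem _, h1⟩
      inv_mem' := fun {a} ha => ⟨Subgroup.inv_mem _ ha.1, by
        have := hadd a ha.1 a⁻¹ (Subgroup.inv_mem _ ha.1)
        rw [mul_inv_cancel, h1, ha.2, zero_add] at this
        exact this.symm⟩ }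
  have : K.Normal := ⟨fun n hn g =>
    ⟨(inferInstance : ((⊤ : Subgroup H).lowerCentralSeries c).Normal).conj_mem n hn.1 g, by
      rw [hconj g n hn.1]
      exact hn.2⟩⟩
  have h2 : Subgroup.normalClosure (lcomms S c) ≤ K := by
    apply Subgroup.normalClosure_le_normal
    intro a ha
    have h3 : a ∈ (⊤ : Subgroup H).lowerCentralSeries c := by
      rw [lcs_eq_normalClosure hS]
      exact Subgroup.subset_normalClosure ha
    exact ⟨h3, hcon a h3 (lcomms_subset_ball S c ha)⟩
  rw [← lcs_eq_normalClosure hS] at h2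
  exact hx0 (h2 hx).2

/-- Complex characters of a subgroup, as functions. -/
def GLcs_V (M : Subgroup H) : Submodule ℂ (M → ℂ) where
  carrier := {f | ∀ x y, f (x * y) = f x + f y}
  add_mem' := fun {f g} hf hg x y => by
    simp only [Pi.add_apply, hf x y, hg x y]
    ring
  zero_mem' := fun x y => by simp
  smul_mem' := fun a f hf x y => by
    simp only [Pi.smul_apply, hf x y, smul_add]

/-- Characters vanishing on the conjugates of `A` by the elements of a ball. -/
def GLcs_K (M : Subgroup H) [M.Normal] (S A : Set H) (k : ℕ) : Submodule ℂ (M → ℂ) where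
  carrier := {f | f ∈ GLcs_V M ∧
    ∀ x : M, (x : H) ∈ A → ∀ h ∈ ball S k, f (MulAut.conjNormal h x) = 0}
  add_mem' := fun {f g} hf hg => ⟨(GLcs_V M).add_mem hf.1 hg.1, fun x hx h hh => by
    rw [Pi.add_apply, hf.2 x hx h hh, hg.2 x hx h hh, add_zero]⟩
  zero_mem' := ⟨(GLcs_V M).zero_mem, fun _ _ _ _ => rfl⟩
  smul_mem' := fun a f hf => ⟨(GLcs_V M).smul_mem a hf.1, fun x hx h hh => by
    rw [Pi.smul_apply, hf.2 x hx h hh, smul_zero]⟩

theorem GLcs_dim (M : Subgroup H) (hfg : M.FG) :
    ∃ d : ℕ, FiniteDimensional ℂ (GLcs_V M) ∧ Module.finrank ℂ (GLcs_V M) ≤ d := by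
  obtain ⟨T, hT⟩ := (Group.fg_def.1 ((Group.fg_iff_subgroup_fg M).2 hfg))
  let ev : GLcs_V M →ₗ[ℂ] (T → ℂ) :=
    { toFun := fun f t => f.1 t.1
      map_add' := fun _ _ => rfl
      map_smul' := fun _ _ => rfl }
  have hev : Function.Injective ev := by
    rw [injective_iff_map_eq_zero]
    intro f hf
    have h1 : f.1 1 = 0 := by
      have := f.2 1 1
      rw [mul_one] at this
      exact left_eq_add.1 this
    apply Subtype.ext
    funext x
    have hx : x ∈ Subgroup.closure (T : Set M) := hT.symm ▸ Subgroup.mem_top x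
    change f.1 x = 0
    induction hx using Subgroup.closure_induction with
    | mem y hy => exact congrFun hf ⟨y, hy⟩
    | one => exact h1
    | mul y z _ _ hy hz => rw [f.2 y z, hy, hz, add_zero]
    | inv y _ hy =>
      have := f.2 y y⁻¹
      rw [mul_inv_cancel, h1, hy, zero_add] at this
      exact this.symm
  exact ⟨_, FiniteDimensional.of_injective ev hev, le_rfl⟩

theorem GLcs_stab {E : Type} [AddCommGroup E] [Module ℂ E] (V : Submodule ℂ E) (d : ℕ)
    (hV : FiniteDimensional ℂ V) (hd : Module.finrank ℂ V ≤ d) (K : ℕ → Submodule ℂ E)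
    (hK : ∀ k, K k ≤ V) (hK' : ∀ k, K (k + 1) ≤ K k) : ∃ k, k ≤ d ∧ K k ≤ K (k + 1) := by
  by_contra hcon
  push Not at hcon
  have key : ∀ k, k ≤ d + 1 → Module.finrank ℂ (K k) + k ≤ d := by
    intro k
    induction k with
    | zero => exact fun _ => (Submodule.finrank_mono (hK 0)).trans hd
    | succ k ih =>
      intro hk
      have : FiniteDimensional ℂ (K k) := Submodule.finiteDimensional_of_le (hK k)
      have h1 := Submodule.finrank_lt_finrank_of_lt
        (lt_of_le_not_ge (hK' k) (hcon k (by omega)))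
      have h2 := ih (by omega)
      omega
  have := key (d + 1) le_rfl
  omega

theorem GLcs_all (M : Subgroup H) [M.Normal] {S : Set H} (hS : Subgroup.closure S = ⊤)
    (A : Set H) {k : ℕ} (hk : GLcs_K M S A k ≤ GLcs_K M S A (k + 1)) {f : M → ℂ}
    (hf : f ∈ GLcs_K M S A k) (h : H) (x : M) (hx : (x : H) ∈ A) :
    f (MulAut.conjNormal h x) = 0 := by
  obtain ⟨a, l, -, hl, rfl⟩ :=
    mem_closure_iff_ball.1 (hS.symm ▸ Subgroup.mem_top h : h ∈ Subgroup.closure S)
  induction l generalizing f with
  | nil => exact hf.2 x hx 1 (one_mem_ball S k)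
  | cons s l ih =>
    have h1 : (fun y => f (MulAut.conjNormal s y)) ∈ GLcs_K M S A k := by
      refine ⟨fun y z => ?_, fun y hy g hg => ?_⟩
      · beta_reduce
        rw [map_mul]
        exact hf.1 _ _
      · have h2 := mul_mem_ball (mem_ball_one (hl s List.mem_cons_self)) hg
        rw [add_comm] at h2
        have h3 := (hk hf).2 y hy (s * g) h2
        rwa [map_mul] at h3
    have h4 := ih h1 fun y hy => hl y (List.mem_cons_of_mem s hy)
    rw [List.prod_cons, map_mul]
    exact h4

/-- Boundedly short elements span the complexified abelianization of `M`. Proof: the characters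
`M → ℂ` form a complex vector space of finite dimension `d` (evaluate on generators). The
subspaces `K k` of characters vanishing on all `h x h⁻¹`, `x ∈ lcomms S c`, `h ∈ ball S k`,
decrease; if `K k = K (k + 1)` then `K k` is invariant under conjugation by `S ∪ S⁻¹`, so all its
members vanish on the normal closure. This happens for some `k ≤ d`. -/
theorem span_short {c : ℕ} (hfg : ((⊤ : Subgroup H).lowerCentralSeries c).FG) :
    ∃ L₀ : ℕ, ∀ S : Set H, Subgroup.closure S = ⊤ →
      ∀ χ : (⊤ : Subgroup H).lowerCentralSeries c →* Multiplicative ℂ,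
        (∀ x : (⊤ : Subgroup H).lowerCentralSeries c, (x : H) ∈ ball S L₀ → χ x = 1) → χ = 1 := by
  classical
  set M := (⊤ : Subgroup H).lowerCentralSeries c with hM
  obtain ⟨d, hd⟩ := GLcs_dim M hfg
  refine ⟨d + 3 * 2 ^ c + d, fun S hS χ hχ => ?_⟩
  obtain ⟨k, hk, hkk⟩ := GLcs_stab (GLcs_V M) d hd.1 hd.2 (GLcs_K M S (lcomms S c))
    (fun k f hf => hf.1) (fun k f hf => ⟨hf.1, fun x hx h hh =>
      hf.2 x hx h (ball_mono (Nat.le_succ k) hh)⟩)
  have h1 : (fun x : M => (χ x).toAdd) ∈ GLcs_K M S (lcomms S c) k := by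
    refine ⟨fun x y => by simp only [map_mul, toAdd_mul], fun x hx h hh => ?_⟩
    beta_reduce
    rw [hχ, toAdd_one]
    rw [MulAut.conjNormal_apply]
    exact mul_mem_ball (mul_mem_ball (ball_mono hk hh) (lcomms_subset_ball S c hx))
      (inv_mem_ball (ball_mono hk hh))
  have h2 := GLcs_all M hS (lcomms S c) hkk h1
  have h3 : Subgroup.normalClosure (lcomms S c) ≤ χ.ker.map M.subtype := by
    unfold Subgroup.normalClosure
    rw [Subgroup.closure_le]
    intro z hz
    obtain ⟨x, hx, hxz⟩ := Group.mem_conjugatesOfSet_iff.1 hz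
    obtain ⟨h, rfl⟩ := isConj_iff.1 hxz
    have h4 : x ∈ M := by
      rw [hM, lcs_eq_normalClosure hS]
      exact Subgroup.subset_normalClosure hx
    exact ⟨MulAut.conjNormal h ⟨x, h4⟩, h2 h ⟨x, h4⟩ hx, rfl⟩
  rw [← lcs_eq_normalClosure hS] at h3
  refine MonoidHom.ext fun x => ?_
  obtain ⟨y, hy, hyx⟩ := h3 x.2
  rw [← Subtype.ext hyx]
  exact hy

/-- A finitely generated group modulo a subgroup containing the commutator subgroup: a surjection
onto a lattice whose kernel contains `N` with finite index. (Structure theorem, or: the quotient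
of the abelian group `Γ / N` by its finite torsion subgroup is free.) -/
theorem exists_lattice_quotient (Γ : Type) [Group Γ] [Group.FG Γ] (N : Subgroup Γ)
    (hN : ⁅(⊤ : Subgroup Γ), ⊤⁆ ≤ N) :
    ∃ (d : ℕ) (p : Γ →* Multiplicative (Fin d → ℤ)), Function.Surjective p ∧ N ≤ p.ker ∧
      (N.subgroupOf p.ker).FiniteIndex := by
  have : N.Normal := ⟨fun n hn g => by
    have h1 : ⁅g, n⁆ ∈ N :=
      hN (Subgroup.commutator_mem_commutator (Subgroup.mem_top g) (Subgroup.mem_top n))
    have h2 := N.mul_mem h1 hn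
    rwa [commutatorElement_def, inv_mul_cancel_right] at h2⟩
  let _ : CommGroup (Γ ⧸ N) :=
    { (inferInstance : Group (Γ ⧸ N)) with
      mul_comm := fun a b => by
        obtain ⟨x, rfl⟩ := QuotientGroup.mk'_surjective N a
        obtain ⟨y, rfl⟩ := QuotientGroup.mk'_surjective N b
        rw [← commutatorElement_eq_one_iff_mul_comm, ← map_commutatorElement]
        exact (QuotientGroup.eq_one_iff _).2
          (hN (Subgroup.commutator_mem_commutator (Subgroup.mem_top x) (Subgroup.mem_top y))) }
  obtain ⟨ι, j, _, _, p, hp, e, ⟨φ⟩⟩ :=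
    CommGroup.equiv_free_prod_prod_multiplicative_zmod (Γ ⧸ N)
  have : ∀ i, NeZero (p i ^ e i) := fun i => ⟨pow_ne_zero _ (hp i).ne_zero⟩
  let ψ : (j → Multiplicative ℤ) ≃* Multiplicative (Fin (Fintype.card j) → ℤ) :=
    (MulEquiv.arrowCongr (Fintype.equivFin j) (MulEquiv.refl _)).trans
      (MulEquiv.funMultiplicative _ ℤ).symm
  let q : Γ →* (j → Multiplicative ℤ) × ((i : ι) → Multiplicative (ZMod (p i ^ e i))) :=
    φ.toMonoidHom.comp (QuotientGroup.mk' N)
  have hq : Function.Surjective q := φ.surjective.comp (QuotientGroup.mk'_surjective N)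
  have hq1 : ∀ g, q g = 1 ↔ g ∈ N := fun g =>
    (map_eq_one_iff φ φ.injective).trans (QuotientGroup.eq_one_iff g)
  refine ⟨Fintype.card j, ψ.toMonoidHom.comp ((MonoidHom.fst _ _).comp q),
    ψ.surjective.comp (Prod.fst_surjective.comp hq), fun g hg => ?_, ?_⟩
  · rw [MonoidHom.mem_ker, MonoidHom.comp_apply, MonoidHom.comp_apply, (hq1 g).2 hg, map_one,
      map_one]
  · refine Subgroup.finiteIndex_of_le
      (H := (((MonoidHom.snd _ _).comp q).comp (Subgroup.subtype _)).ker) fun g hg => ?_
    rw [Subgroup.mem_subgroupOf, ← hq1]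
    exact Prod.ext ((map_eq_one_iff ψ ψ.injective).1 g.2) hg

end Pool.Agent.Lib.MP_9ac97d_al
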