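import Pool.Agent.Lib.MP_9ac97d_al.GSigma
import Pool.Agent.Lib.MP_9ac97d_al.GLcs

/-!
# Finite generation of the lower central terms (task GFg)
-/

set_option autoImplicit false

noncomputable section

open Pointwise

namespace Pool.Agent.Lib.MP_9ac97d_al

variable {H : Type} [Group H]

/-- The squared norm of the lattice point of `v`. -/
def gfgQ {d : ℕ} (p : H → Fin d → ℤ) (v : H) : ℤ := ∑ i, p v i ^ 2

/-- Joined by a `T`-path all of whose vertices after the first have `q ≤ R`. -/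
def gfgCon (T : Set H) (q : H → ℤ) (R : ℤ) : H → H → Prop :=
  Relation.ReflTransGen fun a b => q b ≤ R ∧ ∃ t ∈ T, b = a * t

theorem gfg_con_mono {T : Set H} {q : H → ℤ} {R R' : ℤ} (h : R ≤ R') {a b : H}
    (hab : gfgCon T q R a b) : gfgCon T q R' a b := by
  induction hab with
  | refl => exact Relation.ReflTransGen.refl
  | tail _ hx ih => exact ih.tail ⟨hx.1.trans h, hx.2⟩

theorem gfg_path_con {T : Set H} {q : H → ℤ} {R : ℤ} (l : List H) : ∀ (g : H),
    (∀ x ∈ l, x ∈ T) → q g ≤ R → (∀ k, 0 < k → k < l.length → q (g * (l.take k).prod) ≤ R) →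
    l = [] ∨ ∃ w, q w ≤ R ∧ gfgCon T q R g w ∧ ∃ t ∈ T, g * l.prod = w * t := by
  induction l with
  | nil => intro _ _ _ _; exact Or.inl rfl
  | cons t l ih =>
    intro g hl hg hk
    right
    have ht : t ∈ T := hl t List.mem_cons_self
    by_cases hnil : l = []
    · subst hnil
      exact ⟨g, hg, Relation.ReflTransGen.refl, t, ht, by simp⟩
    · have hlen : 0 < l.length := List.length_pos_iff.mpr hnil
      have h1 : q (g * t) ≤ R := by
        have := hk 1 one_pos (by simp [hlen])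
        simpa using this
      rcases ih (g * t) (fun x hx => hl x (List.mem_cons_of_mem _ hx)) h1 (fun k hk0 hk1 => by
        have := hk (k + 1) (Nat.succ_pos k) (by simpa using hk1)
        simpa [mul_assoc] using this) with h | ⟨w, hw, hc, t', ht', he⟩
      · exact absurd h hnil
      · refine ⟨w, hw, Relation.ReflTransGen.head ⟨h1, t, ht, rfl⟩ hc, t', ht', ?_⟩
        rw [← he]; simp [mul_assoc]

/-- Lowering the level of a path by one. -/
theorem gfg_lower {M : Subgroup H} {T : Set H} (hTs : ∀ t ∈ T, t⁻¹ ∈ T) (hTM : ∀ t ∈ T, t ∈ M)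
    {q : H → ℤ} {R : ℤ}
    (hloc : ∀ g ∈ M, q g = R + 1 → ∀ s ∈ T, ∀ s' ∈ T, q (g * s) ≤ q g → q (g * s') ≤ q g →
      PathIn T (g * s) (g * s') fun v => q v < q g)
    {x y : H} (hx : x ∈ M) (hqx : q x ≤ R) (h : gfgCon T q (R + 1) x y) (hqy : q y ≤ R) :
    gfgCon T q R x y := by
  have key : ∀ y, gfgCon T q (R + 1) x y → y ∈ M ∧ q y ≤ R + 1 ∧ ∃ z, q z ≤ R ∧
      gfgCon T q R x z ∧ ((q y ≤ R ∧ z = y) ∨ (R < q y ∧ ∃ s ∈ T, z = y * s)) := by
    intro y hy
    induction hy with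
    | refl => exact ⟨hx, by omega, x, hqx, Relation.ReflTransGen.refl, Or.inl ⟨hqx, rfl⟩⟩
    | @tail a b _ hab ih =>
      obtain ⟨hqb, t, ht, rfl⟩ := hab
      obtain ⟨haM, hqa, z, hqz, hcz, hz⟩ := ih
      refine ⟨M.mul_mem haM (hTM t ht), hqb, ?_⟩
      rcases hz with ⟨ha, rfl⟩ | ⟨ha, s, hs, rfl⟩
      · by_cases hb : q (z * t) ≤ R
        · exact ⟨z * t, hb, hcz.tail ⟨hb, t, ht, rfl⟩, Or.inl ⟨hb, rfl⟩⟩
        · exact ⟨z, hqz, hcz, Or.inr ⟨by omega, t⁻¹, hTs t ht, by simp⟩⟩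
      · have hqa' : q a = R + 1 := by omega
        obtain ⟨l, hl, he, hk⟩ := hloc a haM hqa' s hs t ht (by omega) (by omega)
        rcases gfg_path_con (q := q) (R := R) l (a * s) hl hqz (fun k h0 h1 => by
          have := hk k h0 h1
          omega) with h | ⟨w, hw, hc, t', ht', he'⟩
        · subst h
          have he2 : a * s = a * t := by simpa using he
          rw [← he2]
          exact ⟨a * s, hqz, hcz, Or.inl ⟨hqz, rfl⟩⟩
        · rw [he] at he'
          by_cases hb : q (a * t) ≤ R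
          · exact ⟨a * t, hb, (hcz.trans hc).tail ⟨hb, t', ht', he'⟩, Or.inl ⟨hb, rfl⟩⟩
          · exact ⟨w, hw, hcz.trans hc, Or.inr ⟨by omega, t'⁻¹, hTs t' ht', by simp [he']⟩⟩
  obtain ⟨-, -, z, -, hcz, hz⟩ := key y h
  rcases hz with ⟨-, rfl⟩ | ⟨ha, -⟩
  · exact hcz
  · omega

theorem gfg_q_mul {M : Subgroup H} {d : ℕ} {p : H → Fin d → ℤ}
    (hp : ∀ x ∈ M, ∀ y ∈ M, p (x * y) = p x + p y) {g v : H} (hg : g ∈ M) (hv : v ∈ M) :
    (gfgQ p (g * v) : ℝ) = gfgQ p g + 2 * ∑ i, (p g i : ℝ) * p v i + gfgQ p v := by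
  simp only [gfgQ, hp g hg v hv, Pi.add_apply]
  push_cast
  rw [Finset.mul_sum, ← Finset.sum_add_distrib, ← Finset.sum_add_distrib]
  exact Finset.sum_congr rfl fun i _ => by ring

omit [Group H] in
theorem gfg_q_nonneg {d : ℕ} (p : H → Fin d → ℤ) (g : H) : 0 ≤ gfgQ p g :=
  Finset.sum_nonneg fun _ _ => sq_nonneg _

/-- The local step for a fixed pair of letters. -/
theorem gfg_local {M : Subgroup H} {T : Set H} (hTM : ∀ t ∈ T, t ∈ M) {d : ℕ}
    {p : H → Fin d → ℤ} (hp : ∀ x ∈ M, ∀ y ∈ M, p (x * y) = p x + p y)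
    (hσ : ∀ θ : Fin d → ℝ, (∃ x ∈ M, ∑ i, θ i * p x i ≠ 0) →
      ∃ c : ℝ, 0 < c ∧ ∀ g ∈ M, ∀ g' ∈ M, PathIn T g g' fun v =>
        min (∑ i, θ i * p g i) (∑ i, θ i * p g' i) + c ≤ ∑ i, θ i * p v i)
    {s s' : H} (hs : s ∈ M) (hs' : s' ∈ M) :
    ∃ R : ℕ, ∀ g ∈ M, (R : ℤ) < gfgQ p g → gfgQ p (g * s) ≤ gfgQ p g →
      gfgQ p (g * s') ≤ gfgQ p g → PathIn T (g * s) (g * s') fun v => gfgQ p v < gfgQ p g := by
  by_contra hcon
  push Not at hcon
  choose g hgM hgR h1 h2 hno using hcon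
  set r : ℕ → ℝ := fun n => √(gfgQ p (g n) : ℝ) with hr
  have hqR : ∀ n : ℕ, (n : ℝ) < gfgQ p (g n) := fun n => by exact_mod_cast hgR n
  have hqpos : ∀ n, (0 : ℝ) < gfgQ p (g n) := fun n => lt_of_le_of_lt (Nat.cast_nonneg n) (hqR n)
  have hrpos : ∀ n, 0 < r n := fun n => Real.sqrt_pos.mpr (hqpos n)
  have hrsq : ∀ n, r n ^ 2 = gfgQ p (g n) := fun n => Real.sq_sqrt (hqpos n).le
  set a : ℕ → Fin d → ℝ := fun n i => -(p (g n) i : ℝ) / r n with ha
  have hasq : ∀ n, ∑ i, a n i * a n i = 1 := by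
    intro n
    have : ∀ i, a n i * a n i = (p (g n) i : ℝ) ^ 2 / r n ^ 2 := fun i => by
      simp only [ha]; field_simp
    simp only [this]
    rw [← Finset.sum_div, hrsq, div_eq_one_iff_eq (hqpos n).ne']
    simp [gfgQ]
  have hamem : ∀ n, a n ∈ Set.Icc (fun _ : Fin d => (-1 : ℝ)) fun _ => 1 := by
    intro n
    have hb : ∀ i, a n i * a n i ≤ 1 := fun i => by
      rw [← hasq n]
      exact Finset.single_le_sum (f := fun i => a n i * a n i)
        (fun j _ => mul_self_nonneg _) (Finset.mem_univ i)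
    exact ⟨fun i => (abs_le_of_sq_le_sq' (by simpa [sq] using hb i) zero_le_one).1,
      fun i => (abs_le_of_sq_le_sq' (by simpa [sq] using hb i) zero_le_one).2⟩
  obtain ⟨θ, -, φ, hφ, hlim⟩ := isCompact_Icc.tendsto_subseq hamem
  have hli : ∀ i, Filter.Tendsto (fun n => a (φ n) i) Filter.atTop (nhds (θ i)) := fun i =>
    (continuous_apply i).continuousAt.tendsto.comp hlim
  have hdot : ∀ u : Fin d → ℝ, Filter.Tendsto (fun n => ∑ i, a (φ n) i * u i) Filter.atTop
      (nhds (∑ i, θ i * u i)) := fun u =>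
    tendsto_finsetSum _ fun i _ => (hli i).mul_const _
  have hθ1 : ∑ i, θ i * θ i = 1 := by
    have h := tendsto_finsetSum Finset.univ fun i _ => (hli i).mul (hli i)
    simp only [hasq] at h
    exact tendsto_nhds_unique h tendsto_const_nhds
  have hform : ∀ n (v : H), ∑ i, (p (g n) i : ℝ) * p v i = -(r n * ∑ i, a n i * p v i) := by
    intro n v
    rw [Finset.mul_sum, ← Finset.sum_neg_distrib]
    refine Finset.sum_congr rfl fun i _ => ?_
    have := (hrpos n).ne'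
    simp only [ha]; field_simp
  have hne : ∃ x ∈ M, ∑ i, θ i * p x i ≠ 0 := by
    by_contra hz
    push Not at hz
    have h0 : ∀ n, ∑ i, a n i * θ i = 0 := by
      intro n
      have : ∀ i, a n i * θ i = -(r n)⁻¹ * (θ i * p (g n) i) := fun i => by
        simp only [ha]; ring
      simp only [this]
      rw [← Finset.mul_sum, hz _ (hgM n), mul_zero]
    have h := hdot θ
    simp only [h0] at h
    have := tendsto_nhds_unique h tendsto_const_nhds
    rw [hθ1] at this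
    exact one_ne_zero this
  have hnn : ∀ v ∈ M, (∀ n, gfgQ p (g n * v) ≤ gfgQ p (g n)) → 0 ≤ ∑ i, θ i * p v i := by
    intro v hv h
    refine ge_of_tendsto' (hdot fun i => p v i) fun n => ?_
    have e := gfg_q_mul hp (hgM (φ n)) hv
    have h' : (gfgQ p (g (φ n) * v) : ℝ) ≤ gfgQ p (g (φ n)) := by exact_mod_cast h (φ n)
    have h0 : (0 : ℝ) ≤ gfgQ p v := by exact_mod_cast gfg_q_nonneg p v
    rw [hform] at e
    have : 0 ≤ r (φ n) * ∑ i, a (φ n) i * p v i := by linarith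
    exact nonneg_of_mul_nonneg_right (by rwa [mul_comm] at this) (hrpos _)
  obtain ⟨c, hc, hpath⟩ := hσ θ hne
  obtain ⟨l, hl, he, hk⟩ := hpath s hs s' hs'
  have hrt : Filter.Tendsto (fun n => r (φ n)) Filter.atTop Filter.atTop := by
    have h3 : Filter.Tendsto (fun n : ℕ => (gfgQ p (g n) : ℝ)) Filter.atTop Filter.atTop :=
      Filter.tendsto_atTop_mono (fun n => (hqR n).le) tendsto_natCast_atTop_atTop
    exact (Real.tendsto_sqrt_atTop.comp h3).comp hφ.tendsto_atTop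
  have hev : ∀ v ∈ M, c ≤ ∑ i, θ i * p v i →
      ∀ᶠ n in Filter.atTop, gfgQ p (g (φ n) * v) < gfgQ p (g (φ n)) := by
    intro v hv hcv
    have e1 := (hdot fun i => p v i).eventually (lt_mem_nhds (show c / 2 < _ by linarith))
    have e2 := hrt.eventually_gt_atTop ((gfgQ p v : ℝ) / c)
    filter_upwards [e1, e2] with n hn1 hn2
    have e := gfg_q_mul hp (hgM (φ n)) hv
    rw [hform] at e
    rw [div_lt_iff₀ hc] at hn2
    have h4 := mul_lt_mul_of_pos_left hn1 (hrpos (φ n))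
    have : (gfgQ p (g (φ n) * v) : ℝ) < gfgQ p (g (φ n)) := by linarith
    exact_mod_cast this
  have hall : ∀ᶠ n in Filter.atTop, ∀ k ∈ Finset.range l.length, 0 < k →
      gfgQ p (g (φ n) * (s * (l.take k).prod)) < gfgQ p (g (φ n)) := by
    rw [Filter.eventually_all_finset]
    intro k hk'
    by_cases h0 : 0 < k
    · have hv : s * (l.take k).prod ∈ M :=
        M.mul_mem hs (M.list_prod_mem fun x hx => hTM x (hl x (List.mem_of_mem_take hx)))
      have hm := hk k h0 (Finset.mem_range.mp hk')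
      have hmin : 0 ≤ min (∑ i, θ i * p s i) (∑ i, θ i * p s' i) :=
        le_min (hnn s hs h1) (hnn s' hs' h2)
      filter_upwards [hev _ hv (by linarith)] with n hn _ using hn
    · exact Filter.Eventually.of_forall fun n h => absurd h h0
  obtain ⟨n, hn⟩ := hall.exists
  refine hno (φ n) ⟨l, hl, by rw [mul_assoc, he], fun k h0 h1 => ?_⟩
  rw [mul_assoc]
  exact hn k (Finset.mem_range.mpr h1) h0

theorem gfg_finite_lattice (d : ℕ) (R : ℤ) : {u : Fin d → ℤ | ∑ i, u i ^ 2 ≤ R}.Finite := by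
  refine (Set.finite_Icc (fun _ : Fin d => -R) fun _ => R).subset fun u hu => ?_
  have hb : ∀ i, u i ^ 2 ≤ R := fun i =>
    (Finset.single_le_sum (f := fun i => u i ^ 2) (fun j _ => sq_nonneg _)
      (Finset.mem_univ i)).trans hu
  exact ⟨fun i => by have := hb i; show -R ≤ u i; nlinarith,
    fun i => by have := hb i; show u i ≤ R; nlinarith⟩

/-- The BNS criterion. -/
theorem bns {M N : Subgroup H} {T : Set H} (hT : T.Finite) (hTs : ∀ t ∈ T, t⁻¹ ∈ T)
    (hTM : Subgroup.closure T = M) {d : ℕ} {p : H → Fin d → ℤ}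
    (hp : ∀ x ∈ M, ∀ y ∈ M, p (x * y) = p x + p y) (hN : ∀ x, x ∈ N ↔ x ∈ M ∧ p x = 0)
    (hσ : ∀ θ : Fin d → ℝ, (∃ x ∈ M, ∑ i, θ i * p x i ≠ 0) →
      ∃ c : ℝ, 0 < c ∧ ∀ g ∈ M, ∀ g' ∈ M, PathIn T g g' fun v =>
        min (∑ i, θ i * p g i) (∑ i, θ i * p g' i) + c ≤ ∑ i, θ i * p v i) : N.FG := by
  classical
  have hTM' : ∀ t ∈ T, t ∈ M := fun t ht => hTM ▸ Subgroup.subset_closure ht
  have hp1 : p 1 = 0 := by
    have := hp 1 M.one_mem 1 M.one_mem
    simpa using this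
  have hpinv : ∀ x ∈ M, p x⁻¹ = -p x := by
    intro x hx
    have := hp x hx x⁻¹ (M.inv_mem hx)
    rw [mul_inv_cancel, hp1] at this
    exact (neg_eq_of_add_eq_zero_right this.symm).symm
  obtain ⟨R, hR⟩ : ∃ R : ℕ, ∀ s ∈ T, ∀ s' ∈ T, ∀ g ∈ M, (R : ℤ) < gfgQ p g →
      gfgQ p (g * s) ≤ gfgQ p g → gfgQ p (g * s') ≤ gfgQ p g →
        PathIn T (g * s) (g * s') fun v => gfgQ p v < gfgQ p g := by
    have h := fun x : T × T => gfg_local hTM' hp hσ (hTM' _ x.1.2) (hTM' _ x.2.2)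
    choose f hf using h
    have := hT.to_subtype
    obtain ⟨R, hR⟩ := (Set.finite_range f).bddAbove
    refine ⟨R, fun s hs s' hs' g hg hq => hf (⟨s, hs⟩, ⟨s', hs'⟩) g hg (lt_of_le_of_lt ?_ hq)⟩
    exact_mod_cast hR ⟨(⟨s, hs⟩, ⟨s', hs'⟩), rfl⟩
  have hex : ∀ x ∈ M, ∃ n : ℕ, gfgCon T (gfgQ p) (R + n) 1 x := by
    intro x hx
    rw [← hTM] at hx
    have step : ∀ x t, t ∈ T → (∃ n : ℕ, gfgCon T (gfgQ p) (R + n) 1 x) →
        ∃ n : ℕ, gfgCon T (gfgQ p) (R + n) 1 (x * t) := by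
      rintro x t ht ⟨n, hn⟩
      refine ⟨n + (gfgQ p (x * t)).toNat, (gfg_con_mono (by push_cast; omega) hn).tail
        ⟨by push_cast; omega, t, ht, rfl⟩⟩
    induction hx using Subgroup.closure_induction_right with
    | one => exact ⟨0, Relation.ReflTransGen.refl⟩
    | mul_right x _ y hy ih => exact step x y hy ih
    | mul_inv_cancel x _ y hy ih => exact step x y⁻¹ (hTs y hy) ih
  have hq0 : ∀ x, p x = 0 → gfgQ p x = 0 := fun x hx => by simp [gfgQ, hx]
  have hlow : ∀ x ∈ N, gfgCon T (gfgQ p) R 1 x := by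
    intro x hx
    obtain ⟨hxM, hx0⟩ := (hN x).1 hx
    obtain ⟨n, hn⟩ := hex x hxM
    induction n with
    | zero => simpa using hn
    | succ n ih =>
      refine ih (gfg_lower (M := M) hTs hTM' (fun g hg hq s hs s' hs' =>
        hR s hs s' hs' g hg (by omega)) M.one_mem (by rw [hq0 1 hp1]; omega) ?_
        (by rw [hq0 x hx0]; omega))
      rwa [Nat.cast_succ, ← add_assoc] at hn
  obtain ⟨r, hr⟩ : ∃ r : (Fin d → ℤ) → H, ∀ y ∈ M, r (p y) ∈ M ∧ p (r (p y)) = p y := by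
    refine ⟨fun u => if h : ∃ m ∈ M, p m = u then h.choose else 1, fun y hy => ?_⟩
    have h : ∃ m ∈ M, p m = p y := ⟨y, hy, rfl⟩
    simp only [dif_pos h]
    exact h.choose_spec
  set B : Set (Fin d → ℤ) := {u | ∑ i, u i ^ 2 ≤ (R : ℤ)} with hB
  have hBf : B.Finite := gfg_finite_lattice d R
  set F : Set H := insert (r (p 1))
    (((fun x : (Fin d → ℤ) × H × (Fin d → ℤ) => r x.1 * x.2.1 * (r x.2.2)⁻¹) ''
      (B ×ˢ T ×ˢ B)) ∩ N) with hF
  have hFf : F.Finite := (((hBf.prod (hT.prod hBf)).image _).inter_of_left _).insert _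
  have hr1 : r (p 1) ∈ N := (hN _).2 ⟨(hr 1 M.one_mem).1, by rw [(hr 1 M.one_mem).2, hp1]⟩
  have hr1' : r (p 1) ∈ Subgroup.closure F := Subgroup.subset_closure (Set.mem_insert _ _)
  have hgen : ∀ y, gfgCon T (gfgQ p) R 1 y →
      y ∈ M ∧ p y ∈ B ∧ y * (r (p y))⁻¹ ∈ Subgroup.closure F := by
    intro y hy
    induction hy with
    | refl => exact ⟨M.one_mem, by simp [hB, hp1], by simpa using hr1'⟩
    | @tail a b _ hab ih =>
      obtain ⟨hqb, t, ht, rfl⟩ := hab
      obtain ⟨haM, haB, hac⟩ := ih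
      have hbM : a * t ∈ M := M.mul_mem haM (hTM' t ht)
      refine ⟨hbM, hqb, ?_⟩
      have e : a * t * (r (p (a * t)))⁻¹
          = a * (r (p a))⁻¹ * (r (p a) * t * (r (p (a * t)))⁻¹) := by group
      rw [e]
      refine Subgroup.mul_mem _ hac (Subgroup.subset_closure (Set.mem_insert_of_mem _
        ⟨⟨(p a, t, p (a * t)), ⟨haB, ht, hqb⟩, rfl⟩, (hN _).2 ⟨?_, ?_⟩⟩))
      · exact M.mul_mem (M.mul_mem (hr a haM).1 (hTM' t ht)) (M.inv_mem (hr _ hbM).1)
      · rw [hp _ (M.mul_mem (hr a haM).1 (hTM' t ht)) _ (M.inv_mem (hr _ hbM).1),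
          hp _ (hr a haM).1 _ (hTM' t ht), hpinv _ (hr _ hbM).1, (hr a haM).2, (hr _ hbM).2,
          hp a haM t (hTM' t ht), add_neg_cancel]
  refine (Subgroup.fg_iff N).2 ⟨F, le_antisymm ?_ fun x hx => ?_, hFf⟩
  · rw [Subgroup.closure_le]
    rintro x (rfl | hx)
    · exact hr1
    · exact hx.2
  · have h := (hgen x (hlow x hx)).2.2
    rw [((hN x).1 hx).2, ← hp1] at h
    simpa using Subgroup.mul_mem _ h hr1'

theorem gfg_fg_map {G G' : Type} [Group G] [Group G'] {K : Subgroup G} (h : K.FG) (f : G →* G') :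
    (K.map f).FG := by
  obtain ⟨S, rfl, hS⟩ := (Subgroup.fg_iff K).1 h
  exact (Subgroup.fg_iff _).2 ⟨f '' S, (MonoidHom.map_closure f S).symm, hS.image f⟩

theorem gfg_fg_of_map {G G' : Type} [Group G] [Group G'] {K : Subgroup G} {f : G →* G'}
    (hf : Function.Injective f) (h : (K.map f).FG) : K.FG := by
  rw [← Group.fg_iff_subgroup_fg] at h ⊢
  exact Group.fg_of_surjective (f := (K.equivMapOfInjective f hf).symm.toMonoidHom)
    (K.equivMapOfInjective f hf).symm.surjective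

/-- All terms of the lower central series are finitely generated. -/
theorem lcs_fg (hH : NF H) (c : ℕ) : ((⊤ : Subgroup H).lowerCentralSeries c).FG := by
  classical
  induction c with
  | zero => exact Group.fg_def.1 hH.fg
  | succ c ih =>
    set Γ := (⊤ : Subgroup H).lowerCentralSeries c with hΓ
    have hle : (⊤ : Subgroup H).lowerCentralSeries (c + 1) ≤ Γ :=
      Subgroup.lowerCentralSeries_antitone _ (Nat.le_succ c)
    have hcomm : ∀ x ∈ Γ, ∀ h : H,
        x * h * x⁻¹ * h⁻¹ ∈ (⊤ : Subgroup H).lowerCentralSeries (c + 1) := fun x hx h =>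
      Subgroup.commutator_mem_commutator hx (Subgroup.mem_top h)
    have : Group.FG Γ := (Group.fg_iff_subgroup_fg Γ).2 ih
    obtain ⟨d, p, -, hker, hfin⟩ := exists_lattice_quotient Γ
      (((⊤ : Subgroup H).lowerCentralSeries (c + 1)).subgroupOf Γ) (by
        rw [Subgroup.commutator_le]
        intro x _ y _
        exact hcomm x x.2 y)
    set p' : H → Fin d → ℤ := fun x => if h : x ∈ Γ then (p ⟨x, h⟩).toAdd else 0 with hp'
    have hp'e : ∀ x (h : x ∈ Γ), p' x = (p ⟨x, h⟩).toAdd := fun x h => dif_pos h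
    have hadd : ∀ x ∈ Γ, ∀ y ∈ Γ, p' (x * y) = p' x + p' y := by
      intro x hx y hy
      rw [hp'e _ (Γ.mul_mem hx hy), hp'e _ hx, hp'e _ hy, ← toAdd_mul, ← map_mul]
      rfl
    have hconj : ∀ h, ∀ x ∈ Γ, p' (h * x * h⁻¹) = p' x := by
      intro h x hx
      have h1 := hcomm x⁻¹ (Γ.inv_mem hx) h
      have h2 : p' (x⁻¹ * h * x⁻¹⁻¹ * h⁻¹) = 0 := by
        rw [hp'e _ (hle h1)]
        have : p ⟨_, hle h1⟩ = 1 := hker h1
        rw [this]; rfl
      have h3 := hadd x hx _ (hle h1)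
      rw [h2, add_zero] at h3
      rw [← h3]
      congr 1
      group
    obtain ⟨S, hS, hSf⟩ := (Subgroup.fg_iff Γ).1 ih
    have hTf : (S ∪ S⁻¹).Finite := hSf.union hSf.inv
    have hTs : ∀ t ∈ S ∪ S⁻¹, t⁻¹ ∈ S ∪ S⁻¹ := by
      rintro t (ht | ht)
      · exact Or.inr (by simpa using ht)
      · exact Or.inl ht
    have hTM : Subgroup.closure (S ∪ S⁻¹) = Γ := by
      rw [Subgroup.closure_union, Subgroup.closure_inv, sup_idem, hS]
    have hNfg : (p.ker.map Γ.subtype).FG := by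
      refine bns hTf hTs hTM hadd (fun x => ?_) fun θ hθ => ?_
      · constructor
        · rintro ⟨y, hy, rfl⟩
          refine ⟨y.2, ?_⟩
          rw [Subgroup.coe_subtype, hp'e _ y.2]
          have : p y = 1 := hy
          rw [this]; rfl
        · rintro ⟨hx, h0⟩
          refine ⟨⟨x, hx⟩, ?_, rfl⟩
          rw [hp'e _ hx] at h0
          exact h0
      · have ha : ∀ x ∈ Γ, ∀ y ∈ Γ, ∑ i, θ i * (p' (x * y) i : ℝ)
            = ∑ i, θ i * (p' x i : ℝ) + ∑ i, θ i * (p' y i : ℝ) := by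
          intro x hx y hy
          rw [hadd x hx y hy, ← Finset.sum_add_distrib]
          exact Finset.sum_congr rfl fun i _ => by simp [mul_add]
        have hc : ∀ h, ∀ x ∈ Γ, ∑ i, θ i * (p' (h * x * h⁻¹) i : ℝ)
            = ∑ i, θ i * (p' x i : ℝ) := fun h x hx => by rw [hconj h x hx]
        exact sigma hH hTf hTs hTM (χ := fun v => ∑ i, θ i * (p' v i : ℝ)) ha hc
          (L₀ := 3 * 2 ^ c) fun S' hS' =>
            exists_short_ne (χ := fun v => ∑ i, θ i * (p' v i : ℝ)) ha hc hθ hS'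
    have : Group.FG p.ker :=
      (Group.fg_iff_subgroup_fg _).2 (gfg_fg_of_map Γ.subtype_injective hNfg)
    have h4 := (Group.fg_iff_subgroup_fg _).1 (Subgroup.fg_of_index_ne_zero
      ((((⊤ : Subgroup H).lowerCentralSeries (c + 1)).subgroupOf Γ).subgroupOf p.ker))
    have h5 := gfg_fg_map (gfg_fg_map h4 p.ker.subtype) Γ.subtype
    rwa [Subgroup.map_subgroupOf_eq_of_le hker, Subgroup.map_subgroupOf_eq_of_le hle] at h5

end Pool.Agent.Lib.MP_9ac97d_al
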