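import Pool.Agent.Lib.MP_9ac97d_al.GBasic

/-!
# Invariant characters lie in the BNS invariant (task GSigma)
-/

set_option autoImplicit false

noncomputable section

open Pointwise

namespace Pool.Agent.Lib.MP_9ac97d_al

variable {H : Type} [Group H]

/-- There is a path from `g` to `g'` with letters in `T` whose interior vertices satisfy `Q`. -/
def PathIn (T : Set H) (g g' : H) (Q : H → Prop) : Prop :=
  ∃ l : List H, (∀ x ∈ l, x ∈ T) ∧ g * l.prod = g' ∧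
    ∀ k, 0 < k → k < l.length → Q (g * (l.take k).prod)

/-- One step along a letter of `T` between points of `M` of level at least `r`. -/
def SgStep (M : Subgroup H) (T : Set H) (χ : H → ℝ) (r : ℝ) (u v : H) : Prop :=
  u ∈ M ∧ v ∈ M ∧ r ≤ χ u ∧ r ≤ χ v ∧ u⁻¹ * v ∈ T

/-- A path in `M` all of whose vertices have level at least `r`. -/
def SgJ (M : Subgroup H) (T : Set H) (χ : H → ℝ) (r : ℝ) (g g' : H) : Prop :=
  g ∈ M ∧ r ≤ χ g ∧ Relation.ReflTransGen (SgStep M T χ r) g g'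

section SgBasic

variable {M : Subgroup H} {T : Set H} {χ : H → ℝ} {r r' : ℝ} {g g' g'' : H}

theorem SgJ.right (h : SgJ M T χ r g g') : g' ∈ M ∧ r ≤ χ g' := by
  obtain ⟨h1, h2, h3⟩ := h
  induction h3 with
  | refl => exact ⟨h1, h2⟩
  | tail _ hs _ => exact ⟨hs.2.1, hs.2.2.2.1⟩

theorem SgJ.refl (hg : g ∈ M) (hr : r ≤ χ g) : SgJ M T χ r g g :=
  ⟨hg, hr, Relation.ReflTransGen.refl⟩

theorem SgJ.single (h : SgStep M T χ r g g') : SgJ M T χ r g g' :=
  ⟨h.1, h.2.2.1, Relation.ReflTransGen.single h⟩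

theorem SgJ.trans (h : SgJ M T χ r g g') (h' : SgJ M T χ r g' g'') : SgJ M T χ r g g'' :=
  ⟨h.1, h.2.1, h.2.2.trans h'.2.2⟩

theorem SgJ.symm (hTs : ∀ t ∈ T, t⁻¹ ∈ T) (h : SgJ M T χ r g g') : SgJ M T χ r g' g := by
  refine ⟨h.right.1, h.right.2, ?_⟩
  have hsymm : ∀ u v, SgStep M T χ r u v → SgStep M T χ r v u := fun u v hs =>
    ⟨hs.2.1, hs.1, hs.2.2.2.1, hs.2.2.1, by simpa using hTs _ hs.2.2.2.2⟩
  obtain ⟨-, -, h3⟩ := h
  induction h3 with
  | refl => exact Relation.ReflTransGen.refl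
  | tail _ hs ih => exact Relation.ReflTransGen.head (hsymm _ _ hs) ih

theorem SgJ.mono (h : SgJ M T χ r g g') (hr : r' ≤ r) : SgJ M T χ r' g g' := by
  obtain ⟨h1, h2, h3⟩ := h
  refine ⟨h1, hr.trans h2, ?_⟩
  induction h3 with
  | refl => exact Relation.ReflTransGen.refl
  | tail _ hs ih =>
    exact ih.tail ⟨hs.1, hs.2.1, hr.trans hs.2.2.1, hr.trans hs.2.2.2.1, hs.2.2.2.2⟩

theorem SgJ.mul_left (hadd : ∀ x ∈ M, ∀ y ∈ M, χ (x * y) = χ x + χ y) {m : H} (hm : m ∈ M)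
    (h : SgJ M T χ r g g') : SgJ M T χ (r + χ m) (m * g) (m * g') := by
  obtain ⟨h1, h2, h3⟩ := h
  refine ⟨M.mul_mem hm h1, by rw [hadd _ hm _ h1]; linarith, ?_⟩
  induction h3 with
  | refl => exact Relation.ReflTransGen.refl
  | tail _ hs ih =>
    refine ih.tail ⟨M.mul_mem hm hs.1, M.mul_mem hm hs.2.1, ?_, ?_, ?_⟩
    · rw [hadd _ hm _ hs.1]; linarith [hs.2.2.1]
    · rw [hadd _ hm _ hs.2.1]; linarith [hs.2.2.2.1]
    · simpa [mul_assoc] using hs.2.2.2.2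

theorem SgJ.list (h : SgJ M T χ r g g') :
    ∃ l : List H, (∀ x ∈ l, x ∈ T) ∧ g * l.prod = g' ∧ ∀ k, r ≤ χ (g * (l.take k).prod) := by
  obtain ⟨-, h2, h3⟩ := h
  induction h3 using Relation.ReflTransGen.head_induction_on with
  | refl => exact ⟨[], by simp, by simp, by simpa using h2⟩
  | @head u v hs _ ih =>
    obtain ⟨l, hl1, hl2, hl3⟩ := ih hs.2.2.2.1
    refine ⟨(u⁻¹ * v) :: l, ?_, by simpa [← mul_assoc] using hl2, fun k => ?_⟩
    · intro x hx
      rcases List.mem_cons.1 hx with rfl | hx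
      · exact hs.2.2.2.2
      · exact hl1 x hx
    · cases k with
      | zero => simpa using h2
      | succ k => simpa [← mul_assoc] using hl3 k

theorem sg_one (hadd : ∀ x ∈ M, ∀ y ∈ M, χ (x * y) = χ x + χ y) : χ 1 = 0 := by
  have := hadd 1 M.one_mem 1 M.one_mem
  rw [mul_one] at this
  linarith

theorem sg_inv (hadd : ∀ x ∈ M, ∀ y ∈ M, χ (x * y) = χ x + χ y) (hg : g ∈ M) :
    χ g⁻¹ = -χ g := by
  have := hadd g hg g⁻¹ (M.inv_mem hg)
  rw [mul_inv_cancel, sg_one hadd] at this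
  linarith

theorem sg_pow (hadd : ∀ x ∈ M, ∀ y ∈ M, χ (x * y) = χ x + χ y) (hg : g ∈ M) (n : ℕ) :
    χ (g ^ n) = n * χ g := by
  induction n with
  | zero => simp [sg_one hadd]
  | succ n ih => rw [pow_succ, hadd _ (M.pow_mem hg n) _ hg, ih]; push_cast; ring

theorem sg_conn (hTs : ∀ t ∈ T, t⁻¹ ∈ T) (hTM : Subgroup.closure T = M)
    (hadd : ∀ x ∈ M, ∀ y ∈ M, χ (x * y) = χ x + χ y) (hg : g ∈ M) :
    ∃ r, SgJ M T χ r 1 g := by
  have hg' : g ∈ Subgroup.closure T := hTM ▸ hg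
  clear hg
  induction hg' using Subgroup.closure_induction with
  | mem t ht =>
    exact ⟨min (χ 1) (χ t), SgJ.single ⟨M.one_mem, hTM ▸ Subgroup.subset_closure ht,
      min_le_left _ _, min_le_right _ _, by simpa using ht⟩⟩
  | one => exact ⟨χ 1, SgJ.refl M.one_mem le_rfl⟩
  | mul x y _ _ ihx ihy =>
    obtain ⟨r1, h1⟩ := ihx
    obtain ⟨r2, h2⟩ := ihy
    have h3 := h2.mul_left hadd h1.right.1
    rw [mul_one] at h3
    exact ⟨min r1 (r2 + χ x), (h1.mono (min_le_left _ _)).trans (h3.mono (min_le_right _ _))⟩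
  | inv x _ ih =>
    obtain ⟨r1, h1⟩ := ih
    have h3 := h1.mul_left hadd (M.inv_mem h1.right.1)
    rw [mul_one, inv_mul_cancel] at h3
    exact ⟨_, h3.symm hTs⟩

theorem sg_conj [hN : M.Normal] (hT : T.Finite) (hTs : ∀ t ∈ T, t⁻¹ ∈ T)
    (hTM : Subgroup.closure T = M) (hadd : ∀ x ∈ M, ∀ y ∈ M, χ (x * y) = χ x + χ y)
    (hconj : ∀ h, ∀ x ∈ M, χ (h * x * h⁻¹) = χ x) (h : H) :
    ∃ C : ℝ, ∀ r g g', SgJ M T χ (r + C) g g' → SgJ M T χ r (h * g * h⁻¹) (h * g' * h⁻¹) := by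
  have h1 : ∀ t : T, ∃ r, SgJ M T χ r 1 (h * t * h⁻¹) := fun t =>
    sg_conn hTs hTM hadd (hN.conj_mem _ (hTM ▸ Subgroup.subset_closure t.2) h)
  choose f hf using h1
  have : Finite T := hT
  obtain ⟨D, hD⟩ := (Set.finite_range f).bddBelow
  refine ⟨|D|, fun r g g' hJ => ?_⟩
  obtain ⟨h1, h2, h3⟩ := hJ
  have hD0 := abs_nonneg D
  have hD1 := neg_abs_le D
  induction h3 with
  | refl => exact SgJ.refl (hN.conj_mem _ h1 h) (by rw [hconj _ _ h1]; linarith)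
  | @tail u v _ hs ih =>
    refine ih.trans ?_
    have h4 := (hf ⟨_, hs.2.2.2.2⟩).mul_left hadd (hN.conj_mem _ hs.1 h)
    have h5 : D ≤ f ⟨_, hs.2.2.2.2⟩ := hD ⟨_, rfl⟩
    have h6 : h * u * h⁻¹ * (h * (u⁻¹ * v) * h⁻¹) = h * v * h⁻¹ := by group
    rw [mul_one, hconj _ _ hs.1] at h4
    simp only at h4
    rw [h6] at h4
    exact h4.mono (by linarith [hs.2.2.1])

theorem sg_ray (hTs : ∀ t ∈ T, t⁻¹ ∈ T) (hTM : Subgroup.closure T = M)
    (hadd : ∀ x ∈ M, ∀ y ∈ M, χ (x * y) = χ x + χ y) {a : H} (ha : a ∈ M) (ha0 : 0 ≤ χ a) :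
    ∃ r, ∀ n : ℕ, SgJ M T χ r 1 (a ^ n) := by
  obtain ⟨r, hr⟩ := sg_conn hTs hTM hadd ha
  refine ⟨r, fun n => ?_⟩
  induction n with
  | zero => rw [pow_zero]; exact SgJ.refl M.one_mem hr.2.1
  | succ n ih =>
    have h1 := hr.mul_left hadd (M.pow_mem ha n)
    rw [mul_one, ← pow_succ, sg_pow hadd ha] at h1
    exact ih.trans (h1.mono (by nlinarith [Nat.cast_nonneg (α := ℝ) n]))

theorem sg_large {c : ℝ} (hc : 0 < c) (x : ℝ) : ∀ᶠ n : ℕ in Filter.atTop, x ≤ n * c :=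
  (tendsto_natCast_atTop_atTop.atTop_mul_const hc).eventually_ge_atTop x

theorem sg_shift {p : ℕ → Prop} (h : ∀ᶠ n in Filter.atTop, p (n + 1)) :
    ∀ᶠ n in Filter.atTop, p n := by
  obtain ⟨N, hN⟩ := Filter.eventually_atTop.1 h
  refine Filter.eventually_atTop.2 ⟨N + 1, fun n hn => ?_⟩
  obtain ⟨k, rfl⟩ : ∃ k, n = k + 1 := ⟨n - 1, by omega⟩
  exact hN k (by omega)

/-- If the rays of `a` and `b` do not have the same end, then `a` and `b` play ping-pong. -/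
theorem sg_free (hTs : ∀ t ∈ T, t⁻¹ ∈ T) (hTM : Subgroup.closure T = M)
    (hadd : ∀ x ∈ M, ∀ y ∈ M, χ (x * y) = χ x + χ y) {a b : H} (ha : a ∈ M) (hb : b ∈ M)
    (ha0 : 0 < χ a) (hab : χ b = χ a)
    (hr : ¬ ∀ᶠ n : ℕ in Filter.atTop, SgJ M T χ r (a ^ n) (b ^ n)) : FreePair a b := by
  obtain ⟨ra, hra⟩ := sg_ray hTs hTM hadd ha ha0.le
  obtain ⟨rb, hrb⟩ := sg_ray hTs hTM hadd hb (hab ▸ ha0.le)
  have h0 : ∀ᶠ n : ℕ in Filter.atTop, SgJ M T χ (min ra rb) (a ^ n) (b ^ n) :=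
    Filter.Eventually.of_forall fun n =>
      (((hra n).mono (min_le_left _ _)).symm hTs).trans ((hrb n).mono (min_le_right _ _))
  obtain ⟨κ, hκ1, hκ2⟩ : ∃ κ, (∀ᶠ n : ℕ in Filter.atTop, SgJ M T χ κ (a ^ n) (b ^ n)) ∧
      ¬ ∀ᶠ n : ℕ in Filter.atTop, SgJ M T χ (κ + χ a) (a ^ n) (b ^ n) := by
    by_contra hcon
    have hstep : ∀ κ, (∀ᶠ n : ℕ in Filter.atTop, SgJ M T χ κ (a ^ n) (b ^ n)) →
        ∀ᶠ n : ℕ in Filter.atTop, SgJ M T χ (κ + χ a) (a ^ n) (b ^ n) := fun κ hκ => by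
      by_contra h2
      exact hcon ⟨κ, hκ, h2⟩
    have hall : ∀ k : ℕ, ∀ᶠ n : ℕ in Filter.atTop,
        SgJ M T χ (min ra rb + k * χ a) (a ^ n) (b ^ n) := fun k => by
      induction k with
      | zero => simpa using h0
      | succ k ih =>
        have := hstep _ ih
        rwa [show min ra rb + k * χ a + χ a = min ra rb + ((k + 1 : ℕ) : ℝ) * χ a by
          push_cast; ring] at this
    obtain ⟨k, hk⟩ := (sg_large ha0 (r - min ra rb)).exists
    exact hr ((hall k).mono fun n hn => hn.mono (by linarith))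
  have key := pingpong (H := H) (H' := H) (X := H) (MonoidHom.id H)
    (fun e he p => by
      have he' : e = 1 := he
      rw [he', one_smul])
    (x := a) (y := b)
    (B := {g | ∀ᶠ n : ℕ in Filter.atTop, SgJ M T χ κ g (a ^ n)})
    (P := {g | ∀ᶠ n : ℕ in Filter.atTop, SgJ M T χ (κ + χ a) g (a ^ n)})
    (Q := {g | ∀ᶠ n : ℕ in Filter.atTop, SgJ M T χ (κ + χ a) g (b ^ n)}) ?_ ?_ ?_ ?_ ?_ ?_
  · exact key
  · obtain ⟨N, hN⟩ := (sg_large ha0 (κ - ra)).exists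
    refine ⟨a ^ N, Filter.eventually_atTop.2 ⟨N, fun n hn => ?_⟩⟩
    obtain ⟨k, rfl⟩ := Nat.exists_eq_add_of_le hn
    have h1 := (hra k).mul_left hadd (M.pow_mem ha N)
    rw [mul_one, ← pow_add, sg_pow hadd ha] at h1
    exact h1.mono (by linarith)
  · intro g hg
    exact Filter.Eventually.mono hg fun n hn => hn.mono (by linarith)
  · intro g hg
    exact (Filter.Eventually.and hg hκ1).mono fun n hn =>
      (hn.1.mono (by linarith)).trans (hn.2.symm hTs)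
  · refine Set.disjoint_left.2 fun g hg1 hg2 => hκ2 ?_
    exact (Filter.Eventually.and hg1 hg2).mono fun n hn => (hn.1.symm hTs).trans hn.2
  · intro g hg
    refine sg_shift (p := fun n => SgJ M T χ (κ + χ a) (a • g) (a ^ n)) ?_
    refine Filter.Eventually.mono hg fun n hn => ?_
    have h1 := hn.mul_left hadd ha
    rw [← pow_succ'] at h1
    exact h1
  · intro g hg
    refine sg_shift (p := fun n => SgJ M T χ (κ + χ a) (b • g) (b ^ n)) ?_
    refine (Filter.Eventually.and hg hκ1).mono fun n hn => ?_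
    have h1 := (hn.1.trans hn.2).mul_left hadd hb
    rw [← pow_succ', hab] at h1
    exact h1

/-- If all conjugates by generators have the same end, so have all conjugates. -/
theorem sg_all [M.Normal] (hT : T.Finite) (hTs : ∀ t ∈ T, t⁻¹ ∈ T)
    (hTM : Subgroup.closure T = M) (hadd : ∀ x ∈ M, ∀ y ∈ M, χ (x * y) = χ x + χ y)
    (hconj : ∀ h, ∀ x ∈ M, χ (h * x * h⁻¹) = χ x) {a : H} (ha : a ∈ M) (ha0 : 0 < χ a)
    {S : Set H} (hS : Subgroup.closure S = ⊤)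
    (hgen : ∀ s ∈ S, ∀ r, ∀ᶠ n : ℕ in Filter.atTop, SgJ M T χ r (a ^ n) (s * a ^ n * s⁻¹))
    (h : H) : ∀ r, ∀ᶠ n : ℕ in Filter.atTop, SgJ M T χ r (a ^ n) (h * a ^ n * h⁻¹) := by
  have hh : h ∈ Subgroup.closure S := hS ▸ Subgroup.mem_top h
  induction hh using Subgroup.closure_induction with
  | mem s hs => exact hgen s hs
  | one =>
    intro r
    refine (sg_large ha0 r).mono fun n hn => ?_
    simpa using SgJ.refl (T := T) (M.pow_mem ha n) (by rwa [sg_pow hadd ha])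
  | mul x y _ _ ihx ihy =>
    intro r
    obtain ⟨C, hC⟩ := sg_conj hT hTs hTM hadd hconj x
    refine ((ihx r).and (ihy (r + C))).mono fun n hn => hn.1.trans ?_
    have h1 := hC _ _ _ hn.2
    rwa [show x * (y * a ^ n * y⁻¹) * x⁻¹ = x * y * a ^ n * (x * y)⁻¹ by group] at h1
  | inv x _ ih =>
    intro r
    obtain ⟨C, hC⟩ := sg_conj hT hTs hTM hadd hconj x⁻¹
    refine (ih (r + C)).mono fun n hn => ?_
    have h1 := hC _ _ _ hn
    rw [show x⁻¹ * (x * a ^ n * x⁻¹) * x⁻¹⁻¹ = a ^ n by group] at h1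
    exact h1.symm hTs

/-- A common end gives paths that do not go far below their ends. -/
theorem sg_low (hTs : ∀ t ∈ T, t⁻¹ ∈ T)
    (hTM : Subgroup.closure T = M) (hadd : ∀ x ∈ M, ∀ y ∈ M, χ (x * y) = χ x + χ y)
    {a : H} (ha : a ∈ M) (ha0 : 0 < χ a)
    (hall : ∀ h : H, ∀ r, ∀ᶠ n : ℕ in Filter.atTop, SgJ M T χ r (a ^ n) (h * a ^ n * h⁻¹)) :
    ∃ r₀ : ℝ, ∀ g ∈ M, ∀ g' ∈ M, SgJ M T χ (min (χ g) (χ g') + r₀) g g' := by
  obtain ⟨r₀, hr₀⟩ := sg_ray hTs hTM hadd ha ha0.le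
  have h1 : ∀ g ∈ M, ∀ᶠ n : ℕ in Filter.atTop, SgJ M T χ (χ g + r₀) g (a ^ n) := by
    intro g hg
    obtain ⟨r₁, hr₁⟩ := sg_conn hTs hTM hadd (M.inv_mem hg)
    refine ((hall g (χ g + r₀)).and (sg_large ha0 (r₀ - r₁))).mono fun n hn => ?_
    have h2 := (hr₀ n).mul_left hadd hg
    have h3 := hr₁.mul_left hadd (M.mul_mem hg (M.pow_mem ha n))
    rw [mul_one] at h2 h3
    rw [hadd _ hg _ (M.pow_mem ha n), sg_pow hadd ha] at h3
    exact ((h2.mono (by linarith)).trans (h3.mono (by linarith [hn.2]))).trans (hn.1.symm hTs)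
  refine ⟨r₀, fun g hg g' hg' => ?_⟩
  obtain ⟨n, hn1, hn2⟩ := ((h1 g hg).and (h1 g' hg')).exists
  exact (hn1.mono (by linarith [min_le_left (χ g) (χ g')])).trans
    ((hn2.mono (by linarith [min_le_right (χ g) (χ g')])).symm hTs)

theorem sg_letter (hTs : ∀ t ∈ T, t⁻¹ ∈ T)
    (hTM : Subgroup.closure T = M) (hadd : ∀ x ∈ M, ∀ y ∈ M, χ (x * y) = χ x + χ y)
    {a : H} (ha : a ∈ M) (ha0 : χ a ≠ 0) : ∃ t ∈ T, 0 < χ t := by
  by_contra hcon
  have hTsub : ∀ t ∈ T, t ∈ M := fun t ht => hTM ▸ Subgroup.subset_closure ht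
  have h0 : ∀ t ∈ T, χ t = 0 := fun t ht => by
    have h1 : χ t ≤ 0 := not_lt.1 fun h => hcon ⟨t, ht, h⟩
    have h2 : χ t⁻¹ ≤ 0 := not_lt.1 fun h => hcon ⟨t⁻¹, hTs t ht, h⟩
    rw [sg_inv hadd (hTsub t ht)] at h2
    linarith
  apply ha0
  have ha' : a ∈ Subgroup.closure T := hTM ▸ ha
  clear ha ha0
  induction ha' using Subgroup.closure_induction with
  | mem t ht => exact h0 t ht
  | one => exact sg_one hadd
  | mul x y hx hy ihx ihy => rw [hadd _ (hTM ▸ hx) _ (hTM ▸ hy), ihx, ihy, add_zero]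
  | inv x hx ih => rw [sg_inv hadd (hTM ▸ hx), ih, neg_zero]

theorem sg_up (hTM : Subgroup.closure T = M) (hadd : ∀ x ∈ M, ∀ y ∈ M, χ (x * y) = χ x + χ y)
    {t : H} (ht : t ∈ T) (ht0 : 0 < χ t) (n : ℕ) : SgJ M T χ (χ t) t (t ^ (n + 1)) := by
  have htM : t ∈ M := hTM ▸ Subgroup.subset_closure ht
  induction n with
  | zero => rw [zero_add, pow_one]; exact SgJ.refl htM le_rfl
  | succ n ih =>
    refine ih.trans (SgJ.single ⟨M.pow_mem htM _, M.pow_mem htM _, ?_, ?_, ?_⟩)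
    · rw [sg_pow hadd htM]; push_cast; nlinarith [Nat.cast_nonneg (α := ℝ) n]
    · rw [sg_pow hadd htM]; push_cast; nlinarith [Nat.cast_nonneg (α := ℝ) n]
    · rwa [pow_succ t (n + 1), inv_mul_cancel_left]

end SgBasic

/-- Proof. For `g, g' ∈ M` and real `r` write `J r g g'` if some `T`-path from `g` to `g'` has all
vertices (ends included) at level `χ ≥ r`; for fixed `r` it is symmetric and transitive, and
`J r g g'` gives `J (r + χ m) (m g) (m g')` for `m ∈ M`. Conjugation by `h ∈ H` changes levels by a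
bounded amount: `J r g g'` gives `J (r - C h) (h g h⁻¹) (h g' h⁻¹)`. Take `S` with `NoFree S L`, `L`
large, and a short `a ∈ M` with `χ a > 0` (invert if needed). Say that `b ∈ M` (a conjugate of `a`)
has the same end as `a` if for every `r`, `J r (a ^ n) (b ^ n)` for all large `n`.
If for some `s` with `s ∈ S ∨ s⁻¹ ∈ S` the conjugate `b = s a s⁻¹` does not have the same end, take
`κ` with `J κ (a ^ n) (b ^ n)` eventually but not `J (κ + χ a) (a ^ n) (b ^ n)` eventually, and play ping-pong on `M` (left multiplication) with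
`B = {g | eventually J κ g (a ^ n)}`, `P = {g | eventually J (κ + χ a) g (a ^ n)}`,
`Q = {g | eventually J (κ + χ a) g (b ^ n)}`. Otherwise all conjugates `h a h⁻¹` have the same end as `a` (induction on the length of `h`,
using the bounded change of levels), in particular for `h = m ∈ M`, which gives
`J r (m a ^ n) (a ^ n)` eventually; with `J r₀ 1 (a ^ n)` for all `n` this yields
`J (min (χ g) (χ g') + r₀) g g'` for all `g, g' ∈ M`. Finally choose `t ∈ T` with `c = χ t > 0` and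
go up from `g` and `g'` along powers of `t` first. -/
theorem sigma (hH : NF H) {M : Subgroup H} [M.Normal] {T : Set H} (hT : T.Finite)
    (hTs : ∀ t ∈ T, t⁻¹ ∈ T) (hTM : Subgroup.closure T = M) {χ : H → ℝ}
    (hadd : ∀ x ∈ M, ∀ y ∈ M, χ (x * y) = χ x + χ y)
    (hconj : ∀ h, ∀ x ∈ M, χ (h * x * h⁻¹) = χ x) {L₀ : ℕ}
    (hshort : ∀ S : Set H, Subgroup.closure S = ⊤ → ∃ a ∈ M, a ∈ ball S L₀ ∧ χ a ≠ 0) :
    ∃ c : ℝ, 0 < c ∧ ∀ g ∈ M, ∀ g' ∈ M, PathIn T g g' fun v => min (χ g) (χ g') + c ≤ χ v := by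
  obtain ⟨S, -, hS, hNF, -⟩ := hH (1 + L₀ + 1)
  obtain ⟨a, ha, haS, ha0⟩ : ∃ a ∈ M, a ∈ ball S L₀ ∧ 0 < χ a := by
    obtain ⟨a, ha, haS, ha0⟩ := hshort S hS
    rcases lt_or_gt_of_ne ha0 with h | h
    · exact ⟨a⁻¹, M.inv_mem ha, inv_mem_ball haS, by rw [sg_inv hadd ha]; linarith⟩
    · exact ⟨a, ha, haS, h⟩
  have hgen : ∀ s ∈ S, ∀ r,
      ∀ᶠ n : ℕ in Filter.atTop, SgJ M T χ r (a ^ n) (s * a ^ n * s⁻¹) := by
    intro s hs r
    by_contra hr
    have hb : s * a * s⁻¹ ∈ M := Subgroup.Normal.conj_mem inferInstance _ ha s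
    have hs1 : s ∈ ball S 1 := mem_ball_one (Or.inl hs)
    refine hNF a (ball_mono (by omega) haS) (s * a * s⁻¹)
      (mul_mem_ball (mul_mem_ball hs1 haS) (inv_mem_ball hs1))
      (sg_free (r := r) hTs hTM hadd ha hb ha0 (hconj s a ha) ?_)
    simpa only [conj_pow] using hr
  obtain ⟨r₀, hr₀⟩ := sg_low hTs hTM hadd ha ha0 (sg_all hT hTs hTM hadd hconj ha ha0 hS hgen)
  obtain ⟨t, ht, ht0⟩ := sg_letter hTs hTM hadd ha ha0.ne'
  have htM : t ∈ M := hTM ▸ Subgroup.subset_closure ht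
  obtain ⟨n, hn⟩ := (sg_large ht0 (-r₀)).exists
  refine ⟨χ t, ht0, fun g hg g' hg' => ?_⟩
  have h1 := (sg_up hTM hadd ht ht0 n).mul_left hadd hg
  have h2 := (sg_up hTM hadd ht ht0 n).mul_left hadd hg'
  have h3 := hr₀ _ (M.mul_mem hg (M.pow_mem htM (n + 1))) _ (M.mul_mem hg' (M.pow_mem htM (n + 1)))
  rw [hadd _ hg _ (M.pow_mem htM _), hadd _ hg' _ (M.pow_mem htM _), min_add_add_right,
    sg_pow hadd htM] at h3
  have h4 : SgJ M T χ (min (χ g) (χ g') + χ t) (g * t) (g' * t) :=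
    ((h1.mono (by linarith [min_le_left (χ g) (χ g')])).trans
      (h3.mono (by push_cast; linarith))).trans
      ((h2.mono (by linarith [min_le_right (χ g) (χ g')])).symm hTs)
  obtain ⟨l, hl1, hl2, hl3⟩ := h4.list
  refine ⟨t :: (l ++ [t⁻¹]), ?_, ?_, fun k hk0 hk => ?_⟩
  · intro x hx
    rcases List.mem_cons.1 hx with rfl | hx
    · exact ht
    · rcases List.mem_append.1 hx with hx | hx
      · exact hl1 x hx
      · rw [List.mem_singleton.1 hx]; exact hTs t ht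
  · rw [List.prod_cons, List.prod_append, List.prod_singleton, ← mul_assoc, ← mul_assoc, hl2,
      mul_inv_cancel_right]
  · obtain ⟨j, rfl⟩ : ∃ j, k = j + 1 := ⟨k - 1, by omega⟩
    have hj : j ≤ l.length := by
      simp only [List.length_cons, List.length_append, List.length_nil] at hk
      omega
    rw [List.take_succ_cons, List.prod_cons, ← mul_assoc, List.take_append_of_le_length hj]
    exact hl3 j

end Pool.Agent.Lib.MP_9ac97d_al
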