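import Pool.Agent.Lib.MP_9ac97d_al.GBasic

/-!
# Actions by similarities (task GSim)
-/

set_option autoImplicit false

noncomputable section

open Pointwise

namespace Pool.Agent.Lib.MP_9ac97d_al

/-- A short element with ratio at least `1 + ε` has an inverse with a bounded power `a` of ratio
at most `1 / 5`; it has a unique fixed point `p` (Banach). If a lift `s` of a generator moves `p`,
then `a` and `s a s⁻¹` play ping-pong on the closed ball of radius `2 δ` around `p`, where
`δ = dist p (s p)`. -/
theorem exists_fixed_of_sim {E H X : Type} [Group E] [Group H] [MetricSpace X] [CompleteSpace X]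
    [Nonempty X] [MulAction E X] (π : E →* H) (hπ : Function.Surjective π)
    (hker : ∀ e, π e = 1 → ∀ p : X, e • p = p) (r : E →* ℝ)
    (hr : ∀ (e : E) (p q : X), dist (e • p) (e • q) = r e * dist p q) {ε : ℝ} (hε : 0 < ε)
    {L₀ : ℕ} (h : NFP H fun S => ∃ e : E, π e ∈ ball S L₀ ∧ 1 + ε ≤ r e) :
    ∃ p : X, ∀ e : E, e • p = p := by
  obtain ⟨m, hm⟩ := pow_unbounded_of_one_lt (6 : ℝ) (by linarith : 1 < 1 + ε)
  obtain ⟨S, -, hS, hno, e, heb, her⟩ := h (1 + m * L₀ + 1)
  set a : E := e⁻¹ ^ m with ha
  have hab : π a ∈ ball S (m * L₀) := by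
    rw [ha, map_pow, map_inv]
    exact pow_mem_ball (inv_mem_ball heb) m
  have hra : r a ≤ 1 / 6 := by
    rw [ha, map_pow, map_inv, inv_pow, one_div]
    refine inv_anti₀ (by norm_num) (hm.le.trans ?_)
    exact pow_le_pow_left₀ (by linarith) her m
  have hcon : ContractingWith (1 / 6) fun q : X => a • q := by
    refine ⟨by norm_num, LipschitzWith.of_dist_le_mul fun x y => ?_⟩
    rw [hr]
    refine mul_le_mul_of_nonneg_right ?_ dist_nonneg
    simpa using hra
  set p : X := hcon.fixedPoint _ with hp
  have hap : a • p = p := hcon.fixedPoint_isFixedPt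
  have hgen : ∀ s : E, π s ∈ S → s • p = p := by
    intro s hs
    by_contra hne
    set δ := dist p (s • p) with hδ
    have hδ0 : 0 < δ := dist_pos.2 (Ne.symm hne)
    have hrb : r (s * a * s⁻¹) = r a := by
      rw [map_mul, map_mul, mul_comm (r s), mul_assoc, ← map_mul, mul_inv_cancel, map_one, mul_one]
    have hbp : (s * a * s⁻¹) • s • p = s • p := by
      rw [mul_smul, mul_smul, inv_smul_smul, hap]
    have hfree : FreePair (π a) (π (s * a * s⁻¹)) := by
      refine pingpong π hker (B := Metric.closedBall p (2 * δ))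
        (P := Metric.closedBall p (δ / 3)) (Q := Metric.closedBall (s • p) (δ / 2))
        ⟨p, Metric.mem_closedBall_self (by linarith)⟩
        (Metric.closedBall_subset_closedBall (by linarith))
        (Metric.closedBall_subset_closedBall' (by rw [dist_comm]; linarith))
        (Metric.closedBall_disjoint_closedBall (by linarith)) (fun q hq => ?_) (fun q hq => ?_)
      · rw [Metric.mem_closedBall] at hq ⊢
        have e1 : dist (a • q) p = r a * dist q p := by rw [← hr, hap]
        rw [e1]
        nlinarith [dist_nonneg (x := q) (y := p)]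
      · rw [Metric.mem_closedBall] at hq ⊢
        have e1 : dist ((s * a * s⁻¹) • q) (s • p) = r a * dist q (s • p) := by
          rw [← hrb, ← hr, hbp]
        have e2 := dist_triangle q p (s • p)
        rw [e1]
        nlinarith [dist_nonneg (x := q) (y := s • p)]
    refine hno _ (ball_mono (by omega) hab) _ ?_ hfree
    rw [map_mul, map_mul, map_inv]
    exact mul_mem_ball (mul_mem_ball (mem_ball_one (Or.inl hs)) hab)
      (inv_mem_ball (mem_ball_one (Or.inl hs)))
  refine ⟨p, fun g => ?_⟩
  have hle : Subgroup.closure S ≤ (MulAction.stabilizer E p).map π := by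
    rw [Subgroup.closure_le]
    intro x hx
    obtain ⟨s, rfl⟩ := hπ x
    exact ⟨s, hgen s hx, rfl⟩
  obtain ⟨t, ht, htg⟩ := hle (hS ▸ Subgroup.mem_top (π g))
  have h1 : π (g * t⁻¹) = 1 := by rw [map_mul, map_inv, htg, mul_inv_cancel]
  have h2 : t • p = p := ht
  calc g • p = (g * t⁻¹) • t • p := by rw [mul_smul, inv_smul_smul]
    _ = p := by rw [h2, hker _ h1]

end Pool.Agent.Lib.MP_9ac97d_al
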