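import Pool.Agent.Lib.MP_9ac97d_al.Grp

/-!
# The Cayley tree of a free group: definitions
-/

set_option autoImplicit false

noncomputable section

open Pointwise

namespace Pool.Agent.Lib.MP_9ac97d_al

/-- The free group of rank `n`; its elements are also the vertices of its Cayley tree. -/
abbrev Fr (n : ℕ) : Type := FreeGroup (Fin n)

variable {n : ℕ}

/-- The distance in the Cayley tree. -/
def dd (x y : Fr n) : ℕ := (x⁻¹ * y).norm

/-- `m` lies on the geodesic from `x` to `y`. -/
def Btw (x m y : Fr n) : Prop := dd x m + dd m y = dd x y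

/-- For adjacent vertices `x`, `y`: the half tree on the side of `y`. -/
def Half (x y : Fr n) : Set (Fr n) := {z | dd z y < dd z x}

/-- The axis of `a`. -/
def Ax (a : Fr n) : Set (Fr n) := {y | dd y (a * a * y) = 2 * dd y (a * y)}

/-- The translation length of `a`. -/
def tl (a : Fr n) : ℕ := sInf (Set.range fun y : Fr n => dd y (a * y))

/-- The vertices of the minimal subtree of `S`. -/
def TT (S : Subgroup (Fr n)) : Set (Fr n) := {y | ∃ a ∈ S, a ≠ 1 ∧ y ∈ Ax a}

/-- The attracting end of `a` lies in the half tree `Half x y`. -/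
def Att (a x y : Fr n) : Prop := ∀ᶠ k : ℕ in Filter.atTop, a ^ k ∈ Half x y

/-- The cut of `S` defined by the oriented edge `(x, y)`. -/
def cut (S : Subgroup (Fr n)) (x y : Fr n) : Set (Fr n) := {a | a ∈ S ∧ a ≠ 1 ∧ Att a x y}

/-- `(x, y)` is an oriented edge of the minimal subtree of `S`. -/
def Ess (S : Subgroup (Fr n)) (x y : Fr n) : Prop :=
  dd x y = 1 ∧ (cut S x y).Nonempty ∧ (cut S y x).Nonempty

/-- The `S`-orbits of vertices of the minimal subtree of `S`. -/
def coreSet (S : Subgroup (Fr n)) : Set (Set (Fr n)) :=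
  (fun y => (fun s => s * y) '' (S : Set (Fr n))) '' TT S

/-- The number of vertices of the core graph of `S`. -/
def core (S : Subgroup (Fr n)) : ℕ := (coreSet S).ncard

/-- The oriented edges that define the cut `U` of `S`. -/
def cutEdges (S : Subgroup (Fr n)) (U : Set (Fr n)) : Set (Fr n × Fr n) :=
  {p | Ess S p.1 p.2 ∧ cut S p.1 p.2 = U}

/-- The cuts of `S` defined by at least `m` edges (and at least one). -/
def UU (S : Subgroup (Fr n)) (m : ℕ) : Set (Set (Fr n)) :=
  {U | (cutEdges S U).Nonempty ∧ m ≤ (cutEdges S U).ncard}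

/-- The opposite cut. -/
def opp (S : Subgroup (Fr n)) (U : Set (Fr n)) : Set (Fr n) := ((S : Set (Fr n)) \ {1}) \ U

/-- The terminal vertex of the cut `U` in the dual tree of the family `𝒰`. -/
def head (S : Subgroup (Fr n)) (𝒰 : Set (Set (Fr n))) (U : Set (Fr n)) : Set (Set (Fr n)) :=
  {U' | U' ∈ 𝒰 ∧ (U ⊆ U' ∨ opp S U ⊂ U')}

/-- The subgroup is not abelian. -/
def NonAb {G : Type} [Group G] (S : Subgroup G) : Prop := ∃ a ∈ S, ∃ b ∈ S, ¬ Commute a b

/-- The minimal number of generators (zero if not finitely generated). -/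
def rk {G : Type} [Group G] (S : Subgroup G) : ℕ :=
  sInf {k | ∃ T : Finset G, T.card = k ∧ Subgroup.closure (T : Set G) = S}

/-- No removed positive edge `(x, x * of i)`, `(x, i) ∈ R`, separates `y` from `y'`. -/
def Same (R : Set (Fr n × Fin n)) (y y' : Fr n) : Prop :=
  ∀ p ∈ R, (y ∈ Half p.1 (p.1 * FreeGroup.of p.2) ↔ y' ∈ Half p.1 (p.1 * FreeGroup.of p.2))

/-- The set of removed edges is invariant under `N`. -/
def RInv (N : Subgroup (Fr n)) (R : Set (Fr n × Fin n)) : Prop :=
  ∀ g ∈ N, ∀ p ∈ R, (g * p.1, p.2) ∈ R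

/-- The stabilizer in `N` of the component of `y` in the forest obtained by removing `R`. -/
def stabC (N : Subgroup (Fr n)) (R : Set (Fr n × Fin n)) (y : Fr n) : Subgroup (Fr n) :=
  Subgroup.closure {g | g ∈ N ∧ Same R (g * y) y}

/-- The stabilizers of the components. -/
def fsys (N : Subgroup (Fr n)) (R : Set (Fr n × Fin n)) : Set (Subgroup (Fr n)) :=
  Set.range (stabC N R)

/-- The edges outside `R` form at most `V` orbits under `N`. -/
def Cocpt (N : Subgroup (Fr n)) (R : Set (Fr n × Fin n)) (V : ℕ) : Prop :=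
  ∃ Ω : Finset (Fr n × Fin n), Ω.card ≤ V ∧
    ∀ p, p ∉ R → ∃ g ∈ N, ∃ q ∈ Ω, p = (g * q.1, q.2)

/-- Exponent sum of the generator `i`. -/
def expo (i : Fin n) : Fr n →* Multiplicative ℤ :=
  FreeGroup.lift fun j => if j = i then Multiplicative.ofAdd 1 else 1

/-- The matrix of the action `ψ ↦ ψ ∘ Φ⁻¹` on `Hom (F, ℤ)`. -/
def mat (Φ : MulAut (Fr n)) : Matrix (Fin n) (Fin n) ℤ :=
  fun i j => (expo j (Φ⁻¹ (FreeGroup.of i))).toAdd

/-- The set of matrices is unipotent: products of `d` matrices `A - 1` vanish. -/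
def Unip {d : ℕ} (Γ : Set (Matrix (Fin d) (Fin d) ℤ)) : Prop :=
  ∀ l : List (Matrix (Fin d) (Fin d) ℤ), (∀ A ∈ l, A ∈ Γ) → l.length = d →
    (l.map fun A => A - 1).prod = 0

/-- The augmentation ideal of the rational group ring. -/
def aug (G : Type) [Group G] : Submodule ℚ (MonoidAlgebra ℚ G) :=
  Submodule.span ℚ (Set.range fun g : G => MonoidAlgebra.of ℚ G g - 1)

/-- The dimension subgroups, as sets: `g - 1` lies in the power `c + 1` of the augmentation
ideal. -/
def Dim (G : Type) [Group G] (c : ℕ) : Set G := {g | MonoidAlgebra.of ℚ G g - 1 ∈ aug G ^ (c + 1)}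

end Pool.Agent.Lib.MP_9ac97d_al
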