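import Pool.Agent.Lib.MP_9ac97d_al.Lev
import Pool.Agent.Lib.MP_9ac97d_al.GBasic
import Pool.Agent.Lib.MP_9ac97d_al.Tree

/-!
# The trace dichotomy for integral representations (task GTrd)
-/

set_option autoImplicit false

noncomputable section

open Pointwise

namespace Pool.Agent.Lib.MP_9ac97d_al

variable {H : Type} [Group H]

section Core

open Polynomial

variable {U : Type} [AddCommGroup U] [Module ℚ U] [Module.Finite ℚ U]

theorem gtrd_nilpotent (A : Subalgebra ℚ (Module.End ℚ U)) {y : Module.End ℚ U} (hy : y ∈ A)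
    (h : ∀ x ∈ A, LinearMap.trace ℚ U (y * x) = 0) : IsNilpotent y := by
  have hp : y.charpoly ≠ 0 := y.charpoly_monic.ne_zero
  obtain ⟨q, hq, hdvd⟩ := exists_eq_pow_rootMultiplicity_mul_and_not_dvd y.charpoly hp 0
  generalize rootMultiplicity 0 y.charpoly = m at hq
  rw [C_0, sub_zero] at hq hdvd
  rw [X_dvd_iff] at hdvd
  have h0 := y.aeval_self_charpoly
  rw [hq, ← X_mul_divX_add q, map_mul, map_pow, map_add, map_mul, aeval_X, aeval_C] at h0
  set w := aeval y (divX q) with hw
  set c := q.coeff 0 with hc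
  have hwA : w ∈ A := by
    have : Algebra.adjoin ℚ {y} ≤ A := Algebra.adjoin_le (by simpa using hy)
    exact this (aeval_mem_adjoin_singleton ℚ y)
  have hyw : Commute y w := by
    have : y * w = w * y := by
      have e : aeval y (X * divX q) = aeval y (divX q * X) := by rw [mul_comm]
      simpa only [map_mul, aeval_X] using e
    exact this
  set z : Module.End ℚ U := (-c⁻¹) • w with hz
  have hzA : z ∈ A := A.smul_mem hwA _
  have hyz : Commute y z := hyw.smul_right _
  have k1 : y ^ m * (y * z) = y ^ m := by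
    rw [mul_add, Algebra.algebraMap_eq_smul_one, mul_smul_comm, mul_one] at h0
    have h1 : y ^ m * (y * w) = -(c • y ^ m) := eq_neg_of_add_eq_zero_left h0
    rw [hz, mul_smul_comm, mul_smul_comm, h1, smul_neg, neg_smul, neg_neg, smul_smul,
      inv_mul_cancel₀ hdvd, one_smul]
  have k2 : ∀ k : ℕ, y ^ m * (y * z) ^ k = y ^ m := by
    intro k
    induction k with
    | zero => simp
    | succ k ih => rw [pow_succ, ← mul_assoc, ih, k1]
  have k3 : ∀ k : ℕ, (y * z) ^ m * (y * z) ^ k = (y * z) ^ m := by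
    intro k
    have e : (y * z) ^ m = z ^ m * y ^ m := by
      rw [hyz.mul_pow, (hyz.pow_pow m m).eq]
    rw [e, mul_assoc, k2]
  have k4 : IsIdempotentElem ((y * z) ^ (m + 1)) := by
    have e : (y * z) ^ (m + 1) = (y * z) ^ m := by rw [pow_add, k3]
    rw [e]
    exact k3 m
  have k5 : (y * z) ^ (m + 1) = 0 := by
    apply LinearMap.IsIdempotentElem.eq_zero_of_trace_eq_zero k4
    rw [pow_succ', mul_assoc]
    exact h _ (A.mul_mem hzA (A.pow_mem (A.mul_mem hy hzA) m))
  exact ⟨m, by rw [← k2 (m + 1), k5, mul_zero]⟩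

theorem gtrd_ball_succ {S : Set H} {k : ℕ} {g : H} (hg : g ∈ ball S (k + 1)) :
    g ∈ ball S k ∨ ∃ s b, s ∈ ball S 1 ∧ b ∈ ball S k ∧ g = s * b := by
  obtain ⟨l, hl, hS, rfl⟩ := hg
  cases l with
  | nil => exact Or.inl (one_mem_ball S k)
  | cons s l =>
    refine Or.inr ⟨s, l.prod, mem_ball_one (hS s (by simp)), ⟨l, ?_, ?_, rfl⟩, by simp⟩
    · simpa using hl
    · exact fun x hx => hS x (by simp [hx])

theorem gtrd_ball_ind {S : Set H} (hS : Subgroup.closure S = ⊤) {P : H → Prop} (h1 : P 1)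
    (hs : ∀ s ∈ ball S 1, ∀ g, P g → P (s * g)) (g : H) : P g := by
  have hg : g ∈ Subgroup.closure S := by rw [hS]; trivial
  obtain ⟨a, l, -, hl, rfl⟩ := mem_closure_iff_ball.1 hg
  clear hg
  induction l with
  | nil => exact h1
  | cons s l ih =>
    rw [List.prod_cons]
    exact hs s (mem_ball_one (hl s (by simp))) _ (ih fun x hx => hl x (by simp [hx]))

theorem gtrd_span {V : Type} [Ring V] [Algebra ℚ V] [Module.Finite ℚ V] (σ : H →* V) {S : Set H}
    (hS : Subgroup.closure S = ⊤) (g : H) :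
    σ g ∈ Submodule.span ℚ (σ '' ball S (Module.finrank ℚ V)) := by
  set A : ℕ → Submodule ℚ V := fun k => Submodule.span ℚ (σ '' ball S k) with hA
  have hmono : ∀ a b, a ≤ b → A a ≤ A b := fun a b h =>
    Submodule.span_mono (Set.image_mono (ball_mono h))
  have hex : ∃ k ≤ Module.finrank ℚ V, A (k + 1) ≤ A k := by
    by_contra hn
    push Not at hn
    have key : ∀ k, k ≤ Module.finrank ℚ V + 1 → k ≤ Module.finrank ℚ (A k) := by
      intro k
      induction k with
      | zero => intro _; exact Nat.zero_le _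
      | succ k ih =>
        intro hk
        have h1 : A k < A (k + 1) :=
          lt_of_le_of_ne (hmono _ _ (by omega)) fun e => hn k (by omega) e.ge
        have h2 := Submodule.finrank_lt_finrank_of_lt h1
        have h3 := ih (by omega)
        omega
    have h1 := key _ le_rfl
    have h2 := Submodule.finrank_le (A (Module.finrank ℚ V + 1))
    omega
  obtain ⟨k, hk, hle⟩ := hex
  refine hmono k _ hk ?_
  refine gtrd_ball_ind hS (P := fun g => σ g ∈ A k) ?_ ?_ g
  · exact Submodule.subset_span ⟨1, one_mem_ball S k, rfl⟩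
  · intro s hs g hg
    rw [map_mul]
    generalize σ g = x at hg
    induction hg using Submodule.span_induction with
    | mem x hx =>
      obtain ⟨b, hb, rfl⟩ := hx
      refine hle (Submodule.subset_span ⟨s * b, ?_, map_mul σ s b⟩)
      rw [add_comm]
      exact mul_mem_ball hs hb
    | zero => rw [mul_zero]; exact zero_mem _
    | add x y _ _ hx hy => rw [mul_add]; exact add_mem hx hy
    | smul a x _ hx => rw [mul_smul_comm]; exact Submodule.smul_mem _ _ hx

theorem gtrd_trace (σ : H →* Module.End ℚ U) {S : Set H} (hS : Subgroup.closure S = ⊤) {t : ℚ}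
    (h : ∀ a ∈ ball S (Module.finrank ℚ (Module.End ℚ U) + 1), LinearMap.trace ℚ U (σ a) = t)
    (g : H) : LinearMap.trace ℚ U (σ g) = t := by
  refine gtrd_ball_ind hS (P := fun g => LinearMap.trace ℚ U (σ g) = t)
    (h 1 (one_mem_ball _ _)) ?_ g
  intro s hs g hg
  rw [← hg, map_mul]
  have hx := gtrd_span σ hS g
  generalize σ g = x at hx
  induction hx using Submodule.span_induction with
  | mem x hx =>
    obtain ⟨b, hb, rfl⟩ := hx
    rw [← map_mul, h b (ball_mono (by omega) hb), h]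
    rw [add_comm]
    exact mul_mem_ball hs hb
  | zero => rw [mul_zero]
  | add x y _ _ hx hy => rw [mul_add, map_add, map_add, hx, hy]
  | smul a x _ hx => rw [mul_smul_comm, map_smul, map_smul, hx]

theorem gtrd_core (σ : H →* Module.End ℚ U) {t : ℚ}
    (h : ∀ g, LinearMap.trace ℚ U (σ g) = t) (l : List H) (hl : Module.finrank ℚ U ≤ l.length) :
    (l.map fun g => σ g - 1).prod = 0 := by
  set A : Subalgebra ℚ (Module.End ℚ U) := Algebra.adjoin ℚ (Set.range σ) with hA
  have hAs : ∀ x ∈ A, x ∈ Submodule.span ℚ (Set.range σ) := by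
    intro x hx
    have h1 : x ∈ Subalgebra.toSubmodule A := hx
    rw [hA, Algebra.adjoin_eq_span] at h1
    have h2 : Submonoid.closure (Set.range σ) = MonoidHom.mrange σ :=
      Submonoid.closure_eq (MonoidHom.mrange σ)
    rw [h2] at h1
    exact h1
  set T : Set (Module.End ℚ U) := {y | y ∈ A ∧ ∀ x ∈ A, LinearMap.trace ℚ U (y * x) = 0} with hT
  have hg : ∀ g, σ g - 1 ∈ T := by
    intro g
    refine ⟨A.sub_mem (Algebra.subset_adjoin ⟨g, rfl⟩) A.one_mem, fun x hx => ?_⟩
    have hx' := hAs x hx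
    clear hx
    induction hx' using Submodule.span_induction with
    | mem x hx =>
      obtain ⟨b, rfl⟩ := hx
      rw [sub_mul, one_mul, ← map_mul, map_sub, h, h, sub_self]
    | zero => rw [mul_zero, map_zero]
    | add x y _ _ hx hy => rw [mul_add, map_add, hx, hy, add_zero]
    | smul a x _ hx => rw [mul_smul_comm, map_smul, hx, smul_zero]
  let φ : Module.End ℚ U →+* AddMonoid.End U := Module.toAddMonoidEnd (Module.End ℚ U) U
  have hφ : ∀ f v, φ f v = f v := fun _ _ => rfl
  have hinj : Function.Injective φ := by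
    intro f f' e
    ext v
    rw [← hφ, e, hφ]
  have key := lev (K := ℚ) (U := U) (T := φ '' T) ?_ ?_ ?_ ((l.map fun g => σ g - 1).map φ) ?_
    (by simpa using hl)
  · apply hinj
    rw [map_list_prod, key, map_zero]
  · rintro _ ⟨f, -, rfl⟩
    exact ⟨RingEquiv.refl ℚ, fun d v => by rw [hφ, hφ, map_smul]; rfl⟩
  · rintro _ ⟨f, hf, rfl⟩ _ ⟨f', hf', rfl⟩
    refine ⟨f * f', ⟨A.mul_mem hf.1 hf'.1, fun x hx => ?_⟩, map_mul φ f f'⟩
    rw [mul_assoc]
    exact hf.2 _ (A.mul_mem hf'.1 hx)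
  · rintro _ ⟨f, hf, rfl⟩
    exact (gtrd_nilpotent A hf.1 hf.2).map φ
  · intro f hf
    obtain ⟨f', hf', rfl⟩ := List.mem_map.1 hf
    obtain ⟨g, -, rfl⟩ := List.mem_map.1 hf'
    exact ⟨_, hg g, rfl⟩

end Core

/-- If all words of length at most `2 d ^ 2 + 1` have trace `d` the group is unipotent. Over `ℚ`:
the spans `A k` of the matrices of words of length at most `k` increase and stabilize at some
`k ≤ d ^ 2`, at the algebra `A` spanned by the image. `I = {y ∈ A | ∀ x ∈ A, tr (y x) = 0}` is a two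
sided ideal containing `ρ s - 1` for the generators, hence all `ρ g - 1`; its elements are nilpotent
(all powers have trace zero), so products of `d` of them vanish by `lev`. -/
theorem unip_of_trace {d : ℕ} (ρ : H →* Matrix (Fin d) (Fin d) ℤ) {S : Set H}
    (hS : Subgroup.closure S = ⊤)
    (h : ∀ a ∈ ball S (2 * d ^ 2 + 1), (ρ a).trace = d) : Unip (Set.range ρ) := by
  let ψ : Matrix (Fin d) (Fin d) ℤ →+* Module.End ℚ (Fin d → ℚ) :=
    (Matrix.toLinAlgEquiv' (R := ℚ) (n := Fin d)).toRingEquiv.toRingHom.comp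
      (Int.castRingHom ℚ).mapMatrix
  have hψ : ∀ A, ψ A = Matrix.toLin' (A.map (Int.castRingHom ℚ)) := fun A => rfl
  have hinj : Function.Injective ψ := by
    intro A B e
    rw [hψ, hψ] at e
    exact Matrix.map_injective (f := Int.castRingHom ℚ) (RingHom.injective_int _)
      (Matrix.toLin'.injective e)
  have htr : ∀ A, LinearMap.trace ℚ _ (ψ A) = ((A.trace : ℤ) : ℚ) := by
    intro A
    rw [hψ, Matrix.trace_toLin'_eq]
    simp [Matrix.trace]
  let σ : H →* Module.End ℚ (Fin d → ℚ) := ψ.toMonoidHom.comp ρ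
  have hσ : ∀ g, σ g = ψ (ρ g) := fun g => rfl
  have hfr : Module.finrank ℚ (Module.End ℚ (Fin d → ℚ)) = d * d := by
    rw [Module.finrank_linearMap]
    simp
  have h1 : ∀ g, LinearMap.trace ℚ _ (σ g) = (d : ℚ) := by
    refine gtrd_trace σ hS fun a ha => ?_
    rw [hσ, htr, h a (ball_mono (by rw [hfr]; nlinarith) ha)]
    simp
  intro l hl hlen
  obtain ⟨l', rfl⟩ : ∃ l' : List H, l'.map ρ = l := by
    clear hlen
    induction l with
    | nil => exact ⟨[], rfl⟩
    | cons A l ih =>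
      obtain ⟨l', rfl⟩ := ih fun B hB => hl B (by simp [hB])
      obtain ⟨g, rfl⟩ := hl A (by simp)
      exact ⟨g :: l', rfl⟩
  have key := gtrd_core σ h1 l' (by simpa using hlen.ge)
  apply hinj
  rw [map_list_prod, map_zero, ← key, List.map_map, List.map_map]
  congr 1
  refine List.map_congr_left fun g _ => ?_
  simp only [Function.comp_apply, map_sub, map_one, hσ]

/-- Take for `H₁` the kernel of the reduction modulo `2 d + 2`; a trace congruent to `d` modulo
`2 d + 2` and different from `d` has absolute value at least `d + 2`. Use `schreier`. -/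
theorem trace_dichotomy {d : ℕ} (ρ : H →* Matrix (Fin d) (Fin d) ℤ) :
    (∃ H₁ : Subgroup H, H₁.FiniteIndex ∧ H₁.Normal ∧ Unip (ρ '' H₁)) ∨
      ∃ L₀ : ℕ, ∀ S : Set H, Subgroup.closure S = ⊤ →
        ∃ a ∈ ball S L₀, (d + 2 : ℤ) ≤ |(ρ a).trace| := by
  let red : Matrix (Fin d) (Fin d) ℤ →+* Matrix (Fin d) (Fin d) (ZMod (2 * d + 2)) :=
    (Int.castRingHom (ZMod (2 * d + 2))).mapMatrix
  let τ := (red.toMonoidHom.comp ρ).toHomUnits
  have hfi : τ.ker.FiniteIndex := Subgroup.finiteIndex_ker τ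
  by_cases hU : Unip (ρ '' τ.ker)
  · exact Or.inl ⟨τ.ker, hfi, inferInstance, hU⟩
  refine Or.inr ⟨(2 * d ^ 2 + 1) * (2 * τ.ker.index + 1), fun S hS => ?_⟩
  have hr : Set.range (ρ.comp τ.ker.subtype) = ρ '' τ.ker := by
    ext A
    constructor
    · rintro ⟨g, rfl⟩
      exact ⟨g, g.2, rfl⟩
    · rintro ⟨g, hg, rfl⟩
      exact ⟨⟨g, hg⟩, rfl⟩
  have hex : ∃ a ∈ ball (τ.ker.subtype ⁻¹' ball S (2 * τ.ker.index + 1)) (2 * d ^ 2 + 1),
      ((ρ.comp τ.ker.subtype) a).trace ≠ d := by
    by_contra hn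
    push Not at hn
    exact hU (hr ▸ unip_of_trace _ (schreier τ.ker hS) hn)
  obtain ⟨a, ha, hne⟩ := hex
  refine ⟨a, ?_, ?_⟩
  · have h1 : τ.ker.subtype a ∈ ball (τ.ker.subtype ''
        (τ.ker.subtype ⁻¹' ball S (2 * τ.ker.index + 1))) (2 * d ^ 2 + 1) := by
      rw [ball_image]
      exact ⟨a, ha, rfl⟩
    exact ball_subset_of_subset (Set.image_preimage_subset _ _) _ h1
  · have h1 : red (ρ a) = 1 := congrArg Units.val (MonoidHom.mem_ker.1 a.2)
    have h2 : (((ρ a).trace : ℤ) : ZMod (2 * d + 2)) = ((d : ℤ) : ZMod (2 * d + 2)) := by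
      have h3 := congrArg Matrix.trace h1
      rw [Matrix.trace_one, Fintype.card_fin] at h3
      rw [Int.cast_natCast, ← h3]
      simp [red, Matrix.trace]
    rw [ZMod.intCast_eq_intCast_iff_dvd_sub] at h2
    have h4 : (d : ℤ) - (ρ a).trace ≠ 0 := fun e => hne (by
      show (ρ a).trace = d
      omega)
    have h5 := Int.le_of_dvd (abs_pos.2 h4) ((dvd_abs _ _).2 h2)
    push_cast at h5
    rcases abs_cases ((d : ℤ) - (ρ a).trace) with h6 | h6 <;>
      rcases abs_cases ((ρ a).trace) with h7 | h7 <;> omega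

/-- A complex matrix with large trace has a large eigenvalue. -/
theorem exists_eigen_of_trace {d : ℕ} (A : Matrix (Fin d) (Fin d) ℂ)
    (h : (d + 2 : ℝ) ≤ ‖A.trace‖) :
    ∃ (μ : ℂ) (v : Fin d → ℂ), v ≠ 0 ∧ A.mulVec v = μ • v ∧ 1 + 1 / (d : ℝ) ≤ ‖μ‖ := by
  have hex : ∃ μ ∈ A.charpoly.roots, 1 + 1 / (d : ℝ) ≤ ‖μ‖ := by
    by_contra hn
    push Not at hn
    rw [Matrix.trace_eq_sum_roots_charpoly] at h
    have h1 := norm_multiset_sum_le A.charpoly.roots
    have h2 : (A.charpoly.roots.map fun x => ‖x‖).sum ≤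
        Multiset.card (A.charpoly.roots.map fun x => ‖x‖) • (1 + 1 / (d : ℝ)) := by
      refine Multiset.sum_le_card_nsmul _ _ fun x hx => ?_
      obtain ⟨μ, hμ, rfl⟩ := Multiset.mem_map.1 hx
      exact (hn μ hμ).le
    have h3 : Multiset.card A.charpoly.roots ≤ d := by
      have := Polynomial.card_roots' A.charpoly
      rwa [Matrix.charpoly_natDegree_eq_dim, Fintype.card_fin] at this
    rw [Multiset.card_map, nsmul_eq_mul] at h2
    have h4 : (Multiset.card A.charpoly.roots : ℝ) ≤ d := by exact_mod_cast h3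
    have h5 : (Multiset.card A.charpoly.roots : ℝ) * (1 + 1 / (d : ℝ)) ≤ d * (1 + 1 / (d : ℝ)) :=
      mul_le_mul_of_nonneg_right h4 (by positivity)
    have h6 : (d : ℝ) * (1 / (d : ℝ)) ≤ 1 := by
      rw [one_div]
      exact mul_inv_le_one
    linarith
  obtain ⟨μ, hμ, hle⟩ := hex
  have h1 : A.charpoly.eval μ = 0 := Polynomial.isRoot_of_mem_roots hμ
  rw [Matrix.eval_charpoly] at h1
  obtain ⟨v, hv, hz⟩ := Matrix.exists_mulVec_eq_zero_iff.2 h1
  refine ⟨μ, v, hv, ?_, hle⟩
  rw [Matrix.sub_mulVec, sub_eq_zero] at hz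
  rw [← hz]
  ext i
  simp [Matrix.mulVec_diagonal]

end Pool.Agent.Lib.MP_9ac97d_al
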