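import Pool.Agent.Lib.MP_9ac97d_al.GTrd
import Pool.Agent.Lib.MP_9ac97d_al.GFg

/-!
# Metabelian-type quotients are virtually nilpotent (task GVn)
-/

set_option autoImplicit false

noncomputable section

open Pointwise

namespace Pool.Agent.Lib.MP_9ac97d_al

variable {H : Type} [Group H]

/-- The digit expansion in base `μ`. -/
def gvn_val (μ : ℂ) : List Bool → ℂ
  | [] => 0
  | b :: l => (if b then 1 else 0) + μ * gvn_val μ l

theorem gvn_val_sep {μ : ℂ} (hμ : 3 ≤ ‖μ‖) : ∀ l l' : List Bool, l.length = l'.length →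
    l = l' ∨ 1 / 2 ≤ ‖gvn_val μ l - gvn_val μ l'‖
  | [], [], _ => Or.inl rfl
  | [], _ :: _, h => by simp at h
  | _ :: _, [], h => by simp at h
  | b :: l, b' :: l', h => by
    have h' : l.length = l'.length := by simpa using h
    rcases gvn_val_sep hμ l l' h' with h1 | h1
    · subst h1
      cases b <;> cases b' <;> simp [gvn_val] <;> norm_num
    · right
      have h2 : μ * (gvn_val μ l - gvn_val μ l') = (gvn_val μ (b :: l) - gvn_val μ (b' :: l'))
          - ((if b then 1 else 0) - (if b' then 1 else 0)) := by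
        simp only [gvn_val]; ring
      have h3 : ‖((if b then 1 else 0) - (if b' then 1 else 0) : ℂ)‖ ≤ 1 := by
        cases b <;> cases b' <;> simp
      have h4 := norm_sub_le (gvn_val μ (b :: l) - gvn_val μ (b' :: l'))
        ((if b then 1 else 0) - (if b' then 1 else 0) : ℂ)
      rw [← h2, norm_mul] at h4
      have h5 : 3 * (1 / 2) ≤ ‖μ‖ * ‖gvn_val μ l - gvn_val μ l'‖ :=
        mul_le_mul hμ h1 (by norm_num) (norm_nonneg _)
      linarith

theorem gvn_wd_cons (x y : H) (b : Bool) (l : List Bool) :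
    wd x y (b :: l) = (if b then x else y) * wd x y l := by
  simp [wd]

/-- Affine ping-pong. The word of `ε` in `x a` and `a` equals `m * a ^ n` with `m ∈ M` and
`f m = ∑ ε k μ ^ k f x`; these sums are pairwise distinct when `‖μ‖ ≥ 3`. -/
theorem freePair_affine {M : Subgroup H} [M.Normal] {f : H → ℂ}
    (hadd : ∀ x ∈ M, ∀ y ∈ M, f (x * y) = f x + f y) {a : H} {μ : ℂ} (hμ : 3 ≤ ‖μ‖)
    (ha : ∀ x ∈ M, f (a * x * a⁻¹) = μ * f x) {x : H} (hx : x ∈ M) (hfx : f x ≠ 0) :
    FreePair (x * a) a := by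
  have hN : M.Normal := inferInstance
  have h1 : f 1 = 0 := by
    have := hadd 1 M.one_mem 1 M.one_mem
    rw [mul_one] at this
    exact left_eq_add.1 this
  have key : ∀ l : List Bool, wd (x * a) a l * (a ^ l.length)⁻¹ ∈ M ∧
      f (wd (x * a) a l * (a ^ l.length)⁻¹) = gvn_val μ l * f x := by
    intro l
    induction l with
    | nil => simp [wd, gvn_val, h1]
    | cons b l ih =>
      obtain ⟨ih1, ih2⟩ := ih
      have h2 := hN.conj_mem _ ih1 a
      have h3 := ha _ ih1
      cases b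
      · have e : wd (x * a) a (false :: l) * (a ^ (false :: l).length)⁻¹ =
            a * (wd (x * a) a l * (a ^ l.length)⁻¹) * a⁻¹ := by
          rw [gvn_wd_cons, List.length_cons, pow_succ', mul_inv_rev]
          simp only [Bool.false_eq_true, if_false, mul_assoc]
        rw [e, h3, ih2]
        refine ⟨h2, ?_⟩
        simp only [gvn_val, Bool.false_eq_true, if_false]
        ring
      · have e : wd (x * a) a (true :: l) * (a ^ (true :: l).length)⁻¹ =
            x * (a * (wd (x * a) a l * (a ^ l.length)⁻¹) * a⁻¹) := by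
          rw [gvn_wd_cons, List.length_cons, pow_succ', mul_inv_rev]
          simp only [if_true, mul_assoc]
        rw [e, hadd _ hx _ h2, h3, ih2]
        refine ⟨M.mul_mem hx h2, ?_⟩
        simp only [gvn_val, if_true]
        ring
  intro l l' hl hw
  rcases gvn_val_sep hμ l l' hl with h2 | h2
  · exact h2
  · exfalso
    have h3 : gvn_val μ l * f x = gvn_val μ l' * f x := by
      rw [← (key l).2, ← (key l').2, hw, hl]
    rw [mul_right_cancel₀ hfx h3, sub_self, norm_zero] at h2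
    norm_num at h2

theorem gvn_ker_le {Γ : Type} [Group Γ] {d : ℕ} {p : Γ →* Multiplicative (Fin d → ℤ)}
    (hfin : ((commutator Γ).subgroupOf p.ker).FiniteIndex)
    (g : Γ →* Multiplicative (Fin d → ℤ)) : p.ker ≤ g.ker := by
  intro x hx
  obtain ⟨n, hn, -, hxn⟩ := Subgroup.exists_pow_mem_of_index_ne_zero hfin.index_ne_zero
    (⟨x, hx⟩ : p.ker)
  have h1 : x ^ n ∈ commutator Γ := hxn
  have h2 : g (x ^ n) = 1 := Abelianization.commutator_subset_ker g h1
  rw [map_pow] at h2
  have h3 : n • (g x).toAdd = 0 := by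
    rw [← toAdd_pow, h2, toAdd_one]
  rw [MonoidHom.mem_ker]
  have h4 : (g x).toAdd = 0 := by
    funext i
    have := congrFun h3 i
    simp only [Pi.smul_apply, nsmul_eq_mul, Pi.zero_apply, mul_eq_zero, Nat.cast_eq_zero] at this
    rcases this with h | h
    · omega
    · exact h
  exact toAdd_eq_zero.1 h4

theorem gvn_rho {Γ : Type} [Group Γ] {d : ℕ} {p : Γ →* Multiplicative (Fin d → ℤ)}
    (hp : Function.Surjective p)
    (hfin : ((commutator Γ).subgroupOf p.ker).FiniteIndex) (φ : H →* MulAut Γ) :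
    ∃ ρ : H →* Matrix (Fin d) (Fin d) ℤ, ∀ h x,
      (p (φ h x)).toAdd = (ρ h).mulVec (p x).toAdd := by
  have h1 : ∀ h : H, ∃ A : Matrix (Fin d) (Fin d) ℤ, ∀ x,
      (p (φ h x)).toAdd = A.mulVec (p x).toAdd := by
    intro h
    let g : Γ →* Multiplicative (Fin d → ℤ) := p.comp (φ h).toMonoidHom
    let t : Multiplicative (Fin d → ℤ) →* Multiplicative (Fin d → ℤ) :=
      p.liftOfSurjective hp ⟨g, gvn_ker_le hfin g⟩
    have ht : ∀ x, t (p x) = p (φ h x) := fun x =>
      MonoidHom.liftOfRightInverse_comp_apply p _ _ ⟨g, gvn_ker_le hfin g⟩ x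
    let t' : (Fin d → ℤ) →+ (Fin d → ℤ) :=
      { toFun := fun v => (t (Multiplicative.ofAdd v)).toAdd
        map_zero' := by simp
        map_add' := fun v w => by simp [ofAdd_add] }
    refine ⟨LinearMap.toMatrix' t'.toIntLinearMap, fun x => ?_⟩
    rw [← Matrix.toLin'_apply, Matrix.toLin'_toMatrix', ← ht]
    rfl
  choose A hA using h1
  have huniq : ∀ B C : Matrix (Fin d) (Fin d) ℤ,
      (∀ x, B.mulVec (p x).toAdd = C.mulVec (p x).toAdd) → B = C := by
    intro B C h
    apply Matrix.mulVec_injective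
    funext v
    obtain ⟨x, hx⟩ := hp (Multiplicative.ofAdd v)
    have := h x
    rwa [hx, toAdd_ofAdd] at this
  refine ⟨{ toFun := A, map_one' := ?_, map_mul' := ?_ }, hA⟩
  · apply huniq
    intro x
    rw [← hA, map_one, Matrix.one_mulVec]
    rfl
  · intro a b
    apply huniq
    intro x
    rw [← hA, ← Matrix.mulVec_mulVec, ← hA, ← hA, map_mul]
    rfl

/-- A finite index subgroup acts trivially on the finite group `ker p / commutator`. -/
theorem gvn_finite_part {Γ : Type} [Group Γ] {K : Subgroup Γ}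
    (hfin : ((commutator Γ).subgroupOf K).FiniteIndex) (φ : H →* MulAut Γ)
    (hK : ∀ h, ∀ x ∈ K, φ h x ∈ K) :
    ∃ H₂ : Subgroup H, H₂.FiniteIndex ∧ ∀ h ∈ H₂, ∀ x ∈ K, x * (φ h x)⁻¹ ∈ commutator Γ := by
  let act : MulAction H (Abelianization Γ) :=
    { smul := fun h y => Abelianization.map (φ h).toMonoidHom y
      one_smul := fun y => by
        obtain ⟨x, rfl⟩ : ∃ x, Abelianization.of x = y := Quot.exists_rep y
        change Abelianization.of (φ 1 x) = _
        rw [map_one]
        rfl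
      mul_smul := fun a b y => by
        obtain ⟨x, rfl⟩ : ∃ x, Abelianization.of x = y := Quot.exists_rep y
        change Abelianization.of (φ (a * b) x) = Abelianization.of (φ a (φ b x))
        rw [map_mul]
        rfl }
  have hsm : ∀ (h : H) (x : Γ), h • Abelianization.of x = Abelianization.of (φ h x) :=
    fun _ _ => rfl
  let ψ : K →* Abelianization Γ := Abelianization.of.comp K.subtype
  have hker : ψ.ker = (commutator Γ).subgroupOf K := by
    ext x
    rw [MonoidHom.mem_ker, Subgroup.mem_subgroupOf]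
    change Abelianization.of (x : Γ) = 1 ↔ (x : Γ) ∈ commutator Γ
    rw [← MonoidHom.mem_ker, Abelianization.ker_of]
  have hF : Finite ψ.range := by
    apply Nat.finite_of_card_ne_zero
    rw [← Subgroup.index_ker, hker]
    exact hfin.index_ne_zero
  have hFs : (ψ.range : Set (Abelianization Γ)).Finite := Set.toFinite _
  refine ⟨⨅ y : ψ.range, MulAction.stabilizer H (y : Abelianization Γ),
    Subgroup.finiteIndex_iInf fun y => ⟨?_⟩, fun h hh x hx => ?_⟩
  · rw [MulAction.index_stabilizer]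
    have h1 : MulAction.orbit H (y : Abelianization Γ) ⊆ (ψ.range : Set (Abelianization Γ)) := by
      rintro _ ⟨h, rfl⟩
      obtain ⟨_, x, rfl⟩ := y
      exact ⟨⟨φ h x, hK h x x.2⟩, rfl⟩
    exact ((Set.ncard_pos (hFs.subset h1)).2 ⟨_, MulAction.mem_orbit_self _⟩).ne'
  · have h1 := Subgroup.mem_iInf.1 hh ⟨ψ ⟨x, hx⟩, ⟨_, rfl⟩⟩
    have h2 : h • Abelianization.of x = Abelianization.of x := h1
    rw [hsm] at h2
    rw [← Abelianization.ker_of, MonoidHom.mem_ker, map_mul, map_inv, h2, mul_inv_cancel]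

/-- The elements killed by all products of `d - j` matrices `A - 1`. -/
def gvn_W {Γ : Type} [Group Γ] {d : ℕ} (p : Γ →* Multiplicative (Fin d → ℤ))
    (T : Set (Matrix (Fin d) (Fin d) ℤ)) (j : ℕ) : Subgroup Γ where
  carrier := {x | ∀ l : List (Matrix (Fin d) (Fin d) ℤ), (∀ A ∈ l, A ∈ T) → l.length + j = d →
    ((l.map fun A => A - 1).prod).mulVec (p x).toAdd = (0 : Fin d → ℤ)}
  one_mem' := fun l _ _ => by simp
  mul_mem' := fun {x y} hx hy l hl hj => by
    rw [map_mul, toAdd_mul, Matrix.mulVec_add, hx l hl hj, hy l hl hj, add_zero]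
  inv_mem' := fun {x} hx l hl hj => by
    rw [map_inv, toAdd_inv, Matrix.mulVec_neg, hx l hl hj, neg_zero]

theorem gvn_unip {M : Subgroup H} [M.Normal] {d : ℕ} {p : M →* Multiplicative (Fin d → ℤ)}
    {ρ : H →* Matrix (Fin d) (Fin d) ℤ}
    (hρ : ∀ h x, (p (MulAut.conjNormal h x)).toAdd = (ρ h).mulVec (p x).toAdd)
    {H₁ : Subgroup H} (hU : Unip (ρ '' H₁)) {c : ℕ} (hc : H₁.lowerCentralSeries c ≤ M) :
    H₁.lowerCentralSeries (c + d) ≤ p.ker.map M.subtype := by
  have h1 : ∀ j, H₁.lowerCentralSeries (c + j) ≤ (gvn_W p (ρ '' H₁) j).map M.subtype := by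
    intro j
    induction j with
    | zero =>
      intro x hx
      refine ⟨⟨x, hc hx⟩, fun l hl hj => ?_, rfl⟩
      rw [hU l hl hj, Matrix.zero_mulVec]
    | succ j ih =>
      rw [← add_assoc, Subgroup.lowerCentralSeries_succ, Subgroup.commutator_le]
      intro x hx h hh
      obtain ⟨y, hy, rfl⟩ := ih hx
      refine ⟨y * (MulAut.conjNormal h y)⁻¹, fun l hl hj => ?_, ?_⟩
      · have h2 := hy (l ++ [ρ h]) (by
          intro A hA
          rcases List.mem_append.1 hA with hA | hA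
          · exact hl A hA
          · rw [List.mem_singleton.1 hA]
            exact ⟨h, hh, rfl⟩) (by rw [List.length_append, List.length_singleton]; omega)
        rw [List.map_append, List.prod_append, List.map_singleton, List.prod_singleton,
          ← Matrix.mulVec_mulVec, Matrix.sub_mulVec, Matrix.one_mulVec] at h2
        rw [map_mul, map_inv, toAdd_mul, toAdd_inv, hρ, ← sub_eq_add_neg, ← neg_sub,
          Matrix.mulVec_neg, h2, neg_zero]
      · simp only [Subgroup.coe_subtype, Subgroup.coe_mul, Subgroup.coe_inv,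
          MulAut.conjNormal_apply, commutatorElement_def, mul_inv_rev, inv_inv, mul_assoc]
  refine (h1 d).trans (Subgroup.map_mono fun x hx => ?_)
  have h2 := hx [] (by simp) (by simp)
  rw [List.map_nil, List.prod_nil, Matrix.one_mulVec] at h2
  exact toAdd_eq_zero.1 h2

theorem gvn_hyp (hH : NF H) {c : ℕ} {d : ℕ}
    {p : (⊤ : Subgroup H).lowerCentralSeries c →* Multiplicative (Fin d → ℤ)}
    (hp : Function.Surjective p) {ρ : H →* Matrix (Fin d) (Fin d) ℤ}
    (hρ : ∀ h x, (p (MulAut.conjNormal h x)).toAdd = (ρ h).mulVec (p x).toAdd) {L₀ : ℕ}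
    (hL₀ : ∀ S : Set H, Subgroup.closure S = ⊤ →
      ∃ a ∈ ball S L₀, (d + 2 : ℤ) ≤ |(ρ a).trace|) : False := by
  classical
  obtain ⟨L₁, hL₁⟩ := span_short (lcs_fg hH c)
  obtain ⟨S, -, hS, hNo, -⟩ := hH (L₁ + 2 * d * L₀)
  obtain ⟨a, haS, htr⟩ := hL₀ S hS
  let A : Matrix (Fin d) (Fin d) ℂ := (ρ a).map (Int.castRingHom ℂ)
  have hA : (d + 2 : ℝ) ≤ ‖A.transpose.trace‖ := by
    have h1 : A.transpose.trace = (((ρ a).trace : ℤ) : ℂ) := by
      rw [Matrix.trace_transpose]
      simp [A, Matrix.trace]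
    rw [h1, Complex.norm_intCast]
    exact_mod_cast htr
  obtain ⟨μ, v, hv, hAv, hμ⟩ := exists_eigen_of_trace A.transpose hA
  obtain ⟨i, hi⟩ : ∃ i, v i ≠ 0 := Function.ne_iff.1 hv
  have hd : 0 < d := Fin.pos i
  have hd' : (0 : ℝ) < d := by exact_mod_cast hd
  let F : (Fin d → ℤ) → ℂ := fun w => dotProduct v fun k => (w k : ℂ)
  have hFadd : ∀ w w', F (w + w') = F w + F w' := by
    intro w w'
    simp only [F, Pi.add_apply, Int.cast_add, dotProduct, mul_add, Finset.sum_add_distrib]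
  have hF0 : F 0 = 0 := by simp [F, dotProduct]
  have hFA : ∀ w, F ((ρ a).mulVec w) = μ * F w := by
    intro w
    have h1 : (fun k => (((ρ a).mulVec w k : ℤ) : ℂ)) = A.mulVec fun k => (w k : ℂ) := by
      funext k
      simp [A, Matrix.mulVec, dotProduct]
    simp only [F]
    rw [h1, Matrix.dotProduct_mulVec, ← Matrix.mulVec_transpose, hAv, smul_dotProduct,
      smul_eq_mul]
  let χ : (⊤ : Subgroup H).lowerCentralSeries c →* Multiplicative ℂ :=
    { toFun := fun x => Multiplicative.ofAdd (F (p x).toAdd)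
      map_one' := by rw [map_one, toAdd_one, hF0, ofAdd_zero]
      map_mul' := fun x y => by rw [map_mul, toAdd_mul, hFadd, ofAdd_add] }
  have hχ : χ ≠ 1 := by
    intro h
    obtain ⟨x, hx⟩ := hp (Multiplicative.ofAdd (Pi.single i 1))
    have h1 : F (p x).toAdd = 0 := by
      have h2 : χ x = 1 := by rw [h]; rfl
      exact ofAdd_eq_one.1 h2
    rw [hx, toAdd_ofAdd] at h1
    apply hi
    rw [← h1]
    simp [F, dotProduct, Pi.single_apply]
  obtain ⟨x, hxS, hx⟩ : ∃ x : (⊤ : Subgroup H).lowerCentralSeries c,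
      (x : H) ∈ ball S L₁ ∧ χ x ≠ 1 := by
    by_contra hcon
    push Not at hcon
    exact hχ (hL₁ S hS χ hcon)
  let f : H → ℂ := fun y =>
    if hy : y ∈ (⊤ : Subgroup H).lowerCentralSeries c then F (p ⟨y, hy⟩).toAdd else 0
  have hf : ∀ y : (⊤ : Subgroup H).lowerCentralSeries c, f y = F (p y).toAdd := fun y =>
    dif_pos y.2
  have hadd : ∀ x ∈ (⊤ : Subgroup H).lowerCentralSeries c,
      ∀ y ∈ (⊤ : Subgroup H).lowerCentralSeries c, f (x * y) = f x + f y := by
    intro x hx y hy
    have h1 := hf (⟨x, hx⟩ * ⟨y, hy⟩)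
    rw [map_mul, toAdd_mul, hFadd, ← hf, ← hf] at h1
    exact h1
  have hconj : ∀ k : ℕ, ∀ y : (⊤ : Subgroup H).lowerCentralSeries c,
      f (MulAut.conjNormal (a ^ k) y : (⊤ : Subgroup H).lowerCentralSeries c) = μ ^ k * f y := by
    intro k
    induction k with
    | zero => intro y; simp
    | succ k ih =>
      intro y
      rw [pow_succ', map_mul, MulAut.mul_apply, hf, hρ, hFA, ← hf, ih, pow_succ', mul_assoc]
  have hμk : 3 ≤ ‖μ ^ (2 * d)‖ := by
    rw [norm_pow]
    have h0 : (0 : ℝ) ≤ 1 / (d : ℝ) := by positivity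
    have h1 := one_add_mul_le_pow (a := 1 / (d : ℝ)) (by linarith) (2 * d)
    have h2 : (1 : ℝ) + ((2 * d : ℕ) : ℝ) * (1 / (d : ℝ)) = 3 := by
      push_cast
      field_simp
      norm_num
    rw [h2] at h1
    exact h1.trans (pow_le_pow_left₀ (by linarith) hμ _)
  have hfree : FreePair ((x : H) * a ^ (2 * d)) (a ^ (2 * d)) :=
    freePair_affine hadd hμk (fun y hy => hconj (2 * d) ⟨y, hy⟩) x.2 (by
      rw [hf]
      intro h0
      apply hx
      exact ofAdd_eq_one.2 h0)
  have hak := pow_mem_ball haS (2 * d)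
  exact hNo _ (mul_mem_ball hxS hak) _ (ball_mono (Nat.le_add_left _ _) hak) hfree

/-- Let `M` be the term `c`, finitely generated by `lcs_fg`; take `p : M → ℤ ^ d` from
`exists_lattice_quotient` for `N = ⁅M, M⁆`. Conjugation gives `ρ : H →* Matrix (Fin d) (Fin d) ℤ`
with `p (h x h⁻¹) = ρ h * p x`. Apply `trace_dichotomy`. -/
theorem vn (hH : NF H) (c : ℕ) :
    FF ⁅(⊤ : Subgroup H).lowerCentralSeries c, (⊤ : Subgroup H).lowerCentralSeries c⁆ := by
  have : Group.FG ((⊤ : Subgroup H).lowerCentralSeries c) :=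
    (Group.fg_iff_subgroup_fg _).2 (lcs_fg hH c)
  obtain ⟨d, p, hp, -, hfin⟩ :=
    exists_lattice_quotient ((⊤ : Subgroup H).lowerCentralSeries c) (commutator _) le_rfl
  obtain ⟨ρ, hρ⟩ := gvn_rho hp hfin
    (MulAut.conjNormal : H →* MulAut ((⊤ : Subgroup H).lowerCentralSeries c))
  rcases trace_dichotomy ρ with ⟨H₁, hH₁, -, hU⟩ | ⟨L₀, hL₀⟩
  · obtain ⟨H₂, hH₂, h₂⟩ := gvn_finite_part hfin
      (MulAut.conjNormal : H →* MulAut ((⊤ : Subgroup H).lowerCentralSeries c)) (fun h x hx => by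
        have h1 : (p x).toAdd = 0 := toAdd_eq_zero.2 hx
        rw [MonoidHom.mem_ker, ← toAdd_eq_zero, hρ, h1, Matrix.mulVec_zero])
    have h1 := gvn_unip hρ hU (Subgroup.lowerCentralSeries_mono c le_top)
    refine ⟨H₁ ⊓ H₂, inferInstance, c + d + 1, ?_⟩
    rw [Subgroup.lowerCentralSeries_succ, Subgroup.commutator_le]
    intro x hx h hh
    obtain ⟨y, hy, rfl⟩ := h1 (Subgroup.lowerCentralSeries_mono (c + d) inf_le_left hx)
    rw [← Subgroup.map_subtype_commutator]
    refine ⟨_, h₂ h hh.2 y hy, ?_⟩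
    simp only [Subgroup.coe_subtype, Subgroup.coe_mul, Subgroup.coe_inv,
      MulAut.conjNormal_apply, commutatorElement_def, mul_inv_rev, inv_inv, mul_assoc]
  · exact (gvn_hyp hH hp hρ hL₀).elim

end Pool.Agent.Lib.MP_9ac97d_al
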