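import Mathlib

/-!
# Short free pairs, the property `NF`, the filter `FF`
-/

set_option autoImplicit false

noncomputable section

namespace Pool.Agent.Lib.MP_9ac97d_al

variable {H : Type} [Group H]

/-- The value of the positive word `l` in the letters `x` (true) and `y` (false). -/
def wd (x y : H) (l : List Bool) : H := (l.map fun b => if b then x else y).prod

/-- Positive words of the same length in `x`, `y` are pairwise distinct. -/
def FreePair (x y : H) : Prop :=
  ∀ l l' : List Bool, l.length = l'.length → wd x y l = wd x y l' → l = l'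

/-- The ball of radius `L` for the word length of `S`. -/
def ball (S : Set H) (L : ℕ) : Set H :=
  {g | ∃ l : List H, l.length ≤ L ∧ (∀ x ∈ l, x ∈ S ∨ x⁻¹ ∈ S) ∧ l.prod = g}

/-- No free pair in the ball of radius `L`. -/
def NoFree (S : Set H) (L : ℕ) : Prop := ∀ x ∈ ball S L, ∀ y ∈ ball S L, ¬ FreePair x y

variable (H) in
/-- For each `L` some finite generating set with property `P` has no `L`-short free pair. -/
def NFP (P : Set H → Prop) : Prop :=
  ∀ L : ℕ, ∃ S : Set H, S.Finite ∧ Subgroup.closure S = ⊤ ∧ NoFree S L ∧ P S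

variable (H) in
/-- For each `L` some finite generating set has no `L`-short free pair. -/
def NF : Prop := NFP H fun _ => True

/-- `K` contains a term of the lower central series of a finite index subgroup. -/
def FF (K : Subgroup H) : Prop :=
  ∃ H' : Subgroup H, H'.FiniteIndex ∧ ∃ c : ℕ, H'.lowerCentralSeries c ≤ K

/-- Every homomorphism from `M` to a free group has abelian image. -/
def SP (M : Subgroup H) : Prop :=
  ∀ (n : ℕ) (u : M →* FreeGroup (Fin n)) (x y : M), Commute (u x) (u y)

/-- Polynomial growth of the balls of `S`. -/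
def PolyGrowth (S : Set H) : Prop :=
  ∃ C d : ℕ, ∀ k : ℕ, (ball S k).Finite ∧ (ball S k).ncard ≤ C * (k + 1) ^ d

/-- A bi-invariant linear order, given by its positive cone. -/
structure BiOrd (G : Type) [Group G] where
  P : Set G
  mul_mem : ∀ x ∈ P, ∀ y ∈ P, x * y ∈ P
  conj_mem : ∀ g, ∀ x ∈ P, g * x * g⁻¹ ∈ P
  tri : ∀ g, g = 1 ∨ g ∈ P ∨ g⁻¹ ∈ P
  one_notMem : (1 : G) ∉ P

namespace BiOrd

variable {G G' : Type} [Group G] [Group G']

/-- The strict order. -/
def lt (o : BiOrd G) (x y : G) : Prop := x⁻¹ * y ∈ o.P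

/-- The automorphism `Φ` preserves the order. -/
def Pres (o : BiOrd G) (Φ : MulAut G) : Prop := ∀ g, Φ g ∈ o.P ↔ g ∈ o.P

/-- Pull-back of an order along an injective homomorphism. -/
def comap (o : BiOrd G) (f : G' →* G) (hf : Function.Injective f) : BiOrd G' where
  P := f ⁻¹' o.P
  mul_mem := fun x hx y hy => by simpa using o.mul_mem _ hx _ hy
  conj_mem := fun g x hx => by simpa using o.conj_mem (f g) _ hx
  tri := fun g => by
    rcases o.tri (f g) with h | h | h
    · exact Or.inl (hf (by simpa using h))
    · exact Or.inr (Or.inl h)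
    · exact Or.inr (Or.inr (by simpa using h))
  one_notMem := by simpa using o.one_notMem

/-- First the real character `χ`, then the order `o`. -/
def lex (χ : G →* Multiplicative ℝ) (o : BiOrd G) : BiOrd G where
  P := {g | 0 < (χ g).toAdd ∨ ((χ g).toAdd = 0 ∧ g ∈ o.P)}
  mul_mem := by
    rintro x (hx | ⟨hx, hx'⟩) y (hy | ⟨hy, hy'⟩)
    · left; rw [map_mul, toAdd_mul]; linarith
    · left; rw [map_mul, toAdd_mul]; linarith
    · left; rw [map_mul, toAdd_mul]; linarith
    · right; exact ⟨by rw [map_mul, toAdd_mul]; linarith, o.mul_mem _ hx' _ hy'⟩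
  conj_mem := by
    intro g x hx
    have h : (χ (g * x * g⁻¹)).toAdd = (χ x).toAdd := by
      simp only [map_mul, map_inv, toAdd_mul, toAdd_inv]; ring
    rcases hx with hx | ⟨hx, hx'⟩
    · left; rwa [h]
    · right; exact ⟨by rwa [h], o.conj_mem _ _ hx'⟩
  tri := by
    intro g
    rcases lt_trichotomy 0 (χ g).toAdd with h | h | h
    · exact Or.inr (Or.inl (Or.inl h))
    · rcases o.tri g with h' | h' | h'
      · exact Or.inl h'
      · exact Or.inr (Or.inl (Or.inr ⟨h.symm, h'⟩))
      · exact Or.inr (Or.inr (Or.inr ⟨by simp [← h], h'⟩))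
    · exact Or.inr (Or.inr (Or.inl (by simpa using h)))
  one_notMem := by
    rintro (h | ⟨-, h⟩)
    · simp at h
    · exact o.one_notMem h

end BiOrd

end Pool.Agent.Lib.MP_9ac97d_al
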