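import Pool.Agent.Lib.MP_9ac97d_al.PPAux3

/-!
# Uniform ping-pong for strongly irreducible semilinear actions
-/

set_option autoImplicit false

noncomputable section

open Pointwise

namespace Pool.Agent.Lib.MP_9ac97d_al

open Filter

theorem pp_contr_mono {E D V : Type} [Group E] [NormedDivisionRing D] [AddCommGroup V]
    [Module D V] {A : SL E D V} {p q : ℕ} {b : Module.Basis (Fin p ⊕ Fin q) D V} {e : E}
    {K K' ε ε' : ℝ} (h : A.Contr b e K ε) (hK : K ≤ K') (hε : ε ≤ ε') : A.Contr b e K' ε' := by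
  obtain ⟨c, hc, ⟨B, h1, h2, h3⟩, h4, h5, h6⟩ := h
  exact ⟨c, hc, ⟨B, h1, h2, fun i j => (h3 i j).trans hK⟩, fun i j => (h4 i j).trans hK,
    fun i j => (h5 i j).trans hε, fun i j => (h6 i j).trans hε⟩

theorem pp_small {ω : Ultrafilter ℕ} {Es : ℕ → ℝ} (hE : ∀ L, 2 ≤ Es L) (p q C : ℕ) {ε ε' : ℕ → ℝ}
    (h0 : ∀ L, 0 ≤ ε L) (h0' : ∀ L, 0 ≤ ε' L)
    (h : ∀ k : ℕ, ∀ᶠ L in (ω : Filter ℕ), ε L * Es L ^ k ≤ 1)
    (h' : ∀ k : ℕ, ∀ᶠ L in (ω : Filter ℕ), ε' L * Es L ^ k ≤ 1) :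
    ∀ᶠ L in (ω : Filter ℕ), SL.Small p q (Es L ^ C) (ε L + ε' L) := by
  obtain ⟨k, hk⟩ := pp_exists_pow hE (2 * (100 * ((p : ℝ) + q + 1) ^ 4))
  filter_upwards [h (k + C * 4), h' (k + C * 4)] with L hL hL'
  have h1 : (1 : ℝ) ≤ Es L := by linarith [hE L]
  refine ⟨one_le_pow₀ h1, add_nonneg (h0 L) (h0' L), ?_⟩
  rw [pow_add, pow_mul] at hL hL'
  have h2 : 0 ≤ (ε L + ε' L) * (Es L ^ C) ^ 4 :=
    mul_nonneg (add_nonneg (h0 L) (h0' L)) (by positivity)
  have h3 := mul_le_mul_of_nonneg_left (hk L) h2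
  nlinarith

theorem pp_points {E H D V : Type} [Group E] [Group H] [NormedDivisionRing D]
    [AddCommGroup V] [Module D V] (A : SL E D V) (π : E →* H) (hsurj : Function.Surjective π)
    (hSI : A.SI) {S : Set H} (hS : Subgroup.closure S = ⊤) {U : Submodule D V} (h0 : U ≠ ⊥)
    (h1 : U ≠ ⊤) (m : ℕ) : ∃ z : Fin (m + 1) → E, (∀ i, π (z i) ∈ ball S m) ∧
      Function.Injective fun i => A.sub (z i) U := by
  let _ := A.subAction
  have hgen : Subgroup.closure (π ⁻¹' (insert 1 S)) = ⊤ := by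
    rw [eq_top_iff]
    intro e _
    have h2 : π e ∈ (Subgroup.closure (π ⁻¹' (insert 1 S))).map π := by
      rw [MonoidHom.map_closure, Set.image_preimage_eq _ hsurj]
      exact Subgroup.closure_mono (Set.subset_insert _ _) (hS ▸ Subgroup.mem_top _)
    obtain ⟨e', he', h3⟩ := h2
    have h4 : e * e'⁻¹ ∈ Subgroup.closure (π ⁻¹' (insert 1 S)) :=
      Subgroup.subset_closure (Or.inl (by simp [h3]))
    simpa using mul_mem h4 he'
  obtain ⟨z, hz, hinj⟩ := exists_orbit_points hgen (p := U) (hSI U h0 h1) m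
  refine ⟨z, fun i => ?_, hinj⟩
  have h2 : π (z i) ∈ ball (insert 1 S) m := by
    rw [← Set.image_preimage_eq (insert 1 S) hsurj, ball_image]
    exact ⟨_, hz i, rfl⟩
  have h3 : insert 1 S ⊆ ball S 1 := by
    rintro x (rfl | hx)
    · exact one_mem_ball _ _
    · exact mem_ball_one (Or.inl hx)
  simpa using ball_subset_of_subset h3 m h2

theorem pp_sqrt (a : ℕ) : ∀ᶠ L in atTop, a < Nat.sqrt L + 1 ∧ a * (Nat.sqrt L + 1) ≤ L := by
  refine eventually_atTop.2 ⟨(a + 1) * (a + 1), fun L hL => ?_⟩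
  have h1 : a + 1 ≤ Nat.sqrt L := Nat.le_sqrt.2 hL
  have h2 := Nat.sqrt_le L
  exact ⟨by omega, by nlinarith⟩

theorem pp_three (L k : ℕ) (hk : k ≤ L + 1) : (1 + 1 / ((L : ℝ) + 1)) ^ k ≤ 3 := by
  have h0 : (0 : ℝ) < (L : ℝ) + 1 := by positivity
  calc (1 + 1 / ((L : ℝ) + 1)) ^ k ≤ Real.exp (1 / ((L : ℝ) + 1)) ^ k := by
        gcongr
        rw [add_comm]; exact Real.add_one_le_exp _
    _ = Real.exp (k * (1 / ((L : ℝ) + 1))) := (Real.exp_nat_mul _ _).symm
    _ ≤ Real.exp 1 := by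
        gcongr
        rw [mul_one_div, div_le_one h0]
        exact_mod_cast hk
    _ ≤ 3 := Real.exp_one_lt_three.le

/-- Reduce near extremal matrices modulo negligible sequences along an ultrafilter, take a non
nilpotent reduction of minimal rank, and play ping-pong in the chart around its attracting
subspace. -/
theorem pp {E H D V : Type} [Group E] [Group H] [NormedDivisionRing D] [CompleteSpace D]
    [AddCommGroup V] [Module D V] [Module.Finite D V] [Nontrivial V] {t : D} (ht0 : t ≠ 0)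
    (ht1 : ‖t‖ < 1) (A : SL E D V) (π : E →* H) (hsurj : Function.Surjective π)
    (hπ : ∀ e, π e = 1 → A.Scal e) {δ : E →* ℝ} (hδ : A.Vol δ) (hSI : A.SI) {r₀ : ℝ}
    (hr : 1 < r₀)
    (h : NFP H fun S => ∀ N : V → ℝ, IsNorm D N →
      ∃ s : E, (π s ∈ S ∨ (π s)⁻¹ ∈ S) ∧ ∃ v, r₀ * δ s * N v < N (A.act s v)) : False := by
  choose S hSf hSg hSn hSP using h
  obtain ⟨C, hC, hlev⟩ := pp_level ht0 ht1 A π hsurj hπ hδ hr
  choose ρ hρ b hup hlow using fun L : ℕ => hlev (S L) (hSf L) (hSP L) (1 / ((L : ℝ) + 1))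
    (by positivity)
  have hρ1 : ∀ L, 1 < ρ L := fun L => hr.trans_le (hρ L)
  have hρ0 : ∀ L, 0 < ρ L := fun L => one_pos.trans (hρ1 L)
  let ω : Ultrafilter ℕ := hyperfilter ℕ
  have hω : (ω : Filter ℕ) ≤ atTop := Nat.hyperfilter_le_atTop
  let Es : ℕ → ℝ := fun L => max (ρ L) 2
  have hE : ∀ L, 2 ≤ Es L := fun L => le_max_right _ _
  let N : ℕ → ℕ := fun L => Nat.sqrt L + 1
  obtain ⟨K, _, red, hR⟩ := exists_res (D := D) (ω := ω) hE
  obtain ⟨f₀, hf₀, hf₀n⟩ := pp_exists_not_nilp (b := b) (S := S) (N := N) (C := 3 * C) hE hR ht0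
    ht1 hsurj hπ hδ hρ0 (by positivity) (fun L e he i j => (hup L _ e he i j).trans (by
      have h1 := pp_three L (N L) (Nat.succ_le_succ (Nat.sqrt_le_self L))
      have h2 := hδ.pos e
      have h3 := hρ0 L
      rw [mul_pow]
      calc C * δ e * (ρ L ^ N L * (1 + 1 / ((L : ℝ) + 1)) ^ N L) ≤
            C * δ e * (ρ L ^ N L * 3) := by gcongr
        _ = _ := by ring)) hlow
  obtain ⟨k₀, hk₀⟩ := pow_unbounded_of_one_lt 2 hr
  have hk0 : k₀ ≠ 0 := by rintro rfl; norm_num at hk₀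
  have hns := pp_not_surj hE hR hδ hρ1 (k₀ := k₀) (fun L => max_le
    (le_self_pow₀ (hρ1 L).le hk0)
    (hk₀.le.trans (pow_le_pow_left₀ (by linarith) (hρ L) _)))
    (fun k => (pp_sqrt k).filter_mono hω |>.mono fun L hL => hL.1) hf₀
  set 𝒮 := ppS ω Es red A b π S N with h𝒮
  have hsemi : 𝒮 ≤ semi K _ := fun f hf => hf.1
  obtain ⟨P, ⟨hP, hPn⟩, hmin⟩ := (measure (erank K)).wf.has_min {f | f ∈ 𝒮 ∧ ¬ IsNilpotent f}
    ⟨f₀, ppT_sub hf₀, hf₀n⟩
  have hmin' : ∀ y ∈ 𝒮, ¬ IsNilpotent y → erank K P ≤ erank K y :=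
    fun y hy hyn => not_lt.1 (hmin y ⟨hy, hyn⟩)
  have hPs := hsemi hP
  have hPP : erank K (P * P) = erank K P :=
    le_antisymm (erank_mul_le_left hPs hPs) (hmin' _ (mul_mem hP hP) fun hn =>
      hPn (IsNilpotent.of_pow (m := 2) (by rwa [pow_two])))
  set m := Module.finrank K (Fin (Module.finrank D V) → K) with hm
  have hlt : erank K P < m := by
    refine (hmin' _ (ppT_sub hf₀) hf₀n).trans_lt (lt_of_le_of_ne (Submodule.finrank_le _) ?_)
    intro e
    exact hns ((bijective_iff_erank hf₀.1).2 e).2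
  have hpos : 0 < erank K P := by
    rw [Nat.pos_iff_ne_zero]
    intro e
    apply hPn
    have h1 : Submodule.span K (Set.range P) = ⊥ := Submodule.finrank_eq_zero.1 e
    have h2 : P = 0 := AddMonoidHom.ext fun y => Submodule.span_eq_bot.1 h1 _ ⟨y, rfl⟩
    rw [h2]; exact IsNilpotent.zero
  obtain ⟨B, hB, -⟩ := exists_fitting_basis hPs hPP (q := m - erank K P) rfl (by omega)
  obtain ⟨b', hb1, hb2⟩ := pp_change hE hR b B
  obtain ⟨-, a, g, c, hrep, hg⟩ := id hP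
  have hcontr : ∀ {y : AddMonoid.End (Fin (Module.finrank D V) → K)} {g : ℕ → E} {c : ℕ → D},
      y ∈ semi K _ → erank K (P * y * P) = erank K P → (∀ L, c L ≠ 0) →
      Rep ω Es red A b g c (P * y) → _ := fun hy hrk hc hrp =>
    pp_contr hE hR B hb1 hb2 hc hrp (fun v => hB ▸ Submodule.subset_span ⟨_, rfl⟩)
      (pp_span_of_rank hPs hy hrk hB)
  obtain ⟨C₀, ε, hε0, hε, hgc⟩ := hcontr (one_mem _) (by rwa [mul_one]) (fun L => (hg L).2)
    (by rwa [mul_one])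
  have hz : ∀ L, ∃ z : Fin (m + 1) → E, (∀ i, π (z i) ∈ ball (S L) m) ∧
      (SL.Small (erank K P) (m - erank K P) (Es L ^ C₀) (ε L) →
        A.Contr (b' L) (g L) (Es L ^ C₀) (ε L) → ∀ i j, i ≠ j → ∀ K' ε', Es L ^ C₀ ≤ K' →
        ε L ≤ ε' → SL.Small (erank K P) (m - erank K P) K' ε' →
        A.Contr (b' L) (g L * (z i)⁻¹ * z j) K' ε' →
        FreePair (π (g L)) (π (g L * (z i)⁻¹ * z j))) := by
    intro L
    by_cases h1 : SL.Small (erank K P) (m - erank K P) (Es L ^ C₀) (ε L) ∧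
        A.Contr (b' L) (g L) (Es L ^ C₀) (ε L)
    · obtain ⟨U, hU0, hU1, hU, hfree⟩ := A.chart (b' L) hpos (by omega) π hπ h1.1 h1.2
      obtain ⟨z, hz, hinj⟩ := pp_points A π hsurj hSI (hSg L) hU0 hU1 m
      refine ⟨z, hz, fun _ _ i j hij K' ε' hK hε' hs hc => hfree _ K' ε' hK hε' hs hc fun e => ?_⟩
      apply hij
      apply hinj
      have h2 : g L * (z i)⁻¹ * z j ∈ A.stab U := e
      have h3 : g L ∈ A.stab U := hU
      have h4 : (z i)⁻¹ * z j ∈ A.stab U := by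
        simpa [mul_assoc] using mul_mem (inv_mem h3) h2
      have h5 : A.sub ((z i)⁻¹ * z j) U = U := h4
      show A.sub (z i) U = A.sub (z j) U
      conv_lhs => rw [← h5, ← A.sub_mul, mul_inv_cancel_left]
    · exact ⟨fun _ => 1, fun _ => by rw [map_one]; exact one_mem_ball _ _,
        fun h2 h3 => absurd ⟨h2, h3⟩ h1⟩
  choose z hzb hzf using hz
  choose f f' cz cz' hf hf' hcz hcz' hrz hrz' hff hff' using fun i : Fin (m + 1) =>
    pp_unit (A := A) (b := b) (π := π) (S := S) (C := C * 2 ^ m) (m := m) (k := m) hE hR ht0 ht1 hδ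
      (by positivity) (fun L e he i j => (hup L _ e he i j).trans (by
        have h2 := hδ.pos e
        have h3 := hρ0 L
        have h4 : ρ L * (1 + 1 / ((L : ℝ) + 1)) ≤ 2 * Es L := by
          have h5 : 1 / ((L : ℝ) + 1) ≤ 1 := by
            rw [div_le_one (by positivity)]; linarith [Nat.cast_nonneg (α := ℝ) L]
          have h6 : ρ L ≤ Es L := le_max_left _ _
          nlinarith
        calc C * δ e * (ρ L * (1 + 1 / ((L : ℝ) + 1))) ^ m ≤ C * δ e * (2 * Es L) ^ m := by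
              gcongr
          _ = _ := by rw [mul_pow]; ring)) (fun L => z L i) fun L => hzb L i
  have hball : ∀ L i, π (z L i) ∈ ball (S L) (m * N L) := fun L i =>
    ball_mono (Nat.le_mul_of_pos_right _ (Nat.succ_pos _)) (hzb L i)
  have hball' : ∀ L i, π (z L i)⁻¹ ∈ ball (S L) (m * N L) := fun L i => by
    rw [map_inv]; exact inv_mem_ball (hball L i)
  obtain ⟨i, j, hij, hrk⟩ := sg hsemi hP hPn hmin' f f'
    (fun i => ⟨hf i, m, _, _, hrz i, fun L => ⟨hball L i, hcz i L⟩⟩)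
    (fun i => ⟨hf' i, m, _, _, hrz' i, fun L => ⟨hball' L i, hcz' i L⟩⟩) hff hff'
  obtain ⟨C₁, ε', hε0', hε', hhc⟩ := hcontr (y := f' i * f j) (mul_mem (hf' i) (hf j))
    (by rwa [← mul_assoc])
    (fun L => mul_ne_zero (mul_ne_zero (hg L).2 ((map_ne_zero _).2 (hcz' i L)))
      ((map_ne_zero _).2 (hcz j L)))
    (by rw [← mul_assoc]; exact (hrep.mul (hrz' i)).mul (hrz j))
  have hs₀ := pp_small hE (erank K P) (m - erank K P) C₀ hε0 (ε' := fun _ => 0) (fun _ => le_rfl)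
    hε fun k => Eventually.of_forall fun L => by simp
  have hs₁ := pp_small hE (erank K P) (m - erank K P) (C₀ + C₁) hε0 hε0' hε hε'
  obtain ⟨L, ⟨⟨⟨h1, h2⟩, h3⟩, h4⟩, -, h5⟩ := ((((hgc.and hhc).and hs₀).and hs₁).and
    ((pp_sqrt (a + m + m)).filter_mono hω)).exists
  have h1E : (1 : ℝ) ≤ Es L := by linarith [hE L]
  rw [add_zero] at h3
  refine hSn L _ (ball_mono ?_ (hg L).1) _ (ball_mono h5 ?_)
    (hzf L h3 h1 i j hij _ _ (pow_le_pow_right₀ h1E (Nat.le_add_right _ _))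
      (le_add_of_nonneg_right (hε0' L)) h4
      (pp_contr_mono h2 (pow_le_pow_right₀ h1E (Nat.le_add_left _ _))
        (le_add_of_nonneg_left (hε0 L))))
  · exact (Nat.mul_le_mul_right _ (by omega)).trans h5
  · rw [map_mul, map_mul, add_mul, add_mul]
    exact mul_mem_ball (mul_mem_ball (hg L).1 (hball' L i)) (hball L j)

end Pool.Agent.Lib.MP_9ac97d_al
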