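import Pool.Agent.Lib.MP_9ac97d_al.Deg
import Pool.Agent.Lib.MP_9ac97d_al.PP

/-!
# Commutators act with bounded orbits over a discretely valued skew field (task LZero)
-/

set_option autoImplicit false

noncomputable section

open Pointwise

namespace Pool.Agent.Lib.MP_9ac97d_al

variable {E D V : Type} [Group E] [NormedDivisionRing D] [IsUltrametricDist D] [AddCommGroup V]
  [Module D V] [Module.Finite D V]

/-- The additive subgroup generated by a ball. -/
def lzeroL (N : V → ℝ) (x : ℝ) : AddSubgroup V := AddSubgroup.closure {v | N v ≤ Real.exp x}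

omit [Module D V] in
theorem lzero_map {N : V → ℝ} (T : V →+ V) {y : ℝ} (h : ∀ v, N (T v) ≤ Real.exp y * N v) {x : ℝ}
    {v : V} (hv : v ∈ lzeroL N x) : T v ∈ lzeroL N (x + y) := by
  induction hv using AddSubgroup.closure_induction with
  | mem w hw =>
    refine AddSubgroup.subset_closure ((h w).trans ?_)
    rw [Real.exp_add, mul_comm]
    exact mul_le_mul_of_nonneg_right hw (Real.exp_pos y).le
  | zero => rw [map_zero]; exact zero_mem _
  | add a b _ _ ha hb => rw [map_add]; exact add_mem ha hb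
  | neg a _ ha => rw [map_neg]; exact neg_mem ha

omit [Module D V] in
theorem lzero_mono (N : V → ℝ) {x y : ℝ} (h : x ≤ y) : lzeroL N x ≤ lzeroL N y :=
  AddSubgroup.closure_mono fun _ hv => le_trans hv (Real.exp_le_exp.2 h)

omit [IsUltrametricDist D] [Module.Finite D V] in
theorem lzero_smul {N : V → ℝ} (hN : IsNorm D N) {d : D} {k : ℝ} (hd : ‖d‖ = Real.exp k) {x : ℝ}
    {v : V} (hv : v ∈ lzeroL N x) : d • v ∈ lzeroL N (x + k) :=
  lzero_map (DistribSMul.toAddMonoidHom V d) (fun w => by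
    show N (d • w) ≤ _
    rw [hN.smul, hd]) hv

theorem lzero_bdd {N : V → ℝ} (hN : IsNorm D N) (f : V →ₗ[D] D) :
    ∃ C : ℝ, 0 < C ∧ ∀ x, ∀ v ∈ lzeroL N x, ‖f v‖ ≤ C * Real.exp x := by
  obtain ⟨C, hC⟩ := hN.bdd f
  refine ⟨|C| + 1, by positivity, fun x v hv => ?_⟩
  induction hv using AddSubgroup.closure_induction with
  | mem w hw =>
    refine (hC w).trans ?_
    exact mul_le_mul (by linarith [le_abs_self C]) hw (hN.nonneg w) (by positivity)
  | zero => rw [map_zero, norm_zero]; positivity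
  | add a b _ _ ha hb =>
    rw [map_add]
    exact (IsUltrametricDist.norm_add_le_max _ _).trans (max_le ha hb)
  | neg a _ ha => rwa [map_neg, norm_neg]

omit [IsUltrametricDist D] in
/-- There is a gap in the filtration. -/
theorem lzero_gap (hD : Disc D) {N : V → ℝ} (hN : IsNorm D N) {m' : ℕ} {ε : ℝ} (hε : 0 < ε)
    (hq : (2 * (Module.finrank D V + 1) : ℝ) * m' * ε = 1) :
    ∃ i : ℕ, ∀ k : ℤ, lzeroL N ((i + 2 * (Module.finrank D V + 1) * k + 1 : ℤ) * ε) ≤
      lzeroL N ((i + 2 * (Module.finrank D V + 1) * k : ℤ) * ε) := by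
  classical
  by_contra hc
  push Not at hc
  set m := Module.finrank D V with hm
  have h1 : ∀ i : Fin (m + 1), ∃ (k : ℤ) (v : V),
      v ∈ lzeroL N ((((i : ℕ) : ℤ) + 2 * (m + 1) * k + 1 : ℤ) * ε) ∧
      v ∉ lzeroL N ((((i : ℕ) : ℤ) + 2 * (m + 1) * k : ℤ) * ε) := by
    intro i
    obtain ⟨k, hk⟩ := hc i
    obtain ⟨v, h1, h2⟩ := SetLike.not_le_iff_exists.1 hk
    exact ⟨k, v, h1, h2⟩
  choose k v hv1 hv2 using h1
  have h2 : ¬ LinearIndependent D v := fun h => by
    have := h.fintype_card_le_finrank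
    simp only [Fintype.card_fin] at this
    omega
  obtain ⟨g, hg, i1, hi1⟩ := Fintype.not_linearIndependent_iff.1 h2
  have h3 : ∀ i, ∃ n : ℤ, g i ≠ 0 → ‖g i‖ = Real.exp n := by
    intro i
    by_cases h : g i = 0
    · exact ⟨0, fun h' => absurd h h'⟩
    · obtain ⟨n, hn⟩ := hD.int _ h
      exact ⟨n, fun _ => hn⟩
  choose n hn using h3
  set z : Fin (m + 1) → ℤ := fun i => ((i : ℕ) : ℤ) + 2 * (m + 1) * (k i + m' * n i) with hz
  obtain ⟨i0, hi0, hmax⟩ := Finset.exists_max_image (Finset.univ.filter fun i => g i ≠ 0) z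
    ⟨i1, by simpa using hi1⟩
  have hg0 : g i0 ≠ 0 := by simpa using hi0
  have hzr : ∀ i, (z i : ℝ) * ε = (((i : ℕ) : ℤ) + 2 * (m + 1) * k i : ℤ) * ε + n i := by
    intro i
    simp only [hz]
    push_cast
    linear_combination (n i : ℝ) * hq
  have h4 : ∀ j, j ≠ i0 → g j • v j ∈ lzeroL N (z i0 * ε) := by
    intro j hj
    by_cases hgj : g j = 0
    · rw [hgj, zero_smul]; exact zero_mem _
    · have a1 : z j ≤ z i0 := hmax j (by simpa using hgj)
      have a2 : z j ≠ z i0 := by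
        intro he
        apply hj
        apply Fin.ext
        have b1 := j.2
        have b2 := i0.2
        simp only [hz] at he
        have b3 : ((j : ℕ) : ℤ) - (i0 : ℕ) =
            2 * (m + 1) * ((k i0 + m' * n i0) - (k j + m' * n j)) := by linear_combination he
        generalize (k i0 + m' * n i0) - (k j + m' * n j) = w at b3
        rcases lt_trichotomy w 0 with hw | hw | hw
        · nlinarith
        · rw [hw] at b3; omega
        · nlinarith
      have a3 : (z j : ℝ) + 1 ≤ z i0 := by exact_mod_cast (show z j + 1 ≤ z i0 by omega)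
      refine lzero_mono N ?_ (lzero_smul hN (hn j hgj) (hv1 j))
      have a4 := hzr j
      have a5 := mul_le_mul_of_nonneg_right a3 hε.le
      push_cast at a4 ⊢
      linarith
  have h5 : g i0 • v i0 ∈ lzeroL N (z i0 * ε) := by
    rw [← Finset.add_sum_erase _ _ (Finset.mem_univ i0)] at hg
    rw [eq_neg_of_add_eq_zero_left hg]
    exact neg_mem (sum_mem fun j hj => h4 j (Finset.ne_of_mem_erase hj))
  have h6 := lzero_smul hN (d := (g i0)⁻¹) (k := -(n i0 : ℝ))
    (by rw [norm_inv, hn i0 hg0, Real.exp_neg]) h5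
  rw [inv_smul_smul₀ hg0, hzr, add_neg_cancel_right] at h6
  exact hv2 i0 h6

theorem lzero_le_sInf {A : Set ℝ} (hA : A.Nonempty) {c κ : ℝ} (hκ : 0 < κ)
    (h : ∀ x ∈ A, c ≤ κ * x) : c ≤ κ * sInf A := by
  rw [← div_le_iff₀' hκ]
  exact le_csInf hA fun x hx => (div_le_iff₀' hκ).2 (h x hx)

/-- Rounding. First replace `N` by the ultrametric norm `v ↦ inf max (N (v i))` over finite
decompositions `v = ∑ v i`, which satisfies the same bounds. The values of `log N` on nonzero
vectors lie in at most `m` cosets of `ℤ` (vectors with values in different cosets are linearly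
independent), hence modulo `ℤ / m'` there is a gap of length at least `1 / (m m')`. Let `f` be the
monotone step function commuting with the translation by `1 / m'`, with its jump placed at the gap;
`N' = exp ∘ f ∘ log N` is a norm with `N' (s v) ≤ δ s * N' v`. -/
theorem exists_norm_round (hD : Disc D) (A : SL E D V) {δ : E →* ℝ} {m' : ℕ} (hm : 0 < m')
    (hδ : ∀ e, ∃ k : ℤ, δ e = Real.exp (k / m')) {S : Set E} {N : V → ℝ} (hN : IsNorm D N)
    (h : ∀ s ∈ S, ∀ v, N (A.act s v) ≤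
      Real.exp (1 / (2 * (Module.finrank D V + 1) * m')) * δ s * N v) :
    ∃ N' : V → ℝ, IsNorm D N' ∧ ∀ s ∈ S, ∀ v, N' (A.act s v) ≤ δ s * N' v := by
  set ε : ℝ := 1 / (2 * (Module.finrank D V + 1) * m') with hε
  have hm' : (0 : ℝ) < m' := by exact_mod_cast hm
  have hε0 : 0 < ε := by positivity
  have hq : (2 * (Module.finrank D V + 1) : ℝ) * m' * ε = 1 := by rw [hε]; field_simp
  obtain ⟨i, hi⟩ := lzero_gap hD hN hε0 hq
  have hx : ∀ k : ℤ, ((i + 2 * (Module.finrank D V + 1) * k : ℤ) : ℝ) * ε = i * ε + k / m' := by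
    intro k
    push_cast
    have : (k : ℝ) / m' = 2 * (Module.finrank D V + 1) * k * ε := by rw [hε]; field_simp
    rw [this]; ring
  have hi' : ∀ k : ℤ, lzeroL N (i * ε + k / m' + ε) ≤ lzeroL N (i * ε + k / m') := by
    intro k
    have := hi k
    rw [hx k, Int.cast_add, add_mul, hx k, Int.cast_one, one_mul] at this
    exact this
  set B : V → Set ℝ := fun v => {x | ∃ k : ℤ, v ∈ lzeroL N (i * ε + k / m') ∧ x = Real.exp (k / m')}
    with hB
  have hne : ∀ v, (B v).Nonempty := by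
    intro v
    refine ⟨_, ⌈N v⌉₊ * m', AddSubgroup.subset_closure ?_, rfl⟩
    show N v ≤ _
    refine le_trans ?_ (Real.add_one_le_exp _)
    push_cast
    rw [mul_div_cancel_right₀ _ hm'.ne']
    have := Nat.le_ceil (N v)
    have : 0 ≤ (i : ℝ) * ε := by positivity
    linarith
  have hbd : ∀ v, BddBelow (B v) := fun v => ⟨0, by
    rintro _ ⟨k, -, rfl⟩
    exact (Real.exp_pos _).le⟩
  have hsh : ∀ (v w : V) (j : ℤ), (∀ k : ℤ, v ∈ lzeroL N (i * ε + k / m') →
      w ∈ lzeroL N (i * ε + (k + j : ℤ) / m')) → sInf (B w) ≤ Real.exp (j / m') * sInf (B v) := by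
    intro v w j hj
    refine lzero_le_sInf (hne v) (Real.exp_pos _) ?_
    rintro _ ⟨k, hk, rfl⟩
    refine (csInf_le (hbd w) ⟨k + j, hj k hk, rfl⟩).trans (le_of_eq ?_)
    rw [← Real.exp_add]
    congr 1
    push_cast
    ring
  have hsm : ∀ d : D, d ≠ 0 → ∀ v, sInf (B (d • v)) ≤ ‖d‖ * sInf (B v) := by
    intro d hd v
    obtain ⟨n, hn⟩ := hD.int d hd
    have e : ((n * m' : ℤ) : ℝ) / m' = n := by
      push_cast; rw [mul_div_cancel_right₀ _ hm'.ne']
    have := hsh v (d • v) (n * m') fun k hk => by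
      have a := lzero_smul hN hn hk
      rwa [Int.cast_add, add_div, e, ← add_assoc]
    rwa [e, ← hn] at this
  have hnn : ∀ v, 0 ≤ sInf (B v) := fun v => le_csInf (hne v) (by
    rintro _ ⟨k, -, rfl⟩
    exact (Real.exp_pos _).le)
  refine ⟨fun v => sInf (B v), ⟨fun v w => ?_, fun d v => ?_, fun f => ?_⟩, fun s hs v => ?_⟩
  · rw [← sub_le_iff_le_add]
    refine le_csInf (hne v) ?_
    rintro _ ⟨k, hk, rfl⟩
    rw [sub_le_comm]
    refine le_csInf (hne w) ?_
    rintro _ ⟨k', hk', rfl⟩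
    rw [sub_le_iff_le_add]
    rcases le_total k k' with hkk | hkk
    · have a : (k : ℝ) ≤ k' := by exact_mod_cast hkk
      refine (csInf_le (hbd _) ⟨k', add_mem (lzero_mono N (by gcongr) hk) hk', rfl⟩).trans ?_
      linarith [Real.exp_pos (k / m' : ℝ)]
    · have a : (k' : ℝ) ≤ k := by exact_mod_cast hkk
      refine (csInf_le (hbd _) ⟨k, add_mem hk (lzero_mono N (by gcongr) hk'), rfl⟩).trans ?_
      linarith [Real.exp_pos (k' / m' : ℝ)]
  · by_cases hd : d = 0
    · obtain ⟨t, ht⟩ := hD.unif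
      have ht0 : t ≠ 0 := by
        rw [← norm_pos_iff, ht]; exact Real.exp_pos _
      have a1 := hsm t ht0 0
      rw [smul_zero, ht] at a1
      have a2 : Real.exp (-1) < 1 := Real.exp_lt_one_iff.2 (by norm_num)
      rw [hd, zero_smul, norm_zero, zero_mul]
      nlinarith [hnn 0]
    · refine le_antisymm (hsm d hd v) ?_
      have a1 := hsm d⁻¹ (inv_ne_zero hd) (d • v)
      rw [inv_smul_smul₀ hd, norm_inv] at a1
      have a2 : 0 < ‖d‖ := norm_pos_iff.2 hd
      calc ‖d‖ * sInf (B v) ≤ ‖d‖ * (‖d‖⁻¹ * sInf (B (d • v))) := by gcongr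
        _ = _ := by field_simp
  · obtain ⟨C, hC0, hC⟩ := lzero_bdd hN f
    refine ⟨C * Real.exp (i * ε), fun v => lzero_le_sInf (hne v) (by positivity) ?_⟩
    rintro _ ⟨k, hk, rfl⟩
    have := hC _ v hk
    rwa [Real.exp_add, ← mul_assoc] at this
  · obtain ⟨j, hj⟩ := hδ s
    rw [hj]
    refine hsh v _ j fun k hk => hi' _ ?_
    have a := lzero_map (A.act s) (y := ε + j / m') (fun w => by
      rw [Real.exp_add, ← hj]; exact h s hs w) hk
    have e : i * ε + (k : ℝ) / m' + (ε + j / m') = i * ε + ((k + j : ℤ) : ℝ) / m' + ε := by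
      push_cast; ring
    rw [e] at a
    exact a

/-- The strongly irreducible case: by `pp` and `exists_norm_round` some norm is multiplied by
`δ e` under every `e`, and `δ` is trivial on commutators. -/
theorem bdd_of_si [CompleteSpace D] (hD : Disc D) {H : Type} [Group H] (A : SL E D V)
    (π : E →* H) (hsurj : Function.Surjective π) (hπ : ∀ e, π e = 1 → A.Scal e) (hH : NF H)
    (hSI : A.SI) : A.Bdd ⁅(⊤ : Subgroup E), ⊤⁆ := by
  rcases subsingleton_or_nontrivial V with hV | hV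
  · intro f v
    exact ⟨0, fun k _ => by rw [Subsingleton.elim (A.act k v) 0, map_zero, norm_zero]⟩
  obtain ⟨δ, m', hm, hvol, hδ⟩ := exists_vol_disc hD A
  obtain ⟨t, ht⟩ := hD.unif
  have ht0 : t ≠ 0 := by
    rw [← norm_pos_iff, ht]; exact Real.exp_pos _
  have ht1 : ‖t‖ < 1 := by rw [ht]; exact Real.exp_lt_one_iff.2 (by norm_num)
  have hm' : (0 : ℝ) < m' := by exact_mod_cast hm
  have hr : 1 < Real.exp (1 / (2 * (Module.finrank D V + 1) * m')) :=
    Real.one_lt_exp_iff.2 (by positivity)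
  have h1 := fun h => pp ht0 ht1 A π hsurj hπ hvol hSI hr h
  have h2 : ∃ S : Set H, Subgroup.closure S = ⊤ ∧ ∃ N : V → ℝ, IsNorm D N ∧
      ∀ s ∈ {s : E | π s ∈ S ∨ (π s)⁻¹ ∈ S}, ∀ v, N (A.act s v) ≤
        Real.exp (1 / (2 * (Module.finrank D V + 1) * m')) * δ s * N v := by
    by_contra hc
    refine h1 fun L => ?_
    obtain ⟨S, hS1, hS2, hS3, -⟩ := hH L
    refine ⟨S, hS1, hS2, hS3, fun N hN => ?_⟩
    by_contra hc'
    refine hc ⟨S, hS2, N, hN, fun s hs v => ?_⟩
    by_contra hc''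
    exact hc' ⟨s, hs, v, not_le.1 hc''⟩
  obtain ⟨S, hS, N, hN, hb⟩ := h2
  obtain ⟨N', hN', hb'⟩ := exists_norm_round hD A hm hδ hN hb
  have hmul : ∀ a b : E, (∀ v, N' (A.act a v) ≤ δ a * N' v) → (∀ v, N' (A.act b v) ≤ δ b * N' v) →
      ∀ v, N' (A.act (a * b) v) ≤ δ (a * b) * N' v := by
    intro a b ha hb v
    rw [map_mul, map_mul, mul_assoc]
    exact (ha _).trans (mul_le_mul_of_nonneg_left (hb v) (hvol.pos a).le)
  have hker : ∀ e : E, π e = 1 → ∀ v, N' (A.act e v) ≤ δ e * N' v := by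
    intro e he v
    obtain ⟨d, hd⟩ := hπ e he
    rw [hd, hN'.smul, hvol.scal e d hd]
  have hall : ∀ g ∈ Subgroup.closure S, ∀ e : E, π e = g →
      (∀ v, N' (A.act e v) ≤ δ e * N' v) ∧ ∀ v, N' (A.act e⁻¹ v) ≤ δ e⁻¹ * N' v := by
    intro g hg
    induction hg using Subgroup.closure_induction with
    | mem g hg =>
      intro e he
      exact ⟨hb' e (Or.inl (he ▸ hg)), hb' e⁻¹ (Or.inr (by rw [map_inv, inv_inv, he]; exact hg))⟩
    | one =>
      intro e he
      exact ⟨hker e he, hker e⁻¹ (by rw [map_inv, he, inv_one])⟩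
    | mul a b _ _ ha hb =>
      intro e he
      obtain ⟨e1, rfl⟩ := hsurj a
      obtain ⟨a1, a2⟩ := ha e1 rfl
      obtain ⟨b1, b2⟩ := hb (e1⁻¹ * e) (by rw [map_mul, map_inv, he, inv_mul_cancel_left])
      have c1 := hmul _ _ a1 b1
      have c2 := hmul _ _ b2 a2
      rw [mul_inv_cancel_left] at c1
      rw [mul_inv_rev, inv_inv, mul_inv_cancel_right] at c2
      exact ⟨c1, c2⟩
    | inv a _ ha =>
      intro e he
      obtain ⟨a1, a2⟩ := ha e⁻¹ (by rw [map_inv, he, inv_inv])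
      rw [inv_inv] at a2
      exact ⟨a2, a1⟩
  have hcomm : ⁅(⊤ : Subgroup E), ⊤⁆ ≤ δ.ker := by
    refine Subgroup.commutator_le.2 fun a _ b _ => ?_
    rw [MonoidHom.mem_ker, commutatorElement_def, map_mul, map_mul, map_mul]
    calc δ a * δ b * δ a⁻¹ * δ b⁻¹ = δ a * δ a⁻¹ * (δ b * δ b⁻¹) := by ring
      _ = 1 := by rw [← map_mul, ← map_mul, mul_inv_cancel, mul_inv_cancel, map_one, mul_one]
  intro f v
  obtain ⟨C, hC⟩ := hN'.bdd f
  refine ⟨|C| * N' v, fun k hk => (hC _).trans ?_⟩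
  have a := (hall (π k) (hS ▸ Subgroup.mem_top _) k rfl).1 v
  rw [MonoidHom.mem_ker.1 (hcomm hk), one_mul] at a
  exact mul_le_mul (le_abs_self C) a (hN'.nonneg _) (abs_nonneg C)

end Pool.Agent.Lib.MP_9ac97d_al
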