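import Pool.Agent.Lib.MP_9ac97d_al.LZero

/-!
# Bounded orbits of commutators, general case (task LZero2)
-/

set_option autoImplicit false

noncomputable section

open Pointwise

namespace Pool.Agent.Lib.MP_9ac97d_al

variable {E D V : Type} [Group E] [NormedDivisionRing D] [IsUltrametricDist D] [AddCommGroup V]
  [Module D V] [Module.Finite D V]

omit [IsUltrametricDist D] [Module.Finite D V] in
theorem lzero2_act_mul (A : SL E D V) (e e' : E) (v : V) :
    A.act (e * e') v = A.act e (A.act e' v) := by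
  rw [map_mul]; rfl

omit [IsUltrametricDist D] [Module.Finite D V] in
theorem lzero2_act_mem (A : SL E D V) {U : Submodule D V} {e : E} (he : e ∈ A.stab U) {v : V}
    (hv : v ∈ U) : A.act e v ∈ U := by
  have h : A.sub e U = U := he
  rw [← h]
  exact ⟨v, hv, rfl⟩

/-- A finitely generated group that is bounded on `U₀` and on `U₁ / U₀` is bounded on `U₁`: with a
projection `p` onto `U₀`, the seminorm `sup ‖f (k (p v))‖` over the group stays bounded along words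
in the generators, by the ultrametric inequality. -/
theorem bdd_step (A : SL E D V) {K : Subgroup E} (hK : K.FG) {U₀ U₁ : Submodule D V}
    (hle : U₀ ≤ U₁) (h₀ : K ≤ A.stab U₀) (h₁ : K ≤ A.stab U₁)
    (hb₀ : ∀ (f : V →ₗ[D] D), ∀ v ∈ U₀, ∃ C : ℝ, ∀ k ∈ K, ‖f (A.act k v)‖ ≤ C)
    (hb₁ : ∀ (f : V →ₗ[D] D), (∀ u ∈ U₀, f u = 0) → ∀ v ∈ U₁,
      ∃ C : ℝ, ∀ k ∈ K, ‖f (A.act k v)‖ ≤ C) :
    ∀ (f : V →ₗ[D] D), ∀ v ∈ U₁, ∃ C : ℝ, ∀ k ∈ K, ‖f (A.act k v)‖ ≤ C := by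
  classical
  intro f v hv
  have _hle := hle
  have _h₁ := h₁
  obtain ⟨W, hW⟩ := U₀.exists_isCompl
  obtain ⟨p, hp1, hp2⟩ : ∃ p : V →ₗ[D] V, (∀ x, p x ∈ U₀) ∧ ∀ x ∈ U₀, p x = x := by
    refine ⟨U₀.subtype.comp (U₀.projectionOnto W hW), fun x => ?_, fun x hx => ?_⟩
    · exact (U₀.projectionOnto W hW x).2
    · exact congrArg Subtype.val (Submodule.projectionOnto_apply_left hW ⟨x, hx⟩)
  set q : V →ₗ[D] V := LinearMap.id - p with hq
  have hq0 : ∀ u ∈ U₀, q u = 0 := fun u hu => by simp [hq, hp2 u hu]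
  have hpq : ∀ x, x = p x + q x := fun x => by simp [hq]
  let b := Module.finBasis D V
  obtain ⟨S, hS⟩ := hK
  -- a bound for the coordinates of `q (k v)`
  have h1 : ∀ i, ∃ C : ℝ, ∀ k ∈ K, ‖b.repr (q (A.act k v)) i‖ ≤ C := fun i => by
    obtain ⟨C, hC⟩ := hb₁ ((b.coord i).comp q) (fun u hu => by simp [hq0 u hu]) v hv
    exact ⟨C, fun k hk => by simpa using hC k hk⟩
  choose C₁ hC₁ using h1
  obtain ⟨C', hC'0, hC'⟩ : ∃ C' : ℝ, 0 ≤ C' ∧ ∀ i, C₁ i ≤ C' :=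
    ⟨∑ i, |C₁ i|, Finset.sum_nonneg fun i _ => abs_nonneg _, fun i =>
      (le_abs_self _).trans (Finset.single_le_sum (f := fun i => |C₁ i|)
        (fun j _ => abs_nonneg _) (Finset.mem_univ i))⟩
  -- a bound for the off diagonal blocks of the generators
  have h2 : ∀ (s : E) (i : Fin (Module.finrank D V)),
      ∃ C : ℝ, ∀ k ∈ K, ‖f (A.act k (p (A.act s (b i))))‖ ≤ C := fun s i => hb₀ f _ (hp1 _)
  choose C₂ hC₂ using h2
  obtain ⟨lam, hlam0, hlam⟩ : ∃ lam : ℝ, 0 ≤ lam ∧ ∀ s ∈ S, ∀ i, C₂ s i ≤ lam ∧ C₂ s⁻¹ i ≤ lam := by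
    refine ⟨∑ s ∈ S, ∑ i, (|C₂ s i| + |C₂ s⁻¹ i|), by positivity, fun s hs i => ?_⟩
    have e1 : |C₂ s i| + |C₂ s⁻¹ i| ≤ ∑ i, (|C₂ s i| + |C₂ s⁻¹ i|) :=
      Finset.single_le_sum (f := fun i => |C₂ s i| + |C₂ s⁻¹ i|)
        (fun j _ => by positivity) (Finset.mem_univ i)
    have e2 : ∑ i, (|C₂ s i| + |C₂ s⁻¹ i|) ≤ ∑ s ∈ S, ∑ i, (|C₂ s i| + |C₂ s⁻¹ i|) :=
      Finset.single_le_sum (f := fun s => ∑ i, (|C₂ s i| + |C₂ s⁻¹ i|))
        (fun j _ => by positivity) hs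
    have e3 := le_abs_self (C₂ s i)
    have e4 := le_abs_self (C₂ s⁻¹ i)
    have e5 := abs_nonneg (C₂ s i)
    have e6 := abs_nonneg (C₂ s⁻¹ i)
    constructor <;> linarith
  obtain ⟨C₀, hC₀⟩ := hb₀ f (p v) (hp1 v)
  -- the inductive step
  have step : ∀ s ∈ K, (∀ i, C₂ s i ≤ lam) → ∀ k' ∈ K,
      (∀ k ∈ K, ‖f (A.act k (p (A.act k' v)))‖ ≤ max C₀ (C' * lam)) →
      ∀ k ∈ K, ‖f (A.act k (p (A.act (s * k') v)))‖ ≤ max C₀ (C' * lam) := by
    intro s hs hsl k' hk' ih k hk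
    have e1 : p (A.act (s * k') v) =
        A.act s (p (A.act k' v)) + p (A.act s (q (A.act k' v))) := by
      rw [lzero2_act_mul]
      conv_lhs => rw [hpq (A.act k' v)]
      rw [map_add, map_add, hp2 _ (lzero2_act_mem A (h₀ hs) (hp1 _))]
    rw [e1, map_add, map_add]
    refine (IsUltrametricDist.norm_add_le_max _ _).trans (max_le ?_ ?_)
    · rw [← lzero2_act_mul]
      exact ih _ (K.mul_mem hk hs)
    · refine le_trans ?_ (le_max_right _ _)
      set w := q (A.act k' v) with hw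
      have e2 : f (A.act k (p (A.act s w))) =
          ∑ i, A.α k (A.α s (b.repr w i)) * f (A.act k (p (A.act s (b i)))) := by
        conv_lhs => rw [← b.sum_repr w]
        simp only [map_sum, A.smul, map_smul, smul_eq_mul]
      rw [e2]
      refine IsUltrametricDist.norm_sum_le_of_forall_le_of_nonneg (by positivity) fun i _ => ?_
      rw [norm_mul, A.iso, A.iso]
      exact mul_le_mul ((hC₁ i k' hk').trans (hC' i)) ((hC₂ s i k hk).trans (hsl i))
        (norm_nonneg _) hC'0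
  have main : ∀ k' ∈ Subgroup.closure (S : Set E),
      ∀ k ∈ K, ‖f (A.act k (p (A.act k' v)))‖ ≤ max C₀ (C' * lam) := by
    intro k' hk'
    induction hk' using Subgroup.closure_induction_left with
    | one =>
      intro k hk
      rw [map_one]
      exact (hC₀ k hk).trans (le_max_left _ _)
    | mul_left s hs y hy ih =>
      exact step s (hS ▸ Subgroup.subset_closure hs) (fun i => (hlam s hs i).1) y (hS ▸ hy) ih
    | inv_mul_cancel s hs y hy ih =>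
      exact step s⁻¹ (K.inv_mem (hS ▸ Subgroup.subset_closure hs)) (fun i => (hlam s hs i).2) y
        (hS ▸ hy) ih
  obtain ⟨C₃, hC₃⟩ := hb₁ (f.comp q) (fun u hu => by simp [hq0 u hu]) v hv
  refine ⟨max C₀ (C' * lam) + C₃, fun k hk => ?_⟩
  rw [hpq (A.act k v), map_add]
  refine (norm_add_le _ _).trans (add_le_add ?_ (hC₃ k hk))
  have := main k (hS ▸ hk) 1 K.one_mem
  rwa [map_one] at this

/-- One step of the chain: commutators are bounded on a strongly irreducible subquotient. -/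
theorem lzero2_quot [CompleteSpace D] (hD : Disc D) {H : Type} [Group H] (A : SL E D V)
    (π : E →* H) (hsurj : Function.Surjective π) (hπ : ∀ e, π e = 1 → A.Scal e) (hH : NF H)
    {E₂ : Subgroup E} [E₂.FiniteIndex] {U₀ U₁ : Submodule D V} (hle : U₀ ≤ U₁)
    (hmax : ∀ W, U₀ < W → W < U₁ → ¬ (A.stab W).FiniteIndex)
    (h₀ : E₂ ≤ A.stab U₀) (h₁ : E₂ ≤ A.stab U₁) (f : V →ₗ[D] D) (hf : ∀ u ∈ U₀, f u = 0)
    (v : V) (hv : v ∈ U₁) : ∃ C : ℝ, ∀ k ∈ ⁅E₂, E₂⁆, ‖f (A.act k v)‖ ≤ C := by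
  obtain ⟨B, -, hB⟩ := (A.comp E₂.subtype).exists_subquot (U₀ := U₀) (U₁ := U₁)
    (fun e => h₀ e.2) (fun e => h₁ e.2)
  have hSI : B.SI := A.si_subquot hle hmax B hB h₀ h₁
  have : (E₂.map π).FiniteIndex :=
    ⟨fun h => Subgroup.FiniteIndex.index_ne_zero (H := E₂)
      (Nat.eq_zero_of_zero_dvd (h ▸ Subgroup.index_map_dvd E₂ hsurj))⟩
  have hbdd : B.Bdd ⁅(⊤ : Subgroup E₂), ⊤⁆ := by
    refine bdd_of_si hD B (π.subgroupMap E₂) (π.subgroupMap_surjective E₂) ?_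
      (hH.subgroup (E₂.map π)) hSI
    intro e he
    obtain ⟨d, hd⟩ := hπ e (congrArg Subtype.val he)
    refine ⟨d, fun x => ?_⟩
    obtain ⟨y, rfl⟩ := Submodule.Quotient.mk_surjective _ x
    rw [hB e y (d • y) (hd y).symm, Submodule.Quotient.mk_smul]
  let g : SL.SQ U₀ U₁ →ₗ[D] D :=
    (U₀.comap U₁.subtype).liftQ (f.comp U₁.subtype) fun x hx => hf x hx
  obtain ⟨C, hC⟩ := hbdd g (Submodule.Quotient.mk ⟨v, hv⟩)
  refine ⟨C, fun k hk => ?_⟩
  have hk' : k ∈ Subgroup.map E₂.subtype ⁅(⊤ : Subgroup E₂), ⊤⁆ := by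
    rwa [Subgroup.map_commutator, ← MonoidHom.range_eq_map, Subgroup.range_subtype]
  obtain ⟨k', hk', rfl⟩ := hk'
  have := hC k' hk'
  rwa [hB k' ⟨v, hv⟩ ⟨A.act k' v, lzero2_act_mem A (h₁ k'.2) hv⟩ rfl] at this

/-- Take `E₂` the intersection of the stabilizers of the chain of `exists_chain`; it contains the
kernel of `π`, and its image is a finite index subgroup of `H`, which satisfies `NF`. -/
theorem lzero [CompleteSpace D] (hD : Disc D) {H : Type} [Group H] (A : SL E D V)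
    (π : E →* H) (hsurj : Function.Surjective π) (hπ : ∀ e, π e = 1 → A.Scal e) (hH : NF H) :
    ∃ E₂ : Subgroup E, E₂.FiniteIndex ∧ π.ker ≤ E₂ ∧
      ∀ K : Subgroup E, K ≤ ⁅E₂, E₂⁆ → K.FG → A.Bdd K := by
  obtain ⟨l, U, hU0, hUl, hlt, hfi, hmax⟩ := A.exists_chain
  let E₂ : Subgroup E := ⨅ k : Fin (l + 1), A.stab (U k)
  have hE₂ : E₂.FiniteIndex :=
    Subgroup.finiteIndex_iInf fun k => hfi k (Nat.lt_succ_iff.mp k.2)
  have hst : ∀ k ≤ l, E₂ ≤ A.stab (U k) := fun k hk =>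
    iInf_le (fun k : Fin (l + 1) => A.stab (U k)) ⟨k, Nat.lt_succ_iff.mpr hk⟩
  refine ⟨E₂, hE₂, ?_, fun K hK hfg => ?_⟩
  · intro e he
    exact Subgroup.mem_iInf.mpr fun k => A.sub_of_scal (hπ e he) _
  · have hKE : K ≤ E₂ := hK.trans (Subgroup.commutator_le.mpr fun x hx y hy =>
      E₂.mul_mem (E₂.mul_mem (E₂.mul_mem hx hy) (E₂.inv_mem hx)) (E₂.inv_mem hy))
    have main : ∀ j ≤ l, ∀ (f : V →ₗ[D] D), ∀ v ∈ U j,
        ∃ C : ℝ, ∀ k ∈ K, ‖f (A.act k v)‖ ≤ C := by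
      intro j
      induction j with
      | zero =>
        intro _ f v hv
        rw [hU0, Submodule.mem_bot] at hv
        exact ⟨0, fun k _ => by simp [hv]⟩
      | succ j ih =>
        intro hj
        have hj' : j < l := hj
        refine bdd_step A hfg (hlt j hj').le (hKE.trans (hst j hj'.le)) (hKE.trans (hst _ hj))
          (ih hj'.le) fun f hf v hv => ?_
        obtain ⟨C, hC⟩ := lzero2_quot hD A π hsurj hπ hH (hlt j hj').le (hmax j hj')
          (hst j hj'.le) (hst _ hj) f hf v hv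
        exact ⟨C, fun k hk => hC k (hK hk)⟩
    intro f v
    exact main l le_rfl f v (hUl ▸ Submodule.mem_top)

end Pool.Agent.Lib.MP_9ac97d_al
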