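import Pool.Agent.Lib.MP_9ac97d_al.SL

/-!
# Levitzki's theorem for semilinear maps and a transversality lemma (task Lev)

For `f ∈ semi K U` the image of a subspace is a subspace (define `img f W`), `img` preserves
arbitrary suprema, and `finrank (img f W) ≤ finrank W`.
-/

set_option autoImplicit false

noncomputable section

open Pointwise

namespace Pool.Agent.Lib.MP_9ac97d_al

section Basic

variable {K U : Type} [DivisionRing K] [AddCommGroup U] [Module K U]

/-- The image of a subspace. -/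
def lev_img (f : AddMonoid.End U) (W : Submodule K U) : Submodule K U :=
  Submodule.span K (f '' W)

/-- The preimage of a subspace. -/
def lev_pre {f : AddMonoid.End U} (hf : f ∈ semi K U) (W : Submodule K U) : Submodule K U where
  carrier := {v | f v ∈ W}
  add_mem' := fun {a b} ha hb => by
    change f (a + b) ∈ W
    rw [map_add]; exact W.add_mem ha hb
  zero_mem' := by
    change f 0 ∈ W
    rw [map_zero]; exact W.zero_mem
  smul_mem' := fun d v hv => by
    obtain ⟨α, h⟩ := hf
    change f (d • v) ∈ W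
    rw [h]; exact W.smul_mem _ hv

theorem lev_mem_pre {f : AddMonoid.End U} (hf : f ∈ semi K U) {W : Submodule K U} {v : U} :
    v ∈ lev_pre hf W ↔ f v ∈ W := Iff.rfl

theorem lev_img_le {f : AddMonoid.End U} {W W' : Submodule K U} :
    lev_img f W ≤ W' ↔ ∀ v ∈ W, f v ∈ W' := by
  rw [lev_img, Submodule.span_le]
  exact ⟨fun h v hv => h ⟨v, hv, rfl⟩, by rintro h _ ⟨v, hv, rfl⟩; exact h v hv⟩

theorem lev_mem_img' (f : AddMonoid.End U) {W : Submodule K U} {v : U} (hv : v ∈ W) :
    f v ∈ lev_img f W := Submodule.subset_span ⟨v, hv, rfl⟩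

theorem lev_mem_img {f : AddMonoid.End U} (hf : f ∈ semi K U) {W : Submodule K U} {u : U} :
    u ∈ lev_img f W ↔ ∃ v ∈ W, f v = u := by
  refine ⟨fun h => ?_, by rintro ⟨v, hv, rfl⟩; exact lev_mem_img' f hv⟩
  obtain ⟨α, hα⟩ := hf
  induction h using Submodule.span_induction with
  | mem x hx => exact hx
  | zero => exact ⟨0, W.zero_mem, map_zero _⟩
  | add x y _ _ hx hy =>
    obtain ⟨v, hv, rfl⟩ := hx
    obtain ⟨v', hv', rfl⟩ := hy
    exact ⟨v + v', W.add_mem hv hv', map_add _ _ _⟩
  | smul d x _ hx =>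
    obtain ⟨v, hv, rfl⟩ := hx
    exact ⟨α.symm d • v, W.smul_mem _ hv, by rw [hα, RingEquiv.apply_symm_apply]⟩

theorem lev_img_top (f : AddMonoid.End U) :
    lev_img f (⊤ : Submodule K U) = Submodule.span K (Set.range f) := by
  rw [lev_img, Submodule.top_coe, Set.image_univ]

theorem lev_erank (f : AddMonoid.End U) :
    erank K f = Module.finrank K (lev_img f (⊤ : Submodule K U)) := by
  rw [lev_img_top]; rfl

theorem lev_mul_apply (f g : AddMonoid.End U) (v : U) : (f * g) v = f (g v) := rfl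

theorem lev_img_mul {f g : AddMonoid.End U} (hf : f ∈ semi K U) (W : Submodule K U) :
    lev_img (f * g) W = lev_img f (lev_img g W) := by
  refine le_antisymm (lev_img_le.2 fun v hv => lev_mem_img' f (lev_mem_img' g hv))
    (lev_img_le.2 ?_)
  change lev_img g W ≤ lev_pre hf (lev_img (f * g) W)
  exact lev_img_le.2 fun v hv => lev_mem_img' (f * g) hv

theorem lev_finrank_inj {f : AddMonoid.End U} (hf : f ∈ semi K U) (W : Submodule K U)
    (hi : ∀ v ∈ W, f v = 0 → v = 0) :
    Module.finrank K (lev_img f W) = Module.finrank K W := by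
  let j : W →+ lev_img f W :=
    { toFun := fun v => ⟨f v, lev_mem_img' f v.2⟩
      map_zero' := Subtype.ext (map_zero f)
      map_add' := fun a b => Subtype.ext (map_add f _ _) }
  have hj : Function.Bijective j := by
    refine ⟨(injective_iff_map_eq_zero j).2 fun v hv => Subtype.ext (hi v v.2 ?_), fun u => ?_⟩
    · exact congrArg Subtype.val hv
    · obtain ⟨v, hv, e⟩ := (lev_mem_img hf).1 u.2
      exact ⟨⟨v, hv⟩, Subtype.ext e⟩
  obtain ⟨α, hα⟩ := hf
  have := rank_eq_of_equiv_equiv (R := K) (R' := K) α (AddEquiv.ofBijective j hj) α.bijective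
    (fun d v => Subtype.ext (hα d v))
  unfold Module.finrank
  rw [this]

variable [Module.Finite K U]

theorem lev_rank_null {f : AddMonoid.End U} (hf : f ∈ semi K U) (W : Submodule K U) :
    Module.finrank K (lev_img f W) + Module.finrank K (W ⊓ lev_pre hf ⊥ : Submodule K U) =
      Module.finrank K W := by
  obtain ⟨C, hC⟩ := Submodule.exists_isCompl (W ⊓ lev_pre hf ⊥)
  have h1 : (W ⊓ lev_pre hf ⊥) ⊔ (C ⊓ W) = W := by
    rw [← sup_inf_assoc_of_le _ inf_le_left, hC.sup_eq_top, top_inf_eq]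
  have h2 : (W ⊓ lev_pre hf ⊥) ⊓ (C ⊓ W) = ⊥ := by
    rw [← inf_assoc, hC.inf_eq_bot, bot_inf_eq]
  have h3 : lev_img f W = lev_img f (C ⊓ W) := by
    refine le_antisymm (lev_img_le.2 ?_) (lev_img_le.2 fun v hv => lev_mem_img' f hv.2)
    change W ≤ lev_pre hf (lev_img f (C ⊓ W))
    conv_lhs => rw [← h1]
    refine sup_le (fun v hv => ?_) fun v hv => lev_mem_img' f hv
    have : f v = 0 := hv.2
    rw [lev_mem_pre, this]
    exact zero_mem _
  have h4 := Submodule.finrank_sup_add_finrank_inf_eq (W ⊓ lev_pre hf ⊥) (C ⊓ W)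
  rw [h1, h2, finrank_bot] at h4
  rw [h3, lev_finrank_inj hf _ fun v hv e => ?_]
  · omega
  · have : v ∈ (W ⊓ lev_pre hf ⊥) ⊓ (C ⊓ W) := ⟨⟨hv.2, e⟩, hv⟩
    rwa [h2] at this

theorem lev_finrank_le {f : AddMonoid.End U} (hf : f ∈ semi K U) (W : Submodule K U) :
    Module.finrank K (lev_img f W) ≤ Module.finrank K W := by
  have := lev_rank_null hf W
  omega

omit [Module.Finite K U] in
theorem lev_pow_mem {f : AddMonoid.End U} {W : Submodule K U} (h : ∀ v ∈ W, f v ∈ W) (n : ℕ) :
    ∀ v ∈ W, (f ^ n) v ∈ W := by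
  induction n with
  | zero => exact fun v hv => hv
  | succ n ih => exact fun v hv => by rw [pow_succ', lev_mul_apply]; exact h _ (ih v hv)

theorem lev_core (n : ℕ) : ∀ (W : Submodule K U), Module.finrank K W = n →
    ∀ T : Set (AddMonoid.End U), T ⊆ semi K U → (∀ f ∈ T, ∀ g ∈ T, f * g ∈ T) →
      (∀ f ∈ T, IsNilpotent f) → (∀ f ∈ T, ∀ v ∈ W, f v ∈ W) →
      ∀ l : List (AddMonoid.End U), (∀ f ∈ l, f ∈ T) → n ≤ l.length → ∀ v ∈ W, l.prod v = 0 := by
  induction n using Nat.strong_induction_on with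
  | _ n ih =>
  intro W hW T hT hmul hnil hinv l hl hlen
  by_cases h0 : W = ⊥
  · intro v hv
    rw [h0, Submodule.mem_bot] at hv
    rw [hv, map_zero]
  let Fm : Set (Submodule K U) :=
    {W' | W' < W ∧ W' ≤ ⨆ t ∈ {t ∈ T | lev_img t W ≤ W'}, lev_img t W}
  obtain ⟨W', ⟨h1, h2⟩, hmax⟩ := set_has_maximal_iff_noetherian.2
    (inferInstance : IsNoetherian K U) Fm ⟨⊥, bot_lt_iff_ne_bot.2 h0, bot_le⟩
  have hlt : Module.finrank K W' < n := hW ▸ Submodule.finrank_lt_finrank_of_lt h1
  have hA : ∀ l : List (AddMonoid.End U), (∀ f ∈ l, f ∈ T ∧ lev_img f W ≤ W') →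
      n ≤ l.length → ∀ v ∈ W, l.prod v = 0 := by
    intro l hl hlen v hv
    have hne : l ≠ [] := by rintro rfl; simp at hlen; omega
    rw [← List.dropLast_append_getLast hne, List.prod_append, List.prod_singleton, lev_mul_apply]
    refine ih _ hlt W' rfl {t ∈ T | lev_img t W ≤ W'} (fun t ht => hT ht.1)
      (fun f hf g hg => ⟨hmul f hf.1 g hg.1, lev_img_le.2 fun u hu =>
        lev_img_le.1 hf.2 _ (hinv g hg.1 u hu)⟩) (fun f hf => hnil f hf.1)
      (fun f hf u hu => lev_img_le.1 hf.2 _ (h1.le hu)) _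
      (fun f hf => hl f (List.mem_of_mem_dropLast hf)) (by rw [List.length_dropLast]; omega) _
      (lev_img_le.1 (hl _ (List.getLast_mem hne)).2 _ hv)
  suffices hall : ∀ t ∈ T, lev_img t W ≤ W' from
    hA l (fun f hf => ⟨hl f hf, hall f (hl f hf)⟩) hlen
  by_contra hne
  have hex : ∃ b ∈ T, ¬ lev_img b W ≤ W' ∧
      ∀ a ∈ T, lev_img a W ≤ W' → lev_img (b * a) W ≤ W' := by
    by_contra hc
    have hk : ∀ k : ℕ, ∃ b ∈ T, ∃ l : List (AddMonoid.End U),
        (∀ f ∈ l, f ∈ T ∧ lev_img f W ≤ W') ∧ l.length = k ∧ b * l.prod ∈ T ∧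
          ¬ lev_img (b * l.prod) W ≤ W' := by
      intro k
      induction k with
      | zero =>
        push Not at hne
        obtain ⟨b, hb, hb'⟩ := hne
        exact ⟨b, hb, [], by simp, rfl, by simpa using hb, by simpa using hb'⟩
      | succ k ik =>
        obtain ⟨b, hb, l, a1, a2, a3, a4⟩ := ik
        push Not at hc
        obtain ⟨a, b1, b2, b3⟩ := hc _ a3 a4
        refine ⟨b, hb, l ++ [a], fun f hf => ?_, by simp [a2], ?_, ?_⟩
        · rcases List.mem_append.1 hf with hf | hf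
          · exact a1 f hf
          · rw [List.mem_singleton.1 hf]; exact ⟨b1, b2⟩
        · rw [List.prod_append, List.prod_singleton, ← mul_assoc]; exact hmul _ a3 _ b1
        · rwa [List.prod_append, List.prod_singleton, ← mul_assoc]
    obtain ⟨b, -, l, a1, a2, -, a4⟩ := hk n
    refine a4 (lev_img_le.2 fun v hv => ?_)
    rw [lev_mul_apply, hA l a1 a2.ge v hv, map_zero]
    exact zero_mem _
  obtain ⟨b, hb, hb1, hb2⟩ := hex
  have hbW : W' ≤ lev_pre (hT hb) W' := h2.trans (iSup₂_le fun a ha =>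
    lev_img_le.2 fun v hv => lev_img_le.1 (hb2 a ha.1 ha.2) v hv)
  refine hmax (W' ⊔ lev_img b W) ⟨lt_of_le_of_ne (sup_le h1.le (lev_img_le.2 (hinv b hb)))
    fun e => ?_, sup_le (h2.trans (iSup₂_le fun a ha => le_iSup₂_of_le a
      ⟨ha.1, ha.2.trans le_sup_left⟩ le_rfl)) (le_iSup₂_of_le b ⟨hb, le_sup_right⟩ le_rfl)⟩
    (lt_of_le_of_ne le_sup_left fun e => hb1 (e ▸ le_sup_right))
  have hk : ∀ k : ℕ, ∀ v ∈ W, ∃ u ∈ W, v - (b ^ k) u ∈ W' := by
    intro k
    induction k with
    | zero => exact fun v hv => ⟨v, hv, by simp⟩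
    | succ k ik =>
      intro v hv
      obtain ⟨u, hu, h⟩ := ik v hv
      rw [← e] at hu
      obtain ⟨x, hx, y, hy, rfl⟩ := Submodule.mem_sup.1 hu
      obtain ⟨y', hy', rfl⟩ := (lev_mem_img (hT hb)).1 hy
      refine ⟨y', hy', ?_⟩
      have := W'.add_mem h (lev_pow_mem hbW k x hx)
      rw [map_add] at this
      rw [pow_succ, lev_mul_apply]
      rwa [show v - ((b ^ k) x + (b ^ k) (b y')) + (b ^ k) x = v - (b ^ k) (b y') by abel] at this
  obtain ⟨k, hk0⟩ := hnil b hb
  refine h1.not_ge fun v hv => ?_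
  obtain ⟨u, -, h⟩ := hk k v hv
  rw [hk0] at h
  simpa using h

end Basic

variable {K U : Type} [DivisionRing K] [AddCommGroup U] [Module K U] [Module.Finite K U]

/-- Levitzki's theorem for semilinear maps. -/
theorem lev {T : Set (AddMonoid.End U)} (hT : T ⊆ semi K U)
    (hmul : ∀ f ∈ T, ∀ g ∈ T, f * g ∈ T) (hnil : ∀ f ∈ T, IsNilpotent f)
    (l : List (AddMonoid.End U)) (hl : ∀ f ∈ l, f ∈ T) (hlen : Module.finrank K U ≤ l.length) :
    l.prod = 0 := by
  ext v
  exact lev_core _ ⊤ (finrank_top K U) T hT hmul hnil (fun _ _ _ _ => trivial) l hl hlen v trivial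

theorem erank_mul_le_left {f g : AddMonoid.End U} (hf : f ∈ semi K U) (hg : g ∈ semi K U) :
    erank K (f * g) ≤ erank K f := by
  have _ := hf
  have _ := hg
  rw [lev_erank, lev_erank]
  exact Submodule.finrank_mono (lev_img_le.2 fun v _ => lev_mem_img' f trivial)

theorem erank_mul_le_right {f g : AddMonoid.End U} (hf : f ∈ semi K U) (hg : g ∈ semi K U) :
    erank K (f * g) ≤ erank K g := by
  have _ := hg
  rw [lev_erank, lev_erank, lev_img_mul hf]
  exact lev_finrank_le hf _

theorem bijective_iff_erank {f : AddMonoid.End U} (hf : f ∈ semi K U) :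
    Function.Bijective f ↔ erank K f = Module.finrank K U := by
  rw [lev_erank]
  constructor
  · intro h
    rw [lev_finrank_inj hf _ fun v _ e => h.1 (by rw [e, map_zero]), finrank_top]
  · intro h
    have h1 := lev_rank_null hf ⊤
    rw [h, finrank_top, top_inf_eq] at h1
    have h2 : lev_pre hf ⊥ = ⊥ := Submodule.finrank_eq_zero.1 (by omega)
    have h3 := Submodule.eq_top_of_finrank_eq h
    refine ⟨(injective_iff_map_eq_zero f).2 fun v hv => ?_, fun u => ?_⟩
    · have : v ∈ lev_pre hf ⊥ := hv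
      rwa [h2] at this
    · obtain ⟨v, -, e⟩ := (lev_mem_img hf (W := ⊤) (u := u)).1 (by rw [h3]; trivial)
      exact ⟨v, e⟩

/-- The filtration by images of products of elements of `J`. -/
def lev_fil (K : Type) {U : Type} [DivisionRing K] [AddCommGroup U] [Module K U]
    (J : Set (AddMonoid.End U)) : ℕ → Submodule K U
  | 0 => ⊤
  | k + 1 => ⨆ y ∈ J, lev_img y (lev_fil K J k)

/-- Transversality in a monoid of semilinear maps. -/
theorem sg {S : Submonoid (AddMonoid.End U)} (hS : S ≤ semi K U) {P : AddMonoid.End U}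
    (hP : P ∈ S) (hPn : ¬ IsNilpotent P)
    (hmin : ∀ y ∈ S, ¬ IsNilpotent y → erank K P ≤ erank K y)
    (z w : Fin (Module.finrank K U + 1) → AddMonoid.End U) (hz : ∀ i, z i ∈ S)
    (hw : ∀ i, w i ∈ S) (hzw : ∀ i, w i * z i = 1) (hwz : ∀ i, z i * w i = 1) :
    ∃ i j, i ≠ j ∧ erank K (P * w i * z j * P) = erank K P := by
  have _ := hwz
  by_contra hc
  push Not at hc
  let J : Set (AddMonoid.End U) := {y | y ∈ S ∧ ∀ x ∈ S, IsNilpotent (y * x)}
  have hJl : ∀ s ∈ S, ∀ y ∈ J, s * y ∈ J := fun s hs y hy => ⟨S.mul_mem hs hy.1, fun x hx => by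
    obtain ⟨n, hn⟩ := hy.2 (x * s) (S.mul_mem hx hs)
    refine ⟨n + 1, ?_⟩
    rw [← mul_assoc y x s] at hn
    rw [mul_assoc, pow_succ, ← mul_assoc, mul_pow_mul, hn, mul_zero, zero_mul]⟩
  have hJ : ∀ y ∈ J, y ∈ semi K U := fun y hy => hS hy.1
  let e : Fin (Module.finrank K U + 1) → AddMonoid.End U := fun i => z i * P * w i
  have he : ∀ i, e i ∈ S := fun i => S.mul_mem (S.mul_mem (hz i) hP) (hw i)
  have hee : ∀ i j, i ≠ j → e i * e j ∈ J := fun i j hij =>
    ⟨S.mul_mem (he i) (he j), fun x hx => by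
      by_contra hn
      have h1 := hmin _ (S.mul_mem (S.mul_mem (he i) (he j)) hx) hn
      have hm : P * w i * z j * P ∈ S := S.mul_mem (S.mul_mem (S.mul_mem hP (hw i)) (hz j)) hP
      have h2 : e i * e j * x = z i * ((P * w i * z j * P) * (w j * x)) := by
        simp only [e, mul_assoc]
      have h3 := erank_mul_le_right (hS (hz i)) (hS (S.mul_mem hm (S.mul_mem (hw j) hx)))
      have h4 := erank_mul_le_left (hS hm) (hS (S.mul_mem (hw j) hx))
      have h5 := erank_mul_le_right (hS (S.mul_mem (S.mul_mem hP (hw i)) (hz j))) (hS hP)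
      rw [h2] at h1
      exact hc i j hij (by omega)⟩
  have hstep : ∀ k, ∀ y ∈ J, ∀ v ∈ lev_fil K J k, y v ∈ lev_fil K J (k + 1) := fun k y hy =>
    lev_img_le.1 (le_iSup₂_of_le (f := fun y (_ : y ∈ J) => lev_img y (lev_fil K J k)) y hy le_rfl)
  have hinv : ∀ k, ∀ s ∈ S, ∀ v ∈ lev_fil K J k, s v ∈ lev_fil K J k := by
    intro k s hs
    rcases k with _ | k
    · exact fun _ _ => trivial
    · change lev_fil K J (k + 1) ≤ lev_pre (hS hs) (lev_fil K J (k + 1))
      exact iSup₂_le fun y hy => lev_img_le.2 fun v hv => hstep k _ (hJl s hs y hy) v hv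
  have hkill : ∀ k, ∀ l : List (AddMonoid.End U), (∀ f ∈ l, f ∈ J) →
      Module.finrank K U ≤ k + l.length → ∀ v ∈ lev_fil K J k, l.prod v = 0 := by
    intro k
    induction k with
    | zero =>
      intro l hl hlen v _
      rw [lev hJ (fun f hf g hg => hJl f hf.1 g hg)
        (fun f hf => by simpa using hf.2 1 S.one_mem) l hl (by omega)]
      rfl
    | succ k ih =>
      intro l hl hlen
      change lev_fil K J (k + 1) ≤
        lev_pre ((semi K U).list_prod_mem fun f hf => hJ f (hl f hf)) ⊥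
      refine iSup₂_le fun y hy => lev_img_le.2 fun v hv => ?_
      have := ih (l ++ [y]) (fun f hf => by
        rcases List.mem_append.1 hf with hf | hf
        · exact hl f hf
        · rw [List.mem_singleton.1 hf]; exact hy) (by simp; omega) v hv
      rw [List.prod_append, List.prod_singleton] at this
      exact this
  obtain ⟨k, hk⟩ : ∃ k, ∃ v ∈ lev_fil K J k, (P * P) v ∉ lev_fil K J (k + 1) := by
    by_contra hn
    push Not at hn
    have : ∀ k v, ((P * P) ^ k) v ∈ lev_fil K J k := by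
      intro k
      induction k with
      | zero => exact fun _ => trivial
      | succ k ih => exact fun v => by rw [pow_succ', lev_mul_apply]; exact hn k _ (ih v)
    refine hPn ⟨2 * Module.finrank K U, ?_⟩
    ext v
    rw [pow_mul, pow_two]
    exact hkill _ [] (by simp) (by simp) _ (this _ v)
  obtain ⟨v, hv, hv'⟩ := hk
  have hbad : ∀ i, e i (e i (z i v)) ∉ lev_fil K J (k + 1) := fun i h => hv' (by
    have h1 := hinv _ _ (hw i) _ h
    have h2 : w i * (e i * (e i * z i)) = P * P := by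
      calc w i * (e i * (e i * z i)) = (w i * z i) * P * (w i * z i) * P * (w i * z i) := by
            simp only [e, mul_assoc]
        _ = P * P := by simp only [hzw, one_mul, mul_one]
    rw [← h2]
    exact h1)
  have hli : LinearIndependent K fun i => e i (z i v) := by
    rw [Fintype.linearIndependent_iff]
    intro d hd j
    obtain ⟨α, hα⟩ := hS (he j)
    by_contra hj
    have h1 := congrArg (e j) hd
    rw [map_sum, map_zero, ← Finset.add_sum_erase _ _ (Finset.mem_univ j), hα,
      add_eq_zero_iff_eq_neg] at h1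
    refine hbad j ((Submodule.smul_mem_iff _ ((map_ne_zero α).2 hj)).1 ?_)
    rw [h1]
    refine neg_mem (sum_mem fun i hi => ?_)
    rw [hα]
    exact Submodule.smul_mem _ _
      (hstep k _ (hee j i (Finset.ne_of_mem_erase hi).symm) _ (hinv _ _ (hz i) _ hv))
  have := hli.fintype_card_le_finrank
  rw [Fintype.card_fin] at this
  omega

/-- Fitting decomposition in coordinates: if `P * P` has the same rank `p` as `P`, there is a basis
whose first `p` vectors span the image and whose other vectors span the kernel. -/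
theorem exists_fitting_basis {P : AddMonoid.End U} (hP : P ∈ semi K U)
    (h : erank K (P * P) = erank K P) {p q : ℕ} (hp : erank K P = p)
    (hq : p + q = Module.finrank K U) :
    ∃ b : Module.Basis (Fin p ⊕ Fin q) K U,
      Submodule.span K (Set.range fun i => b (Sum.inl i)) = Submodule.span K (Set.range P) ∧
      ∀ i, P (b (Sum.inr i)) = 0 := by
  rw [lev_erank, lev_erank, lev_img_mul hP] at h
  rw [lev_erank] at hp
  have h1 := lev_rank_null hP ⊤
  rw [finrank_top, top_inf_eq] at h1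
  have h2 := lev_rank_null hP (lev_img P ⊤)
  have h3 : lev_img P ⊤ ⊓ lev_pre hP ⊥ = ⊥ := Submodule.finrank_eq_zero.1 (by omega)
  have h4 := Submodule.finrank_sup_add_finrank_inf_eq (lev_img P ⊤) (lev_pre hP ⊥)
  rw [h3, finrank_bot] at h4
  have hc : IsCompl (lev_img P ⊤) (lev_pre hP ⊥) :=
    ⟨disjoint_iff.2 h3, codisjoint_iff.2 (Submodule.eq_top_of_finrank_eq (by omega))⟩
  let b1 := Module.finBasisOfFinrankEq K (lev_img P (⊤ : Submodule K U)) hp
  let b2 := Module.finBasisOfFinrankEq K (lev_pre hP ⊥) (n := q) (by omega)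
  refine ⟨(b1.prod b2).map (Submodule.prodEquivOfIsCompl _ _ hc), ?_, fun i => ?_⟩
  · have : (fun i => ((b1.prod b2).map (Submodule.prodEquivOfIsCompl _ _ hc)) (Sum.inl i)) =
        (lev_img P (⊤ : Submodule K U)).subtype ∘ b1 := by
      ext i
      simp [Module.Basis.prod_apply]
    rw [this, Set.range_comp, ← Submodule.map_span, b1.span_eq, Submodule.map_subtype_top,
      lev_img_top]
  · have : ((b1.prod b2).map (Submodule.prodEquivOfIsCompl _ _ hc)) (Sum.inr i) = b2 i := by
      simp [Module.Basis.prod_apply]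
    rw [this]
    exact (b2 i).2

end Pool.Agent.Lib.MP_9ac97d_al
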