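import Pool.Agent.Lib.MP_9ac97d_al.Deg
import Pool.Agent.Lib.MP_9ac97d_al.PP
import Pool.Agent.Lib.MP_9ac97d_al.GTrd

/-!
# Integral representations are virtually triangular (task Lin)
-/

set_option autoImplicit false

noncomputable section

open Pointwise

namespace Pool.Agent.Lib.MP_9ac97d_al

variable {H : Type} [Group H] {d : ℕ}

/-- The complexified matrix. -/
def cplx (A : Matrix (Fin d) (Fin d) ℤ) : Matrix (Fin d) (Fin d) ℂ := A.map (Int.cast : ℤ → ℂ)

theorem lin_cplx_mul (A B : Matrix (Fin d) (Fin d) ℤ) : cplx (A * B) = cplx A * cplx B :=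
  Matrix.map_mul (f := Int.castRingHom ℂ)

theorem lin_cplx_one : cplx (1 : Matrix (Fin d) (Fin d) ℤ) = 1 :=
  Matrix.map_one _ Int.cast_zero Int.cast_one

theorem lin_cplx_sub (A B : Matrix (Fin d) (Fin d) ℤ) : cplx (A - B) = cplx A - cplx B := by
  ext i j
  simp [cplx]

theorem lin_cplx_zero : cplx (0 : Matrix (Fin d) (Fin d) ℤ) = 0 := by
  ext i j
  simp [cplx]

theorem lin_cplx_inj : Function.Injective (cplx : Matrix (Fin d) (Fin d) ℤ → _) :=
  Matrix.map_injective Int.cast_injective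

theorem lin_cplx_trace (A : Matrix (Fin d) (Fin d) ℤ) : (cplx A).trace = (A.trace : ℂ) := by
  simp [cplx, Matrix.trace]

/-- An endomorphism all of whose powers have trace zero is nilpotent. -/
theorem lin_nilpotent {V : Type} [AddCommGroup V] [Module ℂ V] [Module.Finite ℂ V]
    (T : Module.End ℂ V)
    (h : ∀ p : Polynomial ℂ, LinearMap.trace ℂ V (T * Polynomial.aeval T p) = 0) :
    IsNilpotent T := by
  open Polynomial in
  obtain ⟨q, hq, hnd⟩ := exists_eq_pow_rootMultiplicity_mul_and_not_dvd T.charpoly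
    T.charpoly_monic.ne_zero 0
  set a := rootMultiplicity 0 T.charpoly
  simp only [map_zero, sub_zero] at hq hnd
  have hcop : IsCoprime ((X : ℂ[X]) ^ (a + 1)) q :=
    (irreducible_X.coprime_iff_not_dvd.2 hnd).pow_left
  obtain ⟨u, v, huv⟩ := hcop
  have hχ : aeval T (X ^ a * q) = 0 := by
    rw [← hq]
    exact T.aeval_self_charpoly
  have he : IsIdempotentElem (aeval T (u * X ^ (a + 1))) := by
    unfold IsIdempotentElem
    rw [← map_mul, ← sub_eq_zero, ← map_sub]
    have : u * X ^ (a + 1) * (u * X ^ (a + 1)) - u * X ^ (a + 1) =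
        -(u * v * X) * (X ^ a * q) := by
      linear_combination (u * X ^ (a + 1)) * huv
    rw [this, map_mul, hχ, mul_zero]
  have htr : LinearMap.trace ℂ V (aeval T (u * X ^ (a + 1))) = 0 := by
    have : u * X ^ (a + 1) = X * (u * X ^ a) := by ring
    rw [this, map_mul, aeval_X]
    exact h _
  have he0 := LinearMap.IsIdempotentElem.eq_zero_of_trace_eq_zero he htr
  refine ⟨a, ?_⟩
  have : (X : ℂ[X]) ^ a = X ^ a * (u * X ^ (a + 1)) + v * (X ^ a * q) := by
    linear_combination (-X ^ a) * huv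
  have h2 := congrArg (aeval T) this
  rw [map_add, map_mul _ (X ^ a), map_mul _ v, he0, hχ, map_pow, aeval_X] at h2
  simpa using h2

/-- Finitely many functionals of a separating family are separating. -/
theorem lin_finite_sep {W ι : Type} [AddCommGroup W] [Module ℂ W] [Module.Finite ℂ W]
    (F : ι → W →ₗ[ℂ] ℂ) (hF : ∀ x, (∀ i, F i x = 0) → x = 0) :
    ∃ t : Finset ι, ∀ x, (∀ i ∈ t, F i x = 0) → x = 0 := by
  classical
  obtain ⟨M, ⟨t, rfl⟩, hmin⟩ := (wellFounded_lt (α := Submodule ℂ W)).has_min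
    (Set.range fun t : Finset ι => ⨅ i ∈ t, LinearMap.ker (F i)) ⟨_, ∅, rfl⟩
  refine ⟨t, fun x hx => hF x fun i => ?_⟩
  have h1 : (⨅ j ∈ insert i t, LinearMap.ker (F j)) ≤ ⨅ j ∈ t, LinearMap.ker (F j) :=
    biInf_mono fun j hj => Finset.mem_insert_of_mem hj
  have h2 := eq_of_le_of_not_lt h1 (hmin _ ⟨insert i t, rfl⟩)
  have h3 : x ∈ ⨅ j ∈ t, LinearMap.ker (F j) := by
    simp only [Submodule.mem_iInf, LinearMap.mem_ker]
    exact hx
  rw [← h2] at h3
  simp only [Submodule.mem_iInf, LinearMap.mem_ker] at h3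
  exact h3 i (Finset.mem_insert_self _ _)

theorem lin_lattice_basis {W ι : Type} [AddCommGroup W] [Module ℂ W] [Module.Finite ℂ W]
    (Λ : AddSubgroup W) (hspan : Submodule.span ℂ (Λ : Set W) = ⊤)
    (F : ι → W →ₗ[ℂ] ℂ) (hF : ∀ x, (∀ i, F i x = 0) → x = 0)
    (hint : ∀ i, ∀ x ∈ Λ, ∃ k : ℤ, F i x = k) :
    ∃ b : Module.Basis (Fin (Module.finrank ℂ W)) ℂ W, (∀ i, b i ∈ Λ) ∧
      ∀ x ∈ Λ, ∀ i, ∃ k : ℤ, b.repr x i = k := by
  classical
  obtain ⟨t, ht⟩ := lin_finite_sep F hF
  have hg : ∀ x : Λ, ∃ g : t → ℤ, ∀ i : t, F i x = g i := fun x =>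
    ⟨fun i => (hint i x x.2).choose, fun i => (hint i x x.2).choose_spec⟩
  choose g hg using hg
  let g' : Λ →+ (t → ℤ) := AddMonoidHom.mk' g fun x y => by
    funext i
    apply Int.cast_injective (α := ℂ)
    rw [Pi.add_apply, Int.cast_add, ← hg, ← hg, ← hg, AddSubgroup.coe_add, map_add]
  have hinj : Function.Injective g'.toIntLinearMap := by
    rw [injective_iff_map_eq_zero]
    intro x hx
    apply Subtype.ext
    refine ht x fun i hi => ?_
    have h1 : g x = 0 := hx
    rw [hg x ⟨i, hi⟩, h1]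
    simp
  have : Module.Finite ℤ Λ := Module.Finite.of_injective _ hinj
  have : Module.IsTorsionFree ℤ Λ := hinj.moduleIsTorsionFree _ (by simp)
  have : Module.Free ℤ Λ := Module.free_of_finite_type_torsion_free'
  let c := Module.finBasis ℤ Λ
  have h1 : LinearIndependent ℤ (fun i => g (c i)) :=
    c.linearIndependent.map' g'.toIntLinearMap (LinearMap.ker_eq_bot.2 hinj)
  have h2 : LinearIndependent ℂ (fun i => algebraMap ℤ ℂ ∘ g (c i)) :=
    linearIndependent_algebraMap_comp_iff.2 h1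
  have h3 : LinearIndependent ℂ (fun i => (c i : W)) := by
    refine LinearIndependent.of_comp (LinearMap.pi fun i : t => F i) ?_
    have : (LinearMap.pi fun i : t => F i) ∘ (fun i => (c i : W)) =
        fun i => algebraMap ℤ ℂ ∘ g (c i) := by
      funext i j
      simp [hg]
    rw [this]
    exact h2
  have hsum : ∀ x : Λ, (x : W) = ∑ i, ((c.repr x i : ℤ) : ℂ) • (c i : W) := by
    intro x
    have := congrArg Λ.subtype (c.sum_repr x)
    rw [map_sum] at this
    simp only [map_zsmul, AddSubgroup.subtype_apply] at this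
    simp only [Int.cast_smul_eq_zsmul]
    exact this.symm
  have h4 : ⊤ ≤ Submodule.span ℂ (Set.range fun i => (c i : W)) := by
    rw [← hspan, Submodule.span_le]
    intro x hx
    have := hsum ⟨x, hx⟩
    simp only at this
    rw [this]
    exact Submodule.sum_mem _ fun i _ => Submodule.smul_mem _ _ (Submodule.subset_span ⟨i, rfl⟩)
  let b₀ := Module.Basis.mk h3 h4
  have hb₀ : ∀ i, b₀ i = c i := fun i => Module.Basis.mk_apply h3 h4 i
  have hcard : Module.finrank ℂ W = Module.finrank ℤ Λ := by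
    rw [Module.finrank_eq_card_basis b₀, Fintype.card_fin]
  refine ⟨b₀.reindex (finCongr hcard.symm), fun i => ?_, fun x hx i => ?_⟩
  · rw [Module.Basis.reindex_apply, hb₀]
    exact (c _).2
  · rw [Module.Basis.repr_reindex_apply]
    refine ⟨c.repr ⟨x, hx⟩ ((finCongr hcard.symm).symm i), ?_⟩
    have := hsum ⟨x, hx⟩
    simp only [← hb₀] at this
    conv_lhs => rw [this, Module.Basis.repr_sum_self]

theorem lin_int_matrices {W ι : Type} [AddCommGroup W] [Module ℂ W] [Module.Finite ℂ W]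
    (σ : H →* Module.End ℂ W) (Λ : AddSubgroup W) (hspan : Submodule.span ℂ (Λ : Set W) = ⊤)
    (hinv : ∀ h, ∀ x ∈ Λ, σ h x ∈ Λ) (F : ι → W →ₗ[ℂ] ℂ) (hF : ∀ x, (∀ i, F i x = 0) → x = 0)
    (hint : ∀ i, ∀ x ∈ Λ, ∃ k : ℤ, F i x = k) :
    ∃ (b : Module.Basis (Fin (Module.finrank ℂ W)) ℂ W)
      (τ : H →* Matrix (Fin (Module.finrank ℂ W)) (Fin (Module.finrank ℂ W)) ℤ),
      ∀ h, LinearMap.toMatrix b b (σ h) = cplx (τ h) := by
  obtain ⟨b, hb, hb'⟩ := lin_lattice_basis Λ hspan F hF hint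
  have hM : ∀ h, ∃ M : Matrix (Fin (Module.finrank ℂ W)) (Fin (Module.finrank ℂ W)) ℤ,
      LinearMap.toMatrix b b (σ h) = cplx M := by
    intro h
    refine ⟨fun i j => (hb' _ (hinv h _ (hb j)) i).choose, ?_⟩
    ext i j
    rw [LinearMap.toMatrix_apply]
    exact (hb' _ (hinv h _ (hb j)) i).choose_spec
  choose τ hτ using hM
  refine ⟨b, ⟨⟨τ, ?_⟩, fun g h => ?_⟩, hτ⟩
  · apply lin_cplx_inj
    rw [← hτ, map_one, lin_cplx_one, LinearMap.toMatrix_one]
  · apply lin_cplx_inj
    simp only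
    rw [lin_cplx_mul, ← hτ, ← hτ, ← hτ, map_mul, LinearMap.toMatrix_mul]

/-- A lattice lemma: a group acts linearly on a complex space `W` of dimension `D`, preserving an
additive subgroup `Λ` that spans `W` and on which a nondegenerate bilinear form is integral. Then
`Λ` has a `ℤ`-basis that is a `ℂ`-basis of `W`, so the action is given by integral matrices. -/
theorem exists_int_matrices {W : Type} [AddCommGroup W] [Module ℂ W] [Module.Finite ℂ W]
    (σ : H →* Module.End ℂ W) (Λ : AddSubgroup W) (hspan : Submodule.span ℂ (Λ : Set W) = ⊤)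
    (hinv : ∀ h, ∀ x ∈ Λ, σ h x ∈ Λ) (B : W →ₗ[ℂ] W →ₗ[ℂ] ℂ)
    (hB : ∀ x, (∀ y, B x y = 0) → x = 0) (hint : ∀ x ∈ Λ, ∀ y ∈ Λ, ∃ k : ℤ, B x y = k) :
    ∃ (b : Module.Basis (Fin (Module.finrank ℂ W)) ℂ W)
      (τ : H →* Matrix (Fin (Module.finrank ℂ W)) (Fin (Module.finrank ℂ W)) ℤ),
      ∀ h, LinearMap.toMatrix b b (σ h) = cplx (τ h) := by
  refine lin_int_matrices σ Λ hspan hinv (fun y : Λ => B.flip y) (fun x hx => hB x fun y => ?_)
    fun y x hx => hint x hx y y.2
  have h1 : Submodule.span ℂ (Λ : Set W) ≤ LinearMap.ker (B x) :=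
    Submodule.span_le.2 fun z hz => hx ⟨z, hz⟩
  exact h1 (hspan ▸ Submodule.mem_top)

/-- A complete flag comes from a basis. -/
theorem lin_flag_basis {l : ℕ} (U : ℕ → Submodule ℂ (Fin d → ℂ)) (h0 : U 0 = ⊥) (hl : U l = ⊤)
    (hlt : ∀ k < l, U k < U (k + 1))
    (hdim : ∀ k < l, Module.finrank ℂ (U (k + 1)) = Module.finrank ℂ (U k) + 1) :
    l = d ∧ ∃ b : Module.Basis (Fin d) ℂ (Fin d → ℂ), ∀ i : Fin d, b i ∈ U (i + 1) ∧
      ∀ v ∈ U (i + 1), ∀ j, i < j → b.repr v j = 0 := by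
  have hrk : ∀ k ≤ l, Module.finrank ℂ (U k) = k := by
    intro k
    induction k with
    | zero => intro _; rw [h0, finrank_bot]
    | succ k ih => intro hk; rw [hdim k hk, ih (by omega)]
  have hld : l = d := by
    have := hrk l le_rfl
    rw [hl, finrank_top, Module.finrank_fin_fun] at this
    exact this.symm
  subst hld
  have hv : ∀ k, ∃ v, k < l → v ∈ U (k + 1) ∧ v ∉ U k := by
    intro k
    by_cases hk : k < l
    · obtain ⟨v, hv⟩ := SetLike.exists_of_lt (hlt k hk)
      exact ⟨v, fun _ => hv⟩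
    · exact ⟨0, fun h => absurd h hk⟩
  choose v hv using hv
  have hsp : ∀ k ≤ l, U k = Submodule.span ℂ (v '' Set.Iio k) := by
    intro k
    induction k with
    | zero => intro _; simp [h0]
    | succ k ih =>
      intro hk
      have hk' : k < l := hk
      have e : Set.Iio (k + 1) = insert k (Set.Iio k) := by
        ext i
        simp only [Set.mem_Iio, Set.mem_insert_iff]
        omega
      rw [e, Set.image_insert_eq, Submodule.span_insert, ← ih hk'.le]
      have h1 : Submodule.span ℂ {v k} ⊔ U k ≤ U (k + 1) :=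
        sup_le ((Submodule.span_singleton_le_iff_mem _ _).2 (hv k hk').1) (hlt k hk').le
      have h2 : U k < Submodule.span ℂ {v k} ⊔ U k := by
        refine lt_of_le_of_ne le_sup_right fun h => (hv k hk').2 ?_
        rw [h]
        exact Submodule.mem_sup_left (Submodule.mem_span_singleton_self _)
      have h3 := Submodule.finrank_lt_finrank_of_lt h2
      refine (Submodule.eq_of_le_of_finrank_le h1 ?_).symm
      rw [hdim k hk']
      omega
  have htop : ⊤ ≤ Submodule.span ℂ (Set.range fun i : Fin l => v i) := by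
    rw [← hl, hsp l le_rfl]
    refine Submodule.span_mono ?_
    rintro _ ⟨i, hi, rfl⟩
    exact ⟨⟨i, hi⟩, rfl⟩
  let b := basisOfTopLeSpanOfCardEqFinrank (fun i : Fin l => v i) htop (by simp)
  have hb : ∀ i, b i = v i := fun i => congrFun (coe_basisOfTopLeSpanOfCardEqFinrank _ _ _) i
  refine ⟨rfl, b, fun i => ⟨hb i ▸ (hv i i.2).1, fun w hw j hij => ?_⟩⟩
  have h1 : w ∈ Submodule.span ℂ (b '' Set.Iic i) := by
    rw [hsp (i + 1) i.2] at hw
    refine Submodule.span_mono ?_ hw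
    rintro _ ⟨k, hk, rfl⟩
    have hk' : k < i + 1 := hk
    exact ⟨⟨k, by omega⟩, by simp only [Set.mem_Iic, Fin.le_def]; omega, hb _⟩
  rw [Module.Basis.mem_span_image] at h1
  by_contra hne
  exact absurd (h1 (Finsupp.mem_support_iff.2 hne)) (not_le.2 hij)


section irr

variable {G W : Type} [Group G] [AddCommGroup W] [Module ℂ W]
  {B : SL G ℂ W} {φ : G →* Module.End ℂ W}

theorem lin_mul_inv (φ : G →* Module.End ℂ W) (g : G) : φ g * φ g⁻¹ = 1 := by
  rw [← map_mul, mul_inv_cancel, map_one]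

theorem lin_inv_mul (φ : G →* Module.End ℂ W) (g : G) : φ g⁻¹ * φ g = 1 := by
  rw [← map_mul, inv_mul_cancel, map_one]

theorem lin_inv_sub (hφ : ∀ g v, φ g v = B.act g v) (hSI : B.SI) (K : Subgroup G)
    [K.FiniteIndex] (M : Submodule ℂ W) (hM : ∀ g ∈ K, ∀ v ∈ M, φ g v ∈ M) :
    M = ⊥ ∨ M = ⊤ := by
  by_contra hc
  push Not at hc
  have hle : K ≤ B.stab M := by
    intro g hg
    show B.sub g M = M
    ext v
    rw [B.mem_sub, ← hφ]
    refine ⟨fun h => ?_, hM _ (K.inv_mem hg) v⟩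
    have := hM g hg _ h
    rwa [← Module.End.mul_apply, lin_mul_inv, Module.End.one_apply] at this
  have : (B.stab M).FiniteIndex := Subgroup.finiteIndex_of_le hle
  exact hSI M hc.1 hc.2 ((B.finiteIndex_stab_iff M).1 this)

variable [Module.Finite ℂ W] [Nontrivial W]

theorem lin_schur (hφ : ∀ g v, φ g v = B.act g v) (hSI : B.SI) (K : Subgroup G)
    [K.FiniteIndex] (x : Module.End ℂ W) (hx : ∀ g ∈ K, φ g * x = x * φ g) :
    ∃ μ : ℂ, x = μ • 1 := by
  obtain ⟨μ, hμ⟩ := Module.End.exists_eigenvalue x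
  refine ⟨μ, ?_⟩
  have h1 := lin_inv_sub hφ hSI K (x.eigenspace μ) fun g hg v hv => by
    rw [Module.End.mem_eigenspace_iff] at hv ⊢
    rw [← Module.End.mul_apply, ← hx g hg, Module.End.mul_apply, hv, map_smul]
  rcases h1 with h1 | h1
  · exact absurd h1 hμ
  · ext v
    have : v ∈ x.eigenspace μ := h1 ▸ Submodule.mem_top
    simpa using Module.End.mem_eigenspace_iff.1 this

theorem lin_scalar (hφ : ∀ g v, φ g v = B.act g v) (hSI : B.SI) (K : Subgroup G)
    [K.FiniteIndex] {Q : Type} [AddCommGroup Q] [Module ℂ Q] (σ : G →* Module.End ℂ Q)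
    (ψ : Q →ₗ[ℂ] Module.End ℂ W) (hψ : ∀ g ξ, ψ (σ g ξ) = φ g * ψ ξ * φ g⁻¹) (n : ℕ) :
    ∀ ξ : Q, (∀ l : List G, (∀ g ∈ l, g ∈ K) → l.length = n →
      (l.map fun g => σ g - 1).prod ξ = 0) → ∃ μ : ℂ, ψ ξ = μ • 1 := by
  induction n with
  | zero =>
    intro ξ h
    have : ξ = 0 := by simpa using h [] (by simp) rfl
    exact ⟨0, by simp [this]⟩
  | succ n ih =>
    intro ξ h
    refine lin_schur hφ hSI K _ fun g hg => ?_
    obtain ⟨μ, hμ⟩ := ih ((σ g - 1) ξ) fun l hl hn => by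
      have := h (l ++ [g]) (fun a ha => by
        rcases List.mem_append.1 ha with ha | ha
        · exact hl a ha
        · rw [List.mem_singleton.1 ha]
          exact hg) (by simp [hn])
      rwa [List.map_append, List.prod_append, List.map_singleton, List.prod_singleton,
        Module.End.mul_apply] at this
    rw [LinearMap.sub_apply, Module.End.one_apply, map_sub, hψ] at hμ
    have htr := congrArg (LinearMap.trace ℂ W) hμ
    rw [map_sub, LinearMap.trace_mul_cycle, lin_inv_mul, one_mul, sub_self, map_smul,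
      LinearMap.trace_one, smul_eq_mul] at htr
    have hpos : (Module.finrank ℂ W : ℂ) ≠ 0 := by
      exact_mod_cast (Module.finrank_pos (R := ℂ) (M := W)).ne'
    have hμ0 : μ = 0 := (mul_eq_zero.1 htr.symm).resolve_right hpos
    rw [hμ0, zero_smul, sub_eq_zero] at hμ
    calc φ g * ψ ξ = φ g * ψ ξ * φ g⁻¹ * φ g := by rw [mul_assoc, lin_inv_mul, mul_one]
      _ = ψ ξ * φ g := by rw [hμ]

omit [Module.Finite ℂ W] in
theorem lin_dim_one (hφ : ∀ g v, φ g v = B.act g v) (hSI : B.SI)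
    (h : ∀ g, ∃ μ : ℂ, φ g = μ • 1) : Module.finrank ℂ W = 1 := by
  obtain ⟨v, hv⟩ := exists_ne (0 : W)
  have h1 := lin_inv_sub hφ hSI ⊤ (Submodule.span ℂ {v}) fun g _ w hw => by
    obtain ⟨μ, hμ⟩ := h g
    rw [hμ]
    exact Submodule.smul_mem _ _ hw
  rcases h1 with h1 | h1
  · exact absurd (Submodule.span_singleton_eq_bot.1 h1) hv
  · rw [← finrank_top, ← h1]
    exact finrank_span_singleton hv

theorem lin_pp (hφ : ∀ g v, φ g v = B.act g v) (hα : ∀ g, B.α g = 1) (hSI : B.SI) {L : ℕ}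
    {m : ℝ} (hm : 1 < m)
    (h : NFP G fun S => ∃ a ∈ ball S L, ∃ y : Module.End ℂ W, y ≠ 0 ∧ ∃ μ : ℂ,
      φ a * y * φ a⁻¹ = μ • y ∧ m ≤ ‖μ‖) : False := by
  obtain ⟨δ, hδ⟩ := exists_vol_complex B hα
  set r : ℝ := m ^ ((2 * L + 1 : ℕ) : ℝ)⁻¹ with hr
  have hr1 : 1 < r := Real.one_lt_rpow hm (by positivity)
  have hrm : r ^ (2 * L + 1) = m := Real.rpow_inv_natCast_pow (by linarith) (by omega)
  refine pp (t := (1 / 2 : ℂ)) (by norm_num) (by norm_num) B (MonoidHom.id G)
    Function.surjective_id (fun e he => ⟨1, fun v => ?_⟩) hδ hSI hr1 (h.mono ?_)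
  · have : e = 1 := he
    rw [this, map_one, one_smul]
    rfl
  rintro S - - ⟨a, ha, y, hy, μ, hμ, hmμ⟩ N hN
  by_contra hc
  push Not at hc
  have hlet : ∀ s, (s ∈ S ∨ s⁻¹ ∈ S) → ∀ v, N (φ s v) ≤ r * δ s * N v := fun s hs v => by
    rw [hφ]
    exact hc s hs v
  have hr0 : 0 < r := by linarith
  have hword : ∀ l : List G, (∀ x ∈ l, x ∈ S ∨ x⁻¹ ∈ S) → ∀ v,
      N (φ l.prod v) ≤ r ^ l.length * δ l.prod * N v := by
    intro l
    induction l with
    | nil => intro _ v; simp
    | cons s l ih =>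
      intro hl v
      rw [List.prod_cons, map_mul, Module.End.mul_apply, List.length_cons, map_mul]
      have h1 := hlet s (hl s (by simp)) (φ l.prod v)
      have h2 := ih (fun x hx => hl x (by simp [hx])) v
      have h3 : 0 ≤ r * δ s := (mul_pos hr0 (hδ.pos s)).le
      calc _ ≤ r * δ s * N (φ l.prod v) := h1
        _ ≤ r * δ s * (r ^ l.length * δ l.prod * N v) := mul_le_mul_of_nonneg_left h2 h3
        _ = _ := by ring
  have hball : ∀ b ∈ ball S L, ∀ v, N (φ b v) ≤ r ^ L * δ b * N v := by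
    rintro _ ⟨l, hl, hl', rfl⟩ v
    refine (hword l hl' v).trans (mul_le_mul_of_nonneg_right ?_ (hN.nonneg v))
    exact mul_le_mul_of_nonneg_right (pow_le_pow_right₀ hr1.le hl) (hδ.pos _).le
  have hN' : IsNorm ℂ fun v => N (y v) + N v := by
    refine ⟨fun v w => ?_, fun c v => ?_, fun f => ?_⟩
    · rw [map_add]
      linarith [hN.add (y v) (y w), hN.add v w]
    · rw [map_smul, hN.smul, hN.smul, mul_add]
    · obtain ⟨C, hC⟩ := hN.bdd f
      refine ⟨max C 0, fun v => (hC v).trans ?_⟩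
      have := hN.nonneg v
      have := hN.nonneg (y v)
      calc C * N v ≤ max C 0 * N v := mul_le_mul_of_nonneg_right (le_max_left _ _) (hN.nonneg v)
        _ ≤ _ := mul_le_mul_of_nonneg_left (by linarith) (le_max_right _ _)
  obtain ⟨C, hC0, hC⟩ := hN'.equiv hN
  have hδa : δ a * δ a⁻¹ = 1 := by rw [← map_mul, mul_inv_cancel, map_one]
  have hstep : ∀ n : ℕ, ∀ u, N (y u) ≤ C * r⁻¹ ^ n * N u := by
    intro n
    induction n with
    | zero =>
      intro u
      have := hC u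
      have := hN.nonneg u
      simp only [pow_zero, mul_one]
      linarith
    | succ n ih =>
      intro u
      have e1 : φ a (y (φ a⁻¹ u)) = μ • y u := LinearMap.congr_fun hμ u
      have h1 := hball a ha (y (φ a⁻¹ u))
      have h2 := ih (φ a⁻¹ u)
      have h3 := hball a⁻¹ (inv_mem_ball ha) u
      rw [e1, hN.smul] at h1
      have p1 : 0 ≤ r ^ L * δ a := (mul_pos (pow_pos hr0 _) (hδ.pos a)).le
      have p2 : 0 ≤ C * r⁻¹ ^ n := by positivity
      have h4 : r ^ (2 * L + 1) * N (y u) ≤ r ^ (2 * L) * (C * r⁻¹ ^ n * N u) := by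
        calc r ^ (2 * L + 1) * N (y u) ≤ ‖μ‖ * N (y u) :=
              mul_le_mul_of_nonneg_right (hrm ▸ hmμ) (hN.nonneg _)
          _ ≤ r ^ L * δ a * N (y (φ a⁻¹ u)) := h1
          _ ≤ r ^ L * δ a * (C * r⁻¹ ^ n * N (φ a⁻¹ u)) := mul_le_mul_of_nonneg_left h2 p1
          _ ≤ r ^ L * δ a * (C * r⁻¹ ^ n * (r ^ L * δ a⁻¹ * N u)) :=
              mul_le_mul_of_nonneg_left (mul_le_mul_of_nonneg_left h3 p2) p1
          _ = r ^ (2 * L) * (C * r⁻¹ ^ n * N u) * (δ a * δ a⁻¹) := by ring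
          _ = _ := by rw [hδa, mul_one]
      rw [pow_succ, mul_assoc] at h4
      have h5 := le_of_mul_le_mul_left h4 (pow_pos hr0 _)
      calc N (y u) = r⁻¹ * (r * N (y u)) := by rw [inv_mul_cancel_left₀ hr0.ne']
        _ ≤ r⁻¹ * (C * r⁻¹ ^ n * N u) := mul_le_mul_of_nonneg_left h5 (by positivity)
        _ = _ := by ring
  apply hy
  ext u
  have hlim : Filter.Tendsto (fun n : ℕ => C * r⁻¹ ^ n * N u) Filter.atTop (nhds (C * 0 * N u)) :=
    ((tendsto_pow_atTop_nhds_zero_of_lt_one (by positivity)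
      (inv_lt_one_of_one_lt₀ hr1)).const_mul C).mul_const _
  have h0 := ge_of_tendsto' hlim fun n => hstep n u
  rw [mul_zero, zero_mul] at h0
  exact hN.eq_zero (le_antisymm h0 (hN.nonneg _))

end irr


section core

variable {G V : Type} [Group G] [AddCommGroup V] [Module ℂ V]

/-- The extension of a representation to the group algebra. -/
abbrev lin_ext (r : G →* Module.End ℂ V) : MonoidAlgebra ℂ G →ₐ[ℂ] Module.End ℂ V :=
  MonoidAlgebra.lift ℂ (Module.End ℂ V) G r

theorem lin_ext_of (r : G →* Module.End ℂ V) (g : G) :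
    lin_ext r (MonoidAlgebra.of ℂ G g) = r g := MonoidAlgebra.lift_of r g

/-- The functional `x ↦ tr (x y)`. -/
def lin_tr (r : G →* Module.End ℂ V) (y : MonoidAlgebra ℂ G) : MonoidAlgebra ℂ G →ₗ[ℂ] ℂ :=
  (LinearMap.trace ℂ V).comp ((lin_ext r).toLinearMap.comp (LinearMap.mulRight ℂ y))

theorem lin_tr_apply (r : G →* Module.End ℂ V) (x y : MonoidAlgebra ℂ G) :
    lin_tr r y x = LinearMap.trace ℂ V (lin_ext r x * lin_ext r y) := by
  simp [lin_tr]

/-- The radical of the trace form. -/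
def lin_rad (r : G →* Module.End ℂ V) : Submodule ℂ (MonoidAlgebra ℂ G) :=
  ⨅ y, LinearMap.ker (lin_tr r y)

theorem lin_mem_rad {r : G →* Module.End ℂ V} {x : MonoidAlgebra ℂ G} :
    x ∈ lin_rad r ↔ ∀ y, LinearMap.trace ℂ V (lin_ext r x * lin_ext r y) = 0 := by
  simp only [lin_rad, Submodule.mem_iInf, LinearMap.mem_ker, lin_tr_apply]

theorem lin_rad_mul_right {r : G →* Module.End ℂ V} {x : MonoidAlgebra ℂ G} (hx : x ∈ lin_rad r)
    (z : MonoidAlgebra ℂ G) : x * z ∈ lin_rad r := by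
  rw [lin_mem_rad] at hx ⊢
  intro y
  rw [map_mul (lin_ext r), mul_assoc, ← map_mul]
  exact hx _

theorem lin_rad_mul_left {r : G →* Module.End ℂ V} {x : MonoidAlgebra ℂ G} (hx : x ∈ lin_rad r)
    (z : MonoidAlgebra ℂ G) : z * x ∈ lin_rad r := by
  rw [lin_mem_rad] at hx ⊢
  intro y
  rw [map_mul (lin_ext r), mul_assoc, LinearMap.trace_mul_comm, mul_assoc, ← map_mul]
  exact hx _

theorem lin_mem_rad_of {r : G →* Module.End ℂ V} {x : MonoidAlgebra ℂ G}
    (h : ∀ g, lin_tr r (MonoidAlgebra.of ℂ G g) x = 0) : x ∈ lin_rad r := by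
  rw [lin_mem_rad]
  intro y
  induction y using MonoidAlgebra.induction_on with
  | of g => rw [← lin_tr_apply]; exact h g
  | add y z hy hz => rw [map_add, mul_add, map_add, hy, hz, add_zero]
  | smul c y hy => rw [map_smul, mul_smul_comm, map_smul, hy, smul_zero]

/-- Conjugation on the group algebra. -/
def lin_conj (g : G) : Module.End ℂ (MonoidAlgebra ℂ G) :=
  (LinearMap.mulRight ℂ (MonoidAlgebra.of ℂ G g⁻¹)).comp
    (LinearMap.mulLeft ℂ (MonoidAlgebra.of ℂ G g))

theorem lin_conj_apply (g : G) (x : MonoidAlgebra ℂ G) :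
    lin_conj g x = MonoidAlgebra.of ℂ G g * x * MonoidAlgebra.of ℂ G g⁻¹ := rfl

/-- Conjugation on the quotient by the radical. -/
def lin_sigma (r : G →* Module.End ℂ V) :
    G →* Module.End ℂ (MonoidAlgebra ℂ G ⧸ lin_rad r) where
  toFun g := (lin_rad r).mapQ (lin_rad r) (lin_conj g) fun _ hx =>
    lin_rad_mul_right (lin_rad_mul_left hx _) _
  map_one' := by
    refine LinearMap.ext fun ξ => ?_
    obtain ⟨x, rfl⟩ := Submodule.Quotient.mk_surjective _ ξ
    rw [Submodule.mapQ_apply, lin_conj_apply, inv_one, map_one, one_mul, mul_one]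
    rfl
  map_mul' g h := by
    refine LinearMap.ext fun ξ => ?_
    obtain ⟨x, rfl⟩ := Submodule.Quotient.mk_surjective _ ξ
    rw [Module.End.mul_apply, Submodule.mapQ_apply, Submodule.mapQ_apply, Submodule.mapQ_apply,
      lin_conj_apply, lin_conj_apply, lin_conj_apply, mul_inv_rev, map_mul, map_mul]
    simp only [mul_assoc]

theorem lin_sigma_mk (r : G →* Module.End ℂ V) (g : G) (x : MonoidAlgebra ℂ G) :
    lin_sigma r g (Submodule.Quotient.mk x) =
      Submodule.Quotient.mk (MonoidAlgebra.of ℂ G g * x * MonoidAlgebra.of ℂ G g⁻¹) := rfl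

variable [Module.Finite ℂ V]

theorem lin_finite_quot (r : G →* Module.End ℂ V) :
    Module.Finite ℂ (MonoidAlgebra ℂ G ⧸ lin_rad r) := by
  have h1 : LinearMap.ker (lin_ext r).toLinearMap ≤ lin_rad r := by
    intro x hx
    rw [lin_mem_rad]
    intro y
    have : lin_ext r x = 0 := hx
    rw [this, zero_mul, map_zero]
  have : Module.Finite ℂ (MonoidAlgebra ℂ G ⧸ LinearMap.ker (lin_ext r).toLinearMap) :=
    Module.Finite.equiv (LinearMap.quotKerEquivRange _).symm
  exact Module.Finite.of_surjective (Submodule.factor h1) (Submodule.factor_surjective h1)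

theorem lin_rad_nil {r : G →* Module.End ℂ V} {x : MonoidAlgebra ℂ G} (hx : x ∈ lin_rad r) :
    IsNilpotent (lin_ext r x) := by
  refine lin_nilpotent _ fun p => ?_
  rw [Polynomial.aeval_algHom_apply]
  exact lin_mem_rad.1 hx _

theorem lin_rad_kills {W : Type} [AddCommGroup W] [Module ℂ W] {B : SL G ℂ W}
    {φ : G →* Module.End ℂ W} (hφ : ∀ g v, φ g v = B.act g v) (hSI : B.SI)
    {r : G →* Module.End ℂ V} (h1 : ∀ x, lin_ext r x = 0 → lin_ext φ x = 0)
    {x : MonoidAlgebra ℂ G} (hx : x ∈ lin_rad r) : lin_ext φ x = 0 := by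
  ext w
  by_contra hw
  rw [LinearMap.zero_apply] at hw
  let e : MonoidAlgebra ℂ G →ₗ[ℂ] W :=
    (LinearMap.applyₗ (lin_ext φ x w)).comp (lin_ext φ).toLinearMap
  have he : ∀ y, e y = lin_ext φ y (lin_ext φ x w) := fun y => rfl
  have h2 := lin_inv_sub hφ hSI ⊤ (LinearMap.range e) (by
    rintro g - _ ⟨y, rfl⟩
    refine ⟨MonoidAlgebra.of ℂ G g * y, ?_⟩
    rw [he, he, map_mul, lin_ext_of, Module.End.mul_apply])
  rcases h2 with h2 | h2
  · apply hw
    have : e 1 ∈ LinearMap.range e := ⟨1, rfl⟩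
    rw [h2, Submodule.mem_bot, he, map_one] at this
    exact this
  · have : w ∈ LinearMap.range e := h2 ▸ Submodule.mem_top
    obtain ⟨y, hy⟩ := this
    rw [he, ← Module.End.mul_apply, ← map_mul] at hy
    obtain ⟨n, hn⟩ := lin_rad_nil (lin_rad_mul_left hx y)
    rw [← map_pow] at hn
    have h3 := h1 _ hn
    rw [map_pow] at h3
    have h4 : ∀ k : ℕ, (lin_ext φ (y * x) ^ k) w = w := by
      intro k
      induction k with
      | zero => simp
      | succ k ih => rw [pow_succ, Module.End.mul_apply, hy, ih]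
    have h5 := h4 n
    rw [h3, LinearMap.zero_apply] at h5
    apply hw
    rw [← h5, map_zero]

theorem lin_list_matrix {Q : Type} [AddCommGroup Q] [Module ℂ Q] {D : ℕ}
    (b : Module.Basis (Fin D) ℂ Q) (σ : G →* Module.End ℂ Q) (τ : G →* Matrix (Fin D) (Fin D) ℤ)
    (h : ∀ g, LinearMap.toMatrix b b (σ g) = cplx (τ g)) (l : List G) :
    LinearMap.toMatrix b b (l.map fun g => σ g - 1).prod =
      cplx (((l.map τ).map fun A => A - 1).prod) := by
  induction l with
  | nil => simp [lin_cplx_one]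
  | cons g l ih =>
    simp only [List.map_cons, List.prod_cons]
    rw [LinearMap.toMatrix_mul, ih, lin_cplx_mul, map_sub, h, lin_cplx_sub, lin_cplx_one,
      LinearMap.toMatrix_one]

theorem lin_core (hG : NF G) (r : G →* Module.End ℂ V)
    (hr : ∀ g, ∃ n : ℤ, LinearMap.trace ℂ V (r g) = n) {κ : Type} [Finite κ] (W : κ → Type)
    [∀ k, AddCommGroup (W k)] [∀ k, Module ℂ (W k)] [∀ k, Module.Finite ℂ (W k)]
    [∀ k, Nontrivial (W k)] (B : ∀ k, SL G ℂ (W k)) (φ : ∀ k, G →* Module.End ℂ (W k))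
    (hφ : ∀ k g v, φ k g v = (B k).act g v) (hα : ∀ k g, (B k).α g = 1) (hSI : ∀ k, (B k).SI)
    (h1 : ∀ k x, lin_ext r x = 0 → lin_ext (φ k) x = 0)
    (h2 : ∀ x, (∀ k, lin_ext (φ k) x = 0) → IsNilpotent (lin_ext r x)) (k : κ) :
    Module.finrank ℂ (W k) = 1 := by
  have := lin_finite_quot r
  let Q := MonoidAlgebra ℂ G ⧸ lin_rad r
  let e : G → Q := fun g => Submodule.Quotient.mk (MonoidAlgebra.of ℂ G g)
  let ψ : ∀ k, Q →ₗ[ℂ] Module.End ℂ (W k) := fun k =>
    (lin_rad r).liftQ (lin_ext (φ k)).toLinearMap fun x hx =>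
      lin_rad_kills (hφ k) (hSI k) (h1 k) hx
  have hψ : ∀ k x, ψ k (Submodule.Quotient.mk x) = lin_ext (φ k) x := fun k x => rfl
  have hψσ : ∀ k g ξ, ψ k (lin_sigma r g ξ) = φ k g * ψ k ξ * φ k g⁻¹ := by
    intro k g ξ
    obtain ⟨x, rfl⟩ := Submodule.Quotient.mk_surjective _ ξ
    rw [lin_sigma_mk, hψ, hψ, map_mul, map_mul, lin_ext_of, lin_ext_of]
  have hψinj : ∀ ξ : Q, (∀ k, ψ k ξ = 0) → ξ = 0 := by
    intro ξ hξ
    obtain ⟨x, rfl⟩ := Submodule.Quotient.mk_surjective _ ξ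
    rw [Submodule.Quotient.mk_eq_zero, lin_mem_rad]
    intro y
    rw [← map_mul]
    refine (LinearMap.isNilpotent_trace_of_isNilpotent (h2 _ fun k => ?_)).eq_zero
    rw [map_mul, ← hψ, hξ, zero_mul]
  let F : G → Q →ₗ[ℂ] ℂ := fun g => (lin_rad r).liftQ (lin_tr r (MonoidAlgebra.of ℂ G g))
    (iInf_le (fun y => LinearMap.ker (lin_tr r y)) _)
  have hF : ∀ g x, F g (Submodule.Quotient.mk x) = lin_tr r (MonoidAlgebra.of ℂ G g) x :=
    fun g x => rfl
  obtain ⟨b, τ, hτ⟩ := lin_int_matrices (lin_sigma r) (AddSubgroup.closure (Set.range e)) (by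
      rw [eq_top_iff]
      rintro ξ -
      obtain ⟨x, rfl⟩ := Submodule.Quotient.mk_surjective _ ξ
      induction x using MonoidAlgebra.induction_on with
      | of g => exact Submodule.subset_span (AddSubgroup.subset_closure ⟨g, rfl⟩)
      | add y z hy hz => exact Submodule.add_mem _ hy hz
      | smul c y hy => exact Submodule.smul_mem _ c hy)
    (by
      intro g ξ hξ
      have hle : AddSubgroup.closure (Set.range e) ≤
          (AddSubgroup.closure (Set.range e)).comap (lin_sigma r g).toAddMonoidHom := by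
        rw [AddSubgroup.closure_le]
        rintro _ ⟨h, rfl⟩
        refine AddSubgroup.subset_closure ⟨g * h * g⁻¹, ?_⟩
        simp only [e, map_mul]
        rfl
      exact hle hξ) F
    (by
      intro ξ hξ
      obtain ⟨x, rfl⟩ := Submodule.Quotient.mk_surjective _ ξ
      rw [Submodule.Quotient.mk_eq_zero]
      exact lin_mem_rad_of hξ)
    (by
      intro g ξ hξ
      induction hξ using AddSubgroup.closure_induction with
      | mem _ h =>
        obtain ⟨h, rfl⟩ := h
        rw [hF, lin_tr_apply, lin_ext_of, lin_ext_of, ← map_mul]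
        exact hr _
      | zero => exact ⟨0, by simp⟩
      | add x y _ _ hx hy =>
        obtain ⟨a, ha⟩ := hx
        obtain ⟨c, hc⟩ := hy
        exact ⟨a + c, by rw [map_add, ha, hc, Int.cast_add]⟩
      | neg x _ hx =>
        obtain ⟨a, ha⟩ := hx
        exact ⟨-a, by rw [map_neg, ha, Int.cast_neg]⟩)
  rcases trace_dichotomy τ with ⟨K, hK, -, hU⟩ | ⟨L, hL⟩
  · refine lin_dim_one (hφ k) (hSI k) fun g => ?_
    have h3 := lin_scalar (hφ k) (hSI k) K (lin_sigma r) (ψ k) (hψσ k) _ (e g) fun l hl hn => by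
      have h4 := lin_list_matrix b (lin_sigma r) τ hτ l
      rw [hU (l.map τ) (fun A hA => by
        obtain ⟨a, ha, rfl⟩ := List.mem_map.1 hA
        exact ⟨a, hl a ha, rfl⟩) (by rw [List.length_map, hn]), lin_cplx_zero,
        LinearEquiv.map_eq_zero_iff] at h4
      rw [h4, LinearMap.zero_apply]
    rwa [hψ, lin_ext_of] at h3
  · exfalso
    by_cases hD : Module.finrank ℂ Q = 0
    · obtain ⟨a, -, ha⟩ := hL Set.univ Subgroup.closure_univ
      have hE : IsEmpty (Fin (Module.finrank ℂ Q)) := by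
        rw [hD]
        infer_instance
      have : (τ a).trace = 0 := by simp [Matrix.trace]
      rw [this, abs_zero] at ha
      omega
    have hm : (1 : ℝ) < 1 + 1 / (Module.finrank ℂ Q : ℝ) := by
      have : (0 : ℝ) < Module.finrank ℂ Q := by exact_mod_cast Nat.pos_of_ne_zero hD
      have : 0 < 1 / (Module.finrank ℂ Q : ℝ) := by positivity
      linarith
    have h3 : NFP G fun S => ∃ k, ∃ a ∈ ball S L, ∃ y : Module.End ℂ (W k), y ≠ 0 ∧ ∃ μ : ℂ,
        φ k a * y * φ k a⁻¹ = μ • y ∧ 1 + 1 / (Module.finrank ℂ Q : ℝ) ≤ ‖μ‖ := by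
      refine NFP.mono hG fun S _ hS _ => ?_
      obtain ⟨a, ha, hta⟩ := hL S hS
      obtain ⟨μ, v, hv, hμ, hn⟩ := exists_eigen_of_trace (cplx (τ a)) (by
        rw [lin_cplx_trace, Complex.norm_intCast]
        exact_mod_cast hta)
      have hξ : lin_sigma r a (b.equivFun.symm v) = μ • b.equivFun.symm v := by
        apply b.equivFun.injective
        rw [map_smul, LinearEquiv.apply_symm_apply, ← hμ, ← hτ, Module.Basis.equivFun_apply,
          ← LinearMap.toMatrix_mulVec_repr b b, ← Module.Basis.equivFun_apply,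
          LinearEquiv.apply_symm_apply]
      have hne : ¬ ∀ k, ψ k (b.equivFun.symm v) = 0 := fun h =>
        hv (b.equivFun.symm.map_eq_zero_iff.1 (hψinj _ h))
      push Not at hne
      obtain ⟨k, hk⟩ := hne
      exact ⟨k, a, ha, _, hk, μ, by rw [← hψσ, hξ, map_smul], hn⟩
    obtain ⟨k', hk'⟩ := NFP.pigeon h3
    exact lin_pp (hφ k') (hα k') (hSI k') hm hk'

end core


/-- The linear action on column vectors. -/
def lin_rep (ρ : H →* Matrix (Fin d) (Fin d) ℤ) : H →* Module.End ℂ (Fin d → ℂ) where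
  toFun h := Matrix.toLin' (cplx (ρ h))
  map_one' := by rw [map_one, lin_cplx_one, Matrix.toLin'_one]; rfl
  map_mul' g h := by rw [map_mul, lin_cplx_mul, Matrix.toLin'_mul]; rfl

/-- A linear action as a semilinear action. -/
def lin_sl {G W : Type} [Group G] [AddCommGroup W] [Module ℂ W] (φ : G →* Module.End ℂ W) :
    SL G ℂ W where
  α := 1
  act :=
    { toFun := fun g => (φ g).toAddMonoidHom
      map_one' := by rw [map_one]; rfl
      map_mul' := fun g h => by rw [map_mul]; rfl }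
  smul := fun g c v => (φ g).map_smul c v
  iso := fun _ _ => rfl

/-- A semilinear action along the trivial automorphisms as a linear action. -/
def lin_of_sl {G W : Type} [Group G] [AddCommGroup W] [Module ℂ W] (B : SL G ℂ W)
    (hα : ∀ g, B.α g = 1) : G →* Module.End ℂ W where
  toFun g :=
    { toFun := B.act g
      map_add' := map_add _
      map_smul' := fun c v => by rw [B.smul, hα]; rfl }
  map_one' := by
    ext v
    simp
  map_mul' g h := by
    ext v
    simp

theorem lin_finrank_sq {V : Type} [AddCommGroup V] [Module ℂ V] [Module.Finite ℂ V]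
    {U₀ U₁ : Submodule ℂ V} (h : U₀ ≤ U₁) :
    Module.finrank ℂ (SL.SQ U₀ U₁) + Module.finrank ℂ U₀ = Module.finrank ℂ U₁ := by
  rw [← Submodule.finrank_quotient_add_finrank (U₀.comap U₁.subtype),
    (Submodule.comapSubtypeEquivOfLe h).finrank_eq]

/-- Let `U` be the chain of `SL.exists_chain` for the action on `Fin d → ℂ` and `H₁` its
stabilizer. By `lin_core` each step `U (k + 1) / U k` has dimension one. -/
theorem exists_triangular (hH : NF H) (ρ : H →* Matrix (Fin d) (Fin d) ℤ) :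
    ∃ H₁ : Subgroup H, H₁.FiniteIndex ∧ ∃ b : Module.Basis (Fin d) ℂ (Fin d → ℂ),
      ∀ h ∈ H₁, ∀ i j, i < j → b.repr ((cplx (ρ h)).mulVec (b i)) j = 0 := by
  let A := lin_sl (lin_rep ρ)
  obtain ⟨l, U, h0, hl, hlt, hfi, hmax⟩ := A.exists_chain
  let H₁ : Subgroup H := ⨅ k : Fin (l + 1), A.stab (U k)
  have hH₁ : H₁.FiniteIndex := Subgroup.finiteIndex_iInf fun k => hfi k (by omega)
  have hle : ∀ k ≤ l, H₁ ≤ A.stab (U k) := fun k hk =>
    iInf_le (fun k : Fin (l + 1) => A.stab (U k)) ⟨k, by omega⟩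
  have hinv : ∀ k ≤ l, ∀ h ∈ H₁, ∀ v ∈ U k, lin_rep ρ h v ∈ U k := by
    intro k hk h hh v hv
    have h1 : A.sub h (U k) = U k := hle k hk hh
    rw [← h1]
    exact ⟨v, hv, rfl⟩
  let r : H₁ →* Module.End ℂ (Fin d → ℂ) := (lin_rep ρ).comp H₁.subtype
  have hB : ∀ k : Fin l, ∃ B : SL H₁ ℂ (SL.SQ (U k) (U (k + 1))), (∀ g, B.α g = 1) ∧
      ∀ (e : H₁) (v w : U (k + 1)), (w : Fin d → ℂ) = A.act e v →
        B.act e (Submodule.Quotient.mk v) = Submodule.Quotient.mk w := by
    intro k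
    obtain ⟨B, hB1, hB2⟩ := (A.comp H₁.subtype).exists_subquot (U₀ := U k) (U₁ := U (k + 1))
      (fun e => hle k k.2.le e.2) (fun e => hle (k + 1) k.2 e.2)
    exact ⟨B, fun g => by rw [hB1]; rfl, hB2⟩
  choose B hα hB using hB
  have hSI : ∀ k, (B k).SI := fun k =>
    A.si_subquot (hlt k k.2).le (hmax k k.2) (B k) (hB k) (hle k k.2.le) (hle (k + 1) k.2)
  have hnt : ∀ k : Fin l, Nontrivial (SL.SQ (U k) (U (k + 1))) := fun k => by
    apply Module.nontrivial_of_finrank_pos (R := ℂ)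
    have h1 := lin_finrank_sq (hlt k k.2).le
    have h2 := Submodule.finrank_lt_finrank_of_lt (hlt k k.2)
    omega
  let φ : ∀ k : Fin l, H₁ →* Module.End ℂ (SL.SQ (U k) (U (k + 1))) :=
    fun k => lin_of_sl (B k) (hα k)
  have hcomp : ∀ (k : Fin l) (x : MonoidAlgebra ℂ H₁) (v : U (k + 1)), ∃ w : U (k + 1),
      (w : Fin d → ℂ) = lin_ext r x v ∧
        lin_ext (φ k) x (Submodule.Quotient.mk v) = Submodule.Quotient.mk w := by
    intro k x v
    induction x using MonoidAlgebra.induction_on with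
    | of g =>
      rw [lin_ext_of, lin_ext_of]
      exact ⟨⟨_, hinv (k + 1) k.2 g g.2 v v.2⟩, rfl, hB k g v _ rfl⟩
    | add y z hy hz =>
      obtain ⟨w, e1, e2⟩ := hy
      obtain ⟨w', e1', e2'⟩ := hz
      refine ⟨w + w', ?_, ?_⟩
      · rw [map_add, LinearMap.add_apply, ← e1, ← e1', Submodule.coe_add]
      · rw [map_add, LinearMap.add_apply, e2, e2', Submodule.Quotient.mk_add]
    | smul c y hy =>
      obtain ⟨w, e1, e2⟩ := hy
      refine ⟨c • w, ?_, ?_⟩
      · rw [map_smul, LinearMap.smul_apply, ← e1, Submodule.coe_smul]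
      · rw [map_smul, LinearMap.smul_apply, e2, Submodule.Quotient.mk_smul]
  have hone := lin_core (hH.subgroup H₁) r (fun g => ⟨(ρ g).trace, by
      rw [← lin_cplx_trace]
      exact Matrix.trace_toLin'_eq _⟩)
    (fun k : Fin l => SL.SQ (U k) (U (k + 1))) B φ (fun _ _ _ => rfl) hα hSI
    (by
      intro k x hx
      refine LinearMap.ext fun ξ => ?_
      obtain ⟨v, rfl⟩ := Submodule.Quotient.mk_surjective _ ξ
      obtain ⟨w, e1, e2⟩ := hcomp k x v
      rw [hx, LinearMap.zero_apply] at e1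
      have : w = 0 := Subtype.ext e1
      rw [e2, this]
      rfl)
    (by
      intro x hx
      have h1 : ∀ k ≤ l, ∀ v ∈ U k, (lin_ext r x ^ k) v = 0 := by
        intro k
        induction k with
        | zero =>
          intro _ v hv
          rw [h0, Submodule.mem_bot] at hv
          rw [hv, map_zero]
        | succ k ih =>
          intro hk v hv
          obtain ⟨w, e1, e2⟩ := hcomp ⟨k, hk⟩ x ⟨v, hv⟩
          rw [hx, LinearMap.zero_apply, eq_comm, Submodule.Quotient.mk_eq_zero] at e2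
          rw [pow_succ, Module.End.mul_apply]
          refine ih (by omega) _ ?_
          have e3 : (w : Fin d → ℂ) ∈ U k := e2
          rwa [e1] at e3
      refine ⟨l, LinearMap.ext fun v => h1 l le_rfl v ?_⟩
      rw [hl]
      exact Submodule.mem_top)
  obtain ⟨hld, b, hb⟩ := lin_flag_basis U h0 hl hlt fun k hk => by
    have h1 := lin_finrank_sq (hlt k hk).le
    have h2 : Module.finrank ℂ (SL.SQ (U k) (U (k + 1))) = 1 := hone ⟨k, hk⟩
    omega
  refine ⟨H₁, hH₁, b, fun h hh i j hij => (hb i).2 _ ?_ j hij⟩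
  exact hinv (i + 1) (by omega) h hh _ (hb i).1

end Pool.Agent.Lib.MP_9ac97d_al
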