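import Pool.Agent.Lib.MP_9ac97d_al.Mod
import Pool.Agent.Lib.MP_9ac97d_al.TCut

/-!
# Cycles, relations, independence, ranks (task MBasic)
-/

set_option autoImplicit false

noncomputable section

open Pointwise

namespace Pool.Agent.Lib.MP_9ac97d_al

section General

variable {G D : Type} [Group G] [DivisionRing D] (ι : G →* D)

theorem MBasic_bdy_single (a : G) (d : D) : bdy ι (Finsupp.single a d) = d * (ι a - 1) := by
  simp [bdy]

theorem MBasic_tau_single (l a : G) (d : D) :
    tau ι l (Finsupp.single a d) = Finsupp.single (l * a * l⁻¹) (d * ι l⁻¹) := by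
  simp [tau]

theorem MBasic_mem_zz {S : Subgroup G} {z : G →₀ D} :
    z ∈ ZZ ι S ↔ z ∈ Finsupp.supported D D (S : Set G) ∧ bdy ι z = 0 := Iff.rfl

theorem MBasic_supp_ind {M : Type} [AddCommGroup M] [Module D M] {S : Set G}
    (φ : (G →₀ D) →ₗ[D] M) (R : Submodule D M) (h : ∀ a ∈ S, φ (Finsupp.single a 1) ∈ R)
    {z : G →₀ D} (hz : z ∈ Finsupp.supported D D S) : φ z ∈ R := by
  rw [Finsupp.supported_eq_span_single] at hz
  have : Submodule.span D ((fun i => Finsupp.single i (1 : D)) '' S) ≤ R.comap φ := by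
    refine Submodule.span_le.2 ?_
    rintro x ⟨a, ha, rfl⟩
    exact h a ha
  exact this hz

/-- The class of a generator modulo the relations. -/
def MBasic_dl (S : Subgroup G) (a : G) : (G →₀ D) ⧸ Rel ι S :=
  (Rel ι S).mkQ (Finsupp.single a 1)

theorem MBasic_mk_single (S : Subgroup G) (a : G) (d : D) :
    (Rel ι S).mkQ (Finsupp.single a d) = d • MBasic_dl ι S a := by
  rw [MBasic_dl, ← map_smul, Finsupp.smul_single, smul_eq_mul, mul_one]

theorem MBasic_mem_rel {S : Subgroup G} {x : G →₀ D} : x ∈ Rel ι S ↔ (Rel ι S).mkQ x = 0 := by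
  rw [Submodule.mkQ_apply, Submodule.Quotient.mk_eq_zero]

theorem MBasic_dl_mul {S : Subgroup G} {a b : G} (ha : a ∈ S) (hb : b ∈ S) :
    MBasic_dl ι S (a * b) = MBasic_dl ι S a + ι a • MBasic_dl ι S b := by
  have h : Finsupp.single (a * b) (1 : D) - Finsupp.single a 1 - Finsupp.single b (ι a) ∈
      Rel ι S := Submodule.subset_span ⟨a, ha, b, hb, rfl⟩
  rw [MBasic_mem_rel, map_sub, map_sub, MBasic_mk_single, MBasic_mk_single, MBasic_mk_single,
    one_smul, one_smul, sub_sub, sub_eq_zero] at h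
  exact h

theorem MBasic_dl_one (S : Subgroup G) : MBasic_dl ι S 1 = 0 := by
  have h := MBasic_dl_mul ι S.one_mem S.one_mem
  rw [mul_one, map_one, one_smul] at h
  exact left_eq_add.1 h

theorem MBasic_dl_inv {S : Subgroup G} {a : G} (ha : a ∈ S) :
    MBasic_dl ι S a⁻¹ = -(ι a⁻¹ • MBasic_dl ι S a) := by
  have h := MBasic_dl_mul ι (S.inv_mem ha) ha
  rw [inv_mul_cancel, MBasic_dl_one] at h
  exact eq_neg_of_add_eq_zero_left h.symm

theorem MBasic_dl_conj {S : Subgroup G} {g a : G} (hg : g ∈ S) (ha : a ∈ S) :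
    MBasic_dl ι S (g * a * g⁻¹) =
      (1 - ι (g * a * g⁻¹)) • MBasic_dl ι S g + ι g • MBasic_dl ι S a := by
  rw [MBasic_dl_mul ι (S.mul_mem hg ha) (S.inv_mem hg), MBasic_dl_mul ι hg ha,
    MBasic_dl_inv ι hg, smul_neg, smul_smul, ← map_mul, sub_smul, one_smul]
  abel

theorem rel_le_zz (S : Subgroup G) : Rel ι S ≤ ZZ ι S := by
  refine Submodule.span_le.2 ?_
  rintro x ⟨a, ha, b, hb, rfl⟩
  refine ⟨?_, ?_⟩
  · exact sub_mem (sub_mem (Finsupp.single_mem_supported D _ (S.mul_mem ha hb))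
      (Finsupp.single_mem_supported D _ ha)) (Finsupp.single_mem_supported D _ hb)
  · change bdy ι _ = 0
    rw [map_sub, map_sub, MBasic_bdy_single, MBasic_bdy_single, MBasic_bdy_single, map_mul]
    noncomm_ring

theorem rel_mono {S L : Subgroup G} (h : S ≤ L) : Rel ι S ≤ Rel ι L := by
  refine Submodule.span_mono ?_
  rintro x ⟨a, ha, b, hb, rfl⟩
  exact ⟨a, h ha, b, h hb, rfl⟩

theorem zz_mono {S L : Subgroup G} (h : S ≤ L) : ZZ ι S ≤ ZZ ι L := by
  exact inf_le_inf_right _ (Finsupp.supported_mono h)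

theorem single_one_mem_rel (S : Subgroup G) (d : D) : Finsupp.single (1 : G) d ∈ Rel ι S := by
  rw [MBasic_mem_rel, MBasic_mk_single, MBasic_dl_one, smul_zero]

theorem zz_bot_le : ZZ ι (⊥ : Subgroup G) ≤ Rel ι ⊥ := by
  intro z hz
  refine MBasic_supp_ind (LinearMap.id) (Rel ι ⊥) ?_ hz.1
  intro a ha
  have : a = 1 := Subgroup.mem_bot.1 ha
  subst this
  exact single_one_mem_rel ι ⊥ 1

/-- A derivation on `S` defines a functional that kills the relations. -/
theorem linearCombination_eq_zero_of_mem_rel {S : Subgroup G} {M : Type} [AddCommGroup M]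
    [Module D M] {δ : G → M} (hδ : ∀ a ∈ S, ∀ b ∈ S, δ (a * b) = δ a + ι a • δ b)
    {x : G →₀ D} (hx : x ∈ Rel ι S) : Finsupp.linearCombination D δ x = 0 := by
  have : Rel ι S ≤ LinearMap.ker (Finsupp.linearCombination D δ) := by
    refine Submodule.span_le.2 ?_
    rintro x ⟨a, ha, b, hb, rfl⟩
    change Finsupp.linearCombination D δ _ = 0
    rw [map_sub, map_sub, Finsupp.linearCombination_single, Finsupp.linearCombination_single,
      Finsupp.linearCombination_single, one_smul, one_smul, hδ a ha b hb]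
    abel
  exact this hx

theorem MBasic_tau_mul (l l' : G) (z : G →₀ D) : tau ι (l * l') z = tau ι l (tau ι l' z) := by
  have : tau ι (l * l') = (tau ι l).comp (tau ι l') := by
    refine Finsupp.lhom_ext fun a d => ?_
    rw [LinearMap.comp_apply, MBasic_tau_single, MBasic_tau_single, MBasic_tau_single,
      mul_inv_rev, map_mul]
    simp only [mul_assoc]
  rw [this, LinearMap.comp_apply]

theorem MBasic_tau_one (z : G →₀ D) : tau ι 1 z = z := by
  have : tau ι 1 = LinearMap.id := by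
    refine Finsupp.lhom_ext fun a d => ?_
    rw [MBasic_tau_single]
    simp
  rw [this, LinearMap.id_apply]

theorem MBasic_conj_mem {l a : G} {S : Subgroup G} (ha : a ∈ S) :
    l * a * l⁻¹ ∈ MulAut.conj l • S :=
  Subgroup.smul_mem_pointwise_smul a (MulAut.conj l) S ha

theorem MBasic_bdy_tau (l : G) (z : G →₀ D) : bdy ι (tau ι l z) = bdy ι z * ι l⁻¹ := by
  induction z using Finsupp.induction_linear with
  | zero => simp
  | add f g hf hg => rw [map_add, map_add, map_add, hf, hg, add_mul]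
  | single a d =>
    have h1 : ι l⁻¹ * ι l = 1 := by rw [← map_mul, inv_mul_cancel, map_one]
    rw [MBasic_tau_single, MBasic_bdy_single, MBasic_bdy_single, map_mul, map_mul, mul_assoc d,
      mul_assoc d, mul_sub, ← mul_assoc (ι l⁻¹), ← mul_assoc (ι l⁻¹), h1, one_mul, mul_one,
      sub_mul, one_mul]

theorem MBasic_tau_zz (l : G) {S : Subgroup G} {z : G →₀ D} (hz : z ∈ ZZ ι S) :
    tau ι l z ∈ ZZ ι (MulAut.conj l • S) := by
  rw [MBasic_mem_zz] at hz ⊢
  refine ⟨MBasic_supp_ind (tau ι l) _ ?_ hz.1, ?_⟩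
  · intro a ha
    rw [MBasic_tau_single]
    exact Finsupp.single_mem_supported D _ (MBasic_conj_mem ha)
  · rw [MBasic_bdy_tau, hz.2, zero_mul]

theorem MBasic_tau_rel (l : G) {S : Subgroup G} {z : G →₀ D} (hz : z ∈ Rel ι S) :
    tau ι l z ∈ Rel ι (MulAut.conj l • S) := by
  have : Rel ι S ≤ (Rel ι (MulAut.conj l • S)).comap (tau ι l) := by
    refine Submodule.span_le.2 ?_
    rintro x ⟨a, ha, b, hb, rfl⟩
    change tau ι l _ ∈ Rel ι (MulAut.conj l • S)
    have h1 : ι l⁻¹ * ι l = 1 := by rw [← map_mul, inv_mul_cancel, map_one]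
    have e : l * (a * b) * l⁻¹ = l * a * l⁻¹ * (l * b * l⁻¹) := by group
    rw [map_sub, map_sub, MBasic_tau_single, MBasic_tau_single,
      MBasic_tau_single, MBasic_mem_rel, map_sub, map_sub, MBasic_mk_single, MBasic_mk_single, MBasic_mk_single,
      e, MBasic_dl_mul ι (MBasic_conj_mem ha) (MBasic_conj_mem hb), smul_add, smul_smul, one_mul,
      map_mul, map_mul, ← mul_assoc (ι l⁻¹), ← mul_assoc (ι l⁻¹), h1, one_mul]
    abel
  exact this hz

theorem tau_mem_zz (l : G) {S : Subgroup G} {z : G →₀ D} :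
    tau ι l z ∈ ZZ ι (MulAut.conj l • S) ↔ z ∈ ZZ ι S := by
  constructor
  · intro h
    have h2 := MBasic_tau_zz ι l⁻¹ h
    rwa [← MBasic_tau_mul, inv_mul_cancel, MBasic_tau_one, smul_smul, ← map_mul, inv_mul_cancel,
      map_one, one_smul] at h2
  · exact MBasic_tau_zz ι l

theorem tau_mem_rel (l : G) {S : Subgroup G} {z : G →₀ D} :
    tau ι l z ∈ Rel ι (MulAut.conj l • S) ↔ z ∈ Rel ι S := by
  constructor
  · intro h
    have h2 := MBasic_tau_rel ι l⁻¹ h
    rwa [← MBasic_tau_mul, inv_mul_cancel, MBasic_tau_one, smul_smul, ← map_mul, inv_mul_cancel,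
      map_one, one_smul] at h2
  · exact MBasic_tau_rel ι l

theorem tau_mul (l l' : G) (z : G →₀ D) : tau ι (l * l') z = tau ι l (tau ι l' z) := by
  exact MBasic_tau_mul ι l l' z

theorem tau_one (z : G →₀ D) : tau ι 1 z = z := by
  exact MBasic_tau_one ι z

/-- On cycles, transport along conjugation by `l ∈ L` is the identity modulo the relations. -/
theorem tau_sub_mem_rel {L : Subgroup G} {l : G} (hl : l ∈ L) {z : G →₀ D} (hz : z ∈ ZZ ι L) :
    tau ι l z - z ∈ Rel ι L := by
  have h := MBasic_supp_ind (tau ι l - LinearMap.id +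
    (LinearMap.toSpanSingleton D _ (Finsupp.single l (ι l⁻¹))).comp (bdy ι)) (Rel ι L) ?_ hz.1
  · have h0 : bdy ι z = 0 := hz.2
    simpa [h0] using h
  · intro a ha
    have h1 : ι l⁻¹ * ι l = 1 := by rw [← map_mul, inv_mul_cancel, map_one]
    rw [LinearMap.add_apply, LinearMap.sub_apply, LinearMap.id_apply, LinearMap.comp_apply,
      LinearMap.toSpanSingleton_apply, MBasic_tau_single, MBasic_bdy_single, MBasic_mem_rel,
      map_add, map_sub, map_smul, MBasic_mk_single, MBasic_mk_single, MBasic_mk_single,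
      MBasic_dl_conj ι hl ha, smul_add, smul_smul, smul_smul, smul_smul, one_mul, one_mul, h1,
      mul_sub, map_mul, map_mul, ← mul_assoc (ι l⁻¹), ← mul_assoc (ι l⁻¹), h1, one_mul, mul_one,
      sub_mul, one_mul, sub_smul, sub_smul]
    abel

/-- The basic cycle `[g] - (g - 1) (p - 1)⁻¹ [p]`. -/
def zeta (p g : G) : G →₀ D :=
  Finsupp.single g 1 - Finsupp.single p ((ι g - 1) * (ι p - 1)⁻¹)

theorem zeta_mem_zz {S : Subgroup G} {p g : G} (hp : p ∈ S) (hp1 : ι p ≠ 1) (hg : g ∈ S) :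
    zeta ι p g ∈ ZZ ι S := by
  rw [MBasic_mem_zz]
  refine ⟨sub_mem (Finsupp.single_mem_supported D _ hg) (Finsupp.single_mem_supported D _ hp), ?_⟩
  rw [zeta, map_sub, MBasic_bdy_single, MBasic_bdy_single, one_mul, mul_assoc,
    inv_mul_cancel₀ (sub_ne_zero.2 hp1), mul_one, sub_self]

/-- The cycles are spanned by the basic cycles of the generators, modulo the relations. -/
theorem zz_le_span_zeta {S : Subgroup G} {T : Set G} (hT : Subgroup.closure T = S) {p : G}
    (hp : p ∈ S) (hp1 : ι p ≠ 1) :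
    ZZ ι S ≤ Submodule.span D (zeta ι p '' T) ⊔ Rel ι S := by
  set W := Submodule.span D (zeta ι p '' T) ⊔ Rel ι S with hW
  have hmul : ∀ a ∈ S, ∀ b ∈ S, zeta ι p (a * b) - zeta ι p a - ι a • zeta ι p b ∈ W := by
    intro a ha b hb
    refine Submodule.mem_sup_right ?_
    rw [MBasic_mem_rel]
    simp only [zeta, map_sub, map_smul, MBasic_mk_single, MBasic_dl_mul ι ha hb, one_smul,
      smul_sub, smul_smul, map_mul, sub_mul, sub_smul, mul_sub, one_mul, mul_assoc]
    abel
  have hone : zeta ι p 1 ∈ W := by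
    refine Submodule.mem_sup_right ?_
    rw [zeta, map_one, sub_self, zero_mul, Finsupp.single_zero, sub_zero]
    exact single_one_mem_rel ι S 1
  have hall : ∀ g ∈ S, zeta ι p g ∈ W := by
    intro g hg
    rw [← hT] at hg
    induction hg using Subgroup.closure_induction with
    | mem x hx => exact Submodule.mem_sup_left (Submodule.subset_span ⟨x, hx, rfl⟩)
    | one => exact hone
    | mul x y hx hy ihx ihy =>
      rw [hT] at hx hy
      have := add_mem (add_mem (hmul x hx y hy) (W.smul_mem (ι x) ihy)) ihx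
      simpa using this
    | inv x hx ih =>
      rw [hT] at hx
      have h1 := hmul x⁻¹ (S.inv_mem hx) x hx
      rw [inv_mul_cancel] at h1
      have := sub_mem (sub_mem hone h1) (W.smul_mem (ι x⁻¹) ih)
      convert this using 1
      abel
  intro z hz
  have h := MBasic_supp_ind (LinearMap.id -
    (LinearMap.toSpanSingleton D _ (Finsupp.single p (ι p - 1)⁻¹)).comp (bdy ι)) W ?_ hz.1
  · have h0 : bdy ι z = 0 := hz.2
    simpa [h0] using h
  · intro a ha
    rw [LinearMap.sub_apply, LinearMap.id_apply, LinearMap.comp_apply,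
      LinearMap.toSpanSingleton_apply, MBasic_bdy_single, one_mul, Finsupp.smul_single,
      smul_eq_mul]
    exact hall a ha

/-- The basic cycle as a flux between `p` and `g p g⁻¹`. -/
theorem zeta_sub_flux {S : Subgroup G} {p g : G} (hp : p ∈ S) (hp1 : ι p ≠ 1) (hg : g ∈ S) :
    zeta ι p g - (Finsupp.single (g * p * g⁻¹) (1 - ι (g * p * g⁻¹))⁻¹ -
      Finsupp.single p (1 - ι p)⁻¹) ∈ Rel ι S := by
  have h1 : ι g⁻¹ * ι g = 1 := by rw [← map_mul, inv_mul_cancel, map_one]
  have h2 : ι g * ι g⁻¹ = 1 := by rw [← map_mul, mul_inv_cancel, map_one]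
  have hp2 : 1 - ι p ≠ 0 := sub_ne_zero.2 hp1.symm
  have e1 : (1 - ι (g * p * g⁻¹)) * ι g = ι g * (1 - ι p) := by
    rw [map_mul, map_mul, sub_mul, mul_assoc _ (ι g⁻¹), h1, mul_sub, one_mul, mul_one, mul_one]
  have hg0 : ι g ≠ 0 := left_ne_zero_of_mul_eq_one h2
  have hne : 1 - ι (g * p * g⁻¹) ≠ 0 := by
    intro h
    rw [h, zero_mul] at e1
    exact mul_ne_zero hg0 hp2 e1.symm
  have e2 : (1 - ι (g * p * g⁻¹))⁻¹ * ι g = ι g * (1 - ι p)⁻¹ := by
    rw [inv_mul_eq_iff_eq_mul₀ hne, ← mul_assoc, e1, mul_assoc, mul_inv_cancel₀ hp2, mul_one]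
  have e3 : (ι p - 1)⁻¹ = -(1 - ι p)⁻¹ := by rw [← neg_sub, inv_neg]
  rw [MBasic_mem_rel, zeta, map_sub, map_sub, map_sub, MBasic_mk_single, MBasic_mk_single,
    MBasic_mk_single, MBasic_mk_single, MBasic_dl_conj ι hg hp, smul_add, smul_smul, smul_smul,
    inv_mul_cancel₀ hne, e2, e3, mul_neg, sub_mul, one_mul, neg_smul, sub_smul]
  abel

theorem mapDomain_mem_zz (Φ : MulAut G) {S : Subgroup G} {z : G →₀ D} :
    Finsupp.mapDomain Φ z ∈ ZZ ι (Φ • S) ↔ z ∈ ZZ (ι.comp Φ.toMonoidHom) S := by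
  rw [MBasic_mem_zz, MBasic_mem_zz]
  refine and_congr ?_ ?_
  · rw [Finsupp.mem_supported', Finsupp.mem_supported']
    constructor
    · intro h x hx
      have := h (Φ x) (fun h2 => hx (Subgroup.smul_mem_pointwise_smul_iff.1 h2))
      rwa [Finsupp.mapDomain_apply Φ.injective] at this
    · intro h y hy
      obtain ⟨x, rfl⟩ := Φ.surjective y
      rw [Finsupp.mapDomain_apply Φ.injective]
      exact h x (fun h2 => hy (Subgroup.smul_mem_pointwise_smul x Φ S h2))
  · rw [bdy, bdy, Finsupp.linearCombination_mapDomain]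
    rfl

theorem mapDomain_mem_rel (Φ : MulAut G) {S : Subgroup G} {z : G →₀ D} :
    Finsupp.mapDomain Φ z ∈ Rel ι (Φ • S) ↔ z ∈ Rel (ι.comp Φ.toMonoidHom) S := by
  have hm : Rel ι (Φ • S) =
      (Rel (ι.comp Φ.toMonoidHom) S).map (Finsupp.lmapDomain D D (Φ : G → G)) := by
    rw [Rel, Rel, Submodule.map_span]
    congr 1
    ext x
    constructor
    · rintro ⟨a, ha, b, hb, rfl⟩
      obtain ⟨a, rfl⟩ := Φ.surjective a
      obtain ⟨b, rfl⟩ := Φ.surjective b
      refine ⟨_, ⟨a, Subgroup.smul_mem_pointwise_smul_iff.1 ha, b,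
        Subgroup.smul_mem_pointwise_smul_iff.1 hb, rfl⟩, ?_⟩
      rw [map_sub, map_sub]
      simp [Finsupp.mapDomain_single]
    · rintro ⟨_, ⟨a, ha, b, hb, rfl⟩, rfl⟩
      refine ⟨Φ a, Subgroup.smul_mem_pointwise_smul a Φ S ha, Φ b,
        Subgroup.smul_mem_pointwise_smul b Φ S hb, ?_⟩
      rw [map_sub, map_sub]
      simp [Finsupp.mapDomain_single]
  rw [hm]
  constructor
  · rintro ⟨y, hy, h⟩
    have : y = z := Finsupp.mapDomain_injective Φ.injective h
    exact this ▸ hy
  · intro h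
    exact ⟨z, h, rfl⟩

theorem ind_smul_iff (Φ : MulAut G) (L : Subgroup G) {κ : Type} [Fintype κ]
    (P : κ → Subgroup G) :
    Ind ι (Φ • L) (fun i => Φ • P i) ↔ Ind (ι.comp Φ.toMonoidHom) L P := by
  constructor
  · intro h z hz hs i
    rw [← mapDomain_mem_rel]
    refine h (fun i => Finsupp.mapDomain Φ (z i)) (fun i => (mapDomain_mem_zz ι Φ).2 (hz i)) ?_ i
    rw [← Finsupp.mapDomain_finsetSum]
    exact (mapDomain_mem_rel ι Φ).2 hs
  · intro h z hz hs i
    have hsur : ∀ i, ∃ w, Finsupp.mapDomain Φ w = z i := fun i =>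
      Finsupp.mapDomain_surjective Φ.surjective (z i)
    choose w hw using hsur
    rw [← hw i, mapDomain_mem_rel]
    refine h w (fun i => (mapDomain_mem_zz ι Φ).1 (by rw [hw]; exact hz i)) ?_ i
    rw [← mapDomain_mem_rel, Finsupp.mapDomain_finsetSum]
    simpa only [hw] using hs

theorem Ind.conj {L : Subgroup G} {κ : Type} [Fintype κ] {P : κ → Subgroup G} (h : Ind ι L P)
    (hP : ∀ i, P i ≤ L) (l : κ → G) (hl : ∀ i, l i ∈ L) :
    Ind ι L fun i => MulAut.conj (l i) • P i := by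
  intro z hz hs i
  have hw : ∀ i, tau ι (l i) (tau ι (l i)⁻¹ (z i)) = z i := fun i => by
    rw [← tau_mul, mul_inv_cancel, tau_one]
  have hzz : ∀ i, tau ι (l i)⁻¹ (z i) ∈ ZZ ι (P i) := fun i =>
    (tau_mem_zz ι (l i)).1 (by rw [hw]; exact hz i)
  rw [← hw i, tau_mem_rel]
  refine h (fun i => tau ι (l i)⁻¹ (z i)) hzz ?_ i
  have h2 : ∑ i, (z i - tau ι (l i)⁻¹ (z i)) ∈ Rel ι L := by
    refine Submodule.sum_mem _ fun i _ => ?_
    have := tau_sub_mem_rel ι (hl i) (zz_mono ι (hP i) (hzz i))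
    rwa [hw] at this
  rw [Finset.sum_sub_distrib] at h2
  simpa using sub_mem hs h2

/-- Transitivity of independence. -/
theorem Ind.trans {L : Subgroup G} {κ κ' : Type} [Fintype κ] [Fintype κ'] [DecidableEq κ]
    {P : κ → Subgroup G} {Q : κ' → Subgroup G} (f : κ' → κ) (h : Ind ι L P) (hQ : ∀ j, Q j ≤ P (f j))
    (h' : ∀ i, Ind ι (P i) fun j : {j // f j = i} => Q j) : Ind ι L Q := by
  intro z hz hs j
  have h1 := h (fun i => ∑ j : {j // f j = i}, z j) (fun i => Submodule.sum_mem _ fun j _ =>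
    zz_mono ι (by have := hQ j; rwa [j.2] at this) (hz j))
    (by rw [Fintype.sum_fiberwise]; exact hs)
  exact h' (f j) (fun k => z k) (fun k => hz k) (h1 (f j)) ⟨j, rfl⟩

theorem MBasic_rk_map {G' : Type} [Group G'] (f : G →* G') (hf : Function.Injective f)
    (S : Subgroup G) : rk (S.map f) = rk S := by
  classical
  rw [rk, rk]
  congr 1
  ext k
  constructor
  · rintro ⟨T, rfl, hT⟩
    have hsub : (T : Set G') ⊆ Set.range f := by
      intro x hx
      have : x ∈ S.map f := hT ▸ Subgroup.subset_closure hx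
      obtain ⟨y, -, rfl⟩ := this
      exact ⟨y, rfl⟩
    have himg : (T.preimage f hf.injOn).image f = T := by
      rw [← Finset.coe_inj, Finset.coe_image, Finset.coe_preimage,
        Set.image_preimage_eq_of_subset hsub]
    refine ⟨T.preimage f hf.injOn, ?_, ?_⟩
    · rw [← Finset.card_image_of_injective _ hf, himg]
    · apply Subgroup.map_injective hf
      rw [MonoidHom.map_closure, ← Finset.coe_image, himg, hT]
  · rintro ⟨T, rfl, hT⟩
    refine ⟨T.image f, Finset.card_image_of_injective _ hf, ?_⟩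
    rw [Finset.coe_image, ← MonoidHom.map_closure, hT]

theorem rk_smul (Φ : MulAut G) (S : Subgroup G) : rk (Φ • S) = rk S := by
  exact MBasic_rk_map Φ.toMonoidHom Φ.injective S

theorem rk_map {G' : Type} [Group G'] (f : G →* G') (hf : Function.Injective f)
    (S : Subgroup G) : rk (S.map f) = rk S := by
  exact MBasic_rk_map f hf S

theorem rk_bot : rk (⊥ : Subgroup G) = 0 := by
  rw [rk, Nat.sInf_eq_zero]
  exact Or.inl ⟨∅, rfl, by simp⟩

theorem nonAb_iff_two_le_rk' {S : Subgroup G} (hS : S.FG) (h : NonAb S) : 2 ≤ rk S := by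
  obtain ⟨T0, hT0⟩ := hS
  have hne : {k | ∃ T : Finset G, T.card = k ∧ Subgroup.closure (T : Set G) = S}.Nonempty :=
    ⟨_, T0, rfl, hT0⟩
  obtain ⟨T, hc, hT⟩ := Nat.sInf_mem hne
  by_contra hlt
  have hle : T.card ≤ 1 := by
    rw [hc]
    change rk S ≤ 1
    omega
  obtain ⟨a, ha, b, hb, hab⟩ := h
  apply hab
  clear hab
  rw [← hT] at ha hb
  have hT1 : ∀ x ∈ T, ∀ y ∈ T, Commute x y := fun x hx y hy => by
    rw [Finset.card_le_one.1 hle x hx y hy]
  have h1 : ∀ x ∈ T, Commute x b := by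
    intro x hx
    induction hb using Subgroup.closure_induction with
    | mem y hy => exact hT1 x hx y hy
    | one => exact Commute.one_right x
    | mul y z _ _ ihy ihz => exact ihy.mul_right ihz
    | inv y _ ih => exact ih.inv_right
  clear hb
  induction ha using Subgroup.closure_induction with
  | mem y hy => exact h1 y hy
  | one => exact Commute.one_left b
  | mul y z _ _ ihy ihz => exact ihy.mul_left ihz
  | inv y _ ih => exact ih.inv_left

end General

end Pool.Agent.Lib.MP_9ac97d_al
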