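import Pool.Agent.Lib.MP_9ac97d_al.MNApi

/-!
The valuation on the Malcev-Neumann field of a lexicographic order (task MNVal)

Do not change the data; fill in the proofs. The norm of `x ≠ 0` is `exp (- χ (min supp x))`
(use `MN.min_mul`, `WO.exists_min`; `χ` is monotone for `o.lex χ`).
-/

set_option autoImplicit false

noncomputable section

open Pointwise

namespace Pool.Agent.Lib.MP_9ac97d_al

namespace MN

variable {G : Type} [Group G] {o : BiOrd G} {χ : G →* Multiplicative ℝ}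

open Classical in
/-- The norm. -/
def nrm (x : MN (o.lex χ)) : ℝ :=
  if x = 0 then 0 else Real.exp (-sInf ((fun g => (χ g).toAdd) '' x.supp))

theorem mnval_mono {a g : G} (h : (o.lex χ).lt a g) : (χ a).toAdd ≤ (χ g).toAdd := by
  have e : (χ (a⁻¹ * g)).toAdd = (χ g).toAdd - (χ a).toAdd := by
    rw [map_mul, map_inv, toAdd_mul, toAdd_inv]; ring
  rcases h with h | ⟨h, -⟩
  · rw [e] at h; linarith
  · rw [e] at h; linarith

theorem mnval_ne_zero {o : BiOrd G} {x : MN o} {a : G} (ha : a ∈ x.supp) : x ≠ 0 := by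
  rintro rfl
  exact ha rfl

theorem mnval_exists_min {o : BiOrd G} {x : MN o} (hx : x ≠ 0) :
    ∃ m ∈ x.supp, ∀ g ∈ x.supp, g = m ∨ o.lt m g := by
  refine x.wo.exists_min ?_
  by_contra h
  refine hx (ext fun g => ?_)
  by_contra hg
  exact h ⟨g, hg⟩

theorem mnval_min_le {x : MN (o.lex χ)} {a : G}
    (ha' : ∀ g ∈ x.supp, g = a ∨ (o.lex χ).lt a g) {g : G} (hg : g ∈ x.supp) :
    (χ a).toAdd ≤ (χ g).toAdd := by
  rcases ha' g hg with h | h
  · rw [h]
  · exact mnval_mono h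

theorem mnval_nrm_zero : nrm (0 : MN (o.lex χ)) = 0 := if_pos rfl

theorem mnval_nonneg (x : MN (o.lex χ)) : 0 ≤ nrm x := by
  unfold nrm
  split_ifs
  · exact le_rfl
  · exact (Real.exp_pos _).le

theorem nrm_eq {x : MN (o.lex χ)} {a : G} (ha : a ∈ x.supp)
    (ha' : ∀ g ∈ x.supp, g = a ∨ (o.lex χ).lt a g) : nrm x = Real.exp (-(χ a).toAdd) := by
  have h : IsLeast ((fun g => (χ g).toAdd) '' x.supp) (χ a).toAdd := by
    refine ⟨⟨a, ha, rfl⟩, ?_⟩
    rintro _ ⟨g, hg, rfl⟩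
    exact mnval_min_le ha' hg
  rw [nrm, if_neg (mnval_ne_zero ha), h.csInf_eq]

theorem nrm_le_iff (x : MN (o.lex χ)) (t : ℝ) :
    nrm x ≤ Real.exp (-t) ↔ ∀ g ∈ x.supp, t ≤ (χ g).toAdd := by
  by_cases hx : x = 0
  · subst hx
    rw [mnval_nrm_zero]
    exact ⟨fun _ g hg => absurd rfl (mnval_ne_zero hg), fun _ => (Real.exp_pos _).le⟩
  · obtain ⟨a, ha, ha'⟩ := mnval_exists_min hx
    rw [nrm_eq ha ha', Real.exp_le_exp, neg_le_neg_iff]
    exact ⟨fun h g hg => h.trans (mnval_min_le ha' hg), fun h => h a ha⟩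

theorem mnval_le_nrm {x : MN (o.lex χ)} {g : G} (hg : g ∈ x.supp) :
    Real.exp (-(χ g).toAdd) ≤ nrm x := by
  obtain ⟨a, ha, ha'⟩ := mnval_exists_min (mnval_ne_zero hg)
  rw [nrm_eq ha ha', Real.exp_le_exp, neg_le_neg_iff]
  exact mnval_min_le ha' hg

theorem nrm_add_le_max (x y : MN (o.lex χ)) : nrm (x + y) ≤ max (nrm x) (nrm y) := by
  by_cases h : x + y = 0
  · rw [h, mnval_nrm_zero]
    exact (mnval_nonneg x).trans (le_max_left _ _)
  · obtain ⟨a, ha, ha'⟩ := mnval_exists_min h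
    rw [nrm_eq ha ha']
    rcases Function.support_add x.c y.c ha with h1 | h1
    · exact (mnval_le_nrm h1).trans (le_max_left _ _)
    · exact (mnval_le_nrm h1).trans (le_max_right _ _)

theorem nrm_mul (x y : MN (o.lex χ)) : nrm (x * y) = nrm x * nrm y := by
  by_cases hx : x = 0
  · rw [hx, zero_mul, mnval_nrm_zero, zero_mul]
  by_cases hy : y = 0
  · rw [hy, mul_zero, mnval_nrm_zero, mul_zero]
  obtain ⟨a, ha, ha'⟩ := mnval_exists_min hx
  obtain ⟨b, hb, hb'⟩ := mnval_exists_min hy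
  obtain ⟨h1, h2⟩ := min_mul ha ha' hb hb'
  rw [nrm_eq h1 h2, nrm_eq ha ha', nrm_eq hb hb', ← Real.exp_add, map_mul, toAdd_mul, neg_add]

theorem mnval_nrm_congr {x y : MN (o.lex χ)}
    (h : (fun g => (χ g).toAdd) '' x.supp = (fun g => (χ g).toAdd) '' y.supp) :
    nrm x = nrm y := by
  have key : ∀ {x y : MN (o.lex χ)},
      (fun g => (χ g).toAdd) '' x.supp = (fun g => (χ g).toAdd) '' y.supp → x = 0 → y = 0 := by
    intro x y h hx
    by_contra hy
    obtain ⟨a, ha, -⟩ := mnval_exists_min hy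
    have : (χ a).toAdd ∈ (fun g => (χ g).toAdd) '' x.supp := h ▸ ⟨a, ha, rfl⟩
    obtain ⟨b, hb, -⟩ := this
    exact mnval_ne_zero hb hx
  by_cases hx : x = 0
  · rw [key h hx, hx]
  · rw [nrm, nrm, if_neg hx, if_neg fun hy => hx (key h.symm hy), h]

/-- The norm as an additive group norm. -/
def gnorm : AddGroupNorm (MN (o.lex χ)) where
  toFun := nrm
  map_zero' := by simp [nrm]
  add_le' := fun x y => (nrm_add_le_max x y).trans
    (max_le (le_add_of_nonneg_right (mnval_nonneg y)) (le_add_of_nonneg_left (mnval_nonneg x)))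
  neg' := fun x => mnval_nrm_congr (by
    have : (-x).supp = x.supp := Set.ext fun g => by simp [supp]
    rw [this])
  eq_zero_of_map_eq_zero' := fun x h => by
    by_contra hx
    obtain ⟨a, ha, ha'⟩ := mnval_exists_min hx
    rw [nrm_eq ha ha'] at h
    exact (Real.exp_pos _).ne' h

instance : NormedDivisionRing (MN (o.lex χ)) where
  __ := (inferInstance : DivisionRing (MN (o.lex χ)))
  __ := (gnorm (o := o) (χ := χ)).toNormedAddCommGroup
  norm_mul := nrm_mul

theorem norm_def (x : MN (o.lex χ)) : ‖x‖ = nrm x := rfl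

theorem norm_le_iff (x : MN (o.lex χ)) (t : ℝ) :
    ‖x‖ ≤ Real.exp (-t) ↔ ∀ g ∈ x.supp, t ≤ (χ g).toAdd := nrm_le_iff x t

instance : IsUltrametricDist (MN (o.lex χ)) :=
  IsUltrametricDist.isUltrametricDist_of_forall_norm_add_le_max_norm nrm_add_le_max

theorem norm_of (g : G) : ‖of (o.lex χ) g‖ = Real.exp (-(χ g).toAdd) := by
  refine nrm_eq (a := g) ?_ fun a ha => Or.inl ?_
  · change (single g 1 : MN (o.lex χ)).c g ≠ 0
    rw [c_single, if_pos rfl]
    exact one_ne_zero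
  · by_contra h
    exact ha (if_neg h)

theorem norm_mem (x : MN (o.lex χ)) (hx : x ≠ 0) :
    ∃ g ∈ x.supp, ‖x‖ = Real.exp (-(χ g).toAdd) := by
  obtain ⟨a, ha, ha'⟩ := mnval_exists_min hx
  exact ⟨a, ha, nrm_eq ha ha'⟩

theorem pres_lex {Φ : MulAut G} (h : o.Pres Φ) (hχ : ∀ g, χ (Φ g) = χ g) :
    (o.lex χ).Pres Φ := by
  intro g
  change (0 < (χ (Φ g)).toAdd ∨ ((χ (Φ g)).toAdd = 0 ∧ Φ g ∈ o.P)) ↔
    (0 < (χ g).toAdd ∨ ((χ g).toAdd = 0 ∧ g ∈ o.P))
  rw [hχ, h g]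

theorem norm_map {Φ : MulAut G} (h : (o.lex χ).Pres Φ) (hχ : ∀ g, χ (Φ g) = χ g)
    (x : MN (o.lex χ)) : ‖map Φ h x‖ = ‖x‖ := by
  refine mnval_nrm_congr ?_
  rw [supp_map, Set.image_image]
  simp only [hχ]

/-- Completeness for an integer valued character. -/
theorem complete (hχ : ∀ g, ∃ k : ℤ, (χ g).toAdd = k) : CompleteSpace (MN (o.lex χ)) := by
  refine Metric.complete_of_cauchySeq_tendsto fun u hu => ?_
  have hcoef : ∀ (x y : MN (o.lex χ)) (t : ℝ), ‖x - y‖ ≤ Real.exp (-t) ↔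
      ∀ g, (χ g).toAdd < t → x.c g = y.c g := by
    intro x y t
    rw [norm_le_iff]
    constructor
    · intro h g hg
      by_contra hne
      exact absurd (h g (sub_ne_zero.2 hne)) (not_le.2 hg)
    · intro h g hg
      by_contra hlt
      exact hg (sub_eq_zero.2 (h g (not_le.1 hlt)))
  have hN : ∀ t : ℝ, ∃ N, ∀ n ≥ N, ∀ m ≥ N, ∀ g, (χ g).toAdd < t → (u n).c g = (u m).c g := by
    intro t
    obtain ⟨N, hN⟩ := Metric.cauchySeq_iff.1 hu _ (Real.exp_pos (-t))
    refine ⟨N, fun n hn m hm => (hcoef _ _ t).1 ?_⟩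
    rw [← dist_eq_norm]
    exact (hN n hn m hm).le
  choose N hN using hN
  let f : G → ℚ := fun g => (u (N ((χ g).toAdd + 1))).c g
  have hf : ∀ t, ∀ n ≥ N t, ∀ g, (χ g).toAdd < t → (u n).c g = f g := fun t n hn g hg =>
    (hN t n hn (max n (N ((χ g).toAdd + 1))) (hn.trans (le_max_left _ _)) g hg).trans
      (hN _ _ (le_max_right _ _) _ le_rfl g (lt_add_one _))
  have hwo : (o.lex χ).WO (Function.support f) := by
    rw [BiOrd.wo_iff]
    intro w hw hd
    have hle : ∀ k, (χ (w k)).toAdd ≤ (χ (w 0)).toAdd := by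
      intro k
      induction k with
      | zero => exact le_rfl
      | succ k ih => exact (mnval_mono (hd k)).trans ih
    refine ((o.lex χ).wo_iff.1 (u (N ((χ (w 0)).toAdd + 1))).wo) w (fun k => ?_) hd
    change (u _).c (w k) ≠ 0
    rw [hf _ _ le_rfl _ ((hle k).trans_lt (lt_add_one _))]
    exact hw k
  refine ⟨mk f hwo, Metric.tendsto_atTop.2 fun ε hε => ⟨N (-Real.log (ε / 2)), fun n hn => ?_⟩⟩
  have h := (hcoef (u n) (mk f hwo) _).2 (hf _ n hn)
  rw [neg_neg, Real.exp_log (half_pos hε)] at h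
  rw [dist_eq_norm]
  exact h.trans_lt (half_lt_self hε)

end MN

end Pool.Agent.Lib.MP_9ac97d_al
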