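import Pool.Agent.Lib.MP_9ac97d_al.MCoef
import Pool.Agent.Lib.MP_9ac97d_al.MNVal

/-!
# No cancellation over the Malcev-Neumann field (task MFlux)
-/

set_option autoImplicit false

noncomputable section

open Pointwise

namespace Pool.Agent.Lib.MP_9ac97d_al

variable {n : ℕ} (o : BiOrd (Fr n))

theorem c_der (L : Subgroup (Fr n)) (x : Fr n) (i : Fin n) (a g : Fr n) :
    (der (MN.of o) L x i a).c g = cf L x i a g := by
  classical
  have hf := finite_support_cf L x i a
  have hsub : (Function.support fun l : Fr n => (cf L x i a l : MN o) * MN.of o l) ⊆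
      (hf.toFinset : Set (Fr n)) := by
    intro l hl
    rw [Set.Finite.coe_toFinset]
    intro h0
    apply hl
    simp [h0]
  unfold der
  rw [finsum_eq_sum_of_support_subset _ hsub, MN.c_sum]
  have hterm : ∀ l : Fr n, ((cf L x i a l : MN o) * MN.of o l).c g =
      if g = l then (cf L x i a l : ℚ) else 0 := by
    intro l
    rw [MN.intCast_eq, MN.c_single_mul, MN.of_apply, MN.c_single]
    simp
  simp only [hterm]
  rw [Finset.sum_ite_eq]
  split_ifs with hg
  · rfl
  · rw [Set.Finite.mem_toFinset, Function.mem_support, not_not] at hg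
    rw [hg, Int.cast_zero]

theorem mflux_coef_eq (L : Subgroup (Fr n)) (x : Fr n) (i : Fin n) (z : Fr n →₀ MN o) :
    coef (MN.of o) L x i z = ∑ a ∈ z.support, z a * der (MN.of o) L x i a := by
  unfold coef
  rw [Finsupp.linearCombination_apply, Finsupp.sum]
  rfl

theorem mflux_der_mem_sub (S : Subgroup (Fr n)) (x : Fr n) (i : Fin n) (a : Fr n) :
    der (MN.of o) S x i a ∈ MN.sub o S := by
  rw [MN.mem_sub]
  intro g hg
  by_contra hgS
  apply hg
  rw [c_der]
  unfold cf
  rw [if_neg (show g ∉ S from hgS), Int.cast_zero]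

theorem mflux_res_der {S L : Subgroup (Fr n)} (hSL : S ≤ L) (x : Fr n) (i : Fin n) (a : Fr n) :
    MN.res (S : Set (Fr n)) (der (MN.of o) L x i a) = der (MN.of o) S x i a := by
  ext g
  rw [MN.c_res, c_der, c_der]
  unfold cf
  by_cases hg : g ∈ S
  · rw [if_pos (show g ∈ (S : Set (Fr n)) from hg), if_pos (hSL hg), if_pos hg]
  · rw [if_neg (show g ∉ (S : Set (Fr n)) from hg), if_neg hg, Int.cast_zero]

/-- The chain has coefficients supported in `S`. -/
def CoefIn (S : Subgroup (Fr n)) (z : Fr n →₀ MN o) : Prop := ∀ a, z a ∈ MN.sub o S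

theorem coefIn_zeta {S : Subgroup (Fr n)} {p g : Fr n} (hp : p ∈ S) (hg : g ∈ S) :
    CoefIn o S (zeta (MN.of o) p g) := by
  classical
  intro a
  have h1 : (MN.of o g - 1) * (MN.of o p - 1)⁻¹ ∈ MN.sub o S :=
    mul_mem (sub_mem (MN.of_mem_sub hg) (one_mem _))
      (inv_mem (sub_mem (MN.of_mem_sub hp) (one_mem _)))
  unfold zeta
  rw [Finsupp.sub_apply, Finsupp.single_apply, Finsupp.single_apply]
  refine sub_mem ?_ ?_
  · split_ifs
    · exact one_mem _
    · exact zero_mem _
  · split_ifs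
    · exact h1
    · exact zero_mem _

theorem coef_mem_sub {S : Subgroup (Fr n)} {z : Fr n →₀ MN o} (hz : CoefIn o S z) (x : Fr n)
    (i : Fin n) : coef (MN.of o) S x i z ∈ MN.sub o S := by
  rw [mflux_coef_eq]
  exact sum_mem fun a _ => mul_mem (hz a) (mflux_der_mem_sub o S x i a)

/-- The terms of `coef_eq_finsum` are supported in different cosets. -/
theorem res_coef {S L : Subgroup (Fr n)} (hSL : S ≤ L) {z : Fr n →₀ MN o} (hz : CoefIn o S z)
    (x : Fr n) (i : Fin n) :
    MN.res (S : Set (Fr n)) (coef (MN.of o) L x i z) = coef (MN.of o) S x i z := by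
  rw [mflux_coef_eq, mflux_coef_eq, map_sum]
  refine Finset.sum_congr rfl fun a _ => ?_
  rw [MN.res_mul_left (N := S) (fun s hs g => by
    simp only [SetLike.mem_coe]
    exact Subgroup.mul_mem_cancel_left S hs) (MN.mem_sub.1 (hz a)), mflux_res_der o hSL]

/-- The coefficient for `S` at the edge `(x, x * of i)` is read off from the coefficient for the
whole group at the edge `(1, of i)`. -/
theorem mflux_c_coef {S : Subgroup (Fr n)} {z : Fr n →₀ MN o} (hz : CoefIn o S z) (x : Fr n)
    (i : Fin n) {s : Fr n} (hs : s ∈ S) :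
    (coef (MN.of o) S x i z).c s = (coef (MN.of o) ⊤ 1 i z).c (s * x) := by
  have h1 := coef_mul (MN.of o) (Subgroup.mem_top x) 1 i z
  rw [mul_one] at h1
  rw [← res_coef o le_top hz x i, MN.c_res, if_pos (show s ∈ (S : Set (Fr n)) from hs), h1,
    MN.of_apply, MN.c_mul_single, inv_inv, mul_one]

theorem mflux_exists_mem_supp {S : Subgroup (Fr n)} {z : Fr n →₀ MN o} (hz : CoefIn o S z)
    {x : Fr n} {i : Fin n} (h : coef (MN.of o) S x i z ≠ 0) :
    ∃ s ∈ S, s * x ∈ (coef (MN.of o) ⊤ 1 i z).supp := by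
  have h1 : ∃ s, (coef (MN.of o) S x i z).c s ≠ 0 := by
    by_contra hcon
    push Not at hcon
    exact h (MN.ext fun g => (hcon g).trans (MN.c_zero g).symm)
  obtain ⟨s, hs⟩ := h1
  have hsS : s ∈ S := MN.mem_sub.1 (coef_mem_sub o hz x i) hs
  refine ⟨s, hsS, ?_⟩
  show (coef (MN.of o) ⊤ 1 i z).c (s * x) ≠ 0
  rwa [← mflux_c_coef o hz x i hsS]

/-- Shapiro injectivity. -/
theorem mem_rel_of_coefIn {S L : Subgroup (Fr n)} (hSL : S ≤ L) {z : Fr n →₀ MN o}
    (hz : CoefIn o S z) (hz' : z ∈ Finsupp.supported (MN o) (MN o) (S : Set (Fr n)))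
    (h : z ∈ Rel (MN.of o) L) : z ∈ Rel (MN.of o) S := by
  refine mem_rel_of_coef (MN.of o) hz' fun x i => ?_
  rw [← res_coef o hSL hz x i, coef_eq_zero_of_mem_rel (MN.of o) x i h, map_zero]

/-- The flux lemma. Otherwise the derivation of the edge is inner on `S`: `der a = (a - 1) c` with
`c = (p - 1)⁻¹ der p` (apply the coefficient to `zeta p a`). Let `f` be the indicator of
`Ω = {s ∈ S | s⁻¹ ∈ Half}`; then `c - f` is invariant under left translation by `S`, so constant on
`S`, and the support of `c` contains `Ω` or `S \ Ω`. Both contain `q ^ k` and `q⁻¹ ^ k` for large `k`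
and suitable `q` (`exists_both_ends` for the edge and its reverse), against `not_wo_of_line`. -/
theorem exists_coef_ne_zero {S : Subgroup (Fr n)} (hS : NonAb S) {x : Fr n} {i : Fin n}
    (h : Ess S x (x * FreeGroup.of i)) :
    ∃ z ∈ ZZ (MN.of o) S, coef (MN.of o) S x i z ≠ 0 := by
  classical
  by_contra hcon
  push Not at hcon
  obtain ⟨p, hp, hp1, hpa, hpb⟩ := exists_both_ends hS h
  obtain ⟨q, hq, hq1, hqa, hqb⟩ := exists_both_ends hS h.symm
  have hιp : MN.of o p ≠ 1 := fun h0 => hp1 (MN.of_injective (h0.trans (map_one _).symm))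
  set c : MN o := (MN.of o p - 1)⁻¹ * der (MN.of o) S x i p with hc
  have h1 : ∀ a ∈ S, der (MN.of o) S x i a = MN.of o a * c - c := by
    intro a ha
    have h2 := hcon _ (zeta_mem_zz (MN.of o) hp hιp ha)
    unfold zeta coef at h2
    rw [map_sub, Finsupp.linearCombination_single, Finsupp.linearCombination_single, one_smul,
      smul_eq_mul, sub_eq_zero] at h2
    rw [h2, hc, mul_assoc, sub_mul, one_mul]
  have h3 : ∀ g ∈ S, c.c g = (c.c 1 - if (1 : Fr n) ∈ Half x (x * FreeGroup.of i) then 1 else 0) +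
      if g⁻¹ ∈ Half x (x * FreeGroup.of i) then 1 else 0 := by
    intro g hg
    have h4 := congrArg (fun w : MN o => w.c g) (h1 g hg)
    simp only [c_der, MN.c_sub] at h4
    rw [MN.of_apply, MN.c_single_mul, inv_mul_cancel, one_mul] at h4
    unfold cf at h4
    rw [if_pos hg, inv_mul_cancel] at h4
    push_cast at h4
    linarith
  have hd : dd x (x * FreeGroup.of i) = 1 := h.1
  by_cases hκ : (c.c 1 - if (1 : Fr n) ∈ Half x (x * FreeGroup.of i) then 1 else 0) = 0
  · refine o.not_wo_of_line hp1 ?_ c.wo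
    filter_upwards [hpa, hpb] with k hk hk'
    constructor
    · show c.c (p ^ k) ≠ 0
      rw [h3 _ (pow_mem hp k), hκ, ← inv_pow, if_pos hk']
      norm_num
    · show c.c (p⁻¹ ^ k) ≠ 0
      rw [h3 _ (pow_mem (inv_mem hp) k), hκ, ← inv_pow, inv_inv, if_pos hk]
      norm_num
  · refine o.not_wo_of_line hq1 ?_ c.wo
    filter_upwards [hqa, hqb] with k hk hk'
    constructor
    · show c.c (q ^ k) ≠ 0
      rw [h3 _ (pow_mem hq k), ← inv_pow, if_neg ((not_mem_half hd _).2 hk'), add_zero]
      exact hκ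
    · show c.c (q⁻¹ ^ k) ≠ 0
      rw [h3 _ (pow_mem (inv_mem hq) k), ← inv_pow, inv_inv, if_neg ((not_mem_half hd _).2 hk),
        add_zero]
      exact hκ

/-- The action of an order preserving automorphism on chains. -/
def chainMap (Φ : MulAut (Fr n)) (h : o.Pres Φ) : (Fr n →₀ MN o) →+ (Fr n →₀ MN o) :=
  (Finsupp.mapDomain.addMonoidHom Φ).comp
    (Finsupp.mapRange.addMonoidHom (MN.map Φ h).toAddMonoidHom)

theorem chainMap_single (Φ : MulAut (Fr n)) (h : o.Pres Φ) (a : Fr n) (d : MN o) :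
    chainMap o Φ h (Finsupp.single a d) = Finsupp.single (Φ a) (MN.map Φ h d) := by
  unfold chainMap
  rw [AddMonoidHom.comp_apply, Finsupp.mapRange.addMonoidHom_apply, Finsupp.mapRange_single,
    Finsupp.mapDomain.addMonoidHom_apply, Finsupp.mapDomain_single]
  rfl

theorem chainMap_smul (Φ : MulAut (Fr n)) (h : o.Pres Φ) (d : MN o) (z : Fr n →₀ MN o) :
    chainMap o Φ h (d • z) = MN.map Φ h d • chainMap o Φ h z := by
  induction z using Finsupp.induction_linear with
  | zero => rw [smul_zero, map_zero, smul_zero]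
  | add z w hz hw => rw [smul_add, map_add, map_add, smul_add, hz, hw]
  | single a e =>
    rw [Finsupp.smul_single, chainMap_single, chainMap_single, Finsupp.smul_single, smul_eq_mul,
      smul_eq_mul, map_mul]

theorem chainMap_mul (Φ Ψ : MulAut (Fr n)) (h : o.Pres Φ) (h' : o.Pres Ψ) (h'' : o.Pres (Φ * Ψ))
    (z : Fr n →₀ MN o) : chainMap o (Φ * Ψ) h'' z = chainMap o Φ h (chainMap o Ψ h' z) := by
  induction z using Finsupp.induction_linear with
  | zero => rw [map_zero, map_zero, map_zero]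
  | add z w hz hw => rw [map_add, map_add, map_add, hz, hw]
  | single a e =>
    rw [chainMap_single, chainMap_single, chainMap_single, MulAut.mul_apply]
    congr 1

theorem chainMap_one (h : o.Pres 1) (z : Fr n →₀ MN o) : chainMap o 1 h z = z := by
  induction z using Finsupp.induction_linear with
  | zero => rw [map_zero]
  | add z w hz hw => rw [map_add, hz, hw]
  | single a e =>
    rw [chainMap_single, MulAut.one_apply]
    congr 1

theorem chainMap_zeta (Φ : MulAut (Fr n)) (h : o.Pres Φ) (p g : Fr n) :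
    chainMap o Φ h (zeta (MN.of o) p g) = zeta (MN.of o) (Φ p) (Φ g) := by
  unfold zeta
  rw [map_sub, chainMap_single, chainMap_single, map_one, map_mul, map_inv₀, map_sub, map_sub,
    map_one, MN.map_of, MN.map_of]

theorem mflux_bdy_chainMap (Φ : MulAut (Fr n)) (h : o.Pres Φ) (z : Fr n →₀ MN o) :
    bdy (MN.of o) (chainMap o Φ h z) = MN.map Φ h (bdy (MN.of o) z) := by
  induction z using Finsupp.induction_linear with
  | zero => rw [map_zero, map_zero, map_zero]
  | add z w hz hw => rw [map_add, map_add, map_add, map_add, hz, hw]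
  | single a e =>
    unfold bdy
    rw [chainMap_single, Finsupp.linearCombination_single, Finsupp.linearCombination_single,
      smul_eq_mul, smul_eq_mul, map_mul, map_sub, map_one, MN.map_of]

theorem chainMap_mem_zz (Φ : MulAut (Fr n)) (h : o.Pres Φ) {S : Subgroup (Fr n)}
    {z : Fr n →₀ MN o} (hz : z ∈ ZZ (MN.of o) S) : chainMap o Φ h z ∈ ZZ (MN.of o) (Φ • S) := by
  obtain ⟨h1, h2⟩ := Submodule.mem_inf.1 hz
  refine Submodule.mem_inf.2 ⟨?_, ?_⟩
  · rw [← Finsupp.sum_single z, Finsupp.sum, map_sum]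
    refine Submodule.sum_mem _ fun a ha => ?_
    rw [chainMap_single]
    exact Finsupp.single_mem_supported _ _
      (Subgroup.smul_mem_pointwise_smul a Φ S ((Finsupp.mem_supported _ _).1 h1 ha))
  · rw [LinearMap.mem_ker] at h2 ⊢
    rw [mflux_bdy_chainMap, h2, map_zero]

theorem chainMap_mem_rel (Φ : MulAut (Fr n)) (h : o.Pres Φ) {S : Subgroup (Fr n)}
    {z : Fr n →₀ MN o} (hz : z ∈ Rel (MN.of o) S) : chainMap o Φ h z ∈ Rel (MN.of o) (Φ • S) := by
  unfold Rel at hz
  induction hz using Submodule.span_induction with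
  | mem w hw =>
    obtain ⟨a, ha, b, hb, rfl⟩ := hw
    refine Submodule.subset_span ⟨Φ a, Subgroup.smul_mem_pointwise_smul a Φ S ha, Φ b,
      Subgroup.smul_mem_pointwise_smul b Φ S hb, ?_⟩
    rw [map_sub, map_sub, chainMap_single, chainMap_single, chainMap_single, map_one, map_mul,
      MN.map_of]
  | zero =>
    rw [map_zero]
    exact zero_mem _
  | add z w _ _ hz hw =>
    rw [map_add]
    exact add_mem hz hw
  | smul d z _ hz =>
    rw [chainMap_smul]
    exact Submodule.smul_mem _ _ hz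

theorem chainMap_conj (g : Fr n) (h : o.Pres (MulAut.conj g)) (z : Fr n →₀ MN o) :
    chainMap o (MulAut.conj g) h z = MN.of o g • tau (MN.of o) g z := by
  induction z using Finsupp.induction_linear with
  | zero => rw [map_zero, map_zero, smul_zero]
  | add z w hz hw => rw [map_add, map_add, smul_add, hz, hw]
  | single a e =>
    unfold tau
    rw [chainMap_single, Finsupp.linearCombination_single, MN.map_conj, MulAut.conj_apply,
      Finsupp.smul_single, Finsupp.smul_single, smul_eq_mul, smul_eq_mul, mul_assoc (MN.of o g)]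

/-- From bounded coefficients to bounded heights. Let `(x, x * of i)` be an edge of the minimal
subtree of `S`. By the flux lemma and `zz_le_span_zeta` some `zeta p g`, `g ∈ T`, has a nonzero
coefficient for `S` at this edge; by `res_coef` the support of its coefficient for `⊤` meets `S`,
and by `coef_mul` the support of the coefficient at `(1, of i)` meets `S x`. Every vertex of the
minimal subtree is an end of such an edge. -/
theorem height_ge (χ : Fr n →* Multiplicative ℝ) {S : Subgroup (Fr n)} (hS : NonAb S)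
    (hχ : ∀ s ∈ S, χ s = 1) {T : Set (Fr n)} (hT : Subgroup.closure T = S) {p : Fr n}
    (hp : p ∈ S) (hp1 : p ≠ 1) {t : ℝ}
    (h : ∀ g ∈ T, ∀ i, ‖coef (MN.of (o.lex χ)) ⊤ 1 i (zeta (MN.of (o.lex χ)) p g)‖ ≤ Real.exp t)
    {y : Fr n} (hy : y ∈ TT S) :
    -t - ∑ i, |(χ (FreeGroup.of i)).toAdd| ≤ (χ y).toAdd := by
  have hι : MN.of (o.lex χ) p ≠ 1 := fun h0 => hp1 (MN.of_injective (h0.trans (map_one _).symm))
  have key : ∀ (x : Fr n) (i : Fin n), Ess S x (x * FreeGroup.of i) → -t ≤ (χ x).toAdd := by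
    intro x i hx
    obtain ⟨z, hz, hz0⟩ := exists_coef_ne_zero (o.lex χ) hS hx
    have hex : ∃ g ∈ T, coef (MN.of (o.lex χ)) S x i (zeta (MN.of (o.lex χ)) p g) ≠ 0 := by
      by_contra hcon
      push Not at hcon
      apply hz0
      have hle : Submodule.span (MN (o.lex χ)) (zeta (MN.of (o.lex χ)) p '' T) ⊔
          Rel (MN.of (o.lex χ)) S ≤ LinearMap.ker (coef (MN.of (o.lex χ)) S x i) := by
        refine sup_le (Submodule.span_le.2 ?_) fun w hw => ?_
        · rintro _ ⟨g, hg, rfl⟩
          exact hcon g hg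
        · exact coef_eq_zero_of_mem_rel _ x i hw
      exact hle (zz_le_span_zeta _ hT hp hι hz)
    obtain ⟨g, hg, hg0⟩ := hex
    have hgS : g ∈ S := hT ▸ Subgroup.subset_closure hg
    obtain ⟨s, hs, hs0⟩ := mflux_exists_mem_supp (o.lex χ) (coefIn_zeta (o.lex χ) hp hgS) hg0
    have h1 := (MN.norm_le_iff _ (-t)).1 (by rw [neg_neg]; exact h g hg i) _ hs0
    rwa [map_mul, hχ s hs, one_mul] at h1
  have hsum : ∀ i, |(χ (FreeGroup.of i)).toAdd| ≤ ∑ i, |(χ (FreeGroup.of i)).toAdd| := fun i =>
    Finset.single_le_sum (f := fun i => |(χ (FreeGroup.of i)).toAdd|)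
      (fun j _ => abs_nonneg _) (Finset.mem_univ i)
  obtain ⟨z, -, -, hyz, -⟩ := exists_two_nbrs hy
  obtain ⟨i, hi | hi⟩ := dd_eq_one.1 hyz.1
  · rw [hi] at hyz
    have h1 := key y i hyz
    have h2 := hsum i
    have h3 := abs_nonneg (χ (FreeGroup.of i)).toAdd
    linarith
  · have hzy := hyz.symm
    rw [hi] at hzy
    have h1 := key z i hzy
    have h2 := hsum i
    have h3 := neg_abs_le (χ (FreeGroup.of i)).toAdd
    rw [hi, map_mul, toAdd_mul]
    linarith

/-- From bounded heights to bounded coefficients: by `coef_eq_finsum` and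
`coef_eq_zero_of_not_ess` the support of the coefficient at `(1, of i)` lies in `TT S`. -/
theorem norm_coef_le (χ : Fr n →* Multiplicative ℝ) {S : Subgroup (Fr n)} {t : ℝ}
    (h : ∀ y ∈ TT S, -t ≤ (χ y).toAdd) {z : Fr n →₀ MN (o.lex χ)}
    (hz : z ∈ ZZ (MN.of (o.lex χ)) S) (hz' : CoefIn (o.lex χ) S z) (i : Fin n) :
    ‖coef (MN.of (o.lex χ)) ⊤ 1 i z‖ ≤ Real.exp t := by
  rw [← neg_neg t]
  refine (MN.norm_le_iff _ (-t)).2 fun g hg => h g ?_
  have h1 : coef (MN.of (o.lex χ)) S g i z ≠ 0 := by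
    intro h0
    have h2 := mflux_c_coef (o.lex χ) hz' g i (one_mem S)
    rw [h0, one_mul, MN.c_zero] at h2
    exact hg h2.symm
  have h3 : Ess S g (g * FreeGroup.of i) := by
    by_contra hc
    exact h1 (coef_eq_zero_of_not_ess _ hc hz)
  exact (ess_iff.1 h3).2.1

end Pool.Agent.Lib.MP_9ac97d_al
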