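import Pool.Agent.Lib.MP_9ac97d_al.Ore
import Pool.Agent.Lib.MP_9ac97d_al.MFlux

/-!
# Climbing from a normal subgroup with nilpotent quotient (task MClimb)
-/

set_option autoImplicit false

noncomputable section

open Pointwise

namespace Pool.Agent.Lib.MP_9ac97d_al

variable {n : ℕ}

theorem mclimb_mem_norm {G : Type} [Group G] {X : Subgroup G} {g : G} :
    g ∈ Subgroup.normalizer (X : Set G) ↔ MulAut.conj g • X = X :=
  Subgroup.mem_normalizer_iff_map_conj_eq

/-- Representatives of left cosets. -/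
theorem mclimb_rep {G : Type} [Group G] (L : Subgroup G) :
    ∃ t : G → G, (∀ x, (t x)⁻¹ * x ∈ L) ∧ ∀ x x', (t x)⁻¹ * t x' ∈ L → t x = t x' := by
  refine ⟨fun x => (QuotientGroup.mk x : G ⧸ L).out, fun x => ?_, fun x x' h => ?_⟩
  · exact QuotientGroup.eq.1 (QuotientGroup.out_eq' _)
  · have h1 := QuotientGroup.eq.2 h
    rw [QuotientGroup.out_eq', QuotientGroup.out_eq'] at h1
    show (QuotientGroup.mk x : G ⧸ L).out = (QuotientGroup.mk x' : G ⧸ L).out
    rw [h1]

theorem mclimb_conj_mem_sub {G : Type} [Group G] {o : BiOrd G} {N : Subgroup G} [hN : N.Normal]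
    (u : G) {x : MN o} (hx : x ∈ MN.sub o N) : MN.of o u * x * MN.of o u⁻¹ ∈ MN.sub o N := by
  rw [MN.mem_sub] at hx ⊢
  intro g hg
  have h1 : (MN.of o u * x * MN.of o u⁻¹).c g ≠ 0 := hg
  rw [MN.of_apply, MN.of_apply, MN.c_mul_single, MN.c_single_mul, one_mul, mul_one, inv_inv] at h1
  have h2 : u⁻¹ * (g * u) ∈ N := hx h1
  have h3 := hN.conj_mem _ h2 u
  have h4 : u * (u⁻¹ * (g * u)) * u⁻¹ = g := by group
  rwa [h4] at h3

section
variable {o : BiOrd (Fr n)} {N : Subgroup (Fr n)}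

theorem mclimb_coefIn_sum {J : Type} (s : Finset J) {z : J → Fr n →₀ MN o}
    (hz : ∀ j ∈ s, CoefIn o N (z j)) : CoefIn o N (∑ j ∈ s, z j) := by
  intro a
  rw [Finsupp.finsetSum_apply]
  exact Subfield.sum_mem _ fun j hj => hz j hj a

theorem mclimb_coefIn_smul {d : MN o} (hd : d ∈ MN.sub o N) {z : Fr n →₀ MN o}
    (hz : CoefIn o N z) : CoefIn o N (d • z) := by
  intro a
  rw [Finsupp.smul_apply, smul_eq_mul]
  exact Subfield.mul_mem _ hd (hz a)

theorem mclimb_coefIn_single (g : Fr n) {d : MN o} (hd : d ∈ MN.sub o N) :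
    CoefIn o N (Finsupp.single g d) := by
  classical
  intro a
  rw [Finsupp.single_apply]
  split_ifs
  · exact hd
  · exact Subfield.zero_mem _

theorem mclimb_coefIn_tau [N.Normal] (u : Fr n) {z : Fr n →₀ MN o} (hz : CoefIn o N z) :
    CoefIn o N (MN.of o u • tau (MN.of o) u z) := by
  rw [tau, Finsupp.linearCombination_apply, Finsupp.sum, Finset.smul_sum]
  refine mclimb_coefIn_sum _ fun a _ => ?_
  rw [Finsupp.smul_single, Finsupp.smul_single, smul_eq_mul, smul_eq_mul, ← mul_assoc]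
  exact mclimb_coefIn_single _ (mclimb_conj_mem_sub u (hz a))

theorem mclimb_coef_mem_fin [N.Normal] {z : Fr n →₀ MN o} (hz : CoefIn o N z) (i : Fin n) :
    coef (MN.of o) ⊤ 1 i z ∈ MN.fin o N := by
  rw [coef, Finsupp.linearCombination_apply, Finsupp.sum]
  refine Subring.sum_mem _ fun a _ => ?_
  rw [smul_eq_mul]
  refine Subring.mul_mem _ (MN.mem_fin_of_mem_sub (hz a)) ?_
  rw [der]
  refine finsum_induction (fun x => x ∈ MN.fin o N) (Subring.zero_mem _)
    (fun x y hx hy => Subring.add_mem _ hx hy) fun l => ?_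
  exact Subring.mul_mem _ (intCast_mem _ _) (MN.of_mem_fin N l)

/-- The cycles of the normalizer are spanned by cycles of the subgroup. -/
theorem mclimb_span {X : Subgroup (Fr n)} (hX : X ≤ N) (hne : X ≠ ⊥) :
    ZZ (MN.of o) (Subgroup.normalizer (X : Set (Fr n))) ≤
      Submodule.span (MN o) {z | z ∈ ZZ (MN.of o) X ∧ CoefIn o N z} ⊔
        Rel (MN.of o) (Subgroup.normalizer (X : Set (Fr n))) := by
  obtain ⟨⟨p, hp⟩, hp1⟩ := Subgroup.ne_bot_iff_exists_ne_one.1 hne
  have hp1' : p ≠ 1 := fun h => hp1 (Subtype.ext h)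
  have hof : ∀ q : Fr n, q ≠ 1 → MN.of o q ≠ 1 := fun q hq h =>
    hq (MN.of_injective (h.trans (map_one (MN.of o)).symm))
  have hpn : p ∈ Subgroup.normalizer (X : Set (Fr n)) := Subgroup.le_normalizer hp
  refine (zz_le_span_zeta (MN.of o) (Subgroup.closure_eq _) hpn (hof p hp1')).trans
    (sup_le ?_ le_sup_right)
  rw [Submodule.span_le]
  rintro _ ⟨g, hg, rfl⟩
  have h1 := zeta_sub_flux (MN.of o) hpn (hof p hp1') hg
  have hq : g * p * g⁻¹ ∈ X := (Subgroup.mem_normalizer_iff.1 hg p).1 hp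
  have hq1 : g * p * g⁻¹ ≠ 1 := by
    intro h
    apply hp1'
    have : p = g⁻¹ * (g * p * g⁻¹) * g := by group
    rw [this, h]
    group
  have hb : ∀ q : Fr n, q ≠ 1 → (1 - MN.of o q)⁻¹ * (MN.of o q - 1) = -1 := by
    intro q hq
    have h0 : 1 - MN.of o q ≠ 0 := sub_ne_zero.2 (hof q hq).symm
    rw [← neg_sub 1 (MN.of o q), mul_neg, inv_mul_cancel₀ h0]
  have hs : ∀ q ∈ X, (1 - MN.of o q)⁻¹ ∈ MN.sub o N := fun q hq =>
    Subfield.inv_mem _ (Subfield.sub_mem _ (Subfield.one_mem _) (MN.of_mem_sub (hX hq)))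
  have h2 : (Finsupp.single (g * p * g⁻¹) (1 - MN.of o (g * p * g⁻¹))⁻¹ -
      Finsupp.single p (1 - MN.of o p)⁻¹ : Fr n →₀ MN o) ∈
      {z | z ∈ ZZ (MN.of o) X ∧ CoefIn o N z} := by
    refine ⟨⟨?_, ?_⟩, ?_⟩
    · exact Submodule.sub_mem _ (Finsupp.single_mem_supported _ _ hq)
        (Finsupp.single_mem_supported _ _ hp)
    · rw [SetLike.mem_coe, LinearMap.mem_ker, map_sub, bdy, Finsupp.linearCombination_single,
        Finsupp.linearCombination_single, smul_eq_mul, smul_eq_mul, hb _ hq1, hb _ hp1', sub_self]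
    · intro a
      rw [Finsupp.sub_apply]
      exact Subfield.sub_mem _ (mclimb_coefIn_single _ (hs _ hq) a)
        (mclimb_coefIn_single _ (hs _ hp) a)
  have h3 := Submodule.add_mem_sup (Submodule.subset_span (R := MN o) h2) h1
  rwa [add_sub_cancel] at h3

/-- The core of the argument: combinations whose coefficients are group elements. -/
theorem mclimb_core [hN : N.Normal] {XX : Set (Subgroup (Fr n))}
    (hle : ∀ X ∈ XX, X ≤ N) (hconj : ∀ X ∈ XX, ∀ g : Fr n, MulAut.conj g • X ∈ XX)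
    (hind : ∀ (κ : Type) [Fintype κ] (P : κ → Subgroup (Fr n)), (∀ i, P i ∈ XX) → NonConj N P →
      Ind (MN.of o) N P)
    {κ : Type} [DecidableEq κ] (X : κ → Subgroup (Fr n)) (hX : ∀ a, X a ∈ XX) (hnc : NonConj ⊤ X)
    {J : Type} [Fintype J] (α : J → κ) (r : J → Fr n) (Y : J → Fr n →₀ MN o)
    (hY : ∀ j, Y j ∈ ZZ (MN.of o) (X (α j))) (hYc : ∀ j, CoefIn o N (Y j))
    (hrel : ∑ j, MN.of o (r j) • Y j ∈ Rel (MN.of o) ⊤) (a : κ) :
    ∑ j with α j = a, MN.of o (r j) • Y j ∈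
      Rel (MN.of o) (Subgroup.normalizer (X a : Set (Fr n))) := by
  classical
  choose t ht1 ht2 using fun a : κ => mclimb_rep (Subgroup.normalizer (X a : Set (Fr n)) ⊔ N)
  have hdec : ∀ j, ∃ g ∈ Subgroup.normalizer (X (α j) : Set (Fr n)), ∃ m ∈ N,
      r j = t (α j) (r j) * g * m := by
    intro j
    obtain ⟨g, hg, m, hm, h⟩ := Subgroup.mem_sup_of_normal_right.1 (ht1 (α j) (r j))
    refine ⟨g, hg, m, hm, ?_⟩
    rw [mul_assoc, h, mul_inv_cancel_left]
  choose g hg m hm hr using hdec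
  let cls : J → κ × Fr n := fun j => (α j, t (α j) (r j))
  let K : Type := {σ // σ ∈ Finset.univ.image cls}
  let _ : Fintype K := Finset.Subtype.fintype _
  let cl : J → K := fun j => ⟨cls j, Finset.mem_image_of_mem _ (Finset.mem_univ j)⟩
  have hcl : ∀ {j σ}, cl j = σ → α j = σ.1.1 ∧ t (α j) (r j) = σ.1.2 := by
    rintro j σ rfl
    exact ⟨rfl, rfl⟩
  let P : K → Subgroup (Fr n) := fun σ => MulAut.conj σ.1.2 • X σ.1.1
  have hP : ∀ σ, P σ ∈ XX := fun σ => hconj _ (hX _) _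
  have hPn : NonConj N P := by
    rintro ⟨σ, hσ⟩ ⟨σ', hσ'⟩ l hl h
    obtain ⟨j, -, rfl⟩ := Finset.mem_image.1 hσ
    obtain ⟨j', -, rfl⟩ := Finset.mem_image.1 hσ'
    have h1 : MulAut.conj l • MulAut.conj (t (α j) (r j)) • X (α j) =
        MulAut.conj (t (α j') (r j')) • X (α j') := h
    have h2 : MulAut.conj ((t (α j') (r j'))⁻¹ * l * t (α j) (r j)) • X (α j) = X (α j') := by
      rw [map_mul, map_mul, mul_smul, mul_smul, h1, map_inv, inv_smul_smul]
    have h3 : α j = α j' := hnc _ _ _ (Subgroup.mem_top _) h2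
    rw [← h3] at h2
    have h4 := mclimb_mem_norm.2 h2
    have h5 : (t (α j) (r j'))⁻¹ * t (α j) (r j) ∈
        Subgroup.normalizer (X (α j) : Set (Fr n)) ⊔ N := by
      refine Subgroup.mem_sup_of_normal_right.2 ⟨_, h4,
        (t (α j) (r j))⁻¹ * l⁻¹ * (t (α j) (r j))⁻¹⁻¹, hN.conj_mem _ (N.inv_mem hl) _, ?_⟩
      group
    have h6 := ht2 _ _ _ h5
    refine Subtype.ext ?_
    show (α j, t (α j) (r j)) = (α j', t (α j') (r j'))
    rw [← h3, h6]
  -- the transported chains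
  let V : K → Fr n →₀ MN o := fun σ =>
    ∑ j with cl j = σ, MN.of o (r j) • tau (MN.of o) (g j) (Y j)
  have hV : ∀ σ, V σ ∈ ZZ (MN.of o) (X σ.1.1) := by
    intro σ
    refine Submodule.sum_mem _ fun j hj => Submodule.smul_mem _ _ ?_
    have h1 := (tau_mem_zz (MN.of o) (g j)).2 (hY j)
    rw [mclimb_mem_norm.1 (hg j), (hcl (Finset.mem_filter.1 hj).2).1] at h1
    exact h1
  have hW : ∀ σ, tau (MN.of o) σ.1.2 (V σ) ∈ ZZ (MN.of o) (P σ) := fun σ =>
    (tau_mem_zz (MN.of o) σ.1.2).2 (hV σ)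
  have hsum : ∑ σ, tau (MN.of o) σ.1.2 (V σ) =
      ∑ j, MN.of o (r j) • tau (MN.of o) (t (α j) (r j) * g j) (Y j) := by
    rw [← Finset.sum_fiberwise Finset.univ cl]
    refine Finset.sum_congr rfl fun σ _ => ?_
    rw [map_sum]
    refine Finset.sum_congr rfl fun j hj => ?_
    rw [map_smul, tau_mul, (hcl (Finset.mem_filter.1 hj).2).2]
  have htop : ∑ σ, tau (MN.of o) σ.1.2 (V σ) ∈ Rel (MN.of o) ⊤ := by
    have h1 : ∑ j, MN.of o (r j) • (tau (MN.of o) (t (α j) (r j) * g j) (Y j) - Y j) ∈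
        Rel (MN.of o) ⊤ :=
      Submodule.sum_mem _ fun j _ => Submodule.smul_mem _ _
        (tau_sub_mem_rel (MN.of o) (Subgroup.mem_top _) (zz_mono (MN.of o) le_top (hY j)))
    have h2 := Submodule.add_mem _ h1 hrel
    rw [← Finset.sum_add_distrib] at h2
    simp only [smul_sub, sub_add_cancel] at h2
    rwa [hsum]
  have hcoef : CoefIn o N (∑ σ, tau (MN.of o) σ.1.2 (V σ)) := by
    rw [hsum]
    refine mclimb_coefIn_sum _ fun j _ => ?_
    have h1 := mclimb_coefIn_tau (t (α j) (r j) * g j)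
      (mclimb_coefIn_smul (MN.of_mem_sub (hm j)) (hYc j))
    rw [map_smul, smul_smul, ← map_mul, ← hr j] at h1
    exact h1
  have hsupp : ∑ σ, tau (MN.of o) σ.1.2 (V σ) ∈
      Finsupp.supported (MN o) (MN o) (N : Set (Fr n)) :=
    Submodule.sum_mem _ fun σ _ => (zz_mono (MN.of o) (hle _ (hP σ)) (hW σ)).1
  have hN' := mem_rel_of_coefIn o le_top hcoef hsupp htop
  have hrelσ : ∀ σ, V σ ∈ Rel (MN.of o) (X σ.1.1) := fun σ =>
    (tau_mem_rel (MN.of o) σ.1.2).1 (hind K P hP hPn _ hW hN' σ)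
  have hU : ∀ σ : K, ∑ j with cl j = σ, MN.of o (r j) • Y j ∈
      Rel (MN.of o) (Subgroup.normalizer (X σ.1.1 : Set (Fr n))) := by
    intro σ
    have h1 : ∑ j with cl j = σ, MN.of o (r j) • (tau (MN.of o) (g j) (Y j) - Y j) ∈
        Rel (MN.of o) (Subgroup.normalizer (X σ.1.1 : Set (Fr n))) := by
      refine Submodule.sum_mem _ fun j hj => Submodule.smul_mem _ _ ?_
      rw [← (hcl (Finset.mem_filter.1 hj).2).1]
      exact tau_sub_mem_rel (MN.of o) (hg j) (zz_mono (MN.of o) Subgroup.le_normalizer (hY j))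
    have h2 := Submodule.sub_mem _ (rel_mono (MN.of o) Subgroup.le_normalizer (hrelσ σ)) h1
    rw [← Finset.sum_sub_distrib] at h2
    simpa only [smul_sub, sub_sub_cancel] using h2
  rw [← Finset.sum_fiberwise (Finset.univ.filter fun j => α j = a) cl]
  refine Submodule.sum_mem _ fun σ _ => ?_
  by_cases hσ : σ.1.1 = a
  · have h1 : (Finset.univ.filter fun j => α j = a).filter (fun j => cl j = σ) =
        Finset.univ.filter fun j => cl j = σ := by
      ext j
      simp only [Finset.mem_filter, Finset.mem_univ, true_and]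
      exact ⟨fun h => h.2, fun h => ⟨(hcl h).1.trans hσ, h⟩⟩
    rw [h1, ← hσ]
    exact hU σ
  · refine Submodule.sum_mem _ fun j hj => ?_
    have h1 := Finset.mem_filter.1 hj
    exact absurd ((hcl h1.2).1.symm.trans (Finset.mem_filter.1 h1.1).2) hσ

/-- Coefficients supported on finitely many cosets. -/
theorem mclimb_fin [N.Normal] {XX : Set (Subgroup (Fr n))}
    (hle : ∀ X ∈ XX, X ≤ N) (hconj : ∀ X ∈ XX, ∀ g : Fr n, MulAut.conj g • X ∈ XX)
    (hind : ∀ (κ : Type) [Fintype κ] (P : κ → Subgroup (Fr n)), (∀ i, P i ∈ XX) → NonConj N P →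
      Ind (MN.of o) N P)
    {κ : Type} [DecidableEq κ] (X : κ → Subgroup (Fr n)) (hX : ∀ a, X a ∈ XX) (hnc : NonConj ⊤ X)
    {J : Type} [Fintype J] (α : J → κ) (d : J → MN o) (hd : ∀ j, d j ∈ MN.fin o N)
    (z : J → Fr n →₀ MN o) (hz : ∀ j, z j ∈ ZZ (MN.of o) (X (α j))) (hzc : ∀ j, CoefIn o N (z j))
    (hrel : ∑ j, d j • z j ∈ Rel (MN.of o) ⊤) (a : κ) :
    ∑ j with α j = a, d j • z j ∈ Rel (MN.of o) (Subgroup.normalizer (X a : Set (Fr n))) := by
  classical
  choose s y hy hdy using fun j => MN.fin_decomp (hd j) (fun b => b.out) QuotientGroup.out_eq'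
  have h1 : ∀ j, d j • z j = ∑ b : s j, MN.of o b.1.out • y j b.1 • z j := by
    intro j
    rw [hdy j, Finset.sum_smul, ← Finset.sum_coe_sort]
    exact Finset.sum_congr rfl fun b _ => mul_smul _ _ _
  have h2 := mclimb_core hle hconj hind X hX hnc (J := (j : J) × s j) (fun q => α q.1)
    (fun q => q.2.1.out) (fun q => y q.1 q.2.1 • z q.1)
    (fun q => Submodule.smul_mem _ _ (hz q.1)) (fun q => mclimb_coefIn_smul (hy _ _) (hzc q.1))
    (by rw [Fintype.sum_sigma]; simpa only [h1] using hrel) a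
  rw [Finset.sum_filter, Fintype.sum_sigma] at h2
  rw [Finset.sum_filter]
  have h3 : ∀ j, (if α j = a then d j • z j else 0) =
      ∑ b : s j, if α j = a then MN.of o b.1.out • y j b.1 • z j else 0 := by
    intro j
    split_ifs
    · exact h1 j
    · exact Finset.sum_const_zero.symm
  simpa only [h3] using h2

theorem mclimb_rel_iff {z : Fr n →₀ MN o} :
    z ∈ Rel (MN.of o) ⊤ ↔ ∀ i, coef (MN.of o) ⊤ 1 i z = 0 := by
  refine ⟨fun h i => coef_eq_zero_of_mem_rel (MN.of o) 1 i h, fun h => ?_⟩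
  refine mem_rel_of_coef (MN.of o) (fun a _ => Subgroup.mem_top a) fun x i => ?_
  have := coef_mul (MN.of o) (Subgroup.mem_top x) 1 i z
  rwa [mul_one, h i, zero_mul] at this

end

/-- Let `G a` be the stabilizer of `X a` under conjugation and `y a ∈ ZZ (G a)` with sum in
`Rel ⊤`. Modulo `Rel (G a)`, `y a` is a combination `∑ d a k • z a k` of fluxes `z a k ∈ ZZ (X a)`
with `CoefIn o N` (`zz_le_span_zeta`, `zeta_sub_flux`; the subgroup `X a` is normal in `G a`). The
vectors `w a k = (coef ⊤ 1 i (z a k))_i` have entries in `R = MN.fin o N` and satisfy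
`∑ d w = 0`; by `LOre.span_solutions` we may assume `d a k ∈ R` (conversely a solution gives an
element of `Rel ⊤` by `coef_mul`, `mem_rel_of_coef`). Decompose `d a k = ∑ of (r a b) * d a k b`
along the cosets `b` of `N` (`MN.fin_decomp`), with representatives of the form
`r a b = t * g`, `g ∈ G a`, `t` depending only on the class of `b` modulo `G a`. With
`Y a b = ∑ k, d a k b • z a k`, the chain `∑ of (r a b) • tau (r a b) (Y a b)` is supported in `N`,
has `CoefIn o N` and lies in `Rel ⊤` (`tau_sub_mem_rel`), so it lies in `Rel N`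
(`mem_rel_of_coefIn`). The subgroups `conj t • X a` are pairwise not conjugate under `N`, so the
hypothesis gives that each of the sums lies in `Rel (conj t • X a)`; transport back. -/
theorem climb (o : BiOrd (Fr n)) (N : Subgroup (Fr n)) [N.Normal] {c : ℕ}
    (hc : (⊤ : Subgroup (Fr n)).lowerCentralSeries c ≤ N) {XX : Set (Subgroup (Fr n))}
    (hle : ∀ X ∈ XX, X ≤ N) (hne : ∀ X ∈ XX, X ≠ ⊥)
    (hconj : ∀ X ∈ XX, ∀ g : Fr n, MulAut.conj g • X ∈ XX)
    (hind : ∀ (κ : Type) [Fintype κ] (P : κ → Subgroup (Fr n)), (∀ i, P i ∈ XX) → NonConj N P →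
      Ind (MN.of o) N P)
    {κ : Type} [Fintype κ] (X : κ → Subgroup (Fr n)) (hX : ∀ a, X a ∈ XX) (hnc : NonConj ⊤ X) :
    Ind (MN.of o) ⊤ fun a => Subgroup.normalizer (X a : Set (Fr n)) := by
  classical
  intro y hy hrel a
  have h1 : ∀ b, ∃ (k : ℕ) (f : Fin k → MN o) (z : Fin k → Fr n →₀ MN o),
      (∀ i, z i ∈ ZZ (MN.of o) (X b) ∧ CoefIn o N (z i)) ∧
        y b - ∑ i, f i • z i ∈ Rel (MN.of o) (Subgroup.normalizer (X b : Set (Fr n))) := by
    intro b
    obtain ⟨u, hu, v, hv, huv⟩ :=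
      Submodule.mem_sup.1 (mclimb_span (hle _ (hX b)) (hne _ (hX b)) (hy b))
    obtain ⟨k, f, z, hz⟩ := Submodule.mem_span_set'.1 hu
    refine ⟨k, f, fun i => z i, fun i => (z i).2, ?_⟩
    rw [hz, ← huv, add_sub_cancel_left]
    exact hv
  choose k f z hz hyz using h1
  have hsol : ∀ d : ((b : κ) × Fin (k b)) → MN o, ∑ q, d q • z q.1 q.2 ∈ Rel (MN.of o) ⊤ ↔
      ∀ i, ∑ q, d q * coef (MN.of o) ⊤ 1 i (z q.1 q.2) = 0 := by
    intro d
    rw [mclimb_rel_iff]
    simp only [map_sum, map_smul, smul_eq_mul]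
  have h2 : ∑ q : (b : κ) × Fin (k b), f q.1 q.2 • z q.1 q.2 ∈ Rel (MN.of o) ⊤ := by
    have h3 : ∑ b, (y b - ∑ i, f b i • z b i) ∈ Rel (MN.of o) ⊤ :=
      Submodule.sum_mem _ fun b _ => rel_mono (MN.of o) le_top (hyz b)
    have h4 := Submodule.sub_mem _ hrel h3
    rw [Finset.sum_sub_distrib, sub_sub_cancel] at h4
    rwa [Fintype.sum_sigma]
  have h3 := (lOre_fin o N hc).span_solutions
    (fun (q : (b : κ) × Fin (k b)) i => coef (MN.of o) ⊤ 1 i (z q.1 q.2))
    (fun q i => mclimb_coef_mem_fin (hz q.1 q.2).2 i) ((hsol fun q => f q.1 q.2).1 h2)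
  have h4 : ∀ d ∈ Submodule.span (MN o) {r : ((b : κ) × Fin (k b)) → MN o |
      (∀ q, r q ∈ MN.fin o N) ∧ ∀ i, ∑ q, r q * coef (MN.of o) ⊤ 1 i (z q.1 q.2) = 0},
      ∑ q with q.1 = a, d q • z q.1 q.2 ∈
        Rel (MN.of o) (Subgroup.normalizer (X a : Set (Fr n))) := by
    intro d hd
    induction hd using Submodule.span_induction with
    | mem d hd =>
      exact mclimb_fin hle hconj hind X hX hnc (fun q : (b : κ) × Fin (k b) => q.1) d hd.1
        (fun q => z q.1 q.2) (fun q => (hz q.1 q.2).1) (fun q => (hz q.1 q.2).2)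
        ((hsol d).2 hd.2) a
    | zero => simp
    | add d d' _ _ hd hd' =>
      simp only [Pi.add_apply, add_smul, Finset.sum_add_distrib]
      exact Submodule.add_mem _ hd hd'
    | smul c d _ hd =>
      simp only [Pi.smul_apply, smul_eq_mul, mul_smul, ← Finset.smul_sum]
      exact Submodule.smul_mem _ _ hd
  have h5 := h4 _ h3
  rw [Finset.sum_filter, Fintype.sum_sigma, Finset.sum_eq_single a] at h5
  · simp only [if_true] at h5
    have h6 := Submodule.add_mem _ (hyz a) h5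
    rwa [sub_add_cancel] at h6
  · intro b _ hb
    simp only [hb, if_false, Finset.sum_const_zero]
  · intro h
    exact absurd (Finset.mem_univ a) h

end Pool.Agent.Lib.MP_9ac97d_al
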