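import Pool.Agent.Lib.MP_9ac97d_al.TCore

/-!
# Invariant forests and the stabilizers of their components (task TForest)
-/

set_option autoImplicit false

noncomputable section

open Pointwise

namespace Pool.Agent.Lib.MP_9ac97d_al

variable {n : ℕ} {N : Subgroup (Fr n)} {R : Set (Fr n × Fin n)}

lemma tforest_edge (x : Fr n) (i : Fin n) : dd x (x * FreeGroup.of i) = 1 :=
  dd_eq_one.mpr ⟨i, Or.inl rfl⟩

lemma tforest_half (g x y : Fr n) (i : Fin n) :
    g * y ∈ Half x (x * FreeGroup.of i) ↔ y ∈ Half (g⁻¹ * x) (g⁻¹ * x * FreeGroup.of i) := by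
  rw [← mul_mem_half g (g⁻¹ * x), mul_assoc g⁻¹, mul_inv_cancel_left, mul_inv_cancel_left]

lemma tforest_mem_conj {S : Subgroup (Fr n)} {g x : Fr n} :
    x ∈ MulAut.conj g • S ↔ g⁻¹ * x * g ∈ S := by
  rw [Subgroup.mem_pointwise_smul_iff_inv_smul_mem]
  simp

lemma tforest_ess_conj (S : Subgroup (Fr n)) (g x y : Fr n) :
    Ess (MulAut.conj g • S) (g * x) (g * y) ↔ Ess S x y := by
  rw [ess_iff, ess_iff, mul_mem_tt_conj, mul_mem_tt_conj, dd_mul_left]

theorem Same.refl (R : Set (Fr n × Fin n)) (y : Fr n) : Same R y y := fun _ _ => Iff.rfl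

theorem Same.symm {y y' : Fr n} (h : Same R y y') : Same R y' y := fun p hp => (h p hp).symm

theorem Same.trans {y y' y'' : Fr n} (h : Same R y y') (h' : Same R y' y'') : Same R y y'' :=
  fun p hp => (h p hp).trans (h' p hp)

theorem Same.mul (hR : RInv N R) {g y y' : Fr n} (hg : g ∈ N) (h : Same R y y') :
    Same R (g * y) (g * y') := by
  intro p hp
  rw [tforest_half, tforest_half]
  exact h (g⁻¹ * p.1, p.2) (hR _ (N.inv_mem hg) p hp)

theorem Same.btw {y m y' : Fr n} (h : Same R y y') (hm : Btw y m y') : Same R y m := by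
  intro p hp
  have he := tforest_edge p.1 p.2
  refine ⟨fun hy => half_convex he hy ((h p hp).mp hy) hm, fun h1 => ?_⟩
  by_contra hy
  have hy' := mt (h p hp).mpr hy
  rw [not_mem_half he] at hy hy'
  exact (not_mem_half he m).mpr (half_convex (dd_comm _ _ ▸ he) hy hy' hm) h1

/-- An edge inside a component is not removed. -/
theorem Same.not_mem {x : Fr n} {i : Fin n} (h : Same R x (x * FreeGroup.of i)) :
    (x, i) ∉ R := by
  intro hx
  have h1 := (h _ hx).mpr (by
    change dd _ _ < dd _ _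
    rw [dd_self, dd_comm, tforest_edge]
    exact one_pos)
  change dd _ _ < dd _ _ at h1
  rw [dd_self] at h1
  exact Nat.not_lt_zero _ h1

theorem same_of_not_mem {x : Fr n} {i : Fin n} (h : (x, i) ∉ R) :
    Same R x (x * FreeGroup.of i) := by
  rintro ⟨z, j⟩ hp
  have he := tforest_edge z j
  have hx := tforest_edge x i
  constructor
  · intro h1
    by_contra h2
    obtain ⟨h3, h4⟩ := sep_adj he (dd_comm _ _ ▸ hx) ((not_mem_half he _).mp h2) h1
    rw [← h3, mul_assoc, left_eq_mul] at h4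
    have h5 := congrArg (FreeGroup.lift fun _ : Fin n => Multiplicative.ofAdd (1 : ℤ)) h4
    rw [map_mul, FreeGroup.lift_apply_of, FreeGroup.lift_apply_of, MonoidHom.map_one] at h5
    exact absurd h5 (by decide)
  · intro h1
    by_contra h2
    obtain ⟨h3, h4⟩ := sep_adj he hx ((not_mem_half he _).mp h2) h1
    subst h3
    obtain rfl := FreeGroup.of_injective (mul_left_cancel h4)
    exact h hp

theorem mem_stabC (hR : RInv N R) {y g : Fr n} :
    g ∈ stabC N R y ↔ g ∈ N ∧ Same R (g * y) y := by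
  let K : Subgroup (Fr n) :=
    { carrier := {g | g ∈ N ∧ Same R (g * y) y}
      mul_mem' := fun {a b} ha hb =>
        ⟨N.mul_mem ha.1 hb.1, by rw [mul_assoc]; exact (hb.2.mul hR ha.1).trans ha.2⟩
      one_mem' := ⟨N.one_mem, by rw [one_mul]; exact Same.refl R y⟩
      inv_mem' := fun {a} ha => ⟨N.inv_mem ha.1, by
        have h := ha.2.mul hR (N.inv_mem ha.1)
        rw [inv_mul_cancel_left] at h
        exact h.symm⟩ }
  have h : stabC N R y = K := Subgroup.closure_eq K
  rw [h]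
  exact Iff.rfl

theorem stabC_le (hR : RInv N R) (y : Fr n) : stabC N R y ≤ N := by
  exact fun _ hg => ((mem_stabC hR).mp hg).1

theorem stabC_congr (hR : RInv N R) {y y' : Fr n} (h : Same R y y') :
    stabC N R y = stabC N R y' := by
  ext g
  rw [mem_stabC hR, mem_stabC hR]
  exact and_congr_right fun hg => ⟨fun h1 => ((h.mul hR hg).symm.trans h1).trans h,
    fun h1 => ((h.mul hR hg).trans h1).trans h.symm⟩

theorem stabC_conj (hR : RInv N R) {g : Fr n} (hg : g ∈ N) (y : Fr n) :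
    MulAut.conj g • stabC N R y = stabC N R (g * y) := by
  ext x
  rw [tforest_mem_conj, mem_stabC hR, mem_stabC hR]
  constructor
  · rintro ⟨h1, h2⟩
    refine ⟨by simpa [mul_assoc] using N.mul_mem (N.mul_mem hg h1) (N.inv_mem hg), ?_⟩
    simpa [mul_assoc] using h2.mul hR hg
  · rintro ⟨h1, h2⟩
    refine ⟨N.mul_mem (N.mul_mem (N.inv_mem hg) h1) hg, ?_⟩
    simpa [mul_assoc] using h2.mul hR (N.inv_mem hg)

theorem RInv.mono (hR : RInv N R) {L : Subgroup (Fr n)} (h : L ≤ N) : RInv L R := by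
  exact fun g hg => hR g (h hg)

theorem stabC_inf (hR : RInv N R) {L : Subgroup (Fr n)} (h : L ≤ N) (y : Fr n) :
    stabC N R y ⊓ L = stabC L R y := by
  ext g
  rw [Subgroup.mem_inf, mem_stabC hR, mem_stabC (hR.mono h)]
  exact ⟨fun h1 => ⟨h1.2, h1.1.2⟩, fun h1 => ⟨⟨h h1.1, h1.2⟩, h1.1⟩⟩

/-- A nontrivial element stabilizes at most one component (`att_iff`). -/
theorem same_of_inf_ne_bot (hR : RInv N R) {y y' : Fr n}
    (h : stabC N R y ⊓ stabC N R y' ≠ ⊥) : Same R y y' := by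
  obtain ⟨⟨a, ha⟩, ha1⟩ := Subgroup.ne_bot_iff_exists_ne_one.mp h
  have ha2 : a ≠ 1 := fun h1 => ha1 (Subtype.ext h1)
  intro p hp
  have key : ∀ z, a ∈ stabC N R z → (z ∈ Half p.1 (p.1 * FreeGroup.of p.2) ↔
      Att a p.1 (p.1 * FreeGroup.of p.2)) := fun z hz => by
    have h1 : ∀ k : ℕ, Same R (a ^ k * z) z := fun k =>
      ((mem_stabC hR).mp (Subgroup.pow_mem _ hz k)).2
    rw [att_iff ha2 (tforest_edge _ _) z]
    refine ⟨fun h2 => Filter.Eventually.of_forall fun k => (h1 k p hp).mpr h2, fun h2 => ?_⟩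
    obtain ⟨k, hk⟩ := h2.exists
    exact (h1 k p hp).mp hk
  rw [key y ha.1, key y' ha.2]

/-- The minimal subtree of a subgroup of the stabilizer lies in the component. -/
theorem same_of_mem_tt (hR : RInv N R) {y z : Fr n} {S : Subgroup (Fr n)}
    (hS : S ≤ stabC N R y) (hz : z ∈ TT S) : Same R z y := by
  obtain ⟨a, haS, ha, hz⟩ := hz
  obtain ⟨q, hq, -, -, h1, -⟩ := exists_proj ha y
  obtain ⟨hN, h2⟩ := (mem_stabC hR).mp (hS haS)
  have h3 : Same R y q := h2.symm.btw h1
  obtain ⟨k, hk⟩ := exists_zpow_btw ha hq hz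
  have h4 : Same R q (a ^ k * z) := ((h3.symm.trans h2.symm).trans (h3.mul hR hN)).btw hk
  obtain ⟨hN', h5⟩ := (mem_stabC hR).mp (hS (S.inv_mem (S.zpow_mem haS k)))
  have h6 := (h3.trans h4).mul hR hN'
  rw [inv_mul_cancel_left] at h6
  exact h6.symm.trans h5

/-- If no edge of the minimal subtree of `S` is removed, `S` stabilizes a component. -/
theorem le_stabC (hR : RInv N R) {S : Subgroup (Fr n)} (hS : S ≤ N)
    (h : ∀ p ∈ R, ¬ Ess S p.1 (p.1 * FreeGroup.of p.2)) {y : Fr n} (hy : y ∈ TT S) :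
    S ≤ stabC N R y := by
  have key : ∀ p ∈ R, ∀ z ∈ TT S, ∀ w ∈ TT S, w ∈ Half p.1 (p.1 * FreeGroup.of p.2) →
      z ∈ Half p.1 (p.1 * FreeGroup.of p.2) := fun p hp z hz w hw h1 => by
    by_contra h2
    have he := tforest_edge p.1 p.2
    obtain ⟨h3, h4, -⟩ := (sep_iff he z w).mp ⟨(not_mem_half he z).mp h2, h1⟩
    exact h p hp (ess_iff.mpr ⟨he, tt_convex hz hw h3, tt_convex hz hw h4⟩)
  intro s hs
  exact (mem_stabC hR).mpr ⟨hS hs, fun p hp =>
    ⟨key p hp _ hy _ (mul_mem_tt hs hy), key p hp _ (mul_mem_tt hs hy) _ hy⟩⟩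

/-- In a cocompact forest the components have bounded diameter modulo their stabilizers: take the
point of the orbit of `y` in the component closest to `y'`; the vertices of the geodesic are ends
of edges outside `R`, which form at most `2 V` orbits; two in the same orbit allow a shortening. -/
theorem exists_near_of_same (hR : RInv N R) {V : ℕ} (hV : Cocpt N R V) {y y' : Fr n}
    (h : Same R y y') : ∃ g ∈ N, dd (g * y) y' ≤ 2 * V := by
  classical
  obtain ⟨Ω, hΩ, hc⟩ := hV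
  have hex : ∃ D, ∃ g ∈ N, Same R (g * y) y' ∧ dd (g * y) y' = D :=
    ⟨_, 1, N.one_mem, by rwa [one_mul], rfl⟩
  obtain ⟨g, hg, hs, hD⟩ := Nat.find_spec hex
  refine ⟨g, hg, ?_⟩
  by_contra hlt
  have hmin : ∀ g' ∈ N, Same R (g' * y) y' → dd (g * y) y' ≤ dd (g' * y) y' :=
    fun g' hg' hs' => hD ▸ Nat.find_min' hex ⟨g', hg', hs', rfl⟩
  choose! m hm hd using fun t (ht : t ≤ dd (g * y) y') => exists_btw (g * y) y' ht
  have hsm : ∀ t, t ≤ dd (g * y) y' → Same R (g * y) (m t) := fun t ht => hs.btw (hm t ht)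
  have hend : ∀ t, t < dd (g * y) y' → ∃ c ∈ Ω ×ˢ (Finset.univ : Finset Bool), ∃ u ∈ N,
      m t = u * (c.1.1 * if c.2 then FreeGroup.of c.1.2 else 1) := fun t ht => by
    have h1 := ((hm t ht.le).order (hm (t + 1) ht) (by rw [hd t ht.le, hd (t + 1) ht]; omega)).1
    have h2 : dd (m t) (m (t + 1)) = 1 := by
      unfold Btw at h1
      rw [hd t ht.le, hd (t + 1) ht] at h1
      omega
    have h3 := (hsm t ht.le).symm.trans (hsm (t + 1) ht)
    obtain ⟨i, hi | hi⟩ := dd_eq_one.mp h2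
    · rw [hi] at h3
      obtain ⟨u, hu, q, hq, e⟩ := hc _ h3.not_mem
      exact ⟨(q, false), by simpa using hq, u, hu, by simpa using congrArg Prod.fst e⟩
    · rw [hi] at h3
      obtain ⟨u, hu, q, hq, e⟩ := hc _ h3.symm.not_mem
      obtain ⟨e1, e2⟩ := Prod.ext_iff.mp e
      refine ⟨(q, true), by simpa using hq, u, hu, ?_⟩
      rw [hi, show m (t + 1) = u * q.1 from e1, show i = q.2 from e2, mul_assoc, if_pos rfl]
  rcases Ω.eq_empty_or_nonempty with rfl | ⟨q0, -⟩
  · obtain ⟨c, hc', -⟩ := hend 0 (by omega)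
    simp at hc'
  have : Nonempty ((Fr n × Fin n) × Bool) := ⟨q0, true⟩
  choose! c hc1 u hu hmu using hend
  have key : ∀ t1 t2, t1 < t2 → t2 < dd (g * y) y' → c t1 ≠ c t2 := fun t1 t2 h12 h2 hcc => by
    have h1 := h12.trans h2
    have hN := N.mul_mem (hu t2 h2) (N.inv_mem (hu t1 h1))
    have e : u t2 * (u t1)⁻¹ * m t1 = m t2 := by
      rw [hmu t1 h1, hmu t2 h2, hcc, mul_assoc, inv_mul_cancel_left]
    have h3 := (hsm t1 h1.le).mul hR hN
    rw [e, ← mul_assoc] at h3
    have h4 := hmin _ (N.mul_mem hN hg) ((h3.trans (hsm t2 h2.le).symm).trans hs)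
    have h5 := dd_triangle (u t2 * (u t1)⁻¹ * g * y) (m t2) y'
    have h6 : dd (u t2 * (u t1)⁻¹ * g * y) (m t2) = t1 := by
      rw [← e, mul_assoc _ g, dd_mul_left, hd t1 h1.le]
    have h7 := hm t2 h2.le
    unfold Btw at h7
    rw [hd t2 h2.le] at h7
    omega
  obtain ⟨t1, ht1, t2, ht2, hne, hcc⟩ := Finset.exists_ne_map_eq_of_card_lt_of_maps_to
    (s := Finset.range (dd (g * y) y')) (t := Ω ×ˢ (Finset.univ : Finset Bool))
    (by rw [Finset.card_product, Finset.card_univ, Fintype.card_bool, Finset.card_range]; omega)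
    (f := c) fun t ht => hc1 t (Finset.mem_range.mp ht)
  rcases lt_or_gt_of_ne hne with h12 | h12
  · exact key t1 t2 h12 (Finset.mem_range.mp ht2) hcc
  · exact key t2 t1 h12 (Finset.mem_range.mp ht1) hcc.symm

/-- The edges that are not in an `N`-translate of the minimal subtree of some `D i`. -/
def outside {κ : Type} (N : Subgroup (Fr n)) (D : κ → Subgroup (Fr n)) : Set (Fr n × Fin n) :=
  {p | ∀ i, ∀ g ∈ N, ¬ Ess (D i) (g * p.1) (g * p.1 * FreeGroup.of p.2)}

theorem rinv_outside {κ : Type} (N : Subgroup (Fr n)) (D : κ → Subgroup (Fr n)) :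
    RInv N (outside N D) := by
  intro g hg p hp i g' hg'
  simpa only [mul_assoc] using hp i (g' * g) (N.mul_mem hg' hg)

theorem cocpt_outside {κ : Type} [Fintype κ] {D : κ → Subgroup (Fr n)} (hD : ∀ i, D i ≤ N)
    (hfg : ∀ i, (D i).FG) : Cocpt N (outside N D) (∑ i, n * core (D i)) := by
  classical
  have h1 : ∀ i, ∃ T : Finset (Fr n), T.card ≤ core (D i) ∧
      ∀ y ∈ TT (D i), ∃ s ∈ D i, ∃ t ∈ T, y = s * t := fun i => by
    have hf := finite_coreSet (hfg i)
    choose! rep _ hrep using fun O (hO : O ∈ coreSet (D i)) => hO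
    refine ⟨hf.toFinset.image rep, Finset.card_image_le.trans
      (Set.ncard_eq_toFinset_card _ hf).ge, fun y hy => ?_⟩
    have hO : (fun s => s * y) '' (D i : Set (Fr n)) ∈ coreSet (D i) := ⟨y, hy, rfl⟩
    have h2 : y ∈ (fun s => s * y) '' (D i : Set (Fr n)) := ⟨1, (D i).one_mem, one_mul y⟩
    rw [← hrep _ hO] at h2
    obtain ⟨s, hs, e⟩ := h2
    exact ⟨s, hs, _, Finset.mem_image_of_mem _ (hf.mem_toFinset.mpr hO), e.symm⟩
  choose T hT1 hT2 using h1
  refine ⟨Finset.univ.biUnion fun i => T i ×ˢ Finset.univ, Finset.card_biUnion_le.trans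
    (Finset.sum_le_sum fun i _ => ?_), fun p hp => ?_⟩
  · rw [Finset.card_product, Finset.card_univ, Fintype.card_fin, mul_comm]
    exact Nat.mul_le_mul_left _ (hT1 i)
  · simp only [outside, Set.mem_ofPred_eq, not_forall, not_not] at hp
    obtain ⟨i, g, hg, he⟩ := hp
    obtain ⟨s, hs, t, ht, e⟩ := hT2 i _ (ess_iff.mp he).2.1
    refine ⟨g⁻¹ * s, N.mul_mem (N.inv_mem hg) (hD i hs), (t, p.2),
      Finset.mem_biUnion.mpr ⟨i, Finset.mem_univ _, by simpa using ht⟩, Prod.ext ?_ rfl⟩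
    change p.1 = g⁻¹ * s * t
    rw [mul_assoc, ← e, inv_mul_cancel_left]

theorem le_stabC_outside {κ : Type} {D : κ → Subgroup (Fr n)} (hD : ∀ i, D i ≤ N) (i : κ)
    {y : Fr n} (hy : y ∈ TT (D i)) : D i ≤ stabC N (outside N D) y := by
  exact le_stabC (rinv_outside N D) (hD i)
    (fun p hp => by simpa only [one_mul] using hp i 1 N.one_mem) hy

/-- Replacing the subgroups by `N`-conjugates does not change the forest. -/
theorem outside_congr {κ : Type} {D D' : κ → Subgroup (Fr n)}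
    (h : ∀ i, ∃ g ∈ N, D' i = MulAut.conj g • D i) : outside N D' = outside N D := by
  ext p
  refine forall_congr' fun i => ?_
  obtain ⟨g, hg, e⟩ := h i
  rw [e]
  constructor
  · intro h1 u hu h2
    refine h1 (g * u) (N.mul_mem hg hu) ?_
    simpa only [mul_assoc] using (tforest_ess_conj (D i) g _ _).mpr h2
  · intro h1 u hu h2
    refine h1 (g⁻¹ * u) (N.mul_mem (N.inv_mem hg) hu) ((tforest_ess_conj (D i) g _ _).mp ?_)
    simpa only [mul_assoc, mul_inv_cancel_left] using h2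

/-- Conjugation by an element that normalizes `N` translates the forest. -/
theorem stabC_outside_conj {κ : Type} [N.Normal] (D : κ → Subgroup (Fr n)) (g y : Fr n) :
    stabC N (outside N fun i => MulAut.conj g • D i) (g * y) =
      MulAut.conj g • stabC N (outside N D) y := by
  have hN : N.Normal := inferInstance
  have h1 : ∀ (x : Fr n) (j : Fin n),
      (g * x, j) ∈ (outside N fun i => MulAut.conj g • D i) ↔ (x, j) ∈ outside N D := fun x j => by
    refine forall_congr' fun i => ⟨fun h1 u hu h2 => ?_, fun h1 u hu h2 => ?_⟩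
    · refine h1 (g * u * g⁻¹) (hN.conj_mem u hu g) ?_
      simpa only [mul_assoc, inv_mul_cancel_left] using (tforest_ess_conj (D i) g _ _).mpr h2
    · refine h1 (g⁻¹ * u * g) (hN.conj_mem' u hu g) ((tforest_ess_conj (D i) g _ _).mp ?_)
      simpa only [mul_assoc, mul_inv_cancel_left] using h2
  have h2 : ∀ a b : Fr n, Same (outside N fun i => MulAut.conj g • D i) (g * a) (g * b) ↔
      Same (outside N D) a b := fun a b => by
    refine ⟨fun h p hp => ?_, fun h p hp => ?_⟩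
    · have h3 := h (g * p.1, p.2) ((h1 p.1 p.2).mpr hp)
      simpa only [mul_assoc, mul_mem_half] using h3
    · rw [tforest_half, tforest_half]
      exact h (g⁻¹ * p.1, p.2) ((h1 _ _).mp (by rwa [mul_inv_cancel_left]))
  ext x
  rw [tforest_mem_conj, mem_stabC (rinv_outside _ _), mem_stabC (rinv_outside _ _), ← h2]
  refine and_congr ⟨fun h => hN.conj_mem' x h g, fun h => ?_⟩ ?_
  · simpa [mul_assoc] using hN.conj_mem _ h g
  · simp only [mul_assoc, mul_inv_cancel_left]

/-- The edges with an end outside `N Ω`. -/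
def offStrip (N : Subgroup (Fr n)) (Ω : Set (Fr n)) : Set (Fr n × Fin n) :=
  {p | p.1 ∉ (N : Set (Fr n)) * Ω ∨ p.1 * FreeGroup.of p.2 ∉ (N : Set (Fr n)) * Ω}

theorem rinv_offStrip (N : Subgroup (Fr n)) (Ω : Set (Fr n)) : RInv N (offStrip N Ω) := by
  have key : ∀ g ∈ N, ∀ x, g * x ∈ (N : Set (Fr n)) * Ω → x ∈ (N : Set (Fr n)) * Ω := by
    rintro g hg x ⟨u, hu, w, hw, e⟩
    refine ⟨g⁻¹ * u, N.mul_mem (N.inv_mem hg) hu, w, hw, ?_⟩
    change g⁻¹ * u * w = x
    rw [mul_assoc, show u * w = g * x from e, inv_mul_cancel_left]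
  rintro g hg p (hp | hp)
  · exact Or.inl fun h => hp (key g hg _ h)
  · exact Or.inr fun h => hp (key g hg _ (by rwa [← mul_assoc]))

theorem cocpt_offStrip (N : Subgroup (Fr n)) {Ω : Set (Fr n)} (hΩ : Ω.Finite) :
    ∃ V, Cocpt N (offStrip N Ω) V := by
  refine ⟨_, hΩ.toFinset ×ˢ Finset.univ, le_rfl, fun p hp => ?_⟩
  obtain ⟨u, hu, w, hw, e⟩ := not_not.mp (not_or.mp hp).1
  exact ⟨u, hu, (w, p.2), by simpa using hw, Prod.ext e.symm rfl⟩

theorem le_stabC_offStrip {Ω : Set (Fr n)} {S : Subgroup (Fr n)} (hS : S ≤ N)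
    (h : TT S ⊆ (N : Set (Fr n)) * Ω) {y : Fr n} (hy : y ∈ TT S) :
    S ≤ stabC N (offStrip N Ω) y := by
  refine le_stabC (rinv_offStrip N Ω) hS (fun p hp he => ?_) hy
  obtain ⟨-, h1, h2⟩ := ess_iff.mp he
  exact hp.elim (fun h3 => h3 (h h1)) fun h3 => h3 (h h2)

end Pool.Agent.Lib.MP_9ac97d_al
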