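import Pool.Agent.Lib.MP_9ac97d_al.MRank
import Pool.Agent.Lib.MP_9ac97d_al.TForest

/-!
# Coefficients of chains along the edges of the tree (task MCoef)
-/

set_option autoImplicit false

noncomputable section

open Pointwise

namespace Pool.Agent.Lib.MP_9ac97d_al

variable {n : ℕ} {D : Type} [DivisionRing D] (ι : Fr n →* D)

theorem mcoef_dd_edge (x : Fr n) (i : Fin n) : dd x (x * FreeGroup.of i) = 1 :=
  dd_eq_one.2 ⟨i, Or.inl rfl⟩

theorem mcoef_sep_btw {x y z w : Fr n} (h : dd x y = 1) (hz : z ∉ Half x y)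
    (hw : w ∈ Half x y) : Btw z x w ∧ Btw z y w := by
  have h1 := (sep_iff h z w).1 ⟨(not_mem_half h z).1 hz, hw⟩
  exact ⟨h1.1, h1.2.1⟩

theorem mcoef_btw_of_not_iff {x y z w : Fr n} (h : dd x y = 1)
    (hzw : ¬ (z ∈ Half x y ↔ w ∈ Half x y)) : Btw z x w ∧ Btw z y w := by
  by_cases hz : z ∈ Half x y
  · have hw : w ∉ Half x y := fun hw => hzw ⟨fun _ => hw, fun _ => hz⟩
    have h1 := mcoef_sep_btw h hw hz
    exact ⟨h1.1.symm, h1.2.symm⟩
  · have hw : w ∈ Half x y := by
      by_contra hw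
      exact hzw ⟨fun h1 => absurd h1 hz, fun h1 => absurd h1 hw⟩
    exact mcoef_sep_btw h hz hw

open Classical in
/-- The indicator of the half tree. -/
def mcoef_hs (x : Fr n) (i : Fin n) (z : Fr n) : ℤ :=
  if z ∈ Half x (x * FreeGroup.of i) then 1 else 0

open Classical in
/-- Signed crossing number of the geodesic from `u` to `v`. -/
def mcoef_c (L : Subgroup (Fr n)) (x : Fr n) (i : Fin n) (u v l : Fr n) : ℤ :=
  if l ∈ L then mcoef_hs x i (l⁻¹ * v) - mcoef_hs x i (l⁻¹ * u) else 0

/-- The weighted sum of the crossing numbers. -/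
def mcoef_E (L : Subgroup (Fr n)) (x : Fr n) (i : Fin n) (u v : Fr n) : D :=
  ∑ᶠ l : Fr n, (mcoef_c L x i u v l : D) * ι l

theorem mcoef_cf_eq (L : Subgroup (Fr n)) (x : Fr n) (i : Fin n) (a : Fr n) :
    cf L x i a = mcoef_c L x i 1 a := by
  funext l
  unfold cf mcoef_c
  rw [mul_one]
  rfl

theorem mcoef_der_eq (L : Subgroup (Fr n)) (x : Fr n) (i : Fin n) (a : Fr n) :
    der ι L x i a = mcoef_E ι L x i 1 a := by
  simp only [der, mcoef_E, mcoef_cf_eq]

theorem mcoef_hs_congr {x x' z z' : Fr n} {i i' : Fin n}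
    (h : z ∈ Half x (x * FreeGroup.of i) ↔ z' ∈ Half x' (x' * FreeGroup.of i')) :
    mcoef_hs x i z = mcoef_hs x' i' z' := by
  unfold mcoef_hs
  rw [h]

theorem mcoef_hs_mul (l x : Fr n) (i : Fin n) (z : Fr n) :
    mcoef_hs (l * x) i z = mcoef_hs x i (l⁻¹ * z) := by
  apply mcoef_hs_congr
  rw [← mul_mem_half l x (x * FreeGroup.of i) (l⁻¹ * z), mul_inv_cancel_left, mul_assoc]

theorem mcoef_mem_of_c_ne {L : Subgroup (Fr n)} {x : Fr n} {i : Fin n} {u v l : Fr n}
    (h : mcoef_c L x i u v l ≠ 0) : l ∈ L := by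
  by_contra hl
  exact h (by simp only [mcoef_c, hl, if_false])

theorem mcoef_finite_c (L : Subgroup (Fr n)) (x : Fr n) (i : Fin n) (u v : Fr n) :
    (Function.support (mcoef_c L x i u v)).Finite := by
  have h1 : ((fun l : Fr n => l * x) ⁻¹' {y | dd u y ≤ dd u v}).Finite :=
    (finite_dball u (dd u v)).preimage (mul_left_injective x).injOn
  refine h1.subset fun l hl => ?_
  have hl' : mcoef_c L x i u v l ≠ 0 := hl
  have hL := mcoef_mem_of_c_ne hl'
  have h2 : ¬ (l⁻¹ * u ∈ Half x (x * FreeGroup.of i) ↔ l⁻¹ * v ∈ Half x (x * FreeGroup.of i)) := by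
    intro h
    apply hl'
    simp only [mcoef_c, hL, if_true, mcoef_hs_congr h, sub_self]
  have h3 := (mcoef_btw_of_not_iff (mcoef_dd_edge x i) h2).1
  have h4 : dd (l⁻¹ * u) x = dd u (l * x) := by
    rw [← dd_mul_left l (l⁻¹ * u) x, mul_inv_cancel_left]
  have h5 : dd (l⁻¹ * u) (l⁻¹ * v) = dd u v := dd_mul_left _ _ _
  unfold Btw at h3
  change dd u (l * x) ≤ dd u v
  omega

theorem mcoef_finite_term (L : Subgroup (Fr n)) (x : Fr n) (i : Fin n) (u v : Fr n) :
    (Function.support fun l : Fr n => (mcoef_c L x i u v l : D) * ι l).Finite := by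
  refine (mcoef_finite_c L x i u v).subset fun l hl => ?_
  intro h
  apply hl
  simp only [h, Int.cast_zero, zero_mul]

theorem mcoef_E_add (L : Subgroup (Fr n)) (x : Fr n) (i : Fin n) (u v w : Fr n) :
    mcoef_E ι L x i u w = mcoef_E ι L x i u v + mcoef_E ι L x i v w := by
  unfold mcoef_E
  rw [← finsum_add_distrib (mcoef_finite_term ι L x i u v) (mcoef_finite_term ι L x i v w)]
  refine finsum_congr fun l => ?_
  rw [← add_mul, ← Int.cast_add]
  congr 2
  unfold mcoef_c
  split_ifs
  · ring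
  · ring

theorem mcoef_E_self (L : Subgroup (Fr n)) (x : Fr n) (i : Fin n) (u : Fr n) :
    mcoef_E ι L x i u u = 0 := by
  unfold mcoef_E
  refine finsum_eq_zero_of_forall_eq_zero fun l => ?_
  simp [mcoef_c]

theorem mcoef_E_mul {L : Subgroup (Fr n)} (x : Fr n) (i : Fin n) {a : Fr n} (ha : a ∈ L)
    (u v : Fr n) : mcoef_E ι L x i (a * u) (a * v) = ι a * mcoef_E ι L x i u v := by
  unfold mcoef_E
  rw [mul_finsum, ← finsum_comp_equiv (Equiv.mulLeft a)]
  refine finsum_congr fun l => ?_
  have h1 : mcoef_c L x i (a * u) (a * v) (a * l) = mcoef_c L x i u v l := by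
    have h2 : a * l ∈ L ↔ l ∈ L := L.mul_mem_cancel_left ha
    have h3 : ∀ w : Fr n, (a * l)⁻¹ * (a * w) = l⁻¹ * w := fun w => by group
    unfold mcoef_c
    rw [h2, h3, h3]
  simp only [Equiv.coe_mulLeft, h1, map_mul]
  rw [← mul_assoc, ← mul_assoc, (Int.cast_commute _ (ι a)).eq]

theorem mcoef_E_shift {L : Subgroup (Fr n)} (x : Fr n) (i : Fin n) {a : Fr n} (ha : a ∈ L)
    (u v : Fr n) : mcoef_E ι L (a * x) i u v = mcoef_E ι L x i u v * ι a⁻¹ := by
  unfold mcoef_E
  rw [finsum_mul, ← finsum_comp_equiv (Equiv.mulRight a⁻¹)]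
  refine finsum_congr fun l => ?_
  have h1 : mcoef_c L (a * x) i u v (l * a⁻¹) = mcoef_c L x i u v l := by
    have h2 : l * a⁻¹ ∈ L ↔ l ∈ L := L.mul_mem_cancel_right (L.inv_mem ha)
    have h3 : ∀ w : Fr n, a⁻¹ * ((l * a⁻¹)⁻¹ * w) = l⁻¹ * w := fun w => by group
    unfold mcoef_c
    rw [h2, mcoef_hs_mul, mcoef_hs_mul, h3, h3]
  simp only [Equiv.coe_mulRight, h1, map_mul, mul_assoc]

theorem mcoef_of_mul_of_ne (i j : Fin n) : (FreeGroup.of i * FreeGroup.of j : Fr n) ≠ 1 := by
  intro h
  have h1 := congrArg (FreeGroup.lift fun _ : Fin n => Multiplicative.ofAdd (1 : ℤ)) h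
  simp only [map_mul, FreeGroup.lift_apply_of, map_one] at h1
  have h2 := congrArg Multiplicative.toAdd h1
  simp at h2

theorem mcoef_hs_adj (x : Fr n) (i : Fin n) (u : Fr n) (j : Fin n) :
    mcoef_hs x i (u * FreeGroup.of j) - mcoef_hs x i u = if u = x ∧ i = j then 1 else 0 := by
  have hx := mcoef_dd_edge x i
  have hu := mcoef_dd_edge u j
  split_ifs with h
  · obtain ⟨rfl, rfl⟩ := h
    have h1 : u * FreeGroup.of i ∈ Half u (u * FreeGroup.of i) := by
      change dd _ _ < dd _ _
      rw [dd_self, dd_comm, hx]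
      exact Nat.one_pos
    have h2 : u ∉ Half u (u * FreeGroup.of i) := by
      change ¬ dd _ _ < dd _ _
      rw [dd_self]
      exact Nat.not_lt_zero _
    simp only [mcoef_hs, h1, h2, if_true, if_false, sub_zero]
  · rw [sub_eq_zero]
    apply mcoef_hs_congr
    constructor
    · intro h1
      by_contra h2
      have h3 := sep_adj hx hu ((not_mem_half hx u).1 h2) h1
      apply h
      refine ⟨h3.1, ?_⟩
      have h4 := h3.2
      rw [h3.1, mul_left_cancel_iff] at h4
      exact (FreeGroup.of_injective h4).symm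
    · intro h1
      by_contra h2
      have h3 := sep_adj hx (by rw [dd_comm]; exact hu) ((not_mem_half hx _).1 h2) h1
      have h4 := h3.1
      rw [h3.2, mul_assoc, mul_eq_left] at h4
      exact mcoef_of_mul_of_ne i j h4

open Classical in
theorem mcoef_E_adj (L : Subgroup (Fr n)) (x : Fr n) (i : Fin n) (u : Fr n) (j : Fin n) :
    mcoef_E ι L x i u (u * FreeGroup.of j) =
      if u * x⁻¹ ∈ L ∧ i = j then ι (u * x⁻¹) else 0 := by
  unfold mcoef_E
  rw [finsum_eq_single _ (u * x⁻¹)]
  · unfold mcoef_c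
    rw [← mul_assoc, mcoef_hs_adj]
    by_cases h2 : u * x⁻¹ ∈ L <;> by_cases h3 : i = j <;> simp [h2, h3]
  · intro l hl
    unfold mcoef_c
    rw [← mul_assoc, mcoef_hs_adj]
    have h1 : ¬ (l⁻¹ * u = x ∧ i = j) := by
      rintro ⟨h, -⟩
      apply hl
      rw [← h]
      group
    simp [h1]

theorem mcoef_lc_congr {G M : Type} [AddCommGroup M] [Module D M] {s : Set G} {f g : G → M}
    (h : ∀ a ∈ s, f a = g a) {z : G →₀ D} (hz : z ∈ Finsupp.supported D D s) :
    Finsupp.linearCombination D f z = Finsupp.linearCombination D g z := by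
  rw [Finsupp.linearCombination_apply, Finsupp.linearCombination_apply]
  refine Finsupp.sum_congr fun a ha => ?_
  rw [h a ((Finsupp.mem_supported D z).1 hz ha)]

theorem mcoef_lc_mul {G : Type} (f : G → D) (c : D) (z : G →₀ D) :
    Finsupp.linearCombination D (fun a => f a * c) z = Finsupp.linearCombination D f z * c := by
  rw [Finsupp.linearCombination_apply, Finsupp.linearCombination_apply, Finsupp.sum, Finsupp.sum,
    Finset.sum_mul]
  simp only [smul_eq_mul, mul_assoc]

/-- A right transversal that is trivial on the subgroup. -/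
theorem mcoef_exists_trans {G : Type} [Group G] (L : Subgroup G) :
    ∃ t : G → G, (∀ y, y * (t y)⁻¹ ∈ L) ∧ (∀ l ∈ L, ∀ y, t (l * y) = t y) ∧ t 1 = 1 := by
  classical
  refine ⟨fun y => if y ∈ L then 1 else (Quotient.mk (QuotientGroup.rightRel L) y).out,
    fun y => ?_, fun l hl y => ?_, ?_⟩
  · by_cases hy : y ∈ L
    · simp only [hy, if_true, inv_one, mul_one]
    · simp only [hy, if_false]
      exact QuotientGroup.rightRel_apply.1 (Quotient.mk_out (s := QuotientGroup.rightRel L) y)
  · have h1 : l * y ∈ L ↔ y ∈ L := L.mul_mem_cancel_left hl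
    have h2 : Quotient.mk (QuotientGroup.rightRel L) (l * y) =
        Quotient.mk (QuotientGroup.rightRel L) y := by
      apply Quotient.sound
      apply QuotientGroup.rightRel_apply.2
      simpa using hl
    simp only [h1, h2]
  · simp only [L.one_mem, if_true]

theorem mcoef_induction {P : Fr n → Prop} (h1 : P 1)
    (h : ∀ y j, P y ↔ P (y * FreeGroup.of j)) (y : Fr n) : P y := by
  have key : ∀ g : Fr n, ∀ y, P y ↔ P (y * g) := by
    intro g
    induction g using FreeGroup.induction_on with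
    | C1 => intro y; rw [mul_one]
    | of j => intro y; exact h y j
    | inv_of j ih => intro y; rw [ih (y * (FreeGroup.of j)⁻¹), inv_mul_cancel_right]
    | mul a b iha ihb => intro y; rw [iha y, ihb (y * a), mul_assoc]
  have h2 := (key y 1).1 h1
  rwa [one_mul] at h2

/-- `cf L x i a l ≠ 0` forces the edge `l (x, x * of i)` to separate `1` from `a`. -/
theorem finite_support_cf (L : Subgroup (Fr n)) (x : Fr n) (i : Fin n) (a : Fr n) :
    (Function.support (cf L x i a)).Finite := by
  rw [mcoef_cf_eq]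
  exact mcoef_finite_c L x i 1 a

theorem der_mul {L : Subgroup (Fr n)} (x : Fr n) (i : Fin n) {a : Fr n} (ha : a ∈ L) (b : Fr n) :
    der ι L x i (a * b) = der ι L x i a + ι a * der ι L x i b := by
  rw [mcoef_der_eq, mcoef_der_eq, mcoef_der_eq, mcoef_E_add ι L x i 1 a (a * b),
    ← mcoef_E_mul ι x i ha 1 b, mul_one]

theorem coef_eq_zero_of_mem_rel {L : Subgroup (Fr n)} (x : Fr n) (i : Fin n) {z : Fr n →₀ D}
    (hz : z ∈ Rel ι L) : coef ι L x i z = 0 := by
  exact linearCombination_eq_zero_of_mem_rel ι (fun a ha b _ => der_mul ι x i ha b) hz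

theorem coef_mul {L : Subgroup (Fr n)} {l : Fr n} (hl : l ∈ L) (x : Fr n) (i : Fin n)
    (z : Fr n →₀ D) : coef ι L (l * x) i z = coef ι L x i z * ι l⁻¹ := by
  unfold coef
  rw [← mcoef_lc_mul]
  congr 2
  funext a
  rw [mcoef_der_eq, mcoef_der_eq, mcoef_E_shift ι x i hl]

/-- The coefficients separate points. Choose a right transversal `t` with `t = 1` on `L` and write
`y = r y * t y`, `r y ∈ L`. For `y : Fr n` let `Θ y` be the finite sum over transversal elements `x`
and `i` of `der ι L x i y • single (r (x * of i)) 1`. By induction along the edges of the tree,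
`Θ y - single (r y) 1 ∈ Rel ι L` (exactly one positive edge separates `y` from `y * of i`). -/
theorem mem_rel_of_coef {L : Subgroup (Fr n)} {z : Fr n →₀ D}
    (hz : z ∈ Finsupp.supported D D (L : Set (Fr n))) (h : ∀ x i, coef ι L x i z = 0) :
    z ∈ Rel ι L := by
  classical
  obtain ⟨t, ht1, ht2, ht3⟩ := mcoef_exists_trans L
  have htt : ∀ y, t (t y) = t y := fun y => by
    rw [← ht2 _ (ht1 y) (t y), inv_mul_cancel_right]
  let br : Fr n → (Fr n →₀ D) ⧸ Rel ι L := fun a => (Rel ι L).mkQ (Finsupp.single a 1)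
  have hbr : ∀ a ∈ L, ∀ b ∈ L, br (a * b) = br a + ι a • br b := by
    intro a ha b hb
    have h1 : (Rel ι L).mkQ (Finsupp.single (a * b) 1 - Finsupp.single a 1 -
        Finsupp.single b (ι a)) = 0 := by
      rw [Submodule.mkQ_apply, Submodule.Quotient.mk_eq_zero]
      exact Submodule.subset_span ⟨a, ha, b, hb, rfl⟩
    rw [map_sub, map_sub, sub_sub, sub_eq_zero] at h1
    simp only [br]
    rw [h1, ← map_smul, Finsupp.smul_single, smul_eq_mul, mul_one]
  let φ : Fr n → (Fr n →₀ D) ⧸ Rel ι L := fun y => br (y * (t y)⁻¹)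
  have hφ : ∀ l ∈ L, ∀ y, φ (l * y) = br l + ι l • φ y := by
    intro l hl y
    simp only [φ]
    rw [ht2 l hl, mul_assoc, hbr l hl _ (ht1 y)]
  have hφ1 : φ 1 = 0 := by
    simp only [φ, br, ht3, inv_one, mul_one]
    rw [Submodule.mkQ_apply, Submodule.Quotient.mk_eq_zero]
    exact single_one_mem_rel ι L 1
  let ψ : Fr n × Fin n → (Fr n →₀ D) ⧸ Rel ι L := fun p => φ (p.1 * FreeGroup.of p.2) - φ p.1
  have hstep : ∀ y j, φ (y * FreeGroup.of j) =
      φ y + Finsupp.linearCombination D ψ (Finsupp.single (t y, j) (ι (y * (t y)⁻¹))) := by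
    intro y j
    have h1 := hφ _ (ht1 y) (t y)
    have h2 := hφ _ (ht1 y) (t y * FreeGroup.of j)
    rw [← mul_assoc, inv_mul_cancel_right] at h2
    rw [inv_mul_cancel_right] at h1
    rw [Finsupp.linearCombination_single, h2, h1]
    simp only [ψ, smul_sub]
    abel
  have hder : ∀ y j (p : Fr n × Fin n),
      (if t p.1 = p.1 then der ι L p.1 p.2 (y * FreeGroup.of j) else 0) =
      (if t p.1 = p.1 then der ι L p.1 p.2 y else 0) +
        (Finsupp.single (t y, j) (ι (y * (t y)⁻¹)) : Fr n × Fin n →₀ D) p := by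
    rintro y j ⟨x, k⟩
    rw [Finsupp.single_apply]
    by_cases hx : t x = x
    · simp only [hx, if_true]
      rw [mcoef_der_eq, mcoef_der_eq, mcoef_E_add ι L x k 1 y (y * FreeGroup.of j), mcoef_E_adj]
      congr 1
      by_cases hp : (t y, j) = (x, k)
      · rw [if_pos hp]
        obtain ⟨h1, h2⟩ := Prod.ext_iff.1 hp
        simp only at h1 h2
        rw [← h1, if_pos ⟨ht1 y, h2.symm⟩]
      · rw [if_neg hp, if_neg]
        rintro ⟨h1, h2⟩
        apply hp
        have h3 := ht2 _ h1 x
        rw [inv_mul_cancel_right, hx] at h3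
        rw [h3, h2]
    · simp only [hx, if_false, zero_add]
      rw [if_neg]
      intro hp
      apply hx
      have h1 : t y = x := (Prod.ext_iff.1 hp).1
      rw [← h1, htt]
  have hw : ∀ y, ∃ w : Fr n × Fin n →₀ D,
      (∀ p, w p = if t p.1 = p.1 then der ι L p.1 p.2 y else 0) ∧
        Finsupp.linearCombination D ψ w = φ y := by
    intro y
    induction y using mcoef_induction with
    | h1 =>
      refine ⟨0, fun p => ?_, by rw [map_zero, hφ1]⟩
      rw [mcoef_der_eq, mcoef_E_self]
      simp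
    | h y j =>
      constructor
      · rintro ⟨w, hw1, hw2⟩
        refine ⟨w + Finsupp.single (t y, j) (ι (y * (t y)⁻¹)), fun p => ?_, ?_⟩
        · rw [Finsupp.add_apply, hw1, hder]
        · rw [map_add, hw2, hstep]
      · rintro ⟨w, hw1, hw2⟩
        refine ⟨w - Finsupp.single (t y, j) (ι (y * (t y)⁻¹)), fun p => ?_, ?_⟩
        · rw [Finsupp.sub_apply, hw1, hder, add_sub_cancel_right]
        · rw [map_sub, hw2, hstep, add_sub_cancel_right]
  choose w hw1 hw2 using hw
  have h1 : Finsupp.linearCombination D w z = 0 := by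
    ext p
    have h2 : Finsupp.linearCombination D w z p =
        Finsupp.linearCombination D (fun a => w a p) z := by
      rw [Finsupp.linearCombination_apply, Finsupp.linearCombination_apply, Finsupp.sum,
        Finsupp.sum, Finsupp.finsetSum_apply]
      simp only [Finsupp.smul_apply]
    rw [h2, Finsupp.zero_apply]
    by_cases hp : t p.1 = p.1
    · simp only [hw1, hp, if_true]
      exact h p.1 p.2
    · simp [hw1, hp, Finsupp.linearCombination_apply]
  have h3 : Finsupp.linearCombination D φ z = 0 := by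
    have h4 := congrArg (Finsupp.linearCombination D ψ) h1
    rw [map_zero, Finsupp.apply_linearCombination] at h4
    rw [← h4]
    congr 2
    funext a
    exact (hw2 a).symm
  have h5 : Finsupp.linearCombination D φ z = Finsupp.linearCombination D br z := by
    refine mcoef_lc_congr (fun a ha => ?_) hz
    have h6 := hφ a ha 1
    rwa [mul_one, hφ1, smul_zero, add_zero] at h6
  have h7 : Finsupp.linearCombination D br z = (Rel ι L).mkQ z := by
    have h8 : Finsupp.linearCombination D br = (Rel ι L).mkQ := by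
      refine Finsupp.lhom_ext fun a d => ?_
      simp only [br]
      rw [Finsupp.linearCombination_single, ← map_smul, Finsupp.smul_single, smul_eq_mul, mul_one]
    rw [h8]
  rw [h5, h7, Submodule.mkQ_apply, Submodule.Quotient.mk_eq_zero] at h3
  exact h3

/-- Support lemma. Changing the base point from `1` to `y` changes `der` on `S` by
`a ↦ (ι a - 1) * c`, which does not change the coefficient of a cycle. If no `S`-translate of the
edge separates `y` from a point `a * y` the new derivation vanishes on `S`. -/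
theorem coef_eq_zero_of_not_sep {S : Subgroup (Fr n)} {x : Fr n} {i : Fin n} {y : Fr n}
    (h : ∀ a ∈ S, (a * y ∈ Half x (x * FreeGroup.of i) ↔ y ∈ Half x (x * FreeGroup.of i)))
    {z : Fr n →₀ D} (hz : z ∈ ZZ ι S) : coef ι S x i z = 0 := by
  have h1 : ∀ a ∈ (S : Set (Fr n)), der ι S x i a = (ι a - 1) * mcoef_E ι S x i y 1 := by
    intro a ha
    have ha' : a ∈ S := ha
    have h2 : mcoef_E ι S x i y (a * y) = 0 := by
      unfold mcoef_E
      refine finsum_eq_zero_of_forall_eq_zero fun l => ?_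
      have h3 : mcoef_c S x i y (a * y) l = 0 := by
        unfold mcoef_c
        split_ifs with hl
        · rw [sub_eq_zero, ← mul_assoc]
          exact mcoef_hs_congr ((h _ (S.mul_mem (S.inv_mem hl) ha')).trans
            (h _ (S.inv_mem hl)).symm)
        · rfl
      rw [h3, Int.cast_zero, zero_mul]
    have h4 := mcoef_E_mul ι x i ha' y 1
    rw [mul_one] at h4
    have h5 := mcoef_E_add ι S x i y 1 a
    rw [mcoef_E_add ι S x i y (a * y) a, h2, h4, zero_add] at h5
    rw [mcoef_der_eq, sub_mul, h5, one_mul, add_sub_cancel_left]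
  unfold coef
  rw [mcoef_lc_congr h1 hz.1, mcoef_lc_mul]
  have h6 : bdy ι z = 0 := hz.2
  unfold bdy at h6
  rw [h6, zero_mul]

theorem coef_eq_zero_of_not_ess {S : Subgroup (Fr n)} {x : Fr n} {i : Fin n}
    (h : ¬ Ess S x (x * FreeGroup.of i)) {z : Fr n →₀ D} (hz : z ∈ ZZ ι S) :
    coef ι S x i z = 0 := by
  by_cases hS : S = ⊥
  · refine coef_eq_zero_of_not_sep ι (y := 1) (fun a ha => ?_) hz
    rw [hS, Subgroup.mem_bot] at ha
    rw [ha, one_mul]
  · obtain ⟨y, hy⟩ := tt_nonempty hS
    refine coef_eq_zero_of_not_sep ι (y := y) (fun a ha => ?_) hz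
    by_contra hn
    have h1 := mcoef_btw_of_not_iff (mcoef_dd_edge x i) hn
    have h2 := mul_mem_tt ha hy
    exact h (ess_iff.2 ⟨mcoef_dd_edge x i, tt_convex h2 hy h1.1, tt_convex h2 hy h1.2⟩)

/-- Decomposition of the coefficient along the right cosets of `S` in `L`: `r` is a set of
representatives. -/
theorem coef_eq_finsum {S L : Subgroup (Fr n)} (hSL : S ≤ L) {r : Set (Fr n)}
    (hr : r ⊆ L) (hr' : ∀ l ∈ L, ∃! t, t ∈ r ∧ l * t⁻¹ ∈ S) (x : Fr n) (i : Fin n)
    (z : Fr n →₀ D) :
    (Function.support fun t : r => coef ι S (t * x) i z).Finite ∧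
      coef ι L x i z = ∑ᶠ t : r, coef ι S (t * x) i z * ι t := by
  classical
  have key : ∀ a : Fr n, (Function.support fun t : r => der ι S (t * x) i a * ι t).Finite ∧
      der ι L x i a = ∑ᶠ t : r, der ι S (t * x) i a * ι t := by
    intro a
    let A := (mcoef_finite_c L x i 1 a).toFinset
    let g : r → Fr n → D := fun t l =>
      if l * (t : Fr n)⁻¹ ∈ S then (mcoef_c L x i 1 a l : D) * ι l else 0
    have hA : ∀ l ∈ A, l ∈ L := fun l hl =>
      mcoef_mem_of_c_ne ((Set.Finite.mem_toFinset _).1 hl)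
    have h1 : ∀ t : r, der ι S (t * x) i a * ι t = ∑ l ∈ A, g t l := by
      intro t
      rw [← finsum_eq_sum_of_support_subset]
      · rw [mcoef_der_eq]
        unfold mcoef_E
        rw [finsum_mul, ← finsum_comp_equiv (Equiv.mulRight (t : Fr n)⁻¹)]
        refine finsum_congr fun l => ?_
        simp only [Equiv.coe_mulRight, g]
        rw [mul_assoc, ← map_mul, inv_mul_cancel_right]
        split_ifs with hl
        · have h2 : l ∈ L := by
            have h3 := L.mul_mem (hSL hl) (hr t.2)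
            rwa [inv_mul_cancel_right] at h3
          have h3 : ∀ w : Fr n, (t : Fr n)⁻¹ * ((l * (t : Fr n)⁻¹)⁻¹ * w) = l⁻¹ * w :=
            fun w => by group
          simp only [mcoef_c, hl, h2, if_true, mcoef_hs_mul, h3]
        · simp only [mcoef_c, hl, if_false, Int.cast_zero, zero_mul]
      · intro l hl
        rw [Set.Finite.coe_toFinset]
        intro h0
        apply hl
        simp only [g, h0, Int.cast_zero, zero_mul, ite_self]
    have h2 : ∀ l ∈ A, (Function.support fun t : r => g t l).Finite ∧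
        ∑ᶠ t : r, g t l = (mcoef_c L x i 1 a l : D) * ι l := by
      intro l hl
      obtain ⟨t, ⟨ht1, ht2⟩, ht3⟩ := hr' l (hA l hl)
      have h3 : ∀ t' : r, t' ≠ ⟨t, ht1⟩ → g t' l = 0 := by
        intro t' ht'
        simp only [g]
        rw [if_neg]
        intro h4
        exact ht' (Subtype.ext (ht3 t' ⟨t'.2, h4⟩))
      refine ⟨(Set.finite_singleton (⟨t, ht1⟩ : r)).subset fun t' ht' => ?_, ?_⟩
      · by_contra h4
        exact ht' (h3 t' h4)
      · rw [finsum_eq_single _ _ h3]
        simp only [g, ht2, if_true]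
    simp only [h1]
    refine ⟨?_, ?_⟩
    · refine (A.finite_toSet.biUnion fun l hl => (h2 l hl).1).subset fun t ht => ?_
      obtain ⟨l, hl, h3⟩ := Finset.exists_ne_zero_of_sum_ne_zero ht
      exact Set.mem_biUnion hl h3
    · rw [finsum_sum_comm A g fun l hl => (h2 l hl).1, Finset.sum_congr rfl fun l hl => (h2 l hl).2,
        mcoef_der_eq]
      unfold mcoef_E
      apply finsum_eq_sum_of_support_subset
      intro l hl
      rw [Set.Finite.coe_toFinset]
      intro h0
      apply hl
      simp only [h0, Int.cast_zero, zero_mul]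
  have h1 : ∀ t : r, coef ι S (t * x) i z * ι t =
      ∑ a ∈ z.support, z a * (der ι S (t * x) i a * ι t) := by
    intro t
    unfold coef
    rw [← mcoef_lc_mul, Finsupp.linearCombination_apply, Finsupp.sum]
    simp only [smul_eq_mul]
  have h2 : ∀ a ∈ z.support,
      (Function.support fun t : r => z a * (der ι S (t * x) i a * ι t)).Finite := by
    intro a _
    refine (key a).1.subset fun t ht h0 => ht ?_
    simp only at h0 ⊢
    rw [h0, mul_zero]
  refine ⟨?_, ?_⟩
  · refine (z.support.finite_toSet.biUnion h2).subset fun t ht => ?_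
    have h3 : coef ι S (t * x) i z * ι t ≠ 0 :=
      mul_ne_zero ht ((Group.isUnit (t : Fr n)).map ι).ne_zero
    rw [h1] at h3
    obtain ⟨a, ha, h4⟩ := Finset.exists_ne_zero_of_sum_ne_zero h3
    exact Set.mem_biUnion ha h4
  · simp only [h1]
    rw [finsum_sum_comm z.support _ h2]
    unfold coef
    rw [Finsupp.linearCombination_apply, Finsupp.sum]
    refine Finset.sum_congr rfl fun a _ => ?_
    rw [← mul_finsum, ← (key a).2, smul_eq_mul]

theorem mcoef_exists_reps {G : Type} [Group G] {S L : Subgroup G} (hSL : S ≤ L) :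
    ∃ r : Set G, 1 ∈ r ∧ r ⊆ L ∧ ∀ l ∈ L, ∃! t, t ∈ r ∧ l * t⁻¹ ∈ S := by
  obtain ⟨t, ht1, ht2, ht3⟩ := mcoef_exists_trans S
  have htt : ∀ y, t (t y) = t y := fun y => by
    rw [← ht2 _ (ht1 y) (t y), inv_mul_cancel_right]
  refine ⟨t '' L, ⟨1, L.one_mem, ht3⟩, ?_, fun l hl => ⟨t l, ⟨⟨l, hl, rfl⟩, ht1 l⟩, ?_⟩⟩
  · rintro _ ⟨y, hy, rfl⟩
    have h1 := L.mul_mem (L.inv_mem (hSL (ht1 y))) hy
    simpa using h1
  · rintro _ ⟨⟨y, -, rfl⟩, h1⟩
    have h2 := ht2 _ h1 (t y)
    rw [inv_mul_cancel_right, htt] at h2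
    exact h2.symm

theorem mcoef_zero_of_not_same {L : Subgroup (Fr n)} {R : Set (Fr n × Fin n)} (hR : RInv L R)
    {y x : Fr n} {k : Fin n} (hx : ¬ Same R y x) {z : Fr n →₀ D}
    (hz : z ∈ ZZ ι (stabC L R y)) : coef ι (stabC L R y) x k z = 0 := by
  refine coef_eq_zero_of_not_sep ι (y := y) (fun a ha => ?_) hz
  by_contra hn
  have h1 := (mcoef_btw_of_not_iff (mcoef_dd_edge x k) hn).1
  exact hx (((mem_stabC hR).1 ha).2.symm.btw h1.symm)

/-- Independence of the stabilizers of inequivalent components: for an edge in the component of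
`y i` the coefficient of the sum for `L` is the coefficient of `z i` for its stabilizer, by the two
previous lemmas; for the other edges the latter vanishes. -/
theorem ind_stabC {L : Subgroup (Fr n)} {R : Set (Fr n × Fin n)} (hR : RInv L R) {κ : Type}
    [Fintype κ] (y : κ → Fr n) (hy : ∀ i j, ∀ l ∈ L, Same R (l * y i) (y j) → i = j) :
    Ind ι L fun i => stabC L R (y i) := by
  intro z hz hsum i
  refine mem_rel_of_coef ι (hz i).1 fun x k => ?_
  by_cases hx : Same R (y i) x
  swap
  · exact mcoef_zero_of_not_same ι hR hx (hz i)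
  have h0 := coef_eq_zero_of_mem_rel ι x k hsum
  rw [map_sum, Finset.sum_eq_single i] at h0
  · obtain ⟨r, hr1, hr, hr'⟩ := mcoef_exists_reps (stabC_le hR (y i))
    rw [(coef_eq_finsum ι (stabC_le hR (y i)) hr hr' x k (z i)).2,
      finsum_eq_single _ (⟨1, hr1⟩ : r)] at h0
    · simpa using h0
    · intro t ht
      rw [mcoef_zero_of_not_same ι hR _ (hz i), zero_mul]
      intro h1
      apply ht
      have h2 : (t : Fr n) ∈ stabC L R (y i) :=
        (mem_stabC hR).2 ⟨hr t.2, (hx.mul hR (hr t.2)).trans h1.symm⟩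
      obtain ⟨t', -, ht'⟩ := hr' 1 L.one_mem
      apply Subtype.ext
      exact (ht' t ⟨t.2, by simpa using h2⟩).trans (ht' 1 ⟨hr1, by simp⟩).symm
  · intro j _ hj
    obtain ⟨r, -, hr, hr'⟩ := mcoef_exists_reps (stabC_le hR (y j))
    rw [(coef_eq_finsum ι (stabC_le hR (y j)) hr hr' x k (z j)).2]
    refine finsum_eq_zero_of_forall_eq_zero fun t => ?_
    rw [mcoef_zero_of_not_same ι hR _ (hz j), zero_mul]
    intro h1
    exact hj (hy i j t (hr t.2) ((hx.mul hR (hr t.2)).trans h1.symm)).symm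
  · intro h1
    exact absurd (Finset.mem_univ i) h1

theorem coef_eq_zero_of_removed {L : Subgroup (Fr n)} {R : Set (Fr n × Fin n)} (hR : RInv L R)
    {p : Fr n × Fin n} (hp : p ∈ R) (y : Fr n) {z : Fr n →₀ D} (hz : z ∈ ZZ ι (stabC L R y)) :
    coef ι L p.1 p.2 z = 0 := by
  obtain ⟨r, -, hr, hr'⟩ := mcoef_exists_reps (stabC_le hR y)
  rw [(coef_eq_finsum ι (stabC_le hR y) hr hr' p.1 p.2 z).2]
  refine finsum_eq_zero_of_forall_eq_zero fun t => ?_
  rw [coef_eq_zero_of_not_sep ι (y := y) _ hz, zero_mul]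
  intro a ha
  exact ((mem_stabC hR).1 ha).2 (t * p.1, p.2) (hR t (hr t.2) p hp)

end Pool.Agent.Lib.MP_9ac97d_al
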