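import Pool.Agent.Lib.MP_9ac97d_al.MNOrd

/-!
# The Malcev-Neumann skew field (task MN)

Do not change the data (`MN`, `mul`, `one`, `of`); fill in the proofs. For the inverse: write
`x = c g (1 - y)` with the support of `y` positive, and sum the geometric series pointwise with
`WO.finite_pow`, `WO.closure`.
-/

set_option autoImplicit false

noncomputable section

open Pointwise

namespace Pool.Agent.Lib.MP_9ac97d_al

variable {G : Type} [Group G]

/-- Rational functions on `G` with well ordered support. -/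
def MNs (o : BiOrd G) : AddSubgroup (G → ℚ) where
  carrier := {f | o.WO (Function.support f)}
  add_mem' := fun hf hg => (BiOrd.WO.union hf hg).mono (Function.support_add _ _)
  zero_mem' := o.wo_of_finite (by simp)
  neg_mem' := fun {f} hf => by
    have : Function.support (-f) = Function.support f := by ext; simp
    show o.WO _
    rw [this]; exact hf

/-- The Malcev-Neumann series. -/
def MN (o : BiOrd G) : Type := MNs o

namespace MN

variable {o : BiOrd G}

instance : AddCommGroup (MN o) := (MNs o).toAddCommGroup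

/-- The coefficient function. -/
def c (x : MN o) : G → ℚ := Subtype.val x

/-- The support. -/
def supp (x : MN o) : Set G := Function.support x.c

theorem wo (x : MN o) : o.WO x.supp := Subtype.property x

/-- The series with a given coefficient function. -/
def mk (f : G → ℚ) (hf : o.WO (Function.support f)) : MN o := Subtype.mk f hf

@[simp] theorem c_mk (f : G → ℚ) (hf : o.WO (Function.support f)) : (mk f hf).c = f := rfl

@[ext] theorem ext {x y : MN o} (h : ∀ g, x.c g = y.c g) : x = y := Subtype.ext (funext h)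

@[simp] theorem c_add (x y : MN o) (g : G) : (x + y).c g = x.c g + y.c g := rfl

@[simp] theorem c_zero (g : G) : (0 : MN o).c g = 0 := rfl

@[simp] theorem c_neg (x : MN o) (g : G) : (-x).c g = -x.c g := rfl

@[simp] theorem c_sub (x y : MN o) (g : G) : (x - y).c g = x.c g - y.c g := rfl

theorem support_conv (x y : MN o) :
    (Function.support fun g => ∑ᶠ a, x.c a * y.c (a⁻¹ * g)) ⊆ x.supp * y.supp := by
  intro g hg
  by_contra h
  refine hg (finsum_eq_zero_of_forall_eq_zero fun a => ?_)
  by_contra h'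
  exact h ⟨a, left_ne_zero_of_mul h', a⁻¹ * g, right_ne_zero_of_mul h', by simp⟩

instance : Mul (MN o) :=
  ⟨fun x y => mk (fun g => ∑ᶠ a, x.c a * y.c (a⁻¹ * g)) ((x.wo.mul y.wo).mono (support_conv x y))⟩

open Classical in
/-- The series `r g`. -/
def single (g : G) (r : ℚ) : MN o :=
  mk (fun a => if a = g then r else 0) (o.wo_of_finite ((Set.finite_singleton g).subset
    fun a ha => by by_contra h; exact ha (if_neg h)))

instance : One (MN o) := ⟨single 1 1⟩

theorem c_mul (x y : MN o) (g : G) : (x * y).c g = ∑ᶠ a, x.c a * y.c (a⁻¹ * g) := rfl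

theorem finite_conv (x y : MN o) (g : G) :
    (Function.support fun a => x.c a * y.c (a⁻¹ * g)).Finite :=
  (x.wo.finite_antidiag y.wo g).subset fun _ ha =>
    ⟨left_ne_zero_of_mul ha, right_ne_zero_of_mul ha⟩

theorem supp_mul (x y : MN o) : (x * y).supp ⊆ x.supp * y.supp := support_conv x y

theorem mn_single_self (g : G) (r : ℚ) : (single g r : MN o).c g = r := if_pos rfl

theorem mn_single_ne {g a : G} (r : ℚ) (h : a ≠ g) : (single g r : MN o).c a = 0 := if_neg h

theorem mn_single_mul (g : G) (r : ℚ) (x : MN o) (a : G) :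
    (single g r * x).c a = r * x.c (g⁻¹ * a) := by
  rw [c_mul, finsum_eq_single _ g fun u hu => by rw [mn_single_ne r hu, zero_mul], mn_single_self]

theorem mn_mul_single (g : G) (r : ℚ) (x : MN o) (a : G) :
    (x * single g r).c a = x.c (a * g⁻¹) * r := by
  rw [c_mul, finsum_eq_single _ (a * g⁻¹) fun u hu => ?_]
  · rw [show (a * g⁻¹)⁻¹ * a = g by group, mn_single_self]
  · rw [mn_single_ne r, mul_zero]
    intro h
    exact hu (by rw [← h]; group)

theorem mn_mul_assoc (x y z : MN o) : x * y * z = x * (y * z) := by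
  ext g
  have hfin : Function.HasFiniteSupport
      fun p : G × G => x.c p.1 * y.c (p.1⁻¹ * p.2) * z.c (p.2⁻¹ * g) := by
    have h1 := (x.wo.mul y.wo).finite_antidiag z.wo g
    have h2 := h1.biUnion fun b _ => (x.wo.finite_antidiag y.wo b).image fun a => (a, b)
    refine h2.subset fun p hp => ?_
    have hxy := left_ne_zero_of_mul hp
    have hx : p.1 ∈ x.supp := left_ne_zero_of_mul hxy
    have hy : p.1⁻¹ * p.2 ∈ y.supp := right_ne_zero_of_mul hxy
    have hz : p.2⁻¹ * g ∈ z.supp := right_ne_zero_of_mul hp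
    exact Set.mem_biUnion (x := p.2) ⟨⟨p.1, hx, _, hy, by simp⟩, hz⟩ ⟨p.1, ⟨hx, hy⟩, rfl⟩
  have hfin' : Function.HasFiniteSupport
      fun p : G × G => x.c p.2 * y.c (p.2⁻¹ * p.1) * z.c (p.1⁻¹ * g) :=
    (hfin.image Prod.swap).subset fun p hp => ⟨p.swap, hp, rfl⟩
  have e1 : (x * y * z).c g =
      ∑ᶠ p : G × G, x.c p.2 * y.c (p.2⁻¹ * p.1) * z.c (p.1⁻¹ * g) := by
    rw [finsum_curry _ hfin', c_mul]
    exact finsum_congr fun b => by rw [c_mul, finsum_mul]
  have e2 : (x * (y * z)).c g =
      ∑ᶠ p : G × G, x.c p.1 * y.c (p.1⁻¹ * p.2) * z.c (p.2⁻¹ * g) := by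
    rw [finsum_curry _ hfin, c_mul]
    refine finsum_congr fun a => ?_
    rw [c_mul, mul_finsum, ← finsum_comp_equiv (Equiv.mulLeft a⁻¹)]
    refine finsum_congr fun b => ?_
    rw [Equiv.coe_mulLeft, show (a⁻¹ * b)⁻¹ * (a⁻¹ * g) = b⁻¹ * g by group, mul_assoc]
  rw [e1, e2, ← finsum_comp_equiv (Equiv.prodComm G G)]
  rfl

theorem mn_one_mul (x : MN o) : 1 * x = x := by
  ext g
  exact (mn_single_mul 1 1 x g).trans (by simp)

theorem mn_mul_one (x : MN o) : x * 1 = x := by
  ext g
  exact (mn_mul_single 1 1 x g).trans (by simp)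

theorem mn_zero_mul (x : MN o) : 0 * x = 0 := by
  ext g
  rw [c_mul]
  exact finsum_eq_zero_of_forall_eq_zero fun a => by simp

theorem mn_mul_zero (x : MN o) : x * 0 = 0 := by
  ext g
  rw [c_mul]
  exact finsum_eq_zero_of_forall_eq_zero fun a => by simp

theorem mn_mul_add (x y z : MN o) : x * (y + z) = x * y + x * z := by
  ext g
  rw [c_add, c_mul, c_mul, c_mul, ← finsum_add_distrib (finite_conv x y g) (finite_conv x z g)]
  exact finsum_congr fun a => by rw [c_add, mul_add]

theorem mn_add_mul (x y z : MN o) : (x + y) * z = x * z + y * z := by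
  ext g
  rw [c_add, c_mul, c_mul, c_mul, ← finsum_add_distrib (finite_conv x z g) (finite_conv y z g)]
  exact finsum_congr fun a => by rw [c_add, add_mul]

instance : Ring (MN o) where
  __ := (inferInstance : AddCommGroup (MN o))
  mul := (· * ·)
  one := 1
  mul_assoc := mn_mul_assoc
  one_mul := mn_one_mul
  mul_one := mn_mul_one
  zero_mul := mn_zero_mul
  mul_zero := mn_mul_zero
  left_distrib := mn_mul_add
  right_distrib := mn_add_mul

instance : Nontrivial (MN o) :=
  ⟨⟨1, 0, fun h => one_ne_zero ((mn_single_self (o := o) 1 1).symm.trans (congrArg (c · 1) h))⟩⟩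

theorem mn_c_sum {κ : Type} (s : Finset κ) (x : κ → MN o) (g : G) :
    (∑ i ∈ s, x i).c g = ∑ i ∈ s, (x i).c g := by
  classical
  induction s using Finset.induction_on with
  | empty => simp
  | insert i s hi ih => rw [Finset.sum_insert hi, Finset.sum_insert hi, c_add, ih]

theorem mn_single_single (g h : G) (r t : ℚ) :
    (single g r * single h t : MN o) = single (g * h) (r * t) := by
  ext a
  rw [mn_single_mul]
  by_cases ha : a = g * h
  · rw [ha, inv_mul_cancel_left, mn_single_self, mn_single_self]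
  · rw [mn_single_ne _ ha, mn_single_ne, mul_zero]
    intro h'
    exact ha (by rw [← h', mul_inv_cancel_left])

theorem mn_supp_pow (y : MN o) (k : ℕ) : (y ^ k).supp ⊆ y.supp ^ k := by
  induction k with
  | zero =>
    intro g hg
    rw [pow_zero] at hg ⊢
    by_contra h
    exact hg (mn_single_ne 1 h)
  | succ k ih =>
    rw [pow_succ, pow_succ]
    exact (supp_mul _ _).trans (Set.mul_subset_mul_right ih)

theorem mn_pow_subset (s : Set G) (k : ℕ) : s ^ k ⊆ (Submonoid.closure s : Set G) := by
  induction k with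
  | zero =>
    intro g hg
    rw [pow_zero, Set.mem_one] at hg
    exact hg ▸ (Submonoid.closure s).one_mem
  | succ k ih =>
    rw [pow_succ]
    rintro _ ⟨a, ha, b, hb, rfl⟩
    exact (Submonoid.closure s).mul_mem (ih ha) (Submonoid.subset_closure hb)

/-- The geometric series. -/
theorem mn_geom (y : MN o) (hy : y.supp ⊆ o.P) : ∃ z : MN o, (1 - y) * z = 1 := by
  have hcl := y.wo.closure hy
  have hsub : ∀ (k : ℕ) (g : G), (y ^ k).c g ≠ 0 → g ∈ (Submonoid.closure y.supp : Set G) :=
    fun k g h => mn_pow_subset _ k (mn_supp_pow y k h)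
  have hz : Function.support (fun g => ∑ᶠ k : ℕ, (y ^ k).c g) ⊆
      (Submonoid.closure y.supp : Set G) := by
    intro g hg
    by_contra h
    refine hg (finsum_eq_zero_of_forall_eq_zero fun k => ?_)
    by_contra h'
    exact h (hsub k g h')
  have hev : ∀ g : G, ∀ᶠ n : ℕ in Filter.atTop, ∀ k, n ≤ k → (y ^ k).c g = 0 := by
    intro g
    obtain ⟨b, hb⟩ := (y.wo.finite_pow hy g).bddAbove
    refine Filter.eventually_atTop.2 ⟨b + 1, fun n hn k hk => ?_⟩
    by_contra h
    have : k ≤ b := hb (mn_supp_pow y k h)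
    omega
  refine ⟨mk _ (hcl.mono hz), ?_⟩
  ext g
  have hA := (1 - y).wo.finite_antidiag hcl g
  obtain ⟨n, hn1, hn2⟩ := (((Filter.eventually_all_finite hA).2 fun a _ => hev (a⁻¹ * g)).and
    (hev g)).exists
  have e : ((1 - y) * mk _ (hcl.mono hz)).c g =
      ((1 - y) * ∑ k ∈ Finset.range n, y ^ k).c g := by
    rw [c_mul, c_mul]
    refine finsum_congr fun a => ?_
    by_cases h1 : (1 - y).c a = 0
    · rw [h1, zero_mul, zero_mul]
    congr 1
    rw [c_mk, mn_c_sum]
    refine finsum_eq_sum_of_support_subset _ fun k hk => ?_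
    rw [Finset.coe_range, Set.mem_Iio]
    by_contra hlt
    exact hk (hn1 a ⟨h1, hsub k _ hk⟩ k (not_lt.1 hlt))
  rw [e, mul_neg_geom_sum, c_sub, hn2 n le_rfl, sub_zero]

theorem mn_right_inv {x : MN o} (hx : x ≠ 0) : ∃ z : MN o, x * z = 1 := by
  have hne : x.supp.Nonempty := by
    by_contra h
    refine hx (ext fun g => ?_)
    by_contra h'
    exact h ⟨g, h'⟩
  obtain ⟨m, hm, hmin⟩ := x.wo.exists_min hne
  have hr : x.c m ≠ 0 := hm
  obtain ⟨z, hz⟩ := mn_geom (1 - single m⁻¹ (x.c m)⁻¹ * x) (by
    intro g hg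
    have hg' : (1 : MN o).c g - (x.c m)⁻¹ * x.c (m * g) ≠ 0 := by
      have h1 : (1 - single m⁻¹ (x.c m)⁻¹ * x).c g ≠ 0 := hg
      rwa [c_sub, mn_single_mul, inv_inv] at h1
    have hg1 : g ≠ 1 := by
      rintro rfl
      refine hg' ?_
      rw [mul_one, inv_mul_cancel₀ hr, sub_eq_zero]
      exact mn_single_self 1 1
    have h0 : (1 : MN o).c g = 0 := mn_single_ne 1 hg1
    have h2 : x.c (m * g) ≠ 0 := fun h => hg' (by rw [h0, h, mul_zero, sub_zero])
    rcases hmin _ h2 with h | h
    · exact absurd (mul_eq_left.1 h) hg1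
    · have h3 : m⁻¹ * (m * g) ∈ o.P := h
      rwa [inv_mul_cancel_left] at h3)
  rw [sub_sub_cancel] at hz
  have hu : (single m (x.c m) * single m⁻¹ (x.c m)⁻¹ : MN o) = 1 := by
    rw [mn_single_single, mul_inv_cancel, mul_inv_cancel₀ hr]
    rfl
  refine ⟨z * single m⁻¹ (x.c m)⁻¹, ?_⟩
  calc x * (z * single m⁻¹ (x.c m)⁻¹)
      = single m (x.c m) * single m⁻¹ (x.c m)⁻¹ * x * (z * single m⁻¹ (x.c m)⁻¹) := by
        rw [hu, one_mul]
    _ = single m (x.c m) * (single m⁻¹ (x.c m)⁻¹ * x * z) * single m⁻¹ (x.c m)⁻¹ := by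
        simp only [mul_assoc]
    _ = 1 := by rw [hz, mul_one, hu]

theorem isUnit_or (x : MN o) : IsUnit x ∨ x = 0 := by
  refine or_iff_not_imp_right.2 fun hx => ?_
  obtain ⟨b, hb⟩ := mn_right_inv hx
  have hb0 : b ≠ 0 := by
    rintro rfl
    exact zero_ne_one ((mul_zero x).symm.trans hb)
  obtain ⟨d, hd⟩ := mn_right_inv hb0
  have hxd : x = d := by rw [← mul_one x, ← hd, ← mul_assoc, hb, one_mul]
  exact ⟨⟨x, b, hb, hxd ▸ hd⟩, rfl⟩

instance : DivisionRing (MN o) := DivisionRing.ofIsUnitOrEqZero isUnit_or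

open Classical in
theorem c_single (g : G) (r : ℚ) (a : G) : (single g r : MN o).c a = if a = g then r else 0 := rfl

theorem c_single_mul (g : G) (r : ℚ) (x : MN o) (a : G) :
    (single g r * x).c a = r * x.c (g⁻¹ * a) := mn_single_mul g r x a

theorem c_mul_single (g : G) (r : ℚ) (x : MN o) (a : G) :
    (x * single g r).c a = x.c (a * g⁻¹) * r := mn_mul_single g r x a

variable (o) in
/-- The embedding of the group. -/
def of : G →* MN o where
  toFun g := single g 1
  map_one' := rfl
  map_mul' := fun g h => by rw [mn_single_single, mul_one]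

theorem of_apply (g : G) : of o g = single g 1 := rfl

theorem of_injective : Function.Injective (of o) := by
  intro g h hgh
  by_contra hne
  have h1 : (single g 1 : MN o).c g = (single h 1 : MN o).c g := congrArg (c · g) hgh
  rw [mn_single_self, mn_single_ne 1 hne] at h1
  exact one_ne_zero h1

theorem intCast_eq (k : ℤ) : (k : MN o) = single 1 (k : ℚ) := by
  have hone : (1 : MN o) = single 1 1 := rfl
  induction k using Int.induction_on with
  | zero =>
    ext g
    simp [c_single]
  | succ k ih =>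
    rw [Int.cast_add, ih, Int.cast_one, hone]
    ext g
    simp only [c_add, c_single]
    split_ifs <;> simp
  | pred k ih =>
    rw [Int.cast_sub, ih, Int.cast_one, hone]
    ext g
    simp only [c_sub, c_single]
    split_ifs <;> simp

theorem c_sum {κ : Type} (s : Finset κ) (x : κ → MN o) (g : G) :
    (∑ i ∈ s, x i).c g = ∑ i ∈ s, (x i).c g := mn_c_sum s x g

/-- The minimum of the support is multiplicative. -/
theorem min_mul {x y : MN o} {a b : G} (ha : a ∈ x.supp) (ha' : ∀ g ∈ x.supp, g = a ∨ o.lt a g)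
    (hb : b ∈ y.supp) (hb' : ∀ g ∈ y.supp, g = b ∨ o.lt b g) :
    a * b ∈ (x * y).supp ∧ ∀ g ∈ (x * y).supp, g = a * b ∨ o.lt (a * b) g := by
  constructor
  · have e : (x * y).c (a * b) = x.c a * y.c b := by
      rw [c_mul, finsum_eq_single _ a fun u hu => ?_, inv_mul_cancel_left]
      by_contra h
      rcases ha' u (left_ne_zero_of_mul h) with h1 | h1
      · exact hu h1
      rcases hb' _ (right_ne_zero_of_mul h) with h2 | h2
      · refine hu ?_
        have h3 : u⁻¹ * a * b = 1 * b := by rw [mul_assoc, h2, one_mul]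
        exact inv_mul_eq_one.1 (mul_right_cancel h3)
      · have h3 : o.lt (u * b) (a * b) := by
          have := (o.lt_mul_left u).2 h2
          rwa [mul_inv_cancel_left] at this
        exact o.lt_irrefl _ (o.lt_trans h1 ((o.lt_mul_right b).1 h3))
    change (x * y).c (a * b) ≠ 0
    rw [e]
    exact mul_ne_zero ha hb
  · intro g hg
    obtain ⟨u, hu, v, hv, rfl⟩ := supp_mul x y hg
    rcases ha' u hu with rfl | h1 <;> rcases hb' v hv with rfl | h2
    · exact Or.inl rfl
    · exact Or.inr ((o.lt_mul_left _).2 h2)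
    · exact Or.inr ((o.lt_mul_right _).2 h1)
    · exact Or.inr (o.lt_trans ((o.lt_mul_right b).2 h1) ((o.lt_mul_left u).2 h2))

end MN

end Pool.Agent.Lib.MP_9ac97d_al
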