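import Pool.Agent.Lib.MP_9ac97d_al.MN

/-!
# Restriction, subfields, automorphisms, change of order (task MNApi)

Do not change the data; fill in the proofs.
-/

set_option autoImplicit false

noncomputable section

open Pointwise

namespace Pool.Agent.Lib.MP_9ac97d_al

namespace MN

variable {G : Type} [Group G] {o : BiOrd G}

open Classical in
/-- Restriction of a series to a set of group elements. -/
def res (A : Set G) : MN o →+ MN o where
  toFun x := mk (fun g => if g ∈ A then x.c g else 0)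
    (x.wo.mono fun g hg h => hg (by simp [h]))
  map_zero' := by ext g; simp
  map_add' := fun x y => by ext g; by_cases h : g ∈ A <;> simp [h]

open Classical in
theorem c_res (A : Set G) (x : MN o) (g : G) : (res A x).c g = if g ∈ A then x.c g else 0 := rfl

theorem mnapi_mem_supp {x : MN o} {g : G} : g ∈ x.supp ↔ x.c g ≠ 0 := Iff.rfl

theorem mnapi_supp_single (g : G) (r : ℚ) : (single g r : MN o).supp ⊆ {g} := by
  intro a ha
  by_contra h
  exact ha (by rw [c_single, if_neg (show ¬ a = g from h)])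

theorem mnapi_supp_one : (1 : MN o).supp ⊆ {1} := mnapi_supp_single 1 1

theorem mnapi_supp_of (g : G) : (of o g).supp ⊆ {g} := mnapi_supp_single g 1

theorem mnapi_supp_add (x y : MN o) : (x + y).supp ⊆ x.supp ∪ y.supp := by
  intro g hg
  by_contra h
  rw [Set.mem_union, not_or, mnapi_mem_supp, mnapi_mem_supp, not_not, not_not] at h
  exact hg (by rw [c_add, h.1, h.2, add_zero])

theorem mnapi_supp_neg (x : MN o) : (-x).supp = x.supp := by
  ext g
  rw [mnapi_mem_supp, mnapi_mem_supp, c_neg, neg_ne_zero]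

theorem mnapi_supp_zero : (0 : MN o).supp = ∅ := by
  ext g
  simp [mnapi_mem_supp]

theorem mnapi_supp_res (A : Set G) (x : MN o) : (res A x).supp ⊆ A := by
  intro g hg
  by_contra h
  exact hg (by rw [c_res, if_neg h])

theorem mnapi_res_of_subset {A : Set G} {x : MN o} (hx : x.supp ⊆ A) : res A x = x := by
  ext g
  rw [c_res]
  split_ifs with h
  · rfl
  · by_contra h'
    exact h (hx fun h'' => h' h''.symm)

theorem mnapi_c_of_mul (g : G) (x : MN o) (a : G) : (of o g * x).c a = x.c (g⁻¹ * a) := by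
  rw [of_apply, c_single_mul, one_mul]

theorem mnapi_c_mul_of (g : G) (x : MN o) (a : G) : (x * of o g).c a = x.c (a * g⁻¹) := by
  rw [of_apply, c_mul_single, mul_one]

theorem res_mul_left {N : Subgroup G} {A : Set G} (hA : ∀ a ∈ N, ∀ g, a * g ∈ A ↔ g ∈ A)
    {x : MN o} (hx : x.supp ⊆ N) (y : MN o) : res A (x * y) = x * res A y := by
  ext g
  rw [c_res, c_mul, c_mul]
  split_ifs with hg
  · refine finsum_congr fun a => ?_
    by_cases ha : x.c a = 0
    · rw [ha, zero_mul, zero_mul]
    · rw [c_res, if_pos ((hA _ (N.inv_mem (hx ha)) g).2 hg)]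
  · symm
    refine finsum_eq_zero_of_forall_eq_zero fun a => ?_
    by_cases ha : x.c a = 0
    · rw [ha, zero_mul]
    · rw [c_res, if_neg fun h => hg ((hA _ (N.inv_mem (hx ha)) g).1 h), mul_zero]

theorem res_mul_right {N : Subgroup G} {A : Set G} (hA : ∀ a ∈ N, ∀ g, g * a ∈ A ↔ g ∈ A)
    {x : MN o} (hx : x.supp ⊆ N) (y : MN o) : res A (y * x) = res A y * x := by
  ext g
  rw [c_res, c_mul, c_mul]
  have key : ∀ a, x.c (a⁻¹ * g) ≠ 0 → (g ∈ A ↔ a ∈ A) := fun a ha => by
    have h := hA _ (hx ha) a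
    rwa [mul_inv_cancel_left] at h
  split_ifs with hg
  · refine finsum_congr fun a => ?_
    by_cases ha : x.c (a⁻¹ * g) = 0
    · rw [ha, mul_zero, mul_zero]
    · rw [c_res, if_pos ((key a ha).1 hg)]
  · symm
    refine finsum_eq_zero_of_forall_eq_zero fun a => ?_
    by_cases ha : x.c (a⁻¹ * g) = 0
    · rw [ha, mul_zero]
    · rw [c_res, if_neg fun h => hg ((key a ha).2 h), zero_mul]

variable (o) in
/-- The series supported in a subgroup form a skew subfield (for the inverse use
`res_mul_left` with `A = N`). -/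
def sub (N : Subgroup G) : Subfield (MN o) where
  carrier := {x | x.supp ⊆ N}
  mul_mem' := fun {x y} hx hy g hg => by
    obtain ⟨a, ha, b, hb, rfl⟩ := supp_mul x y hg
    exact N.mul_mem (hx ha) (hy hb)
  one_mem' := fun g hg => by
    rw [mnapi_supp_one hg]
    exact N.one_mem
  add_mem' := fun {x y} hx hy g hg => (mnapi_supp_add x y hg).elim (fun h => hx h) fun h => hy h
  zero_mem' := fun g hg => absurd rfl hg
  neg_mem' := fun {x} hx g hg => hx (by rwa [mnapi_supp_neg] at hg)
  inv_mem' := fun x hx => by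
    by_cases h0 : x = 0
    · rw [h0, inv_zero]
      exact fun g hg => absurd rfl hg
    · have h1 : res (N : Set G) (x * x⁻¹) = x * res (N : Set G) x⁻¹ :=
        res_mul_left (N := N) (fun a ha g => N.mul_mem_cancel_left ha) hx _
      have h2 : res (N : Set G) (1 : MN o) = 1 :=
        mnapi_res_of_subset fun g hg => by
          rw [mnapi_supp_one hg]
          exact N.one_mem
      rw [mul_inv_cancel₀ h0, h2] at h1
      have h3 : res (N : Set G) x⁻¹ = x⁻¹ := eq_inv_of_mul_eq_one_right h1.symm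
      show (x⁻¹).supp ⊆ N
      rw [← h3]
      exact mnapi_supp_res _ _

theorem mem_sub {N : Subgroup G} {x : MN o} : x ∈ sub o N ↔ x.supp ⊆ N := Iff.rfl

theorem of_mem_sub {N : Subgroup G} {g : G} (hg : g ∈ N) : of o g ∈ sub o N := by
  intro a ha
  rw [mnapi_supp_of g ha]
  exact hg

variable (o) in
/-- The series supported on finitely many cosets of a normal subgroup. -/
def fin (N : Subgroup G) [N.Normal] : Subring (MN o) where
  carrier := {x | ((QuotientGroup.mk : G → G ⧸ N) '' x.supp).Finite}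
  mul_mem' := fun {x y} hx hy => by
    refine (Set.Finite.mul hx hy).subset ?_
    rintro _ ⟨g, hg, rfl⟩
    obtain ⟨a, ha, b, hb, rfl⟩ := supp_mul x y hg
    exact ⟨_, ⟨a, ha, rfl⟩, _, ⟨b, hb, rfl⟩, rfl⟩
  one_mem' := ((Set.finite_singleton (1 : G)).subset mnapi_supp_one).image _
  add_mem' := fun {x y} hx hy => by
    refine (Set.Finite.union hx hy).subset ?_
    rw [← Set.image_union]
    exact Set.image_mono (mnapi_supp_add x y)
  zero_mem' := by
    show ((QuotientGroup.mk : G → G ⧸ N) '' (0 : MN o).supp).Finite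
    rw [mnapi_supp_zero, Set.image_empty]
    exact Set.finite_empty
  neg_mem' := fun {x} hx => by
    show ((QuotientGroup.mk : G → G ⧸ N) '' (-x).supp).Finite
    rw [mnapi_supp_neg]
    exact hx

theorem mem_fin {N : Subgroup G} [N.Normal] {x : MN o} :
    x ∈ fin o N ↔ ((QuotientGroup.mk : G → G ⧸ N) '' x.supp).Finite := Iff.rfl

theorem of_mem_fin (N : Subgroup G) [N.Normal] (g : G) : of o g ∈ fin o N :=
  ((Set.finite_singleton g).subset (mnapi_supp_of g)).image _

theorem mem_fin_of_mem_sub {N : Subgroup G} [N.Normal] {x : MN o} (hx : x ∈ sub o N) :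
    x ∈ fin o N := by
  refine (Set.finite_singleton (1 : G ⧸ N)).subset ?_
  rintro _ ⟨g, hg, rfl⟩
  exact (QuotientGroup.eq_one_iff g).2 (hx hg)

/-- Decomposition along the cosets, for any choice `r` of representatives. -/
theorem fin_decomp {N : Subgroup G} [N.Normal] {x : MN o} (hx : x ∈ fin o N) (r : G ⧸ N → G)
    (hr : ∀ b, (r b : G ⧸ N) = b) :
    ∃ (s : Finset (G ⧸ N)) (y : G ⧸ N → MN o), (∀ b, y b ∈ sub o N) ∧
      x = ∑ b ∈ s, of o (r b) * y b := by
  classical
  have hx' : ((QuotientGroup.mk : G → G ⧸ N) '' x.supp).Finite := hx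
  refine ⟨hx'.toFinset, fun b => of o (r b)⁻¹ * res {g : G | (g : G ⧸ N) = b} x, fun b g hg => ?_, ?_⟩
  · rw [mnapi_mem_supp, mnapi_c_of_mul, inv_inv] at hg
    have h : ((r b * g : G) : G ⧸ N) = b := mnapi_supp_res {g : G | (g : G ⧸ N) = b} x hg
    rw [QuotientGroup.mk_mul, hr, mul_eq_left] at h
    exact (QuotientGroup.eq_one_iff g).1 h
  · ext g
    rw [c_sum]
    have h : ∀ b : G ⧸ N, (of o (r b) * (of o (r b)⁻¹ * res {g : G | (g : G ⧸ N) = b} x)).c g =
        if (g : G ⧸ N) = b then x.c g else 0 := fun b => by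
      rw [mnapi_c_of_mul, mnapi_c_of_mul, inv_inv, mul_inv_cancel_left, c_res]
      by_cases hb : (g : G ⧸ N) = b
      · rw [if_pos hb, if_pos (show g ∈ {g : G | (g : G ⧸ N) = b} from hb)]
      · rw [if_neg hb, if_neg (show g ∉ {g : G | (g : G ⧸ N) = b} from hb)]
    rw [Finset.sum_congr rfl fun b _ => h b, Finset.sum_ite_eq]
    split_ifs with hg
    · rfl
    · by_contra h0
      exact hg (hx'.mem_toFinset.2 ⟨g, h0, rfl⟩)

theorem wo_map {Φ : MulAut G} (h : o.Pres Φ) (x : MN o) :
    o.WO (Function.support fun g => x.c (Φ⁻¹ g)) := by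
  rw [BiOrd.wo_iff]
  intro u hu hlt
  refine o.wo_iff.1 x.wo (fun k => Φ⁻¹ (u k)) hu fun k => ?_
  have h1 : (u (k + 1))⁻¹ * u k ∈ o.P := hlt k
  show (Φ⁻¹ (u (k + 1)))⁻¹ * Φ⁻¹ (u k) ∈ o.P
  rw [← map_inv, ← map_mul, ← h]
  simpa using h1

/-- The ring automorphism induced by an order preserving automorphism. -/
def map (Φ : MulAut G) (h : o.Pres Φ) : RingAut (MN o) where
  toFun x := mk (fun g => x.c (Φ⁻¹ g)) (wo_map h x)
  invFun x := mk (fun g => x.c (Φ g))
    (wo_map (Φ := Φ⁻¹) (fun g => by simpa using (h (Φ⁻¹ g)).symm) x)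
  left_inv := fun x => by ext g; simp
  right_inv := fun x => by ext g; simp
  map_mul' := fun x y => by
    ext g
    simp only [c_mk, c_mul]
    rw [← finsum_comp_equiv (Φ⁻¹ : MulAut G).toEquiv]
    refine finsum_congr fun a => ?_
    simp only [map_mul, map_inv, MulEquiv.toEquiv_eq_coe, EquivLike.coe_coe]
  map_add' := fun x y => by ext g; simp

theorem c_map (Φ : MulAut G) (h : o.Pres Φ) (x : MN o) (g : G) :
    (map Φ h x).c g = x.c (Φ⁻¹ g) := rfl

theorem supp_map (Φ : MulAut G) (h : o.Pres Φ) (x : MN o) : (map Φ h x).supp = Φ '' x.supp := by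
  ext g
  rw [mnapi_mem_supp, c_map]
  constructor
  · intro hg
    exact ⟨Φ⁻¹ g, hg, by simp⟩
  · rintro ⟨a, ha, rfl⟩
    simpa using mnapi_mem_supp.1 ha

theorem map_of (Φ : MulAut G) (h : o.Pres Φ) (g : G) : map Φ h (of o g) = of o (Φ g) := by
  ext a
  rw [c_map, of_apply, of_apply, c_single, c_single]
  have h1 : Φ⁻¹ a = g ↔ a = Φ g := by
    constructor
    · rintro rfl
      simp
    · rintro rfl
      simp
  by_cases ha : a = Φ g
  · rw [if_pos ha, if_pos (h1.2 ha)]
  · rw [if_neg ha, if_neg fun h' => ha (h1.1 h')]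

theorem map_conj (g : G) (h : o.Pres (MulAut.conj g)) (x : MN o) :
    map (MulAut.conj g) h x = of o g * x * of o g⁻¹ := by
  ext a
  rw [c_map, mnapi_c_mul_of, mnapi_c_of_mul, MulAut.conj_inv_apply, inv_inv, mul_assoc]

/-- The action of a group of order preserving automorphisms. -/
def mapHom {E : Type} [Group E] (ρ : E →* MulAut G) (h : ∀ e, o.Pres (ρ e)) :
    E →* RingAut (MN o) where
  toFun e := map (ρ e) (h e)
  map_one' := by ext x g; simp [c_map]
  map_mul' := fun e e' => by ext x g; simp [c_map]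

theorem wo_transfer {o' : BiOrd G} {N : Subgroup G} [N.Normal]
    (h : ∀ g ∈ N, g ∈ o.P ↔ g ∈ o'.P) {x : MN o} (hx : x ∈ fin o N) : o'.WO x.supp := by
  have hx' : ((QuotientGroup.mk : G → G ⧸ N) '' x.supp).Finite := hx
  have h1 : ∀ b : G ⧸ N, o'.WO {g | g ∈ x.supp ∧ (g : G ⧸ N) = b} := fun b => by
    rw [BiOrd.wo_iff]
    intro u hu hlt
    refine o.wo_iff.1 x.wo u (fun k => (hu k).1) fun k => ?_
    have h2 : (u (k + 1))⁻¹ * u k ∈ N :=
      QuotientGroup.eq.1 ((hu (k + 1)).2.trans (hu k).2.symm)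
    exact (h _ h2).2 (hlt k)
  have h2 : ∀ T : Set (G ⧸ N), T.Finite → o'.WO {g | g ∈ x.supp ∧ (g : G ⧸ N) ∈ T} := by
    intro T hT
    induction T, hT using Set.Finite.induction_on with
    | empty => exact o'.wo_of_finite (Set.finite_empty.subset fun g hg => hg.2)
    | @insert b T _ _ ih =>
      refine ((h1 b).union ih).mono fun g hg => ?_
      rcases hg.2 with hb | hb
      · exact Or.inl ⟨hg.1, hb⟩
      · exact Or.inr ⟨hg.1, hb⟩
  exact (h2 _ hx').mono fun g hg => ⟨hg, g, hg, rfl⟩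

/-- Change of order, for two orders that agree on `N`. -/
def transfer (o o' : BiOrd G) (N : Subgroup G) [N.Normal] (h : ∀ g ∈ N, g ∈ o.P ↔ g ∈ o'.P) :
    fin o N →+* MN o' where
  toFun x := mk x.1.c (wo_transfer h x.2)
  map_one' := rfl
  map_mul' := fun _ _ => rfl
  map_zero' := rfl
  map_add' := fun _ _ => rfl

theorem c_transfer (o' : BiOrd G) (N : Subgroup G) [N.Normal]
    (h : ∀ g ∈ N, g ∈ o.P ↔ g ∈ o'.P) (x : fin o N) : (transfer o o' N h x).c = x.1.c := rfl

end MN

end Pool.Agent.Lib.MP_9ac97d_al
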