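import Pool.Agent.Lib.MP_9ac97d_al.Grp

/-!
# Well ordered subsets of a bi-ordered group (task MNOrd)

Hint: `letI : LinearOrder G` from `o.lt` (on a type synonym or locally); `WellFoundedOn` for a
linear order is `Set.IsWF`, equivalent to `Set.IsPWO`. Use `IsPWO.exists_monotone_subseq`, and
Higman's lemma `Set.PartiallyWellOrderedOn.partiallyWellOrderedOn_sublistForall₂` for Neumann's
lemma (see the proof of `Set.IsPWO.submonoid_closure` in Mathlib for the commutative case).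
-/

set_option autoImplicit false

noncomputable section

open Pointwise

namespace Pool.Agent.Lib.MP_9ac97d_al

namespace BiOrd

variable {G : Type} [Group G] (o : BiOrd G)

theorem lt_irrefl (x : G) : ¬ o.lt x x := by
  intro h
  apply o.one_notMem
  simpa [lt] using h

theorem lt_trans {x y z : G} (h : o.lt x y) (h' : o.lt y z) : o.lt x z := by
  have := o.mul_mem _ h _ h'
  simpa [lt, mul_assoc] using this

theorem lt_tri (x y : G) : o.lt x y ∨ x = y ∨ o.lt y x := by
  rcases o.tri (x⁻¹ * y) with h | h | h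
  · exact Or.inr (Or.inl (inv_mul_eq_one.1 h))
  · exact Or.inl h
  · refine Or.inr (Or.inr ?_)
    simpa [lt] using h

theorem lt_mul_left (g : G) {x y : G} : o.lt (g * x) (g * y) ↔ o.lt x y := by
  simp [lt, mul_assoc]

theorem lt_mul_right (g : G) {x y : G} : o.lt (x * g) (y * g) ↔ o.lt x y := by
  constructor
  · intro h
    have := o.conj_mem g _ h
    simpa [lt, mul_assoc] using this
  · intro h
    have := o.conj_mem g⁻¹ _ h
    simpa [lt, mul_assoc] using this

/-- The weak order. -/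
def MNOrd_le (x y : G) : Prop := x = y ∨ o.lt x y

theorem MNOrd_le_refl (x : G) : o.MNOrd_le x x := Or.inl rfl

theorem MNOrd_lt_le {x y z : G} (h : o.lt x y) (h' : o.MNOrd_le y z) : o.lt x z := by
  rcases h' with rfl | h'
  · exact h
  · exact o.lt_trans h h'

theorem MNOrd_le_lt {x y z : G} (h : o.MNOrd_le x y) (h' : o.lt y z) : o.lt x z := by
  rcases h with rfl | h
  · exact h'
  · exact o.lt_trans h h'

theorem MNOrd_le_trans {x y z : G} (h : o.MNOrd_le x y) (h' : o.MNOrd_le y z) :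
    o.MNOrd_le x z := by
  rcases h with rfl | h
  · exact h'
  · exact Or.inr (o.MNOrd_lt_le h h')

instance MNOrd_preorder : IsPreorder G o.MNOrd_le where
  refl := o.MNOrd_le_refl
  trans := fun _ _ _ => o.MNOrd_le_trans

theorem MNOrd_mul_lt {a b c e : G} (h : o.lt a b) (h' : o.MNOrd_le c e) :
    o.lt (a * c) (b * e) := by
  have h1 : o.lt (a * c) (b * c) := (o.lt_mul_right c).2 h
  rcases h' with rfl | h'
  · exact h1
  · exact o.lt_trans h1 ((o.lt_mul_left b).2 h')

theorem MNOrd_mul_lt' {a b c e : G} (h : o.MNOrd_le a b) (h' : o.lt c e) :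
    o.lt (a * c) (b * e) := by
  rcases h with rfl | h
  · exact (o.lt_mul_left a).2 h'
  · exact o.MNOrd_mul_lt h (Or.inr h')

theorem MNOrd_mul_le {a b c e : G} (h : o.MNOrd_le a b) (h' : o.MNOrd_le c e) :
    o.MNOrd_le (a * c) (b * e) := by
  rcases h' with rfl | h'
  · rcases h with rfl | h
    · exact Or.inl rfl
    · exact Or.inr ((o.lt_mul_right c).2 h)
  · exact Or.inr (o.MNOrd_mul_lt' h h')

theorem MNOrd_one_lt {x : G} : o.lt 1 x ↔ x ∈ o.P := by simp [lt]

theorem MNOrd_desc {u : ℕ → G} (h : ∀ k, o.lt (u (k + 1)) (u k)) {m n : ℕ} (hmn : m < n) :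
    o.lt (u n) (u m) := by
  induction hmn with
  | refl => exact h m
  | step _ ih => exact o.lt_trans (h _) ih

/-- `s` is well ordered. -/
def WO (s : Set G) : Prop := s.WellFoundedOn o.lt

theorem wo_iff {s : Set G} :
    o.WO s ↔ ∀ u : ℕ → G, (∀ k, u k ∈ s) → ¬ ∀ k, o.lt (u (k + 1)) (u k) := by
  unfold WO Set.WellFoundedOn
  rw [wellFounded_iff_isEmpty_descending_chain]
  constructor
  · intro h u hu hd
    exact h.false ⟨fun k => ⟨u k, hu k⟩, hd⟩
  · intro h
    exact ⟨fun f => h (fun k => (f.1 k : G)) (fun k => (f.1 k).2) f.2⟩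

theorem MNOrd_wo_iff {s : Set G} : o.WO s ↔ s.PartiallyWellOrderedOn o.MNOrd_le := by
  rw [wo_iff, Set.partiallyWellOrderedOn_iff_exists_lt]
  constructor
  · intro h f hf
    by_contra hc
    refine h f hf fun k => ?_
    rcases o.lt_tri (f (k + 1)) (f k) with h1 | h1 | h1
    · exact h1
    · exact absurd ⟨k, k + 1, Nat.lt_succ_self k, Or.inl h1.symm⟩ hc
    · exact absurd ⟨k, k + 1, Nat.lt_succ_self k, Or.inr h1⟩ hc
  · intro h u hu hd
    obtain ⟨m, n, hmn, hle⟩ := h u hu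
    exact o.lt_irrefl _ (o.MNOrd_le_lt hle (o.MNOrd_desc hd hmn))

theorem WO.mono {o : BiOrd G} {s t : Set G} (h : o.WO t) (hst : s ⊆ t) : o.WO s := by
  exact Set.WellFoundedOn.subset h hst

theorem WO.union {o : BiOrd G} {s t : Set G} (h : o.WO s) (h' : o.WO t) : o.WO (s ∪ t) := by
  rw [MNOrd_wo_iff] at h h' ⊢
  exact h.union h'

theorem wo_of_finite {s : Set G} (h : s.Finite) : o.WO s := by
  rw [MNOrd_wo_iff]
  exact h.partiallyWellOrderedOn

theorem WO.exists_min {o : BiOrd G} {s : Set G} (h : o.WO s) (hs : s.Nonempty) :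
    ∃ m ∈ s, ∀ x ∈ s, x = m ∨ o.lt m x := by
  obtain ⟨x, hx⟩ := hs
  have hw : WellFounded (fun a b : s => o.lt a b) := h
  obtain ⟨m, -, hm⟩ := hw.has_min Set.univ ⟨⟨x, hx⟩, trivial⟩
  refine ⟨m, m.2, fun y hy => ?_⟩
  rcases o.lt_tri y m with h1 | h1 | h1
  · exact absurd h1 (hm ⟨y, hy⟩ trivial)
  · exact Or.inl h1
  · exact Or.inr h1

theorem WO.mul {o : BiOrd G} {s t : Set G} (h : o.WO s) (h' : o.WO t) : o.WO (s * t) := by
  rw [MNOrd_wo_iff] at h h' ⊢
  rw [Set.partiallyWellOrderedOn_iff_exists_lt]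
  intro f hf
  choose a ha b hb hab using hf
  obtain ⟨g, hg⟩ := h.exists_monotone_subseq ha
  obtain ⟨m, n, hmn, hle⟩ := h'.exists_lt fun n => hb (g n)
  refine ⟨g m, g n, g.strictMono hmn, ?_⟩
  rw [← hab, ← hab]
  exact o.MNOrd_mul_le (hg m n hmn.le) hle

theorem WO.finite_antidiag {o : BiOrd G} {s t : Set G} (h : o.WO s) (h' : o.WO t) (g : G) :
    {a | a ∈ s ∧ a⁻¹ * g ∈ t}.Finite := by
  by_contra hinf
  have hinf : {a | a ∈ s ∧ a⁻¹ * g ∈ t}.Infinite := hinf
  rw [MNOrd_wo_iff] at h h'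
  set e := hinf.natEmbedding
  obtain ⟨φ, hφ⟩ := h.exists_monotone_subseq (f := fun n => (e n : G)) fun n => (e n).2.1
  obtain ⟨m, n, hmn, hle⟩ := h'.exists_lt (f := fun n => (e (φ n) : G)⁻¹ * g)
    fun n => (e (φ n)).2.2
  rcases hφ m n hmn.le with h1 | h1
  · have h2 := φ.injective (e.injective (Subtype.ext h1))
    omega
  · have h2 := o.MNOrd_mul_lt h1 hle
    simp only [mul_inv_cancel_left] at h2
    exact o.lt_irrefl _ h2

theorem MNOrd_prod_pos {l : List G} (hl : ∀ x ∈ l, x ∈ o.P) :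
    o.MNOrd_le 1 l.prod ∧ (0 < l.length → o.lt 1 l.prod) := by
  induction l with
  | nil => exact ⟨Or.inl rfl, fun h => absurd h (by simp)⟩
  | cons a l ih =>
    have h1 := (ih fun x hx => hl x (List.mem_cons_of_mem _ hx)).1
    have h2 := o.MNOrd_mul_lt (o.MNOrd_one_lt.2 (hl a List.mem_cons_self)) h1
    rw [one_mul, ← List.prod_cons] at h2
    exact ⟨Or.inr h2, fun _ => h2⟩

theorem MNOrd_sub {l l' : List G} (h : List.SublistForall₂ o.MNOrd_le l l')
    (hl : ∀ x ∈ l', x ∈ o.P) :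
    o.MNOrd_le l.prod l'.prod ∧ (l.length < l'.length → o.lt l.prod l'.prod) := by
  induction h with
  | nil => simpa using o.MNOrd_prod_pos hl
  | cons hab _ ih =>
    obtain ⟨h1, h2⟩ := ih fun x hx => hl x (List.mem_cons_of_mem _ hx)
    simp only [List.prod_cons, List.length_cons]
    exact ⟨o.MNOrd_mul_le hab h1, fun h3 => o.MNOrd_mul_lt' hab (h2 (by omega))⟩
  | @cons_right a l1 l2 _ ih =>
    obtain ⟨h1, -⟩ := ih fun x hx => hl x (List.mem_cons_of_mem _ hx)
    have h2 := o.MNOrd_mul_lt (o.MNOrd_one_lt.2 (hl a List.mem_cons_self)) h1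
    rw [one_mul, ← List.prod_cons] at h2
    exact ⟨Or.inr h2, fun _ => h2⟩

theorem MNOrd_list {s : Set G} {k : ℕ} {g : G} (hg : g ∈ s ^ k) :
    ∃ l : List G, l.length = k ∧ (∀ x ∈ l, x ∈ s) ∧ l.prod = g := by
  induction k generalizing g with
  | zero =>
    refine ⟨[], rfl, by simp, ?_⟩
    simpa [eq_comm] using hg
  | succ k ih =>
    rw [pow_succ'] at hg
    obtain ⟨a, ha, b, hb, rfl⟩ := hg
    obtain ⟨l, h1, h2, h3⟩ := ih hb
    refine ⟨a :: l, by simp [h1], ?_, by simp [h3]⟩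
    intro x hx
    rcases List.mem_cons.1 hx with rfl | hx
    · exact ha
    · exact h2 x hx

/-- Neumann's lemma, first part. -/
theorem WO.closure {o : BiOrd G} {s : Set G} (h : o.WO s) (hs : s ⊆ o.P) :
    o.WO (Submonoid.closure s : Set G) := by
  rw [MNOrd_wo_iff] at h ⊢
  have hH := Set.PartiallyWellOrderedOn.partiallyWellOrderedOn_sublistForall₂ _ h
  rw [Set.partiallyWellOrderedOn_iff_exists_lt]
  intro f hf
  choose l hl hp using fun n => Submonoid.exists_list_of_mem_closure (hf n)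
  obtain ⟨m, n, hmn, hle⟩ := hH.exists_lt (f := l) hl
  refine ⟨m, n, hmn, ?_⟩
  rw [← hp, ← hp]
  exact (o.MNOrd_sub hle fun x hx => hs (hl n x hx)).1

/-- Neumann's lemma, second part. -/
theorem WO.finite_pow {o : BiOrd G} {s : Set G} (h : o.WO s) (hs : s ⊆ o.P) (g : G) :
    {k : ℕ | g ∈ s ^ k}.Finite := by
  by_contra hinf
  have hinf : {k : ℕ | g ∈ s ^ k}.Infinite := hinf
  rw [MNOrd_wo_iff] at h
  have hH := Set.PartiallyWellOrderedOn.partiallyWellOrderedOn_sublistForall₂ _ h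
  choose l h1 h2 h3 using fun n => MNOrd_list (Nat.nth_mem_of_infinite hinf n)
  obtain ⟨m, n, hmn, hle⟩ := hH.exists_lt (f := l) h2
  have h4 := (o.MNOrd_sub hle fun x hx => hs (h2 n x hx)).2
    (by rw [h1, h1]; exact Nat.nth_strictMono hinf hmn)
  rw [h3, h3] at h4
  exact o.lt_irrefl _ h4

/-- A set containing `c * q ^ k` for all large `|k|`, with `q ≠ 1`, is not well ordered. -/
theorem not_wo_of_line {s : Set G} {q : G} (hq : q ≠ 1)
    (h : ∀ᶠ k : ℕ in Filter.atTop, q ^ k ∈ s ∧ q⁻¹ ^ k ∈ s) : ¬ o.WO s := by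
  obtain ⟨k0, hk⟩ := Filter.eventually_atTop.1 h
  rw [wo_iff]
  intro hw
  rcases o.tri q with h1 | h1 | h1
  · exact hq h1
  · refine hw (fun k => q⁻¹ ^ (k0 + k)) (fun k => (hk _ (by omega)).2) fun k => ?_
    have e : (q⁻¹ ^ (k0 + (k + 1)))⁻¹ * q⁻¹ ^ (k0 + k) = q := by group
    show _ ∈ o.P
    rwa [e]
  · refine hw (fun k => q ^ (k0 + k)) (fun k => (hk _ (by omega)).1) fun k => ?_
    have e : (q ^ (k0 + (k + 1)))⁻¹ * q ^ (k0 + k) = q⁻¹ := by group
    show _ ∈ o.P
    rwa [e]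

theorem MNOrd_pow_lt {x y : G} (h : o.lt x y) (k : ℕ) : o.lt (x ^ (k + 1)) (y ^ (k + 1)) := by
  induction k with
  | zero => simpa using h
  | succ k ih =>
    rw [pow_succ x, pow_succ y]
    exact o.MNOrd_mul_lt ih (Or.inr h)

/-- A bi-ordered group has unique roots. -/
theorem eq_of_pow_eq (o : BiOrd G) {x y : G} {k : ℕ} (hk : k ≠ 0) (h : x ^ k = y ^ k) :
    x = y := by
  obtain ⟨k, rfl⟩ := Nat.exists_eq_succ_of_ne_zero hk
  rcases o.lt_tri x y with h1 | h1 | h1
  · have := o.MNOrd_pow_lt h1 k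
    rw [h] at this
    exact absurd this (o.lt_irrefl _)
  · exact h1
  · have := o.MNOrd_pow_lt h1 k
    rw [h] at this
    exact absurd this (o.lt_irrefl _)

end BiOrd

end Pool.Agent.Lib.MP_9ac97d_al
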