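import Pool.Agent.Lib.MP_9ac97d_al.MBasic

/-!
# Ranks of subgroups of free groups (task MRank)
-/

set_option autoImplicit false

noncomputable section

open Pointwise

namespace Pool.Agent.Lib.MP_9ac97d_al



section Aux

variable {G D : Type} [Group G] [DivisionRing D] (ι : G →* D)

/-- A finite generating set of a free group has at least as many elements as a basis. -/
theorem mrank_card_le {I : Type} (T : Finset (FreeGroup I))
    (hT : Subgroup.closure (T : Set (FreeGroup I)) = ⊤) : Finite I ∧ Nat.card I ≤ T.card := by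
  classical
  let φ : FreeGroup I →* Multiplicative (I →₀ ℚ) :=
    FreeGroup.lift fun i => Multiplicative.ofAdd (Finsupp.single i 1)
  let T' : Finset (I →₀ ℚ) := T.image fun t => Multiplicative.toAdd (φ t)
  have h1 : ∀ g : FreeGroup I,
      Multiplicative.toAdd (φ g) ∈ Submodule.span ℚ (T' : Set (I →₀ ℚ)) := by
    intro g
    have hg : g ∈ Subgroup.closure (T : Set (FreeGroup I)) := hT ▸ Subgroup.mem_top g
    induction hg using Subgroup.closure_induction with
    | mem x hx =>
      exact Submodule.subset_span (Finset.mem_coe.2 (Finset.mem_image_of_mem _ hx))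
    | one => rw [map_one, toAdd_one]; exact Submodule.zero_mem _
    | mul x y _ _ hx hy => rw [map_mul, toAdd_mul]; exact Submodule.add_mem _ hx hy
    | inv x _ hx => rw [map_inv, toAdd_inv]; exact Submodule.neg_mem _ hx
  have h2 : Submodule.span ℚ (T' : Set (I →₀ ℚ)) = ⊤ := by
    rw [eq_top_iff, ← (Finsupp.basisSingleOne (R := ℚ) (ι := I)).span_eq, Submodule.span_le]
    rintro _ ⟨i, rfl⟩
    have := h1 (FreeGroup.of i)
    simpa [φ] using this
  have : Module.Finite ℚ (I →₀ ℚ) := ⟨⟨T', h2⟩⟩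
  refine ⟨Module.Finite.finite_basis (Finsupp.basisSingleOne (R := ℚ) (ι := I)), ?_⟩
  rw [← Module.finrank_eq_nat_card_basis (Finsupp.basisSingleOne (R := ℚ) (ι := I)),
    ← finrank_top, ← h2]
  exact (finrank_span_finset_le_card T').trans Finset.card_image_le

theorem mrank_range_eq {I : Type} (f : FreeGroup I →* G) :
    Subgroup.closure (Set.range fun i => f (FreeGroup.of i)) = f.range := by
  rw [MonoidHom.range_eq_map, ← FreeGroup.closure_range_of, MonoidHom.map_closure,
    ← Set.range_comp]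
  rfl

theorem mrank_fg_range {I : Type} [Finite I] (f : FreeGroup I →* G) : f.range.FG :=
  (Subgroup.fg_iff _).2 ⟨_, mrank_range_eq f, Set.finite_range _⟩

/-- The rank of a finitely generated free group is the size of a basis. -/
theorem mrank_rk_eq {I : Type} (f : FreeGroup I →* G) (hf : Function.Injective f)
    (hS : f.range.FG) : Finite I ∧ rk f.range = Nat.card I := by
  classical
  have hne : {k | ∃ T : Finset G, T.card = k ∧
      Subgroup.closure (T : Set G) = f.range}.Nonempty := by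
    obtain ⟨T, hT⟩ := hS
    exact ⟨_, T, rfl, hT⟩
  obtain ⟨T, hT1, hT2⟩ := Nat.sInf_mem hne
  let T' : Finset (FreeGroup I) := T.preimage f hf.injOn
  have hT' : Subgroup.closure (T' : Set (FreeGroup I)) = ⊤ := by
    apply Subgroup.map_injective hf
    rw [MonoidHom.map_closure, ← MonoidHom.range_eq_map, ← hT2, Finset.coe_preimage,
      Set.image_preimage_eq_of_subset]
    intro t ht
    have : t ∈ f.range := hT2 ▸ Subgroup.subset_closure ht
    exact this
  obtain ⟨hI, hle⟩ := mrank_card_le T' hT'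
  refine ⟨hI, le_antisymm ?_ ?_⟩
  · let _ := Fintype.ofFinite I
    have : rk f.range ≤ (Finset.univ.image fun i => f (FreeGroup.of i)).card :=
      Nat.sInf_le ⟨_, rfl, by rw [Finset.coe_image, Finset.coe_univ, Set.image_univ,
        mrank_range_eq]⟩
    exact this.trans (Finset.card_image_le.trans
      (by rw [Finset.card_univ, Nat.card_eq_fintype_card]))
  · refine hle.trans ?_
    rw [rk, ← hT1]
    exact Finset.card_le_card_of_injOn f (fun x hx => by simpa [T'] using hx) hf.injOn

theorem mrank_exists_free {n : ℕ} (S : Subgroup (Fr n)) :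
    ∃ (I : Type) (f : FreeGroup I →* Fr n), Function.Injective f ∧ f.range = S := by
  refine ⟨IsFreeGroup.Generators S, S.subtype.comp (IsFreeGroup.mulEquiv S).toMonoidHom,
    S.subtype_injective.comp (IsFreeGroup.mulEquiv S).injective, ?_⟩
  rw [MonoidHom.range_comp, MonoidHom.range_eq_top.2 (IsFreeGroup.mulEquiv S).surjective,
    ← MonoidHom.range_eq_map, Subgroup.range_subtype]

/-- Chains on `S` are spanned by the generators modulo the relations. -/
theorem mrank_supported_le {T : Set G} {W : Submodule D (G →₀ D)}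
    (hW : Rel ι (Subgroup.closure T) ≤ W) (hT : ∀ t ∈ T, Finsupp.single t (1 : D) ∈ W) :
    Finsupp.supported D D (Subgroup.closure T : Set G) ≤ W := by
  rw [Finsupp.supported_eq_span_single, Submodule.span_le]
  rintro _ ⟨a, ha, rfl⟩
  have hrel : ∀ a ∈ Subgroup.closure T, ∀ b ∈ Subgroup.closure T,
      Finsupp.single (a * b) (1 : D) - Finsupp.single a 1 - Finsupp.single b (ι a) ∈ W :=
    fun a ha b hb => hW (Submodule.subset_span ⟨a, ha, b, hb, rfl⟩)
  have hsm : ∀ (b : G) (d : D), Finsupp.single b (1 : D) ∈ W → Finsupp.single b d ∈ W :=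
    fun b d h => by simpa using W.smul_mem d h
  change Finsupp.single a (1 : D) ∈ W
  replace ha : a ∈ Subgroup.closure T := ha
  induction ha using Subgroup.closure_induction with
  | mem x hx => exact hT x hx
  | one => exact hW (single_one_mem_rel ι _ 1)
  | mul x y hx hy ix iy =>
    have := W.add_mem (W.add_mem (hrel x hx y hy) (hsm y (ι x) iy)) ix
    rwa [sub_add_cancel, sub_add_cancel] at this
  | inv x hx ix =>
    have h1 := hrel x⁻¹ (Subgroup.inv_mem _ hx) x hx
    rw [inv_mul_cancel] at h1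
    have := W.sub_mem (hW (single_one_mem_rel ι _ 1)) (W.add_mem h1 (hsm x (ι x⁻¹) ix))
    rwa [sub_add_cancel, sub_sub_cancel] at this

/-- Every assignment on a free basis extends to a derivation. -/
theorem mrank_exists_der {I : Type} (u : FreeGroup I →* D) {M : Type} [AddCommGroup M]
    [Module D M] (v : I → M) : ∃ δ : FreeGroup I → M,
      (∀ a b, δ (a * b) = δ a + u a • δ b) ∧ ∀ i, δ (FreeGroup.of i) = v i := by
  let φ : FreeGroup I →* Equiv.Perm M := FreeGroup.lift fun i =>
    (Equiv.addLeft (v i) : Equiv.Perm M) * MulAction.toPerm (u.toHomUnits (FreeGroup.of i))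
  have hof : ∀ i x, φ (FreeGroup.of i) x = v i + u (FreeGroup.of i) • x := fun i x => by
    simp [φ, Units.smul_def]
  have h : ∀ w x y, φ w x - φ w y = u w • (x - y) := by
    intro w
    induction w using FreeGroup.induction_on with
    | C1 => intro x y; simp
    | of i => intro x y; rw [hof, hof, add_sub_add_left_eq_sub, smul_sub]
    | inv_of i ih =>
      intro x y
      have := ih (φ (FreeGroup.of i)⁻¹ x) (φ (FreeGroup.of i)⁻¹ y)
      rw [← Equiv.Perm.mul_apply, ← Equiv.Perm.mul_apply, ← map_mul, mul_inv_cancel, map_one,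
        Equiv.Perm.one_apply, Equiv.Perm.one_apply] at this
      rw [this, ← mul_smul, ← map_mul, inv_mul_cancel, map_one, one_smul]
    | mul a b ha hb =>
      intro x y
      rw [map_mul, Equiv.Perm.mul_apply, Equiv.Perm.mul_apply, ha, hb, map_mul, mul_smul]
  refine ⟨fun w => φ w 0, fun a b => ?_, fun i => by simp only [hof, smul_zero, add_zero]⟩
  have := h a (φ b 0) 0
  rw [sub_zero, sub_eq_iff_eq_add'] at this
  simp only [map_mul, Equiv.Perm.mul_apply, this]

/-- The chains carried by a free basis. -/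
def mrank_sig {I : Type} (f : FreeGroup I →* G) : (I →₀ D) →ₗ[D] (G →₀ D) :=
  Finsupp.linearCombination D fun i => Finsupp.single (f (FreeGroup.of i)) 1

theorem mrank_sig_mem {I : Type} (f : FreeGroup I →* G) (v : I →₀ D) :
    mrank_sig f v ∈ Finsupp.supported D D (f.range : Set G) := by
  rw [mrank_sig, Finsupp.linearCombination_apply]
  refine Submodule.sum_mem _ (fun i _ => Submodule.smul_mem _ _ ?_)
  exact Finsupp.single_mem_supported D _ ⟨_, rfl⟩

theorem mrank_sig_span {I : Type} (f : FreeGroup I →* G) {z : G →₀ D}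
    (hz : z ∈ Finsupp.supported D D (f.range : Set G)) :
    ∃ v, z - mrank_sig f v ∈ Rel ι f.range := by
  have : z ∈ LinearMap.range (mrank_sig (D := D) f) ⊔ Rel ι f.range := by
    rw [← mrank_range_eq] at hz ⊢
    refine mrank_supported_le ι le_sup_right ?_ hz
    rintro _ ⟨i, rfl⟩
    exact Submodule.mem_sup_left ⟨Finsupp.single i 1, by simp [mrank_sig]⟩
  obtain ⟨_, ⟨v, rfl⟩, r, hr, rfl⟩ := Submodule.mem_sup.1 this
  exact ⟨v, by rwa [add_sub_cancel_left]⟩

theorem mrank_sig_inj {I : Type} (f : FreeGroup I →* G) (hf : Function.Injective f) :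
    Function.Injective ((Rel ι f.range).mkQ ∘ₗ mrank_sig f) := by
  obtain ⟨δ, h1, h2⟩ := mrank_exists_der (ι.comp f) (fun i : I => Finsupp.single i (1 : D))
  have hl := Function.leftInverse_invFun hf
  rw [injective_iff_map_eq_zero]
  intro v hv
  rw [LinearMap.comp_apply, Submodule.mkQ_apply, Submodule.Quotient.mk_eq_zero] at hv
  have h0 := linearCombination_eq_zero_of_mem_rel ι (δ := fun a => δ (Function.invFun f a))
    (by
      rintro _ ⟨a, rfl⟩ _ ⟨b, rfl⟩
      rw [← map_mul, hl, hl, hl, h1]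
      rfl) hv
  have h3 : (Finsupp.linearCombination D fun a => δ (Function.invFun f a)) ∘ₗ mrank_sig f
      = LinearMap.id := by
    refine Finsupp.lhom_ext' (fun i => LinearMap.ext_ring ?_)
    simp [mrank_sig, hl (FreeGroup.of i), h2]
  exact (LinearMap.congr_fun h3 v).symm.trans h0

theorem mrank_vv_eq {I : Type} (f : FreeGroup I →* G) : VV ι f.range =
    (LinearMap.ker (bdy ι ∘ₗ mrank_sig f)).map ((Rel ι f.range).mkQ ∘ₗ mrank_sig f) := by
  apply le_antisymm
  · rintro _ ⟨z, hz, rfl⟩
    obtain ⟨v, hv⟩ := mrank_sig_span ι f hz.1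
    refine ⟨v, ?_, ?_⟩
    · have h1 : bdy ι (z - mrank_sig f v) = 0 := (rel_le_zz ι _ hv).2
      have h2 : bdy ι z = 0 := hz.2
      rw [map_sub, h2, zero_sub, neg_eq_zero] at h1
      exact h1
    · exact ((Submodule.Quotient.eq _).2 hv).symm
  · rintro _ ⟨v, hv, rfl⟩
    exact ⟨_, ⟨mrank_sig_mem f v, hv⟩, rfl⟩

/-- The comparison map of first homologies. -/
def mrank_incl {S L : Subgroup G} (h : S ≤ L) : VV ι S →ₗ[D] VV ι L :=
  (Submodule.factor (rel_mono ι h)).restrict (by
    rintro _ ⟨z, hz, rfl⟩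
    exact ⟨z, zz_mono ι h hz, rfl⟩)

/-- The sum of the comparison maps. -/
def mrank_sum {L : Subgroup G} {κ : Type} [Fintype κ] {P : κ → Subgroup G} (hP : ∀ i, P i ≤ L) :
    ((i : κ) → VV ι (P i)) →ₗ[D] VV ι L :=
  ∑ i, mrank_incl ι (hP i) ∘ₗ LinearMap.proj i

theorem mrank_sum_apply {L : Subgroup G} {κ : Type} [Fintype κ] {P : κ → Subgroup G}
    (hP : ∀ i, P i ≤ L) (v : (i : κ) → VV ι (P i)) : ∃ z : κ → (G →₀ D),
      (∀ i, z i ∈ ZZ ι (P i)) ∧ (∀ i, (Rel ι (P i)).mkQ (z i) = v i) ∧
        (Rel ι L).mkQ (∑ i, z i) = mrank_sum ι hP v := by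
  choose z hz1 hz2 using fun i => (v i).2
  refine ⟨z, hz1, hz2, ?_⟩
  rw [mrank_sum, LinearMap.sum_apply, Submodule.coe_sum, map_sum]
  refine Finset.sum_congr rfl (fun i _ => ?_)
  change _ = Submodule.factor (rel_mono ι (hP i)) (v i)
  rw [← hz2, Submodule.factor_mk]

theorem mrank_sum_inj {L : Subgroup G} {κ : Type} [Fintype κ] {P : κ → Subgroup G}
    (hP : ∀ i, P i ≤ L) (h : Ind ι L P) : Function.Injective (mrank_sum ι hP) := by
  let _ : ∀ i, AddCommGroup (VV ι (P i)) := fun i => (VV ι (P i)).addCommGroup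
  rw [injective_iff_map_eq_zero]
  intro v hv
  obtain ⟨z, h1, h2, h3⟩ := mrank_sum_apply ι hP v
  rw [hv, Submodule.coe_zero, Submodule.mkQ_apply, Submodule.Quotient.mk_eq_zero] at h3
  funext i
  apply Subtype.ext
  rw [← h2]
  have h4 : (Rel ι (P i)).mkQ (z i) = 0 := (Submodule.Quotient.mk_eq_zero _).2 (h z h1 h3 i)
  exact h4

end Aux

variable {n : ℕ} {D : Type} [DivisionRing D] (ι : Fr n →* D)

/-- Nielsen-Schreier with the right number of generators (the dimension of the space of
homomorphisms to `ℚ` is the cardinality of a basis and is at most the number of generators). -/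
theorem exists_basis {S : Subgroup (Fr n)} (hS : S.FG) : Nonempty (Fr (rk S) ≃* S) := by
  obtain ⟨I, f, hf, rfl⟩ := mrank_exists_free S
  obtain ⟨hI, e⟩ := mrank_rk_eq f hf hS
  rw [e]
  exact ⟨(FreeGroup.freeGroupCongr (Finite.equivFin I).symm).trans (MonoidHom.ofInjective hf)⟩

theorem rk_top (n : ℕ) : rk (⊤ : Subgroup (Fr n)) = n := by
  have := (mrank_rk_eq (MonoidHom.id (Fr n)) Function.injective_id (mrank_fg_range _)).2
  rwa [MonoidHom.range_eq_top.2 Function.surjective_id, Nat.card_fin] at this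

theorem nonAb_of_two_le_rk {S : Subgroup (Fr n)} (h : 2 ≤ rk S) : NonAb S := by
  classical
  have hS : S.FG := by
    by_contra hS
    have : rk S = 0 := by
      rw [rk, Nat.sInf_eq_zero]
      exact Or.inr (Set.eq_empty_of_forall_notMem (fun k ⟨T, _, hT⟩ => hS ⟨T, hT⟩))
    omega
  obtain ⟨I, f, hf, rfl⟩ := mrank_exists_free S
  obtain ⟨hI, e⟩ := mrank_rk_eq f hf hS
  have : Nontrivial I := Finite.one_lt_card_iff_nontrivial.1 (by omega)
  obtain ⟨i, j, hij⟩ := exists_pair_ne I
  refine ⟨f (FreeGroup.of i), ⟨_, rfl⟩, f (FreeGroup.of j), ⟨_, rfl⟩, fun hc => ?_⟩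
  have h1 : Commute (FreeGroup.of i) (FreeGroup.of j) := hc.of_map hf
  have h2 := h1.map (FreeGroup.lift fun k : I =>
    if k = i then (Equiv.swap 0 1 : Equiv.Perm (Fin 3)) else Equiv.swap 1 2)
  rw [FreeGroup.lift_apply_of, FreeGroup.lift_apply_of, if_pos rfl, if_neg hij.symm] at h2
  exact absurd h2.eq (by decide)

/-- The images of the `single b 1`, `b` in a free basis of `S`, form a basis of the chains
supported in `S` modulo `Rel ι S` (every assignment on the basis extends to a derivation: lift to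
a semidirect product, or to 2 by 2 triangular matrices); the boundary is onto `D`. -/
theorem finrank_vv {S : Subgroup (Fr n)} (hS : S.FG) {p : Fr n} (hp : p ∈ S) (hp1 : ι p ≠ 1) :
    Module.Finite D (VV ι S) ∧ Module.finrank D (VV ι S) + 1 = rk S := by
  obtain ⟨I, f, hf, rfl⟩ := mrank_exists_free S
  obtain ⟨hI, e⟩ := mrank_rk_eq f hf hS
  have E := Submodule.equivMapOfInjective _ (mrank_sig_inj ι f hf)
    (LinearMap.ker (bdy ι ∘ₗ mrank_sig f))
  have hr : LinearMap.range (bdy ι ∘ₗ mrank_sig f) = ⊤ := by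
    obtain ⟨v, hv⟩ := mrank_sig_span ι f (Finsupp.single_mem_supported D (1 : D) hp)
    have h1 : bdy ι (Finsupp.single p 1 - mrank_sig f v) = 0 := (rel_le_zz ι _ hv).2
    have h2 : bdy ι (Finsupp.single p 1) = ι p - 1 := by simp [bdy]
    rw [map_sub, h2, sub_eq_zero] at h1
    rw [eq_top_iff]
    intro d _
    refine ⟨(d * (ι p - 1)⁻¹) • v, ?_⟩
    rw [map_smul, LinearMap.comp_apply, ← h1, smul_eq_mul,
      inv_mul_cancel_right₀ (sub_ne_zero.2 hp1)]
  have h := LinearMap.finrank_range_add_finrank_ker (bdy ι ∘ₗ mrank_sig f)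
  rw [hr, finrank_top, Module.finrank_self,
    Module.finrank_eq_nat_card_basis (Finsupp.basisSingleOne (R := D) (ι := I))] at h
  rw [mrank_vv_eq, e, ← E.finrank_eq]
  exact ⟨Module.Finite.equiv E, by omega⟩

theorem fg_of_finite_vv {S : Subgroup (Fr n)} (h : Module.Finite D (VV ι S)) : S.FG := by
  obtain ⟨I, f, hf, rfl⟩ := mrank_exists_free S
  have E := Submodule.equivMapOfInjective _ (mrank_sig_inj ι f hf)
    (LinearMap.ker (bdy ι ∘ₗ mrank_sig f))
  rw [mrank_vv_eq] at h
  have h1 : Module.Finite D (LinearMap.ker (bdy ι ∘ₗ mrank_sig f)) := Module.Finite.equiv E.symm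
  have : Module.Finite D (I →₀ D) :=
    ⟨Submodule.fg_of_fg_map_of_fg_inf_ker (bdy ι ∘ₗ mrank_sig f) (IsNoetherian.noetherian _)
      (by rw [top_inf_eq]; exact Module.Finite.iff_fg.1 h1)⟩
  have : Finite I := Module.Finite.finite_basis (Finsupp.basisSingleOne (R := D) (ι := I))
  exact mrank_fg_range f

theorem mrank_finrank (hι : Function.Injective ι) {S : Subgroup (Fr n)} (hS : S.FG) :
    Module.Finite D (VV ι S) ∧ Module.finrank D (VV ι S) = rk S - 1 := by
  by_cases h : S = ⊥
  · subst h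
    have : VV ι (⊥ : Subgroup (Fr n)) = ⊥ := by
      rw [eq_bot_iff]
      rintro _ ⟨z, hz, rfl⟩
      exact (Submodule.Quotient.mk_eq_zero _).2 (zz_bot_le ι hz)
    rw [this, rk_bot, finrank_bot]
    exact ⟨inferInstance, rfl⟩
  · obtain ⟨⟨p, hp⟩, hp1⟩ := Subgroup.ne_bot_iff_exists_ne_one.1 h
    obtain ⟨h1, h2⟩ := finrank_vv ι hS hp
      (fun e => hp1 (Subtype.ext (hι (e.trans ι.map_one.symm))))
    exact ⟨h1, by omega⟩

theorem mrank_fin (hι : Function.Injective ι) {L : Subgroup (Fr n)} (hL : L.FG) {κ : Type}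
    [Fintype κ] {P : κ → Subgroup (Fr n)} (hP : ∀ i, P i ≤ L) (h : Ind ι L P) :
    (∀ i, (P i).FG) ∧ Module.finrank D ((i : κ) → VV ι (P i)) = ∑ i, (rk (P i) - 1) := by
  have := (mrank_finrank ι hι hL).1
  have : Module.Finite D ((i : κ) → VV ι (P i)) :=
    Module.Finite.of_injective _ (mrank_sum_inj ι hP h)
  have h1 : ∀ i, Module.Finite D (VV ι (P i)) := fun i =>
    Module.Finite.of_surjective (LinearMap.proj (R := D) (φ := fun i => VV ι (P i)) i)
      (LinearMap.proj_surjective i)
  have h2 : ∀ i, (P i).FG := fun i => fg_of_finite_vv ι (h1 i)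
  refine ⟨h2, ?_⟩
  have h3 : ∀ i, Module.Free D (VV ι (P i)) := fun i => Module.Free.of_divisionRing D _
  rw [Module.finrank_pi_fintype]
  exact Finset.sum_congr rfl (fun i _ => (mrank_finrank ι hι (h2 i)).2)

/-- Independent subgroups of a finitely generated group are finitely generated and the reduced
ranks add up to at most the reduced rank. -/
theorem Ind.rk_le (hι : Function.Injective ι) {L : Subgroup (Fr n)} (hL : L.FG) {κ : Type}
    [Fintype κ] {P : κ → Subgroup (Fr n)} (hP : ∀ i, P i ≤ L) (h : Ind ι L P) :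
    (∀ i, (P i).FG) ∧ ∑ i, (rk (P i) - 1) ≤ rk L - 1 := by
  obtain ⟨h1, h2⟩ := mrank_fin ι hι hL hP h
  obtain ⟨h3, h4⟩ := mrank_finrank ι hι hL
  refine ⟨h1, ?_⟩
  rw [← h2, ← h4]
  exact LinearMap.finrank_le_finrank_of_injective (mrank_sum_inj ι hP h)

/-- Strict drop of the rank when a functional kills the cycles of `P` but not those of `L`. -/
theorem Ind.rk_lt (hι : Function.Injective ι) {L P : Subgroup (Fr n)} (hL : L.FG) (hP : P ≤ L)
    (h : Ind ι L fun _ : Unit => P) (f : (Fr n →₀ D) →ₗ[D] D) (hf : ∀ z ∈ Rel ι L, f z = 0)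
    (hfP : ∀ z ∈ ZZ ι P, f z = 0) (hfL : ∃ z ∈ ZZ ι L, f z ≠ 0) : rk P < rk L := by
  have hP' : ∀ i : Unit, (fun _ : Unit => P) i ≤ L := fun _ => hP
  obtain ⟨-, h2⟩ := mrank_fin ι hι hL hP' h
  obtain ⟨h3, h4⟩ := mrank_finrank ι hι hL
  have hne : LinearMap.range (mrank_sum ι hP') ≠ ⊤ := by
    intro e
    obtain ⟨z, hz, hz0⟩ := hfL
    obtain ⟨v, hv⟩ := LinearMap.range_eq_top.1 e ⟨_, z, hz, rfl⟩
    obtain ⟨y, y1, -, y3⟩ := mrank_sum_apply ι hP' v
    rw [hv] at y3
    have := hf _ ((Submodule.Quotient.eq _).1 y3)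
    rw [map_sub, map_sum, Finset.sum_eq_zero (fun i _ => hfP _ (y1 i)), zero_sub,
      neg_eq_zero] at this
    exact hz0 this
  have := Submodule.finrank_lt hne
  rw [LinearMap.finrank_range_of_inj (mrank_sum_inj ι hP' h), h2, h4, Fintype.sum_unique] at this
  omega

end Pool.Agent.Lib.MP_9ac97d_al
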