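import Pool.Agent.Lib.MP_9ac97d_al.TFilt

/-!
# Filtrations and orders (task TFilt2)
-/

set_option autoImplicit false

noncomputable section

open Pointwise

namespace Pool.Agent.Lib.MP_9ac97d_al

variable {n : ℕ}

/-- A central filtration with rational characters, invariant under `Γ`. -/
structure Filt (Γ : Subgroup (MulAut (Fr n))) (N : ℕ → Subgroup (Fr n)) (χ : ℕ → Fr n → ℚ) :
    Prop where
  zero : N 0 = ⊤
  normal : ∀ j, (N j).Normal
  add : ∀ j, ∀ x ∈ N j, ∀ y ∈ N j, χ j (x * y) = χ j x + χ j y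
  succ : ∀ j x, x ∈ N (j + 1) ↔ x ∈ N j ∧ χ j x = 0
  conj : ∀ j g, ∀ x ∈ N j, χ j (g * x * g⁻¹) = χ j x
  inv : ∀ Φ ∈ Γ, ∀ j, ∀ x ∈ N j, Φ x ∈ N j ∧ χ j (Φ x) = χ j x
  cofinal : ∀ c, ∃ j, (N j : Set (Fr n)) ⊆ Dim (Fr n) c

theorem tfilt2_of_sub_one_mem {G : Type} [Group G] (g : G) :
    MonoidAlgebra.of ℚ G g - 1 ∈ aug G :=
  Submodule.subset_span ⟨g, rfl⟩

theorem tfilt2_mul_right {G : Type} [Group G] {c : ℕ} {x : MonoidAlgebra ℚ G}
    (hx : x ∈ aug G ^ (c + 1)) (g : G) :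
    x * (MonoidAlgebra.of ℚ G g - 1) ∈ aug G ^ (c + 2) := by
  rw [pow_succ (aug G) (c + 1)]
  exact Submodule.mul_mem_mul hx (tfilt2_of_sub_one_mem g)

theorem tfilt2_mul_left {G : Type} [Group G] {c : ℕ} {x : MonoidAlgebra ℚ G}
    (hx : x ∈ aug G ^ (c + 1)) (g : G) :
    (MonoidAlgebra.of ℚ G g - 1) * x ∈ aug G ^ (c + 2) := by
  rw [pow_succ' (aug G) (c + 1)]
  exact Submodule.mul_mem_mul (tfilt2_of_sub_one_mem g) hx

theorem tfilt2_pow_succ_le {G : Type} [Group G] (c : ℕ) :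
    aug G ^ (c + 2) ≤ aug G ^ (c + 1) := by
  rw [pow_succ (aug G) (c + 1), Submodule.mul_le]
  intro x hx y _
  simpa using aug_pow_mul_mem c hx 1 y

theorem tfilt2_pow_anti {G : Type} [Group G] {c d : ℕ} (h : c ≤ d) :
    aug G ^ (d + 1) ≤ aug G ^ (c + 1) := by
  induction h with
  | refl => exact le_rfl
  | step _ ih => exact (tfilt2_pow_succ_le _).trans ih

theorem tfilt2_ringMap_one (Φ : MulAut (Fr n)) : ringMap Φ 1 = 1 := by
  have h := ringMap_of Φ 1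
  rwa [map_one Φ, map_one (MonoidAlgebra.of ℚ (Fr n))] at h

theorem tfilt2_ringMap_mem (Φ : MulAut (Fr n)) (c : ℕ) {x : MonoidAlgebra ℚ (Fr n)}
    (hx : x ∈ aug (Fr n) ^ c) : ringMap Φ x ∈ aug (Fr n) ^ c := by
  have h1 : (aug (Fr n)).map (ringMap Φ) ≤ aug (Fr n) := by
    rw [aug, Submodule.map_span, Submodule.span_le]
    rintro _ ⟨_, ⟨g, rfl⟩, rfl⟩
    rw [SetLike.mem_coe, map_sub, ringMap_of, tfilt2_ringMap_one]
    exact tfilt2_of_sub_one_mem _
  have h2 : (aug (Fr n) ^ c).map (ringMap Φ) = (aug (Fr n)).map (ringMap Φ) ^ c :=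
    Submodule.map_pow _ (MonoidAlgebra.mapDomainAlgHom ℚ ℚ Φ.toMonoidHom) c
  have h3 : (aug (Fr n)).map (ringMap Φ) ^ c ≤ aug (Fr n) ^ c := pow_le_pow_left' h1 c
  exact h3 (h2 ▸ Submodule.mem_map_of_mem hx)

theorem tfilt2_prod_mem (l : List (MulAut (Fr n))) (c : ℕ) {x : MonoidAlgebra ℚ (Fr n)}
    (hx : x ∈ aug (Fr n) ^ c) : (l.map fun Φ => ringMap Φ - 1).prod x ∈ aug (Fr n) ^ c := by
  induction l with
  | nil => simpa using hx
  | cons Φ l ih =>
    rw [List.map_cons, List.prod_cons, Module.End.mul_apply, LinearMap.sub_apply,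
      Module.End.one_apply]
    exact sub_mem (tfilt2_ringMap_mem Φ c ih) ih

/-- The span of the elements `of i - 1`. -/
def tfilt2W (n : ℕ) : Submodule ℚ (MonoidAlgebra ℚ (Fr n)) :=
  Submodule.span ℚ (Set.range fun i : Fin n => MonoidAlgebra.of ℚ (Fr n) (FreeGroup.of i) - 1)

theorem tfilt2W_fg (n : ℕ) : (tfilt2W n).FG :=
  Submodule.fg_span (Set.finite_range _)

theorem tfilt2W_le (n : ℕ) : tfilt2W n ≤ aug (Fr n) := by
  rw [tfilt2W, Submodule.span_le]
  rintro _ ⟨i, rfl⟩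
  exact tfilt2_of_sub_one_mem _

theorem tfilt2_mul_eq {G : Type} [Group G] (g h : G) :
    MonoidAlgebra.of ℚ G (g * h) - 1 =
      (MonoidAlgebra.of ℚ G g - 1) * (MonoidAlgebra.of ℚ G h - 1) +
        (MonoidAlgebra.of ℚ G g - 1) + (MonoidAlgebra.of ℚ G h - 1) := by
  rw [map_mul]
  noncomm_ring

theorem tfilt2_inv_eq {G : Type} [Group G] (g : G) :
    MonoidAlgebra.of ℚ G g⁻¹ - 1 =
      -((MonoidAlgebra.of ℚ G g - 1) * (MonoidAlgebra.of ℚ G g⁻¹ - 1)) -
        (MonoidAlgebra.of ℚ G g - 1) := by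
  have h := tfilt2_mul_eq g g⁻¹
  rw [mul_inv_cancel, map_one, sub_self] at h
  rw [← neg_add']
  exact eq_neg_of_add_eq_zero_right h.symm

theorem tfilt2_aug_le (n : ℕ) : aug (Fr n) ≤ aug (Fr n) ^ 2 ⊔ tfilt2W n := by
  have hm : ∀ g h : Fr n, (MonoidAlgebra.of ℚ (Fr n) g - 1) * (MonoidAlgebra.of ℚ (Fr n) h - 1) ∈
      aug (Fr n) ^ 2 ⊔ tfilt2W n := by
    intro g h
    apply Submodule.mem_sup_left
    rw [pow_two]
    exact Submodule.mul_mem_mul (tfilt2_of_sub_one_mem g) (tfilt2_of_sub_one_mem h)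
  have key : ∀ g : Fr n, MonoidAlgebra.of ℚ (Fr n) g - 1 ∈ aug (Fr n) ^ 2 ⊔ tfilt2W n := by
    intro g
    induction g using FreeGroup.induction_on with
    | C1 => rw [map_one, sub_self]; exact zero_mem _
    | of i => exact Submodule.mem_sup_right (Submodule.subset_span ⟨i, rfl⟩)
    | inv_of i ih =>
      rw [tfilt2_inv_eq]
      exact sub_mem (neg_mem (hm _ _)) ih
    | mul g h hg hh =>
      rw [tfilt2_mul_eq]
      exact add_mem (add_mem (hm _ _) hg) hh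
  nth_rewrite 1 [aug]
  rw [Submodule.span_le]
  rintro _ ⟨g, rfl⟩
  exact key g

theorem tfilt2_pow_le (n c : ℕ) :
    aug (Fr n) ^ (c + 1) ≤ aug (Fr n) ^ (c + 2) ⊔ tfilt2W n ^ (c + 1) := by
  induction c with
  | zero => simpa using tfilt2_aug_le n
  | succ c ih =>
    have h1 : tfilt2W n ^ (c + 1) * aug (Fr n) ≤
        aug (Fr n) ^ (c + 3) ⊔ tfilt2W n ^ (c + 2) := by
      calc tfilt2W n ^ (c + 1) * aug (Fr n)
          ≤ tfilt2W n ^ (c + 1) * (aug (Fr n) ^ 2 ⊔ tfilt2W n) :=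
            mul_le_mul' le_rfl (tfilt2_aug_le n)
        _ = tfilt2W n ^ (c + 1) * aug (Fr n) ^ 2 ⊔ tfilt2W n ^ (c + 2) := by
            rw [Submodule.mul_sup, ← pow_succ]
        _ ≤ aug (Fr n) ^ (c + 1) * aug (Fr n) ^ 2 ⊔ tfilt2W n ^ (c + 2) :=
            sup_le_sup_right (mul_le_mul' (pow_le_pow_left' (tfilt2W_le n) _) le_rfl) _
        _ = aug (Fr n) ^ (c + 3) ⊔ tfilt2W n ^ (c + 2) := by rw [← pow_add]
    calc aug (Fr n) ^ (c + 1 + 1) = aug (Fr n) ^ (c + 1) * aug (Fr n) := pow_succ _ _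
      _ ≤ (aug (Fr n) ^ (c + 2) ⊔ tfilt2W n ^ (c + 1)) * aug (Fr n) := mul_le_mul' ih le_rfl
      _ = aug (Fr n) ^ (c + 3) ⊔ tfilt2W n ^ (c + 1) * aug (Fr n) := by
          rw [Submodule.sup_mul, ← pow_succ]
      _ ≤ aug (Fr n) ^ (c + 3) ⊔ tfilt2W n ^ (c + 2) := sup_le le_sup_left h1

theorem tfilt2_fg (n c : ℕ) :
    ((aug (Fr n) ^ (c + 1)).map (aug (Fr n) ^ (c + 2)).mkQ).FG := by
  have h1 : (aug (Fr n) ^ (c + 1)).map (aug (Fr n) ^ (c + 2)).mkQ =
      (tfilt2W n ^ (c + 1)).map (aug (Fr n) ^ (c + 2)).mkQ := by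
    apply le_antisymm
    · refine (Submodule.map_mono (tfilt2_pow_le n c)).trans ?_
      rw [Submodule.map_sup, Submodule.mkQ_map_self, bot_sup_eq]
    · exact Submodule.map_mono (pow_le_pow_left' (tfilt2W_le n) _)
  rw [h1]
  exact ((tfilt2W_fg n).pow _).map _

/-- The dimension of the image in the quotient drops along strict inclusions. -/
theorem tfilt2_finrank_lt {V : Type} [AddCommGroup V] [Module ℚ V] {A B I J : Submodule ℚ V}
    (hA : (A.map B.mkQ).FG) (hI : I ≤ A) (hJ : B ≤ J) (hJI : J < I) :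
    Module.finrank ℚ (J.map B.mkQ) < Module.finrank ℚ (I.map B.mkQ) := by
  have : Module.Finite ℚ (A.map B.mkQ) := Module.Finite.iff_fg.mpr hA
  have : Module.Finite ℚ (I.map B.mkQ) :=
    Submodule.finiteDimensional_of_le (Submodule.map_mono hI)
  apply Submodule.finrank_lt_finrank_of_lt
  refine lt_of_le_of_ne (Submodule.map_mono hJI.le) fun h => hJI.ne ?_
  have h2 := congrArg (Submodule.comap B.mkQ) h
  rw [Submodule.comap_map_mkQ, Submodule.comap_map_mkQ, sup_eq_right.mpr hJ,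
    sup_eq_right.mpr (hJ.trans hJI.le)] at h2
  exact h2

/-- A state of the construction. -/
def tfilt2St (Γ : Subgroup (MulAut (Fr n))) (c : ℕ)
    (I : Submodule ℚ (MonoidAlgebra ℚ (Fr n))) : Prop :=
  aug (Fr n) ^ (c + 2) ≤ I ∧ I ≤ aug (Fr n) ^ (c + 1) ∧ ∀ Φ ∈ Γ, ∀ x ∈ I, ringMap Φ x ∈ I

theorem tfilt2_exists_fun {Γ : Subgroup (MulAut (Fr n))}
    (hΓ : Unip (matHom n '' (Γ : Set (MulAut (Fr n))))) {c : ℕ}
    {I : Submodule ℚ (MonoidAlgebra ℚ (Fr n))} (hI : tfilt2St Γ c I)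
    (hne : ¬ I ≤ aug (Fr n) ^ (c + 2)) :
    ∃ f : MonoidAlgebra ℚ (Fr n) →ₗ[ℚ] ℚ, (∃ x ∈ I, f x ≠ 0) ∧
      aug (Fr n) ^ (c + 2) ≤ LinearMap.ker f ∧
      ∀ Φ ∈ Γ, ∀ x ∈ I, f (ringMap Φ x) = f x := by
  obtain ⟨-, hI2, -⟩ := hI
  let J : Submodule ℚ (MonoidAlgebra ℚ (Fr n)) :=
    aug (Fr n) ^ (c + 2) ⊔ Submodule.span ℚ {y | ∃ Φ ∈ Γ, ∃ x ∈ I, y = (ringMap Φ - 1) x}
  have hJ : ¬ I ≤ J := by
    intro hIJ
    apply hne
    obtain ⟨k, hk⟩ := unip_aug hΓ c
    have key : ∀ k : ℕ, (∀ l : List (MulAut (Fr n)), (∀ Φ ∈ l, Φ ∈ Γ) → k ≤ l.length →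
        ∀ x ∈ I, (l.map fun Φ => ringMap Φ - 1).prod x ∈ aug (Fr n) ^ (c + 2)) →
        I ≤ aug (Fr n) ^ (c + 2) := by
      intro k
      induction k with
      | zero =>
        intro h x hx
        simpa using h [] (by simp) le_rfl x hx
      | succ k ih =>
        intro h
        apply ih
        intro l hl hlen x hx
        have hle : J ≤ (aug (Fr n) ^ (c + 2)).comap (l.map fun Φ => ringMap Φ - 1).prod := by
          apply sup_le
          · intro y hy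
            exact tfilt2_prod_mem l _ hy
          · rw [Submodule.span_le]
            rintro _ ⟨Φ, hΦ, y, hy, rfl⟩
            have h2 := h (l ++ [Φ]) (by
              intro Ψ hΨ
              rcases List.mem_append.mp hΨ with h3 | h3
              · exact hl Ψ h3
              · rw [List.mem_singleton.mp h3]; exact hΦ) (by simpa using hlen) y hy
            rw [List.map_append, List.prod_append, List.map_singleton, List.prod_singleton,
              Module.End.mul_apply] at h2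
            exact h2
        exact hle (hIJ hx)
    exact key k fun l hl hlen x hx => hk l hl hlen x (hI2 hx)
  obtain ⟨x, hx, hxJ⟩ := SetLike.not_le_iff_exists.mp hJ
  obtain ⟨f, hfx, hf⟩ := Submodule.exists_le_ker_of_notMem hxJ
  refine ⟨f, ⟨x, hx, hfx⟩, le_sup_left.trans hf, fun Φ hΦ y hy => ?_⟩
  have h1 : (ringMap Φ - 1) y ∈ J :=
    Submodule.mem_sup_right (Submodule.subset_span ⟨Φ, hΦ, y, hy, rfl⟩)
  have h2 := hf h1
  rw [LinearMap.mem_ker, LinearMap.sub_apply, Module.End.one_apply, map_sub] at h2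
  exact sub_eq_zero.mp h2

theorem tfilt2_step {Γ : Subgroup (MulAut (Fr n))}
    (hΓ : Unip (matHom n '' (Γ : Set (MulAut (Fr n)))))
    (s : {p : ℕ × Submodule ℚ (MonoidAlgebra ℚ (Fr n)) // tfilt2St Γ p.1 p.2}) :
    ∃ f : MonoidAlgebra ℚ (Fr n) →ₗ[ℚ] ℚ,
      ∃ t : {p : ℕ × Submodule ℚ (MonoidAlgebra ℚ (Fr n)) // tfilt2St Γ p.1 p.2},
        t.1.2 = s.1.2 ⊓ LinearMap.ker f ∧ aug (Fr n) ^ (s.1.1 + 2) ≤ LinearMap.ker f ∧
        (∀ Φ ∈ Γ, ∀ x ∈ s.1.2, f (ringMap Φ x) = f x) ∧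
        (t.1.1 = s.1.1 + 1 ∨ (t.1.1 = s.1.1 ∧ t.1.2 < s.1.2)) := by
  obtain ⟨⟨c, I⟩, hI⟩ := s
  dsimp only at hI ⊢
  by_cases hne : I ≤ aug (Fr n) ^ (c + 2)
  · refine ⟨0, ⟨(c + 1, I), (tfilt2_pow_succ_le (c + 1)).trans hI.1, hne, hI.2.2⟩, ?_, ?_, ?_,
      Or.inl rfl⟩
    · simp
    · simp
    · simp
  · obtain ⟨f, ⟨x, hx, hfx⟩, hf1, hf2⟩ := tfilt2_exists_fun hΓ hI hne
    refine ⟨f, ⟨(c, I ⊓ LinearMap.ker f), le_inf hI.1 hf1, inf_le_left.trans hI.2.1, ?_⟩, rfl,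
      hf1, hf2, Or.inr ⟨rfl, ?_⟩⟩
    · intro Φ hΦ y hy
      refine ⟨hI.2.2 Φ hΦ y hy.1, ?_⟩
      have h1 : f y = 0 := hy.2
      change f (ringMap Φ y) = 0
      rw [hf2 Φ hΦ y hy.1, h1]
    · refine lt_of_le_of_ne inf_le_left fun h => hfx ?_
      have h1 : x ∈ I ⊓ LinearMap.ker f := by
        dsimp only at h
        rw [h]
        exact hx
      exact h1.2

theorem tfilt2_seq {Γ : Subgroup (MulAut (Fr n))}
    (hΓ : Unip (matHom n '' (Γ : Set (MulAut (Fr n))))) :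
    ∃ (c : ℕ → ℕ) (I : ℕ → Submodule ℚ (MonoidAlgebra ℚ (Fr n)))
      (f : ℕ → MonoidAlgebra ℚ (Fr n) →ₗ[ℚ] ℚ), I 0 = aug (Fr n) ∧
      (∀ j, tfilt2St Γ (c j) (I j)) ∧ (∀ j, I (j + 1) = I j ⊓ LinearMap.ker (f j)) ∧
      (∀ j, aug (Fr n) ^ (c j + 2) ≤ LinearMap.ker (f j)) ∧
      (∀ j, ∀ Φ ∈ Γ, ∀ x ∈ I j, f j (ringMap Φ x) = f j x) ∧ ∀ d, ∃ j, c j = d := by
  choose F T h1 h2 h3 h4 using tfilt2_step hΓ
  have h0 : tfilt2St Γ 0 (aug (Fr n)) := by
    refine ⟨?_, ?_, ?_⟩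
    · simpa using tfilt2_pow_succ_le (G := Fr n) 0
    · simp
    · intro Φ _ x hx
      simpa using tfilt2_ringMap_mem Φ 1 (x := x) (by simpa using hx)
  let s : ℕ → {p : ℕ × Submodule ℚ (MonoidAlgebra ℚ (Fr n)) // tfilt2St Γ p.1 p.2} :=
    fun j => T^[j] ⟨(0, aug (Fr n)), h0⟩
  have hs : ∀ j, s (j + 1) = T (s j) := fun j => Function.iterate_succ_apply' _ _ _
  refine ⟨fun j => (s j).1.1, fun j => (s j).1.2, fun j => F (s j), rfl, fun j => (s j).2,
    fun j => ?_, fun j => h2 _, fun j => h3 _, fun d => ?_⟩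
  · dsimp only
    rw [hs, h1]
  · dsimp only
    induction d with
    | zero => exact ⟨0, rfl⟩
    | succ d ih =>
      have key : ∀ m j : ℕ, (s j).1.1 = d →
          Module.finrank ℚ ((s j).1.2.map (aug (Fr n) ^ (d + 2)).mkQ) < m →
          ∃ j, (s j).1.1 = d + 1 := by
        intro m
        induction m with
        | zero => intro j _ h; exact absurd h (Nat.not_lt_zero _)
        | succ m ihm =>
          intro j hj hm
          rcases h4 (s j) with h | ⟨h, h'⟩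
          · exact ⟨j + 1, by rw [hs, h, hj]⟩
          · rw [← hs] at h h'
            refine ihm (j + 1) (h.trans hj) ?_
            have hA := (s j).2.2.1
            have hB := (s (j + 1)).2.1
            rw [hj] at hA
            rw [h, hj] at hB
            have := tfilt2_finrank_lt (tfilt2_fg n d) hA hB h'
            omega
      obtain ⟨j, hj⟩ := ih
      exact key _ j hj (Nat.lt_succ_self _)

theorem tfilt2_conj_eq {G : Type} [Group G] (g x : G) :
    MonoidAlgebra.of ℚ G (g * x * g⁻¹) - 1 =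
      (MonoidAlgebra.of ℚ G g - 1) * (MonoidAlgebra.of ℚ G x - 1) * MonoidAlgebra.of ℚ G g⁻¹ +
        (MonoidAlgebra.of ℚ G x - 1) * (MonoidAlgebra.of ℚ G g⁻¹ - 1) +
        (MonoidAlgebra.of ℚ G x - 1) := by
  have h : MonoidAlgebra.of ℚ G g * MonoidAlgebra.of ℚ G g⁻¹ = 1 := by
    rw [← map_mul, mul_inv_cancel, map_one]
  rw [map_mul, map_mul]
  nth_rewrite 1 [← h]
  noncomm_ring

theorem tfilt2_conj_mem {G : Type} [Group G] {c : ℕ} (g x : G)
    (hx : MonoidAlgebra.of ℚ G x - 1 ∈ aug G ^ (c + 1)) :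
    ∃ y ∈ aug G ^ (c + 2),
      MonoidAlgebra.of ℚ G (g * x * g⁻¹) - 1 = y + (MonoidAlgebra.of ℚ G x - 1) := by
  refine ⟨_, ?_, tfilt2_conj_eq g x⟩
  refine add_mem ?_ (tfilt2_mul_right hx _)
  simpa using aug_pow_mul_mem (c + 1) (tfilt2_mul_left hx g) 1 (MonoidAlgebra.of ℚ G g⁻¹)

/-- Refine the chain of the powers of `aug` (the quotients are finite dimensional, spanned by
monomials in the `of i - 1`) by `Γ`-invariant subspaces `I j` with `I (j + 1)` the kernel of a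
functional `f j` on `I j` that kills `aug ^ (c + 2)` and all `(ringMap Φ - 1) x`, where
`aug ^ (c + 2) ≤ I j ≤ aug ^ (c + 1)`; by `unip_aug` such a functional can be chosen nonzero when
`I j ≠ aug ^ (c + 2)`. Put `N j = {g | g - 1 ∈ I j}` and `χ j g = f j (g - 1)`; note
`g h - 1 = (g - 1) (h - 1) + (g - 1) + (h - 1)`. Trivial steps (`χ j = 0`) are allowed. -/
theorem exists_filt {Γ : Subgroup (MulAut (Fr n))} (hΓ : Unip (matHom n '' (Γ : Set (MulAut (Fr n))))) :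
    ∃ N χ, Filt Γ N χ := by
  obtain ⟨c, I, f, h0, hst, hsucc, hker, hinv, hcof⟩ := tfilt2_seq hΓ
  let N : ℕ → Subgroup (Fr n) := fun j =>
    { carrier := {g | MonoidAlgebra.of ℚ (Fr n) g - 1 ∈ I j}
      mul_mem' := by
        intro a b ha hb
        change MonoidAlgebra.of ℚ (Fr n) (a * b) - 1 ∈ I j
        rw [tfilt2_mul_eq]
        exact add_mem (add_mem ((hst j).1 (tfilt2_mul_right ((hst j).2.1 ha) b)) ha) hb
      one_mem' := by
        change MonoidAlgebra.of ℚ (Fr n) 1 - 1 ∈ I j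
        rw [map_one, sub_self]
        exact zero_mem _
      inv_mem' := by
        intro a ha
        change MonoidAlgebra.of ℚ (Fr n) a⁻¹ - 1 ∈ I j
        rw [tfilt2_inv_eq]
        exact sub_mem (neg_mem ((hst j).1 (tfilt2_mul_right ((hst j).2.1 ha) _))) ha }
  have hN : ∀ j g, g ∈ N j ↔ MonoidAlgebra.of ℚ (Fr n) g - 1 ∈ I j := fun _ _ => Iff.rfl
  have hmap : ∀ (Φ : MulAut (Fr n)) (g : Fr n), MonoidAlgebra.of ℚ (Fr n) (Φ g) - 1 =
      ringMap Φ (MonoidAlgebra.of ℚ (Fr n) g - 1) := by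
    intro Φ g
    rw [map_sub, ringMap_of, tfilt2_ringMap_one]
  refine ⟨N, fun j g => f j (MonoidAlgebra.of ℚ (Fr n) g - 1), ?_, ?_, ?_, ?_, ?_, ?_, ?_⟩
  · rw [eq_top_iff]
    intro g _
    rw [hN, h0]
    exact tfilt2_of_sub_one_mem g
  · intro j
    refine ⟨fun x hx g => ?_⟩
    rw [hN] at hx ⊢
    obtain ⟨y, hy, h⟩ := tfilt2_conj_mem g x ((hst j).2.1 hx)
    rw [h]
    exact add_mem ((hst j).1 hy) hx
  · intro j x hx y _
    rw [hN] at hx
    have h1 : f j ((MonoidAlgebra.of ℚ (Fr n) x - 1) * (MonoidAlgebra.of ℚ (Fr n) y - 1)) = 0 :=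
      hker j (tfilt2_mul_right ((hst j).2.1 hx) y)
    rw [tfilt2_mul_eq, map_add, map_add, h1, zero_add]
  · intro j x
    rw [hN, hN, hsucc]
    exact Iff.rfl
  · intro j g x hx
    rw [hN] at hx
    obtain ⟨y, hy, h⟩ := tfilt2_conj_mem g x ((hst j).2.1 hx)
    have h1 : f j y = 0 := hker j hy
    rw [h, map_add, h1, zero_add]
  · intro Φ hΦ j x hx
    rw [hN] at hx
    rw [hN, hmap]
    exact ⟨(hst j).2.2 Φ hΦ _ hx, hinv j Φ hΦ _ hx⟩
  · intro d
    obtain ⟨j, hj⟩ := hcof d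
    refine ⟨j, fun g hg => ?_⟩
    have h1 := (hst j).2.1 ((hN j g).mp hg)
    rw [hj] at h1
    exact h1

/-- `g > 1` iff `χ j g > 0` for the level `j` with `g ∈ N j`, `g ∉ N (j + 1)`. -/
theorem Filt.exists_order {Γ : Subgroup (MulAut (Fr n))} {N : ℕ → Subgroup (Fr n)}
    {χ : ℕ → Fr n → ℚ} (h : Filt Γ N χ) : ∃ o : BiOrd (Fr n), ∀ Φ ∈ Γ, o.Pres Φ := by
  have hanti : ∀ i j, i ≤ j → N j ≤ N i := by
    intro i j hij
    induction hij with
    | refl => exact le_rfl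
    | step _ ih => exact fun x hx => ih ((h.succ _ x).mp hx).1
  have hlow : ∀ i j, i < j → ∀ x ∈ N j, x ∈ N i ∧ χ i x = 0 := fun i j hij x hx =>
    (h.succ i x).mp (hanti (i + 1) j hij hx)
  have hone : ∀ j, χ j 1 = 0 := by
    intro j
    have h1 := h.add j 1 (one_mem _) 1 (one_mem _)
    rw [one_mul] at h1
    linarith
  have hpres : ∀ Φ ∈ Γ, ∀ g, (∃ j, g ∈ N j ∧ 0 < χ j g) → ∃ j, Φ g ∈ N j ∧ 0 < χ j (Φ g) := by
    rintro Φ hΦ g ⟨j, hg, hpos⟩
    obtain ⟨h1, h2⟩ := h.inv Φ hΦ j g hg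
    exact ⟨j, h1, by rwa [h2]⟩
  refine ⟨⟨{g | ∃ j, g ∈ N j ∧ 0 < χ j g}, ?_, ?_, ?_, ?_⟩, ?_⟩
  · rintro x ⟨i, hx, hxp⟩ y ⟨j, hy, hyp⟩
    rcases lt_trichotomy i j with hij | rfl | hij
    · obtain ⟨h1, h2⟩ := hlow i j hij y hy
      exact ⟨i, mul_mem hx h1, by rw [h.add i x hx y h1]; linarith⟩
    · exact ⟨i, mul_mem hx hy, by rw [h.add i x hx y hy]; linarith⟩
    · obtain ⟨h1, h2⟩ := hlow j i hij x hx
      exact ⟨j, mul_mem h1 hy, by rw [h.add j x h1 y hy]; linarith⟩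
  · rintro g x ⟨j, hx, hxp⟩
    exact ⟨j, (h.normal j).conj_mem x hx g, by rwa [h.conj j g x hx]⟩
  · intro g
    by_cases hg : g = 1
    · exact Or.inl hg
    right
    have hex : ∃ j, g ∈ N j ∧ χ j g ≠ 0 := by
      by_contra hcon
      apply hg
      have hall : ∀ j, g ∈ N j := by
        intro j
        induction j with
        | zero => rw [h.zero]; exact Subgroup.mem_top g
        | succ j ih =>
          refine (h.succ j g).mpr ⟨ih, ?_⟩
          by_contra hne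
          exact hcon ⟨j, ih, hne⟩
      apply eq_one_of_mem_dim
      intro c
      obtain ⟨j, hj⟩ := h.cofinal c
      exact hj (hall j)
    obtain ⟨j, hj, hne⟩ := hex
    rcases lt_or_gt_of_ne hne with hlt | hgt
    · right
      refine ⟨j, inv_mem hj, ?_⟩
      have h1 := h.add j g hj g⁻¹ (inv_mem hj)
      rw [mul_inv_cancel, hone] at h1
      linarith
    · exact Or.inl ⟨j, hj, hgt⟩
  · rintro ⟨j, -, hj⟩
    rw [hone] at hj
    exact lt_irrefl _ hj
  · intro Φ hΦ g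
    refine ⟨fun hg => ?_, hpres Φ hΦ g⟩
    have h1 := hpres Φ⁻¹ (inv_mem hΦ) (Φ g) hg
    rwa [MulAut.inv_apply_self] at h1

theorem exists_order {Γ : Subgroup (MulAut (Fr n))} (hΓ : Unip (matHom n '' (Γ : Set (MulAut (Fr n))))) :
    ∃ o : BiOrd (Fr n), ∀ Φ ∈ Γ, o.Pres Φ := by
  obtain ⟨N, χ, h⟩ := exists_filt hΓ
  exact h.exists_order

theorem nonempty_biOrd (n : ℕ) : Nonempty (BiOrd (Fr n)) := by
  have hΓ : Unip (matHom n '' ((⊥ : Subgroup (MulAut (Fr n))) : Set (MulAut (Fr n)))) := by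
    intro l hl hlen
    cases l with
    | nil =>
      obtain rfl : n = 0 := hlen.symm
      exact Subsingleton.elim _ _
    | cons A l =>
      obtain ⟨Φ, hΦ, rfl⟩ := hl A List.mem_cons_self
      rw [SetLike.mem_coe, Subgroup.mem_bot] at hΦ
      rw [List.map_cons, List.prod_cons, hΦ, map_one, sub_self, zero_mul]
  obtain ⟨o, -⟩ := exists_order hΓ
  exact ⟨o⟩

theorem tfilt2_binom {A : Type} [Ring A] (D : A) (m : ℕ) :
    ∃ E : A, Commute D E ∧ (D + 1) ^ m = 1 + m • D + D ^ 2 * E := by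
  induction m with
  | zero => exact ⟨0, Commute.zero_right _, by simp⟩
  | succ m ih =>
    obtain ⟨E, hE, h⟩ := ih
    refine ⟨E * D + E + m • 1, ?_, ?_⟩
    · exact ((hE.mul_right (Commute.refl D)).add_right hE).add_right
        ((Commute.one_right D).smul_right m)
    · rw [pow_succ, h]
      simp only [add_mul, mul_add, one_mul, mul_one, smul_mul_assoc, mul_smul_comm, add_smul,
        one_smul, pow_two, mul_assoc]
      abel

theorem tfilt2_ringMap_pow (Φ : MulAut (Fr n)) (m : ℕ) (g : Fr n) :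
    (ringMap Φ ^ m) (MonoidAlgebra.of ℚ (Fr n) g) = MonoidAlgebra.of ℚ (Fr n) ((Φ ^ m) g) := by
  induction m with
  | zero => simp
  | succ m ih => rw [pow_succ', Module.End.mul_apply, ih, ringMap_of, pow_succ', MulAut.mul_apply]

theorem tfilt2_nilp {Φ : MulAut (Fr n)}
    (hΦ : Unip (matHom n '' (Subgroup.zpowers Φ : Set (MulAut (Fr n))))) (c : ℕ) :
    ∃ k : ℕ, ∀ x, ((ringMap Φ - 1) ^ (k + 1)) x ∈ aug (Fr n) ^ (c + 1) := by
  induction c with
  | zero =>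
    refine ⟨0, fun x => ?_⟩
    rw [zero_add, pow_one, pow_one]
    induction x using MonoidAlgebra.induction_on with
    | of g =>
      rw [LinearMap.sub_apply, Module.End.one_apply, ringMap_of, ← sub_sub_sub_cancel_right _ _ 1]
      exact sub_mem (tfilt2_of_sub_one_mem _) (tfilt2_of_sub_one_mem _)
    | add x y hx hy => rw [map_add]; exact add_mem hx hy
    | smul r x hx => rw [map_smul]; exact Submodule.smul_mem _ r hx
  | succ c ih =>
    obtain ⟨k, hk⟩ := ih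
    obtain ⟨k', hk'⟩ := unip_aug hΦ c
    refine ⟨k' + k, fun x => ?_⟩
    have h1 := hk' (List.replicate k' Φ) (by
      intro Ψ hΨ
      rw [List.eq_of_mem_replicate hΨ]
      exact Subgroup.mem_zpowers Φ) (by simp) _ (hk x)
    rw [List.map_replicate, List.prod_replicate, ← Module.End.mul_apply, ← pow_add] at h1
    exact h1

theorem tfilt2_desc {V : Type} [AddCommGroup V] [Module ℚ V] (D : Module.End ℚ V)
    (Q : Submodule ℚ V) {m : ℕ} (hm : m ≠ 0) (h : ∀ x, ((D + 1) ^ m - 1) x ∈ Q) (k : ℕ)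
    (hk : ∀ x, (D ^ (k + 1)) x ∈ Q) (x : V) : D x ∈ Q := by
  obtain ⟨E, hE, hD⟩ := tfilt2_binom D m
  induction k with
  | zero => simpa using hk x
  | succ k ih =>
    apply ih
    intro y
    have h1 : ((D + 1) ^ m - 1) * D ^ k = m • D ^ (k + 1) + D ^ (k + 1 + 1) * E := by
      rw [hD, add_assoc, add_sub_cancel_left, add_mul, smul_mul_assoc, ← pow_succ', mul_assoc,
        ← (hE.pow_left k).eq, ← mul_assoc, ← pow_add, add_comm 2 k]
    have h2 := h ((D ^ k) y)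
    rw [← Module.End.mul_apply, h1, LinearMap.add_apply, LinearMap.smul_apply,
      Module.End.mul_apply] at h2
    have h3 := sub_mem h2 (hk (E y))
    rw [add_sub_cancel_right, ← Nat.cast_smul_eq_nsmul ℚ] at h3
    exact (Q.smul_mem_iff (Nat.cast_ne_zero.mpr hm)).mp h3

/-- With `T` from `exists_trace`: modulo `(s - 1) ^ (c + 1)`, `T` kills `aug ^ (c + 1)` and
`T ∘ (A ^ m - 1) = 0` for `A = ringMap Φ`. On the quotient by `aug ^ (c + 1)` the operator `A - 1` is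
nilpotent (`unip_aug`), so `1 + A + ... + A ^ (m - 1)` is surjective there, and
`T ∘ (A - 1) = 0`. Conclude with `laurent_eq_zero`. -/
theorem tl_eq_of_pow_inner {Φ : MulAut (Fr n)} 
    (hΦ : Unip (matHom n '' (Subgroup.zpowers Φ : Set (MulAut (Fr n)))))
    (h : ∀ c, ∃ m : ℕ, m ≠ 0 ∧ ∃ g : Fr n, ∀ w, (Φ ^ m) w * (g * w * g⁻¹)⁻¹ ∈ Dim (Fr n) c)
    (w : Fr n) : tl (Φ w) = tl w := by
  obtain ⟨T, hT1, hT2, hT3⟩ := exists_trace n
  have hzero : T ((ringMap Φ - 1) (MonoidAlgebra.of ℚ (Fr n) w)) = 0 := by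
    apply laurent_eq_zero
    intro c
    let Q : Submodule ℚ (MonoidAlgebra ℚ (Fr n)) :=
      { carrier := {x | (LaurentPolynomial.T 1 - 1) ^ (c + 1) ∣ T x}
        add_mem' := by
          intro a b ha hb
          change _ ∣ T (a + b)
          rw [map_add]
          exact dvd_add ha hb
        zero_mem' := by
          change _ ∣ T 0
          rw [map_zero]
          exact dvd_zero _
        smul_mem' := by
          intro r a ha
          change _ ∣ T (r • a)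
          rw [map_smul, Algebra.smul_def]
          exact Dvd.dvd.mul_left ha _ }
    have hQ : ∀ x, x ∈ Q ↔ (LaurentPolynomial.T 1 - 1) ^ (c + 1) ∣ T x := fun _ => Iff.rfl
    obtain ⟨m, hm, g, hg⟩ := h c
    obtain ⟨k, hk⟩ := tfilt2_nilp hΦ c
    rw [← hQ]
    refine tfilt2_desc (ringMap Φ - 1) Q hm (fun x => ?_) k (fun x => hT2 c _ (hk x)) _
    rw [sub_add_cancel]
    induction x using MonoidAlgebra.induction_on with
    | of v =>
      have h1 := aug_pow_mul_mem c (hg v) 1 (MonoidAlgebra.of ℚ (Fr n) (g * v * g⁻¹))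
      rw [one_mul, sub_mul, one_mul, ← map_mul, inv_mul_cancel_right] at h1
      have h2 := hT2 c _ h1
      have h3 : T (MonoidAlgebra.of ℚ (Fr n) (g * v * g⁻¹)) = T (MonoidAlgebra.of ℚ (Fr n) v) := by
        rw [map_mul, hT1, ← map_mul, inv_mul_cancel_left]
      rw [map_sub, h3] at h2
      rw [hQ, LinearMap.sub_apply, Module.End.one_apply, tfilt2_ringMap_pow, map_sub]
      exact h2
    | add x y hx hy => rw [map_add]; exact add_mem hx hy
    | smul r x hx => rw [map_smul]; exact Submodule.smul_mem _ r hx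
  rw [LinearMap.sub_apply, Module.End.one_apply, ringMap_of, map_sub, sub_eq_zero] at hzero
  rcases lt_trichotomy (tl (Φ w)) (tl w) with hlt | heq | hlt
  · exfalso
    apply (hT3 w).1
    rw [← hzero]
    exact (hT3 (Φ w)).2 _ (by exact_mod_cast hlt)
  · exact heq
  · exfalso
    apply (hT3 (Φ w)).1
    rw [hzero]
    exact (hT3 w).2 _ (by exact_mod_cast hlt)

end Pool.Agent.Lib.MP_9ac97d_al
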