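import Pool.Agent.Lib.MP_9ac97d_al.MFlux
import Pool.Agent.Lib.MP_9ac97d_al.TFilt2

/-!
# Good systems: forests, twists, meets (task MSys)
-/

set_option autoImplicit false

noncomputable section

open Pointwise

namespace Pool.Agent.Lib.MP_9ac97d_al

variable {n : ℕ} {N : Subgroup (Fr n)}

theorem msys_ne_bot {S : Subgroup (Fr n)} (h : NonAb S) : S ≠ ⊥ := by
  rintro rfl
  obtain ⟨a, ha, b, -, hab⟩ := h
  rw [Subgroup.mem_bot] at ha
  subst ha
  exact hab (Commute.one_left b)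

theorem msys_nonAb_mono {S T : Subgroup (Fr n)} (h : NonAb S) (hST : S ≤ T) : NonAb T := by
  obtain ⟨a, ha, b, hb, hab⟩ := h
  exact ⟨a, hST ha, b, hST hb, hab⟩

theorem msys_nonConj_unit (L : Subgroup (Fr n)) (P : Unit → Subgroup (Fr n)) : NonConj L P :=
  fun _ _ _ _ _ => rfl

theorem msys_ind_fsys {R : Set (Fr n × Fin n)} (hR : RInv N R) {L : Subgroup (Fr n)} (hL : L ≤ N)
    {D : Type} [DivisionRing D] (ι : Fr n →* D) {κ : Type} [Fintype κ] (y : κ → Fr n)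
    (hc : NonConj L fun i => stabC N R (y i)) : Ind ι L fun i => stabC L R (y i) := by
  refine ind_stabC ι (hR.mono hL) y fun i j l hl hs => hc i j l hl ?_
  show MulAut.conj l • stabC N R (y i) = stabC N R (y j)
  rw [stabC_conj hR (hL hl), stabC_congr hR hs]

/-- Use `ind_stabC`, `stabC_inf`; for the drop take an edge of the minimal subtree of `L` that is
removed (`le_stabC`, `same_of_inf_ne_bot`), `exists_coef_ne_zero` over the Malcev-Neumann field of
any order (`nonempty_biOrd`), and `Ind.rk_lt`. If no edge of the minimal subtree of `L` is removed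
then `P ⊓ L = ⊥`. -/
theorem goodSys_fsys {R : Set (Fr n × Fin n)} (hR : RInv N R) : GoodSys N (fsys N R) := by
  refine ⟨?_, ?_, ?_, ?_, ?_, ?_⟩
  · rintro _ ⟨y, rfl⟩
    exact stabC_le hR y
  · rintro _ ⟨y, rfl⟩ g hg
    exact ⟨g * y, (stabC_conj hR hg y).symm⟩
  · rintro _ ⟨y, rfl⟩ _ ⟨y', rfl⟩ h
    exact stabC_congr hR (same_of_inf_ne_bot hR h)
  · rintro _ ⟨y, rfl⟩ h g hg he
    rw [stabC_conj hR hg] at he
    refine (mem_stabC hR).2 ⟨hg, same_of_inf_ne_bot hR ?_⟩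
    rwa [he, inf_idem]
  · intro L hL D _ ι κ _ P hP hc
    choose y hy using hP
    have h1 : (fun i => P i ⊓ L) = fun i => stabC L R (y i) :=
      funext fun i => by rw [← hy i, stabC_inf hR hL]
    have h2 : P = fun i => stabC N R (y i) := funext fun i => (hy i).symm
    rw [h1]
    exact msys_ind_fsys hR hL ι y (h2 ▸ hc)
  · rintro L hL hfg hna _ ⟨y, rfl⟩ hle
    by_cases hex : ∃ p ∈ R, Ess L p.1 (p.1 * FreeGroup.of p.2)
    · obtain ⟨p, hp, hE⟩ := hex
      obtain ⟨o⟩ := nonempty_biOrd n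
      rw [stabC_inf hR hL]
      exact Ind.rk_lt (MN.of o) MN.of_injective hfg (stabC_le (hR.mono hL) y)
        (msys_ind_fsys hR hL (MN.of o) (fun _ : Unit => y) (msys_nonConj_unit _ _))
        (coef (MN.of o) L p.1 p.2) (fun z hz => coef_eq_zero_of_mem_rel _ _ _ hz)
        (fun z hz => coef_eq_zero_of_removed _ (hR.mono hL) hp y hz)
        (exists_coef_ne_zero o hna hE)
    · push Not at hex
      obtain ⟨y', hy'⟩ := tt_nonempty (msys_ne_bot hna)
      have h1 := le_stabC hR hL hex hy'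
      have h2 : stabC N R y ⊓ L = ⊥ := by
        by_contra h
        have h3 : stabC N R y ⊓ stabC N R y' ≠ ⊥ := fun h' =>
          h (le_bot_iff.1 (h' ▸ inf_le_inf_left _ h1))
        exact hle (stabC_congr hR (same_of_inf_ne_bot hR h3) ▸ h1)
      have h3 := nonAb_iff_two_le_rk' hfg hna
      rw [h2, rk_bot]
      omega

theorem msys_finrank {R : Set (Fr n × Fin n)} (hR : RInv N R) {V : ℕ} (hV : Cocpt N R V)
    {D : Type} [DivisionRing D] (ι : Fr n →* D) {κ : Type} [Fintype κ] (y : κ → Fr n)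
    (hc : NonConj N fun i => stabC N R (y i)) :
    Module.Finite D (∀ i, VV ι (stabC N R (y i))) ∧
      Module.finrank D (∀ i, VV ι (stabC N R (y i))) ≤ V := by
  classical
  obtain ⟨Ω, hΩ, hcov⟩ := hV
  let Ψ : (Fr n →₀ D) →ₗ[D] (Ω → D) := LinearMap.pi fun q => coef ι N q.1.1 q.1.2
  have hker : ∀ i, Rel ι (stabC N R (y i)) ≤ LinearMap.ker Ψ := by
    intro i z hz
    rw [LinearMap.mem_ker]
    funext q
    exact coef_eq_zero_of_mem_rel ι _ _ (rel_mono ι (stabC_le hR _) hz)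
  let Φ : (∀ i, VV ι (stabC N R (y i))) →ₗ[D] (Ω → D) :=
    ∑ i, (((Rel ι (stabC N R (y i))).liftQ Ψ (hker i)).comp (VV ι (stabC N R (y i))).subtype).comp
      (LinearMap.proj i)
  have hinj : Function.Injective Φ := by
    let _ : ∀ i, AddCommGroup (VV ι (stabC N R (y i))) := fun i => inferInstance
    refine (injective_iff_map_eq_zero Φ).2 fun v hv => ?_
    have hz : ∀ i, ∃ z ∈ ZZ ι (stabC N R (y i)), (Rel ι (stabC N R (y i))).mkQ z = (v i).1 :=
      fun i => (v i).2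
    choose z hz hzv using hz
    have h1 : Ψ (∑ i, z i) = 0 := by
      rw [map_sum, ← hv]
      simp only [Φ, LinearMap.sum_apply, LinearMap.comp_apply, LinearMap.proj_apply,
        Submodule.subtype_apply, ← hzv, Submodule.mkQ_apply, Submodule.liftQ_apply]
    have h2 : ∑ i, z i ∈ Rel ι N := by
      refine mem_rel_of_coef ι (Submodule.sum_mem _ fun i _ => (zz_mono ι (stabC_le hR _) (hz i)).1)
        fun x i => ?_
      by_cases hx : (x, i) ∈ R
      · rw [map_sum]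
        exact Finset.sum_eq_zero fun j _ => coef_eq_zero_of_removed ι hR hx (y j) (hz j)
      · obtain ⟨g, hg, q, hq, he⟩ := hcov _ hx
        obtain ⟨rfl, rfl⟩ := Prod.mk.inj he
        have h3 : coef ι N q.1 q.2 (∑ i, z i) = 0 := congrFun h1 ⟨q, hq⟩
        rw [coef_mul ι hg, h3, zero_mul]
    have h3 := msys_ind_fsys hR le_rfl ι y hc z hz h2
    funext i
    apply Subtype.ext
    rw [← hzv i]
    exact (Submodule.Quotient.mk_eq_zero _).2 (h3 i)
  refine ⟨Module.Finite.of_injective Φ hinj, ?_⟩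
  refine (LinearMap.finrank_le_finrank_of_injective hinj).trans ?_
  rw [Module.finrank_fintype_fun_eq_card, Fintype.card_coe]
  exact hΩ

/-- The cycles of all components map independently to the cycles of `N`, where they have zero
coefficients at the removed edges, so they embed in `D ^ Ω` (`mem_rel_of_coef`, `coef_mul`). -/
theorem bddSys_fsys {R : Set (Fr n × Fin n)} (hR : RInv N R) {V : ℕ} (hV : Cocpt N R V) :
    BddSys N (fsys N R) V := by
  obtain ⟨o⟩ := nonempty_biOrd n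
  have hfin : ∀ y, Module.Finite (MN o) (VV (MN.of o) (stabC N R y)) := by
    intro y
    have h := (msys_finrank hR hV (MN.of o) (fun _ : Unit => y) (msys_nonConj_unit _ _)).1
    exact Module.Finite.of_surjective
      (LinearMap.proj (R := MN o) (φ := fun _ : Unit => VV (MN.of o) (stabC N R y)) ())
      (LinearMap.proj_surjective ())
  have hfg : ∀ y, (stabC N R y).FG := fun y => fg_of_finite_vv (MN.of o) (hfin y)
  refine ⟨?_, fun κ _ P hP hc => ?_⟩
  · rintro _ ⟨y, rfl⟩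
    exact hfg y
  · choose y hy using hP
    have h2 : P = fun i => stabC N R (y i) := funext fun i => (hy i).symm
    subst h2
    have h := (msys_finrank hR hV (MN.of o) y hc).2
    have : ∀ i, Module.Free (MN o) (VV (MN.of o) (stabC N R (y i))) :=
      fun i => Module.Free.of_divisionRing _ _
    have : ∀ i, Module.Finite (MN o) (VV (MN.of o) (stabC N R (y i))) := fun i => hfin _
    rw [Module.finrank_pi_fintype] at h
    refine le_trans (Finset.sum_le_sum fun i _ => ?_) h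
    show rk (stabC N R (y i)) - 1 ≤ _
    by_cases hb : stabC N R (y i) = ⊥
    · have h3 : rk (stabC N R (y i)) = 0 := by rw [hb, rk_bot]
      omega
    · obtain ⟨⟨p, hp⟩, hp1⟩ := (Subgroup.ne_bot_iff_exists_ne_one).1 hb
      have hp2 : MN.of o p ≠ 1 := fun h' =>
        hp1 (Subtype.ext (MN.of_injective (h'.trans (map_one _).symm)))
      have h3 := (finrank_vv (MN.of o) (hfg (y i)) hp hp2).2
      omega

theorem msys_conj_smul (Φ : MulAut (Fr n)) (g : Fr n) (P : Subgroup (Fr n)) :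
    MulAut.conj (Φ g) • Φ • P = Φ • MulAut.conj g • P := by
  rw [smul_smul, smul_smul]
  congr 1
  ext x
  simp

theorem msys_mem_smul {Φ : MulAut (Fr n)} {g : Fr n} {P : Subgroup (Fr n)} :
    Φ g ∈ Φ • P ↔ g ∈ P :=
  Subgroup.smul_mem_pointwise_smul_iff (a := Φ) (S := P) (x := g)

theorem msys_fg_smul (Φ : MulAut (Fr n)) {L : Subgroup (Fr n)} (h : L.FG) : (Φ • L).FG := by
  obtain ⟨T, hT, hf⟩ := (Subgroup.fg_iff _).1 h
  refine (Subgroup.fg_iff _).2 ⟨Φ • T, ?_, hf.smul_set⟩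
  rw [← hT, Subgroup.smul_closure]

theorem msys_nonAb_smul (Φ : MulAut (Fr n)) {L : Subgroup (Fr n)} (h : NonAb L) :
    NonAb (Φ • L) := by
  obtain ⟨a, ha, b, hb, hab⟩ := h
  refine ⟨Φ a, msys_mem_smul.2 ha, Φ b, msys_mem_smul.2 hb, fun hc => hab ?_⟩
  apply Φ.injective
  rw [map_mul, map_mul]
  exact hc

theorem GoodSys.smul {PP : Set (Subgroup (Fr n))} (h : GoodSys N PP) {Φ : MulAut (Fr n)}
    (hΦ : Φ • N = N) : GoodSys N (Φ • PP) := by
  have hle : ∀ L, Φ • L ≤ N → L ≤ N := fun L hL => by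
    rw [← hΦ] at hL
    exact Subgroup.pointwise_smul_le_pointwise_smul_iff.1 hL
  have hmem : ∀ g, Φ g ∈ N → g ∈ N := fun g hg => by
    rw [← hΦ] at hg
    exact msys_mem_smul.1 hg
  refine ⟨?_, ?_, ?_, ?_, ?_, ?_⟩
  · rintro _ ⟨P, hP, rfl⟩
    rw [← hΦ]
    exact Subgroup.pointwise_smul_le_pointwise_smul_iff.2 (h.le P hP)
  · rintro _ ⟨P, hP, rfl⟩ g hg
    obtain ⟨g, rfl⟩ := Φ.surjective g
    exact ⟨_, h.conj P hP g (hmem g hg), (msys_conj_smul Φ g P).symm⟩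
  · rintro _ ⟨P, hP, rfl⟩ _ ⟨P', hP', rfl⟩ hne
    have h1 : P ⊓ P' ≠ ⊥ := fun h0 => hne (by
      show Φ • P ⊓ Φ • P' = ⊥
      rw [← Subgroup.smul_inf, h0, Subgroup.smul_bot])
    rw [h.eq_of_inf P hP P' hP' h1]
  · rintro _ ⟨P, hP, rfl⟩ hne g hg he
    obtain ⟨g, rfl⟩ := Φ.surjective g
    have h1 : P ≠ ⊥ := fun h0 => hne (by
      show Φ • P = ⊥
      rw [h0, Subgroup.smul_bot])
    have h2 : Φ • MulAut.conj g • P = Φ • P := (msys_conj_smul Φ g P).symm.trans he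
    exact msys_mem_smul.2 (h.mal P hP h1 g (hmem g hg) (smul_left_cancel Φ h2))
  · intro L hL D _ ι κ _ P hP hc
    obtain ⟨L, rfl⟩ : ∃ L', Φ • L' = L := ⟨Φ⁻¹ • L, smul_inv_smul Φ L⟩
    choose P' hP' hPP using hP
    have h1 : (fun i => P i ⊓ Φ • L) = fun i => Φ • (P' i ⊓ L) :=
      funext fun i => by rw [Subgroup.smul_inf, ← hPP i]
    rw [h1, ind_smul_iff]
    refine h.ind L (hle L hL) D _ κ P' hP' fun i j l hl he => hc i j (Φ l) (msys_mem_smul.2 hl) ?_
    rw [← hPP i, ← hPP j]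
    show MulAut.conj (Φ l) • Φ • P' i = Φ • P' j
    rw [msys_conj_smul, he]
  · rintro L hL hfg hna _ ⟨P, hP, rfl⟩ hne
    obtain ⟨L, rfl⟩ : ∃ L', Φ • L' = L := ⟨Φ⁻¹ • L, smul_inv_smul Φ L⟩
    have h1 := msys_fg_smul Φ⁻¹ hfg
    have h2 := msys_nonAb_smul Φ⁻¹ hna
    rw [inv_smul_smul] at h1 h2
    show rk (Φ • P ⊓ Φ • L) < rk (Φ • L)
    rw [← Subgroup.smul_inf, rk_smul, rk_smul]
    exact h.drop L (hle L hL) h1 h2 P hP fun h3 =>
      hne (Subgroup.pointwise_smul_le_pointwise_smul_iff.2 h3)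

theorem msys_eq_bot_of_rk {L : Subgroup (Fr n)} (hfg : L.FG) (h : rk L = 0) : L = ⊥ := by
  obtain ⟨T, hT⟩ := hfg
  have h1 : rk L ∈ {k | ∃ T : Finset (Fr n), T.card = k ∧ Subgroup.closure (T : Set (Fr n)) = L} :=
    Nat.sInf_mem ⟨T.card, T, rfl, hT⟩
  obtain ⟨T', h2, h3⟩ := h1
  rw [h, Finset.card_eq_zero] at h2
  subst h2
  rw [← h3, Finset.coe_empty, Subgroup.closure_empty]

theorem GoodSys.fg_inf {PP : Set (Subgroup (Fr n))} (h : GoodSys N PP) {L : Subgroup (Fr n)}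
    (hL : L ≤ N) (hfg : L.FG) {P : Subgroup (Fr n)} (hP : P ∈ PP) :
    (P ⊓ L).FG ∧ rk (P ⊓ L) ≤ rk L := by
  obtain ⟨o⟩ := nonempty_biOrd n
  have h1 := h.ind L hL (MN o) (MN.of o) Unit (fun _ => P) (fun _ => hP) (msys_nonConj_unit _ _)
  obtain ⟨h2, h3⟩ := Ind.rk_le (MN.of o) MN.of_injective hfg (fun _ => inf_le_right) h1
  refine ⟨h2 (), ?_⟩
  rw [Fintype.sum_unique] at h3
  by_cases h0 : rk L = 0
  · rw [msys_eq_bot_of_rk hfg h0, inf_bot_eq]
  · omega

theorem msys_conj_self {P : Subgroup (Fr n)} {g : Fr n} (hg : g ∈ P) : MulAut.conj g • P = P :=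
  Subgroup.conj_smul_eq_self_of_mem hg

/-- Representatives of the conjugacy classes in a finite family. -/
theorem msys_group (L : Subgroup (Fr n)) {κ' : Type} [Finite κ'] (P : κ' → Subgroup (Fr n)) :
    ∃ (κ : Type) (_ : Fintype κ) (f : κ' → κ) (r : κ → κ') (l : κ' → Fr n),
      NonConj L (fun c => P (r c)) ∧ (∀ j, l j ∈ L) ∧
        ∀ j, MulAut.conj (l j) • P j = P (r (f j)) := by
  let s : Setoid κ' :=
    { r := fun j j' => ∃ l ∈ L, MulAut.conj l • P j = P j'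
      iseqv :=
        { refl := fun j => ⟨1, L.one_mem, by rw [map_one, one_smul]⟩
          symm := by
            rintro j j' ⟨l, hl, h⟩
            exact ⟨l⁻¹, L.inv_mem hl, by rw [← h, map_inv, inv_smul_smul]⟩
          trans := by
            rintro j j' j'' ⟨l, hl, h⟩ ⟨l', hl', h'⟩
            exact ⟨l' * l, L.mul_mem hl' hl, by rw [map_mul, mul_smul, h, h']⟩ } }
  have h1 : ∀ j, ∃ l ∈ L, MulAut.conj l • P j = P (Quotient.mk s j).out := fun j =>
    s.symm (Quotient.mk_out j)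
  choose l hl hl' using h1
  refine ⟨Quotient s, Fintype.ofFinite _, Quotient.mk s, Quotient.out, l, ?_, hl, hl'⟩
  intro c c' g hg he
  rw [← c.out_eq, ← c'.out_eq]
  exact Quotient.sound ⟨g, hg, he⟩

theorem msys_fiber {QQ : Set (Subgroup (Fr n))} (h' : GoodSys N QQ) {L : Subgroup (Fr n)}
    (hL : L ≤ N) {D : Type} [DivisionRing D] (ι : Fr n →* D) {κ κ' : Type} (f : κ' → κ)
    (P Q : κ' → Subgroup (Fr n)) (hQ : ∀ j, Q j ∈ QQ) (hc : NonConj L fun j => P j ⊓ Q j)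
    (P' : κ → Subgroup (Fr n)) (l : κ' → Fr n) (hl : ∀ j, l j ∈ L)
    (hP : ∀ j, MulAut.conj (l j) • P j = P' (f j)) (c : κ) [Fintype {j // f j = c}] :
    Ind ι (P' c ⊓ L) fun j : {j // f j = c} => MulAut.conj (l j) • (P j ⊓ Q j ⊓ L) := by
  have h1 : (fun j : {j // f j = c} => MulAut.conj (l j) • (P j ⊓ Q j ⊓ L)) =
      fun j : {j // f j = c} => MulAut.conj (l j) • Q j ⊓ (P' c ⊓ L) := by
    funext j
    rw [Subgroup.smul_inf, Subgroup.smul_inf, hP, j.2, msys_conj_self (hl j), inf_comm (P' c),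
      inf_assoc]
  rw [h1]
  refine h'.ind _ (inf_le_right.trans hL) D ι {j // f j = c}
    (fun j => MulAut.conj (l j) • Q j) (fun j => h'.conj _ (hQ j) _ (hL (hl j)))
    fun j j' m hm he => Subtype.ext ?_
  refine hc j j' ((l j')⁻¹ * m * l j) (L.mul_mem (L.mul_mem (L.inv_mem (hl j')) hm.2) (hl j)) ?_
  have he' : MulAut.conj m • MulAut.conj (l j) • Q j = MulAut.conj (l j') • Q j' := he
  have hj' : P' c = MulAut.conj (l j') • P j' := by rw [hP, j'.2]
  show MulAut.conj ((l j')⁻¹ * m * l j) • (P j ⊓ Q j) = P j' ⊓ Q j'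
  rw [Subgroup.smul_inf, map_mul, map_mul, mul_smul, mul_smul, mul_smul, mul_smul, he', hP, j.2,
    msys_conj_self hm.1, hj', map_inv, inv_smul_smul, inv_smul_smul]

/-- Group the members by the `L`-conjugacy class of the first factor and use `Ind.conj`,
`Ind.trans`. -/
theorem GoodSys.meet {PP QQ : Set (Subgroup (Fr n))} (h : GoodSys N PP) (h' : GoodSys N QQ) :
    GoodSys N (meet PP QQ) := by
  refine ⟨?_, ?_, ?_, ?_, ?_, ?_⟩
  · rintro _ ⟨P, hP, Q, -, rfl⟩
    exact inf_le_left.trans (h.le P hP)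
  · rintro _ ⟨P, hP, Q, hQ, rfl⟩ g hg
    exact ⟨_, h.conj P hP g hg, _, h'.conj Q hQ g hg, Subgroup.smul_inf _ _ _⟩
  · rintro _ ⟨P, hP, Q, hQ, rfl⟩ _ ⟨P', hP', Q', hQ', rfl⟩ hne
    have h1 : P ⊓ P' ≠ ⊥ := fun h0 =>
      hne (le_bot_iff.1 (h0 ▸ inf_le_inf inf_le_left inf_le_left))
    have h2 : Q ⊓ Q' ≠ ⊥ := fun h0 =>
      hne (le_bot_iff.1 (h0 ▸ inf_le_inf inf_le_right inf_le_right))
    rw [h.eq_of_inf P hP P' hP' h1, h'.eq_of_inf Q hQ Q' hQ' h2]
  · rintro _ ⟨P, hP, Q, hQ, rfl⟩ hne g hg he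
    rw [Subgroup.smul_inf] at he
    have h1 : MulAut.conj g • P ⊓ P ≠ ⊥ := fun h0 =>
      hne (le_bot_iff.1 (h0 ▸ le_inf (he.ge.trans inf_le_left) inf_le_left))
    have h2 : MulAut.conj g • Q ⊓ Q ≠ ⊥ := fun h0 =>
      hne (le_bot_iff.1 (h0 ▸ le_inf (he.ge.trans inf_le_right) inf_le_right))
    have h3 : P ≠ ⊥ := fun h0 => hne (by rw [h0, bot_inf_eq])
    have h4 : Q ≠ ⊥ := fun h0 => hne (by rw [h0, inf_bot_eq])
    exact ⟨h.mal P hP h3 g hg (h.eq_of_inf _ (h.conj P hP g hg) P hP h1),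
      h'.mal Q hQ h4 g hg (h'.eq_of_inf _ (h'.conj Q hQ g hg) Q hQ h2)⟩
  · intro L hL D _ ι κ' _ R hR hc
    classical
    choose P hP Q hQ hPQ using hR
    have h0 : R = fun j => P j ⊓ Q j := funext hPQ
    subst h0
    obtain ⟨κ, _, f, r, l, hnc, hl, hlP⟩ := msys_group L P
    have h1 := h.ind L hL D ι κ (fun c => P (r c)) (fun c => hP _) hnc
    have hle : ∀ j, MulAut.conj (l j) • (P j ⊓ Q j ⊓ L) ≤ P (r (f j)) ⊓ L := fun j => by
      rw [Subgroup.smul_inf, Subgroup.smul_inf, hlP, msys_conj_self (hl j)]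
      exact inf_le_inf_right _ inf_le_left
    have h2 : Ind ι L fun j => MulAut.conj (l j) • (P j ⊓ Q j ⊓ L) :=
      Ind.trans ι f h1 hle fun c =>
        msys_fiber h' hL ι f P Q hQ hc (fun c => P (r c)) l hl hlP c
    have h3 := Ind.conj ι h2 (fun j => (hle j).trans inf_le_right) (fun j => (l j)⁻¹)
      fun j => L.inv_mem (hl j)
    simpa only [map_inv, inv_smul_smul] using h3
  · rintro L hL hfg hna _ ⟨P, hP, Q, hQ, rfl⟩ hne
    by_cases hLP : L ≤ P
    · have h1 : P ⊓ Q ⊓ L = Q ⊓ L := by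
        rw [inf_comm P Q, inf_assoc, inf_eq_right.2 hLP]
      rw [h1]
      exact h'.drop L hL hfg hna Q hQ fun h2 => hne (le_inf hLP h2)
    · have h1 := h.drop L hL hfg hna P hP hLP
      have h2 := (h'.fg_inf (inf_le_right.trans hL) (h.fg_inf hL hfg hP).1 hQ).2
      rw [inf_comm P Q, inf_assoc]
      exact h2.trans_lt h1

theorem BddSys.meet {PP QQ : Set (Subgroup (Fr n))} {V : ℕ} (hb : BddSys N PP V)
    (h : GoodSys N PP) (h' : GoodSys N QQ) : BddSys N (meet PP QQ) V := by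
  refine ⟨?_, fun κ' _ R hR hc => ?_⟩
  · rintro _ ⟨P, hP, Q, hQ, rfl⟩
    rw [inf_comm]
    exact (h'.fg_inf (h.le P hP) (hb.1 P hP) hQ).1
  · classical
    obtain ⟨o⟩ := nonempty_biOrd n
    choose P hP Q hQ hPQ using hR
    have h0 : R = fun j => P j ⊓ Q j := funext hPQ
    subst h0
    obtain ⟨κ, _, f, r, l, hnc, hl, hlP⟩ := msys_group N P
    refine le_trans ?_ (hb.2 κ (fun c => P (r c)) (fun c => hP _) hnc)
    rw [← Fintype.sum_fiberwise f]
    refine Finset.sum_le_sum fun c _ => ?_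
    have h1 := msys_fiber h' le_rfl (MN.of o) f P Q hQ hc (fun c => P (r c)) l hl hlP c
    have h2 : P (r c) ⊓ N = P (r c) := inf_eq_left.2 (h.le _ (hP _))
    have h3 : ∀ j, P j ⊓ Q j ⊓ N = P j ⊓ Q j := fun j =>
      inf_eq_left.2 (inf_le_left.trans (h.le _ (hP j)))
    simp only [h2, h3] at h1
    have h4 := (Ind.rk_le (MN.of o) MN.of_injective (hb.1 _ (hP (r c))) (fun j => by
      rw [Subgroup.smul_inf, hlP, j.2]
      exact inf_le_left) h1).2
    simpa only [rk_smul] using h4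

theorem msys_finset_sys {Θ : Type} (PP : Θ → Set (Subgroup (Fr n)))
    (hPP : ∀ θ, GoodSys N (PP θ)) (θ₀ : Θ) {V : ℕ} (hb : BddSys N (PP θ₀) V) (s : Finset Θ) :
    ∃ QQ, GoodSys N QQ ∧ BddSys N QQ V ∧
      ∀ P : Θ → Subgroup (Fr n), (∀ θ, P θ ∈ PP θ) → P θ₀ ⊓ s.inf P ∈ QQ := by
  classical
  induction s using Finset.induction_on with
  | empty => exact ⟨PP θ₀, hPP θ₀, hb, fun P hP => by simpa using hP θ₀⟩
  | insert θ s _ ih =>
    obtain ⟨QQ, h1, h2, h3⟩ := ih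
    refine ⟨meet QQ (PP θ), h1.meet (hPP θ), h2.meet h1 (hPP θ), fun P hP => ?_⟩
    refine ⟨_, h3 P hP, _, hP θ, ?_⟩
    rw [Finset.inf_insert, inf_comm (P θ), inf_assoc]

theorem msys_iInf_eq {Θ : Type} (PP : Θ → Set (Subgroup (Fr n)))
    (hPP : ∀ θ, GoodSys N (PP θ)) (θ₀ : Θ) {V : ℕ} (hb : BddSys N (PP θ₀) V)
    (P : Θ → Subgroup (Fr n)) (hP : ∀ θ, P θ ∈ PP θ) (hna : NonAb (⨅ θ, P θ)) :
    ∃ s : Finset Θ, P θ₀ ⊓ s.inf P ≤ ⨅ θ, P θ := by
  classical
  obtain ⟨s, hs⟩ : ∃ s : Finset Θ, ∀ t : Finset Θ, rk (P θ₀ ⊓ s.inf P) ≤ rk (P θ₀ ⊓ t.inf P) :=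
    ⟨Function.argmin fun t : Finset Θ => rk (P θ₀ ⊓ t.inf P), fun t =>
      Function.argmin_le (fun t : Finset Θ => rk (P θ₀ ⊓ t.inf P)) t⟩
  refine ⟨s, le_iInf fun θ => ?_⟩
  by_contra hne
  obtain ⟨QQ, h1, h2, h3⟩ := msys_finset_sys PP hPP θ₀ hb s
  have h4 : (⨅ θ, P θ) ≤ P θ₀ ⊓ s.inf P :=
    le_inf (iInf_le _ θ₀) (Finset.le_inf fun θ _ => iInf_le _ θ)
  have h5 := (hPP θ).drop _ (h1.le _ (h3 P hP)) (h2.1 _ (h3 P hP)) (msys_nonAb_mono hna h4) _
    (hP θ) hne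
  have h6 := hs (insert θ s)
  rw [Finset.inf_insert, inf_left_comm] at h6
  omega

/-- An arbitrary intersection of members of good systems containing a nonabelian group is a finite
intersection (take a finite intersection of minimal rank). Moreover finitely many such
intersections belong to a common good system, which refines any finite subfamily. -/
theorem exists_common_sys {Θ : Type} (PP : Θ → Set (Subgroup (Fr n)))
    (hPP : ∀ θ, GoodSys N (PP θ)) (θ₀ : Θ) {V : ℕ} (hb : BddSys N (PP θ₀) V) {κ : Type}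
    [Finite κ] (P : κ → Θ → Subgroup (Fr n)) (hP : ∀ i θ, P i θ ∈ PP θ)
    (hna : ∀ i, NonAb (⨅ θ, P i θ)) :
    ∃ QQ, GoodSys N QQ ∧ BddSys N QQ V ∧ ∀ i, (⨅ θ, P i θ) ∈ QQ := by
  classical
  have := Fintype.ofFinite κ
  choose s hs using fun i => msys_iInf_eq PP hPP θ₀ hb (P i) (hP i) (hna i)
  obtain ⟨QQ, h1, h2, h3⟩ := msys_finset_sys PP hPP θ₀ hb (Finset.univ.biUnion s)
  refine ⟨QQ, h1, h2, fun i => ?_⟩
  have h4 : (⨅ θ, P i θ) = P i θ₀ ⊓ (Finset.univ.biUnion s).inf (P i) := by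
    refine le_antisymm (le_inf (iInf_le _ θ₀) (Finset.le_inf fun θ _ => iInf_le _ θ)) ?_
    exact (inf_le_inf_left _ (Finset.inf_mono
      (Finset.subset_biUnion_of_mem s (Finset.mem_univ i)))).trans (hs i)
  rw [h4]
  exact h3 (P i) (hP i)

/-- A bounded system has finitely many conjugacy classes of nonabelian members. -/
theorem BddSys.finite_classes {PP : Set (Subgroup (Fr n))} {V : ℕ} (hb : BddSys N PP V)
    {κ : Type} [Fintype κ] (P : κ → Subgroup (Fr n)) (hP : ∀ i, P i ∈ PP) (hna : ∀ i, NonAb (P i))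
    (hc : NonConj N P) : Fintype.card κ ≤ V := by
  refine le_trans ?_ (hb.2 κ P hP hc)
  rw [← Finset.card_univ, Finset.card_eq_sum_ones]
  refine Finset.sum_le_sum fun i _ => ?_
  have h := nonAb_iff_two_le_rk' (hb.1 _ (hP i)) (hna i)
  omega

end Pool.Agent.Lib.MP_9ac97d_al
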