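import Pool.Agent.Lib.MP_9ac97d_al.Tree

/-!
# First homology with coefficients in a skew field: definitions
-/

set_option autoImplicit false

noncomputable section

open Pointwise

namespace Pool.Agent.Lib.MP_9ac97d_al

section General

variable {G D : Type} [Group G] [DivisionRing D] (ι : G →* D)

/-- The boundary map `[a] ↦ ι a - 1`. -/
def bdy : (G →₀ D) →ₗ[D] D := Finsupp.linearCombination D fun a => ι a - 1

/-- Cycles supported in `S`. -/
def ZZ (S : Subgroup G) : Submodule D (G →₀ D) :=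
  Finsupp.supported D D (S : Set G) ⊓ LinearMap.ker (bdy ι)

/-- The relations `[a b] - [a] - a [b]`, `a, b ∈ S`. -/
def Rel (S : Subgroup G) : Submodule D (G →₀ D) :=
  Submodule.span D {x | ∃ a ∈ S, ∃ b ∈ S,
    x = Finsupp.single (a * b) 1 - Finsupp.single a 1 - Finsupp.single b (ι a)}

/-- The first homology of `S`, as a subspace of the quotient by the relations. -/
def VV (S : Subgroup G) : Submodule D ((G →₀ D) ⧸ Rel ι S) := (ZZ ι S).map (Rel ι S).mkQ

/-- The first homologies of the `P i` map injectively and independently to that of `L`. -/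
def Ind (L : Subgroup G) {κ : Type} [Fintype κ] (P : κ → Subgroup G) : Prop :=
  ∀ z : κ → (G →₀ D), (∀ i, z i ∈ ZZ ι (P i)) → ∑ i, z i ∈ Rel ι L → ∀ i, z i ∈ Rel ι (P i)

/-- Transport of chains along conjugation: `[a] ↦ l⁻¹ [l a l⁻¹]`. -/
def tau (l : G) : (G →₀ D) →ₗ[D] (G →₀ D) :=
  Finsupp.linearCombination D fun a => Finsupp.single (l * a * l⁻¹) (ι l⁻¹)

end General

/-- The subgroups `P i` are pairwise not conjugate under `L`. -/
def NonConj {G : Type} [Group G] (L : Subgroup G) {κ : Type} (P : κ → Subgroup G) : Prop :=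
  ∀ i j, ∀ l ∈ L, MulAut.conj l • P i = P j → i = j

variable {n : ℕ}

open Classical in
/-- Signed number of crossings of the edge `l (x, x * of i)` by the geodesic from `1` to `a`,
for `l ∈ L`. -/
def cf (L : Subgroup (Fr n)) (x : Fr n) (i : Fin n) (a l : Fr n) : ℤ :=
  if l ∈ L then
    (if l⁻¹ * a ∈ Half x (x * FreeGroup.of i) then 1 else 0) -
      (if l⁻¹ ∈ Half x (x * FreeGroup.of i) then 1 else 0)
  else 0

/-- The derivation attached to the `L`-orbit of the edge `(x, x * of i)`. -/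
def der {D : Type} [DivisionRing D] (ι : Fr n →* D) (L : Subgroup (Fr n)) (x : Fr n) (i : Fin n)
    (a : Fr n) : D :=
  ∑ᶠ l : Fr n, (cf L x i a l : D) * ι l

/-- The coefficient of a chain at the `L`-orbit of the edge `(x, x * of i)`. -/
def coef {D : Type} [DivisionRing D] (ι : Fr n →* D) (L : Subgroup (Fr n)) (x : Fr n)
    (i : Fin n) : (Fr n →₀ D) →ₗ[D] D :=
  Finsupp.linearCombination D (der ι L x i)

/-- A family of subgroups of `N` that behaves like a free factor system. -/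
structure GoodSys (N : Subgroup (Fr n)) (PP : Set (Subgroup (Fr n))) : Prop where
  le : ∀ P ∈ PP, P ≤ N
  conj : ∀ P ∈ PP, ∀ g ∈ N, MulAut.conj g • P ∈ PP
  eq_of_inf : ∀ P ∈ PP, ∀ P' ∈ PP, P ⊓ P' ≠ ⊥ → P = P'
  mal : ∀ P ∈ PP, P ≠ ⊥ → ∀ g ∈ N, MulAut.conj g • P = P → g ∈ P
  ind : ∀ L ≤ N, ∀ (D : Type) [DivisionRing D] (ι : Fr n →* D) (κ : Type) [Fintype κ]
    (P : κ → Subgroup (Fr n)), (∀ i, P i ∈ PP) → NonConj L P → Ind ι L fun i => P i ⊓ L
  drop : ∀ L ≤ N, L.FG → NonAb L → ∀ P ∈ PP, ¬ L ≤ P → rk (P ⊓ L) < rk L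

/-- The members are finitely generated and the sum of their reduced ranks is at most `V`. -/
def BddSys (N : Subgroup (Fr n)) (PP : Set (Subgroup (Fr n))) (V : ℕ) : Prop :=
  (∀ P ∈ PP, P.FG) ∧ ∀ (κ : Type) [Fintype κ] (P : κ → Subgroup (Fr n)), (∀ i, P i ∈ PP) →
    NonConj N P → ∑ i, (rk (P i) - 1) ≤ V

/-- The meet of two families. -/
def meet (PP QQ : Set (Subgroup (Fr n))) : Set (Subgroup (Fr n)) :=
  {R | ∃ P ∈ PP, ∃ Q ∈ QQ, R = P ⊓ Q}

end Pool.Agent.Lib.MP_9ac97d_al
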