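import Pool.Agent.Lib.MP_9ac97d_al.MNApi
import Pool.Agent.Lib.MP_9ac97d_al.GWolf

/-!
# The Ore condition (task Ore)
-/

set_option autoImplicit false

noncomputable section

open Pointwise

namespace Pool.Agent.Lib.MP_9ac97d_al

/-- Left Ore condition for a subring of a skew field. -/
def LOre {D : Type} [DivisionRing D] (R : Subring D) : Prop :=
  ∀ p ∈ R, ∀ q ∈ R, q ≠ 0 → ∃ r ∈ R, ∃ r' ∈ R, r ≠ 0 ∧ r * p = r' * q

section

variable {D : Type} [DivisionRing D] {R : Subring D}

/-- The left fractions form a skew subfield. -/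
theorem LOre.exists_subfield (h : LOre R) :
    ∃ Q : Subfield D, ∀ x, x ∈ Q ↔ ∃ q ∈ R, q ≠ 0 ∧ q * x ∈ R := by
  refine ⟨{ carrier := {x | ∃ q ∈ R, q ≠ 0 ∧ q * x ∈ R}
            mul_mem' := ?_
            one_mem' := ⟨1, R.one_mem, one_ne_zero, by rw [one_mul]; exact R.one_mem⟩
            add_mem' := ?_
            zero_mem' := ⟨1, R.one_mem, one_ne_zero, by rw [mul_zero]; exact R.zero_mem⟩
            neg_mem' := ?_
            inv_mem' := ?_ }, fun _ => Iff.rfl⟩
  · rintro x y ⟨q, hq, hq0, hx⟩ ⟨q', hq', hq0', hy⟩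
    obtain ⟨r, hr, r', hr', hr0, e⟩ := h _ hx _ hq' hq0'
    refine ⟨r * q, R.mul_mem hr hq, mul_ne_zero hr0 hq0, ?_⟩
    have e2 : r * q * (x * y) = r' * (q' * y) := by
      rw [← mul_assoc r', ← e]; simp only [mul_assoc]
    rw [e2]
    exact R.mul_mem hr' hy
  · rintro x y ⟨q, hq, hq0, hx⟩ ⟨q', hq', hq0', hy⟩
    obtain ⟨r, hr, r', hr', hr0, e⟩ := h _ hq _ hq' hq0'
    refine ⟨r * q, R.mul_mem hr hq, mul_ne_zero hr0 hq0, ?_⟩
    have e2 : r * q * (x + y) = r * (q * x) + r' * (q' * y) := by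
      rw [mul_add, ← mul_assoc r', ← e, mul_assoc]
    rw [e2]
    exact R.add_mem (R.mul_mem hr hx) (R.mul_mem hr' hy)
  · rintro x ⟨q, hq, hq0, hx⟩
    exact ⟨q, hq, hq0, by rw [mul_neg]; exact R.neg_mem hx⟩
  · rintro x ⟨q, hq, hq0, hx⟩
    by_cases h0 : x = 0
    · exact ⟨1, R.one_mem, one_ne_zero, by rw [h0, inv_zero, mul_zero]; exact R.zero_mem⟩
    · exact ⟨q * x, hx, mul_ne_zero hq0 h0, by rw [mul_inv_cancel_right₀ h0]; exact hq⟩

/-- Common denominators. -/
theorem LOre.common (h : LOre R) {κ : Type} [Finite κ] (x : κ → D)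
    (hx : ∀ i, ∃ q ∈ R, q ≠ 0 ∧ q * x i ∈ R) : ∃ q ∈ R, q ≠ 0 ∧ ∀ i, q * x i ∈ R := by
  classical
  have := Fintype.ofFinite κ
  have key : ∀ t : Finset κ, ∃ q ∈ R, q ≠ 0 ∧ ∀ i ∈ t, q * x i ∈ R := by
    intro t
    induction t using Finset.induction_on with
    | empty => exact ⟨1, R.one_mem, one_ne_zero, fun i hi => absurd hi (Finset.notMem_empty i)⟩
    | insert j t _ ih =>
      obtain ⟨q, hq, hq0, h1⟩ := ih
      obtain ⟨q', hq', hq0', h2⟩ := hx j
      obtain ⟨r, hr, r', hr', hr0, e⟩ := h _ hq _ hq' hq0'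
      refine ⟨r * q, R.mul_mem hr hq, mul_ne_zero hr0 hq0, fun i hi => ?_⟩
      rcases Finset.mem_insert.1 hi with rfl | hi
      · rw [e, mul_assoc]; exact R.mul_mem hr' h2
      · rw [mul_assoc]; exact R.mul_mem hr (h1 i hi)
  obtain ⟨q, hq, hq0, h1⟩ := key Finset.univ
  exact ⟨q, hq, hq0, fun i => h1 i (Finset.mem_univ i)⟩

/-- The solutions over `D` of a linear system with coefficients in a subfield `Q` are spanned by
the solutions over `Q` (expand in a basis of `D` as a right `Q`-vector space, or argue by Gaussian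
elimination). -/
theorem span_solutions_subfield (Q : Subfield D) {κ μ : Type} [Fintype κ] (w : κ → μ → D)
    (hw : ∀ k i, w k i ∈ Q) {d : κ → D} (hd : ∀ i, ∑ k, d k * w k i = 0) :
    d ∈ Submodule.span D {r : κ → D | (∀ k, r k ∈ Q) ∧ ∀ i, ∑ k, r k * w k i = 0} := by
  classical
  let _ : Module Qᵐᵒᵖ D := Module.compHom D (RingHom.op Q.subtype)
  have hs : ∀ (a : Qᵐᵒᵖ) (x : D), a • x = x * (a.unop : D) := fun _ _ => rfl
  let b := Module.Basis.ofVectorSpace Qᵐᵒᵖ D
  let J := Finset.univ.biUnion fun k => (b.repr (d k)).support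
  have e : d = ∑ j ∈ J, b j • fun k => ((b.repr (d k) j).unop : D) := by
    funext k
    rw [Finset.sum_apply]
    have e1 := b.linearCombination_repr (d k)
    rw [Finsupp.linearCombination_apply, Finsupp.sum_of_support_subset _
      (s := J) (Finset.subset_biUnion_of_mem (fun k => (b.repr (d k)).support)
        (Finset.mem_univ k)) (fun i a => a • b i) (fun i _ => zero_smul _ _)] at e1
    rw [← e1]
    refine Finset.sum_congr rfl (fun j _ => ?_)
    rw [hs]
    rfl
  rw [e]
  refine Submodule.sum_mem _ (fun j _ => Submodule.smul_mem _ _ (Submodule.subset_span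
    ⟨fun k => Subtype.property _, fun i => ?_⟩))
  have e2 : ∑ k, (MulOpposite.op (⟨w k i, hw k i⟩ : Q)) • d k = 0 := hd i
  have e3 := congrArg (fun x => (((b.repr x) j).unop : D)) e2
  simp only [map_sum, map_smul, map_zero, Finsupp.finsetSum_apply, Finsupp.smul_apply,
    smul_eq_mul, Finsupp.coe_zero, Pi.zero_apply, MulOpposite.unop_zero,
    Finset.unop_sum, MulOpposite.unop_mul, MulOpposite.unop_op] at e3
  push_cast at e3
  exact e3

theorem LOre.span_solutions (h : LOre R) {κ μ : Type} [Fintype κ] (w : κ → μ → D)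
    (hw : ∀ k i, w k i ∈ R) {d : κ → D} (hd : ∀ i, ∑ k, d k * w k i = 0) :
    d ∈ Submodule.span D {r : κ → D | (∀ k, r k ∈ R) ∧ ∀ i, ∑ k, r k * w k i = 0} := by
  obtain ⟨Q, hQ⟩ := h.exists_subfield
  have h1 := span_solutions_subfield Q w
    (fun k i => (hQ _).2 ⟨1, R.one_mem, one_ne_zero, by rw [one_mul]; exact hw k i⟩) hd
  refine (Submodule.span_le.2 ?_) h1
  rintro r ⟨hr, hr'⟩
  obtain ⟨q, -, hq0, h2⟩ := h.common r (fun k => (hQ _).1 (hr k))
  have e : r = q⁻¹ • q • r := by rw [smul_smul, inv_mul_cancel₀ hq0, one_smul]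
  rw [SetLike.mem_coe, e]
  refine Submodule.smul_mem _ _ (Submodule.subset_span ⟨h2, fun i => ?_⟩)
  simp only [Pi.smul_apply, smul_eq_mul, mul_assoc]
  rw [← Finset.mul_sum, hr' i, mul_zero]

end

section

variable {G : Type} [Group G] {o : BiOrd G} {N : Subgroup G} [N.Normal]

theorem ore_mk_eq {g a : G} (h : g * a⁻¹ ∈ N) : (g : G ⧸ N) = a := by
  rw [← QuotientGroup.eq_one_iff, QuotientGroup.mk_mul, QuotientGroup.mk_inv,
    mul_inv_eq_one] at h
  exact h

theorem ore_mem_of_eq {g a : G} (h : (g : G ⧸ N) = a) : g * a⁻¹ ∈ N := by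
  rw [← QuotientGroup.eq_one_iff, QuotientGroup.mk_mul, QuotientGroup.mk_inv, h, mul_inv_cancel]

/-- The chosen representatives of finitely many cosets span the series supported on them. -/
theorem ore_mem_span (B : Finset (G ⧸ N)) {x : MN o}
    (hx : (QuotientGroup.mk : G → G ⧸ N) '' x.supp ⊆ B) :
    x ∈ Submodule.span (MN.sub o N)
      (Set.range fun b : B => MN.of o (Quotient.out (b : G ⧸ N))) := by
  classical
  have e : x = ∑ b : B, MN.res {g : G | (g : G ⧸ N) = (b : G ⧸ N)} x := by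
    ext g
    rw [MN.c_sum]
    simp only [MN.c_res, Set.mem_ofPred_eq]
    by_cases h0 : x.c g = 0
    · simp [h0]
    · have hg : (g : G ⧸ N) ∈ B := hx ⟨g, h0, rfl⟩
      rw [Finset.sum_eq_single (⟨_, hg⟩ : B)]
      · simp
      · intro b _ hb
        rw [if_neg (fun e => hb (Subtype.ext e.symm))]
      · intro h; exact absurd (Finset.mem_univ _) h
  rw [e]
  refine Submodule.sum_mem _ (fun b _ => ?_)
  set a : G := Quotient.out (b : G ⧸ N) with ha
  have hab : (a : G ⧸ N) = b := Quotient.out_eq _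
  have hm : MN.res {g : G | (g : G ⧸ N) = (b : G ⧸ N)} x * MN.of o a⁻¹ ∈ MN.sub o N := by
    rw [MN.mem_sub]
    intro g hg
    have h1 : (MN.res {g : G | (g : G ⧸ N) = (b : G ⧸ N)} x * MN.of o a⁻¹).c g ≠ 0 := hg
    rw [MN.of_apply, MN.c_mul_single, mul_one, inv_inv, MN.c_res] at h1
    have h2 : ((g * a : G) : G ⧸ N) = b := by
      by_contra h3
      exact h1 (if_neg h3)
    have h3 := ore_mem_of_eq (h2.trans hab.symm)
    rwa [mul_inv_cancel_right] at h3
  have e2 : MN.res {g : G | (g : G ⧸ N) = (b : G ⧸ N)} x = (⟨_, hm⟩ : MN.sub o N) • MN.of o a := by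
    change _ = MN.res {g : G | (g : G ⧸ N) = (b : G ⧸ N)} x * MN.of o a⁻¹ * MN.of o a
    rw [mul_assoc, ← map_mul, inv_mul_cancel, map_one, mul_one]
  rw [e2]
  exact Submodule.smul_mem _ _ (Submodule.subset_span ⟨b, rfl⟩)

/-- The chosen representatives of the cosets are independent. -/
theorem ore_indep (B : Finset (G ⧸ N)) (y : B → MN.sub o N)
    (h : ∑ b : B, (y b : MN o) * MN.of o (Quotient.out (b : G ⧸ N)) = 0) (b : B) : y b = 0 := by
  apply Subtype.ext
  ext g
  change (y b : MN o).c g = 0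
  by_contra h0
  have hg : g ∈ N := (MN.mem_sub.1 (y b).2) h0
  have e := congrArg (fun x => MN.c x (g * Quotient.out (b : G ⧸ N))) h
  simp only [MN.c_sum, MN.of_apply, MN.c_mul_single, mul_one, MN.c_zero] at e
  rw [Finset.sum_eq_single b, mul_inv_cancel_right] at e
  · exact h0 e
  · intro b' _ hb
    by_contra h1
    have h2 := ore_mk_eq ((MN.mem_sub.1 (y b').2) h1)
    rw [QuotientGroup.mk_mul, (QuotientGroup.eq_one_iff g).2 hg, one_mul] at h2
    have h3 : ((Quotient.out (b : G ⧸ N) : G) : G ⧸ N) = b := Quotient.out_eq _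
    have h4 : ((Quotient.out (b' : G ⧸ N) : G) : G ⧸ N) = b' := Quotient.out_eq _
    exact hb (Subtype.ext (by rw [← h3, ← h4, h2]))
  · intro h; exact absurd (Finset.mem_univ _) h

theorem ore_supp {S : Set (G ⧸ N)} {k c : ℕ} {b : G ⧸ N} (hb : b ∈ ball S k) {p : MN o}
    (hp : (QuotientGroup.mk : G → G ⧸ N) '' p.supp ⊆ ball S c) :
    (QuotientGroup.mk : G → G ⧸ N) '' (MN.of o (Quotient.out b) * p).supp ⊆ ball S (k + c) := by
  rintro _ ⟨g, hg, rfl⟩
  have h1 : (MN.of o (Quotient.out b) * p).c g ≠ 0 := hg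
  rw [MN.of_apply, MN.c_single_mul, one_mul] at h1
  have h2 := hp ⟨_, h1, rfl⟩
  have h3 : ((Quotient.out b : G) : G ⧸ N) = b := Quotient.out_eq _
  have h4 := mul_mem_ball hb h2
  rwa [QuotientGroup.mk_mul, QuotientGroup.mk_inv, h3, mul_inv_cancel_left] at h4

end

theorem ore_subset_ball {H : Type} [Group H] {S T : Set H} (hS : Subgroup.closure S = ⊤)
    (hT : T.Finite) : ∃ c, T ⊆ ball S c := by
  induction T, hT using Set.Finite.induction_on with
  | empty => exact ⟨0, Set.empty_subset _⟩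
  | @insert g T _ _ ih =>
    obtain ⟨c, hc⟩ := ih
    obtain ⟨a, ha⟩ := mem_closure_iff_ball.1 (hS ▸ Subgroup.mem_top g : g ∈ Subgroup.closure S)
    exact ⟨max a c, Set.insert_subset (ball_mono (le_max_left _ _) ha)
      (hc.trans (ball_mono (le_max_right _ _)))⟩

/-- Dimension count over the subfield `MN.sub o N`: the series supported on the cosets in the ball
of radius `k` of `G / N` form a left vector space `R k` of dimension the cardinality of the ball.
The map `(r, r') ↦ r p - r' q` from `R k × R k` to `R (k + c)` has a kernel when the ball of radius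
`k + c` has less than twice as many elements (`PolyGrowth.exists_lt_two_mul`,
`polyGrowth_of_nilpotent`). -/
theorem lOre_fin {G : Type} [Group G] [Group.FG G] (o : BiOrd G) (N : Subgroup G) [N.Normal]
    {c : ℕ} (hc : (⊤ : Subgroup G).lowerCentralSeries c ≤ N) : LOre (MN.fin o N) := by
  classical
  intro p hp q hq hq0
  obtain ⟨S, hS, hSf⟩ := Group.fg_iff.1 (inferInstance : Group.FG (G ⧸ N))
  have hc' : (⊤ : Subgroup (G ⧸ N)).lowerCentralSeries c = ⊥ := by
    have h1 := Subgroup.map_lowerCentralSeries (⊤ : Subgroup G) (QuotientGroup.mk' N) c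
    rw [Subgroup.map_top_of_surjective _ (QuotientGroup.mk'_surjective N)] at h1
    rw [← h1, Subgroup.map_eq_bot_iff, QuotientGroup.ker_mk']
    exact hc
  obtain ⟨c0, hc0⟩ := ore_subset_ball hS ((MN.mem_fin.1 hp).union (MN.mem_fin.1 hq))
  obtain ⟨k, hk⟩ := (polyGrowth_of_nilpotent hc' hSf).exists_lt_two_mul c0
  let B := (finite_ball hSf k).toFinset
  let B' := (finite_ball hSf (k + c0)).toFinset
  let v : B ⊕ B → MN o := Sum.elim (fun b => MN.of o (Quotient.out (b : G ⧸ N)) * p)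
    (fun b => MN.of o (Quotient.out (b : G ⧸ N)) * q)
  have hdep : ¬ LinearIndependent (MN.sub o N) v := by
    intro hli
    have h1 := linearIndependent_le_span_aux' v hli
      (Set.range fun b : B' => MN.of o (Quotient.out (b : G ⧸ N))) (by
        rintro _ ⟨i, rfl⟩
        refine ore_mem_span B' ?_
        rw [Set.Finite.coe_toFinset]
        rcases i with b | b
        · exact ore_supp ((Set.Finite.mem_toFinset _).1 b.2)
            (Set.subset_union_left.trans hc0)
        · exact ore_supp ((Set.Finite.mem_toFinset _).1 b.2)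
            (Set.subset_union_right.trans hc0))
    have h2 := h1.trans (Fintype.card_range_le _)
    rw [Fintype.card_sum, Fintype.card_coe, Fintype.card_coe,
      ← Set.ncard_eq_toFinset_card _ (finite_ball hSf k),
      ← Set.ncard_eq_toFinset_card _ (finite_ball hSf (k + c0))] at h2
    omega
  obtain ⟨y, hy, i, hi⟩ := Fintype.not_linearIndependent_iff.1 hdep
  have hmem : ∀ z : B → MN.sub o N,
      ∑ b : B, (z b : MN o) * MN.of o (Quotient.out (b : G ⧸ N)) ∈ MN.fin o N := fun z =>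
    Subring.sum_mem _ (fun b _ => Subring.mul_mem _ (MN.mem_fin_of_mem_sub (z b).2)
      (MN.of_mem_fin N _))
  have e : (∑ b : B, (y (Sum.inl b) : MN o) * MN.of o (Quotient.out (b : G ⧸ N))) * p =
      (-∑ b : B, (y (Sum.inr b) : MN o) * MN.of o (Quotient.out (b : G ⧸ N))) * q := by
    rw [neg_mul, ← add_eq_zero_iff_eq_neg, Finset.sum_mul, Finset.sum_mul, ← hy,
      Fintype.sum_sum_type]
    simp only [mul_assoc]
    rfl
  refine ⟨_, hmem _, _, Subring.neg_mem _ (hmem _), fun h0 => hi ?_, e⟩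
  rcases i with b | b
  · exact ore_indep B _ h0 b
  · rw [h0, zero_mul, eq_comm, mul_eq_zero, or_iff_left hq0, neg_eq_zero] at e
    exact ore_indep B _ e b

end Pool.Agent.Lib.MP_9ac97d_al
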