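import Pool.Agent.Lib.MP_9ac97d_al.Chart
import Pool.Agent.Lib.MP_9ac97d_al.Asym
import Pool.Agent.Lib.MP_9ac97d_al.Lev

/-!
# Reductions of sequences of semilinear maps
-/

set_option autoImplicit false
set_option linter.unusedSectionVars false

noncomputable section

namespace Pool.Agent.Lib.MP_9ac97d_al

open Filter

variable {E D V K : Type} [Group E] [NormedDivisionRing D] [AddCommGroup V] [Module D V]
  [DivisionRing K] {ω : Ultrafilter ℕ} {Es : ℕ → ℝ} {red : (ℕ → D) → K}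

theorem pp_exists_pow (hE : ∀ L, 2 ≤ Es L) (C : ℝ) : ∃ k : ℕ, ∀ L, C ≤ Es L ^ k := by
  obtain ⟨k, hk⟩ := pow_unbounded_of_one_lt C (one_lt_two : (1 : ℝ) < 2)
  exact ⟨k, fun L => hk.le.trans (pow_le_pow_left₀ (by norm_num) (hE L) k)⟩

theorem pp_mod_of_le (hE : ∀ L, 2 ≤ Es L) {x : ℕ → D} (C : ℝ) (k : ℕ)
    (h : ∀ᶠ L in (ω : Filter ℕ), ‖x L‖ ≤ C * Es L ^ k) : Mod ω Es x := by
  obtain ⟨a, ha⟩ := pp_exists_pow hE C
  refine ⟨a + k, h.mono fun L hL => hL.trans ?_⟩
  rw [pow_add]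
  exact mul_le_mul_of_nonneg_right (ha L) (pow_nonneg (by linarith [hE L]) _)

theorem pp_mod_const (hE : ∀ L, 2 ≤ Es L) (d : D) : Mod ω Es fun _ => d :=
  pp_mod_of_le hE ‖d‖ 0 (Eventually.of_forall fun L => by simp)

theorem pp_mod_congr {x y : ℕ → D} (hx : Mod ω Es x) (h : ∀ᶠ L in (ω : Filter ℕ), x L = y L) :
    Mod ω Es y := by
  obtain ⟨C, hC⟩ := hx
  exact ⟨C, (hC.and h).mono fun L hL => hL.2 ▸ hL.1⟩

theorem pp_mod_of_norm {x y : ℕ → D} (hx : Mod ω Es x) (h : ∀ L, ‖y L‖ = ‖x L‖) :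
    Mod ω Es y := by
  obtain ⟨C, hC⟩ := hx
  exact ⟨C, hC.mono fun L hL => (h L).symm ▸ hL⟩

theorem pp_red_congr (hE : ∀ L, 2 ≤ Es L) (hR : Res ω Es K red) {x y : ℕ → D} (hx : Mod ω Es x)
    (h : ∀ᶠ L in (ω : Filter ℕ), x L = y L) : red x = red y := by
  have hy : Mod ω Es y := pp_mod_congr hx h
  have hd : Mod ω Es (x + -y) := hx.add hE hy.neg
  have h0 : red (x + -y) = 0 := by
    rw [hR.zero_iff _ hd]
    intro C
    exact h.mono fun L hL => by simp [hL]
  have h1 : x = (x + -y) + y := by abel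
  rw [h1, hR.add _ _ hd hy, h0, zero_add]

theorem pp_red_zero (hE : ∀ L, 2 ≤ Es L) (hR : Res ω Es K red) : red (fun _ => 0) = 0 := by
  rw [hR.zero_iff _ (pp_mod_const hE 0)]
  intro C
  exact Eventually.of_forall fun L => by simp

theorem pp_red_ite (hE : ∀ L, 2 ≤ Es L) (hR : Res ω Es K red) (P : Prop) [Decidable P] :
    red (fun _ => if P then 1 else 0) = if P then 1 else 0 := by
  by_cases h : P
  · simp only [h, if_true]; exact hR.one
  · simp only [h, if_false]; exact pp_red_zero hE hR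

theorem pp_mod_sum (hE : ∀ L, 2 ≤ Es L) {κ : Type} [Fintype κ] {x y : κ → ℕ → D}
    (hx : ∀ i, Mod ω Es (x i)) (hy : ∀ i, Mod ω Es (y i)) :
    Mod ω Es fun L => ∑ i, x i L * y i L := by
  have h := Mod.sum hE Finset.univ (x := fun i => x i * y i) fun i _ => (hx i).mul hE (hy i)
  have e : (∑ i, x i * y i) = fun L => ∑ i, x i L * y i L := by
    funext L; simp
  rwa [e] at h

theorem pp_red_sum (hE : ∀ L, 2 ≤ Es L) (hR : Res ω Es K red) {κ : Type} [Fintype κ]
    {x y : κ → ℕ → D} (hx : ∀ i, Mod ω Es (x i)) (hy : ∀ i, Mod ω Es (y i)) :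
    red (fun L => ∑ i, x i L * y i L) = ∑ i, red (x i) * red (y i) := by
  have h := hR.sum hE Finset.univ (x := fun i => x i * y i) fun i _ => (hx i).mul hE (hy i)
  have e : (∑ i, x i * y i) = fun L => ∑ i, x i L * y i L := by
    funext L; simp
  rw [e] at h
  rw [h]
  exact Finset.sum_congr rfl fun i _ => hR.mul _ _ (hx i) (hy i)

/-- Conjugation by a nonzero element. -/
def ppConj (c : D) (hc : c ≠ 0) : D ≃+* D where
  toFun d := c * d * c⁻¹
  invFun d := c⁻¹ * d * c
  left_inv d := by simp [mul_assoc, hc]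
  right_inv d := by simp [mul_assoc, hc]
  map_mul' x y := by simp [mul_assoc, hc]
  map_add' x y := by simp [mul_add, add_mul]

theorem pp_norm_conj {c : D} (hc : c ≠ 0) (d : D) : ‖c * d * c⁻¹‖ = ‖d‖ := by
  have : ‖c‖ ≠ 0 := norm_ne_zero_iff.2 hc
  rw [norm_mul, norm_mul, norm_inv]
  field_simp

variable {κ : Type} [Fintype κ]

theorem pp_repr_act (A : SL E D V) (b : Module.Basis κ D V) {c : D} (hc : c ≠ 0) (e : E) (v : V)
    (j : κ) :
    b.repr (c • A.act e v) j = ∑ i, (c * A.α e (b.repr v i) * c⁻¹) * A.mtx b c e i j := by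
  conv_lhs => rw [← b.sum_repr v]
  rw [map_sum, Finset.smul_sum, map_sum, Finsupp.finsetSum_apply]
  refine Finset.sum_congr rfl fun i _ => ?_
  rw [A.smul, smul_smul, map_smul, Finsupp.smul_apply, smul_eq_mul, SL.mtx]
  simp [mul_assoc, hc]

variable (ω Es) in
/-- Sequences of vectors with moderate coordinates. -/
def MV (b : ℕ → Module.Basis κ D V) (v : ℕ → V) : Prop :=
  ∀ i, Mod ω Es fun L => (b L).repr (v L) i

variable (red) in
/-- The reduction of a sequence of vectors. -/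
def rv (b : ℕ → Module.Basis κ D V) (v : ℕ → V) : κ → K :=
  fun i => red fun L => (b L).repr (v L) i

variable (ω Es red) in
/-- `f` is the reduction of the sequence of maps `c L • g L`. -/
def Rep (A : SL E D V) (b : ℕ → Module.Basis κ D V) (g : ℕ → E) (c : ℕ → D)
    (f : AddMonoid.End (κ → K)) : Prop :=
  ∀ v, MV ω Es b v → MV ω Es b (fun L => c L • A.act (g L) (v L)) ∧
    f (rv red b v) = rv red b fun L => c L • A.act (g L) (v L)

variable {A : SL E D V} {b : ℕ → Module.Basis κ D V}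

theorem pp_rv_surj (hR : Res ω Es K red) (b : ℕ → Module.Basis κ D V) (y : κ → K) :
    ∃ v, MV ω Es b v ∧ rv red b v = y := by
  choose x hx hy using fun i => hR.surj (y i)
  have e : ∀ L i, (b L).repr ((b L).equivFun.symm fun i => x i L) i = x i L := fun L i => by
    rw [← Module.Basis.equivFun_apply, LinearEquiv.apply_symm_apply]
  refine ⟨fun L => (b L).equivFun.symm fun i => x i L, fun i => ?_, funext fun i => ?_⟩
  · simp only [e]; exact hx i
  · simp only [rv, e]; exact hy i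

theorem pp_exists_rep (hE : ∀ L, 2 ≤ Es L) (hR : Res ω Es K red) {g : ℕ → E} {c : ℕ → D}
    (hc : ∀ L, c L ≠ 0) (hM : ∀ i j, Mod ω Es fun L => A.mtx (b L) (c L) (g L) i j) :
    ∃ f ∈ semi K (κ → K), Rep ω Es red A b g c f := by
  obtain ⟨β, hβ⟩ := hR.aut (fun L => (A.α (g L)).trans (ppConj (c L) (hc L))) fun L d => by
    show ‖c L * A.α (g L) d * (c L)⁻¹‖ = ‖d‖
    rw [pp_norm_conj (hc L), A.iso]
  let f : AddMonoid.End (κ → K) :=
    { toFun := fun y j => ∑ i, β (y i) * red fun L => A.mtx (b L) (c L) (g L) i j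
      map_zero' := by funext j; simp
      map_add' := fun y z => by funext j; simp [add_mul, Finset.sum_add_distrib] }
  refine ⟨f, ⟨β, fun d y => ?_⟩, fun v hv => ?_⟩
  · funext j
    show ∑ i, β (d * y i) * _ = β d * ∑ i, β (y i) * _
    simp [Finset.mul_sum, mul_assoc]
  · have hx : ∀ i, Mod ω Es fun L => c L * A.α (g L) ((b L).repr (v L) i) * (c L)⁻¹ :=
      fun i => pp_mod_of_norm (hv i) fun L => by rw [pp_norm_conj (hc L), A.iso]
    constructor
    · intro j
      simp only [pp_repr_act A _ (hc _)]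
      exact pp_mod_sum hE hx fun i => hM i j
    · funext j
      simp only [rv, pp_repr_act A _ (hc _)]
      rw [pp_red_sum hE hR hx fun i => hM i j]
      refine Finset.sum_congr rfl fun i _ => ?_
      exact congrArg (· * _) (hβ _ (hv i)).symm

theorem Rep.mul {g g' : ℕ → E} {c c' : ℕ → D} {f f' : AddMonoid.End (κ → K)}
    (h : Rep ω Es red A b g c f) (h' : Rep ω Es red A b g' c' f') :
    Rep ω Es red A b (fun L => g L * g' L) (fun L => c L * A.α (g L) (c' L)) (f * f') := by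
  intro v hv
  obtain ⟨h1, h2⟩ := h' v hv
  obtain ⟨h3, h4⟩ := h _ h1
  have e : (fun L => (c L * A.α (g L) (c' L)) • A.act (g L * g' L) (v L)) =
      fun L => c L • A.act (g L) (c' L • A.act (g' L) (v L)) := by
    funext L
    rw [A.smul, smul_smul, map_mul]; rfl
  rw [e]
  exact ⟨h3, by rw [← h4, ← h2]; rfl⟩

theorem Rep.unique (hR : Res ω Es K red) {g : ℕ → E} {c : ℕ → D} {f f' : AddMonoid.End (κ → K)}
    (h : Rep ω Es red A b g c f) (h' : Rep ω Es red A b g c f') : f = f' := by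
  refine AddMonoidHom.ext fun y => ?_
  obtain ⟨v, hv, rfl⟩ := pp_rv_surj hR b y
  exact (h v hv).2.trans (h' v hv).2.symm

theorem pp_rep_one {g : ℕ → E} {c : ℕ → D} (h : ∀ L v, c L • A.act (g L) v = v) :
    Rep ω Es red A b g c 1 := by
  intro v hv
  simp only [h]
  exact ⟨hv, rfl⟩

theorem pp_mv_basis [DecidableEq κ] (hE : ∀ L, 2 ≤ Es L) (hR : Res ω Es K red)
    (b : ℕ → Module.Basis κ D V) (i : κ) :
    MV ω Es b (fun L => b L i) ∧ rv red b (fun L => b L i) = Pi.single i 1 := by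
  constructor
  · intro j
    simp only [Module.Basis.repr_self, Finsupp.single_apply]
    exact pp_mod_const hE _
  · funext j
    simp only [rv, Module.Basis.repr_self, Finsupp.single_apply]
    rw [pp_red_ite hE hR, Pi.single_apply]
    by_cases h : i = j
    · simp [h]
    · simp [h, Ne.symm h]

theorem pp_mtx_eq {κ' : Type} (b : Module.Basis κ' D V) (c : D) (e : E) (i j : κ') :
    A.mtx b c e i j = b.repr (c • A.act e (b i)) j := by
  simp [SL.mtx]

theorem Rep.mtx [DecidableEq κ] (hE : ∀ L, 2 ≤ Es L) (hR : Res ω Es K red) {g : ℕ → E}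
    {c : ℕ → D} {f : AddMonoid.End (κ → K)} (h : Rep ω Es red A b g c f) (i j : κ) :
    (Mod ω Es fun L => A.mtx (b L) (c L) (g L) i j) ∧
      red (fun L => A.mtx (b L) (c L) (g L) i j) = f (Pi.single i 1) j := by
  obtain ⟨h1, h2⟩ := pp_mv_basis hE hR b i
  obtain ⟨h3, h4⟩ := h _ h1
  simp only [pp_mtx_eq]
  exact ⟨h3 j, by rw [← h2, h4]; rfl⟩

end Pool.Agent.Lib.MP_9ac97d_al
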