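import Pool.Agent.Lib.MP_9ac97d_al.PPAux2
import Pool.Agent.Lib.MP_9ac97d_al.Auer

/-!
# The semigroup of reductions of short words
-/

set_option autoImplicit false
set_option linter.unusedSectionVars false

noncomputable section

namespace Pool.Agent.Lib.MP_9ac97d_al

open Filter

variable {E H D V : Type} [Group E] [Group H] [NormedDivisionRing D] [AddCommGroup V] [Module D V]

theorem pp_exists_scale {t : D} (ht0 : t ≠ 0) (ht1 : ‖t‖ < 1) {r : ℝ} (hr : 0 < r) :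
    ∃ c : D, c ≠ 0 ∧ ‖t‖ ≤ ‖c‖ * r ∧ ‖c‖ * r ≤ 1 := by
  have ht : 0 < ‖t‖ := norm_pos_iff.2 ht0
  have h1 : 1 < ‖t‖⁻¹ := (one_lt_inv₀ ht).2 ht1
  obtain ⟨k, hk1, hk2⟩ := exists_mem_Ico_zpow (inv_pos.2 hr) h1
  refine ⟨t⁻¹ ^ k, zpow_ne_zero _ (inv_ne_zero ht0), ?_, ?_⟩
  · rw [norm_zpow, norm_inv]
    rw [zpow_add_one₀ (by positivity), inv_lt_iff_one_lt_mul₀ hr] at hk2
    have : ‖t‖ * 1 ≤ ‖t‖ * (‖t‖⁻¹ ^ k * ‖t‖⁻¹ * r) := mul_le_mul_of_nonneg_left hk2.le ht.le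
    calc ‖t‖ = ‖t‖ * 1 := (mul_one _).symm
      _ ≤ _ := this
      _ = _ := by field_simp
  · rw [norm_zpow, norm_inv]
    calc ‖t‖⁻¹ ^ k * r ≤ r⁻¹ * r := mul_le_mul_of_nonneg_right hk1 hr.le
      _ = 1 := inv_mul_cancel₀ hr.ne'

theorem pp_scal_of_eq (A : SL E D V) (π : E →* H) (hπ : ∀ e, π e = 1 → A.Scal e) {δ : E →* ℝ}
    (hδ : A.Vol δ) {e w : E} (h : π e = π w) :
    ∃ d : D, δ e = ‖d‖ * δ w ∧ ∀ v, A.act e v = d • A.act w v := by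
  obtain ⟨d, hd⟩ := hπ (e * w⁻¹) (by simp [h])
  refine ⟨d, ?_, fun v => ?_⟩
  · rw [← hδ.scal _ _ hd, ← map_mul, inv_mul_cancel_right]
  · rw [← hd]
    show _ = (A.act (e * w⁻¹) * A.act w) v
    rw [← map_mul, inv_mul_cancel_right]

theorem pp_split (π : E →* H) (hsurj : Function.Surjective π) {S : Set H} {a a' : ℕ} {w : E}
    (h : π w ∈ ball S (a + a')) :
    ∃ w₁ w₂, w = w₁ * w₂ ∧ π w₁ ∈ ball S a ∧ π w₂ ∈ ball S a' := by
  obtain ⟨l, hl, hS, hw⟩ := h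
  obtain ⟨w₁, h₁⟩ := hsurj (l.take a).prod
  refine ⟨w₁, w₁⁻¹ * w, by group, ⟨l.take a, by simp, fun x hx => hS x (List.mem_of_mem_take hx),
    h₁.symm⟩, l.drop a, by simp; omega, fun x hx => hS x (List.mem_of_mem_drop hx), ?_⟩
  rw [map_mul, map_inv, h₁, ← hw, eq_inv_mul_iff_mul_eq, List.prod_take_mul_prod_drop]

theorem pp_level [Module.Finite D V] [Nontrivial V] {t : D} (ht0 : t ≠ 0)
    (ht1 : ‖t‖ < 1) (A : SL E D V) (π : E →* H) (hsurj : Function.Surjective π)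
    (hπ : ∀ e, π e = 1 → A.Scal e) {δ : E →* ℝ} (hδ : A.Vol δ) {r₀ : ℝ} (hr : 1 < r₀) :
    ∃ C : ℝ, 1 ≤ C ∧ ∀ S : Set H, S.Finite → (∀ N : V → ℝ, IsNorm D N →
      ∃ s : E, (π s ∈ S ∨ (π s)⁻¹ ∈ S) ∧ ∃ v, r₀ * δ s * N v < N (A.act s v)) → ∀ η : ℝ, 0 < η →
      ∃ ρ : ℝ, r₀ ≤ ρ ∧ ∃ b : Module.Basis (Fin (Module.finrank D V)) D V,
        (∀ k e, π e ∈ ball S k → ∀ i j,
          ‖b.repr (A.act e (b i)) j‖ ≤ C * δ e * (ρ * (1 + η)) ^ k) ∧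
        ∀ k, ∃ w, π w ∈ ball S k ∧ ∃ i j, δ w * ρ ^ k ≤ C * ‖b.repr (A.act w (b i)) j‖ := by
  obtain ⟨C, hC, hex⟩ := exists_extremal D ht0 ht1 (Module.finrank D V)
  refine ⟨C, hC, fun S hS h η hη => ?_⟩
  obtain ⟨T, hT, rfl⟩ := exists_lifts π hsurj hS
  obtain ⟨ρ, hρ, hb⟩ := hex E V rfl A δ hδ.pos T hT r₀ (by linarith) (by
    intro N hN
    obtain ⟨s, hs, v, hv⟩ := h N hN
    have : ∃ s', (s' ∈ T ∨ s'⁻¹ ∈ T) ∧ π s = π s' := by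
      rcases hs with ⟨x, hx, e⟩ | ⟨x, hx, e⟩
      · exact ⟨x, Or.inl hx, e.symm⟩
      · exact ⟨x⁻¹, Or.inr (by simpa using hx), by simp [e]⟩
    obtain ⟨s', hs', e⟩ := this
    obtain ⟨d, h1, h2⟩ := pp_scal_of_eq A π hπ hδ e
    refine ⟨s', hs', v, ?_⟩
    rw [h1, h2, hN.smul] at hv
    exact lt_of_mul_lt_mul_left (a := ‖d‖) (by linarith) (norm_nonneg _))
  obtain ⟨b, hup, hlow⟩ := hb η hη
  refine ⟨ρ, hρ, b, fun k e he i j => ?_, fun k => ?_⟩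
  · rw [ball_image] at he
    obtain ⟨w, ⟨l, hl, hlT, hw⟩, e'⟩ := he
    obtain ⟨d, h1, h2⟩ := pp_scal_of_eq A π hπ hδ e'.symm
    have h3 := hup _ w ⟨l, rfl, hlT, hw⟩ i j
    have h4 : (ρ * (1 + η)) ^ l.length ≤ (ρ * (1 + η)) ^ k :=
      pow_le_pow_right₀ (by nlinarith) hl
    have h5 := hδ.pos w
    rw [h1, h2, map_smul, Finsupp.smul_apply, smul_eq_mul, norm_mul]
    calc ‖d‖ * ‖b.repr (A.act w (b i)) j‖ ≤ ‖d‖ * (C * δ w * (ρ * (1 + η)) ^ k) :=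
          mul_le_mul_of_nonneg_left (h3.trans (mul_le_mul_of_nonneg_left h4 (by positivity)))
            (norm_nonneg _)
      _ = _ := by ring
  · obtain ⟨w, ⟨l, hl, hlT, hw⟩, h1⟩ := hlow k
    refine ⟨w, ?_, h1⟩
    rw [ball_image]
    exact ⟨w, ⟨l, hl.le, hlT, hw⟩, rfl⟩

variable {K : Type} [DivisionRing K] (ω : Ultrafilter ℕ) (Es : ℕ → ℝ) (red : (ℕ → D) → K)
  {κ : Type} [Fintype κ] [DecidableEq κ] (A : SL E D V) (b : ℕ → Module.Basis κ D V)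
  (π : E →* H) (S : ℕ → Set H) (N : ℕ → ℕ)

/-- Reductions of short elements. -/
def ppS : Submonoid (AddMonoid.End (κ → K)) where
  carrier := {f | f ∈ semi K (κ → K) ∧ ∃ (a : ℕ) (g : ℕ → E) (c : ℕ → D),
    Rep ω Es red A b g c f ∧ ∀ L, π (g L) ∈ ball (S L) (a * N L) ∧ c L ≠ 0}
  one_mem' := ⟨one_mem _, 0, fun _ => 1, fun _ => 1, pp_rep_one fun L v => by simp,
    fun L => ⟨by rw [map_one]; exact one_mem_ball _ _, one_ne_zero⟩⟩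
  mul_mem' := by
    rintro f f' ⟨hf, a, g, c, h, h1⟩ ⟨hf', a', g', c', h', h1'⟩
    refine ⟨mul_mem hf hf', a + a', _, _, h.mul h', fun L => ⟨?_, ?_⟩⟩
    · rw [map_mul, add_mul]; exact mul_mem_ball (h1 L).1 (h1' L).1
    · exact mul_ne_zero (h1 L).2 ((map_ne_zero _).2 (h1' L).2)

/-- Reductions of long blocks, normalized by the extremal growth rate. -/
def ppT (δ : E →* ℝ) (ρ : ℕ → ℝ) : Set (AddMonoid.End (κ → K)) :=
  {f | f ∈ semi K (κ → K) ∧ ∃ (a : ℕ) (g : ℕ → E) (c : ℕ → D), a ≠ 0 ∧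
    Rep ω Es red A b g c f ∧ ∀ L, (π (g L) ∈ ball (S L) (a * N L) ∧ c L ≠ 0) ∧
      ‖c L‖ * (δ (g L) * ρ L ^ (a * N L)) ≤ 1}

variable {ω Es red A b π S N} {δ : E →* ℝ} {ρ : ℕ → ℝ}

theorem ppT_sub {f : AddMonoid.End (κ → K)} (h : f ∈ ppT ω Es red A b π S N δ ρ) :
    f ∈ ppS ω Es red A b π S N := by
  obtain ⟨hf, a, g, c, -, h, h1⟩ := h
  exact ⟨hf, a, g, c, h, fun L => (h1 L).1⟩

theorem ppT_mul (hδ : ∀ e, 0 < δ e) (hρ : ∀ L, 0 < ρ L) {f f' : AddMonoid.End (κ → K)}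
    (h : f ∈ ppT ω Es red A b π S N δ ρ) (h' : f' ∈ ppT ω Es red A b π S N δ ρ) :
    f * f' ∈ ppT ω Es red A b π S N δ ρ := by
  obtain ⟨hf, a, g, c, ha, h, h1⟩ := h
  obtain ⟨hf', a', g', c', -, h', h1'⟩ := h'
  refine ⟨mul_mem hf hf', a + a', _, _, by omega, h.mul h', fun L => ⟨⟨?_, ?_⟩, ?_⟩⟩
  · rw [map_mul, add_mul]; exact mul_mem_ball (h1 L).1.1 (h1' L).1.1
  · exact mul_ne_zero (h1 L).1.2 ((map_ne_zero _).2 (h1' L).1.2)
  · rw [norm_mul, A.iso, map_mul, add_mul, pow_add]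
    have h2 := hδ (g' L)
    have h3 := hρ L
    calc _ = (‖c L‖ * (δ (g L) * ρ L ^ (a * N L))) *
          (‖c' L‖ * (δ (g' L) * ρ L ^ (a' * N L))) := by ring
      _ ≤ 1 := mul_le_one₀ (h1 L).2 (by positivity) (h1' L).2

theorem pp_blocks (hE : ∀ L, 2 ≤ Es L) (hR : Res ω Es K red) {t : D} (ht0 : t ≠ 0)
    (ht1 : ‖t‖ < 1) (hsurj : Function.Surjective π) (hπ : ∀ e, π e = 1 → A.Scal e)
    (hδ : A.Vol δ) (hρ : ∀ L, 0 < ρ L) {C : ℝ} (hC : 0 ≤ C)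
    (hup : ∀ L e, π e ∈ ball (S L) (N L) → ∀ i j,
      ‖(b L).repr (A.act e (b L i)) j‖ ≤ C * (δ e * ρ L ^ N L))
    (a : ℕ) (w : ℕ → E) (hw : ∀ L, π (w L) ∈ ball (S L) (a * N L)) :
    ∃ l : List (AddMonoid.End (κ → K)), l.length = a ∧
      (∀ f ∈ l, f ∈ ppT ω Es red A b π S N δ ρ) ∧ ∃ c, Rep ω Es red A b w c l.prod ∧
        ∀ L, ‖t‖ ^ a ≤ ‖c L‖ * (δ (w L) * ρ L ^ (a * N L)) := by
  induction a generalizing w with
  | zero =>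
    have h1 : ∀ L, π (w L) = 1 := fun L => by
      obtain ⟨l, hl, -, h⟩ := hw L
      rw [zero_mul, Nat.le_zero, List.length_eq_zero_iff] at hl
      rw [← h, hl, List.prod_nil]
    choose d hd using fun L => hπ _ (h1 L)
    have h2 : ∀ L, δ (w L) = ‖d L‖ := fun L => hδ.scal _ _ (hd L)
    have h3 : ∀ L, d L ≠ 0 := fun L => norm_pos_iff.1 (h2 L ▸ hδ.pos _)
    refine ⟨[], rfl, by simp, fun L => (d L)⁻¹, pp_rep_one fun L v => ?_, fun L => ?_⟩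
    · rw [hd, smul_smul, inv_mul_cancel₀ (h3 L), one_smul]
    · simp [h2, h3]
  | succ a ih =>
    choose w₁ w₂ e h₁ h₂ using fun L => pp_split π hsurj (a := N L) (a' := a * N L) (w := w L)
      (by rw [add_comm, ← Nat.succ_mul]; exact hw L)
    obtain ⟨l, hl, hlT, c', hc', hn⟩ := ih w₂ h₂
    choose c hc0 hc1 hc2 using fun L => pp_exists_scale ht0 ht1
      (r := δ (w₁ L) * ρ L ^ N L) (mul_pos (hδ.pos _) (pow_pos (hρ L) _))
    obtain ⟨f, hf, hrep⟩ := pp_exists_rep (A := A) (b := b) (g := w₁) hE hR hc0 fun i j =>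
      pp_mod_of_le hE C 0 (Eventually.of_forall fun L => by
        rw [SL.mtx, norm_mul, pow_zero]
        calc _ ≤ ‖c L‖ * (C * (δ (w₁ L) * ρ L ^ N L)) :=
              mul_le_mul_of_nonneg_left (hup L _ (h₁ L) i j) (norm_nonneg _)
          _ = C * (‖c L‖ * (δ (w₁ L) * ρ L ^ N L)) := by ring
          _ ≤ C * 1 := mul_le_mul_of_nonneg_left (hc2 L) hC)
    refine ⟨f :: l, by simp [hl], ?_, fun L => c L * A.α (w₁ L) (c' L), ?_, fun L => ?_⟩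
    · intro f' hf'
      rcases List.mem_cons.1 hf' with rfl | hf'
      · exact ⟨hf, 1, w₁, c, one_ne_zero, hrep, fun L => by
          rw [one_mul]; exact ⟨⟨h₁ L, hc0 L⟩, hc2 L⟩⟩
      · exact hlT _ hf'
    · have : w = fun L => w₁ L * w₂ L := funext e
      rw [this, List.prod_cons]
      exact hrep.mul hc'
    · rw [norm_mul, A.iso, e L, map_mul, Nat.succ_mul, pow_add (ρ L), pow_succ']
      calc ‖t‖ * ‖t‖ ^ a ≤ (‖c L‖ * (δ (w₁ L) * ρ L ^ N L)) *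
            (‖c' L‖ * (δ (w₂ L) * ρ L ^ (a * N L))) :=
            mul_le_mul (hc1 L) (hn L) (by positivity) ((norm_nonneg _).trans (hc1 L))
        _ = _ := by ring

theorem pp_exists_not_nilp (hE : ∀ L, 2 ≤ Es L) (hR : Res ω Es K red) {t : D} (ht0 : t ≠ 0)
    (ht1 : ‖t‖ < 1) (hsurj : Function.Surjective π) (hπ : ∀ e, π e = 1 → A.Scal e)
    (hδ : A.Vol δ) (hρ : ∀ L, 0 < ρ L) {C C' : ℝ} (hC : 0 ≤ C)
    (hup : ∀ L e, π e ∈ ball (S L) (N L) → ∀ i j,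
      ‖(b L).repr (A.act e (b L i)) j‖ ≤ C * (δ e * ρ L ^ N L))
    (hlow : ∀ L k, ∃ w, π w ∈ ball (S L) k ∧ ∃ i j,
      δ w * ρ L ^ k ≤ C' * ‖(b L).repr (A.act w (b L i)) j‖) :
    ∃ f ∈ ppT ω Es red A b π S N δ ρ, ¬ IsNilpotent f := by
  by_contra hcon
  push Not at hcon
  choose w hw i j hij using fun L => hlow L (Module.finrank K (κ → K) * N L)
  obtain ⟨l, hl, hlT, c, hrep, hn⟩ := pp_blocks hE hR ht0 ht1 hsurj hπ hδ hρ hC hup _ w hw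
  have h0 := lev (K := K) (T := ppT ω Es red A b π S N δ ρ) (fun f hf => hf.1)
    (fun f hf g hg => ppT_mul hδ.pos hρ hf hg) hcon l hlT hl.ge
  rw [h0] at hrep
  have hneg : ∀ x : κ × κ, Neg ω Es fun L => A.mtx (b L) (c L) (w L) x.1 x.2 := fun x =>
    (hR.zero_iff _ (hrep.mtx hE hR _ _).1).1 (by rw [(hrep.mtx hE hR _ _).2]; rfl)
  set a := Module.finrank K (κ → K)
  have ht : 0 < ‖t‖ ^ a := pow_pos (norm_pos_iff.2 ht0) _
  obtain ⟨k, hk⟩ := pp_exists_pow hE (|C'| / ‖t‖ ^ a + 1)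
  obtain ⟨L, hL⟩ := (eventually_all.2 fun x => hneg x k).exists
  have h1 : ‖c L * (b L).repr (A.act (w L) (b L (i L))) (j L)‖ * Es L ^ k ≤ 1 := hL (i L, j L)
  rw [norm_mul] at h1
  set x := ‖c L‖ * ‖(b L).repr (A.act (w L) (b L (i L))) (j L)‖
  have hx : 0 ≤ x := by positivity
  have h2 : ‖t‖ ^ a ≤ |C'| * x := by
    calc _ ≤ _ := hn L
      _ ≤ ‖c L‖ * (C' * _) := mul_le_mul_of_nonneg_left (hij L) (norm_nonneg _)
      _ = C' * x := by ring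
      _ ≤ _ := mul_le_mul_of_nonneg_right (le_abs_self _) hx
  have h3 : x * (|C'| / ‖t‖ ^ a + 1) ≤ 1 := (mul_le_mul_of_nonneg_left (hk L) hx).trans h1
  have h4 : 1 ≤ x * (|C'| / ‖t‖ ^ a) := by
    rw [← mul_div_assoc, le_div_iff₀ ht]; linarith
  have h5 : x = 0 := by nlinarith
  rw [h5] at h4
  linarith

theorem pp_not_surj (hE : ∀ L, 2 ≤ Es L) (hR : Res ω Es K red)
    {b : ℕ → Module.Basis (Fin (Module.finrank D V)) D V} (hδ : A.Vol δ) (hρ : ∀ L, 1 < ρ L)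
    {k₀ : ℕ} (hk₀ : ∀ L, Es L ≤ ρ L ^ k₀) (hN : ∀ k, ∀ᶠ L in (ω : Filter ℕ), k < N L)
    {f : AddMonoid.End (Fin (Module.finrank D V) → K)} (h : f ∈ ppT ω Es red A b π S N δ ρ) :
    ¬ Function.Surjective f := by
  intro hs
  obtain ⟨hf, a, g, c, ha, hrep, h1⟩ := h
  obtain ⟨C, hC⟩ := pp_inv_bound hE hR (fun L => (h1 L).1.2) hrep hf hs
  obtain ⟨C₀, hC₀⟩ := hδ.le
  obtain ⟨k, hk⟩ := pp_exists_pow hE C₀
  obtain ⟨L, hL, hNL⟩ := (hC.and (hN (k₀ * (k + C)))).exists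
  have h2 := hC₀ _ _ _ hL
  have hE0 : 0 ≤ Es L := by linarith [hE L]
  have hd := hδ.pos (g L)
  have h3 : δ (g L)⁻¹ * δ (g L) = 1 := by rw [← map_mul, inv_mul_cancel, map_one]
  have h4 : 1 ≤ Es L ^ (k + C) * (‖c L‖ * δ (g L)) := by
    calc 1 = δ (g L)⁻¹ * δ (g L) := h3.symm
      _ ≤ C₀ * (‖c L‖ * Es L ^ C) * δ (g L) := mul_le_mul_of_nonneg_right h2 hd.le
      _ ≤ Es L ^ k * (‖c L‖ * Es L ^ C) * δ (g L) := by gcongr; exact hk L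
      _ = _ := by ring
  have h5 : Es L ^ (k + C) < ρ L ^ (a * N L) := by
    calc Es L ^ (k + C) ≤ (ρ L ^ k₀) ^ (k + C) := pow_le_pow_left₀ hE0 (hk₀ L) _
      _ = ρ L ^ (k₀ * (k + C)) := (pow_mul _ _ _).symm
      _ < _ := pow_lt_pow_right₀ (hρ L)
        (hNL.trans_le (Nat.le_mul_of_pos_left _ (Nat.pos_of_ne_zero ha)))
  have h6 : 0 < ‖c L‖ * δ (g L) := mul_pos (norm_pos_iff.2 (h1 L).1.2) hd
  have h7 := (h1 L).2
  nlinarith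

theorem pp_unit (hE : ∀ L, 2 ≤ Es L) (hR : Res ω Es K red) {t : D} (ht0 : t ≠ 0)
    (ht1 : ‖t‖ < 1) (hδ : A.Vol δ) {C : ℝ} (hC : 0 ≤ C) {m k : ℕ}
    (hup : ∀ L e, π e ∈ ball (S L) m → ∀ i j,
      ‖(b L).repr (A.act e (b L i)) j‖ ≤ C * Es L ^ k * δ e)
    (z : ℕ → E) (hz : ∀ L, π (z L) ∈ ball (S L) m) :
    ∃ (f f' : AddMonoid.End (κ → K)) (c c' : ℕ → D), f ∈ semi K (κ → K) ∧ f' ∈ semi K (κ → K) ∧
      (∀ L, c L ≠ 0) ∧ (∀ L, c' L ≠ 0) ∧ Rep ω Es red A b z c f ∧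
      Rep ω Es red A b (fun L => (z L)⁻¹) c' f' ∧ f' * f = 1 ∧ f * f' = 1 := by
  choose c hc0 hc1 hc2 using fun L => pp_exists_scale ht0 ht1 (hδ.pos (z L))
  have hE0 : ∀ L, 0 ≤ Es L := fun L => by linarith [hE L]
  have ht : 0 < ‖t‖ := norm_pos_iff.2 ht0
  obtain ⟨f, hf, hrep⟩ := pp_exists_rep (A := A) (b := b) (g := z) hE hR hc0 fun i j =>
    pp_mod_of_le hE C k (Eventually.of_forall fun L => by
      rw [SL.mtx, norm_mul]
      have := hE0 L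
      calc _ ≤ ‖c L‖ * (C * Es L ^ k * δ (z L)) :=
            mul_le_mul_of_nonneg_left (hup L _ (hz L) i j) (norm_nonneg _)
        _ = C * Es L ^ k * (‖c L‖ * δ (z L)) := by ring
        _ ≤ _ := mul_le_of_le_one_right (by positivity) (hc2 L))
  have hc0' : ∀ L, A.α (z L)⁻¹ (c L)⁻¹ ≠ 0 := fun L => (map_ne_zero _).2 (inv_ne_zero (hc0 L))
  obtain ⟨f', hf', hrep'⟩ := pp_exists_rep (A := A) (b := b) (g := fun L => (z L)⁻¹) hE hR hc0'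
    fun i j => pp_mod_of_le hE (C * ‖t‖⁻¹) k (Eventually.of_forall fun L => by
      rw [SL.mtx, norm_mul, A.iso, norm_inv]
      have := hE0 L
      have h1 : δ (z L)⁻¹ = (δ (z L))⁻¹ := by
        refine eq_inv_of_mul_eq_one_left ?_
        rw [← map_mul, inv_mul_cancel, map_one]
      calc _ ≤ ‖c L‖⁻¹ * (C * Es L ^ k * δ (z L)⁻¹) :=
            mul_le_mul_of_nonneg_left (hup L _ (by rw [map_inv]; exact inv_mem_ball (hz L)) i j)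
              (by positivity)
        _ = C * (‖c L‖ * δ (z L))⁻¹ * Es L ^ k := by rw [h1, mul_inv]; ring
        _ ≤ _ := by gcongr; exact hc1 L)
  refine ⟨f, f', c, _, hf, hf', hc0, hc0', hrep, hrep', ?_, ?_⟩
  · refine (hrep'.mul hrep).unique hR (pp_rep_one fun L v => ?_)
    rw [← map_mul, inv_mul_cancel₀ (hc0 L), map_one, one_smul, inv_mul_cancel, map_one]
    rfl
  · refine (hrep.mul hrep').unique hR (pp_rep_one fun L v => ?_)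
    have : A.α (z L) (A.α (z L)⁻¹ (c L)⁻¹) = (c L)⁻¹ := by
      show (A.α (z L) * A.α (z L)⁻¹) _ = _
      rw [← map_mul, mul_inv_cancel, map_one]; rfl
    rw [this, mul_inv_cancel₀ (hc0 L), one_smul, mul_inv_cancel, map_one]
    rfl

end Pool.Agent.Lib.MP_9ac97d_al
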