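import Pool.Agent.Lib.MP_9ac97d_al.Grp

/-!
# Semilinear actions
-/

set_option autoImplicit false

noncomputable section

namespace Pool.Agent.Lib.MP_9ac97d_al

/-- Additive endomorphisms that are semilinear for some automorphism of the scalars. -/
def semi (K U : Type) [DivisionRing K] [AddCommGroup U] [Module K U] :
    Submonoid (AddMonoid.End U) where
  carrier := {f | ∃ α : K ≃+* K, ∀ (d : K) (v : U), f (d • v) = α d • f v}
  one_mem' := ⟨RingEquiv.refl K, fun _ _ => rfl⟩
  mul_mem' := by
    rintro f g ⟨α, hf⟩ ⟨β, hg⟩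
    exact ⟨β.trans α, fun d v => by
      rw [AddMonoid.End.coe_mul, Function.comp_apply, hg, hf]; rfl⟩

/-- The rank of an additive endomorphism: the dimension of the span of its image. -/
def erank (K : Type) {U : Type} [DivisionRing K] [AddCommGroup U] [Module K U]
    (f : AddMonoid.End U) : ℕ :=
  Module.finrank K (Submodule.span K (Set.range f))

/-- An action of the group `E` on the `D`-vector space `V` by semilinear maps, along isometric
automorphisms of `D`. -/
structure SL (E D V : Type) [Group E] [NormedDivisionRing D] [AddCommGroup V] [Module D V] where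
  α : E →* RingAut D
  act : E →* AddMonoid.End V
  smul : ∀ (e : E) (d : D) (v : V), act e (d • v) = α e d • act e v
  iso : ∀ (e : E) (d : D), ‖α e d‖ = ‖d‖

/-- A norm on `V` for which all linear functionals are bounded. -/
structure IsNorm (D : Type) {V : Type} [NormedDivisionRing D] [AddCommGroup V] [Module D V]
    (N : V → ℝ) : Prop where
  add : ∀ v w, N (v + w) ≤ N v + N w
  smul : ∀ (d : D) (v : V), N (d • v) = ‖d‖ * N v
  bdd : ∀ f : V →ₗ[D] D, ∃ C : ℝ, ∀ v, ‖f v‖ ≤ C * N v

namespace SL

variable {E D V : Type} [Group E] [NormedDivisionRing D] [AddCommGroup V] [Module D V]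
  (A : SL E D V)

/-- The image of a subspace. -/
def sub (e : E) (U : Submodule D V) : Submodule D V where
  carrier := A.act e '' U
  add_mem' := by
    rintro _ _ ⟨v, hv, rfl⟩ ⟨w, hw, rfl⟩
    exact ⟨v + w, U.add_mem hv hw, map_add _ _ _⟩
  zero_mem' := ⟨0, U.zero_mem, map_zero _⟩
  smul_mem' := by
    rintro d _ ⟨v, hv, rfl⟩
    refine ⟨(A.α e).symm d • v, U.smul_mem _ hv, ?_⟩
    rw [A.smul, RingEquiv.apply_symm_apply]

/-- Strong irreducibility: proper nonzero subspaces have infinite orbits. -/
def SI : Prop :=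
  ∀ U : Submodule D V, U ≠ ⊥ → U ≠ ⊤ → (Set.range fun e : E => A.sub e U).Infinite

/-- `e` acts as a scalar. -/
def Scal (e : E) : Prop := ∃ d : D, ∀ v, A.act e v = d • v

/-- `δ` is a volume character: it is bounded by the sup norm of the matrix in any basis, up to a
constant, and it is the norm of the scalar on scalars. -/
structure Vol (δ : E →* ℝ) : Prop where
  pos : ∀ e, 0 < δ e
  le : ∃ C : ℝ, ∀ (b : Module.Basis (Fin (Module.finrank D V)) D V) (e : E) (κ : ℝ),
    (∀ i j, ‖b.repr (A.act e (b i)) j‖ ≤ κ) → δ e ≤ C * κ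
  scal : ∀ (e : E) (d : D), (∀ v, A.act e v = d • v) → δ e = ‖d‖

/-- The subgroup `K` has bounded orbits. -/
def Bdd (K : Subgroup E) : Prop :=
  ∀ (f : V →ₗ[D] D) (v : V), ∃ C : ℝ, ∀ k ∈ K, ‖f (A.act k v)‖ ≤ C

/-- Restriction of the action along a homomorphism. -/
def comp {E' : Type} [Group E'] (φ : E' →* E) : SL E' D V where
  α := A.α.comp φ
  act := A.act.comp φ
  smul := fun e d v => A.smul (φ e) d v
  iso := fun e d => A.iso (φ e) d

end SL

end Pool.Agent.Lib.MP_9ac97d_al
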