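import Pool.Agent.Lib.MP_9ac97d_al.Auer

/-!
# Bounded orbits generate finitely generated modules (task Stab)
-/

set_option autoImplicit false

noncomputable section

open Pointwise

namespace Pool.Agent.Lib.MP_9ac97d_al

/-- The smallest set containing `Z`, closed under sums, under scalars of norm at most one and under
the maps in `T`. -/
inductive Gen (D : Type) {V : Type} [NormedDivisionRing D] [AddCommGroup V] [Module D V]
    (T : Set (V → V)) (Z : Set V) : V → Prop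
  | base : ∀ z ∈ Z, Gen D T Z z
  | zero : Gen D T Z 0
  | add : ∀ v w, Gen D T Z v → Gen D T Z w → Gen D T Z (v + w)
  | smul : ∀ (d : D) v, ‖d‖ ≤ 1 → Gen D T Z v → Gen D T Z (d • v)
  | map : ∀ f ∈ T, ∀ v, Gen D T Z v → Gen D T Z (f v)

section Aux

variable {D V : Type} [NormedDivisionRing D] [AddCommGroup V] [Module D V] {N : V → ℝ}

theorem stab_zero (hN : IsNorm D N) : N 0 = 0 := by
  have h := hN.smul 0 0
  rwa [zero_smul, norm_zero, zero_mul] at h

theorem stab_neg (hN : IsNorm D N) (v : V) : N (-v) = N v := by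
  have h := hN.smul (-1) v
  rwa [neg_smul, one_smul, norm_neg, norm_one, one_mul] at h

theorem stab_sub (hN : IsNorm D N) (hu : ∀ v w, N (v + w) ≤ max (N v) (N w)) (v w : V) :
    N (v - w) ≤ max (N v) (N w) := by
  have h := hu v (-w)
  rwa [stab_neg hN, ← sub_eq_add_neg] at h

theorem stab_sum (hN : IsNorm D N) (hu : ∀ v w, N (v + w) ≤ max (N v) (N w)) {ι : Type}
    (s : Finset ι) (x : ι → V) {c : ℝ} (hc : 0 ≤ c) (hx : ∀ i ∈ s, N (x i) ≤ c) :
    N (∑ i ∈ s, x i) ≤ c := by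
  classical
  induction s using Finset.induction_on with
  | empty => rw [Finset.sum_empty, stab_zero hN]; exact hc
  | insert a s ha ih =>
    rw [Finset.sum_insert ha]
    exact (hu _ _).trans (max_le (hx a (Finset.mem_insert_self _ _))
      (ih fun i hi => hx i (Finset.mem_insert_of_mem hi)))

theorem stab_gen_sum {T : Set (V → V)} {Z : Set V} {ι : Type} (s : Finset ι) (x : ι → V)
    (hx : ∀ i ∈ s, Gen D T Z (x i)) : Gen D T Z (∑ i ∈ s, x i) := by
  classical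
  induction s using Finset.induction_on with
  | empty => rw [Finset.sum_empty]; exact Gen.zero
  | insert a s ha ih =>
    rw [Finset.sum_insert ha]
    exact Gen.add _ _ (hx a (Finset.mem_insert_self _ _))
      (ih fun i hi => hx i (Finset.mem_insert_of_mem hi))

theorem stab_gen_sub {T : Set (V → V)} {Z : Set V} {v w : V} (hv : Gen D T Z v)
    (hw : Gen D T Z w) : Gen D T Z (v - w) := by
  have h := Gen.add _ _ hv (Gen.smul (-1 : D) w (by rw [norm_neg, norm_one]) hw)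
  rwa [neg_smul, one_smul, ← sub_eq_add_neg] at h

/-- The norm on the generated set is bounded by its bound on the generators. -/
theorem stab_gen_le (hN : IsNorm D N) (hu : ∀ v w, N (v + w) ≤ max (N v) (N w))
    {T : Set (V → V)} (hle : ∀ f ∈ T, ∀ v, N (f v) ≤ N v) {Z : Set V} {c : ℝ} (hc : 0 ≤ c)
    (hZ : ∀ z ∈ Z, N z ≤ c) {v : V} (hv : Gen D T Z v) : N v ≤ c := by
  induction hv with
  | base z hz => exact hZ z hz
  | zero => rw [stab_zero hN]; exact hc
  | add v w _ _ h1 h2 => exact (hu v w).trans (max_le h1 h2)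
  | smul d v hd _ h =>
    rw [hN.smul]
    calc ‖d‖ * N v ≤ ‖d‖ * c := mul_le_mul_of_nonneg_left h (norm_nonneg d)
      _ ≤ 1 * c := mul_le_mul_of_nonneg_right hd hc
      _ = c := one_mul c
  | map f hf v _ h => exact (hle f hf v).trans h

theorem stab_map_sum {f : V → V} (hadd : ∀ v w, f (v + w) = f v + f w) {ι : Type}
    (s : Finset ι) (x : ι → V) : f (∑ i ∈ s, x i) = ∑ i ∈ s, f (x i) :=
  map_sum (AddMonoidHom.mk' f hadd) x s

theorem stab_map_sub {f : V → V} (hadd : ∀ v w, f (v + w) = f v + f w) (v w : V) :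
    f (v - w) = f v - f w :=
  map_sub (AddMonoidHom.mk' f hadd) v w

variable [Module.Finite D V]

/-- The quotient norm. -/
theorem stab_quot (hN : IsNorm D N) (hu : ∀ v w, N (v + w) ≤ max (N v) (N w))
    (W : Submodule D V) :
    ∃ M : V ⧸ W → ℝ, IsNorm D M ∧ (∀ p q, M (p + q) ≤ max (M p) (M q)) ∧
      (∀ x, M (W.mkQ x) ≤ N x) ∧ ∀ q c, M q < c → ∃ x, W.mkQ x = q ∧ N x < c := by
  let M : V ⧸ W → ℝ := fun q => sInf (N '' {x | W.mkQ x = q})
  have hne : ∀ q, (N '' {x | W.mkQ x = q}).Nonempty := fun q => by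
    obtain ⟨x, hx⟩ := W.mkQ_surjective q
    exact ⟨N x, x, hx, rfl⟩
  have hbd : ∀ q, BddBelow (N '' {x | W.mkQ x = q}) := fun q =>
    ⟨0, by rintro _ ⟨x, -, rfl⟩; exact hN.nonneg x⟩
  have h1 : ∀ x, M (W.mkQ x) ≤ N x := fun x => csInf_le (hbd _) ⟨x, rfl, rfl⟩
  have h2 : ∀ q c, M q < c → ∃ x, W.mkQ x = q ∧ N x < c := fun q c h => by
    obtain ⟨_, ⟨x, hx, rfl⟩, hc⟩ := exists_lt_of_csInf_lt (hne q) h
    exact ⟨x, hx, hc⟩
  have h0 : ∀ q, 0 ≤ M q := fun q => by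
    by_contra h
    obtain ⟨x, -, hx⟩ := h2 q 0 (lt_of_not_ge h)
    exact hx.not_ge (hN.nonneg x)
  have h3 : ∀ p q, M (p + q) ≤ max (M p) (M q) := fun p q => by
    refine le_of_forall_gt fun c hc => ?_
    obtain ⟨x, rfl, hx⟩ := h2 p c ((le_max_left _ _).trans_lt hc)
    obtain ⟨y, rfl, hy⟩ := h2 q c ((le_max_right _ _).trans_lt hc)
    rw [← map_add]
    exact (h1 _).trans_lt ((hu x y).trans_lt (max_lt hx hy))
  have h4 : ∀ (A C : ℝ) q, 0 ≤ C → (∀ x, W.mkQ x = q → A ≤ C * N x) → A ≤ C * M q := by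
    intro A C q hC h
    rcases hC.eq_or_lt with rfl | hC
    · obtain ⟨x, hx⟩ := W.mkQ_surjective q
      simpa using h x hx
    · by_contra hlt
      obtain ⟨x, hx, hx'⟩ := h2 q (A / C) ((lt_div_iff₀' hC).2 (lt_of_not_ge hlt))
      exact ((lt_div_iff₀' hC).1 hx').not_ge (h x hx)
  have h5 : ∀ (d : D) q, M (d • q) ≤ ‖d‖ * M q := fun d q => by
    refine h4 _ _ q (norm_nonneg d) ?_
    rintro x rfl
    rw [← map_smul, ← hN.smul]
    exact h1 _
  refine ⟨M, ⟨fun p q => (h3 p q).trans (max_le (le_add_of_nonneg_right (h0 q))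
    (le_add_of_nonneg_left (h0 p))), fun d q => le_antisymm (h5 d q) ?_, fun g => ?_⟩, h3, h1, h2⟩
  · rcases eq_or_ne d 0 with rfl | hd
    · rw [norm_zero, zero_mul]; exact h0 _
    · have h := h5 d⁻¹ (d • q)
      rw [inv_smul_smul₀ hd, norm_inv] at h
      have hd' : 0 < ‖d‖ := norm_pos_iff.2 hd
      calc ‖d‖ * M q ≤ ‖d‖ * (‖d‖⁻¹ * M (d • q)) := mul_le_mul_of_nonneg_left h hd'.le
        _ = M (d • q) := mul_inv_cancel_left₀ hd'.ne' _
  · obtain ⟨C, hC⟩ := hN.bdd (g.comp W.mkQ)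
    refine ⟨max C 0, fun q => h4 _ _ q (le_max_right _ _) ?_⟩
    rintro x rfl
    exact (hC x).trans (mul_le_mul_of_nonneg_right (le_max_left _ _) (hN.nonneg x))

/-- An almost isometric linear section of the quotient map. -/
theorem stab_section [IsUltrametricDist D] (hN : IsNorm D N)
    (hu : ∀ v w, N (v + w) ≤ max (N v) (N w)) (W : Submodule D V) {M : V ⧸ W → ℝ}
    (hM : IsNorm D M) (hMu : ∀ p q, M (p + q) ≤ max (M p) (M q))
    (h2 : ∀ q c, M q < c → ∃ x, W.mkQ x = q ∧ N x < c) {θ : ℝ} (hθ : 1 < θ) :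
    ∃ σ : (V ⧸ W) →ₗ[D] V, (∀ q, W.mkQ (σ q) = q) ∧ ∀ q, N (σ q) ≤ θ * M q := by
  have hθ1 : 1 < (1 + θ) / 2 := by linarith
  have hθ2 : 1 < θ / ((1 + θ) / 2) := (one_lt_div (by linarith)).2 (by linarith)
  obtain ⟨b, hb⟩ := exists_almost_orth hM hMu hθ1
  have hx : ∀ i, ∃ x, W.mkQ x = b i ∧ N x < θ / ((1 + θ) / 2) * M (b i) := fun i => by
    refine h2 _ _ (lt_mul_of_one_lt_left ?_ hθ2)
    exact (hM.nonneg _).lt_of_ne fun h => b.ne_zero i (hM.eq_zero h.symm)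
  choose x hx1 hx2 using hx
  refine ⟨b.constr ℕ x, fun q => ?_, fun q => ?_⟩
  · have h : W.mkQ.comp (b.constr ℕ x) = LinearMap.id :=
      b.ext fun i => by rw [LinearMap.comp_apply, b.constr_basis, hx1, LinearMap.id_apply]
    exact LinearMap.congr_fun h q
  · rw [b.constr_apply_fintype ℕ]
    refine stab_sum hN hu _ _ (mul_nonneg (by linarith) (hM.nonneg q)) fun i _ => ?_
    rw [hN.smul, b.equivFun_apply]
    calc ‖b.repr q i‖ * N (x i) ≤ ‖b.repr q i‖ * (θ / ((1 + θ) / 2) * M (b i)) :=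
          mul_le_mul_of_nonneg_left (hx2 i).le (norm_nonneg _)
      _ = θ / ((1 + θ) / 2) * (‖b.repr q i‖ * M (b i)) := by ring
      _ ≤ θ / ((1 + θ) / 2) * ((1 + θ) / 2 * M q) :=
          mul_le_mul_of_nonneg_left (hb q i) (by linarith)
      _ = θ * M q := by
          have : (1 + θ) / 2 ≠ 0 := by linarith
          field_simp

/-- A maximal orthogonal family in a bounded set. -/
theorem stab_family (hN : IsNorm D N) (hu : ∀ v w, N (v + w) ≤ max (N v) (N w)) (L : Set V)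
    {δ : ℝ} (hδ : 0 < δ) (hL : ∀ v ∈ L, N v ≤ δ) :
    ∃ (u : ℕ) (e : Fin u → V), (∀ i, e i ∈ L) ∧
      (∀ (d : Fin u → D) i, δ * ‖d i‖ ≤ N (∑ j, d j • e j)) ∧
      ∀ v ∈ L, ∃ d : Fin u → D, N (v + ∑ j, d j • e j) < δ := by
  classical
  let P : ℕ → Prop := fun u => ∃ e : Fin u → V, (∀ i, e i ∈ L) ∧
    ∀ (d : Fin u → D) i, δ * ‖d i‖ ≤ N (∑ j, d j • e j)
  have hP0 : P 0 := ⟨Fin.elim0, fun i => i.elim0, fun _ i => i.elim0⟩
  have hPb : ∀ u, P u → u ≤ Module.finrank D V := by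
    rintro u ⟨e, -, he⟩
    have hli : LinearIndependent D e := by
      refine Fintype.linearIndependent_iff.2 fun d hd i => ?_
      have h := he d i
      rw [hd, stab_zero hN] at h
      exact norm_le_zero_iff.1 (nonpos_of_mul_nonpos_right h hδ)
    simpa using hli.fintype_card_le_finrank
  obtain ⟨e, he1, he2⟩ : P (Nat.findGreatest P (Module.finrank D V)) :=
    Nat.findGreatest_spec (Nat.zero_le _) hP0
  refine ⟨_, e, he1, he2, fun v hv => ?_⟩
  by_contra hcon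
  have H : ∀ c : Fin _ → D, δ ≤ N (v + ∑ j, c j • e j) :=
    fun c => le_of_not_gt fun h => hcon ⟨c, h⟩
  have hP : P (Nat.findGreatest P (Module.finrank D V) + 1) := by
    refine ⟨Fin.cons v e, Fin.cases hv he1, fun d i => ?_⟩
    rw [Fin.sum_univ_succ]
    simp only [Fin.cons_zero, Fin.cons_succ]
    have h0 : δ * ‖d 0‖ ≤ N (d 0 • v + ∑ j, d (Fin.succ j) • e j) := by
      rcases eq_or_ne (d 0) 0 with h | h
      · rw [h, norm_zero, mul_zero]; exact hN.nonneg _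
      · have h1 : d 0 • v + ∑ j, d (Fin.succ j) • e j =
            d 0 • (v + ∑ j, ((d 0)⁻¹ * d (Fin.succ j)) • e j) := by
          rw [smul_add, Finset.smul_sum]
          simp only [smul_smul, mul_inv_cancel_left₀ h]
        rw [h1, hN.smul, mul_comm]
        exact mul_le_mul_of_nonneg_left (H _) (norm_nonneg _)
    refine Fin.cases h0 (fun j => (he2 (fun j => d (Fin.succ j)) j).trans ?_) i
    have h2 := stab_sub hN hu (d 0 • v + ∑ j, d (Fin.succ j) • e j) (d 0 • v)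
    rw [add_sub_cancel_left] at h2
    refine h2.trans (max_le le_rfl (le_trans ?_ h0))
    rw [hN.smul, mul_comm]
    exact mul_le_mul_of_nonneg_right (hL v hv) (norm_nonneg _)
  exact absurd (Nat.le_findGreatest (hPb _ hP) hP) (Nat.not_succ_le_self _)

end Aux

theorem stab_main {D : Type} [NormedDivisionRing D] [IsUltrametricDist D] (n : ℕ) :
    ∀ (V : Type) [AddCommGroup V] [Module D V] [Module.Finite D V], Module.finrank D V < n →
    ∀ (N : V → ℝ), IsNorm D N → (∀ v w, N (v + w) ≤ max (N v) (N w)) →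
    ∀ T : Set (V → V), T.Finite → (∀ f ∈ T, ∀ v w, f (v + w) = f v + f w) →
    (∀ f ∈ T, ∃ α : D → D, (∀ d, ‖α d‖ = ‖d‖) ∧ ∀ (d : D) v, f (d • v) = α d • f v) →
    (∀ f ∈ T, ∀ v, N (f v) ≤ N v) → ∀ Z : Set V, Z.Finite →
    ∃ W : Set V, W.Finite ∧ (∀ w ∈ W, Gen D T Z w) ∧ ∀ v, Gen D T Z v → Gen D ∅ W v := by
  induction n with
  | zero => intro V _ _ _ h; exact absurd h (Nat.not_lt_zero _)
  | succ n ih =>
  intro V _ _ _ hV N hN hu T hT hadd hsemi hle Z hZ
  by_cases hZ0 : ∀ z ∈ Z, N z ≤ 0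
  · refine ⟨∅, Set.finite_empty, fun w hw => hw.elim, fun v hv => ?_⟩
    rw [hN.eq_zero (le_antisymm (stab_gen_le hN hu hle le_rfl hZ0 hv) (hN.nonneg v))]
    exact Gen.zero
  obtain ⟨z1, hz1, hz1'⟩ : ∃ z ∈ Z, 0 < N z := by
    by_contra h
    exact hZ0 fun z hz => le_of_not_gt fun h' => h ⟨z, hz, h'⟩
  obtain ⟨z0, hz0, hmax⟩ := Set.exists_max_image Z N hZ ⟨z1, hz1⟩
  obtain ⟨δ, hδd⟩ : ∃ δ, δ = N z0 := ⟨_, rfl⟩
  rw [← hδd] at hmax
  have hδ : 0 < δ := hz1'.trans_le (hmax z1 hz1)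
  have hL : ∀ v, Gen D T Z v → N v ≤ δ := fun v hv => stab_gen_le hN hu hle hδ.le hmax hv
  obtain ⟨u, e, he1, he2, he3⟩ := stab_family hN hu {v | Gen D T Z v} hδ hL
  let W : Submodule D V := Submodule.span D (Set.range e)
  have hWm : ∀ d : Fin u → D, ∑ j, d j • e j ∈ W := fun d =>
    (Submodule.mem_span_range_iff_exists_fun D).2 ⟨d, rfl⟩
  have hW0 : W ≠ ⊥ := by
    intro h
    obtain ⟨d, hd⟩ := he3 z0 (Gen.base z0 hz0)
    have h1 := hWm d
    rw [h, Submodule.mem_bot] at h1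
    rw [h1, add_zero, ← hδd] at hd
    exact lt_irrefl _ hd
  have hdim : Module.finrank D (V ⧸ W) < n := by
    have h1 := W.finrank_quotient_add_finrank
    have h2 : Module.finrank D W ≠ 0 := fun h => hW0 (Submodule.finrank_eq_zero.1 h)
    omega
  obtain ⟨M, hM, hMu, hM1, hM2⟩ := stab_quot hN hu W
  let Z' : Set (V ⧸ W) := W.mkQ '' Z ∪ ⋃ f ∈ T, Set.range fun i => W.mkQ (f (e i))
  have hZ'f : Z'.Finite := (hZ.image _).union (hT.biUnion fun f _ => Set.finite_range _)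
  have hZ'L : ∀ q ∈ Z', ∃ v, Gen D T Z v ∧ W.mkQ v = q := by
    rintro q (⟨z, hz, rfl⟩ | hq)
    · exact ⟨z, Gen.base z hz, rfl⟩
    · simp only [Set.mem_iUnion] at hq
      obtain ⟨f, hf, i, rfl⟩ := hq
      exact ⟨_, Gen.map f hf _ (he1 i), rfl⟩
  have hZ'e : ∀ f ∈ T, ∀ i, W.mkQ (f (e i)) ∈ Z' := fun f hf i =>
    Or.inr (Set.mem_biUnion hf ⟨i, rfl⟩)
  have hZ'lt : ∀ q ∈ Z', M q < δ := by
    intro q hq
    obtain ⟨v, hv, rfl⟩ := hZ'L q hq
    obtain ⟨d, hd⟩ := he3 v hv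
    refine lt_of_le_of_lt ?_ hd
    have h1 := hM1 (v + ∑ j, d j • e j)
    rwa [map_add, W.mkQ_apply (∑ j, d j • e j), (Submodule.Quotient.mk_eq_zero W).2 (hWm d),
      add_zero] at h1
  obtain ⟨γ, hγ0, hγ1, hγ⟩ : ∃ γ : ℝ, 0 < γ ∧ γ < 1 ∧ ∀ q ∈ Z', M q ≤ γ * δ := by
    obtain ⟨q0, hq0, hq0'⟩ := Set.exists_max_image Z' M hZ'f ⟨_, Or.inl ⟨z0, hz0, rfl⟩⟩
    refine ⟨max (M q0 / δ) (1 / 2), lt_max_of_lt_right (by norm_num),
      max_lt ((div_lt_one hδ).2 (hZ'lt q0 hq0)) (by norm_num), fun q hq => ?_⟩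
    exact (hq0' q hq).trans ((div_le_iff₀ hδ).1 (le_max_left _ _))
  obtain ⟨σ, hσ1, hσ2⟩ := stab_section hN hu W hM hMu hM2 ((one_lt_inv₀ hγ0).2 hγ1)
  have hdec : ∀ v, ∃ d : Fin u → D, ∑ j, d j • e j = v - σ (W.mkQ v) := fun v => by
    refine (Submodule.mem_span_range_iff_exists_fun D).1 ((Submodule.Quotient.mk_eq_zero W).1 ?_)
    rw [← W.mkQ_apply, map_sub, hσ1, sub_self]
  have hfW : ∀ f ∈ T, ∀ d : Fin u → D,
      M (W.mkQ (f (∑ j, d j • e j))) ≤ γ * N (∑ j, d j • e j) := by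
    intro f hf d
    obtain ⟨α, hα1, hα2⟩ := hsemi f hf
    rw [stab_map_sum (hadd f hf), map_sum]
    refine stab_sum hM hMu _ _ (mul_nonneg hγ0.le (hN.nonneg _)) fun i _ => ?_
    rw [hα2, map_smul, hM.smul, hα1]
    calc ‖d i‖ * M (W.mkQ (f (e i))) ≤ ‖d i‖ * (γ * δ) :=
          mul_le_mul_of_nonneg_left (hγ _ (hZ'e f hf i)) (norm_nonneg _)
      _ = γ * (δ * ‖d i‖) := by ring
      _ ≤ γ * N (∑ j, d j • e j) := mul_le_mul_of_nonneg_left (he2 d i) hγ0.le
  let T' : Set (V ⧸ W → V ⧸ W) := (fun (f : V → V) q => W.mkQ (f (σ q))) '' T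
  have hle' : ∀ f ∈ T', ∀ q, M (f q) ≤ M q := by
    rintro _ ⟨f, hf, rfl⟩ q
    refine le_of_forall_gt fun c hc => ?_
    obtain ⟨x, rfl, hx⟩ := hM2 q c hc
    obtain ⟨d, hd⟩ := hdec x
    have h1 : σ (W.mkQ x) = x - ∑ j, d j • e j := by rw [hd, sub_sub_cancel]
    show M (W.mkQ (f (σ (W.mkQ x)))) < c
    rw [h1, stab_map_sub (hadd f hf), map_sub]
    refine lt_of_le_of_lt ((stab_sub hM hMu _ _).trans (max_le ((hM1 _).trans (hle f hf x))
      ((hfW f hf d).trans ?_))) hx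
    rw [hd, ← le_inv_mul_iff₀ hγ0]
    refine (stab_sub hN hu _ _).trans (max_le ?_ ((hσ2 _).trans ?_))
    · exact le_mul_of_one_le_left (hN.nonneg x) ((one_lt_inv₀ hγ0).2 hγ1).le
    · exact mul_le_mul_of_nonneg_left (hM1 x) (inv_nonneg.2 hγ0.le)
  have hint : ∀ v, Gen D T Z v → Gen D T' Z' (W.mkQ v) →
      ∃ d : Fin u → D, (∀ j, ‖d j‖ ≤ 1) ∧ ∑ j, d j • e j = v - σ (W.mkQ v) := by
    intro v hv hv'
    obtain ⟨d, hd⟩ := hdec v
    refine ⟨d, fun j => ?_, hd⟩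
    have h1 := he2 d j
    rw [hd] at h1
    have h2 : N (σ (W.mkQ v)) ≤ δ := by
      refine (hσ2 _).trans ?_
      rw [inv_mul_le_iff₀ hγ0]
      exact stab_gen_le hM hMu hle' (mul_nonneg hγ0.le hδ.le) hγ hv'
    have h3 := h1.trans ((stab_sub hN hu _ _).trans (max_le (hL v hv) h2))
    exact (mul_le_iff_le_one_right hδ).1 h3
  have hdown : ∀ v, Gen D T Z v → Gen D T' Z' (W.mkQ v) := by
    intro v hv
    induction hv with
    | base z hz => exact Gen.base _ (Or.inl ⟨z, hz, rfl⟩)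
    | zero => rw [map_zero]; exact Gen.zero
    | add v w _ _ h1 h2 => rw [map_add]; exact Gen.add _ _ h1 h2
    | smul d v hd _ h => rw [map_smul]; exact Gen.smul d _ hd h
    | map f hf v hv h =>
      obtain ⟨d, hd1, hd2⟩ := hint v hv h
      obtain ⟨α, hα1, hα2⟩ := hsemi f hf
      have h1 : v = σ (W.mkQ v) + ∑ j, d j • e j := by rw [hd2, add_sub_cancel]
      rw [h1, hadd f hf, map_add, stab_map_sum (hadd f hf), map_sum]
      refine Gen.add _ _ (Gen.map (fun q => W.mkQ (f (σ q))) (Set.mem_image_of_mem _ hf) _ h)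
        (stab_gen_sum _ _ fun j _ => ?_)
      rw [hα2, map_smul]
      exact Gen.smul _ _ ((hα1 _).trans_le (hd1 j)) (Gen.base _ (hZ'e f hf j))
  have hσL : ∀ v, Gen D T Z v → Gen D T Z (σ (W.mkQ v)) := by
    intro v hv
    obtain ⟨d, hd1, hd2⟩ := hint v hv (hdown v hv)
    have h1 : σ (W.mkQ v) = v - ∑ j, d j • e j := by rw [hd2, sub_sub_cancel]
    rw [h1]
    exact stab_gen_sub hv (stab_gen_sum _ _ fun j _ => Gen.smul _ _ (hd1 j) (he1 j))
  have hup : ∀ q, Gen D T' Z' q → Gen D T Z (σ q) := by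
    intro q hq
    induction hq with
    | base q hq =>
      obtain ⟨v, hv, rfl⟩ := hZ'L q hq
      exact hσL v hv
    | zero => rw [map_zero]; exact Gen.zero
    | add p q _ _ h1 h2 => rw [map_add]; exact Gen.add _ _ h1 h2
    | smul d q hd _ h => rw [map_smul]; exact Gen.smul d _ hd h
    | map f hf q _ h =>
      obtain ⟨f, hf, rfl⟩ := hf
      exact hσL _ (Gen.map f hf _ h)
  obtain ⟨W', hW'1, hW'2, hW'3⟩ := ih (V ⧸ W) hdim M hM hMu T' (hT.image _)
    (by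
      rintro _ ⟨f, hf, rfl⟩ p q
      show W.mkQ (f (σ (p + q))) = W.mkQ (f (σ p)) + W.mkQ (f (σ q))
      rw [map_add, hadd f hf, map_add])
    (by
      rintro _ ⟨f, hf, rfl⟩
      obtain ⟨α, hα1, hα2⟩ := hsemi f hf
      refine ⟨α, hα1, fun d q => ?_⟩
      show W.mkQ (f (σ (d • q))) = α d • W.mkQ (f (σ q))
      rw [map_smul, hα2, map_smul]) hle' Z' hZ'f
  refine ⟨σ '' W' ∪ Set.range e, (hW'1.image _).union (Set.finite_range _), ?_, fun v hv => ?_⟩
  · rintro _ (⟨q, hq, rfl⟩ | ⟨i, rfl⟩)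
    · exact hup q (hW'2 q hq)
    · exact he1 i
  · have h0 : ∀ q, Gen D ∅ W' q → Gen D ∅ (σ '' W' ∪ Set.range e) (σ q) := by
      intro q hq
      induction hq with
      | base q hq => exact Gen.base _ (Or.inl ⟨q, hq, rfl⟩)
      | zero => rw [map_zero]; exact Gen.zero
      | add p q _ _ h1 h2 => rw [map_add]; exact Gen.add _ _ h1 h2
      | smul d q hd _ h => rw [map_smul]; exact Gen.smul d _ hd h
      | map f hf q _ _ => exact hf.elim
    obtain ⟨d, hd1, hd2⟩ := hint v hv (hdown v hv)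
    have h1 : v = σ (W.mkQ v) + ∑ j, d j • e j := by rw [hd2, add_sub_cancel]
    rw [h1]
    exact Gen.add _ _ (h0 _ (hW'3 _ (hdown v hv)))
      (stab_gen_sum _ _ fun j _ => Gen.smul _ _ (hd1 j) (Gen.base _ (Or.inr ⟨j, rfl⟩)))

/-- Induction on the dimension. Let `L = {v | Gen D T Z v}` and `δ` the maximum of `N` on `Z` (if it
is zero, `L = 0`); `N ≤ δ` on `L`. Take a maximal family `e 1 .. e u` in `L` with
`N (∑ d i • e i) = δ * max ‖d i‖` (it is linearly independent, `u ≥ 1`); by maximality every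
`v ∈ L` is within distance `< δ` of an integral combination of the `e i`. Let `W` be their span,
`N''` the quotient norm on `V / W`, `γ < 1` with `N'' ≤ γ δ` on the classes of the finitely many
vectors in `Z` and `f (e i)`, and `σ` a linear section with `N (σ v) ≤ θ N'' v`, `θ γ ≤ 1`
(`exists_almost_orth`). The maps `f'' = mk ∘ f ∘ σ` are semilinear and do not increase `N''`, because
`N'' (f w) ≤ γ N w` for `w ∈ W`. Apply the induction hypothesis to `T''` and
`Z'' = mk Z ∪ {mk (f (e i))}`: the image of `L` is the set generated, and `L ∩ W` is the set of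
integral combinations of the `e i`. -/
theorem gen_fg {D V : Type} [NormedDivisionRing D] [IsUltrametricDist D] [AddCommGroup V]
    [Module D V] [Module.Finite D V] {N : V → ℝ} (hN : IsNorm D N)
    (hu : ∀ v w, N (v + w) ≤ max (N v) (N w)) {T : Set (V → V)} (hT : T.Finite)
    (hadd : ∀ f ∈ T, ∀ v w, f (v + w) = f v + f w)
    (hsemi : ∀ f ∈ T, ∃ α : D → D, (∀ d, ‖α d‖ = ‖d‖) ∧ ∀ (d : D) v, f (d • v) = α d • f v)
    (hle : ∀ f ∈ T, ∀ v, N (f v) ≤ N v) {Z : Set V} (hZ : Z.Finite) :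
    ∃ W : Set V, W.Finite ∧ (∀ w ∈ W, Gen D T Z w) ∧ ∀ v, Gen D T Z v → Gen D ∅ W v :=
  stab_main _ V (Nat.lt_succ_self _) N hN hu T hT hadd hsemi hle Z hZ

end Pool.Agent.Lib.MP_9ac97d_al
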