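import Pool.Agent.Lib.MP_9ac97d_al.SL
import Pool.Agent.Lib.MP_9ac97d_al.GBasic

/-!
# Subspaces, subquotients, chains of virtually invariant subspaces (task SubQ)
-/

set_option autoImplicit false

noncomputable section

open Pointwise

namespace Pool.Agent.Lib.MP_9ac97d_al

namespace SL

variable {E D V : Type} [Group E] [NormedDivisionRing D] [AddCommGroup V] [Module D V]
  (A : SL E D V)

theorem subq_mul (e e' : E) (v : V) : A.act (e * e') v = A.act e (A.act e' v) := by
  rw [map_mul]; rfl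

theorem subq_one (v : V) : A.act 1 v = v := by
  rw [map_one]; rfl

theorem subq_inv_act (e : E) (v : V) : A.act e⁻¹ (A.act e v) = v := by
  rw [← subq_mul, inv_mul_cancel, subq_one]

theorem subq_act_inv (e : E) (v : V) : A.act e (A.act e⁻¹ v) = v := by
  rw [← subq_mul, mul_inv_cancel, subq_one]

theorem mem_sub {e : E} {U : Submodule D V} {v : V} : v ∈ A.sub e U ↔ A.act e⁻¹ v ∈ U := by
  constructor
  · rintro ⟨w, hw, rfl⟩
    rwa [subq_inv_act]
  · exact fun h => ⟨_, h, A.subq_act_inv e v⟩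

theorem sub_one (U : Submodule D V) : A.sub 1 U = U := by
  ext v
  rw [mem_sub, inv_one, subq_one]

theorem sub_mul (e e' : E) (U : Submodule D V) : A.sub (e * e') U = A.sub e (A.sub e' U) := by
  ext v
  rw [mem_sub, mem_sub, mem_sub, mul_inv_rev, subq_mul]

theorem sub_of_scal {e : E} (h : A.Scal e) (U : Submodule D V) : A.sub e U = U := by
  obtain ⟨d, hd⟩ := h
  ext v
  constructor
  · rintro ⟨w, hw, rfl⟩
    rw [hd]
    exact U.smul_mem d hw
  · intro hv
    by_cases h0 : d = 0
    · have h1 : v = 0 := by rw [← A.subq_act_inv e v, hd, h0, zero_smul]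
      rw [h1]
      exact Submodule.zero_mem _
    · exact ⟨d⁻¹ • v, U.smul_mem _ hv, by rw [hd, smul_inv_smul₀ h0]⟩

theorem act_mem_semi (e : E) : A.act e ∈ semi D V := ⟨A.α e, A.smul e⟩

/-- The action on subspaces. -/
@[reducible] def subAction : MulAction E (Submodule D V) where
  smul := A.sub
  one_smul := A.sub_one
  mul_smul := A.sub_mul

/-- The stabilizer of a subspace. -/
def stab (U : Submodule D V) : Subgroup E where
  carrier := {e | A.sub e U = U}
  mul_mem' := fun {a b} ha hb => by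
    show A.sub (a * b) U = U
    rw [A.sub_mul, hb, ha]
  one_mem' := A.sub_one U
  inv_mem' := fun {a} ha => by
    show A.sub a⁻¹ U = U
    conv_lhs => rw [← (ha : A.sub a U = U)]
    rw [← A.sub_mul, inv_mul_cancel, A.sub_one]

theorem finiteIndex_stab_iff (U : Submodule D V) :
    (A.stab U).FiniteIndex ↔ (Set.range fun e : E => A.sub e U).Finite := by
  let _ := A.subAction
  have h1 : A.stab U = MulAction.stabilizer E U := rfl
  have h2 : (Set.range fun e : E => A.sub e U) = MulAction.orbit E U := rfl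
  rw [h1, h2, Subgroup.finiteIndex_iff, MulAction.index_stabilizer]
  constructor
  · exact Set.finite_of_ncard_ne_zero
  · exact fun h => Set.ncard_ne_zero_of_mem (MulAction.mem_orbit_self U) h

theorem subq_mem {U : Submodule D V} {e : E} (h : A.sub e U = U) {v : V} (hv : v ∈ U) :
    A.act e v ∈ U := by
  rw [← h]
  exact ⟨v, hv, rfl⟩

theorem subq_mem_stab {U : Submodule D V} {e : E} (h : ∀ v ∈ U, A.act e v ∈ U)
    (h' : ∀ v ∈ U, A.act e⁻¹ v ∈ U) : e ∈ A.stab U := by
  show A.sub e U = U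
  ext v
  constructor
  · rintro ⟨w, hw, rfl⟩
    exact h w hw
  · exact fun hv => A.mem_sub.2 (h' v hv)

/-- The restriction of the action to an invariant subspace. -/
def subq_res {U : Submodule D V} (h : ∀ e, A.sub e U = U) (e : E) :
    U →ₛₗ[(A.α e : D →+* D)] U where
  toFun v := ⟨A.act e v, A.subq_mem (h e) v.2⟩
  map_add' v w := Subtype.ext (map_add (A.act e) (v : V) (w : V))
  map_smul' d v := Subtype.ext (A.smul e d v)

/-- The subquotient `U₁ / U₀`. -/
abbrev SQ (U₀ U₁ : Submodule D V) : Type := U₁ ⧸ U₀.comap U₁.subtype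

/-- The action on a subquotient by invariant subspaces. -/
theorem exists_subquot {U₀ U₁ : Submodule D V} (h₀ : ∀ e, A.sub e U₀ = U₀)
    (h₁ : ∀ e, A.sub e U₁ = U₁) :
    ∃ B : SL E D (SQ U₀ U₁), B.α = A.α ∧ ∀ (e : E) (v w : U₁), (w : V) = A.act e v →
      B.act e (Submodule.Quotient.mk v) = Submodule.Quotient.mk w := by
  let q : ∀ e : E, SQ U₀ U₁ →ₛₗ[(A.α e : D →+* D)] SQ U₀ U₁ := fun e =>
    Submodule.mapQ _ _ (A.subq_res h₁ e) fun v hv => A.subq_mem (h₀ e) hv
  have hq : ∀ (e : E) (v : U₁), q e (Submodule.Quotient.mk v) =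
      Submodule.Quotient.mk (A.subq_res h₁ e v) := fun e v => rfl
  let act : E →* AddMonoid.End (SQ U₀ U₁) :=
    { toFun := fun e => (q e).toAddMonoidHom
      map_one' := by
        refine AddMonoidHom.ext fun x => ?_
        obtain ⟨v, rfl⟩ := Submodule.Quotient.mk_surjective _ x
        refine (hq 1 v).trans (congrArg Submodule.Quotient.mk (Subtype.ext ?_))
        exact A.subq_one v
      map_mul' := fun e e' => by
        refine AddMonoidHom.ext fun x => ?_
        obtain ⟨v, rfl⟩ := Submodule.Quotient.mk_surjective _ x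
        refine (hq (e * e') v).trans (congrArg Submodule.Quotient.mk (Subtype.ext ?_))
        exact A.subq_mul e e' v }
  refine ⟨⟨A.α, act, fun e d x => (q e).map_smulₛₗ d x, A.iso⟩, rfl, fun e v w h => ?_⟩
  exact (hq e v).trans (congrArg Submodule.Quotient.mk (Subtype.ext h.symm))

theorem subq_chain [Module.Finite D V] (P : Submodule D V → Prop) (hP : P ⊤)
    (U₀ : Submodule D V) : P U₀ →
    ∃ (l : ℕ) (U : ℕ → Submodule D V), U 0 = U₀ ∧ U l = ⊤ ∧ (∀ k < l, U k < U (k + 1)) ∧
      (∀ k ≤ l, P (U k)) ∧ ∀ k < l, ∀ W, U k < W → W < U (k + 1) → ¬ P W := by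
  induction U₀ using WellFoundedGT.induction with
  | ind U₀ ih =>
    intro h0
    by_cases ht : U₀ = ⊤
    · exact ⟨0, fun _ => U₀, rfl, ht, fun k hk => absurd hk (Nat.not_lt_zero k),
        fun _ _ => h0, fun k hk => absurd hk (Nat.not_lt_zero k)⟩
    · obtain ⟨W, hW⟩ := exists_minimal_of_wellFoundedLT (fun W => U₀ < W ∧ P W)
        ⟨⊤, lt_top_iff_ne_top.2 ht, hP⟩
      obtain ⟨l, U, h1, h2, h3, h4, h5⟩ := ih W hW.prop.1 hW.prop.2
      refine ⟨l + 1, fun k => Nat.casesOn k U₀ U, rfl, h2, fun k hk => ?_, fun k hk => ?_,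
        fun k hk W' h6 h7 h8 => ?_⟩
      · cases k with
        | zero => exact lt_of_lt_of_eq hW.prop.1 h1.symm
        | succ k => exact h3 k (by omega)
      · cases k with
        | zero => exact h0
        | succ k => exact h4 k (by omega)
      · cases k with
        | zero =>
          have h9 : W' < W := lt_of_lt_of_eq h7 h1
          exact hW.not_prop_of_lt h9 ⟨h6, h8⟩
        | succ k => exact h5 k (by omega) W' h6 h7 h8

/-- A maximal chain in the set of subspaces with finite orbit. -/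
theorem exists_chain [Module.Finite D V] :
    ∃ (l : ℕ) (U : ℕ → Submodule D V), U 0 = ⊥ ∧ U l = ⊤ ∧ (∀ k < l, U k < U (k + 1)) ∧
      (∀ k ≤ l, (A.stab (U k)).FiniteIndex) ∧
      ∀ k < l, ∀ W, U k < W → W < U (k + 1) → ¬ (A.stab W).FiniteIndex := by
  have ht : A.stab ⊤ = ⊤ :=
    top_unique fun e _ => A.subq_mem_stab (fun _ _ => trivial) fun _ _ => trivial
  have hb : A.stab ⊥ = ⊤ :=
    top_unique fun e _ => A.subq_mem_stab
      (fun v hv => by rw [(Submodule.mem_bot D).1 hv, map_zero]; exact Submodule.zero_mem _)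
      fun v hv => by rw [(Submodule.mem_bot D).1 hv, map_zero]; exact Submodule.zero_mem _
  exact subq_chain (fun W => (A.stab W).FiniteIndex) (by simp only [ht]; infer_instance) ⊥
    (by simp only [hb]; infer_instance)

/-- The steps of a maximal chain are strongly irreducible for every finite index subgroup. -/
theorem si_subquot {E' : Subgroup E} [E'.FiniteIndex] {U₀ U₁ : Submodule D V} (hle : U₀ ≤ U₁)
    (hmax : ∀ W, U₀ < W → W < U₁ → ¬ (A.stab W).FiniteIndex) (B : SL E' D (SQ U₀ U₁))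
    (hB : ∀ (e : E') (v w : U₁), (w : V) = A.act e v →
      B.act e (Submodule.Quotient.mk v) = Submodule.Quotient.mk w)
    (h₀ : E' ≤ A.stab U₀) (h₁ : E' ≤ A.stab U₁) : B.SI := by
  have _h := h₀
  intro U hb ht hfin
  have hfi : (B.stab U).FiniteIndex := (B.finiteIndex_stab_iff U).2 hfin
  let W : Submodule D V := (U.comap (U₀.comap U₁.subtype).mkQ).map U₁.subtype
  have hW : ∀ v : V, v ∈ W ↔ ∃ h : v ∈ U₁,
      (Submodule.Quotient.mk (⟨v, h⟩ : U₁) : SQ U₀ U₁) ∈ U := fun v => by
    constructor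
    · rintro ⟨w, hw, rfl⟩
      exact ⟨w.2, hw⟩
    · rintro ⟨h, hv⟩
      exact ⟨⟨v, h⟩, hv, rfl⟩
  have h2 : U₀ < W := by
    refine lt_of_le_of_ne (fun v hv => (hW v).2 ⟨hle hv, ?_⟩) fun h => hb ?_
    · rw [(Submodule.Quotient.mk_eq_zero _).2 (show (⟨v, hle hv⟩ : U₁) ∈ U₀.comap U₁.subtype
        from hv)]
      exact U.zero_mem
    · refine (Submodule.eq_bot_iff _).2 fun x hx => ?_
      obtain ⟨v, rfl⟩ := Submodule.Quotient.mk_surjective _ x
      have h3 : (v : V) ∈ W := (hW v).2 ⟨v.2, hx⟩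
      rw [← h] at h3
      exact (Submodule.Quotient.mk_eq_zero _).2 h3
  have h3 : W < U₁ := by
    refine lt_of_le_of_ne (fun v hv => ((hW v).1 hv).1) fun h => ht ?_
    refine top_unique fun x _ => ?_
    obtain ⟨v, rfl⟩ := Submodule.Quotient.mk_surjective _ x
    have h4 : (v : V) ∈ W := by rw [h]; exact v.2
    exact ((hW v).1 h4).2
  have h4 : ∀ e : E', e ∈ B.stab U → ∀ v ∈ W, A.act e v ∈ W := fun e he v hv => by
    obtain ⟨h5, h6⟩ := (hW v).1 hv
    have h7 : A.act e v ∈ U₁ := A.subq_mem (h₁ e.2) h5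
    refine (hW _).2 ⟨h7, ?_⟩
    rw [← hB e ⟨v, h5⟩ ⟨_, h7⟩ rfl]
    exact B.subq_mem he h6
  have h5 : (B.stab U).map E'.subtype ≤ A.stab W := by
    rintro _ ⟨e, he, rfl⟩
    exact A.subq_mem_stab (h4 e he) (h4 e⁻¹ (inv_mem he))
  have h6 : ((B.stab U).map E'.subtype).FiniteIndex := by
    rw [Subgroup.finiteIndex_iff, Subgroup.index_map_subtype]
    exact mul_ne_zero hfi.index_ne_zero Subgroup.FiniteIndex.index_ne_zero
  exact hmax W h2 h3 (Subgroup.finiteIndex_of_le h5)

end SL

end Pool.Agent.Lib.MP_9ac97d_al
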