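import Pool.Agent.Lib.MP_9ac97d_al.TBasic

/-!
# Axes in the Cayley tree (task TAx)

The lemmas on `Ax`, `Hyp`, `sd` of `Pool.Agent.Lib.MP_d87150_al.LTree` can be transferred (build an
`LTree ℤ (Fr n)` from the lemmas of `TBasic`), or give direct proofs.
-/

set_option autoImplicit false

noncomputable section

open Pointwise

namespace Pool.Agent.Lib.MP_9ac97d_al

variable {n : ℕ}

open Pool.Agent.Lib.MP_d87150_al in
/-- The Cayley tree as a `ℤ`-tree. -/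
def taxT (n : ℕ) : LTree ℤ (Fr n) where
  d x y := dd x y
  d_self x := by rw [dd_self]; rfl
  d_comm x y := by rw [dd_comm]
  eq_of_d x y h := dd_eq_zero.1 (by exact_mod_cast h)
  four x y z w := by exact_mod_cast dd_four x y z w
  geo x y t h0 h1 := by
    obtain ⟨k, rfl⟩ := Int.eq_ofNat_of_zero_le h0
    obtain ⟨m, hm, hk⟩ := exists_btw x y (t := k) (by exact_mod_cast h1)
    unfold Btw at hm
    exact ⟨m, by rw [hk], by omega⟩
  half x y z := by
    obtain ⟨r, hr⟩ := dd_parity x y z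
    exact ⟨(r : ℤ) - dd y z, by omega⟩

theorem tax_d (x y : Fr n) : (taxT n).d x y = dd x y := rfl

theorem tax_iso : (taxT n).Iso (Fr n) := fun g x y => by
  rw [tax_d, tax_d, smul_eq_mul, smul_eq_mul, dd_mul_left]

theorem tax_btw {x m y : Fr n} : (taxT n).Btw x m y ↔ Btw x m y := by
  unfold Pool.Agent.Lib.MP_d87150_al.LTree.Btw Btw
  rw [tax_d, tax_d, tax_d]
  omega

theorem tax_ax {a y : Fr n} : y ∈ (taxT n).Ax a ↔ y ∈ Ax a := by
  change ((dd y (a * (a * y)) : ℤ) = dd y (a * y) + dd y (a * y)) ↔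
    dd y (a * a * y) = 2 * dd y (a * y)
  rw [mul_assoc]
  omega

theorem tax_tl_le (a y : Fr n) : tl a ≤ dd y (a * y) := Nat.sInf_le ⟨y, rfl⟩

theorem tax_exists_tl (a : Fr n) : ∃ y, dd y (a * y) = tl a :=
  Nat.sInf_mem (Set.range_nonempty fun y : Fr n => dd y (a * y))

theorem tax_ax_one (y : Fr n) : y ∈ Ax (1 : Fr n) := by
  change dd y (1 * 1 * y) = 2 * dd y (1 * y)
  rw [one_mul, one_mul, dd_self]

theorem tax_tl_one : tl (1 : Fr n) = 0 :=
  Nat.eq_zero_of_le_zero ((tax_tl_le 1 1).trans (by rw [one_mul, dd_self]))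

theorem tax_hyp {a : Fr n} (ha : a ≠ 1) : (taxT n).Hyp a := by
  refine ⟨fun p hp => ha (mul_eq_right.1 hp), ?_⟩
  obtain ⟨p, hp⟩ := tax_exists_tl a
  have key : dd p (a * p) ≤ dd p (a * (a * p)) := by
    obtain ⟨m, h1, h2, h3⟩ := exists_median (a⁻¹ * p) p (a * p)
    have h4 := h1.mul_left a
    rw [mul_inv_cancel_left] at h4
    have e1 : dd p (a * m) = dd (a⁻¹ * p) m := by
      rw [← dd_mul_left a (a⁻¹ * p) m, mul_inv_cancel_left]
    have e2 : dd p (a * (a * p)) = dd (a⁻¹ * p) (a * p) := by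
      rw [← dd_mul_left a (a⁻¹ * p) (a * p), mul_inv_cancel_left]
    have e3 : dd p (a * p) = dd (a⁻¹ * p) p := by
      rw [← dd_mul_left a (a⁻¹ * p) p, mul_inv_cancel_left]
    have c1 := dd_comm m p
    rcases le_total (dd p (a * m)) (dd p m) with h | h
    · have h5 := (h4.order h2 h).1
      have h6 := tax_tl_le a m
      have c2 := dd_comm m (a * m)
      unfold Btw at h1 h2 h3 h5
      have h7 : dd (a⁻¹ * p) (a * p) = 0 := by omega
      have h8 : a⁻¹ = a := mul_right_cancel (dd_eq_zero.1 h7)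
      have h9 : a ^ 2 = 1 := by rw [sq]; exact mul_eq_one_iff_inv_eq.2 h8
      exact absurd ((pow_eq_one_iff_left two_ne_zero).1 h9) ha
    · unfold Btw at h1 h2 h3
      omega
  obtain ⟨m, hm, -⟩ := Pool.Agent.Lib.MP_d87150_al.LTree.ltree_median tax_iso (g := a) (p := p)
    (by rw [tax_d, tax_d]; exact_mod_cast key)
  exact ⟨m, hm⟩

theorem tax_tl_eq {a y : Fr n} (hy : y ∈ Ax a) : dd y (a * y) = tl a := by
  refine le_antisymm ?_ (tax_tl_le a y)
  obtain ⟨p, hp⟩ := tax_exists_tl a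
  have h := Pool.Agent.Lib.MP_d87150_al.LTree.ltree_disp_le tax_iso (tax_ax.2 hy) p
  rw [tax_d, tax_d, smul_eq_mul, smul_eq_mul, hp] at h
  exact_mod_cast h

theorem tax_proj {a : Fr n} (ha : a ≠ 1) (y : Fr n) :
    ∃ q ∈ Ax a, (∀ r ∈ Ax a, Btw y q r) ∧ dd y (a * y) = tl a + 2 * dd y q := by
  obtain ⟨q, hq, h1, h2⟩ := Pool.Agent.Lib.MP_d87150_al.LTree.exists_proj tax_iso (tax_hyp ha) y
  refine ⟨q, tax_ax.1 hq, fun r hr => tax_btw.1 (h1 r (tax_ax.2 hr)), ?_⟩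
  rw [tax_d, tax_d, tax_d, smul_eq_mul, smul_eq_mul, tax_tl_eq (tax_ax.1 hq)] at h2
  omega

theorem ax_nonempty (a : Fr n) : (Ax a).Nonempty := by
  by_cases ha : a = 1
  · exact ⟨1, ha ▸ tax_ax_one 1⟩
  · obtain ⟨p, hp⟩ := (tax_hyp ha).2
    exact ⟨p, tax_ax.1 hp⟩

theorem tl_pos {a : Fr n} (ha : a ≠ 1) : 0 < tl a := by
  obtain ⟨p, hp⟩ := tax_exists_tl a
  rw [← hp]
  exact Nat.pos_of_ne_zero fun h => ha (mul_eq_right.1 (dd_eq_zero.1 h).symm)

theorem mem_ax_iff {a y : Fr n} : y ∈ Ax a ↔ dd y (a * y) = tl a := by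
  refine ⟨tax_tl_eq, fun h => ?_⟩
  by_cases ha : a = 1
  · exact ha ▸ tax_ax_one y
  · obtain ⟨q, hq, -, h2⟩ := tax_proj ha y
    have h3 : dd y q = 0 := by omega
    exact dd_eq_zero.1 h3 ▸ hq

theorem tl_le (a y : Fr n) : tl a ≤ dd y (a * y) := tax_tl_le a y

theorem tl_conj (g a : Fr n) : tl (g * a * g⁻¹) = tl a := by
  obtain ⟨p, hp⟩ := ax_nonempty a
  have h := (Pool.Agent.Lib.MP_d87150_al.LTree.mem_ax_conj tax_iso a g p).2 (tax_ax.2 hp)
  rw [← tax_tl_eq (tax_ax.1 h), ← tax_tl_eq hp, smul_eq_mul,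
    show g * a * g⁻¹ * (g * p) = g * (a * p) by group, dd_mul_left]

theorem mul_mem_ax_conj (g a y : Fr n) : g * y ∈ Ax (g * a * g⁻¹) ↔ y ∈ Ax a := by
  rw [← tax_ax, ← tax_ax]
  exact Pool.Agent.Lib.MP_d87150_al.LTree.mem_ax_conj tax_iso a g y

theorem ax_inv (a : Fr n) : Ax a⁻¹ = Ax a := by
  have key : ∀ b : Fr n, Ax b ⊆ Ax b⁻¹ := fun b p hp =>
    tax_ax.1 (Pool.Agent.Lib.MP_d87150_al.LTree.ltree_mem_inv tax_iso (tax_ax.2 hp))
  refine Set.Subset.antisymm ?_ (key a)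
  have h := key a⁻¹
  rwa [inv_inv] at h

theorem mul_mem_ax {a b y : Fr n} (h : Commute a b) (hy : y ∈ Ax a) : b * y ∈ Ax a :=
  tax_ax.1 (Pool.Agent.Lib.MP_d87150_al.LTree.smul_mem_ax tax_iso h (tax_ax.2 hy))

theorem ax_convex {a p m q : Fr n} (hp : p ∈ Ax a) (hq : q ∈ Ax a) (hm : Btw p m q) :
    m ∈ Ax a := by
  by_cases ha : a = 1
  · exact ha ▸ tax_ax_one m
  · exact tax_ax.1 (Pool.Agent.Lib.MP_d87150_al.LTree.btw_mem_ax tax_iso (tax_hyp ha)
      (tax_ax.2 hp) (tax_ax.2 hq) (tax_btw.2 hm))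

/-- Projection to the axis. -/
theorem exists_proj {a : Fr n} (ha : a ≠ 1) (y : Fr n) :
    ∃ q ∈ Ax a, (∀ r ∈ Ax a, Btw y q r) ∧ dd y (a * y) = tl a + 2 * dd y q ∧
      Btw y q (a * y) ∧ Btw y (a * q) (a * y) := by
  obtain ⟨q, hq, h1, h2⟩ := tax_proj ha y
  have h3 := h1 _ (mul_mem_ax (Commute.refl a) hq)
  have h4 := tax_tl_eq hq
  have h5 := dd_mul_left a q y
  have h6 := dd_comm q y
  have h7 := dd_triangle q (a * q) (a * y)
  have h8 := dd_triangle y q (a * y)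
  refine ⟨q, hq, h1, h2, ?_, ?_⟩ <;> unfold Btw at * <;> omega

theorem dd_pow_of_mem_ax {a y : Fr n} (hy : y ∈ Ax a) (k : ℕ) : dd y (a ^ k * y) = k * tl a := by
  by_cases ha : a = 1
  · rw [ha, one_pow, one_mul, dd_self, tax_tl_one, mul_zero]
  · have h1 := Pool.Agent.Lib.MP_d87150_al.LTree.d_zpow_smul tax_iso (tax_hyp ha) (tax_ax.2 hy) k
    have h2 := Pool.Agent.Lib.MP_d87150_al.LTree.abs_sd (𝒯 := taxT n) a y (a ^ (k : ℤ) • y)
    rw [h1, tax_d, tax_d, smul_eq_mul, smul_eq_mul, smul_eq_mul, tax_tl_eq hy, zpow_natCast,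
      abs_of_nonneg (by positivity)] at h2
    exact_mod_cast h2.symm

theorem ax_pow {a : Fr n} {k : ℕ} (hk : k ≠ 0) : Ax (a ^ k) = Ax a := by
  by_cases ha : a = 1
  · rw [ha, one_pow]
  · have hk' : a ^ k ≠ 1 := fun h => ha ((pow_eq_one_iff_left hk).1 h)
    refine Set.Subset.antisymm (fun p hp => ?_) fun p hp => ?_
    · exact tax_ax.1 (Pool.Agent.Lib.MP_d87150_al.LTree.ax_subset_of_commute tax_iso (tax_hyp hk')
        ((Commute.refl a).pow_left k) (tax_ax.2 hp))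
    · exact tax_ax.1 (Pool.Agent.Lib.MP_d87150_al.LTree.ax_subset_of_commute tax_iso (tax_hyp ha)
        ((Commute.refl a).pow_right k) (tax_ax.2 hp))

/-- The axis is covered by the translates of one fundamental segment. -/
theorem exists_zpow_btw {a y z : Fr n} (ha : a ≠ 1) (hy : y ∈ Ax a) (hz : z ∈ Ax a) :
    ∃ k : ℤ, Btw y (a ^ k * z) (a * y) := by
  have hl : (0 : ℤ) < tl a := by exact_mod_cast tl_pos ha
  obtain ⟨s, hs⟩ : ∃ s, s = (taxT n).sd a y z := ⟨_, rfl⟩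
  refine ⟨-(s / tl a), ?_⟩
  have hw : a ^ (-(s / tl a)) * z ∈ Ax a := mul_mem_ax ((Commute.refl a).zpow_right _) hz
  have hay : a * y ∈ Ax a := mul_mem_ax (Commute.refl a) hy
  have h1 := Pool.Agent.Lib.MP_d87150_al.LTree.d_zpow_smul tax_iso (tax_hyp ha) (tax_ax.2 hz)
    (-(s / tl a))
  rw [tax_d, smul_eq_mul, smul_eq_mul, smul_eq_mul, tax_tl_eq hz] at h1
  have h2 := Pool.Agent.Lib.MP_d87150_al.LTree.sd_add tax_iso (tax_hyp ha) (tax_ax.2 hy)
    (tax_ax.2 hz) (tax_ax.2 hw)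
  have h3 := Pool.Agent.Lib.MP_d87150_al.LTree.sd_add tax_iso (tax_hyp ha) (tax_ax.2 hy)
    (tax_ax.2 hw) (tax_ax.2 hay)
  have h4 := Pool.Agent.Lib.MP_d87150_al.LTree.sd_smul_self tax_iso (tax_hyp ha) (tax_ax.2 hy)
  rw [tax_d, smul_eq_mul, tax_tl_eq hy] at h4
  have h5 := Pool.Agent.Lib.MP_d87150_al.LTree.abs_sd (𝒯 := taxT n) a y (a ^ (-(s / tl a)) * z)
  have h6 := Pool.Agent.Lib.MP_d87150_al.LTree.abs_sd (𝒯 := taxT n) a (a ^ (-(s / tl a)) * z)
    (a * y)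
  have h7 := Int.emod_nonneg s hl.ne'
  have h8 := Int.emod_lt_of_pos s hl
  have h9 := Int.emod_add_ediv_mul s (tl a)
  rw [← hs, h1] at h2
  rw [h4] at h3
  rw [tax_d, abs_of_nonneg (by linarith)] at h5 h6
  have h10 := tax_tl_eq hy
  unfold Btw
  have h11 : (dd y (a ^ (-(s / tl a)) * z) : ℤ) + dd (a ^ (-(s / tl a)) * z) (a * y) = tl a := by
    linarith
  omega

/-- If `[p, q]` is a bridge between the axes (possibly with `p = q` excluded), the axis of the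
product contains it. -/
theorem bridge {a b p q : Fr n} (ha : a ≠ 1) (hb : b ≠ 1) (hp : p ∈ Ax a) (hq : q ∈ Ax b)
    (hpq : p ≠ q) (h1 : ∀ r ∈ Ax a, Btw q p r) (h2 : ∀ r ∈ Ax b, Btw p q r) :
    a * b ≠ 1 ∧ p ∈ Ax (a * b) ∧ q ∈ Ax (a * b) ∧ tl (a * b) = tl a + tl b + 2 * dd p q := by
  have n1 : p ≠ a * p := fun h => ha (mul_eq_right.1 h.symm)
  have n2 : a * p ≠ a * q := fun h => hpq (mul_left_cancel h)
  have n3 : a * q ≠ a * b * q := fun h => hb (mul_eq_left.1 (mul_right_cancel h).symm)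
  have n4 : a * b * q ≠ a * b * p := fun h => hpq (mul_left_cancel h).symm
  have b1 : Btw q p (a * p) := h1 _ (mul_mem_ax (Commute.refl a) hp)
  have b2 : Btw p (a * p) (a * q) := by
    have h := (h1 _ (mul_mem_ax (Commute.refl a).inv_right hp)).symm.mul_left a
    rwa [mul_inv_cancel_left] at h
  have b3 : Btw (a * p) (a * q) (a * b * q) := by
    have h := (h2 _ (mul_mem_ax (Commute.refl b) hq)).mul_left a
    rwa [← mul_assoc] at h
  have b4 : Btw (a * q) (a * b * q) (a * b * p) := by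
    have h := (h2 _ (mul_mem_ax (Commute.refl b).inv_right hq)).symm.mul_left (a * b)
    rwa [show a * b * (b⁻¹ * q) = a * q by group] at h
  have c1 : Btw q (a * p) (a * q) := (b1.trans b2 n1).2
  have c2 : Btw q (a * q) (a * b * q) := (c1.trans b3 n2).2
  have c3 : Btw q (a * b * q) (a * b * p) := (c2.trans b4 n3).2
  have e1 := tax_tl_eq hp
  have e2 : dd (a * q) (a * b * q) = tl b := by rw [mul_assoc, dd_mul_left, tax_tl_eq hq]
  have e3 := dd_mul_left a p q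
  have e4 := dd_comm q p
  have eL : dd q (a * b * q) = tl a + tl b + 2 * dd p q := by
    unfold Btw at b1 c1 c2
    omega
  have c4 : Btw q p (a * b * q) :=
    (b1.trans ((b2.trans b3 n2).1) n1).1
  have c5 : Btw q (a * b * q) (a * b * (a * b * q)) := (c3.trans (c4.mul_left (a * b)) n4).1
  have hqA : q ∈ Ax (a * b) := by
    change dd q (a * b * (a * b) * q) = 2 * dd q (a * b * q)
    have e5 := dd_mul_left (a * b) q (a * b * q)
    unfold Btw at c5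
    rw [mul_assoc (a * b) (a * b) q]
    omega
  have hL : tl (a * b) = tl a + tl b + 2 * dd p q := (tax_tl_eq hqA).symm.trans eL
  refine ⟨fun h => ?_, ax_convex hqA (mul_mem_ax (Commute.refl _) hqA) c4, hqA, hL⟩
  have := tl_pos ha
  rw [h, tax_tl_one] at hL
  omega

/-- Two axes meet or are joined by a bridge. -/
theorem meet_or_bridge {a b : Fr n} (ha : a ≠ 1) (hb : b ≠ 1) :
    (Ax a ∩ Ax b).Nonempty ∨ ∃ p ∈ Ax a, ∃ q ∈ Ax b, p ≠ q ∧ (∀ r ∈ Ax a, Btw q p r) ∧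
      ∀ r ∈ Ax b, Btw p q r := by
  obtain ⟨p0, hp0⟩ := ax_nonempty a
  obtain ⟨q0, hq0⟩ := ax_nonempty b
  obtain ⟨⟨p, q⟩, ⟨hp, hq⟩, hmin⟩ := (measure fun z : Fr n × Fr n => dd z.1 z.2).wf.has_min
    (Ax a ×ˢ Ax b) ⟨(p0, q0), hp0, hq0⟩
  have hm : ∀ p' ∈ Ax a, ∀ q' ∈ Ax b, dd p q ≤ dd p' q' := fun p' hp' q' hq' =>
    not_lt.1 (hmin (p', q') ⟨hp', hq'⟩)
  by_cases hpq : p = q
  · exact Or.inl ⟨p, hp, hpq ▸ hq⟩
  refine Or.inr ⟨p, hp, q, hq, hpq, ?_, ?_⟩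
  · obtain ⟨p', hp', h1, -⟩ := tax_proj ha q
    have h2 := h1 p hp
    have h3 := hm p' hp' q hq
    have c1 := dd_comm p' q
    have c2 := dd_comm p q
    have h4 : dd p' p = 0 := by unfold Btw at h2; omega
    exact dd_eq_zero.1 h4 ▸ h1
  · obtain ⟨q', hq', h1, -⟩ := tax_proj hb p
    have h2 := h1 q hq
    have h3 := hm p hp q' hq'
    have h4 : dd q' q = 0 := by unfold Btw at h2; omega
    exact dd_eq_zero.1 h4 ▸ h1

end Pool.Agent.Lib.MP_9ac97d_al
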