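import Pool.Agent.Lib.MP_9ac97d_al.Tree
import Pool.Agent.Lib.MP_d87150_al.LTree

/-!
# The Cayley tree: geodesics, half trees, axes (task TBasic)

Suggested route: build `ctree n : LTree ℤ (Fr n)` with `d x y = dd x y` (`LTree.exists_ofRooted`
with the length of the common prefix of reduced words, or directly), show `Iso` and `Hyp g` for
`g ≠ 1`, and transfer the lemmas of `Pool.Agent.Lib.MP_d87150_al.LTree`.
-/

set_option autoImplicit false

noncomputable section

open Pointwise

namespace Pool.Agent.Lib.MP_9ac97d_al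

variable {n : ℕ}

/-- Length of the common initial part of two words. -/
def tbCp : List (Fin n × Bool) → List (Fin n × Bool) → ℕ
  | a :: l, b :: m => if a = b then tbCp l m + 1 else 0
  | _, _ => 0

theorem tbCp_ultra : ∀ x y z : List (Fin n × Bool), min (tbCp x z) (tbCp y z) ≤ tbCp x y
  | [], _, _ => by simp [tbCp]
  | _ :: _, [], _ => by simp [tbCp]
  | _ :: _, _ :: _, [] => by simp [tbCp]
  | a :: x, b :: y, c :: z => by
    have h := tbCp_ultra x y z
    simp only [tbCp]
    by_cases h1 : a = c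
    · by_cases h2 : b = c
      · rw [if_pos h1, if_pos h2, if_pos (h1.trans h2.symm)]; omega
      · rw [if_neg h2]; simp
    · rw [if_neg h1]; simp

theorem tbCp_comm : ∀ x y : List (Fin n × Bool), tbCp x y = tbCp y x
  | [], [] => rfl
  | [], _ :: _ => rfl
  | _ :: _, [] => rfl
  | a :: x, b :: y => by
    simp only [tbCp, tbCp_comm x y, eq_comm (a := a)]

theorem tb_norm_mk {L : List (Fin n × Bool)} (h : FreeGroup.IsReduced L) :
    (FreeGroup.mk L).norm = L.length := by
  rw [FreeGroup.norm, FreeGroup.toWord_mk, h.reduce_eq]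

theorem tb_invRev {L : List (Fin n × Bool)} (h : FreeGroup.IsReduced L) :
    FreeGroup.IsReduced (FreeGroup.invRev L) :=
  FreeGroup.IsReduced.of_reduce_eq (by rw [FreeGroup.reduce_invRev, h.reduce_eq])

theorem tb_formula : ∀ L M : List (Fin n × Bool), FreeGroup.IsReduced L → FreeGroup.IsReduced M →
    ((FreeGroup.mk L)⁻¹ * FreeGroup.mk M).norm + 2 * tbCp L M = L.length + M.length
  | [], M, _, hM => by
    rw [← FreeGroup.one_eq_mk, inv_one, one_mul, tb_norm_mk hM]; simp [tbCp]
  | a :: L, [], hL, _ => by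
    rw [← FreeGroup.one_eq_mk, mul_one, FreeGroup.norm_inv_eq, tb_norm_mk hL]; simp [tbCp]
  | a :: L, b :: M, hL, hM => by
    by_cases hab : a = b
    · subst hab
      have h := tb_formula L M (List.IsChain.tail hL) (List.IsChain.tail hM)
      have e : (FreeGroup.mk (a :: L))⁻¹ * FreeGroup.mk (a :: M) =
          (FreeGroup.mk L)⁻¹ * FreeGroup.mk M := by
        rw [show a :: L = [a] ++ L from rfl, show a :: M = [a] ++ M from rfl,
          ← FreeGroup.mul_mk, ← FreeGroup.mul_mk]
        group
      rw [e]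
      simp only [tbCp, if_true, List.length_cons]
      omega
    · have h1 := tb_invRev hL
      have h2 : FreeGroup.IsReduced (FreeGroup.invRev (a :: L) ++ b :: M) := by
        have e : FreeGroup.invRev (a :: L) = FreeGroup.invRev L ++ [(a.1, !a.2)] := by
          simp [FreeGroup.invRev]
        rw [e] at h1 ⊢
        rw [List.append_assoc, List.singleton_append]
        refine List.isChain_append_cons_cons.2 ⟨h1, fun h => ?_, hM⟩
        by_contra h'
        refine hab (Prod.ext h ?_)
        revert h'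
        cases a.2 <;> cases b.2 <;> simp
      rw [FreeGroup.inv_mk, FreeGroup.mul_mk, tb_norm_mk h2]
      simp [tbCp, hab]

theorem tb_dd (x y : Fr n) : dd x y + 2 * tbCp x.toWord y.toWord = x.norm + y.norm := by
  have h := tb_formula x.toWord y.toWord FreeGroup.isReduced_toWord FreeGroup.isReduced_toWord
  rwa [FreeGroup.mk_toWord, FreeGroup.mk_toWord] at h

theorem tb_norm_one {g : Fr n} (h : g.norm = 1) : ∃ a : Fin n × Bool, g = FreeGroup.mk [a] := by
  obtain ⟨a, ha⟩ := List.length_eq_one_iff.1 h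
  exact ⟨a, by rw [← ha, FreeGroup.mk_toWord]⟩

theorem dd_self (x : Fr n) : dd x x = 0 := by
  simp [dd]

theorem dd_comm (x y : Fr n) : dd x y = dd y x := by
  rw [dd, dd, ← FreeGroup.norm_inv_eq, mul_inv_rev, inv_inv]

theorem dd_eq_zero {x y : Fr n} : dd x y = 0 ↔ x = y := by
  rw [dd, FreeGroup.norm_eq_zero, inv_mul_eq_one]

theorem dd_triangle (x y z : Fr n) : dd x z ≤ dd x y + dd y z := by
  have h := FreeGroup.norm_mul_le (x⁻¹ * y) (y⁻¹ * z)
  rwa [mul_assoc, mul_inv_cancel_left] at h

theorem dd_mul_left (g x y : Fr n) : dd (g * x) (g * y) = dd x y := by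
  rw [dd, dd, mul_inv_rev, mul_assoc, inv_mul_cancel_left]

theorem dd_four (x y z w : Fr n) :
    dd x y + dd z w ≤ max (dd x z + dd y w) (dd x w + dd y z) := by
  have e1 := tb_dd x y
  have e2 := tb_dd z w
  have e3 := tb_dd x z
  have e4 := tb_dd y w
  have e5 := tb_dd x w
  have e6 := tb_dd y z
  have h1 := tbCp_ultra x.toWord y.toWord z.toWord
  have h2 := tbCp_ultra x.toWord y.toWord w.toWord
  have h3 := tbCp_ultra z.toWord w.toWord x.toWord
  have h4 := tbCp_ultra z.toWord w.toWord y.toWord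
  rw [tbCp_comm z.toWord, tbCp_comm w.toWord] at h3 h4
  omega

theorem dd_parity (x y z : Fr n) : Even (dd x y + dd y z + dd x z) := by
  have e1 := tb_dd x y
  have e2 := tb_dd y z
  have e3 := tb_dd x z
  rw [Nat.even_iff]
  omega

theorem dd_eq_one {x y : Fr n} :
    dd x y = 1 ↔ ∃ i, y = x * FreeGroup.of i ∨ x = y * FreeGroup.of i := by
  constructor
  · intro h
    obtain ⟨⟨i, b⟩, ha⟩ := tb_norm_one h
    refine ⟨i, ?_⟩
    cases b
    · right
      have e : FreeGroup.mk [(i, false)] = (FreeGroup.of i)⁻¹ := by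
        rw [FreeGroup.of, FreeGroup.inv_mk]; rfl
      rw [e] at ha
      rw [← inv_inv (FreeGroup.of i), ← ha]; group
    · left
      rw [FreeGroup.of, ← ha]; group
  · rintro ⟨i, rfl | rfl⟩
    · simp [dd]
    · rw [dd_comm]; simp [dd]

theorem finite_dball (x : Fr n) (R : ℕ) : {y | dd x y ≤ R}.Finite := by
  refine ((List.finite_length_le (Fin n × Bool) R).preimage
    (f := fun y : Fr n => (x⁻¹ * y).toWord) ?_).subset fun y hy => hy
  exact (FreeGroup.toWord_injective.comp (mul_right_injective x⁻¹)).injOn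

theorem ncard_nbr_le (x : Fr n) : {y | dd x y = 1}.ncard ≤ 2 * n := by
  have hsub : {y | dd x y = 1} ⊆
      (fun a : Fin n × Bool => x * FreeGroup.mk [a]) '' Set.univ := by
    intro y hy
    obtain ⟨a, ha⟩ := tb_norm_one hy
    exact ⟨a, trivial, by simp only [← ha]; group⟩
  refine (Set.ncard_le_ncard hsub (Set.finite_univ.image _)).trans
    ((Set.ncard_image_le Set.finite_univ).trans (le_of_eq ?_))
  simp [Set.ncard_univ, mul_comm]

theorem exists_btw (x y : Fr n) {t : ℕ} (ht : t ≤ dd x y) : ∃ m, Btw x m y ∧ dd x m = t := by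
  have e : FreeGroup.mk ((x⁻¹ * y).toWord.take t) * FreeGroup.mk ((x⁻¹ * y).toWord.drop t) =
      x⁻¹ * y := by
    rw [FreeGroup.mul_mk, List.take_append_drop, FreeGroup.mk_toWord]
  have h1 : dd x (x * FreeGroup.mk ((x⁻¹ * y).toWord.take t)) ≤ t := by
    rw [dd, inv_mul_cancel_left]
    exact FreeGroup.norm_mk_le.trans (List.length_take_le _ _)
  have h2 : dd (x * FreeGroup.mk ((x⁻¹ * y).toWord.take t)) y ≤ dd x y - t := by
    rw [dd, mul_inv_rev, mul_assoc, inv_mul_eq_iff_eq_mul.2 e.symm]
    exact FreeGroup.norm_mk_le.trans (le_of_eq List.length_drop)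
  have h3 := dd_triangle x (x * FreeGroup.mk ((x⁻¹ * y).toWord.take t)) y
  refine ⟨x * FreeGroup.mk ((x⁻¹ * y).toWord.take t), ?_, ?_⟩
  · unfold Btw; omega
  · omega

theorem Btw.symm {x m y : Fr n} (h : Btw x m y) : Btw y m x := by
  unfold Btw at *
  rw [dd_comm y m, dd_comm m x, dd_comm y x]; omega

theorem Btw.mul_left {x m y : Fr n} (g : Fr n) (h : Btw x m y) : Btw (g * x) (g * m) (g * y) := by
  unfold Btw at *
  rwa [dd_mul_left, dd_mul_left, dd_mul_left]

theorem Btw.unique {x m m' y : Fr n} (h : Btw x m y) (h' : Btw x m' y) (hd : dd x m = dd x m') :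
    m = m' := by
  unfold Btw at *
  have h1 := dd_four m m' x y
  rw [dd_comm m x, dd_comm m' x] at h1
  exact dd_eq_zero.1 (by omega)

theorem Btw.order {x m m' y : Fr n} (h : Btw x m y) (h' : Btw x m' y) (hd : dd x m ≤ dd x m') :
    Btw x m m' ∧ Btw m m' y := by
  unfold Btw at *
  have h1 := dd_four m m' x y
  have h2 := dd_triangle x m m'
  rw [dd_comm m x, dd_comm m' x] at h1
  omega

theorem Btw.left {a b c m : Fr n} (h : Btw a b c) (h' : Btw a m b) : Btw a m c ∧ Btw m b c := by
  unfold Btw at *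
  have h1 := dd_triangle a m c
  have h2 := dd_triangle m b c
  omega

theorem Btw.trans {a b c e : Fr n} (h : Btw a b c) (h' : Btw b c e) (hbc : b ≠ c) :
    Btw a b e ∧ Btw a c e := by
  unfold Btw at *
  have h0 : dd b c ≠ 0 := fun h => hbc (dd_eq_zero.1 h)
  have h1 := dd_four a c b e
  have h2 := dd_triangle a b e
  have h3 := dd_triangle a c e
  rw [dd_comm c b] at h1
  omega

theorem exists_median (x y z : Fr n) : ∃ m, Btw x m y ∧ Btw y m z ∧ Btw x m z := by
  obtain ⟨c, hc⟩ := dd_parity x y z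
  have t1 := dd_triangle y x z
  have t2 := dd_triangle x y z
  rw [dd_comm y x] at t1
  obtain ⟨m, h1, h2⟩ := exists_btw x y (t := c - dd y z) (by omega)
  have h3 := dd_four m z x y
  have h4 := dd_triangle x m z
  have h5 := dd_triangle y m z
  rw [dd_comm m x, dd_comm z y, dd_comm z x] at h3
  refine ⟨m, h1, ?_, ?_⟩ <;> unfold Btw at * <;> rw [dd_comm y m] at * <;> omega

/-- A point of a geodesic lies on one of the two other sides of any triangle. -/
theorem Btw.or {x m y : Fr n} (h : Btw x m y) (z : Fr n) : Btw x m z ∨ Btw z m y := by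
  unfold Btw at *
  have h1 := dd_four x y m z
  have h2 := dd_triangle x m z
  have h3 := dd_triangle z m y
  rw [dd_comm y z, dd_comm y m] at h1
  rw [dd_comm z m] at h3 ⊢
  omega

theorem mem_half_iff {x y : Fr n} (h : dd x y = 1) (z : Fr n) : z ∈ Half x y ↔ Btw x y z := by
  have h1 := dd_triangle x y z
  simp only [Half, Btw, Set.mem_ofPred_eq, dd_comm z]
  omega

theorem not_mem_half {x y : Fr n} (h : dd x y = 1) (z : Fr n) :
    z ∉ Half x y ↔ z ∈ Half y x := by
  have h1 := Nat.even_iff.1 (dd_parity x y z)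
  simp only [Half, Set.mem_ofPred_eq, dd_comm z]
  omega

theorem mul_mem_half (g x y z : Fr n) : g * z ∈ Half (g * x) (g * y) ↔ z ∈ Half x y := by
  simp only [Half, Set.mem_ofPred_eq, dd_mul_left]

theorem half_convex {x y : Fr n} (h : dd x y = 1) {z m w : Fr n} (hz : z ∈ Half x y)
    (hw : w ∈ Half x y) (hm : Btw z m w) : m ∈ Half x y := by
  have h1 := dd_four z x y m
  have h2 := dd_four w x y m
  have h3 := dd_triangle z y w
  have h4 := Nat.even_iff.1 (dd_parity x y m)
  simp only [Half, Btw, Set.mem_ofPred_eq] at *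
  rw [dd_comm m y, dd_comm m x]
  rw [dd_comm m w] at hm
  rw [dd_comm y w] at h3
  omega

/-- An edge separates two vertices exactly when it lies on the geodesic between them. -/
theorem sep_iff {x y : Fr n} (h : dd x y = 1) (z w : Fr n) :
    (z ∈ Half y x ∧ w ∈ Half x y) ↔ (Btw z x w ∧ Btw z y w ∧ dd z y = dd z x + 1) := by
  have h1 := dd_four z y x w
  have h2 := dd_triangle z x y
  have h3 := dd_triangle x y w
  have h4 := dd_triangle z x w
  have h5 := dd_triangle z y w
  rw [dd_comm y x] at h1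
  simp only [Half, Btw, Set.mem_ofPred_eq, dd_comm w]
  omega

/-- The only edge separating two adjacent vertices is the edge between them. -/
theorem sep_adj {x y z w : Fr n} (h : dd x y = 1) (hzw : dd z w = 1) (hz : z ∈ Half y x)
    (hw : w ∈ Half x y) : z = x ∧ w = y := by
  obtain ⟨h1, h2, h3⟩ := (sep_iff h z w).1 ⟨hz, hw⟩
  unfold Btw at *
  exact ⟨dd_eq_zero.1 (by omega), (dd_eq_zero.1 (by omega)).symm⟩

/-- Nestedness of half trees. -/
theorem half_subset_or {x y x' y' : Fr n} (h : dd x y = 1) (h' : dd x' y' = 1)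
    (hy : y ∈ Half x' y') :
    Half x y ⊆ Half x' y' ∨ (Half y x ⊆ Half x' y' ∧ (x', y') ≠ (y, x)) := by
  have hyx : dd y x = 1 := by rwa [dd_comm]
  have hyy : y ∈ Half x y := by
    simp only [Half, Set.mem_ofPred_eq, dd_self]; omega
  have hxx : x ∈ Half y x := by
    simp only [Half, Set.mem_ofPred_eq, dd_self]; omega
  by_cases hx : x ∈ Half x' y'
  · by_cases hx' : x' ∈ Half x y
    · refine Or.inr ⟨fun z hz => ?_, fun he => ?_⟩
      · by_contra hn
        have hb := ((sep_iff h' z x).1 ⟨(not_mem_half h' z).1 hn, hx⟩).1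
        exact (not_mem_half hyx x').2 hx' (half_convex hyx hz hxx hb)
      · obtain ⟨rfl, rfl⟩ := Prod.mk.inj he
        exact (not_mem_half h' _).2 hyy hy
    · refine Or.inl fun z hz => ?_
      by_contra hn
      have hb := ((sep_iff h' z y).1 ⟨(not_mem_half h' z).1 hn, hy⟩).1
      exact hx' (half_convex h hz hyy hb)
  · obtain ⟨rfl, rfl⟩ := sep_adj h' h ((not_mem_half h' x).1 hx) hy
    exact Or.inl le_rfl

/-- A chain with steps of length at most `lam` comes within `lam` of every point of the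
geodesic between its ends. -/
theorem chain_near (p : ℕ → Fr n) (k lam : ℕ) (hp : ∀ i < k, dd (p i) (p (i + 1)) ≤ lam)
    {y : Fr n} (hy : Btw (p 0) y (p k)) : ∃ i ≤ k, dd (p i) y ≤ lam := by
  induction k with
  | zero =>
    refine ⟨0, le_rfl, ?_⟩
    unfold Btw at hy
    rw [dd_self] at hy
    omega
  | succ k ih =>
    rcases hy.or (p k) with h | h
    · obtain ⟨i, hi, h'⟩ := ih (fun i hi => hp i (by omega)) h
      exact ⟨i, by omega, h'⟩
    · refine ⟨k, by omega, ?_⟩
      have := hp k (by omega)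
      unfold Btw at h
      omega

end Pool.Agent.Lib.MP_9ac97d_al
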