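import Pool.Agent.Lib.MP_9ac97d_al.TCut

/-!
# Bounded cancellation (task TBcc)
-/

set_option autoImplicit false

noncomputable section

open Pointwise

namespace Pool.Agent.Lib.MP_9ac97d_al

variable {n : ℕ}

/-- A parametrization of the geodesic from `x` to `y`. -/
theorem tbcc_geo (x y : Fr n) :
    ∃ q : ℕ → Fr n, q 0 = x ∧ q (dd x y) = y ∧
      (∀ i ≤ dd x y, Btw x (q i) y ∧ dd x (q i) = i) ∧
      ∀ i < dd x y, dd (q i) (q (i + 1)) = 1 := by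
  classical
  have h : ∀ i : ℕ, ∃ m, i ≤ dd x y → Btw x m y ∧ dd x m = i := by
    intro i
    by_cases hi : i ≤ dd x y
    · obtain ⟨m, hm⟩ := exists_btw x y hi
      exact ⟨m, fun _ => hm⟩
    · exact ⟨x, fun h => absurd h hi⟩
  choose q hq using h
  refine ⟨q, ?_, ?_, hq, ?_⟩
  · exact (dd_eq_zero.1 (hq 0 (Nat.zero_le _)).2).symm
  · obtain ⟨h1, h2⟩ := hq (dd x y) le_rfl
    unfold Btw at h1
    exact dd_eq_zero.1 (by omega)
  · intro i hi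
    obtain ⟨h1, h2⟩ := hq i hi.le
    obtain ⟨h3, h4⟩ := hq (i + 1) hi
    have h5 := (h1.order h3 (by omega)).1
    unfold Btw at h5
    omega

theorem exists_lip (Φ : MulAut (Fr n)) :
    ∃ lam : ℕ, ∀ x y, dd (Φ x) (Φ y) ≤ lam * dd x y := by
  classical
  refine ⟨Finset.univ.sup fun i : Fin n => dd 1 (Φ (FreeGroup.of i)), ?_⟩
  set lam := Finset.univ.sup fun i : Fin n => dd 1 (Φ (FreeGroup.of i)) with hlam
  have h0 : ∀ (x : Fr n) (i : Fin n), dd (Φ x) (Φ (x * FreeGroup.of i)) ≤ lam := by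
    intro x i
    have h1 := dd_mul_left (Φ x) 1 (Φ (FreeGroup.of i))
    rw [mul_one] at h1
    rw [map_mul, h1]
    exact Finset.le_sup (f := fun i : Fin n => dd 1 (Φ (FreeGroup.of i))) (Finset.mem_univ i)
  have h1 : ∀ x y : Fr n, dd x y = 1 → dd (Φ x) (Φ y) ≤ lam := by
    intro x y h
    obtain ⟨i, h | h⟩ := dd_eq_one.1 h
    · rw [h]; exact h0 x i
    · rw [h, dd_comm]; exact h0 y i
  intro x y
  obtain ⟨q, hq0, hq1, -, hq⟩ := tbcc_geo x y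
  have key : ∀ k ≤ dd x y, dd (Φ x) (Φ (q k)) ≤ lam * k := by
    intro k
    induction k with
    | zero => intro _; rw [hq0, dd_self]; exact Nat.zero_le _
    | succ k ih =>
      intro hk
      have h2 := ih (by omega)
      have h3 := h1 _ _ (hq k (by omega))
      have h4 := dd_triangle (Φ x) (Φ (q k)) (Φ (q (k + 1)))
      rw [Nat.mul_succ]
      omega
  have := key (dd x y) le_rfl
  rwa [hq1] at this

/-- Apply `Φ⁻¹` to the geodesic from `Φ x` to `Φ z` and use `chain_near`. -/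
theorem bcc (Φ : MulAut (Fr n)) :
    ∃ C : ℕ, ∀ x y z, Btw x y z → ∃ m, Btw (Φ x) m (Φ z) ∧ dd m (Φ y) ≤ C := by
  obtain ⟨lam, hlam⟩ := exists_lip Φ
  obtain ⟨mu, hmu⟩ := exists_lip Φ⁻¹
  refine ⟨lam * mu, fun x y z h => ?_⟩
  obtain ⟨q, hq0, hq1, hq2, hq⟩ := tbcc_geo (Φ x) (Φ z)
  have hc : ∀ i < dd (Φ x) (Φ z), dd (Φ⁻¹ (q i)) (Φ⁻¹ (q (i + 1))) ≤ mu := by
    intro i hi
    have := hmu (q i) (q (i + 1))
    rwa [hq i hi, mul_one] at this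
  have hb : Btw (Φ⁻¹ (q 0)) y (Φ⁻¹ (q (dd (Φ x) (Φ z)))) := by
    rw [hq0, hq1]
    simpa using h
  obtain ⟨i, hi, hd⟩ := chain_near (fun i => Φ⁻¹ (q i)) _ mu hc hb
  refine ⟨q i, (hq2 i hi).1, ?_⟩
  have h1 := hlam (Φ⁻¹ (q i)) y
  have h2 : Φ (Φ⁻¹ (q i)) = q i := by simp
  rw [h2] at h1
  exact h1.trans (Nat.mul_le_mul_left _ hd)

theorem bcc' (Φ : MulAut (Fr n)) :
    ∃ C : ℕ, ∀ x z m, Btw (Φ x) m (Φ z) → ∃ y, Btw x y z ∧ dd m (Φ y) ≤ C := by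
  obtain ⟨lam, hlam⟩ := exists_lip Φ
  refine ⟨lam, fun x z m h => ?_⟩
  obtain ⟨q, hq0, hq1, hq2, hq⟩ := tbcc_geo x z
  have hc : ∀ i < dd x z, dd (Φ (q i)) (Φ (q (i + 1))) ≤ lam := by
    intro i hi
    have := hlam (q i) (q (i + 1))
    rwa [hq i hi, mul_one] at this
  have hb : Btw (Φ (q 0)) m (Φ (q (dd x z))) := by
    rw [hq0, hq1]
    exact h
  obtain ⟨i, hi, hd⟩ := chain_near (fun i => Φ (q i)) _ lam hc hb
  exact ⟨q i, (hq2 i hi).1, by rw [dd_comm]; exact hd⟩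

theorem tbcc_ax_near (Φ : MulAut (Fr n)) :
    ∃ C : ℕ, ∀ b : Fr n, b ≠ 1 → ∀ y ∈ Ax b, ∃ m ∈ Ax (Φ b), dd m (Φ y) ≤ C := by
  obtain ⟨C, hC⟩ := bcc Φ
  refine ⟨C, fun b hb y hy => ?_⟩
  have hc : Φ b ≠ 1 := by simpa using hb
  obtain ⟨p, hp⟩ := ax_nonempty (Φ b)
  obtain ⟨k, hk⟩ : ∃ k : ℕ, k = 3 * dd (Φ y) p + C + 1 := ⟨_, rfl⟩
  have h1 : Btw ((b ^ k)⁻¹ * y) y (b ^ k * y) := by
    unfold Btw
    have e1 := dd_mul_left (b ^ k) ((b ^ k)⁻¹ * y) y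
    have e2 := dd_mul_left (b ^ k) ((b ^ k)⁻¹ * y) (b ^ k * y)
    rw [mul_inv_cancel_left] at e1 e2
    rw [← mul_assoc, ← pow_add] at e2
    rw [← e1, ← e2, dd_pow_of_mem_ax hy, dd_pow_of_mem_ax hy]
    ring
  obtain ⟨m, hm, hd⟩ := hC _ _ _ h1
  rw [map_mul, map_mul, map_inv, map_pow] at hm
  refine ⟨m, ?_, hd⟩
  have hpk : (Φ b) ^ k * p ∈ Ax (Φ b) := mul_mem_ax (Commute.self_pow _ _) hp
  have hpk' : ((Φ b) ^ k)⁻¹ * p ∈ Ax (Φ b) := mul_mem_ax (Commute.self_pow _ _).inv_right hp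
  have hlong : k ≤ dd (Φ y) ((Φ b) ^ k * Φ y) + 2 * dd (Φ y) p := by
    have e1 := dd_pow_of_mem_ax hp k
    have e2 := dd_triangle p (Φ y) ((Φ b) ^ k * p)
    have e3 := dd_triangle (Φ y) ((Φ b) ^ k * Φ y) ((Φ b) ^ k * p)
    have e4 := dd_mul_left ((Φ b) ^ k) (Φ y) p
    have e5 := dd_comm p (Φ y)
    have e6 : k ≤ k * tl (Φ b) := Nat.le_mul_of_pos_right _ (tl_pos hc)
    omega
  rcases hm.or (((Φ b) ^ k)⁻¹ * p) with h2 | h2
  · exfalso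
    unfold Btw at h2
    have e1 := dd_mul_left ((Φ b) ^ k)⁻¹ (Φ y) p
    have e2 := dd_triangle (((Φ b) ^ k)⁻¹ * Φ y) m (Φ y)
    have e3 := dd_mul_left ((Φ b) ^ k) (((Φ b) ^ k)⁻¹ * Φ y) (Φ y)
    rw [mul_inv_cancel_left] at e3
    omega
  · rcases h2.or ((Φ b) ^ k * p) with h3 | h3
    · exact ax_convex hpk' hpk h3
    · exfalso
      unfold Btw at h3
      have e1 := dd_mul_left ((Φ b) ^ k) p (Φ y)
      have e2 := dd_triangle (Φ y) m ((Φ b) ^ k * Φ y)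
      have e3 := dd_comm (Φ y) m
      have e5 := dd_comm p (Φ y)
      omega

/-- Apply `bcc` to `b ^ (-k) y`, `y`, `b ^ k y` with `k` large. -/
theorem ax_near (Φ : MulAut (Fr n)) :
    ∃ C : ℕ, ∀ b : Fr n, b ≠ 1 → (∀ y ∈ Ax b, ∃ m ∈ Ax (Φ b), dd m (Φ y) ≤ C) ∧
      ∀ m ∈ Ax (Φ b), ∃ y ∈ Ax b, dd m (Φ y) ≤ C := by
  obtain ⟨C, hC⟩ := tbcc_ax_near Φ
  obtain ⟨C', hC'⟩ := tbcc_ax_near Φ⁻¹
  obtain ⟨lam, hlam⟩ := exists_lip Φ
  refine ⟨C + lam * C', fun b hb => ⟨fun y hy => ?_, fun m hm => ?_⟩⟩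
  · obtain ⟨m, hm, hd⟩ := hC b hb y hy
    exact ⟨m, hm, hd.trans (Nat.le_add_right _ _)⟩
  · have hc : Φ b ≠ 1 := by simpa using hb
    obtain ⟨y, hy, hd⟩ := hC' (Φ b) hc m hm
    have h1 : Φ⁻¹ (Φ b) = b := by simp
    rw [h1] at hy
    refine ⟨y, hy, ?_⟩
    have h2 := hlam y (Φ⁻¹ m)
    have h3 : Φ (Φ⁻¹ m) = m := by simp
    rw [h3, dd_comm] at h2
    exact h2.trans ((Nat.mul_le_mul_left _ hd).trans (Nat.le_add_left _ _))

theorem tbcc_btw_self (x : Fr n) : Btw x x x := by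
  unfold Btw; rw [dd_self]

/-- If `p` is the point of the convex hull of `P` closest to `q`, it separates `q` from `P`. -/
theorem tbcc_gate {P : Set (Fr n)} {p q a₁ a₂ : Fr n} (h1 : a₁ ∈ P) (h2 : a₂ ∈ P)
    (hp : Btw a₁ p a₂)
    (hmin : ∀ c₁ ∈ P, ∀ c₂ ∈ P, ∀ r, Btw c₁ r c₂ → dd q p ≤ dd q r) {a : Fr n} (ha : a ∈ P) :
    Btw q p a := by
  obtain ⟨r, hr1, hr2, hr3⟩ := exists_median q p a
  have h3 : dd q p ≤ dd q r := by
    rcases hp.or a with h | h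
    · exact hmin a ha a₁ h1 r (h.symm.left hr2.symm).1
    · exact hmin a ha a₂ h2 r (h.left hr2.symm).1
  have h4 : r = p := by
    unfold Btw at hr1
    exact dd_eq_zero.1 (by omega)
  rwa [h4] at hr3

/-- Two sets with convex hulls at distance at least `L` are joined by a bridge of length at
least `L`. -/
theorem tbcc_bridge {P Q : Set (Fr n)} (hP : P.Nonempty) (hQ : Q.Nonempty) {L : ℕ}
    (h : ∀ a₁ ∈ P, ∀ a₂ ∈ P, ∀ b₁ ∈ Q, ∀ b₂ ∈ Q, ∀ p q, Btw a₁ p a₂ → Btw b₁ q b₂ →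
      L ≤ dd q p) :
    ∃ p q, L ≤ dd q p ∧ (∀ a ∈ P, Btw q p a) ∧ ∀ b ∈ Q, Btw p q b := by
  classical
  have hex : ∃ t : ℕ, ∃ a₁ ∈ P, ∃ a₂ ∈ P, ∃ b₁ ∈ Q, ∃ b₂ ∈ Q, ∃ p q, Btw a₁ p a₂ ∧
      Btw b₁ q b₂ ∧ dd q p = t := by
    obtain ⟨a, ha⟩ := hP
    obtain ⟨b, hb⟩ := hQ
    exact ⟨_, a, ha, a, ha, b, hb, b, hb, a, b, tbcc_btw_self a, tbcc_btw_self b, rfl⟩
  obtain ⟨a₁, ha₁, a₂, ha₂, b₁, hb₁, b₂, hb₂, p, q, hp, hq, ht⟩ := Nat.find_spec hex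
  refine ⟨p, q, h a₁ ha₁ a₂ ha₂ b₁ hb₁ b₂ hb₂ p q hp hq, fun a ha => ?_, fun b hb => ?_⟩
  · refine tbcc_gate ha₁ ha₂ hp (fun c₁ hc₁ c₂ hc₂ r hr => ?_) ha
    rw [ht]
    exact Nat.find_min' hex ⟨c₁, hc₁, c₂, hc₂, b₁, hb₁, b₂, hb₂, r, q, hr, hq, rfl⟩
  · refine tbcc_gate hb₁ hb₂ hq (fun c₁ hc₁ c₂ hc₂ r hr => ?_) hb
    rw [dd_comm p q, ht, dd_comm p r]
    exact Nat.find_min' hex ⟨a₁, ha₁, a₂, ha₂, c₁, hc₁, c₂, hc₂, p, r, hp, hr, rfl⟩

/-- The number of edges that separate two vertices is at most their distance. -/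
theorem tbcc_ncard_le {E : Set (Fr n × Fr n)} {z w : Fr n}
    (h : ∀ e ∈ E, dd e.1 e.2 = 1 ∧ z ∈ Half e.2 e.1 ∧ w ∈ Half e.1 e.2) : E.ncard ≤ dd z w := by
  have h1 : ∀ e ∈ E, Btw z e.1 w ∧ Btw z e.2 w ∧ dd z e.2 = dd z e.1 + 1 := fun e he =>
    (sep_iff (h e he).1 z w).1 (h e he).2
  have h2 : E.ncard ≤ (↑(Finset.range (dd z w)) : Set ℕ).ncard := by
    refine Set.ncard_le_ncard_of_injOn (fun e => dd z e.1) (fun e he => ?_)
      (fun e he e' he' hee => ?_) (Finset.finite_toSet _)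
    · obtain ⟨-, h3, h4⟩ := h1 e he
      unfold Btw at h3
      simp only [Finset.coe_range, Set.mem_Iio]
      omega
    · obtain ⟨h3, h4, h5⟩ := h1 e he
      obtain ⟨h3', h4', h5'⟩ := h1 e' he'
      have hee' : dd z e.1 = dd z e'.1 := hee
      exact Prod.ext (h3.unique h3' hee') (h4.unique h4' (by omega))
  rwa [Set.ncard_coe_finset, Finset.card_range] at h2

theorem tbcc_mem_smul {S : Subgroup (Fr n)} {Φ : MulAut (Fr n)} {c : Fr n} :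
    c ∈ Φ • S ↔ ∃ s ∈ S, Φ s = c :=
  Subgroup.mem_smul_pointwise_iff_exists c Φ S

theorem tbcc_nonAb_smul {S : Subgroup (Fr n)} (hS : NonAb S) (Φ : MulAut (Fr n)) :
    NonAb (Φ • S) := by
  obtain ⟨a, ha, b, hb, hab⟩ := hS
  refine ⟨Φ a, tbcc_mem_smul.2 ⟨a, ha, rfl⟩, Φ b, tbcc_mem_smul.2 ⟨b, hb, rfl⟩, fun h => hab ?_⟩
  apply Φ.injective
  rw [map_mul, map_mul]
  exact h

/-- Wide cuts go to wide cuts. Intersect the half trees of all the edges with cut `U`, on both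
sides; the images of these two convex sets have convex hulls that are far apart (`bcc'`), and all
the edges of the bridge between the hulls have the cut `Φ • U`. -/
theorem cut_bcc (Φ : MulAut (Fr n)) :
    ∃ lam C : ℕ, ∀ (S : Subgroup (Fr n)), NonAb S → ∀ (m : ℕ) (U : Set (Fr n)),
      U ∈ UU S (lam * m + C) → Φ • U ∈ UU (Φ • S) m := by
  obtain ⟨mu, hmu⟩ := exists_lip Φ⁻¹
  obtain ⟨C, hC⟩ := bcc' Φ
  refine ⟨mu, mu * (2 * C) + 1, fun S hS m U hU => ?_⟩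
  obtain ⟨⟨e₀, he₀⟩, hcard⟩ := hU
  have hfin := finite_cutEdges hS U
  obtain ⟨A, hA⟩ : ∃ A : Set (Fr n), A = {z | ∀ e ∈ cutEdges S U, z ∈ Half e.1 e.2} := ⟨_, rfl⟩
  obtain ⟨B, hB⟩ : ∃ B : Set (Fr n), B = {z | ∀ e ∈ cutEdges S U, z ∈ Half e.2 e.1} := ⟨_, rfl⟩
  have hUA : ∀ s ∈ U, ∀ᶠ k : ℕ in Filter.atTop, s ^ k ∈ A := by
    intro s hs
    rw [hA]
    refine (Filter.eventually_all_finite hfin).2 fun e he => ?_
    rw [← he.2] at hs
    exact hs.2.2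
  have hUB : ∀ s ∈ opp S U, ∀ᶠ k : ℕ in Filter.atTop, s ^ k ∈ B := by
    intro s hs
    rw [hB]
    refine (Filter.eventually_all_finite hfin).2 fun e he => ?_
    rw [← he.2, ← cut_symm S he.1.1] at hs
    exact hs.2.2
  obtain ⟨a₀, ha₀⟩ : U.Nonempty := by rw [← he₀.2]; exact he₀.1.2.1
  obtain ⟨b₀, hb₀⟩ : (opp S U).Nonempty := by
    rw [← he₀.2, ← cut_symm S he₀.1.1]; exact he₀.1.2.2
  have hAne : (Φ '' A).Nonempty := by
    obtain ⟨k, hk⟩ := (hUA a₀ ha₀).exists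
    exact ⟨_, _, hk, rfl⟩
  have hBne : (Φ '' B).Nonempty := by
    obtain ⟨k, hk⟩ := (hUB b₀ hb₀).exists
    exact ⟨_, _, hk, rfl⟩
  obtain ⟨p, q, hL, hpa, hqb⟩ := tbcc_bridge hAne hBne (L := m + 1) (by
    rintro _ ⟨a₁, ha₁, rfl⟩ _ ⟨a₂, ha₂, rfl⟩ _ ⟨b₁, hb₁, rfl⟩ _ ⟨b₂, hb₂, rfl⟩ p q hp hq
    obtain ⟨y, hy, hdy⟩ := hC _ _ _ hp
    obtain ⟨y', hy', hdy'⟩ := hC _ _ _ hq
    rw [hA] at ha₁ ha₂
    rw [hB] at hb₁ hb₂
    have h1 : (cutEdges S U).ncard ≤ dd y' y := tbcc_ncard_le fun e he =>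
      ⟨he.1.1, half_convex (by rw [dd_comm]; exact he.1.1) (hb₁ e he) (hb₂ e he) hy',
        half_convex he.1.1 (ha₁ e he) (ha₂ e he) hy⟩
    have h2 := hmu (Φ y') (Φ y)
    have e1 : Φ⁻¹ (Φ y') = y' := by simp
    have e2 : Φ⁻¹ (Φ y) = y := by simp
    rw [e1, e2] at h2
    have h3 : dd (Φ y') (Φ y) ≤ dd q p + 2 * C := by
      have t1 := dd_triangle (Φ y') q (Φ y)
      have t2 := dd_triangle q p (Φ y)
      have t3 := dd_comm (Φ y') q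
      omega
    have h4 := Nat.mul_le_mul_left mu h3
    rw [Nat.mul_add] at h4
    have h5 : mu * m < mu * dd q p := by omega
    exact Nat.lt_of_mul_lt_mul_left h5)
  obtain ⟨g, -, -, hg2, hg⟩ := tbcc_geo q p
  have hedge : ∀ i < dd q p, (g i, g (i + 1)) ∈ cutEdges (Φ • S) (Φ • U) := by
    intro i hi
    obtain ⟨h1, h2⟩ := hg2 i hi.le
    obtain ⟨h3, h4⟩ := hg2 (i + 1) hi
    have hd := hg i hi
    have hAH : ∀ a ∈ A, Φ a ∈ Half (g i) (g (i + 1)) := by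
      intro a ha
      have h5 := hpa _ ⟨a, ha, rfl⟩
      have h6 := (h5.left h1).2
      have h7 := (h5.left h3).2
      unfold Btw at h1 h3 h6 h7
      change dd (Φ a) (g (i + 1)) < dd (Φ a) (g i)
      rw [dd_comm (Φ a), dd_comm (Φ a)]
      omega
    have hBH : ∀ b ∈ B, Φ b ∈ Half (g (i + 1)) (g i) := by
      intro b hb
      have h5 := hqb _ ⟨b, hb, rfl⟩
      have h6 := (h5.left h1.symm).2
      have h7 := (h5.left h3.symm).2
      unfold Btw at h6 h7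
      change dd (Φ b) (g i) < dd (Φ b) (g (i + 1))
      rw [dd_comm (Φ b), dd_comm (Φ b)]
      have t1 := dd_comm q (g i)
      have t2 := dd_comm q (g (i + 1))
      omega
    have hUS : ∀ s ∈ U, s ∈ S ∧ s ≠ 1 := by
      intro s hs
      rw [← he₀.2] at hs
      exact ⟨hs.1, hs.2.1⟩
    have hin : ∀ s ∈ U, Φ s ∈ cut (Φ • S) (g i) (g (i + 1)) := by
      intro s hs
      refine ⟨tbcc_mem_smul.2 ⟨s, (hUS s hs).1, rfl⟩, by simpa using (hUS s hs).2, ?_⟩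
      filter_upwards [hUA s hs] with k hk
      rw [← map_pow]
      exact hAH _ hk
    have hout : ∀ s ∈ opp S U, Φ s ∈ cut (Φ • S) (g (i + 1)) (g i) := by
      intro s hs
      refine ⟨tbcc_mem_smul.2 ⟨s, hs.1.1, rfl⟩, by simpa using hs.1.2, ?_⟩
      filter_upwards [hUB s hs] with k hk
      rw [← map_pow]
      exact hBH _ hk
    refine ⟨⟨hd, ⟨_, hin a₀ ha₀⟩, ⟨_, hout b₀ hb₀⟩⟩, ?_⟩
    ext c
    constructor
    · rintro ⟨hc1, hc2, hc3⟩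
      obtain ⟨s, hs, rfl⟩ := tbcc_mem_smul.1 hc1
      by_contra hn
      have hsU : s ∉ U := fun h => hn ⟨s, h, rfl⟩
      have hs1 : s ≠ 1 := by simpa using hc2
      exact not_att_both hd hc3 (hout s ⟨⟨hs, hs1⟩, hsU⟩).2.2
    · rintro ⟨s, hs, rfl⟩
      exact hin s hs
  refine ⟨⟨_, hedge 0 (by omega)⟩, ?_⟩
  have hle : (↑(Finset.range (dd q p)) : Set ℕ).ncard ≤ (cutEdges (Φ • S) (Φ • U)).ncard := by
    refine Set.ncard_le_ncard_of_injOn (fun i => (g i, g (i + 1))) (fun i hi => ?_)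
      (fun i hi j hj hij => ?_) (finite_cutEdges (tbcc_nonAb_smul hS Φ) _)
    · exact hedge i (by simpa using hi)
    · have hi' : i < dd q p := by simpa using hi
      have hj' : j < dd q p := by simpa using hj
      have h1 : g i = g j := congrArg Prod.fst hij
      rw [← (hg2 i hi'.le).2, ← (hg2 j hj'.le).2, h1]
  rw [Set.ncard_coe_finset, Finset.card_range] at hle
  omega

theorem uu_conj (S : Subgroup (Fr n)) (m : ℕ) (g : Fr n) {U : Set (Fr n)} (hU : U ∈ UU S m) :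
    MulAut.conj g • U ∈ UU (MulAut.conj g • S) m := by
  have hE : cutEdges (MulAut.conj g • S) (MulAut.conj g • U) =
      (fun e : Fr n × Fr n => (g * e.1, g * e.2)) '' cutEdges S U := by
    have key : ∀ x y : Fr n, (g * x, g * y) ∈ cutEdges (MulAut.conj g • S) (MulAut.conj g • U) ↔
        (x, y) ∈ cutEdges S U := by
      intro x y
      by_cases h : dd x y = 1
      · have h' : dd y x = 1 := by rw [dd_comm]; exact h
        simp only [cutEdges, Ess, Set.mem_ofPred_eq, dd_mul_left, cut_conj S h g, cut_conj S h' g,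
          Set.smul_set_nonempty, smul_left_cancel_iff]
      · simp only [cutEdges, Ess, Set.mem_ofPred_eq, dd_mul_left, h, false_and]
    ext ⟨x, y⟩
    constructor
    · intro h
      refine ⟨(g⁻¹ * x, g⁻¹ * y), (key _ _).1 ?_, by simp⟩
      simpa using h
    · rintro ⟨⟨x', y'⟩, h, h'⟩
      rw [← h']
      exact (key _ _).2 h
  have hinj : Function.Injective fun e : Fr n × Fr n => (g * e.1, g * e.2) := by
    rintro ⟨x, y⟩ ⟨x', y'⟩ h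
    simpa using h
  refine ⟨?_, ?_⟩
  · rw [hE]; exact hU.1.image _
  · rw [hE, Set.ncard_image_of_injective _ hinj]; exact hU.2

theorem opp_mem_uu {S : Subgroup (Fr n)} {m : ℕ} {U : Set (Fr n)} (hU : U ∈ UU S m) :
    opp S U ∈ UU S m := by
  obtain ⟨⟨e₀, he₀⟩, hcard⟩ := hU
  have hoo : opp S (opp S U) = U := by
    have h' : dd e₀.2 e₀.1 = 1 := by rw [dd_comm]; exact he₀.1.1
    rw [← he₀.2, ← cut_symm S he₀.1.1, ← cut_symm S h']
  have hE : cutEdges S (opp S U) = Prod.swap '' cutEdges S U := by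
    ext ⟨x, y⟩
    constructor
    · rintro ⟨h1, h2⟩
      refine ⟨(y, x), ⟨h1.symm, ?_⟩, rfl⟩
      change cut S y x = U
      rw [cut_symm S h1.1, ← hoo]
      exact congrArg (opp S) h2
    · rintro ⟨⟨x', y'⟩, ⟨h1, h2⟩, h3⟩
      rw [← h3]
      refine ⟨h1.symm, ?_⟩
      change cut S y' x' = opp S U
      rw [cut_symm S h1.1]
      exact congrArg (opp S) h2
  refine ⟨?_, ?_⟩
  · rw [hE]; exact ⟨_, e₀, he₀, rfl⟩
  · rw [hE, Set.ncard_image_of_injective _ Prod.swap_injective]; exact hcard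

end Pool.Agent.Lib.MP_9ac97d_al
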