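import Pool.Agent.Lib.MP_9ac97d_al.TCut

/-!
# Cocompactness and finiteness (task TCore)
-/

set_option autoImplicit false

noncomputable section

open Pointwise

namespace Pool.Agent.Lib.MP_9ac97d_al

variable {n : ℕ}

theorem tcore_mem_conj {S : Subgroup (Fr n)} {g x : Fr n} :
    x ∈ MulAut.conj g • S ↔ g⁻¹ * x * g ∈ S := by
  rw [Subgroup.mem_pointwise_smul_iff_inv_smul_mem, ← map_inv, MulAut.smul_def, MulAut.conj_apply,
    inv_inv]

theorem tcore_dd (s x y : Fr n) : dd (s⁻¹ * x) y = dd x (s * y) := by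
  rw [← dd_mul_left s, mul_inv_cancel_left]

/-- The orbit of a vertex. -/
def tcore_orb (S : Subgroup (Fr n)) (y : Fr n) : Set (Fr n) := (fun s => s * y) '' (S : Set (Fr n))

theorem tcore_orb_mem {S : Subgroup (Fr n)} {y : Fr n} (hy : y ∈ TT S) :
    tcore_orb S y ∈ coreSet S := ⟨y, hy, rfl⟩

theorem tcore_orb_mul {S : Subgroup (Fr n)} {s : Fr n} (hs : s ∈ S) (y : Fr n) :
    tcore_orb S (s * y) = tcore_orb S y := by
  ext z
  constructor
  · rintro ⟨t, ht, rfl⟩
    exact ⟨t * s, S.mul_mem ht hs, mul_assoc _ _ _⟩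
  · rintro ⟨t, ht, rfl⟩
    exact ⟨t * s⁻¹, S.mul_mem ht (S.inv_mem hs), by simp [mul_assoc]⟩

theorem tcore_of_orb_eq {S : Subgroup (Fr n)} {y z : Fr n} (h : tcore_orb S y = tcore_orb S z) :
    ∃ s ∈ S, s * y = z := by
  have h1 : z ∈ tcore_orb S z := ⟨1, S.one_mem, one_mul z⟩
  rw [← h] at h1
  exact h1

theorem tcore_fg_conj {S : Subgroup (Fr n)} (hS : S.FG) (g : Fr n) : (MulAut.conj g • S).FG := by
  obtain ⟨T, hT, hf⟩ := (Subgroup.fg_iff S).1 hS
  refine (Subgroup.fg_iff _).2 ⟨_, ?_, hf.image (MulDistribMulAction.toMonoidEnd _ _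
    (MulAut.conj g))⟩
  rw [← hT]
  exact (MonoidHom.map_closure _ _).symm

/-- The Helly property of convex sets. -/
theorem tcore_helly {ι : Type} (s : Finset ι) (b : ι) : ∀ C : ι → Set (Fr n),
    (∀ i p m q, p ∈ C i → q ∈ C i → Btw p m q → m ∈ C i) → (∀ i j, (C i ∩ C j).Nonempty) →
    ∃ y ∈ C b, ∀ i ∈ s, y ∈ C i := by
  classical
  induction s using Finset.induction_on with
  | empty =>
    intro C _ h
    obtain ⟨y, hy, -⟩ := h b b
    exact ⟨y, hy, by simp⟩
  | insert a s _ ih =>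
    intro C hC h
    obtain ⟨y, hy, hy'⟩ := ih (fun i => C i ∩ C a)
      (fun i p m q hp hq hm => ⟨hC i p m q hp.1 hq.1 hm, hC a p m q hp.2 hq.2 hm⟩)
      (fun i j => by
        obtain ⟨x, hx1, hx2⟩ := h i j
        obtain ⟨y, hy1, hy2⟩ := h j a
        obtain ⟨z, hz1, hz2⟩ := h i a
        obtain ⟨m, h1, h2, h3⟩ := exists_median x y z
        have h4 := hC a y m z hy2 hz2 h2
        exact ⟨m, ⟨hC i x m z hx1 hz1 h3, h4⟩, hC j x m y hx2 hy1 h1, h4⟩)
    refine ⟨y, hy.1, fun i hi => ?_⟩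
    rcases Finset.mem_insert.1 hi with rfl | hi
    · exact hy.2
    · exact (hy' i hi).1

/-- For `a ∈ S` the axis lies in the union of the geodesics `a ^ k [1, a]`, `k ∈ ℤ`, and `[1, a]`
is near the chain of prefixes of a word for `a` in the generators (`chain_near`). -/
theorem exists_tt_subset {S : Subgroup (Fr n)} (hS : S.FG) :
    ∃ R : ℕ, ∀ y ∈ TT S, ∃ s ∈ S, dd s y ≤ R := by
  obtain ⟨T, hT⟩ := hS
  have key : ∀ a ∈ S, ∀ y, Btw 1 y a → ∃ s ∈ S, dd s y ≤ T.sup (dd 1) := by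
    intro a ha
    rw [← hT] at ha
    induction ha using Subgroup.closure_induction with
    | mem t ht =>
      intro y hy
      have h1 : dd 1 t ≤ T.sup (dd 1) := Finset.le_sup ht
      unfold Btw at hy
      exact ⟨1, S.one_mem, by omega⟩
    | one =>
      intro y hy
      unfold Btw at hy
      rw [dd_self] at hy
      exact ⟨1, S.one_mem, by omega⟩
    | mul a b ha _ iha ihb =>
      intro y hy
      rw [hT] at ha
      rcases hy.or a with h | h
      · exact iha y h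
      · have h1 := h.mul_left a⁻¹
        rw [inv_mul_cancel, inv_mul_cancel_left] at h1
        obtain ⟨s, hs, h2⟩ := ihb _ h1
        refine ⟨a * s, S.mul_mem ha hs, ?_⟩
        rwa [← tcore_dd, inv_inv] at h2
    | inv a ha iha =>
      intro y hy
      rw [hT] at ha
      have h1 := hy.mul_left a
      rw [mul_one, mul_inv_cancel] at h1
      obtain ⟨s, hs, h2⟩ := iha _ h1.symm
      exact ⟨a⁻¹ * s, S.mul_mem (S.inv_mem ha) hs, by rwa [tcore_dd]⟩
  refine ⟨T.sup (dd 1), ?_⟩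
  rintro y ⟨a, ha, ha1, hy⟩
  obtain ⟨q, hq, h1, -, -, h2⟩ := exists_proj ha1 1
  obtain ⟨k, hk⟩ := exists_zpow_btw ha1 hq hy
  have h3 := h1 _ (mul_mem_ax (Commute.refl a) hq)
  have h4 := (h3.symm.left hk.symm).1.symm
  rw [mul_one] at h2
  obtain ⟨s, hs, h5⟩ := key a ha _ (h2.left h4).1
  exact ⟨(a ^ k)⁻¹ * s, S.mul_mem (S.inv_mem (S.zpow_mem ha k)) hs, by rwa [tcore_dd]⟩

theorem finite_coreSet {S : Subgroup (Fr n)} (hS : S.FG) : (coreSet S).Finite := by
  obtain ⟨R, hR⟩ := exists_tt_subset hS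
  refine ((finite_dball (1 : Fr n) R).image (tcore_orb S)).subset ?_
  rintro _ ⟨y, hy, rfl⟩
  obtain ⟨s, hs, h⟩ := hR y hy
  refine ⟨s⁻¹ * y, ?_, tcore_orb_mul (S.inv_mem hs) y⟩
  change dd 1 (s⁻¹ * y) ≤ R
  rwa [← tcore_dd, inv_inv, mul_one]

theorem core_conj (S : Subgroup (Fr n)) (g : Fr n) : core (MulAut.conj g • S) = core S := by
  have h1 : ∀ y, tcore_orb (MulAut.conj g • S) (g * y) = (fun x => g * x) '' tcore_orb S y := by
    intro y
    ext z
    constructor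
    · rintro ⟨t, ht, rfl⟩
      exact ⟨_, ⟨_, tcore_mem_conj.1 ht, rfl⟩, by simp [mul_assoc]⟩
    · rintro ⟨_, ⟨t, ht, rfl⟩, rfl⟩
      exact ⟨g * t * g⁻¹, tcore_mem_conj.2 (by simpa [mul_assoc] using ht), by simp [mul_assoc]⟩
  have h2 : coreSet (MulAut.conj g • S) = Set.image (fun x => g * x) '' coreSet S := by
    ext A
    constructor
    · rintro ⟨y, hy, rfl⟩
      rw [← mul_inv_cancel_left g y] at hy ⊢
      exact ⟨_, tcore_orb_mem ((mul_mem_tt_conj S g _).1 hy), (h1 _).symm⟩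
    · rintro ⟨_, ⟨y, hy, rfl⟩, rfl⟩
      exact ⟨g * y, (mul_mem_tt_conj S g _).2 hy, h1 y⟩
  unfold core
  rw [h2, Set.ncard_image_of_injective _ (Set.image_injective.2 (mul_right_injective g))]

/-- With at most `V` orbits of vertices, every vertex of the minimal subtree is within `V` of the
orbit of any given vertex (take the orbit point closest to `z` and shorten the geodesic). -/
theorem exists_near_of_core_le {S : Subgroup (Fr n)} (hS : S.FG) {V : ℕ} (hV : core S ≤ V)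
    {y z : Fr n} (hy : y ∈ TT S) (hz : z ∈ TT S) : ∃ s ∈ S, dd (s * y) z ≤ V := by
  by_contra hcon
  push Not at hcon
  obtain ⟨s, hs, hmin⟩ : ∃ s ∈ S, ∀ t ∈ S, dd (s * y) z ≤ dd (t * y) z := by
    obtain ⟨s, hs⟩ := exists_minimalFor_of_wellFoundedLT (· ∈ S) (fun s => dd (s * y) z)
      ⟨1, S.one_mem⟩
    exact ⟨s, hs.1, fun t ht => hs.le ht⟩
  have hD := hcon s hs
  have h1 : ∀ t : ℕ, ∃ m, t ≤ V → Btw (s * y) m z ∧ dd (s * y) m = t := fun t => by
    by_cases ht : t ≤ V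
    · obtain ⟨m, hm⟩ := exists_btw (s * y) z (ht.trans hD.le)
      exact ⟨m, fun _ => hm⟩
    · exact ⟨1, fun h => absurd h ht⟩
  choose m hm using h1
  have h2 : ∀ t t', t < t' → t' ≤ V → tcore_orb S (m t) ≠ tcore_orb S (m t') := by
    intro t t' h h' he
    obtain ⟨u, hu, h3⟩ := tcore_of_orb_eq he
    obtain ⟨-, h4⟩ := hm t (by omega)
    obtain ⟨h5, h6⟩ := hm t' h'
    have h7 := hmin (u * s) (S.mul_mem hu hs)
    have h8 := dd_triangle (u * s * y) (u * m t) z
    rw [mul_assoc, dd_mul_left, h3] at h8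
    rw [mul_assoc] at h7
    unfold Btw at h5
    omega
  obtain ⟨t, ht, t', ht', hne, he⟩ := Set.exists_ne_map_eq_of_ncard_lt_of_maps_to
    (s := Set.Iio (V + 1)) (t := coreSet S) (f := fun t => tcore_orb S (m t))
    (by rw [Set.ncard_Iio_nat]; exact Nat.lt_succ_of_le hV)
    (fun t ht => tcore_orb_mem (tt_convex (mul_mem_tt hs hy) hz (hm t (Nat.le_of_lt_succ ht)).1))
    (finite_coreSet hS)
  rcases Nat.lt_or_gt_of_ne hne with h | h
  · exact h2 t t' h (Nat.le_of_lt_succ ht') he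
  · exact h2 t' t h (Nat.le_of_lt_succ ht) he.symm

/-- Up to conjugacy there are finitely many subgroups with a core of bounded size: after
conjugation `1 ∈ TT S`, and then `S` is generated by its elements of length at most `2 V + 1`. -/
theorem finite_classes (n V : ℕ) :
    ∃ A : Set (Subgroup (Fr n)), A.Finite ∧ ∀ S : Subgroup (Fr n), S.FG → core S ≤ V →
      ∃ g : Fr n, MulAut.conj g • S ∈ A := by
  refine ⟨Subgroup.closure '' {T | T ⊆ {x : Fr n | dd 1 x ≤ 2 * V + 1}},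
    (finite_dball 1 _).finite_subsets.image _, fun S hS hV => ?_⟩
  by_cases h0 : S = ⊥
  · exact ⟨1, ∅, Set.empty_subset _, by simp [h0]⟩
  obtain ⟨y, hy⟩ := tt_nonempty h0
  have h1 := (mul_mem_tt_conj S y⁻¹ y).2 hy
  have h2 := tcore_fg_conj hS y⁻¹
  have h3 := (core_conj S y⁻¹).le.trans hV
  refine ⟨y⁻¹, ?_⟩
  rw [inv_mul_cancel] at h1
  generalize MulAut.conj y⁻¹ • S = P at h1 h2 h3
  refine ⟨(P : Set (Fr n)) ∩ {x : Fr n | dd 1 x ≤ 2 * V + 1}, Set.inter_subset_right,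
    le_antisymm ((Subgroup.closure_le _).2 Set.inter_subset_left) fun a ha => ?_⟩
  have key : ∀ k, ∀ m ∈ TT P, dd 1 m = k → ∀ s ∈ P, dd s m ≤ V →
      s ∈ Subgroup.closure ((P : Set (Fr n)) ∩ {x : Fr n | dd 1 x ≤ 2 * V + 1}) := by
    intro k
    induction k with
    | zero =>
      intro m _ hk s hs h
      rw [← dd_eq_zero.1 hk, dd_comm] at h
      exact Subgroup.subset_closure ⟨hs, by change dd 1 s ≤ _; omega⟩
    | succ k ih =>
      intro m hm hk s hs h
      obtain ⟨m', h4, h5⟩ := exists_btw 1 m (t := k) (by omega)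
      have h6 := tt_convex h1 hm h4
      obtain ⟨s', hs', h7⟩ := exists_near_of_core_le h2 h3 h1 h6
      rw [mul_one] at h7
      have h8 := dd_triangle s' m' s
      have h9 := dd_triangle m' m s
      rw [dd_comm m s] at h9
      unfold Btw at h4
      rw [← mul_inv_cancel_left s' s]
      refine Subgroup.mul_mem _ (ih m' h6 h5 s' hs' h7)
        (Subgroup.subset_closure ⟨P.mul_mem (P.inv_mem hs') hs, ?_⟩)
      change dd 1 (s'⁻¹ * s) ≤ _
      rw [← tcore_dd, inv_inv, mul_one]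
      omega
  refine key _ (a * 1) (mul_mem_tt ha h1) rfl a ha ?_
  rw [mul_one, dd_self]
  exact Nat.zero_le _

/-- A power of an element that maps the minimal subtree of `S` into itself lies in `S`. -/
theorem exists_pow_mem {S : Subgroup (Fr n)} (hS : S.FG) (hS1 : S ≠ ⊥) {g : Fr n}
    (hg : MulAut.conj g • S ≤ S) : ∃ k : ℕ, k ≠ 0 ∧ g ^ k ∈ S := by
  obtain ⟨y, hy⟩ := tt_nonempty hS1
  have h1 : ∀ k : ℕ, g ^ k * y ∈ TT S := fun k => by
    induction k with
    | zero => simpa using hy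
    | succ k ih =>
      rw [pow_succ', mul_assoc]
      exact tt_mono hg ((mul_mem_tt_conj S g _).2 ih)
  obtain ⟨k, l, hkl, he⟩ := (finite_coreSet hS).exists_lt_map_eq_of_forall_mem
    (f := fun k : ℕ => tcore_orb S (g ^ k * y)) fun k => tcore_orb_mem (h1 k)
  obtain ⟨s, hs, h2⟩ := tcore_of_orb_eq he
  refine ⟨l - k, by omega, ?_⟩
  rw [← mul_assoc, mul_left_inj] at h2
  rw [pow_sub g hkl.le, ← h2, mul_inv_cancel_right]
  exact hs

/-- A finitely generated subgroup is not conjugate to a proper subgroup of itself. -/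
theorem conj_eq_of_le {S : Subgroup (Fr n)} (hS : S.FG) {g : Fr n}
    (hg : MulAut.conj g • S ≤ S) : MulAut.conj g • S = S := by
  by_cases h0 : S = ⊥
  · simp [h0]
  obtain ⟨k, hk, h1⟩ := exists_pow_mem hS h0 hg
  obtain ⟨j, rfl⟩ := Nat.exists_eq_succ_of_ne_zero hk
  have h2 : ∀ i : ℕ, ∀ s ∈ S, g ^ i * s * (g ^ i)⁻¹ ∈ S := fun i => by
    induction i with
    | zero => simp
    | succ i ih =>
      intro s hs
      refine hg (tcore_mem_conj.2 ?_)
      have h3 := ih s hs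
      rwa [show g ^ i * s * (g ^ i)⁻¹ = g⁻¹ * (g ^ (i + 1) * s * (g ^ (i + 1))⁻¹) * g by group]
        at h3
  refine le_antisymm hg fun s hs => tcore_mem_conj.2 ?_
  have h3 := h2 j _ (S.mul_mem (S.mul_mem (S.inv_mem h1) hs) h1)
  rwa [show g ^ j * ((g ^ j.succ)⁻¹ * s * g ^ j.succ) * (g ^ j)⁻¹ = g⁻¹ * s * g by
    rw [Nat.succ_eq_add_one]; group] at h3

/-- The conjugates of `P` that meet `Q` come from finitely many double cosets. -/
theorem finite_double_cosets {P Q : Subgroup (Fr n)} (hP : P.FG) (hQ : Q.FG) :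
    ∃ Ω : Finset (Fr n), ∀ g, Q ⊓ MulAut.conj g • P ≠ ⊥ →
      ∃ q ∈ Q, ∃ w ∈ Ω, ∃ p ∈ P, g = q * w * p := by
  obtain ⟨RP, hRP⟩ := exists_tt_subset hP
  obtain ⟨RQ, hRQ⟩ := exists_tt_subset hQ
  refine ⟨(finite_dball (1 : Fr n) (RQ + RP)).toFinset, fun g hg => ?_⟩
  obtain ⟨y, hy⟩ := tt_nonempty hg
  obtain ⟨q, hq, h1⟩ := hRQ y (tt_mono inf_le_left hy)
  have h2 := tt_mono inf_le_right hy
  rw [← mul_inv_cancel_left g y, mul_mem_tt_conj] at h2
  obtain ⟨p, hp, h3⟩ := hRP _ h2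
  rw [← tcore_dd, inv_inv, dd_comm] at h3
  refine ⟨q, hq, q⁻¹ * (g * p), ?_, p⁻¹, P.inv_mem hp, by group⟩
  rw [Set.Finite.mem_toFinset]
  change dd 1 (q⁻¹ * (g * p)) ≤ _
  rw [← tcore_dd, inv_inv, mul_one]
  exact (dd_triangle q y _).trans (add_le_add h1 h3)

/-- The automorphisms that preserve translation lengths form finitely many outer classes. Let
`a i = Φ (of i)` and take `y` minimizing `∑ i, dd y (a i * y)` (or the max). If `y` were far from
some axis, two axes at large distance from `y` would be seen in different directions, so they would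
be joined by a long bridge, against `tl (a i * a j) ≤ 2`. Or: the axes meet pairwise by `bridge`,
and use the Helly property. -/
theorem finite_tl_preserving (n : ℕ) :
    ∃ A : Set (MulAut (Fr n)), A.Finite ∧ ∀ Φ : MulAut (Fr n), (∀ w, tl (Φ w) = tl w) →
      ∃ g : Fr n, MulAut.conj g * Φ ∈ A := by
  have h1 : ∀ i : Fin n, dd 1 (FreeGroup.of i) = 1 := fun i =>
    dd_eq_one.2 ⟨i, Or.inl (one_mul _).symm⟩
  refine ⟨{Ψ | ∀ i, dd 1 (Ψ (FreeGroup.of i)) ≤ 1}, ?_, fun Φ hΦ => ?_⟩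
  · refine Set.Finite.of_finite_image (f := fun Ψ i => Ψ (FreeGroup.of i))
      ((Set.Finite.pi' fun _ : Fin n => finite_dball (1 : Fr n) 1).subset ?_) ?_
    · rintro _ ⟨Ψ, hΨ, rfl⟩
      exact hΨ
    · intro Ψ _ Ψ' _ h
      exact MulEquiv.toMonoidHom_injective (FreeGroup.ext_hom _ _ fun i => congrFun h i)
  have h2 : ∀ i, Φ (FreeGroup.of i) ≠ 1 := fun i h => by
    have h3 := h1 i
    rw [Φ.map_eq_one_iff.1 h, dd_self] at h3
    omega
  have h3 : ∀ i j, (Ax (Φ (FreeGroup.of i)) ∩ Ax (Φ (FreeGroup.of j))).Nonempty := fun i j => by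
    rcases meet_or_bridge (h2 i) (h2 j) with h | ⟨p, hp, q, hq, hpq, h4, h5⟩
    · exact h
    have h6 := (bridge (h2 i) (h2 j) hp hq hpq h4 h5).2.2.2
    have h7 := tl_pos (h2 i)
    have h8 := tl_pos (h2 j)
    have h9 : dd p q ≠ 0 := fun h => hpq (dd_eq_zero.1 h)
    have h10 := tl_le (FreeGroup.of i * FreeGroup.of j) 1
    have h11 := dd_triangle 1 (FreeGroup.of i * 1) (FreeGroup.of i * FreeGroup.of j)
    rw [dd_mul_left, mul_one, h1, h1] at h11
    rw [← map_mul, hΦ] at h6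
    rw [mul_one] at h10
    omega
  obtain ⟨y, hy⟩ : ∃ y, ∀ i, y ∈ Ax (Φ (FreeGroup.of i)) := by
    rcases isEmpty_or_nonempty (Fin n) with h | ⟨⟨b⟩⟩
    · exact ⟨1, fun i => h.elim i⟩
    · obtain ⟨y, -, hy⟩ := tcore_helly Finset.univ b (fun i => Ax (Φ (FreeGroup.of i)))
        (fun i p m q hp hq hm => ax_convex hp hq hm) h3
      exact ⟨y, fun i => hy i (Finset.mem_univ i)⟩
  refine ⟨y⁻¹, fun i => ?_⟩
  have h4 := mem_ax_iff.1 (hy i)
  have h5 := tl_le (FreeGroup.of i) 1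
  rw [mul_one, h1] at h5
  rw [MulAut.mul_apply, MulAut.conj_apply, inv_inv, mul_assoc, ← tcore_dd, inv_inv, mul_one, h4, hΦ]
  exact h5

end Pool.Agent.Lib.MP_9ac97d_al
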