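import Pool.Agent.Lib.MP_9ac97d_al.TCore
import Pool.Agent.Lib.MP_9ac97d_al.TBcc

/-!
# The number of orbits of cuts is bounded by the rank (task TCount)
-/

set_option autoImplicit false

noncomputable section

open Pointwise

namespace Pool.Agent.Lib.MP_9ac97d_al

variable {n : ℕ}

/-- The orbits of cuts of width at least `m` under conjugation by `S`. -/
def cutOrbits (S : Subgroup (Fr n)) (m : ℕ) : Set (Set (Set (Fr n))) :=
  (fun U => {U' | ∃ s ∈ S, U' = MulAut.conj s • U}) '' UU S m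

/-- The `S`-orbit of a vertex. -/
def tcount_o (S : Subgroup (Fr n)) (y : Fr n) : Set (Fr n) :=
  (fun s => s * y) '' (S : Set (Fr n))

theorem tcount_o_mul {S : Subgroup (Fr n)} {s : Fr n} (hs : s ∈ S) (y : Fr n) :
    tcount_o S (s * y) = tcount_o S y := by
  ext z
  constructor
  · rintro ⟨t, ht, rfl⟩
    exact ⟨t * s, S.mul_mem ht hs, by simp [mul_assoc]⟩
  · rintro ⟨t, ht, rfl⟩
    exact ⟨t * s⁻¹, S.mul_mem ht (S.inv_mem hs), by simp [mul_assoc]⟩

theorem tcount_o_eq {S : Subgroup (Fr n)} {x y : Fr n} (h : tcount_o S x = tcount_o S y) :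
    ∃ s ∈ S, x = s * y := by
  have : x ∈ tcount_o S x := ⟨1, S.one_mem, one_mul x⟩
  rw [h] at this
  obtain ⟨s, hs, rfl⟩ := this
  exact ⟨s, hs, rfl⟩

/-- Representatives of the orbits of vertices. -/
theorem tcount_rep (S : Subgroup (Fr n)) :
    ∃ rep : Set (Fr n) → Fr n, ∀ x, ∃ s ∈ S, rep (tcount_o S x) = s * x := by
  refine ⟨Function.invFun (tcount_o S), fun x => tcount_o_eq ?_⟩
  exact Function.invFun_eq ⟨x, rfl⟩

/-- The universal cocycle with prescribed invariant values on the positive edges. -/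
theorem tcount_cocycle {M : Type} [AddCommGroup M] (S : Subgroup (Fr n)) (F : Fr n → Fin n → M)
    (hF : ∀ s ∈ S, ∀ x i, F (s * x) i = F x i) :
    ∃ J : Fr n → M, (∀ s ∈ S, ∀ x, J (s * x) = J s + J x) ∧
      ∀ x i, J (x * FreeGroup.of i) = J x + F x i := by
  let step : Fin n → Equiv.Perm (Fr n × M) := fun i =>
    ⟨fun p => (p.1 * FreeGroup.of i, p.2 + F p.1 i),
      fun p => (p.1 * (FreeGroup.of i)⁻¹, p.2 - F (p.1 * (FreeGroup.of i)⁻¹) i),
      fun p => by simp, fun p => by simp⟩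
  let φ : Fr n →* Equiv.Perm (Fr n × M) := FreeGroup.lift fun i => (step i)⁻¹
  have key : ∀ g : Fr n, ∃ K : Fr n → M, (∀ x q, φ g⁻¹ (x, q) = (x * g, q + K x)) ∧
      ∀ s ∈ S, ∀ x, K (s * x) = K x := by
    intro g
    induction g using FreeGroup.induction_on with
    | C1 => exact ⟨fun _ => 0, fun x q => by simp, fun _ _ _ => rfl⟩
    | of i =>
      refine ⟨fun x => F x i, fun x q => ?_, fun s hs x => hF s hs x i⟩
      rw [map_inv, FreeGroup.lift_apply_of, inv_inv]; rfl
    | inv_of i _ =>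
      refine ⟨fun x => -F (x * (FreeGroup.of i)⁻¹) i, fun x q => ?_, fun s hs x => by
        simp only [mul_assoc, hF s hs]⟩
      rw [inv_inv, FreeGroup.lift_apply_of, ← sub_eq_add_neg]; rfl
    | mul g h ihg ihh =>
      obtain ⟨K, hK, hK'⟩ := ihg
      obtain ⟨L, hL, hL'⟩ := ihh
      refine ⟨fun x => K x + L (x * g), fun x q => ?_, fun s hs x => by
        simp only [hK' s hs, mul_assoc, hL' s hs]⟩
      rw [mul_inv_rev, map_mul, Equiv.Perm.mul_apply, hK, hL, mul_assoc, add_assoc]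
  choose K hK hK' using key
  have hmul : ∀ g h, K (g * h) 1 = K g 1 + K h g := by
    intro g h
    have h1 := hK (g * h) 1 0
    rw [mul_inv_rev, map_mul, Equiv.Perm.mul_apply, hK, hK] at h1
    simpa using (congrArg Prod.snd h1).symm
  refine ⟨fun g => K g 1, fun s hs x => ?_, fun x i => ?_⟩
  · have := hK' x s hs 1
    rw [mul_one] at this
    simp only [hmul, this]
  · have h1 := hK (FreeGroup.of i) x 0
    rw [map_inv, FreeGroup.lift_apply_of, inv_inv] at h1
    have h2 : (0 : M) + F x i = 0 + K (FreeGroup.of i) x := congrArg Prod.snd h1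
    simp only [hmul]
    rw [add_left_cancel h2]

theorem tcount_rk {S : Subgroup (Fr n)} (hS : S.FG) :
    ∃ T : Finset (Fr n), T.card = rk S ∧ Subgroup.closure (T : Set (Fr n)) = S := by
  obtain ⟨T, hT⟩ := hS
  exact Nat.sInf_mem (s := {k | ∃ T : Finset (Fr n), T.card = k ∧
    Subgroup.closure (T : Set (Fr n)) = S}) ⟨T.card, T, rfl, hT⟩

/-- The Euler characteristic inequality `e ≤ v + rk S`. -/
theorem tcount_euler {S : Subgroup (Fr n)} (hS : S.FG) (V : Finset (Set (Fr n)))
    (E : Finset (Set (Fr n) × Fin n))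
    (hE : ∀ e ∈ E, ∃ x, e.1 = tcount_o S x ∧ tcount_o S x ∈ V ∧
      tcount_o S (x * FreeGroup.of e.2) ∈ V) : E.card ≤ V.card + rk S := by
  classical
  obtain ⟨T, hT, hTS⟩ := tcount_rk hS
  obtain ⟨rep, hrep⟩ := tcount_rep S
  obtain ⟨J, hJ, hJ'⟩ := tcount_cocycle (M := (Set (Fr n) × Fin n) →₀ ℚ) S
    (fun x i => Finsupp.single (tcount_o S x, i) 1) (fun s hs x i => by rw [tcount_o_mul hs])
  let w : Finset ((Set (Fr n) × Fin n) →₀ ℚ) := V.image (fun c => J (rep c)) ∪ T.image J
  have hJ1 : J 1 = 0 := by simpa using hJ 1 S.one_mem 1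
  have h1 : ∀ s ∈ S, J s ∈ Submodule.span ℚ (w : Set ((Set (Fr n) × Fin n) →₀ ℚ)) := by
    intro s hs
    rw [← hTS] at hs
    induction hs using Subgroup.closure_induction with
    | mem t ht =>
      exact Submodule.subset_span (Finset.mem_coe.2
        (Finset.mem_union_right _ (Finset.mem_image_of_mem J ht)))
    | one => rw [hJ1]; exact Submodule.zero_mem _
    | mul a b ha hb iha ihb =>
      rw [hJ a (hTS ▸ ha)]; exact Submodule.add_mem _ iha ihb
    | inv a ha iha =>
      have := hJ a (hTS ▸ ha) a⁻¹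
      rw [mul_inv_cancel, hJ1] at this
      rw [eq_neg_of_add_eq_zero_right this.symm]
      exact Submodule.neg_mem _ iha
  have h2 : ∀ x, tcount_o S x ∈ V →
      J x ∈ Submodule.span ℚ (w : Set ((Set (Fr n) × Fin n) →₀ ℚ)) := by
    intro x hx
    obtain ⟨s, hs, hsx⟩ := hrep x
    have h3 : J (rep (tcount_o S x)) ∈
        Submodule.span ℚ (w : Set ((Set (Fr n) × Fin n) →₀ ℚ)) :=
      Submodule.subset_span (Finset.mem_coe.2
        (Finset.mem_union_left _ (Finset.mem_image_of_mem (fun c => J (rep c)) hx)))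
    rw [hsx, hJ s hs] at h3
    simpa using Submodule.sub_mem _ h3 (h1 s hs)
  have hli : LinearIndependent ℚ
      (fun e : E => (Finsupp.single e.1 1 : (Set (Fr n) × Fin n) →₀ ℚ)) := by
    have := (Finsupp.basisSingleOne (R := ℚ) (ι := Set (Fr n) × Fin n)).linearIndependent.comp
      (fun e : E => e.1) Subtype.val_injective
    simpa [Function.comp_def] using this
  have h4 := linearIndependent_le_span_aux' _ hli (w : Set ((Set (Fr n) × Fin n) →₀ ℚ)) (by
    rintro _ ⟨⟨e, he⟩, rfl⟩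
    obtain ⟨x, hx, hx1, hx2⟩ := hE e he
    have h5 := Submodule.sub_mem _ (h2 _ hx2) (h2 _ hx1)
    rw [hJ', add_sub_cancel_left, ← hx] at h5
    exact h5)
  simp only [Finset.coe_sort_coe, Fintype.card_coe] at h4
  calc E.card ≤ w.card := h4
    _ ≤ _ := Finset.card_union_le _ _
    _ ≤ V.card + T.card := add_le_add Finset.card_image_le Finset.card_image_le
    _ = _ := by rw [hT]

theorem tcount_nb_finite (S : Subgroup (Fr n)) (x : Fr n) : {y | Ess S x y}.Finite :=
  (finite_dball x 1).subset fun _ hy => hy.1.le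

theorem tcount_nb_le (S : Subgroup (Fr n)) (x : Fr n) : {y | Ess S x y}.ncard ≤ 2 * n :=
  (Set.ncard_le_ncard (fun _ hy => hy.1)
    ((finite_dball x 1).subset fun _ hy => le_of_eq hy)).trans (ncard_nbr_le x)

theorem tcount_ess_mul {S : Subgroup (Fr n)} {s x y : Fr n} (hs : s ∈ S) (h : Ess S x y) :
    Ess S (s * x) (s * y) := by
  rw [ess_iff] at h ⊢
  exact ⟨by rw [dd_mul_left]; exact h.1, mul_mem_tt hs h.2.1, mul_mem_tt hs h.2.2⟩

theorem tcount_cut_mul {S : Subgroup (Fr n)} {s x y : Fr n} (hs : s ∈ S) (h : dd x y = 1) :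
    cut S (s * x) (s * y) = MulAut.conj s • cut S x y := by
  have := cut_conj S h s
  rwa [Subgroup.conj_smul_eq_self_of_mem hs] at this

/-- There are at most `2 rk S` orbits of branch vertices. -/
theorem tcount_branch {S : Subgroup (Fr n)} (hS : S.FG) {rep : Set (Fr n) → Fr n}
    (hrep : ∀ x, ∃ s ∈ S, rep (tcount_o S x) = s * x) (B : Finset (Set (Fr n)))
    (hB : ∀ c ∈ B, c ∈ coreSet S ∧ 2 < {y | Ess S (rep c) y}.ncard) : B.card ≤ 2 * rk S := by
  classical
  set V := (finite_coreSet hS).toFinset with hV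
  have hVm : ∀ c, c ∈ V ↔ ∃ x ∈ TT S, tcount_o S x = c := fun c => by
    rw [hV, Set.Finite.mem_toFinset]; rfl
  have hrepo : ∀ c ∈ V, tcount_o S (rep c) = c ∧ rep c ∈ TT S := by
    intro c hc
    obtain ⟨x, hx, rfl⟩ := (hVm c).1 hc
    obtain ⟨s, hs, hsx⟩ := hrep x
    rw [hsx]
    exact ⟨tcount_o_mul hs x, mul_mem_tt hs hx⟩
  let E : Finset (Set (Fr n) × Fin n) := (V ×ˢ Finset.univ).filter fun e =>
    ∃ x, e.1 = tcount_o S x ∧ tcount_o S x ∈ V ∧ tcount_o S (x * FreeGroup.of e.2) ∈ V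
  have hE : E.card ≤ V.card + rk S := tcount_euler hS V E fun e he => (Finset.mem_filter.1 he).2
  let D : Finset (Σ _ : Set (Fr n), Fr n) :=
    V.sigma fun c => (tcount_nb_finite S (rep c)).toFinset
  let χ₁ : Set (Fr n) × Fin n → (Σ _ : Set (Fr n), Fr n) := fun e =>
    ⟨e.1, rep e.1 * FreeGroup.of e.2⟩
  let χ₂ : Set (Fr n) × Fin n → (Σ _ : Set (Fr n), Fr n) := fun e =>
    ⟨tcount_o S (rep e.1 * FreeGroup.of e.2),
      rep (tcount_o S (rep e.1 * FreeGroup.of e.2)) * (FreeGroup.of e.2)⁻¹⟩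
  have hD : D ⊆ E.image χ₁ ∪ E.image χ₂ := by
    rintro ⟨c, y⟩ hp
    obtain ⟨hc, hy⟩ := Finset.mem_sigma.1 hp
    have hy' : Ess S (rep c) y := (tcount_nb_finite S (rep c)).mem_toFinset.1 hy
    obtain ⟨h1, h2, h3⟩ := ess_iff.1 hy'
    have hyV : tcount_o S y ∈ V := (hVm _).2 ⟨y, h3, rfl⟩
    have hc' : tcount_o S (rep c) = c := (hrepo c hc).1
    obtain ⟨i, hi | hi⟩ := dd_eq_one.1 h1
    · refine Finset.mem_union_left _ (Finset.mem_image.2 ⟨(c, i), Finset.mem_filter.2
        ⟨Finset.mem_product.2 ⟨hc, Finset.mem_univ _⟩, rep c, hc'.symm, by rw [hc']; exact hc,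
          by rw [← hi]; exact hyV⟩, ?_⟩)
      simp only [χ₁, hi]
    · refine Finset.mem_union_right _ (Finset.mem_image.2 ⟨(tcount_o S y, i), Finset.mem_filter.2
        ⟨Finset.mem_product.2 ⟨hyV, Finset.mem_univ _⟩, y, rfl, hyV,
          by rw [← hi, hc']; exact hc⟩, ?_⟩)
      obtain ⟨s, hs, hsy⟩ := hrep y
      have h4 : tcount_o S (rep (tcount_o S y) * FreeGroup.of i) = c := by
        rw [hsy, mul_assoc, tcount_o_mul hs, ← hi, hc']
      simp only [χ₂, h4]
      rw [hi, mul_inv_cancel_right]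
  have hD1 : D.card ≤ E.card + E.card :=
    (Finset.card_le_card hD).trans ((Finset.card_union_le _ _).trans
      (add_le_add Finset.card_image_le Finset.card_image_le))
  have hBV : B ⊆ V := fun c hc => (Set.Finite.mem_toFinset _).2 (hB c hc).1
  have hD2 : 2 * V.card + B.card ≤ D.card := by
    rw [Finset.card_sigma]
    calc 2 * V.card + B.card = ∑ c ∈ V, (2 + if c ∈ B then 1 else 0) := by
          rw [Finset.sum_add_distrib, Finset.sum_const, smul_eq_mul, mul_comm,
            Finset.sum_ite_mem, Finset.inter_eq_right.2 hBV]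
          simp
      _ ≤ _ := by
          refine Finset.sum_le_sum fun c hc => ?_
          rw [← Set.ncard_eq_toFinset_card _ (tcount_nb_finite S (rep c))]
          split_ifs with h
          · exact (hB c h).2
          · obtain ⟨z, w, hzw, hz, hw⟩ := exists_two_nbrs (hrepo c hc).2
            exact (Set.one_lt_ncard (tcount_nb_finite S (rep c))).2 ⟨z, hz, w, hw, hzw⟩
  omega

/-- Every cut is the cut of an edge whose tail is a branch vertex. -/
theorem tcount_first {S : Subgroup (Fr n)} (hN : NonAb S) {U : Set (Fr n)}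
    (hU : (cutEdges S U).Nonempty) :
    ∃ x y, Ess S x y ∧ cut S x y = U ∧ 2 < {y | Ess S x y}.ncard := by
  obtain ⟨⟨x, y⟩, ⟨hxy, hcut⟩, hmax⟩ := Set.Finite.exists_maximalFor
    (fun p : Fr n × Fr n => Half p.1 p.2) _ (finite_cutEdges hN U) hU
  refine ⟨x, y, hxy, hcut, ?_⟩
  by_contra hlt
  dsimp only at hxy hcut
  obtain ⟨h1, hx, hy⟩ := ess_iff.1 hxy
  obtain ⟨z, hzy, hz⟩ : ∃ z, z ≠ y ∧ Ess S x z := by
    obtain ⟨z, w, hzw, hz, hw⟩ := exists_two_nbrs hx
    by_cases h : z = y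
    · exact ⟨w, fun h' => hzw (h.trans h'.symm), hw⟩
    · exact ⟨z, h, hz⟩
  have hall : ∀ m, Ess S x m → m = y ∨ m = z := by
    intro m hm
    by_contra hcon
    rw [not_or] at hcon
    exact hlt ((Set.two_lt_ncard (tcount_nb_finite S x)).2
      ⟨m, hm, y, hxy, z, hz, hcon.1, hcon.2, hzy.symm⟩)
  have h2 : dd x z = 1 := hz.1
  have h2' : dd z x = 1 := by rw [dd_comm]; exact h2
  have h1' : dd y x = 1 := by rw [dd_comm]; exact h1
  have h3 : 2 ≤ dd y z := by
    have h4 := dd_parity x y z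
    have h5 : dd y z ≠ 0 := fun h => hzy (dd_eq_zero.1 h).symm
    rw [h1, h2, Nat.even_iff] at h4
    omega
  have hsub : Half x y ⊆ Half z x := by
    rcases half_subset_or h1 h2' (show dd y x < dd y z by omega) with h | h
    · exact h
    · have h4 : z ∈ Half y x := show dd z x < dd z y by rw [dd_comm z y]; omega
      have h5 : dd z x < dd z z := h.1 h4
      rw [dd_self] at h5
      omega
  have hmid : ∀ w ∈ TT S, w ∈ Half z x → w ∈ Half y x → w = x := by
    intro w hw hwz hwy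
    by_contra hne
    have h4 : dd x w ≠ 0 := fun h => hne (dd_eq_zero.1 h).symm
    obtain ⟨m, hm, hm1⟩ := exists_btw x w (t := 1) (by omega)
    rcases hall m (ess_iff.2 ⟨hm1, hx, tt_convex hx hw hm⟩) with rfl | rfl
    · exact (not_mem_half h1 w).2 hwy ((mem_half_iff h1 w).2 hm)
    · exact (not_mem_half h2 w).2 hwz ((mem_half_iff h2 w).2 hm)
  have hcut' : cut S z x = U := by
    rw [← hcut]
    refine Set.Subset.antisymm ?_ (cut_mono S hsub)
    rintro a ⟨haS, ha1, ha⟩
    refine ⟨haS, ha1, (att_or ha1 h1).resolve_right fun ha' => ?_⟩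
    obtain ⟨p, hp⟩ := ax_nonempty a
    have hpT : p ∈ TT S := ⟨a, haS, ha1, hp⟩
    obtain ⟨k, hk⟩ := Filter.eventually_atTop.1
      (((att_iff ha1 h2' p).1 ha).and ((att_iff ha1 h1' p).1 ha'))
    have e1 := hmid _ (mul_mem_tt (S.pow_mem haS k) hpT) (hk k le_rfl).1 (hk k le_rfl).2
    have e2 := hmid _ (mul_mem_tt (S.pow_mem haS (k + 1)) hpT) (hk _ (Nat.le_succ k)).1
      (hk _ (Nat.le_succ k)).2
    rw [← e1, pow_succ', mul_assoc] at e2
    exact ha1 (by simpa using e2)
  have h6 : Half z x ⊆ Half x y := hmax (j := (z, x)) ⟨hz.symm, hcut'⟩ hsub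
  have h7 : dd x y < dd x x := h6 (show dd x x < dd x z by rw [dd_self]; omega)
  rw [dd_self] at h7
  omega

theorem tcount_orb_conj {S : Subgroup (Fr n)} {s : Fr n} (hs : s ∈ S) (U : Set (Fr n)) :
    {U' | ∃ t ∈ S, U' = MulAut.conj t • MulAut.conj s • U} =
      {U' | ∃ t ∈ S, U' = MulAut.conj t • U} := by
  ext U'
  constructor
  · rintro ⟨t, ht, rfl⟩
    exact ⟨t * s, S.mul_mem ht hs, by rw [map_mul, mul_smul]⟩
  · rintro ⟨t, ht, rfl⟩
    exact ⟨t * s⁻¹, S.mul_mem ht (S.inv_mem hs), by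
      rw [← mul_smul, ← map_mul, inv_mul_cancel_right]⟩

theorem tcount_orb_eq {S : Subgroup (Fr n)} {U W : Set (Fr n)}
    (h : {U' | ∃ t ∈ S, U' = MulAut.conj t • U} = {U' | ∃ t ∈ S, U' = MulAut.conj t • W}) :
    ∃ s ∈ S, U = MulAut.conj s • W := by
  have : U ∈ {U' | ∃ t ∈ S, U' = MulAut.conj t • U} := ⟨1, S.one_mem, by simp⟩
  rwa [h] at this

theorem tcount_uu_mono (S : Subgroup (Fr n)) {m m' : ℕ} (h : m ≤ m') : UU S m' ⊆ UU S m :=
  fun _ hU => ⟨hU.1, h.trans hU.2⟩

/-- Euler characteristic. Let `v`, `e` be the numbers of orbits of vertices and of positive edges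
of the minimal subtree. An invariant function `f` on positive edges gives the homomorphism
`a ↦ ∫ f` along the geodesic from `y₀` to `a y₀` (a finite sum of `f ε` times the difference of the
indicators of the half tree); if it vanishes, `f` is the coboundary of an invariant function on the
vertices. So `e ≤ v + rk S`. Every vertex has degree at least two and the degrees add up to `2 e`,
so there are at most `2 rk S` orbits of vertices of degree at least three. Every cut is the cut of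
an edge whose tail has degree at least three (take the first edge with this cut: if its tail had
degree two the previous edge would have the same cut). -/
theorem cutOrbits_le {S : Subgroup (Fr n)} (hS : S.FG) (hN : NonAb S) (m : ℕ) :
    (cutOrbits S m).Finite ∧ (cutOrbits S m).ncard ≤ 4 * n * rk S := by
  classical
  obtain ⟨rep, hrep⟩ := tcount_rep S
  let B : Finset (Set (Fr n)) := (finite_coreSet hS).toFinset.filter fun c =>
    2 < {y | Ess S (rep c) y}.ncard
  have hB : B.card ≤ 2 * rk S := tcount_branch hS hrep B fun c hc =>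
    ⟨(Set.Finite.mem_toFinset _).1 (Finset.mem_filter.1 hc).1, (Finset.mem_filter.1 hc).2⟩
  let W : Finset (Set (Set (Fr n))) := B.biUnion fun c =>
    (tcount_nb_finite S (rep c)).toFinset.image fun y =>
      {U' | ∃ s ∈ S, U' = MulAut.conj s • cut S (rep c) y}
  have hW : W.card ≤ B.card * (2 * n) := by
    refine Finset.card_biUnion_le_card_mul _ _ _ fun c _ => Finset.card_image_le.trans ?_
    rw [← Set.ncard_eq_toFinset_card _ (tcount_nb_finite S (rep c))]
    exact tcount_nb_le S _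
  have hsub : cutOrbits S m ⊆ W := by
    rintro _ ⟨U, hU, rfl⟩
    obtain ⟨x, y, hxy, rfl, hbr⟩ := tcount_first hN hU.1
    obtain ⟨s, hs, hsx⟩ := hrep x
    refine Finset.mem_coe.2 (Finset.mem_biUnion.2 ⟨tcount_o S x, Finset.mem_filter.2
      ⟨(Set.Finite.mem_toFinset _).2 ⟨x, (ess_iff.1 hxy).2.1, rfl⟩, ?_⟩,
      Finset.mem_image.2 ⟨s * y, (Set.Finite.mem_toFinset _).2 ?_, ?_⟩⟩)
    · refine hbr.trans_le (Set.ncard_le_ncard_of_injOn (fun z => s * z) (fun z hz => ?_)
        (fun _ _ _ _ h => mul_left_cancel h) (tcount_nb_finite S _))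
      rw [hsx]; exact tcount_ess_mul hs hz
    · rw [hsx]; exact tcount_ess_mul hs hxy
    · rw [hsx, tcount_cut_mul hs hxy.1, tcount_orb_conj hs]
  refine ⟨W.finite_toSet.subset hsub, ?_⟩
  calc (cutOrbits S m).ncard ≤ (W : Set (Set (Set (Fr n)))).ncard :=
        Set.ncard_le_ncard hsub W.finite_toSet
    _ = W.card := Set.ncard_coe_finset W
    _ ≤ 2 * rk S * (2 * n) := hW.trans (Nat.mul_le_mul_right _ hB)
    _ = 4 * n * rk S := by ring

/-- A large core has a wide cut: each orbit of vertices contains the tail of an edge, and the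
orbits of edges are at most the sum of the widths over the orbits of cuts. -/
theorem uu_nonempty {S : Subgroup (Fr n)} (hS : S.FG) (hN : NonAb S) {m : ℕ}
    (h : 4 * n * rk S * m < core S) : (UU S m).Nonempty := by
  classical
  by_contra hne
  rw [Set.not_nonempty_iff_eq_empty] at hne
  obtain ⟨hfin, hcard⟩ := cutOrbits_le hS hN 0
  have hex : ∀ O : Set (Set (Fr n)), ∃ U, O ∈ cutOrbits S 0 →
      U ∈ UU S 0 ∧ {U' | ∃ s ∈ S, U' = MulAut.conj s • U} = O := by
    intro O
    by_cases hO : O ∈ cutOrbits S 0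
    · obtain ⟨U, hU, hUO⟩ := hO
      exact ⟨U, fun _ => ⟨hU, hUO⟩⟩
    · exact ⟨∅, fun h => absurd h hO⟩
  choose R hR using hex
  let W : Finset (Set (Fr n)) := hfin.toFinset.biUnion fun O =>
    (finite_cutEdges hN (R O)).toFinset.image fun p => tcount_o S p.1
  have hW : W.card ≤ hfin.toFinset.card * m := by
    refine Finset.card_biUnion_le_card_mul _ _ _ fun O hO => Finset.card_image_le.trans ?_
    rw [← Set.ncard_eq_toFinset_card _ (finite_cutEdges hN (R O))]
    by_contra hlt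
    have : R O ∈ UU S m := ⟨(hR O ((Set.Finite.mem_toFinset _).1 hO)).1.1, by omega⟩
    rw [hne] at this
    exact this
  have hsub : coreSet S ⊆ W := by
    rintro _ ⟨x, hx, rfl⟩
    obtain ⟨y, -, -, hxy, -⟩ := exists_two_nbrs hx
    have hO : {U' | ∃ s ∈ S, U' = MulAut.conj s • cut S x y} ∈ cutOrbits S 0 :=
      ⟨cut S x y, ⟨⟨(x, y), hxy, rfl⟩, Nat.zero_le _⟩, rfl⟩
    obtain ⟨s, hs, hs'⟩ := tcount_orb_eq (hR _ hO).2
    refine Finset.mem_coe.2 (Finset.mem_biUnion.2 ⟨_, (Set.Finite.mem_toFinset _).2 hO,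
      Finset.mem_image.2 ⟨(s * x, s * y), (Set.Finite.mem_toFinset _).2
        ⟨tcount_ess_mul hs hxy, ?_⟩, tcount_o_mul hs x⟩⟩)
    rw [hs']; exact tcount_cut_mul hs hxy.1
  have h1 : core S ≤ W.card :=
    (Set.ncard_le_ncard hsub W.finite_toSet).trans (Set.ncard_coe_finset W).le
  rw [← Set.ncard_eq_toFinset_card _ hfin] at hW
  have h2 := Nat.mul_le_mul_right m hcard
  omega

/-- A gap in the scales: with `f m = lam * m + C` (`lam ≥ 1`, valid for all `Φ ∈ A` by `cut_bcc`)
the numbers of orbits of cuts of width at least `f^[k] 1` decrease, are positive and bounded, so two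
consecutive ones agree. -/
theorem exists_invariant_scale (A : Set (MulAut (Fr n))) (hA : A.Finite) (r : ℕ) :
    ∃ V : ℕ, ∀ S : Subgroup (Fr n), S.FG → NonAb S → rk S ≤ r → V ≤ core S →
      ∃ m, (UU S m).Nonempty ∧ ∀ Φ ∈ A, ∀ g : Fr n, (MulAut.conj g * Φ) • S = S →
        ∀ U ∈ UU S m, (MulAut.conj g * Φ) • U ∈ UU S m := by
  classical
  choose lam C hlam using fun Φ : MulAut (Fr n) => cut_bcc Φ
  let f : ℕ → ℕ := fun m => (hA.toFinset.sup lam + 1) * m + hA.toFinset.sup C
  have hf : ∀ m, m ≤ f m := fun m => by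
    simp only [f]; nlinarith [Nat.zero_le (hA.toFinset.sup lam * m)]
  have hf' : ∀ Φ ∈ A, ∀ m, lam Φ * m + C Φ ≤ f m := fun Φ hΦ m =>
    add_le_add (Nat.mul_le_mul_right m ((Finset.le_sup (f := lam)
      (hA.mem_toFinset.2 hΦ)).trans (Nat.le_succ _))) (Finset.le_sup (hA.mem_toFinset.2 hΦ))
  have hmono : Monotone fun k => f^[k] 1 := monotone_nat_of_le_succ fun k => by
    rw [Function.iterate_succ_apply']; exact hf _
  refine ⟨4 * n * r * f^[4 * n * r] 1 + 1, fun S hS hN hr hV => ?_⟩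
  have hb : 4 * n * rk S ≤ 4 * n * r := Nat.mul_le_mul_left _ hr
  have hne : (UU S (f^[4 * n * r] 1)).Nonempty :=
    uu_nonempty hS hN (lt_of_le_of_lt (Nat.mul_le_mul_right _ hb) hV)
  obtain ⟨k, hk, hkc⟩ : ∃ k < 4 * n * r,
      (cutOrbits S (f^[k] 1)).ncard ≤ (cutOrbits S (f^[k + 1] 1)).ncard := by
    by_contra hcon
    simp only [not_exists, not_and, not_le] at hcon
    have h1 : ∀ k ≤ 4 * n * r,
        (cutOrbits S (f^[k] 1)).ncard + k ≤ (cutOrbits S (f^[0] 1)).ncard := by
      intro k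
      induction k with
      | zero => intro _; exact le_rfl
      | succ k ih =>
        intro hk
        have h2 := ih (by omega)
        have h3 := hcon k (by omega)
        omega
    have h2 := h1 _ le_rfl
    have h3 := (cutOrbits_le hS hN (f^[0] 1)).2
    have h4 : 0 < (cutOrbits S (f^[4 * n * r] 1)).ncard :=
      (Set.ncard_pos (cutOrbits_le hS hN _).1).2 (hne.image _)
    omega
  have heq : cutOrbits S (f^[k + 1] 1) = cutOrbits S (f^[k] 1) :=
    Set.eq_of_subset_of_ncard_le (Set.image_mono (tcount_uu_mono S (hmono (Nat.le_succ k)))) hkc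
      (cutOrbits_le hS hN _).1
  refine ⟨f^[k] 1, hne.mono (tcount_uu_mono S (hmono hk.le)), fun Φ hΦ g hg U hU => ?_⟩
  have h1 : U ∈ UU S (f^[k + 1] 1) := by
    have h2 : {U' | ∃ s ∈ S, U' = MulAut.conj s • U} ∈ cutOrbits S (f^[k + 1] 1) := by
      rw [heq]; exact ⟨U, hU, rfl⟩
    obtain ⟨U', hU', h3⟩ := h2
    obtain ⟨s, hs, rfl⟩ := tcount_orb_eq h3.symm
    have := uu_conj S _ s hU'
    rwa [Subgroup.conj_smul_eq_self_of_mem hs] at this
  rw [Function.iterate_succ_apply'] at h1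
  have h2 := uu_conj _ _ g (hlam Φ S hN _ U (tcount_uu_mono S (hf' Φ hΦ _) h1))
  rwa [← mul_smul, ← mul_smul, hg] at h2

end Pool.Agent.Lib.MP_9ac97d_al
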