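import Pool.Agent.Lib.MP_9ac97d_al.TForest
import Pool.Agent.Lib.MP_9ac97d_al.TBcc

/-!
# The dual tree of the family of wide cuts (task TDual)
-/

set_option autoImplicit false

noncomputable section

open Pointwise

namespace Pool.Agent.Lib.MP_9ac97d_al

variable {n : ℕ}

theorem smul_opp {S : Subgroup (Fr n)} {Φ : MulAut (Fr n)} (hΦ : Φ • S = S) (U : Set (Fr n)) :
    Φ • opp S U = opp S (Φ • U) := by
  unfold opp
  rw [Set.smul_set_sdiff, Set.smul_set_sdiff, ← Subgroup.coe_pointwise_smul, hΦ,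
    Set.smul_set_singleton, MulAut.smul_def, map_one]

theorem smul_head {S : Subgroup (Fr n)} {𝒰 : Set (Set (Fr n))} {Φ : MulAut (Fr n)}
    (hΦ : Φ • S = S) (h𝒰 : Φ • 𝒰 = 𝒰) (U : Set (Fr n)) :
    Φ • head S 𝒰 U = head S 𝒰 (Φ • U) := by
  ext V
  rw [Set.mem_smul_set_iff_inv_smul_mem]
  have h1 : Φ⁻¹ • V ∈ 𝒰 ↔ V ∈ 𝒰 := by
    rw [← Set.mem_smul_set_iff_inv_smul_mem, h𝒰]
  have h2 : ∀ W : Set (Fr n), W ⊆ Φ⁻¹ • V ↔ Φ • W ⊆ V := fun W =>
    Set.smul_set_subset_iff_subset_inv_smul_set.symm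
  have h3 : ∀ W : Set (Fr n), Φ⁻¹ • V ⊆ W ↔ V ⊆ Φ • W := fun W => by
    rw [Set.smul_set_subset_iff_subset_inv_smul_set, inv_inv]
  simp only [head, Set.mem_ofPred_eq, Set.ssubset_def, h1, h2, h3, smul_opp hΦ]

/-- Two cuts are adjacent if they are opposite or have the same terminal vertex. -/
def Adjc (S : Subgroup (Fr n)) (𝒰 : Set (Set (Fr n))) (A B : Set (Fr n)) : Prop :=
  A ∈ 𝒰 ∧ B ∈ 𝒰 ∧ (B = opp S A ∨ head S 𝒰 A = head S 𝒰 B)

theorem tdual_conj {S : Subgroup (Fr n)} {s : Fr n} (hs : s ∈ S) : MulAut.conj s • S = S := by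
  ext x
  rw [Subgroup.mem_pointwise_smul_iff_inv_smul_mem, ← map_inv, MulAut.smul_def, MulAut.conj_apply,
    inv_inv]
  constructor
  · intro h
    have := S.mul_mem (S.mul_mem hs h) (S.inv_mem hs)
    simpa [mul_assoc] using this
  · intro h
    exact S.mul_mem (S.mul_mem (S.inv_mem hs) h) hs

theorem tdual_cut_mul {S : Subgroup (Fr n)} {s x y : Fr n} (hs : s ∈ S) (h : dd x y = 1) :
    cut S (s * x) (s * y) = MulAut.conj s • cut S x y := by
  rw [← cut_conj S h s, tdual_conj hs]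

theorem tdual_ess_mul {S : Subgroup (Fr n)} {s x y : Fr n} (hs : s ∈ S) (h : Ess S x y) :
    Ess S (s * x) (s * y) := by
  rw [ess_iff] at h ⊢
  exact ⟨by rw [dd_mul_left, h.1], mul_mem_tt hs h.2.1, mul_mem_tt hs h.2.2⟩

theorem tdual_q_mul {S : Subgroup (Fr n)} {s x y x' y' : Fr n} (hs : s ∈ S) (h : dd x y = 1)
    (h' : dd x' y' = 1) (e : cut S x y = cut S x' y') :
    cut S (s * x) (s * y) = cut S (s * x') (s * y') := by
  rw [tdual_cut_mul hs h, tdual_cut_mul hs h', e]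

theorem tdual_q_swap {S : Subgroup (Fr n)} {x y x' y' : Fr n} (h : dd x y = 1)
    (h' : dd x' y' = 1) (e : cut S x y = cut S x' y') : cut S y x = cut S y' x' := by
  rw [cut_symm S h, cut_symm S h', e]

theorem tdual_disj {S : Subgroup (Fr n)} {x y a : Fr n} (h : dd x y = 1) (h1 : a ∈ cut S x y)
    (h2 : a ∈ cut S y x) : False :=
  not_att_both h h1.2.2 h2.2.2

theorem tdual_free1 {S : Subgroup (Fr n)} (hN : NonAb S) {s t x y : Fr n} (hs : s ∈ S)
    (ht : t ∈ S) (h : Ess S x y) (e : cut S (s * x) (s * y) = cut S (t * x) (t * y)) : s = t := by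
  have hg : t⁻¹ * s ∈ S := S.mul_mem (S.inv_mem ht) hs
  have e1 := tdual_q_mul (S.inv_mem ht) (tdual_ess_mul hs h).1 (tdual_ess_mul ht h).1 e
  rw [inv_mul_cancel_left, inv_mul_cancel_left, ← mul_assoc, ← mul_assoc,
    tdual_cut_mul hg h.1] at e1
  have := eq_one_of_fix_cut hN h (tdual_conj hg) e1
  exact (inv_mul_eq_one.1 this).symm

theorem tdual_free2 {S : Subgroup (Fr n)} (hN : NonAb S) {s t x y : Fr n} (hs : s ∈ S)
    (ht : t ∈ S) (h : Ess S x y) (e : cut S (s * x) (s * y) = cut S (t * y) (t * x)) : False := by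
  have hg : t⁻¹ * s ∈ S := S.mul_mem (S.inv_mem ht) hs
  have e1 := tdual_q_mul (S.inv_mem ht) (tdual_ess_mul hs h).1 (tdual_ess_mul ht h.symm).1 e
  rw [inv_mul_cancel_left, inv_mul_cancel_left, ← mul_assoc, ← mul_assoc] at e1
  set g := t⁻¹ * s with hgd
  have e2 := tdual_q_mul hg (tdual_ess_mul hg h).1 h.symm.1 e1
  have e3 := tdual_q_swap (tdual_ess_mul hg h).1 h.symm.1 e1
  rw [e3, ← mul_assoc g g x, ← mul_assoc g g y] at e2
  have e4 : g * g = 1 :=
    tdual_free1 hN (S.mul_mem hg hg) S.one_mem h (by rw [e2, one_mul, one_mul])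
  have e5 : g = 1 := by
    have : g ^ 2 = 1 := by rw [sq, e4]
    exact (pow_eq_one_iff_left two_ne_zero).1 this
  rw [e5, one_mul, one_mul] at e1
  obtain ⟨a, ha⟩ := h.2.1
  exact tdual_disj h.1 ha (e1 ▸ ha)

theorem tdual_uu_mul {S : Subgroup (Fr n)} {m : ℕ} {s x y : Fr n} (hs : s ∈ S) (h : dd x y = 1)
    (hU : cut S x y ∈ UU S m) : cut S (s * x) (s * y) ∈ UU S m := by
  have := uu_conj S m s hU
  rwa [tdual_conj hs, ← tdual_cut_mul hs h] at this

theorem tdual_uu_swap {S : Subgroup (Fr n)} {m : ℕ} {x y : Fr n} (h : dd x y = 1)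
    (hU : cut S x y ∈ UU S m) : cut S y x ∈ UU S m := by
  rw [cut_symm S h]
  exact opp_mem_uu hU

theorem tdual_uu_smul {S : Subgroup (Fr n)} (m : ℕ) {s : Fr n} (hs : s ∈ S) :
    MulAut.conj s • UU S m = UU S m := by
  ext V
  rw [Set.mem_smul_set_iff_inv_smul_mem, ← map_inv]
  constructor
  · intro h
    have := uu_conj S m s h
    rwa [tdual_conj hs, smul_smul, ← map_mul, mul_inv_cancel, map_one, one_smul] at this
  · intro h
    have := uu_conj S m s⁻¹ h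
    rwa [tdual_conj (S.inv_mem hs)] at this

/-- Essential edges whose cuts are related by the action of `S × ℤ/2`. -/
def tdualSetoid (S : Subgroup (Fr n)) : Setoid {p : Fr n × Fr n // Ess S p.1 p.2} where
  r p q := ∃ s ∈ S, cut S q.1.1 q.1.2 = cut S (s * p.1.1) (s * p.1.2) ∨
    cut S q.1.1 q.1.2 = cut S (s * p.1.2) (s * p.1.1)
  iseqv := by
    refine ⟨fun p => ⟨1, S.one_mem, Or.inl (by rw [one_mul, one_mul])⟩, ?_, ?_⟩
    · rintro p q ⟨s, hs, e | e⟩
      · refine ⟨s⁻¹, S.inv_mem hs, Or.inl ?_⟩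
        have := tdual_q_mul (S.inv_mem hs) q.2.1 (tdual_ess_mul hs p.2).1 e
        rw [this, inv_mul_cancel_left, inv_mul_cancel_left]
      · refine ⟨s⁻¹, S.inv_mem hs, Or.inr ?_⟩
        have e' := tdual_q_swap q.2.1 (tdual_ess_mul hs p.2.symm).1 e
        have := tdual_q_mul (S.inv_mem hs) q.2.symm.1 (tdual_ess_mul hs p.2).1 e'
        rw [this, inv_mul_cancel_left, inv_mul_cancel_left]
    · rintro p q r ⟨s, hs, e | e⟩ ⟨t, ht, f | f⟩
      · refine ⟨t * s, S.mul_mem ht hs, Or.inl ?_⟩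
        rw [f, tdual_q_mul ht q.2.1 (tdual_ess_mul hs p.2).1 e, mul_assoc, mul_assoc]
      · refine ⟨t * s, S.mul_mem ht hs, Or.inr ?_⟩
        have e' := tdual_q_swap q.2.1 (tdual_ess_mul hs p.2).1 e
        rw [f, tdual_q_mul ht q.2.symm.1 (tdual_ess_mul hs p.2.symm).1 e', mul_assoc, mul_assoc]
      · refine ⟨t * s, S.mul_mem ht hs, Or.inr ?_⟩
        rw [f, tdual_q_mul ht q.2.1 (tdual_ess_mul hs p.2.symm).1 e, mul_assoc, mul_assoc]
      · refine ⟨t * s, S.mul_mem ht hs, Or.inl ?_⟩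
        have e' := tdual_q_swap q.2.1 (tdual_ess_mul hs p.2.symm).1 e
        rw [f, tdual_q_mul ht q.2.symm.1 (tdual_ess_mul hs p.2).1 e', mul_assoc, mul_assoc]

/-- An equivariant choice of one edge for each cut. -/
structure TdualSel (S : Subgroup (Fr n)) (m : ℕ) (E : Fr n → Fr n → Prop) : Prop where
  ess : ∀ x y, E x y → Ess S x y
  mem : ∀ x y, E x y → cut S x y ∈ UU S m
  swap : ∀ x y, E x y → E y x
  mul : ∀ s ∈ S, ∀ x y, E x y → E (s * x) (s * y)
  surj : ∀ U ∈ UU S m, ∃ x y, E x y ∧ cut S x y = U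
  inj : ∀ x y x' y', E x y → E x' y' → cut S x y = cut S x' y' → x = x' ∧ y = y'

theorem tdual_exists_sel {S : Subgroup (Fr n)} (hN : NonAb S) (m : ℕ) :
    ∃ E, TdualSel S m E := by
  refine ⟨fun x y => ∃ c : Quotient (tdualSetoid S), cut S c.out.1.1 c.out.1.2 ∈ UU S m ∧
    ∃ s ∈ S, (x = s * c.out.1.1 ∧ y = s * c.out.1.2) ∨ (x = s * c.out.1.2 ∧ y = s * c.out.1.1),
    ?_, ?_, ?_, ?_, ?_, ?_⟩
  · rintro x y ⟨c, -, s, hs, ⟨rfl, rfl⟩ | ⟨rfl, rfl⟩⟩
    · exact tdual_ess_mul hs c.out.2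
    · exact tdual_ess_mul hs c.out.2.symm
  · rintro x y ⟨c, hc, s, hs, ⟨rfl, rfl⟩ | ⟨rfl, rfl⟩⟩
    · exact tdual_uu_mul hs c.out.2.1 hc
    · exact tdual_uu_mul hs c.out.2.symm.1 (tdual_uu_swap c.out.2.1 hc)
  · rintro x y ⟨c, hc, s, hs, h | h⟩
    · exact ⟨c, hc, s, hs, Or.inr ⟨h.2, h.1⟩⟩
    · exact ⟨c, hc, s, hs, Or.inl ⟨h.2, h.1⟩⟩
  · rintro t ht x y ⟨c, hc, s, hs, ⟨rfl, rfl⟩ | ⟨rfl, rfl⟩⟩
    · exact ⟨c, hc, t * s, S.mul_mem ht hs, Or.inl ⟨(mul_assoc _ _ _).symm, (mul_assoc _ _ _).symm⟩⟩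
    · exact ⟨c, hc, t * s, S.mul_mem ht hs, Or.inr ⟨(mul_assoc _ _ _).symm, (mul_assoc _ _ _).symm⟩⟩
  · intro U hU
    obtain ⟨p, hp, hpU⟩ := hU.1
    set c : Quotient (tdualSetoid S) := Quotient.mk (tdualSetoid S) ⟨p, hp⟩ with hc
    have h1 : (tdualSetoid S).r c.out ⟨p, hp⟩ := Quotient.exact (by rw [Quotient.out_eq])
    have h2 : cut S c.out.1.1 c.out.1.2 ∈ UU S m := by
      have hpm : cut S p.1 p.2 ∈ UU S m := by rwa [hpU]
      obtain ⟨s, hs, e | e⟩ := (tdualSetoid S).iseqv.symm h1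
      · rw [e]
        exact tdual_uu_mul hs hp.1 hpm
      · rw [e]
        exact tdual_uu_mul hs hp.symm.1 (tdual_uu_swap hp.1 hpm)
    obtain ⟨s, hs, e | e⟩ := h1
    · exact ⟨_, _, ⟨c, h2, s, hs, Or.inl ⟨rfl, rfl⟩⟩, e.symm.trans hpU⟩
    · exact ⟨_, _, ⟨c, h2, s, hs, Or.inr ⟨rfl, rfl⟩⟩, e.symm.trans hpU⟩
  · rintro x y x' y' ⟨c, -, s, hs, h⟩ ⟨c', -, t, ht, h'⟩ e
    have hxy : Ess S x y := by
      rcases h with ⟨rfl, rfl⟩ | ⟨rfl, rfl⟩
      · exact tdual_ess_mul hs c.out.2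
      · exact tdual_ess_mul hs c.out.2.symm
    have r1 : (tdualSetoid S).r c.out ⟨(x, y), hxy⟩ := by
      refine ⟨s, hs, ?_⟩
      rcases h with ⟨h1, h2⟩ | ⟨h1, h2⟩
      · exact Or.inl (by rw [← h1, ← h2])
      · exact Or.inr (by rw [← h1, ← h2])
    have r2 : (tdualSetoid S).r c'.out ⟨(x, y), hxy⟩ := by
      refine ⟨t, ht, ?_⟩
      rcases h' with ⟨h1, h2⟩ | ⟨h1, h2⟩
      · exact Or.inl (by rw [← h1, ← h2]; exact e)
      · exact Or.inr (by rw [← h1, ← h2]; exact e)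
    have hcc : c = c' := by
      rw [← c.out_eq, ← c'.out_eq]
      exact Quotient.sound ((tdualSetoid S).iseqv.trans r1 ((tdualSetoid S).iseqv.symm r2))
    subst hcc
    rcases h with ⟨rfl, rfl⟩ | ⟨rfl, rfl⟩ <;> rcases h' with ⟨rfl, rfl⟩ | ⟨rfl, rfl⟩
    · rw [tdual_free1 hN hs ht c.out.2 e]
      exact ⟨rfl, rfl⟩
    · exact (tdual_free2 hN hs ht c.out.2 e).elim
    · exact (tdual_free2 hN hs ht c.out.2.symm e).elim
    · rw [tdual_free1 hN hs ht c.out.2.symm e]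
      exact ⟨rfl, rfl⟩

section Sel

variable {S : Subgroup (Fr n)} {m : ℕ} {E : Fr n → Fr n → Prop}

theorem tdual_nest (hE : TdualSel S m E) {x y a b : Fr n} (h : E x y) (h' : E a b)
    (hy : y ∈ Half a b) : cut S x y ⊆ cut S a b ∨ opp S (cut S x y) ⊂ cut S a b := by
  rcases half_subset_or (hE.ess _ _ h).1 (hE.ess _ _ h').1 hy with h1 | ⟨h1, h2⟩
  · exact Or.inl (cut_mono S h1)
  · rw [← cut_symm S (hE.ess _ _ h).1]
    refine Or.inr (Set.ssubset_iff_subset_ne.2 ⟨cut_mono S h1, fun e => h2 ?_⟩)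
    obtain ⟨rfl, rfl⟩ := hE.inj _ _ _ _ (hE.swap _ _ h) h' e
    rfl

theorem tdual_opp_anti {U V : Set (Fr n)} (h : U ⊆ V) : opp S V ⊆ opp S U :=
  fun _ hz => ⟨hz.1, fun hu => hz.2 (h hu)⟩

theorem tdual_mem_head (hE : TdualSel S m E) {x y a b : Fr n} (h : E x y) (h' : E a b) :
    cut S a b ∈ head S (UU S m) (cut S x y) ↔ y ∈ Half a b := by
  refine ⟨fun hh => ?_, fun hy => ⟨hE.mem _ _ h', tdual_nest hE h h' hy⟩⟩
  have d1 := (hE.ess _ _ h).1
  have d2 := (hE.ess _ _ h').1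
  have d3 := (hE.ess _ _ h').symm.1
  by_contra hy
  rw [not_mem_half d2] at hy
  rcases hh.2 with h1 | h1 <;> rcases tdual_nest hE h (hE.swap _ _ h') hy with h2 | h2
  · obtain ⟨z, hz⟩ := (hE.ess _ _ h).2.1
    exact tdual_disj d2 (h1 hz) (h2 hz)
  · refine h2.2 ?_
    rw [cut_symm S d2]
    exact tdual_opp_anti h1
  · refine h1.2 ?_
    rw [cut_symm S d3]
    exact tdual_opp_anti h2
  · obtain ⟨z, hz⟩ := (hE.ess _ _ h).2.2
    rw [cut_symm S d1] at hz
    exact tdual_disj d2 (h1.1 hz) (h2.1 hz)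

theorem tdual_head_eq (hE : TdualSel S m E) {x y x' y' : Fr n} (h : E x y) (h' : E x' y') :
    head S (UU S m) (cut S x y) = head S (UU S m) (cut S x' y') ↔
      ∀ a b, E a b → (y ∈ Half a b ↔ y' ∈ Half a b) := by
  constructor
  · intro e a b hab
    rw [← tdual_mem_head hE h hab, ← tdual_mem_head hE h' hab, e]
  · intro e
    ext V
    by_cases hV : V ∈ UU S m
    · obtain ⟨a, b, hab, rfl⟩ := hE.surj V hV
      rw [tdual_mem_head hE h hab, tdual_mem_head hE h' hab, e a b hab]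
    · exact ⟨fun hh => absurd hh.1 hV, fun hh => absurd hh.1 hV⟩

theorem tdual_same (hE : TdualSel S m E) (y y' : Fr n) :
    Same {r : Fr n × Fin n | E r.1 (r.1 * FreeGroup.of r.2)} y y' ↔
      ∀ a b, E a b → (y ∈ Half a b ↔ y' ∈ Half a b) := by
  refine ⟨fun h a b hab => ?_, fun h p hp => h _ _ hp⟩
  have d := (hE.ess _ _ hab).1
  obtain ⟨i, rfl | rfl⟩ := dd_eq_one.1 d
  · exact h (a, i) hab
  · have d' := (hE.ess _ _ hab).symm.1
    rw [← not_mem_half d', ← not_mem_half d']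
    exact not_congr (h (b, i) (hE.swap _ _ hab))

theorem tdual_conn (hE : TdualSel S m E) (d : ℕ) : ∀ x y x' y' : Fr n, E x y → E x' y' →
    dd y y' < d → Relation.ReflTransGen (Adjc S (UU S m)) (cut S x y) (cut S x' y') := by
  induction d with
  | zero => intro _ _ _ _ _ _ h; exact absurd h (Nat.not_lt_zero _)
  | succ d ih =>
    intro x y x' y' h h' hd
    by_cases hs : ∀ a b, E a b → (y ∈ Half a b ↔ y' ∈ Half a b)
    · exact Relation.ReflTransGen.single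
        ⟨hE.mem _ _ h, hE.mem _ _ h', Or.inr ((tdual_head_eq hE h h').2 hs)⟩
    · have hex : ∃ a b, E a b ∧ y ∈ Half b a ∧ y' ∈ Half a b := by
        by_contra hno
        refine hs fun a b hab => ⟨fun h1 => ?_, fun h1 => ?_⟩
        · by_contra h2
          exact hno ⟨b, a, hE.swap _ _ hab, h1, (not_mem_half (hE.ess _ _ hab).1 _).1 h2⟩
        · by_contra h2
          exact hno ⟨a, b, hab, (not_mem_half (hE.ess _ _ hab).1 _).1 h2, h1⟩
      obtain ⟨a, b, hab, h1, h2⟩ := hex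
      obtain ⟨-, b2, b3⟩ := (sep_iff (hE.ess _ _ hab).1 y y').1 ⟨h1, h2⟩
      unfold Btw at b2
      have s1 := ih x y b a h (hE.swap _ _ hab) (by omega)
      have s3 := ih a b x' y' hab h' (by omega)
      have s2 : Adjc S (UU S m) (cut S b a) (cut S a b) :=
        ⟨hE.mem _ _ (hE.swap _ _ hab), hE.mem _ _ hab,
          Or.inl (cut_symm S (hE.ess _ _ hab).symm.1)⟩
      exact (s1.tail s2).trans s3

end Sel

/-- The group `S × ℤ/2` acts freely on `𝒰 = UU S m` (conjugation and `opp`; use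
`eq_one_of_fix_cut`, and torsion freeness for `conj s • U = opp S U`), so one can choose
equivariantly an edge `ε U = (x U, y U) ∈ cutEdges S U`, with `ε (opp S U) = (y U, x U)`. Let `R` be
the set of positive edges among the `ε U`. Then `head S 𝒰 U = {U' ∈ 𝒰 | y U ∈ Half (ε U')}`
(`half_subset_or`, `cut_mono`, and both `U`, `opp S U` are nonempty), so two cuts have the same head
iff `Same R (y U) (y U')`. Connectivity: induct on `dd (y U) (y U')`, using the removed edge on the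
geodesic that is closest to `y U`. Finally `S` does not stabilize a component because `ε U`
separates `a ^ k y` from `b ^ k y`. -/
theorem dual_tree {S : Subgroup (Fr n)} (hN : NonAb S) (m : ℕ) :
    ∃ R : Set (Fr n × Fin n), RInv S R ∧
      (∀ U ∈ UU S m, ∃ y, ¬ S ≤ stabC S R y ∧ ∀ s ∈ S,
        (MulAut.conj s • head S (UU S m) U = head S (UU S m) U ↔ s ∈ stabC S R y)) ∧
      ∀ U ∈ UU S m, ∀ U' ∈ UU S m, Relation.ReflTransGen (Adjc S (UU S m)) U U' := by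
  obtain ⟨E, hE⟩ := tdual_exists_sel hN m
  have hR : RInv S {r : Fr n × Fin n | E r.1 (r.1 * FreeGroup.of r.2)} := by
    intro g hg p hp
    have := hE.mul g hg _ _ hp
    rwa [← mul_assoc] at this
  refine ⟨_, hR, ?_, ?_⟩
  · intro U hU
    obtain ⟨x, y, hxy, rfl⟩ := hE.surj U hU
    have d := (hE.ess _ _ hxy).1
    have d' := (hE.ess _ _ hxy).symm.1
    refine ⟨y, fun hle => ?_, fun s hs => ?_⟩
    · obtain ⟨b, hbS, hb1, hb⟩ := (hE.ess _ _ hxy).2.2
      obtain ⟨k, hk⟩ := ((att_iff hb1 d' y).1 hb).exists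
      have h1 := ((mem_stabC hR).1 (hle (S.pow_mem hbS k))).2
      rw [tdual_same hE] at h1
      have h2 : y ∈ Half x y := by
        change dd y y < dd y x
        rw [dd_self, d']
        exact Nat.one_pos
      exact (not_mem_half d _).2 hk ((h1 x y hxy).2 h2)
    · rw [smul_head (tdual_conj hs) (tdual_uu_smul m hs), ← tdual_cut_mul hs d,
        tdual_head_eq hE (hE.mul s hs _ _ hxy) hxy, mem_stabC hR, tdual_same hE]
      exact ⟨fun h => ⟨hs, h⟩, fun h => h.2⟩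
  · intro U hU U' hU'
    obtain ⟨x, y, hxy, rfl⟩ := hE.surj U hU
    obtain ⟨x', y', hxy', rfl⟩ := hE.surj U' hU'
    exact tdual_conn hE _ x y x' y' hxy hxy' (Nat.lt_succ_self _)

end Pool.Agent.Lib.MP_9ac97d_al
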