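import Pool.Agent.Lib.MP_9ac97d_al.TAx
import Pool.Agent.Lib.MP_9ac97d_al.GBasic

/-!
Ends, the minimal subtree, cuts (task TEnds)
-/

set_option autoImplicit false

noncomputable section

open Pointwise

namespace Pool.Agent.Lib.MP_9ac97d_al

variable {n : ℕ}

theorem tends_far {a : Fr n} (ha : a ≠ 1) (w z : Fr n) (R : ℕ) :
    ∀ᶠ k : ℕ in Filter.atTop, R < dd w (a ^ k * z) := by
  obtain ⟨p, hp⟩ := ax_nonempty a
  refine Filter.eventually_atTop.2 ⟨R + dd p w + dd z p + 1, fun k hk => ?_⟩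
  have h1 := dd_pow_of_mem_ax hp k
  have h2 := dd_triangle p w (a ^ k * p)
  have h3 := dd_triangle w (a ^ k * z) (a ^ k * p)
  rw [dd_mul_left] at h3
  have h4 : k ≤ k * tl a := Nat.le_mul_of_pos_right k (tl_pos ha)
  omega

theorem tends_side {x y u v : Fr n} (h : dd x y = 1) (huv : dd u v < dd x v) :
    u ∈ Half x y ↔ v ∈ Half x y := by
  constructor
  · intro hu
    by_contra hv
    have e : dd v x + dd x u = dd v u := ((sep_iff h v u).1 ⟨(not_mem_half h v).1 hv, hu⟩).1
    rw [dd_comm v x, dd_comm v u] at e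
    omega
  · intro hv
    by_contra hu
    have e : dd u x + dd x v = dd u v := ((sep_iff h u v).1 ⟨(not_mem_half h u).1 hu, hv⟩).1
    omega

theorem tends_ax_btw {a y : Fr n} (hy : y ∈ Ax a) {i j : ℕ} (hij : i ≤ j) :
    Btw y (a ^ i * y) (a ^ j * y) := by
  obtain ⟨k, rfl⟩ := Nat.exists_eq_add_of_le hij
  change _ + _ = _
  rw [pow_add, mul_assoc, dd_mul_left, ← mul_assoc, ← pow_add, dd_pow_of_mem_ax hy,
    dd_pow_of_mem_ax hy, dd_pow_of_mem_ax hy, add_mul]

theorem tends_commute_of_pow {a b : Fr n} {k : ℕ} (hk : k ≠ 0) (h : Commute (a ^ k) b) :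
    Commute a b := by
  have e : (b * a * b⁻¹) ^ k = a ^ k := by
    rw [conj_pow, ← h.eq, mul_inv_cancel_right]
  have e' : b * a * b⁻¹ = a := pow_left_injective hk e
  change a * b = b * a
  conv_lhs => rw [← e']
  rw [inv_mul_cancel_right]

theorem tends_commute_of_zpow {a b : Fr n} {k : ℤ} (hk : k ≠ 0) (h : Commute (a ^ k) b) :
    Commute a b := by
  refine tends_commute_of_pow (Int.natAbs_ne_zero.2 hk) ?_
  rcases Int.natAbs_eq k with e | e
  · rw [e, zpow_natCast] at h
    exact h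
  · rw [e, zpow_neg, zpow_natCast] at h
    exact Commute.inv_left_iff.1 h

theorem tends_cyclic {G : Type} [Group G] [IsFreeGroup G] (h : ∀ x y : G, Commute x y) :
    ∃ c : G, ∀ g, g ∈ Subgroup.zpowers c := by
  classical
  have hs : ∀ i j : IsFreeGroup.Generators G, i = j := by
    intro i j
    by_contra hij
    have e := ((h (IsFreeGroup.of i) (IsFreeGroup.of j)).map (IsFreeGroup.lift
      fun l => if l = i then Equiv.swap (0 : Fin 3) 1 else Equiv.swap (1 : Fin 3) 2)).eq
    rw [IsFreeGroup.lift_of, IsFreeGroup.lift_of, if_pos rfl, if_neg (Ne.symm hij)] at e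
    revert e
    decide
  have hc : ∃ c : G, ∀ i, IsFreeGroup.of i ∈ Subgroup.zpowers c := by
    by_cases hne : Nonempty (IsFreeGroup.Generators G)
    · obtain ⟨i⟩ := hne
      exact ⟨IsFreeGroup.of i, fun j => by rw [hs j i]; exact Subgroup.mem_zpowers _⟩
    · exact ⟨1, fun j => absurd ⟨j⟩ hne⟩
  obtain ⟨c, hc⟩ := hc
  refine ⟨c, fun g => ?_⟩
  have e : (Subgroup.zpowers c).subtype.comp
      (IsFreeGroup.lift fun i => (⟨IsFreeGroup.of i, hc i⟩ : Subgroup.zpowers c)) =
      MonoidHom.id G := IsFreeGroup.ext_hom fun i => by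
    rw [MonoidHom.comp_apply, IsFreeGroup.lift_of]
    rfl
  have e' := DFunLike.congr_fun e g
  rw [MonoidHom.comp_apply, MonoidHom.id_apply] at e'
  rw [← e']
  exact Subtype.property _

theorem tends_zpowers {S : Subgroup (Fr n)} (hS : ∀ a ∈ S, ∀ b ∈ S, Commute a b) :
    ∃ c, S = Subgroup.zpowers c := by
  obtain ⟨c, hc⟩ := tends_cyclic (G := S) fun x y => Subtype.ext (hS x x.2 y y.2).eq
  refine ⟨c, le_antisymm (fun g hg => ?_) (Subgroup.zpowers_le_of_mem c.2)⟩
  obtain ⟨k, hk⟩ := hc ⟨g, hg⟩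
  exact ⟨k, congrArg Subtype.val hk⟩

/-- The points `a ^ k * z` leave every ball and move by bounded steps, so they eventually stay on
one side of an edge (`chain_near`); the side does not depend on `z`. -/
theorem att_iff {a x y : Fr n} (ha : a ≠ 1) (h : dd x y = 1) (z : Fr n) :
    Att a x y ↔ ∀ᶠ k : ℕ in Filter.atTop, a ^ k * z ∈ Half x y := by
  refine Filter.eventually_congr ((tends_far ha x z (dd 1 z)).mono fun k hk => tends_side h ?_)
  rwa [← dd_mul_left (a ^ k) 1 z, mul_one] at hk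

theorem att_or {a x y : Fr n} (ha : a ≠ 1) (h : dd x y = 1) : Att a x y ∨ Att a y x := by
  obtain ⟨K, hK⟩ := Filter.eventually_atTop.1 (tends_far ha x 1 (dd a 1))
  have key : ∀ k, K ≤ k → (a ^ k ∈ Half x y ↔ a ^ K ∈ Half x y) := by
    intro k hk
    induction k, hk using Nat.le_induction with
    | base => exact Iff.rfl
    | succ k hk ih =>
      refine (tends_side h ?_).trans ih
      have e := hK k hk
      rwa [← dd_mul_left (a ^ k) a 1, mul_one, ← pow_succ] at e
  by_cases h0 : a ^ K ∈ Half x y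
  · exact Or.inl (Filter.eventually_atTop.2 ⟨K, fun k hk => (key k hk).2 h0⟩)
  · exact Or.inr (Filter.eventually_atTop.2 ⟨K, fun k hk =>
      (not_mem_half h _).1 fun h1 => h0 ((key k hk).1 h1)⟩)

theorem not_att_both {a x y : Fr n} (h : dd x y = 1) (h1 : Att a x y) (h2 : Att a y x) :
    False := by
  obtain ⟨k, hk1, hk2⟩ := (Filter.Eventually.and h1 h2).exists
  exact (not_mem_half h _).2 hk2 hk1

theorem att_conj {a x y : Fr n} (ha : a ≠ 1) (h : dd x y = 1) (g : Fr n) :
    Att (g * a * g⁻¹) (g * x) (g * y) ↔ Att a x y := by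
  rw [att_iff ha h g⁻¹]
  refine Filter.eventually_congr (Filter.Eventually.of_forall fun k => ?_)
  rw [conj_pow, mul_assoc, mul_mem_half]

/-- If the attracting ends agree then the forward ray of `a` is approached by the orbits of `b`. -/
theorem tends_ray {a b p : Fr n} (ha : a ≠ 1) (hb : b ≠ 1) (hp : p ∈ Ax a)
    (H : ∀ x y, dd x y = 1 → Att a x y → Att b x y) {k : ℕ} (hk : k ≠ 0) (q : Fr n) :
    ∀ᶠ j : ℕ in Filter.atTop, Btw p (a ^ k * p) (b ^ j * q) := by
  have h0 : 0 < dd p (a ^ k * p) := by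
    rw [dd_pow_of_mem_ax hp]
    exact Nat.mul_pos (Nat.pos_of_ne_zero hk) (tl_pos ha)
  obtain ⟨m, hm, hd⟩ := exists_btw p (a ^ k * p) (Nat.sub_le (dd p (a ^ k * p)) 1)
  have h1 : dd m (a ^ k * p) = 1 := by
    have e : dd p m + dd m (a ^ k * p) = dd p (a ^ k * p) := hm
    omega
  have hne : m ≠ a ^ k * p := fun e => by
    rw [dd_eq_zero.2 e] at h1
    exact zero_ne_one h1
  have h2 : Att a m (a ^ k * p) := (att_iff ha h1 p).2 (Filter.eventually_atTop.2
    ⟨k, fun j hj => (mem_half_iff h1 _).2 ((tends_ax_btw hp hj).left hm).2⟩)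
  exact ((att_iff hb h1 q).1 (H _ _ h1 h2)).mono fun j hj =>
    (hm.trans ((mem_half_iff h1 _).1 hj) hne).2

/-- If no edge separates the attracting ends, the forward rays of the two axes share a subray; for
a point `p` far on it `a ^ tl b * p = b ^ tl a * p`. Conclude with unique roots (free groups:
axes of powers, or `IsMulTorsionFree`), or from `a b p = b a p`. -/
theorem exists_sep_of_not_commute {a b : Fr n} (h : ¬ Commute a b) :
    ∃ x y, dd x y = 1 ∧ Att a x y ∧ Att b y x := by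
  have ha : a ≠ 1 := fun e => h (e ▸ Commute.one_left b)
  have hb : b ≠ 1 := fun e => h (e ▸ Commute.one_right a)
  by_contra hne
  have H : ∀ x y, dd x y = 1 → Att a x y → Att b x y := fun x y h1 h2 =>
    (att_or hb h1).resolve_right fun h3 => hne ⟨x, y, h1, h2, h3⟩
  obtain ⟨p, hp⟩ := ax_nonempty a
  obtain ⟨q, hq⟩ := ax_nonempty b
  obtain ⟨k, hk⟩ := (tends_far ha p p (dd p q)).exists
  have hk0 : k ≠ 0 := fun e => by
    rw [e, pow_zero, one_mul, dd_self] at hk
    exact Nat.not_lt_zero _ hk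
  have hma : a ^ k * p ∈ Ax a := mul_mem_ax (Commute.self_pow a k) hp
  have hmb : a ^ k * p ∈ Ax b := by
    obtain ⟨j, hj⟩ := (tends_ray ha hb hp H hk0 q).exists
    rcases hj.or q with h1 | h1
    · have e : dd p (a ^ k * p) + dd (a ^ k * p) q = dd p q := h1
      omega
    · exact ax_convex hq (mul_mem_ax (Commute.self_pow b j) hq) h1
  obtain ⟨j, hj1, hj2⟩ := ((tends_ray ha hb hma H (tl_pos hb).ne' (a ^ k * p)).and
    (Filter.eventually_ge_atTop (tl a))).exists
  have e := hj1.unique (tends_ax_btw hmb hj2)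
    (by rw [dd_pow_of_mem_ax hma, dd_pow_of_mem_ax hmb, mul_comm])
  refine h (tends_commute_of_pow (tl_pos hb).ne' ?_)
  rw [mul_right_cancel e]
  exact Commute.pow_self b _

/-- North-south dynamics: for large `k` both ends of the edge `a ^ k (x', y')` lie in `Half x y`
and both `x`, `y` lie in `a ^ k Half y' x'`; use convexity. -/
theorem north_south {a x y x' y' : Fr n} (ha : a ≠ 1) (h : dd x y = 1) (h' : dd x' y' = 1)
    (h1 : Att a x y) (h2 : Att a⁻¹ y' x') :
    ∀ᶠ k : ℕ in Filter.atTop, ∀ z ∈ Half x' y', a ^ k * z ∈ Half x y := by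
  have e1 := (att_iff ha h y').1 h1
  have e2 := (att_iff (inv_ne_one.2 ha) ((dd_comm y' x').trans h') x).1 h2
  refine (e1.and e2).mono fun k hk z hz => ?_
  by_contra hw
  have hb := ((sep_iff h _ _).1 ⟨(not_mem_half h _).1 hw, hk.1⟩).1
  have hb' := hb.mul_left (a ^ k)⁻¹
  rw [inv_mul_cancel_left, inv_mul_cancel_left, ← inv_pow] at hb'
  have hy : y' ∈ Half x' y' := by
    change dd y' y' < dd y' x'
    rw [dd_self, dd_comm, h']
    exact Nat.one_pos
  exact (not_mem_half h' _).2 hk.2 (half_convex h' hz hy hb')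

/-- Conjugating by a high power of `a` moves the attracting end of `b` near that of `a`. -/
theorem tends_conj {a b x y : Fr n} (hab : ¬ Commute a b) (h : dd x y = 1) (h1 : Att a x y) :
    ∀ᶠ k : ℕ in Filter.atTop, Att (a ^ k * b * (a ^ k)⁻¹) x y := by
  have ha : a ≠ 1 := fun e => hab (e ▸ Commute.one_left b)
  have hb : b ≠ 1 := fun e => hab (e ▸ Commute.one_right a)
  obtain ⟨y', x', h', h2, h3⟩ :=
    exists_sep_of_not_commute (a := a⁻¹) (b := b) fun e => hab (Commute.inv_left_iff.1 e)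
  refine (north_south ha h ((dd_comm x' y').trans h') h1 h2).mono fun k hk => ?_
  rw [att_iff (fun e => hb (conj_eq_one_iff.1 e)) h (a ^ k)]
  refine Filter.Eventually.mono h3 fun j hj => ?_
  rw [conj_pow, inv_mul_cancel_right]
  exact hk _ hj

theorem tends_commute_trans {a b c : Fr n} (hb : b ≠ 1) (h1 : Commute a b) (h2 : Commute b c) :
    Commute a c := by
  obtain ⟨u, hu⟩ := tends_zpowers (S := Subgroup.closure {a, b}) (by
    intro x hx y hy
    have := Subgroup.isMulCommutative_closure (k := ({a, b} : Set (Fr n))) (by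
      rintro x (rfl | rfl) y (rfl | rfl)
      · rfl
      · exact h1.eq
      · exact h1.eq.symm
      · rfl)
    exact congrArg Subtype.val (this.is_comm.comm ⟨x, hx⟩ ⟨y, hy⟩))
  have ha' : a ∈ Subgroup.zpowers u := hu ▸ Subgroup.subset_closure (Or.inl rfl)
  have hb' : b ∈ Subgroup.zpowers u := hu ▸ Subgroup.subset_closure (Or.inr rfl)
  obtain ⟨i, rfl⟩ := Subgroup.mem_zpowers_iff.1 ha'
  obtain ⟨j, rfl⟩ := Subgroup.mem_zpowers_iff.1 hb'
  have hj : j ≠ 0 := fun e => hb (by rw [e, zpow_zero])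
  exact (tends_commute_of_zpow hj h2).zpow_left i

theorem tends_exists_not_commute {S : Subgroup (Fr n)} (hS : NonAb S) {a : Fr n} (ha : a ≠ 1) :
    ∃ b ∈ S, ¬ Commute a b := by
  obtain ⟨u, hu, v, hv, huv⟩ := hS
  by_contra hne
  have H : ∀ b ∈ S, Commute a b := fun b hb => by
    by_contra h
    exact hne ⟨b, hb, h⟩
  exact huv (tends_commute_trans ha (H u hu).symm (H v hv))

/-- Each side of an edge of the minimal subtree of a nonabelian group contains both ends of some
element: take `a` in the cut, `b` not commuting with `a`, and `q = a ^ k b a ^ (-k)`. -/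
theorem exists_both_ends {S : Subgroup (Fr n)} (hS : NonAb S) {x y : Fr n} (h : Ess S x y) :
    ∃ q ∈ S, q ≠ 1 ∧ Att q x y ∧ Att q⁻¹ x y := by
  obtain ⟨h1, ⟨a, haS, ha, h2⟩, -⟩ := h
  obtain ⟨b, hbS, hab⟩ := tends_exists_not_commute hS ha
  have hb : b ≠ 1 := fun e => hab (e ▸ Commute.one_right a)
  obtain ⟨k, hk1, hk2⟩ := ((tends_conj hab h1 h2).and
    (tends_conj (b := b⁻¹) (fun e => hab (Commute.inv_right_iff.1 e)) h1 h2)).exists
  refine ⟨a ^ k * b * (a ^ k)⁻¹, S.mul_mem (S.mul_mem (S.pow_mem haS k) hbS)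
    (S.inv_mem (S.pow_mem haS k)), fun e => hb (conj_eq_one_iff.1 e), hk1, ?_⟩
  rwa [conj_inv]

theorem commute_trans {a b c : Fr n} (hb : b ≠ 1) (h1 : Commute a b) (h2 : Commute b c) :
    Commute a c :=
  tends_commute_trans hb h1 h2

theorem NonAb.exists_not_commute {S : Subgroup (Fr n)} (hS : NonAb S) {a : Fr n} (ha : a ≠ 1) :
    ∃ b ∈ S, ¬ Commute a b :=
  tends_exists_not_commute hS ha

theorem eq_one_of_commute {S : Subgroup (Fr n)} (hS : NonAb S) {g : Fr n}
    (h : ∀ s ∈ S, Commute g s) : g = 1 := by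
  by_contra hg
  obtain ⟨b, hb, hb'⟩ := hS.exists_not_commute hg
  exact hb' (h b hb)

/-- An abelian subgroup of a free group is cyclic (Nielsen-Schreier, or translation lengths). -/
theorem exists_zpowers_of_not_nonAb {S : Subgroup (Fr n)} (hS : ¬ NonAb S) :
    ∃ c, S = Subgroup.zpowers c :=
  tends_zpowers fun a ha b hb => by
    by_contra h
    exact hS ⟨a, ha, b, hb, h⟩

end Pool.Agent.Lib.MP_9ac97d_al
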