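import Pool.Agent.Lib.MP_9ac97d_al.TTrace

/-!
# Unipotent groups of automorphisms: action on the group ring, filtration, order (task TFilt)
-/

set_option autoImplicit false

noncomputable section

open Pointwise

namespace Pool.Agent.Lib.MP_9ac97d_al

variable {n : ℕ}

theorem tfilt_expo_of (i j : Fin n) :
    (expo i (FreeGroup.of j)).toAdd = if j = i then 1 else 0 := by
  rw [expo, FreeGroup.lift_apply_of]
  split_ifs <;> rfl

/-- An additive function on the free group is determined by the exponent sums. -/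
theorem tfilt_expand {M : Type} [AddCommGroup M] (f : Fr n → M)
    (hf : ∀ g h, f (g * h) = f g + f h) (g : Fr n) :
    f g = ∑ i, (expo i g).toAdd • f (FreeGroup.of i) := by
  have h1 : f 1 = 0 := by simpa using hf 1 1
  induction g using FreeGroup.induction_on with
  | C1 => simp [h1]
  | of j => simp [tfilt_expo_of]
  | inv_of j ih =>
    have h2 := hf (FreeGroup.of j)⁻¹ (FreeGroup.of j)
    rw [inv_mul_cancel, h1] at h2
    simp only [map_inv, toAdd_inv, neg_smul, Finset.sum_neg_distrib, ← ih]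
    exact eq_neg_of_add_eq_zero_left h2.symm
  | mul x y hx hy =>
    simp only [map_mul, toAdd_mul, add_smul, Finset.sum_add_distrib, ← hx, ← hy, hf]

theorem mat_one : mat (1 : MulAut (Fr n)) = 1 := by
  ext i j
  rw [mat, inv_one, MulAut.one_apply, tfilt_expo_of, Matrix.one_apply]

theorem mat_mul (Φ Ψ : MulAut (Fr n)) : mat (Φ * Ψ) = mat Φ * mat Ψ := by
  ext i j
  rw [Matrix.mul_apply, mat, mul_inv_rev, MulAut.mul_apply]
  exact tfilt_expand (fun g => (expo j (Ψ⁻¹ g)).toAdd) (fun g h => by simp) _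

theorem mat_conj (g : Fr n) : mat (MulAut.conj g) = 1 := by
  ext i j
  rw [mat, MulAut.conj_inv_apply, map_mul (expo j), map_mul (expo j), map_inv (expo j),
    inv_mul_cancel_comm, tfilt_expo_of, Matrix.one_apply]

/-- `mat` as a homomorphism. -/
def matHom (n : ℕ) : MulAut (Fr n) →* Matrix (Fin n) (Fin n) ℤ where
  toFun := mat
  map_one' := mat_one
  map_mul' := mat_mul

/-- The complex character of the free group with values `v i` on the generators. -/
def chr (v : Fin n → ℂ) (g : Fr n) : ℂ := ∑ i, v i * ((expo i g).toAdd : ℂ)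

theorem chr_mul (v : Fin n → ℂ) (g h : Fr n) : chr v (g * h) = chr v g + chr v h := by
  simp only [chr, map_mul, toAdd_mul, Int.cast_add, mul_add, Finset.sum_add_distrib]

theorem chr_of (v : Fin n → ℂ) (i : Fin n) : chr v (FreeGroup.of i) = v i := by
  simp [chr, tfilt_expo_of]

theorem chr_mulVec (Φ : MulAut (Fr n)) (v : Fin n → ℂ) (g : Fr n) :
    chr (((mat Φ).map (Int.cast : ℤ → ℂ)).mulVec v) g = chr v (Φ⁻¹ g) := by
  rw [tfilt_expand (fun g => chr v (Φ⁻¹ g)) (fun g h => by rw [map_mul, chr_mul]) g, chr]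
  refine Finset.sum_congr rfl fun i _ => ?_
  rw [zsmul_eq_mul, mul_comm, chr]
  simp only [Matrix.mulVec, dotProduct, Matrix.map_apply, mat, mul_comm (v _)]

/-- The action of an automorphism on the group ring. -/
def ringMap (Φ : MulAut (Fr n)) : Module.End ℚ (MonoidAlgebra ℚ (Fr n)) :=
  (MonoidAlgebra.mapDomainAlgHom ℚ ℚ Φ.toMonoidHom).toLinearMap

theorem ringMap_of (Φ : MulAut (Fr n)) (g : Fr n) :
    ringMap Φ (MonoidAlgebra.of ℚ (Fr n) g) = MonoidAlgebra.of ℚ (Fr n) (Φ g) := by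
  simp [ringMap]

theorem tfilt_mul (Φ : MulAut (Fr n)) (x y : MonoidAlgebra ℚ (Fr n)) :
    ringMap Φ (x * y) = ringMap Φ x * ringMap Φ y :=
  map_mul (MonoidAlgebra.mapDomainAlgHom ℚ ℚ Φ.toMonoidHom) x y

theorem tfilt_gen (Φ : MulAut (Fr n)) (g : Fr n) :
    ringMap Φ (MonoidAlgebra.of ℚ (Fr n) g - 1) = MonoidAlgebra.of ℚ (Fr n) (Φ g) - 1 := by
  rw [map_sub, ringMap_of]
  congr 1
  exact map_one (MonoidAlgebra.mapDomainAlgHom ℚ ℚ Φ.toMonoidHom)

theorem tfilt_mem (g : Fr n) : MonoidAlgebra.of ℚ (Fr n) g - 1 ∈ aug (Fr n) :=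
  Submodule.subset_span ⟨g, rfl⟩

theorem tfilt_inv (Φ : MulAut (Fr n)) {x : MonoidAlgebra ℚ (Fr n)} (hx : x ∈ aug (Fr n)) :
    ringMap Φ x ∈ aug (Fr n) := by
  have h : aug (Fr n) ≤ (aug (Fr n)).comap (ringMap Φ) := by
    refine Submodule.span_le.2 ?_
    rintro _ ⟨g, rfl⟩
    change ringMap Φ _ ∈ aug (Fr n)
    rw [tfilt_gen]
    exact tfilt_mem _
  exact h hx

theorem tfilt_inv_pow (Φ : MulAut (Fr n)) (c : ℕ) {x : MonoidAlgebra ℚ (Fr n)}
    (hx : x ∈ aug (Fr n) ^ (c + 1)) : ringMap Φ x ∈ aug (Fr n) ^ (c + 1) := by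
  induction c generalizing x with
  | zero =>
    rw [zero_add, pow_one] at hx ⊢
    exact tfilt_inv Φ hx
  | succ c ih =>
    rw [pow_succ] at hx ⊢
    refine Submodule.mul_induction_on hx (fun y hy z hz => ?_) fun y z hy hz => ?_
    · rw [tfilt_mul]
      exact Submodule.mul_mem_mul (ih hy) (tfilt_inv Φ hz)
    · rw [map_add]
      exact add_mem hy hz

/-- The combination of the elements `of i - 1` with integer coefficients `v`. -/
def tfilt_th (v : Fin n → ℤ) : MonoidAlgebra ℚ (Fr n) :=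
  ∑ i, v i • (MonoidAlgebra.of ℚ (Fr n) (FreeGroup.of i) - 1)

theorem tfilt_mod (g : Fr n) : (aug (Fr n) ^ 2).mkQ (MonoidAlgebra.of ℚ (Fr n) g - 1) =
    (aug (Fr n) ^ 2).mkQ (tfilt_th fun i => (expo i g).toAdd) := by
  rw [tfilt_th, map_sum]
  simp only [map_zsmul]
  refine tfilt_expand (fun g => (aug (Fr n) ^ 2).mkQ (MonoidAlgebra.of ℚ (Fr n) g - 1))
    (fun g h => ?_) g
  rw [← map_add, Submodule.mkQ_apply, Submodule.mkQ_apply, Submodule.Quotient.eq]
  have e : MonoidAlgebra.of ℚ (Fr n) (g * h) - 1 - (MonoidAlgebra.of ℚ (Fr n) g - 1 +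
      (MonoidAlgebra.of ℚ (Fr n) h - 1)) =
      (MonoidAlgebra.of ℚ (Fr n) g - 1) * (MonoidAlgebra.of ℚ (Fr n) h - 1) := by
    rw [map_mul]
    noncomm_ring
  rw [e, pow_two]
  exact Submodule.mul_mem_mul (tfilt_mem g) (tfilt_mem h)

theorem tfilt_step (Φ : MulAut (Fr n)) (v : Fin n → ℤ) :
    (ringMap Φ - 1) (tfilt_th v) - tfilt_th (Matrix.vecMul v (mat Φ⁻¹ - 1)) ∈ aug (Fr n) ^ 2 := by
  have h1 : (aug (Fr n) ^ 2).mkQ (ringMap Φ (tfilt_th v)) =
      (aug (Fr n) ^ 2).mkQ (tfilt_th (Matrix.vecMul v (mat Φ⁻¹))) := by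
    rw [tfilt_th, map_sum, map_sum]
    simp only [map_zsmul, tfilt_gen, tfilt_mod]
    simp only [← map_zsmul, ← map_sum]
    congr 1
    simp only [tfilt_th, Finset.smul_sum, smul_smul, Matrix.vecMul, dotProduct, Finset.sum_smul]
    rw [Finset.sum_comm]
    rfl
  rw [Submodule.mkQ_apply, Submodule.mkQ_apply, Submodule.Quotient.eq] at h1
  have h2 : tfilt_th (Matrix.vecMul v (mat Φ⁻¹ - 1)) =
      tfilt_th (Matrix.vecMul v (mat Φ⁻¹)) - tfilt_th v := by
    simp only [tfilt_th, Matrix.vecMul_sub, Matrix.vecMul_one, Pi.sub_apply, sub_smul,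
      Finset.sum_sub_distrib]
  rwa [h2, LinearMap.sub_apply, Module.End.one_apply, sub_sub_sub_cancel_right]

theorem tfilt_list (l : List (MulAut (Fr n))) {x : MonoidAlgebra ℚ (Fr n)} {v : Fin n → ℤ}
    (h : x - tfilt_th v ∈ aug (Fr n) ^ 2) : (l.map fun Φ => ringMap Φ - 1).prod x - tfilt_th
      (Matrix.vecMul v (l.reverse.map fun Φ => mat Φ⁻¹ - 1).prod) ∈ aug (Fr n) ^ 2 := by
  induction l with
  | nil => simpa using h
  | cons Φ l ih =>
    rw [List.map_cons, List.prod_cons, List.reverse_cons, List.map_append, List.prod_append,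
      List.map_singleton, List.prod_singleton, ← Matrix.vecMul_vecMul, Module.End.mul_apply]
    have h1 : (ringMap Φ - 1) _ ∈ aug (Fr n) ^ 2 := sub_mem (tfilt_inv_pow Φ 1 ih) ih
    have h2 := add_mem h1 (tfilt_step Φ
      (Matrix.vecMul v (l.reverse.map fun Φ => mat Φ⁻¹ - 1).prod))
    rwa [map_sub, sub_add_sub_cancel] at h2

theorem tfilt_base {Γ : Subgroup (MulAut (Fr n))}
    (hΓ : Unip (matHom n '' (Γ : Set (MulAut (Fr n))))) (l : List (MulAut (Fr n)))
    (hl : ∀ Φ ∈ l, Φ ∈ Γ) (hn : n ≤ l.length) {x : MonoidAlgebra ℚ (Fr n)}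
    (hx : x ∈ aug (Fr n)) : (l.map fun Φ => ringMap Φ - 1).prod x ∈ aug (Fr n) ^ 2 := by
  have h0 : (l.reverse.map fun Φ => mat Φ⁻¹ - 1).prod = 0 := by
    have h1 := hΓ ((l.reverse.take n).map fun Φ => mat Φ⁻¹) (fun A hA => by
      obtain ⟨Φ, hΦ, rfl⟩ := List.mem_map.1 hA
      exact ⟨Φ⁻¹, Γ.inv_mem (hl Φ (List.mem_reverse.1 (List.mem_of_mem_take hΦ))), rfl⟩)
      (by simp [hn])
    rw [List.map_map] at h1
    rw [← List.take_append_drop n l.reverse, List.map_append, List.prod_append]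
    exact mul_eq_zero_of_left h1 _
  have h : aug (Fr n) ≤ (aug (Fr n) ^ 2).comap (l.map fun Φ => ringMap Φ - 1).prod := by
    refine Submodule.span_le.2 ?_
    rintro _ ⟨g, rfl⟩
    have h2 := tfilt_list l ((Submodule.Quotient.eq _).1 (tfilt_mod g))
    rw [h0, Matrix.vecMul_zero] at h2
    simpa [tfilt_th] using h2
  exact h hx

/-- The elements of `M` that are mapped to `N` by all products of at least `k - t` operators. -/
def tfilt_W (Γ : Subgroup (MulAut (Fr n))) (M N : Submodule ℚ (MonoidAlgebra ℚ (Fr n)))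
    (k t : ℕ) (x : MonoidAlgebra ℚ (Fr n)) : Prop :=
  x ∈ M ∧ ∀ l : List (MulAut (Fr n)), (∀ Φ ∈ l, Φ ∈ Γ) → k ≤ l.length + t →
    (l.map fun Φ => ringMap Φ - 1).prod x ∈ N

theorem tfilt_W_step {Γ : Subgroup (MulAut (Fr n))} {M N : Submodule ℚ (MonoidAlgebra ℚ (Fr n))}
    (hM : ∀ (Φ : MulAut (Fr n)) x, x ∈ M → ringMap Φ x ∈ M) {k t : ℕ}
    {x : MonoidAlgebra ℚ (Fr n)} (hx : tfilt_W Γ M N k t x) {Φ : MulAut (Fr n)} (hΦ : Φ ∈ Γ) :
    tfilt_W Γ M N k (t + 1) (ringMap Φ x - x) ∧ tfilt_W Γ M N k t (ringMap Φ x) := by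
  have h1 : tfilt_W Γ M N k (t + 1) (ringMap Φ x - x) := by
    refine ⟨sub_mem (hM Φ x hx.1) hx.1, fun l hl hk => ?_⟩
    have h2 := hx.2 (l ++ [Φ]) (fun Ψ hΨ => (List.mem_append.1 hΨ).elim (hl Ψ) fun h => by
      rwa [List.mem_singleton.1 h]) (by rw [List.length_append, List.length_singleton]; omega)
    rwa [List.map_append, List.prod_append, List.map_singleton, List.prod_singleton] at h2
  refine ⟨h1, hM Φ x hx.1, fun l hl hk => ?_⟩
  have h3 := add_mem (h1.2 l hl (by omega)) (hx.2 l hl hk)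
  rwa [← map_add, sub_add_cancel] at h3

theorem tfilt_tensor {Γ : Subgroup (MulAut (Fr n))}
    {M N M' N' T : Submodule ℚ (MonoidAlgebra ℚ (Fr n))} {k k' : ℕ}
    (hM : ∀ (Φ : MulAut (Fr n)) x, x ∈ M → ringMap Φ x ∈ M)
    (hM' : ∀ (Φ : MulAut (Fr n)) x, x ∈ M' → ringMap Φ x ∈ M')
    (h1 : ∀ x ∈ N, ∀ y ∈ M', x * y ∈ T) (h2 : ∀ x ∈ M, ∀ y ∈ N', x * y ∈ T)
    (l : List (MulAut (Fr n))) : (∀ Φ ∈ l, Φ ∈ Γ) → ∀ t u x y, tfilt_W Γ M N k t x →
      tfilt_W Γ M' N' k' u y → k + k' ≤ l.length + t + u →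
        (l.map fun Φ => ringMap Φ - 1).prod (x * y) ∈ T := by
  induction l using List.reverseRecOn with
  | nil =>
    intro _ t u x y hx hy hk
    rw [List.length_nil] at hk
    by_cases h : k ≤ t
    · exact h1 x (hx.2 [] (by simp) (by simpa using h)) y hy.1
    · exact h2 x hx.1 y (hy.2 [] (by simp) (by rw [List.length_nil]; omega))
  | append_singleton l Φ ih =>
    intro hl t u x y hx hy hk
    rw [List.length_append, List.length_singleton] at hk
    have hΦ : Φ ∈ Γ := hl Φ (by simp)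
    have hl' : ∀ Ψ ∈ l, Ψ ∈ Γ := fun Ψ h => hl Ψ (List.mem_append_left _ h)
    have e : (ringMap Φ - 1) (x * y) = (ringMap Φ x - x) * ringMap Φ y + x * (ringMap Φ y - y) := by
      rw [LinearMap.sub_apply, Module.End.one_apply, tfilt_mul]
      noncomm_ring
    rw [List.map_append, List.prod_append, List.map_singleton, List.prod_singleton,
      Module.End.mul_apply, e, map_add]
    exact add_mem
      (ih hl' (t + 1) u _ _ (tfilt_W_step hM hx hΦ).1 (tfilt_W_step hM' hy hΦ).2 (by omega))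
      (ih hl' t (u + 1) _ _ hx (tfilt_W_step hM' hy hΦ).1 (by omega))

/-- Modulo `aug ^ 2` one has `g - 1 = ∑ expo i g (of i - 1)`, so products of `n` operators
`ringMap Φ - 1` map `aug` to `aug ^ 2`. Let `W t` be the span of `aug ^ 2` and of the images of
`aug` under products of `t` operators; `ringMap Φ - 1` maps a product `y 0 ... y c` with
`y i ∈ W (t i)` to a sum of such products with larger `∑ t i` (telescoping), and the product lies in
`aug ^ (c + 2)` as soon as some `t i ≥ n`. -/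
theorem unip_aug {Γ : Subgroup (MulAut (Fr n))} (hΓ : Unip (matHom n '' (Γ : Set (MulAut (Fr n))))) (c : ℕ) :
    ∃ k : ℕ, ∀ l : List (MulAut (Fr n)), (∀ Φ ∈ l, Φ ∈ Γ) → k ≤ l.length →
      ∀ x ∈ aug (Fr n) ^ (c + 1), (l.map fun Φ => ringMap Φ - 1).prod x ∈ aug (Fr n) ^ (c + 2) := by
  induction c with
  | zero => exact ⟨n, fun l hl hn x hx => tfilt_base hΓ l hl hn (by rwa [zero_add, pow_one] at hx)⟩
  | succ c ih =>
    obtain ⟨k, hk⟩ := ih
    refine ⟨k + n, fun l hl hn x hx => ?_⟩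
    rw [pow_succ] at hx
    refine Submodule.mul_induction_on hx (fun y hy z hz => ?_) fun y z hy hz => ?_
    · refine tfilt_tensor (M := aug (Fr n) ^ (c + 1)) (N := aug (Fr n) ^ (c + 2))
        (M' := aug (Fr n)) (N' := aug (Fr n) ^ 2) (k := k) (k' := n)
        (fun Φ _ hx => tfilt_inv_pow Φ c hx) (fun Φ _ hx => tfilt_inv Φ hx) (fun y hy z hz => ?_)
        (fun y hy z hz => ?_) l hl 0 0 y z ⟨hy, fun l hl hk' => hk l hl hk' y hy⟩
        ⟨hz, fun l hl hk' => tfilt_base hΓ l hl hk' hz⟩ hn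
      · rw [pow_succ _ (c + 2)]
        exact Submodule.mul_mem_mul hy hz
      · rw [pow_add _ (c + 1) 2]
        exact Submodule.mul_mem_mul hy hz
    · rw [map_add]
      exact add_mem hy hz

end Pool.Agent.Lib.MP_9ac97d_al
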