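import Pool.Agent.Lib.MP_9ac97d_al.TAx

/-!
# Translation lengths are detected in the nilpotent quotients (task TTrace)
-/

set_option autoImplicit false

noncomputable section

open Pointwise

namespace Pool.Agent.Lib.MP_9ac97d_al

variable {n : ℕ}

section TTraceAux

open LaurentPolynomial

/-- The point of a letter. -/
def TTrace_t (l : Fin n × Bool) : ℚ := 2 * (l.1 : ℕ) + if l.2 then 1 else 0

/-- The inverse letter. -/
def TTrace_i (l : Fin n × Bool) : Fin n × Bool := (l.1, !l.2)

theorem TTrace_ii (l : Fin n × Bool) : TTrace_i (TTrace_i l) = l := by simp [TTrace_i]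

theorem TTrace_t_inj {a b : Fin n × Bool} (h : TTrace_t a = TTrace_t b) : a = b := by
  obtain ⟨i, x⟩ := a
  obtain ⟨j, y⟩ := b
  have h' : 2 * (i : ℕ) + (if x then 1 else 0) = 2 * (j : ℕ) + (if y then 1 else 0) := by
    unfold TTrace_t at h
    cases x <;> cases y <;> simp only [Bool.false_eq_true, if_true, if_false] at h ⊢ <;>
      exact_mod_cast h
  cases x <;> cases y <;> simp only [Bool.false_eq_true, if_true, if_false] at h'
  · exact Prod.ext (Fin.ext (by simpa using h')) rfl
  · omega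
  · omega
  · exact Prod.ext (Fin.ext (by simpa using h')) rfl

theorem TTrace_ne {a b : Fin n × Bool} (h : a.1 = b.1 → a.2 = b.2) :
    TTrace_t b - TTrace_t (TTrace_i a) ≠ 0 := by
  intro h0
  have h1 := TTrace_t_inj (sub_eq_zero.1 h0)
  subst h1
  have h2 := h rfl
  simp [TTrace_i] at h2

/-- Rank one matrices. -/
def TTrace_Q (a b : Fin n × Bool) : Matrix (Fin 2) (Fin 2) ℚ :=
  !![-TTrace_t (TTrace_i b), 1; -(TTrace_t a * TTrace_t (TTrace_i b)), TTrace_t a]

theorem TTrace_Q_mul (a b c e : Fin n × Bool) :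
    TTrace_Q a b * TTrace_Q c e = (TTrace_t c - TTrace_t (TTrace_i b)) • TTrace_Q a e := by
  ext i j
  fin_cases i <;> fin_cases j <;> simp [TTrace_Q, Matrix.mul_apply, Fin.sum_univ_two] <;> ring

theorem TTrace_Q_trace (a b : Fin n × Bool) :
    (TTrace_Q a b).trace = TTrace_t a - TTrace_t (TTrace_i b) := by
  simp [TTrace_Q, Matrix.trace_fin_two]
  ring

/-- The projector of a letter. -/
def TTrace_P (l : Fin n × Bool) : Matrix (Fin 2) (Fin 2) ℚ :=
  (TTrace_t l - TTrace_t (TTrace_i l))⁻¹ • TTrace_Q l l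

theorem TTrace_P_add (l : Fin n × Bool) : TTrace_P l + TTrace_P (TTrace_i l) = 1 := by
  have h : TTrace_t l - TTrace_t (TTrace_i l) ≠ 0 := TTrace_ne fun _ => rfl
  have h' : TTrace_t (TTrace_i l) - TTrace_t l ≠ 0 := fun h0 => h (by linarith)
  ext i j
  fin_cases i <;> fin_cases j <;> simp [TTrace_P, TTrace_Q, TTrace_ii] <;> field_simp <;> ring

theorem TTrace_P_idem (l : Fin n × Bool) : TTrace_P l * TTrace_P l = TTrace_P l := by
  have h : TTrace_t l - TTrace_t (TTrace_i l) ≠ 0 := TTrace_ne fun _ => rfl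
  simp only [TTrace_P, Matrix.smul_mul, Matrix.mul_smul, TTrace_Q_mul, smul_smul]
  congr 1
  field_simp

theorem TTrace_P_orth (l : Fin n × Bool) : TTrace_P l * TTrace_P (TTrace_i l) = 0 := by
  simp [TTrace_P, TTrace_Q_mul]

theorem TTrace_prod (a : Fin n × Bool) (L : List (Fin n × Bool))
    (h : FreeGroup.IsReduced (a :: L)) : ∃ c : ℚ, c ≠ 0 ∧
      ((a :: L).map TTrace_P).prod = c • TTrace_Q a ((a :: L).getLast (by simp)) := by
  induction L generalizing a with
  | nil =>
    exact ⟨_, inv_ne_zero (TTrace_ne (a := a) (b := a) fun _ => rfl), by simp [TTrace_P]⟩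
  | cons b L ih =>
    rw [FreeGroup.isReduced_cons_cons] at h
    obtain ⟨c, hc, he⟩ := ih b h.2
    refine ⟨(TTrace_t a - TTrace_t (TTrace_i a))⁻¹ * c * (TTrace_t b - TTrace_t (TTrace_i a)),
      mul_ne_zero (mul_ne_zero (inv_ne_zero (TTrace_ne fun _ => rfl)) hc) (TTrace_ne h.1), ?_⟩
    rw [List.map_cons, List.prod_cons, he, List.getLast_cons_cons]
    simp only [TTrace_P, Matrix.smul_mul, Matrix.mul_smul, TTrace_Q_mul, smul_smul]
    congr 1
    ring

theorem TTrace_trace_ne {L : List (Fin n × Bool)} (h : FreeGroup.IsCyclicallyReduced L) :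
    (L.map TTrace_P).prod.trace ≠ 0 := by
  cases L with
  | nil => simp
  | cons a L =>
    obtain ⟨c, hc, he⟩ := TTrace_prod a L h.1
    rw [he, Matrix.trace_smul, TTrace_Q_trace]
    refine mul_ne_zero hc (TTrace_ne (h.2 _ ?_ _ (by simp)))
    rw [List.getLast?_eq_some_getLast (by simp)]
    rfl

/-- Constant matrices. -/
def TTrace_c : Matrix (Fin 2) (Fin 2) ℚ →+* Matrix (Fin 2) (Fin 2) (LaurentPolynomial ℚ) :=
  (C : ℚ →+* LaurentPolynomial ℚ).mapMatrix

/-- The matrix of a letter. -/
def TTrace_M (l : Fin n × Bool) : Matrix (Fin 2) (Fin 2) (LaurentPolynomial ℚ) :=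
  (T 1 : LaurentPolynomial ℚ) • TTrace_c (TTrace_P l) +
    (T (-1) : LaurentPolynomial ℚ) • TTrace_c (TTrace_P (TTrace_i l))

theorem TTrace_TT : (T 1 : LaurentPolynomial ℚ) * T (-1) = 1 := by
  rw [← T_add]
  simp

theorem TTrace_M_mul (l : Fin n × Bool) : TTrace_M l * TTrace_M (TTrace_i l) = 1 := by
  have h1 := TTrace_P_orth (TTrace_i l)
  rw [TTrace_ii] at h1
  simp only [TTrace_M, TTrace_ii, add_mul, mul_add, Matrix.smul_mul, Matrix.mul_smul, smul_smul,
    ← map_mul TTrace_c, TTrace_P_orth, TTrace_P_idem, h1, map_zero, smul_zero, zero_add, add_zero]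
  rw [TTrace_TT, mul_comm, TTrace_TT, one_smul, one_smul, ← map_add, add_comm, TTrace_P_add, map_one]

/-- The representation. -/
def TTrace_u (i : Fin n) : (Matrix (Fin 2) (Fin 2) (LaurentPolynomial ℚ))ˣ :=
  ⟨TTrace_M (i, true), TTrace_M (i, false), TTrace_M_mul (i, true), TTrace_M_mul (i, false)⟩

/-- The representation. -/
def TTrace_rho (n : ℕ) : Fr n →* Matrix (Fin 2) (Fin 2) (LaurentPolynomial ℚ) :=
  (Units.coeHom _).comp (FreeGroup.lift TTrace_u)

theorem TTrace_rho_mk (L : List (Fin n × Bool)) :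
    TTrace_rho n (FreeGroup.mk L) = (L.map TTrace_M).prod := by
  simp only [TTrace_rho, MonoidHom.comp_apply, FreeGroup.lift_mk, map_list_prod, List.map_map]
  congr 1
  refine List.map_congr_left fun l _ => ?_
  obtain ⟨i, b⟩ := l
  cases b <;> rfl

theorem TTrace_coeff (e : ℤ) (a : ℚ) (f : LaurentPolynomial ℚ) (z : ℤ) :
    (T e * C a * f).coeff z = a * f.coeff (z - e) := by
  rw [mul_comm (T e), ← single_eq_C_mul_T, AddMonoidAlgebra.coeff_single_mul_apply]
  congr 2
  ring

theorem TTrace_top (L : List (Fin n × Bool)) (i j : Fin 2) :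
    ((L.map TTrace_M).prod i j).coeff (L.length : ℤ) = (L.map TTrace_P).prod i j ∧
      ∀ k : ℤ, (L.length : ℤ) < k → ((L.map TTrace_M).prod i j).coeff k = 0 := by
  induction L generalizing i j with
  | nil =>
    have e : (1 : Matrix (Fin 2) (Fin 2) (LaurentPolynomial ℚ)) i j =
        C ((1 : Matrix (Fin 2) (Fin 2) ℚ) i j) := by
      by_cases h : i = j <;> simp [Matrix.one_apply, h]
    simp only [List.map_nil, List.prod_nil, List.length_nil, e, C_apply]
    refine ⟨by simp, fun k hk => if_neg ?_⟩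
    omega
  | cons a L ih =>
    have e : ∀ z : ℤ, (((a :: L).map TTrace_M).prod i j).coeff z =
        ∑ m : Fin 2, (TTrace_P a i m * ((L.map TTrace_M).prod m j).coeff (z - 1) +
          TTrace_P (TTrace_i a) i m * ((L.map TTrace_M).prod m j).coeff (z - -1)) := by
      intro z
      rw [List.map_cons, List.prod_cons, Matrix.mul_apply]
      simp only [Fin.sum_univ_two, TTrace_M, TTrace_c, Matrix.add_apply, Matrix.smul_apply,
        RingHom.mapMatrix_apply, Matrix.map_apply, smul_eq_mul, add_mul,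
        AddMonoidAlgebra.coeff_add, Finsupp.add_apply, TTrace_coeff]
    constructor
    · rw [e, List.map_cons, List.prod_cons, Matrix.mul_apply]
      refine Finset.sum_congr rfl fun m _ => ?_
      have e1 : (((a :: L).length : ℕ) : ℤ) - 1 = L.length := by simp
      rw [e1, (ih m j).1, (ih m j).2 _ (by simp), mul_zero, add_zero]
    · intro k hk
      rw [e]
      refine Finset.sum_eq_zero fun m _ => ?_
      simp only [List.length_cons, Nat.cast_add, Nat.cast_one] at hk
      rw [(ih m j).2 _ (by omega), (ih m j).2 _ (by omega), mul_zero, mul_zero, add_zero]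

theorem TTrace_dvd_mul {a b : LaurentPolynomial ℚ}
    {A B : Matrix (Fin 2) (Fin 2) (LaurentPolynomial ℚ)} (hA : ∀ i j, a ∣ A i j)
    (hB : ∀ i j, b ∣ B i j) (i j : Fin 2) : a * b ∣ (A * B) i j := by
  rw [Matrix.mul_apply]
  exact Finset.dvd_sum fun m _ => mul_dvd_mul (hA i m) (hB m j)

theorem TTrace_M_dvd (l : Fin n × Bool) (i j : Fin 2) :
    (T 1 - 1 : LaurentPolynomial ℚ) ∣ (TTrace_M l - 1) i j := by
  have e : TTrace_M l - 1 = (T 1 - 1 : LaurentPolynomial ℚ) •
      (TTrace_c (TTrace_P l) - (T (-1) : LaurentPolynomial ℚ) • TTrace_c (TTrace_P (TTrace_i l))) := by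
    rw [← map_one TTrace_c, ← TTrace_P_add l, map_add, smul_sub, smul_smul, sub_mul, TTrace_TT,
      TTrace_M]
    module
  rw [e]
  exact Dvd.intro _ rfl

theorem TTrace_rho_dvd (g : Fr n) (i j : Fin 2) :
    (T 1 - 1 : LaurentPolynomial ℚ) ∣ (TTrace_rho n g - 1) i j := by
  rw [← FreeGroup.mk_toWord (x := g), TTrace_rho_mk]
  induction g.toWord generalizing i j with
  | nil => simp
  | cons a L ih =>
    have e : ((a :: L).map TTrace_M).prod - 1 =
        (TTrace_M a - 1) * (L.map TTrace_M).prod + ((L.map TTrace_M).prod - 1) := by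
      rw [List.map_cons, List.prod_cons]
      noncomm_ring
    rw [e, Matrix.add_apply]
    refine dvd_add ?_ (ih i j)
    simpa using TTrace_dvd_mul (TTrace_M_dvd a) (fun _ _ => one_dvd _) i j

theorem TTrace_cyc (w : Fr n) : ∃ (y : Fr n) (L : List (Fin n × Bool)),
    FreeGroup.IsCyclicallyReduced L ∧ L.length = tl w ∧ y⁻¹ * w * y = FreeGroup.mk L := by
  obtain ⟨y, hy⟩ := ax_nonempty w
  rw [mem_ax_iff] at hy
  set L := (y⁻¹ * w * y).toWord with hL
  have h1 : L.length = tl w := by
    rw [← hy, dd, ← mul_assoc]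
    rfl
  have h2 := FreeGroup.reduceCyclically.conj_conjugator_reduceCyclically L
  set A := FreeGroup.reduceCyclically.conjugator L
  set B := FreeGroup.reduceCyclically L with hB
  have h3 : y⁻¹ * w * y = FreeGroup.mk A * FreeGroup.mk B * (FreeGroup.mk A)⁻¹ := by
    rw [FreeGroup.inv_mk, FreeGroup.mul_mk, FreeGroup.mul_mk, h2, hL, FreeGroup.mk_toWord]
  have h4 : tl w ≤ B.length := by
    refine (tl_le w (y * FreeGroup.mk A)).trans ?_
    have e : (y * FreeGroup.mk A)⁻¹ * (w * (y * FreeGroup.mk A)) = FreeGroup.mk B := by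
      calc _ = (FreeGroup.mk A)⁻¹ * (y⁻¹ * w * y) * FreeGroup.mk A := by group
        _ = _ := by rw [h3]; group
    rw [dd, e]
    exact FreeGroup.norm_mk_le
  have h5 := congrArg List.length h2
  simp only [List.length_append, FreeGroup.invRev_length] at h5
  have h6 : A = [] := List.length_eq_zero_iff.1 (by omega)
  rw [h6] at h2
  simp only [List.nil_append, FreeGroup.invRev_empty, List.append_nil] at h2
  refine ⟨y, L, ?_, h1, FreeGroup.mk_toWord.symm⟩
  rw [← h2, hB]
  exact FreeGroup.reduceCyclically.isCyclicallyReduced FreeGroup.isReduced_toWord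

end TTraceAux

/-- A linear functional `T` on the group ring with values in Laurent polynomials. Choose `2 n`
distinct points of the rational projective line, one for each letter `l`; let `P l` be the rank one
projector with image the point of `l` and kernel the point of `l⁻¹`, so `P l + P l⁻¹ = 1`, and map
the letter `l` to `s P l + s⁻¹ P l⁻¹` (`s = LaurentPolynomial.T 1`). `T` is the trace of the
induced algebra map to 2 by 2 matrices. For a cyclically reduced word of length `k` the coefficient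
of `s ^ k` in the trace is a product of nonzero numbers (it is `2` for `k = 0`) and higher
coefficients vanish; `tl w` is the length of a shortest conjugate of `w`, which is cyclically
reduced. Each `g - 1` maps to a matrix divisible by `s - 1`. -/
theorem exists_trace (n : ℕ) :
    ∃ T : MonoidAlgebra ℚ (Fr n) →ₗ[ℚ] LaurentPolynomial ℚ,
      (∀ x y, T (x * y) = T (y * x)) ∧
      (∀ c : ℕ, ∀ x ∈ aug (Fr n) ^ (c + 1), (LaurentPolynomial.T 1 - 1) ^ (c + 1) ∣ T x) ∧
      ∀ w : Fr n, (T (MonoidAlgebra.of ℚ (Fr n) w)).coeff (tl w : ℤ) ≠ 0 ∧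
        ∀ k : ℤ, (tl w : ℤ) < k → (T (MonoidAlgebra.of ℚ (Fr n) w)).coeff k = 0 := by
  set F := MonoidAlgebra.lift ℚ (Matrix (Fin 2) (Fin 2) (LaurentPolynomial ℚ)) (Fr n)
    (TTrace_rho n) with hF
  have hof : ∀ g, F (MonoidAlgebra.of ℚ (Fr n) g) = TTrace_rho n g := fun g =>
    MonoidAlgebra.lift_of _ g
  refine ⟨(Matrix.traceLinearMap (Fin 2) ℚ (LaurentPolynomial ℚ)).comp F.toLinearMap, ?_, ?_, ?_⟩
  · intro x y
    simp only [LinearMap.comp_apply, AlgHom.toLinearMap_apply, map_mul,
      Matrix.traceLinearMap_apply]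
    exact Matrix.trace_mul_comm _ _
  · have h1 : ∀ x ∈ aug (Fr n), ∀ i j,
        (LaurentPolynomial.T 1 - 1 : LaurentPolynomial ℚ) ∣ F x i j := by
      intro x hx
      induction hx using Submodule.span_induction with
      | mem x hx =>
        obtain ⟨g, rfl⟩ := hx
        intro i j
        rw [map_sub, map_one, hof]
        exact TTrace_rho_dvd g i j
      | zero => simp
      | add x y _ _ hx hy =>
        intro i j
        rw [map_add, Matrix.add_apply]
        exact dvd_add (hx i j) (hy i j)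
      | smul a x _ hx =>
        intro i j
        rw [map_smul, Matrix.smul_apply, Algebra.smul_def]
        exact Dvd.dvd.mul_left (hx i j) _
    have h2 : ∀ c : ℕ, ∀ x ∈ aug (Fr n) ^ (c + 1), ∀ i j,
        (LaurentPolynomial.T 1 - 1 : LaurentPolynomial ℚ) ^ (c + 1) ∣ F x i j := by
      intro c
      induction c with
      | zero => simpa using h1
      | succ c ih =>
        intro x hx
        rw [pow_succ] at hx
        refine Submodule.mul_induction_on hx ?_ ?_
        · intro a ha b hb i j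
          rw [map_mul, pow_succ]
          exact TTrace_dvd_mul (ih a ha) (h1 b hb) i j
        · intro a b ha hb i j
          rw [map_add, Matrix.add_apply]
          exact dvd_add (ha i j) (hb i j)
    intro c x hx
    simp only [LinearMap.comp_apply, AlgHom.toLinearMap_apply, Matrix.traceLinearMap_apply,
      Matrix.trace_fin_two]
    exact dvd_add (h2 c x hx 0 0) (h2 c x hx 1 1)
  · intro w
    obtain ⟨y, L, hc, hl, he⟩ := TTrace_cyc w
    have e : ((Matrix.traceLinearMap (Fin 2) ℚ (LaurentPolynomial ℚ)).comp F.toLinearMap)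
        (MonoidAlgebra.of ℚ (Fr n) w) = (L.map TTrace_M).prod 0 0 + (L.map TTrace_M).prod 1 1 := by
      simp only [LinearMap.comp_apply, AlgHom.toLinearMap_apply, Matrix.traceLinearMap_apply, hof]
      rw [← Matrix.trace_fin_two, ← TTrace_rho_mk, ← he, map_mul, Matrix.trace_mul_comm, ← map_mul,
        ← mul_assoc, mul_inv_cancel, one_mul]
    rw [e, ← hl]
    simp only [AddMonoidAlgebra.coeff_add, Finsupp.add_apply]
    constructor
    · rw [(TTrace_top L 0 0).1, (TTrace_top L 1 1).1, ← Matrix.trace_fin_two]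
      exact TTrace_trace_ne hc
    · intro k hk
      rw [(TTrace_top L 0 0).2 k hk, (TTrace_top L 1 1).2 k hk, add_zero]

theorem laurent_eq_zero {f : LaurentPolynomial ℚ}
    (h : ∀ c : ℕ, (LaurentPolynomial.T 1 - 1) ^ (c + 1) ∣ f) : f = 0 := by
  obtain ⟨k, f', hf⟩ := LaurentPolynomial.exists_T_pow f
  have h0 : f' = 0 := by
    by_contra hne
    obtain ⟨g, hg⟩ := h f'.natDegree
    obtain ⟨m, g', hg'⟩ := LaurentPolynomial.exists_T_pow (g * LaurentPolynomial.T k)
    have e : f' * Polynomial.X ^ m = (Polynomial.X - Polynomial.C 1) ^ (f'.natDegree + 1) * g' := by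
      apply Polynomial.toLaurent_injective
      rw [map_mul, map_mul, hg', map_pow, map_pow, map_sub, Polynomial.toLaurent_X,
        Polynomial.toLaurent_C, map_one, hf, LaurentPolynomial.T_pow, mul_one]
      nth_rewrite 1 [hg]
      ring
    have hc : IsCoprime ((Polynomial.X - Polynomial.C 1 : Polynomial ℚ) ^ (f'.natDegree + 1))
        (Polynomial.X ^ m) := IsCoprime.pow ⟨-1, 1, by simp⟩
    have h1 := Polynomial.natDegree_le_of_dvd (hc.dvd_of_dvd_mul_right ⟨g', e⟩) hne
    rw [Polynomial.natDegree_pow, Polynomial.natDegree_X_sub_C] at h1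
    omega
  rw [h0, map_zero] at hf
  exact (LaurentPolynomial.isUnit_T (k : ℤ)).mul_left_eq_zero.1 hf.symm

theorem TTrace_aug_left {G : Type} [Group G] {x : MonoidAlgebra ℚ G} (hx : x ∈ aug G)
    (y : MonoidAlgebra ℚ G) : y * x ∈ aug G ∧ x * y ∈ aug G := by
  have hg : ∀ g : G, MonoidAlgebra.of ℚ G g - 1 ∈ aug G := fun g => Submodule.subset_span ⟨g, rfl⟩
  induction hx using Submodule.span_induction with
  | mem x hx =>
    obtain ⟨g, rfl⟩ := hx
    induction y using MonoidAlgebra.induction_on with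
    | of h =>
      constructor
      · have e : MonoidAlgebra.of ℚ G h * (MonoidAlgebra.of ℚ G g - 1) =
            (MonoidAlgebra.of ℚ G (h * g) - 1) - (MonoidAlgebra.of ℚ G h - 1) := by
          rw [map_mul]
          noncomm_ring
        exact e ▸ sub_mem (hg _) (hg _)
      · have e : (MonoidAlgebra.of ℚ G g - 1) * MonoidAlgebra.of ℚ G h =
            (MonoidAlgebra.of ℚ G (g * h) - 1) - (MonoidAlgebra.of ℚ G h - 1) := by
          rw [map_mul]
          noncomm_ring
        exact e ▸ sub_mem (hg _) (hg _)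
    | add a b ha hb =>
      rw [add_mul, mul_add]
      exact ⟨add_mem ha.1 hb.1, add_mem ha.2 hb.2⟩
    | smul r a ha =>
      rw [smul_mul_assoc, mul_smul_comm]
      exact ⟨Submodule.smul_mem _ _ ha.1, Submodule.smul_mem _ _ ha.2⟩
  | zero => simp
  | add a b _ _ ha hb =>
    rw [add_mul, mul_add]
    exact ⟨add_mem ha.1 hb.1, add_mem ha.2 hb.2⟩
  | smul r a _ ha =>
    rw [smul_mul_assoc, mul_smul_comm]
    exact ⟨Submodule.smul_mem _ _ ha.1, Submodule.smul_mem _ _ ha.2⟩

theorem aug_pow_mul_mem {G : Type} [Group G] (c : ℕ) {x : MonoidAlgebra ℚ G}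
    (hx : x ∈ aug G ^ (c + 1)) (y z : MonoidAlgebra ℚ G) : y * x * z ∈ aug G ^ (c + 1) := by
  have h1 : y * x ∈ aug G ^ (c + 1) := by
    rw [pow_succ'] at hx ⊢
    refine Submodule.mul_induction_on hx ?_ ?_
    · intro a ha b hb
      rw [← mul_assoc]
      exact Submodule.mul_mem_mul (TTrace_aug_left ha y).1 hb
    · intro a b ha hb
      rw [mul_add]
      exact add_mem ha hb
  generalize y * x = u at h1
  rw [pow_succ] at h1 ⊢
  refine Submodule.mul_induction_on h1 ?_ ?_
  · intro a ha b hb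
    rw [mul_assoc]
    exact Submodule.mul_mem_mul ha (TTrace_aug_left hb z).2
  · intro a b ha hb
    rw [add_mul]
    exact add_mem ha hb

/-- Free groups are residually torsion-free nilpotent. -/
theorem eq_one_of_mem_dim {g : Fr n} (h : ∀ c, g ∈ Dim (Fr n) c) : g = 1 := by
  obtain ⟨T, -, h2, h3⟩ := exists_trace n
  have h4 : T (MonoidAlgebra.of ℚ (Fr n) g - 1) = 0 := laurent_eq_zero fun c => h2 c _ (h c)
  rw [map_sub, sub_eq_zero, ← map_one (MonoidAlgebra.of ℚ (Fr n))] at h4
  by_contra hg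
  have h5 : tl (1 : Fr n) = 0 := by
    have := tl_le (1 : Fr n) 1
    rw [mul_one, dd_self] at this
    omega
  refine (h3 g).1 ?_
  rw [h4]
  refine (h3 1).2 _ ?_
  rw [h5]
  exact_mod_cast tl_pos hg

end Pool.Agent.Lib.MP_9ac97d_al
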