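import Pool.Agent.Lib.MP_9ac97d_al.UBasic

/-!
# Affine ping-pong and fixed points with explicit radius (task UAff)
-/

set_option autoImplicit false

noncomputable section

open Pointwise

namespace Pool.Agent.Lib.MP_9ac97d_al

variable {H W : Type} [Group H] [AddCommGroup W]

/-- The `i`-th letter as a digit. -/
def uaff_dig (l : List Bool) (i : ℕ) : ℤ := if l.getD i false then 1 else 0

/-- For a word `l` one has `wd (x * a) a l = m * a ^ l.length` with `m ∈ M` and
`p m = ∑ i, ε i • (T ^ i) (p x)`, `ε i ∈ {0, 1}` the letters of `l` (induction on `l`,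
`gvn_wd_cons`). The difference of two such sums has coefficients in `{0, 1, -1}`. -/
theorem freePair_aff {M : Subgroup H} [M.Normal] {p : H → W}
    (hadd : ∀ x ∈ M, ∀ y ∈ M, p (x * y) = p x + p y) {a : H} {T : AddMonoid.End W}
    (ha : ∀ x ∈ M, p (a * x * a⁻¹) = T (p x)) {x : H} (hx : x ∈ M) (hs : SepAt T (p x)) :
    FreePair (x * a) a := by
  have hN : M.Normal := inferInstance
  have h1 : p 1 = 0 := by
    have := hadd 1 M.one_mem 1 M.one_mem
    rw [mul_one] at this
    exact left_eq_add.1 this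
  have key : ∀ l : List Bool, wd (x * a) a l * (a ^ l.length)⁻¹ ∈ M ∧
      p (wd (x * a) a l * (a ^ l.length)⁻¹) =
        ∑ i ∈ Finset.range l.length, uaff_dig l i • (T ^ i) (p x) := by
    intro l
    induction l with
    | nil => simp [wd, h1]
    | cons b l ih =>
      obtain ⟨ih1, ih2⟩ := ih
      have h2 := hN.conj_mem _ ih1 a
      have h3 := ha _ ih1
      have h4 : ∑ i ∈ Finset.range (b :: l).length, uaff_dig (b :: l) i • (T ^ i) (p x) =
          T (∑ i ∈ Finset.range l.length, uaff_dig l i • (T ^ i) (p x)) +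
            (if b then (1 : ℤ) else 0) • p x := by
        rw [List.length_cons, Finset.sum_range_succ', map_sum]
        congr 1
        refine Finset.sum_congr rfl fun i _ => ?_
        rw [map_zsmul, pow_succ']
        rfl
      cases b
      · have e : wd (x * a) a (false :: l) * (a ^ (false :: l).length)⁻¹ =
            a * (wd (x * a) a l * (a ^ l.length)⁻¹) * a⁻¹ := by
          rw [gvn_wd_cons, List.length_cons, pow_succ', mul_inv_rev]
          simp only [Bool.false_eq_true, if_false, mul_assoc]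
        rw [e, h3, ih2, h4]
        exact ⟨h2, by simp⟩
      · have e : wd (x * a) a (true :: l) * (a ^ (true :: l).length)⁻¹ =
            x * (a * (wd (x * a) a l * (a ^ l.length)⁻¹) * a⁻¹) := by
          rw [gvn_wd_cons, List.length_cons, pow_succ', mul_inv_rev]
          simp only [if_true, mul_assoc]
        rw [e, hadd _ hx _ h2, h3, ih2, h4]
        exact ⟨M.mul_mem hx h2, by simp [add_comm]⟩
  intro l l' hl hw
  have h3 : ∑ i ∈ Finset.range l.length, uaff_dig l i • (T ^ i) (p x) =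
      ∑ i ∈ Finset.range l.length, uaff_dig l' i • (T ^ i) (p x) := by
    rw [← (key l).2, hw, hl, ← (key l').2]
  have h4 := hs l.length (fun i => uaff_dig l i - uaff_dig l' i)
    (fun i => by
      unfold uaff_dig
      split_ifs <;> simp)
    (by
      rw [Fin.sum_univ_eq_sum_range (fun i => (uaff_dig l i - uaff_dig l' i) • (T ^ i) (p x))]
      simp only [sub_smul, Finset.sum_sub_distrib]
      rw [h3, sub_self])
  refine List.ext_getElem hl fun i hi hi' => ?_
  have h5 := sub_eq_zero.1 (h4 ⟨i, hi⟩)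
  unfold uaff_dig at h5
  rw [List.getD_eq_getElem _ _ hi, List.getD_eq_getElem _ _ hi'] at h5
  revert h5
  cases l[i] <;> cases l'[i] <;> simp

/-- `p` vanishes on the short set `lcomms S c` by `freePair_aff`, hence on its normal closure
(`lcs_eq_normalClosure`) by equivariance. -/
theorem aff_kill {S : Set H} {L L₀ c : ℕ} (hS : NFS S L) (hL : 3 * 2 ^ c + L₀ ≤ L) {p : H → W}
    (hadd : ∀ x ∈ (⊤ : Subgroup H).lowerCentralSeries c,
      ∀ y ∈ (⊤ : Subgroup H).lowerCentralSeries c, p (x * y) = p x + p y)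
    (θ : H → AddMonoid.End W)
    (hθ : ∀ h, ∀ x ∈ (⊤ : Subgroup H).lowerCentralSeries c, p (h * x * h⁻¹) = θ h (p x))
    {a : H} (ha : a ∈ ball S L₀)
    (hsep : ∀ x ∈ (⊤ : Subgroup H).lowerCentralSeries c, p x ≠ 0 → SepAt (θ a) (p x)) :
    ∀ x ∈ (⊤ : Subgroup H).lowerCentralSeries c, p x = 0 := by
  obtain ⟨-, hgen, hno⟩ := hS
  have h1 : p 1 = 0 := by
    have := hadd 1 (Subgroup.one_mem _) 1 (Subgroup.one_mem _)
    rw [mul_one] at this
    exact left_eq_add.1 this
  let K : Subgroup H :=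
    { carrier := {y | y ∈ (⊤ : Subgroup H).lowerCentralSeries c ∧ p y = 0}
      mul_mem' := fun {a b} ha hb => ⟨Subgroup.mul_mem _ ha.1 hb.1, by
        rw [hadd a ha.1 b hb.1, ha.2, hb.2, add_zero]⟩
      one_mem' := ⟨Subgroup.one_mem _, h1⟩
      inv_mem' := fun {a} ha => ⟨Subgroup.inv_mem _ ha.1, by
        have := hadd a ha.1 a⁻¹ (Subgroup.inv_mem _ ha.1)
        rw [mul_inv_cancel, h1, ha.2, zero_add] at this
        exact this.symm⟩ }
  have : K.Normal := ⟨fun n hn g =>
    ⟨(inferInstance : ((⊤ : Subgroup H).lowerCentralSeries c).Normal).conj_mem n hn.1 g, by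
      rw [hθ g n hn.1, hn.2, map_zero]⟩⟩
  have h2 : Subgroup.normalClosure (lcomms S c) ≤ K := by
    apply Subgroup.normalClosure_le_normal
    intro y hy
    have h3 : y ∈ (⊤ : Subgroup H).lowerCentralSeries c := by
      rw [lcs_eq_normalClosure hgen]
      exact Subgroup.subset_normalClosure hy
    refine ⟨h3, ?_⟩
    by_contra hne
    exact hno _ (ball_mono hL (mul_mem_ball (lcomms_subset_ball S c hy) ha)) _
      (ball_mono (by omega) ha) (freePair_aff hadd (hθ a) h3 (hsep y h3 hne))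
  rw [← lcs_eq_normalClosure hgen] at h2
  exact fun x hx => (h2 hx).2

/-- The term of highest degree dominates. -/
theorem sepAt_of_norm (T : AddMonoid.End W) (ν : W → ℝ) (hadd : ∀ v w, ν (v + w) ≤ ν v + ν w)
    (hneg : ∀ v, ν (-v) = ν v) (h0 : ν 0 = 0) {μ : ℝ} (hμ : 3 ≤ μ) {w : W} (hw : 0 < ν w)
    (hT : ∀ i : ℕ, ν ((T ^ i) w) = μ ^ i * ν w) : SepAt T w := by
  have hcase : ∀ z : ℤ, |z| ≤ 1 → z = 0 ∨ z = 1 ∨ z = -1 := fun z hz => by
    have := abs_le.1 hz
    omega
  have hpos : ∀ i : ℕ, 0 < μ ^ i * ν w := fun i => mul_pos (pow_pos (by linarith) i) hw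
  have hbd : ∀ (k : ℕ) (ε : Fin k → ℤ), (∀ i, |ε i| ≤ 1) →
      ν (∑ i, ε i • (T ^ (i : ℕ)) w) ≤ μ ^ k * ν w / 2 := by
    intro k
    induction k with
    | zero =>
      intro ε _
      rw [Finset.univ_eq_empty, Finset.sum_empty, h0]
      exact (half_pos (hpos 0)).le
    | succ k ih =>
      intro ε hε
      rw [Fin.sum_univ_castSucc]
      have h1 := ih (fun i => ε i.castSucc) fun i => hε _
      have h2 : ν (ε (Fin.last k) • (T ^ k) w) ≤ μ ^ k * ν w := by
        rcases hcase _ (hε (Fin.last k)) with h | h | h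
        · rw [h, zero_smul, h0]
          exact (hpos k).le
        · rw [h, one_smul, hT]
        · rw [h, neg_smul, one_smul, hneg, hT]
      have h3 : 3 * (μ ^ k * ν w) ≤ μ ^ (k + 1) * ν w := by
        rw [pow_succ', mul_assoc]
        exact mul_le_mul_of_nonneg_right hμ (hpos k).le
      have h4 := hadd (∑ i : Fin k, ε i.castSucc • (T ^ (i : ℕ)) w) (ε (Fin.last k) • (T ^ k) w)
      simp only [Fin.val_castSucc, Fin.val_last]
      linarith
  intro k
  induction k with
  | zero => exact fun _ _ _ i => i.elim0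
  | succ k ih =>
    intro ε hε hsum
    rw [Fin.sum_univ_castSucc] at hsum
    simp only [Fin.val_castSucc, Fin.val_last] at hsum
    have h1 := hbd k (fun i => ε i.castSucc) fun i => hε _
    have h2 := eq_neg_of_add_eq_zero_left hsum
    have h3 : ε (Fin.last k) = 0 := by
      rcases hcase _ (hε (Fin.last k)) with h | h | h
      · exact h
      · rw [h2, h, one_smul, hneg, hT] at h1
        linarith [hpos k]
      · rw [h2, h, neg_smul, one_smul, neg_neg, hT] at h1
        linarith [hpos k]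
    rw [h3, zero_smul, add_zero] at hsum
    have h4 := ih (fun i => ε i.castSucc) (fun i => hε _) hsum
    intro i
    exact Fin.lastCases h3 h4 i

/-- The term of highest degree, resp. of lowest degree, dominates. -/
theorem poly_ne_zero {μ : ℂ} (hμ : 3 ≤ ‖μ‖ ∨ (μ ≠ 0 ∧ ‖μ‖ ≤ 1 / 3)) {k : ℕ} {ε : Fin k → ℤ}
    (hε : ∀ i, |ε i| ≤ 1) (h : ∑ i, (ε i : ℂ) * μ ^ (i : ℕ) = 0) : ∀ i, ε i = 0 := by
  rcases hμ with hμ | ⟨hμ0, hμ⟩
  · let T : AddMonoid.End ℂ := AddMonoidHom.mulLeft μ
    have hT : ∀ (i : ℕ) (z : ℂ), (T ^ i) z = μ ^ i * z := by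
      intro i
      induction i with
      | zero => intro z; simp
      | succ i ih =>
        intro z
        rw [pow_succ', pow_succ', mul_assoc, ← ih z]
        rfl
    refine sepAt_of_norm T (fun z => ‖z‖) norm_add_le norm_neg norm_zero hμ (w := 1)
      (by simp) (fun i => by simp [hT]) k ε hε ?_
    simpa [hT] using h
  · have hsplit : ∀ (k : ℕ) (ε : Fin (k + 1) → ℤ), ∑ i, (ε i : ℂ) * μ ^ (i : ℕ) =
        ε 0 + μ * ∑ i : Fin k, (ε i.succ : ℂ) * μ ^ (i : ℕ) := by
      intro k ε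
      rw [Fin.sum_univ_succ, Finset.mul_sum]
      congr 1
      · simp
      · refine Finset.sum_congr rfl fun i _ => ?_
        rw [Fin.val_succ, pow_succ]
        ring
    have hint : ∀ z : ℤ, ‖(z : ℂ)‖ = ((|z| : ℤ) : ℝ) := fun z => by
      rw [Complex.norm_intCast, Int.cast_abs]
    have hbd : ∀ (k : ℕ) (ε : Fin k → ℤ), (∀ i, |ε i| ≤ 1) →
        ‖μ * ∑ i, (ε i : ℂ) * μ ^ (i : ℕ)‖ ≤ 1 / 2 := by
      intro k
      induction k with
      | zero => intro ε _; simp
      | succ k ih =>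
        intro ε hε
        have h1 := ih (fun i => ε i.succ) fun i => hε _
        have h2 : ‖(ε 0 : ℂ)‖ ≤ 1 := by
          rw [hint]
          exact_mod_cast hε 0
        have h3 := norm_add_le (ε 0 : ℂ) (μ * ∑ i : Fin k, (ε i.succ : ℂ) * μ ^ (i : ℕ))
        rw [hsplit, norm_mul]
        have h4 := mul_le_mul hμ (h3.trans (add_le_add h2 h1)) (norm_nonneg _) (by norm_num)
        linarith
    induction k with
    | zero => exact fun i => i.elim0
    | succ k ih =>
      rw [hsplit] at h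
      have h1 := hbd k (fun i => ε i.succ) fun i => hε _
      rw [← neg_eq_of_add_eq_zero_right h, norm_neg, hint] at h1
      have h2 : ε 0 = 0 := by
        have h3 : ((|ε 0| : ℤ) : ℝ) < 1 := by linarith
        have h4 : |ε 0| < 1 := by exact_mod_cast h3
        exact Int.abs_lt_one_iff.1 h4
      rw [h2, Int.cast_zero, zero_add, mul_eq_zero] at h
      have h4 := ih (fun i => hε _) (h.resolve_left hμ0)
      intro i
      exact Fin.cases h2 h4 i

/-- Copy the proof of `exists_fixed_of_sim`; it uses one generating set and a radius that depends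
only on `ε` and `L₀`. -/
theorem exists_fixed_of_simU {ε : ℝ} (hε : 0 < ε) (L₀ : ℕ) :
    ∃ L : ℕ, ∀ (E H X : Type) [Group E] [Group H] [MetricSpace X] [CompleteSpace X] [Nonempty X]
      [MulAction E X] (π : E →* H), Function.Surjective π →
      (∀ e, π e = 1 → ∀ p : X, e • p = p) → ∀ r : E →* ℝ,
      (∀ (e : E) (p q : X), dist (e • p) (e • q) = r e * dist p q) →
      ∀ S : Set H, NFS S L → (∃ e : E, π e ∈ ball S L₀ ∧ 1 + ε ≤ r e) →
      ∃ p : X, ∀ e : E, e • p = p := by
  obtain ⟨m, hm⟩ := pow_unbounded_of_one_lt (6 : ℝ) (by linarith : 1 < 1 + ε)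
  refine ⟨1 + m * L₀ + 1, ?_⟩
  rintro E H X _ _ _ _ _ _ π hπ hker r hr S ⟨-, hS, hno⟩ ⟨e, heb, her⟩
  set a : E := e⁻¹ ^ m with ha
  have hab : π a ∈ ball S (m * L₀) := by
    rw [ha, map_pow, map_inv]
    exact pow_mem_ball (inv_mem_ball heb) m
  have hra : r a ≤ 1 / 6 := by
    rw [ha, map_pow, map_inv, inv_pow, one_div]
    refine inv_anti₀ (by norm_num) (hm.le.trans ?_)
    exact pow_le_pow_left₀ (by linarith) her m
  have hcon : ContractingWith (1 / 6) fun q : X => a • q := by
    refine ⟨by norm_num, LipschitzWith.of_dist_le_mul fun x y => ?_⟩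
    rw [hr]
    refine mul_le_mul_of_nonneg_right ?_ dist_nonneg
    simpa using hra
  set p : X := hcon.fixedPoint _ with hp
  have hap : a • p = p := hcon.fixedPoint_isFixedPt
  have hgen : ∀ s : E, π s ∈ S → s • p = p := by
    intro s hs
    by_contra hne
    set δ := dist p (s • p) with hδ
    have hδ0 : 0 < δ := dist_pos.2 (Ne.symm hne)
    have hrb : r (s * a * s⁻¹) = r a := by
      rw [map_mul, map_mul, mul_comm (r s), mul_assoc, ← map_mul, mul_inv_cancel, map_one, mul_one]
    have hbp : (s * a * s⁻¹) • s • p = s • p := by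
      rw [mul_smul, mul_smul, inv_smul_smul, hap]
    have hfree : FreePair (π a) (π (s * a * s⁻¹)) := by
      refine pingpong π hker (B := Metric.closedBall p (2 * δ))
        (P := Metric.closedBall p (δ / 3)) (Q := Metric.closedBall (s • p) (δ / 2))
        ⟨p, Metric.mem_closedBall_self (by linarith)⟩
        (Metric.closedBall_subset_closedBall (by linarith))
        (Metric.closedBall_subset_closedBall' (by rw [dist_comm]; linarith))
        (Metric.closedBall_disjoint_closedBall (by linarith)) (fun q hq => ?_) (fun q hq => ?_)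
      · rw [Metric.mem_closedBall] at hq ⊢
        have e1 : dist (a • q) p = r a * dist q p := by rw [← hr, hap]
        rw [e1]
        nlinarith [dist_nonneg (x := q) (y := p)]
      · rw [Metric.mem_closedBall] at hq ⊢
        have e1 : dist ((s * a * s⁻¹) • q) (s • p) = r a * dist q (s • p) := by
          rw [← hrb, ← hr, hbp]
        have e2 := dist_triangle q p (s • p)
        rw [e1]
        nlinarith [dist_nonneg (x := q) (y := s • p)]
    refine hno _ (ball_mono (by omega) hab) _ ?_ hfree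
    rw [map_mul, map_mul, map_inv]
    exact mul_mem_ball (mul_mem_ball (mem_ball_one (Or.inl hs)) hab)
      (inv_mem_ball (mem_ball_one (Or.inl hs)))
  refine ⟨p, fun g => ?_⟩
  have hle : Subgroup.closure S ≤ (MulAction.stabilizer E p).map π := by
    rw [Subgroup.closure_le]
    intro x hx
    obtain ⟨s, rfl⟩ := hπ x
    exact ⟨s, hgen s hx, rfl⟩
  obtain ⟨t, ht, htg⟩ := hle (hS ▸ Subgroup.mem_top (π g))
  have h1 : π (g * t⁻¹) = 1 := by rw [map_mul, map_inv, htg, mul_inv_cancel]
  have h2 : t • p = p := ht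
  calc g • p = (g * t⁻¹) • t • p := by rw [mul_smul, inv_smul_smul]
    _ = p := by rw [h2, hker _ h1]

open BoundedContinuousFunction in
/-- Copy the proof of `xhypa_fixed`, with `exists_fixed_of_simU`. -/
theorem xhypa_fixedU {ε : ℝ} (hε : 0 < ε) (L₀ : ℕ) :
    ∃ L : ℕ, ∀ (E H Z : Type) [Group E] [Group H] [MulAction E Z] (π : E →* H),
      Function.Surjective π → ∀ r : E →* ℝ, (∀ e, 0 ≤ r e) → ∀ F₀ : Z → ℝ,
      (∀ e, ∃ C, ∀ z, |r e * F₀ (e⁻¹ • z) - F₀ z| ≤ C) →
      (∀ e, π e = 1 → ∀ z, r e * F₀ (e⁻¹ • z) = F₀ z) → ∀ T : Z → Z → Z → Prop,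
      (∀ (e : E) x y z, T x y z → T (e • x) (e • y) (e • z)) →
      (∀ x y z, T x y z → F₀ x + F₀ y = F₀ z) →
      ∀ S : Set H, NFS S L → (∃ e : E, π e ∈ ball S L₀ ∧ 1 + ε ≤ r e) →
      ∃ F : Z → ℝ, (∃ C, ∀ z, |F z - F₀ z| ≤ C) ∧ (∀ x y z, T x y z → F x + F y = F z) ∧
        ∀ (e : E) z, r e * F (e⁻¹ • z) = F z := by
  obtain ⟨L, hL⟩ := exists_fixed_of_simU hε L₀
  refine ⟨L, ?_⟩
  intro E H Z _ _ _ π hπ r hr F₀ hF hker T hT hT0 S hS h
  let _ : TopologicalSpace Z := ⊥
  have : DiscreteTopology Z := ⟨rfl⟩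
  choose C hC using hF
  let W : Set (Z →ᵇ ℝ) := {G | (∀ x y z, T x y z → G x + G y = G z) ∧
    ∀ e, π e = 1 → ∀ z, r e * G (e⁻¹ • z) = G z}
  have hW : IsClosed W := by
    simp only [W, Set.ofPred_and, Set.ofPred_forall]
    refine IsClosed.inter ?_ ?_
    · refine isClosed_iInter fun x => isClosed_iInter fun y => isClosed_iInter fun z =>
        isClosed_iInter fun _ => isClosed_eq ?_ ?_
      · exact (continuous_eval_const x).add (continuous_eval_const y)
      · exact continuous_eval_const z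
    · refine isClosed_iInter fun e => isClosed_iInter fun _ => isClosed_iInter fun z =>
        isClosed_eq ?_ ?_
      · exact continuous_const.mul (continuous_eval_const _)
      · exact continuous_eval_const z
  have hbd : ∀ (e : E) (G : Z →ᵇ ℝ) (z : Z),
      ‖r e * (F₀ (e⁻¹ • z) + G (e⁻¹ • z)) - F₀ z‖ ≤ C e + r e * ‖G‖ := by
    intro e G z
    have h1 := hC e z
    have h2 : |r e * G (e⁻¹ • z)| ≤ r e * ‖G‖ := by
      rw [abs_mul, abs_of_nonneg (hr e)]
      exact mul_le_mul_of_nonneg_left (G.norm_coe_le_norm _) (hr e)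
    have h3 : r e * (F₀ (e⁻¹ • z) + G (e⁻¹ • z)) - F₀ z =
        (r e * F₀ (e⁻¹ • z) - F₀ z) + r e * G (e⁻¹ • z) := by ring
    rw [Real.norm_eq_abs, h3]
    exact (abs_add_le _ _).trans (add_le_add h1 h2)
  let act : E → (Z →ᵇ ℝ) → (Z →ᵇ ℝ) := fun e G => ofNormedAddCommGroupDiscrete
    (fun z => r e * (F₀ (e⁻¹ • z) + G (e⁻¹ • z)) - F₀ z) (C e + r e * ‖G‖) (hbd e G)
  have hact : ∀ e G z, act e G z = r e * (F₀ (e⁻¹ • z) + G (e⁻¹ • z)) - F₀ z :=
    fun _ _ _ => rfl
  have hmem : ∀ e, ∀ G ∈ W, act e G ∈ W := by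
    rintro e G ⟨h1, h2⟩
    refine ⟨fun x y z hxyz => ?_, fun k hk z => ?_⟩
    · rw [hact, hact, hact, ← hT0 x y z hxyz, ← hT0 _ _ _ (hT e⁻¹ x y z hxyz),
        ← h1 _ _ _ (hT e⁻¹ x y z hxyz)]
      ring
    · have hk' : π (e⁻¹ * k * e) = 1 := by simp [hk]
      have e1 : r (e⁻¹ * k * e) = r k := by
        rw [map_mul, map_mul, mul_right_comm, ← map_mul, inv_mul_cancel, map_one, one_mul]
      have e2 : (e⁻¹ * k * e)⁻¹ • e⁻¹ • z = e⁻¹ • k⁻¹ • z := by
        simp [smul_smul, mul_assoc]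
      have a1 := hker _ hk' (e⁻¹ • z)
      have a2 := h2 _ hk' (e⁻¹ • z)
      rw [e1, e2] at a1 a2
      rw [hact, hact, ← a1, ← a2, ← hker k hk z]
      ring
  let _ : MulAction E W :=
    { smul := fun e G => ⟨act e G, hmem e _ G.2⟩
      one_smul := fun G => Subtype.ext (BoundedContinuousFunction.ext fun z => by
        change act 1 G z = G.1 z
        rw [hact]
        simp)
      mul_smul := fun e e' G => Subtype.ext (BoundedContinuousFunction.ext fun z => by
        change act (e * e') G z = act e (act e' G) z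
        rw [hact, hact, hact, map_mul, mul_inv_rev, mul_smul]
        ring) }
  have hsm : ∀ (e : E) (G : W) z, (e • G).1 z = r e * (F₀ (e⁻¹ • z) + G.1 (e⁻¹ • z)) - F₀ z :=
    fun _ _ _ => rfl
  have : CompleteSpace W := hW.completeSpace_coe
  have : Nonempty W := ⟨⟨0, fun _ _ _ _ => by simp, fun _ _ _ => by simp⟩⟩
  have hle : ∀ (e : E) (p q : W), dist (e • p) (e • q) ≤ r e * dist p q := by
    intro e p q
    rw [Subtype.dist_eq, Subtype.dist_eq,
      BoundedContinuousFunction.dist_le (mul_nonneg (hr e) dist_nonneg)]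
    intro z
    have h3 : (e • p).1 z - (e • q).1 z = r e * (p.1 (e⁻¹ • z) - q.1 (e⁻¹ • z)) := by
      rw [hsm, hsm]; ring
    rw [Real.dist_eq, h3, abs_mul, abs_of_nonneg (hr e), ← Real.dist_eq]
    exact mul_le_mul_of_nonneg_left (dist_coe_le_dist _) (hr e)
  have heq : ∀ (e : E) (p q : W), dist (e • p) (e • q) = r e * dist p q := by
    intro e p q
    refine le_antisymm (hle e p q) ?_
    have h1 := hle e⁻¹ (e • p) (e • q)
    rw [inv_smul_smul, inv_smul_smul] at h1
    have h2 := mul_le_mul_of_nonneg_left h1 (hr e)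
    rwa [← mul_assoc, ← map_mul, mul_inv_cancel, map_one, one_mul] at h2
  have hk : ∀ e, π e = 1 → ∀ p : W, e • p = p := by
    intro e he p
    refine Subtype.ext (BoundedContinuousFunction.ext fun z => ?_)
    rw [hsm, mul_add, hker e he, p.2.2 e he]
    ring
  obtain ⟨p, hp⟩ := hL E H W π hπ hk r heq S hS h
  refine ⟨fun z => F₀ z + p.1 z, ⟨‖p.1‖, fun z => ?_⟩, fun x y z hxyz => ?_, fun e z => ?_⟩
  · rw [add_sub_cancel_left]
    exact p.1.norm_coe_le_norm z
  · have h1 := hT0 x y z hxyz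
    have h2 := p.2.1 x y z hxyz
    change F₀ x + p.1 x + (F₀ y + p.1 y) = F₀ z + p.1 z
    linarith
  · have := hsm e p z
    rw [hp e] at this
    change r e * (F₀ (e⁻¹ • z) + p.1 (e⁻¹ • z)) = F₀ z + p.1 z
    linarith

/-- Simultaneous lower bound for finitely many additive functions. -/
theorem uaff_simul {η : ℝ} (hη : 0 < η) (b : ℕ) :
    ∃ (L₀ : ℕ) (η' : ℝ), 0 < η' ∧ η' ≤ η ∧ ∀ (H T : Type) [Group H] (S : Set H) (φ : T → H → ℝ),
      (∀ t x y, φ t (x * y) = φ t x + φ t y) → ∀ s : Finset T, s.card ≤ b →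
      (∀ t ∈ s, ∃ h ∈ ball S 1, η ≤ φ t h) → ∃ a ∈ ball S L₀, ∀ t ∈ s, η' ≤ |φ t a| := by
  induction b with
  | zero =>
    refine ⟨0, η, hη, le_rfl, fun H T _ S φ _ s hs _ => ⟨1, one_mem_ball _ _, fun t ht => ?_⟩⟩
    rw [Finset.card_eq_zero.1 (Nat.le_zero.1 hs)] at ht
    simp at ht
  | succ b ih =>
    obtain ⟨L₀, η', h0, h1, ih⟩ := ih
    have hb : (0 : ℝ) ≤ b := Nat.cast_nonneg b
    set u : ℝ := η' / (4 * (b + 1)) with hu
    have hu0 : 0 < u := by positivity
    have huη : 4 * (b + 1) * u = η' := by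
      rw [hu]
      field_simp
    have hbu : 0 ≤ b * u := mul_nonneg hb hu0.le
    refine ⟨L₀ + (b + 1) * 1, u, hu0, by linarith, fun H T _ S φ hφ s hs hex => ?_⟩
    classical
    rcases s.eq_empty_or_nonempty with rfl | ⟨t₀, ht₀⟩
    · exact ⟨1, one_mem_ball _ _, fun t ht => by simp at ht⟩
    obtain ⟨a, ha, hat⟩ := ih H T S φ hφ (s.erase t₀)
      (by rw [Finset.card_erase_of_mem ht₀]; omega)
      fun t ht => hex t (Finset.mem_of_mem_erase ht)
    obtain ⟨h, hh, hht⟩ := hex t₀ ht₀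
    have hval : ∀ t (i : ℕ), φ t (a * h ^ i) = φ t a + i * φ t h := by
      intro t i
      induction i with
      | zero => simp
      | succ i ihi =>
        rw [pow_succ, ← mul_assoc, hφ, ihi]
        push_cast
        ring
    by_contra hcon
    have hbad : ∀ i : Fin (b + 2), ∃ t ∈ s, |φ t (a * h ^ (i : ℕ))| < u := by
      intro i
      by_contra hno
      refine hcon ⟨a * h ^ (i : ℕ), mul_mem_ball ha (ball_mono ?_ (pow_mem_ball hh i)),
        fun t ht => not_lt.1 fun hlt => hno ⟨t, ht, hlt⟩⟩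
      have := i.2
      omega
    choose τ hτ hτu using hbad
    have hbig : ∀ i, 2 * u ≤ |φ (τ i) h| := by
      intro i
      by_cases he : τ i = t₀
      · rw [he]
        have := le_abs_self (φ t₀ h)
        linarith
      · by_contra hlt
        have h2 := hat (τ i) (Finset.mem_erase.2 ⟨he, hτ i⟩)
        have h3 := hτu i
        rw [hval] at h3
        have h4 : ((i : ℕ) : ℝ) ≤ b + 1 := by
          have := i.2
          exact_mod_cast (by omega : (i : ℕ) ≤ b + 1)
        have h5 : |((i : ℕ) : ℝ) * φ (τ i) h| ≤ (b + 1) * (2 * u) := by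
          rw [abs_mul, Nat.abs_cast]
          exact mul_le_mul h4 (not_le.1 hlt).le (abs_nonneg _) (by linarith)
        have h6 := abs_sub (φ (τ i) a + ((i : ℕ) : ℝ) * φ (τ i) h) (((i : ℕ) : ℝ) * φ (τ i) h)
        rw [add_sub_cancel_right] at h6
        linarith
    have hinj : Function.Injective τ := by
      intro i j hij
      by_contra hne
      have h2 := hτu i
      have h3 := hτu j
      rw [← hij] at h3
      rw [hval] at h2 h3
      have h4 := abs_sub (φ (τ i) a + ((i : ℕ) : ℝ) * φ (τ i) h)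
        (φ (τ i) a + ((j : ℕ) : ℝ) * φ (τ i) h)
      rw [add_sub_add_left_eq_sub, ← sub_mul, abs_mul] at h4
      have h5 : (1 : ℝ) ≤ |((i : ℕ) : ℝ) - ((j : ℕ) : ℝ)| := by
        have h6 : ((i : ℕ) : ℤ) - ((j : ℕ) : ℤ) ≠ 0 := fun h7 => hne (Fin.ext (by omega))
        exact_mod_cast Int.one_le_abs h6
      have h6 := mul_le_mul h5 (hbig i) (by linarith) (abs_nonneg _)
      linarith
    have hcard := Finset.card_le_card_of_injOn (s := Finset.univ) (t := s) τ (fun i _ => hτ i)
      hinj.injOn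
    rw [Finset.card_univ, Fintype.card_fin] at hcard
    omega

/-- Put `φ t = log ∘ f t`, additive, and `η = log (1 + ε)`; apply `uaff_simul` and take a power
of the element. -/
theorem exists_simul (b : ℕ) {ε : ℝ} (hε : 0 < ε) :
    ∃ L₀ : ℕ, ∀ (H T : Type) [Group H] [Fintype T] (S : Set H) (f : T → H →* ℝ),
      Fintype.card T ≤ b → (∀ t h, 0 < f t h) → (∀ t, ∃ h ∈ ball S 1, 1 + ε ≤ f t h) →
      ∃ a ∈ ball S L₀, ∀ t, 3 ≤ f t a ∨ f t a ≤ 1 / 3 := by
  have hη : 0 < Real.log (1 + ε) := Real.log_pos (by linarith)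
  obtain ⟨L₀, η', h0, -, h⟩ := uaff_simul hη b
  obtain ⟨m, hm⟩ := exists_nat_ge (Real.log 3 / η')
  rw [div_le_iff₀ h0] at hm
  refine ⟨m * L₀, fun H T _ _ S f hb hpos hex => ?_⟩
  obtain ⟨a, ha, hat⟩ := h H T S (fun t x => Real.log (f t x))
    (fun t x y => by rw [map_mul, Real.log_mul (hpos t x).ne' (hpos t y).ne']) Finset.univ
    (by rwa [Finset.card_univ])
    (fun t _ => by
      obtain ⟨g, hg, hgt⟩ := hex t
      exact ⟨g, hg, Real.log_le_log (by linarith) hgt⟩)
  refine ⟨a ^ m, pow_mem_ball ha m, fun t => ?_⟩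
  have h1 : Real.log (f t (a ^ m)) = m * Real.log (f t a) := by rw [map_pow, Real.log_pow]
  have h2 : Real.log 3 ≤ |Real.log (f t (a ^ m))| := by
    rw [h1, abs_mul, Nat.abs_cast]
    exact hm.trans (mul_le_mul_of_nonneg_left (hat t (Finset.mem_univ t)) (Nat.cast_nonneg m))
  rcases le_abs.1 h2 with h3 | h3
  · exact Or.inl ((Real.log_le_log_iff (by norm_num) (hpos t _)).1 h3)
  · refine Or.inr ((Real.log_le_log_iff (hpos t _) (by norm_num)).1 ?_)
    rw [one_div, Real.log_inv]
    linarith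

end Pool.Agent.Lib.MP_9ac97d_al
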