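import Pool.Agent.Lib.MP_9ac97d_al.UBasic

/-!
# Almost invariant sets (task UAlm)
-/

set_option autoImplicit false

noncomputable section

open Pointwise

namespace Pool.Agent.Lib.MP_9ac97d_al

variable {n : ℕ}

/-- `l⁻¹ * a` and `l⁻¹` are separated by the edge iff the edge `(l x, l y)` lies on the geodesic from
`1` to `a` (`sep_iff`, `finite_dball`). The lines come from `exists_both_ends`. -/
theorem almInv_cut {S : Subgroup (Fr n)} (hS : NonAb S) {x y : Fr n} (h : Ess S x y) :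
    AlmInv S {s | s ∈ S ∧ s⁻¹ ∈ Half x y} := by
  obtain ⟨p, hp, hp1, hpa, hpb⟩ := exists_both_ends hS h
  obtain ⟨q, hq, hq1, hqa, hqb⟩ := exists_both_ends hS h.symm
  refine ⟨fun s hs => hs.1, fun a ha => ?_, ⟨p, hp, hp1, ?_⟩, ⟨q, hq, hq1, ?_⟩⟩
  · refine ((finite_dball x (dd a 1)).preimage (f := fun l : Fr n => l⁻¹)
      inv_injective.injOn).subset fun l hl => ?_
    have hl' : ¬ ((a⁻¹ * l ∈ S ∧ (a⁻¹ * l)⁻¹ ∈ Half x y) ↔ (l ∈ S ∧ l⁻¹ ∈ Half x y)) := hl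
    have h1 : a⁻¹ * l ∈ S ↔ l ∈ S := S.mul_mem_cancel_left (S.inv_mem ha)
    have h2 : ¬ ((a⁻¹ * l)⁻¹ ∈ Half x y ↔ l⁻¹ ∈ Half x y) := fun e => hl' (by rw [h1, e])
    have h3 : dd (a⁻¹ * l)⁻¹ x + dd x l⁻¹ = dd (a⁻¹ * l)⁻¹ l⁻¹ :=
      (mcoef_btw_of_not_iff h.1 h2).1
    have h4 : dd (a⁻¹ * l)⁻¹ l⁻¹ = dd a 1 := by
      rw [← dd_mul_left l⁻¹ a 1, mul_one, mul_inv_rev, inv_inv]
    change dd x l⁻¹ ≤ dd a 1
    omega
  · filter_upwards [hpa, hpb] with k hk hk'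
    refine ⟨⟨pow_mem hp k, ?_⟩, ⟨pow_mem (inv_mem hp) k, ?_⟩⟩
    · rwa [← inv_pow]
    · rwa [← inv_pow, inv_inv]
  · filter_upwards [hqa, hqb] with k hk hk'
    refine ⟨fun e => (not_mem_half h.1 _).2 hk' ?_, fun e => (not_mem_half h.1 _).2 hk ?_⟩
    · have e' := e.2
      rwa [← inv_pow] at e'
    · have e' := e.2
      rwa [← inv_pow, inv_inv] at e'

/-- Only finitely many edges separate `1` from the attracting ends of two elements that do not
commute: with an edge from `exists_sep_of_not_commute` and large `k`, the geodesics from `1` to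
`a ^ k` and to `b ^ k` have a common part of bounded length. -/
theorem finite_sep_two {a b : Fr n} (h : ¬ Commute a b) :
    {p : Fr n × Fr n | dd p.1 p.2 = 1 ∧ (1 : Fr n) ∉ Half p.1 p.2 ∧ Att a p.1 p.2 ∧
      Att b p.1 p.2}.Finite := by
  obtain ⟨u, v, huv, hau, hbu⟩ := exists_sep_of_not_commute h
  refine ((finite_dball 1 (dd 1 u + 1)).prod (finite_dball 1 (dd 1 u))).subset ?_
  rintro ⟨x, y⟩ ⟨h1, h2, h3, h4⟩
  obtain ⟨k, ⟨e1, e2⟩, e3, e4⟩ := ((h3.and h4).and (hau.and hbu)).exists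
  have f1 : dd 1 y + dd y (a ^ k) = dd 1 (a ^ k) := (mcoef_sep_btw h1 h2 e1).2
  have f2 : dd 1 y + dd y (b ^ k) = dd 1 (b ^ k) := (mcoef_sep_btw h1 h2 e2).2
  have f3 : dd (b ^ k) u + dd u (a ^ k) = dd (b ^ k) (a ^ k) := ((sep_iff huv _ _).1 ⟨e4, e3⟩).1
  have f4 := dd_triangle (b ^ k) y (a ^ k)
  have f5 := dd_triangle 1 u (a ^ k)
  have f6 := dd_triangle 1 u (b ^ k)
  have f7 := dd_triangle 1 y x
  have f8 : dd y x = 1 := (dd_comm y x).trans h1
  rw [dd_comm (b ^ k) u] at f3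
  rw [dd_comm (b ^ k) y] at f4
  constructor
  · change dd 1 x ≤ dd 1 u + 1
    omega
  · change dd 1 y ≤ dd 1 u
    omega

theorem ualm_maj {a b c x y : Fr n} (hab : ¬ Commute a b) (hbc : ¬ Commute b c)
    (hac : ¬ Commute a c) (h : dd x y = 1) :
    {s : Fr n | ¬ (s⁻¹ ∈ Half x y ↔ (Att a (s * x) (s * y) ∧ Att b (s * x) (s * y)) ∨
      (Att b (s * x) (s * y) ∧ Att c (s * x) (s * y)) ∨
      (Att a (s * x) (s * y) ∧ Att c (s * x) (s * y)))}.Finite := by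
  have ha : a ≠ 1 := fun e => hab (e ▸ Commute.one_left b)
  have hb : b ≠ 1 := fun e => hab (e ▸ Commute.one_right a)
  have hc : c ≠ 1 := fun e => hac (e ▸ Commute.one_right a)
  have hG := ((finite_sep_two hab).union (finite_sep_two hbc)).union (finite_sep_two hac)
  have i1 : Function.Injective fun s : Fr n => (s * x, s * y) := fun s t e =>
    mul_right_cancel (Prod.mk.inj e).1
  have i2 : Function.Injective fun s : Fr n => (s * y, s * x) := fun s t e =>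
    mul_right_cancel (Prod.mk.inj e).1
  refine ((hG.preimage i1.injOn).union (hG.preimage i2.injOn)).subset fun s hs => ?_
  have hd : dd (s * x) (s * y) = 1 := (dd_mul_left s x y).trans h
  have hd' : dd (s * y) (s * x) = 1 := (dd_comm _ _).trans hd
  have e : s⁻¹ ∈ Half x y ↔ (1 : Fr n) ∈ Half (s * x) (s * y) := by
    rw [← mul_mem_half s x y, mul_inv_cancel]
  have hs' : ¬ (s⁻¹ ∈ Half x y ↔ _) := hs
  rw [e] at hs'
  by_cases h1 : (1 : Fr n) ∈ Half (s * x) (s * y)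
  · have h2 : (1 : Fr n) ∉ Half (s * y) (s * x) := (not_mem_half hd' _).2 h1
    right
    rcases att_or ha hd with a1 | a1 <;> rcases att_or hb hd with b1 | b1 <;>
      rcases att_or hc hd with c1 | c1
    · exact absurd ⟨fun _ => Or.inl ⟨a1, b1⟩, fun _ => h1⟩ hs'
    · exact absurd ⟨fun _ => Or.inl ⟨a1, b1⟩, fun _ => h1⟩ hs'
    · exact absurd ⟨fun _ => Or.inr (Or.inr ⟨a1, c1⟩), fun _ => h1⟩ hs'
    · exact Or.inl (Or.inr ⟨hd', h2, b1, c1⟩)
    · exact absurd ⟨fun _ => Or.inr (Or.inl ⟨b1, c1⟩), fun _ => h1⟩ hs'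
    · exact Or.inr ⟨hd', h2, a1, c1⟩
    · exact Or.inl (Or.inl ⟨hd', h2, a1, b1⟩)
    · exact Or.inl (Or.inl ⟨hd', h2, a1, b1⟩)
  · left
    by_contra hn
    refine hs' ⟨fun e' => absurd e' h1, ?_⟩
    rintro (⟨a1, b1⟩ | ⟨a1, b1⟩ | ⟨a1, b1⟩)
    · exact absurd (Or.inl (Or.inl ⟨hd, h1, a1, b1⟩)) hn
    · exact absurd (Or.inl (Or.inr ⟨hd, h1, a1, b1⟩)) hn
    · exact absurd (Or.inr ⟨hd, h1, a1, b1⟩) hn

/-- Let `U = cut S x y`. Take three elements `a i ∈ S` that pairwise do not commute (`a`, `b`,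
`a * b`). By `finite_sep_two`, for all but finitely many `s ∈ S` one has: `s⁻¹ ∈ Half x y` iff
`1 ∈ Half (s x) (s y)` iff at least two of the `a i` lie in `cut S (s x) (s y) = conj s • U`
(`tdual_cut_mul`, `att_or`). The same holds for the triple `Φ (a i)`, and `a i ∈ conj s • U` iff
`Φ (a i) ∈ conj (Φ s) • U`. -/
theorem eqInv_cut {S : Subgroup (Fr n)} (hS : NonAb S) {x y : Fr n} (h : Ess S x y)
    {Φ : MulAut (Fr n)} (h1 : Φ • S = S) (h2 : Φ • cut S x y = cut S x y) :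
    EqInv Φ {s | s ∈ S ∧ s⁻¹ ∈ Half x y} := by
  obtain ⟨a, ha, b, hb, hab⟩ := hS
  have hac : ¬ Commute a (a * b) := fun e => hab (by
    have e' := e.eq
    rw [mul_assoc] at e'
    exact mul_left_cancel e')
  have hbc : ¬ Commute b (a * b) := fun e => hab (by
    have e' := e.eq
    rw [← mul_assoc] at e'
    exact (mul_right_cancel e').symm)
  have hΦ : ∀ u v : Fr n, ¬ Commute u v → ¬ Commute (Φ u) (Φ v) := fun u v huv e =>
    huv (Φ.injective (by rw [map_mul, map_mul]; exact e.eq))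
  have hS' : ∀ l, Φ l ∈ S ↔ l ∈ S := fun l => by
    conv_lhs => rw [← h1]
    exact Subgroup.smul_mem_pointwise_smul_iff
  have hA : ∀ s ∈ S, s ≠ 1 → (Att (Φ s) x y ↔ Att s x y) := fun s hs hs1 => by
    have e : Φ s ∈ cut S x y ↔ s ∈ cut S x y := by
      conv_lhs => rw [← h2]
      exact Set.smul_mem_smul_set_iff
    have hs2 : Φ s ≠ 1 := fun e => hs1 (Φ.injective (e.trans (map_one Φ).symm))
    exact ⟨fun e' => (e.1 ⟨(hS' s).2 hs, hs2, e'⟩).2.2, fun e' => (e.2 ⟨hs, hs1, e'⟩).2.2⟩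
  have hB : ∀ l ∈ S, ∀ s ∈ S, s ≠ 1 →
      (Att (Φ s) (Φ l * x) (Φ l * y) ↔ Att s (l * x) (l * y)) := fun l hl s hs hs1 => by
    have ht : l⁻¹ * s * l ≠ 1 := fun e => hs1 (by
      rw [show s = l * (l⁻¹ * s * l) * l⁻¹ by group, e, mul_one, mul_inv_cancel])
    have ht' : Φ (l⁻¹ * s * l) ≠ 1 := fun e => ht (Φ.injective (e.trans (map_one Φ).symm))
    have e1 := att_conj ht h.1 l
    have e2 := att_conj ht' h.1 (Φ l)
    rw [show l * (l⁻¹ * s * l) * l⁻¹ = s by group] at e1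
    rw [show Φ l * Φ (l⁻¹ * s * l) * (Φ l)⁻¹ = Φ s by
      rw [map_mul, map_mul, map_inv]; group] at e2
    rw [e1, e2]
    exact hA _ (S.mul_mem (S.mul_mem (S.inv_mem hl) hs) hl) ht
  have ha1 : a ≠ 1 := fun e => hab (e ▸ Commute.one_left b)
  have hb1 : b ≠ 1 := fun e => hab (e ▸ Commute.one_right a)
  have hc1 : a * b ≠ 1 := fun e => hac (e ▸ Commute.one_right a)
  refine ((ualm_maj hab hbc hac h.1).union ((ualm_maj (hΦ _ _ hab) (hΦ _ _ hbc) (hΦ _ _ hac)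
    h.1).preimage Φ.injective.injOn)).subset fun l hl => ?_
  have hl' : ¬ ((Φ l ∈ S ∧ (Φ l)⁻¹ ∈ Half x y) ↔ (l ∈ S ∧ l⁻¹ ∈ Half x y)) := hl
  by_contra hn
  rw [Set.mem_union, not_or] at hn
  have hlS : l ∈ S := by
    by_contra e
    exact hl' ⟨fun e' => absurd ((hS' l).1 e'.1) e, fun e' => absurd e'.1 e⟩
  have g1 := not_not.1 hn.1
  have g2 := not_not.1 hn.2
  rw [hB l hlS a ha ha1, hB l hlS b hb hb1, hB l hlS _ (S.mul_mem ha hb) hc1, ← g1] at g2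
  exact hl' (by rw [hS', g2])

theorem AlmInv.smul {S : Subgroup (Fr n)} {Ω : Set (Fr n)} (h : AlmInv S Ω) (Φ : MulAut (Fr n)) :
    AlmInv (Φ • S) (Φ • Ω) := by
  have hm : ∀ l, l ∈ Φ • Ω ↔ Φ⁻¹ l ∈ Ω := fun l => Set.mem_smul_set_iff_inv_smul_mem
  have hq : ∀ q : Fr n, q ≠ 1 → Φ q ≠ 1 := fun q hq e =>
    hq (Φ.injective (e.trans (map_one Φ).symm))
  have hp : ∀ (q : Fr n) (k : ℕ), (Φ q ^ k ∈ Φ • Ω ↔ q ^ k ∈ Ω) ∧
      ((Φ q)⁻¹ ^ k ∈ Φ • Ω ↔ q⁻¹ ^ k ∈ Ω) := fun q k => by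
    rw [← map_inv, ← map_pow, ← map_pow]
    exact ⟨Set.smul_mem_smul_set_iff, Set.smul_mem_smul_set_iff⟩
  refine ⟨?_, fun a ha => ?_, ?_, ?_⟩
  · rw [Subgroup.coe_pointwise_smul]
    exact Set.smul_set_mono h.sub
  · refine ((h.fin (Φ⁻¹ a) (Subgroup.mem_pointwise_smul_iff_inv_smul_mem.1 ha)).preimage
      (Φ⁻¹ : MulAut (Fr n)).injective.injOn).subset fun l hl => ?_
    have hl' : ¬ (a⁻¹ * l ∈ Φ • Ω ↔ l ∈ Φ • Ω) := hl
    rw [hm, hm, map_mul, map_inv] at hl'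
    exact hl'
  · obtain ⟨q, h1, h2, h3⟩ := h.line
    exact ⟨Φ q, Subgroup.smul_mem_pointwise_smul q Φ S h1, hq q h2,
      h3.mono fun k hk => ⟨(hp q k).1.2 hk.1, (hp q k).2.2 hk.2⟩⟩
  · obtain ⟨q, h1, h2, h3⟩ := h.line'
    exact ⟨Φ q, Subgroup.smul_mem_pointwise_smul q Φ S h1, hq q h2,
      h3.mono fun k hk => ⟨fun e => hk.1 ((hp q k).1.1 e), fun e => hk.2 ((hp q k).2.1 e)⟩⟩

theorem EqInv.conj {Ψ : MulAut (Fr n)} {Ω : Set (Fr n)} (h : EqInv Ψ Ω) (Φ : MulAut (Fr n)) :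
    EqInv (Φ * Ψ * Φ⁻¹) (Φ • Ω) := by
  have hm : ∀ l, l ∈ Φ • Ω ↔ Φ⁻¹ l ∈ Ω := fun l => Set.mem_smul_set_iff_inv_smul_mem
  refine (Set.Finite.preimage (Φ⁻¹ : MulAut (Fr n)).injective.injOn h).subset fun l hl => ?_
  have hl' : ¬ ((Φ * Ψ * Φ⁻¹) l ∈ Φ • Ω ↔ l ∈ Φ • Ω) := hl
  rw [hm, hm, MulAut.mul_apply, MulAut.mul_apply, MulAut.inv_apply_self] at hl'
  exact hl'

theorem IndAll.smul {N S : Subgroup (Fr n)} (h : IndAll N S) {Φ : MulAut (Fr n)}
    (hΦ : Φ • N = N) : IndAll N (Φ • S) := by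
  intro D _ ι
  have e := (ind_smul_iff ι Φ N fun _ : Unit => S).2 (h D _)
  rwa [hΦ] at e

/-- For `a ∈ S` let `δ a` be the finitely supported series `1_{a Ω} - 1_Ω` (and `δ a = 0` otherwise);
it is a derivation on `S`; `f = Finsupp.linearCombination δ`
(`linearCombination_eq_zero_of_mem_rel`). If `f` kills all `zeta p a` then `δ a = (of a - 1) * w` with
`w = (of p - 1)⁻¹ * δ p` supported in `S`, so `1_Ω - w` is constant on `S` and the support of `w`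
contains a line, against `not_wo_of_line` (see `exists_coef_ne_zero`). Equivariance: with the
finitely supported `u = 1_{Φ Ω} - 1_Ω` one has `map Φ (δ a) = δ (Φ a) + (of (Φ a) - 1) * u`. -/
theorem exists_alm_fun (o : BiOrd (Fr n)) {S : Subgroup (Fr n)} {Ω : Set (Fr n)}
    (h : AlmInv S Ω) : ∃ f : (Fr n →₀ MN o) →ₗ[MN o] MN o, (∀ z ∈ Rel (MN.of o) S, f z = 0) ∧
      (∀ a, f (Finsupp.single a 1) ∈ MN.sub o S) ∧
      (∃ z ∈ ZZ (MN.of o) S, CoefIn o S z ∧ f z ≠ 0) ∧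
      ∀ (Φ : MulAut (Fr n)) (hΦ : o.Pres Φ), Φ • S = S → EqInv Φ Ω →
        ∀ z ∈ ZZ (MN.of o) S, f (chainMap o Φ hΦ z) = MN.map Φ hΦ (f z) := by
  classical
  set χ : Fr n → ℚ := fun l => if l ∈ Ω then 1 else 0 with hχ
  have hχ' : ∀ u v : Fr n, χ u - χ v ≠ 0 → ¬ (u ∈ Ω ↔ v ∈ Ω) := fun u v e e' =>
    e (by simp only [hχ, e', sub_self])
  have hχ0 : ∀ l, l ∉ Ω → χ l = 0 := fun l hl => if_neg hl
  have hχ1 : ∀ l, l ∈ Ω → χ l = 1 := fun l hl => if_pos hl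
  obtain ⟨δ, hδ, hδ0⟩ : ∃ δ : Fr n → MN o, (∀ a ∈ S, ∀ l, (δ a).c l = χ (a⁻¹ * l) - χ l) ∧
      ∀ a, a ∉ S → δ a = 0 := by
    refine ⟨fun a => if ha : a ∈ S then MN.mk (fun l => χ (a⁻¹ * l) - χ l)
      (o.wo_of_finite ((h.fin a ha).subset fun l hl => hχ' _ _ hl)) else 0,
      fun a ha l => ?_, fun a ha => dif_neg ha⟩
    simp only [dif_pos ha, MN.c_mk]
  refine ⟨Finsupp.linearCombination (MN o) δ, fun z hz => ?_, fun a => ?_, ?_, ?_⟩
  · refine linearCombination_eq_zero_of_mem_rel (MN.of o) (fun a ha b hb => ?_) hz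
    ext l
    rw [smul_eq_mul, MN.c_add, MN.mnapi_c_of_mul, hδ _ (S.mul_mem ha hb), hδ a ha, hδ b hb,
      mul_inv_rev, mul_assoc]
    ring
  · rw [Finsupp.linearCombination_single, one_smul]
    by_cases ha : a ∈ S
    · refine MN.mem_sub.2 fun l hl => ?_
      by_contra hlS
      refine hl ?_
      rw [hδ a ha, hχ0 l fun e => hlS (h.sub e), hχ0 _ fun e => hlS ?_, sub_zero]
      exact (S.mul_mem_cancel_left (S.inv_mem ha)).1 (h.sub e)
    · rw [hδ0 a ha]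
      exact zero_mem _
  · by_contra hcon
    push Not at hcon
    obtain ⟨p, hp, hp1, hpa⟩ := h.line
    obtain ⟨q, hq, hq1, hqa⟩ := h.line'
    have hιp : MN.of o p ≠ 1 := fun h0 => hp1 (MN.of_injective (h0.trans (map_one _).symm))
    set w : MN o := (MN.of o p - 1)⁻¹ * δ p with hw
    have h1 : ∀ a ∈ S, δ a = MN.of o a * w - w := by
      intro a ha
      have h2 := hcon _ (zeta_mem_zz (MN.of o) hp hιp ha) (coefIn_zeta o hp ha)
      unfold zeta at h2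
      rw [map_sub, Finsupp.linearCombination_single, Finsupp.linearCombination_single, one_smul,
        smul_eq_mul, sub_eq_zero] at h2
      rw [h2, hw, mul_assoc, sub_mul, one_mul]
    have h3 : ∀ g ∈ S, w.c g = (w.c 1 - χ 1) + χ g := by
      intro g hg
      have h4 := congrArg (fun v : MN o => v.c g) (h1 g hg)
      simp only [MN.c_sub] at h4
      rw [hδ g hg, MN.mnapi_c_of_mul, inv_mul_cancel] at h4
      linarith
    by_cases hκ : w.c 1 - χ 1 = 0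
    · refine o.not_wo_of_line hp1 ?_ w.wo
      filter_upwards [hpa] with k hk
      constructor
      · show w.c (p ^ k) ≠ 0
        rw [h3 _ (pow_mem hp k), hκ, hχ1 _ hk.1]
        norm_num
      · show w.c (p⁻¹ ^ k) ≠ 0
        rw [h3 _ (pow_mem (inv_mem hp) k), hκ, hχ1 _ hk.2]
        norm_num
    · refine o.not_wo_of_line hq1 ?_ w.wo
      filter_upwards [hqa] with k hk
      constructor
      · show w.c (q ^ k) ≠ 0
        rw [h3 _ (pow_mem hq k), hχ0 _ hk.1, add_zero]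
        exact hκ
      · show w.c (q⁻¹ ^ k) ≠ 0
        rw [h3 _ (pow_mem (inv_mem hq) k), hχ0 _ hk.2, add_zero]
        exact hκ
  · intro Φ hΦ hS hE z hz
    obtain ⟨u, hu⟩ : ∃ u : MN o, ∀ l, u.c l = χ (Φ⁻¹ l) - χ l := by
      refine ⟨MN.mk (fun l => χ (Φ⁻¹ l) - χ l) (o.wo_of_finite ((Set.Finite.preimage
        (Φ⁻¹ : MulAut (Fr n)).injective.injOn hE).subset fun l hl => ?_)), fun l => rfl⟩
      have e := hχ' _ _ hl
      change ¬ (Φ (Φ⁻¹ l) ∈ Ω ↔ Φ⁻¹ l ∈ Ω)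
      rw [MulAut.apply_inv_self]
      exact fun e' => e e'.symm
    have k1 : ∀ a ∈ S, MN.map Φ hΦ (δ a) = δ (Φ a) + (MN.of o (Φ a) - 1) * u := by
      intro a ha
      have ha' : Φ a ∈ S := hS ▸ Subgroup.smul_mem_pointwise_smul a Φ S ha
      ext l
      rw [MN.c_map, sub_mul, one_mul, MN.c_add, MN.c_sub, MN.mnapi_c_of_mul, hδ a ha, hδ _ ha',
        hu, hu, map_mul, map_inv, MulAut.inv_apply_self]
      ring
    have k2 : MN.map Φ hΦ (Finsupp.linearCombination (MN o) δ z) =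
        Finsupp.linearCombination (MN o) δ (chainMap o Φ hΦ z) +
          bdy (MN.of o) (chainMap o Φ hΦ z) * u := by
      rw [← Finsupp.sum_single z, Finsupp.sum, map_sum, map_sum, map_sum, map_sum, map_sum,
        Finset.sum_mul, ← Finset.sum_add_distrib]
      refine Finset.sum_congr rfl fun a ha => ?_
      rw [chainMap_single, Finsupp.linearCombination_single, Finsupp.linearCombination_single,
        MBasic_bdy_single, smul_eq_mul, smul_eq_mul, map_mul,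
        k1 a ((Finsupp.mem_supported _ _).1 hz.1 ha), mul_add, mul_assoc]
    have k3 : bdy (MN.of o) z = 0 := hz.2
    rw [k2, mflux_bdy_chainMap, k3, map_zero, zero_mul, add_zero]

end Pool.Agent.Lib.MP_9ac97d_al
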