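import Pool.Agent.Lib.MP_9ac97d_al.UBasic

/-!
# Anchors (task UAnch)
-/

set_option autoImplicit false

noncomputable section

open Pointwise

namespace Pool.Agent.Lib.MP_9ac97d_al

variable {n : ℕ}

theorem Anch.conj {w : Fr n} {P : Set (Fr n)} (hw : w ≠ 1) (h : Anch w P) (g : Fr n) :
    Anch (g * w * g⁻¹) (MulAut.conj g • P) := by
  obtain ⟨hP, x, y, hd, h1, h2, h3⟩ := h
  refine ⟨hP.smul_set, g * x, g * y, by rwa [dd_mul_left], (att_conj hw hd g).2 h1, ?_, ?_⟩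
  · rw [conj_inv]
    exact (att_conj (inv_ne_one.2 hw) hd g).2 h2
  · rintro _ ⟨a, ha, rfl⟩
    obtain ⟨h4, h5⟩ := h3 a ha
    exact ⟨fun e => h4 (conj_eq_one_iff.1 e), (att_conj h4 ((dd_comm y x).trans hd) g).2 h5⟩

theorem uanch_att_pow {c x y : Fr n} {k : ℕ} (hk : k ≠ 0) (h : Att c x y) : Att (c ^ k) x y := by
  obtain ⟨K, hK⟩ := Filter.eventually_atTop.1 h
  refine Filter.eventually_atTop.2 ⟨K, fun j hj => ?_⟩
  rw [← pow_mul]
  exact hK _ (hj.trans (Nat.le_mul_of_pos_left j (Nat.pos_of_ne_zero hk)))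

theorem uanch_att_pow_iff {c x y : Fr n} {k : ℕ} (hc : c ≠ 1) (hd : dd x y = 1) (hk : k ≠ 0) :
    Att (c ^ k) x y ↔ Att c x y :=
  ⟨fun h => (att_or hc hd).resolve_right fun h' => not_att_both hd h (uanch_att_pow hk h'),
    uanch_att_pow hk⟩

theorem uanch_att_zpow {c x y : Fr n} {k : ℤ} (hc : c ≠ 1) (hd : dd x y = 1) (hk : k ≠ 0) :
    Att (c ^ k) x y ∧ Att (c ^ k)⁻¹ x y ↔ Att c x y ∧ Att c⁻¹ x y := by
  have hc' := inv_ne_one.2 hc
  obtain ⟨j, rfl | rfl⟩ := k.eq_nat_or_neg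
  · have hj : j ≠ 0 := by omega
    rw [zpow_natCast, ← inv_pow, uanch_att_pow_iff hc hd hj, uanch_att_pow_iff hc' hd hj]
  · have hj : j ≠ 0 := by omega
    rw [zpow_neg, zpow_natCast, inv_inv, ← inv_pow, uanch_att_pow_iff hc hd hj,
      uanch_att_pow_iff hc' hd hj, and_comm]

/-- Both are powers of one element `c` (`tends_zpowers`), and `Att (c ^ k) x y ↔ Att c x y` for
`k > 0` (`att_or`, `not_att_both`). -/
theorem Anch.of_commute {w w' : Fr n} {P : Set (Fr n)} (h : Anch w P) (hw : w ≠ 1) (hw' : w' ≠ 1)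
    (hc : Commute w w') : Anch w' P := by
  obtain ⟨c, hS⟩ := tends_zpowers (S := Subgroup.centralizer {w}) fun a ha b hb =>
    commute_trans hw (Subgroup.mem_centralizer_singleton_iff.1 ha)
      (Subgroup.mem_centralizer_singleton_iff.1 hb).symm
  have h1 : w ∈ Subgroup.zpowers c := hS ▸ Subgroup.mem_centralizer_singleton_iff.2 rfl
  have h2 : w' ∈ Subgroup.zpowers c := hS ▸ Subgroup.mem_centralizer_singleton_iff.2 hc.eq.symm
  clear hS
  obtain ⟨i, rfl⟩ := Subgroup.mem_zpowers_iff.1 h1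
  obtain ⟨j, rfl⟩ := Subgroup.mem_zpowers_iff.1 h2
  have hc1 : c ≠ 1 := fun e => hw (by rw [e, one_zpow])
  have hi : i ≠ 0 := fun e => hw (by rw [e, zpow_zero])
  have hj : j ≠ 0 := fun e => hw' (by rw [e, zpow_zero])
  obtain ⟨hP, x, y, hd, h3, h4, h5⟩ := h
  have h6 := (uanch_att_zpow hc1 hd hj).2 ((uanch_att_zpow hc1 hd hi).1 ⟨h3, h4⟩)
  exact ⟨hP, x, y, hd, h6.1, h6.2, h5⟩

/-- An edge that separates the two ends of `b`. -/
theorem uanch_edge {b : Fr n} (hb : b ≠ 1) : ∃ x y, dd x y = 1 ∧ Att b x y ∧ Att b⁻¹ y x := by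
  obtain ⟨p, hp⟩ := ax_nonempty b
  have h0 : 1 ≤ dd p (b * p) := by
    rw [mem_ax_iff.1 hp]
    exact tl_pos hb
  obtain ⟨m, hm, hd⟩ := exists_btw p (b * p) h0
  have hm' : m ∈ Ax b := ax_convex hp (mul_mem_ax (Commute.refl b) hp) hm
  have hd' : dd m p = 1 := (dd_comm m p).trans hd
  rcases att_or hb hd with h1 | h1 <;> rcases att_or (inv_ne_one.2 hb) hd with h2 | h2
  · have h3 : dd p m < dd p p := tcut_ax_half hb hd h1 h2 hp
    rw [dd_self] at h3
    exact absurd h3 (Nat.not_lt_zero _)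
  · exact ⟨p, m, hd, h1, h2⟩
  · exact ⟨m, p, hd', h1, h2⟩
  · have h3 : dd m p < dd m m := tcut_ax_half hb hd' h1 h2 hm'
    rw [dd_self] at h3
    exact absurd h3 (Nat.not_lt_zero _)

/-- Take edges separating the attracting end of `b` from those of `w` and of `w⁻¹`
(`exists_sep_of_not_commute`), and an edge `(x', y')` of the axis of `b` with `Att b x' y'`,
`Att b⁻¹ y' x'`. By `north_south`, for large `k` the half tree `b ^ k * Half x' y'` lies on the side of
`b` of both edges. -/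
theorem anch_single {w b : Fr n} (h : ¬ Commute w b) : Anch w {b} := by
  have hw : w ≠ 1 := fun e => h (e ▸ Commute.one_left b)
  have hb : b ≠ 1 := fun e => h (e ▸ Commute.one_right w)
  obtain ⟨x1, y1, d1, a1, b1⟩ := exists_sep_of_not_commute h
  obtain ⟨x2, y2, d2, a2, b2⟩ :=
    exists_sep_of_not_commute (a := w⁻¹) (b := b) fun e => h (Commute.inv_left_iff.1 e)
  obtain ⟨x, y, d, b3, b4⟩ := uanch_edge hb
  obtain ⟨k, k1, k2⟩ := ((north_south hb ((dd_comm y1 x1).trans d1) d b1 b4).and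
    (north_south hb ((dd_comm y2 x2).trans d2) d b2 b4)).exists
  have d' : dd (b ^ k * y) (b ^ k * x) = 1 := by rw [dd_mul_left, dd_comm, d]
  have key : ∀ u x' y' : Fr n, u ≠ 1 → dd x' y' = 1 → Att u x' y' →
      (∀ z ∈ Half x y, b ^ k * z ∈ Half y' x') → Att u (b ^ k * y) (b ^ k * x) := by
    intro u x' y' hu hd ha hk
    refine (att_or hu d').resolve_right fun h' => not_att_both hd ha ?_
    refine Filter.Eventually.mono h' fun j hj => ?_
    rw [← mul_inv_cancel_left (b ^ k) (u ^ j)] at hj ⊢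
    exact hk _ ((mul_mem_half _ _ _ _).1 hj)
  refine ⟨Set.singleton_nonempty b, b ^ k * y, b ^ k * x, d', key _ _ _ hw d1 a1 k1,
    key _ _ _ (inv_ne_one.2 hw) d2 a2 k2, ?_⟩
  rintro a rfl
  have h5 := (att_conj hb d (a ^ k)).2 b3
  rw [(Commute.pow_self a k).eq, mul_inv_cancel_right] at h5
  exact ⟨hb, h5⟩

/-- Choose `E` from `tdual_exists_sel` and `x`, `y` with `E x y`, `cut S x y = U`. All powers of `w`
fix the head, so `tdual_head_eq` gives `w ^ k * y ∈ Half x y` for all integers `k`; use `att_iff` and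
`cut_symm`. -/
theorem anch_opp {S : Subgroup (Fr n)} (hN : NonAb S) {m : ℕ} {U : Set (Fr n)} (hU : U ∈ UU S m)
    {w : Fr n} (hw : w ∈ Ext.vstab S (head S (UU S m) U)) (hw1 : w ≠ 1) :
    Anch w (opp S U) := by
  obtain ⟨E, hE⟩ := tdual_exists_sel hN m
  obtain ⟨x, y, hxy, rfl⟩ := hE.surj U hU
  have hs := hE.ess _ _ hxy
  have hy : y ∈ Half x y := by
    change dd y y < dd y x
    rw [dd_self, dd_comm, hs.1]
    exact Nat.one_pos
  have key : ∀ g ∈ Ext.vstab S (head S (UU S m) (cut S x y)), g * y ∈ Half x y := by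
    intro g hg
    obtain ⟨h1, h2⟩ := Ext.xglue_mem_vstab.1 hg
    rw [smul_head (tdual_conj h1) (tdual_uu_smul m h1), ← tdual_cut_mul h1 hs.1] at h2
    exact ((tdual_head_eq hE (hE.mul g h1 _ _ hxy) hxy).1 h2 x y hxy).2 hy
  rw [← cut_symm S hs.1]
  exact ⟨hs.2.2, x, y, hs.1,
    (att_iff hw1 hs.1 y).2 (Filter.Eventually.of_forall fun k => key _ (pow_mem hw k)),
    (att_iff (inv_ne_one.2 hw1) hs.1 y).2
      (Filter.Eventually.of_forall fun k => key _ (pow_mem (inv_mem hw) k)),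
    fun a ha => ha.2⟩

namespace Ext

variable {E H : Type} [Group E] [Group H] (X : Ext E H n)

/-- If `Fix σ` is not abelian use `anch_single` with an element of `Fix σ`; otherwise `w` and `w'`
commute. -/
theorem anc_all {Γ : Type} [Group Γ] {σ : Γ →* E} {w w' : Fr n} (hw : w ∈ X.Fix σ) (hw1 : w ≠ 1)
    (h : NonAb (X.Fix σ) ∨ X.Anc σ w) (hw' : w' ∈ X.Fix σ) (hw1' : w' ≠ 1) : X.Anc σ w' := by
  by_cases hN : NonAb (X.Fix σ)
  · obtain ⟨b, hb, hc⟩ := hN.exists_not_commute hw1'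
    refine ⟨{b}, anch_single hc, fun x p hp => ?_⟩
    rw [Set.mem_singleton_iff.1 hp]
    exact hb x
  · obtain ⟨P, hP, hP'⟩ := h.resolve_left hN
    refine ⟨P, hP.of_commute hw1 hw1' ?_, hP'⟩
    by_contra hc
    exact hN ⟨w, hw, w', hw', hc⟩

end Ext

end Pool.Agent.Lib.MP_9ac97d_al
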