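import Pool.Agent.Lib.MP_9ac97d_al.UDef

/-!
# Bounded index, short generating sets (task UBasic)
-/

set_option autoImplicit false

noncomputable section

open Pointwise

namespace Pool.Agent.Lib.MP_9ac97d_al

variable {H H' : Type} [Group H] [Group H']

theorem BI.mono {K : Subgroup H} {a b : ℕ} (h : BI K a) (hab : a ≤ b) : BI K b := ⟨h.1, h.2.trans hab⟩

theorem BI.of_le {K K' : Subgroup H} {a : ℕ} (h : BI K a) (hle : K ≤ K') : BI K' a :=
  ⟨ne_zero_of_dvd_ne_zero h.1 (Subgroup.index_dvd_of_le hle),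
    (Nat.le_of_dvd (Nat.pos_of_ne_zero h.1) (Subgroup.index_dvd_of_le hle)).trans h.2⟩

theorem BI.finiteIndex {K : Subgroup H} {a : ℕ} (h : BI K a) : K.FiniteIndex := ⟨h.1⟩

theorem BI.pos {K : Subgroup H} {a : ℕ} (h : BI K a) : 0 < a := (Nat.pos_of_ne_zero h.1).trans_le h.2

theorem BI.inf {K K' : Subgroup H} {a b : ℕ} (h : BI K a) (h' : BI K' b) :
    BI (K ⊓ K') (a * b) :=
  ⟨Subgroup.index_inf_ne_zero h.1 h'.1, Subgroup.index_inf_le.trans (Nat.mul_le_mul h.2 h'.2)⟩

theorem BI.comap {K : Subgroup H'} {a : ℕ} (h : BI K a) (f : H →* H') : BI (K.comap f) a := by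
  have h1 : K.relIndex ⊤ ≠ 0 := by
    rw [Subgroup.relIndex_top_right]
    exact h.1
  have h2 := Subgroup.relIndex_le_of_le_right (H := K) (le_top : f.range ≤ ⊤) h1
  rw [Subgroup.relIndex_top_right] at h2
  rw [BI, Subgroup.index_comap]
  exact ⟨fun h3 => h1 (Subgroup.relIndex_eq_zero_of_le_right le_top h3), h2.trans h.2⟩

theorem BI.map_surj {K : Subgroup H} {a : ℕ} (h : BI K a) (f : H →* H')
    (hf : Function.Surjective f) : BI (K.map f) a :=
  ⟨ne_zero_of_dvd_ne_zero h.1 (K.index_map_dvd hf),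
    (Nat.le_of_dvd (Nat.pos_of_ne_zero h.1) (K.index_map_dvd hf)).trans h.2⟩

theorem BI.map_subtype {K : Subgroup H} {K' : Subgroup K} {a b : ℕ} (h : BI K a) (h' : BI K' b) :
    BI (K'.map K.subtype) (a * b) := by
  rw [BI, Subgroup.index_map_subtype, mul_comm]
  exact ⟨Nat.mul_ne_zero h.1 h'.1, Nat.mul_le_mul h.2 h'.2⟩

theorem BI.of_subgroupOf {K K' : Subgroup H} {a b : ℕ} (h : BI K a)
    (h' : BI (K'.subgroupOf K) b) : BI K' (a * b) :=
  (h.map_subtype h').of_le (by rw [Subgroup.subgroupOf_map_subtype]; exact inf_le_left)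

theorem BI.normalCore {K : Subgroup H} {a : ℕ} (h : BI K a) : BI K.normalCore a.factorial := by
  have := h.finiteIndex
  have h1 : K.normalCore.index ∣ K.index.factorial := by
    rw [Subgroup.normalCore_eq_ker, Subgroup.index_ker, Subgroup.index, ← Nat.card_perm]
    exact Subgroup.card_subgroup_dvd_card _
  exact ⟨ne_zero_of_dvd_ne_zero (Nat.factorial_ne_zero _) h1,
    (Nat.le_of_dvd (Nat.factorial_pos _) h1).trans (Nat.factorial_le h.2)⟩

theorem bi_top : BI (⊤ : Subgroup H) 1 := by simp [BI]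

theorem bi_ker_of_finite (f : H →* H') [Finite H'] : BI f.ker (Nat.card H') := by
  rw [BI, Subgroup.index_ker]
  exact ⟨Nat.card_pos.ne', Nat.card_le_card_of_injective _ Subtype.val_injective⟩

/-- If the index were infinite or larger than `a`, pick `a + 1` different cosets. -/
theorem bi_of_no_family {K : Subgroup H} {a : ℕ}
    (h : ∀ z : Fin (a + 1) → H, ∃ i j, i ≠ j ∧ (z i)⁻¹ * z j ∈ K) : BI K a := by
  have key : ∀ c : Fin (a + 1) → H ⧸ K, ¬ Function.Injective c := by
    intro c hc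
    obtain ⟨i, j, hij, h1⟩ := h fun i => (c i).out
    have h2 := QuotientGroup.eq.2 h1
    simp only [QuotientGroup.out_eq'] at h2
    exact hij (hc h2)
  have hfin : Finite (H ⧸ K) := by
    by_contra hinf
    rw [not_finite_iff_infinite] at hinf
    exact key (fun i => Infinite.natEmbedding _ i)
      ((Infinite.natEmbedding _).injective.comp Fin.val_injective)
  refine ⟨Subgroup.index_ne_zero_of_finite, ?_⟩
  by_contra hlt
  have := Fintype.ofFinite (H ⧸ K)
  obtain ⟨c⟩ := Function.Embedding.nonempty_of_card_le (α := Fin (a + 1)) (β := H ⧸ K) (by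
    rw [Fintype.card_fin, ← Nat.card_eq_fintype_card]
    exact not_le.1 hlt)
  exact key c c.injective

/-- `gbasic_orbit` for the action on `H ⧸ K`: the first alternative is impossible. -/
theorem exists_short_reps {K : Subgroup H} {a : ℕ} (h : BI K a) {S : Set H}
    (hS : Subgroup.closure S = ⊤) (g : H) : ∃ t ∈ ball S a, t⁻¹ * g ∈ K := by
  have := h.finiteIndex
  rcases gbasic_orbit (X := H ⧸ K) hS ((1 : H) : H ⧸ K) a with ⟨z, -, hz⟩ | ⟨Z, -, hZ, h1⟩
  · have h2 := Nat.card_le_card_of_injective _ hz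
    rw [Nat.card_fin] at h2
    exact absurd (h2.trans h.2) (Nat.not_succ_le_self a)
  · obtain ⟨z, hz, h2⟩ := h1 g
    refine ⟨z, hZ hz, QuotientGroup.eq.1 ?_⟩
    simpa using h2.symm

theorem NFS.mono {S : Set H} {L L' : ℕ} (h : NFS S L) (hL : L' ≤ L) : NFS S L' := ⟨h.1, h.2.1, h.2.2.mono hL⟩

theorem NFL.mono {L L' : ℕ} (h : NFL H L) (hL : L' ≤ L) : NFL H L' := h.imp fun _ h => h.mono hL

/-- `schreier`, `ball_subset_of_subset`, `ball_image`, `gbasic_freePair_map`. -/
theorem NFS.sub {S : Set H} {L R a : ℕ} (h : NFS S (L * R)) {K : Subgroup H} (hK : BI K a)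
    (hR : 2 * a + 1 ≤ R) : NFS (K.subtype ⁻¹' ball S R) L := by
  obtain ⟨h1, h2, h3⟩ := h
  have := hK.finiteIndex
  refine ⟨(finite_ball h1 _).preimage K.subtype_injective.injOn, ?_, ?_⟩
  · rw [eq_top_iff, ← schreier K h2]
    exact Subgroup.closure_mono (Set.preimage_mono (ball_mono (by have := hK.2; omega)))
  · have hsub : ∀ x ∈ ball (K.subtype ⁻¹' ball S R) L, K.subtype x ∈ ball S (L * R) :=
      fun x hx => ball_subset_of_subset (Set.image_preimage_subset K.subtype _) L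
        (by rw [ball_image]; exact Set.mem_image_of_mem _ hx)
    intro x hx y hy hxy
    exact h3 _ (hsub x hx) _ (hsub y hy) (gbasic_freePair_map _ K.subtype_injective hxy)

theorem NFL.sub {L a : ℕ} (h : NFL H (L * (2 * a + 1))) {K : Subgroup H} (hK : BI K a) :
    NFL K L := by
  obtain ⟨S, hS⟩ := h
  exact ⟨_, hS.sub hK le_rfl⟩

theorem NFS.map {S : Set H} {L : ℕ} (h : NFS S L) (f : H →* H') (hf : Function.Surjective f) :
    NFS (f '' S) L := by
  obtain ⟨h1, h2, h3⟩ := h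
  refine ⟨h1.image f, ?_, ?_⟩
  · rw [← MonoidHom.map_closure, h2, ← MonoidHom.range_eq_map, MonoidHom.range_eq_top]
    exact hf
  · intro x hx y hy hxy
    rw [ball_image] at hx hy
    obtain ⟨x, hx, rfl⟩ := hx
    obtain ⟨y, hy, rfl⟩ := hy
    exact h3 x hx y hy (FreePair.of_map f hxy)

theorem NFL.map {L : ℕ} (h : NFL H L) (f : H →* H') (hf : Function.Surjective f) :
    NFL H' L := by
  obtain ⟨S, hS⟩ := h
  exact ⟨_, hS.map f hf⟩

theorem NFL.fg {L : ℕ} (h : NFL H L) : Group.FG H := by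
  obtain ⟨S, h1, h2, -⟩ := h
  exact Group.fg_iff.2 ⟨S, h2, h1⟩

theorem DG.fg {d : ℕ} (h : DG H d) : Group.FG H := by
  obtain ⟨T, -, h2⟩ := h
  exact Group.fg_iff.2 ⟨T, h2, T.finite_toSet⟩

/-- `Subgroup.rank_le_index_mul_rank`, `Group.rank_spec`, `Group.rank_le`. -/
theorem DG.sub {d a : ℕ} (h : DG H d) {K : Subgroup H} (hK : BI K a) : DG K (a * d) := by
  have := h.fg
  have := hK.finiteIndex
  obtain ⟨T, h1, h2⟩ := h
  obtain ⟨T', h3, h4⟩ := Group.rank_spec K
  refine ⟨T', ?_, h4⟩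
  rw [h3]
  exact (Subgroup.rank_le_index_mul_rank K).trans
    (Nat.mul_le_mul hK.2 ((Group.rank_le h2).trans h1))

theorem DG.map {d : ℕ} (h : DG H d) (f : H →* H') (hf : Function.Surjective f) : DG H' d := by
  classical
  obtain ⟨T, h1, h2⟩ := h
  refine ⟨T.image f, Finset.card_image_le.trans h1, ?_⟩
  rw [Finset.coe_image, ← MonoidHom.map_closure, h2, ← MonoidHom.range_eq_map,
    MonoidHom.range_eq_top]
  exact hf

theorem under_hm (m : ℕ) : Under (Hm H m) m := fun _ hK => sInf_le hK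

theorem ubasic_char (m : ℕ) : (Hm H m).Characteristic :=
  Subgroup.characteristic_iff_le_comap.2 fun ϕ _ hx =>
    Subgroup.mem_sInf.2 fun _ hK => under_hm m _ (BI.comap hK ϕ.toMonoidHom) hx

theorem hm_normal (m : ℕ) : (Hm H m).Normal := by
  have := ubasic_char (H := H) m
  infer_instance

theorem hm_anti {m m' : ℕ} (h : m ≤ m') : Hm H m' ≤ Hm H m := sInf_le_sInf fun _ hK => BI.mono hK h

/-- A subgroup of index at most `m` contains the kernel of a homomorphism to `Perm (Fin m)`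
(extend the action on the cosets), so `Hm H m` contains the kernel of the homomorphism from `H` to
the finite group `(H →* Perm (Fin m)) → Perm (Fin m)`, and there are at most `m! ^ d` such
homomorphisms (restrict to the generating set). -/
theorem exists_bi_hm (d m : ℕ) :
    ∃ a : ℕ, ∀ (H : Type) [Group H], DG H d → BI (Hm H m) a := by
  refine ⟨m.factorial ^ m.factorial ^ d, fun H _ hd => ?_⟩
  obtain ⟨T, hT, hT'⟩ := hd
  let r : (H →* Equiv.Perm (Fin m)) → T → Equiv.Perm (Fin m) := fun f t => f t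
  have hr : Function.Injective r := fun f g h =>
    MonoidHom.eq_of_eqOn_dense hT' fun x hx => congrFun h ⟨x, hx⟩
  have hfin : Finite (H →* Equiv.Perm (Fin m)) := Finite.of_injective r hr
  have hcard : Nat.card (H →* Equiv.Perm (Fin m)) ≤ m.factorial ^ d := by
    refine (Nat.card_le_card_of_injective r hr).trans ?_
    rw [Nat.card_fun, Nat.card_perm, Nat.card_fin, Nat.card_eq_fintype_card, Fintype.card_coe]
    exact Nat.pow_le_pow_right (Nat.factorial_pos m) hT
  have h1 := bi_ker_of_finite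
    (MonoidHom.pi fun f : H →* Equiv.Perm (Fin m) => f)
  rw [Nat.card_fun, Nat.card_perm, Nat.card_fin] at h1
  refine (h1.mono (Nat.pow_le_pow_right (Nat.factorial_pos m) hcard)).of_le
    fun x hx => Subgroup.mem_sInf.2 fun K hK => ?_
  have := BI.finiteIndex hK
  have := Fintype.ofFinite (H ⧸ K)
  obtain ⟨ι⟩ := Function.Embedding.nonempty_of_card_le (α := H ⧸ K) (β := Fin m) (by
    rw [Fintype.card_fin, ← Nat.card_eq_fintype_card]
    exact hK.2)
  have h2 : Equiv.Perm.viaEmbeddingHom ι (MulAction.toPermHom H (H ⧸ K) x) = 1 :=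
    congrFun (MonoidHom.mem_ker.1 hx)
      ((Equiv.Perm.viaEmbeddingHom ι).comp (MulAction.toPermHom H (H ⧸ K)))
  have h3 : x ∈ (MulAction.toPermHom H (H ⧸ K)).ker :=
    (injective_iff_map_eq_one _).1 (Equiv.Perm.viaEmbeddingHom_injective ι) _ h2
  rw [← Subgroup.normalCore_eq_ker] at h3
  exact K.normalCore_le h3

theorem Under.mono {G : Subgroup H} {a b : ℕ} (h : Under G a) (hab : b ≤ a) : Under G b := fun K hK => h K (hK.mono hab)

theorem Under.le {G K : Subgroup H} {a b : ℕ} (h : Under G a) (hK : BI K b) (hab : b ≤ a) :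
    G ≤ K := h K (hK.mono hab)

theorem Under.subgroupOf {G K : Subgroup H} {a b : ℕ} (h : Under G (a * b)) (hK : BI K a) :
    Under (G.subgroupOf K) b := by
  intro K' hK' x hx
  obtain ⟨y, hy, h1⟩ := h _ (hK.map_subtype hK') hx
  rwa [← Subtype.ext h1]

theorem Under.le_hm_map {G K : Subgroup H} {a m : ℕ} (h : Under G (a * m + a)) (hK : BI K a) :
    G ≤ (Hm K m).map K.subtype := by
  intro g hg
  have h1 : g ∈ K := h.le hK (Nat.le_add_left _ _) hg
  exact ⟨⟨g, h1⟩, Subgroup.mem_sInf.2 fun K' hK' =>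
    (h.mono (Nat.le_add_right _ _)).subgroupOf hK K' hK' hg, rfl⟩

theorem yy_eq (G : Subgroup H) : YY G = ⁅⁅G, G⁆, G⁆ := rfl

theorem yy_mono {G G' : Subgroup H} (h : G ≤ G') : YY G ≤ YY G' :=
  Subgroup.commutator_mono (Subgroup.commutator_mono h h) h

theorem yy_normal (G : Subgroup H) [G.Normal] : (YY G).Normal := by
  rw [yy_eq]
  infer_instance

theorem yy_le_comm (G : Subgroup H) : YY G ≤ ⁅G, G⁆ := G.lowerCentralSeries_antitone (by norm_num : 1 ≤ 2)

theorem yy_le (G : Subgroup H) : YY G ≤ G := G.lowerCentralSeries_antitone (by norm_num : 0 ≤ 2)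

theorem yy_map (G : Subgroup H) (f : H →* H') : (YY G).map f = YY (G.map f) := G.map_lowerCentralSeries f 2

/-- `Y` has finitely many subgroups of index at most `m = ` index of `K` in `Y`; take the image of
`Hm Y m`, which is characteristic in `Y` (`exists_bi_hm`). -/
theorem exists_normal_fi {Y K : Subgroup H} [Y.Normal] (hY : Y.FG)
    (hK : (K.subgroupOf Y).FiniteIndex) :
    ∃ Y₀ : Subgroup H, Y₀ ≤ K ∧ Y₀ ≤ Y ∧ Y₀.Normal ∧ (Y₀.subgroupOf Y).FiniteIndex ∧ Y₀.FG := by
  have hfg : Group.FG Y := (Group.fg_iff_subgroup_fg Y).2 hY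
  obtain ⟨T, hT, hT'⟩ := Group.rank_spec Y
  obtain ⟨a, ha⟩ := exists_bi_hm T.card (K.subgroupOf Y).index
  have h1 := (ha Y ⟨T, le_rfl, hT'⟩).finiteIndex
  have h2 := ubasic_char (H := Y) (K.subgroupOf Y).index
  refine ⟨(Hm Y (K.subgroupOf Y).index).map Y.subtype, ?_, Subgroup.map_subtype_le _,
    inferInstance, ?_, ?_⟩
  · rintro _ ⟨y, hy, rfl⟩
    exact under_hm _ _ ⟨hK.index_ne_zero, le_rfl⟩ hy
  · rw [Subgroup.subgroupOf, Subgroup.comap_map_eq_self_of_injective Y.subtype_injective]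
    exact h1
  · have h3 : (Hm Y (K.subgroupOf Y).index).FG :=
      (Group.fg_iff_subgroup_fg _).1 inferInstance
    exact xmain_fg_map h3 _

/-- As in `nf_of_not_ueg`: a free pair in `ball S L` gives `2 ^ q` elements in `ball S (q * L)`, and
`ball S 1` has at least two elements. Take `c = 2 ^ (1 / (2 * (L + 1)))`. -/
theorem exists_c (L : ℕ) : ∃ c : ℝ, 1 < c ∧ ∀ (H : Type) [Group H] (S : Set H), S.Finite →
    ¬ NoFree S L → ∀ k : ℕ, c ^ k ≤ ((ball S k).ncard : ℝ) := by
  have hM : 2 * (L + 1) ≠ 0 := by omega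
  obtain ⟨c, hc1, hc2⟩ : ∃ c : ℝ, 1 < c ∧ c ^ (2 * (L + 1)) = 2 :=
    ⟨(2 : ℝ) ^ (((2 * (L + 1) : ℕ) : ℝ)⁻¹), Real.one_lt_rpow one_lt_two (by positivity),
      Real.rpow_inv_natCast_pow zero_le_two hM⟩
  refine ⟨c, hc1, fun H _ S hS hc k => ?_⟩
  have hfree : ∃ x ∈ ball S L, ∃ y ∈ ball S L, FreePair x y := by
    by_contra h'
    exact hc fun x hx y hy hxy => h' ⟨x, hx, y, hy, hxy⟩
  obtain ⟨x, hx, y, hy, hxy⟩ := hfree
  have hA : ∀ n : ℕ, n * L ≤ k → 2 ^ n ≤ (ball S k).ncard := by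
    intro n hn
    have h1 := Set.ncard_le_ncard_of_injOn (s := (Set.univ : Set (Fin n → Bool)))
      (t := ball S k) (fun v => wd x y (List.ofFn v))
      (fun v _ => ball_mono (by rwa [List.length_ofFn]) (gbasic_wd_mem hx hy _))
      (fun v _ v' _ he => List.ofFn_injective (hxy _ _ (by simp) he)) (finite_ball hS k)
    rwa [Set.ncard_univ, Nat.card_eq_fintype_card, Fintype.card_fun, Fintype.card_bool,
      Fintype.card_fin] at h1
  have hB : 1 ≤ k → 2 ^ 1 ≤ (ball S k).ncard := by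
    intro hk
    have hs : ∃ s ∈ ball S 1, s ≠ 1 := by
      by_contra h'
      push Not at h'
      have h1 : ∀ g ∈ ball S L, g = 1 := fun g hg =>
        gbasic_mem_zero (S := S) (ball_subset_of_subset (a := 0) (T := S)
          (fun s hs => by rw [h' s (mem_ball_one (Or.inl hs))]; exact one_mem_ball _ _) L hg)
      have h2 := hxy [true] [false] rfl (by simp [wd, h1 x hx, h1 y hy])
      simp at h2
    obtain ⟨s, hs, hs1⟩ := hs
    rw [pow_one, ← Set.ncard_pair hs1]
    refine Set.ncard_le_ncard ?_ (finite_ball hS k)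
    rintro g (rfl | rfl)
    · exact ball_mono hk hs
    · exact one_mem_ball _ _
  have hC : ∀ n : ℕ, k ≤ 2 * (L + 1) * n → 2 ^ n ≤ (ball S k).ncard →
      c ^ k ≤ ((ball S k).ncard : ℝ) := by
    intro n hn h2
    calc c ^ k ≤ c ^ (2 * (L + 1) * n) := pow_le_pow_right₀ hc1.le hn
      _ = 2 ^ n := by rw [pow_mul, hc2]
      _ ≤ _ := by exact_mod_cast h2
  rcases Nat.eq_zero_or_pos k with hk | hk
  · exact hC 0 (by omega) (hA 0 (by omega))
  · rcases lt_or_ge k (L + 1) with hk' | hk'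
    · exact hC 1 (by omega) (hB hk)
    · have h1 : 1 ≤ k / (L + 1) := (Nat.one_le_div_iff (by omega)).2 hk'
      have h2 := Nat.div_add_mod k (L + 1)
      have h3 := Nat.mod_lt k (show 0 < L + 1 by omega)
      generalize k / (L + 1) = n at h1 h2
      generalize k % (L + 1) = r at h2 h3
      refine hC n ?_ (hA _ ?_) <;> nlinarith

end Pool.Agent.Lib.MP_9ac97d_al
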