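import Pool.Agent.Lib.MP_9ac97d_al.UBasic

/-!
# Minimal relations, Jordan-Hoelder independence (task UMin)
-/

set_option autoImplicit false

noncomputable section

open Pointwise

namespace Pool.Agent.Lib.MP_9ac97d_al

/-- Take a relation with minimal support, normalized by `d k₀ = 1`. Apply `T γ` and subtract
`c γ k₀` times the relation: the result has smaller support, so it is trivial. -/
theorem minrel {D V Γ κ : Type} [DivisionRing D] [AddCommGroup V] [Module D V] [Fintype κ]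
    (T : Γ → V →+ V) (θ : Γ → D →+* D) (hT : ∀ γ (d : D) x, T γ (d • x) = θ γ d • T γ x)
    (W : Submodule D V) (hW : ∀ γ, ∀ x ∈ W, T γ x ∈ W) (v : κ → V) (c : Γ → κ → D)
    (hv : ∀ γ k, T γ (v k) - c γ k • v k ∈ W) {d₀ : κ → D} (h₀ : d₀ ≠ 0)
    (hd₀ : ∑ k, d₀ k • v k ∈ W) :
    ∃ (d : κ → D) (k₀ : κ), d k₀ = 1 ∧ ∑ k, d k • v k ∈ W ∧
      ∀ γ k, θ γ (d k) * c γ k = c γ k₀ * d k := by
  classical
  induction hm : (Finset.univ.filter fun k => d₀ k ≠ 0).card using Nat.strong_induction_on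
    generalizing d₀ with
  | _ m ih =>
    obtain ⟨k₀, hk₀⟩ : ∃ k, d₀ k ≠ 0 := Function.ne_iff.1 h₀
    set d : κ → D := fun k => (d₀ k₀)⁻¹ * d₀ k with hd
    have hd1 : d k₀ = 1 := inv_mul_cancel₀ hk₀
    have hdW : ∑ k, d k • v k ∈ W := by
      have := W.smul_mem (d₀ k₀)⁻¹ hd₀
      rw [Finset.smul_sum] at this
      simpa only [hd, mul_smul] using this
    by_cases hall : ∀ γ k, θ γ (d k) * c γ k = c γ k₀ * d k
    · exact ⟨d, k₀, hd1, hdW, hall⟩
    push Not at hall
    obtain ⟨γ, k₁, hk₁⟩ := hall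
    refine ih _ ?_ (d₀ := fun k => θ γ (d k) * c γ k - c γ k₀ * d k)
      (Function.ne_iff.2 ⟨k₁, sub_ne_zero.2 hk₁⟩) ?_ rfl
    · rw [← hm]
      apply Finset.card_lt_card
      rw [Finset.ssubset_iff_of_subset]
      · refine ⟨k₀, by simpa using hk₀, ?_⟩
        simp [hd1]
      · intro k hk
        simp only [Finset.mem_filter, Finset.mem_univ, true_and] at hk ⊢
        intro h0
        apply hk
        simp [hd, h0]
    · have h1 := hW γ _ hdW
      rw [map_sum] at h1
      have h2 : ∑ k, θ γ (d k) • (T γ (v k) - c γ k • v k) ∈ W :=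
        W.sum_mem fun k _ => W.smul_mem _ (hv γ k)
      have h3 := W.sub_mem (W.sub_mem h1 h2) (W.smul_mem (c γ k₀) hdW)
      rw [Finset.smul_sum, ← Finset.sum_sub_distrib, ← Finset.sum_sub_distrib] at h3
      convert h3 using 2 with k
      rw [hT, sub_smul, mul_smul, mul_smul, smul_sub]
      abel

/-- Induction on the number of indices, for all `P ≤ Q`. Fix `i₀`, let `B' = (B i₀ ⊓ Q) ⊔ P` and
`A' = (B i₀ ⊓ Q ⊓ ker (f i₀)) ⊔ P`; there is a functional `g` on `B'` with kernel `A'` and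
`g (T γ v) = θ γ (g v) * c γ i₀`. For `i ≠ i₀`, either `f i` does not vanish on `B i ⊓ A'` (use the
pair `(P, A')`), or it vanishes on `B i ⊓ B'` (use the pair `(B', Q)`), or there is
`v₀ ∈ B i ⊓ B'` with `g v₀ = 1`, `f i = g * d` on `B i ⊓ B'`, `d = f i v₀ ≠ 0`, and applying this to
`T γ v₀` contradicts `hne`. -/
theorem jh {K V Γ κ : Type} [DivisionRing K] [AddCommGroup V] [Module K V] [Fintype κ]
    (T : Γ → V →+ V) (θ : Γ → K → K) (h0 : ∀ γ, θ γ 0 = 0) (h1 : ∀ γ, θ γ 1 = 1)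
    (B : κ → Submodule K V) (f : κ → V →ₗ[K] K) (c : Γ → κ → K)
    (hB : ∀ γ i, ∀ v ∈ B i, T γ v ∈ B i)
    (hf : ∀ γ i, ∀ v ∈ B i, f i (T γ v) = θ γ (f i v) * c γ i)
    (hne : ∀ i k d, d ≠ 0 → (∀ γ, θ γ d * c γ i = c γ k * d) → i = k)
    {P Q : Submodule K V} (hPQ : P ≤ Q) (hP : ∀ γ, ∀ v ∈ P, T γ v ∈ P)
    (hQ : ∀ γ, ∀ v ∈ Q, T γ v ∈ Q) (h₁ : ∀ i, ∀ v ∈ B i, v ∈ P → f i v = 0)
    (h₂ : ∀ i, ∃ v ∈ B i, v ∈ Q ∧ f i v ≠ 0) :
    ∃ v : κ → V, (∀ i, v i ∈ Q) ∧ ∀ d : κ → K, ∑ i, d i • v i ∈ P → ∀ i, d i = 0 := by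
  classical
  have key : ∀ (s : Finset κ) (P Q : Submodule K V), P ≤ Q → (∀ γ, ∀ v ∈ P, T γ v ∈ P) →
      (∀ γ, ∀ v ∈ Q, T γ v ∈ Q) → (∀ i ∈ s, ∀ v ∈ B i, v ∈ P → f i v = 0) →
      (∀ i ∈ s, ∃ v ∈ B i, v ∈ Q ∧ f i v ≠ 0) →
      ∃ v : κ → V, (∀ i ∈ s, v i ∈ Q) ∧
        ∀ d : κ → K, ∑ i ∈ s, d i • v i ∈ P → ∀ i ∈ s, d i = 0 := by
    intro s
    induction s using Finset.strongInduction with
    | _ s ih =>
      intro P Q hPQ hP hQ h₁ h₂
      rcases s.eq_empty_or_nonempty with rfl | ⟨i₀, hi₀⟩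
      · exact ⟨fun _ => 0, by simp, by simp⟩
      set B' := (B i₀ ⊓ Q) ⊔ P with hB'
      set A' := (B i₀ ⊓ Q ⊓ LinearMap.ker (f i₀)) ⊔ P with hA'
      have hAB : A' ≤ B' := sup_le_sup_right inf_le_left _
      have hBQ : B' ≤ Q := sup_le inf_le_right hPQ
      have hPA : P ≤ A' := le_sup_right
      have hA'T : ∀ γ, ∀ v ∈ A', T γ v ∈ A' := by
        intro γ v hv
        obtain ⟨a, ha, p, hp, rfl⟩ := Submodule.mem_sup.1 hv
        rw [map_add]
        refine Submodule.add_mem_sup ⟨⟨hB γ _ _ ha.1.1, hQ γ _ ha.1.2⟩, ?_⟩ (hP γ _ hp)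
        have h' : f i₀ a = 0 := ha.2
        show f i₀ (T γ a) = 0
        rw [hf γ _ _ ha.1.1, h', h0, zero_mul]
      have hB'T : ∀ γ, ∀ v ∈ B', T γ v ∈ B' := by
        intro γ v hv
        obtain ⟨a, ha, p, hp, rfl⟩ := Submodule.mem_sup.1 hv
        rw [map_add]
        exact Submodule.add_mem_sup ⟨hB γ _ _ ha.1, hQ γ _ ha.2⟩ (hP γ _ hp)
      set t := s.erase i₀ with ht
      set pr : κ → Prop := fun i => ∃ v ∈ B i, v ∈ A' ∧ f i v ≠ 0 with hpr
      have hts : t ⊂ s := Finset.erase_ssubset hi₀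
      obtain ⟨v₁, hv₁, hd₁⟩ := ih (t.filter pr)
        (Finset.ssubset_of_subset_of_ssubset (Finset.filter_subset _ _) hts) P A' hPA hP hA'T
        (fun i hi => h₁ i (hts.1 (Finset.mem_filter.1 hi).1))
        (fun i hi => (Finset.mem_filter.1 hi).2)
      obtain ⟨v₂, hv₂, hd₂⟩ := ih (t.filter fun i => ¬ pr i)
        (Finset.ssubset_of_subset_of_ssubset (Finset.filter_subset _ _) hts) B' Q hBQ hB'T hQ
        (by
          intro i hi v₀ hv₀ hv₀'
          obtain ⟨hit, hnp⟩ := Finset.mem_filter.1 hi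
          have hz : ∀ v ∈ B i, v ∈ A' → f i v = 0 := by
            intro v h1 h2
            by_contra h3
            exact hnp ⟨v, h1, h2, h3⟩
          by_contra hne0
          obtain ⟨a, ha, p, hp, rfl⟩ := Submodule.mem_sup.1 hv₀'
          have ha0 : f i₀ a ≠ 0 := fun h' =>
            hne0 (hz _ hv₀ (Submodule.add_mem_sup ⟨ha, h'⟩ hp))
          set r := (f i₀ a)⁻¹ with hr
          have hr0 : r ≠ 0 := inv_ne_zero ha0
          have ha1 : f i₀ (r • a) = 1 := by rw [map_smul, smul_eq_mul, hr, inv_mul_cancel₀ ha0]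
          have hra : r • a ∈ B i₀ ⊓ Q := Submodule.smul_mem _ _ ha
          have hrp : r • p ∈ P := P.smul_mem _ hp
          have hrv : r • (a + p) ∈ B i := (B i).smul_mem _ hv₀
          refine (Finset.mem_erase.1 hit).1 (hne i i₀ (f i (r • (a + p))) ?_ fun γ => ?_)
          · rw [map_smul, smul_eq_mul]; exact mul_ne_zero hr0 hne0
          · have hu : T γ (r • (a + p)) - c γ i₀ • (r • (a + p)) ∈ A' := by
              have e : T γ (r • (a + p)) - c γ i₀ • (r • (a + p)) =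
                  (T γ (r • a) - c γ i₀ • (r • a)) + (T γ (r • p) - c γ i₀ • (r • p)) := by
                rw [smul_add, map_add, smul_add]; abel
              rw [e]
              refine Submodule.add_mem_sup ⟨Submodule.sub_mem _
                ⟨hB γ _ _ hra.1, hQ γ _ hra.2⟩ (Submodule.smul_mem _ _ hra), ?_⟩
                (P.sub_mem (hP γ _ hrp) (P.smul_mem _ hrp))
              show f i₀ _ = 0
              rw [map_sub, hf γ _ _ hra.1, map_smul (f i₀) (c γ i₀), ha1, h1, one_mul, smul_eq_mul,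
                mul_one, sub_self]
            have := hz _ ((B i).sub_mem (hB γ _ _ hrv) ((B i).smul_mem _ hrv)) hu
            rw [map_sub, hf γ _ _ hrv, map_smul (f i) (c γ i₀), smul_eq_mul, sub_eq_zero] at this
            exact this)
        (fun i hi => h₂ i (hts.1 (Finset.mem_filter.1 hi).1))
      obtain ⟨w, hwB, hwQ, hw0⟩ := h₂ i₀ hi₀
      refine ⟨fun i => if i = i₀ then w else if pr i then v₁ i else v₂ i, ?_, ?_⟩
      · intro i hi
        simp only
        split_ifs with e1 e2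
        · exact hwQ
        · exact hBQ (hAB (hv₁ i (Finset.mem_filter.2 ⟨Finset.mem_erase.2 ⟨e1, hi⟩, e2⟩)))
        · exact hv₂ i (Finset.mem_filter.2 ⟨Finset.mem_erase.2 ⟨e1, hi⟩, e2⟩)
      · intro d hd
        beta_reduce at hd
        have e1 : ∑ i ∈ t.filter pr,
            d i • (if i = i₀ then w else if pr i then v₁ i else v₂ i) =
            ∑ i ∈ t.filter pr, d i • v₁ i := Finset.sum_congr rfl fun i hi => by
          obtain ⟨a1, a2⟩ := Finset.mem_filter.1 hi
          rw [if_neg (Finset.mem_erase.1 a1).1, if_pos a2]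
        have e2 : ∑ i ∈ t.filter (fun i => ¬ pr i),
            d i • (if i = i₀ then w else if pr i then v₁ i else v₂ i) =
            ∑ i ∈ t.filter (fun i => ¬ pr i), d i • v₂ i := Finset.sum_congr rfl fun i hi => by
          obtain ⟨a1, a2⟩ := Finset.mem_filter.1 hi
          rw [if_neg (Finset.mem_erase.1 a1).1, if_neg a2]
        rw [← Finset.add_sum_erase s _ hi₀, if_pos rfl, ← ht,
          ← Finset.sum_filter_add_sum_filter_not t pr, e1, e2] at hd
        have m1 : ∑ i ∈ t.filter pr, d i • v₁ i ∈ A' :=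
          A'.sum_mem fun i hi => A'.smul_mem _ (hv₁ i hi)
        have m0 : d i₀ • w ∈ B' := B'.smul_mem _ (Submodule.mem_sup_left ⟨hwB, hwQ⟩)
        have m2 : ∑ i ∈ t.filter (fun i => ¬ pr i), d i • v₂ i ∈ B' := by
          have := B'.sub_mem (B'.sub_mem (hAB (hPA hd)) m0) (hAB m1)
          rwa [add_sub_cancel_left, add_sub_cancel_left] at this
        have z2 := hd₂ d m2
        rw [Finset.sum_eq_zero (s := t.filter fun i => ¬ pr i)
          (fun i hi => by rw [z2 i hi, zero_smul]), add_zero] at hd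
        have z0 : d i₀ = 0 := by
          have m3 : d i₀ • w ∈ A' := by
            have := A'.sub_mem (hPA hd) m1
            rwa [add_sub_cancel_right] at this
          obtain ⟨a, ha, p, hp, e⟩ := Submodule.mem_sup.1 m3
          have hpB : p ∈ B i₀ := by
            have := (B i₀).sub_mem ((B i₀).smul_mem (d i₀) hwB) ha.1.1
            rwa [← e, add_sub_cancel_left] at this
          have h' : f i₀ a = 0 := ha.2
          have := congrArg (f i₀) e
          rw [map_add, h', h₁ i₀ hi₀ p hpB hp, map_smul, smul_eq_mul, add_zero] at this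
          exact (mul_eq_zero.1 this.symm).resolve_right hw0
        rw [z0, zero_smul, zero_add] at hd
        have z1 := hd₁ d hd
        intro i hi
        by_cases e1 : i = i₀
        · rw [e1, z0]
        by_cases e2 : pr i
        · exact z1 i (Finset.mem_filter.2 ⟨Finset.mem_erase.2 ⟨e1, hi⟩, e2⟩)
        · exact z2 i (Finset.mem_filter.2 ⟨Finset.mem_erase.2 ⟨e1, hi⟩, e2⟩)
  obtain ⟨v, hv, hd⟩ := key Finset.univ P Q hPQ hP hQ (fun i _ => h₁ i) (fun i _ => h₂ i)
  exact ⟨v, fun i => hv i (Finset.mem_univ i), fun d h i => hd d h i (Finset.mem_univ i)⟩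

section MN

variable {G : Type} [Group G] {o : BiOrd G}

theorem umin_lt {Φ : MulAut G} (h : o.Pres Φ) {x y : G} : o.lt (Φ x) (Φ y) ↔ o.lt x y := by
  unfold BiOrd.lt
  rw [← map_inv, ← map_mul, h]

/-- An order preserving map of a well ordered set onto itself is the identity: look at the least
element that is moved. -/
theorem wo_fix {Φ : MulAut G} (h : o.Pres Φ) {s : Set G} (hs : o.WO s) (hΦ : Φ '' s = s) :
    ∀ g ∈ s, Φ g = g := by
  by_contra hcon
  push Not at hcon
  obtain ⟨m, ⟨hm, hm'⟩, hmin⟩ :=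
    (hs.mono (s := {g | g ∈ s ∧ Φ g ≠ g}) fun g hg => hg.1).exists_min hcon
  have hfix : ∀ g ∈ s, o.lt g m → Φ g = g := by
    intro g hg hlt
    by_contra hne
    rcases hmin g ⟨hg, hne⟩ with rfl | h'
    · exact o.lt_irrefl _ hlt
    · exact o.lt_irrefl _ (o.lt_trans hlt h')
  rcases o.lt_tri (Φ m) m with h1 | h1 | h1
  · exact hm' (Φ.injective (hfix _ (hΦ ▸ Set.mem_image_of_mem Φ hm) h1))
  · exact hm' h1
  · obtain ⟨g, hg, hgm⟩ : m ∈ Φ '' s := hΦ.symm ▸ hm
    rcases o.lt_tri g m with h2 | h2 | h2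
    · rw [hfix g hg h2] at hgm
      exact o.lt_irrefl _ (hgm ▸ h2)
    · exact hm' (by rw [← h2] at hgm ⊢; exact hgm)
    · have := (umin_lt h).2 h2
      rw [hgm] at this
      exact o.lt_irrefl _ (o.lt_trans h1 this)

theorem supp_fix {Φ : MulAut G} (h : o.Pres Φ) {d : MN o} (hd : MN.map Φ h d = d) :
    ∀ g ∈ d.supp, Φ g = g :=
  wo_fix h d.wo (by rw [← MN.supp_map Φ h, hd])

/-- `m` is the least element of the support; compare the least elements of the supports. -/
theorem min_twist {d : MN o} (hd : d ≠ 0) : ∃ m ∈ d.supp, ∀ (Φ : MulAut G) (h : o.Pres Φ) (a b : G),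
    MN.map Φ h d * MN.of o a = MN.of o b * d → Φ m * a = b * m := by
  obtain ⟨m, hm, hmin⟩ := MN.mnval_exists_min hd
  refine ⟨m, hm, fun Φ h a b e => ?_⟩
  have e' : ∀ u, d.c (Φ⁻¹ (u * a⁻¹)) = d.c (b⁻¹ * u) := fun u => by
    rw [← MN.c_map Φ h, ← MN.mnapi_c_mul_of, e, MN.mnapi_c_of_mul]
  have hm0 : d.c m ≠ 0 := hm
  have m1 : b⁻¹ * (Φ m * a) ∈ d.supp := by
    rw [MN.mnapi_mem_supp, ← e']; simpa using hm0
  have m2 : Φ⁻¹ (b * m * a⁻¹) ∈ d.supp := by
    rw [MN.mnapi_mem_supp, e']; simpa using hm0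
  rcases hmin _ m1 with h1 | h1
  · rw [← h1]; simp only [h1]; rw [inv_mul_eq_iff_eq_mul] at h1; exact h1
  rcases hmin _ m2 with h2 | h2
  · have := congrArg Φ h2
    simp only [MulAut.apply_inv_self] at this
    rw [← this]; simp
  · exfalso
    have a1 := (o.lt_mul_left b).2 h1
    have a2 := (o.lt_mul_right a).2 ((umin_lt h).2 h2)
    simp only [MulAut.apply_inv_self, mul_inv_cancel_left, inv_mul_cancel_right] at a1 a2
    exact o.lt_irrefl _ (o.lt_trans a1 a2)

/-- An order preserving automorphism has no nontrivial finite orbit. -/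
theorem fix_of_pow_fix {Φ : MulAut G} (h : o.Pres Φ) {k : ℕ} (hk : k ≠ 0) {g : G}
    (hg : (Φ ^ k) g = g) : Φ g = g := by
  obtain ⟨j, rfl⟩ := Nat.exists_eq_succ_of_ne_zero hk
  rcases o.lt_tri g (Φ g) with h1 | h1 | h1
  · exfalso
    have : ∀ j : ℕ, o.lt g ((Φ ^ (j + 1)) g) := by
      intro j
      induction j with
      | zero => simpa using h1
      | succ j ih => rw [pow_succ', MulAut.mul_apply]; exact o.lt_trans h1 ((umin_lt h).2 ih)
    have := this j
    rw [hg] at this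
    exact o.lt_irrefl _ this
  · exact h1.symm
  · exfalso
    have : ∀ j : ℕ, o.lt ((Φ ^ (j + 1)) g) g := by
      intro j
      induction j with
      | zero => simpa using h1
      | succ j ih => rw [pow_succ', MulAut.mul_apply]; exact o.lt_trans ((umin_lt h).2 ih) h1
    have := this j
    rw [hg] at this
    exact o.lt_irrefl _ this

end MN

/-- Let `S` be generated by `p`, `g`. It is not abelian, so it has a cycle that is not in
`Rel S` (`exists_coef_ne_zero`, `coef_eq_zero_of_mem_rel`); by `zz_le_span_zeta` and `zeta p p = 0`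
the cycle `zeta p g` is not in `Rel S`; finish with `mem_rel_of_coefIn`. -/
theorem zeta_not_mem_rel {n : ℕ} (o : BiOrd (Fr n)) {p g : Fr n} (h : ¬ Commute p g) :
    zeta (MN.of o) p g ∉ Rel (MN.of o) ⊤ := by
  intro hz
  set S : Subgroup (Fr n) := Subgroup.closure {p, g} with hS
  have hp : p ∈ S := Subgroup.subset_closure (by simp)
  have hg : g ∈ S := Subgroup.subset_closure (by simp)
  have hp1 : p ≠ 1 := fun e => h (e ▸ Commute.one_left g)
  have hι : MN.of o p ≠ 1 := fun h0 => hp1 (MN.of_injective (h0.trans (map_one _).symm))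
  have hNA : NonAb S := ⟨p, hp, g, hg, h⟩
  have hz' := mem_rel_of_coefIn o le_top (coefIn_zeta o hp hg) (zeta_mem_zz (MN.of o) hp hι hg).1 hz
  have hle : ZZ (MN.of o) S ≤ Rel (MN.of o) S := by
    refine (zz_le_span_zeta (MN.of o) hS.symm hp hι).trans (sup_le ?_ le_rfl)
    rw [Submodule.span_le]
    rintro _ ⟨u, hu, rfl⟩
    rcases hu with rfl | rfl
    · have : zeta (MN.of o) u u = 0 := by
        rw [zeta, mul_inv_cancel₀ (sub_ne_zero.2 hι), sub_self]
      rw [this]; exact Submodule.zero_mem _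
    · exact hz'
  obtain ⟨y, hy⟩ := tt_nonempty (S := S) (fun e => hp1 (Subgroup.mem_bot.1 (e ▸ hp)))
  obtain ⟨w, -, -, hw, -⟩ := exists_two_nbrs hy
  obtain ⟨x, i, hx⟩ : ∃ x i, Ess S x (x * FreeGroup.of i) := by
    obtain ⟨i, e | e⟩ := dd_eq_one.1 hw.1
    · exact ⟨y, i, e ▸ hw⟩
    · exact ⟨w, i, e ▸ hw.symm⟩
  obtain ⟨z, hz1, hz2⟩ := exists_coef_ne_zero o hNA hx
  exact hz2 (coef_eq_zero_of_mem_rel _ x i (hle hz1))

end Pool.Agent.Lib.MP_9ac97d_al
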