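import Pool.Agent.Lib.MP_9ac97d_al.UVal
import Pool.Agent.Lib.MP_9ac97d_al.UMin

/-!
# Finitely many heights, the index bound (task UIdx)
-/

set_option autoImplicit false

noncomputable section

open Pointwise

namespace Pool.Agent.Lib.MP_9ac97d_al

variable {n : ℕ}

/-- `coef_eq_finsum` with `L = ⊤`: `coef ⊤ 1 i z = ∑ᶠ t, coef S t i z * of t`, where `coef S t i z`
is supported in `N` (`mflux_coef_eq`, `mflux_der_mem_sub`) and vanishes unless `t ∈ TT S`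
(`coef_eq_zero_of_not_ess`, `ess_iff`). -/
theorem supp_coef_subset (o : BiOrd (Fr n)) {S N : Subgroup (Fr n)} (hS : S ≤ N)
    {z : Fr n →₀ MN o} (hz : z ∈ ZZ (MN.of o) S) (hc : CoefIn o N z) (i : Fin n) :
    (coef (MN.of o) ⊤ 1 i z).supp ⊆ (N : Set (Fr n)) * TT S := by
  classical
  intro g hg
  obtain ⟨r, -, hr, hr'⟩ := mcoef_exists_reps (le_top : S ≤ ⊤)
  obtain ⟨hfin, heq⟩ := coef_eq_finsum (MN.of o) le_top hr hr' 1 i z
  have hsub : (Function.support fun t : r => coef (MN.of o) S (t * 1) i z * MN.of o t) ⊆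
      (hfin.toFinset : Set r) := by
    intro t ht
    rw [Set.Finite.coe_toFinset]
    intro h0
    apply ht
    simp only at h0 ⊢
    rw [h0, zero_mul]
  rw [heq, finsum_eq_sum_of_support_subset _ hsub, MN.mnapi_mem_supp, MN.c_sum] at hg
  obtain ⟨t, -, ht⟩ := Finset.exists_ne_zero_of_sum_ne_zero hg
  rw [MN.mnapi_c_mul_of] at ht
  have hN : coef (MN.of o) S (t * 1) i z ∈ MN.sub o N := by
    rw [mflux_coef_eq]
    exact sum_mem fun a _ => mul_mem (hc a)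
      (MN.mem_sub.2 fun x hx => hS (MN.mem_sub.1 (mflux_der_mem_sub o S _ i a) hx))
  have h0 : coef (MN.of o) S (t * 1) i z ≠ 0 := fun h0 => ht (by rw [h0, MN.c_zero])
  have hess : Ess S (t * 1) (t * 1 * FreeGroup.of i) := by
    by_contra hcon
    exact h0 (coef_eq_zero_of_not_ess _ hcon hz)
  have h1 := (ess_iff.1 hess).2.1
  rw [mul_one] at h1
  exact ⟨g * (t : Fr n)⁻¹, MN.mem_sub.1 hN ht, t, h1, by simp⟩

/-- `ax_near` and `finite_dball`. -/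
theorem tt_smul_strip (Φ : MulAut (Fr n)) {N : Subgroup (Fr n)} (hΦ : Φ • N = N)
    {Ω : Set (Fr n)} (hΩ : Ω.Finite) : ∃ Ω' : Set (Fr n), Ω'.Finite ∧ ∀ S : Subgroup (Fr n),
      TT S ⊆ (N : Set (Fr n)) * Ω → TT (Φ • S) ⊆ (N : Set (Fr n)) * Ω' := by
  obtain ⟨C, hC⟩ := ax_near Φ
  refine ⟨⋃ w ∈ Ω, {y | dd (Φ w) y ≤ C}, hΩ.biUnion fun w _ => finite_dball _ _, ?_⟩
  rintro S hS m ⟨a, haS, ha, hm⟩
  obtain ⟨b, hbS, rfl⟩ := (Subgroup.mem_smul_pointwise_iff_exists _ _ _).1 haS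
  have hb : b ≠ 1 := by
    rintro rfl
    exact ha (by simp)
  obtain ⟨y, hy, hd⟩ := (hC b hb).2 m hm
  obtain ⟨ν, hν, w, hw, rfl⟩ := hS ⟨b, hbS, hb, hy⟩
  have hν' : Φ ν ∈ N := by
    rw [← hΦ]
    exact Subgroup.smul_mem_pointwise_smul _ _ _ hν
  refine ⟨Φ ν, hν', (Φ ν)⁻¹ * m, ?_, by simp⟩
  simp only [Set.mem_iUnion, Set.mem_ofPred_eq]
  refine ⟨w, hw, ?_⟩
  rw [← dd_mul_left (Φ ν), mul_inv_cancel_left, dd_comm, ← map_mul]
  exact hd

/-- The first half of the proof of `height_ge`. -/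
theorem tt_supp (o : BiOrd (Fr n)) {S : Subgroup (Fr n)} (hS : NonAb S) {T : Set (Fr n)}
    (hT : Subgroup.closure T = S) {p : Fr n} (hp : p ∈ S) (hp1 : p ≠ 1) {y : Fr n}
    (hy : y ∈ TT S) : ∃ g ∈ T, ∃ i : Fin n, ∃ s ∈ S,
      s * y ∈ (coef (MN.of o) ⊤ 1 i (zeta (MN.of o) p g)).supp ∨
      s * y * (FreeGroup.of i)⁻¹ ∈ (coef (MN.of o) ⊤ 1 i (zeta (MN.of o) p g)).supp := by
  have hι : MN.of o p ≠ 1 := fun h0 => hp1 (MN.of_injective (h0.trans (map_one _).symm))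
  have key : ∀ (x : Fr n) (i : Fin n), Ess S x (x * FreeGroup.of i) → ∃ g ∈ T, ∃ s ∈ S,
      s * x ∈ (coef (MN.of o) ⊤ 1 i (zeta (MN.of o) p g)).supp := by
    intro x i hx
    obtain ⟨z, hz, hz0⟩ := exists_coef_ne_zero o hS hx
    have hex : ∃ g ∈ T, coef (MN.of o) S x i (zeta (MN.of o) p g) ≠ 0 := by
      by_contra hcon
      push Not at hcon
      apply hz0
      have hle : Submodule.span (MN o) (zeta (MN.of o) p '' T) ⊔
          Rel (MN.of o) S ≤ LinearMap.ker (coef (MN.of o) S x i) := by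
        refine sup_le (Submodule.span_le.2 ?_) fun w hw => ?_
        · rintro _ ⟨g, hg, rfl⟩
          exact hcon g hg
        · exact coef_eq_zero_of_mem_rel _ x i hw
      exact hle (zz_le_span_zeta _ hT hp hι hz)
    obtain ⟨g, hg, hg0⟩ := hex
    have hgS : g ∈ S := hT ▸ Subgroup.subset_closure hg
    obtain ⟨s, hs, hs0⟩ := mflux_exists_mem_supp o (coefIn_zeta o hp hgS) hg0
    exact ⟨g, hg, s, hs, hs0⟩
  obtain ⟨z, -, -, hyz, -⟩ := exists_two_nbrs hy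
  obtain ⟨i, hi | hi⟩ := dd_eq_one.1 hyz.1
  · rw [hi] at hyz
    obtain ⟨g, hg, s, hs, h1⟩ := key y i hyz
    exact ⟨g, hg, i, s, hs, Or.inl h1⟩
  · have hzy := hyz.symm
    rw [hi] at hzy
    obtain ⟨g, hg, s, hs, h1⟩ := key z i hzy
    refine ⟨g, hg, i, s, hs, Or.inr ?_⟩
    rw [hi, mul_assoc, mul_inv_cancel_right]
    exact h1

theorem uidx_smul_le (Φ : MulAut (Fr n)) {B N : Subgroup (Fr n)} (hΦ : Φ • N = N) (hB : B ≤ N) :
    Φ • B ≤ N := by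
  rw [← hΦ]
  exact Subgroup.pointwise_smul_le_pointwise_smul_iff.2 hB

theorem uidx_chainMap_apply (o : BiOrd (Fr n)) (Φ : MulAut (Fr n)) (h : o.Pres Φ)
    (z : Fr n →₀ MN o) (a : Fr n) : chainMap o Φ h z (Φ a) = MN.map Φ h (z a) := by
  unfold chainMap
  rw [AddMonoidHom.comp_apply, Finsupp.mapDomain.addMonoidHom_apply,
    Finsupp.mapDomain_apply Φ.injective, Finsupp.mapRange.addMonoidHom_apply,
    Finsupp.mapRange_apply]
  rfl

namespace Ext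

variable {E H Q : Type} [Group E] [Group H] [Group Q] (X : Ext E H n)

/-- `TT (ρ k • B) ⊆ TT (ρ k • P) = g⁻¹ * TT A'` for one of finitely many finitely generated
`A' ≤ N`, and `exists_tt_subset`. -/
theorem FC.strip {X : Ext E H n} {K : Subgroup E} {N B : Subgroup (Fr n)} (h : X.FC K N)
    (hN : X.Inv N) (hB : B ≤ N) (hfg : B.FG) : X.Strip K N B := by
  obtain ⟨P, hBP, hPN, hP, A, hA, hk⟩ := h B hB hfg
  have hR : ∀ S : Subgroup (Fr n), ∃ R : ℕ, S.FG → ∀ y ∈ TT S, ∃ s ∈ S, dd s y ≤ R := by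
    intro S
    by_cases hS : S.FG
    · obtain ⟨R, hR⟩ := exists_tt_subset hS
      exact ⟨R, fun _ => hR⟩
    · exact ⟨0, fun h0 => absurd h0 hS⟩
  choose R hR using hR
  refine ⟨⋃ S ∈ A, {y | dd 1 y ≤ R S}, hA.biUnion fun S _ => finite_dball _ _, ?_⟩
  rintro k hkK y ⟨a, haS, ha, hy⟩
  obtain ⟨g, hg, hgA⟩ := hk k hkK
  have haP : a ∈ X.ρ k • P := Subgroup.pointwise_smul_le_pointwise_smul_iff.2 hBP haS
  have hPk : X.ρ k • P ≤ N := uidx_smul_le _ (hN k) hPN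
  have hfg' : (MulAut.conj g • (X.ρ k • P)).FG := xhier_fg_smul _ (xhier_fg_smul _ hP)
  have hgy : g * y ∈ TT (MulAut.conj g • (X.ρ k • P)) := by
    refine ⟨g * a * g⁻¹, Subgroup.smul_mem_pointwise_smul a (MulAut.conj g) _ haP, ?_,
      (mul_mem_ax_conj g a y).2 hy⟩
    intro h0
    apply ha
    have h1 : a = g⁻¹ * (g * a * g⁻¹) * g := by group
    rw [h1, h0]
    group
  obtain ⟨s, hs, hd⟩ := hR _ hfg' _ hgy
  have hsN : s ∈ N := by
    obtain ⟨b, hb, rfl⟩ := (Subgroup.mem_smul_pointwise_iff_exists _ _ _).1 hs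
    exact N.mul_mem (N.mul_mem hg (hPk hb)) (N.inv_mem hg)
  refine ⟨g⁻¹ * s, N.mul_mem (N.inv_mem hg) hsN, s⁻¹ * (g * y), ?_, by group⟩
  simp only [Set.mem_iUnion, Set.mem_ofPred_eq]
  refine ⟨_, hgA, ?_⟩
  rw [← dd_mul_left s, mul_one, mul_inv_cancel_left]
  exact hd

theorem Strip.mono {X : Ext E H n} {K K' : Subgroup E} {N B : Subgroup (Fr n)}
    (h : X.Strip K N B) (hK : K' ≤ K) : X.Strip K' N B := by
  obtain ⟨Ω, hΩ, h1⟩ := h
  exact ⟨Ω, hΩ, fun k hk => h1 k (hK hk)⟩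

theorem uidx_pi_j (g : Fr n) : X.π (X.j g) = 1 := by
  have h : X.j g ∈ X.π.ker := by
    rw [X.ker]
    exact ⟨g, rfl⟩
  exact h

theorem uidx_reps (K : Subgroup E) :
    ∃ t : H ⧸ K.map X.π → E, ∀ a : E, ∃ k ∈ K, ∃ c f, a = k * t c * X.j f := by
  choose l hl using X.surj
  refine ⟨fun c => l (Quotient.out c)⁻¹, fun a => ?_⟩
  obtain ⟨κ, hκ⟩ := QuotientGroup.mk_out_eq_mul (K.map X.π) (X.π a)⁻¹
  obtain ⟨k, hk, hkκ⟩ := κ.2
  have h1 : (k * l (Quotient.out (((X.π a)⁻¹ : H) : H ⧸ K.map X.π))⁻¹)⁻¹ * a ∈ X.π.ker := by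
    rw [MonoidHom.mem_ker, map_mul, map_inv, map_mul, hl, hkκ]
    have h2 : Quotient.out (((X.π a)⁻¹ : H) : H ⧸ K.map X.π) = (X.π a)⁻¹ * κ := hκ
    rw [h2]
    group
  rw [X.ker] at h1
  obtain ⟨f, hf⟩ := h1
  refine ⟨k, hk, ((X.π a)⁻¹ : H), f, ?_⟩
  rw [hf]
  group

namespace Ht

variable {X} (h : X.Ht Q)

/-- Every `a` is `k * t * j f` with `k ∈ ker lam` and `t` in a finite set. The factor `j f` does not
change the heights. `act (k * t)⁻¹` maps the class of `z` to the class of a cycle of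
`ρ t⁻¹ • ρ k⁻¹ • B` with coefficients in `DN`; use `supp_coef_subset`, `tt_smul_strip`. -/
theorem vals_finite (hfi : (h.lam.ker.map X.π).FiniteIndex) {B : Subgroup (Fr n)} (hB : B ≤ h.N)
    (hs : X.Strip h.lam.ker h.N B) : ∃ Val : Set Q, Val.Finite ∧
      ∀ (z : Fr n →₀ MN h.o) (hz : z ∈ ZZ (MN.of h.o) ⊤), z ∈ ZZ (MN.of h.o) B →
        CoefIn h.o h.N z → h.vals (h.cls z hz) ⊆ Val := by
  obtain ⟨t, ht⟩ := X.uidx_reps h.lam.ker
  obtain ⟨Ω, hΩ, hΩ'⟩ := hs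
  choose Ω' hfin hΩ'' using fun c => tt_smul_strip (X.ρ (t c)⁻¹) (h.inv_N (t c)⁻¹) hΩ
  have : Finite (H ⧸ h.lam.ker.map X.π) := Subgroup.finite_quotient_of_finiteIndex
  refine ⟨⋃ c, (fun w => h.lam (t c) * h.lam (X.j w)) '' Ω' c,
    Set.finite_iUnion fun c => (hfin c).image _, ?_⟩
  rintro z hz hzB hc q ⟨a, i, g, hg, rfl⟩
  obtain ⟨k, hk, c, f, rfl⟩ := ht a
  have e1 : (k * t c * X.j f)⁻¹ = X.j f⁻¹ * ((t c)⁻¹ * k⁻¹) := by
    rw [map_inv]
    group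
  rw [e1, h.act_mul, h.act_j, map_smul, smul_eq_mul, MN.mnapi_mem_supp, MN.mnapi_c_of_mul,
    inv_inv] at hg
  have e2 : xuFun h.o i (h.act ((t c)⁻¹ * k⁻¹) (h.cls z hz)) =
      coef (MN.of h.o) ⊤ 1 i (chainMap h.o (X.ρ ((t c)⁻¹ * k⁻¹)) (h.pres _) z) := rfl
  rw [e2] at hg
  have hz' := chainMap_mem_zz h.o (X.ρ ((t c)⁻¹ * k⁻¹)) (h.pres _) hzB
  have hc' : CoefIn h.o h.N (chainMap h.o (X.ρ ((t c)⁻¹ * k⁻¹)) (h.pres _) z) := by
    intro b
    obtain ⟨a, rfl⟩ := (X.ρ ((t c)⁻¹ * k⁻¹)).surjective b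
    rw [uidx_chainMap_apply]
    exact h.map_mem_DN _ (hc a)
  obtain ⟨ν, hν, y, hy, hνy⟩ :=
    supp_coef_subset h.o (uidx_smul_le _ (h.inv_N _) hB) hz' hc' i hg
  rw [map_mul, mul_smul] at hy
  obtain ⟨ν', hν', w, hw, rfl⟩ := hΩ'' c _ (hΩ' k⁻¹ (inv_mem hk)) hy
  simp only [Set.mem_iUnion, Set.mem_image]
  refine ⟨c, w, hw, ?_⟩
  have e3 : h.lam (X.j (f * g)) = h.lam (X.j w) := by
    simp only at hνy
    rw [← hνy, map_mul, map_mul, map_mul, map_mul, h.mem_N.1 hν, h.mem_N.1 hν', one_mul, one_mul]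
  have e4 : h.lam k = 1 := hk
  rw [← e3, map_mul, map_mul, map_mul, map_mul, map_mul, e4, one_mul, mul_assoc]

/-- Let `v ≠ 0` be the class of `zeta p g` (`zeta_not_mem_rel`), `q` its least height
(`exists_val`). Use `bi_of_no_family`: for lifts `t i` of `n` elements in different cosets of
`ker lam` mapped to `H`, apply `ind2` to the vectors `act (t i) v` with the heights
`lam (t i) * q`. -/
theorem idx (hfi : (h.lam.ker.map X.π).FiniteIndex) {B : Subgroup (Fr n)} (hB : B ≤ h.N)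
    (hna : NonAb B) (hs : X.Strip h.lam.ker h.N B) : BI (h.lam.ker.map X.π) (n - 1) := by
  obtain ⟨Val, hVal, hsub⟩ := h.vals_finite hfi hB hs
  obtain ⟨p, hp, g, hg, hpg⟩ := hna
  have hp1 : p ≠ 1 := by
    rintro rfl
    exact hpg (Commute.one_left g)
  have hι : MN.of h.o p ≠ 1 := fun h0 => hp1 (MN.of_injective (h0.trans (map_one _).symm))
  have hzB := zeta_mem_zz (MN.of h.o) hp hι hg
  have hz : zeta (MN.of h.o) p g ∈ ZZ (MN.of h.o) ⊤ := zz_mono _ le_top hzB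
  have hv : h.cls _ hz ≠ 0 := by
    intro h0
    have h1 : (Rel (MN.of h.o) ⊤).mkQ (zeta (MN.of h.o) p g) = 0 := congrArg Subtype.val h0
    rw [Submodule.mkQ_apply, Submodule.Quotient.mk_eq_zero] at h1
    exact zeta_not_mem_rel h.o hpg h1
  have hf : (h.vals (h.cls _ hz)).Finite :=
    hVal.subset (hsub _ hz hzB (coefIn_zeta h.o (hB hp) (hB hg)))
  obtain ⟨q, -, hge, hgt⟩ := h.exists_val hv hf
  refine bi_of_no_family fun z => ?_
  by_contra hcon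
  push Not at hcon
  choose l hl using X.surj
  have hlt : ∀ a x y : Q, h.oQ.lt (a * x) (a * y) ↔ h.oQ.lt x y := by
    intro a x y
    unfold BiOrd.lt
    rw [mul_inv_rev, mul_assoc, inv_mul_cancel_left]
  have key := h.ind2 (fun i => h.act (l (z i)) (h.cls _ hz)) (fun i => h.lam (l (z i)) * q)
    (fun i => ?_) (fun i => ?_) (fun i k s t hst => ?_)
  · simp at key
  · intro x hx
    rw [h.vals_act] at hx
    obtain ⟨y, hy, rfl⟩ := hx
    rcases hge y hy with h1 | h1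
    · exact Or.inl (by rw [h1])
    · exact Or.inr ((hlt _ _ _).2 h1)
  · intro h1
    apply hgt
    intro y hy
    refine (hlt (h.lam (l (z i))) _ _).1 (h1 _ ?_)
    rw [h.vals_act]
    exact ⟨y, hy, rfl⟩
  · by_contra hik
    apply hcon i k hik
    refine ⟨(X.j s * l (z i))⁻¹ * (X.j t * l (z k)), ?_, ?_⟩
    · simp only [← mul_assoc] at hst
      have h2 := mul_right_cancel hst
      rw [SetLike.mem_coe, MonoidHom.mem_ker, map_mul, map_inv, map_mul, map_mul, h2,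
        inv_mul_cancel]
    · rw [map_mul, map_inv, map_mul, map_mul, X.uidx_pi_j, X.uidx_pi_j, one_mul, one_mul, hl, hl]

end Ht

end Ext

end Pool.Agent.Lib.MP_9ac97d_al
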