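import Pool.Agent.Lib.MP_9ac97d_al.UAlm
import Pool.Agent.Lib.MP_9ac97d_al.UIdx

/-!
# Counting sections that preserve a splitting (task UCore)
-/

set_option autoImplicit false

noncomputable section

open Pointwise

namespace Pool.Agent.Lib.MP_9ac97d_al

namespace Ext.Ht

variable {E H Q : Type} [Group E] [Group H] [Group Q] {n : ℕ} {X : Ext E H n} (h : X.Ht Q)

theorem ucore_max (o : BiOrd Q) {A : Set Q} (hA : A.Finite) (hne : A.Nonempty) :
    ∃ q ∈ A, ∀ q' ∈ A, ¬ o.lt q q' := by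
  induction A, hA using Set.Finite.induction_on with
  | empty => exact absurd hne (by simp)
  | @insert a A _ _ ih =>
    rcases A.eq_empty_or_nonempty with rfl | hA
    · refine ⟨a, by simp, fun q' hq' => ?_⟩
      obtain rfl : q' = a := by simpa using hq'
      exact o.lt_irrefl _
    · obtain ⟨q, hq, hm⟩ := ih hA
      by_cases hqa : o.lt q a
      · refine ⟨a, Or.inl rfl, fun q' hq' hlt => ?_⟩
        rcases hq' with rfl | hq'
        · exact o.lt_irrefl _ hlt
        · exact hm q' hq' (o.lt_trans hqa hlt)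
      · refine ⟨q, Or.inr hq, fun q' hq' => ?_⟩
        rcases hq' with rfl | hq'
        · exact hqa
        · exact hm q' hq'

theorem ucore_extend {K Z V : Type} [DivisionRing K] [AddCommGroup Z] [Module K Z]
    [AddCommGroup V] [Module K V] (c : Z →ₗ[K] V) (g : Z →ₗ[K] K) (hcg : ∀ z, c z = 0 → g z = 0) :
    ∃ f : V →ₗ[K] K, ∀ z, f (c z) = g z := by
  obtain ⟨f, hf⟩ := LinearMap.exists_extend
    (((LinearMap.ker c).liftQ g fun z hz => hcg z hz).comp c.quotKerEquivRange.symm.toLinearMap)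
  refine ⟨f, fun z => ?_⟩
  have h1 := LinearMap.congr_fun hf ⟨c z, z, rfl⟩
  rw [LinearMap.comp_apply, LinearMap.comp_apply] at h1
  refine h1.trans ?_
  have h2 : c.quotKerEquivRange.symm ⟨c z, z, rfl⟩ = (LinearMap.ker c).mkQ z := by
    rw [LinearEquiv.symm_apply_eq]
    rfl
  rw [LinearEquiv.coe_coe, h2]
  rfl

theorem ucore_conj {D V : Type} [DivisionRing D] [AddCommGroup V] [Module D V] (K : Subfield D)
    {u u' : D} (hu : u' * u = 1) (hK : ∀ d ∈ K, u * d * u' ∈ K) (hK' : ∀ d ∈ K, u' * d * u ∈ K)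
    (P : Submodule K V) (f : V →ₗ[K] K) : ∃ (B : Submodule K V) (f' : V →ₗ[K] K),
      (∀ v, v ∈ B ↔ u • v ∈ P) ∧ ∀ v, (f' v : D) = u' * f (u • v) * u := by
  have hsm : ∀ (d : K) (v : V), u • d • v = (⟨_, hK d d.2⟩ : K) • u • v := by
    intro d v
    change u • (d : D) • v = (u * d * u') • u • v
    rw [smul_smul, smul_smul, mul_assoc, hu, mul_one]
  let B : Submodule K V :=
    { carrier := {v | u • v ∈ P}
      add_mem' := fun {a b} ha hb => by
        change u • (a + b) ∈ P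
        rw [smul_add]
        exact add_mem ha hb
      zero_mem' := by
        change u • (0 : V) ∈ P
        rw [smul_zero]
        exact zero_mem _
      smul_mem' := fun d v hv => by
        change u • d • v ∈ P
        rw [hsm]
        exact P.smul_mem _ hv }
  let f' : V →ₗ[K] K :=
    { toFun := fun v => ⟨_, hK' _ (f (u • v)).2⟩
      map_add' := fun a b => Subtype.ext (by
        change u' * f (u • (a + b)) * u = u' * f (u • a) * u + u' * f (u • b) * u
        rw [smul_add, map_add, Subfield.coe_add, mul_add, add_mul])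
      map_smul' := fun d a => Subtype.ext (by
        change u' * f (u • d • a) * u = d * (u' * f (u • a) * u)
        rw [hsm, map_smul, smul_eq_mul, Subfield.coe_mul]
        simp only [← mul_assoc]
        rw [hu, one_mul]) }
  exact ⟨B, f', fun v => Iff.rfl, fun v => rfl⟩

theorem ucore_pi_j (g : Fr n) : X.π (X.j g) = 1 := by
  rw [← MonoidHom.mem_ker, X.ker]
  exact ⟨g, rfl⟩

theorem ucore_lam (hon : h.lam.ker.map X.π = ⊤) (a : E) : ∃ s, h.lam a = h.lam (X.j s) := by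
  obtain ⟨k, hk, hka⟩ : X.π a ∈ h.lam.ker.map X.π := hon ▸ Subgroup.mem_top _
  have h1 : k⁻¹ * a ∈ X.π.ker := by
    rw [MonoidHom.mem_ker, map_mul, map_inv, hka, inv_mul_cancel]
  rw [X.ker] at h1
  obtain ⟨s, hs⟩ := h1
  refine ⟨s, ?_⟩
  have h2 : h.lam k = 1 := hk
  rw [hs, map_mul, map_inv, h2, inv_one, one_mul]

theorem ucore_coefIn (e : E) {z : Fr n →₀ MN h.o} (hz : CoefIn h.o h.N z) :
    CoefIn h.o h.N (chainMap h.o (X.ρ e) (h.pres e) z) := by
  intro a
  obtain ⟨b, rfl⟩ := (X.ρ e).surjective a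
  have : chainMap h.o (X.ρ e) (h.pres e) z (X.ρ e b) = MN.map (X.ρ e) (h.pres e) (z b) := by
    unfold chainMap
    rw [AddMonoidHom.comp_apply, Finsupp.mapDomain.addMonoidHom_apply,
      Finsupp.mapDomain_apply (X.ρ e).injective]
    rfl
  rw [this]
  exact h.map_mem_DN e (hz b)

theorem ucore_map_j (g : Fr n) (x : MN h.o) :
    MN.map (X.ρ (X.j g)) (h.pres _) x = MN.of h.o g * x * MN.of h.o g⁻¹ := by
  have key : ∀ (Φ : MulAut (Fr n)) (hΦ : h.o.Pres Φ), Φ = MulAut.conj g →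
      MN.map Φ hΦ x = MN.of h.o g * x * MN.of h.o g⁻¹ := by
    rintro _ hΦ rfl
    exact MN.map_conj g hΦ x
  exact key _ _ (X.ρ_j g)

theorem ucore_map_mul (e e' : E) (x : MN h.o) :
    MN.map (X.ρ (e * e')) (h.pres _) x =
      MN.map (X.ρ e) (h.pres _) (MN.map (X.ρ e') (h.pres _) x) := by
  have := map_mul (MN.mapHom X.ρ h.pres) e e'
  exact congrArg (fun f : RingAut (MN h.o) => f x) this

theorem ucore_conj_mem (g : Fr n) {d : MN h.o} (hd : d ∈ MN.sub h.o h.N) :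
    MN.of h.o g * d * MN.of h.o g⁻¹ ∈ MN.sub h.o h.N := by
  rw [← h.ucore_map_j]
  exact h.map_mem_DN _ hd

theorem ucore_of_inv (g : Fr n) : MN.of h.o g⁻¹ * MN.of h.o g = 1 := by
  rw [← map_mul, inv_mul_cancel, map_one]

theorem ucore_of_inv' (g : Fr n) : MN.of h.o g * MN.of h.o g⁻¹ = 1 := by
  rw [← map_mul, mul_inv_cancel, map_one]

/-- The classes of the cycles of `S` with coefficients in `DN` form a subspace `P` over `DN`, and `f`
from `exists_alm_fun` induces a functional on it (`mem_rel_of_coefIn` from `⊤` to `N`, then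
`IndAll`); extend it to `V` (`LinearMap.exists_extend`). All heights lie in a finite set
(`vals_finite`). Let `q` be the largest element of this set such that the functional is not zero on
`P ⊓ Ge q`; it vanishes on `P ⊓ Gt q` (`vals_nonempty`). -/
theorem exists_factor (hon : h.lam.ker.map X.π = ⊤) {S : Subgroup (Fr n)} (hS : S ≤ h.N)
    (hs : X.Strip h.lam.ker h.N S) (hi : IndAll h.N S) {Ω : Set (Fr n)} (hΩ : AlmInv S Ω) :
    ∃ (P : Submodule h.DN h.V) (f : h.V →ₗ[h.DN] h.DN) (s : Fr n),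
      (∀ e : E, X.ρ e • S = S → EqInv (X.ρ e) Ω → ∀ v ∈ P, h.act e v ∈ P ∧
        (f (h.act e v) : MN h.o) = MN.map (X.ρ e) (h.pres e) (f v)) ∧
      (∀ v ∈ P, h.Gt (h.lam (X.j s)) v → f v = 0) ∧
      ∃ v ∈ P, h.Ge (h.lam (X.j s)) v ∧ f v ≠ 0 := by
  obtain ⟨f₀, hr, hsub, ⟨z₀, hz₀, hc₀, hn₀⟩, heq⟩ := exists_alm_fun h.o hΩ
  have hSN : ∀ {x : MN h.o}, x ∈ MN.sub h.o S → x ∈ MN.sub h.o h.N := fun hx g hg => hS (hx hg)
  let Z : Submodule h.DN (Fr n →₀ MN h.o) :=
    { carrier := {z | z ∈ ZZ (MN.of h.o) S ∧ CoefIn h.o h.N z}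
      add_mem' := fun {a b} ha hb => ⟨add_mem ha.1 hb.1, fun g => add_mem (ha.2 g) (hb.2 g)⟩
      zero_mem' := ⟨zero_mem _, fun g => zero_mem _⟩
      smul_mem' := fun d z hz => ⟨(ZZ (MN.of h.o) S).smul_mem (d : MN h.o) hz.1,
        fun g => mul_mem d.2 (hz.2 g)⟩ }
  have htop : ∀ z : Z, (z : Fr n →₀ MN h.o) ∈ ZZ (MN.of h.o) ⊤ := fun z =>
    zz_mono (MN.of h.o) le_top z.2.1
  let c : Z →ₗ[h.DN] h.V :=
    { toFun := fun z => h.cls z (htop z)
      map_add' := fun a b => Subtype.ext (map_add (Rel (MN.of h.o) ⊤).mkQ a.1 b.1)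
      map_smul' := fun d a => Subtype.ext (map_smul (Rel (MN.of h.o) ⊤).mkQ (d : MN h.o) a.1) }
  have hmem : ∀ z : Z, f₀ z ∈ MN.sub h.o h.N := by
    intro z
    rw [← Finsupp.sum_single (z : Fr n →₀ MN h.o), Finsupp.sum, map_sum]
    refine sum_mem fun a _ => ?_
    rw [← Finsupp.smul_single_one, map_smul, smul_eq_mul]
    exact mul_mem (z.2.2 a) (hSN (hsub a))
  let g : Z →ₗ[h.DN] h.DN :=
    { toFun := fun z => ⟨f₀ z, hmem z⟩
      map_add' := fun a b => Subtype.ext (map_add f₀ a.1 b.1)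
      map_smul' := fun d a => Subtype.ext (map_smul f₀ (d : MN h.o) a.1) }
  have hcg : ∀ z, c z = 0 → g z = 0 := by
    intro z hz
    have h1 : (z : Fr n →₀ MN h.o) ∈ Rel (MN.of h.o) ⊤ :=
      (Submodule.Quotient.mk_eq_zero _).1 (congrArg Subtype.val hz)
    have h2 := mem_rel_of_coefIn h.o le_top z.2.2 (zz_mono (MN.of h.o) hS z.2.1).1 h1
    have h3 := hi (MN h.o) (MN.of h.o) (fun _ => (z : Fr n →₀ MN h.o)) (fun _ => z.2.1)
      (by simpa using h2) ()
    exact Subtype.ext (hr _ h3)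
  obtain ⟨f, hf⟩ := ucore_extend c g hcg
  have hfi : (h.lam.ker.map X.π).FiniteIndex := by
    rw [hon]
    infer_instance
  obtain ⟨Val, hVal, hV⟩ := h.vals_finite hfi hS hs
  have hPV : ∀ v ∈ LinearMap.range c, h.vals v ⊆ Val := by
    rintro _ ⟨z, rfl⟩
    exact hV z (htop z) z.2.1 z.2.2
  have hA : ∀ v ∈ LinearMap.range c, f v ≠ 0 → ∃ q ∈ h.vals v, h.Ge q v := by
    intro v hv hfv
    obtain ⟨q, hq, hq', _⟩ := h.exists_val (v := v) (fun h0 => hfv (by rw [h0, map_zero]))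
      (hVal.subset (hPV v hv))
    exact ⟨q, hq, hq'⟩
  obtain ⟨q, ⟨v, hv, hqv, hge, hfv⟩, hmax⟩ := ucore_max h.oQ
    (A := {q | ∃ v ∈ LinearMap.range c, q ∈ h.vals v ∧ h.Ge q v ∧ f v ≠ 0})
    (hVal.subset fun q ⟨v, hv, hq, _⟩ => hPV v hv hq) (by
      let z : Z := ⟨z₀, hz₀, fun a => hSN (hc₀ a)⟩
      have h1 : f (c z) ≠ 0 := by
        rw [hf]
        exact fun h0 => hn₀ (congrArg Subtype.val h0)
      obtain ⟨q, hq, hq'⟩ := hA _ ⟨z, rfl⟩ h1
      exact ⟨q, _, ⟨z, rfl⟩, hq, hq', h1⟩)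
  obtain ⟨s, rfl⟩ : ∃ s, q = h.lam (X.j s) := by
    obtain ⟨a, i, g, _, rfl⟩ := hqv
    exact h.ucore_lam hon _
  refine ⟨LinearMap.range c, f, s, ?_, ?_, v, hv, hge, hfv⟩
  · rintro e he hE _ ⟨z, rfl⟩
    have h1 : chainMap h.o (X.ρ e) (h.pres e) z ∈ ZZ (MN.of h.o) S := by
      have := chainMap_mem_zz h.o (X.ρ e) (h.pres e) z.2.1
      rwa [he] at this
    let z' : Z := ⟨_, h1, h.ucore_coefIn e z.2.2⟩
    have h2 : h.act e (c z) = c z' := h.act_cls e (htop z) (htop z')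
    rw [h2, hf, hf]
    exact ⟨⟨z', rfl⟩, heq _ _ he hE _ z.2.1⟩
  · intro w hw hgt
    by_contra hfw
    obtain ⟨q', hq', hge'⟩ := hA w hw hfw
    exact hmax q' ⟨w, hw, hq', hge', hfw⟩ (hgt q' hq')

theorem ucore_shift (hon : h.lam.ker.map X.π = ⊤) {S : Subgroup (Fr n)} (hS : S ≤ h.N)
    (hs : X.Strip h.lam.ker h.N S) (hi : IndAll h.N S) {Ω : Set (Fr n)} (hΩ : AlmInv S Ω) :
    ∃ (P : Submodule h.DN h.V) (f : h.V →ₗ[h.DN] h.DN) (s : Fr n),
      (∀ e : E, X.ρ e • S = S → EqInv (X.ρ e) Ω → ∀ v ∈ P,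
        h.act (X.j s⁻¹ * e * X.j s) v ∈ P ∧ (f (h.act (X.j s⁻¹ * e * X.j s) v) : MN h.o) =
          MN.map (X.ρ (X.j s⁻¹ * e * X.j s)) (h.pres _) (f v)) ∧
      (∀ v ∈ P, h.Gt 1 v → f v = 0) ∧ ∃ v ∈ P, h.Ge 1 v ∧ f v ≠ 0 := by
  obtain ⟨P, f, s, h1, h2, w, hw, hge, hfw⟩ := h.exists_factor hon hS hs hi hΩ
  obtain ⟨B, f', hB, hf'⟩ := ucore_conj (MN.sub h.o h.N) (h.ucore_of_inv s)
    (fun d hd => h.ucore_conj_mem s hd)
    (fun d hd => by simpa only [inv_inv] using h.ucore_conj_mem s⁻¹ hd) P f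
  refine ⟨B, f', s, fun e he hE v hv => ?_, fun v hv hgt => ?_, MN.of h.o s⁻¹ • w, ?_, ?_, ?_⟩
  · have e1 : MN.of h.o s • h.act (X.j s⁻¹ * e * X.j s) v = h.act e (MN.of h.o s • v) := by
      rw [← h.act_j, ← h.act_j, ← h.act_mul, ← h.act_mul, map_inv, ← mul_assoc,
        mul_inv_cancel_left]
    obtain ⟨h3, h4⟩ := h1 e he hE _ ((hB v).1 hv)
    refine ⟨?_, ?_⟩
    · rw [hB, e1]
      exact h3
    · rw [hf', hf', e1, h4, h.ucore_map_mul, h.ucore_map_mul, h.ucore_map_j, h.ucore_map_j,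
        inv_inv]
      congr 3
      simp only [← mul_assoc]
      rw [h.ucore_of_inv', one_mul, mul_assoc, h.ucore_of_inv', mul_one]
  · have h3 : f (MN.of h.o s • v) = 0 := by
      refine h2 _ ((hB v).1 hv) ?_
      intro x hx
      rw [← h.act_j, h.vals_act] at hx
      obtain ⟨y, hy, rfl⟩ := hx
      have := (h.oQ.lt_mul_left (h.lam (X.j s))).2 (hgt y hy)
      rwa [mul_one] at this
    refine Subtype.ext ?_
    rw [hf', h3]
    simp
  · rw [hB, smul_smul, h.ucore_of_inv', one_smul]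
    exact hw
  · intro x hx
    rw [← h.act_j, h.vals_act] at hx
    obtain ⟨y, hy, rfl⟩ := hx
    rcases hge y hy with rfl | h3
    · left
      simp
    · right
      have := (h.oQ.lt_mul_left (h.lam (X.j s⁻¹))).2 h3
      rwa [← map_mul, ← map_mul, inv_mul_cancel, map_one, map_one] at this
  · intro h0
    have h3 := congrArg Subtype.val h0
    rw [hf', smul_smul, h.ucore_of_inv', one_smul] at h3
    have h4 : (f w : MN h.o) = MN.of h.o s * (MN.of h.o s⁻¹ * f w * MN.of h.o s) *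
        MN.of h.o s⁻¹ := by
      simp only [← mul_assoc]
      rw [h.ucore_of_inv', one_mul, mul_assoc, h.ucore_of_inv', mul_one]
    apply hfw
    refine Subtype.ext ?_
    rw [h4, h3]
    simp

/-- For each `i` take `P, f, s` from `exists_factor` and shift: `B i = of s⁻¹ • P`,
`f' v = of s⁻¹ * f (of s • v) * of s`, `σ' i = (j s)⁻¹ * σ i * j s`, which has values in `ker lam` and
satisfies `f' (act (σ' i x) v) = map (ρ (σ' i x)) (f' v)`; now the heights are `Ge 1`, `Gt 1`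
(`act_j`, `vals_act`). Fix a base index `b`, write `σ' i x = j (a i x) * σ' b x` with `a i x ∈ N`, and
apply `jh` over `DN` with `T x = act (σ' b x)`, `c x i = of (a i x)⁻¹`, `P = Gt 1`, `Q = Ge 1`
(`exists_sub`); the hypothesis `hne` follows from `min_twist` as in `fix_ind`. Finish with `ind1`. -/
theorem nice_core (hon : h.lam.ker.map X.π = ⊤) {Γ κ : Type} [Group Γ] [Fintype κ]
    (σ : κ → Γ →* E) (hπ : ∀ i k x, X.π (σ i x) = X.π (σ k x)) (hk : ∀ i x, σ i x ∈ h.lam.ker)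
    (S : κ → Subgroup (Fr n)) (Ω : κ → Set (Fr n)) (hS : ∀ i, S i ≤ h.N)
    (hs : ∀ i, X.Strip h.lam.ker h.N (S i)) (hi : ∀ i, IndAll h.N (S i))
    (hΩ : ∀ i, AlmInv (S i) (Ω i))
    (hinv : ∀ i x, X.ρ (σ i x) • S i = S i ∧ EqInv (X.ρ (σ i x)) (Ω i))
    (hne : ∀ i k, X.CjS (σ i) (σ k) → i = k) : Fintype.card κ ≤ n - 1 := by
  rcases isEmpty_or_nonempty κ with hκ | ⟨⟨b⟩⟩
  · simp
  choose B f s h1 h2 h3 using fun i => h.ucore_shift hon (hS i) (hs i) (hi i) (hΩ i)
  let τ : κ → Γ → E := fun i x => X.j (s i)⁻¹ * σ i x * X.j (s i)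
  have hτ : ∀ i x, h.lam (τ i x) = 1 := by
    intro i x
    have : h.lam (σ i x) = 1 := hk i x
    simp [τ, this]
  have hex : ∀ i x, ∃ a : Fr n, X.j a = τ b x * (τ i x)⁻¹ := by
    intro i x
    have : τ b x * (τ i x)⁻¹ ∈ X.π.ker := by
      rw [MonoidHom.mem_ker]
      simp only [τ, map_mul, map_inv, ucore_pi_j, hπ i b x]
      group
    rw [X.ker] at this
    exact this
  choose a ha using hex
  have haN : ∀ i x, a i x ∈ h.N := by
    intro i x
    rw [h.mem_N, ha, map_mul, map_inv, hτ, hτ, inv_one, mul_one]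
  have ha' : ∀ i x, τ b x = X.j (a i x) * τ i x := by
    intro i x
    rw [ha, inv_mul_cancel_right]
  let c : Γ → κ → h.DN := fun x i => ⟨MN.of h.o (a i x), MN.of_mem_sub (haN i x)⟩
  let θ : Γ → h.DN → h.DN := fun x d => ⟨_, h.map_mem_DN (τ b x) d.2⟩
  have hθ : ∀ x d, (θ x d : MN h.o) = MN.map (X.ρ (τ b x)) (h.pres _) d := fun x d => rfl
  have hact : ∀ x i v, h.act (τ b x) v = c x i • h.act (τ i x) v := by
    intro x i v
    rw [ha' i x, h.act_mul, h.act_j]
    rfl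
  obtain ⟨P, hP⟩ := h.exists_sub fun x => h.oQ.lt 1 x
  obtain ⟨R, hR⟩ := h.exists_sub fun x => x = 1 ∨ h.oQ.lt 1 x
  have hvals : ∀ x v, h.vals (h.act (τ b x) v) = h.vals v := by
    intro x v
    rw [h.vals_act, hτ]
    simp
  obtain ⟨v, hv, hind⟩ := jh (K := h.DN) (V := h.V) (fun x => h.act (τ b x)) θ
    (fun x => Subtype.ext (map_zero _)) (fun x => Subtype.ext (map_one _)) B f c
    (fun x i v hv => by
      change h.act (τ b x) v ∈ B i
      rw [hact x i]
      exact (B i).smul_mem _ (h1 i _ (hinv i x).1 (hinv i x).2 v hv).1)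
    (fun x i v hv => by
      change f i (h.act (τ b x) v) = _
      refine Subtype.ext ?_
      rw [hact x i, map_smul, smul_eq_mul, Subfield.coe_mul, Subfield.coe_mul, hθ, ha' i x,
        h.ucore_map_mul, h.ucore_map_j, mul_assoc, h.ucore_of_inv, mul_one]
      exact congrArg _ (h1 i _ (hinv i x).1 (hinv i x).2 v hv).2)
    (fun i k d hd hrel => by
      obtain ⟨m, _, hm⟩ := min_twist (o := h.o) (d := (d : MN h.o))
        (fun h0 => hd (Subtype.ext h0))
      refine hne i k ⟨s k * m * (s i)⁻¹, fun x => ?_⟩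
      have e1 := hm (X.ρ (τ b x)) (h.pres _) (a i x) (a k x) (congrArg Subtype.val (hrel x))
      have e2 := congrArg X.j e1
      rw [map_mul X.j, map_mul X.j, ← X.conj_j, ha, ha] at e2
      have e3 : τ k x * X.j m = X.j m * τ i x := by
        calc τ k x * X.j m = τ k x * (τ b x)⁻¹ *
              (τ b x * X.j m * (τ b x)⁻¹ * (τ b x * (τ i x)⁻¹)) * τ i x := by group
          _ = X.j m * τ i x := by rw [e2]; group
      have e4 : σ k x = X.j (s k) * (τ k x * X.j m) * (X.j m)⁻¹ * (X.j (s k))⁻¹ := by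
        simp only [τ, map_inv]
        group
      rw [e4, e3]
      simp only [τ, map_inv, map_mul]
      group)
    (P := P) (Q := R) (fun v hv => (hR v).2 fun x hx => Or.inr ((hP v).1 hv x hx))
    (fun x v hv => by
      change h.act (τ b x) v ∈ P
      rw [hP, hvals]
      exact (hP v).1 hv)
    (fun x v hv => by
      change h.act (τ b x) v ∈ R
      rw [hR, hvals]
      exact (hR v).1 hv)
    (fun i v hv hv' => h2 i v hv ((hP v).1 hv'))
    (fun i => by
      obtain ⟨v, hv, hge, hf⟩ := h3 i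
      exact ⟨v, hv, (hR v).2 hge, hf⟩)
  exact h.ind1 v 1 (fun i => (hR _).1 (hv i)) fun d hd => hind d ((hP _).2 hd)

end Ext.Ht

end Pool.Agent.Lib.MP_9ac97d_al
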