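import Pool.Agent.Lib.MP_9ac97d_al.UBasic

/-!
# Characteristic quotients of prime power type (task UPad)
-/

set_option autoImplicit false

noncomputable section

open Pointwise

namespace Pool.Agent.Lib.MP_9ac97d_al

section UPadGrp

/-- The lower exponent `p` central series. -/
def upad_P (p : ℕ) (G : Type) [Group G] : ℕ → Subgroup G
  | 0 => ⊤
  | k + 1 => Subgroup.closure
      {x | ∃ a ∈ upad_P p G k, x = a ^ p ∨ ∃ g, x = a * g * a⁻¹ * g⁻¹}

variable {p : ℕ} {G : Type} [Group G]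

theorem upad_pow {k : ℕ} {a : G} (ha : a ∈ upad_P p G k) : a ^ p ∈ upad_P p G (k + 1) :=
  Subgroup.subset_closure ⟨a, ha, Or.inl rfl⟩

theorem upad_comm {k : ℕ} {a : G} (ha : a ∈ upad_P p G k) (g : G) :
    a * g * a⁻¹ * g⁻¹ ∈ upad_P p G (k + 1) :=
  Subgroup.subset_closure ⟨a, ha, Or.inr ⟨g, rfl⟩⟩

theorem upad_le {k : ℕ} {K : Subgroup G} (h1 : ∀ a ∈ upad_P p G k, a ^ p ∈ K)
    (h2 : ∀ a ∈ upad_P p G k, ∀ g, a * g * a⁻¹ * g⁻¹ ∈ K) : upad_P p G (k + 1) ≤ K := by
  refine (Subgroup.closure_le K).2 ?_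
  rintro x ⟨a, ha, rfl | ⟨g, rfl⟩⟩
  · exact h1 a ha
  · exact h2 a ha g

theorem upad_inv (Φ : G →* G) (k : ℕ) : upad_P p G k ≤ (upad_P p G k).comap Φ := by
  induction k with
  | zero => exact fun g _ => Subgroup.mem_top _
  | succ k ih =>
    refine upad_le (fun a ha => ?_) fun a ha g => ?_
    · rw [Subgroup.mem_comap, map_pow]
      exact upad_pow (ih ha)
    · rw [Subgroup.mem_comap, map_mul, map_mul, map_mul, map_inv, map_inv]
      exact upad_comm (ih ha) _

theorem upad_normal (k : ℕ) : (upad_P p G k).Normal :=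
  ⟨fun _ ha g => upad_inv (MulAut.conj g).toMonoidHom k ha⟩

theorem upad_succ_le (k : ℕ) : upad_P p G (k + 1) ≤ upad_P p G k := by
  refine upad_le (fun a ha => pow_mem ha p) fun a ha g => ?_
  have e : a * g * a⁻¹ * g⁻¹ = a * (g * a⁻¹ * g⁻¹) := by group
  rw [e]
  exact mul_mem ha ((upad_normal k).conj_mem _ (inv_mem ha) g)

theorem upad_anti : Antitone (upad_P p G) := antitone_nat_of_succ_le upad_succ_le

/-- An automorphism that is trivial modulo one term has a power that is trivial modulo the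
next term. -/
theorem upad_step {k : ℕ} {Ψ : MulAut G} (h : ∀ g, Ψ g * g⁻¹ ∈ upad_P p G (k + 1)) (g : G) :
    (Ψ ^ p) g * g⁻¹ ∈ upad_P p G (k + 2) := by
  have := upad_normal (p := p) (G := G) (k + 2)
  let π : G →* G ⧸ upad_P p G (k + 2) := QuotientGroup.mk' _
  have hπ : ∀ x, π x = 1 ↔ x ∈ upad_P p G (k + 2) := fun x => QuotientGroup.eq_one_iff x
  have hc : ∀ y ∈ upad_P p G (k + 1), ∀ x, π y * π x = π x * π y := by
    intro y hy x
    have h1 := (hπ _).2 (upad_comm hy x)
    rw [map_mul, map_mul, map_mul, map_inv, map_inv, mul_inv_eq_one, mul_inv_eq_iff_eq_mul] at h1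
    exact h1
  let a : G →* G ⧸ upad_P p G (k + 2) := MonoidHom.mk' (fun x => π (Ψ x * x⁻¹)) (by
    intro x y
    have e : Ψ (x * y) * (x * y)⁻¹ = Ψ x * ((Ψ y * y⁻¹) * x⁻¹) := by
      rw [map_mul]
      group
    rw [e, map_mul, map_mul π (Ψ y * y⁻¹), hc _ (h y), ← mul_assoc, ← map_mul])
  have ha : ∀ x, a x = π (Ψ x * x⁻¹) := fun _ => rfl
  have hap : ∀ x, a x ^ p = 1 := fun x => by
    rw [ha, ← map_pow]
    exact (hπ _).2 (upad_pow (h x))
  have hk : upad_P p G (0 + 1) ≤ a.ker := by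
    refine upad_le (fun x _ => ?_) fun x _ y => ?_
    · rw [MonoidHom.mem_ker, map_pow, hap]
    · rw [MonoidHom.mem_ker, map_mul, map_mul, map_mul, map_inv, map_inv, ha x, ha y,
        hc _ (h x)]
      group
  have h1 : ∀ x, a (Ψ x) = a x := fun x => by
    have h2 : a (Ψ x * x⁻¹) = 1 := hk (upad_anti (by omega) (h x))
    rwa [map_mul, map_inv, mul_inv_eq_one] at h2
  have h3 : ∀ (j : ℕ) x, π ((Ψ ^ j) x) = a x ^ j * π x := by
    intro j
    induction j with
    | zero => simp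
    | succ j ih =>
      intro x
      rw [pow_succ, MulAut.mul_apply, ih, h1, pow_succ, mul_assoc, ha x, ← map_mul,
        inv_mul_cancel_right]
  rw [← hπ, map_mul, h3, hap, one_mul, map_inv, mul_inv_cancel]

theorem upad_iter {Φ : MulAut G} (h : ∀ g, Φ g * g⁻¹ ∈ upad_P p G (0 + 1)) (t : ℕ) :
    ∀ g, (Φ ^ p ^ t) g * g⁻¹ ∈ upad_P p G (t + 1) := by
  induction t with
  | zero => simpa using h
  | succ t ih =>
    intro g
    rw [pow_succ, pow_mul]
    exact upad_step ih g

theorem upad_binom {A : Type} [Ring A] (x : A) (m : ℕ) :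
    ∃ r, (1 + x) ^ m = 1 + (m : A) * x + x * x * r := by
  induction m with
  | zero => exact ⟨0, by simp⟩
  | succ m ih =>
    obtain ⟨r, hr⟩ := ih
    refine ⟨(m : A) + r + r * x, ?_⟩
    have hm : (m : A) * x = x * m := (Nat.cast_commute m x).eq
    have e : (m : A) * x * x = x * x * m := by
      rw [hm, mul_assoc, hm, mul_assoc]
    rw [pow_succ, hr, Nat.cast_succ, mul_add (x * x), mul_add (x * x), ← e]
    noncomm_ring

theorem upad_mul_mem {R : Type} [CommRing R] {I J : Ideal R} {A B : Matrix (Fin 2) (Fin 2) R}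
    (hA : ∀ i j, A i j ∈ I) (hB : ∀ i j, B i j ∈ J) (i j : Fin 2) : (A * B) i j ∈ I * J := by
  rw [Matrix.mul_apply]
  exact Ideal.sum_mem _ fun m _ => Ideal.mul_mem_mul (hA i m) (hB m j)

theorem upad_mul_right {R : Type} [CommRing R] {I : Ideal R} {A : Matrix (Fin 2) (Fin 2) R}
    (hA : ∀ i j, A i j ∈ I) (B : Matrix (Fin 2) (Fin 2) R) (i j : Fin 2) : (A * B) i j ∈ I := by
  have h := upad_mul_mem (J := ⊤) (B := B) hA (fun _ _ => Submodule.mem_top) i j
  rwa [Ideal.mul_top] at h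

/-- The congruence subgroup of a representation. -/
def upad_S {R : Type} [CommRing R] (ρ : G →* Matrix (Fin 2) (Fin 2) R) (I : Ideal R) :
    Subgroup G where
  carrier := {g | ∀ i j, (ρ g - 1) i j ∈ I}
  mul_mem' := fun {a b} ha hb i j => by
    have e : ρ (a * b) - 1 = (ρ a - 1) * ρ b + (ρ b - 1) := by
      rw [map_mul]
      noncomm_ring
    rw [e, Matrix.add_apply]
    exact add_mem (upad_mul_right ha _ i j) (hb i j)
  one_mem' := fun i j => by simp
  inv_mem' := fun {a} ha i j => by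
    have e : ρ a⁻¹ - 1 = -((ρ a - 1) * ρ a⁻¹) := by
      rw [sub_mul, ← map_mul, mul_inv_cancel, map_one]
      noncomm_ring
    rw [e, Matrix.neg_apply]
    exact neg_mem (upad_mul_right ha _ i j)

theorem upad_cong {R : Type} [CommRing R] (ρ : G →* Matrix (Fin 2) (Fin 2) R) {J : Ideal R}
    (hp : (p : R) ∈ J) (h : ∀ g, g ∈ upad_S ρ J) (k : ℕ) :
    upad_P p G k ≤ upad_S ρ (J ^ (k + 1)) := by
  induction k with
  | zero =>
    intro g _
    rw [zero_add, pow_one]
    exact h g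
  | succ k ih =>
    refine upad_le (fun a ha i j => ?_) fun a ha g i j => ?_
    · obtain ⟨r, hr⟩ := upad_binom (ρ a - 1) p
      rw [add_sub_cancel] at hr
      rw [map_pow, hr, add_assoc (1 : Matrix (Fin 2) (Fin 2) R), add_sub_cancel_left, Matrix.add_apply, ← nsmul_eq_mul,
        Matrix.smul_apply, nsmul_eq_mul]
      refine add_mem ?_ (upad_mul_right (fun i j => ?_) r i j)
      · rw [pow_succ']
        exact Ideal.mul_mem_mul hp (ih ha i j)
      · rw [pow_succ]
        exact upad_mul_mem (ih ha) (h a) i j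
    · have h1 : ρ (g * a) * ρ (a⁻¹ * g⁻¹) = 1 := by
        rw [← map_mul]
        simp
      have e : ρ (a * g * a⁻¹ * g⁻¹) - 1 =
          ((ρ a - 1) * (ρ g - 1) - (ρ g - 1) * (ρ a - 1)) * ρ (a⁻¹ * g⁻¹) := by
        rw [mul_assoc (a * g), map_mul ρ (a * g), map_mul ρ a g]
        nth_rewrite 1 [← h1]
        rw [map_mul ρ g a]
        noncomm_ring
      rw [e]
      refine upad_mul_right (fun i j => ?_) _ i j
      rw [Matrix.sub_apply]
      refine sub_mem ?_ ?_
      · rw [pow_succ]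
        exact upad_mul_mem (ih ha) (h g) i j
      · rw [pow_succ']
        exact upad_mul_mem (h g) (ih ha) i j

end UPadGrp

section UPadFree

open LaurentPolynomial

variable {n p : ℕ}

theorem upad_base_aux {M : Type} [CommGroup M] (π : Fr n →* M) (hM : ∀ g, π g ^ p = 1)
    {Φ : MulAut (Fr n)} (h : ∀ i j, (p : ℤ) ∣ (mat Φ - 1) i j) (g : Fr n) : π (Φ g) = π g := by
  have h1 : π.comp (Φ⁻¹ : MulAut (Fr n)).toMonoidHom = π := by
    refine FreeGroup.ext_hom _ _ fun i => ?_
    have h2 := tfilt_expand (fun g => Additive.ofMul (π g)) (fun g h => by simp)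
      (Φ⁻¹ (FreeGroup.of i))
    have h3 := tfilt_expand (fun g => Additive.ofMul (π g)) (fun g h => by simp)
      (FreeGroup.of i)
    have h4 : Additive.ofMul (π (Φ⁻¹ (FreeGroup.of i))) = Additive.ofMul (π (FreeGroup.of i)) := by
      rw [h2, h3]
      refine Finset.sum_congr rfl fun j _ => ?_
      obtain ⟨c, hc⟩ := h i j
      have h5 : (expo j (Φ⁻¹ (FreeGroup.of i))).toAdd =
          (expo j (FreeGroup.of i)).toAdd + c * p := by
        rw [tfilt_expo_of, ← Matrix.one_apply, mul_comm, ← hc, Matrix.sub_apply, add_sub_cancel]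
        rfl
      have h6 : (p : ℤ) • Additive.ofMul (π (FreeGroup.of j)) = 0 := by
        rw [natCast_zsmul, ← ofMul_pow, hM, ofMul_one]
      rw [h5, add_smul, mul_smul, h6, smul_zero, add_zero]
    exact Additive.ofMul.injective h4
  have h7 := DFunLike.congr_fun h1 (Φ g)
  simpa using h7.symm

theorem upad_base {Φ : MulAut (Fr n)} (h : ∀ i j, (p : ℤ) ∣ (mat Φ - 1) i j) (g : Fr n) :
    Φ g * g⁻¹ ∈ upad_P p (Fr n) (0 + 1) := by
  have := upad_normal (p := p) (G := Fr n) (0 + 1)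
  let π : Fr n →* Fr n ⧸ upad_P p (Fr n) (0 + 1) := QuotientGroup.mk' _
  have hπ : ∀ x, π x = 1 ↔ x ∈ upad_P p (Fr n) (0 + 1) := fun x => QuotientGroup.eq_one_iff x
  have hc : ∀ a b : Fr n ⧸ upad_P p (Fr n) (0 + 1), a * b = b * a := by
    intro a b
    obtain ⟨x, rfl⟩ := QuotientGroup.mk'_surjective _ a
    obtain ⟨y, rfl⟩ := QuotientGroup.mk'_surjective _ b
    have h1 := (hπ _).2 (upad_comm (k := 0) (a := x) (Subgroup.mem_top x) y)
    rw [map_mul, map_mul, map_mul, map_inv, map_inv, mul_inv_eq_one, mul_inv_eq_iff_eq_mul] at h1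
    exact h1
  have hM : ∀ x, π x ^ p = 1 := fun x => by
    rw [← map_pow]
    exact (hπ _).2 (upad_pow (k := 0) (Subgroup.mem_top x))
  have h2 : π (Φ g) = π g :=
    @upad_base_aux n p _ { (inferInstance : Group (Fr n ⧸ upad_P p (Fr n) (0 + 1))) with
      mul_comm := hc } π hM Φ h g
  rw [← hπ, map_mul, map_inv, h2, mul_inv_cancel]

/-- The point of a letter, as an integer. -/
def upad_t (l : Fin n × Bool) : ℤ := 2 * (l.1 : ℕ) + if l.2 then 1 else 0

theorem upad_t_cast (l : Fin n × Bool) : (upad_t l : ℚ) = TTrace_t l := by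
  obtain ⟨i, b⟩ := l
  cases b <;> simp [upad_t, TTrace_t]

/-- The projector of a letter, as an integer matrix. -/
def upad_Z (l : Fin n × Bool) : Matrix (Fin 2) (Fin 2) ℤ :=
  (upad_t l - upad_t (TTrace_i l)) •
    !![-upad_t (TTrace_i l), 1; -(upad_t l * upad_t (TTrace_i l)), upad_t l]

theorem upad_Z_map (l : Fin n × Bool) :
    (Int.castRingHom ℚ).mapMatrix (upad_Z l) = TTrace_P l := by
  have h : (TTrace_t l - TTrace_t (TTrace_i l))⁻¹ = TTrace_t l - TTrace_t (TTrace_i l) := by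
    obtain ⟨i, b⟩ := l
    cases b <;> simp [TTrace_t, TTrace_i]
  rw [TTrace_P, h]
  ext i j
  fin_cases i <;> fin_cases j <;> simp [upad_Z, TTrace_Q, upad_t_cast]

theorem upad_Z_inj : Function.Injective
    ((Int.castRingHom ℚ).mapMatrix : Matrix (Fin 2) (Fin 2) ℤ → Matrix (Fin 2) (Fin 2) ℚ) :=
  Matrix.map_injective (Int.cast_injective (α := ℚ))

theorem upad_Z_add (l : Fin n × Bool) : upad_Z l + upad_Z (TTrace_i l) = 1 :=
  upad_Z_inj (by rw [map_add, upad_Z_map, upad_Z_map, TTrace_P_add, map_one])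

theorem upad_Z_idem (l : Fin n × Bool) : upad_Z l * upad_Z l = upad_Z l :=
  upad_Z_inj (by rw [map_mul, upad_Z_map, TTrace_P_idem])

theorem upad_Z_orth (l : Fin n × Bool) : upad_Z l * upad_Z (TTrace_i l) = 0 :=
  upad_Z_inj (by rw [map_mul, upad_Z_map, upad_Z_map, TTrace_P_orth, map_zero])

/-- Constant matrices. -/
def upad_c : Matrix (Fin 2) (Fin 2) ℤ →+* Matrix (Fin 2) (Fin 2) (LaurentPolynomial ℤ) :=
  (C : ℤ →+* LaurentPolynomial ℤ).mapMatrix

/-- The matrix of a letter. -/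
def upad_M (l : Fin n × Bool) : Matrix (Fin 2) (Fin 2) (LaurentPolynomial ℤ) :=
  (T 1 : LaurentPolynomial ℤ) • upad_c (upad_Z l) +
    (T (-1) : LaurentPolynomial ℤ) • upad_c (upad_Z (TTrace_i l))

theorem upad_TT : (T 1 : LaurentPolynomial ℤ) * T (-1) = 1 := by
  rw [← T_add]
  simp

theorem upad_M_mul (l : Fin n × Bool) : upad_M l * upad_M (TTrace_i l) = 1 := by
  have h1 := upad_Z_orth (TTrace_i l)
  rw [TTrace_ii] at h1
  simp only [upad_M, TTrace_ii, add_mul, mul_add, Matrix.smul_mul, Matrix.mul_smul, smul_smul,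
    ← map_mul upad_c, upad_Z_orth, upad_Z_idem, h1, map_zero, smul_zero, zero_add, add_zero]
  rw [upad_TT, mul_comm, upad_TT, one_smul, one_smul, ← map_add, add_comm, upad_Z_add, map_one]

/-- The generators of the integral representation. -/
def upad_u (i : Fin n) : (Matrix (Fin 2) (Fin 2) (LaurentPolynomial ℤ))ˣ :=
  ⟨upad_M (i, true), upad_M (i, false), upad_M_mul (i, true), upad_M_mul (i, false)⟩

/-- The integral representation. -/
def upad_rho (n : ℕ) : Fr n →* Matrix (Fin 2) (Fin 2) (LaurentPolynomial ℤ) :=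
  (Units.coeHom _).comp (FreeGroup.lift upad_u)

theorem upad_rho_of (i : Fin n) : upad_rho n (FreeGroup.of i) = upad_M (i, true) := by
  simp [upad_rho, upad_u]

/-- Change of coefficients. -/
def upad_phi : LaurentPolynomial ℤ →+* LaurentPolynomial ℚ :=
  eval₂ ((C : ℚ →+* LaurentPolynomial ℚ).comp (Int.castRingHom ℚ))
    ⟨T 1, T (-1), TTrace_TT, by rw [mul_comm, TTrace_TT]⟩

theorem upad_phi_M (l : Fin n × Bool) : upad_phi.mapMatrix (upad_M l) = TTrace_M l := by
  have h1 : upad_phi (T 1) = T 1 := by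
    rw [upad_phi, eval₂_T, zpow_one]
  have h2 : upad_phi (T (-1)) = T (-1) := by
    rw [upad_phi, eval₂_T, zpow_neg_one]
    rfl
  have h3 : ∀ a : ℤ, upad_phi (C a) = C (a : ℚ) := fun a => by
    rw [upad_phi, eval₂_C]
    rfl
  rw [TTrace_M, ← upad_Z_map, ← upad_Z_map]
  ext1 i j
  simp only [upad_M, upad_c, TTrace_c, RingHom.mapMatrix_apply, Matrix.map_apply, Matrix.add_apply,
    Matrix.smul_apply, smul_eq_mul, map_add, map_mul, h1, h2, h3, eq_intCast (Int.castRingHom ℚ)]

theorem upad_phi_rho (g : Fr n) : upad_phi.mapMatrix (upad_rho n g) = TTrace_rho n g := by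
  have h : (upad_phi.mapMatrix : Matrix (Fin 2) (Fin 2) _ →+* _).toMonoidHom.comp (upad_rho n) =
      TTrace_rho n := by
    refine FreeGroup.ext_hom _ _ fun i => ?_
    have h1 : TTrace_rho n (FreeGroup.of i) = TTrace_M (i, true) := by
      simp [TTrace_rho, TTrace_u]
    rw [h1, MonoidHom.comp_apply, upad_rho_of]
    exact upad_phi_M _
  exact DFunLike.congr_fun h g

theorem upad_rho_ne {g : Fr n} (hg : g ≠ 1) : upad_rho n g 0 1 ≠ 0 := by
  intro h0
  have h1 : TTrace_rho n g 0 1 = 0 := by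
    rw [← upad_phi_rho, RingHom.mapMatrix_apply, Matrix.map_apply, h0, map_zero]
  have hr : FreeGroup.IsReduced g.toWord := FreeGroup.isReduced_toWord
  rw [← FreeGroup.mk_toWord (x := g), TTrace_rho_mk] at h1
  have h2 := (TTrace_top g.toWord 0 1).1
  rw [h1] at h2
  have h3 : g.toWord ≠ [] := fun h => hg (FreeGroup.toWord_eq_nil_iff.1 h)
  obtain ⟨a, L, hL⟩ := List.exists_cons_of_ne_nil h3
  rw [hL] at h2 hr
  obtain ⟨c, hc, he⟩ := TTrace_prod a L hr
  rw [he] at h2
  apply hc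
  simpa [TTrace_Q] using h2.symm

/-- Free groups are residually finite `p`-groups. -/
theorem upad_res (hp : p.Prime) {g : Fr n} (hg : g ≠ 1) : ∃ k, g ∉ upad_P p (Fr n) k := by
  have := Fact.mk hp
  let ψ : LaurentPolynomial ℤ →+* ZMod p := eval₂ (Int.castRingHom (ZMod p)) 1
  have hT : ∀ m : ℤ, (T m - 1 : LaurentPolynomial ℤ) ∈ RingHom.ker ψ := fun m => by
    rw [RingHom.mem_ker, map_sub, map_one, eval₂_T, one_zpow, Units.val_one, sub_self]
  have hJ : RingHom.ker ψ ≠ ⊤ := RingHom.ker_ne_top ψ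
  have hpJ : (p : LaurentPolynomial ℤ) ∈ RingHom.ker ψ := by
    rw [RingHom.mem_ker, map_natCast, ZMod.natCast_self]
  have hall : ∀ x, x ∈ upad_S (upad_rho n) (RingHom.ker ψ) := by
    intro x
    induction x using FreeGroup.induction_on with
    | C1 => exact one_mem _
    | of i =>
      intro a b
      have e : upad_rho n (FreeGroup.of i) - 1 =
          (T 1 - 1 : LaurentPolynomial ℤ) • upad_c (upad_Z (i, true)) +
            (T (-1) - 1 : LaurentPolynomial ℤ) • upad_c (upad_Z (TTrace_i (i, true))) := by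
        rw [upad_rho_of, ← map_one upad_c, ← upad_Z_add (i, true), map_add, upad_M]
        module
      rw [e, Matrix.add_apply, Matrix.smul_apply, Matrix.smul_apply, smul_eq_mul, smul_eq_mul]
      exact add_mem (Ideal.mul_mem_right _ _ (hT _)) (Ideal.mul_mem_right _ _ (hT _))
    | inv_of i ih => exact inv_mem ih
    | mul x y hx hy => exact mul_mem hx hy
  have : IsNoetherianRing (LaurentPolynomial ℤ) :=
    IsLocalization.isNoetherianRing (Submonoid.powers (Polynomial.X : Polynomial ℤ)) _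
      inferInstance
  have hK := Ideal.iInf_pow_eq_bot_of_isDomain (RingHom.ker ψ) hJ
  by_contra hne
  simp only [not_exists, not_not] at hne
  refine upad_rho_ne hg ?_
  rw [← Ideal.mem_bot, ← hK, Ideal.mem_iInf]
  intro k
  have h1 := upad_cong (upad_rho n) hpJ hall k (hne k) 0 1
  rw [Matrix.sub_apply, Matrix.one_apply_ne (by decide), sub_zero] at h1
  exact Ideal.pow_le_pow_right (Nat.le_succ k) h1

end UPadFree

/-- `Q` is a term of the lower exponent `p` central series. These terms have trivial intersection,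
because the free group has a faithful representation over the integral Laurent polynomials that
is trivial modulo the ideal generated by `p` and `T - 1`. -/
theorem pad {n p : ℕ} (hp : p.Prime) {Z : Set (Fr n)} (hZ : Z.Finite) (h1 : (1 : Fr n) ∉ Z) :
    ∃ Q : Subgroup (Fr n), Q.Normal ∧ (∀ Φ : MulAut (Fr n), ∀ g ∈ Q, Φ g ∈ Q) ∧ (∀ z ∈ Z, z ∉ Q) ∧
      ∀ Φ : MulAut (Fr n), (∀ i j, (p : ℤ) ∣ (mat Φ - 1) i j) →
        ∃ t : ℕ, ∀ g, (Φ ^ p ^ t) g * g⁻¹ ∈ Q := by
  have h2 : ∀ z ∈ Z, ∀ᶠ k in Filter.atTop, z ∉ upad_P p (Fr n) k := by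
    intro z hz
    obtain ⟨k, hk⟩ := upad_res hp (g := z) (fun h => h1 (h ▸ hz))
    exact Filter.eventually_atTop.2 ⟨k, fun m hm h => hk (upad_anti hm h)⟩
  obtain ⟨k, hk⟩ := ((Filter.eventually_all_finite hZ).2 h2).exists
  exact ⟨upad_P p (Fr n) k, upad_normal k, fun Φ g hg => upad_inv Φ.toMonoidHom k hg, hk,
    fun Φ hΦ => ⟨k, fun g => upad_succ_le k (upad_iter (upad_base hΦ) k g)⟩⟩

end Pool.Agent.Lib.MP_9ac97d_al
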