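import Pool.Agent.Lib.MP_9ac97d_al.UGrp

/-!
# An invariant character of linear growth vanishes (task UQuad)
-/

set_option autoImplicit false

noncomputable section

open Pointwise
open scoped commutatorElement

namespace Pool.Agent.Lib.MP_9ac97d_al

theorem uquad_conj_comm {H : Type} [Group H] {A G : Subgroup H}
    (hA : ∀ g ∈ G, ∀ a ∈ A, g * a * g⁻¹ ∈ A) {g : H} (hg : g ∈ G) {y : H} (hy : y ∈ ⁅A, G⁆) :
    g * y * g⁻¹ ∈ ⁅A, G⁆ := by
  rw [Subgroup.commutator_def] at hy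
  induction hy using Subgroup.closure_induction with
  | mem x hx =>
    obtain ⟨a, ha, b, hb, rfl⟩ := hx
    have : g * ⁅a, b⁆ * g⁻¹ = ⁅g * a * g⁻¹, g * b * g⁻¹⁆ := by
      simp only [commutatorElement_def]; group
    rw [this]
    exact Subgroup.commutator_mem_commutator (hA g hg a ha)
      (G.mul_mem (G.mul_mem hg hb) (G.inv_mem hg))
  | one => simp
  | mul x y _ _ hx hy =>
    have : g * (x * y) * g⁻¹ = (g * x * g⁻¹) * (g * y * g⁻¹) := by group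
    rw [this]
    exact Subgroup.mul_mem _ hx hy
  | inv x _ hx =>
    have : g * x⁻¹ * g⁻¹ = (g * x * g⁻¹)⁻¹ := by group
    rw [this]
    exact Subgroup.inv_mem _ hx

theorem uquad_pow {H : Type} [Group H] {A : Subgroup H} {f : H → ℤ}
    (hf : ∀ x ∈ A, ∀ y ∈ A, f (x * y) = f x + f y) {x : H} (hx : x ∈ A) (r : ℕ) :
    f (x ^ r) = r * f x := by
  induction r with
  | zero =>
    have := hf 1 A.one_mem 1 A.one_mem
    rw [mul_one] at this
    rw [pow_zero]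
    push_cast
    omega
  | succ r ih =>
    rw [pow_succ, hf _ (A.pow_mem hx r) _ hx, ih]
    push_cast
    ring

theorem uquad_zero {z : ℤ} {C K : ℕ} (h : ∀ r : ℕ, |(r : ℤ) * (r * z)| ≤ C * ((r * K : ℕ) + 1)) :
    z = 0 := by
  by_contra hz
  have h1 : 1 ≤ |z| := Int.one_le_abs hz
  have h2 := h (C * (K + 1) + 1)
  rw [abs_mul, abs_mul, Nat.abs_cast] at h2
  push_cast at h2
  set r : ℤ := C * (K + 1) + 1 with hr
  have hC : (0 : ℤ) ≤ C := Nat.cast_nonneg C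
  have hK : (0 : ℤ) ≤ K := Nat.cast_nonneg K
  have hr1 : 1 ≤ r := by have := mul_nonneg hC (show (0 : ℤ) ≤ K + 1 by omega); omega
  have h3 : r * r ≤ r * (r * |z|) :=
    mul_le_mul_of_nonneg_left (le_mul_of_one_le_right (by omega) h1) (by omega)
  have h4 : (C : ℤ) * (r * K + 1) ≤ C * (r * K + r) :=
    mul_le_mul_of_nonneg_left (by omega) hC
  have h5 : r * r = C * (r * K + r) + r := by
    calc r * r = r * (C * (K + 1) + 1) := by rw [← hr]
      _ = C * (r * K + r) + r := by ring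
  omega

/-- With `k` from `exists_transfer` the function `θ' y = θ (y ^ k)` is additive on `YY G` and
invariant under `G`. For `c ∈ ⁅G, G⁆`, `g ∈ G` the value `θ' ⁅c, g⁆` is additive in `c` and in `g`
(commutator identities), so `θ' ⁅c ^ r, g ^ r⁆ = r ^ 2 * θ' ⁅c, g⁆`, while `⁅c ^ r, g ^ r⁆ ^ k` has
length at most a constant times `r`. So `θ'` vanishes on the generators of `YY G` (`yy_eq`). -/
theorem zero_of_linear {H : Type} [Group H] {G Y₀ : Subgroup H} (hle : Y₀ ≤ YY G)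
    (hfi : (Y₀.subgroupOf (YY G)).FiniteIndex) (hn : ∀ g ∈ G, ∀ y ∈ Y₀, g * y * g⁻¹ ∈ Y₀)
    {θ : H → ℤ} (hadd : ∀ x ∈ Y₀, ∀ y ∈ Y₀, θ (x * y) = θ x + θ y)
    (hinv : ∀ g ∈ G, ∀ y ∈ Y₀, θ (g * y * g⁻¹) = θ y) {T : Set H} (hT : Subgroup.closure T = ⊤)
    {C : ℕ} (hC : ∀ l : ℕ, ∀ y ∈ Y₀, y ∈ ball T l → |θ y| ≤ C * (l + 1)) :
    ∀ y ∈ Y₀, θ y = 0 := by
  obtain ⟨k, hk0, hk, htr⟩ := exists_transfer hle hfi fun x hx y hy => hn x (yy_le G hx) y hy
  have hadd' : ∀ x ∈ YY G, ∀ y ∈ YY G, θ ((x * y) ^ k) = θ (x ^ k) + θ (y ^ k) := by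
    intro x hx y hy
    have := htr (fun z => (θ z : ℚ))
      (fun a ha b hb => by rw [hadd a ha b hb]; push_cast; rfl)
      (fun a ha b hb => by rw [hinv a (yy_le G ha) b hb]) x hx y hy
    exact_mod_cast this
  have hinv' : ∀ g ∈ G, ∀ y ∈ YY G, θ ((g * y * g⁻¹) ^ k) = θ (y ^ k) := by
    intro g hg y hy
    rw [conj_pow]
    exact hinv g hg _ (hk y hy)
  have hGG : ∀ g ∈ G, ∀ a ∈ ⁅G, G⁆, g * a * g⁻¹ ∈ ⁅G, G⁆ := fun g hg a ha =>
    uquad_conj_comm (fun g hg a ha => G.mul_mem (G.mul_mem hg ha) (G.inv_mem hg)) hg ha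
  have hYY : ∀ g ∈ G, ∀ a ∈ YY G, g * a * g⁻¹ ∈ YY G := fun g hg a ha => by
    rw [yy_eq] at ha ⊢
    exact uquad_conj_comm hGG hg ha
  have hmem : ∀ c ∈ ⁅G, G⁆, ∀ g ∈ G, ⁅c, g⁆ ∈ YY G := fun c hc g hg => by
    rw [yy_eq]
    exact Subgroup.commutator_mem_commutator hc hg
  have hGle : ⁅G, G⁆ ≤ G := Subgroup.commutator_le.2 fun a ha b hb => by
    rw [commutatorElement_def]
    exact G.mul_mem (G.mul_mem (G.mul_mem ha hb) (G.inv_mem ha)) (G.inv_mem hb)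
  have hgen : ∀ c ∈ ⁅G, G⁆, ∀ g ∈ G, θ (⁅c, g⁆ ^ k) = 0 := by
    intro c hc g hg
    obtain ⟨a, ha⟩ := mem_closure_iff_ball.1 (hT ▸ Subgroup.mem_top c : c ∈ Subgroup.closure T)
    obtain ⟨b, hb⟩ := mem_closure_iff_ball.1 (hT ▸ Subgroup.mem_top g : g ∈ Subgroup.closure T)
    refine uquad_zero (C := C) (K := k * (2 * (a + b))) fun r => ?_
    have e1 : θ (⁅c ^ r, g ^ r⁆ ^ k) = r * θ (⁅c, g ^ r⁆ ^ k) := by
      refine uquad_pow (A := ⁅G, G⁆) (f := fun c => θ (⁅c, g ^ r⁆ ^ k)) (fun x hx y hy => ?_) hc r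
      have hgr := G.pow_mem hg r
      have : ⁅x * y, g ^ r⁆ = (x * ⁅y, g ^ r⁆ * x⁻¹) * ⁅x, g ^ r⁆ := by
        simp only [commutatorElement_def]; group
      show θ (⁅x * y, g ^ r⁆ ^ k) = θ (⁅x, g ^ r⁆ ^ k) + θ (⁅y, g ^ r⁆ ^ k)
      rw [this, hadd' _ (hYY x (hGle hx) _ (hmem y hy _ hgr)) _ (hmem x hx _ hgr),
        hinv' x (hGle hx) _ (hmem y hy _ hgr), add_comm]
    have e2 : θ (⁅c, g ^ r⁆ ^ k) = r * θ (⁅c, g⁆ ^ k) := by
      refine uquad_pow (A := G) (f := fun g => θ (⁅c, g⁆ ^ k)) (fun x hx y hy => ?_) hg r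
      have : ⁅c, x * y⁆ = ⁅c, x⁆ * (x * ⁅c, y⁆ * x⁻¹) := by
        simp only [commutatorElement_def]; group
      show θ (⁅c, x * y⁆ ^ k) = θ (⁅c, x⁆ ^ k) + θ (⁅c, y⁆ ^ k)
      rw [this, hadd' _ (hmem c hc x hx) _ (hYY x hx _ (hmem c hc y hy)),
        hinv' x hx _ (hmem c hc y hy)]
    rw [← e2, ← e1]
    refine hC _ _ (hk _ (hmem _ (Subgroup.pow_mem _ hc r) _ (G.pow_mem hg r))) ?_
    have h1 := pow_mem_ball ha r
    have h2 := pow_mem_ball hb r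
    have h3 := pow_mem_ball
      (mul_mem_ball (mul_mem_ball (mul_mem_ball h1 h2) (inv_mem_ball h1)) (inv_mem_ball h2)) k
    rw [commutatorElement_def]
    exact ball_mono (le_of_eq (by ring)) h3
  have hall : ∀ y ∈ YY G, θ (y ^ k) = 0 := by
    intro y hy
    have hy' := hy
    rw [yy_eq, Subgroup.commutator_def] at hy'
    have h1 : θ ((1 : H) ^ k) = 0 := by
      have := hadd' 1 (YY G).one_mem 1 (YY G).one_mem
      rw [mul_one] at this
      omega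
    have hcl : ∀ z ∈ Subgroup.closure {g | ∃ g₁ ∈ ⁅G, G⁆, ∃ g₂ ∈ G, ⁅g₁, g₂⁆ = g}, z ∈ YY G := by
      intro z hz
      rw [yy_eq, Subgroup.commutator_def]
      exact hz
    clear hy
    induction hy' using Subgroup.closure_induction with
    | mem x hx =>
      obtain ⟨c, hc, g, hg, rfl⟩ := hx
      exact hgen c hc g hg
    | one => exact h1
    | mul x y hx hy ihx ihy => rw [hadd' x (hcl x hx) y (hcl y hy), ihx, ihy, add_zero]
    | inv x hx ihx =>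
      have := hadd' x (hcl x hx) x⁻¹ ((YY G).inv_mem (hcl x hx))
      rw [mul_inv_cancel, h1, ihx] at this
      omega
  intro y hy
  have h1 := hall y (hle hy)
  rw [uquad_pow hadd hy k] at h1
  exact (mul_eq_zero.1 h1).resolve_left (by exact_mod_cast hk0)

/-- A bounded sequence argument: periods `2 ^ s` and `3 ^ t` give the period one. -/
theorem eq_of_two_periods {κ : ℕ → ℤ} {s t : ℕ} (h2 : ∀ k, κ (k + 2 ^ s) = κ k)
    (h3 : ∀ k, κ (k + 3 ^ t) = κ k) : κ 1 = κ 0 := by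
  have p2 : Function.Periodic κ (2 ^ s) := h2
  have p3 : Function.Periodic κ (3 ^ t) := h3
  have hc : Nat.Coprime (2 ^ s) (3 ^ t) := Nat.Coprime.pow s t (by norm_num)
  obtain ⟨n, hn2, hn3⟩ := Nat.chineseRemainder hc 1 0
  rw [← p2.map_mod_nat 1, ← p3.map_mod_nat 0, ← hn2, ← hn3, p2.map_mod_nat, p3.map_mod_nat]

end Pool.Agent.Lib.MP_9ac97d_al
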