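import Pool.Agent.Lib.MP_9ac97d_al.UBasic

/-!
# Sections, their fixed groups and normalizers (task USec)
-/

set_option autoImplicit false

noncomputable section

open Pointwise

namespace Pool.Agent.Lib.MP_9ac97d_al

namespace Ext

variable {E H : Type} [Group E] [Group H] {n : ℕ} (X : Ext E H n)

theorem mem_fix {Γ : Type} [Group Γ] {σ : Γ →* E} {g : Fr n} :
    g ∈ X.Fix σ ↔ ∀ x, X.ρ (σ x) g = g := Iff.rfl

variable {M : Subgroup H} [M.Normal]

theorem mem_ne {σ : M →* E} {e : E} :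
    e ∈ X.NE σ ↔ ∀ x : M, σ (MulAut.conjNormal (X.π e) x) = e * σ x * e⁻¹ := Iff.rfl

theorem twist_apply (σ : M →* E) (e : E) (x : M) :
    X.twist σ e x = e * σ (MulAut.conjNormal (X.π e)⁻¹ x) * e⁻¹ := rfl

theorem usec_cancel (h : H) (x : M) :
    MulAut.conjNormal h (MulAut.conjNormal h⁻¹ x) = x := by
  rw [← MulAut.mul_apply, ← map_mul, mul_inv_cancel, map_one, MulAut.one_apply]

theorem usec_cancel' (h : H) (x : M) :
    MulAut.conjNormal h⁻¹ (MulAut.conjNormal h x) = x := by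
  rw [← MulAut.mul_apply, ← map_mul, inv_mul_cancel, map_one, MulAut.one_apply]

theorem usec_fix_twist (σ : M →* E) (e : E) : X.Fix (X.twist σ e) = X.ρ e • X.Fix σ := by
  ext g
  rw [Subgroup.mem_pointwise_smul_iff_inv_smul_mem, mem_fix, mem_fix]
  have key : ∀ y : M, X.ρ (e * σ y * e⁻¹) g = g ↔
      X.ρ (σ y) ((X.ρ e)⁻¹ • g) = (X.ρ e)⁻¹ • g := by
    intro y
    rw [map_mul, map_mul, map_inv, MulAut.mul_apply, MulAut.mul_apply, MulAut.smul_def]
    constructor
    · intro h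
      apply (X.ρ e).injective
      rw [h, MulAut.apply_inv_self]
    · intro h
      rw [h, MulAut.apply_inv_self]
  constructor
  · intro h x
    have h1 := h (MulAut.conjNormal (X.π e) x)
    rw [twist_apply, usec_cancel'] at h1
    exact (key x).1 h1
  · intro h x
    rw [twist_apply]
    exact (key _).2 (h _)

theorem usec_twist_eq {σ : M →* E} {e : E} (h : e ∈ X.NE σ) : X.twist σ e = σ := by
  ext x
  rw [twist_apply, ← X.mem_ne.1 h, usec_cancel]

/-- `j_injective`, `conj_j`. -/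
theorem j_mem_ne_iff (hn : 2 ≤ n) {σ : M →* E} {g : Fr n} : X.j g ∈ X.NE σ ↔ g ∈ X.Fix σ := by
  rw [mem_ne, mem_fix]
  refine forall_congr' fun x => ?_
  rw [X.π_j, map_one, MulAut.one_apply, ← (X.j_injective hn).eq_iff, ← X.conj_j]
  constructor
  · intro h
    calc σ x * X.j g * (σ x)⁻¹ = X.j g * σ x * (X.j g)⁻¹ * X.j g * (σ x)⁻¹ := by rw [← h]
      _ = X.j g := by group
  · intro h
    calc σ x = σ x * X.j g * (σ x)⁻¹ * σ x * (X.j g)⁻¹ := by group
      _ = X.j g * σ x * (X.j g)⁻¹ := by rw [h]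

theorem ne_le_norm_fix (σ : M →* E) : X.NE σ ≤ X.norm (X.Fix σ) := fun e he => by
  rw [mem_norm, ← usec_fix_twist, X.usec_twist_eq he]

theorem pair_ne (hn : 2 ≤ n) (σ : M →* E) : X.Pair (X.NE σ) (X.Fix σ) :=
  ⟨X.ne_le_norm_fix σ, fun _ => X.j_mem_ne_iff hn⟩

theorem sec_mem_ne {σ : M →* E} (h : X.Sec σ) (x : M) : σ x ∈ X.NE σ := by
  rw [mem_ne]
  intro y
  rw [h x, ← map_inv, ← map_mul, ← map_mul]
  congr 1

theorem sec_twist {σ : M →* E} (h : X.Sec σ) (e : E) : X.Sec (X.twist σ e) := by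
  intro x
  rw [twist_apply, map_mul, map_mul, h, MulAut.conjNormal_apply, map_inv]
  group

theorem fix_twist (σ : M →* E) (e : E) : X.Fix (X.twist σ e) = X.ρ e • X.Fix σ :=
  X.usec_fix_twist σ e

theorem twist_eq_of_mem {σ : M →* E} {e : E} (h : e ∈ X.NE σ) : X.twist σ e = σ := X.usec_twist_eq h

/-- If the twists by `e i` and `e k` are conjugate by `j g` then `(e k)⁻¹ * j g * e i ∈ NE σ`; use
`bi_of_no_family`. -/
theorem bi_ne_of_count (σ : M →* E) {a : ℕ}
    (h : ∀ e : Fin (a + 1) → E, ∃ i k, i ≠ k ∧ X.CjS (X.twist σ (e i)) (X.twist σ (e k))) :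
    BI ((X.NE σ).map X.π) a := by
  refine bi_of_no_family fun z => ?_
  choose e he using fun i => X.surj (z i)
  obtain ⟨i, k, hik, g, hg⟩ := h e
  have hπ : X.π ((e k)⁻¹ * X.j g * e i) = (z k)⁻¹ * z i := by
    rw [map_mul, map_mul, map_inv, X.π_j, mul_one, he, he]
  refine ⟨k, i, hik.symm, (e k)⁻¹ * X.j g * e i, ?_, hπ⟩
  refine X.mem_ne.2 fun x => ?_
  have h1 := hg (MulAut.conjNormal (X.π (e i)) x)
  rw [twist_apply, twist_apply, usec_cancel', he, he] at h1
  rw [hπ, map_mul, MulAut.mul_apply]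
  calc σ (MulAut.conjNormal (z k)⁻¹ (MulAut.conjNormal (z i) x))
      = (e k)⁻¹ * (e k * σ (MulAut.conjNormal (z k)⁻¹ (MulAut.conjNormal (z i) x)) * (e k)⁻¹) *
        e k := by group
    _ = _ := by rw [h1]; group

/-- Both sides of the defining equation are lifts in `Q` of the same element. -/
theorem mem_ne_of_unique {σ : M →* E} (h : X.Sec σ) {Q : Subgroup E} (hQ : ∀ x, σ x ∈ Q)
    (hu : ∀ e ∈ Q, X.π e = 1 → e = 1) : Q ≤ X.NE σ := fun e he => by
  refine X.mem_ne.2 fun x => ?_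
  refine inv_mul_eq_one.1 (hu _ (Q.mul_mem (Q.inv_mem (hQ _))
    (Q.mul_mem (Q.mul_mem he (hQ x)) (Q.inv_mem he))) ?_)
  rw [map_mul, map_inv, map_mul, map_mul, map_inv, h, h, MulAut.conjNormal_apply, inv_mul_cancel]

end Ext

end Pool.Agent.Lib.MP_9ac97d_al
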