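import Pool.Agent.Lib.MP_9ac97d_al.UTw
import Pool.Agent.Lib.MP_9ac97d_al.UPad
import Pool.Agent.Lib.MP_9ac97d_al.UQuad
import Pool.Agent.Lib.MP_9ac97d_al.USec

/-!
# Two sections that differ by powers of one element (task UCyc)
-/

set_option autoImplicit false

noncomputable section

open Pointwise

namespace Pool.Agent.Lib.MP_9ac97d_al

namespace Ext

variable {E H : Type} [Group E] [Group H] {n : ℕ} (X : Ext E H n)

theorem ucyc_tw {A : Set (MulAut (Fr n))} (hA : A.Finite) : ∃ C : ℕ, ∀ (l : ℕ)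
    (Φ : MulAut (Fr n)) (g : Fr n) (e e' : E) (w : Fr n) (P P' : Set (Fr n)) (κ : ℤ),
    Φ ∈ ball A l → X.ρ e = MulAut.conj g * Φ → w ≠ 1 → X.ρ e w = w → Anch w P → Anch w P' →
    (∀ p ∈ P, X.ρ e p ∈ P) → (∀ p ∈ P', X.ρ e' p ∈ P') → e = X.j (w ^ κ) * e' →
    |κ| ≤ C * (l + 1) := by
  obtain ⟨C, hC⟩ := tw hA
  refine ⟨C, fun l Φ g e e' w P P' κ hΦ he hw hew hP hP' h1 h2 h3 => ?_⟩
  obtain ⟨a, ha⟩ := hP.1
  obtain ⟨b, hb⟩ := hP'.1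
  refine hC l Φ g w a b P P' κ hΦ hw (he ▸ hew) hP hP' ha (he ▸ h1 a ha) hb ?_
  have h4 : (w ^ κ)⁻¹ * (MulAut.conj g * Φ) b * w ^ κ = X.ρ e' b := by
    rw [← he, h3, map_mul, MulAut.mul_apply, X.ρ_j, MulAut.conj_apply]
    group
  rw [h4]
  exact h2 b hb

theorem ucyc_fix_mem {Y₀ : Subgroup H} [Y₀.Normal] {σ : Y₀ →* E} {a : E} (ha : a ∈ X.NE σ)
    {w : Fr n} (hw : w ∈ X.Fix σ) : X.ρ a w ∈ X.Fix σ := by
  rw [← X.mem_norm.1 (X.ne_le_norm_fix σ ha)]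
  exact Subgroup.smul_mem_pointwise_smul _ _ _ hw

/-- Let `a ∈ NE σ`, `b ∈ NE τ` lie over `g`, `a⁻¹ * b = j c`. Conjugating the equation by `a⁻¹` gives
`σ x = j (w' ^ κ) * (j c * τ x * (j c)⁻¹)` with `w' = ρ a⁻¹ w ∈ Fix σ` and `c⁻¹ * w' * c ∈ Fix τ`. Take
anchored sets `P` for `σ` at `w'` and `P'` for `τ` at `c⁻¹ * w' * c` (`anc_all`), and apply `tw` with
`A = {ρ (σ x)}`, `l = 1`, to `P` and `conj c • P'` (`Anch.conj`). -/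
theorem cyc_bound {Y₀ : Subgroup H} [Y₀.Normal] {σ τ : Y₀ →* E} {w : Fr n} (hw : w ≠ 1)
    (hwσ : w ∈ X.Fix σ) (hwτ : w ∈ X.Fix τ) (haσ : NonAb (X.Fix σ) ∨ X.Anc σ w)
    (haτ : NonAb (X.Fix τ) ∨ X.Anc τ w) (x : Y₀) : ∃ C : ℕ, ∀ g : H, g ∈ (X.NE σ).map X.π →
      g ∈ (X.NE τ).map X.π → ∀ κ : ℤ,
      σ (MulAut.conjNormal g x) = X.j (w ^ κ) * τ (MulAut.conjNormal g x) → |κ| ≤ C := by
  obtain ⟨C, hC⟩ := X.ucyc_tw (Set.finite_singleton (X.ρ (σ x)))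
  refine ⟨C * 2, ?_⟩
  rintro _ ⟨a, ha, rfl⟩ ⟨b, hb, hab⟩ κ h
  obtain ⟨c', hc'⟩ := X.exists_j_of_π_eq hab
  obtain ⟨c, hc⟩ : ∃ c, b = a * X.j c :=
    ⟨X.ρ a⁻¹ c', by rw [← X.conj_j, hc']; group⟩
  have h1 := X.mem_ne.1 hb x
  rw [hab] at h1
  rw [X.mem_ne.1 ha x, h1] at h
  have hw' : X.ρ a⁻¹ w ≠ 1 := fun h2 => hw ((MulEquiv.map_eq_one_iff _).1 h2)
  have hw'' : X.ρ b⁻¹ w ≠ 1 := fun h2 => hw ((MulEquiv.map_eq_one_iff _).1 h2)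
  have hf := X.ucyc_fix_mem ((X.NE σ).inv_mem ha) hwσ
  obtain ⟨P, hP, hPi⟩ := X.anc_all hwσ hw haσ hf hw'
  obtain ⟨P', hP', hPi'⟩ := X.anc_all hwτ hw haτ
    (X.ucyc_fix_mem ((X.NE τ).inv_mem hb) hwτ) hw''
  have h2 : c * X.ρ b⁻¹ w * c⁻¹ = X.ρ a⁻¹ w := by
    rw [hc, mul_inv_rev, map_mul, MulAut.mul_apply, ← map_inv, X.ρ_j, MulAut.conj_apply]
    group
  have h3 := hP'.conj hw'' c
  rw [h2] at h3
  have h4 := hC 1 (X.ρ (σ x)) 1 (σ x) (X.j c * τ x * (X.j c)⁻¹) _ P _ κ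
    (mem_ball_one (Or.inl rfl)) (by simp) hw' (hf x) hP h3 (hPi x) (by
      rintro _ ⟨p, hp, rfl⟩
      refine ⟨X.ρ (τ x) p, hPi' x p hp, ?_⟩
      rw [map_mul, map_mul, map_inv, X.ρ_j]
      simp [mul_assoc]) (by
      rw [← map_zpow, ← X.conj_j]
      have h5 : σ x = a⁻¹ * (X.j (w ^ κ) * (b * τ x * b⁻¹)) * a := by
        rw [← h]
        group
      rw [h5, hc]
      group)
  push_cast at h4 ⊢
  linarith

theorem ucyc_triv_pow {Q : Subgroup (Fr n)} [Q.Normal] {Φ : MulAut (Fr n)}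
    (h : ∀ g, QuotientGroup.mk' Q (Φ g) = QuotientGroup.mk' Q g) (k : ℕ) (g : Fr n) :
    QuotientGroup.mk' Q ((Φ ^ k) g) = QuotientGroup.mk' Q g := by
  induction k with
  | zero => rfl
  | succ k ih => rw [pow_succ', MulAut.mul_apply, h, ih]

theorem ucyc_conj_mod {Q : Subgroup (Fr n)} [Q.Normal]
    (hQ : ∀ Φ : MulAut (Fr n), ∀ g ∈ Q, Φ g ∈ Q) {Φ : MulAut (Fr n)}
    (h : ∀ g, QuotientGroup.mk' Q (Φ g) = QuotientGroup.mk' Q g) (Ψ : MulAut (Fr n)) (f : Fr n) :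
    QuotientGroup.mk' Q ((Φ * Ψ * Φ⁻¹) f) = QuotientGroup.mk' Q (Ψ f) := by
  rw [MulAut.mul_apply, MulAut.mul_apply, h]
  have h1 := h (Φ⁻¹ f)
  rw [MulAut.apply_inv_self] at h1
  rw [QuotientGroup.mk'_apply, QuotientGroup.mk'_apply, QuotientGroup.eq] at h1 ⊢
  have h2 := hQ Ψ _ (Q.inv_mem h1)
  rwa [mul_inv_rev, inv_inv, map_mul, map_inv] at h2

theorem ucyc_period (hn : 2 ≤ n) {Y₀ : Subgroup H} [Y₀.Normal] {σ τ : Y₀ →* E} {w : Fr n}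
    (hw : w ≠ 1) {θ : Y₀ → ℤ} (hθ : ∀ x, σ x = X.j (w ^ θ x) * τ x) {a b : E} (ha : a ∈ X.NE σ)
    (hb : b ∈ X.NE τ) (hab : X.π b = X.π a) {p : ℕ} (hp : p.Prime)
    (h6 : ∀ e, X.π e = X.π a → ∀ i j, (p : ℤ) ∣ (mat (X.ρ e) - 1) i j) (C : ℤ) :
    ∃ t : ℕ, ∀ y, |θ y| ≤ C → |θ (MulAut.conjNormal (X.π a ^ p ^ t) y)| ≤ C →
      θ (MulAut.conjNormal (X.π a ^ p ^ t) y) = θ y := by
  obtain ⟨b₀, -, hb₀⟩ := (xbasic_nonAb_top hn).exists_not_commute hw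
  obtain ⟨Q, hQn, hQ, hZ, hQp⟩ := pad (n := n) hp
    (Z := (fun i : ℤ => w ^ i * b₀ * (w ^ i)⁻¹ * b₀⁻¹) '' (Set.Icc (-(2 * C)) (2 * C) \ {0}))
    (((Set.finite_Icc _ _).subset Set.sdiff_subset).image _) (by
      rintro ⟨i, hi, h1⟩
      have h2 : Commute (w ^ i) b₀ := by
        have h3 : w ^ i * b₀ * (w ^ i)⁻¹ * b₀⁻¹ = 1 := h1
        rw [mul_inv_eq_one, mul_inv_eq_iff_eq_mul] at h3
        exact h3
      have h4 : w ^ i ≠ 1 := fun h5 => hi.2 ((IsMulTorsionFree.zpow_eq_one_iff_right hw).1 h5)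
      exact hb₀ (commute_trans h4 (Commute.self_zpow w i) h2))
  have key : ∀ e, X.π e = X.π a → ∃ t : ℕ, ∀ t', t ≤ t' → ∀ g,
      QuotientGroup.mk' Q (X.ρ (e ^ p ^ t') g) = QuotientGroup.mk' Q g := by
    intro e he
    obtain ⟨t, ht⟩ := hQp (X.ρ e) (h6 e he)
    refine ⟨t, fun t' h g => ?_⟩
    obtain ⟨s, rfl⟩ := Nat.exists_eq_add_of_le h
    rw [pow_add, pow_mul, map_pow, map_pow]
    refine ucyc_triv_pow (fun f => ?_) _ g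
    rw [← mul_inv_eq_one, ← map_inv, ← map_mul, QuotientGroup.mk'_apply,
      QuotientGroup.eq_one_iff]
    exact ht f
  obtain ⟨t₁, h₁⟩ := key a rfl
  obtain ⟨t₂, h₂⟩ := key b hab
  refine ⟨t₁ + t₂, fun y hy hy' => ?_⟩
  set y' := MulAut.conjNormal (X.π a ^ p ^ (t₁ + t₂)) y with hy'def
  have e1 := X.mem_ne.1 ((X.NE σ).pow_mem ha (p ^ (t₁ + t₂))) y
  have e2 := X.mem_ne.1 ((X.NE τ).pow_mem hb (p ^ (t₁ + t₂))) y
  rw [map_pow] at e1 e2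
  rw [hab] at e2
  rw [← hy'def] at e1 e2
  have e3 := ucyc_conj_mod hQ (h₁ _ (Nat.le_add_right t₁ t₂)) (X.ρ (σ y)) ((X.ρ (τ y))⁻¹ b₀)
  have e4 := ucyc_conj_mod hQ (h₂ _ (Nat.le_add_left t₂ t₁)) (X.ρ (τ y)) ((X.ρ (τ y))⁻¹ b₀)
  rw [← map_inv, ← map_mul, ← map_mul] at e3 e4
  rw [← e1, hθ y', hθ y, map_mul, map_mul, MulAut.mul_apply, MulAut.mul_apply, X.ρ_j, X.ρ_j,
    MulAut.conj_apply, MulAut.conj_apply, MulAut.apply_inv_self] at e3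
  rw [← e2, MulAut.apply_inv_self] at e4
  simp only [map_mul, map_inv, e4] at e3
  by_contra hne
  refine hZ _ ⟨θ y' - θ y, ⟨⟨?_, ?_⟩, sub_ne_zero.2 hne⟩, rfl⟩ ?_
  · linarith [(abs_le.1 hy).2, (abs_le.1 hy').1]
  · linarith [(abs_le.1 hy).1, (abs_le.1 hy').2]
  · rw [← QuotientGroup.eq_one_iff, ← QuotientGroup.mk'_apply]
    have e5 : w ^ (θ y' - θ y) = (w ^ θ y)⁻¹ * w ^ θ y' := by group
    simp only [e5, map_mul, map_inv, mul_inv_rev, inv_inv]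
    have e6 : ∀ u v β : Fr n ⧸ Q, v * β * v⁻¹ = u * β * u⁻¹ →
        u⁻¹ * v * β * (v⁻¹ * u) * β⁻¹ = 1 := by
      intro u v β h
      calc u⁻¹ * v * β * (v⁻¹ * u) * β⁻¹ = u⁻¹ * (v * β * v⁻¹) * u * β⁻¹ := by group
        _ = 1 := by rw [h]; group
    exact e6 _ _ _ e3

/-- Let `κ k` be the exponent for `g ^ k * x * (g ^ k)⁻¹`; it is bounded by `C` (`cyc_bound`). Let `b₀`
not commute with `w` and `Z` the set of commutators of `w ^ i`, `0 < |i| ≤ 2 * C`, with `b₀`. For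
`p = 2, 3` take `Q` from `pad` and `t` such that `ρ a ^ p ^ t` and `ρ b ^ p ^ t` are trivial modulo
`Q`. Conjugating by `a ^ p ^ t`, resp. `b ^ p ^ t`, does not change the actions of `σ y`, `τ y` modulo
`Q`, so `w ^ (κ (k + p ^ t) - κ k)` is central modulo `Q`, so the exponent vanishes. Then
`eq_of_two_periods`. -/
theorem cyc_inv (hn : 2 ≤ n) {Y₀ : Subgroup H} [Y₀.Normal] {σ τ : Y₀ →* E} {w : Fr n}
    (hw : w ≠ 1) (hwσ : w ∈ X.Fix σ) (hwτ : w ∈ X.Fix τ) (haσ : NonAb (X.Fix σ) ∨ X.Anc σ w)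
    (haτ : NonAb (X.Fix τ) ∨ X.Anc τ w) {θ : Y₀ → ℤ} (hθ : ∀ x, σ x = X.j (w ^ θ x) * τ x) {g : H}
    (h1 : g ∈ (X.NE σ).map X.π) (h2 : g ∈ (X.NE τ).map X.π)
    (h6 : ∀ e, X.π e = g → ∀ i j, (6 : ℤ) ∣ (mat (X.ρ e) - 1) i j) (x : Y₀) :
    θ (MulAut.conjNormal g x) = θ x := by
  obtain ⟨C, hC⟩ := X.cyc_bound hw hwσ hwτ haσ haτ x
  have hb : ∀ k : ℕ, |θ (MulAut.conjNormal (g ^ k) x)| ≤ C := fun k =>
    hC _ (Subgroup.pow_mem _ h1 k) (Subgroup.pow_mem _ h2 k) _ (hθ _)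
  obtain ⟨a, ha, rfl⟩ := h1
  obtain ⟨b, hb', hab⟩ := h2
  have key : ∀ p : ℕ, p.Prime → (p : ℤ) ∣ 6 → ∃ t : ℕ, ∀ k : ℕ,
      θ (MulAut.conjNormal (X.π a ^ (k + p ^ t)) x) = θ (MulAut.conjNormal (X.π a ^ k) x) := by
    intro p hp hp6
    obtain ⟨t, ht⟩ := X.ucyc_period hn hw hθ ha hb' hab hp
      (fun e he i j => hp6.trans (h6 e he i j)) C
    refine ⟨t, fun k => ?_⟩
    have h3 : MulAut.conjNormal (X.π a ^ (k + p ^ t)) x =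
        MulAut.conjNormal (X.π a ^ p ^ t) (MulAut.conjNormal (X.π a ^ k) x) := by
      rw [add_comm, pow_add, map_mul, MulAut.mul_apply]
    have h4 := hb (k + p ^ t)
    rw [h3] at h4 ⊢
    exact ht _ (hb k) h4
  obtain ⟨s, hs⟩ := key 2 Nat.prime_two (by norm_num)
  obtain ⟨t, ht⟩ := key 3 Nat.prime_three (by norm_num)
  have h5 := eq_of_two_periods (κ := fun k => θ (MulAut.conjNormal (X.π a ^ k) x)) hs ht
  simpa using h5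

/-- The exponent `θ` is additive, invariant under `G` (`cyc_inv`), and grows at most linearly: apply
`tw` with `A` the image under `ρ` of lifts of a finite generating set of `H`. So it vanishes by
`zero_of_linear`. -/
theorem cyc {G : Subgroup H} {o : BiOrd (Fr n)} (hc : X.Ctx G o) {Y₀ : Subgroup H} [Y₀.Normal]
    (hle : Y₀ ≤ YY G) (hfi : (Y₀.subgroupOf (YY G)).FiniteIndex) {σ τ : Y₀ →* E} (hσ : X.Sec σ)
    (h1 : BI ((X.NE σ).map X.π) (4 * n ^ 2)) (h2 : BI ((X.NE τ).map X.π) (4 * n ^ 2)) {w : Fr n}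
    (hw : w ≠ 1) (hwσ : w ∈ X.Fix σ) (hwτ : w ∈ X.Fix τ) (haσ : NonAb (X.Fix σ) ∨ X.Anc σ w)
    (haτ : NonAb (X.Fix τ) ∨ X.Anc τ w) (hθ : ∀ x, ∃ k : ℤ, σ x = X.j (w ^ k) * τ x) :
    σ = τ := by
  classical
  choose θ hθ using hθ
  have hA : 4 * n ^ 2 ≤ cA n := by
    unfold cA
    have h3 : 1 ≤ 4 * n ^ 2 := by nlinarith [hc.two]
    calc 4 * n ^ 2 = 4 * n ^ 2 * 1 * 1 := by ring
      _ ≤ 4 * n ^ 2 * (4 * n ^ 2) * (n + 1) := by gcongr; omega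
      _ = (4 * n ^ 2) ^ 2 * (n + 1) := by ring
  have hadd : ∀ x y, θ (x * y) = θ x + θ y := by
    intro x y
    have h3 : X.j (w ^ θ (x * y)) * τ (x * y) = X.j (w ^ (θ x + θ y)) * τ (x * y) := by
      have h4 := X.conj_j (τ x) (w ^ θ y)
      rw [map_zpow (X.ρ (τ x)), hwτ x] at h4
      rw [← hθ, map_mul, hθ x, hθ y, zpow_add, map_mul, map_mul, ← h4]
      rw [h4]
      calc X.j (w ^ θ x) * τ x * (X.j (w ^ θ y) * τ y)
          = X.j (w ^ θ x) * (τ x * X.j (w ^ θ y) * (τ x)⁻¹) * (τ x * τ y) := by group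
        _ = _ := by rw [h4]
    have h5 := X.j_injective hc.two (mul_right_cancel h3)
    have h6 : w ^ (θ (x * y) - (θ x + θ y)) = 1 := by rw [zpow_sub, h5, mul_inv_cancel]
    exact sub_eq_zero.1 ((IsMulTorsionFree.zpow_eq_one_iff_right hw).1 h6)
  obtain ⟨T, hT, hTf⟩ := Group.fg_iff.1 hc.fgH
  choose lift hlift using X.surj
  obtain ⟨C, hC⟩ := X.ucyc_tw ((hTf.image lift).image X.ρ)
  obtain ⟨P, hP, hPi⟩ := X.anc_all hwσ hw haσ hwσ hw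
  obtain ⟨P', hP', hPi'⟩ := X.anc_all hwτ hw haτ hwτ hw
  have hnor : Y₀.Normal := inferInstance
  have h0 := zero_of_linear hle hfi (fun g _ y hy => hnor.conj_mem y hy g)
    (θ := fun h => if hh : h ∈ Y₀ then θ ⟨h, hh⟩ else 0)
    (fun x hx y hy => by
      rw [dif_pos hx, dif_pos hy, dif_pos (Y₀.mul_mem hx hy)]
      exact hadd ⟨x, hx⟩ ⟨y, hy⟩)
    (fun g hg y hy => by
      rw [dif_pos hy, dif_pos (hnor.conj_mem y hy g)]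
      exact X.cyc_inv hc.two hw hwσ hwτ haσ haτ hθ (hc.under.le h1 hA hg) (hc.under.le h2 hA hg)
        (fun e he => hc.six e (he ▸ hg)) ⟨y, hy⟩) hT (C := C)
    (fun l y hy hl => by
      rw [dif_pos hy]
      have h3 : X.π '' (lift '' T) = T := by
        rw [Set.image_image]
        simp [hlift]
      rw [← h3, ball_image] at hl
      obtain ⟨e, he, hey⟩ := hl
      obtain ⟨g, hg⟩ := X.exists_j_of_π_eq (e := σ ⟨y, hy⟩) (e' := e) (by rw [hσ, hey])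
      refine hC l (X.ρ e) g (σ ⟨y, hy⟩) (τ ⟨y, hy⟩) w P P' _ ?_ (by rw [hg, map_mul, X.ρ_j]) hw
        (hwσ _) hP hP' (hPi _) (hPi' _) (hθ _)
      rw [ball_image]
      exact ⟨e, he, rfl⟩)
  ext x
  have h3 := h0 x x.2
  simp only [dif_pos x.2] at h3
  rw [hθ x, h3, zpow_zero, map_one, one_mul]

end Ext

end Pool.Agent.Lib.MP_9ac97d_al
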