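import Pool.Agent.Lib.MP_9ac97d_al.XMain

/-!
# Uniform version: definitions
-/

set_option autoImplicit false

noncomputable section

open Pointwise

namespace Pool.Agent.Lib.MP_9ac97d_al

section Grp

variable {H : Type} [Group H]

/-- `S` is a finite generating set without a free pair in the ball of radius `L`. -/
def NFS (S : Set H) (L : ℕ) : Prop := S.Finite ∧ Subgroup.closure S = ⊤ ∧ NoFree S L

variable (H) in
/-- Some finite generating set has no free pair in the ball of radius `L`. -/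
def NFL (L : ℕ) : Prop := ∃ S : Set H, NFS S L

variable (H) in
/-- The group is generated by at most `d` elements. -/
def DG (d : ℕ) : Prop := ∃ T : Finset H, T.card ≤ d ∧ Subgroup.closure (T : Set H) = ⊤

/-- The index of `K` is finite and at most `a`. -/
def BI (K : Subgroup H) (a : ℕ) : Prop := K.index ≠ 0 ∧ K.index ≤ a

variable (H) in
/-- The intersection of the subgroups of index at most `m`. -/
def Hm (m : ℕ) : Subgroup H := sInf {K | BI K m}

/-- `G` lies in every subgroup of index at most `a`. -/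
def Under (G : Subgroup H) (a : ℕ) : Prop := ∀ K : Subgroup H, BI K a → G ≤ K

/-- The third term `⁅⁅G, G⁆, G⁆` of the lower central series. -/
def YY (G : Subgroup H) : Subgroup H := G.lowerCentralSeries 2

/-- Equivariant homomorphisms from `YY G` to a free group have abelian image. -/
def SPE (G : Subgroup H) : Prop :=
  ∀ (r : ℕ) (u : YY G →* Fr r) (φ : G → MulAut (Fr r)),
    (∀ (g : G) (y y' : YY G), (y' : H) = g * y * (g : H)⁻¹ → u y' = φ g (u y)) →
    ∀ x y, Commute (u x) (u y)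

/-- `I` is the kernel of a homomorphism to a bi-ordered group. -/
def OrdKer (I : Subgroup H) : Prop :=
  ∃ (Q : Type) (_ : Group Q) (_ : BiOrd Q) (f : H →* Q), f.ker = I

/-- No nontrivial combination of the `T ^ i w` with coefficients `0`, `1`, `-1` vanishes. -/
def SepAt {W : Type} [AddCommGroup W] (T : AddMonoid.End W) (w : W) : Prop :=
  ∀ (k : ℕ) (ε : Fin k → ℤ), (∀ i, |ε i| ≤ 1) → ∑ i, ε i • (T ^ (i : ℕ)) w = 0 → ∀ i, ε i = 0

end Grp

namespace SL

variable {E D V : Type} [Group E] [NormedDivisionRing D] [AddCommGroup V] [Module D V]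
  (A : SL E D V)

/-- No proper nonzero subspace has a stabilizer of index at most `b`. -/
def SIb (b : ℕ) : Prop := ∀ U : Submodule D V, U ≠ ⊥ → U ≠ ⊤ → ¬ BI (A.stab U) b

/-- `Vol` with an explicit constant. -/
structure VolC (δ : E →* ℝ) (C : ℝ) : Prop where
  pos : ∀ e, 0 < δ e
  le : ∀ (b : Module.Basis (Fin (Module.finrank D V)) D V) (e : E) (κ : ℝ),
    (∀ i j, ‖b.repr (A.act e (b i)) j‖ ≤ κ) → δ e ≤ C * κ
  scal : ∀ (e : E) (d : D), (∀ v, A.act e v = d • v) → δ e = ‖d‖

end SL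

/-- The index bound used in the deterministic part. -/
def cA (n : ℕ) : ℕ := (4 * n ^ 2) ^ 2 * (n + 1)

section Free

variable {n : ℕ}

/-- The homology of `S` injects into that of `N`, for all coefficients. -/
def IndAll (N S : Subgroup (Fr n)) : Prop :=
  ∀ (D : Type) [DivisionRing D] (ι : Fr n →* D), Ind ι N fun _ : Unit => S

/-- An edge has both ends of `w` on one side and the attracting ends of the elements of `P` on
the other side. -/
def Anch (w : Fr n) (P : Set (Fr n)) : Prop :=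
  P.Nonempty ∧ ∃ x y, dd x y = 1 ∧ Att w x y ∧ Att w⁻¹ x y ∧ ∀ a ∈ P, a ≠ 1 ∧ Att a y x

/-- An almost invariant subset of `S` such that it and its complement contain a line. -/
structure AlmInv (S : Subgroup (Fr n)) (Ω : Set (Fr n)) : Prop where
  sub : Ω ⊆ S
  fin : ∀ a ∈ S, {l | ¬ (a⁻¹ * l ∈ Ω ↔ l ∈ Ω)}.Finite
  line : ∃ q ∈ S, q ≠ 1 ∧ ∀ᶠ k : ℕ in Filter.atTop, q ^ k ∈ Ω ∧ q⁻¹ ^ k ∈ Ω
  line' : ∃ q ∈ S, q ≠ 1 ∧ ∀ᶠ k : ℕ in Filter.atTop, q ^ k ∉ Ω ∧ q⁻¹ ^ k ∉ Ω

/-- `Φ` preserves `Ω` up to a finite set. -/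
def EqInv (Φ : MulAut (Fr n)) (Ω : Set (Fr n)) : Prop := {l | ¬ (Φ l ∈ Ω ↔ l ∈ Ω)}.Finite

end Free

namespace Ext

variable {E H : Type} [Group E] [Group H] {n : ℕ} (X : Ext E H n)

/-- Restriction to a pair `(E', S)` with `E'` onto `H`; the quotient group stays `H`. -/
def restrictTop {E' : Subgroup E} {S : Subgroup (Fr n)} (h : X.Pair E' S)
    (hon : E'.map X.π = ⊤) {r : ℕ} (b : Fr r ≃* S) : Ext E' H r where
  π := X.π.comp E'.subtype
  ρ := (X.restrict h b).ρ
  j := (X.restrict h b).j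
  surj := fun x => by
    obtain ⟨e, he, rfl⟩ : x ∈ E'.map X.π := hon ▸ Subgroup.mem_top x
    exact ⟨⟨e, he⟩, rfl⟩
  ker := by
    rw [← (X.restrict h b).ker]
    ext e
    simp only [MonoidHom.mem_ker]
    exact ⟨fun h1 => Subtype.ext h1, fun h1 => congrArg Subtype.val h1⟩
  ρ_j := (X.restrict h b).ρ_j
  conj_j := (X.restrict h b).conj_j

/-- The minimal subtrees of the translates of `B` under `K` lie in finitely many cosets of `N`. -/
def Strip (K : Subgroup E) (N B : Subgroup (Fr n)) : Prop :=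
  ∃ Ω : Set (Fr n), Ω.Finite ∧ ∀ k ∈ K, TT (X.ρ k • B) ⊆ (N : Set (Fr n)) * Ω

/-- Every finitely generated subgroup of `N` lies in one whose translates under `K` fall into
finitely many `N`-conjugacy classes. -/
def FC (K : Subgroup E) (N : Subgroup (Fr n)) : Prop :=
  ∀ B ≤ N, B.FG → ∃ P, B ≤ P ∧ P ≤ N ∧ P.FG ∧ ∃ A : Set (Subgroup (Fr n)), A.Finite ∧
    ∀ k ∈ K, ∃ g ∈ N, MulAut.conj g • (X.ρ k • P) ∈ A

/-- `σ` is a section over `M`. -/
def Sec {M : Subgroup H} (σ : M →* E) : Prop := ∀ x, X.π (σ x) = x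

/-- The elements fixed by all `σ x`. -/
def Fix {Γ : Type} [Group Γ] (σ : Γ →* E) : Subgroup (Fr n) where
  carrier := {g | ∀ x, X.ρ (σ x) g = g}
  mul_mem' := fun {a b} ha hb x => by rw [map_mul, ha x, hb x]
  one_mem' := fun x => map_one _
  inv_mem' := fun {a} ha x => by rw [map_inv, ha x]

/-- The normalizer of the section `σ`. -/
def NE {M : Subgroup H} [M.Normal] (σ : M →* E) : Subgroup E where
  carrier := {e | ∀ x : M, σ (MulAut.conjNormal (X.π e) x) = e * σ x * e⁻¹}
  mul_mem' := fun {a b} ha hb x => by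
    rw [map_mul, map_mul, MulAut.mul_apply, ha, hb]
    group
  one_mem' := fun x => by simp
  inv_mem' := fun {a} ha x => by
    have h := ha (MulAut.conjNormal (X.π a⁻¹) x)
    rw [← MulAut.mul_apply, ← map_mul, ← map_mul, mul_inv_cancel, map_one, map_one,
      MulAut.one_apply] at h
    rw [h]
    group

/-- The section `σ` transported by `e`. -/
def twist {M : Subgroup H} [M.Normal] (σ : M →* E) (e : E) : M →* E :=
  (MulAut.conj e).toMonoidHom.comp (σ.comp (MulAut.conjNormal (X.π e)⁻¹ : MulAut M).toMonoidHom)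

/-- Some set that is anchored at `w` is preserved by all `σ x`. -/
def Anc {Γ : Type} [Group Γ] (σ : Γ →* E) (w : Fr n) : Prop :=
  ∃ P, Anch w P ∧ ∀ x, ∀ p ∈ P, X.ρ (σ x) p ∈ P

/-- `σ` and `τ` are conjugate by an element of the free group. -/
def CjS {Γ : Type} [Group Γ] (σ τ : Γ →* E) : Prop :=
  ∃ g : Fr n, ∀ x, τ x = X.j g * σ x * (X.j g)⁻¹

/-- A wild level with an ordered quotient and bounded strips. -/
structure Lvl (Y : Subgroup H) (N : Subgroup (Fr n)) (E₀ : Subgroup E) : Prop where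
  normal : N.Normal
  inv : X.Inv N
  nil : ∃ c, (⊤ : Subgroup (Fr n)).lowerCentralSeries c ≤ N
  wild : ¬ X.Tame N
  onto : E₀.map X.π = Y
  cap : ∀ g, X.j g ∈ E₀ ↔ g ∈ N
  ord : OrdKer (E₀.subgroupOf (Y.comap X.π))
  strip : ∀ B ≤ N, B.FG → NonAb B → X.Strip E₀ N B

/-- Everything the deterministic part of the proof uses. -/
structure Ctx (G : Subgroup H) (o : BiOrd (Fr n)) : Prop where
  two : 2 ≤ n
  normal : G.Normal
  fgH : Group.FG H
  under : Under G (cA n)
  fg : (YY G).FG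
  sp : SPE G
  ord : X.OrdOn o ⁅G, G⁆
  unip : ∀ e, X.π e ∈ ⁅G, G⁆ →
    Unip (matHom n '' (Subgroup.zpowers (X.ρ e) : Set (MulAut (Fr n))))
  six : ∀ e, X.π e ∈ G → ∀ i j, (6 : ℤ) ∣ (mat (X.ρ e) - 1) i j
  ih : ∀ E' S, X.Pair E' S → BI (E'.map X.π) (cA n) → S.FG → rk S < n → YY G ≤ X.kerIn E' S

/-- A counterexample of full rank inside `X`. -/
structure BadU (Y : Subgroup H) (E' : Subgroup E) (S : Subgroup (Fr n)) : Prop where
  pair : X.Pair E' S
  onto : E'.map X.π = ⊤
  fg : S.FG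
  rank : rk S = n
  bad : ¬ Y ≤ X.kerIn E' S

/-- A height: a homomorphism from `E` to a bi-ordered group and a compatible invariant order of the
free group. -/
structure Ht (Q : Type) [Group Q] where
  o : BiOrd (Fr n)
  oQ : BiOrd Q
  lam : E →* Q
  pres : ∀ e, o.Pres (X.ρ e)
  compat : ∀ g, lam (X.j g) ∈ oQ.P → g ∈ o.P

namespace Ht

variable {X} {Q : Type} [Group Q] (h : X.Ht Q)

/-- The elements of the free group of height one. -/
def N : Subgroup (Fr n) := (h.lam.comp X.j).ker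

/-- The first homology of the free group with coefficients in the series field. -/
abbrev V : Type := VV (MN.of h.o) ⊤

/-- The series supported in `N`. -/
abbrev DN : Type := MN.sub h.o h.N

/-- The action of `E` on the homology. -/
def act (e : E) : AddMonoid.End h.V := xuAct h.o (X.ρ e) (h.pres e)

/-- The class of a cycle. -/
def cls (z : Fr n →₀ MN h.o) (hz : z ∈ ZZ (MN.of h.o) ⊤) : h.V :=
  ⟨(Rel (MN.of h.o) ⊤).mkQ z, z, hz, rfl⟩

/-- The heights that occur in `v`. -/
def vals (v : h.V) : Set Q :=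
  {q | ∃ (a : E) (i : Fin n) (g : Fr n),
    g ∈ (xuFun h.o i (h.act a⁻¹ v)).supp ∧ q = h.lam (a * X.j g)}

/-- All heights are at least `q`. -/
def Ge (q : Q) (v : h.V) : Prop := ∀ x ∈ h.vals v, x = q ∨ h.oQ.lt q x

/-- All heights are larger than `q`. -/
def Gt (q : Q) (v : h.V) : Prop := ∀ x ∈ h.vals v, h.oQ.lt q x

end Ht

end Ext

/-- The uniform main statement in rank `n`. -/
def MainU (n : ℕ) : Prop :=
  ∀ d : ℕ, ∃ m L : ℕ, ∀ (E H : Type) [Group E] [Group H] (X : Ext E H n),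
    DG H d → NFL H L → YY (Hm H m) ≤ X.kerIn ⊤ ⊤

end Pool.Agent.Lib.MP_9ac97d_al
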