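import Pool.Agent.Lib.MP_9ac97d_al.UIdx

/-!
# A finite dimensional invariant space and its height filtration (task UFin)
-/

set_option autoImplicit false

noncomputable section

open Pointwise

namespace Pool.Agent.Lib.MP_9ac97d_al

theorem ufin_rank {K V : Type} [DivisionRing K] [AddCommGroup V] [Module K V]
    {W W' : Submodule K V} [Module.Finite K W] (hle : W' ≤ W) {r : ℕ}
    (hr : ∀ (m : ℕ) (w : Fin m → V), (∀ i, w i ∈ W) →
      (∀ d : Fin m → K, ∑ i, d i • w i ∈ W' → ∀ i, d i = 0) → m ≤ r) :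
    Module.finrank K W ≤ Module.finrank K W' + r := by
  set W₀ : Submodule K W := W'.comap W.subtype with hW₀
  have h1 := Submodule.finrank_quotient_add_finrank W₀
  have h2 : Module.finrank K W₀ = Module.finrank K W' :=
    (Submodule.comapSubtypeEquivOfLe hle).finrank_eq
  let b := Module.finBasis K (W ⧸ W₀)
  choose w hw using fun i => W₀.mkQ_surjective (b i)
  have h3 := hr _ (fun i => (w i : V)) (fun i => (w i).2) fun d hd => by
    have h4 : ∑ i, d i • w i ∈ W₀ := by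
      refine Submodule.mem_comap.2 ?_
      rw [map_sum]
      exact hd
    have h5 : ∑ i, d i • b i = 0 := by
      have h6 := (Submodule.Quotient.mk_eq_zero W₀).2 h4
      rw [← Submodule.mkQ_apply, map_sum] at h6
      simpa only [map_smul, hw] using h6
    exact Fintype.linearIndependent_iff.1 b.linearIndependent d h5
  omega

namespace Ext.Ht

variable {E H Q : Type} [Group E] [Group H] [Group Q] {n : ℕ} {X : Ext E H n} (h : X.Ht Q)

theorem ufin_of_ne {p : Fr n} (hp : p ≠ 1) : MN.of h.o p ≠ 1 := fun h1 =>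
  hp (MN.of_injective (h1.trans (map_one _).symm))

open Classical in
/-- The class of a basic cycle. -/
def ufin_zc (p g : Fr n) : h.V :=
  if hp : p = 1 then 0 else
    h.cls _ (zeta_mem_zz (MN.of h.o) (Subgroup.mem_top p) (h.ufin_of_ne hp) (Subgroup.mem_top g))

theorem ufin_zc_eq {p : Fr n} (hp : p ≠ 1) (g : Fr n)
    (hz : zeta (MN.of h.o) p g ∈ ZZ (MN.of h.o) ⊤) : h.ufin_zc p g = h.cls _ hz := dif_neg hp

theorem ufin_zc_val {p : Fr n} (hp : p ≠ 1) (g : Fr n) :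
    (h.ufin_zc p g).1 = (Rel (MN.of h.o) ⊤).mkQ (zeta (MN.of h.o) p g) := by
  rw [ufin_zc, dif_neg hp]
  rfl

theorem ufin_act_zc (e : E) {p : Fr n} (hp : p ≠ 1) (g : Fr n) :
    h.act e (h.ufin_zc p g) = h.ufin_zc (X.ρ e p) (X.ρ e g) := by
  have hp' : X.ρ e p ≠ 1 := by simpa using hp
  have hz := zeta_mem_zz (MN.of h.o) (Subgroup.mem_top p) (h.ufin_of_ne hp) (Subgroup.mem_top g)
  have hz' := zeta_mem_zz (MN.of h.o) (Subgroup.mem_top (X.ρ e p)) (h.ufin_of_ne hp')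
    (Subgroup.mem_top (X.ρ e g))
  rw [h.ufin_zc_eq hp g hz, h.act_cls e hz (by rw [chainMap_zeta]; exact hz')]
  apply Subtype.ext
  rw [h.ufin_zc_val hp']
  exact congrArg (Rel (MN.of h.o) ⊤).mkQ (chainMap_zeta _ _ (h.pres e) p g)

theorem ufin_zc_mul {p : Fr n} (hp : p ≠ 1) (a b : Fr n) :
    h.ufin_zc p (a * b) = h.ufin_zc p a + MN.of h.o a • h.ufin_zc p b := by
  apply Subtype.ext
  rw [Submodule.coe_add, Submodule.coe_smul, h.ufin_zc_val hp, h.ufin_zc_val hp, h.ufin_zc_val hp]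
  simp only [zeta, map_sub, MBasic_mk_single,
    MBasic_dl_mul (MN.of h.o) (Subgroup.mem_top a) (Subgroup.mem_top b), one_smul,
    smul_sub, smul_smul, map_mul, sub_mul, sub_smul, one_mul, mul_assoc]
  abel

theorem ufin_zc_one {p : Fr n} (hp : p ≠ 1) : h.ufin_zc p 1 = 0 := by
  have h1 := h.ufin_zc_mul hp 1 1
  rw [mul_one, map_one, one_smul] at h1
  exact left_eq_add.1 h1

theorem ufin_zc_change {p p₀ : Fr n} (hp : p ≠ 1) (hp₀ : p₀ ≠ 1) (g : Fr n) :
    h.ufin_zc p g = h.ufin_zc p₀ g -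
      ((MN.of h.o g - 1) * (MN.of h.o p - 1)⁻¹) • h.ufin_zc p₀ p := by
  apply Subtype.ext
  rw [Submodule.coe_sub, Submodule.coe_smul, h.ufin_zc_val hp, h.ufin_zc_val hp₀,
    h.ufin_zc_val hp₀]
  simp only [zeta, map_sub, MBasic_mk_single, one_smul, smul_sub, smul_smul]
  rw [← mul_assoc, mul_assoc (MN.of h.o g - 1) _ (MN.of h.o p - 1),
    inv_mul_cancel₀ (sub_ne_zero.2 (h.ufin_of_ne hp)), mul_one]
  abel

/-- The span of the basic classes of `S`. -/
def ufin_M (S : Subgroup (Fr n)) : Submodule h.DN h.V :=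
  Submodule.span h.DN {v | ∃ p ∈ S, p ≠ 1 ∧ ∃ g ∈ S, v = h.ufin_zc p g}

theorem ufin_smul_mem {W : Submodule h.DN h.V} {d : MN h.o} (hd : d ∈ MN.sub h.o h.N) {v : h.V}
    (hv : v ∈ W) : d • v ∈ W := W.smul_mem ⟨d, hd⟩ hv

theorem ufin_M_fg {S : Subgroup (Fr n)} (hS : S ≤ h.N) (hfg : S.FG) : (h.ufin_M S).FG := by
  by_cases h0 : ∃ p₀ ∈ S, p₀ ≠ 1
  · obtain ⟨p₀, hp₀S, hp₀⟩ := h0
    obtain ⟨T, hT, hf⟩ := (Subgroup.fg_iff S).1 hfg
    have hall : ∀ g ∈ S, h.ufin_zc p₀ g ∈ Submodule.span h.DN (h.ufin_zc p₀ '' T) := by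
      intro g hg
      rw [← hT] at hg
      induction hg using Subgroup.closure_induction with
      | mem x hx => exact Submodule.subset_span ⟨x, hx, rfl⟩
      | one => rw [h.ufin_zc_one hp₀]; exact zero_mem _
      | mul x y hx hy ihx ihy =>
        rw [hT] at hx
        rw [h.ufin_zc_mul hp₀]
        exact add_mem ihx (h.ufin_smul_mem (MN.of_mem_sub (hS hx)) ihy)
      | inv x hx ih =>
        rw [hT] at hx
        have h1 := h.ufin_zc_mul hp₀ x⁻¹ x
        rw [inv_mul_cancel, h.ufin_zc_one hp₀] at h1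
        rw [eq_neg_of_add_eq_zero_left h1.symm]
        exact neg_mem (h.ufin_smul_mem (MN.of_mem_sub (hS (S.inv_mem hx))) ih)
    refine Submodule.fg_def.2 ⟨h.ufin_zc p₀ '' T, hf.image _, le_antisymm ?_ ?_⟩
    · refine Submodule.span_mono ?_
      rintro _ ⟨t, ht, rfl⟩
      exact ⟨p₀, hp₀S, hp₀, t, hT ▸ Subgroup.subset_closure ht, rfl⟩
    · refine Submodule.span_le.2 ?_
      rintro _ ⟨p, hpS, hp, g, hg, rfl⟩
      rw [SetLike.mem_coe, h.ufin_zc_change hp hp₀]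
      refine sub_mem (hall g hg) (h.ufin_smul_mem ?_ (hall p hpS))
      exact mul_mem (sub_mem (MN.of_mem_sub (hS hg)) (one_mem _))
        (inv_mem (sub_mem (MN.of_mem_sub (hS hpS)) (one_mem _)))
  · refine Submodule.fg_def.2 ⟨∅, Set.finite_empty, ?_⟩
    rw [ufin_M]
    congr 1
    symm
    rw [Set.eq_empty_iff_forall_notMem]
    rintro _ ⟨p, hpS, hp, -⟩
    exact h0 ⟨p, hpS, hp⟩

theorem ufin_fg_smul {S : Subgroup (Fr n)} (hS : S.FG) (Φ : MulAut (Fr n)) : (Φ • S).FG := by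
  obtain ⟨T, hT, hf⟩ := (Subgroup.fg_iff S).1 hS
  refine (Subgroup.fg_iff _).2 ⟨_, ?_, hf.image (MulDistribMulAction.toMonoidEnd _ _ Φ)⟩
  rw [← hT]
  exact (MonoidHom.map_closure _ _).symm

theorem ufin_vals_ker {k : E} (hk : k ∈ h.lam.ker) (v : h.V) : h.vals (h.act k v) = h.vals v := by
  rw [h.vals_act, MonoidHom.mem_ker.1 hk]
  simp

/-- Take `P ≥ B` from `FC` and let `U` be the span over `DN` of the classes of the `zeta p g`,
`p ≠ 1`, `p, g ∈ ρ k • P`, `k ∈ ker lam`. It is invariant (`act_cls`, `chainMap_zeta`). Finite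
dimension: conjugation by `c ∈ N` multiplies the classes by `of c` (`act_j`), so finitely many groups
`P'` suffice; for one `P'` with `p₀ ≠ 1`, `zeta p g = zeta p₀ g - c • zeta p₀ p` with
`c = (of g - 1) * (of p - 1)⁻¹ ∈ DN`, and `g ↦ zeta p₀ g` is a derivation modulo `Rel`. The heights:
`vals_finite` for `P` (`FC.strip`), `vals_act`, `exists_sub`. -/
theorem exists_fin_sub (hfi : (h.lam.ker.map X.π).FiniteIndex) (hFC : X.FC h.lam.ker h.N)
    {B : Subgroup (Fr n)} (hB : B ≤ h.N) (hfg : B.FG) :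
    ∃ U : Submodule h.DN h.V, Module.Finite h.DN U ∧ (∀ k ∈ h.lam.ker, ∀ v ∈ U, h.act k v ∈ U) ∧
      (∃ Val : Set Q, Val.Finite ∧ ∀ v ∈ U, h.vals v ⊆ Val) ∧
      ∀ p ∈ B, p ≠ 1 → ∀ g ∈ B, ∀ hz : zeta (MN.of h.o) p g ∈ ZZ (MN.of h.o) ⊤,
        h.cls _ hz ∈ U := by
  obtain ⟨P, hBP, hPN, hPfg, A, hA, hAk⟩ := hFC B hB hfg
  refine ⟨Submodule.span h.DN {v | ∃ k ∈ h.lam.ker, ∃ p ∈ P, p ≠ 1 ∧ ∃ g ∈ P,
    v = h.ufin_zc (X.ρ k p) (X.ρ k g)}, ?_, ?_, ?_, ?_⟩
  · have hA₀ : {S | S ∈ A ∧ S ≤ h.N ∧ S.FG}.Finite := hA.subset fun S hS => hS.1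
    have hfin : (⨆ S ∈ hA₀.toFinset, h.ufin_M S).FG :=
      Submodule.fg_biSup _ _ fun S hS =>
        h.ufin_M_fg (hA₀.mem_toFinset.1 hS).2.1 (hA₀.mem_toFinset.1 hS).2.2
    have : Module.Finite h.DN (⨆ S ∈ hA₀.toFinset, h.ufin_M S : Submodule h.DN h.V) :=
      Module.Finite.iff_fg.2 hfin
    refine Submodule.finiteDimensional_of_le (S₂ := ⨆ S ∈ hA₀.toFinset, h.ufin_M S) ?_
    refine Submodule.span_le.2 ?_
    rintro _ ⟨k, hk, p, hp, hp1, g, hg, rfl⟩
    obtain ⟨c, hc, hcA⟩ := hAk k hk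
    have e : MulAut.conj c • (X.ρ k • P) = X.ρ (X.j c * k) • P := by
      rw [map_mul, X.ρ_j, mul_smul]
    rw [e] at hcA
    have hmem : X.ρ (X.j c * k) • P ∈ hA₀.toFinset := by
      refine hA₀.mem_toFinset.2 ⟨hcA, ?_, ufin_fg_smul hPfg _⟩
      rw [← h.inv_N (X.j c * k)]
      exact Subgroup.pointwise_smul_le_pointwise_smul_iff.2 hPN
    refine (le_iSup₂ (f := fun S (_ : S ∈ hA₀.toFinset) => h.ufin_M S) _ hmem) ?_
    have hp' : X.ρ (X.j c * k) p ≠ 1 := by simpa using hp1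
    have e2 : h.ufin_zc (X.ρ k p) (X.ρ k g) =
        MN.of h.o c⁻¹ • h.ufin_zc (X.ρ (X.j c * k) p) (X.ρ (X.j c * k) g) := by
      rw [← h.act_j, h.ufin_act_zc _ hp', ← MulAut.mul_apply, ← MulAut.mul_apply, ← map_mul,
        map_inv, inv_mul_cancel_left]
    rw [e2]
    refine h.ufin_smul_mem (MN.of_mem_sub (h.N.inv_mem hc)) (Submodule.subset_span ?_)
    exact ⟨_, Subgroup.smul_mem_pointwise_smul _ _ _ hp, hp', _,
      Subgroup.smul_mem_pointwise_smul _ _ _ hg, rfl⟩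
  · intro k hk v hv
    induction hv using Submodule.span_induction with
    | mem x hx =>
      obtain ⟨k', hk', p, hp, hp1, g, hg, rfl⟩ := hx
      refine Submodule.subset_span ⟨k * k', mul_mem hk hk', p, hp, hp1, g, hg, ?_⟩
      rw [h.ufin_act_zc _ (by simpa using hp1), map_mul, MulAut.mul_apply, MulAut.mul_apply]
    | zero => rw [map_zero]; exact zero_mem _
    | add x y _ _ ihx ihy => rw [map_add]; exact add_mem ihx ihy
    | smul d x _ ih =>
      have e : h.act k (d • x) = MN.map (X.ρ k) (h.pres k) d • h.act k x := h.act_smul k d x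
      rw [e]
      exact h.ufin_smul_mem (h.map_mem_DN k d.2) ih
  · obtain ⟨Val, hVal, hv⟩ := h.vals_finite hfi hPN (hFC.strip h.inv_N hPN hPfg)
    obtain ⟨W, hW⟩ := h.exists_sub fun x => x ∈ Val
    refine ⟨Val, hVal, fun v hv' => (hW v).1 ?_⟩
    refine (Submodule.span_le.2 ?_ : _ ≤ W) hv'
    rintro _ ⟨k, hk, p, hp, hp1, g, hg, rfl⟩
    rw [SetLike.mem_coe, hW, ← h.ufin_act_zc k hp1, h.ufin_vals_ker hk, h.ufin_zc_eq hp1 g
      (zeta_mem_zz _ (Subgroup.mem_top p) (h.ufin_of_ne hp1) (Subgroup.mem_top g))]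
    exact hv _ _ (zeta_mem_zz _ hp (h.ufin_of_ne hp1) hg) (coefIn_zeta _ (hPN hp) (hPN hg))
  · intro p hp hp1 g hg hz
    refine Submodule.subset_span ⟨1, one_mem _, p, hBP hp, hp1, g, hBP hg, ?_⟩
    rw [map_one, MulAut.one_apply, MulAut.one_apply, h.ufin_zc_eq hp1 g hz]

/-- Let `q` be the least height that occurs in `W` and `W' = W ⊓ Gt q` (`exists_sub`). Lift a basis
of `W ⧸ W'` and apply `ind1`. -/
theorem exists_step {W : Submodule h.DN h.V} [Module.Finite h.DN W] (hW : W ≠ ⊥)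
    (hinv : ∀ k ∈ h.lam.ker, ∀ v ∈ W, h.act k v ∈ W) {Val : Set Q} (hVal : Val.Finite)
    (hv : ∀ v ∈ W, h.vals v ⊆ Val) :
    ∃ W' < W, (∀ k ∈ h.lam.ker, ∀ v ∈ W', h.act k v ∈ W') ∧
      Module.finrank h.DN W ≤ Module.finrank h.DN W' + (n - 1) := by
  have hS : {x | ∃ v ∈ W, x ∈ h.vals v}.Finite := hVal.subset fun x ⟨v, hvW, hx⟩ => hv v hvW hx
  obtain ⟨v₀, hv₀, hv₀'⟩ := (Submodule.ne_bot_iff W).1 hW
  obtain ⟨x₀, hx₀⟩ := h.vals_nonempty hv₀'
  obtain ⟨q, ⟨v₁, hv₁, hq₁⟩, hq⟩ := (h.oQ.wo_of_finite hS).exists_min ⟨x₀, v₀, hv₀, hx₀⟩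
  obtain ⟨G, hG⟩ := h.exists_sub fun x => h.oQ.lt q x
  refine ⟨W ⊓ G, lt_of_le_of_ne inf_le_left fun he => ?_, fun k hk v hv' => ⟨hinv k hk v hv'.1, ?_⟩,
    ?_⟩
  · have h1 : v₁ ∈ W ⊓ G := he.symm ▸ hv₁
    exact h.oQ.lt_irrefl q ((hG v₁).1 h1.2 q hq₁)
  · have h1 := (hG v).1 hv'.2
    refine (hG _).2 ?_
    rw [h.ufin_vals_ker hk]
    exact h1
  · refine ufin_rank inf_le_left fun m w hw hi => ?_
    have h3 := h.ind1 w q (fun i x hx => hq x ⟨w i, hw i, hx⟩) fun d hd =>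
      hi d ⟨sum_mem fun i _ => W.smul_mem _ (hw i), (hG _).2 hd⟩
    rwa [Fintype.card_fin] at h3

end Ext.Ht

/-- Restriction of coefficient functions to `N`; the inverse is extension by zero. -/
theorem exists_subEquiv {G : Type} [Group G] (o : BiOrd G) (N : Subgroup G) (o' : BiOrd N)
    (h : ∀ x : N, (x : G) ∈ o.P ↔ x ∈ o'.P) :
    ∃ e : MN.sub o N ≃+* MN o', ∀ (x : MN.sub o N) (g : N), (e x).c g = (x : MN o).c g := by
  classical
  have hlt : ∀ x y : N, o'.lt x y ↔ o.lt x y := fun x y => (h (x⁻¹ * y)).symm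
  have hwo : ∀ x : MN o, o'.WO (Function.support fun g : N => x.c g) := by
    intro x
    rw [BiOrd.wo_iff]
    intro u hu hl
    exact o.wo_iff.1 x.wo (fun k => u k) hu fun k => (hlt _ _).1 (hl k)
  let f : MN.sub o N →+* MN o' :=
    { toFun := fun x => MN.mk (fun g : N => (x : MN o).c g) (hwo x)
      map_one' := by
        ext g
        change (MN.single 1 1 : MN o).c g = (MN.single 1 1 : MN o').c g
        rw [MN.c_single, MN.c_single]
        simp
      map_mul' := fun x y => by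
        ext g
        change ∑ᶠ a : G, (x : MN o).c a * (y : MN o).c (a⁻¹ * g) =
          ∑ᶠ a : N, (x : MN o).c a * (y : MN o).c ((a : G)⁻¹ * g)
        have h1 := finsum_set_coe_eq_finsum_mem (f := fun a : G =>
          (x : MN o).c a * (y : MN o).c (a⁻¹ * g)) (N : Set G)
        rw [finsum_mem_def, Set.indicator_eq_self.2 fun a ha => x.2 (left_ne_zero_of_mul ha)] at h1
        exact h1.symm
      map_zero' := by ext g; rfl
      map_add' := fun x y => by ext g; rfl }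
  refine ⟨RingEquiv.ofBijective f ⟨f.injective, fun y => ?_⟩, fun x g => rfl⟩
  have hs : ∀ g : G, (if hg : g ∈ N then y.c ⟨g, hg⟩ else 0) ≠ 0 →
      ∃ hg : g ∈ N, y.c ⟨g, hg⟩ ≠ 0 := by
    intro g hg
    by_cases h1 : g ∈ N
    · exact ⟨h1, by rwa [dif_pos h1] at hg⟩
    · exact absurd (dif_neg h1) hg
  have hw : o.WO (Function.support fun g : G => if hg : g ∈ N then y.c ⟨g, hg⟩ else 0) := by
    rw [BiOrd.wo_iff]
    intro u hu hl
    choose hN hy using fun k => hs (u k) (hu k)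
    exact o'.wo_iff.1 y.wo (fun k => ⟨u k, hN k⟩) hy fun k => (hlt _ _).2 (hl k)
  refine ⟨⟨MN.mk _ hw, fun g hg => (hs g hg).1⟩, ?_⟩
  ext g
  exact dif_pos g.2

end Pool.Agent.Lib.MP_9ac97d_al
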