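import Pool.Agent.Lib.MP_9ac97d_al.USec
import Pool.Agent.Lib.MP_9ac97d_al.UMin

/-!
# Fixed groups of sections (task UFix)
-/

set_option autoImplicit false

noncomputable section

open Pointwise

namespace Pool.Agent.Lib.MP_9ac97d_al

theorem ufix_pres_conj {G : Type} [Group G] (o : BiOrd G) (g : G) : o.Pres (MulAut.conj g) := by
  intro x
  rw [MulAut.conj_apply]
  refine ⟨fun h => ?_, o.conj_mem g x⟩
  have := o.conj_mem g⁻¹ _ h
  rwa [show g⁻¹ * (g * x * g⁻¹) * g⁻¹⁻¹ = x by group] at this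

open Classical in
/-- If minimal relations live on one block, then all relations split into blocks. -/
theorem ufix_split {D V κ κ' : Type} [DivisionRing D] [AddCommGroup V] [Module D V]
    {W : Submodule D V} {R : κ → Submodule D V} (hR : ∀ i, R i ≤ W) (v : κ' → V) (ii : κ' → κ)
    (P : κ' → Prop)
    (h : ∀ (F : Finset κ') (d₀ : κ' → D), (∀ k ∈ F, P k) → (∃ k ∈ F, d₀ k ≠ 0) →
      ∑ k ∈ F, d₀ k • v k ∈ W → ∃ (d : κ' → D) (k₀ : κ'), k₀ ∈ F ∧ d k₀ = 1 ∧
        (∀ k ∈ F, d k ≠ 0 → ii k = ii k₀) ∧ ∑ k ∈ F, d k • v k ∈ R (ii k₀))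
    (F : Finset κ') : ∀ d₀ : κ' → D, (∀ k ∈ F, P k) → ∑ k ∈ F, d₀ k • v k ∈ W →
      ∀ i, ∑ k ∈ F, (if ii k = i then d₀ k • v k else 0) ∈ R i := by
  induction F using Finset.strongInduction with
  | H F ih =>
    intro d₀ hP hW i
    by_cases h0 : ∃ k ∈ F, d₀ k ≠ 0
    · obtain ⟨d, k₀, hk₀, hd1, hd2, hd3⟩ := h F d₀ hP h0 hW
      have e0 : d₀ k₀ - d₀ k₀ * d k₀ = 0 := by rw [hd1, mul_one, sub_self]
      have h1 := ih (F.erase k₀) (Finset.erase_ssubset hk₀) (fun k => d₀ k - d₀ k₀ * d k)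
        (fun k hk => hP k (Finset.mem_of_mem_erase hk)) (by
          rw [Finset.sum_erase _ (by simp only [e0, zero_smul])]
          simp only [sub_smul, mul_smul, Finset.sum_sub_distrib, ← Finset.smul_sum]
          exact W.sub_mem hW (W.smul_mem _ (hR _ hd3))) i
      rw [Finset.sum_erase _ (by simp only [e0, zero_smul, ite_self])] at h1
      have h2 : ∑ k ∈ F, (if ii k = i then d k • v k else 0) ∈ R i := by
        by_cases hi : ii k₀ = i
        · rw [← hi, Finset.sum_congr rfl (g := fun k => d k • v k)]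
          · exact hd3
          · intro k hk
            split_ifs with c
            · rfl
            · rw [not_not.1 (mt (hd2 k hk) c), zero_smul]
        · rw [Finset.sum_eq_zero]
          · exact zero_mem _
          · intro k hk
            split_ifs with c
            · rw [not_not.1 (mt (hd2 k hk) fun c' => hi (c'.symm.trans c)), zero_smul]
            · rfl
      have h3 := (R i).add_mem h1 ((R i).smul_mem (d₀ k₀) h2)
      rw [Finset.smul_sum, ← Finset.sum_add_distrib] at h3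
      convert h3 using 2 with k
      split_ifs
      · rw [sub_smul, mul_smul, sub_add_cancel]
      · rw [smul_zero, add_zero]
    · push Not at h0
      rw [Finset.sum_eq_zero]
      · exact zero_mem _
      · intro k hk
        rw [h0 k hk, zero_smul, ite_self]

namespace Ext

variable {E H : Type} [Group E] [Group H] {n : ℕ} (X : Ext E H n)

theorem ufix_min {Γ κ κ' : Type} [Group Γ] [Fintype κ'] {o : BiOrd (Fr n)} (σ : κ → Γ →* E)
    (hπ : ∀ i k x, X.π (σ i x) = X.π (σ k x)) (ho : ∀ i x, o.Pres (X.ρ (σ i x)))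
    (hne : ∀ i k, X.CjS (σ i) (σ k) → i = k) (b : κ) (ii : κ' → κ) (p g : κ' → Fr n)
    (hp : ∀ k, p k ∈ X.Fix (σ (ii k))) (hg : ∀ k, g k ∈ X.Fix (σ (ii k))) (hp1 : ∀ k, p k ≠ 1)
    {d₀ : κ' → MN o} (h₀ : d₀ ≠ 0)
    (hd₀ : ∑ k, d₀ k • zeta (MN.of o) (p k) (g k) ∈ Rel (MN.of o) ⊤) :
    ∃ (d : κ' → MN o) (k₀ : κ'), d k₀ = 1 ∧ (∀ k, d k ≠ 0 → ii k = ii k₀) ∧
      ∑ k, d k • zeta (MN.of o) (p k) (g k) ∈ Rel (MN.of o) (X.Fix (σ (ii k₀))) := by
  choose a ha using fun i x => X.exists_j_of_π_eq (hπ i b x)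
  have e : ∀ i x, X.ρ (σ i x) = MulAut.conj (a i x) * X.ρ (σ b x) := fun i x => by
    rw [ha i x, map_mul, X.ρ_j]
  have hz : ∀ k, zeta (MN.of o) (p k) (g k) ∈ ZZ (MN.of o) (X.Fix (σ (ii k))) := fun k =>
    zeta_mem_zz _ (hp k) (fun h => hp1 k (MN.of_injective (h.trans (map_one _).symm))) (hg k)
  obtain ⟨d, k₀, h1, h2, h3⟩ := minrel (fun x => chainMap o (X.ρ (σ b x)) (ho b x))
    (fun x => (MN.map (X.ρ (σ b x)) (ho b x)).toRingHom) (fun x c z => chainMap_smul o _ _ c z)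
    (Rel (MN.of o) ⊤) (fun x z hz => by
      have := chainMap_mem_rel o _ (ho b x) hz
      rwa [xbasic_smul_top] at this)
    (fun k => zeta (MN.of o) (p k) (g k)) (fun x k => MN.of o (a (ii k) x)⁻¹) (fun x k => by
      have h4 := chainMap_mul o (MulAut.conj (a (ii k) x)) (X.ρ (σ b x)) (ufix_pres_conj o _)
        (ho b x) (e (ii k) x ▸ ho (ii k) x) (zeta (MN.of o) (p k) (g k))
      rw [chainMap_zeta, ← e, hp k x, hg k x, chainMap_conj] at h4
      have h5 := chainMap_mem_zz o _ (ho b x) (zz_mono _ le_top (hz k))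
      rw [xbasic_smul_top] at h5
      have h6 := neg_mem (tau_sub_mem_rel (MN.of o) (Subgroup.mem_top (a (ii k) x)) h5)
      rw [neg_sub] at h6
      convert h6 using 2
      conv_lhs => rw [h4]
      rw [smul_smul, ← map_mul, inv_mul_cancel, map_one, one_smul]) h₀ hd₀
  have h3' : ∀ x k, MN.map (X.ρ (σ b x)) (ho b x) (d k) * MN.of o (a (ii k) x)⁻¹ =
      MN.of o (a (ii k₀) x)⁻¹ * d k := h3
  have h4 : ∀ k, d k ≠ 0 → ii k = ii k₀ := fun k hk => by
    obtain ⟨m, -, hm⟩ := min_twist hk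
    refine hne _ _ ⟨m, fun x => ?_⟩
    have h5 := hm _ _ _ _ (h3' x k)
    have h6 : X.ρ (σ b x) m = (a (ii k₀) x)⁻¹ * m * a (ii k) x := by rw [← h5]; group
    have h7 := X.conj_j (σ b x) m
    rw [h6, map_mul, map_mul, map_inv] at h7
    rw [ha (ii k₀) x, ha (ii k) x]
    have h8 : X.j (a (ii k₀) x) = X.j m * X.j (a (ii k) x) *
        (σ b x * X.j m * (σ b x)⁻¹)⁻¹ := by rw [h7]; group
    rw [h8]
    group
  have h5 : ∀ k, d k ∈ MN.sub o (X.Fix (σ (ii k₀))) := fun k => by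
    by_cases hk : d k = 0
    · rw [hk]; exact zero_mem _
    intro l hl x
    refine supp_fix (ho (ii k₀) x) ?_ l hl
    have h6 := h3' x k
    rw [h4 k hk] at h6
    have h7 : MN.map (X.ρ (σ (ii k₀) x)) (ho _ x) (d k) = MN.map (MulAut.conj (a (ii k₀) x))
        (ufix_pres_conj o _) (MN.map (X.ρ (σ b x)) (ho b x) (d k)) := by
      ext l
      rw [MN.c_map, MN.c_map, MN.c_map, e, mul_inv_rev, MulAut.mul_apply]
    rw [h7, MN.map_conj, mul_assoc, h6, ← mul_assoc, ← map_mul, mul_inv_cancel, map_one, one_mul]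
  refine ⟨d, k₀, h1, h4, mem_rel_of_coefIn o le_top (fun l => ?_) ?_ h2⟩
  · rw [Finsupp.finsetSum_apply]
    refine sum_mem fun k _ => ?_
    by_cases hk : d k = 0
    · rw [hk, zero_smul]; exact zero_mem _
    rw [Finsupp.smul_apply, smul_eq_mul]
    exact mul_mem (h5 k) (coefIn_zeta o (h4 k hk ▸ hp k) (h4 k hk ▸ hg k) l)
  · refine Submodule.sum_mem _ fun k _ => ?_
    by_cases hk : d k = 0
    · rw [hk, zero_smul]; exact zero_mem _
    exact Submodule.smul_mem _ _ (h4 k hk ▸ (hz k).1)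

/-- The homologies of the fixed groups of pairwise non-conjugate lifts are independent. -/
theorem fix_ind {Γ κ : Type} [Group Γ] [Fintype κ] {o : BiOrd (Fr n)} (σ : κ → Γ →* E)
    (hπ : ∀ i k x, X.π (σ i x) = X.π (σ k x)) (ho : ∀ i x, o.Pres (X.ρ (σ i x)))
    (hne : ∀ i k, X.CjS (σ i) (σ k) → i = k) :
    Ind (MN.of o) ⊤ fun i => X.Fix (σ i) := by
  classical
  intro z hz hsum
  have hc : ∀ i, ∃ (p : Fr n) (c : Fr n →₀ MN o), p ∈ X.Fix (σ i) ∧
      (∀ g ∈ c.support, g ∈ X.Fix (σ i) ∧ p ≠ 1) ∧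
      z i - ∑ g ∈ c.support, c g • zeta (MN.of o) p g ∈ Rel (MN.of o) (X.Fix (σ i)) := by
    intro i
    rcases (X.Fix (σ i)).bot_or_exists_ne_one with h | ⟨p, hp, hp1⟩
    · refine ⟨1, 0, one_mem _, by simp, ?_⟩
      have := hz i
      simp only [h] at this ⊢
      simpa using zz_bot_le _ this
    · obtain ⟨u, hu, w, hw, huw⟩ := Submodule.mem_sup.1 (zz_le_span_zeta (MN.of o)
        (Subgroup.closure_eq _) hp (fun h => hp1 (MN.of_injective (h.trans (map_one _).symm)))
        (hz i))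
      obtain ⟨c, hc, rfl⟩ := (Finsupp.mem_span_image_iff_linearCombination _).1 hu
      refine ⟨p, c, hp, fun g hg => ⟨hc hg, hp1⟩, ?_⟩
      rw [← huw, Finsupp.linearCombination_apply, Finsupp.sum, add_sub_cancel_left]
      exact hw
  choose p c hp hc hr using hc
  have key := ufix_split (κ' := Σ _ : κ, Fr n) (W := Rel (MN.of o) ⊤)
    (R := fun i => Rel (MN.of o) (X.Fix (σ i))) (fun i => rel_mono _ le_top)
    (fun k => zeta (MN.of o) (p k.1) k.2) (fun k => k.1)
    (fun k => k.2 ∈ X.Fix (σ k.1) ∧ p k.1 ≠ 1) (fun F d₀ hP ⟨k, hk, hk0⟩ hW => by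
      obtain ⟨d, k₀, h1, h2, h3⟩ := X.ufix_min (κ' := F) σ hπ ho hne k.1 (fun k => k.1.1)
        (fun k => p k.1.1) (fun k => k.1.2) (fun k => hp _) (fun k => (hP _ k.2).1)
        (fun k => (hP _ k.2).2) (d₀ := fun k => d₀ k.1) (fun h => hk0 (congrFun h ⟨k, hk⟩))
        (by rwa [← Finset.sum_coe_sort F] at hW)
      refine ⟨fun k => if h : k ∈ F then d ⟨k, h⟩ else 0, k₀.1, k₀.2, by simp [h1],
        fun k hk hk' => h2 ⟨k, hk⟩ (by simpa [hk] using hk'), ?_⟩
      rw [← Finset.sum_coe_sort F]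
      simpa using h3)
    (Finset.univ.sigma fun i => (c i).support) (fun k => c k.1 k.2)
    (fun k hk => hc _ _ (Finset.mem_sigma.1 hk).2) (by
      rw [Finset.sum_sigma]
      have := sub_mem hsum (Submodule.sum_mem (Rel (MN.of o) ⊤)
        fun i (_ : i ∈ Finset.univ) => rel_mono _ le_top (hr i))
      rwa [Finset.sum_sub_distrib, sub_sub_cancel] at this)
  intro i
  have h1 := key i
  rw [Finset.sum_sigma, Finset.sum_eq_single i (fun k _ hk => by simp [hk]) (by simp)] at h1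
  simp only [if_true] at h1
  simpa using add_mem (hr i) h1

/-- A section with a nonabelian fixed group has a normalizer of bounded index. -/
theorem fix_nice {M : Subgroup H} [M.Normal] {o : BiOrd (Fr n)} (ho : X.OrdOn o M) {σ : M →* E}
    (hσ : X.Sec σ) (hna : NonAb (X.Fix σ)) :
    (X.Fix σ).FG ∧ rk (X.Fix σ) ≤ n ∧ BI ((X.NE σ).map X.π) (n - 1) ∧
      (rk (X.Fix σ) = n → (X.NE σ).map X.π = ⊤) := by
  have hT : (⊤ : Subgroup (Fr n)).FG := Group.fg_def.1 inferInstance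
  have h1 := (X.fix_ind (κ := Unit) (o := o) (fun _ => σ) (fun _ _ _ => rfl)
    (fun _ x => ho _ (hσ x ▸ x.2)) fun _ _ _ => rfl).rk_le _ MN.of_injective hT fun _ => le_top
  have h2 := nonAb_iff_two_le_rk' (h1.1 ()) hna
  have h3 := h1.2
  rw [rk_top, Fintype.sum_unique] at h3
  have key : ∀ a : ℕ, n - 1 < (a + 1) * (rk (X.Fix σ) - 1) → BI ((X.NE σ).map X.π) a := by
    intro a ha
    refine X.bi_ne_of_count σ fun e => ?_
    by_contra hcon
    push Not at hcon
    have h4 := ((X.fix_ind (o := o) (fun i => X.twist σ (e i))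
      (fun i k x => (X.sec_twist hσ _ x).trans (X.sec_twist hσ _ x).symm)
      (fun i x => ho _ (X.sec_twist hσ (e i) x ▸ x.2))
      fun i k h => not_not.1 fun h' => hcon i k h' h).rk_le _ MN.of_injective hT
        fun _ => le_top).2
    simp only [X.fix_twist, rk_smul, rk_top, Finset.sum_const, Finset.card_univ, Fintype.card_fin,
      smul_eq_mul] at h4
    omega
  refine ⟨h1.1 (), by omega, key _ ?_, fun h => ?_⟩
  · have := Nat.mul_le_mul_left (n - 1 + 1) (show 1 ≤ rk (X.Fix σ) - 1 by omega)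
    omega
  · have h5 := key 1 (by omega)
    exact Subgroup.index_eq_one.1 (by have := h5.1; have := h5.2; omega)

end Ext

end Pool.Agent.Lib.MP_9ac97d_al
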