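import Pool.Agent.Lib.MP_9ac97d_al.UPair
import Pool.Agent.Lib.MP_9ac97d_al.UCyc

/-!
# Gluing (task UGlue)
-/

set_option autoImplicit false

noncomputable section

open Pointwise

namespace Pool.Agent.Lib.MP_9ac97d_al

namespace Ext

variable {E H : Type} [Group E] [Group H] {n : ℕ} (X : Ext E H n)

theorem uglue_anc {Γ : Type} [Group Γ] {E' : Subgroup E} {S : Subgroup (Fr n)} (hN : NonAb S)
    (hE : E' ≤ X.norm S) {m : ℕ} {U : Set (Fr n)} (hU : U ∈ UU S m) {σ : Γ →* E}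
    (h : ∀ x, σ x ∈ X.xglue_cst E' U) {w : Fr n} (hw : w ≠ 1) {k : ℕ} (hk : k ≠ 0)
    (hk' : w ^ k ∈ vstab S (head S (UU S m) U)) : X.Anc σ w := by
  have h1 : w ^ k ≠ 1 := fun h2 => hw ((pow_eq_one_iff_left hk).1 h2)
  refine ⟨opp S U, (anch_opp hN hU hk' h1).of_commute h1 hw (Commute.pow_self w k),
    fun x p hp => ?_⟩
  obtain ⟨h2, h3⟩ := X.xglue_mem_cst.1 (h x)
  have h4 := smul_opp (X.mem_norm.1 (hE h2)) U
  rw [h3] at h4
  rw [← h4]
  exact Set.smul_mem_smul_set hp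

theorem uglue_ne_bot {S : Subgroup (Fr n)} (hN : NonAb S) : S ≠ ⊥ := by
  rintro rfl
  obtain ⟨a, ha, b, -, hab⟩ := hN
  rw [Subgroup.mem_bot] at ha
  subst ha
  exact hab (Commute.one_left b)

theorem uglue_pred_le (n : ℕ) : n - 1 ≤ 4 * n ^ 2 := by
  have : n ≤ n ^ 2 := Nat.le_self_pow (by norm_num) n
  omega

/-- Let `τ'` be the section over `YY G` with values in `cent (vstab S v)` (`xglue_lift`,
`xglue_uniq_cent`) and `τ` its restriction. Then `σ x = j (u x) * τ x` with `u x` in the normalizer of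
`vstab S v` (`estab_le_norm`, `xglue_cst_le_estab`), which `τ'` fixes (`cent_le_cent_normalizer`). By
`pair_comm` the `u x` generate a cyclic group `zpowers w`. If `w ≠ 1`, a power of `w` lies in
`vstab S v` (`exists_pow_mem`, `vstab_fg_rk`), so `opp S U` is anchored at `w` (`anch_opp`,
`Anch.of_commute`, `smul_opp`), and `cyc` applies (`fix_nice` for `τ`). -/
theorem glue_nonAb {G : Subgroup H} {o : BiOrd (Fr n)} (hc : X.Ctx G o) {Y₀ : Subgroup H}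
    [Y₀.Normal] (hle : Y₀ ≤ YY G) (hfi : (Y₀.subgroupOf (YY G)).FiniteIndex) {E' : Subgroup E}
    {S : Subgroup (Fr n)} (hS : S.FG) (hN : NonAb S) (hE : E' ≤ X.norm S) {m : ℕ}
    (hinv : ∀ e ∈ E', X.ρ e • UU S m = UU S m) {U : Set (Fr n)} (hU : U ∈ UU S m)
    (hv : NonAb (vstab S (head S (UU S m) U)))
    (hv' : YY G ≤ X.kerIn ⊤ (vstab S (head S (UU S m) U))) {σ : Y₀ →* E} (hσ : X.Sec σ)
    (hσ' : ∀ x, σ x ∈ X.xglue_cst E' U) (h1 : BI ((X.NE σ).map X.π) (4 * n ^ 2)) (x : Y₀) :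
    σ x ∈ X.cent (vstab S (head S (UU S m) U)) := by
  set V := vstab S (head S (UU S m) U) with hV
  obtain ⟨τ', hτ'⟩ := X.xglue_lift (YY G) (X.cent V)
    (fun y hy => Subgroup.map_mono inf_le_right (hv' hy)) (X.xglue_uniq_cent hv)
  let τ : Y₀ →* E := τ'.comp (Subgroup.inclusion hle)
  have hτs : X.Sec τ := fun y => (hτ' _).2
  choose u hu using fun y => X.exists_j_of_π_eq (e := σ y) (e' := τ y) (by rw [hσ y, hτs y])
  have hun : ∀ y, u y ∈ Subgroup.normalizer (V : Set (Fr n)) := by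
    intro y
    have h2 : X.j (u y) ∈ X.norm V := by
      rw [← mul_inv_eq_iff_eq_mul.2 (hu y)]
      exact Subgroup.mul_mem _ (X.estab_le_norm hE _ (X.xglue_cst_le_estab hE hinv U (hσ' y)))
        (Subgroup.inv_mem _ (X.xglue_cent_le_norm _ (hτ' _).1))
    rw [mem_norm, X.ρ_j] at h2
    exact Subgroup.mem_normalizer_iff_map_conj_eq.2 h2
  have hfix : Subgroup.normalizer (V : Set (Fr n)) ≤ X.Fix τ' := fun g hg y =>
    X.cent_le_cent_normalizer hv (hτ' y).1 g hg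
  have hVτ' : V ≤ X.Fix τ' := fun g hg y => (hτ' y).1 g hg
  have hmono : X.Fix τ' ≤ X.Fix τ := fun g hg y => hg _
  have hna : ∀ T : Subgroup (Fr n), V ≤ T → NonAb T := fun T hT => by
    obtain ⟨a, ha, b, hb, hab⟩ := hv
    exact ⟨a, hT ha, b, hT hb, hab⟩
  have hcomm := X.pair_comm hc hle hfi h1 (τ' := τ') (fun y => (hτ' y).2) (hna _ hVτ')
    (u := u) fun y => ⟨hfix (hun y), hu y⟩
  have hC : ¬ NonAb (Subgroup.closure (Set.range u)) := by
    rintro ⟨a, ha, b, hb, hab⟩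
    refine hab ?_
    have h3 : IsMulCommutative (Subgroup.closure (Set.range u)) :=
      Subgroup.isMulCommutative_closure (by
        rintro _ ⟨y, rfl⟩ _ ⟨z, rfl⟩
        exact (hcomm y z).eq)
    exact congrArg Subtype.val (h3.is_comm.comm ⟨a, ha⟩ ⟨b, hb⟩)
  obtain ⟨w, hw⟩ := exists_zpowers_of_not_nonAb hC
  have huw : ∀ y, u y ∈ Subgroup.zpowers w := fun y => hw ▸ Subgroup.subset_closure ⟨y, rfl⟩
  have hwn : w ∈ Subgroup.normalizer (V : Set (Fr n)) := by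
    have h3 : Subgroup.closure (Set.range u) ≤ Subgroup.normalizer (V : Set (Fr n)) := by
      rw [Subgroup.closure_le]
      rintro _ ⟨y, rfl⟩
      exact hun y
    exact h3 (hw ▸ Subgroup.mem_zpowers w)
  have key : σ = τ := by
    by_cases hw1 : w = 1
    · ext y
      have h3 := huw y
      rw [hw1, Subgroup.zpowers_one_eq_bot, Subgroup.mem_bot] at h3
      rw [hu y, h3, map_one, one_mul]
    have hwτ : w ∈ X.Fix τ := hmono (hfix hwn)
    obtain ⟨k, hk, hk'⟩ := exists_pow_mem (vstab_fg_rk hS hN hU).1 (uglue_ne_bot hv)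
      (Subgroup.mem_normalizer_iff_map_conj_eq.1 hwn).le
    refine X.cyc hc hle hfi hσ h1 ((X.fix_nice (o := o)
      (fun e he => hc.ord e (yy_le_comm G (hle he))) hτs
      (hna _ (hVτ'.trans hmono))).2.2.1.mono (uglue_pred_le n)) hw1 (fun y => ?_) hwτ
      (Or.inr (X.uglue_anc hN hE hU hσ' hw1 hk hk')) (Or.inl (hna _ (hVτ'.trans hmono)))
      fun y => ?_
    · obtain ⟨l, hl⟩ := Subgroup.mem_zpowers_iff.1 (huw y)
      rw [hu y, map_mul, MulAut.mul_apply, hwτ y, X.ρ_j, ← hl, MulAut.conj_apply]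
      group
    · obtain ⟨l, hl⟩ := Subgroup.mem_zpowers_iff.1 (huw y)
      exact ⟨l, by rw [hl]; exact hu y⟩
  rw [key]
  exact (hτ' _).1

/-- If `vstab S v` is not abelian both sections fix it pointwise (`glue_nonAb`), so they agree
(`xglue_uniq_cent`). Otherwise `σ x = j (u x) * σ' x` with `u x` in the abelian group
`vstab (E'.comap j) v = zpowers w` (`xglue_not_nonAb`, see `xglue_same_head`), which both sections fix
(`fix_of_pres`). If `w ≠ 1`, a power of `w` lies in `S`, so `opp S U` and `opp S U'` are anchored at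
`w`, and `cyc` applies. -/
theorem glue_head {G : Subgroup H} {o : BiOrd (Fr n)} (hc : X.Ctx G o) {Y₀ : Subgroup H}
    [Y₀.Normal] (hle : Y₀ ≤ YY G) (hfi : (Y₀.subgroupOf (YY G)).FiniteIndex) {E' : Subgroup E}
    {S : Subgroup (Fr n)} (hS : S.FG) (hN : NonAb S) (hE : E' ≤ X.norm S) {m : ℕ}
    (hinv : ∀ e ∈ E', X.ρ e • UU S m = UU S m) {U U' : Set (Fr n)} (hU : U ∈ UU S m)
    (hU' : U' ∈ UU S m) (hh : head S (UU S m) U = head S (UU S m) U')
    (hv : NonAb (vstab S (head S (UU S m) U)) →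
      YY G ≤ X.kerIn ⊤ (vstab S (head S (UU S m) U))) {σ σ' : Y₀ →* E} (hσ : X.Sec σ)
    (hσ' : X.Sec σ') (h : ∀ x, σ x ∈ X.xglue_cst E' U) (h' : ∀ x, σ' x ∈ X.xglue_cst E' U')
    (h1 : BI ((X.NE σ).map X.π) (4 * n ^ 2)) (h2 : BI ((X.NE σ').map X.π) (4 * n ^ 2)) :
    σ = σ' := by
  have hπ : ∀ x, X.π (σ x) = X.π (σ' x) := fun x => by rw [hσ x, hσ' x]
  by_cases hA : NonAb (vstab S (head S (UU S m) U))
  · ext x
    have h3 := X.glue_nonAb hc hle hfi hS hN hE hinv hU hA (hv hA) hσ h h1 x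
    have h4 := X.glue_nonAb hc hle hfi hS hN hE hinv hU' (hh ▸ hA) (hh ▸ hv hA) hσ' h' h2 x
    rw [← hh] at h4
    refine inv_mul_eq_one.1 (X.xglue_uniq_cent hA _
      (Subgroup.mul_mem _ (Subgroup.inv_mem _ h3) h4) ?_)
    rw [map_mul, map_inv, hπ, inv_mul_cancel]
  have hA' := X.xglue_not_nonAb hS hN hE hA
  have he : ∀ x, σ x ∈ X.estab E' (head S (UU S m) U) := fun x =>
    X.xglue_cst_le_estab hE hinv U (h x)
  have he' : ∀ x, σ' x ∈ X.estab E' (head S (UU S m) U) := fun x =>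
    hh ▸ X.xglue_cst_le_estab hE hinv U' (h' x)
  obtain ⟨w, hw⟩ := exists_zpowers_of_not_nonAb hA'
  have hwm : w ∈ vstab (E'.comap X.j) (head S (UU S m) U) := hw ▸ Subgroup.mem_zpowers w
  have hfix : ∀ τ : Y₀ →* E, X.Sec τ → (∀ x, τ x ∈ X.estab E' (head S (UU S m) U)) →
      w ∈ X.Fix τ := fun τ hτ hτ' x =>
    fix_of_pres (hc.ord (τ x) (by rw [hτ x]; exact yy_le_comm G (hle x.2))) hA'
      (X.mem_norm.1 (X.estab_le_norm (X.xglue_le_norm_comap E') _ (hτ' x))) w hwm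
  have hθ : ∀ x, ∃ k : ℤ, σ x = X.j (w ^ k) * σ' x := by
    intro x
    obtain ⟨g, hg⟩ := X.exists_j_of_π_eq (hπ x)
    have h3 : X.j g ∈ X.estab E' (head S (UU S m) U) := by
      rw [← mul_inv_eq_iff_eq_mul.2 hg]
      exact Subgroup.mul_mem _ (he x) (Subgroup.inv_mem _ (he' x))
    obtain ⟨h4, h5⟩ := X.xglue_mem_estab.1 h3
    rw [X.ρ_j] at h5
    have h6 : g ∈ Subgroup.zpowers w := hw ▸ xglue_mem_vstab.2 ⟨h4, h5⟩
    obtain ⟨k, hk⟩ := Subgroup.mem_zpowers_iff.1 h6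
    exact ⟨k, by rw [hk]; exact hg⟩
  by_cases hw1 : w = 1
  · ext x
    obtain ⟨k, hk⟩ := hθ x
    rw [hk, hw1, one_zpow, map_one, one_mul]
  have h3 := X.mem_norm.1 (hE (xglue_mem_vstab.1 hwm).1)
  rw [X.ρ_j] at h3
  obtain ⟨k, hk, hk'⟩ := exists_pow_mem hS (uglue_ne_bot hN) h3.le
  have h4 : w ^ k ∈ vstab S (head S (UU S m) U) := xglue_mem_vstab.2
    ⟨hk', (xglue_mem_vstab.1 (Subgroup.pow_mem _ hwm k)).2⟩
  exact X.cyc hc hle hfi hσ h1 h2 hw1 (hfix σ hσ he) (hfix σ' hσ' he')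
    (Or.inr (X.uglue_anc hN hE hU h hw1 hk h4))
    (Or.inr (X.uglue_anc hN hE hU' h' hw1 hk (hh ▸ h4))) hθ

/-- Copy the proof of `glue`, with `glue_head` in place of `xglue_same_head`. -/
theorem glueU {G : Subgroup H} {o : BiOrd (Fr n)} (hc : X.Ctx G o) {Y₀ : Subgroup H}
    [Y₀.Normal] (hle : Y₀ ≤ YY G) (hfi : (Y₀.subgroupOf (YY G)).FiniteIndex) {E' : Subgroup E}
    {S : Subgroup (Fr n)} (hS : S.FG) (hN : NonAb S) (hE : E' ≤ X.norm S)
    (hj : ∀ s ∈ S, X.j s ∈ E') {m : ℕ} (hne : (UU S m).Nonempty)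
    (hinv : ∀ e ∈ E', X.ρ e • UU S m = UU S m)
    (hcst : ∀ U ∈ UU S m, Y₀ ≤ (X.xglue_cst E' U).map X.π)
    (hv : ∀ U ∈ UU S m, NonAb (vstab S (head S (UU S m) U)) →
      YY G ≤ X.kerIn ⊤ (vstab S (head S (UU S m) U)))
    (hnice : ∀ U ∈ UU S m, ∀ σ : Y₀ →* E, X.Sec σ → (∀ x, σ x ∈ X.xglue_cst E' U) →
      BI ((X.NE σ).map X.π) (4 * n ^ 2)) : Y₀ ≤ X.kerIn E' S := by
  intro x' hx'
  obtain ⟨x, rfl⟩ : ∃ x : Y₀, (x : H) = x' := ⟨⟨x', hx'⟩, rfl⟩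
  have hσ : ∀ U ∈ UU S m, ∃ σ : Y₀ →* E, ∀ x, σ x ∈ X.xglue_cst E' U ∧ X.π (σ x) = x :=
    fun U hU => X.xglue_lift Y₀ _ (fun y hy => hcst U hU hy) (X.xglue_uniq_cst hN hE hU)
  obtain ⟨U₀, hU₀⟩ := hne
  obtain ⟨σ₀, hσ₀⟩ := hσ U₀ hU₀
  have he : σ₀ x ∈ E' := (X.xglue_mem_cst.1 (hσ₀ x).1).1
  have step : ∀ U U', Adjc S (UU S m) U U' → σ₀ x ∈ X.xglue_cst E' U →
      σ₀ x ∈ X.xglue_cst E' U' := by
    rintro U U' ⟨hU, hU', rfl | h⟩ h1
    · refine X.xglue_mem_cst.2 ⟨he, ?_⟩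
      rw [smul_opp (X.mem_norm.1 (hE he)), (X.xglue_mem_cst.1 h1).2]
    · obtain ⟨σ, h2⟩ := hσ U hU
      obtain ⟨σ', h2'⟩ := hσ U' hU'
      have h3 : σ₀ x = σ x := by
        refine inv_mul_eq_one.1 (X.xglue_uniq_cst hN hE hU _
          (Subgroup.mul_mem _ (Subgroup.inv_mem _ h1) (h2 x).1) ?_)
        rw [map_mul, map_inv, (hσ₀ x).2, (h2 x).2, inv_mul_cancel]
      have h4 : σ = σ' :=
        X.glue_head hc hle hfi hS hN hE hinv hU hU' h (hv U hU) (fun y => (h2 y).2)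
          (fun y => (h2' y).2) (fun y => (h2 y).1) (fun y => (h2' y).1)
          (hnice U hU σ (fun y => (h2 y).2) fun y => (h2 y).1)
          (hnice U' hU' σ' (fun y => (h2' y).2) fun y => (h2' y).1)
      rw [h3, h4]
      exact (h2' x).1
  have hall : ∀ U ∈ UU S m, X.ρ (σ₀ x) • U = U := by
    intro U hU
    obtain ⟨-, -, -, hconn⟩ := dual_tree hN m
    have h5 := hconn U₀ hU₀ U hU
    clear hU
    refine (X.xglue_mem_cst.1 (?_ : σ₀ x ∈ X.xglue_cst E' U)).2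
    induction h5 with
    | refl => exact (hσ₀ x).1
    | tail _ hadj ih => exact step _ _ hadj ih
  refine ⟨σ₀ x, ⟨he, fun s hs => ?_⟩, (hσ₀ x).2⟩
  have h6 : MulAut.conj s • U₀ ∈ UU S m := by
    have := X.xglue_smul_mem hinv (hj s hs) hU₀
    rwa [X.ρ_j] at this
  have h7 : X.ρ (σ₀ x) s ∈ S := by
    rw [← X.mem_norm.1 (hE he)]
    exact Subgroup.smul_mem_pointwise_smul _ _ _ hs
  have h8 : MulAut.conj (s⁻¹ * X.ρ (σ₀ x) s) • U₀ = U₀ := by
    have h9 : (X.ρ (σ₀ x))⁻¹ • U₀ = U₀ := inv_smul_eq_iff.2 (hall U₀ hU₀).symm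
    rw [map_mul, map_inv, mul_smul, xglue_conj_aut, mul_smul, mul_smul, h9, hall _ h6,
      inv_smul_smul]
  obtain ⟨⟨p, hp, hp'⟩, -⟩ := hU₀
  rw [← hp'] at h8
  have h10 := eq_one_of_fix_cut hN hp
    (Subgroup.conj_smul_eq_self_of_mem (S.mul_mem (S.inv_mem hs) h7)) h8
  exact (inv_mul_eq_one.1 h10).symm

end Ext

end Pool.Agent.Lib.MP_9ac97d_al
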