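import Pool.Agent.Lib.MP_9ac97d_al.UBasic

/-!
# Uniform finite generation, transfer (task UGrp)
-/

set_option autoImplicit false

noncomputable section

open Pointwise
open scoped commutatorElement

namespace Pool.Agent.Lib.MP_9ac97d_al

variable {H : Type} [Group H]

theorem ugrp_sigma {S : Set H} (hS : Subgroup.closure S = ⊤) {M : Subgroup H} [M.Normal] {T : Set H} (hT : T.Finite)
    (hTs : ∀ t ∈ T, t⁻¹ ∈ T) (hTM : Subgroup.closure T = M) {χ : H → ℝ}
    (hadd : ∀ x ∈ M, ∀ y ∈ M, χ (x * y) = χ x + χ y)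
    (hconj : ∀ h, ∀ x ∈ M, χ (h * x * h⁻¹) = χ x) {L₀ : ℕ}
    (hNF : NoFree S (1 + L₀ + 1)) (hshort : ∃ a ∈ M, a ∈ ball S L₀ ∧ χ a ≠ 0) :
    ∃ c : ℝ, 0 < c ∧ ∀ g ∈ M, ∀ g' ∈ M, PathIn T g g' fun v => min (χ g) (χ g') + c ≤ χ v := by
  obtain ⟨a, ha, haS, ha0⟩ : ∃ a ∈ M, a ∈ ball S L₀ ∧ 0 < χ a := by
    obtain ⟨a, ha, haS, ha0⟩ := hshort
    rcases lt_or_gt_of_ne ha0 with h | h
    · exact ⟨a⁻¹, M.inv_mem ha, inv_mem_ball haS, by rw [sg_inv hadd ha]; linarith⟩
    · exact ⟨a, ha, haS, h⟩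
  have hgen : ∀ s ∈ S, ∀ r,
      ∀ᶠ n : ℕ in Filter.atTop, SgJ M T χ r (a ^ n) (s * a ^ n * s⁻¹) := by
    intro s hs r
    by_contra hr
    have hb : s * a * s⁻¹ ∈ M := Subgroup.Normal.conj_mem inferInstance _ ha s
    have hs1 : s ∈ ball S 1 := mem_ball_one (Or.inl hs)
    refine hNF a (ball_mono (by omega) haS) (s * a * s⁻¹)
      (mul_mem_ball (mul_mem_ball hs1 haS) (inv_mem_ball hs1))
      (sg_free (r := r) hTs hTM hadd ha hb ha0 (hconj s a ha) ?_)
    simpa only [conj_pow] using hr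
  obtain ⟨r₀, hr₀⟩ := sg_low hTs hTM hadd ha ha0 (sg_all hT hTs hTM hadd hconj ha ha0 hS hgen)
  obtain ⟨t, ht, ht0⟩ := sg_letter hTs hTM hadd ha ha0.ne'
  have htM : t ∈ M := hTM ▸ Subgroup.subset_closure ht
  obtain ⟨n, hn⟩ := (sg_large ht0 (-r₀)).exists
  refine ⟨χ t, ht0, fun g hg g' hg' => ?_⟩
  have h1 := (sg_up hTM hadd ht ht0 n).mul_left hadd hg
  have h2 := (sg_up hTM hadd ht ht0 n).mul_left hadd hg'
  have h3 := hr₀ _ (M.mul_mem hg (M.pow_mem htM (n + 1))) _ (M.mul_mem hg' (M.pow_mem htM (n + 1)))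
  rw [hadd _ hg _ (M.pow_mem htM _), hadd _ hg' _ (M.pow_mem htM _), min_add_add_right,
    sg_pow hadd htM] at h3
  have h4 : SgJ M T χ (min (χ g) (χ g') + χ t) (g * t) (g' * t) :=
    ((h1.mono (by linarith [min_le_left (χ g) (χ g')])).trans
      (h3.mono (by push_cast; linarith))).trans
      ((h2.mono (by linarith [min_le_right (χ g) (χ g')])).symm hTs)
  obtain ⟨l, hl1, hl2, hl3⟩ := h4.list
  refine ⟨t :: (l ++ [t⁻¹]), ?_, ?_, fun k hk0 hk => ?_⟩
  · intro x hx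
    rcases List.mem_cons.1 hx with rfl | hx
    · exact ht
    · rcases List.mem_append.1 hx with hx | hx
      · exact hl1 x hx
      · rw [List.mem_singleton.1 hx]; exact hTs t ht
  · rw [List.prod_cons, List.prod_append, List.prod_singleton, ← mul_assoc, ← mul_assoc, hl2,
      mul_inv_cancel_right]
  · obtain ⟨j, rfl⟩ : ∃ j, k = j + 1 := ⟨k - 1, by omega⟩
    have hj : j ≤ l.length := by
      simp only [List.length_cons, List.length_append, List.length_nil] at hk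
      omega
    rw [List.take_succ_cons, List.prod_cons, ← mul_assoc, List.take_append_of_le_length hj]
    exact hl3 j

theorem ugrp_lcs_fg {S₀ : Set H} {L : ℕ} (hH : NFS S₀ L) (c : ℕ) (hL : 3 * 2 ^ c + 2 ≤ L) :
    ((⊤ : Subgroup H).lowerCentralSeries c).FG := by
  classical
  induction c with
  | zero => exact (Subgroup.fg_iff _).2 ⟨S₀, hH.2.1, hH.1⟩
  | succ c ih =>
    have hL' : 3 * 2 ^ c + 2 ≤ L := by
      rw [pow_succ] at hL
      omega
    replace ih := ih hL'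
    set Γ := (⊤ : Subgroup H).lowerCentralSeries c with hΓ
    have hle : (⊤ : Subgroup H).lowerCentralSeries (c + 1) ≤ Γ :=
      Subgroup.lowerCentralSeries_antitone _ (Nat.le_succ c)
    have hcomm : ∀ x ∈ Γ, ∀ h : H,
        x * h * x⁻¹ * h⁻¹ ∈ (⊤ : Subgroup H).lowerCentralSeries (c + 1) := fun x hx h =>
      Subgroup.commutator_mem_commutator hx (Subgroup.mem_top h)
    have : Group.FG Γ := (Group.fg_iff_subgroup_fg Γ).2 ih
    obtain ⟨d, p, -, hker, hfin⟩ := exists_lattice_quotient Γ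
      (((⊤ : Subgroup H).lowerCentralSeries (c + 1)).subgroupOf Γ) (by
        rw [Subgroup.commutator_le]
        intro x _ y _
        exact hcomm x x.2 y)
    set p' : H → Fin d → ℤ := fun x => if h : x ∈ Γ then (p ⟨x, h⟩).toAdd else 0 with hp'
    have hp'e : ∀ x (h : x ∈ Γ), p' x = (p ⟨x, h⟩).toAdd := fun x h => dif_pos h
    have hadd : ∀ x ∈ Γ, ∀ y ∈ Γ, p' (x * y) = p' x + p' y := by
      intro x hx y hy
      rw [hp'e _ (Γ.mul_mem hx hy), hp'e _ hx, hp'e _ hy, ← toAdd_mul, ← map_mul]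
      rfl
    have hconj : ∀ h, ∀ x ∈ Γ, p' (h * x * h⁻¹) = p' x := by
      intro h x hx
      have h1 := hcomm x⁻¹ (Γ.inv_mem hx) h
      have h2 : p' (x⁻¹ * h * x⁻¹⁻¹ * h⁻¹) = 0 := by
        rw [hp'e _ (hle h1)]
        have : p ⟨_, hle h1⟩ = 1 := hker h1
        rw [this]; rfl
      have h3 := hadd x hx _ (hle h1)
      rw [h2, add_zero] at h3
      rw [← h3]
      congr 1
      group
    obtain ⟨S, hS, hSf⟩ := (Subgroup.fg_iff Γ).1 ih
    have hTf : (S ∪ S⁻¹).Finite := hSf.union hSf.inv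
    have hTs : ∀ t ∈ S ∪ S⁻¹, t⁻¹ ∈ S ∪ S⁻¹ := by
      rintro t (ht | ht)
      · exact Or.inr (by simpa using ht)
      · exact Or.inl ht
    have hTM : Subgroup.closure (S ∪ S⁻¹) = Γ := by
      rw [Subgroup.closure_union, Subgroup.closure_inv, sup_idem, hS]
    have hNfg : (p.ker.map Γ.subtype).FG := by
      refine bns hTf hTs hTM hadd (fun x => ?_) fun θ hθ => ?_
      · constructor
        · rintro ⟨y, hy, rfl⟩
          refine ⟨y.2, ?_⟩
          rw [Subgroup.coe_subtype, hp'e _ y.2]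
          have : p y = 1 := hy
          rw [this]; rfl
        · rintro ⟨hx, h0⟩
          refine ⟨⟨x, hx⟩, ?_, rfl⟩
          rw [hp'e _ hx] at h0
          exact h0
      · have ha : ∀ x ∈ Γ, ∀ y ∈ Γ, ∑ i, θ i * (p' (x * y) i : ℝ)
            = ∑ i, θ i * (p' x i : ℝ) + ∑ i, θ i * (p' y i : ℝ) := by
          intro x hx y hy
          rw [hadd x hx y hy, ← Finset.sum_add_distrib]
          exact Finset.sum_congr rfl fun i _ => by simp [mul_add]
        have hc : ∀ h, ∀ x ∈ Γ, ∑ i, θ i * (p' (h * x * h⁻¹) i : ℝ)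
            = ∑ i, θ i * (p' x i : ℝ) := fun h x hx => by rw [hconj h x hx]
        exact ugrp_sigma hH.2.1 hTf hTs hTM (χ := fun v => ∑ i, θ i * (p' v i : ℝ)) ha hc
          (L₀ := 3 * 2 ^ c) (hH.2.2.mono (by omega))
          (exists_short_ne (χ := fun v => ∑ i, θ i * (p' v i : ℝ)) ha hc hθ hH.2.1)
    have : Group.FG p.ker :=
      (Group.fg_iff_subgroup_fg _).2 (gfg_fg_of_map Γ.subtype_injective hNfg)
    have h4 := (Group.fg_iff_subgroup_fg _).1 (Subgroup.fg_of_index_ne_zero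
      ((((⊤ : Subgroup H).lowerCentralSeries (c + 1)).subgroupOf Γ).subgroupOf p.ker))
    have h5 := gfg_fg_map (gfg_fg_map h4 p.ker.subtype) Γ.subtype
    rwa [Subgroup.map_subgroupOf_eq_of_le hker, Subgroup.map_subgroupOf_eq_of_le hle] at h5

/-- The proofs of `sigma` and `lcs_fg` with one generating set and the radius `3 * 2 ^ c + 2`. -/
theorem lcs_fgU (c : ℕ) : ∃ L : ℕ, ∀ (H : Type) [Group H], NFL H L →
    ((⊤ : Subgroup H).lowerCentralSeries c).FG :=
  ⟨3 * 2 ^ c + 2, fun _ _ ⟨_, hS⟩ => ugrp_lcs_fg hS c le_rfl⟩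

theorem ugrp_short_comm {S : Set H} {M : Subgroup H} {L₀ r : ℕ}
    (hno : NoFree S (L₀ + L₀ + L₀ + (L₀ + L₀ + L₀))) (u : M →* Fr r) (p q : M)
    (hp : (p : H) ∈ ball S L₀) (hq : (q : H) ∈ ball S L₀) : Commute (u p) (u q) := by
  by_contra hpq
  have h1 := freePair_of_not_commute hpq
  have h2 : FreePair (u (p * p)) (u (q * p * q⁻¹ * (q * p * q⁻¹))) := by
    simpa only [map_mul, map_inv] using h1
  have h3 := FreePair.of_map u h2
  have h4 := gbasic_freePair_map M.subtype M.subtype_injective h3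
  have h5 := mul_mem_ball (mul_mem_ball hq hp) (inv_mem_ball hq)
  exact hno _ (ball_mono (by omega) (mul_mem_ball hp hp)) _ (mul_mem_ball h5 h5) h4

theorem ugrp_lcs_le {S : Set H} (hS : Subgroup.closure S = ⊤) {c : ℕ} {K : Subgroup H}
    (h1 : lcomms S c ⊆ K) (h2 : ∀ s, (s ∈ S ∨ s⁻¹ ∈ S) → ∀ y ∈ K, s * y * s⁻¹ ∈ K) :
    (⊤ : Subgroup H).lowerCentralSeries c ≤ K := by
  have hN : K.Normal := ⟨fun y hy g => by
    refine gbasic_induction hS (P := fun g => g * y * g⁻¹ ∈ K) (by simpa using hy) ?_ g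
    intro s g hs hg
    have e : s * g * y * (s * g)⁻¹ = s * (g * y * g⁻¹) * s⁻¹ := by group
    rw [e]
    exact h2 s hs _ hg⟩
  rw [lcs_eq_normalClosure hS]
  exact Subgroup.normalClosure_le_normal h1

theorem ugrp_spe {S : Set H} (hS : Subgroup.closure S = ⊤) (hno : NoFree S 84) {r : ℕ}
    {M : Subgroup H} (hM : M = (⊤ : Subgroup H).lowerCentralSeries 2)
    (u : M →* Fr r) (φ : H → MulAut (Fr r))
    (heq : ∀ (g : H) (y y' : M), (y' : H) = g * y * g⁻¹ → u y' = φ g (u y)) (x y : M) :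
    Commute (u x) (u y) := by
  have hMn : M.Normal := by
    rw [hM]
    infer_instance
  have hsub : lcomms S 2 ⊆ M := by
    rw [hM, lcs_eq_normalClosure hS]
    exact Subgroup.subset_normalClosure
  have hball : lcomms S 2 ⊆ ball S 12 := lcomms_subset_ball S 2
  have hcomm := ugrp_short_comm (L₀ := 14) hno u
  have hle : ∀ C : Subgroup (Fr r), (∀ p : M, (p : H) ∈ lcomms S 2 → u p ∈ C) →
      (∀ s, (s ∈ S ∨ s⁻¹ ∈ S) → ∀ z ∈ C, φ s z ∈ C) → ∀ p : M, u p ∈ C := by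
    intro C h1 h2 p
    have h3 : M ≤ (C.comap u).map M.subtype := by
      refine hM.le.trans (ugrp_lcs_le hS (fun z hz => ⟨⟨z, hsub hz⟩, h1 _ hz, rfl⟩) ?_)
      rintro s hs _ ⟨z, hz, rfl⟩
      refine ⟨⟨s * z * s⁻¹, hMn.conj_mem _ z.2 s⟩, ?_, rfl⟩
      have e := heq s z ⟨s * z * s⁻¹, hMn.conj_mem _ z.2 s⟩ rfl
      show u _ ∈ C
      rw [e]
      exact h2 s hs _ hz
    obtain ⟨q, hq, he⟩ := h3 p.2
    rw [← Subtype.ext he]
    exact hq
  by_cases h0 : ∀ p : M, (p : H) ∈ lcomms S 2 → u p = 1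
  · have h1 := hle ⊥ (fun p hp => Subgroup.mem_bot.2 (h0 p hp)) (fun s _ z hz => by
      rw [Subgroup.mem_bot.1 hz, map_one]
      exact Subgroup.one_mem _) x
    rw [Subgroup.mem_bot.1 h1]
    exact Commute.one_left _
  · push Not at h0
    obtain ⟨x₀, hx₀, hw⟩ := h0
    have h1 := hle (Subgroup.centralizer {u x₀}) (fun p hp =>
      Subgroup.mem_centralizer_singleton_iff.2
        (hcomm p x₀ (ball_mono (by omega) (hball hp)) (ball_mono (by omega) (hball hx₀))))
      (fun s hs z hz => by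
        have hs1 : s ∈ ball S 1 := mem_ball_one hs
        have e := heq s x₀ ⟨s * x₀ * s⁻¹, hMn.conj_mem _ x₀.2 s⟩ rfl
        have c1 : Commute (φ s (u x₀)) (u x₀) := by
          rw [← e]
          exact hcomm _ x₀ (mul_mem_ball (mul_mem_ball hs1 (hball hx₀)) (inv_mem_ball hs1))
            (ball_mono (by omega) (hball hx₀))
        have c2 : Commute z (u x₀) := Subgroup.mem_centralizer_singleton_iff.1 hz
        have c3 : Commute (φ s z) (φ s (u x₀)) := c2.map (φ s)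
        have hne : φ s (u x₀) ≠ 1 := fun h => hw ((φ s).map_eq_one_iff.1 h)
        exact Subgroup.mem_centralizer_singleton_iff.2 (commute_trans hne c3 c1))
    have c1 : Commute (u x) (u x₀) := Subgroup.mem_centralizer_singleton_iff.1 (h1 x)
    have c2 : Commute (u y) (u x₀) := Subgroup.mem_centralizer_singleton_iff.1 (h1 y)
    exact commute_trans hw c1 c2.symm

/-- Finite generation and the property `SPE` of the third term of the lower central series. -/
theorem exists_yy : ∃ L : ℕ, ∀ (H : Type) [Group H] (G : Subgroup H), NFL G L →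
    (YY G).FG ∧ SPE G := by
  refine ⟨84, fun H _ G ⟨S, hS⟩ => ?_⟩
  have hmap : ((⊤ : Subgroup G).lowerCentralSeries 2).map G.subtype = YY G := by
    have h := yy_map (⊤ : Subgroup G) G.subtype
    rwa [← MonoidHom.range_eq_map, Subgroup.range_subtype] at h
  refine ⟨hmap ▸ gfg_fg_map (ugrp_lcs_fg hS 2 (by norm_num)) G.subtype, fun r u φ heq x y => ?_⟩
  let ι : (⊤ : Subgroup G).lowerCentralSeries 2 →* YY G :=
    (G.subtype.comp (Subgroup.subtype _)).codRestrict (YY G) fun z => hmap.le ⟨z, z.2, rfl⟩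
  have hsurj : ∀ z : YY G, ∃ p, ι p = z := by
    intro z
    have hz : (z : H) ∈ ((⊤ : Subgroup G).lowerCentralSeries 2).map G.subtype := hmap.ge z.2
    obtain ⟨p, hp, he⟩ := hz
    exact ⟨⟨p, hp⟩, Subtype.ext he⟩
  obtain ⟨p, rfl⟩ := hsurj x
  obtain ⟨q, rfl⟩ := hsurj y
  exact ugrp_spe hS.2.1 hS.2.2 rfl (u.comp ι) φ
    (fun g z z' h => heq g (ι z) (ι z') (congrArg Subtype.val h)) p q

/-- The function `x ↦ ψ (x ^ k)` is the transfer of `ψ`. -/
theorem exists_transfer {J I : Subgroup H} (hJI : J ≤ I) (hfi : (J.subgroupOf I).FiniteIndex)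
    (hn : ∀ x ∈ I, ∀ y ∈ J, x * y * x⁻¹ ∈ J) :
    ∃ k : ℕ, k ≠ 0 ∧ (∀ x ∈ I, x ^ k ∈ J) ∧ ∀ ψ : H → ℚ,
      (∀ x ∈ J, ∀ y ∈ J, ψ (x * y) = ψ x + ψ y) → (∀ x ∈ I, ∀ y ∈ J, ψ (x * y * x⁻¹) = ψ y) →
      ∀ x ∈ I, ∀ y ∈ I, ψ ((x * y) ^ k) = ψ (x ^ k) + ψ (y ^ k) := by
  classical
  have hN : (J.subgroupOf I).Normal := ⟨fun y hy x => hn x x.2 y hy⟩
  refine ⟨(J.subgroupOf I).index, hfi.index_ne_zero,
    fun x hx => (J.subgroupOf I).pow_index_mem ⟨x, hx⟩, fun ψ hadd hconj => ?_⟩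
  let ϕ : J.subgroupOf I →* Multiplicative ℚ :=
    MonoidHom.mk' (fun y => Multiplicative.ofAdd (ψ ((y : I) : H))) fun y z =>
      congrArg Multiplicative.ofAdd (hadd _ y.2 _ z.2)
  have h1 : ψ 1 = 0 := by
    have := hadd 1 J.one_mem 1 J.one_mem
    rw [mul_one] at this
    linarith
  have hsum : ∀ (x : H) {ι : Type} (s : Finset ι) (m : ι → ℕ), (∀ q, x ^ m q ∈ J) →
      x ^ (∑ q ∈ s, m q) ∈ J ∧ ψ (x ^ (∑ q ∈ s, m q)) = ∑ q ∈ s, ψ (x ^ m q) := by
    intro x ι s m hm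
    induction s using Finset.induction_on with
    | empty => simp [h1]
    | insert q s hq ih =>
      rw [Finset.sum_insert hq, Finset.sum_insert hq, pow_add, hadd _ (hm q) _ ih.1, ih.2]
      exact ⟨J.mul_mem (hm q) ih.1, rfl⟩
  have key : ∀ g : I, (MonoidHom.transfer ϕ g).toAdd = ψ ((g : H) ^ (J.subgroupOf I).index) := by
    intro g
    let := (J.subgroupOf I).fintypeQuotientOfFiniteIndex
    have hmem : ∀ q : I ⧸ J.subgroupOf I,
        ((q.out : I) : H)⁻¹ * (g : H) ^ Function.minimalPeriod (g • ·) q * (q.out : I) ∈ J :=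
      fun q => QuotientGroup.out_conj_pow_minimalPeriod_mem (J.subgroupOf I) g q
    have hmem2 : ∀ q : I ⧸ J.subgroupOf I, (g : H) ^ Function.minimalPeriod (g • ·) q ∈ J := by
      intro q
      have := hn _ (q.out : I).2 _ (hmem q)
      rwa [mul_assoc, mul_inv_cancel_right, mul_inv_cancel_left] at this
    rw [MonoidHom.transfer_eq_prod_quotient_orbitRel_zpowers_quot,
      Subgroup.index_eq_sum_minimalPeriod _ g, (hsum (g : H) _ _ fun q => hmem2 (Quotient.out q)).2,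
      toAdd_prod]
    refine Finset.sum_congr rfl fun q _ => ?_
    have h2 := hconj _ (I.inv_mem (q.out.out : I).2) _ (hmem2 q.out)
    rw [inv_inv] at h2
    exact h2
  intro x hx y hy
  have h3 := key (⟨x, hx⟩ * ⟨y, hy⟩)
  rw [map_mul, toAdd_mul, key, key] at h3
  exact h3.symm

theorem ugrp_fg_of_le {A : Type} [CommGroup A] {K K' : Subgroup A} (h : K'.FG) (hle : K ≤ K') :
    K.FG := by
  rw [Subgroup.fg_iff_add_fg] at h ⊢
  rw [← AddSubgroup.toIntSubmodule_toAddSubgroup K'.toAddSubgroup,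
    ← Submodule.fg_iff_addSubgroup_fg] at h
  rw [← AddSubgroup.toIntSubmodule_toAddSubgroup K.toAddSubgroup,
    ← Submodule.fg_iff_addSubgroup_fg]
  exact h.of_le fun x hx => hle hx

theorem ugrp_fg_central {Q : Type} [Group Q] {K K' : Subgroup Q} (h : K'.FG) (hle : K ≤ K')
    (hc : K' ≤ Subgroup.center Q) : K.FG := by
  let _ : CommGroup K' :=
    { (inferInstance : Group K') with
      mul_comm := fun a b => Subtype.ext (Subgroup.mem_center_iff.1 (hc b.2) a) }
  have h1 : (⊤ : Subgroup K').FG := Group.fg_def.1 ((Group.fg_iff_subgroup_fg K').2 h)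
  have h2 : (K.subgroupOf K').FG := ugrp_fg_of_le h1 le_top
  have h3 := gfg_fg_map h2 K'.subtype
  rwa [Subgroup.map_subgroupOf_eq_of_le hle] at h3

/-- Modulo a term of the lower central series every subgroup is finitely generated. -/
theorem ugrp_fg_mod [Group.FG H] (M : Subgroup H) (c : ℕ) :
    ∃ T : Set H, T.Finite ∧ T ⊆ M ∧ ∀ x ∈ M, ∃ t ∈ Subgroup.closure T,
      t⁻¹ * x ∈ (⊤ : Subgroup H).lowerCentralSeries c := by
  induction c with
  | zero => exact ⟨∅, Set.finite_empty, Set.empty_subset _, fun x _ =>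
      ⟨1, Subgroup.one_mem _, Subgroup.mem_top _⟩⟩
  | succ c ih =>
    obtain ⟨T, hT, hTM, hx⟩ := ih
    obtain ⟨S, hS, hSf⟩ := Group.fg_iff.1 (inferInstance : Group.FG H)
    set N := (⊤ : Subgroup H).lowerCentralSeries (c + 1) with hN
    set Γ := (⊤ : Subgroup H).lowerCentralSeries c with hΓ
    let π := QuotientGroup.mk' N
    have hcen : Γ.map π ≤ Subgroup.center (H ⧸ N) := by
      rintro _ ⟨x, hx, rfl⟩
      rw [Subgroup.mem_center_iff]
      intro g
      obtain ⟨h, rfl⟩ := QuotientGroup.mk'_surjective N g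
      have h1 : ⁅x, h⁆ ∈ N := Subgroup.commutator_mem_commutator hx (Subgroup.mem_top h)
      have h2 : π ⁅x, h⁆ = 1 := (QuotientGroup.eq_one_iff _).2 h1
      rw [map_commutatorElement, commutatorElement_eq_one_iff_mul_comm] at h2
      exact h2.symm
    have hsub : lcomms S c ⊆ Γ := by
      rw [hΓ, lcs_eq_normalClosure hS]
      exact Subgroup.subset_normalClosure
    have hcl : Subgroup.closure (π '' lcomms S c) ≤ Γ.map π := by
      rw [Subgroup.closure_le]
      rintro _ ⟨x, hx, rfl⟩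
      exact ⟨x, hsub hx, rfl⟩
    have hnorm : (Subgroup.closure (π '' lcomms S c)).Normal := ⟨fun a ha g => by
      rw [Subgroup.mem_center_iff.1 (hcen (hcl ha)) g, mul_inv_cancel_right]
      exact ha⟩
    have heq : Γ.map π = Subgroup.closure (π '' lcomms S c) := by
      refine le_antisymm ?_ hcl
      rw [hΓ, lcs_eq_normalClosure hS]
      exact (Subgroup.map_normalClosure_le _ _).trans
        (Subgroup.normalClosure_le_normal Subgroup.subset_closure)
    have hfg : (Γ.map π).FG := (Subgroup.fg_iff _).2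
      ⟨_, heq.symm, ((finite_ball hSf _).subset (lcomms_subset_ball S c)).image π⟩
    have hfg2 : ((M ⊓ Γ).map π).FG := ugrp_fg_central hfg (Subgroup.map_mono inf_le_right) hcen
    obtain ⟨U, hU, hUf⟩ := (Subgroup.fg_iff _).1 hfg2
    have hUs : U ⊆ π '' ((M ⊓ Γ : Subgroup H) : Set H) := fun u hu => by
      have : u ∈ (M ⊓ Γ).map π := hU ▸ Subgroup.subset_closure hu
      exact this
    obtain ⟨T', hT's, hT'f, hT'⟩ := Set.Finite.exists_subset_finite_image_eq hUf hUs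
    refine ⟨T ∪ T', hT.union hT'f, Set.union_subset hTM fun y hy => (hT's hy).1, fun x hxM => ?_⟩
    obtain ⟨t, ht, htx⟩ := hx x hxM
    have htM : t ∈ M := (Subgroup.closure_le M).2 hTM ht
    have h1 : π (t⁻¹ * x) ∈ (Subgroup.closure T').map π := by
      rw [MonoidHom.map_closure, hT', hU]
      exact ⟨_, ⟨M.mul_mem (M.inv_mem htM) hxM, htx⟩, rfl⟩
    obtain ⟨t', ht', he⟩ := h1
    refine ⟨t * t', Subgroup.mul_mem _ (Subgroup.closure_mono Set.subset_union_left ht)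
      (Subgroup.closure_mono Set.subset_union_right ht'), ?_⟩
    have h2 : t'⁻¹ * (t⁻¹ * x) ∈ N := QuotientGroup.eq.1 he
    rwa [mul_inv_rev, mul_assoc]

/-- The values of `ψ` form a subgroup of `ℚ` with bounded denominators, which is cyclic. -/
theorem exists_int_char [Group.FG H] {M : Subgroup H} {c : ℕ}
    (hc : (⊤ : Subgroup H).lowerCentralSeries c ≤ M) {ψ : H → ℚ}
    (hadd : ∀ x ∈ M, ∀ y ∈ M, ψ (x * y) = ψ x + ψ y)
    (h0 : ∀ x ∈ (⊤ : Subgroup H).lowerCentralSeries c, ψ x = 0) :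
    ∃ (θ : M →* Multiplicative ℤ) (r : ℚ), r ≠ 0 ∧ (Function.Surjective θ ∨ θ = 1) ∧
      ∀ x : M, ψ x = r * ((θ x).toAdd : ℚ) := by
  classical
  obtain ⟨T, hT, hTM, hx⟩ := ugrp_fg_mod M c
  have h1 : ψ 1 = 0 := h0 1 (Subgroup.one_mem _)
  have hinv : ∀ x ∈ M, ψ x⁻¹ = -ψ x := fun x hx => by
    have := hadd x hx x⁻¹ (M.inv_mem hx)
    rw [mul_inv_cancel, h1] at this
    linarith
  set D : ℕ := ∏ t ∈ hT.toFinset, (ψ t).den with hD
  have hD0 : (D : ℚ) ≠ 0 := by
    rw [hD]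
    exact_mod_cast Finset.prod_ne_zero_iff.2 fun t _ => (ψ t).den_nz
  let K : Subgroup H :=
    { carrier := {x | x ∈ M ∧ ∃ z : ℤ, (D : ℚ) * ψ x = z}
      mul_mem' := by
        rintro a b ⟨ha, z, hz⟩ ⟨hb, z', hz'⟩
        exact ⟨M.mul_mem ha hb, z + z', by rw [hadd a ha b hb, mul_add, hz, hz']; push_cast; ring⟩
      one_mem' := ⟨M.one_mem, 0, by rw [h1]; simp⟩
      inv_mem' := by
        rintro a ⟨ha, z, hz⟩
        exact ⟨M.inv_mem ha, -z, by rw [hinv a ha, mul_neg, hz]; push_cast; ring⟩ }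
  have hTK : Subgroup.closure T ≤ K := by
    rw [Subgroup.closure_le]
    intro t ht
    obtain ⟨m, hm⟩ : (ψ t).den ∣ D := Finset.dvd_prod_of_mem _ (hT.mem_toFinset.2 ht)
    refine ⟨hTM ht, m * (ψ t).num, ?_⟩
    rw [hm]
    push_cast
    rw [← Rat.mul_den_eq_num]
    ring
  have hint : ∀ x ∈ M, ∃ z : ℤ, (D : ℚ) * ψ x = z := by
    intro x hxM
    obtain ⟨t, ht, htx⟩ := hx x hxM
    obtain ⟨htM, z, hz⟩ := hTK ht
    refine ⟨z, ?_⟩
    have := hadd t htM _ (hc htx)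
    rw [mul_inv_cancel_left, h0 _ htx, add_zero] at this
    rw [this, hz]
  let A : AddSubgroup ℤ :=
    { carrier := {z | ∃ x ∈ M, (D : ℚ) * ψ x = z}
      add_mem' := by
        rintro z z' ⟨a, ha, hz⟩ ⟨b, hb, hz'⟩
        exact ⟨a * b, M.mul_mem ha hb, by rw [hadd a ha b hb, mul_add, hz, hz']; push_cast; ring⟩
      zero_mem' := ⟨1, M.one_mem, by rw [h1]; simp⟩
      neg_mem' := by
        rintro z ⟨a, ha, hz⟩
        exact ⟨a⁻¹, M.inv_mem ha, by rw [hinv a ha, mul_neg, hz]; push_cast; ring⟩ }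
  obtain ⟨a, ha⟩ := Int.subgroup_cyclic A
  have hmul : ∀ x : M, ∃ n : ℤ, (D : ℚ) * ψ x = n * a := by
    intro x
    obtain ⟨z, hz⟩ := hint x x.2
    have : z ∈ AddSubgroup.closure {a} := ha ▸ (⟨x, x.2, hz⟩ : z ∈ A)
    obtain ⟨n, hn⟩ := AddSubgroup.mem_closure_singleton.1 this
    exact ⟨n, by rw [hz, ← hn]; simp⟩
  by_cases ha0 : a = 0
  · refine ⟨1, 1, one_ne_zero, Or.inr rfl, fun x => ?_⟩
    obtain ⟨n, hn⟩ := hmul x
    rw [ha0] at hn
    have : ψ x = 0 := by simpa [hD0] using hn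
    simp [this]
  · have ha0' : (a : ℚ) ≠ 0 := by exact_mod_cast ha0
    choose f hf using hmul
    have hfadd : ∀ x y : M, f (x * y) = f x + f y := by
      intro x y
      have h2 := hf (x * y)
      rw [Subgroup.coe_mul, hadd _ x.2 _ y.2, mul_add, hf x, hf y, ← add_mul] at h2
      have h3 := mul_right_cancel₀ ha0' h2
      exact_mod_cast h3.symm
    let θ : M →* Multiplicative ℤ := MonoidHom.mk' (fun x => Multiplicative.ofAdd (f x))
      fun x y => by rw [hfadd, ofAdd_add]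
    refine ⟨θ, a / D, div_ne_zero ha0' hD0, Or.inl fun z => ?_, fun x => ?_⟩
    · have : z.toAdd * a ∈ A := by
        rw [ha]
        exact AddSubgroup.mem_closure_singleton.2 ⟨z.toAdd, by simp⟩
      obtain ⟨x, hxM, hx⟩ := this
      refine ⟨⟨x, hxM⟩, ?_⟩
      have h2 := hf ⟨x, hxM⟩
      rw [hx] at h2
      push_cast at h2
      have h3 : z.toAdd = f ⟨x, hxM⟩ := by exact_mod_cast mul_right_cancel₀ ha0' h2
      show Multiplicative.ofAdd (f ⟨x, hxM⟩) = z
      rw [← h3, ofAdd_toAdd]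
    · show ψ x = a / D * ((f x : ℤ) : ℚ)
      have h2 := hf x
      field_simp
      linarith

/-- A finitely generated abelian torsion group is finite. -/
theorem finiteIndex_of_pow {M K : Subgroup H} (hM : M.FG) (hc : ⁅M, M⁆ ≤ K)
    (h : ∀ x ∈ M, ∃ k : ℕ, k ≠ 0 ∧ x ^ k ∈ K) : (K.subgroupOf M).FiniteIndex := by
  have : Group.FG M := (Group.fg_iff_subgroup_fg M).2 hM
  obtain ⟨d, p, -, hker, hfin⟩ := exists_lattice_quotient M (K.subgroupOf M) (by
    rw [Subgroup.commutator_le]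
    intro x _ y _
    exact hc (Subgroup.commutator_mem_commutator x.2 y.2))
  have htop : p.ker = ⊤ := by
    rw [eq_top_iff]
    intro x _
    obtain ⟨k, hk, hx⟩ := h x x.2
    have h1 : p (x ^ k) = 1 := hker (show x ^ k ∈ K.subgroupOf M from hx)
    rw [map_pow] at h1
    have h2 : k • (p x).toAdd = 0 := by rw [← toAdd_pow, h1, toAdd_one]
    have h3 : (p x).toAdd = 0 := (smul_eq_zero.1 h2).resolve_left hk
    exact h3
  rw [htop] at hfin
  refine ⟨?_⟩
  rw [← Subgroup.relIndex_top_right]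
  exact hfin.index_ne_zero

theorem ugrp_comm {M K : Subgroup H} [M.Normal] [K.Normal] (h : (K.subgroupOf M).index ≠ 0) :
    ∃ (X : Type) (_ : Finite X) (f : H →* Equiv.Perm X),
      Nat.card X = (K.subgroupOf M).index ∧ ⁅M, f.ker⁆ ≤ K := by
  let π := QuotientGroup.mk' K
  have hn : (M.map π).Normal := Subgroup.Normal.map inferInstance π (QuotientGroup.mk'_surjective K)
  have hcard : Nat.card (M.map π) = (K.subgroupOf M).index := by
    rw [← Subgroup.relIndex_ker, QuotientGroup.ker_mk']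
    rfl
  have hfin : Finite (M.map π) := Nat.finite_of_card_ne_zero (hcard ▸ h)
  refine ⟨M.map π, hfin, ((MulAut.toPerm _).comp (MulAut.conjNormal (H := M.map π))).comp π, hcard, ?_⟩
  rw [Subgroup.commutator_le]
  intro m hm g hg
  have h1 := congrArg Subtype.val
    (DFunLike.congr_fun (MonoidHom.mem_ker.1 hg) ⟨π m⁻¹, m⁻¹, M.inv_mem hm, rfl⟩)
  have h2 : π g * π m⁻¹ * (π g)⁻¹ = π m⁻¹ := h1
  apply (QuotientGroup.eq_one_iff _).1
  change π ⁅m, g⁆ = 1
  rw [commutatorElement_def, map_mul, map_mul, map_mul, map_inv π g, mul_assoc, mul_assoc,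
    ← mul_assoc (π g), h2, ← map_mul, mul_inv_cancel, map_one]

/-- `H` acts by conjugation on the finite image of `M` in `H ⧸ K`; take the kernel. -/
theorem exists_bi_comm {M K : Subgroup H} [M.Normal] [K.Normal] {r : ℕ}
    (h : BI (K.subgroupOf M) r) : ∃ H₁ : Subgroup H, BI H₁ r.factorial ∧ ⁅M, H₁⁆ ≤ K := by
  obtain ⟨X, hX, f, hcard, hle⟩ := ugrp_comm h.1
  refine ⟨f.ker, (bi_ker_of_finite f).mono ?_, hle⟩
  rw [Nat.card_perm, hcard]
  exact Nat.factorial_le h.2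

end Pool.Agent.Lib.MP_9ac97d_al
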