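import Pool.Agent.Lib.MP_9ac97d_al.UBasic

/-!
# Unipotent automorphisms with an inner power are inner (task UInn)
-/

set_option autoImplicit false

noncomputable section

open Pointwise

namespace Pool.Agent.Lib.MP_9ac97d_al

variable {n : ℕ}

theorem uinn_short {Φ : MulAut (Fr n)} (hΦ : ∀ w, tl (Φ w) = tl w) :
    ∃ g : Fr n, ∀ i, dd 1 ((MulAut.conj g * Φ) (FreeGroup.of i)) ≤ 1 := by
  have h1 : ∀ i : Fin n, dd 1 (FreeGroup.of i) = 1 := fun i =>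
    dd_eq_one.2 ⟨i, Or.inl (one_mul _).symm⟩
  have h2 : ∀ i, Φ (FreeGroup.of i) ≠ 1 := fun i h => by
    have h3 := h1 i
    rw [Φ.map_eq_one_iff.1 h, dd_self] at h3
    omega
  have h3 : ∀ i j, (Ax (Φ (FreeGroup.of i)) ∩ Ax (Φ (FreeGroup.of j))).Nonempty := fun i j => by
    rcases meet_or_bridge (h2 i) (h2 j) with h | ⟨p, hp, q, hq, hpq, h4, h5⟩
    · exact h
    have h6 := (bridge (h2 i) (h2 j) hp hq hpq h4 h5).2.2.2
    have h7 := tl_pos (h2 i)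
    have h8 := tl_pos (h2 j)
    have h9 : dd p q ≠ 0 := fun h => hpq (dd_eq_zero.1 h)
    have h10 := tl_le (FreeGroup.of i * FreeGroup.of j) 1
    have h11 := dd_triangle 1 (FreeGroup.of i * 1) (FreeGroup.of i * FreeGroup.of j)
    rw [dd_mul_left, mul_one, h1, h1] at h11
    rw [← map_mul, hΦ] at h6
    rw [mul_one] at h10
    omega
  obtain ⟨y, hy⟩ : ∃ y, ∀ i, y ∈ Ax (Φ (FreeGroup.of i)) := by
    rcases isEmpty_or_nonempty (Fin n) with h | ⟨⟨b⟩⟩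
    · exact ⟨1, fun i => h.elim i⟩
    · obtain ⟨y, -, hy⟩ := tcore_helly Finset.univ b (fun i => Ax (Φ (FreeGroup.of i)))
        (fun i p m q hp hq hm => ax_convex hp hq hm) h3
      exact ⟨y, fun i => hy i (Finset.mem_univ i)⟩
  refine ⟨y⁻¹, fun i => ?_⟩
  have h4 := mem_ax_iff.1 (hy i)
  have h5 := tl_le (FreeGroup.of i) 1
  rw [mul_one, h1] at h5
  rw [MulAut.mul_apply, MulAut.conj_apply, inv_inv, mul_assoc, ← tcore_dd, inv_inv, mul_one, h4, hΦ]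
  exact h5

theorem uinn_expo {y : Fr n} (hy : dd 1 y ≤ 1) (i : Fin n) :
    (expo i y).toAdd ≤ 1 ∧ ((expo i y).toAdd = 1 → y = FreeGroup.of i) := by
  rcases Nat.le_one_iff_eq_zero_or_eq_one.1 hy with h | h
  · rw [← dd_eq_zero.1 h]
    simp
  · obtain ⟨j, h | h⟩ := dd_eq_one.1 h
    · rw [h, one_mul, tfilt_expo_of]
      split_ifs with hj
      · exact ⟨le_rfl, fun _ => by rw [hj]⟩
      · exact ⟨zero_le_one, fun h => absurd h zero_ne_one⟩
    · rw [eq_inv_of_mul_eq_one_left h.symm, map_inv, toAdd_inv, tfilt_expo_of]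
      split_ifs <;> simp

/-- A unipotent automorphism that preserves translation lengths is inner: after an inner
correction it permutes the letters, and the trace of its matrix is `n`. -/
theorem inner_of_tl {Φ : MulAut (Fr n)}
    (hΦ : Unip (matHom n '' (Subgroup.zpowers Φ : Set (MulAut (Fr n)))))
    (h : ∀ w, tl (Φ w) = tl w) : ∃ g, Φ = MulAut.conj g := by
  obtain ⟨g, hg⟩ := uinn_short h
  have h1 : (mat Φ⁻¹ - 1) ^ n = 0 := by
    have h2 := hΦ (List.replicate n (mat Φ⁻¹)) (fun A hA => by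
      rw [List.eq_of_mem_replicate hA]
      exact ⟨Φ⁻¹, Subgroup.inv_mem _ (Subgroup.mem_zpowers Φ), rfl⟩) List.length_replicate
    rwa [List.map_replicate, List.prod_replicate] at h2
  have h2 : (mat Φ⁻¹ - 1).trace = 0 :=
    (Matrix.isNilpotent_trace_of_isNilpotent ⟨n, h1⟩).eq_zero
  have h3 : mat (MulAut.conj g * Φ)⁻¹ = mat Φ⁻¹ := by
    rw [mul_inv_rev, mat_mul, ← map_inv MulAut.conj, mat_conj, mul_one]
  rw [Matrix.trace_sub, sub_eq_zero, ← h3] at h2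
  have h4 : ∀ i, mat (MulAut.conj g * Φ)⁻¹ i i =
      (expo i ((MulAut.conj g * Φ) (FreeGroup.of i))).toAdd := fun i => by
    rw [mat, inv_inv]
  have h5 := (Finset.sum_eq_sum_iff_of_le (s := Finset.univ)
    (f := fun i => mat (MulAut.conj g * Φ)⁻¹ i i)
    (g := fun i => (1 : Matrix (Fin n) (Fin n) ℤ) i i) (fun i _ => by
      rw [h4, Matrix.one_apply_eq]
      exact (uinn_expo (hg i) i).1)).1 h2
  have h6 : MulAut.conj g * Φ = 1 := by
    refine MulEquiv.toMonoidHom_injective (FreeGroup.ext_hom _ _ fun i => ?_)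
    have h7 := h5 i (Finset.mem_univ i)
    rw [h4, Matrix.one_apply_eq] at h7
    exact (uinn_expo (hg i) i).2 h7
  exact ⟨g⁻¹, by rw [map_inv, eq_inv_of_mul_eq_one_right h6]⟩

/-- A unipotent automorphism with an inner power is inner. -/
theorem inner_of_pow_inner {Φ : MulAut (Fr n)}
    (hΦ : Unip (matHom n '' (Subgroup.zpowers Φ : Set (MulAut (Fr n))))) {m : ℕ} (hm : m ≠ 0)
    {g : Fr n} (h : Φ ^ m = MulAut.conj g) : ∃ g', Φ = MulAut.conj g' := by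
  refine inner_of_tl hΦ (tl_eq_of_pow_inner hΦ fun c => ⟨m, hm, g, fun w => ?_⟩)
  rw [h, MulAut.conj_apply, mul_inv_cancel]
  change MonoidAlgebra.of ℚ (Fr n) 1 - 1 ∈ aug (Fr n) ^ (c + 1)
  rw [map_one, sub_self]
  exact Submodule.zero_mem _

namespace Ext

variable {E H : Type} [Group E] [Group H] (X : Ext E H n)

theorem mem_kerIn_top_iff (e : E) : X.π e ∈ X.kerIn ⊤ ⊤ ↔ ∃ g, X.ρ e = MulAut.conj g := by
  constructor
  · rintro ⟨e', ⟨-, he'⟩, hπ⟩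
    obtain ⟨g, rfl⟩ := X.exists_j_of_π_eq hπ.symm
    refine ⟨g, ?_⟩
    have h1 : X.ρ e' = 1 := MulEquiv.ext fun s => he' s trivial
    rw [map_mul, X.ρ_j, h1, mul_one]
  · rintro ⟨g, hg⟩
    refine ⟨(X.j g)⁻¹ * e, ⟨trivial, fun s _ => ?_⟩, by simp [X.π_j]⟩
    rw [map_mul, map_inv, X.ρ_j, hg, inv_mul_cancel]
    rfl

/-- If all levels are tame, the unipotent part acts by inner automorphisms. -/
theorem inner_of_tame (hn : 2 ≤ n) {H₂ : Subgroup H}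
    (hu : Unip (matHom n '' ((H₂.comap X.π).map X.ρ : Set (MulAut (Fr n)))))
    (M : ℕ → Subgroup (Fr n)) (hnor : ∀ j, (M j).Normal) (hinv : ∀ j, X.Inv (M j))
    (hnil : ∀ j, (⊤ : Subgroup (Fr n)).lowerCentralSeries j ≤ M j)
    (hcof : ∀ c, ∃ j, (M j : Set (Fr n)) ⊆ Dim (Fr n) c) (ht : ∀ j, X.Tame (M j)) :
    H₂ ≤ X.kerIn ⊤ ⊤ := by
  intro x hx
  obtain ⟨e, rfl⟩ := X.surj x
  have h1 : Subgroup.zpowers (X.ρ e) ≤ (H₂.comap X.π).map X.ρ := by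
    rw [Subgroup.zpowers_le]
    exact ⟨e, hx, rfl⟩
  have h2 : Unip (matHom n '' (Subgroup.zpowers (X.ρ e) : Set (MulAut (Fr n)))) :=
    weight_unip_mono hu (Set.image_mono h1)
  refine (X.mem_kerIn_top_iff e).2 (inner_of_tl h2 (tl_eq_of_pow_inner h2 fun c => ?_))
  obtain ⟨j, hj⟩ := hcof c
  have := hnor j
  obtain ⟨m, hm, g, hg⟩ := X.pow_inner_of_tame hn (hinv j) (hnil j) (ht j) e
  exact ⟨m, hm, g, fun w => hj (hg w)⟩

/-- For fixed `f` the function `k ↦ ψ (f * (ρ k f)⁻¹)` is additive on `I`. -/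
theorem triv_on_comm {I : Subgroup E} {M : Subgroup (Fr n)} {ψ : Fr n → ℚ}
    (hM : ∀ e ∈ I, ∀ x ∈ M, X.ρ e x ∈ M) (hI : ∀ e ∈ I, ∀ f, f * (X.ρ e f)⁻¹ ∈ M)
    (hadd : ∀ x ∈ M, ∀ y ∈ M, ψ (x * y) = ψ x + ψ y)
    (hψ : ∀ e ∈ I, ∀ x ∈ M, ψ (X.ρ e x) = ψ x) : ∀ k ∈ ⁅I, I⁆, ∀ f, ψ (f * (X.ρ k f)⁻¹) = 0 := by
  intro k hk f
  let φ : I →* Multiplicative ℚ := MonoidHom.mk'
    (fun e => Multiplicative.ofAdd (ψ (f * (X.ρ e f)⁻¹))) fun a b => by
      have e1 : f * (X.ρ ((a * b : I) : E) f)⁻¹ =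
          f * (X.ρ a f)⁻¹ * X.ρ a (f * (X.ρ b f)⁻¹) := by
        rw [Subgroup.coe_mul, map_mul, MulAut.mul_apply, map_mul, map_inv]
        group
      rw [e1, hadd _ (hI _ a.2 f) _ (hM _ a.2 _ (hI _ b.2 f)), hψ _ a.2 _ (hI _ b.2 f), ofAdd_add]
  have h1 : ⁅I, I⁆ ≤ φ.ker.map I.subtype := by
    rw [Subgroup.commutator_le]
    intro a ha b hb
    refine ⟨(⟨a, ha⟩ : I) * ⟨b, hb⟩ * (⟨a, ha⟩ : I)⁻¹ * (⟨b, hb⟩ : I)⁻¹, ?_, rfl⟩
    rw [SetLike.mem_coe, MonoidHom.mem_ker, map_mul, map_mul, map_mul, map_inv, map_inv,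
      mul_inv_cancel_comm, mul_inv_cancel]
  obtain ⟨e, he, rfl⟩ := h1 hk
  exact congrArg Multiplicative.toAdd (MonoidHom.mem_ker.1 he)

end Ext

end Pool.Agent.Lib.MP_9ac97d_al
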