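import Pool.Agent.Lib.MP_9ac97d_al.UFix
import Pool.Agent.Lib.MP_9ac97d_al.UInn

/-!
# Hulls, pairs, stabilizers of cuts (task UHull)
-/

set_option autoImplicit false

noncomputable section

open Pointwise

namespace Pool.Agent.Lib.MP_9ac97d_al

variable {n : ℕ}

/-- Copy the proof of `exists_hull`: the hull lies in a `GoodSys N QQ`, use `GoodSys.ind` with
`L = N`. -/
theorem exists_hullU {N : Subgroup (Fr n)} {Γ : Subgroup (MulAut (Fr n))}
    (hΓ : ∀ k ∈ Γ, k • N = N) {B₀ : Subgroup (Fr n)} (hB : B₀ ≤ N) (hna : NonAb B₀)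
    {Ω : Set (Fr n)} (hΩ : Ω.Finite) (h : ∀ k ∈ Γ, TT (k • B₀) ⊆ (N : Set (Fr n)) * Ω) :
    ∃ B, B₀ ≤ B ∧ B ≤ N ∧ B.FG ∧ IndAll N B ∧ ∃ A : Set (Subgroup (Fr n)), A.Finite ∧
      ∀ k ∈ Γ, ∃ g ∈ N, MulAut.conj g • (k • B) ∈ A := by
  obtain ⟨V, hV⟩ := cocpt_offStrip N hΩ
  have hR := rinv_offStrip N Ω
  have hgood := goodSys_fsys hR
  have hbdd := bddSys_fsys hR hV
  set PP := fsys N (offStrip N Ω)
  have hsys : ∀ k : Γ, GoodSys N ((k : MulAut (Fr n))⁻¹ • PP) := fun k =>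
    hgood.smul (xhull_inv_smul (hΓ k k.2))
  let hull : Subgroup (Fr n) → Subgroup (Fr n) := fun T =>
    ⨅ k : Γ, xhull_car ((k : MulAut (Fr n))⁻¹ • PP) T
  have hle : ∀ T, T ≤ hull T := fun T => le_iInf fun k => xhull_le_car _ _
  have hsmul : ∀ k₁ ∈ Γ, ∀ T, k₁ • hull T = hull (k₁ • T) := by
    intro k₁ hk T
    simp only [hull, xhull_smul_iInf, xhull_car_smul]
    refine (Equiv.mulRight (⟨k₁, hk⟩ : Γ)⁻¹).iInf_congr fun k => ?_
    simp [smul_smul]
  have hmem : ∀ k₀ k : Γ, xhull_car ((k : MulAut (Fr n))⁻¹ • PP) ((k₀ : MulAut (Fr n)) • B₀) ∈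
      (k : MulAut (Fr n))⁻¹ • PP := by
    intro k₀ k
    have hk : (k : MulAut (Fr n)) * k₀ ∈ Γ := Γ.mul_mem k.2 k₀.2
    obtain ⟨y, hy⟩ := tt_nonempty (xhull_ne_bot (xhull_nonAb_smul hna ((k : MulAut (Fr n)) * k₀)))
    have h1 := le_stabC_offStrip (xhull_smul_le (hΓ _ hk) hB) (h _ hk) hy
    refine xhull_car_mem (hsys k) (xhull_ne_bot (xhull_nonAb_smul hna _))
      (Set.smul_mem_smul_set (⟨y, rfl⟩ : stabC N (offStrip N Ω) y ∈ PP)) ?_
    rw [← Subgroup.pointwise_smul_subset_iff, smul_smul]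
    exact h1
  have hcommon : ∀ (κ : Type) [Finite κ] (f : κ → Γ), ∃ QQ, GoodSys N QQ ∧ BddSys N QQ V ∧
      ∀ i, hull ((f i : MulAut (Fr n)) • B₀) ∈ QQ := by
    intro κ _ f
    refine exists_common_sys (fun k : Γ => (k : MulAut (Fr n))⁻¹ • PP) hsys 1 (by simpa using hbdd)
      (fun i k => xhull_car ((k : MulAut (Fr n))⁻¹ • PP) ((f i : MulAut (Fr n)) • B₀))
      (fun i k => hmem (f i) k) fun i => xhull_nonAb_mono (xhull_nonAb_smul hna _) (hle _)
  obtain ⟨QQ, q1, q2, q3⟩ := hcommon Unit fun _ => 1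
  have q4 : hull B₀ ∈ QQ := by simpa using q3 ()
  obtain ⟨A, hA, hA'⟩ := xhull_finite_classes (N := N)
    (fun k : Γ => hull ((k : MulAut (Fr n)) • B₀)) V fun κ _ f hf => by
      obtain ⟨QQ', -, p2, p3⟩ := hcommon κ f
      exact p2.finite_classes _ p3
        (fun i => xhull_nonAb_mono (xhull_nonAb_smul hna _) (hle _)) hf
  refine ⟨hull B₀, hle _, q1.le _ q4, q2.1 _ q4, fun D _ ι => ?_, A, hA, fun k hk => ?_⟩
  · have := q1.ind N le_rfl D ι Unit (fun _ => hull B₀) (fun _ => q4) fun _ _ _ _ _ => rfl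
    rwa [inf_eq_left.2 (q1.le _ q4)] at this
  · rw [hsmul k hk]
    exact hA' ⟨k, hk⟩

/-- By `dual_tree` the vertex group is a `stabC S R y` (see `vstab_fg_rk`); `ind_stabC`. -/
theorem IndAll.vstab {N S : Subgroup (Fr n)} (h : IndAll N S) (hN : NonAb S) {m : ℕ}
    {U : Set (Fr n)} (hU : U ∈ UU S m) : IndAll N (Ext.vstab S (head S (UU S m) U)) := by
  obtain ⟨R, hR, h1, -⟩ := dual_tree hN m
  obtain ⟨y, -, hs⟩ := h1 U hU
  have hle : stabC S R y ≤ S := stabC_le hR y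
  have he : Ext.vstab S (head S (UU S m) U) = stabC S R y := by
    ext s
    rw [Ext.xhier_mem_vstab]
    exact ⟨fun h => (hs s h.1).1 h.2, fun h => ⟨hle h, (hs s (hle h)).2 h⟩⟩
  rw [he]
  intro D _ ι z hz hsum
  refine ind_stabC ι hR (fun _ : Unit => y) (fun _ _ _ _ _ => rfl) z hz ?_
  rw [Fintype.sum_unique]
  exact h D ι z (fun i => zz_mono ι hle (hz i)) hsum _

namespace Ext

variable {E H : Type} [Group E] [Group H] (X : Ext E H n)

/-- Copy the proof of `exists_pair`; for the index use `bi_of_no_family` and `xper_rk` (see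
`xper_finite`). -/
theorem exists_pairU (hn : 2 ≤ n) {N : Subgroup (Fr n)} [N.Normal] (hN : X.Inv N) {c : ℕ}
    (hc : (⊤ : Subgroup (Fr n)).lowerCentralSeries c ≤ N) (hnt : ¬ X.Tame N)
    {D : Subgroup (Fr n)} (h : X.PerIn N D) :
    ∃ G : Subgroup (Fr n), D ≤ G ∧ G ≠ ⊤ ∧ G.FG ∧ rk G ≤ n ∧ X.Pair (X.norm G) G ∧
      BI (X.stabH G) (n - 1) ∧ (rk G = n → X.stabH G = ⊤) := by
  obtain ⟨h1, h2⟩ := X.xper_rk hN hc (fun _ : Unit => X.cls N D) (fun _ => ⟨D, h, rfl⟩)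
    fun _ _ _ _ _ => rfl
  have hinf := X.normalizer_cls_inf hN h
  refine ⟨Subgroup.normalizer (X.cls N D : Set (Fr n)),
    (X.xper_le_cls h le_rfl).trans Subgroup.le_normalizer, fun e => hnt fun D' hD' hfg => ?_,
    (h1 ()).1, ?_, X.pair_norm (le_antisymm (fun g hg => ?_) Subgroup.le_normalizer), ?_,
    fun hrk => ?_⟩
  · rw [e, top_inf_eq] at hinf
    obtain ⟨T, rfl⟩ := hfg
    obtain ⟨P, p1, -, p3⟩ := X.exists_perIn_of_finite hN h T.finite_toSet
      (by rw [← hinf]; exact Subgroup.subset_closure.trans hD')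
    exact ⟨P, (Subgroup.closure_le _).2 p3, p1.1, p1.2.1, p1.2.2.2⟩
  · simp only [Finset.univ_unique, Finset.sum_singleton] at h2
    omega
  · rw [xper_mem_normalizer] at hg ⊢
    have e := congrArg (fun S => MulAut.conj g • S) hinf
    simp only [Subgroup.smul_inf, hg, xper_conj_normal] at e
    rw [← e, hinf]
  · refine bi_of_no_family fun z => ?_
    by_contra hno
    push Not at hno
    choose e he using fun i => X.surj (z i)
    obtain ⟨h3, h4⟩ := X.xper_rk hN hc (fun i => X.cls N (X.ρ (e i) • D))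
      (fun i => ⟨_, X.xper_perIn_smul hN (e i) h, rfl⟩) fun i k l _ hl => by
        by_contra hik
        refine hno i k hik ⟨(e i)⁻¹ * (X.j l)⁻¹ * e k, ?_, ?_⟩
        · rw [SetLike.mem_coe, mem_norm, xper_smul_normalizer, map_mul, map_mul, map_inv, map_inv,
            X.ρ_j, mul_smul, mul_smul, X.smul_cls hN (e k)]
          beta_reduce at hl
          rw [← hl, inv_smul_smul, ← X.smul_cls hN, inv_smul_smul]
        · rw [map_mul, map_mul, map_inv, map_inv, X.π_j, he, he, inv_one, mul_one]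
    have h5 : ∑ _i : Fin (n - 1 + 1), 1 ≤ ∑ i : Fin (n - 1 + 1),
        (rk (Subgroup.normalizer ((X.cls N (X.ρ (e i) • D) : Subgroup (Fr n)) : Set (Fr n))) - 1) :=
      Finset.sum_le_sum fun i _ => by have := (h3 i).2; omega
    simp only [Finset.sum_const, Finset.card_univ, Fintype.card_fin, smul_eq_mul, mul_one] at h5
    omega
  · refine eq_top_iff.2 fun x _ => ?_
    obtain ⟨e, rfl⟩ := X.surj x
    rw [X.mem_stabH]
    by_contra hno
    have nr : ¬ xperRel ⊤ (X.cls N D) (X.cls N (X.ρ e • D)) := by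
      rintro ⟨g, -, hg⟩
      refine hno ⟨g, ?_⟩
      rw [xper_smul_normalizer, xper_smul_normalizer, X.smul_cls hN, hg]
    obtain ⟨h3, h4⟩ := X.xper_rk hN hc (fun b : Bool => cond b (X.cls N D) (X.cls N (X.ρ e • D)))
      (fun b => by
        cases b
        exacts [⟨_, X.xper_perIn_smul hN e h, rfl⟩, ⟨D, h, rfl⟩])
      (fun i j l hl e' => by
        cases i <;> cases j
        · rfl
        · exact absurd ((xperRel_equiv ⊤).symm ⟨l, hl, e'⟩) nr
        · exact absurd ⟨l, hl, e'⟩ nr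
        · rfl)
    have h5 := (h3 false).2
    rw [Fintype.sum_bool] at h4
    simp only [cond_true, cond_false] at h4 h5
    omega

/-- There are at most `4 * n * rk S` orbits of cuts (`cutOrbits_le`); see
`xglue_finiteIndex_cst`. -/
theorem bi_cst {E' : Subgroup E} {S : Subgroup (Fr n)} (hS : S.FG) (hN : NonAb S)
    (hj : ∀ s ∈ S, X.j s ∈ E') (hon : E'.map X.π = ⊤) {m : ℕ}
    (hinv : ∀ e ∈ E', X.ρ e • UU S m = UU S m) {U : Set (Fr n)} (hU : U ∈ UU S m) :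
    BI ((X.xglue_cst E' U).map X.π) (4 * n * rk S) := by
  obtain ⟨hfin, hcard⟩ := cutOrbits_le hS hN m
  have : Finite (cutOrbits S m) := hfin.to_subtype
  refine bi_of_no_family fun z => ?_
  have hl : ∀ i, ∃ e ∈ E', X.π e = z i := fun i =>
    show z i ∈ E'.map X.π from hon ▸ Subgroup.mem_top _
  choose l hl hl' using hl
  obtain ⟨a, b, hne, hab⟩ := (Function.not_injective_iff (f := fun i =>
    (⟨{U' | ∃ s ∈ S, U' = MulAut.conj s • (X.ρ (l i) • U)},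
      ⟨X.ρ (l i) • U, X.xglue_smul_mem hinv (hl i) hU, rfl⟩⟩ : cutOrbits S m))).1 fun hinj => by
    have h1 := Nat.card_le_card_of_injective _ hinj
    rw [Nat.card_eq_fintype_card, Fintype.card_fin, Nat.card_coe_set_eq] at h1
    omega
  obtain ⟨s, hs, h3⟩ := tcount_orb_eq (congrArg Subtype.val hne).symm
  refine ⟨a, b, hab, (l a)⁻¹ * (X.j s)⁻¹ * l b, ⟨?_, ?_⟩, ?_⟩
  · exact E'.mul_mem (E'.mul_mem (E'.inv_mem (hl a)) (E'.inv_mem (hj s hs))) (hl b)
  · show X.ρ ((l a)⁻¹ * (X.j s)⁻¹ * l b) • U = U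
    rw [map_mul, map_mul, map_inv, map_inv, X.ρ_j, mul_smul, mul_smul, h3, inv_smul_smul,
      inv_smul_smul]
  · rw [map_mul, map_mul, map_inv, map_inv, X.π_j, hl', hl', inv_one, mul_one]

/-- See `xglue_uniform`: the image of the stabilizer depends only on the orbit. -/
theorem exists_cst_uniform {E' : Subgroup E} {S : Subgroup (Fr n)} (hS : S.FG) (hN : NonAb S)
    (hj : ∀ s ∈ S, X.j s ∈ E') {m : ℕ} (hinv : ∀ e ∈ E', X.ρ e • UU S m = UU S m) :
    ∃ K : Subgroup H, (K.subgroupOf (E'.map X.π)).FiniteIndex ∧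
      ∀ U ∈ UU S m, K ≤ (X.xglue_cst E' U).map X.π := by
  have : Finite (cutOrbits S m) := (cutOrbits_le hS hN m).1.to_subtype
  have key : ∀ O : cutOrbits S m, ∃ L : Subgroup H, (L.subgroupOf (E'.map X.π)).FiniteIndex ∧
      ∀ U ∈ (O : Set (Set (Fr n))), L ≤ (X.xglue_cst E' U).map X.π := by
    rintro ⟨_, U, hU, rfl⟩
    refine ⟨_, X.xglue_finiteIndex_cst hS hN hj hinv hU, ?_⟩
    rintro _ ⟨s, hs, rfl⟩ _ ⟨e, he, rfl⟩
    obtain ⟨he, hfix⟩ := X.xglue_mem_cst.1 he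
    refine ⟨X.j s * e * (X.j s)⁻¹, X.xglue_mem_cst.2 ⟨?_, ?_⟩, ?_⟩
    · exact E'.mul_mem (E'.mul_mem (hj s hs) he) (E'.inv_mem (hj s hs))
    · rw [map_mul, map_mul, map_inv, X.ρ_j, mul_smul, mul_smul, inv_smul_smul, hfix]
    · rw [map_mul, map_mul, map_inv, X.π_j]
      simp
  choose L hL hL' using key
  refine ⟨⨅ O, L O, ?_, fun U hU =>
    (iInf_le _ _).trans (hL' ⟨_, U, hU, rfl⟩ U ⟨1, S.one_mem, by simp⟩)⟩
  rw [Subgroup.subgroupOf, Subgroup.comap_iInf]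
  exact Subgroup.finiteIndex_iInf hL

/-- Let `σ` be the section over `Y₀` with values in `cent S`; `Fix σ ≥ S`, and `fix_nice`, `pair_ne`
apply. If the rank of `Fix σ` is less than `n` use `ih`. If it is `n` and `Fix σ ≠ ⊤` use `hno`. If
`Fix σ = ⊤` then `Y₀ ≤ kerIn ⊤ ⊤`, so every lift of an element of `YY G` has an inner power, and
`inner_of_pow_inner`, `mem_kerIn_top_iff` apply. -/
theorem up {G : Subgroup H} {o : BiOrd (Fr n)} (hc : X.Ctx G o)
    (hno : ∀ E' S, X.BadU (YY G) E' S → S = ⊤) {Y₀ : Subgroup H} [Y₀.Normal] (hle : Y₀ ≤ YY G)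
    (hfi : (Y₀.subgroupOf (YY G)).FiniteIndex) {S : Subgroup (Fr n)} (hN : NonAb S)
    (h : Y₀ ≤ X.kerIn ⊤ S) : YY G ≤ X.kerIn ⊤ S := by
  obtain ⟨σ, hσ⟩ := X.xglue_lift Y₀ (X.cent S)
    (fun x hx => by simpa [kerIn] using h hx) (X.xglue_uniq_cent hN)
  have hSF : S ≤ X.Fix σ := fun s hs x => (hσ x).1 s hs
  have hYG := yy_le_comm G
  obtain ⟨h1, h2, h3, h4⟩ := X.fix_nice (o := o) (σ := σ) (fun e he => hc.ord e (hYG (hle he)))
    (fun x => (hσ x).2) (xhull_nonAb_mono hN hSF)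
  have hp := X.pair_ne hc.two σ
  have hmono : X.kerIn (X.NE σ) (X.Fix σ) ≤ X.kerIn ⊤ S := X.kerIn_mono le_top hSF
  rcases h2.lt_or_eq with h2 | h2
  · refine (hc.ih _ _ hp (h3.mono ?_) h1 h2).trans hmono
    have := hc.two
    exact (by omega : n - 1 ≤ n + 1).trans (Nat.le_mul_of_pos_left _ (by positivity))
  by_contra hnot
  have htop := hno _ _ ⟨hp, h4 h2, h1, h2, fun h5 => hnot (h5.trans hmono)⟩
  refine hnot fun y hy => X.kerIn_mono le_rfl le_top ?_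
  obtain ⟨e, rfl⟩ := X.surj y
  obtain ⟨m, hm, -, hmem⟩ := Subgroup.exists_pow_mem_of_index_ne_zero hfi.index_ne_zero
    (⟨X.π e, hy⟩ : YY G)
  have hmem' : X.π e ^ m ∈ Y₀ := hmem
  obtain ⟨g, hg⟩ := X.exists_j_of_π_eq (e := e ^ m) (e' := σ ⟨_, hmem'⟩)
    (by rw [(hσ _).2, map_pow])
  refine (X.mem_kerIn_top_iff e).2 (inner_of_pow_inner (hc.unip e (hYG hy)) hm.ne' (g := g) ?_)
  have h6 : X.ρ (σ ⟨_, hmem'⟩) = 1 := MulEquiv.ext fun f =>
    (show f ∈ X.Fix σ from htop ▸ Subgroup.mem_top f) _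
  rw [← map_pow, hg, map_mul, h6, mul_one, X.ρ_j]

end Ext

end Pool.Agent.Lib.MP_9ac97d_al
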