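import Pool.Agent.Lib.MP_9ac97d_al.UGrp

/-!
# Kernels of homomorphisms to bi-ordered groups (task UOrd)
-/

set_option autoImplicit false

noncomputable section

open Pointwise

namespace Pool.Agent.Lib.MP_9ac97d_al

variable {H H' : Type} [Group H] [Group H']

/-- A cone whose complement, up to inverses, is `J` orders the quotient by `J`. -/
theorem uord_cone {J : Subgroup H} (C : Set H) (hmul : ∀ x ∈ C, ∀ y ∈ C, x * y ∈ C)
    (hconj : ∀ g, ∀ x ∈ C, g * x * g⁻¹ ∈ C) (htri : ∀ g, g ∈ J ∨ g ∈ C ∨ g⁻¹ ∈ C)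
    (hdis : ∀ x ∈ C, x ∉ J) : OrdKer J := by
  have hn : J.Normal := ⟨fun y hy g => by
    rcases htri (g * y * g⁻¹) with h | h | h
    · exact h
    · have := hconj g⁻¹ _ h
      rw [show g⁻¹ * (g * y * g⁻¹) * g⁻¹⁻¹ = y by group] at this
      exact absurd hy (hdis _ this)
    · have := hconj g⁻¹ _ h
      rw [show g⁻¹ * (g * y * g⁻¹)⁻¹ * g⁻¹⁻¹ = y⁻¹ by group] at this
      exact absurd (J.inv_mem hy) (hdis _ this)⟩
  refine ⟨H ⧸ J, inferInstance,
    ⟨QuotientGroup.mk' J '' C, ?_, ?_, ?_, ?_⟩, QuotientGroup.mk' J, QuotientGroup.ker_mk' J⟩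
  · rintro _ ⟨x, hx, rfl⟩ _ ⟨y, hy, rfl⟩
    exact ⟨x * y, hmul x hx y hy, map_mul _ _ _⟩
  · rintro g _ ⟨x, hx, rfl⟩
    obtain ⟨g, rfl⟩ := QuotientGroup.mk'_surjective J g
    exact ⟨g * x * g⁻¹, hconj g x hx, by rw [map_mul, map_mul, map_inv]⟩
  · intro g
    obtain ⟨g, rfl⟩ := QuotientGroup.mk'_surjective J g
    rcases htri g with h | h | h
    · left
      rw [← MonoidHom.mem_ker, QuotientGroup.ker_mk']
      exact h
    · exact Or.inr (Or.inl ⟨g, h, rfl⟩)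
    · exact Or.inr (Or.inr ⟨g⁻¹, h, map_inv _ _⟩)
  · rintro ⟨x, hx, h1⟩
    rw [← MonoidHom.mem_ker, QuotientGroup.ker_mk'] at h1
    exact hdis x hx h1

/-- First the order of `H ⧸ I`, then an invariant cone `D` in `I`. -/
theorem uord_lex {I J : Subgroup H} (h : OrdKer I) (hJI : J ≤ I) (D : Set H)
    (hmul : ∀ x ∈ I, ∀ y ∈ I, x ∈ D → y ∈ D → x * y ∈ D)
    (hconj : ∀ g, ∀ x ∈ I, x ∈ D → g * x * g⁻¹ ∈ D)
    (htri : ∀ g ∈ I, g ∈ J ∨ g ∈ D ∨ g⁻¹ ∈ D) (hdis : ∀ x ∈ I, x ∈ D → x ∉ J) : OrdKer J := by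
  obtain ⟨Q, _, o, f, rfl⟩ := h
  refine uord_cone {x | f x ∈ o.P ∨ (f x = 1 ∧ x ∈ D)} ?_ ?_ ?_ ?_
  · rintro x (hx | ⟨hx, hx'⟩) y (hy | ⟨hy, hy'⟩)
    · left; rw [map_mul]; exact o.mul_mem _ hx _ hy
    · left; rw [map_mul, hy, mul_one]; exact hx
    · left; rw [map_mul, hx, one_mul]; exact hy
    · right; exact ⟨by rw [map_mul, hx, hy, one_mul], hmul x hx y hy hx' hy'⟩
  · rintro g x (hx | ⟨hx, hx'⟩)
    · left; rw [map_mul, map_mul, map_inv]; exact o.conj_mem _ _ hx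
    · right
      exact ⟨by rw [map_mul, map_mul, map_inv, hx, mul_one, mul_inv_cancel], hconj g x hx hx'⟩
  · intro g
    rcases o.tri (f g) with h | h | h
    · rcases htri g h with h' | h' | h'
      · exact Or.inl h'
      · exact Or.inr (Or.inl (Or.inr ⟨h, h'⟩))
      · exact Or.inr (Or.inr (Or.inr ⟨by rw [map_inv, h, inv_one], h'⟩))
    · exact Or.inr (Or.inl (Or.inl h))
    · exact Or.inr (Or.inr (Or.inl (by rw [map_inv]; exact h)))
  · rintro x (hx | ⟨hx, hx'⟩) hJ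
    · have h1 : f x = 1 := hJI hJ
      rw [h1] at hx
      exact o.one_notMem hx
    · exact hdis x hx hx' hJ

theorem uord_one {I : Subgroup H} {ψ : H → ℝ}
    (hadd : ∀ x ∈ I, ∀ y ∈ I, ψ (x * y) = ψ x + ψ y) : ψ 1 = 0 := by
  have := hadd 1 I.one_mem 1 I.one_mem
  rw [mul_one] at this
  linarith

theorem uord_inv {I : Subgroup H} {ψ : H → ℝ}
    (hadd : ∀ x ∈ I, ∀ y ∈ I, ψ (x * y) = ψ x + ψ y) {x : H} (hx : x ∈ I) : ψ x⁻¹ = -ψ x := by
  have := hadd x hx x⁻¹ (I.inv_mem hx)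
  rw [mul_inv_cancel, uord_one hadd] at this
  linarith

/-- The common kernel of functions that are additive on `I`. -/
def uord_ker (I : Subgroup H) {κ : Type} (ψ : κ → H → ℝ)
    (hadd : ∀ a, ∀ x ∈ I, ∀ y ∈ I, ψ a (x * y) = ψ a x + ψ a y) : Subgroup H where
  carrier := {x | x ∈ I ∧ ∀ a, ψ a x = 0}
  mul_mem' := fun {x y} hx hy => ⟨I.mul_mem hx.1 hy.1, fun a => by
    rw [hadd a x hx.1 y hy.1, hx.2 a, hy.2 a, add_zero]⟩
  one_mem' := ⟨I.one_mem, fun a => uord_one (hadd a)⟩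
  inv_mem' := fun {x} hx => ⟨I.inv_mem hx.1, fun a => by
    rw [uord_inv (hadd a) hx.1, hx.2 a, neg_zero]⟩

theorem OrdKer.normal {I : Subgroup H} (h : OrdKer I) : I.Normal := by
  obtain ⟨Q, _, o, f, rfl⟩ := h
  infer_instance

/-- `BiOrd.eq_of_pow_eq`. -/
theorem OrdKer.root {I : Subgroup H} (h : OrdKer I) {x : H} {k : ℕ} (hk : k ≠ 0)
    (hx : x ^ k ∈ I) : x ∈ I := by
  obtain ⟨Q, _, o, f, rfl⟩ := h
  rw [MonoidHom.mem_ker] at hx ⊢
  refine o.eq_of_pow_eq hk ?_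
  rw [← map_pow, hx, one_pow]

theorem ordKer_top : OrdKer (⊤ : Subgroup H) :=
  uord_cone ∅ (fun _ h => h.elim) (fun _ _ h => h.elim) (fun g => Or.inl (Subgroup.mem_top g))
    fun _ h => h.elim

theorem OrdKer.comap {I : Subgroup H'} (h : OrdKer I) (f : H →* H') : OrdKer (I.comap f) := by
  obtain ⟨Q, _, o, g, rfl⟩ := h
  exact ⟨Q, inferInstance, o, g.comp f, (MonoidHom.comap_ker g f).symm⟩

/-- The product of two bi-ordered groups with the lexicographic order. -/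
theorem OrdKer.inf {I J : Subgroup H} (h : OrdKer I) (h' : OrdKer J) : OrdKer (I ⊓ J) := by
  obtain ⟨Q, _, o, f, rfl⟩ := h'
  refine uord_lex h inf_le_left {x | f x ∈ o.P} ?_ ?_ ?_ ?_
  · intro x _ y _ hx hy
    show f (x * y) ∈ o.P
    rw [map_mul]
    exact o.mul_mem _ hx _ hy
  · intro g x _ hx
    show f (g * x * g⁻¹) ∈ o.P
    rw [map_mul, map_mul, map_inv]
    exact o.conj_mem _ _ hx
  · intro g hg
    rcases o.tri (f g) with h1 | h1 | h1
    · exact Or.inl ⟨hg, h1⟩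
    · exact Or.inr (Or.inl h1)
    · refine Or.inr (Or.inr ?_)
      show f g⁻¹ ∈ o.P
      rw [map_inv]
      exact h1
  · intro x _ hx hJ
    have h1 : f x = 1 := hJ.2
    have h2 : f x ∈ o.P := hx
    rw [h1] at h2
    exact o.one_notMem h2

theorem OrdKer.iInf {κ : Type} [Finite κ] {I : κ → Subgroup H} (h : ∀ a, OrdKer (I a)) :
    OrdKer (⨅ a, I a) := by
  classical
  have key : ∀ s : Finset κ, OrdKer (⨅ a ∈ s, I a) := by
    intro s
    induction s using Finset.induction_on with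
    | empty => simpa using ordKer_top
    | insert a s _ ih =>
      rw [Finset.iInf_insert]
      exact (h a).inf ih
  have := Fintype.ofFinite κ
  simpa using key Finset.univ

/-- `J` is normal. Order `H ⧸ J` by the image of the cone of all `x` with `f x ∈ P`, or `x ∈ I` and
`0 < ψ x`; this cone is invariant under multiplication by `J`. -/
theorem OrdKer.refine {I J : Subgroup H} (h : OrdKer I) {ψ : H → ℝ}
    (hadd : ∀ x ∈ I, ∀ y ∈ I, ψ (x * y) = ψ x + ψ y) (hconj : ∀ g, ∀ x ∈ I, ψ (g * x * g⁻¹) = ψ x)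
    (hJ : ∀ x, x ∈ J ↔ x ∈ I ∧ ψ x = 0) : OrdKer J := by
  refine uord_lex h (fun x hx => ((hJ x).1 hx).1) {x | 0 < ψ x} ?_ ?_ ?_ ?_
  · intro x hx y hy h1 h2
    show 0 < ψ (x * y)
    rw [hadd x hx y hy]
    exact add_pos h1 h2
  · intro g x hx h1
    show 0 < ψ (g * x * g⁻¹)
    rw [hconj g x hx]
    exact h1
  · intro g hg
    rcases lt_trichotomy 0 (ψ g) with h1 | h1 | h1
    · exact Or.inr (Or.inl h1)
    · exact Or.inl ((hJ g).2 ⟨hg, h1.symm⟩)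
    · refine Or.inr (Or.inr ?_)
      show 0 < ψ g⁻¹
      rw [uord_inv hadd hg]
      linarith
  · intro x _ h1 h2
    have h3 : 0 < ψ x := h1
    rw [((hJ x).1 h2).2] at h3
    exact lt_irrefl _ h3

/-- Finitely many characters: `OrdKer.refine` for each of them, `OrdKer.iInf`, `OrdKer.inf`. -/
theorem OrdKer.refine_fin {I J : Subgroup H} (h : OrdKer I) {κ : Type} [Finite κ] {ψ : κ → H → ℝ}
    (hadd : ∀ a, ∀ x ∈ I, ∀ y ∈ I, ψ a (x * y) = ψ a x + ψ a y)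
    (hconj : ∀ a g, ∀ x ∈ I, ψ a (g * x * g⁻¹) = ψ a x)
    (hJ : ∀ x, x ∈ J ↔ x ∈ I ∧ ∀ a, ψ a x = 0) : OrdKer J := by
  have e : J = I ⊓ ⨅ a, uord_ker I (fun _ : Unit => ψ a) (fun _ => hadd a) := by
    ext x
    rw [hJ, Subgroup.mem_inf, Subgroup.mem_iInf]
    exact ⟨fun hx => ⟨hx.1, fun a => ⟨hx.1, fun _ => hx.2 a⟩⟩,
      fun hx => ⟨hx.1, fun a => (hx.2 a).2 ()⟩⟩
  rw [e]
  refine h.inf (OrdKer.iInf fun a => h.refine (hadd a) (hconj a) fun x => ?_)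
  exact ⟨fun hx => ⟨hx.1, hx.2 ()⟩, fun hx => ⟨hx.1, fun _ => hx.2⟩⟩

/-- One step up a tower. With `k` from `exists_transfer` the functions `x ↦ ψ a (x ^ k)` are
additive on `I` and invariant under `H`; let `I'` be their common kernel in `I`
(`OrdKer.refine_fin`). On `J` they are `k * ψ a`. -/
theorem exists_tier {I J : Subgroup H} (h : OrdKer I) [J.Normal] (hJI : J ≤ I)
    (hfi : (J.subgroupOf I).FiniteIndex) {κ : Type} [Finite κ] {ψ : κ → H → ℚ}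
    (hadd : ∀ a, ∀ x ∈ J, ∀ y ∈ J, ψ a (x * y) = ψ a x + ψ a y)
    (hconj : ∀ a g, ∀ x ∈ J, ψ a (g * x * g⁻¹) = ψ a x) :
    ∃ I' ≤ I, OrdKer I' ∧ ∀ x ∈ J, (x ∈ I' ↔ ∀ a, ψ a x = 0) := by
  obtain ⟨k, hk, hpow, htr⟩ := exists_transfer hJI hfi
    fun x _ y hy => Subgroup.Normal.conj_mem inferInstance y hy x
  have hadd' : ∀ a, ∀ x ∈ I, ∀ y ∈ I,
      ((ψ a ((x * y) ^ k) : ℚ) : ℝ) = (ψ a (x ^ k) : ℝ) + (ψ a (y ^ k) : ℝ) := by
    intro a x hx y hy
    rw [htr (ψ a) (hadd a) (fun g _ z hz => hconj a g z hz) x hx y hy, Rat.cast_add]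
  have hmul : ∀ a, ∀ x ∈ J, ∀ m : ℕ, ψ a (x ^ m) = m * ψ a x := by
    intro a x hx m
    induction m with
    | zero =>
      have := hadd a 1 J.one_mem 1 J.one_mem
      rw [mul_one] at this
      rw [pow_zero, Nat.cast_zero, zero_mul]
      linarith
    | succ m ih =>
      rw [pow_succ, hadd a _ (J.pow_mem hx m) x hx, ih]
      push_cast
      ring
  refine ⟨uord_ker I (fun a x => ((ψ a (x ^ k) : ℚ) : ℝ)) hadd', fun x hx => hx.1,
    h.refine_fin hadd' ?_ fun x => Iff.rfl, fun x hx => ⟨fun h1 a => ?_, fun h1 => ?_⟩⟩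
  · intro a g x hx
    show ((ψ a ((g * x * g⁻¹) ^ k) : ℚ) : ℝ) = (ψ a (x ^ k) : ℝ)
    rw [conj_pow, hconj a g _ (hpow x hx)]
  · have h2 : ((ψ a (x ^ k) : ℚ) : ℝ) = 0 := h1.2 a
    rw [Rat.cast_eq_zero, hmul a x hx k] at h2
    exact (mul_eq_zero.1 h2).resolve_left (Nat.cast_ne_zero.2 hk)
  · refine ⟨hJI hx, fun a => ?_⟩
    show ((ψ a (x ^ k) : ℚ) : ℝ) = 0
    rw [hmul a x hx k, h1 a, mul_zero, Rat.cast_zero]

namespace Ext

variable {E : Type} [Group E] {n : ℕ} (X : Ext E H n)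

/-- The order on the free group: first the height `lam (j g)`, then `ψ` on `N`, then `o`. -/
theorem exists_ht {o : BiOrd (Fr n)} (ho : ∀ e, o.Pres (X.ρ e)) {E₀ : Subgroup E} (h : OrdKer E₀)
    {N : Subgroup (Fr n)} (hN : ∀ g, X.j g ∈ E₀ ↔ g ∈ N) (ψ : N →* Multiplicative ℝ)
    (hψ : ∀ (e : E) (x y : N), (y : Fr n) = X.ρ e x → ψ y = ψ x) :
    ∃ (Q : Type) (_ : Group Q) (h : X.Ht Q), h.lam.ker = E₀ ∧ h.N = N ∧
      ∀ x : N, (x : Fr n) ∈ h.o.P ↔
        x ∈ ((o.comap N.subtype N.subtype_injective).lex ψ).P := by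
  obtain ⟨Q, _, oQ, lam, rfl⟩ := h
  have hN' : ∀ g, lam (X.j g) = 1 ↔ g ∈ N := hN
  obtain ⟨oN, hoN⟩ : ∃ oN : BiOrd N,
      oN = (o.comap N.subtype N.subtype_injective).lex ψ := ⟨_, rfl⟩
  let P : Set (Fr n) := {g | lam (X.j g) ∈ oQ.P ∨ ∃ hg : g ∈ N, (⟨g, hg⟩ : N) ∈ oN.P}
  have hlam : ∀ e g, lam (X.j (X.ρ e g)) = lam e * lam (X.j g) * (lam e)⁻¹ := by
    intro e g
    rw [← X.conj_j, map_mul, map_mul, map_inv]
  have hpres : ∀ e, ∀ g ∈ P, X.ρ e g ∈ P := by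
    rintro e g (hg | ⟨hg, hg'⟩)
    · left
      rw [hlam]
      exact oQ.conj_mem _ _ hg
    · have h1 : X.ρ e g ∈ N := by
        rw [← hN', hlam, (hN' g).2 hg, mul_one, mul_inv_cancel]
      refine Or.inr ⟨h1, ?_⟩
      have h2 : ψ ⟨X.ρ e g, h1⟩ = ψ ⟨g, hg⟩ := hψ e ⟨g, hg⟩ ⟨X.ρ e g, h1⟩ rfl
      rw [hoN] at hg' ⊢
      rcases hg' with h3 | ⟨h3, h4⟩
      · left
        rw [h2]
        exact h3
      · right
        rw [h2]
        exact ⟨h3, (ho e g).2 h4⟩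
  let o' : BiOrd (Fr n) :=
    { P := P
      mul_mem := by
        rintro x (hx | ⟨hx, hx'⟩) y (hy | ⟨hy, hy'⟩)
        · left; rw [map_mul, map_mul]; exact oQ.mul_mem _ hx _ hy
        · left; rw [map_mul, map_mul, (hN' y).2 hy, mul_one]; exact hx
        · left; rw [map_mul, map_mul, (hN' x).2 hx, one_mul]; exact hy
        · exact Or.inr ⟨N.mul_mem hx hy, oN.mul_mem _ hx' _ hy'⟩
      conj_mem := by
        intro g x hx
        have := hpres (X.j g) x hx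
        rwa [X.ρ_j, MulAut.conj_apply] at this
      tri := by
        intro g
        rcases oQ.tri (lam (X.j g)) with h1 | h1 | h1
        · have hg := (hN' g).1 h1
          rcases oN.tri ⟨g, hg⟩ with h2 | h2 | h2
          · exact Or.inl (congrArg Subtype.val h2)
          · exact Or.inr (Or.inl (Or.inr ⟨hg, h2⟩))
          · exact Or.inr (Or.inr (Or.inr ⟨N.inv_mem hg, h2⟩))
        · exact Or.inr (Or.inl (Or.inl h1))
        · exact Or.inr (Or.inr (Or.inl (by rw [map_inv, map_inv]; exact h1)))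
      one_notMem := by
        rintro (h1 | ⟨h1, h2⟩)
        · rw [map_one, map_one] at h1
          exact oQ.one_notMem h1
        · exact oN.one_notMem h2 }
  refine ⟨Q, inferInstance, ⟨o', oQ, lam, fun e g => ⟨fun hg => ?_, hpres e g⟩,
    fun g hg => Or.inl hg⟩, rfl, ?_, fun x => ?_⟩
  · have := hpres e⁻¹ _ hg
    rwa [← MulAut.mul_apply, ← map_mul, inv_mul_cancel, map_one, MulAut.one_apply] at this
  · ext g
    exact hN' g
  · rw [← hoN]
    constructor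
    · rintro (h1 | ⟨_, h1⟩)
      · rw [(hN' x).2 x.2] at h1
        exact absurd h1 oQ.one_notMem
      · exact h1
    · intro h1
      exact Or.inr ⟨x.2, h1⟩

end Ext

end Pool.Agent.Lib.MP_9ac97d_al
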