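import Pool.Agent.Lib.MP_9ac97d_al.UCore
import Pool.Agent.Lib.MP_9ac97d_al.USec
import Pool.Agent.Lib.MP_9ac97d_al.UOrd

/-!
# Sections that fix a cut have a large normalizer (task UNice)
-/

set_option autoImplicit false

noncomputable section

open Pointwise

namespace Pool.Agent.Lib.MP_9ac97d_al

namespace Ext

variable {E H : Type} [Group E] [Group H] {n : ℕ} (X : Ext E H n)

/-- Write `e = j g * k` with `k ∈ E₀`, and `e ^ m = j (g m) * k m`; if `f` is the homomorphism to a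
bi-ordered group with kernel `E₀` then `f (j (g m)) = f (e ^ m)`. For `y ∈ TT B` one has
`(g m)⁻¹ * y ∈ TT (ρ (k m) • B) ⊆ N * Ω`, so `g m` and `g m'` lie in the same coset of `N` for some
`m ≠ m'`, hence `e ^ (m - m') ∈ E₀`, and `OrdKer.root` applies. -/
theorem Lvl.mem_of_norm {X : Ext E H n} {Y : Subgroup H} {N : Subgroup (Fr n)} {E₀ : Subgroup E}
    (h : X.Lvl Y N E₀) {B : Subgroup (Fr n)} (hB : B ≤ N) (hfg : B.FG) (hna : NonAb B) {e : E}
    (he : X.π e ∈ Y) (hn : X.ρ e • B = B) : e ∈ E₀ := by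
  obtain ⟨Ω, hΩ, hs⟩ := h.strip B hB hfg hna
  obtain ⟨y, hy⟩ := tt_nonempty (xprop_ne_bot hna)
  have h1 : ∀ m : ℕ, ∃ ω ∈ Ω, ∃ k ∈ E₀, e ^ m = X.j (y * ω⁻¹) * k := by
    intro m
    have h2 : X.π (e ^ m) ∈ E₀.map X.π := by
      rw [h.onto, map_pow]
      exact pow_mem he m
    obtain ⟨k, hk, hk'⟩ := h2
    obtain ⟨g, hg⟩ := X.exists_j_of_π_eq hk'.symm
    have h3 : X.ρ (e ^ m) • B = B := pow_mem (show e ∈ X.norm B from hn) m
    rw [hg, map_mul, mul_smul, X.ρ_j] at h3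
    have h4 : g⁻¹ * y ∈ TT (X.ρ k • B) := by
      rw [← mul_mem_tt_conj _ g, mul_inv_cancel_left, h3]
      exact hy
    obtain ⟨ν, hν, ω, hω, h5⟩ := hs k hk h4
    refine ⟨ω, hω, X.j ν⁻¹ * k, mul_mem ((h.cap _).2 (inv_mem hν)) hk, ?_⟩
    have h6 : g = y * ω⁻¹ * ν⁻¹ := by
      have h7 : ν * ω = g⁻¹ * y := h5
      rw [mul_assoc, ← mul_inv_rev, h7]
      group
    rw [hg, h6, map_mul X.j _ ν⁻¹, mul_assoc]
  choose ω hω k hk hek using h1
  obtain ⟨m, m', hlt, hmm⟩ := hΩ.exists_lt_map_eq_of_forall_mem hω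
  have h2 : e ^ (m' - m) ∈ E₀ := by
    have h3 : e ^ (m' - m) = (k m)⁻¹ * k m' := by
      have h4 : e ^ (m' - m) = (e ^ m)⁻¹ * e ^ m' := by
        rw [eq_inv_mul_iff_mul_eq, ← pow_add, add_tsub_cancel_of_le hlt.le]
      rw [h4, hek m, hek m', hmm]
      group
    rw [h3]
    exact mul_mem (inv_mem (hk m)) (hk m')
  exact h.ord.root (x := ⟨e, he⟩) (k := m' - m) (by omega) h2

/-- Use `bi_ne_of_count`. Given `n` twists that are pairwise not conjugate, apply `nice_core` to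
`X.xprop_sub Y` with a height from `exists_ht` (trivial `ψ`), the groups `ρ (e i) • S` and the sets
`ρ (e i) • Ω` (`almInv_cut`, `eqInv_cut`, `AlmInv.smul`, `EqInv.conj`, `IndAll.smul`,
`Lvl.mem_of_norm`). -/
theorem niceU {o : BiOrd (Fr n)} {Y Y₀ : Subgroup H} [Y₀.Normal] (hY : Y₀ ≤ Y) (ho : X.OrdOn o Y)
    {N : Subgroup (Fr n)} {E₀ : Subgroup E} (h : X.Lvl Y N E₀) {S : Subgroup (Fr n)} (hS : S ≤ N)
    (hfg : S.FG) (hna : NonAb S) (hi : IndAll N S) {x y : Fr n} (he : Ess S x y) {σ : Y₀ →* E}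
    (hσ : X.Sec σ) (hinv : ∀ a, X.ρ (σ a) • S = S ∧ X.ρ (σ a) • cut S x y = cut S x y) :
    BI ((X.NE σ).map X.π) (n - 1) := by
  refine X.bi_ne_of_count σ fun e => ?_
  by_contra hcon
  obtain ⟨Q, _, ht, hker, hN, -⟩ := (X.xprop_sub Y).exists_ht (o := o) (fun a => ho a a.2) h.ord
    (N := N) h.cap 1 fun _ _ _ _ => rfl
  have hπ : ∀ i a, X.π (X.twist σ (e i) a) = a := fun i => X.sec_twist hσ (e i)
  have hmem : ∀ i a, X.twist σ (e i) a ∈ Y.comap X.π := fun i a => by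
    rw [Subgroup.mem_comap, hπ]
    exact hY a.2
  have hρ : ∀ i a, X.ρ (X.twist σ (e i) a) =
      X.ρ (e i) * X.ρ (σ (MulAut.conjNormal (X.π (e i))⁻¹ a)) * (X.ρ (e i))⁻¹ := fun i a => by
    rw [X.twist_apply, map_mul, map_mul, map_inv X.ρ, map_inv]
  have hfix : ∀ i a, X.ρ (X.twist σ (e i) a) • X.ρ (e i) • S = X.ρ (e i) • S := fun i a => by
    rw [hρ, mul_smul, mul_smul, inv_smul_smul, (hinv _).1]
  have hle : ∀ i, X.ρ (e i) • S ≤ N := fun i => by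
    rw [← h.inv (e i)]
    exact Subgroup.pointwise_smul_le_pointwise_smul_iff.2 hS
  have key := ht.nice_core (κ := Fin (n - 1 + 1)) ?_
    (fun i => (X.twist σ (e i)).codRestrict _ (hmem i)) ?_ ?_ (fun i => X.ρ (e i) • S)
    (fun i => X.ρ (e i) • {s | s ∈ S ∧ s⁻¹ ∈ Half x y}) ?_ ?_ ?_ ?_ ?_ ?_
  · rw [Fintype.card_fin] at key
    omega
  · rw [hker, eq_top_iff]
    rintro ⟨z, hz⟩ -
    obtain ⟨k, hk, rfl⟩ : z ∈ E₀.map X.π := h.onto.symm ▸ hz
    exact ⟨⟨k, hz⟩, hk, rfl⟩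
  · intro i k a
    exact Subtype.ext ((hπ i a).trans (hπ k a).symm)
  · intro i a
    rw [hker]
    exact h.mem_of_norm (hle i) (msys_fg_smul _ hfg) (msys_nonAb_smul _ hna) (hmem i a) (hfix i a)
  · intro i
    rw [hN]
    exact hle i
  · intro i
    rw [hker, hN]
    obtain ⟨Ω, hΩ, hs⟩ := h.strip _ (hle i) (msys_fg_smul _ hfg) (msys_nonAb_smul _ hna)
    exact ⟨Ω, hΩ, fun k hk => hs k hk⟩
  · intro i
    rw [hN]
    exact hi.smul (h.inv (e i))
  · intro i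
    exact (almInv_cut hna he).smul _
  · intro i a
    refine ⟨hfix i a, ?_⟩
    change EqInv (X.ρ (X.twist σ (e i) a)) _
    rw [hρ]
    exact (eqInv_cut hna he (hinv _).1 (hinv _).2).conj _
  · rintro i k ⟨g, hg⟩
    by_contra hik
    exact hcon ⟨i, k, hik, g, fun a => congrArg Subtype.val (hg a)⟩

end Ext

end Pool.Agent.Lib.MP_9ac97d_al
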