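import Pool.Agent.Lib.MP_9ac97d_al.UGlue
import Pool.Agent.Lib.MP_9ac97d_al.UHull
import Pool.Agent.Lib.MP_9ac97d_al.UNice

/-!
# The hierarchy (task UHier)
-/

set_option autoImplicit false

noncomputable section

open Pointwise

namespace Pool.Agent.Lib.MP_9ac97d_al

theorem uhier_le_cA {n : ℕ} (hn : 2 ≤ n) : 4 * n ^ 2 ≤ cA n := by
  unfold cA
  have h1 : 1 ≤ 4 * n ^ 2 := by nlinarith
  calc 4 * n ^ 2 = 4 * n ^ 2 * 1 * 1 := by ring
    _ ≤ 4 * n ^ 2 * (4 * n ^ 2) * (n + 1) := by gcongr; omega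
    _ = (4 * n ^ 2) ^ 2 * (n + 1) := by ring

theorem uhier_pred_le (n : ℕ) : n - 1 ≤ 4 * n ^ 2 := by
  have : n ≤ n ^ 2 := Nat.le_self_pow (by norm_num) n
  omega

theorem uhier_fi_trans {H : Type} [Group H] {A B C : Subgroup H} (hBC : B ≤ C)
    (h1 : (A.subgroupOf B).FiniteIndex) (h2 : (B.subgroupOf C).FiniteIndex) :
    (A.subgroupOf C).FiniteIndex :=
  ⟨Subgroup.relIndex_ne_zero_trans h1.index_ne_zero h2.index_ne_zero⟩

theorem uhier_fi_mono {H : Type} [Group H] {A B C : Subgroup H} (hAB : A ≤ B)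
    (h1 : (A.subgroupOf C).FiniteIndex) : (B.subgroupOf C).FiniteIndex :=
  Subgroup.finiteIndex_of_le (H := A.subgroupOf C) (Subgroup.comap_mono hAB)

namespace Ext

variable {E H : Type} [Group E] [Group H] {n : ℕ} (X : Ext E H n)

theorem hierU {G : Subgroup H} {o : BiOrd (Fr n)} (hc : X.Ctx G o)
    (hno : ∀ E' S, X.BadU (YY G) E' S → S = ⊤) {N : Subgroup (Fr n)} {E₀ : Subgroup E}
    (hl : X.Lvl (YY G) N E₀) (hper : ∀ D, X.PerIn N D → YY G ≤ X.kerIn ⊤ D)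
    {S : Subgroup (Fr n)} (hSN : S ≤ N) (hS : S.FG) (hna : NonAb S) (hi : IndAll N S)
    (hst : ((X.stabH S).subgroupOf (YY G)).FiniteIndex) : YY G ≤ X.kerIn ⊤ S := by
  have hGn := hc.normal
  have hYn := yy_normal G
  induction hr : rk S using Nat.strong_induction_on generalizing S with
  | _ r ih =>
  by_cases hp : X.Per S
  · exact hper S ⟨hSN, hS, hna, hp⟩
  obtain ⟨M, hMle, hMY, hMn, hMfi, hMfg⟩ := exists_normal_fi hc.fg hst
  obtain ⟨V, hV⟩ := X.exists_scale hMfg r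
  have h1 : ∃ e, V ≤ core (X.ρ e • S) := by
    by_contra hcon
    push Not at hcon
    exact hp ((X.per_iff_core hS).2 ⟨V, fun e => (hcon e).le⟩)
  obtain ⟨e, he⟩ := h1
  set S' := X.ρ e • S with hS'
  have hS'N : S' ≤ N := by
    rw [← hl.inv e]
    exact Subgroup.pointwise_smul_le_pointwise_smul_iff.2 hSN
  have hfg : S'.FG := xhier_fg_smul _ hS
  have hna' : NonAb S' := xhier_nonAb_smul _ hna
  have hi' : IndAll N S' := hi.smul (hl.inv e)
  have hrk : rk S' = r := by rw [hS', rk_smul, hr]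
  have hM' : M ≤ X.stabH S' := by
    rw [hS', X.stabH_smul]
    have h2 : MulAut.conj (X.π e) • M = M :=
      xhier_conj_smul (fun x hx => hMn.conj_mem x hx _) fun x hx => by
        simpa using hMn.conj_mem x hx (X.π e)⁻¹
    rw [← h2]
    exact Subgroup.pointwise_smul_le_pointwise_smul_iff.2 hMle
  set E' : Subgroup E := X.norm S' ⊓ M.comap X.π with hE'
  have hle : E' ≤ X.norm S' := inf_le_left
  have hmap : E'.map X.π = M := by
    apply le_antisymm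
    · rintro _ ⟨x, hx, rfl⟩
      exact hx.2
    · intro x hx
      obtain ⟨y, hy, rfl⟩ := hM' hx
      exact ⟨y, ⟨hy, hx⟩, rfl⟩
  have hj : ∀ s ∈ S', X.j s ∈ E' := by
    intro s hs
    refine ⟨?_, ?_⟩
    · change X.ρ (X.j s) • S' = S'
      rw [X.ρ_j]
      exact xhier_conj_smul (fun x hx => S'.mul_mem (S'.mul_mem hs hx) (S'.inv_mem hs))
        fun x hx => S'.mul_mem (S'.mul_mem (S'.inv_mem hs) hx) hs
    · change X.π (X.j s) ∈ M
      rw [X.π_j]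
      exact M.one_mem
  obtain ⟨m, hne, hinv⟩ := hV S' E' hfg hna' hrk.le he hle hmap
  obtain ⟨K, hK, hK'⟩ := X.exists_cst_uniform hfg hna' hj hinv
  rw [hmap] at hK
  obtain ⟨Y₁, h1K, h1Y, h1n, h1fi, -⟩ := exists_normal_fi hc.fg (uhier_fi_trans hMY hK hMfi)
  have h2 : Y₁ ≤ X.kerIn E' S' := by
    refine X.glueU hc h1Y h1fi hfg hna' hle hj hne hinv (fun U hU => h1K.trans (hK' U hU))
      (fun U hU hv => ?_) fun U hU σ hσ hσ' => ?_
    · obtain ⟨h3, h4⟩ := vstab_fg_rk hfg hna' hU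
      refine ih _ (hrk ▸ h4) (le_trans inf_le_left hS'N) h3 hv (hi'.vstab hna' hU) ?_ rfl
      have h5 := X.finiteIndex_estab hfg hna' hle hj hinv hU
      rw [hmap] at h5
      exact uhier_fi_mono (Subgroup.map_mono (X.estab_le_norm hle _))
        (uhier_fi_trans hMY h5 hMfi)
    · obtain ⟨⟨p, hp1, hp2⟩, -⟩ := hU
      refine (X.niceU (o := o) h1Y (fun a ha => hc.ord a (yy_le_comm G ha)) hl hS'N hfg hna' hi'
        hp1 hσ fun a => ?_).mono (uhier_pred_le n)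
      obtain ⟨h6, h7⟩ := X.xglue_mem_cst.1 (hσ' a)
      exact ⟨X.mem_norm.1 (hle h6), by rw [hp2]; exact h7⟩
  have h3 : YY G ≤ X.kerIn ⊤ S' :=
    X.up hc hno h1Y h1fi hna' (h2.trans (X.kerIn_mono le_top le_rfl))
  have h4 := X.xbasic_kerIn_smul e⁻¹ S'
  rw [hS', ← mul_smul, ← map_mul, inv_mul_cancel, map_one, one_smul] at h4
  refine le_trans ?_ h4
  have h5 : MulAut.conj (X.π e⁻¹) • YY G = YY G :=
    xhier_conj_smul (fun x hx => hYn.conj_mem x hx _) fun x hx => by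
      simpa using hYn.conj_mem x hx (X.π e⁻¹)⁻¹
  rw [← h5]
  exact Subgroup.pointwise_smul_le_pointwise_smul_iff.2 h3

theorem core_ltU {G : Subgroup H} {o : BiOrd (Fr n)} (hc : X.Ctx G o) :
    ∃ V : ℕ, ∀ E' S, X.BadU (YY G) E' S → core S < V := by
  have hGn := hc.normal
  have hYn := yy_normal G
  obtain ⟨V, hV⟩ := X.exists_scale hc.fgH.out n
  refine ⟨V, fun E' S hb => ?_⟩
  by_contra hcon
  have hna : NonAb S := nonAb_of_two_le_rk (hc.two.trans hb.rank.ge)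
  obtain ⟨m, hne, hinv⟩ := hV S E' hb.fg hna hb.rank.le (not_lt.1 hcon) hb.pair.le hb.onto
  have hj : ∀ s ∈ S, X.j s ∈ E' := fun s hs => (hb.pair.cap s).2 hs
  have hbi : ∀ U ∈ UU S m, BI ((X.xglue_cst E' U).map X.π) (4 * n ^ 2) := fun U hU =>
    (X.bi_cst hb.fg hna hj hb.onto hinv hU).mono (by rw [hb.rank]; nlinarith)
  have hfi : ((YY G).subgroupOf (YY G)).FiniteIndex := by
    rw [Subgroup.subgroupOf_self]
    infer_instance
  refine hb.bad (X.glueU hc le_rfl hfi hb.fg hna hb.pair.le hj hne hinv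
    (fun U hU => (yy_le G).trans (hc.under.le (hbi U hU) (uhier_le_cA hc.two)))
    (fun U hU _ => ?_) fun U hU σ hσ hσ' => (hbi U hU).of_le (Subgroup.map_mono
      (X.mem_ne_of_unique hσ hσ' (X.xglue_uniq_cst hna hb.pair.le hU))))
  obtain ⟨h3, h4⟩ := vstab_fg_rk hb.fg hna hU
  have hp : X.Pair (X.estab E' (head S (UU S m) U)) (vstab S (head S (UU S m) U)) :=
    ⟨X.estab_le_norm hb.pair.le _, fun g => by
      rw [xhier_mem_estab, xhier_mem_vstab, X.ρ_j, hb.pair.cap]⟩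
  exact (hc.ih _ _ hp (((hbi U hU).of_le (Subgroup.map_mono
    (X.xglue_cst_le_estab hb.pair.le hinv U))).mono (uhier_le_cA hc.two)) h3
    (h4.trans_eq hb.rank)).trans (X.kerIn_mono le_top le_rfl)

theorem step_ctx {G : Subgroup H} {o : BiOrd (Fr n)} (hc : X.Ctx G o)
    (hlev : YY G ≤ X.kerIn ⊤ ⊤ ∨ ∃ N E₀, X.Lvl (YY G) N E₀) (hb : ¬ YY G ≤ X.kerIn ⊤ ⊤) :
    ∃ E' S, X.BadU (YY G) E' S ∧ S ≠ ⊤ := by
  by_contra hcon
  have hno : ∀ E' S, X.BadU (YY G) E' S → S = ⊤ := fun E' S h =>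
    by_contra fun h' => hcon ⟨E', S, h, h'⟩
  obtain ⟨N, E₀, hl⟩ := hlev.resolve_left hb
  have := hl.normal
  obtain ⟨c, hnil⟩ := hl.nil
  have hper : ∀ D, X.PerIn N D → YY G ≤ X.kerIn ⊤ D := by
    intro D hD
    obtain ⟨P, hDP, hPt, hPfg, hrk, hpair, hbi, hst⟩ :=
      X.exists_pairU hc.two hl.inv hnil hl.wild hD
    have hP : YY G ≤ X.kerIn (X.norm P) P := by
      rcases hrk.lt_or_eq with h | h
      · exact hc.ih _ _ hpair (hbi.mono ((uhier_pred_le n).trans (uhier_le_cA hc.two))) hPfg h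
      · by_contra hbad
        exact hPt (hno _ P ⟨hpair, hst h, hPfg, h, hbad⟩)
    exact hP.trans (X.kerIn_mono le_top hDP)
  obtain ⟨B₀, hB₀, hfg₀, hw₀⟩ := exists_wide hc.two hnil
  obtain ⟨Ω, hΩ, hΩ'⟩ := hl.strip B₀ hB₀ hfg₀ hw₀.nonAb
  obtain ⟨B, hB1, hB2, hBfg, hBi, A, hA, hA'⟩ := exists_hullU (Γ := E₀.map X.ρ)
    (by
      rintro _ ⟨k, -, rfl⟩
      exact hl.inv k) hB₀ hw₀.nonAb hΩ
    (by
      rintro _ ⟨k, hk, rfl⟩
      exact hΩ' k hk)
  have hfi := X.finiteIndex_stabH (K₀ := E₀) (B := B) hA fun k hk => by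
    obtain ⟨g, -, hg⟩ := hA' _ ⟨k, hk, rfl⟩
    exact ⟨g, hg⟩
  rw [hl.onto] at hfi
  have hw := hw₀.mono hB1
  exact hb ((X.hierU hc hno hl hper hB2 hBfg hw.nonAb hBi hfi).trans
    (Subgroup.map_mono (inf_le_inf_left _ (X.cent_le_cent_top hw))))

end Ext

end Pool.Agent.Lib.MP_9ac97d_al
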