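import Pool.Agent.Lib.MP_9ac97d_al.UBasic

/-!
# Volume characters with explicit constants (task UVol)
-/

set_option autoImplicit false

noncomputable section

open Pointwise

namespace Pool.Agent.Lib.MP_9ac97d_al

/-- Copy the proof of `exists_vol_disc` and keep the constants. -/
theorem exists_volC_disc {E D V : Type} [Group E] [NormedDivisionRing D] [IsUltrametricDist D]
    [AddCommGroup V] [Module D V] [Module.Finite D V] [Nontrivial V] (hD : Disc D)
    (A : SL E D V) : ∃ δ : E →* ℝ, A.VolC δ 1 ∧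
      ∀ e, ∃ k : ℤ, δ e = Real.exp (k / (Module.finrank D V : ℕ)) := by
  have hm : 0 < Module.finrank D V := Module.finrank_pos
  let b₀ := Module.finBasis D V
  have hN := degN_us b₀
  have h1 := deg_one_le b₀
  have h0 : degVol (degN b₀) (⊥ : Submodule D V) (degL b₀) ≠ 0 := (zero_lt_one.trans_le h1).ne'
  have hsp : ∀ l : List V, (∀ v, v ∈ Submodule.span D {z | z ∈ l}) → ∀ l' : List V, ∀ x ∈ l',
      x ∈ (⊥ : Submodule D V) ⊔ Submodule.span D {z | z ∈ l} :=
    fun l hl _ x _ => Submodule.mem_sup_right (hl x)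
  let a : E →* ℝ :=
    { toFun := fun e => degVol (degN b₀) (⊥ : Submodule D V) ((degL b₀).map (A.act e)) /
        degVol (degN b₀) (⊥ : Submodule D V) (degL b₀)
      map_one' := by
        have : (degL b₀).map (A.act 1) = degL b₀ := by
          rw [map_one]
          exact List.map_id _
        rw [this, div_self h0]
      map_mul' := fun e e' => by
        have e1 : (degL b₀).map (A.act (e * e')) = ((degL b₀).map (A.act e')).map (A.act e) := by
          rw [map_mul, List.map_map]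
          rfl
        have e2 := deg_ratio hN (hN.comp A e) (degL b₀) ⊥ ((degL b₀).map (A.act e'))
          (List.length_map _) (hsp _ (deg_map_span A (degL_span b₀) e') _) h0
        rw [e1, degVol_map_bot A hN e, degVol_map_bot A hN e]
        field_simp
        linear_combination e2 }
  have ha : ∀ e, a e = degVol (degN b₀) (⊥ : Submodule D V) ((degL b₀).map (A.act e)) /
      degVol (degN b₀) (⊥ : Submodule D V) (degL b₀) := fun _ => rfl
  have ha0 : ∀ e, 0 ≤ a e := fun e => div_nonneg (degVol_nonneg hN _ _) (degVol_nonneg hN _ _)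
  obtain ⟨δ, hδ⟩ := deg_root a ha0 hm
  refine ⟨δ, ⟨fun e => (hδ e).1, fun b e κ hκ => ?_, fun e d hd => ?_⟩, fun e => ?_⟩
  · have hκ0 : 0 ≤ κ := (norm_nonneg _).trans (hκ ⟨0, hm⟩ ⟨0, hm⟩)
    have hNb := degN_us b
    have hb1 := deg_one_le b
    have hb0 : degVol (degN b) (⊥ : Submodule D V) (degL b) ≠ 0 := (zero_lt_one.trans_le hb1).ne'
    have hl : (degL b).length = (degL b₀).length := by rw [degL_length, degL_length]
    have e1 := deg_ratio hN (hN.comp A e) (degL b₀) ⊥ (degL b) hl (hsp _ (degL_span b) _) h0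
    have e2 := deg_ratio hNb hN (degL b) ⊥ ((degL b).map (A.act e)) (List.length_map _)
      (hsp _ (deg_map_span A (degL_span b) e) _) hb0
    have e3 := deg_ratio hNb hN (degL b) ⊥ (degL b₀) hl.symm (hsp _ (degL_span b₀) _) hb0
    have h3 : degVol (degN b₀) (⊥ : Submodule D V) (degL b) ≠ 0 :=
      right_ne_zero_of_mul (e3 ▸ mul_ne_zero hb0 h0)
    rw [← degVol_map_bot A hN e, ← degVol_map_bot A hN e] at e1
    have e4 : a e * degVol (degN b) (⊥ : Submodule D V) (degL b)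
        = degVol (degN b) (⊥ : Submodule D V) ((degL b).map (A.act e)) := by
      rw [ha, div_mul_eq_mul_div, div_eq_iff h0]
      refine mul_left_cancel₀ h3 ?_
      linear_combination degVol (degN b₀) (⊥ : Submodule D V) (degL b₀) * e2
        - degVol (degN b) (⊥ : Submodule D V) (degL b) * e1
    have h5 : degVol (degN b) (⊥ : Submodule D V) ((degL b).map (A.act e))
        ≤ κ ^ Module.finrank D V := by
      have := degVol_le hNb (κ := κ) ((degL b).map (A.act e)) ⊥ (by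
        intro x hx
        obtain ⟨y, hy, rfl⟩ := List.mem_map.1 hx
        obtain ⟨i, -, rfl⟩ := List.mem_map.1 hy
        exact (pi_norm_le_iff_of_nonneg hκ0).2 (hκ i))
      rwa [List.length_map, degL_length] at this
    have h6 : δ e ^ Module.finrank D V ≤ κ ^ Module.finrank D V := by
      rw [(hδ e).2]
      exact (le_mul_of_one_le_right (ha0 e) hb1).trans (e4 ▸ h5)
    rw [one_mul]
    exact (pow_le_pow_iff_left₀ (hδ e).1.le hκ0 hm.ne').1 h6
  · have e1 : (fun v => degN b₀ (A.act e v)) = fun v => ‖d‖ * degN b₀ v := by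
      funext v
      rw [hd, hN.smul]
    have e2 : a e = ‖d‖ ^ Module.finrank D V := by
      rw [ha, degVol_map_bot A hN e, e1, degVol_const_mul (norm_nonneg d), degL_length,
        mul_div_cancel_right₀ _ h0]
    exact (pow_left_inj₀ (hδ e).1.le (norm_nonneg d) hm.ne').1 ((hδ e).2.trans e2)
  · have hne : a e ≠ 0 := by
      rw [← (hδ e).2]
      exact (pow_pos (hδ e).1 _).ne'
    rw [ha] at hne
    obtain ⟨k, hk⟩ := degVol_int hN (degN_int hD b₀) _ _ (div_ne_zero_iff.1 hne).1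
    obtain ⟨k', hk'⟩ := degVol_int hN (degN_int hD b₀) _ _ h0
    refine ⟨k - k', (pow_left_inj₀ (hδ e).1.le (Real.exp_pos _).le hm.ne').1 ?_⟩
    have hm' : ((Module.finrank D V : ℕ) : ℝ) ≠ 0 := Nat.cast_ne_zero.2 hm.ne'
    rw [(hδ e).2, ha, hk, hk', ← Real.exp_nat_mul, mul_div_cancel₀ _ hm', Int.cast_sub,
      Real.exp_sub]

/-- Copy the proof of `exists_vol_complex`: `δ e ^ m = ‖det‖ ≤ m! * κ ^ m ≤ (m! * κ) ^ m`. -/
theorem exists_volC_complex {E V : Type} [Group E] [AddCommGroup V] [Module ℂ V]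
    [Module.Finite ℂ V] [Nontrivial V] (A : SL E ℂ V) (hA : ∀ e, A.α e = 1) :
    ∃ δ : E →* ℝ, A.VolC δ (Module.finrank ℂ V).factorial := by
  have hm : 0 < Module.finrank ℂ V := Module.finrank_pos
  let φ : E →* Module.End ℂ V :=
    { toFun := fun e =>
        { toFun := A.act e
          map_add' := map_add _
          map_smul' := fun d v => by
            rw [A.smul, hA]
            rfl }
      map_one' := by
        ext v
        simp
      map_mul' := fun e e' => by
        ext v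
        simp }
  have hφ : ∀ e v, φ e v = A.act e v := fun _ _ => rfl
  let a : E →* ℝ :=
    { toFun := fun e => ‖LinearMap.det (φ e)‖
      map_one' := by simp
      map_mul' := fun e e' => by simp }
  have ha : ∀ e, a e = ‖LinearMap.det (φ e)‖ := fun _ => rfl
  obtain ⟨δ, hδ⟩ := deg_root a (fun e => norm_nonneg (LinearMap.det (φ e))) hm
  refine ⟨δ, fun e => (hδ e).1, fun b e κ hκ => ?_, fun e d hd => ?_⟩
  · have hκ0 : 0 ≤ κ := (norm_nonneg _).trans (hκ ⟨0, hm⟩ ⟨0, hm⟩)
    have h1 := Matrix.det_le (A := LinearMap.toMatrix b b (φ e))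
      (abv := NormedField.toAbsoluteValue ℂ) (x := κ) (fun i j => by
        rw [LinearMap.toMatrix_apply]
        exact hκ j i)
    rw [LinearMap.det_toMatrix, Fintype.card_fin, nsmul_eq_mul] at h1
    have hf : (1 : ℝ) ≤ (Module.finrank ℂ V).factorial :=
      Nat.one_le_cast.2 (Nat.factorial_pos _)
    have h2 : δ e ^ Module.finrank ℂ V
        ≤ ((Module.finrank ℂ V).factorial * κ) ^ Module.finrank ℂ V := by
      rw [(hδ e).2, mul_pow]
      exact le_trans h1 (mul_le_mul_of_nonneg_right (le_self_pow₀ hf hm.ne') (pow_nonneg hκ0 _))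
    exact (pow_le_pow_iff_left₀ (hδ e).1.le (by positivity) hm.ne').1 h2
  · have e1 : φ e = d • (LinearMap.id : V →ₗ[ℂ] V) := by
      ext v
      rw [hφ, hd]
      rfl
    refine (pow_left_inj₀ (hδ e).1.le (norm_nonneg d) hm.ne').1 ?_
    rw [(hδ e).2, ha, e1, LinearMap.det_smul, LinearMap.det_id, mul_one, norm_pow]

theorem uvol_rel {E : Type} [Group E] {K E₂ E₃ : Subgroup E} {a b : ℕ}
    (h : BI (K.subgroupOf E₃) b) (h' : BI (E₃.subgroupOf E₂) a) (hle : E₃ ≤ E₂) :
    BI (K.subgroupOf E₂) (a * b) := by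
  have e := Subgroup.relIndex_mul_relIndex (K ⊓ E₃) E₃ E₂ inf_le_right hle
  rw [Subgroup.inf_relIndex_right] at e
  have h1 : BI ((K ⊓ E₃).subgroupOf E₂) (a * b) := by
    refine ⟨fun h0 => ?_, ?_⟩
    · exact mul_ne_zero h.1 h'.1 (e.trans h0)
    · exact e.symm.le.trans ((Nat.mul_le_mul h.2 h'.2).trans (mul_comm b a).le)
  exact h1.of_le (Subgroup.comap_mono inf_le_left)

theorem uvol_self {E : Type} [Group E] (K : Subgroup E) : BI (K.subgroupOf K) 1 := by
  rw [Subgroup.subgroupOf_self]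
  exact bi_top

theorem uvol_chain (r : ℕ) : ∀ b : ℕ, ∃ a : ℕ, 0 < a ∧ ∀ (E D V : Type) [Group E]
    [NormedDivisionRing D] [AddCommGroup V] [Module D V] [Module.Finite D V] (A : SL E D V)
    (E₁ : Subgroup E) (U₀ U₁ : Submodule D V), U₀ ≤ U₁ → E₁ ≤ A.stab U₀ → E₁ ≤ A.stab U₁ →
    (∀ e, A.Scal e → e ∈ E₁) → Module.finrank D U₁ ≤ Module.finrank D U₀ + r →
    ∃ (E₂ : Subgroup E) (l : ℕ) (W : ℕ → Submodule D V), E₂ ≤ E₁ ∧ BI (E₂.subgroupOf E₁) a ∧
      (∀ e, A.Scal e → e ∈ E₂) ∧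
      W 0 = U₀ ∧ W l = U₁ ∧ (∀ k < l, W k < W (k + 1)) ∧ (∀ k ≤ l, E₂ ≤ A.stab (W k)) ∧
      ∀ k < l, ∀ W', W k < W' → W' < W (k + 1) → ¬ BI ((A.stab W').subgroupOf E₂) b := by
  induction r with
  | zero =>
    refine fun b => ⟨1, one_pos, fun E D V _ _ _ _ _ A E₁ U₀ U₁ hle h₀ _ hs hr => ?_⟩
    exact ⟨E₁, 0, fun _ => U₀, le_rfl, uvol_self _, hs, rfl,
      Submodule.eq_of_le_of_finrank_le hle hr, fun k hk => absurd hk (Nat.not_lt_zero k),
      fun _ _ => h₀, fun k hk => absurd hk (Nat.not_lt_zero k)⟩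
  | succ r ih =>
    intro b
    obtain ⟨a₁, p₁, ih₁⟩ := ih b
    obtain ⟨a₀, p₀, ih₀⟩ := ih (a₁ * b)
    refine ⟨b * a₀ * a₁ + 1, Nat.succ_pos _, fun E D V _ _ _ _ _ A E₁ U₀ U₁ hle h₀ h₁ hs hr => ?_⟩
    by_cases hW : ∃ W, U₀ < W ∧ W < U₁ ∧ BI ((A.stab W).subgroupOf E₁) b
    · obtain ⟨W, w₀, w₁, hb⟩ := hW
      have f₀ := Submodule.finrank_lt_finrank_of_lt w₀
      have f₁ := Submodule.finrank_lt_finrank_of_lt w₁
      obtain ⟨E₂, l, X, le₂, b₂, s₂, x0, xl, xs, xt, xm⟩ := ih₀ E D V A (A.stab W ⊓ E₁) U₀ W w₀.le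
        (inf_le_right.trans h₀) inf_le_left (fun e he => ⟨A.sub_of_scal he W, hs e he⟩) (by omega)
      obtain ⟨E₃, l', Y, le₃, b₃, s₃, y0, yl, ys, yt, ym⟩ := ih₁ E D V A E₂ W U₁ w₁.le
        (le₂.trans inf_le_left) ((le₂.trans inf_le_right).trans h₁) s₂ (by omega)
      have hb' : BI ((A.stab W ⊓ E₁).subgroupOf E₁) b := by
        rwa [Subgroup.inf_subgroupOf_right]
      have z₁ : ∀ k ≤ l, (if k ≤ l then X k else Y (k - l)) = X k := fun k hk => if_pos hk
      have z₂ : ∀ k, l ≤ k → (if k ≤ l then X k else Y (k - l)) = Y (k - l) := fun k hk => by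
        split_ifs with h
        · rw [le_antisymm h hk, Nat.sub_self, xl, y0]
        · rfl
      refine ⟨E₃, l + l', fun k => if k ≤ l then X k else Y (k - l),
        le₃.trans (le₂.trans inf_le_right), (uvol_rel b₃ (uvol_rel b₂ hb' inf_le_right)
          (le₂.trans inf_le_right)).mono (Nat.le_succ _), s₃, ?_, ?_, fun k hk => ?_,
        fun k hk => ?_, fun k hk W' => ?_⟩
      · exact (z₁ 0 (Nat.zero_le _)).trans x0
      · exact (z₂ _ (Nat.le_add_right _ _)).trans (by rw [Nat.add_sub_cancel_left, yl])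
      · rcases lt_or_ge k l with h | h
        · simp only [z₁ k h.le, z₁ (k + 1) h]
          exact xs k h
        · simp only [z₂ k h, z₂ (k + 1) (Nat.le_succ_of_le h)]
          rw [Nat.sub_add_comm h]
          exact ys (k - l) (by omega)
      · rcases le_total k l with h | h
        · simp only [z₁ k h]
          exact le₃.trans (xt k h)
        · simp only [z₂ k h]
          exact yt (k - l) (by omega)
      · rcases lt_or_ge k l with h | h
        · simp only [z₁ k h.le, z₁ (k + 1) h]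
          exact fun c₀ c₁ c => xm k h W' c₀ c₁ (uvol_rel c b₃ le₃)
        · simp only [z₂ k h, z₂ (k + 1) (Nat.le_succ_of_le h)]
          rw [Nat.sub_add_comm h]
          exact ym (k - l) (by omega) W'
    · have hb := (uvol_self E₁).mono (Nat.le_add_left 1 (b * a₀ * a₁))
      rcases hle.eq_or_lt with h | h
      · exact ⟨E₁, 0, fun _ => U₀, le_rfl, hb, hs, rfl, h,
          fun k hk => absurd hk (Nat.not_lt_zero k), fun _ _ => h₀,
          fun k hk => absurd hk (Nat.not_lt_zero k)⟩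
      · refine ⟨E₁, 1, fun k => Nat.casesOn k U₀ fun _ => U₁, le_rfl, hb, hs, rfl, rfl,
          fun k hk => ?_, fun k _ => ?_, fun k hk W' c₀ c₁ c => ?_⟩
        · obtain rfl : k = 0 := by omega
          exact h
        · cases k
          · exact h₀
          · exact h₁
        · obtain rfl : k = 0 := by omega
          exact hW ⟨W', c₀, c₁, c⟩

/-- Induction on `r`, for all `b`. If no `W` strictly between `U₀` and `U₁` has `BI (A.stab W) b`
take `E₂ = ⊤` and the chain `U₀ < U₁` (or the trivial chain). Otherwise pass to `E' = A.stab W`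
(`SL.comp`, `sub_of_scal`), apply the induction hypothesis to `(U₀, W)` on `E'` with the bound
`b * a (r - 1) b`, which gives `E''`, then to `(W, U₁)` on `E''` with the bound `b`, and concatenate
the chains (`BI.of_subgroupOf`, `BI.map_subtype`). -/
theorem chainU (r b : ℕ) : ∃ a : ℕ, ∀ (E D V : Type) [Group E] [NormedDivisionRing D]
    [AddCommGroup V] [Module D V] [Module.Finite D V] (A : SL E D V) (U₀ U₁ : Submodule D V),
    U₀ ≤ U₁ → (∀ e, e ∈ A.stab U₀) → (∀ e, e ∈ A.stab U₁) →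
    Module.finrank D U₁ ≤ Module.finrank D U₀ + r →
    ∃ (E₂ : Subgroup E) (l : ℕ) (W : ℕ → Submodule D V), BI E₂ a ∧ (∀ e, A.Scal e → e ∈ E₂) ∧
      W 0 = U₀ ∧ W l = U₁ ∧ (∀ k < l, W k < W (k + 1)) ∧ (∀ k ≤ l, E₂ ≤ A.stab (W k)) ∧
      ∀ k < l, ∀ W', W k < W' → W' < W (k + 1) → ¬ BI ((A.stab W').subgroupOf E₂) b := by
  obtain ⟨a, -, h⟩ := uvol_chain r b
  refine ⟨1 * a, fun E D V _ _ _ _ _ A U₀ U₁ hle h₀ h₁ hr => ?_⟩
  obtain ⟨E₂, l, W, -, hb, h⟩ := h E D V A ⊤ U₀ U₁ hle (fun e _ => h₀ e) (fun e _ => h₁ e)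
    (fun _ _ => trivial) hr
  exact ⟨E₂, l, W, bi_top.of_subgroupOf hb, h⟩

/-- The analogue of `si_subquot`. -/
theorem SL.sib_subquot {E D V : Type} [Group E] [NormedDivisionRing D] [AddCommGroup V]
    [Module D V] (A : SL E D V) {E' : Subgroup E} {U₀ U₁ : Submodule D V} (hle : U₀ ≤ U₁) {b : ℕ}
    (hmax : ∀ W, U₀ < W → W < U₁ → ¬ BI ((A.stab W).subgroupOf E') b)
    (B : SL E' D (SL.SQ U₀ U₁))
    (hB : ∀ (e : E') (v w : U₁), (w : V) = A.act e v →
      B.act e (Submodule.Quotient.mk v) = Submodule.Quotient.mk w)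
    (h₀ : E' ≤ A.stab U₀) (h₁ : E' ≤ A.stab U₁) : B.SIb b := by
  have _h := h₀
  intro U hb ht hfin
  let W : Submodule D V := (U.comap (U₀.comap U₁.subtype).mkQ).map U₁.subtype
  have hW : ∀ v : V, v ∈ W ↔ ∃ h : v ∈ U₁,
      (Submodule.Quotient.mk (⟨v, h⟩ : U₁) : SL.SQ U₀ U₁) ∈ U := fun v => by
    constructor
    · rintro ⟨w, hw, rfl⟩
      exact ⟨w.2, hw⟩
    · rintro ⟨h, hv⟩
      exact ⟨⟨v, h⟩, hv, rfl⟩
  have h2 : U₀ < W := by
    refine lt_of_le_of_ne (fun v hv => (hW v).2 ⟨hle hv, ?_⟩) fun h => hb ?_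
    · rw [(Submodule.Quotient.mk_eq_zero _).2 (show (⟨v, hle hv⟩ : U₁) ∈ U₀.comap U₁.subtype
        from hv)]
      exact U.zero_mem
    · refine (Submodule.eq_bot_iff _).2 fun x hx => ?_
      obtain ⟨v, rfl⟩ := Submodule.Quotient.mk_surjective _ x
      have h3 : (v : V) ∈ W := (hW v).2 ⟨v.2, hx⟩
      rw [← h] at h3
      exact (Submodule.Quotient.mk_eq_zero _).2 h3
  have h3 : W < U₁ := by
    refine lt_of_le_of_ne (fun v hv => ((hW v).1 hv).1) fun h => ht ?_
    refine top_unique fun x _ => ?_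
    obtain ⟨v, rfl⟩ := Submodule.Quotient.mk_surjective _ x
    have h4 : (v : V) ∈ W := by rw [h]; exact v.2
    exact ((hW v).1 h4).2
  have h4 : ∀ e : E', e ∈ B.stab U → ∀ v ∈ W, A.act e v ∈ W := fun e he v hv => by
    obtain ⟨h5, h6⟩ := (hW v).1 hv
    have h7 : A.act e v ∈ U₁ := A.subq_mem (h₁ e.2) h5
    refine (hW _).2 ⟨h7, ?_⟩
    rw [← hB e ⟨v, h5⟩ ⟨_, h7⟩ rfl]
    exact B.subq_mem he h6
  have h5 : (B.stab U).map E'.subtype ≤ A.stab W := by
    rintro _ ⟨e, he, rfl⟩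
    exact A.subq_mem_stab (h4 e he) (h4 e⁻¹ (inv_mem he))
  exact hmax W h2 h3 (hfin.of_le fun e he => h5 ⟨e, he, rfl⟩)

theorem SL.SIb.mono {E D V : Type} [Group E] [NormedDivisionRing D] [AddCommGroup V]
    [Module D V] {A : SL E D V} {b b' : ℕ} (h : A.SIb b) (hb : b' ≤ b) : A.SIb b' :=
  fun U h0 h1 h2 => h U h0 h1 (h2.mono hb)

end Pool.Agent.Lib.MP_9ac97d_al
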