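import Pool.Agent.Lib.MP_9ac97d_al.UPP
import Pool.Agent.Lib.MP_9ac97d_al.UVol

/-!
# Bounded orbits over a discretely valued skew field (task ULz)
-/

set_option autoImplicit false

noncomputable section

open Pointwise

namespace Pool.Agent.Lib.MP_9ac97d_al

theorem ulz_tail {E H D V : Type} [Group E] [Group H] [NormedDivisionRing D] [AddCommGroup V]
    [Module D V] [Module.Finite D V] (A : SL E D V) (π : E →* H) (hsurj : Function.Surjective π)
    (hπ : ∀ e, π e = 1 → A.Scal e) {δ : E →* ℝ} (hpos : ∀ e, 0 < δ e)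
    (hscal : ∀ (e : E) (d : D), (∀ v, A.act e v = d • v) → δ e = ‖d‖) {S : Set H}
    (hS : Subgroup.closure S = ⊤) {N' : V → ℝ} (hN' : IsNorm D N')
    (hb' : ∀ s ∈ {s : E | π s ∈ S ∨ (π s)⁻¹ ∈ S}, ∀ v, N' (A.act s v) ≤ δ s * N' v) :
    A.Bdd ⁅(⊤ : Subgroup E), ⊤⁆ := by
  have hmul : ∀ a b : E, (∀ v, N' (A.act a v) ≤ δ a * N' v) → (∀ v, N' (A.act b v) ≤ δ b * N' v) →
      ∀ v, N' (A.act (a * b) v) ≤ δ (a * b) * N' v := by
    intro a b ha hb v
    rw [map_mul, map_mul, mul_assoc]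
    exact (ha _).trans (mul_le_mul_of_nonneg_left (hb v) (hpos a).le)
  have hker : ∀ e : E, π e = 1 → ∀ v, N' (A.act e v) ≤ δ e * N' v := by
    intro e he v
    obtain ⟨d, hd⟩ := hπ e he
    rw [hd, hN'.smul, hscal e d hd]
  have hall : ∀ g ∈ Subgroup.closure S, ∀ e : E, π e = g →
      (∀ v, N' (A.act e v) ≤ δ e * N' v) ∧ ∀ v, N' (A.act e⁻¹ v) ≤ δ e⁻¹ * N' v := by
    intro g hg
    induction hg using Subgroup.closure_induction with
    | mem g hg =>
      intro e he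
      exact ⟨hb' e (Or.inl (he ▸ hg)), hb' e⁻¹ (Or.inr (by rw [map_inv, inv_inv, he]; exact hg))⟩
    | one =>
      intro e he
      exact ⟨hker e he, hker e⁻¹ (by rw [map_inv, he, inv_one])⟩
    | mul a b _ _ ha hb =>
      intro e he
      obtain ⟨e1, rfl⟩ := hsurj a
      obtain ⟨a1, a2⟩ := ha e1 rfl
      obtain ⟨b1, b2⟩ := hb (e1⁻¹ * e) (by rw [map_mul, map_inv, he, inv_mul_cancel_left])
      have c1 := hmul _ _ a1 b1
      have c2 := hmul _ _ b2 a2
      rw [mul_inv_cancel_left] at c1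
      rw [mul_inv_rev, inv_inv, mul_inv_cancel_right] at c2
      exact ⟨c1, c2⟩
    | inv a _ ha =>
      intro e he
      obtain ⟨a1, a2⟩ := ha e⁻¹ (by rw [map_inv, he, inv_inv])
      rw [inv_inv] at a2
      exact ⟨a2, a1⟩
  have hcomm : ⁅(⊤ : Subgroup E), ⊤⁆ ≤ δ.ker := by
    refine Subgroup.commutator_le.2 fun a _ b _ => ?_
    rw [MonoidHom.mem_ker, commutatorElement_def, map_mul, map_mul, map_mul]
    calc δ a * δ b * δ a⁻¹ * δ b⁻¹ = δ a * δ a⁻¹ * (δ b * δ b⁻¹) := by ring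
      _ = 1 := by rw [← map_mul, ← map_mul, mul_inv_cancel, mul_inv_cancel, map_one, mul_one]
  intro f v
  obtain ⟨C, hC⟩ := hN'.bdd f
  refine ⟨|C| * N' v, fun k hk => (hC _).trans ?_⟩
  have a := (hall (π k) (hS ▸ Subgroup.mem_top _) k rfl).1 v
  rw [MonoidHom.mem_ker.1 (hcomm hk), one_mul] at a
  exact mul_le_mul (le_abs_self C) a (hN'.nonneg _) (abs_nonneg C)

/-- The uniform form of `bdd_of_si`. -/
theorem bdd_of_siU (r : ℕ) : ∃ L : ℕ, ∀ (E H D V : Type) [Group E] [Group H]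
    [NormedDivisionRing D] [IsUltrametricDist D] [CompleteSpace D] [AddCommGroup V] [Module D V]
    [Module.Finite D V] (A : SL E D V) (π : E →* H), Disc D → Module.finrank D V ≤ r →
    Function.Surjective π → (∀ e, π e = 1 → A.Scal e) → NFL H L → A.SIb r →
    A.Bdd ⁅(⊤ : Subgroup E), ⊤⁆ := by
  have h1 := fun m : Fin (r + 1) => fun hm : 0 < (m : ℕ) => ppU m hm
    (r₀ := Real.exp (1 / (2 * (((m : ℕ) : ℝ) + 1) * (m : ℕ))))
    (Real.one_lt_exp_iff.2 (by positivity)) (Real.exp_pos (-1))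
    (Real.exp_lt_one_iff.2 (by norm_num)) 1
  choose! L hL using h1
  refine ⟨Finset.univ.sup L, fun E H D V _ _ _ _ _ _ _ _ A π hD hr hsurj hπ hH hSI => ?_⟩
  rcases subsingleton_or_nontrivial V with hV | hV
  · intro f v
    exact ⟨0, fun k _ => by rw [Subsingleton.elim (A.act k v) 0, map_zero, norm_zero]⟩
  obtain ⟨δ, hvol, hδ⟩ := exists_volC_disc hD A
  obtain ⟨S, hS⟩ := hH
  have hm : 0 < Module.finrank D V := Module.finrank_pos
  obtain ⟨N, hN, hb⟩ := hL ⟨_, Nat.lt_succ_of_le hr⟩ hm E H D V A π δ S rfl hD.unif hsurj hπ hvol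
    (hSI.mono hr) (hS.mono (Finset.le_sup (Finset.mem_univ _)))
  obtain ⟨N', hN', hb'⟩ := exists_norm_round hD A hm hδ hN
    (S := {s : E | π s ∈ S ∨ (π s)⁻¹ ∈ S}) hb
  exact ulz_tail A π hsurj hπ hvol.pos hvol.scal hS.2.1 hN' hb'

theorem ulz_fin (r : ℕ) : ∃ a L : ℕ, ∀ (E H D V : Type) [Group E] [Group H]
    [NormedDivisionRing D] [IsUltrametricDist D] [CompleteSpace D] [AddCommGroup V] [Module D V]
    [Module.Finite D V] (A : SL E D V) (π : E →* H), Disc D →
    Function.Surjective π → (∀ e, π e = 1 → A.Scal e) → NFL H L →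
    (∀ W, W ≠ ⊥ → (∀ e, e ∈ A.stab W) → ∃ W' < W, (∀ e, e ∈ A.stab W') ∧
      Module.finrank D W ≤ Module.finrank D W' + r) →
    ∀ G K : Subgroup E, (∀ E₂ : Subgroup E, BI E₂ a → π.ker ≤ E₂ → G ≤ E₂) → K ≤ ⁅G, G⁆ → K.FG →
    ∀ W : Submodule D V, (∀ e, e ∈ A.stab W) →
    ∀ (f : V →ₗ[D] D), ∀ v ∈ W, ∃ C : ℝ, ∀ k ∈ K, ‖f (A.act k v)‖ ≤ C := by
  obtain ⟨a, ha⟩ := chainU r r
  obtain ⟨L, hL⟩ := bdd_of_siU r
  refine ⟨a, L * (2 * a + 1),
    fun E H D V _ _ _ _ _ _ _ _ A π hD hsurj hπ hH hW G K hG hK hfg W => ?_⟩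
  induction W using WellFoundedLT.induction with
  | ind W ih =>
  intro hst
  by_cases h0 : W = ⊥
  · intro f v hv
    rw [h0, Submodule.mem_bot] at hv
    exact ⟨0, fun k _ => by simp [hv]⟩
  obtain ⟨W', hlt', hst', hr⟩ := hW W h0 hst
  obtain ⟨E₂, l, U, hE₂, hsc, hU0, hUl, hlt, hE, hmax⟩ := ha E D V A W' W hlt'.le hst' hst hr
  have hK₂ : K ≤ ⁅E₂, E₂⁆ := hK.trans (Subgroup.commutator_mono
    (hG E₂ hE₂ fun e he => hsc e (hπ e he)) (hG E₂ hE₂ fun e he => hsc e (hπ e he)))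
  have hKE : K ≤ E₂ := hK₂.trans (Subgroup.commutator_le.mpr fun x hx y hy =>
    E₂.mul_mem (E₂.mul_mem (E₂.mul_mem hx hy) (E₂.inv_mem hx)) (E₂.inv_mem hy))
  have hmono : ∀ j k, j + k ≤ l → U j ≤ U (j + k) := fun j k hk => by
    induction k with
    | zero => exact le_rfl
    | succ k ih => exact (ih (by omega)).trans (hlt _ hk).le
  have main : ∀ j ≤ l, ∀ (f : V →ₗ[D] D), ∀ v ∈ U j,
      ∃ C : ℝ, ∀ k ∈ K, ‖f (A.act k v)‖ ≤ C := by
    intro j
    induction j with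
    | zero => exact fun _ => hU0 ▸ ih W' hlt' hst'
    | succ j ih =>
      intro hj
      have hj' : j < l := hj
      have hle := (hlt j hj').le
      have h₀ := hE j hj'.le
      have h₁ := hE _ hj
      refine bdd_step A hfg hle (hKE.trans h₀) (hKE.trans h₁) (ih hj'.le) fun f hf v hv => ?_
      obtain ⟨B, -, hB⟩ := (A.comp E₂.subtype).exists_subquot (U₀ := U j) (U₁ := U (j + 1))
        (fun e => h₀ e.2) (fun e => h₁ e.2)
      have hbdd : B.Bdd ⁅(⊤ : Subgroup E₂), ⊤⁆ := by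
        refine hL _ _ _ _ B (π.subgroupMap E₂) hD ?_ (π.subgroupMap_surjective E₂) ?_
          (hH.sub (hE₂.map_surj π hsurj)) (A.sib_subquot hle (hmax j hj') B hB h₀ h₁)
        · have e1 := Submodule.finrank_quotient_add_finrank ((U j).comap (U (j + 1)).subtype)
          have e2 := (Submodule.comapSubtypeEquivOfLe hle).finrank_eq
          have e3 := Submodule.finrank_mono (hmono 0 j (by omega))
          have e4 := Submodule.finrank_mono (hmono (j + 1) (l - (j + 1)) (by omega))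
          rw [zero_add, hU0] at e3
          rw [Nat.add_sub_cancel' hj, hUl] at e4
          show Module.finrank D (U (j + 1) ⧸ (U j).comap (U (j + 1)).subtype) ≤ r
          omega
        · intro e he
          obtain ⟨d, hd⟩ := hπ e (congrArg Subtype.val he)
          refine ⟨d, fun x => ?_⟩
          obtain ⟨y, rfl⟩ := Submodule.Quotient.mk_surjective _ x
          rw [hB e y (d • y) (hd y).symm, Submodule.Quotient.mk_smul]
      let g : SL.SQ (U j) (U (j + 1)) →ₗ[D] D :=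
        ((U j).comap (U (j + 1)).subtype).liftQ (f.comp (U (j + 1)).subtype) fun x hx => hf x hx
      obtain ⟨C, hC⟩ := hbdd g (Submodule.Quotient.mk ⟨v, hv⟩)
      refine ⟨C, fun k hk => ?_⟩
      have hk' : k ∈ Subgroup.map E₂.subtype ⁅(⊤ : Subgroup E₂), ⊤⁆ := by
        rw [Subgroup.map_commutator, ← MonoidHom.range_eq_map, Subgroup.range_subtype]
        exact hK₂ hk
      obtain ⟨k', hk', rfl⟩ := hk'
      have := hC k' hk'
      rwa [hB k' ⟨v, hv⟩ ⟨A.act k' v, lzero2_act_mem A (h₁ k'.2) hv⟩ rfl] at this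
  exact hUl ▸ main l le_rfl

/-- Restrict the action to `U` and apply `ulz_fin`. -/
theorem lzeroU (r : ℕ) : ∃ a L : ℕ, ∀ (E H D V : Type) [Group E] [Group H]
    [NormedDivisionRing D] [IsUltrametricDist D] [CompleteSpace D] [AddCommGroup V] [Module D V]
    (A : SL E D V) (π : E →* H) (U : Submodule D V), Disc D → Module.Finite D U →
    Function.Surjective π → (∀ e, π e = 1 → A.Scal e) → NFL H L → (∀ e, e ∈ A.stab U) →
    (∀ W ≤ U, W ≠ ⊥ → (∀ e, e ∈ A.stab W) → ∃ W' < W, (∀ e, e ∈ A.stab W') ∧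
      Module.finrank D W ≤ Module.finrank D W' + r) →
    ∀ G K : Subgroup E, (∀ E₂ : Subgroup E, BI E₂ a → π.ker ≤ E₂ → G ≤ E₂) → K ≤ ⁅G, G⁆ → K.FG →
    ∀ (f : V →ₗ[D] D), ∀ v ∈ U, ∃ C : ℝ, ∀ k ∈ K, ‖f (A.act k v)‖ ≤ C := by
  obtain ⟨a, L, h⟩ := ulz_fin r
  refine ⟨a, L, fun E H D V _ _ _ _ _ _ _ A π U hD _ hsurj hπ hH hU hW G K hG hK hfg f v hv => ?_⟩
  let B : SL E D U :=
    { α := A.α
      act :=
        { toFun := fun e => (A.subq_res hU e).toAddMonoidHom
          map_one' := AddMonoidHom.ext fun x => Subtype.ext (A.subq_one x)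
          map_mul' := fun e e' => AddMonoidHom.ext fun x => Subtype.ext (A.subq_mul e e' x) }
      smul := fun e d x => Subtype.ext (A.smul e d x)
      iso := A.iso }
  have hB : ∀ e (x : U), (B.act e x : V) = A.act e x := fun _ _ => rfl
  refine h E H D U B π hD hsurj (fun e he => ?_) hH (fun W h0 hst => ?_) G K hG hK hfg ⊤
    (fun e => B.subq_mem_stab (fun _ _ => trivial) fun _ _ => trivial) (f.comp U.subtype) ⟨v, hv⟩
    trivial
  · obtain ⟨d, hd⟩ := hπ e he
    exact ⟨d, fun x => Subtype.ext (hd x)⟩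
  · have h1 : ∀ e, ∀ x ∈ W.map U.subtype, A.act e x ∈ W.map U.subtype := by
      rintro e _ ⟨x, hx, rfl⟩
      exact ⟨B.act e x, B.subq_mem (hst e) hx, rfl⟩
    obtain ⟨W', h2, h3, h4⟩ := hW (W.map U.subtype) (Submodule.map_subtype_le U W)
      (fun hc => h0 (Submodule.map_injective_of_injective U.injective_subtype
        (hc.trans (Submodule.map_bot _).symm)))
      fun e => A.subq_mem_stab (h1 e) (h1 e⁻¹)
    have h5 : W' ≤ U := h2.le.trans (Submodule.map_subtype_le U W)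
    have h6 : (W'.comap U.subtype).map U.subtype = W' := by
      rw [Submodule.map_comap_subtype, inf_eq_right.2 h5]
    have h7 : ∀ e, ∀ x ∈ W'.comap U.subtype, B.act e x ∈ W'.comap U.subtype := fun e x hx =>
      A.subq_mem (h3 e) hx
    refine ⟨W'.comap U.subtype, ?_, fun e => B.subq_mem_stab (h7 e) (h7 e⁻¹), ?_⟩
    · rw [← h6] at h2
      exact (Submodule.map_lt_map_iff_of_injective U.injective_subtype).1 h2
    · rwa [Submodule.finrank_map_subtype_eq,
        ← (Submodule.comapSubtypeEquivOfLe h5).finrank_eq] at h4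

end Pool.Agent.Lib.MP_9ac97d_al
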