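import Pool.Agent.Lib.MP_9ac97d_al.UFin
import Pool.Agent.Lib.MP_9ac97d_al.ULz

/-!
# The height bound on a tame level (task UHt)
-/

set_option autoImplicit false

noncomputable section

open Pointwise

namespace Pool.Agent.Lib.MP_9ac97d_al

section Norm

variable {G : Type} [Group G] {o : BiOrd G} {N : Subgroup G} {o' : BiOrd N}
  {ψ : N →* Multiplicative ℝ}

/-- The norm on the series supported in `N`, transported along `e`. -/
abbrev uhtNorm (e : MN.sub o N ≃+* MN (o'.lex ψ)) : NormedDivisionRing (MN.sub o N) :=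
  NormedDivisionRing.induced (MN.sub o N) (MN (o'.lex ψ)) e e.injective

theorem uht_ultra (e : MN.sub o N ≃+* MN (o'.lex ψ)) :
    letI := uhtNorm e
    IsUltrametricDist (MN.sub o N) := by
  letI := uhtNorm e
  refine IsUltrametricDist.isUltrametricDist_of_forall_norm_add_le_max_norm fun x y => ?_
  change ‖e (x + y)‖ ≤ max ‖e x‖ ‖e y‖
  rw [map_add]
  exact IsUltrametricDist.norm_add_le_max _ _

theorem uht_complete (e : MN.sub o N ≃+* MN (o'.lex ψ))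
    (hψ : ∀ g, ∃ k : ℤ, (ψ g).toAdd = k) :
    letI := uhtNorm e
    CompleteSpace (MN.sub o N) := by
  letI := uhtNorm e
  have h1 : Isometry e := AddMonoidHomClass.isometry_of_norm e fun _ => rfl
  exact (h1.isUniformInducing.completeSpace_congr e.surjective).2 (MN.complete hψ)

theorem uht_disc (e : MN.sub o N ≃+* MN (o'.lex ψ))
    (hψ : ∀ g, ∃ k : ℤ, (ψ g).toAdd = k) {g₀ : N} (h₀ : (ψ g₀).toAdd = 1) :
    letI := uhtNorm e
    Disc (MN.sub o N) := by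
  letI := uhtNorm e
  refine ⟨fun d hd => ?_, ⟨e.symm (MN.of _ g₀), ?_⟩⟩
  · obtain ⟨g, -, hg⟩ := MN.norm_mem (e d) fun h0 => hd (e.injective (h0.trans (map_zero e).symm))
    obtain ⟨k, hk⟩ := hψ g
    refine ⟨-k, ?_⟩
    change ‖e d‖ = _
    rw [hg, hk]
    push_cast
    rfl
  · change ‖e (e.symm (MN.of _ g₀))‖ = _
    rw [e.apply_symm_apply, MN.norm_of, h₀]

end Norm

namespace Ext.Ht

variable {E H Q : Type} [Group E] [Group H] [Group Q] {n : ℕ} {X : Ext E H n} (h : X.Ht Q)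

/-- The action of `E` on the series supported in `N`. -/
def uhtAut : E →* RingAut h.DN where
  toFun e :=
    { toFun := fun d => ⟨MN.mapHom X.ρ h.pres e d, h.map_mem_DN e d.2⟩
      invFun := fun d => ⟨MN.mapHom X.ρ h.pres e⁻¹ d, h.map_mem_DN e⁻¹ d.2⟩
      left_inv := fun d => Subtype.ext (by
        change (MN.mapHom X.ρ h.pres e⁻¹ * MN.mapHom X.ρ h.pres e) d = d
        rw [← map_mul, inv_mul_cancel, map_one]
        rfl)
      right_inv := fun d => Subtype.ext (by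
        change (MN.mapHom X.ρ h.pres e * MN.mapHom X.ρ h.pres e⁻¹) d = d
        rw [← map_mul, mul_inv_cancel, map_one]
        rfl)
      map_mul' := fun a b => Subtype.ext (map_mul (MN.mapHom X.ρ h.pres e) (a : MN h.o) b)
      map_add' := fun a b => Subtype.ext (map_add (MN.mapHom X.ρ h.pres e) (a : MN h.o) b) }
  map_one' := by
    refine RingEquiv.ext fun d => Subtype.ext ?_
    change MN.mapHom X.ρ h.pres 1 d = d
    rw [map_one]
    rfl
  map_mul' := fun e e' => by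
    refine RingEquiv.ext fun d => Subtype.ext ?_
    change MN.mapHom X.ρ h.pres (e * e') d =
      (MN.mapHom X.ρ h.pres e * MN.mapHom X.ρ h.pres e') d
    rw [map_mul]

theorem uhtAut_coe (e : E) (d : h.DN) :
    (h.uhtAut e d : MN h.o) = MN.map (X.ρ e) (h.pres e) d := rfl

theorem uht_mem_N (e : E) {g : Fr n} (hg : g ∈ h.N) : X.ρ e g ∈ h.N := by
  rw [← h.inv_N e]
  exact Subgroup.smul_mem_pointwise_smul _ _ _ hg

theorem uht_iso {o' : BiOrd h.N} {ψ : h.N →* Multiplicative ℝ}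
    (q : h.DN ≃+* MN (o'.lex ψ)) (hq : ∀ (x : h.DN) (g : h.N), (q x).c g = (x : MN h.o).c g)
    (hψ : ∀ (e : E) (x y : h.N), (y : Fr n) = X.ρ e x → ψ y = ψ x) (e : E) (d : h.DN) :
    ‖q (h.uhtAut e d)‖ = ‖q d‖ := by
  refine MN.mnval_nrm_congr (Set.Subset.antisymm ?_ ?_)
  · rintro _ ⟨g, hg, rfl⟩
    have h1 : (d : MN h.o).c ((X.ρ e)⁻¹ g) ≠ 0 := by
      have h2 : (q (h.uhtAut e d)).c g ≠ 0 := hg
      rwa [hq, uhtAut_coe, MN.c_map] at h2
    refine ⟨⟨(X.ρ e)⁻¹ g, d.2 h1⟩, ?_, ?_⟩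
    · change (q d).c _ ≠ 0
      rw [hq]
      exact h1
    · exact congrArg Multiplicative.toAdd (hψ e ⟨(X.ρ e)⁻¹ g, d.2 h1⟩ g (by simp)).symm
  · rintro _ ⟨g, hg, rfl⟩
    have h1 : (d : MN h.o).c g ≠ 0 := by
      have h2 : (q d).c g ≠ 0 := hg
      rwa [hq] at h2
    refine ⟨⟨X.ρ e g, h.uht_mem_N e g.2⟩, ?_, ?_⟩
    · change (q (h.uhtAut e d)).c _ ≠ 0
      rw [hq, uhtAut_coe, MN.c_map]
      simpa using h1
    · exact congrArg Multiplicative.toAdd (hψ e g ⟨X.ρ e g, h.uht_mem_N e g.2⟩ rfl)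

/-- The semilinear action over `DN`. -/
def uhtSL {o' : BiOrd h.N} {ψ : h.N →* Multiplicative ℝ}
    (q : h.DN ≃+* MN (o'.lex ψ)) (hq : ∀ (x : h.DN) (g : h.N), (q x).c g = (x : MN h.o).c g)
    (hψ : ∀ (e : E) (x y : h.N), (y : Fr n) = X.ρ e x → ψ y = ψ x) :
    letI := uhtNorm q
    SL E h.DN h.V :=
  letI := uhtNorm q
  { α := h.uhtAut
    act :=
      { toFun := h.act
        map_one' := xuAct_one _ _ (map_one X.ρ)
        map_mul' := fun e e' => xuAct_mul _ _ _ _ (map_mul X.ρ e e') }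
    smul := fun e d v => h.act_smul e d v
    iso := fun e d => h.uht_iso q hq hψ e d }

/-- The part of the coefficient at the edge `i` that lies in the coset `N * w`. -/
def uhtFun (i : Fin n) (w : Fr n) : h.V →ₗ[h.DN] h.DN where
  toFun v := ⟨MN.res (h.N : Set (Fr n)) (xuFun h.o i v * MN.of h.o w⁻¹), MN.mnapi_supp_res _ _⟩
  map_add' := fun v v' => Subtype.ext (by
    change MN.res _ (xuFun h.o i (v + v') * _) = MN.res _ _ + MN.res _ _
    rw [map_add, add_mul, map_add])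
  map_smul' := fun d v => Subtype.ext (by
    change MN.res _ (xuFun h.o i ((d : MN h.o) • v) * _) = (d : MN h.o) * MN.res _ _
    rw [map_smul, smul_eq_mul, mul_assoc]
    exact MN.res_mul_left (N := h.N) (fun a ha g => h.N.mul_mem_cancel_left ha) d.2 _)

theorem uhtFun_c (i : Fin n) (w : Fr n) (v : h.V) (g : h.N) :
    (h.uhtFun i w v : MN h.o).c g = (xuFun h.o i v).c (g * w) := by
  change (MN.res (h.N : Set (Fr n)) (xuFun h.o i v * MN.of h.o w⁻¹)).c g = _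
  rw [MN.c_res, if_pos (show (g : Fr n) ∈ (h.N : Set (Fr n)) from g.2), MN.mnapi_c_mul_of,
    inv_inv]

end Ext.Ht

theorem uht_fg_subgroupOf {E : Type} [Group E] {K E₀ : Subgroup E} (hle : K ≤ E₀) (hK : K.FG) :
    (K.subgroupOf E₀).FG := by
  have h1 : Group.FG K := (Group.fg_iff_subgroup_fg K).2 hK
  exact (Group.fg_iff_subgroup_fg _).1 (Group.fg_of_surjective
    (f := (Subgroup.subgroupOfEquivOfLe hle).symm.toMonoidHom)
    (Subgroup.subgroupOfEquivOfLe hle).symm.surjective)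

theorem uht_comm_subgroupOf {E : Type} [Group E] {K G E₀ : Subgroup E} (hG : G ≤ E₀)
    (hK : K ≤ ⁅G, G⁆) : K.subgroupOf E₀ ≤ ⁅G.subgroupOf E₀, G.subgroupOf E₀⁆ := by
  intro k hk
  have h1 : (k : E) ∈ (⁅G.subgroupOf E₀, G.subgroupOf E₀⁆).map E₀.subtype := by
    rw [Subgroup.map_commutator, Subgroup.map_subgroupOf_eq_of_le hG]
    exact hK hk
  obtain ⟨k', hk', h2⟩ := h1
  have h3 : k' = k := Subtype.ext h2
  exact h3 ▸ hk'

theorem uht_under {E H : Type} [Group E] [Group H] (π : E →* H) {E₀ : Subgroup E} {a b : ℕ}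
    (hBI : BI (E₀.map π) a) {G : Subgroup H} (hG : Under G (a * b)) (E₂ : Subgroup E₀)
    (h₂ : BI E₂ b) (hker : (π.subgroupMap E₀).ker ≤ E₂) :
    (E₀ ⊓ G.comap π).subgroupOf E₀ ≤ E₂ := by
  intro g hg
  have h1 := hG _ (hBI.map_subtype (h₂.map_surj _ (π.subgroupMap_surjective E₀)))
  obtain ⟨_, ⟨e, he, rfl⟩, hy⟩ := h1 (show π g ∈ G from hg.2)
  have h2 : e⁻¹ * g ∈ (π.subgroupMap E₀).ker := by
    rw [MonoidHom.mem_ker, map_mul, map_inv, inv_mul_eq_one]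
    exact Subtype.ext hy
  have h3 := E₂.mul_mem he (hker h2)
  rwa [mul_inv_cancel_left] at h3

/-- The analogue of `u_height`, over the skew field `DN`. -/
theorem height_bdd (n : ℕ) : ∃ a L : ℕ, ∀ (E H Q : Type) [Group E] [Group H] [Group Q]
    (X : Ext E H n) (h : X.Ht Q) (o' : BiOrd h.N) (θ : h.N →* Multiplicative ℤ)
    (ψ : h.N →* Multiplicative ℝ), (∀ x, (ψ x).toAdd = ((θ x).toAdd : ℝ)) →
    Function.Surjective θ → (∀ x : h.N, (x : Fr n) ∈ h.o.P ↔ x ∈ (o'.lex ψ).P) →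
    (∀ (e : E) (x y : h.N), (y : Fr n) = X.ρ e x → θ y = θ x) → NFL H L →
    (h.lam.ker.map X.π).FiniteIndex → X.FC h.lam.ker h.N →
    ∀ G : Subgroup H, Under G a → ∀ K : Subgroup E,
    K ≤ ⁅h.lam.ker ⊓ G.comap X.π, h.lam.ker ⊓ G.comap X.π⁆ → K.FG →
    ∀ B ≤ h.N, B.FG → NonAb B → (∀ x : h.N, (x : Fr n) ∈ B → θ x = 1) →
    ∀ w : Fr n, ∃ C : ℤ, ∀ k ∈ K, ∀ x : h.N, (x : Fr n) * w ∈ TT (X.ρ k • B) →
      -C ≤ (θ x).toAdd := by
  obtain ⟨a', L', hlz⟩ := lzeroU (n - 1)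
  refine ⟨(n - 1) * a', L' * (2 * (n - 1) + 1), ?_⟩
  intro E H Q _ _ _ X h o' θ ψ hψθ hsurj ho' hθ hNF hfi hFC G hG K hK hKfg B hB hfg hna hBθ w
  classical
  obtain ⟨q, hq⟩ := exists_subEquiv h.o h.N (o'.lex ψ) ho'
  have hψ : ∀ (e : E) (x y : h.N), (y : Fr n) = X.ρ e x → ψ y = ψ x := fun e x y hxy =>
    Multiplicative.toAdd.injective (by rw [hψθ, hψθ, hθ e x y hxy])
  have hint : ∀ g, ∃ k : ℤ, (ψ g).toAdd = k := fun g => ⟨_, hψθ g⟩
  obtain ⟨g₀, hg₀⟩ := hsurj (Multiplicative.ofAdd 1)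
  letI := uhtNorm q
  have hU := uht_ultra q
  have hC := uht_complete q hint
  have hD := uht_disc q hint (g₀ := g₀) (by rw [hψθ, hg₀]; simp)
  have hBI : BI (h.lam.ker.map X.π) (n - 1) :=
    h.idx hfi hB hna (hFC.strip h.inv_N hB hfg)
  have hNF' : NFL (h.lam.ker.map X.π) L' := hNF.sub hBI
  obtain ⟨U, hUfin, hUinv, ⟨Val, hVal, hUval⟩, hUcls⟩ := h.exists_fin_sub hfi hFC hB hfg
  let A : SL h.lam.ker h.DN h.V := (h.uhtSL q hq hψ).comp h.lam.ker.subtype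
  have hA : ∀ (e : h.lam.ker) (v : h.V), A.act e v = h.act e v := fun _ _ => rfl
  have hstab : ∀ W : Submodule h.DN h.V, (∀ k ∈ h.lam.ker, ∀ v ∈ W, h.act k v ∈ W) →
      ∀ e, e ∈ A.stab W := fun W hW e =>
    A.subq_mem_stab (fun v hv => hW e e.2 v hv) fun v hv => hW _ (e⁻¹).2 v hv
  have hscal : ∀ e : h.lam.ker, X.π.subgroupMap h.lam.ker e = 1 → A.Scal e := by
    intro e he
    have h1 : (e : E) ∈ X.π.ker := congrArg Subtype.val he
    rw [X.ker] at h1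
    obtain ⟨g, hg⟩ := h1
    have hgN : g ∈ h.N := h.mem_N.2 (by rw [hg]; exact e.2)
    refine ⟨⟨MN.of h.o g, MN.of_mem_sub hgN⟩, fun v => ?_⟩
    rw [hA, ← hg]
    exact h.act_j g v
  have hstep : ∀ W ≤ U, W ≠ ⊥ → (∀ e, e ∈ A.stab W) → ∃ W' < W, (∀ e, e ∈ A.stab W') ∧
      Module.finrank h.DN W ≤ Module.finrank h.DN W' + (n - 1) := by
    intro W hWU hW hst
    have : Module.Finite h.DN W := Submodule.finiteDimensional_of_le hWU
    obtain ⟨W', hlt, hinv, hrk⟩ := h.exists_step hW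
      (fun k hk v hv => A.subq_mem (hst ⟨k, hk⟩) hv) hVal fun v hv => hUval v (hWU hv)
    exact ⟨W', hlt, hstab W' hinv, hrk⟩
  have hKE : K ≤ h.lam.ker :=
    hK.trans ((Subgroup.commutator_le_self _).trans inf_le_left)
  have hbdd := hlz h.lam.ker (h.lam.ker.map X.π) h.DN h.V A (X.π.subgroupMap h.lam.ker) U hD hUfin
    (X.π.subgroupMap_surjective _) hscal hNF' (hstab U hUinv) hstep
    ((h.lam.ker ⊓ G.comap X.π).subgroupOf h.lam.ker) (K.subgroupOf h.lam.ker)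
    (uht_under X.π hBI hG) (uht_comm_subgroupOf inf_le_left hK) (uht_fg_subgroupOf hKE hKfg)
  obtain ⟨T, hT, hTfin⟩ := (Subgroup.fg_iff _).1 hfg
  obtain ⟨p, hp, hp1⟩ : ∃ p ∈ B, p ≠ 1 := by
    obtain ⟨a, ha, b, -, hab⟩ := hna
    exact ⟨a, ha, fun h => hab (h ▸ Commute.one_left b)⟩
  have hmem : ∀ g, zeta (MN.of h.o) p g ∈ ZZ (MN.of h.o) ⊤ := fun g =>
    zeta_mem_zz _ (Subgroup.mem_top p)
      (fun h0 => hp1 (MN.of_injective (h0.trans (map_one _).symm))) (Subgroup.mem_top g)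
  have key : ∀ g ∈ T, ∀ (i : Fin n) (w' : Fr n), ∃ C : ℝ, ∀ k ∈ K, ∀ y : h.N,
      (y : Fr n) * w' ∈ (coef (MN.of h.o) ⊤ 1 i
        (zeta (MN.of h.o) (X.ρ k p) (X.ρ k g))).supp → -C ≤ ((θ y).toAdd : ℝ) := by
    intro g hg i w'
    obtain ⟨C, hC⟩ := hbdd (h.uhtFun i w') _
      (hUcls p hp hp1 g (hT ▸ Subgroup.subset_closure hg) (hmem g))
    refine ⟨C, fun k hk y hy => ?_⟩
    have h1 : ‖q (h.uhtFun i w' (h.act k (h.cls _ (hmem g))))‖ ≤ C := hC ⟨k, hKE hk⟩ hk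
    have h2 : y ∈ (q (h.uhtFun i w' (h.act k (h.cls _ (hmem g))))).supp := by
      change (q _).c y ≠ 0
      rw [hq, h.uhtFun_c]
      rw [← chainMap_zeta h.o (X.ρ k) (h.pres k)] at hy
      exact hy
    have h3 := (MN.mnval_le_nrm h2).trans h1
    have h4 := Real.add_one_le_exp (-(ψ y).toAdd)
    rw [← hψθ]
    linarith
  choose! C hC using key
  obtain ⟨t, ht⟩ : ∃ t : ℝ, ∀ g ∈ T, ∀ i, C g i w ≤ t ∧ C g i (w * (FreeGroup.of i)⁻¹) ≤ t := by
    obtain ⟨t, ht⟩ := ((hTfin.prod (Set.finite_univ (α := Fin n))).image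
      fun a : Fr n × Fin n => max (C a.1 a.2 w) (C a.1 a.2 (w * (FreeGroup.of a.2)⁻¹))).bddAbove
    exact ⟨t, fun g hg i => max_le_iff.1 (ht ⟨(g, i), ⟨hg, Set.mem_univ _⟩, rfl⟩)⟩
  refine ⟨⌈t⌉, fun k hk x hx => ?_⟩
  obtain ⟨_, ⟨g, hg, rfl⟩, i, s, hs, hsupp⟩ := tt_supp h.o (xu_nonAb_smul (X.ρ k) hna)
    (T := X.ρ k • T) (by rw [← hT, Subgroup.smul_closure]) (p := X.ρ k p)
    (Subgroup.smul_mem_pointwise_smul _ _ _ hp)
    (fun h0 => hp1 ((X.ρ k).injective (h0.trans (map_one _).symm))) hx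
  obtain ⟨s₀, hs₀, rfl⟩ := (Subgroup.mem_smul_pointwise_iff_exists _ _ _).1 hs
  let s : h.N := ⟨X.ρ k s₀, h.uht_mem_N k (hB hs₀)⟩
  have hs1 : θ (s * x) = θ x := by
    rw [map_mul, hθ k ⟨s₀, hB hs₀⟩ s rfl, hBθ ⟨s₀, hB hs₀⟩ hs₀, one_mul]
  have hfin : -t ≤ ((θ x).toAdd : ℝ) := by
    rw [← hs1]
    rcases hsupp with h1 | h1
    · have h2 := hC g hg i w k hk (s * x) (by
        rw [Subgroup.coe_mul, mul_assoc]
        exact h1)
      linarith [(ht g hg i).1]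
    · have h2 := hC g hg i (w * (FreeGroup.of i)⁻¹) k hk (s * x) (by
        rw [Subgroup.coe_mul, ← mul_assoc, mul_assoc (s : Fr n)]
        exact h1)
      linarith [(ht g hg i).2]
  have h5 : ((-⌈t⌉ : ℤ) : ℝ) ≤ ((θ x).toAdd : ℝ) := by
    push_cast
    linarith [Int.le_ceil t]
  exact_mod_cast h5

end Pool.Agent.Lib.MP_9ac97d_al
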