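import Pool.Agent.Lib.MP_9ac97d_al.UAff
import Pool.Agent.Lib.MP_9ac97d_al.UGrp

/-!
# Rationality of the translation characters (task URat)
-/

set_option autoImplicit false

noncomputable section

open Pointwise

namespace Pool.Agent.Lib.MP_9ac97d_al

theorem urat_chr_zpow {n : ℕ} (v : Fin n → ℂ) (g : Fr n) (k : ℤ) :
    chr v (g ^ k) = (k : ℂ) * chr v g := by
  simp only [chr, map_zpow, toAdd_zpow, smul_eq_mul, Int.cast_mul, Finset.mul_sum]
  exact Finset.sum_congr rfl fun i _ => by ring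

theorem urat_chr_mem {n : ℕ} {T : Type} (v : T → Fin n → ℂ) (g : Fr n) :
    (fun t => chr (v t) g) ∈ Submodule.span ℚ (Set.range fun (i : Fin n) (t : T) => v t i) := by
  have h : (fun t => chr (v t) g) =
      ∑ i : Fin n, (((expo i g).toAdd : ℤ) : ℚ) • fun t : T => v t i := by
    funext t
    simp only [chr, Finset.sum_apply, Pi.smul_apply, Rat.smul_def, Rat.cast_intCast]
    exact Finset.sum_congr rfl fun i _ => mul_comm _ _
  rw [h]
  exact Submodule.sum_mem _ fun i _ =>
    Submodule.smul_mem _ _ (Submodule.subset_span ⟨i, rfl⟩)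

theorem urat_clear {n : ℕ} {T : Type} (v : T → Fin n → ℂ) {w : T → ℂ}
    (hw : w ∈ Submodule.span ℚ (Set.range fun (i : Fin n) (t : T) => v t i)) :
    ∃ (m : ℕ) (g : Fr n), m ≠ 0 ∧ ∀ t, (m : ℂ) * w t = chr (v t) g := by
  induction hw using Submodule.span_induction with
  | mem x hx =>
    obtain ⟨i, rfl⟩ := hx
    exact ⟨1, FreeGroup.of i, one_ne_zero, fun t => by simp [chr_of]⟩
  | zero => exact ⟨1, 1, one_ne_zero, fun t => by simp [xhypa_chr_one]⟩
  | add x y _ _ hx hy =>
    obtain ⟨m, g, hm, h⟩ := hx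
    obtain ⟨m', g', hm', h'⟩ := hy
    refine ⟨m * m', g ^ (m' : ℤ) * g' ^ (m : ℤ), mul_ne_zero hm hm', fun t => ?_⟩
    rw [chr_mul, urat_chr_zpow, urat_chr_zpow, ← h t, ← h' t]
    push_cast
    simp only [Pi.add_apply]
    ring
  | smul q x _ hx =>
    obtain ⟨m, g, hm, h⟩ := hx
    refine ⟨q.den * m, g ^ q.num, mul_ne_zero q.den_ne_zero hm, fun t => ?_⟩
    rw [urat_chr_zpow, ← h t]
    have hq : ((q.den : ℕ) : ℂ) * (q : ℂ) = (q.num : ℂ) := by
      exact_mod_cast Rat.den_mul_eq_num q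
    rw [← hq]
    simp only [Pi.smul_apply, Rat.smul_def]
    push_cast
    ring

/-- Multiplication by a function. -/
def uratDiag {T : Type} (c : T → ℂ) : (T → ℂ) →ₗ[ℚ] (T → ℂ) where
  toFun u := fun t => c t * u t
  map_add' u w := funext fun t => by simp [mul_add]
  map_smul' q u := funext fun t => by
    simp only [Pi.smul_apply, Rat.smul_def, RingHom.id_apply]
    ring

theorem urat_sep {T : Type} (Λ : Submodule ℚ (T → ℂ)) [FiniteDimensional ℚ Λ] (c : T → ℂ)
    (hc : ∀ t, 3 ≤ ‖c t‖ ∨ (c t ≠ 0 ∧ ‖c t‖ ≤ 1 / 3)) (hΛ : Λ ≤ Λ.comap (uratDiag c))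
    (θ : AddMonoid.End ((T → ℂ) ⧸ Λ))
    (hθ : ∀ u, θ (Λ.mkQ u) = Λ.mkQ (uratDiag c u)) {u : T → ℂ} (hu : Λ.mkQ u ≠ 0) :
    SepAt θ (Λ.mkQ u) := by
  intro k ε hε h
  by_contra hne
  apply hu
  have hpow : ∀ i : ℕ, (θ ^ i) (Λ.mkQ u) = Λ.mkQ (fun t => c t ^ i * u t) := by
    intro i
    induction i with
    | zero => simp
    | succ i ih =>
      rw [pow_succ']
      change θ ((θ ^ i) (Λ.mkQ u)) = _
      rw [ih, hθ]
      congr 1
      funext t
      change c t * (c t ^ i * u t) = _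
      ring
  have hmem : ∀ w ∈ Λ, ∀ i : ℕ, (fun t => c t ^ i * w t) ∈ Λ := by
    intro w hw i
    induction i with
    | zero => simpa using hw
    | succ i ih =>
      have h1 : uratDiag c (fun t => c t ^ i * w t) ∈ Λ := hΛ ih
      have h2 : uratDiag c (fun t => c t ^ i * w t) = fun t => c t ^ (i + 1) * w t := by
        funext t
        change c t * (c t ^ i * w t) = _
        ring
      rwa [h2] at h1
  let P : T → ℂ := fun t => ∑ i, (ε i : ℂ) * c t ^ (i : ℕ)
  have hP : ∀ t, P t ≠ 0 := fun t h0 => hne (poly_ne_zero (hc t) hε h0)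
  have hsum : ∀ w : T → ℂ,
      uratDiag P w = ∑ i : Fin k, ε i • fun t => c t ^ (i : ℕ) * w t := by
    intro w
    funext t
    change P t * w t = _
    simp only [P, Finset.sum_apply, Finset.sum_mul]
    exact Finset.sum_congr rfl fun i _ => by
      rw [Pi.smul_apply, zsmul_eq_mul]
      ring
  have hPΛ : ∀ w ∈ Λ, uratDiag P w ∈ Λ := by
    intro w hw
    rw [hsum]
    exact Submodule.sum_mem _ fun i _ => zsmul_mem (hmem w hw i) _
  have hinj : Function.Injective (uratDiag P) := by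
    intro w w' hh
    funext t
    exact mul_left_cancel₀ (hP t) (congrFun hh t)
  have hu' : uratDiag P u ∈ Λ := by
    rw [← Submodule.Quotient.mk_eq_zero, ← Submodule.mkQ_apply, hsum, map_sum, ← h]
    exact Finset.sum_congr rfl fun i _ => by rw [map_zsmul, hpow]
  have hsurj : Function.Surjective ((uratDiag P).restrict hPΛ) :=
    LinearMap.injective_iff_surjective.1 fun w w' hh =>
      Subtype.ext (hinj (congrArg Subtype.val hh))
  obtain ⟨w, hw⟩ := hsurj ⟨_, hu'⟩
  have hwu : (w : T → ℂ) = u := hinj (congrArg Subtype.val hw)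
  rw [Submodule.mkQ_apply, Submodule.Quotient.mk_eq_zero, ← hwu]
  exact w.2

/-- Let `Λ` be the `ℚ`-span in `T → ℂ` of the vectors `t ↦ chr (v t) g`; it is spanned by the `n`
vectors for the generators, and is preserved by the diagonal map `θ h = diag (lam t h)`. On
`W = (T → ℂ) ⧸ Λ` the map `p (π k) = ` class of `t ↦ z t k` is well defined on `commutator H`,
additive and equivariant. Let `a` come from `exists_simul` for `f t = ‖lam t‖`. For a nontrivial
polynomial `P` with coefficients `0, 1, -1` the map `P (θ a)` is injective on `T → ℂ`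
(`poly_ne_zero`), so bijective on the finite dimensional `Λ`, so injective on `W`. By `aff_kill`,
`p = 0`. Clear denominators: for every `k` there are `m ≠ 0` and `g` with `m * z t k = chr (v t) g`
for all `t`. -/
theorem z_rational (n b : ℕ) {ε : ℝ} (hε : 0 < ε) : ∃ L : ℕ,
    ∀ (E H T : Type) [Group E] [Group H] [Fintype T] (X : Ext E H n) (S : Set H)
      (v : T → Fin n → ℂ) (lam : T → H →* ℂ) (z : T → E → ℂ), Fintype.card T ≤ b →
    (∀ t e g, chr (v t) (X.ρ e g) = lam t (X.π e) * chr (v t) g) → NFS S L →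
    (∀ t, ∃ h ∈ ball S 1, 1 + ε ≤ ‖lam t h‖) →
    (∀ t k k', X.π k ∈ commutator H → X.π k' ∈ commutator H → z t (k * k') = z t k + z t k') →
    (∀ t e k, X.π k ∈ commutator H → z t (e * k * e⁻¹) = lam t (X.π e) * z t k) →
    (∀ t g, z t (X.j g) = chr (v t) g) →
    ∀ k, X.π k ∈ commutator H → ∃ (m : ℕ) (g : Fr n), m ≠ 0 ∧
      ∀ t, (m : ℂ) * z t k = chr (v t) g := by
  obtain ⟨L₀, hL₀⟩ := exists_simul b hε
  refine ⟨3 * 2 ^ 1 + L₀, ?_⟩
  intro E H T _ _ _ X S v lam z hT hchr hS hexp hadd hconj hj k hk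
  have hne : ∀ t h, lam t h ≠ 0 := fun t h h0 => by
    have h1 : lam t h * lam t h⁻¹ = 1 := by rw [← map_mul, mul_inv_cancel, map_one]
    rw [h0, zero_mul] at h1
    exact zero_ne_one h1
  let f : T → H →* ℝ := fun t =>
    { toFun := fun h => ‖lam t h‖
      map_one' := by simp
      map_mul' := fun x y => by rw [map_mul, norm_mul] }
  obtain ⟨a, ha, hfa⟩ := hL₀ H T S f hT (fun t h => norm_pos_iff.2 (hne t h)) hexp
  let Λ : Submodule ℚ (T → ℂ) :=
    Submodule.span ℚ (Set.range fun (i : Fin n) (t : T) => v t i)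
  have : FiniteDimensional ℚ Λ := FiniteDimensional.span_of_finite ℚ (Set.finite_range _)
  have hΛ : ∀ h : H, Λ ≤ Λ.comap (uratDiag fun t => lam t h) := by
    intro h
    obtain ⟨e, rfl⟩ := X.surj h
    refine Submodule.span_le.2 ?_
    rintro _ ⟨i, rfl⟩
    have h1 : uratDiag (fun t => lam t (X.π e)) (fun t => v t i) =
        fun t => chr (v t) (X.ρ e (FreeGroup.of i)) := by
      funext t
      rw [hchr, chr_of]
      rfl
    change uratDiag _ _ ∈ Λ
    rw [h1]
    exact urat_chr_mem v _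
  let θ : H → AddMonoid.End ((T → ℂ) ⧸ Λ) := fun h =>
    (Λ.mapQ Λ (uratDiag fun t => lam t h) (hΛ h)).toAddMonoidHom
  have hθ : ∀ h u, θ h (Λ.mkQ u) = Λ.mkQ (uratDiag (fun t => lam t h) u) := fun h u => rfl
  let p : H → (T → ℂ) ⧸ Λ := fun x => Λ.mkQ fun t => z t (Function.surjInv X.surj x)
  have hp : ∀ e, X.π e ∈ commutator H → p (X.π e) = Λ.mkQ fun t => z t e := by
    intro e he
    have h1 : X.π (Function.surjInv X.surj (X.π e)) = X.π e := Function.surjInv_eq _ _
    have h2 : e⁻¹ * Function.surjInv X.surj (X.π e) ∈ X.j.range := by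
      rw [← X.ker, MonoidHom.mem_ker, map_mul, map_inv, h1, inv_mul_cancel]
    obtain ⟨g, hg⟩ := h2
    have h3 : Function.surjInv X.surj (X.π e) = e * X.j g := by rw [hg]; group
    have h4 : X.π (X.j g) = 1 := by
      rw [← MonoidHom.mem_ker, X.ker]
      exact ⟨g, rfl⟩
    have h5 : (fun t => z t (e * X.j g)) = (fun t => z t e) + fun t => chr (v t) g := by
      funext t
      rw [hadd t e _ he (h4 ▸ one_mem _), hj]
      rfl
    change Λ.mkQ (fun t => z t (Function.surjInv X.surj (X.π e))) = _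
    rw [h3, h5, map_add]
    have h6 : Λ.mkQ (fun t => chr (v t) g) = 0 :=
      (Submodule.Quotient.mk_eq_zero _).2 (urat_chr_mem v g)
    rw [h6, add_zero]
  have key := aff_kill (c := 1) (p := p) hS le_rfl ?_ θ ?_ ha ?_ (X.π k) hk
  · rw [hp k hk] at key
    exact urat_clear v ((Submodule.Quotient.mk_eq_zero _).1 key)
  · intro x hx y hy
    obtain ⟨e, rfl⟩ := X.surj x
    obtain ⟨e', rfl⟩ := X.surj y
    have hm : X.π (e * e') ∈ commutator H := by
      rw [map_mul]
      exact mul_mem hx hy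
    rw [← map_mul, hp _ hm, hp e hx, hp e' hy, ← map_add]
    congr 1
    funext t
    exact hadd t e e' hx hy
  · intro h x hx
    obtain ⟨e, rfl⟩ := X.surj h
    obtain ⟨e', rfl⟩ := X.surj x
    have hx' : X.π e' ∈ commutator H := hx
    have h1 : X.π e * X.π e' * (X.π e)⁻¹ = X.π (e * e' * e⁻¹) := by simp
    have hm : X.π (e * e' * e⁻¹) ∈ commutator H := by
      rw [← h1]
      exact Subgroup.Normal.conj_mem inferInstance _ hx' _
    rw [h1, hp _ hm, hp e' hx', hθ]
    congr 1
    funext t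
    exact hconj t e e' hx'
  · intro x _ hx0
    exact urat_sep Λ (fun t => lam t a)
      (fun t => (hfa t).imp id fun h => ⟨hne t a, h⟩) (hΛ a) (θ a) (hθ a) hx0

end Pool.Agent.Lib.MP_9ac97d_al
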