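import Pool.Agent.Lib.MP_9ac97d_al.UHz
import Pool.Agent.Lib.MP_9ac97d_al.URat
import Pool.Agent.Lib.MP_9ac97d_al.UIdx
import Pool.Agent.Lib.MP_9ac97d_al.UOrd

/-!
# The ordered quotient in the hyperbolic case (task UHyp)
-/

set_option autoImplicit false

noncomputable section

open Pointwise

namespace Pool.Agent.Lib.MP_9ac97d_al

/-- A complex character is trivial on the commutator subgroup. -/
theorem uhyp_lam_one {H : Type} [Group H] (lam : H →* ℂ) {x : H} (hx : x ∈ commutator H) :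
    lam x = 1 := by
  have h : lam.toHomUnits x = 1 := Abelianization.commutator_subset_ker lam.toHomUnits hx
  have h2 := congrArg (fun u : ℂˣ => (u : ℂ)) h
  simpa using h2

/-- A function that is additive on a subgroup, as a homomorphism. -/
def uhyp_hom {E : Type} [Group E] (K : Subgroup E) (z : E → ℂ)
    (h : ∀ k k', k ∈ K → k' ∈ K → z (k * k') = z k + z k') : K →* Multiplicative ℂ :=
  MonoidHom.mk' (fun k => Multiplicative.ofAdd (z k)) fun a b => by
    rw [Subgroup.coe_mul, h _ _ a.2 b.2, ofAdd_add]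

section Add

variable {E : Type} [Group E] {K : Subgroup E} {z : E → ℂ}
  (h : ∀ k k', k ∈ K → k' ∈ K → z (k * k') = z k + z k')

include h

theorem uhyp_one : z 1 = 0 := congrArg Multiplicative.toAdd (map_one (uhyp_hom K z h))

theorem uhyp_inv {k : E} (hk : k ∈ K) : z k⁻¹ = -z k :=
  congrArg Multiplicative.toAdd (map_inv (uhyp_hom K z h) ⟨k, hk⟩)

theorem uhyp_pow {k : E} (hk : k ∈ K) (m : ℕ) : z (k ^ m) = m * z k := by
  induction m with
  | zero => simp [uhyp_one h]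
  | succ m ih =>
    rw [pow_succ, h _ _ (K.pow_mem hk m) hk, ih]
    push_cast
    ring

end Add

/-- The common kernel of finitely many functions that are additive on `K`. -/
def uhyp_ker {E T : Type} [Group E] (K : Subgroup E) (z : T → E → ℂ)
    (h : ∀ t k k', k ∈ K → k' ∈ K → z t (k * k') = z t k + z t k') : Subgroup E where
  carrier := {k | k ∈ K ∧ ∀ t, z t k = 0}
  mul_mem' := fun {a b} ha hb => ⟨K.mul_mem ha.1 hb.1, fun t => by
    rw [h t a b ha.1 hb.1, ha.2 t, hb.2 t, add_zero]⟩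
  one_mem' := ⟨K.one_mem, fun t => uhyp_one (h t)⟩
  inv_mem' := fun {a} ha => ⟨K.inv_mem ha.1, fun t => by
    rw [uhyp_inv (h t) ha.1, ha.2 t, neg_zero]⟩

theorem uhyp_mem_ker {E T : Type} [Group E] {K : Subgroup E} {z : T → E → ℂ}
    {h : ∀ t k k', k ∈ K → k' ∈ K → z t (k * k') = z t k + z t k'} {k : E} :
    k ∈ uhyp_ker K z h ↔ k ∈ K ∧ ∀ t, z t k = 0 := Iff.rfl

/-- Strips for a finitely generated group with the same image give strips for the whole group. -/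
theorem uhyp_strip {E H : Type} [Group E] [Group H] {n : ℕ} (X : Ext E H n) {E₀ K₁ : Subgroup E}
    {N B : Subgroup (Fr n)} (hcap : ∀ g, X.j g ∈ E₀ ↔ g ∈ N) (hle : K₁ ≤ E₀)
    (hmap : K₁.map X.π = E₀.map X.π) (hs : X.Strip K₁ N B) : X.Strip E₀ N B := by
  obtain ⟨Ω, hΩ, hs⟩ := hs
  refine ⟨Ω, hΩ, fun e he y hy => ?_⟩
  obtain ⟨k, hk, hke⟩ : X.π e ∈ K₁.map X.π := hmap ▸ Subgroup.mem_map_of_mem X.π he
  have h1 : e * k⁻¹ ∈ X.π.ker := by
    rw [MonoidHom.mem_ker, map_mul, map_inv, hke, mul_inv_cancel]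
  rw [X.ker] at h1
  obtain ⟨g, hg⟩ := h1
  have hgN : g ∈ N := (hcap g).1 (hg ▸ E₀.mul_mem he (E₀.inv_mem (hle hk)))
  have h2 : e = X.j g * k := by rw [hg]; group
  rw [h2, map_mul, X.ρ_j, mul_smul] at hy
  have h3 : g⁻¹ * y ∈ TT (X.ρ k • B) := by
    rw [← mul_mem_tt_conj _ g, mul_inv_cancel_left]
    exact hy
  obtain ⟨a, ha, w, hw, haw⟩ := hs k hk h3
  refine ⟨g * a, N.mul_mem hgN ha, w, hw, ?_⟩
  have h4 : a * w = g⁻¹ * y := haw
  change g * a * w = y
  rw [mul_assoc, h4, mul_inv_cancel_left]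

/-- Let `K` be the preimage of `commutator H` and `E₀` the common kernel in `K` of the `z t` from
`exists_z`. -/
theorem hlev_core (n : ℕ) (hn : 2 ≤ n) (b : ℕ) {ε : ℝ} (hε : 0 < ε) : ∃ L : ℕ,
    ∀ (E H T : Type) [Group E] [Group H] [Fintype T] (X : Ext E H n) (S : Set H)
      (v : T → Fin n → ℂ) (lam : T → H →* ℂ) (o : BiOrd (Fr n)) (N : Subgroup (Fr n)),
    Fintype.card T ≤ b → (∀ t, v t ≠ 0) →
    (∀ t e g, chr (v t) (X.ρ e g) = lam t (X.π e) * chr (v t) g) → NFS S L →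
    (∀ t, ∃ h ∈ ball S 1, 1 + ε ≤ ‖lam t h‖) → X.OrdOn o (commutator H) →
    (∀ g, g ∈ N ↔ ∀ t, chr (v t) g = 0) →
    ∃ E₀ : Subgroup E, E₀.Normal ∧ E₀ ≤ (commutator H).comap X.π ∧
      OrdKer (E₀.subgroupOf ((commutator H).comap X.π)) ∧ (∀ g, X.j g ∈ E₀ ↔ g ∈ N) ∧
      BI ((E₀.map X.π).subgroupOf (commutator H)) n ∧
      ∀ B ≤ N, B.FG → NonAb B → X.Strip E₀ N B := by
  obtain ⟨L₁, h₁⟩ := exists_z n hn hε
  obtain ⟨L₂, h₂⟩ := z_rational n b hε
  obtain ⟨L₃, h₃⟩ := lcs_fgU 1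
  refine ⟨max L₁ (max L₂ L₃), ?_⟩
  intro E H T _ _ _ X S v lam o N hcard hv heig hS hshort hord hN
  have hS₁ : NFS S L₁ := hS.mono (le_max_left _ _)
  have hS₂ : NFS S L₂ := hS.mono ((le_max_left _ _).trans (le_max_right _ _))
  have hS₃ : NFS S L₃ := hS.mono ((le_max_right _ _).trans (le_max_right _ _))
  choose z C hadd hconj hj hbd using
    fun t => h₁ E H X S (v t) (lam t) (hv t) (heig t) hS₁ (hshort t)
  have hrat := h₂ E H T X S v lam z hcard heig hS₂ hshort hadd hconj hj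
  have hfg : (commutator H).FG := by
    rw [← Subgroup.top_lowerCentralSeries_one]
    exact h₃ H ⟨S, hS₃⟩
  set K : Subgroup E := (commutator H).comap X.π with hK
  have hadd' : ∀ t k k', k ∈ K → k' ∈ K → z t (k * k') = z t k + z t k' := hadd
  set E₀ : Subgroup E := uhyp_ker K z hadd' with hE₀
  have hjK : ∀ g, X.j g ∈ K := fun g => by
    rw [hK, Subgroup.mem_comap, X.π_j]
    exact Subgroup.one_mem _
  have hle : E₀ ≤ K := fun k hk => hk.1
  have hnormal : E₀.Normal := ⟨fun k hk e =>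
    ⟨Subgroup.Normal.conj_mem inferInstance k hk.1 e, fun t => by
      rw [hconj t e k hk.1, hk.2 t, mul_zero]⟩⟩
  have hcap : ∀ g, X.j g ∈ E₀ ↔ g ∈ N := fun g => by
    rw [hN, hE₀, uhyp_mem_ker]
    simp only [hj, hjK g, true_and]
  have hok : OrdKer (E₀.subgroupOf K) := by
    refine ordKer_top.refine_fin (κ := T × Bool)
      (ψ := fun a x => if a.2 then (z a.1 x).re else (z a.1 x).im) ?_ ?_ ?_
    · rintro ⟨t, s⟩ x - y -
      have := hadd' t x y x.2 y.2
      cases s <;> simp [this]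
    · rintro ⟨t, s⟩ g x -
      have h1 := hconj t g x x.2
      rw [uhyp_lam_one (lam t) g.2, one_mul] at h1
      cases s <;> simp [h1]
    · intro x
      rw [Subgroup.mem_subgroupOf, hE₀, uhyp_mem_ker]
      refine ⟨fun h => ⟨trivial, ?_⟩, fun h => ⟨x.2, fun t => ?_⟩⟩
      · rintro ⟨t, s⟩
        cases s <;> simp [h.2 t]
      · exact Complex.ext (by simpa using h.2 (t, true)) (by simpa using h.2 (t, false))
  have hlift : ∀ x ∈ commutator H, ∃ k ∈ K, X.π k = x := fun x hx => by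
    obtain ⟨k, rfl⟩ := X.surj x
    exact ⟨k, hx, rfl⟩
  have hMle : E₀.map X.π ≤ commutator H := Subgroup.map_le_iff_le_comap.2 hle
  have hfi : ((E₀.map X.π).subgroupOf (commutator H)).FiniteIndex := by
    refine finiteIndex_of_pow hfg ?_ ?_
    · rw [Subgroup.commutator_le]
      intro x hx y hy
      obtain ⟨a, ha, rfl⟩ := hlift x hx
      obtain ⟨c, hc, rfl⟩ := hlift y hy
      refine ⟨a * c * a⁻¹ * c⁻¹, ⟨K.mul_mem (K.mul_mem (K.mul_mem ha hc) (K.inv_mem ha))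
        (K.inv_mem hc), fun t => ?_⟩, ?_⟩
      · rw [hadd' t _ _ (K.mul_mem (K.mul_mem ha hc) (K.inv_mem ha)) (K.inv_mem hc),
          hadd' t _ _ (K.mul_mem ha hc) (K.inv_mem ha), hadd' t _ _ ha hc,
          uhyp_inv (hadd' t) ha, uhyp_inv (hadd' t) hc]
        ring
      · simp [commutatorElement_def]
    · intro x hx
      obtain ⟨k, hk, rfl⟩ := hlift x hx
      obtain ⟨m, g, hm, hg⟩ := hrat k hk
      refine ⟨m, hm, (X.j g)⁻¹ * k ^ m, ⟨K.mul_mem (K.inv_mem (hjK g)) (K.pow_mem hk m),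
        fun t => ?_⟩, ?_⟩
      · rw [hadd' t _ _ (K.inv_mem (hjK g)) (K.pow_mem hk m), uhyp_inv (hadd' t) (hjK g),
          uhyp_pow (hadd' t) hk, hg t, hj, neg_add_cancel]
      · rw [map_mul, map_inv, X.π_j, map_pow, inv_one, one_mul]
  have hfgM : (E₀.map X.π).FG := by
    have : Group.FG (commutator H) := (Group.fg_iff_subgroup_fg _).2 hfg
    have h1 : ((E₀.map X.π).subgroupOf (commutator H)).FG :=
      (Group.fg_iff_subgroup_fg _).1 (Subgroup.fg_of_index_ne_zero _)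
    rw [← Subgroup.map_subgroupOf_eq_of_le hMle]
    exact gfg_fg_map h1 _
  obtain ⟨K₁, hK₁, hK₁fg, hK₁map⟩ := X.exists_fg_lift hfgM le_rfl
  have hNeq : N = ⨅ t, (Ext.xprop_chr (v t)).ker := by
    ext g
    rw [hN, Subgroup.mem_iInf]
    rfl
  have hstrip : ∀ B ≤ N, B.FG → NonAb B → X.Strip E₀ N B := by
    intro B hB hBfg hna
    refine uhyp_strip X hcap hK₁ hK₁map ?_
    have h1 : ∀ t, ∃ Ω : Set (Fr n), Ω.Finite ∧ ∀ k ∈ K₁.map X.ρ,
        TT (k • B) ⊆ ((Ext.xprop_chr (v t)).ker : Set (Fr n)) * Ω := fun t => by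
      refine hyp_strip o (v t) (C := C t) (gfg_fg_map hK₁fg _) ?_ ?_ ?_ (fun g => Iff.rfl)
        (hB.trans (hNeq ▸ iInf_le _ t)) hBfg hna
      · rintro _ ⟨k, hk, rfl⟩
        exact hord k (hK₁ hk).1
      · rintro _ ⟨k, hk, rfl⟩ g
        rw [heig, uhyp_lam_one (lam t) (hK₁ hk).1, one_mul]
      · rintro _ ⟨k, hk, rfl⟩
        exact hbd t k (hK₁ hk).1 ((hK₁ hk).2 t)
    choose Ω hΩ hsub using h1
    obtain ⟨Ω', hΩ', hint⟩ :=
      Ext.finite_inter_strip (fun t => (Ext.xprop_chr (v t)).ker) Ω hΩ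
    refine ⟨Ω', hΩ', fun k hk y hy => ?_⟩
    rw [hNeq]
    exact hint (Set.mem_iInter.2 fun t => hsub t _ (Subgroup.mem_map_of_mem _ hk) hy)
  refine ⟨E₀, hnormal, hle, hok, hcap, ?_, hstrip⟩
  have hNn : N.Normal := by
    rw [hNeq]
    exact Subgroup.normal_iInf_normal fun _ => inferInstance
  have hlcs : (⊤ : Subgroup (Fr n)).lowerCentralSeries 1 ≤ N := by
    rw [Subgroup.top_lowerCentralSeries_one, hNeq]
    exact le_iInf fun t => Abelianization.commutator_subset_ker _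
  obtain ⟨B, hB, hBfg, hw⟩ := Ext.exists_wide hn hlcs
  obtain ⟨Q, _, h, hker, hhN, -⟩ := (X.xprop_sub (commutator H)).exists_ht (o := o)
    (fun e => hord e e.2) hok (N := N) hcap 1 (fun _ _ _ _ => rfl)
  have hmap : (E₀.subgroupOf K).map (X.xprop_sub (commutator H)).π =
      (E₀.map X.π).subgroupOf (commutator H) := by
    ext x
    constructor
    · rintro ⟨e, he, rfl⟩
      exact ⟨e, he, rfl⟩
    · rintro ⟨e, he, hx⟩
      exact ⟨⟨e, hle he⟩, he, Subtype.ext hx⟩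
  have hidx := h.idx (by rw [hker, hmap]; exact hfi) (hhN ▸ hB) hw.nonAb (by
    obtain ⟨Ω, hΩ, hs⟩ := hstrip B hB hBfg hw.nonAb
    rw [hker, hhN]
    exact ⟨Ω, hΩ, fun k hk => hs k hk⟩)
  rw [hker, hmap] at hidx
  exact hidx.mono (Nat.sub_le n 1)

end Pool.Agent.Lib.MP_9ac97d_al
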