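import Pool.Agent.Lib.MP_9ac97d_al.UAff

/-!
# The translation character in the hyperbolic case (task UHz)
-/

set_option autoImplicit false

noncomputable section

open Pointwise

namespace Pool.Agent.Lib.MP_9ac97d_al

/-- Functions of two complex variables bounded by a multiple of the sum of the norms. -/
def uhzW : AddSubgroup (ℂ × ℂ → ℝ) where
  carrier := {f | ∃ C : ℝ, 0 ≤ C ∧ ∀ x : ℂ × ℂ, |f x| ≤ C * (‖x.1‖ + ‖x.2‖)}
  add_mem' := by
    rintro f g ⟨C, hC, hf⟩ ⟨D, hD, hg⟩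
    refine ⟨C + D, add_nonneg hC hD, fun x => ?_⟩
    rw [add_mul]
    exact (abs_add_le _ _).trans (add_le_add (hf x) (hg x))
  zero_mem' := ⟨0, le_rfl, fun x => by simp⟩
  neg_mem' := by
    rintro f ⟨C, hC, hf⟩
    exact ⟨C, hC, fun x => by simpa using hf x⟩

/-- Multiplication of both variables by `l`. -/
def uhzTh (l : ℂ) : AddMonoid.End uhzW where
  toFun f := ⟨fun x => f.1 (x.1 * l, x.2 * l), by
    obtain ⟨C, hC, hf⟩ := f.2
    refine ⟨C * ‖l‖, mul_nonneg hC (norm_nonneg _), fun x => (hf _).trans (le_of_eq ?_)⟩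
    simp only [norm_mul]
    ring⟩
  map_zero' := rfl
  map_add' := fun _ _ => rfl

theorem uhz_th_apply (l : ℂ) (f : uhzW) (x : ℂ × ℂ) :
    (uhzTh l f).1 x = f.1 (x.1 * l, x.2 * l) := rfl

/-- The best constant. -/
def uhzNu (f : uhzW) : ℝ := sInf {C : ℝ | 0 ≤ C ∧ ∀ x : ℂ × ℂ, |f.1 x| ≤ C * (‖x.1‖ + ‖x.2‖)}

theorem uhz_nu_le {f : uhzW} {C : ℝ} (h0 : 0 ≤ C)
    (h : ∀ x : ℂ × ℂ, |f.1 x| ≤ C * (‖x.1‖ + ‖x.2‖)) : uhzNu f ≤ C :=
  csInf_le ⟨0, fun _ hC => hC.1⟩ ⟨h0, h⟩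

theorem uhz_nu_nonneg (f : uhzW) : 0 ≤ uhzNu f := le_csInf f.2 fun _ hC => hC.1

theorem uhz_le_nu (f : uhzW) (x : ℂ × ℂ) : |f.1 x| ≤ uhzNu f * (‖x.1‖ + ‖x.2‖) := by
  rcases (add_nonneg (norm_nonneg x.1) (norm_nonneg x.2)).eq_or_lt with h | h
  · obtain ⟨C, -, hC⟩ := f.2
    have := hC x
    rw [← h] at this ⊢
    simpa using this
  · rw [← div_le_iff₀ h]
    exact le_csInf f.2 fun C hC => (div_le_iff₀ h).2 (hC.2 x)

theorem uhz_nu_th_le (l : ℂ) (f : uhzW) : uhzNu (uhzTh l f) ≤ ‖l‖ * uhzNu f := by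
  refine uhz_nu_le (mul_nonneg (norm_nonneg _) (uhz_nu_nonneg f)) fun x => ?_
  rw [uhz_th_apply]
  refine (uhz_le_nu f _).trans (le_of_eq ?_)
  simp only [norm_mul]
  ring

theorem uhz_th_th (l m : ℂ) (f : uhzW) : uhzTh l (uhzTh m f) = uhzTh (l * m) f := by
  refine Subtype.ext (funext fun x => ?_)
  simp only [uhz_th_apply, mul_assoc]

theorem uhz_th_one (f : uhzW) : uhzTh 1 f = f := by
  refine Subtype.ext (funext fun x => ?_)
  simp only [uhz_th_apply, mul_one]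

theorem uhz_nu_th {l : ℂ} (hl : l ≠ 0) (f : uhzW) : uhzNu (uhzTh l f) = ‖l‖ * uhzNu f := by
  refine le_antisymm (uhz_nu_th_le l f) ?_
  have h1 := uhz_nu_th_le l⁻¹ (uhzTh l f)
  rw [uhz_th_th, inv_mul_cancel₀ hl, uhz_th_one, norm_inv] at h1
  have h2 := mul_le_mul_of_nonneg_left h1 (norm_nonneg l)
  rwa [← mul_assoc, mul_inv_cancel₀ (norm_ne_zero_iff.2 hl), one_mul] at h2

theorem uhz_th_pow (l : ℂ) (f : uhzW) (i : ℕ) : (uhzTh l ^ i) f = uhzTh (l ^ i) f := by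
  induction i with
  | zero => rw [pow_zero, pow_zero, uhz_th_one]; rfl
  | succ i ih =>
    rw [pow_succ', pow_succ', ← uhz_th_th, ← ih]
    rfl

theorem uhz_sep {l : ℂ} (hl : 3 ≤ ‖l‖) {f : uhzW} (hf : f ≠ 0) : SepAt (uhzTh l) f := by
  have hl0 : l ≠ 0 := by
    rintro rfl
    norm_num at hl
  refine sepAt_of_norm (uhzTh l) uhzNu (fun v w => ?_) (fun v => ?_) ?_ hl ?_ fun i => ?_
  · refine uhz_nu_le (add_nonneg (uhz_nu_nonneg v) (uhz_nu_nonneg w)) fun x => ?_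
    rw [add_mul]
    exact (abs_add_le _ _).trans (add_le_add (uhz_le_nu v x) (uhz_le_nu w x))
  · have key : ∀ u : uhzW, uhzNu (-u) ≤ uhzNu u := fun u =>
      uhz_nu_le (uhz_nu_nonneg u) fun x => by simpa using uhz_le_nu u x
    refine le_antisymm (key v) ?_
    simpa using key (-v)
  · exact le_antisymm (uhz_nu_le le_rfl fun x => by simp) (uhz_nu_nonneg 0)
  · refine (uhz_nu_nonneg f).lt_of_ne fun h => hf (Subtype.ext (funext fun x => ?_))
    have := uhz_le_nu f x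
    rw [← h, zero_mul] at this
    exact abs_nonpos_iff.1 this
  · rw [uhz_th_pow, uhz_nu_th (pow_ne_zero i hl0), norm_pow]

variable {n : ℕ}

theorem uhz_mu_smul (v : Fin n → ℂ) {a : Fr n} (ha : a ≠ 1) (h0 : chr v a = 0) (c : ℂ) {t : ℝ}
    (ht : 0 ≤ t) : xhypaMu v a (t * c) = t * xhypaMu v a c := by
  have hre : ∀ w : ℂ, ((t : ℂ) * c * w).re = t * (c * w).re := fun w => by
    rw [mul_assoc, Complex.re_ofReal_mul]
  apply le_antisymm
  · obtain ⟨y, hy, e⟩ := xhypa_mu_mem v ha h0 c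
    have := xhypa_mu_le v ha h0 (t * c) hy
    rwa [hre, e] at this
  · obtain ⟨y, hy, e⟩ := xhypa_mu_mem v ha h0 (t * c)
    rw [← e, hre]
    exact mul_le_mul_of_nonneg_left (xhypa_mu_le v ha h0 c hy) ht

theorem uhz_mu_zero (v : Fin n → ℂ) {a : Fr n} (ha : a ≠ 1) (h0 : chr v a = 0) :
    xhypaMu v a 0 = 0 := by
  obtain ⟨y, -, e⟩ := xhypa_mu_mem v ha h0 0
  rw [← e]
  simp

/-- An equivariant, positively homogeneous cocycle at bounded distance from the difference of the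
minimal heights. -/
theorem uhz_G {ε : ℝ} (hε : 0 < ε) : ∃ L : ℕ,
    ∀ (E H : Type) [Group E] [Group H] (X : Ext E H n) (S : Set H) (v : Fin n → ℂ) (lam : E →* ℂ),
    v ≠ 0 → (∀ e g, chr v (X.ρ e g) = lam e * chr v g) → NFS S L →
    (∃ e : E, X.π e ∈ ball S 1 ∧ 1 + ε ≤ ‖lam e‖) →
    ∃ (G : Fr n → Fr n → ℂ → ℝ) (C : ℝ),
      (∀ a b d c, (a ≠ 1 ∧ chr v a = 0) → (b ≠ 1 ∧ chr v b = 0) → (d ≠ 1 ∧ chr v d = 0) →
        G a b c + G b d c = G a d c) ∧
      (∀ a b c (t : ℝ), (a ≠ 1 ∧ chr v a = 0) → (b ≠ 1 ∧ chr v b = 0) → 0 < t →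
        G a b (t * c) = t * G a b c) ∧
      (∀ e a b c, (a ≠ 1 ∧ chr v a = 0) → (b ≠ 1 ∧ chr v b = 0) →
        G (X.ρ e a) (X.ρ e b) c = G a b (c * lam e)) ∧
      ∀ a b c, (a ≠ 1 ∧ chr v a = 0) → (b ≠ 1 ∧ chr v b = 0) →
        |G a b c - (xhypaMu v a c - xhypaMu v b c)| ≤ C * ‖c‖ := by
  classical
  obtain ⟨L, hL⟩ := xhypa_fixedU hε 1
  refine ⟨L, fun E H _ _ X S v lam hv hlam hS h => ?_⟩
  let _ := xhypaAct X.ρ v lam hlam
  have sa : ∀ (e : E) (z : XhypaZ v), (e • z).a = X.ρ e z.a := fun _ _ => rfl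
  have sb : ∀ (e : E) (z : XhypaZ v), (e • z).b = X.ρ e z.b := fun _ _ => rfl
  have sc : ∀ (e : E) (z : XhypaZ v), (e • z).c = z.c * (lam.toHomUnits e)⁻¹ := fun _ _ => rfl
  have sc' : ∀ (e : E) (z : XhypaZ v), ((e⁻¹ • z).c : ℂ) = z.c * lam e := fun e z => by
    rw [sc, map_inv, inv_inv, Units.val_mul, MonoidHom.coe_toHomUnits]
  have hl1 : ∀ e, lam e ≠ 0 := fun e => by
    rw [← MonoidHom.coe_toHomUnits]
    exact Units.ne_zero _
  have hl0 : ∀ e, ‖lam e‖ ≠ 0 := fun e => norm_ne_zero_iff.2 (hl1 e)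
  have hc0 : ∀ c : ℂˣ, 0 < ‖(c : ℂ)‖ := fun c => norm_pos_iff.2 c.ne_zero
  let r : E →* ℝ := (normHom : ℂ →*₀ ℝ).toMonoidHom.comp lam
  have hr : ∀ e, r e = ‖lam e‖ := fun _ => rfl
  let F₀ : XhypaZ v → ℝ := fun z => (xhypaMu v z.a z.c - xhypaMu v z.b z.c) / ‖(z.c : ℂ)‖
  have hF₀ : ∀ (e : E) (z : XhypaZ v), r e * F₀ (e⁻¹ • z) =
      (xhypaMu v (e⁻¹ • z).a (z.c * lam e) - xhypaMu v (e⁻¹ • z).b (z.c * lam e)) /
        ‖(z.c : ℂ)‖ := by
    intro e z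
    have := hl0 e
    have := (hc0 z.c).ne'
    simp only [F₀, hr, sc', norm_mul]
    field_simp
  obtain ⟨F, ⟨C, hC⟩, hT, hfix⟩ := hL E H (XhypaZ v) X.π X.surj r
    (fun e => norm_nonneg (lam e)) F₀
    (fun e => by
      obtain ⟨C, hC⟩ := xhypa_mu_aut v (X.ρ e) (lam e) (hlam e)
      refine ⟨C + C, fun z => ?_⟩
      have h1 := hC _ (e⁻¹ • z).ha (e⁻¹ • z).ha0 z.c
      have h2 := hC _ (e⁻¹ • z).hb (e⁻¹ • z).hb0 z.c
      rw [← sa, smul_inv_smul] at h1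
      rw [← sb, smul_inv_smul] at h2
      rw [hF₀, ← sub_div, abs_div, abs_of_pos (hc0 z.c), div_le_iff₀ (hc0 z.c)]
      rw [abs_le] at h1 h2 ⊢
      constructor <;> linarith [h1.1, h1.2, h2.1, h2.2])
    (fun e he z => by
      have he' : e⁻¹ ∈ X.π.ker := X.π.ker.inv_mem (show e ∈ X.π.ker from he)
      rw [X.ker] at he'
      obtain ⟨g, hg⟩ := he'
      have hl : lam e = 1 := by
        obtain ⟨i, hi⟩ := Function.ne_iff.1 hv
        have h1 := hlam e⁻¹ (FreeGroup.of i)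
        rw [← hg, X.ρ_j, MulAut.conj_apply, chr_mul, chr_mul, xhypa_chr_inv, chr_of, hg] at h1
        have h2 : lam e⁻¹ = 1 := by
          apply mul_right_cancel₀ hi
          rw [← h1]; ring
        have h3 : lam e * lam e⁻¹ = 1 := by rw [← map_mul, mul_inv_cancel, map_one]
        rwa [h2, mul_one] at h3
      rw [hF₀, sa, sb, ← hg, X.ρ_j, MulAut.conj_apply, MulAut.conj_apply, hl, mul_one,
        xhypa_mu_conj v z.ha z.ha0, xhypa_mu_conj v z.hb z.hb0, add_sub_add_right_eq_sub])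
    (fun x y z => (x.a = z.a ∧ x.b = y.a ∧ y.b = z.b ∧ x.c = z.c ∧ y.c = z.c) ∨
      (x.a = z.a ∧ x.b = z.b ∧ y.a = y.b ∧ ∃ t : ℝ, 0 < t ∧ (z.c : ℂ) = t * x.c))
    (fun e x y z hxyz => by
      rcases hxyz with ⟨h1, h2, h3, h4, h5⟩ | ⟨h1, h2, h3, t, ht, h4⟩
      · left
        simp only [sa, sb, sc, h1, h2, h3, h4, h5, and_self]
      · right
        refine ⟨by rw [sa, sa, h1], by rw [sb, sb, h2], by rw [sa, sb, h3], t, ht, ?_⟩
        rw [sc, sc, Units.val_mul, Units.val_mul, h4, mul_assoc])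
    (fun x y z hxyz => by
      rcases hxyz with ⟨h1, h2, h3, h4, h5⟩ | ⟨h1, h2, h3, t, ht, h4⟩
      · simp only [F₀, h1, h2, h3, h4, h5]
        ring
      · have := (hc0 x.c).ne'
        simp only [F₀]
        rw [h4, uhz_mu_smul v z.ha z.ha0 _ ht.le, uhz_mu_smul v z.hb z.hb0 _ ht.le, h1, h2, h3,
          norm_mul, Complex.norm_real, Real.norm_eq_abs, abs_of_pos ht]
        field_simp
        ring)
    S hS h
  let P : ∀ (a b : Fr n) (c : ℂ), (a ≠ 1 ∧ chr v a = 0) → (b ≠ 1 ∧ chr v b = 0) → c ≠ 0 → XhypaZ v :=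
    fun a b c ha hb hc => ⟨a, b, Units.mk0 c hc, ha.1, ha.2, hb.1, hb.2⟩
  let G : Fr n → Fr n → ℂ → ℝ := fun a b c =>
    if h : (a ≠ 1 ∧ chr v a = 0) ∧ (b ≠ 1 ∧ chr v b = 0) ∧ c ≠ 0 then
      ‖c‖ * F (P a b c h.1 h.2.1 h.2.2) else 0
  have hG : ∀ a b c ha hb hc, G a b c = ‖c‖ * F (P a b c ha hb hc) := fun a b c ha hb hc =>
    dif_pos ⟨ha, hb, hc⟩
  have hG0 : ∀ a b, G a b 0 = 0 := fun a b => dif_neg fun h => h.2.2 rfl
  refine ⟨G, C, fun a b d c ha hb hd => ?_, fun a b c t ha hb ht => ?_, fun e a b c ha hb => ?_,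
    fun a b c ha hb => ?_⟩
  · by_cases hc : c = 0
    · rw [hc, hG0, hG0, hG0, add_zero]
    · rw [hG a b c ha hb hc, hG b d c hb hd hc, hG a d c ha hd hc, ← mul_add,
        hT (P a b c ha hb hc) (P b d c hb hd hc) (P a d c ha hd hc)
          (Or.inl ⟨rfl, rfl, rfl, rfl, rfl⟩)]
  · by_cases hc : c = 0
    · rw [hc, mul_zero, hG0, mul_zero]
    · have htc : (t : ℂ) * c ≠ 0 := mul_ne_zero (Complex.ofReal_ne_zero.2 ht.ne') hc
      have h1 := hT (P a a c ha ha hc) (P a a c ha ha hc) (P a a c ha ha hc)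
        (Or.inl ⟨rfl, rfl, rfl, rfl, rfl⟩)
      have h2 := hT (P a b c ha hb hc) (P a a c ha ha hc) (P a b (t * c) ha hb htc)
        (Or.inr ⟨rfl, rfl, rfl, t, ht, rfl⟩)
      have h3 : F (P a a c ha ha hc) = 0 := by linarith
      rw [hG a b c ha hb hc, hG a b _ ha hb htc, ← h2, h3, norm_mul, Complex.norm_real,
        Real.norm_eq_abs, abs_of_pos ht]
      ring
  · by_cases hc : c = 0
    · rw [hc, zero_mul, hG0, hG0]
    · have ha' : X.ρ e a ≠ 1 ∧ chr v (X.ρ e a) = 0 :=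
        ⟨by simpa using ha.1, by rw [hlam, ha.2, mul_zero]⟩
      have hb' : X.ρ e b ≠ 1 ∧ chr v (X.ρ e b) = 0 :=
        ⟨by simpa using hb.1, by rw [hlam, hb.2, mul_zero]⟩
      have hc' : c * lam e ≠ 0 := mul_ne_zero hc (hl1 e)
      have h1 : e⁻¹ • P (X.ρ e a) (X.ρ e b) c ha' hb' hc = P a b (c * lam e) ha hb hc' := by
        refine XhypaZ.ext' ?_ ?_ (Units.ext ?_)
        · rw [sa]; simp [P]
        · rw [sb]; simp [P]
        · rw [sc']; rfl
      rw [hG _ _ c ha' hb' hc, hG a b _ ha hb hc', ← hfix e, h1, hr, norm_mul, mul_assoc]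
  · by_cases hc : c = 0
    · rw [hc, hG0, uhz_mu_zero v ha.1 ha.2, uhz_mu_zero v hb.1 hb.2]
      simp
    · have h1 := hC (P a b c ha hb hc)
      have hn : 0 < ‖c‖ := norm_pos_iff.2 hc
      have h2 : xhypaMu v a c - xhypaMu v b c = ‖c‖ * F₀ (P a b c ha hb hc) := by
        simp only [F₀, P, Units.val_mk0]
        field_simp
      rw [hG a b c ha hb hc, h2, ← mul_sub, abs_mul, abs_of_pos hn, mul_comm]
      exact mul_le_mul_of_nonneg_right h1 hn.le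

/-- A bounded additive function on a group vanishes. -/
theorem uhz_add_bdd {Γ : Type} [Group Γ] {φ : Γ → ℝ} (hφ : ∀ g h, φ (g * h) = φ g + φ h) {B : ℝ}
    (hB : ∀ g, |φ g| ≤ B) (g : Γ) : φ g = 0 := by
  have h1 : φ 1 = 0 := by
    have := hφ 1 1
    rw [mul_one] at this
    linarith
  have hp : ∀ m : ℕ, φ (g ^ m) = m * φ g := fun m => by
    induction m with
    | zero => simp [h1]
    | succ m ih => rw [pow_succ, hφ, ih]; push_cast; ring
  by_contra hne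
  have hpos : 0 < |φ g| := abs_pos.2 hne
  obtain ⟨m, hm⟩ := exists_nat_gt (B / |φ g|)
  have h2 := hB (g ^ m)
  rw [hp, abs_mul, Nat.abs_cast] at h2
  rw [div_lt_iff₀ hpos] at hm
  linarith

/-- An additive, positively homogeneous function on `ℂ` is real linear. -/
theorem uhz_linear {β : ℂ → ℝ} (hadd : ∀ c c', β (c + c') = β c + β c')
    (hs : ∀ (c : ℂ) (t : ℝ), 0 < t → β (t * c) = t * β c) (c : ℂ) :
    β c = (c * ((β 1 : ℂ) - Complex.I * (β Complex.I : ℂ))).re := by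
  have h0 : β 0 = 0 := by
    have := hadd 0 0
    rw [add_zero] at this
    linarith
  have hall : ∀ (c : ℂ) (t : ℝ), β (t * c) = t * β c := fun c t => by
    rcases lt_trichotomy t 0 with h | h | h
    · have h1 := hadd (t * c) ((-t : ℝ) * c)
      rw [hs c (-t) (neg_pos.2 h), ← add_mul, ← Complex.ofReal_add, add_neg_cancel,
        Complex.ofReal_zero, zero_mul, h0] at h1
      linarith
    · rw [h, Complex.ofReal_zero, zero_mul, zero_mul, h0]
    · exact hs c t h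
  have hc : c = (c.re : ℂ) * 1 + (c.im : ℂ) * Complex.I := by
    rw [mul_one, Complex.re_add_im]
  conv_lhs => rw [hc, hadd, hall, hall]
  simp

theorem uhz_eq_of_re {z w : ℂ} (h : ∀ c : ℂ, (c * z).re = (c * w).re) : z = w := by
  have h1 := h 1
  have h2 := h Complex.I
  simp only [one_mul, Complex.mul_re, Complex.I_re, Complex.I_im, zero_mul, zero_sub,
    neg_inj] at h1 h2
  exact Complex.ext h1 h2

/-- The function `β k c = G (ρ k a₀) a₀ c` is additive in `k` over the kernel of `lam`; its defect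
of additivity in `c` vanishes over the commutator subgroup by affine ping-pong. So `β k` is real
linear there and `β k c = re (c * z k)`. -/
theorem exists_z (n : ℕ) (hn : 2 ≤ n) {ε : ℝ} (hε : 0 < ε) : ∃ L : ℕ,
    ∀ (E H : Type) [Group E] [Group H] (X : Ext E H n) (S : Set H) (v : Fin n → ℂ) (lam : H →* ℂ),
    v ≠ 0 → (∀ e g, chr v (X.ρ e g) = lam (X.π e) * chr v g) → NFS S L →
    (∃ h ∈ ball S 1, 1 + ε ≤ ‖lam h‖) →
    ∃ (z : E → ℂ) (C : ℝ),
      (∀ k k', X.π k ∈ commutator H → X.π k' ∈ commutator H → z (k * k') = z k + z k') ∧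
      (∀ e k, X.π k ∈ commutator H → z (e * k * e⁻¹) = lam (X.π e) * z k) ∧
      (∀ g, z (X.j g) = chr v g) ∧
      ∀ k, X.π k ∈ commutator H → z k = 0 → HtBd v C (X.ρ k) := by
  classical
  obtain ⟨L₁, hL₁⟩ := uhz_G (n := n) hε
  obtain ⟨m, hm⟩ := pow_unbounded_of_one_lt (3 : ℝ) (by linarith : 1 < 1 + ε)
  refine ⟨max L₁ (3 * 2 ^ 1 + m * 1), fun E H _ _ X S v lam hv hlam hS ⟨h₀, hh₀, hh₀'⟩ => ?_⟩
  obtain ⟨e₀, he₀⟩ := X.surj h₀
  obtain ⟨G, C, G1, G2, G3, G4⟩ := hL₁ E H X S v (lam.comp X.π) hv hlam (hS.mono (le_max_left _ _))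
    ⟨e₀, by rwa [he₀], by rwa [MonoidHom.comp_apply, he₀]⟩
  simp only [MonoidHom.comp_apply] at G3
  have hcomm : ∀ h ∈ commutator H, lam h = 1 := fun h hh => by
    have h1 : lam.toHomUnits h = 1 := Abelianization.commutator_subset_ker lam.toHomUnits hh
    rw [← MonoidHom.coe_toHomUnits, h1, Units.val_one]
  obtain ⟨a₀, ha₀, ha₀'⟩ := Ext.xbasic_lcs_ne hn 1
  have hZ₀ : a₀ ≠ 1 ∧ chr v a₀ = 0 := by
    refine ⟨ha₀', ?_⟩
    rw [Subgroup.top_lowerCentralSeries_one] at ha₀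
    let χ : Fr n →* Multiplicative ℂ := MonoidHom.mk' (fun g => Multiplicative.ofAdd (chr v g))
      fun g g' => by rw [chr_mul, ofAdd_add]
    exact Multiplicative.ofAdd.injective (Abelianization.commutator_subset_ker χ ha₀)
  have hZ : ∀ e a, (a ≠ 1 ∧ chr v a = 0) → (X.ρ e a ≠ 1 ∧ chr v (X.ρ e a) = 0) := fun e a ha =>
    ⟨by simpa using ha.1, by rw [hlam, ha.2, mul_zero]⟩
  have hπj : ∀ g, X.π (X.j g) = 1 := fun g => by
    have : X.j g ∈ X.π.ker := by rw [X.ker]; exact ⟨g, rfl⟩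
    exact this
  let β : E → ℂ → ℝ := fun k c => G (X.ρ k a₀) a₀ c
  have β0 : ∀ k a c, lam (X.π k) = 1 → (a ≠ 1 ∧ chr v a = 0) → G (X.ρ k a) a c = β k c := by
    intro k a c hk ha
    have h1 := G1 (X.ρ k a) (X.ρ k a₀) a₀ c (hZ k a ha) (hZ k a₀ hZ₀) hZ₀
    have h2 := G1 (X.ρ k a) a a₀ c (hZ k a ha) ha hZ₀
    rw [G3 k a a₀ c ha hZ₀, hk, mul_one] at h1
    simp only [β]
    linarith
  have β1 : ∀ k k' c, lam (X.π k) = 1 → β (k * k') c = β k c + β k' c := by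
    intro k k' c hk
    have h1 := G1 (X.ρ k (X.ρ k' a₀)) (X.ρ k a₀) a₀ c (hZ k _ (hZ k' a₀ hZ₀)) (hZ k a₀ hZ₀) hZ₀
    rw [G3 k _ a₀ c (hZ k' a₀ hZ₀) hZ₀, hk, mul_one] at h1
    simp only [β, map_mul, MulAut.mul_apply]
    linarith
  have hconj : ∀ e k, lam (X.π k) = 1 → lam (X.π (e * k * e⁻¹)) = 1 := fun e k hk => by
    rw [map_mul, map_mul, map_mul, map_mul, hk, mul_one, ← map_mul, ← map_mul, mul_inv_cancel,
      map_one, map_one]
  have β2 : ∀ e k c, lam (X.π k) = 1 → β (e * k * e⁻¹) c = β k (c * lam (X.π e)) := by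
    intro e k c hk
    rw [← β0 _ (X.ρ e a₀) c (hconj e k hk) (hZ e a₀ hZ₀)]
    have h1 : X.ρ (e * k * e⁻¹) (X.ρ e a₀) = X.ρ e (X.ρ k a₀) := by simp
    rw [h1, G3 e _ a₀ c (hZ k a₀ hZ₀) hZ₀]
  have β3 : ∀ k, lam (X.π k) = 1 → ∃ D : ℝ, 0 ≤ D ∧ ∀ c, |β k c| ≤ D * ‖c‖ := by
    intro k hk
    obtain ⟨D, hD⟩ := xhypa_mu_aut v (X.ρ k) 1 fun g => by rw [hlam, hk]
    refine ⟨|C| + |D|, by positivity, fun c => ?_⟩
    have h1 := abs_le.1 (G4 (X.ρ k a₀) a₀ c (hZ k a₀ hZ₀) hZ₀)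
    have h2 := abs_le.1 (hD a₀ hZ₀.1 hZ₀.2 c)
    rw [mul_one] at h2
    have h3 := mul_le_mul_of_nonneg_right (le_abs_self C) (norm_nonneg c)
    have h4 := mul_le_mul_of_nonneg_right (le_abs_self D) (norm_nonneg c)
    simp only [β]
    rw [abs_le, add_mul]
    constructor <;> linarith [h1.1, h1.2, h2.1, h2.2]
  have β4 : ∀ g c, β (X.j g) c = (c * chr v g).re := by
    intro g c
    have := uhz_add_bdd (φ := fun g => β (X.j g) c - (c * chr v g).re) (B := C * ‖c‖)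
      (fun g h => by
        rw [map_mul, β1 _ _ c (by rw [hπj, map_one]), chr_mul, mul_add, Complex.add_re]
        ring)
      (fun g => by
        have h1 := G4 (X.ρ (X.j g) a₀) a₀ c (hZ _ a₀ hZ₀) hZ₀
        have h2 : xhypaMu v (X.ρ (X.j g) a₀) c = xhypaMu v a₀ c + (c * chr v g).re := by
          rw [X.ρ_j, MulAut.conj_apply, xhypa_mu_conj v hZ₀.1 hZ₀.2]
        rw [h2, add_sub_cancel_left] at h1
        exact h1) g
    linarith
  let δ : E → ℂ × ℂ → ℝ := fun k x => β k (x.1 + x.2) - β k x.1 - β k x.2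
  have δW : ∀ k, lam (X.π k) = 1 → δ k ∈ uhzW := by
    intro k hk
    obtain ⟨D, hD0, hD⟩ := β3 k hk
    refine ⟨2 * D, by positivity, fun x => ?_⟩
    have h1 := abs_le.1 (hD (x.1 + x.2))
    have h2 := abs_le.1 (hD x.1)
    have h3 := abs_le.1 (hD x.2)
    have h4 := mul_le_mul_of_nonneg_left (norm_add_le x.1 x.2) hD0
    simp only [δ]
    rw [abs_le]
    constructor <;> nlinarith [h1.1, h1.2, h2.1, h2.2, h3.1, h3.2]
  have δ1 : ∀ k k', lam (X.π k) = 1 → δ (k * k') = δ k + δ k' := by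
    intro k k' hk
    funext x
    simp only [δ, Pi.add_apply, β1 k k' _ hk]
    ring
  have δ2 : ∀ k k', X.π k = X.π k' → δ k = δ k' := by
    intro k k' hkk
    have h1 : k * k'⁻¹ ∈ X.π.ker := by
      rw [MonoidHom.mem_ker, map_mul, map_inv, hkk, mul_inv_cancel]
    rw [X.ker] at h1
    obtain ⟨g, hg⟩ := h1
    have h2 : k = X.j g * k' := by rw [hg, inv_mul_cancel_right]
    have h3 : δ (X.j g) = 0 := by
      funext x
      simp only [δ, β4, add_mul, Complex.add_re, Pi.zero_apply]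
      ring
    rw [h2, δ1 _ _ (by rw [hπj, map_one]), h3, zero_add]
  let s : H → E := Function.surjInv X.surj
  have hs : ∀ h, X.π (s h) = h := Function.surjInv_eq X.surj
  let p : H → uhzW := fun h =>
    if hh : lam h = 1 then ⟨δ (s h), δW _ (by rw [hs, hh])⟩ else 0
  have hp : ∀ k, lam (X.π k) = 1 → (p (X.π k)).1 = δ k := fun k hk => by
    simp only [p, dif_pos hk]
    exact δ2 _ _ (hs _)
  have hkill := aff_kill (c := 1) (L₀ := m * 1) hS (le_max_right _ _) (p := p)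
    (fun x hx y hy => by
      rw [Subgroup.top_lowerCentralSeries_one] at hx hy
      obtain ⟨k, rfl⟩ := X.surj x
      obtain ⟨k', rfl⟩ := X.surj y
      refine Subtype.ext ?_
      rw [AddSubgroup.coe_add, hp k (hcomm _ hx), hp k' (hcomm _ hy), ← map_mul,
        hp _ (by rw [map_mul, map_mul, hcomm _ hx, hcomm _ hy, mul_one]), δ1 _ _ (hcomm _ hx)])
    (fun h => uhzTh (lam h))
    (fun h x hx => by
      rw [Subgroup.top_lowerCentralSeries_one] at hx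
      obtain ⟨k, rfl⟩ := X.surj x
      obtain ⟨e, rfl⟩ := X.surj h
      refine Subtype.ext (funext fun y => ?_)
      rw [uhz_th_apply, hp k (hcomm _ hx), ← map_inv, ← map_mul, ← map_mul,
        hp _ (hconj e k (hcomm _ hx))]
      simp only [δ, β2 e k _ (hcomm _ hx), add_mul])
    (pow_mem_ball hh₀ m)
    (fun x _ hx => uhz_sep (by
      rw [map_pow, norm_pow]
      exact hm.le.trans (pow_le_pow_left₀ (by linarith) hh₀' m)) hx)
  let z : E → ℂ := fun k => (β k 1 : ℂ) - Complex.I * (β k Complex.I : ℂ)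
  have hz : ∀ k, X.π k ∈ commutator H → ∀ c, β k c = (c * z k).re := by
    intro k hk c
    refine uhz_linear (β := β k) (fun c c' => ?_)
      (fun c t ht => G2 _ a₀ c t (hZ k a₀ hZ₀) hZ₀ ht) c
    have h1 := hkill (X.π k) (by rwa [Subgroup.top_lowerCentralSeries_one])
    have h2 := hp k (hcomm _ hk)
    rw [h1] at h2
    have h3 := congrFun h2 (c, c')
    simp only [δ, ZeroMemClass.coe_zero, Pi.zero_apply] at h3
    linarith
  refine ⟨z, C, fun k k' hk hk' => ?_, fun e k hk => ?_, fun g => ?_, fun k hk hk0 => ?_⟩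
  · simp only [z, β1 k k' _ (hcomm _ hk)]
    push_cast
    ring
  · have hk' : X.π (e * k * e⁻¹) ∈ commutator H := by
      rw [map_mul, map_mul, map_inv]
      exact (inferInstance : (commutator H).Normal).conj_mem _ hk _
    refine uhz_eq_of_re fun c => ?_
    rw [← hz _ hk', β2 e k c (hcomm _ hk), hz k hk, mul_assoc]
  · simp only [z, β4]
    apply Complex.ext <;> simp
  · intro a ha h0 c y hy
    have h1 := G4 (X.ρ k a) a c (hZ k a ⟨ha, h0⟩) ⟨ha, h0⟩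
    rw [β0 k a c (hcomm _ hk) ⟨ha, h0⟩, hz k hk, hk0, mul_zero, Complex.zero_re] at h1
    obtain ⟨y', hy', e⟩ := xhypa_mu_mem v ha h0 c
    have h3 := xhypa_mu_le v (hZ k a ⟨ha, h0⟩).1 (hZ k a ⟨ha, h0⟩).2 c hy
    refine ⟨y', hy', ?_⟩
    have h4 := (abs_le.1 h1).2
    linarith

end Pool.Agent.Lib.MP_9ac97d_al
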