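import Pool.Agent.Lib.MP_9ac97d_al.UHyp

/-!
# The level in the hyperbolic case (task ULevH)
-/

set_option autoImplicit false

noncomputable section

open Pointwise

namespace Pool.Agent.Lib.MP_9ac97d_al

namespace Ext

variable {E H : Type} [Group E] [Group H] {n : ℕ} (X : Ext E H n)

/-- The weight of the translated eigenvector, as a character of `H₂`. -/
def ulevh_lam {H₂ : Subgroup H} [H₂.Normal] (lam : H₂ →* ℂ) (s : H) : H₂ →* ℂ :=
  (xprop_inv lam).comp (xprop_cj H₂ s⁻¹)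

theorem ulevh_lam_eq {H₂ : Subgroup H} [H₂.Normal] (lam : H₂ →* ℂ) (t : E)
    (e : H₂.comap X.π) :
    X.xprop_lam lam t e = ulevh_lam lam (X.π t) ((X.xprop_sub H₂).π e) := by
  have h1 : (X.xprop_sub H₂).π (xprop_cj (H₂.comap X.π) t⁻¹ e) =
      xprop_cj H₂ (X.π t)⁻¹ ((X.xprop_sub H₂).π e) := by
    refine Subtype.ext ?_
    change X.π (xprop_cj (H₂.comap X.π) t⁻¹ e : E) = _
    rw [xprop_cj_coe, xprop_cj_coe, map_mul, map_mul, map_inv, map_inv, map_inv]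
    rfl
  change xprop_inv lam ((X.xprop_sub H₂).π (xprop_cj (H₂.comap X.π) t⁻¹ e)) = _
  rw [h1]
  rfl

/-- Membership in the level, for any family of lifts that meets every coset. -/
theorem ulevh_mem {H₂ : Subgroup H} [H₂.Normal] {v : Fin n → ℂ} {lam : H₂ →* ℂ}
    {τ : H →* Matrix (Fin n) (Fin n) ℤ} (hτ : ∀ e, τ (X.π e) = mat (X.ρ e))
    (hlam : ∀ h : H₂, (cplx (τ h)).mulVec v = lam h • v) {T : Type} {t : T → E}
    (ht : ∀ x : H, ∃ q, (X.π (t q))⁻¹ * x ∈ H₂) (g : Fr n) :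
    (∀ q, chr (X.xprop_vt v (t q)) g = 0) ↔ ∀ e : E, chr v (X.ρ e g) = 0 := by
  refine ⟨fun hg e => ?_, fun hg q => ?_⟩
  · obtain ⟨q, hq⟩ := ht (X.π e⁻¹)
    have hm : (t q)⁻¹ * e⁻¹ ∈ H₂.comap X.π := by
      rw [Subgroup.mem_comap, map_mul, map_inv]
      exact hq
    have h1 := hg q
    rw [xprop_chr_vt] at h1
    have h2 := X.xprop_eig hτ hlam (⟨_, hm⟩ : H₂.comap X.π)⁻¹ (X.ρ (t q)⁻¹ g)
    rw [h1, mul_zero, ← MulAut.mul_apply, ← map_mul] at h2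
    simpa using h2
  · rw [xprop_chr_vt]
    exact hg _

theorem ulevh_inv {v : Fin n → ℂ} {N : Subgroup (Fr n)}
    (hmem : ∀ g, g ∈ N ↔ ∀ e : E, chr v (X.ρ e g) = 0) : X.Inv N := by
  intro e
  ext g
  rw [Subgroup.mem_pointwise_smul_iff_inv_smul_mem, hmem, hmem, ← map_inv, MulAut.smul_def]
  refine ⟨fun hg t => ?_, fun hg t => ?_⟩
  · have h1 := hg (t * e)
    rwa [← MulAut.mul_apply, ← map_mul, mul_inv_cancel_right] at h1
  · rw [← MulAut.mul_apply, ← map_mul]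
    exact hg _

theorem ulevh_wild (hn : 2 ≤ n) {H₂ : Subgroup H} {v : Fin n → ℂ} {lam : H₂ →* ℂ}
    {τ : H →* Matrix (Fin n) (Fin n) ℤ} (hτ : ∀ e, τ (X.π e) = mat (X.ρ e))
    (hlam : ∀ h : H₂, (cplx (τ h)).mulVec v = lam h • v) (hv : v ≠ 0) {x : H₂}
    (hx : 1 < ‖lam x‖) {N : Subgroup (Fr n)} [N.Normal]
    (hmem : ∀ g, g ∈ N ↔ ∀ e : E, chr v (X.ρ e g) = 0)
    (hnil : (⊤ : Subgroup (Fr n)).lowerCentralSeries 1 ≤ N) : ¬ X.Tame N := by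
  intro ht
  obtain ⟨e, he⟩ := (X.xprop_sub H₂).surj x⁻¹
  obtain ⟨m, hm, g, hg⟩ := X.pow_inner_of_tame hn (X.ulevh_inv hmem) hnil ht e
  obtain ⟨i, hi⟩ := Function.ne_iff.1 hv
  have h1 := (hmem _).1 (hg (FreeGroup.of i)) 1
  have h2 := X.xprop_eig hτ hlam (e ^ m) (FreeGroup.of i)
  rw [map_pow, he, inv_pow, inv_inv, map_pow, Subgroup.coe_pow, map_pow, chr_of] at h2
  rw [map_one, MulAut.one_apply, chr_mul, xprop_chr_inv, chr_mul, chr_mul, xprop_chr_inv, h2,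
    chr_of] at h1
  have h3 : lam x ^ m = 1 := mul_right_cancel₀ hi (by linear_combination h1)
  have h4 : 1 < ‖lam x‖ ^ m := one_lt_pow₀ hx hm
  rw [← norm_pow, h3, norm_one] at h4
  exact lt_irrefl _ h4

/-- From the data over `H₂` to the data over a subgroup `Y` of the image of `E₀`. -/
theorem ulevh_push {H₂ Y : Subgroup H} {M : Subgroup H₂} {E₀ : Subgroup (H₂.comap X.π)}
    {N : Subgroup (Fr n)} (hYM : Y ≤ M.map H₂.subtype)
    (hord : OrdKer (E₀.subgroupOf (M.comap (X.xprop_sub H₂).π)))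
    (hcap : ∀ g, (X.xprop_sub H₂).j g ∈ E₀ ↔ g ∈ N)
    (hY : Y ≤ (E₀.map (X.xprop_sub H₂).π).map H₂.subtype)
    (hstrip : ∀ B ≤ N, B.FG → NonAb B → (X.xprop_sub H₂).Strip E₀ N B) :
    ∃ E₁ : Subgroup E, E₁.map X.π = Y ∧ (∀ g, X.j g ∈ E₁ ↔ g ∈ N) ∧
      OrdKer (E₁.subgroupOf (Y.comap X.π)) ∧ ∀ B ≤ N, B.FG → NonAb B → X.Strip E₁ N B := by
  refine ⟨E₀.map (H₂.comap X.π).subtype ⊓ Y.comap X.π, le_antisymm ?_ ?_, fun g => ?_, ?_, ?_⟩
  · rintro _ ⟨e, he, rfl⟩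
    exact he.2
  · intro y hy
    obtain ⟨_, ⟨e, he, rfl⟩, rfl⟩ := hY hy
    exact ⟨e, ⟨⟨e, he, rfl⟩, hy⟩, rfl⟩
  · rw [← hcap, Subgroup.mem_inf, Subgroup.mem_comap, X.π_j, and_iff_left Y.one_mem]
    constructor
    · rintro ⟨e, he, h1⟩
      have h2 : e = (X.xprop_sub H₂).j g := Subtype.ext h1
      exact h2 ▸ he
    · intro h1
      exact ⟨_, h1, rfl⟩
  · have h1 : ∀ e : Y.comap X.π, (Y.comap X.π).subtype e ∈ H₂.comap X.π := fun e => by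
      obtain ⟨x, -, hx⟩ := hYM e.2
      change X.π e ∈ H₂
      rw [← hx]
      exact x.2
    let f₁ : Y.comap X.π →* H₂.comap X.π := (Y.comap X.π).subtype.codRestrict _ h1
    have h2 : ∀ e, f₁ e ∈ M.comap (X.xprop_sub H₂).π := fun e => by
      obtain ⟨x, hx, hx'⟩ := hYM e.2
      have h3 : x = (X.xprop_sub H₂).π (f₁ e) := Subtype.ext hx'
      rw [Subgroup.mem_comap, ← h3]
      exact hx
    have h4 := hord.comap (f₁.codRestrict _ h2)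
    convert h4 using 1
    ext e
    rw [Subgroup.mem_subgroupOf, Subgroup.mem_comap, Subgroup.mem_subgroupOf, Subgroup.mem_inf,
      and_iff_left e.2]
    constructor
    · rintro ⟨e', he', h5⟩
      have h6 : e' = f₁ e := Subtype.ext h5
      change f₁ e ∈ E₀
      exact h6 ▸ he'
    · intro h5
      exact ⟨_, h5, rfl⟩
  · intro B hB hfg hna
    obtain ⟨Ω, hΩ, hs⟩ := hstrip B hB hfg hna
    refine ⟨Ω, hΩ, ?_⟩
    rintro _ ⟨⟨e, he, rfl⟩, -⟩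
    exact hs e he

end Ext

/-- The level in the hyperbolic case. The characters are indexed by `H ⧸ H₂`, with lifts of short
representatives; `hlev_core` is applied to the extension over `H₂`. -/
theorem level_hypU (n : ℕ) (hn : 2 ≤ n) (a₂ L₀ : ℕ) {ε : ℝ} (hε : 0 < ε) : ∃ a L : ℕ,
    ∀ (E H : Type) [Group E] [Group H] (X : Ext E H n) (S : Set H) (H₂ G : Subgroup H)
      (τ : H →* Matrix (Fin n) (Fin n) ℤ) (v : Fin n → ℂ) (lam : H₂ →* ℂ),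
    H₂.Normal → BI H₂ a₂ → (∀ e, τ (X.π e) = mat (X.ρ e)) →
    Unip (τ '' (⁅H₂, H₂⁆ : Subgroup H)) → v ≠ 0 →
    (∀ h : H₂, (cplx (τ h)).mulVec v = lam h • v) →
    (∃ h : H₂, (h : H) ∈ ball S L₀ ∧ 1 + ε ≤ ‖lam h‖) → NFS S L → Under G a →
    ∃ N E₀, X.Lvl (YY G) N E₀ := by
  classical
  obtain ⟨L₁, hL₁⟩ := hlev_core n hn a₂ hε
  refine ⟨a₂ * n.factorial, L₁ * (2 * a₂ + L₀ + 1), ?_⟩
  intro E H _ _ X S H₂ G τ v lam hnor hbi hτ hu hv hlam ⟨h, hh, hh'⟩ hS hG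
  have hfi := hbi.finiteIndex
  have : Fintype (H ⧸ H₂) := Fintype.ofFinite _
  have hrep : ∀ q : H ⧸ H₂, ∃ t : E, X.π t ∈ ball S a₂ ∧ (X.π t)⁻¹ * q.out ∈ H₂ := fun q => by
    obtain ⟨s, hs, hs'⟩ := exists_short_reps hbi hS.2.1 q.out
    obtain ⟨t, rfl⟩ := X.surj s
    exact ⟨t, hs, hs'⟩
  choose t ht ht' using hrep
  have hcov : ∀ x : H, ∃ q, (X.π (t q))⁻¹ * x ∈ H₂ := fun x => by
    refine ⟨(x : H ⧸ H₂), ?_⟩
    have h1 : ((x : H ⧸ H₂).out)⁻¹ * x ∈ H₂ := QuotientGroup.eq.1 (QuotientGroup.out_eq' _)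
    have h2 := H₂.mul_mem (ht' (x : H ⧸ H₂)) h1
    rwa [mul_assoc, mul_inv_cancel_left] at h2
  obtain ⟨o, ho⟩ := X.xprop_ordOn hτ hu
  let N : Subgroup (Fr n) := ⨅ q, (Ext.xprop_chr (X.xprop_vt v (t q))).ker
  have hN : ∀ g, g ∈ N ↔ ∀ q, chr (X.xprop_vt v (t q)) g = 0 := fun g => Subgroup.mem_iInf
  have hmem : ∀ g, g ∈ N ↔ ∀ e : E, chr v (X.ρ e g) = 0 := fun g =>
    (hN g).trans (X.ulevh_mem hτ hlam hcov g)
  have hNn : N.Normal := Subgroup.normal_iInf_normal fun a => MonoidHom.normal_ker _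
  have hnil : (⊤ : Subgroup (Fr n)).lowerCentralSeries 1 ≤ N := by
    rw [Subgroup.top_lowerCentralSeries_one]
    exact le_iInf fun a => Abelianization.commutator_subset_ker _
  obtain ⟨E₀, hE₀, -, hord, hcap, hidx, hstrip⟩ := hL₁ (H₂.comap X.π) H₂ (H ⧸ H₂)
    (X.xprop_sub H₂) (H₂.subtype ⁻¹' ball S (2 * a₂ + L₀ + 1)) (fun q => X.xprop_vt v (t q))
    (fun q => Ext.ulevh_lam lam (X.π (t q))) o N
    (by
      rw [← Nat.card_eq_fintype_card]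
      exact hbi.2)
    (fun q => X.xprop_vt_ne hv _)
    (fun q e g => by
      rw [← X.ulevh_lam_eq]
      exact X.xprop_eig_vt hτ hlam (t q) e g)
    (hS.sub hbi (by omega))
    (fun q => by
      refine ⟨Ext.xprop_cj H₂ (X.π (t q)) h⁻¹, mem_ball_one (Or.inl ?_), ?_⟩
      · change (Ext.xprop_cj H₂ (X.π (t q)) h⁻¹ : H) ∈ ball S _
        rw [Ext.xprop_cj_coe, Subgroup.coe_inv]
        exact ball_mono (by omega)
          (mul_mem_ball (mul_mem_ball (ht q) (inv_mem_ball hh)) (inv_mem_ball (ht q)))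
      · have h1 : Ext.xprop_cj H₂ (X.π (t q))⁻¹ (Ext.xprop_cj H₂ (X.π (t q)) h⁻¹) = h⁻¹ := by
          refine Subtype.ext ?_
          rw [Ext.xprop_cj_coe, Ext.xprop_cj_coe]
          group
        change 1 + ε ≤ ‖lam (Ext.xprop_cj H₂ (X.π (t q))⁻¹ (Ext.xprop_cj H₂ (X.π (t q)) h⁻¹))⁻¹‖
        rwa [h1, inv_inv])
    (fun e he => ho e (by
      rw [← Subgroup.map_subtype_commutator]
      exact ⟨_, he, rfl⟩))
    hN
  have hKn : (E₀.map (X.xprop_sub H₂).π).Normal := hE₀.map _ (X.xprop_sub H₂).surj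
  obtain ⟨H₁, hH₁, hcomm⟩ := exists_bi_comm hidx
  have hG₁ : G ≤ H₁.map H₂.subtype := hG _ (hbi.map_subtype hH₁)
  have hG₂ : G ≤ H₂ := hG₁.trans (Subgroup.map_subtype_le _)
  have hGG : ⁅G, G⁆ ≤ (commutator H₂).map H₂.subtype := by
    rw [Subgroup.map_subtype_commutator]
    exact Subgroup.commutator_mono hG₂ hG₂
  have hY : YY G ≤ (E₀.map (X.xprop_sub H₂).π).map H₂.subtype := by
    rw [yy_eq]
    refine (Subgroup.commutator_mono hGG hG₁).trans ?_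
    rw [← Subgroup.map_commutator]
    exact Subgroup.map_mono hcomm
  obtain ⟨E₁, h1, h2, h3, h4⟩ := X.ulevh_push ((yy_le_comm G).trans hGG) hord hcap hY hstrip
  exact ⟨N, E₁, hNn, X.ulevh_inv hmem, ⟨1, hnil⟩,
    X.ulevh_wild hn hτ hlam hv (x := h) (by linarith) hmem hnil, h1, h2, h3, h4⟩

end Pool.Agent.Lib.MP_9ac97d_al
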