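import Pool.Agent.Lib.MP_9ac97d_al.UOrd
import Pool.Agent.Lib.MP_9ac97d_al.UInn

/-!
# From strips to a level (task ULift)
-/

set_option autoImplicit false

noncomputable section

open Pointwise

namespace Pool.Agent.Lib.MP_9ac97d_al

namespace Ext

variable {E H : Type} [Group E] [Group H] {n : ℕ} (X : Ext E H n)

theorem ulift_pi_j (g : Fr n) : X.π (X.j g) = 1 := by
  have : X.j g ∈ X.π.ker := by
    rw [X.ker]
    exact ⟨_, rfl⟩
  exact this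

theorem ulift_mul_j (e : E) (g : Fr n) : e * X.j g = X.j (X.ρ e g) * e := by
  rw [← X.conj_j]
  group

theorem ulift_split {K : Subgroup E} {e : E} (he : X.π e ∈ K.map X.π) :
    ∃ g, ∃ k ∈ K, e = X.j g * k := by
  obtain ⟨k, hk, h⟩ := he
  have h1 : e * k⁻¹ ∈ X.π.ker := by
    rw [MonoidHom.mem_ker, map_mul, map_inv, h, mul_inv_cancel]
  rw [X.ker] at h1
  obtain ⟨g, hg⟩ := h1
  exact ⟨g, k, hk, by rw [hg, inv_mul_cancel_right]⟩

/-- For `y ∈ TT B` all `g ^ m * y` lie in `N * Ω`, so two of them lie in the same coset. -/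
theorem pow_mem_of_strip {K : Subgroup E} {N B : Subgroup (Fr n)} [N.Normal] (hB : B ≠ ⊥)
    (hs : X.Strip K N B) {g : Fr n} (hg : X.j g ∈ K) : ∃ m : ℕ, m ≠ 0 ∧ g ^ m ∈ N := by
  obtain ⟨y, hy⟩ := tt_nonempty hB
  obtain ⟨Ω, hΩ, h⟩ := hs
  have h1 : ∀ m : ℕ, ∃ ω : Ω, ∃ a ∈ N, a * ω = g ^ m * y := by
    intro m
    have h2 : X.j (g ^ m) ∈ K := by
      rw [map_pow]
      exact K.pow_mem hg m
    have h3 := h _ h2
    rw [X.ρ_j] at h3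
    obtain ⟨a, ha, ω, hω, h4⟩ := h3 ((mul_mem_tt_conj B (g ^ m) y).2 hy)
    exact ⟨⟨ω, hω⟩, a, ha, h4⟩
  choose ω a ha h2 using h1
  have : Finite Ω := hΩ
  obtain ⟨m, m', hne, he⟩ := Finite.exists_ne_map_eq_of_infinite ω
  have key : ∀ m m' : ℕ, m < m' → ω m = ω m' → ∃ m : ℕ, m ≠ 0 ∧ g ^ m ∈ N := by
    intro m m' hlt he
    obtain ⟨d, rfl⟩ := Nat.exists_eq_add_of_lt hlt
    refine ⟨d + 1, Nat.succ_ne_zero d, ?_⟩
    have h3 : g ^ (d + 1) = a (m + d + 1) * (a m)⁻¹ := by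
      have h4 : a (m + d + 1) = g ^ (m + d + 1) * y * ((ω m : Fr n))⁻¹ := by
        rw [← h2, he, mul_inv_cancel_right]
      have h5 : a m = g ^ m * y * ((ω m : Fr n))⁻¹ := by
        rw [← h2, mul_inv_cancel_right]
      rw [h4, h5]
      group
    rw [h3]
    exact N.mul_mem (ha _) (N.inv_mem (ha _))
  rcases lt_or_gt_of_ne hne with h3 | h3
  · exact key m m' h3 he
  · exact key m' m h3 he.symm

/-- Put `E₀ = K ⊔ N.map j`; its elements are the `j g * k`, `g ∈ N`, `k ∈ K`. If `j g ∈ K` then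
`g ∈ M`, a power of `g` lies in `N` (`pow_mem_of_strip`), so `g ∈ N`. The elements of
`I ⊓ Y.comap π` are the `j g * k`, `g ∈ M`, `k ∈ K`; put `Ψ a (j g * k) = ψ a g`. It is well defined,
additive, and invariant under conjugation by `K` and by `j f` (`j f * (j g * k) * (j f)⁻¹ =
j (f * g * f⁻¹ * (f * (ρ k f)⁻¹)) * k`, `htriv`); these generate `Y.comap π`. Apply
`OrdKer.refine_fin`. -/
theorem lift_level {Y : Subgroup H} {M N : Subgroup (Fr n)} [N.Normal] {κ : Type} [Finite κ]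
    {ψ : κ → Fr n → ℚ} (hadd : ∀ a, ∀ x ∈ M, ∀ y ∈ M, ψ a (x * y) = ψ a x + ψ a y)
    (hN : ∀ x, x ∈ N ↔ x ∈ M ∧ ∀ a, ψ a x = 0)
    (hψ : ∀ a e, X.π e ∈ Y → ∀ x ∈ M, ψ a (X.ρ e x) = ψ a x) {I : Subgroup E}
    (hI : OrdKer (I.subgroupOf (Y.comap X.π))) (hcap : ∀ g, X.j g ∈ I ↔ g ∈ M) {K : Subgroup E}
    (hKI : K ≤ I) (hK : K.map X.π = Y) (htriv : ∀ k ∈ K, ∀ a f, ψ a (f * (X.ρ k f)⁻¹) = 0)
    (hstrip : ∀ B ≤ N, B.FG → NonAb B → X.Strip K N B) (hB : ∃ B ≤ N, B.FG ∧ NonAb B) :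
    ∃ E₀ : Subgroup E, E₀.map X.π = Y ∧ (∀ g, X.j g ∈ E₀ ↔ g ∈ N) ∧
      OrdKer (E₀.subgroupOf (Y.comap X.π)) ∧ ∀ B ≤ N, B.FG → NonAb B → X.Strip E₀ N B := by
  classical
  have hjY : ∀ g, X.π (X.j g) ∈ Y := fun g => by
    rw [X.ulift_pi_j]
    exact Y.one_mem
  have hKY : ∀ k ∈ K, X.π k ∈ Y := fun k hk => hK ▸ ⟨k, hk, rfl⟩
  have hnor : ∀ e, X.π e ∈ Y → ∀ x ∈ I, X.π x ∈ Y → e * x * e⁻¹ ∈ I := fun e he x hx hxY =>
    hI.normal.conj_mem (⟨x, hxY⟩ : Y.comap X.π) hx ⟨e, he⟩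
  have hM : ∀ e, X.π e ∈ Y → ∀ x ∈ M, X.ρ e x ∈ M := fun e he x hx => by
    rw [← hcap, ← X.conj_j]
    exact hnor e he _ ((hcap x).2 hx) (hjY x)
  have hNρ : ∀ e, X.π e ∈ Y → ∀ x ∈ N, X.ρ e x ∈ N := fun e he x hx => by
    obtain ⟨h1, h2⟩ := (hN x).1 hx
    exact (hN _).2 ⟨hM e he x h1, fun a => (hψ a e he x h1).trans (h2 a)⟩
  have hone : ∀ a, ψ a 1 = 0 := fun a => by
    have := hadd a 1 M.one_mem 1 M.one_mem
    rw [mul_one] at this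
    linarith
  have hpow : ∀ a, ∀ x ∈ M, ∀ m : ℕ, ψ a (x ^ m) = m * ψ a x := fun a x hx m => by
    induction m with
    | zero => simp [hone]
    | succ m ih =>
      rw [pow_succ, hadd a _ (M.pow_mem hx m) _ hx, ih]
      push_cast
      ring
  have hjK : ∀ g, X.j g ∈ K → g ∈ N := fun g hg => by
    obtain ⟨B, hBN, hfg, hna⟩ := hB
    have hB0 : B ≠ ⊥ := by
      rintro rfl
      obtain ⟨a, ha, b, -, hab⟩ := hna
      rw [Subgroup.mem_bot.1 ha] at hab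
      exact hab (Commute.one_left b)
    obtain ⟨m, hm, hmN⟩ := X.pow_mem_of_strip hB0 (hstrip B hBN hfg hna) hg
    have hgM : g ∈ M := (hcap g).1 (hKI hg)
    refine (hN g).2 ⟨hgM, fun a => ?_⟩
    have h1 := ((hN _).1 hmN).2 a
    rw [hpow a g hgM] at h1
    exact (mul_eq_zero.1 h1).resolve_left (by exact_mod_cast hm)
  have huniq : ∀ g g', ∀ k ∈ K, ∀ k' ∈ K, X.j g * k = X.j g' * k' → g'⁻¹ * g ∈ N := by
    intro g g' k hk k' hk' h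
    apply hjK
    have h1 : X.j (g'⁻¹ * g) = k' * k⁻¹ := by
      rw [map_mul, map_inv, eq_mul_inv_of_mul_eq h]
      group
    rw [h1]
    exact K.mul_mem hk' (K.inv_mem hk)
  let E₀ : Subgroup E :=
    { carrier := {e | ∃ g ∈ N, ∃ k ∈ K, e = X.j g * k}
      one_mem' := ⟨1, N.one_mem, 1, K.one_mem, by simp⟩
      mul_mem' := by
        rintro _ _ ⟨g, hg, k, hk, rfl⟩ ⟨g', hg', k', hk', rfl⟩
        refine ⟨g * X.ρ k g', N.mul_mem hg (hNρ k (hKY k hk) g' hg'), k * k', K.mul_mem hk hk', ?_⟩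
        rw [map_mul, ← X.conj_j]
        group
      inv_mem' := by
        rintro _ ⟨g, hg, k, hk, rfl⟩
        refine ⟨X.ρ k⁻¹ g⁻¹, hNρ _ (hKY _ (K.inv_mem hk)) _ (N.inv_mem hg), k⁻¹, K.inv_mem hk, ?_⟩
        rw [← X.conj_j, map_inv]
        group }
  have hE₀ : ∀ e, e ∈ E₀ ↔ ∃ g ∈ N, ∃ k ∈ K, e = X.j g * k := fun e => Iff.rfl
  have hdec : ∀ e ∈ I, X.π e ∈ Y → ∃ g ∈ M, ∃ k ∈ K, e = X.j g * k := by
    intro e he heY
    obtain ⟨g, k, hk, h⟩ := X.ulift_split (K := K) (hK ▸ heY)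
    refine ⟨g, (hcap g).1 ?_, k, hk, h⟩
    rw [eq_mul_inv_of_mul_eq h.symm]
    exact I.mul_mem he (I.inv_mem (hKI hk))
  obtain ⟨Ψ, hΨ⟩ : ∃ Ψ : κ → E → ℝ, ∀ a, ∀ g ∈ M, ∀ k ∈ K, Ψ a (X.j g * k) = ψ a g := by
    refine ⟨fun a e => if h : ∃ g ∈ M, ∃ k ∈ K, e = X.j g * k then (ψ a h.choose : ℝ) else 0, ?_⟩
    intro a g hg k hk
    have h : ∃ g' ∈ M, ∃ k' ∈ K, X.j g * k = X.j g' * k' := ⟨g, hg, k, hk, rfl⟩
    simp only [dif_pos h]
    obtain ⟨h1, k', hk', h2⟩ := h.choose_spec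
    obtain ⟨h3, h4⟩ := (hN _).1 (huniq _ _ k hk k' hk' h2)
    have h5 := hadd a _ h1 _ h3
    rw [mul_inv_cancel_left, h4, add_zero] at h5
    rw [h5]
  refine ⟨E₀, ?_, ?_, ?_, ?_⟩
  · apply le_antisymm
    · rintro _ ⟨_, ⟨g, -, k, hk, rfl⟩, rfl⟩
      rw [map_mul]
      exact Y.mul_mem (hjY g) (hKY k hk)
    · rw [← hK]
      exact Subgroup.map_mono fun k hk => ⟨1, N.one_mem, k, hk, by simp⟩
  · intro g
    constructor
    · rintro ⟨g', hg', k, hk, h⟩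
      have h1 := huniq g g' 1 K.one_mem k hk (by rw [mul_one, h])
      simpa using N.mul_mem hg' h1
    · exact fun hg => ⟨g, hg, 1, K.one_mem, (mul_one _).symm⟩
  · refine hI.refine_fin (ψ := fun a (e : Y.comap X.π) => Ψ a e) ?_ ?_ ?_
    · rintro a ⟨x, hxY⟩ hx ⟨y, hyY⟩ hy
      obtain ⟨g, hg, k, hk, rfl⟩ := hdec x hx hxY
      obtain ⟨g', hg', k', hk', rfl⟩ := hdec y hy hyY
      have h1 : X.j g * k * (X.j g' * k') = X.j (g * X.ρ k g') * (k * k') := by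
        rw [map_mul, ← X.conj_j]
        group
      have h2 := hM k (hKY k hk) g' hg'
      simp only [Subgroup.coe_mul]
      rw [h1, hΨ a _ (M.mul_mem hg h2) _ (K.mul_mem hk hk'), hΨ a g hg k hk, hΨ a g' hg' k' hk',
        hadd a g hg _ h2, hψ a k (hKY k hk) g' hg']
      push_cast
      rfl
    · rintro a ⟨e, heY⟩ ⟨x, hxY⟩ hx
      obtain ⟨g, hg, k, hk, rfl⟩ := hdec x hx hxY
      obtain ⟨f, k', hk', rfl⟩ := X.ulift_split (K := K) (e := e) (hK ▸ heY)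
      have hk2 : k' * k * k'⁻¹ ∈ K := K.mul_mem (K.mul_mem hk' hk) (K.inv_mem hk')
      have h1 : X.j f * k' * (X.j g * k) * (X.j f * k')⁻¹ =
          X.j (X.ρ (X.j f * k') g * (f * (X.ρ (k' * k * k'⁻¹) f)⁻¹)) * (k' * k * k'⁻¹) := by
        rw [map_mul X.j, map_mul X.j, map_inv X.j, ← X.conj_j, ← X.conj_j]
        group
      have h2 := hM _ heY g hg
      have h3 : f * (X.ρ (k' * k * k'⁻¹) f)⁻¹ ∈ M := by
        rw [← hcap]
        have h4 : X.j (f * (X.ρ (k' * k * k'⁻¹) f)⁻¹) =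
            X.j f * (k' * k * k'⁻¹) * (X.j f)⁻¹ * (k' * k * k'⁻¹)⁻¹ := by
          rw [map_mul X.j, map_inv X.j, ← X.conj_j]
          group
        rw [h4]
        exact I.mul_mem (hnor _ (hjY f) _ (hKI hk2) (hKY _ hk2)) (I.inv_mem (hKI hk2))
      simp only [Subgroup.coe_mul, Subgroup.coe_inv]
      rw [h1, hΨ a _ (M.mul_mem h2 h3) _ hk2, hΨ a g hg k hk, hadd a _ h2 _ h3,
        htriv _ hk2 a f, hψ a _ heY g hg, add_zero]
    · rintro ⟨x, hxY⟩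
      simp only [Subgroup.mem_subgroupOf]
      constructor
      · rintro ⟨g, hg, k, hk, rfl⟩
        obtain ⟨h1, h2⟩ := (hN g).1 hg
        refine ⟨I.mul_mem ((hcap g).2 h1) (hKI hk), fun a => ?_⟩
        rw [hΨ a g h1 k hk, h2 a, Rat.cast_zero]
      · rintro ⟨hx, h⟩
        obtain ⟨g, hg, k, hk, rfl⟩ := hdec x hx hxY
        refine ⟨g, (hN g).2 ⟨hg, fun a => ?_⟩, k, hk, rfl⟩
        have h1 := h a
        rw [hΨ a g hg k hk] at h1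
        exact_mod_cast h1
  · intro B hBN hfg hna
    obtain ⟨Ω, hΩ, h⟩ := hstrip B hBN hfg hna
    refine ⟨Ω, hΩ, ?_⟩
    rintro _ ⟨g, hg, k, hk, rfl⟩ y hy
    rw [map_mul, mul_smul, X.ρ_j, ← mul_inv_cancel_left g y, mul_mem_tt_conj] at hy
    obtain ⟨a, ha, ω, hω, h1⟩ := h k hk hy
    refine ⟨g * a, N.mul_mem hg ha, ω, hω, ?_⟩
    have h2 : a * ω = g⁻¹ * y := h1
    change g * a * ω = y
    rw [mul_assoc, h2, mul_inv_cancel_left]

end Ext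

end Pool.Agent.Lib.MP_9ac97d_al
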