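import Pool.Agent.Lib.MP_9ac97d_al.UOrd

/-!
# The ordered quotient at a tame level (task UTame)
-/

set_option autoImplicit false

noncomputable section

open Pointwise

namespace Pool.Agent.Lib.MP_9ac97d_al

namespace Ext

variable {E H : Type} [Group E] [Group H] {n : ℕ} (X : Ext E H n)

theorem tame_sub {M : Subgroup (Fr n)} (h : X.Tame M) (K : Subgroup H) :
    (X.xprop_sub K).Tame M := by
  intro D hD hfg
  obtain ⟨P, h1, h2, h3, h4⟩ := h D hD hfg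
  obtain ⟨A, hA, h5⟩ := X.per_iff.1 h4
  exact ⟨P, h1, h2, h3, (X.xprop_sub K).per_iff.2 ⟨A, hA, fun e => h5 e⟩⟩

theorem utame_anti {κ : Type} {M : ℕ → Subgroup (Fr n)} {ψ : ℕ → κ → Fr n → ℚ}
    (hsucc : ∀ i x, x ∈ M (i + 1) ↔ x ∈ M i ∧ ∀ a, ψ i a x = 0) : Antitone M :=
  antitone_nat_of_succ_le fun i x hx => ((hsucc i x).1 hx).1

theorem utame_mem {N : Subgroup (Fr n)} (hinv : X.Inv N) (e : E) {g : Fr n} (hg : g ∈ N) :
    X.ρ e g ∈ N := (xtame_mem_iff (hinv e) g).2 hg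

/-- Induction on `i ≤ j`: if `u = f⁻¹ * ρ e f ∈ M i` then `f⁻¹ * ρ e ^ m f` is the product of the
`ρ e ^ r u`, `r < m`, so `ψ i a` of it is `m * ψ i a u`. -/
theorem triv_of_pow {κ : Type} {M : ℕ → Subgroup (Fr n)} {ψ : ℕ → κ → Fr n → ℚ} (h0 : M 0 = ⊤)
    (hinv : ∀ i, X.Inv (M i))
    (hadd : ∀ i a, ∀ x ∈ M i, ∀ y ∈ M i, ψ i a (x * y) = ψ i a x + ψ i a y)
    (hsucc : ∀ i x, x ∈ M (i + 1) ↔ x ∈ M i ∧ ∀ a, ψ i a x = 0)
    (hψ : ∀ i a e, ∀ x ∈ M i, ψ i a (X.ρ e x) = ψ i a x) {e : E} {m : ℕ} (hm : m ≠ 0) {j : ℕ}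
    {f : Fr n} (h : f⁻¹ * (X.ρ e ^ m) f ∈ M j) : f⁻¹ * X.ρ e f ∈ M j := by
  have hanti := utame_anti hsucc
  have key : ∀ i, i ≤ j → f⁻¹ * X.ρ e f ∈ M i := by
    intro i
    induction i with
    | zero => intro _; rw [h0]; trivial
    | succ i ih =>
      intro hi
      have hu := ih (by omega)
      rw [hsucc]
      refine ⟨hu, fun a => ?_⟩
      have h1 : ∀ k : ℕ, f⁻¹ * (X.ρ e ^ k) f ∈ M i ∧
          ψ i a (f⁻¹ * (X.ρ e ^ k) f) = k * ψ i a (f⁻¹ * X.ρ e f) := by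
        intro k
        induction k with
        | zero =>
          have h2 := hadd i a 1 (M i).one_mem 1 (M i).one_mem
          rw [mul_one] at h2
          have h3 : ψ i a 1 = 0 := by linarith
          simp [h3]
        | succ k ihk =>
          have h2 : f⁻¹ * (X.ρ e ^ (k + 1)) f =
              f⁻¹ * X.ρ e f * X.ρ e (f⁻¹ * (X.ρ e ^ k) f) := by
            rw [pow_succ', MulAut.mul_apply, map_mul, map_inv]
            group
          have h3 := X.utame_mem (hinv i) e ihk.1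
          rw [h2]
          refine ⟨(M i).mul_mem hu h3, ?_⟩
          rw [hadd i a _ hu _ h3, hψ i a e _ ihk.1, ihk.2]
          push_cast
          ring
      have h4 := ((hsucc i _).1 (hanti hi h)).2 a
      rw [(h1 m).2] at h4
      rcases mul_eq_zero.1 h4 with h5 | h5
      · exact absurd (Nat.cast_eq_zero.1 h5) hm
      · exact h5
  exact key j le_rfl

/-- The elements over `H'` that move `A` to a conjugate by an element of `N`. -/
def utame_core (H' : Subgroup H) {N : Subgroup (Fr n)} (hinv : X.Inv N) (A : Subgroup (Fr n)) :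
    Subgroup E where
  carrier := {e | X.π e ∈ H' ∧ ∃ g ∈ N, X.ρ e • A = MulAut.conj g • A}
  mul_mem' := by
    rintro a b ⟨ha, g, hg, h1⟩ ⟨hb, g', hg', h2⟩
    refine ⟨by rw [map_mul]; exact H'.mul_mem ha hb, X.ρ a g' * g,
      N.mul_mem (X.utame_mem hinv a hg') hg, ?_⟩
    rw [map_mul, mul_smul, h2, xbasic_smul_conj, h1, map_mul, mul_smul]
  one_mem' := ⟨by rw [map_one]; exact H'.one_mem, 1, N.one_mem, by rw [map_one, map_one]⟩
  inv_mem' := by
    rintro a ⟨ha, g, hg, h1⟩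
    refine ⟨by rw [map_inv]; exact H'.inv_mem ha, (X.ρ a⁻¹ g)⁻¹,
      N.inv_mem (X.utame_mem hinv _ hg), ?_⟩
    rw [map_inv MulAut.conj, eq_inv_smul_iff, ← xbasic_smul_conj, ← h1, ← mul_smul, ← map_mul,
      inv_mul_cancel, map_one, one_smul]

theorem utame_fg_smul {A : Subgroup (Fr n)} (hA : A.FG) (Φ : MulAut (Fr n)) : (Φ • A).FG := by
  obtain ⟨T, hT, hTf⟩ := (Subgroup.fg_iff _).1 hA
  rw [← hT, Subgroup.smul_closure]
  exact (Subgroup.fg_iff _).2 ⟨_, rfl, hTf.smul_set⟩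

theorem utame_fg_sup {A B : Subgroup (Fr n)} (hA : A.FG) (hB : B.FG) : (A ⊔ B).FG := by
  obtain ⟨T, hT, hTf⟩ := (Subgroup.fg_iff _).1 hA
  obtain ⟨U, hU, hUf⟩ := (Subgroup.fg_iff _).1 hB
  exact (Subgroup.fg_iff _).2 ⟨T ∪ U, by rw [Subgroup.closure_union, hT, hU], hTf.union hUf⟩

theorem utame_smul_ne {A : Subgroup (Fr n)} (hA : A ≠ ⊥) (Φ : MulAut (Fr n)) : Φ • A ≠ ⊥ := by
  intro h
  apply hA
  rw [← inv_smul_smul Φ A, h, Subgroup.smul_bot]

/-- Lemma C. -/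
theorem utame_lemC {N A A' : Subgroup (Fr n)} [N.Normal] (ht : X.Tame N)
    (hroot : ∀ g, ∀ k : ℕ, k ≠ 0 → g ^ k ∈ N → g ∈ N) (hAN : A ≤ N) (hA : A.FG) (hA0 : A ≠ ⊥)
    (hAN' : A' ≤ N) (hA' : A'.FG) (hA0' : A' ≠ ⊥) {c : E} {g : Fr n} (hc : X.ρ c • A = A)
    (hct : ∀ w, w⁻¹ * X.ρ c w ∈ N) (he : X.ρ (X.j g * c) • A' = A') : g ∈ N := by
  classical
  obtain ⟨P, hP1, hPN, hP, hper⟩ := ht (A ⊔ A') (sup_le hAN hAN') (utame_fg_sup hA hA')
  obtain ⟨r, hr, -, hmem⟩ :=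
    Subgroup.exists_pow_mem_of_index_ne_zero (H := X.stabH P) hper.index_ne_zero (X.π c)
  obtain ⟨Ω, hΩ⟩ := finite_double_cosets hP hP
  have key : ∀ x : Fr n, P ⊓ MulAut.conj x • P ≠ ⊥ →
      ∃ w : Ω, (x : Fr n ⧸ N) = ((w : Fr n) : Fr n ⧸ N) := by
    intro x hx
    obtain ⟨q, hq, w, hw, p, hp, rfl⟩ := hΩ x hx
    refine ⟨⟨w, hw⟩, ?_⟩
    have h1 : ((q : Fr n) : Fr n ⧸ N) = 1 := (QuotientGroup.eq_one_iff q).2 (hPN hq)
    have h2 : ((p : Fr n) : Fr n ⧸ N) = 1 := (QuotientGroup.eq_one_iff p).2 (hPN hp)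
    simp [QuotientGroup.mk_mul, h1, h2]
  have hcq : ∀ w : Fr n, ((X.ρ c w : Fr n) : Fr n ⧸ N) = w := fun w =>
    (QuotientGroup.eq.2 (hct w)).symm
  have hpow : ∀ k : ℕ, ∃ x : Fr n, (X.j g * c) ^ k = X.j x * c ^ k ∧
      (x : Fr n ⧸ N) = (g : Fr n ⧸ N) ^ k := by
    intro k
    induction k with
    | zero => exact ⟨1, by simp, by simp⟩
    | succ k ih =>
      obtain ⟨x, h1, h2⟩ := ih
      refine ⟨g * X.ρ c x, ?_, ?_⟩
      · rw [pow_succ', h1, map_mul, ← X.conj_j, pow_succ']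
        group
      · rw [QuotientGroup.mk_mul, hcq, h2, pow_succ']
  have hm : ∀ m : ℕ, ∃ w w' : Ω,
      (g : Fr n ⧸ N) ^ (r * m) * ((w : Fr n) : Fr n ⧸ N) = ((w' : Fr n) : Fr n ⧸ N) := by
    intro m
    have h1 : X.π (c ^ (r * m)) ∈ X.stabH P := by
      rw [map_pow, pow_mul]
      exact Subgroup.pow_mem _ hmem m
    obtain ⟨h, hh⟩ := X.mem_stabH.1 h1
    obtain ⟨x, hx1, hx2⟩ := hpow (r * m)
    have h2 : A ≤ P ⊓ MulAut.conj h • P := by
      refine le_inf (le_sup_left.trans hP1) ?_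
      rw [← hh, ← xtame_pow_smul hc (r * m), ← map_pow]
      exact Subgroup.pointwise_smul_le_pointwise_smul_iff.2 (le_sup_left.trans hP1)
    have h3 : A' ≤ P ⊓ MulAut.conj (x * h) • P := by
      refine le_inf (le_sup_right.trans hP1) ?_
      rw [map_mul, mul_smul, ← hh, ← X.ρ_j, ← mul_smul, ← map_mul, ← hx1,
        ← xtame_pow_smul he (r * m), ← map_pow]
      exact Subgroup.pointwise_smul_le_pointwise_smul_iff.2 (le_sup_right.trans hP1)
    obtain ⟨w, hw⟩ := key h fun h0 => hA0 (le_bot_iff.1 (h0 ▸ h2))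
    obtain ⟨w', hw'⟩ := key (x * h) fun h0 => hA0' (le_bot_iff.1 (h0 ▸ h3))
    exact ⟨w, w', by rw [← hx2, ← hw, ← hw', QuotientGroup.mk_mul]⟩
  choose w w' hw using hm
  have main : ∀ a b : ℕ, a < b → (w a, w' a) = (w b, w' b) → g ∈ N := by
    intro a b hab h
    have h1 := hw a
    have h2 := hw b
    rw [(Prod.mk.inj h).1, (Prod.mk.inj h).2, ← h2] at h1
    have h3 := mul_right_cancel h1
    have h4 : r * b = r * a + r * (b - a) := by
      rw [← mul_add]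
      congr 1
      omega
    rw [h4, pow_add, left_eq_mul, ← QuotientGroup.mk_pow, QuotientGroup.eq_one_iff] at h3
    exact hroot g _ (Nat.mul_ne_zero hr.ne' (by omega)) h3
  obtain ⟨a, b, hab, h⟩ := Finite.exists_ne_map_eq_of_infinite fun m => (w m, w' m)
  rcases lt_or_gt_of_ne hab with h1 | h1
  · exact main a b h1 h
  · exact main b a h1 h.symm

/-- Let `A ≤ N` be wide, periodic and self-normalizing, `H'` the normal core of `stabH A`, and `J`
the group `utame_core`. Lemma C shows that an element over `H'` that normalizes a nontrivial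
finitely generated subgroup of `N` lies in `J`; this gives normality and `FC`. -/
theorem exists_core_tame (hn : 2 ≤ n) {N : Subgroup (Fr n)} [N.Normal] (hinv : X.Inv N) {c : ℕ}
    (hc : (⊤ : Subgroup (Fr n)).lowerCentralSeries c ≤ N) (ht : X.Tame N)
    (hroot : ∀ g, ∀ k : ℕ, k ≠ 0 → g ^ k ∈ N → g ∈ N)
    (htriv : ∀ (e : E) (m : ℕ) (f : Fr n), m ≠ 0 → f⁻¹ * (X.ρ e ^ m) f ∈ N → f⁻¹ * X.ρ e f ∈ N) :
    ∃ J : Subgroup E, J.Normal ∧ (∀ g, X.j g ∈ J ↔ g ∈ N) ∧ (J.map X.π).FiniteIndex ∧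
      X.FC J N := by
  classical
  obtain ⟨B₀, hB₀, hfg₀, hw₀⟩ := exists_wide hn hc
  obtain ⟨A, hBA, hAN, hA, hper, hAn⟩ := X.xprop_hull hinv ht hroot hB₀ hfg₀ hw₀.nonAb
  have hw : Wide A := hw₀.mono hBA
  have hA0 : A ≠ ⊥ := xprop_ne_bot hw.nonAb
  have hfi : (X.stabH A).FiniteIndex := hper
  set H' : Subgroup H := (X.stabH A).normalCore with hH'
  have hle : H' ≤ X.stabH A := Subgroup.normalCore_le _
  set J : Subgroup E := X.utame_core H' hinv A with hJ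
  have hmem : ∀ e, e ∈ J ↔ X.π e ∈ H' ∧ ∃ g ∈ N, X.ρ e • A = MulAut.conj g • A := fun _ => Iff.rfl
  have hj : ∀ g, X.j g ∈ J ↔ g ∈ N := by
    intro g
    rw [hmem, X.π_j, X.ρ_j]
    refine ⟨?_, fun hg => ⟨H'.one_mem, g, hg, rfl⟩⟩
    rintro ⟨-, g', hg', h⟩
    have h1 : MulAut.conj (g'⁻¹ * g) • A = A := by
      rw [map_mul, mul_smul, h, ← mul_smul, ← map_mul, inv_mul_cancel, map_one, one_smul]
    have h2 : g'⁻¹ * g ∈ Subgroup.normalizer (A : Set (Fr n)) :=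
      Subgroup.mem_normalizer_iff_map_conj_eq.2 h1
    rw [hAn] at h2
    have h3 := N.mul_mem hg' (hAN h2)
    rwa [mul_inv_cancel_left] at h3
  have hsplit : ∀ (e : E) (g : Fr n), X.ρ e • A = MulAut.conj g • A →
      X.ρ (X.j g⁻¹ * e) • A = A := by
    intro e g h
    rw [map_mul, mul_smul, h, X.ρ_j, ← mul_smul, ← map_mul, inv_mul_cancel, map_one, one_smul]
  have hC : ∀ (e : E) (A' : Subgroup (Fr n)), X.π e ∈ H' → A' ≤ N → A'.FG → A' ≠ ⊥ →
      X.ρ e • A' = A' → e ∈ J := by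
    intro e A' he h1 h2 h3 h4
    obtain ⟨g, hg⟩ := X.mem_stabH.1 (hle he)
    refine (hmem e).2 ⟨he, g, ?_, hg⟩
    have h5 := hsplit e g hg
    obtain ⟨m, hm, h6⟩ := xtame_pow_triv hAN hA hw h5 (hinv _)
    refine X.utame_lemC ht hroot hAN hA hA0 h1 h2 h3 h5 (fun w => htriv _ m w hm ?_) ?_
    · have h7 := ‹N.Normal›.conj_mem _ (h6 w) w⁻¹
      rwa [inv_inv, mul_assoc, inv_mul_cancel_right] at h7
    · rw [← mul_assoc, ← map_mul, mul_inv_cancel, map_one, one_mul, h4]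
  have hnor : J.Normal := by
    refine ⟨fun e he t => ?_⟩
    obtain ⟨h1, g, hg, h2⟩ := (hmem e).1 he
    have h3 : t * (X.j g⁻¹ * e) * t⁻¹ ∈ J := by
      refine hC _ (X.ρ t • A) ?_ ?_ (utame_fg_smul hA _) (utame_smul_ne hA0 _) ?_
      · rw [map_mul, map_mul, map_mul, X.π_j, one_mul, map_inv]
        exact Subgroup.Normal.conj_mem inferInstance _ h1 _
      · rw [← hinv t]
        exact Subgroup.pointwise_smul_le_pointwise_smul_iff.2 hAN
      · rw [← mul_smul, ← map_mul, inv_mul_cancel_right, map_mul, mul_smul, hsplit e g h2]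
    have h4 : t * e * t⁻¹ = X.j (X.ρ t g) * (t * (X.j g⁻¹ * e) * t⁻¹) := by
      rw [← X.conj_j, map_inv]
      group
    rw [h4]
    exact J.mul_mem ((hj _).2 (X.utame_mem hinv t hg)) h3
  refine ⟨J, hnor, hj, ?_, ?_⟩
  · refine Subgroup.finiteIndex_of_le (H := H') fun h hh => ?_
    obtain ⟨e, he, rfl⟩ := hle hh
    exact ⟨e, (hmem e).2 ⟨hh, 1, N.one_mem, by rw [map_one, one_smul]; exact he⟩, rfl⟩
  · intro B hBN hB
    obtain ⟨P, hP1, hPN, hP, hPper⟩ := ht (B ⊔ A) (sup_le hBN hAN) (utame_fg_sup hB hA)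
    have hP0 : P ≠ ⊥ := fun h0 => hA0 (le_bot_iff.1 (h0 ▸ le_sup_right.trans hP1))
    have hfi' : (X.stabH P).FiniteIndex := hPper
    have hrep : ∀ q : H ⧸ X.stabH P, ∃ l ∈ J,
        (∃ k ∈ J, (X.π k : H ⧸ X.stabH P) = q) → (X.π l : H ⧸ X.stabH P) = q := by
      intro q
      by_cases h : ∃ k ∈ J, (X.π k : H ⧸ X.stabH P) = q
      · obtain ⟨k, hk, h1⟩ := h
        exact ⟨k, hk, fun _ => h1⟩
      · exact ⟨1, J.one_mem, fun h1 => absurd h1 h⟩
    choose l hl hl' using hrep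
    refine ⟨P, le_sup_left.trans hP1, hPN, hP, Set.range fun q => X.ρ (l q) • P,
      Set.finite_range _, fun k hk => ?_⟩
    set q : H ⧸ X.stabH P := (X.π k : H ⧸ X.stabH P) with hq
    have h1 : (l q)⁻¹ * k ∈ J := J.mul_mem (J.inv_mem (hl q)) hk
    have h2 : X.π ((l q)⁻¹ * k) ∈ X.stabH P := by
      rw [map_mul, map_inv, ← QuotientGroup.eq]
      exact hl' q ⟨k, hk, rfl⟩
    obtain ⟨e', he', h3⟩ := h2
    have h4 : X.ρ e' • P = P := he'
    have h5 : e' ∈ J := hC e' P (h3 ▸ ((hmem _).1 h1).1) hPN hP hP0 h4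
    obtain ⟨g, hg⟩ := X.exists_j_of_π_eq h3.symm
    have h6 : g ∈ N := by
      rw [← hj, eq_mul_inv_of_mul_eq hg.symm]
      exact J.mul_mem h1 (J.inv_mem h5)
    refine ⟨(X.ρ (l q) g)⁻¹, N.inv_mem (X.utame_mem hinv _ h6), q, ?_⟩
    have h7 : k = l q * (X.j g * e') := by rw [← hg, mul_inv_cancel_left]
    change X.ρ (l q) • P = _
    rw [map_inv MulAut.conj, eq_inv_smul_iff, ← xbasic_smul_conj, ← X.ρ_j]
    conv_rhs => rw [h7, map_mul, map_mul, mul_smul, mul_smul, h4]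

/-- `FC` passes to an overgroup of finite index: apply the finitely many coset representatives. -/
theorem FC.of_finiteIndex {X : Ext E H n} {J I : Subgroup E} {N : Subgroup (Fr n)} (h : X.FC J N)
    (hinv : X.Inv N) (hJI : J ≤ I) (hfi : (J.subgroupOf I).FiniteIndex) : X.FC I N := by
  intro B hBN hB
  obtain ⟨P, h1, h2, h3, A, hA, h4⟩ := h B hBN hB
  refine ⟨P, h1, h2, h3, ⋃ q : I ⧸ J.subgroupOf I, (fun S => X.ρ (q.out : I) • S) '' A,
    Set.finite_iUnion fun q => hA.image _, fun k hk => ?_⟩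
  set q : I ⧸ J.subgroupOf I := ((⟨k, hk⟩ : I) : I ⧸ J.subgroupOf I) with hq
  have h5 : (q.out : I)⁻¹ * ⟨k, hk⟩ ∈ J.subgroupOf I := by
    rw [← QuotientGroup.eq, QuotientGroup.out_eq']
  obtain ⟨g, hg, h6⟩ := h4 _ (Subgroup.mem_subgroupOf.1 h5)
  refine ⟨X.ρ (q.out : I) g, X.utame_mem hinv _ hg, Set.mem_iUnion.2 ⟨q, _, h6, ?_⟩⟩
  change X.ρ (q.out : I) • MulAut.conj g • X.ρ (((q.out : I) : E)⁻¹ * k) • P = _
  rw [xbasic_smul_conj, ← mul_smul (X.ρ _), ← map_mul, mul_inv_cancel_left]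

/-- The elements `j g * k` with `g ∈ M` and `k ∈ J`. -/
def utame_lev (J : Subgroup E) [J.Normal] (M : Subgroup (Fr n)) : Subgroup E :=
  (M.map ((QuotientGroup.mk' J).comp X.j)).comap (QuotientGroup.mk' J)

theorem utame_mem_lev {J : Subgroup E} [J.Normal] {M : Subgroup (Fr n)} {e : E} :
    e ∈ X.utame_lev J M ↔ ∃ g ∈ M, ((X.j g : E) : E ⧸ J) = e := Iff.rfl

theorem utame_conj {J : Subgroup E} [J.Normal] {g : Fr n} {e : E}
    (h : ((X.j g : E) : E ⧸ J) = e) (t : E) :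
    ((X.j (X.ρ t g) : E) : E ⧸ J) = (t * e * t⁻¹ : E) := by
  rw [← X.conj_j, QuotientGroup.mk_mul, QuotientGroup.mk_mul, h, QuotientGroup.mk_mul,
    QuotientGroup.mk_mul]

theorem utame_lev_normal (J : Subgroup E) [J.Normal] {M : Subgroup (Fr n)} (hinv : X.Inv M) :
    (X.utame_lev J M).Normal := by
  refine ⟨fun e he t => ?_⟩
  obtain ⟨g, hg, h⟩ := X.utame_mem_lev.1 he
  exact X.utame_mem_lev.2 ⟨_, X.utame_mem hinv t hg, X.utame_conj h t⟩

/-- Take `J` from `exists_core_tame` for `M j` and let `E'` be the group of all `j g * k`, `k ∈ J`.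
By induction on `i ≤ j` there is `I` with `OrdKer I` and `I ⊓ E' = utame_lev J (M i)`; the step is
`exists_tier` for the characters `j g * k ↦ ψ i a g`. -/
theorem exists_ordKer_tame (hn : 2 ≤ n) {κ : Type} [Finite κ] {M : ℕ → Subgroup (Fr n)}
    {ψ : ℕ → κ → Fr n → ℚ} (h0 : M 0 = ⊤) (hnor : ∀ i, (M i).Normal) (hinv : ∀ i, X.Inv (M i))
    (hnil : ∀ i, (⊤ : Subgroup (Fr n)).lowerCentralSeries i ≤ M i)
    (hroot : ∀ i g, ∀ k : ℕ, k ≠ 0 → g ^ k ∈ M i → g ∈ M i)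
    (hadd : ∀ i a, ∀ x ∈ M i, ∀ y ∈ M i, ψ i a (x * y) = ψ i a x + ψ i a y)
    (hsucc : ∀ i x, x ∈ M (i + 1) ↔ x ∈ M i ∧ ∀ a, ψ i a x = 0)
    (hψ : ∀ i a e, ∀ x ∈ M i, ψ i a (X.ρ e x) = ψ i a x) {j : ℕ} (ht : X.Tame (M j)) :
    ∃ E₀ : Subgroup E, OrdKer E₀ ∧ (∀ g, X.j g ∈ E₀ ↔ g ∈ M j) ∧ (E₀.map X.π).FiniteIndex ∧
      X.FC E₀ (M j) := by
  classical
  have := hnor j
  have hanti := utame_anti hsucc
  obtain ⟨J, hJ, hj, hfi, hFC⟩ := X.exists_core_tame hn (hinv j) (hnil j) ht (hroot j)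
    fun e m f hm h => X.triv_of_pow h0 hinv hadd hsucc hψ hm h
  set E' : Subgroup E := X.utame_lev J ⊤ with hE'
  have hfi' : E'.FiniteIndex := by
    have := X.xprop_finiteIndex_comap (J.map X.π)
    refine Subgroup.finiteIndex_of_le (H := (J.map X.π).comap X.π) ?_
    rintro e ⟨k, hk, h⟩
    obtain ⟨g, rfl⟩ := X.exists_j_of_π_eq h.symm
    refine X.utame_mem_lev.2 ⟨g, trivial, ?_⟩
    rw [QuotientGroup.mk_mul, (QuotientGroup.eq_one_iff k).2 hk, mul_one]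
  have hle : ∀ i, X.utame_lev J (M i) ≤ E' := fun i e he => by
    obtain ⟨g, -, h⟩ := X.utame_mem_lev.1 he
    exact X.utame_mem_lev.2 ⟨g, trivial, h⟩
  have hfin : ∀ {I K : Subgroup E}, (∀ e ∈ E', e ∈ I → e ∈ K) → (K.subgroupOf I).FiniteIndex := by
    intro I K h
    exact Subgroup.finiteIndex_of_le (H := E'.subgroupOf I) fun e he => h e he e.2
  have key : ∀ i, i ≤ j → ∃ I : Subgroup E, OrdKer I ∧
      ∀ e ∈ E', e ∈ I ↔ e ∈ X.utame_lev J (M i) := by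
    intro i
    induction i with
    | zero =>
      intro _
      refine ⟨⊤, ordKer_top, fun e he => ?_⟩
      rw [h0]
      exact iff_of_true trivial he
    | succ i ih =>
      intro hi
      obtain ⟨I, hI, h1⟩ := ih (by omega)
      have := X.utame_lev_normal J (hinv i)
      have hch : ∀ e : E, ∃ g : Fr n, e ∈ X.utame_lev J (M i) →
          g ∈ M i ∧ ((X.j g : E) : E ⧸ J) = e := by
        intro e
        by_cases he : e ∈ X.utame_lev J (M i)
        · obtain ⟨g, hg⟩ := X.utame_mem_lev.1 he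
          exact ⟨g, fun _ => hg⟩
        · exact ⟨1, fun h => absurd h he⟩
      choose s hs using hch
      have hval : ∀ a (e : E), ∀ g ∈ M i, ((X.j g : E) : E ⧸ J) = e → ψ i a (s e) = ψ i a g := by
        intro a e g hg h
        obtain ⟨h2, h3⟩ := hs e (X.utame_mem_lev.2 ⟨g, hg, h⟩)
        have h4 : g⁻¹ * s e ∈ M (i + 1) := by
          refine hanti hi ((hj _).1 ?_)
          rw [map_mul, map_inv, ← QuotientGroup.eq, h, h3]
        obtain ⟨h5, h6⟩ := (hsucc i _).1 h4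
        have h7 := hadd i a g hg _ h5
        rwa [mul_inv_cancel_left, h6 a, add_zero] at h7
      obtain ⟨I', hI', hord, h2⟩ := exists_tier (J := X.utame_lev J (M i)) hI
        (fun e he => (h1 e (hle i he)).2 he) (hfin fun e he h => (h1 e he).1 h)
        (ψ := fun a e => ψ i a (s e))
        (fun a x hx y hy => by
          obtain ⟨h3, h4⟩ := hs x hx
          obtain ⟨h5, h6⟩ := hs y hy
          rw [← hadd i a _ h3 _ h5]
          refine hval a _ _ ((M i).mul_mem h3 h5) ?_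
          rw [map_mul, QuotientGroup.mk_mul, h4, h6, QuotientGroup.mk_mul])
        (fun a t x hx => by
          obtain ⟨h3, h4⟩ := hs x hx
          rw [← hψ i a t _ h3]
          exact hval a _ _ (X.utame_mem (hinv i) t h3) (X.utame_conj h4 t))
      refine ⟨I', hord, fun e he => ⟨fun h => ?_, fun h => ?_⟩⟩
      · have h3 := (h1 e he).1 (hI' h)
        obtain ⟨h4, h5⟩ := hs e h3
        exact X.utame_mem_lev.2 ⟨s e, (hsucc i _).2 ⟨h4, (h2 e h3).1 h⟩, h5⟩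
      · obtain ⟨g, hg, h3⟩ := X.utame_mem_lev.1 h
        obtain ⟨h4, h5⟩ := (hsucc i g).1 hg
        refine (h2 e (X.utame_mem_lev.2 ⟨g, h4, h3⟩)).2 fun a => ?_
        exact (hval a e g h4 h3).trans (h5 a)
  obtain ⟨I, hI, h1⟩ := key j le_rfl
  have h2 : ∀ e, e ∈ X.utame_lev J (M j) ↔ e ∈ J := by
    intro e
    rw [X.utame_mem_lev]
    constructor
    · rintro ⟨g, hg, h⟩
      rw [← QuotientGroup.eq_one_iff, ← h, QuotientGroup.eq_one_iff]
      exact (hj g).2 hg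
    · intro he
      exact ⟨1, (M j).one_mem, by
        rw [map_one, (QuotientGroup.eq_one_iff e).2 he, QuotientGroup.mk_one]⟩
  have hJI : J ≤ I := fun e he => (h1 e (hle j ((h2 e).2 he))).2 ((h2 e).2 he)
  refine ⟨I, hI, fun g => ?_, Subgroup.finiteIndex_of_le (Subgroup.map_mono hJI),
    hFC.of_finiteIndex (hinv j) hJI (hfin fun e he h => (h2 e).1 ((h1 e he).1 h))⟩
  rw [h1 _ (X.utame_mem_lev.2 ⟨g, trivial, rfl⟩), h2, hj]

end Ext

end Pool.Agent.Lib.MP_9ac97d_al
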