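import Pool.Agent.Lib.MP_9ac97d_al.UStrip
import Pool.Agent.Lib.MP_9ac97d_al.UTame
import Pool.Agent.Lib.MP_9ac97d_al.ULift

/-!
# The level in the unipotent case (task ULevU)
-/

set_option autoImplicit false

noncomputable section

open Pointwise

namespace Pool.Agent.Lib.MP_9ac97d_al

/-- Start as in `level_of_unip` (`exists_filt`, `Filt.exists_order`, `exists_sym_filt`). If all
levels are tame use `inner_of_tame` and `YY G ≤ G ≤ H₂`. Otherwise `M j` is tame and `M (j + 1)` is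
not. Work in `X₁ = X.xprop_sub H₂` (`NFL.sub`, `tame_sub`, `Under.subgroupOf`): `exists_ordKer_tame`
gives `E₀'`, `stripU` gives `G ≤` image of `E₀'` and the strips. Let `E_G = E₀' ⊓` preimage of `G`;
it maps onto `G`, so `exists_fg_lift` gives a finitely generated `K ≤ ⁅E_G, E_G⁆` that maps onto
`YY G` (`yy_le_comm`). Apply `lift_level` in `X` with the images of `E₀'` and `K` under the
inclusion (`OrdKer.comap`; `triv_on_comm`, where `f * (ρ e f)⁻¹ ∈ M j` for `e ∈ E₀'` since `E₀'` is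
normal in the preimage of `H₂`). -/
theorem level_unipU (n : ℕ) (hn : 2 ≤ n) (a₂ : ℕ) : ∃ a L : ℕ, ∀ (E H : Type) [Group E] [Group H]
    (X : Ext E H n) (H₂ G : Subgroup H), H₂.Normal → BI H₂ a₂ →
    Unip (matHom n '' ((H₂.comap X.π).map X.ρ : Set (MulAut (Fr n)))) → NFL H L → Under G a →
    (YY G).FG → YY G ≤ X.kerIn ⊤ ⊤ ∨ ∃ N E₀, X.Lvl (YY G) N E₀ := by
  classical
  obtain ⟨a₁, L₁, hstr⟩ := stripU n hn
  refine ⟨a₂ * (a₁ + 1), L₁ * (2 * a₂ + 1), fun E H _ _ X H₂ G hN₂ hB₂ hu hH hG hfg => ?_⟩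
  have := hB₂.finiteIndex
  have := X.xprop_finiteIndex_comap H₂
  have hGH : G ≤ H₂ := hG.le hB₂ (Nat.le_mul_of_pos_right _ a₁.succ_pos)
  have hYH : YY G ≤ H₂ := (yy_le G).trans hGH
  obtain ⟨N, χ, hF⟩ := exists_filt hu
  obtain ⟨o, ho⟩ := hF.exists_order
  obtain ⟨M, κ, hκ, ψ, hM0, hnor, hinv, hnil, hcof, hroot, hadd, hsucc, hψ⟩ := X.exists_sym_filt hF
  by_cases ht : ∀ j, X.Tame (M j)
  · exact Or.inl (hYH.trans (X.inner_of_tame hn hu M hnor hinv hnil hcof ht))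
  right
  have hex : ∃ j, X.Tame (M j) ∧ ¬ X.Tame (M (j + 1)) := by
    by_contra hc
    refine ht fun j => ?_
    induction j with
    | zero => rw [hM0]; exact X.xprop_tame_top
    | succ j ih => exact by_contra fun h => hc ⟨j, ih, h⟩
  obtain ⟨j, htj, hnt⟩ := hex
  have := hnor (j + 1)
  set X₁ := X.xprop_sub H₂ with hX₁
  set G₁ := G.subgroupOf H₂ with hG₁
  obtain ⟨I₁, hord, hcap, hfi, hfc⟩ := X₁.exists_ordKer_tame hn hM0 hnor (fun i e => hinv i e)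
    hnil hroot hadd hsucc (fun i a e => hψ i a e e.2) (X.tame_sub htj H₂)
  obtain ⟨hGI, hS⟩ := hstr _ _ κ X₁ o I₁ (M j) (M (j + 1)) (ψ j) (j + 1)
    (fun e => ho _ ⟨e, e.2, rfl⟩) hord hcap hfi hfc (hadd j) (fun a e => hψ j a e e.2) (hsucc j)
    (hnil _) (hH.sub hB₂) G₁
    ((hG.mono (Nat.mul_le_mul_left _ a₁.le_succ)).subgroupOf hB₂)
  have hY : (YY G₁).map H₂.subtype = YY G := by
    rw [yy_map, hG₁, Subgroup.map_subgroupOf_eq_of_le hGH]
  have hon : G₁ ≤ (I₁ ⊓ G₁.comap X₁.π).map X₁.π := fun g hg => by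
    obtain ⟨e, he, rfl⟩ := hGI hg
    exact ⟨e, ⟨he, hg⟩, rfl⟩
  obtain ⟨K₁, hK₁, hKfg, hKY⟩ := X₁.exists_fg_lift
    (K := ⁅I₁ ⊓ G₁.comap X₁.π, I₁ ⊓ G₁.comap X₁.π⁆) (M := YY G₁)
    (Ext.xprop_fg_of_map _ H₂.subtype_injective (hY.symm ▸ hfg))
    ((yy_le_comm G₁).trans (by
      rw [Subgroup.map_commutator]; exact Subgroup.commutator_mono hon hon))
  have hKc : K₁ ≤ ⁅I₁, I₁⁆ := hK₁.trans (Subgroup.commutator_mono inf_le_left inf_le_left)
  have hIn := hord.normal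
  have hle : (YY G).comap X.π ≤ H₂.comap X.π := Subgroup.comap_mono hYH
  have hmem : ∀ e : H₂.comap X.π, (e : E) ∈ I₁.map (H₂.comap X.π).subtype ↔ e ∈ I₁ := fun e =>
    Subgroup.mem_map_iff_mem (H₂.comap X.π).subtype_injective
  obtain ⟨B₀, hB₀, hfg₀, hw₀⟩ := Ext.exists_wide hn (hnil (j + 1))
  obtain ⟨E₀, h1, h2, h3, h4⟩ := X.lift_level (Y := YY G) (hadd j) (hsucc j)
    (fun a e he => hψ j a e (hYH he)) (I := I₁.map (H₂.comap X.π).subtype)
    (by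
      convert hord.comap (Subgroup.inclusion hle) using 1
      ext e
      exact hmem (Subgroup.inclusion hle e))
    (fun g => (hmem (X₁.j g)).trans (hcap g)) (K := K₁.map (H₂.comap X.π).subtype)
    (Subgroup.map_mono (hKc.trans (Subgroup.commutator_le_left _ _)))
    (by rw [← hY, ← hKY, Subgroup.map_map, Subgroup.map_map]; rfl)
    (by
      rintro _ ⟨k, hk, rfl⟩ a f
      refine X₁.triv_on_comm (I := I₁) (M := M j) (fun e _ x hx => ?_) (fun e he f => ?_)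
        (hadd j a) (fun e _ => hψ j a e e.2) k (hKc hk) f
      · rw [← hinv j e]
        exact Subgroup.smul_mem_pointwise_smul _ _ _ hx
      · rw [← hcap, map_mul, map_inv, ← X₁.conj_j]
        have := I₁.mul_mem (hIn.conj_mem e he (X₁.j f)) (I₁.inv_mem he)
        simpa [mul_assoc] using this)
    (fun B hB hBfg hBn => by
      obtain ⟨Ω, hΩ, h⟩ := hS K₁ hK₁ hKfg B hB hBfg hBn
      refine ⟨Ω, hΩ, ?_⟩
      rintro _ ⟨k, hk, rfl⟩
      exact h k hk)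
    ⟨B₀, hB₀, hfg₀, hw₀.nonAb⟩
  exact ⟨M (j + 1), E₀, this, hinv _, ⟨_, hnil _⟩, hnt, h1, h2, h3, h4⟩

end Pool.Agent.Lib.MP_9ac97d_al
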