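import Pool.Agent.Lib.MP_9ac97d_al.UGrp
import Pool.Agent.Lib.MP_9ac97d_al.UAff

/-!
# Uniform trace dichotomy and virtual unipotence (task UNil)
-/

set_option autoImplicit false

noncomputable section

open Pointwise

namespace Pool.Agent.Lib.MP_9ac97d_al

theorem unil_trace (d : ℕ) : ∃ a L₀ : ℕ, ∀ (H : Type) [Group H]
    (ρ : H →* Matrix (Fin d) (Fin d) ℤ),
    (∃ H₁ : Subgroup H, H₁.Normal ∧ BI H₁ a ∧ Unip (ρ '' H₁)) ∨
      ∀ S : Set H, Subgroup.closure S = ⊤ → ∃ h ∈ ball S L₀, (d + 2 : ℤ) ≤ |(ρ h).trace| := by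
  obtain ⟨N, hN⟩ : ∃ N, N = Nat.card (Matrix (Fin d) (Fin d) (ZMod (2 * d + 2)))ˣ := ⟨_, rfl⟩
  refine ⟨N, (2 * d ^ 2 + 1) * (2 * N + 1), fun H _ ρ => ?_⟩
  let red : Matrix (Fin d) (Fin d) ℤ →+* Matrix (Fin d) (Fin d) (ZMod (2 * d + 2)) :=
    (Int.castRingHom (ZMod (2 * d + 2))).mapMatrix
  let τ := (red.toMonoidHom.comp ρ).toHomUnits
  have hfi : τ.ker.FiniteIndex := Subgroup.finiteIndex_ker τ
  have hbi : BI τ.ker N := hN ▸ bi_ker_of_finite τ
  by_cases hU : Unip (ρ '' τ.ker)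
  · exact Or.inl ⟨τ.ker, inferInstance, hbi, hU⟩
  refine Or.inr fun S hS => ?_
  have hr : Set.range (ρ.comp τ.ker.subtype) = ρ '' τ.ker := by
    ext A
    constructor
    · rintro ⟨g, rfl⟩
      exact ⟨g, g.2, rfl⟩
    · rintro ⟨g, hg, rfl⟩
      exact ⟨⟨g, hg⟩, rfl⟩
  have hex : ∃ a ∈ ball (τ.ker.subtype ⁻¹' ball S (2 * τ.ker.index + 1)) (2 * d ^ 2 + 1),
      ((ρ.comp τ.ker.subtype) a).trace ≠ d := by
    by_contra hn
    push Not at hn
    exact hU (hr ▸ unip_of_trace _ (schreier τ.ker hS) hn)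
  obtain ⟨a, ha, hne⟩ := hex
  refine ⟨a, ?_, ?_⟩
  · have h1 : τ.ker.subtype a ∈ ball (τ.ker.subtype ''
        (τ.ker.subtype ⁻¹' ball S (2 * τ.ker.index + 1))) (2 * d ^ 2 + 1) := by
      rw [ball_image]
      exact ⟨a, ha, rfl⟩
    have h2 := ball_subset_of_subset (Set.image_preimage_subset _ _) _ h1
    exact ball_mono (Nat.mul_le_mul_left _ (by have := hbi.2; omega)) h2
  · have h1 : red (ρ a) = 1 := congrArg Units.val (MonoidHom.mem_ker.1 a.2)
    have h2 : (((ρ a).trace : ℤ) : ZMod (2 * d + 2)) = ((d : ℤ) : ZMod (2 * d + 2)) := by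
      have h3 := congrArg Matrix.trace h1
      rw [Matrix.trace_one, Fintype.card_fin] at h3
      rw [Int.cast_natCast, ← h3]
      simp [red, Matrix.trace]
    rw [ZMod.intCast_eq_intCast_iff_dvd_sub] at h2
    have h4 : (d : ℤ) - (ρ a).trace ≠ 0 := fun e => hne (by
      show (ρ a).trace = d
      omega)
    have h5 := Int.le_of_dvd (abs_pos.2 h4) ((dvd_abs _ _).2 h2)
    push_cast at h5
    rcases abs_cases ((d : ℤ) - (ρ a).trace) with h6 | h6 <;>
      rcases abs_cases ((ρ a).trace) with h7 | h7 <;> omega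

/-- Copy the proof of `trace_dichotomy`: `H₁` is the kernel of the reduction modulo a fixed
modulus depending on `d` (index bounded by the order of a finite matrix group,
`bi_ker_of_finite`), `schreier` gives generators of `H₁` of bounded length, and `unip_of_trace`
applies if all short elements have trace `d`. Take the maximum over `d ≤ r`. -/
theorem traceU (r : ℕ) : ∃ a L₀ : ℕ, ∀ d ≤ r, ∀ (H : Type) [Group H]
    (ρ : H →* Matrix (Fin d) (Fin d) ℤ),
    (∃ H₁ : Subgroup H, H₁.Normal ∧ BI H₁ a ∧ Unip (ρ '' H₁)) ∨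
      ∀ S : Set H, Subgroup.closure S = ⊤ → ∃ h ∈ ball S L₀, (d + 2 : ℤ) ≤ |(ρ h).trace| := by
  choose a L h using unil_trace
  refine ⟨(Finset.range (r + 1)).sup a, (Finset.range (r + 1)).sup L, fun d hd H _ ρ => ?_⟩
  have hd' : d ∈ Finset.range (r + 1) := Finset.mem_range.2 (by omega)
  rcases h d H ρ with ⟨H₁, h1, h2, h3⟩ | h1
  · exact Or.inl ⟨H₁, h1, h2.mono (Finset.le_sup hd'), h3⟩
  · refine Or.inr fun S hS => ?_
    obtain ⟨g, hg, hg'⟩ := h1 S hS
    exact ⟨g, ball_mono (Finset.le_sup (f := L) hd') hg, hg'⟩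

theorem unil_lattice {H W : Type} [Group H] [AddCommGroup W] [Module ℚ W] [Module.Finite ℚ W]
    {M : Subgroup H} [hN : M.Normal] (hM : M.FG) (θ : H →* Module.End ℚ W) (p : H → W)
    (hadd : ∀ x ∈ M, ∀ y ∈ M, p (x * y) = p x + p y)
    (hθ : ∀ h, ∀ x ∈ M, p (h * x * h⁻¹) = θ h (p x)) :
    ∃ d ≤ Module.finrank ℚ W, ∃ (e : (Fin d → ℤ) →+ W) (q : M →* Multiplicative (Fin d → ℤ))
      (ρ : H →* Matrix (Fin d) (Fin d) ℤ), Function.Surjective q ∧
      (∀ x : M, e (q x).toAdd = p x) ∧ (∀ h v, e ((ρ h).mulVec v) = θ h (e v)) ∧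
      ∀ h x, (q (MulAut.conjNormal h x)).toAdd = (ρ h).mulVec (q x).toAdd := by
  classical
  have : IsAddTorsionFree W := .of_module_rat _
  let P : M →* Multiplicative W :=
    MonoidHom.mk' (fun x => Multiplicative.ofAdd (p x)) fun x y => by
      rw [Subgroup.coe_mul, hadd _ x.2 _ y.2, ofAdd_add]
  have hP : ∀ x : M, (P x).toAdd = p x := fun _ => rfl
  obtain ⟨T, hT⟩ := (Group.fg_def.1 ((Group.fg_iff_subgroup_fg M).2 hM))
  let Λ : Submodule ℤ W := Submodule.span ℤ ((fun x : M => p x) '' (T : Set M))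
  have hΛ1 : ∀ x : M, p x ∈ Λ := by
    intro x
    have hx : x ∈ Subgroup.closure (T : Set M) := hT.symm ▸ Subgroup.mem_top x
    rw [← hP]
    induction hx using Subgroup.closure_induction with
    | mem y hy => exact Submodule.subset_span ⟨y, hy, rfl⟩
    | one => rw [map_one, toAdd_one]; exact Λ.zero_mem
    | mul y z _ _ hy hz => rw [map_mul, toAdd_mul]; exact Λ.add_mem hy hz
    | inv y _ hy => rw [map_inv, toAdd_inv]; exact Λ.neg_mem hy
  have hΛ2 : ∀ w ∈ Λ, ∃ x : M, p x = w := by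
    intro w hw
    induction hw using Submodule.span_induction with
    | mem y hy =>
      obtain ⟨x, -, rfl⟩ := hy
      exact ⟨x, rfl⟩
    | zero => exact ⟨1, by rw [← hP, map_one, toAdd_one]⟩
    | add y z _ _ hy hz =>
      obtain ⟨x, rfl⟩ := hy
      obtain ⟨x', rfl⟩ := hz
      exact ⟨x * x', by rw [← hP, map_mul, toAdd_mul, hP, hP]⟩
    | smul n y _ hy =>
      obtain ⟨x, rfl⟩ := hy
      exact ⟨x ^ n, by rw [← hP, map_zpow, toAdd_zpow, hP]⟩
  have hfin : Module.Finite ℤ Λ := Module.Finite.span_of_finite ℤ (T.finite_toSet.image _)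
  let b := Module.finBasis ℤ Λ
  have hli : LinearIndependent ℚ fun i => (b i : W) :=
    (LinearIndependent.iff_fractionRing ℤ ℚ).1
      (b.linearIndependent.map' Λ.subtype (Submodule.ker_subtype Λ))
  have hmap : ∀ h, ∀ w ∈ Λ, ((θ h).restrictScalars ℤ) w ∈ Λ := by
    intro h w hw
    obtain ⟨x, rfl⟩ := hΛ2 w hw
    have := hΛ1 ⟨h * x * h⁻¹, hN.conj_mem _ x.2 h⟩
    rwa [hθ h x x.2] at this
  let σ : H →* Module.End ℤ Λ :=
    { toFun := fun h => ((θ h).restrictScalars ℤ).restrict (hmap h)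
      map_one' := by
        ext w
        simp
      map_mul' := fun g h => by
        ext w
        simp }
  have hσ : ∀ h (w : Λ), (σ h w : W) = θ h w := fun _ _ => rfl
  let ρ : H →* Matrix _ _ ℤ := (LinearMap.toMatrixAlgEquiv b).toRingEquiv.toMonoidHom.comp σ
  have hρ : ∀ h (w : Λ), (ρ h).mulVec (b.equivFun w) = b.equivFun (σ h w) := fun h w =>
    LinearMap.toMatrix_mulVec_repr b b (σ h) w
  let e : (Fin _ → ℤ) →+ W := (Λ.subtype.comp b.equivFun.symm.toLinearMap).toAddMonoidHom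
  have he : ∀ w : Λ, e (b.equivFun w) = w := fun w => by
    change ((b.equivFun.symm (b.equivFun w) : Λ) : W) = w
    rw [LinearEquiv.symm_apply_apply]
  let q : M →* Multiplicative (Fin _ → ℤ) :=
    MonoidHom.mk' (fun x => Multiplicative.ofAdd (b.equivFun ⟨p x, hΛ1 x⟩)) fun x y => by
      rw [← ofAdd_add, ← map_add]
      congr 2
      exact Subtype.ext (hadd _ x.2 _ y.2)
  have hq : ∀ x : M, (q x).toAdd = b.equivFun ⟨p x, hΛ1 x⟩ := fun _ => rfl
  refine ⟨_, by simpa using hli.fintype_card_le_finrank, e, q, ρ, fun v => ?_, fun x => ?_,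
    fun h v => ?_, fun h x => ?_⟩
  · obtain ⟨w, hw⟩ := b.equivFun.surjective v.toAdd
    obtain ⟨x, hx⟩ := hΛ2 w w.2
    refine ⟨x, Multiplicative.toAdd.injective ?_⟩
    rw [hq, ← hw]
    congr 1
    exact Subtype.ext hx
  · rw [hq, he]
  · obtain ⟨w, rfl⟩ := b.equivFun.surjective v
    rw [hρ, he, he, hσ]
  · rw [hq, hq, hρ]
    congr 1
    exact Subtype.ext (hθ h x x.2)

theorem unil_short {H : Type} [Group H] {c d : ℕ}
    {q : (⊤ : Subgroup H).lowerCentralSeries c →* Multiplicative (Fin d → ℤ)}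
    (hq : Function.Surjective q) {ρ : H →* Matrix (Fin d) (Fin d) ℤ}
    (hρ : ∀ h x, (q (MulAut.conjNormal h x)).toAdd = (ρ h).mulVec (q x).toAdd) {S : Set H}
    (hS : Subgroup.closure S = ⊤) {v : Fin d → ℂ} (hv : v ≠ 0) :
    ∃ x : (⊤ : Subgroup H).lowerCentralSeries c, (x : H) ∈ ball S (d + 3 * 2 ^ c + d) ∧
      (dotProduct v fun k => ((q x).toAdd k : ℂ)) ≠ 0 := by
  classical
  by_contra hcon
  push Not at hcon
  let K : ℕ → Submodule ℂ (Fin d → ℂ) := fun k =>
    { carrier := {u | ∀ x : (⊤ : Subgroup H).lowerCentralSeries c, (x : H) ∈ lcomms S c →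
        ∀ h ∈ ball S k, (dotProduct u fun i => ((q (MulAut.conjNormal h x)).toAdd i : ℂ)) = 0}
      add_mem' := fun {u u'} hu hu' x hx h hh => by
        rw [add_dotProduct, hu x hx h hh, hu' x hx h hh, add_zero]
      zero_mem' := fun x _ h _ => zero_dotProduct _
      smul_mem' := fun a u hu x hx h hh => by
        rw [smul_dotProduct, hu x hx h hh, smul_zero] }
  obtain ⟨k, hk, hkk⟩ := GLcs_stab (⊤ : Submodule ℂ (Fin d → ℂ)) d inferInstance (by simp) K
    (fun _ => le_top) (fun k u hu x hx h hh => hu x hx h (ball_mono (Nat.le_succ k) hh))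
  have hstep : ∀ (s : H) (u : Fin d → ℂ) (y : (⊤ : Subgroup H).lowerCentralSeries c),
      (dotProduct (Matrix.vecMul u ((ρ s).map (Int.castRingHom ℂ))) fun i => ((q y).toAdd i : ℂ)) =
        dotProduct u fun i => ((q (MulAut.conjNormal s y)).toAdd i : ℂ) := by
    intro s u y
    rw [← Matrix.dotProduct_mulVec, hρ]
    congr 1
    funext i
    simp [Matrix.mulVec, dotProduct]
  have hall : ∀ g : H, ∀ u ∈ K k, ∀ x : (⊤ : Subgroup H).lowerCentralSeries c,
      (x : H) ∈ lcomms S c →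
      (dotProduct u fun i => ((q (MulAut.conjNormal g x)).toAdd i : ℂ)) = 0 := by
    intro g
    induction g using gbasic_induction hS with
    | h1 => exact fun u hu x hx => hu x hx 1 (one_mem_ball S k)
    | hs s g hs ih =>
      intro u hu x hx
      rw [map_mul, MulAut.mul_apply, ← hstep]
      refine ih _ (fun y hy h hh => ?_) x hx
      rw [hstep, ← MulAut.mul_apply, ← map_mul]
      refine hkk hu y hy (s * h) ?_
      rw [add_comm]
      exact mul_mem_ball (mem_ball_one hs) hh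
  have hvK : v ∈ K k := fun x hx h hh => hcon _ (by
    rw [MulAut.conjNormal_apply]
    exact mul_mem_ball (mul_mem_ball (ball_mono hk hh) (lcomms_subset_ball S c hx))
      (inv_mem_ball (ball_mono hk hh)))
  let χ : (⊤ : Subgroup H).lowerCentralSeries c →* Multiplicative ℂ :=
    MonoidHom.mk' (fun x => Multiplicative.ofAdd (dotProduct v fun i => ((q x).toAdd i : ℂ)))
      fun x y => by
        rw [← ofAdd_add, ← dotProduct_add, map_mul, toAdd_mul]
        congr 2
        funext i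
        simp
  have h3 : Subgroup.normalClosure (lcomms S c) ≤
      χ.ker.map ((⊤ : Subgroup H).lowerCentralSeries c).subtype := by
    unfold Subgroup.normalClosure
    rw [Subgroup.closure_le]
    intro z hz
    obtain ⟨x, hx, hxz⟩ := Group.mem_conjugatesOfSet_iff.1 hz
    obtain ⟨h, rfl⟩ := isConj_iff.1 hxz
    have h4 : x ∈ (⊤ : Subgroup H).lowerCentralSeries c := by
      rw [lcs_eq_normalClosure hS]
      exact Subgroup.subset_normalClosure hx
    exact ⟨MulAut.conjNormal h ⟨x, h4⟩, ofAdd_eq_one.2 (hall h v hvK ⟨x, h4⟩ hx), rfl⟩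
  rw [← lcs_eq_normalClosure hS] at h3
  apply hv
  funext i
  obtain ⟨x, hx⟩ := hq (Multiplicative.ofAdd (Pi.single i 1))
  obtain ⟨y, hy, hyx⟩ := h3 x.2
  have h5 : y = x := Subtype.ext hyx
  have h6 : (dotProduct v fun i => ((q y).toAdd i : ℂ)) = 0 := ofAdd_eq_one.1 hy
  rw [h5, hx, toAdd_ofAdd] at h6
  simpa [dotProduct, Pi.single_apply] using h6

theorem unil_hyp {H : Type} [Group H] {c d : ℕ}
    {p : (⊤ : Subgroup H).lowerCentralSeries c →* Multiplicative (Fin d → ℤ)}
    (hp : Function.Surjective p) {ρ : H →* Matrix (Fin d) (Fin d) ℤ}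
    (hρ : ∀ h x, (p (MulAut.conjNormal h x)).toAdd = (ρ h).mulVec (p x).toAdd) {L₀ : ℕ}
    {S : Set H} (hS : Subgroup.closure S = ⊤) (hNo : NoFree S (d + 3 * 2 ^ c + d + 2 * d * L₀))
    {a : H} (haS : a ∈ ball S L₀) (htr : (d + 2 : ℤ) ≤ |(ρ a).trace|) : False := by
  classical
  let A : Matrix (Fin d) (Fin d) ℂ := (ρ a).map (Int.castRingHom ℂ)
  have hA : (d + 2 : ℝ) ≤ ‖A.transpose.trace‖ := by
    have h1 : A.transpose.trace = (((ρ a).trace : ℤ) : ℂ) := by
      rw [Matrix.trace_transpose]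
      simp [A, Matrix.trace]
    rw [h1, Complex.norm_intCast]
    exact_mod_cast htr
  obtain ⟨μ, v, hv, hAv, hμ⟩ := exists_eigen_of_trace A.transpose hA
  obtain ⟨i, -⟩ : ∃ i, v i ≠ 0 := Function.ne_iff.1 hv
  have hd : 0 < d := Fin.pos i
  have hd' : (0 : ℝ) < d := by exact_mod_cast hd
  let F : (Fin d → ℤ) → ℂ := fun w => dotProduct v fun k => (w k : ℂ)
  have hFadd : ∀ w w', F (w + w') = F w + F w' := by
    intro w w'
    simp only [F, Pi.add_apply, Int.cast_add, dotProduct, mul_add, Finset.sum_add_distrib]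
  have hFA : ∀ w, F ((ρ a).mulVec w) = μ * F w := by
    intro w
    have h1 : (fun k => (((ρ a).mulVec w k : ℤ) : ℂ)) = A.mulVec fun k => (w k : ℂ) := by
      funext k
      simp [A, Matrix.mulVec, dotProduct]
    simp only [F]
    rw [h1, Matrix.dotProduct_mulVec, ← Matrix.mulVec_transpose, hAv, smul_dotProduct,
      smul_eq_mul]
  obtain ⟨x, hxS, hx⟩ := unil_short hp hρ hS hv
  let f : H → ℂ := fun y =>
    if hy : y ∈ (⊤ : Subgroup H).lowerCentralSeries c then F (p ⟨y, hy⟩).toAdd else 0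
  have hf : ∀ y : (⊤ : Subgroup H).lowerCentralSeries c, f y = F (p y).toAdd := fun y =>
    dif_pos y.2
  have hadd : ∀ x ∈ (⊤ : Subgroup H).lowerCentralSeries c,
      ∀ y ∈ (⊤ : Subgroup H).lowerCentralSeries c, f (x * y) = f x + f y := by
    intro x hx y hy
    have h1 := hf (⟨x, hx⟩ * ⟨y, hy⟩)
    rw [map_mul, toAdd_mul, hFadd, ← hf, ← hf] at h1
    exact h1
  have hconj : ∀ k : ℕ, ∀ y : (⊤ : Subgroup H).lowerCentralSeries c,
      f (MulAut.conjNormal (a ^ k) y : (⊤ : Subgroup H).lowerCentralSeries c) = μ ^ k * f y := by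
    intro k
    induction k with
    | zero => intro y; simp
    | succ k ih =>
      intro y
      rw [pow_succ', map_mul, MulAut.mul_apply, hf, hρ, hFA, ← hf, ih, pow_succ', mul_assoc]
  have hμk : 3 ≤ ‖μ ^ (2 * d)‖ := by
    rw [norm_pow]
    have h0 : (0 : ℝ) ≤ 1 / (d : ℝ) := by positivity
    have h1 := one_add_mul_le_pow (a := 1 / (d : ℝ)) (by linarith) (2 * d)
    have h2 : (1 : ℝ) + ((2 * d : ℕ) : ℝ) * (1 / (d : ℝ)) = 3 := by
      push_cast
      field_simp
      norm_num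
    rw [h2] at h1
    exact h1.trans (pow_le_pow_left₀ (by linarith) hμ _)
  have hfree : FreePair ((x : H) * a ^ (2 * d)) (a ^ (2 * d)) :=
    freePair_affine hadd hμk (fun y hy => hconj (2 * d) ⟨y, hy⟩) x.2 (by
      rw [hf]
      exact hx)
  have hak := pow_mem_ball haS (2 * d)
  exact hNo _ (mul_mem_ball hxS hak) _ (ball_mono (Nat.le_add_left _ _) hak) hfree

/-- Let `M` be the term `c` of the lower central series; it is finitely generated (`lcs_fgU`), so
`Λ = p '' M` is a finitely generated torsion free abelian group; a `ℤ`-basis of `Λ` is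
`ℚ`-independent, so it has `d ≤ r` elements, and `θ` gives `ρ : H →* Matrix (Fin d) (Fin d) ℤ`.
Apply `traceU`. In the unipotent case we are done. Otherwise there is a short `h` with an
eigenvalue `μ` of the transpose, `1 + 1 / d ≤ ‖μ‖` (`exists_eigen_of_trace`), that is an additive
`f : M → ℂ`, not zero, with `f (h x h⁻¹) = μ * f x`. The `ℚ`-spans of the `p (g x g⁻¹)`,
`x ∈ lcomms S c`, `g ∈ ball S k`, form an increasing chain, stationary after at most `r` steps
(`GLcs_stab`, `span_short` are models), with union the span of `Λ`; so `f x ≠ 0` for some `x` of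
length at most `3 * 2 ^ c + 2 * r`, and `freePair_affine` for a bounded power of `h` gives a short
free pair. See `gvn_hyp`. -/
theorem nilU (c r : ℕ) : ∃ a L : ℕ, ∀ (H W : Type) [Group H] [AddCommGroup W] [Module ℚ W]
    [Module.Finite ℚ W], Module.finrank ℚ W ≤ r → NFL H L →
    ∀ (θ : H →* Module.End ℚ W) (p : H → W),
    (∀ x ∈ (⊤ : Subgroup H).lowerCentralSeries c, ∀ y ∈ (⊤ : Subgroup H).lowerCentralSeries c,
      p (x * y) = p x + p y) →
    (∀ h, ∀ x ∈ (⊤ : Subgroup H).lowerCentralSeries c, p (h * x * h⁻¹) = θ h (p x)) →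
    ∃ H₁ : Subgroup H, BI H₁ a ∧ ∀ l : List H, (∀ h ∈ l, h ∈ H₁) → r ≤ l.length →
      ∀ x ∈ (⊤ : Subgroup H).lowerCentralSeries c, (l.map fun h => θ h - 1).prod (p x) = 0 := by
  obtain ⟨a, L₀, hT⟩ := traceU r
  obtain ⟨L₁, hfg⟩ := lcs_fgU c
  refine ⟨a, L₁ + (r + 3 * 2 ^ c + r + 2 * r * L₀), fun H W _ _ _ _ hr hH θ p hadd hθ => ?_⟩
  obtain ⟨d, hd, e, q, ρ, hq, he, heρ, hρ⟩ :=
    unil_lattice (hfg H (hH.mono (Nat.le_add_right _ _))) θ p hadd hθ
  have hdr : d ≤ r := hd.trans hr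
  rcases hT d hdr H ρ with ⟨H₁, -, h1, hU⟩ | hL
  · refine ⟨H₁, h1, fun l hl hlen x hx => ?_⟩
    have key : ∀ (l : List H) (v : Fin d → ℤ), (l.map fun h => θ h - 1).prod (e v) =
        e (((l.map ρ).map fun A => A - 1).prod.mulVec v) := by
      intro l
      induction l with
      | nil => intro v; simp
      | cons h l ih =>
        intro v
        rw [List.map_cons, List.prod_cons, Module.End.mul_apply, ih, List.map_cons, List.map_cons,
          List.prod_cons, ← Matrix.mulVec_mulVec, Matrix.sub_mulVec, Matrix.one_mulVec, map_sub,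
          heρ, LinearMap.sub_apply, Module.End.one_apply]
    have h0 : ((l.map ρ).map fun A => A - 1).prod = 0 := by
      rw [← List.take_append_drop d (l.map ρ), List.map_append, List.prod_append,
        hU _ (fun A hA => ?_) (by rw [List.length_take, List.length_map]; omega), zero_mul]
      obtain ⟨h, hh, rfl⟩ := List.mem_map.1 (List.mem_of_mem_take hA)
      exact ⟨h, hl h hh, rfl⟩
    rw [← he ⟨x, hx⟩, key, h0, Matrix.zero_mulVec, map_zero]
  · obtain ⟨S, -, hS, hNo⟩ := hH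
    obtain ⟨g, hg, htr⟩ := hL S hS
    refine (unil_hyp hq hρ hS (hNo.mono ?_) hg htr).elim
    have := Nat.mul_le_mul_right L₀ (Nat.mul_le_mul_left 2 hdr)
    omega

end Pool.Agent.Lib.MP_9ac97d_al
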