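import Pool.Agent.Lib.MP_9ac97d_al.UPP
import Pool.Agent.Lib.MP_9ac97d_al.UVol
import Pool.Agent.Lib.MP_9ac97d_al.UNil

/-!
# Virtual triangularity with bounded index (task ULin)
-/

set_option autoImplicit false

noncomputable section

open Pointwise

namespace Pool.Agent.Lib.MP_9ac97d_al

section irr

variable {G W : Type} [Group G] [AddCommGroup W] [Module ℂ W]
  {B : SL G ℂ W} {φ : G →* Module.End ℂ W} {b : ℕ}

theorem ulin_inv_sub (hφ : ∀ g v, φ g v = B.act g v) (hSI : B.SIb b) (K : Subgroup G)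
    (hK : BI K b) (M : Submodule ℂ W) (hM : ∀ g ∈ K, ∀ v ∈ M, φ g v ∈ M) :
    M = ⊥ ∨ M = ⊤ := by
  by_contra hc
  push Not at hc
  have hle : K ≤ B.stab M := by
    intro g hg
    show B.sub g M = M
    ext v
    rw [B.mem_sub, ← hφ]
    refine ⟨fun h => ?_, hM _ (K.inv_mem hg) v⟩
    have := hM g hg _ h
    rwa [← Module.End.mul_apply, lin_mul_inv, Module.End.one_apply] at this
  exact hSI M hc.1 hc.2 (hK.of_le hle)

variable [Module.Finite ℂ W] [Nontrivial W]

theorem ulin_schur (hφ : ∀ g v, φ g v = B.act g v) (hSI : B.SIb b) (K : Subgroup G)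
    (hK : BI K b) (x : Module.End ℂ W) (hx : ∀ g ∈ K, φ g * x = x * φ g) :
    ∃ μ : ℂ, x = μ • 1 := by
  obtain ⟨μ, hμ⟩ := Module.End.exists_eigenvalue x
  refine ⟨μ, ?_⟩
  have h1 := ulin_inv_sub hφ hSI K hK (x.eigenspace μ) fun g hg v hv => by
    rw [Module.End.mem_eigenspace_iff] at hv ⊢
    rw [← Module.End.mul_apply, ← hx g hg, Module.End.mul_apply, hv, map_smul]
  rcases h1 with h1 | h1
  · exact absurd h1 hμ
  · ext v
    have : v ∈ x.eigenspace μ := h1 ▸ Submodule.mem_top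
    simpa using Module.End.mem_eigenspace_iff.1 this

theorem ulin_scalar (hφ : ∀ g v, φ g v = B.act g v) (hSI : B.SIb b) (K : Subgroup G)
    (hK : BI K b) {Q : Type} [AddCommGroup Q] [Module ℂ Q] (σ : G →* Module.End ℂ Q)
    (ψ : Q →ₗ[ℂ] Module.End ℂ W) (hψ : ∀ g ξ, ψ (σ g ξ) = φ g * ψ ξ * φ g⁻¹) (n : ℕ) :
    ∀ ξ : Q, (∀ l : List G, (∀ g ∈ l, g ∈ K) → l.length = n →
      (l.map fun g => σ g - 1).prod ξ = 0) → ∃ μ : ℂ, ψ ξ = μ • 1 := by
  induction n with
  | zero =>
    intro ξ h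
    have : ξ = 0 := by simpa using h [] (by simp) rfl
    exact ⟨0, by simp [this]⟩
  | succ n ih =>
    intro ξ h
    refine ulin_schur hφ hSI K hK _ fun g hg => ?_
    obtain ⟨μ, hμ⟩ := ih ((σ g - 1) ξ) fun l hl hn => by
      have := h (l ++ [g]) (fun a ha => by
        rcases List.mem_append.1 ha with ha | ha
        · exact hl a ha
        · rw [List.mem_singleton.1 ha]
          exact hg) (by simp [hn])
      rwa [List.map_append, List.prod_append, List.map_singleton, List.prod_singleton,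
        Module.End.mul_apply] at this
    rw [LinearMap.sub_apply, Module.End.one_apply, map_sub, hψ] at hμ
    have htr := congrArg (LinearMap.trace ℂ W) hμ
    rw [map_sub, LinearMap.trace_mul_cycle, lin_inv_mul, one_mul, sub_self, map_smul,
      LinearMap.trace_one, smul_eq_mul] at htr
    have hpos : (Module.finrank ℂ W : ℂ) ≠ 0 := by
      exact_mod_cast (Module.finrank_pos (R := ℂ) (M := W)).ne'
    have hμ0 : μ = 0 := (mul_eq_zero.1 htr.symm).resolve_right hpos
    rw [hμ0, zero_smul, sub_eq_zero] at hμ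
    calc φ g * ψ ξ = φ g * ψ ξ * φ g⁻¹ * φ g := by rw [mul_assoc, lin_inv_mul, mul_one]
      _ = ψ ξ * φ g := by rw [hμ]

omit [Module.Finite ℂ W] in
theorem ulin_dim_one (hφ : ∀ g v, φ g v = B.act g v) (hSI : B.SIb b) (hb : 1 ≤ b)
    (h : ∀ g, ∃ μ : ℂ, φ g = μ • 1) : Module.finrank ℂ W = 1 := by
  obtain ⟨v, hv⟩ := exists_ne (0 : W)
  have h1 := ulin_inv_sub hφ hSI ⊤ (bi_top.mono hb) (Submodule.span ℂ {v}) fun g _ w hw => by
    obtain ⟨μ, hμ⟩ := h g
    rw [hμ]
    exact Submodule.smul_mem _ _ hw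
  rcases h1 with h1 | h1
  · exact absurd (Submodule.span_singleton_eq_bot.1 h1) hv
  · rw [← finrank_top, ← h1]
    exact finrank_span_singleton hv

end irr

theorem ulin_pp (d L : ℕ) {m : ℝ} (hm : 1 < m) : ∃ L₁ : ℕ, ∀ (G W : Type) [Group G]
    [AddCommGroup W] [Module ℂ W] [Module.Finite ℂ W] [Nontrivial W] (B : SL G ℂ W)
    (φ : G →* Module.End ℂ W), (∀ g v, φ g v = B.act g v) → (∀ g, B.α g = 1) →
    Module.finrank ℂ W ≤ d → B.SIb d → ∀ S : Set G, NFS S L₁ → ∀ a ∈ ball S L,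
    ∀ y : Module.End ℂ W, y ≠ 0 → ∀ μ : ℂ, φ a * y * φ a⁻¹ = μ • y → m ≤ ‖μ‖ → False := by
  set r : ℝ := m ^ ((2 * L + 1 : ℕ) : ℝ)⁻¹ with hr
  have hr1 : 1 < r := Real.one_lt_rpow hm (by positivity)
  have hrm : r ^ (2 * L + 1) = m := Real.rpow_inv_natCast_pow (by linarith) (by omega)
  choose F hF using fun k : ℕ => ppU (k + 1) k.succ_pos (τ := 1 / 2) hr1 (by norm_num)
    (by norm_num) ((k + 1).factorial : ℝ)
  refine ⟨(Finset.range d).sup F, ?_⟩
  intro G W _ _ _ _ _ B φ hφ hα hd hSI S hS a ha y hy μ hμ hmμ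
  obtain ⟨δ, hδ⟩ := exists_volC_complex B hα
  obtain ⟨k, hk⟩ : ∃ k, Module.finrank ℂ W = k + 1 :=
    Nat.exists_eq_succ_of_ne_zero (Module.finrank_pos (R := ℂ) (M := W)).ne'
  rw [hk] at hd
  obtain ⟨N, hN, hc⟩ := hF k G G ℂ W B (MonoidHom.id G) δ S hk ⟨1 / 2, by norm_num⟩
    Function.surjective_id (fun e he => ⟨1, fun v => by
      have : e = 1 := he
      rw [this, map_one, one_smul]
      rfl⟩) (hk ▸ hδ) (hSI.mono hd)
    (hS.mono (Finset.le_sup (f := F) (Finset.mem_range.2 hd)))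
  have hlet : ∀ s, (s ∈ S ∨ s⁻¹ ∈ S) → ∀ v, N (φ s v) ≤ r * δ s * N v := fun s hs v => by
    rw [hφ]
    exact hc s hs v
  have hr0 : 0 < r := by linarith
  have hword : ∀ l : List G, (∀ x ∈ l, x ∈ S ∨ x⁻¹ ∈ S) → ∀ v,
      N (φ l.prod v) ≤ r ^ l.length * δ l.prod * N v := by
    intro l
    induction l with
    | nil => intro _ v; simp
    | cons s l ih =>
      intro hl v
      rw [List.prod_cons, map_mul, Module.End.mul_apply, List.length_cons, map_mul]
      have h1 := hlet s (hl s (by simp)) (φ l.prod v)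
      have h2 := ih (fun x hx => hl x (by simp [hx])) v
      have h3 : 0 ≤ r * δ s := (mul_pos hr0 (hδ.pos s)).le
      calc _ ≤ r * δ s * N (φ l.prod v) := h1
        _ ≤ r * δ s * (r ^ l.length * δ l.prod * N v) := mul_le_mul_of_nonneg_left h2 h3
        _ = _ := by ring
  have hball : ∀ b ∈ ball S L, ∀ v, N (φ b v) ≤ r ^ L * δ b * N v := by
    rintro _ ⟨l, hl, hl', rfl⟩ v
    refine (hword l hl' v).trans (mul_le_mul_of_nonneg_right ?_ (hN.nonneg v))
    exact mul_le_mul_of_nonneg_right (pow_le_pow_right₀ hr1.le hl) (hδ.pos _).le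
  have hN' : IsNorm ℂ fun v => N (y v) + N v := by
    refine ⟨fun v w => ?_, fun c v => ?_, fun f => ?_⟩
    · rw [map_add]
      linarith [hN.add (y v) (y w), hN.add v w]
    · rw [map_smul, hN.smul, hN.smul, mul_add]
    · obtain ⟨C, hC⟩ := hN.bdd f
      refine ⟨max C 0, fun v => (hC v).trans ?_⟩
      have := hN.nonneg v
      have := hN.nonneg (y v)
      calc C * N v ≤ max C 0 * N v := mul_le_mul_of_nonneg_right (le_max_left _ _) (hN.nonneg v)
        _ ≤ _ := mul_le_mul_of_nonneg_left (by linarith) (le_max_right _ _)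
  obtain ⟨C, hC0, hC⟩ := hN'.equiv hN
  have hδa : δ a * δ a⁻¹ = 1 := by rw [← map_mul, mul_inv_cancel, map_one]
  have hstep : ∀ n : ℕ, ∀ u, N (y u) ≤ C * r⁻¹ ^ n * N u := by
    intro n
    induction n with
    | zero =>
      intro u
      have := hC u
      have := hN.nonneg u
      simp only [pow_zero, mul_one]
      linarith
    | succ n ih =>
      intro u
      have e1 : φ a (y (φ a⁻¹ u)) = μ • y u := LinearMap.congr_fun hμ u
      have h1 := hball a ha (y (φ a⁻¹ u))
      have h2 := ih (φ a⁻¹ u)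
      have h3 := hball a⁻¹ (inv_mem_ball ha) u
      rw [e1, hN.smul] at h1
      have p1 : 0 ≤ r ^ L * δ a := (mul_pos (pow_pos hr0 _) (hδ.pos a)).le
      have p2 : 0 ≤ C * r⁻¹ ^ n := by positivity
      have h4 : r ^ (2 * L + 1) * N (y u) ≤ r ^ (2 * L) * (C * r⁻¹ ^ n * N u) := by
        calc r ^ (2 * L + 1) * N (y u) ≤ ‖μ‖ * N (y u) :=
              mul_le_mul_of_nonneg_right (hrm ▸ hmμ) (hN.nonneg _)
          _ ≤ r ^ L * δ a * N (y (φ a⁻¹ u)) := h1
          _ ≤ r ^ L * δ a * (C * r⁻¹ ^ n * N (φ a⁻¹ u)) := mul_le_mul_of_nonneg_left h2 p1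
          _ ≤ r ^ L * δ a * (C * r⁻¹ ^ n * (r ^ L * δ a⁻¹ * N u)) :=
              mul_le_mul_of_nonneg_left (mul_le_mul_of_nonneg_left h3 p2) p1
          _ = r ^ (2 * L) * (C * r⁻¹ ^ n * N u) * (δ a * δ a⁻¹) := by ring
          _ = _ := by rw [hδa, mul_one]
      rw [pow_succ, mul_assoc] at h4
      have h5 := le_of_mul_le_mul_left h4 (pow_pos hr0 _)
      calc N (y u) = r⁻¹ * (r * N (y u)) := by rw [inv_mul_cancel_left₀ hr0.ne']
        _ ≤ r⁻¹ * (C * r⁻¹ ^ n * N u) := mul_le_mul_of_nonneg_left h5 (by positivity)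
        _ = _ := by ring
  apply hy
  ext u
  have hlim : Filter.Tendsto (fun n : ℕ => C * r⁻¹ ^ n * N u) Filter.atTop (nhds (C * 0 * N u)) :=
    ((tendsto_pow_atTop_nhds_zero_of_lt_one (by positivity)
      (inv_lt_one_of_one_lt₀ hr1)).const_mul C).mul_const _
  have h0 := ge_of_tendsto' hlim fun n => hstep n u
  rw [mul_zero, zero_mul] at h0
  exact hN.eq_zero (le_antisymm h0 (hN.nonneg _))

section core

variable {G V : Type} [Group G] [AddCommGroup V] [Module ℂ V] [Module.Finite ℂ V]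

theorem ulin_rad_kills {W : Type} [AddCommGroup W] [Module ℂ W] {B : SL G ℂ W}
    {φ : G →* Module.End ℂ W} (hφ : ∀ g v, φ g v = B.act g v) {b : ℕ} (hSI : B.SIb b)
    (hb : 1 ≤ b)
    {r : G →* Module.End ℂ V} (h1 : ∀ x, lin_ext r x = 0 → lin_ext φ x = 0)
    {x : MonoidAlgebra ℂ G} (hx : x ∈ lin_rad r) : lin_ext φ x = 0 := by
  ext w
  by_contra hw
  rw [LinearMap.zero_apply] at hw
  let e : MonoidAlgebra ℂ G →ₗ[ℂ] W :=
    (LinearMap.applyₗ (lin_ext φ x w)).comp (lin_ext φ).toLinearMap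
  have he : ∀ y, e y = lin_ext φ y (lin_ext φ x w) := fun y => rfl
  have h2 := ulin_inv_sub hφ hSI ⊤ (bi_top.mono hb) (LinearMap.range e) (by
    rintro g - _ ⟨y, rfl⟩
    refine ⟨MonoidAlgebra.of ℂ G g * y, ?_⟩
    rw [he, he, map_mul, lin_ext_of, Module.End.mul_apply])
  rcases h2 with h2 | h2
  · apply hw
    have : e 1 ∈ LinearMap.range e := ⟨1, rfl⟩
    rw [h2, Submodule.mem_bot, he, map_one] at this
    exact this
  · have : w ∈ LinearMap.range e := h2 ▸ Submodule.mem_top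
    obtain ⟨y, hy⟩ := this
    rw [he, ← Module.End.mul_apply, ← map_mul] at hy
    obtain ⟨n, hn⟩ := lin_rad_nil (lin_rad_mul_left hx y)
    rw [← map_pow] at hn
    have h3 := h1 _ hn
    rw [map_pow] at h3
    have h4 : ∀ k : ℕ, (lin_ext φ (y * x) ^ k) w = w := by
      intro k
      induction k with
      | zero => simp
      | succ k ih => rw [pow_succ, Module.End.mul_apply, hy, ih]
    have h5 := h4 n
    rw [h3, LinearMap.zero_apply] at h5
    apply hw
    rw [← h5, map_zero]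

theorem ulin_finrank_quot (r : G →* Module.End ℂ V) :
    Module.finrank ℂ (MonoidAlgebra ℂ G ⧸ lin_rad r) ≤ Module.finrank ℂ V ^ 2 := by
  have h1 : LinearMap.ker (lin_ext r).toLinearMap ≤ lin_rad r := by
    intro x hx
    rw [lin_mem_rad]
    intro y
    have : lin_ext r x = 0 := hx
    rw [this, zero_mul, map_zero]
  have : Module.Finite ℂ (MonoidAlgebra ℂ G ⧸ LinearMap.ker (lin_ext r).toLinearMap) :=
    Module.Finite.equiv (LinearMap.quotKerEquivRange _).symm
  refine (LinearMap.finrank_le_finrank_of_surjective (f := Submodule.factor h1)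
    (Submodule.factor_surjective h1)).trans ?_
  rw [(LinearMap.quotKerEquivRange _).finrank_eq]
  refine (Submodule.finrank_le _).trans ?_
  rw [Module.finrank_linearMap, sq]

end core

theorem ulin_core (d : ℕ) : ∃ c L : ℕ, ∀ (G V : Type) [Group G] [AddCommGroup V] [Module ℂ V]
    [Module.Finite ℂ V], Module.finrank ℂ V ≤ d → NFL G L → ∀ (r : G →* Module.End ℂ V),
    (∀ g, ∃ n : ℤ, LinearMap.trace ℂ V (r g) = n) → ∀ (κ : Type) (W : κ → Type)
    [∀ k, AddCommGroup (W k)] [∀ k, Module ℂ (W k)] [∀ k, Module.Finite ℂ (W k)]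
    [∀ k, Nontrivial (W k)] (B : ∀ k, SL G ℂ (W k)) (φ : ∀ k, G →* Module.End ℂ (W k)),
    (∀ k, Module.finrank ℂ (W k) ≤ d) →
    (∀ k g v, φ k g v = (B k).act g v) → (∀ k g, (B k).α g = 1) → (∀ k, (B k).SIb c) →
    (∀ k x, lin_ext r x = 0 → lin_ext (φ k) x = 0) →
    (∀ x, (∀ k, lin_ext (φ k) x = 0) → IsNilpotent (lin_ext r x)) → ∀ k : κ,
    Module.finrank ℂ (W k) = 1 := by
  obtain ⟨a₁, L, htr⟩ := traceU (d ^ 2)
  have hm : (1 : ℝ) < 1 + 1 / ((d : ℝ) ^ 2 + 1) := by
    have : 0 < 1 / ((d : ℝ) ^ 2 + 1) := by positivity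
    linarith
  obtain ⟨L₁, hpp⟩ := ulin_pp d L hm
  refine ⟨a₁ + d + 1, L₁, ?_⟩
  intro G V _ _ _ _ hV hG r hr κ W _ _ _ _ B φ hW hφ hα hSI h1 h2 k
  have hc1 : 1 ≤ a₁ + d + 1 := by omega
  have := lin_finite_quot r
  let Q := MonoidAlgebra ℂ G ⧸ lin_rad r
  let e : G → Q := fun g => Submodule.Quotient.mk (MonoidAlgebra.of ℂ G g)
  let ψ : ∀ k, Q →ₗ[ℂ] Module.End ℂ (W k) := fun k =>
    (lin_rad r).liftQ (lin_ext (φ k)).toLinearMap fun x hx =>
      ulin_rad_kills (hφ k) (hSI k) hc1 (h1 k) hx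
  have hψ : ∀ k x, ψ k (Submodule.Quotient.mk x) = lin_ext (φ k) x := fun k x => rfl
  have hψσ : ∀ k g ξ, ψ k (lin_sigma r g ξ) = φ k g * ψ k ξ * φ k g⁻¹ := by
    intro k g ξ
    obtain ⟨x, rfl⟩ := Submodule.Quotient.mk_surjective _ ξ
    rw [lin_sigma_mk, hψ, hψ, map_mul, map_mul, lin_ext_of, lin_ext_of]
  have hψinj : ∀ ξ : Q, (∀ k, ψ k ξ = 0) → ξ = 0 := by
    intro ξ hξ
    obtain ⟨x, rfl⟩ := Submodule.Quotient.mk_surjective _ ξ
    rw [Submodule.Quotient.mk_eq_zero, lin_mem_rad]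
    intro y
    rw [← map_mul]
    refine (LinearMap.isNilpotent_trace_of_isNilpotent (h2 _ fun k => ?_)).eq_zero
    rw [map_mul, ← hψ, hξ, zero_mul]
  let F : G → Q →ₗ[ℂ] ℂ := fun g => (lin_rad r).liftQ (lin_tr r (MonoidAlgebra.of ℂ G g))
    (iInf_le (fun y => LinearMap.ker (lin_tr r y)) _)
  have hF : ∀ g x, F g (Submodule.Quotient.mk x) = lin_tr r (MonoidAlgebra.of ℂ G g) x :=
    fun g x => rfl
  obtain ⟨b, τ, hτ⟩ := lin_int_matrices (lin_sigma r) (AddSubgroup.closure (Set.range e)) (by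
      rw [eq_top_iff]
      rintro ξ -
      obtain ⟨x, rfl⟩ := Submodule.Quotient.mk_surjective _ ξ
      induction x using MonoidAlgebra.induction_on with
      | of g => exact Submodule.subset_span (AddSubgroup.subset_closure ⟨g, rfl⟩)
      | add y z hy hz => exact Submodule.add_mem _ hy hz
      | smul c y hy => exact Submodule.smul_mem _ c hy)
    (by
      intro g ξ hξ
      have hle : AddSubgroup.closure (Set.range e) ≤
          (AddSubgroup.closure (Set.range e)).comap (lin_sigma r g).toAddMonoidHom := by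
        rw [AddSubgroup.closure_le]
        rintro _ ⟨h, rfl⟩
        refine AddSubgroup.subset_closure ⟨g * h * g⁻¹, ?_⟩
        simp only [e, map_mul]
        rfl
      exact hle hξ) F
    (by
      intro ξ hξ
      obtain ⟨x, rfl⟩ := Submodule.Quotient.mk_surjective _ ξ
      rw [Submodule.Quotient.mk_eq_zero]
      exact lin_mem_rad_of hξ)
    (by
      intro g ξ hξ
      induction hξ using AddSubgroup.closure_induction with
      | mem _ h =>
        obtain ⟨h, rfl⟩ := h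
        rw [hF, lin_tr_apply, lin_ext_of, lin_ext_of, ← map_mul]
        exact hr _
      | zero => exact ⟨0, by simp⟩
      | add x y _ _ hx hy =>
        obtain ⟨a, ha⟩ := hx
        obtain ⟨c, hc⟩ := hy
        exact ⟨a + c, by rw [map_add, ha, hc, Int.cast_add]⟩
      | neg x _ hx =>
        obtain ⟨a, ha⟩ := hx
        exact ⟨-a, by rw [map_neg, ha, Int.cast_neg]⟩)
  have hQ : Module.finrank ℂ Q ≤ d ^ 2 :=
    (ulin_finrank_quot r).trans (Nat.pow_le_pow_left hV 2)
  rcases htr _ hQ G τ with ⟨K, -, hK, hU⟩ | hL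
  · refine ulin_dim_one (hφ k) (hSI k) hc1 fun g => ?_
    have h3 := ulin_scalar (hφ k) (hSI k) K (hK.mono (by omega)) (lin_sigma r) (ψ k) (hψσ k) _
      (e g) fun l hl hn => by
      have h4 := lin_list_matrix b (lin_sigma r) τ hτ l
      rw [hU (l.map τ) (fun A hA => by
        obtain ⟨a, ha, rfl⟩ := List.mem_map.1 hA
        exact ⟨a, hl a ha, rfl⟩) (by rw [List.length_map, hn]), lin_cplx_zero,
        LinearEquiv.map_eq_zero_iff] at h4
      rw [h4, LinearMap.zero_apply]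
    rwa [hψ, lin_ext_of] at h3
  · exfalso
    by_cases hD : Module.finrank ℂ Q = 0
    · obtain ⟨a, -, ha⟩ := hL Set.univ Subgroup.closure_univ
      have hE : IsEmpty (Fin (Module.finrank ℂ Q)) := by
        rw [hD]
        infer_instance
      have : (τ a).trace = 0 := by simp [Matrix.trace]
      rw [this, abs_zero] at ha
      omega
    have hm' : 1 + 1 / ((d : ℝ) ^ 2 + 1) ≤ 1 + 1 / (Module.finrank ℂ Q : ℝ) := by
      have h3 : (0 : ℝ) < Module.finrank ℂ Q := by exact_mod_cast Nat.pos_of_ne_zero hD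
      have h4 : (Module.finrank ℂ Q : ℝ) ≤ (d : ℝ) ^ 2 := by exact_mod_cast hQ
      have := one_div_le_one_div_of_le h3 (h4.trans (le_add_of_nonneg_right zero_le_one))
      linarith
    obtain ⟨S, hS⟩ := hG
    obtain ⟨a, ha, hta⟩ := hL S hS.2.1
    obtain ⟨μ, v, hv, hμ, hn⟩ := exists_eigen_of_trace (cplx (τ a)) (by
      rw [lin_cplx_trace, Complex.norm_intCast]
      exact_mod_cast hta)
    have hξ : lin_sigma r a (b.equivFun.symm v) = μ • b.equivFun.symm v := by
      apply b.equivFun.injective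
      rw [map_smul, LinearEquiv.apply_symm_apply, ← hμ, ← hτ, Module.Basis.equivFun_apply,
        ← LinearMap.toMatrix_mulVec_repr b b, ← Module.Basis.equivFun_apply,
        LinearEquiv.apply_symm_apply]
    have hne : ¬ ∀ k, ψ k (b.equivFun.symm v) = 0 := fun h =>
      hv (b.equivFun.symm.map_eq_zero_iff.1 (hψinj _ h))
    push Not at hne
    obtain ⟨k', hk⟩ := hne
    exact hpp G (W k') (B k') (φ k') (hφ k') (hα k') (hW k') ((hSI k').mono (by omega)) S hS a ha
      _ hk μ (by rw [← hψσ, hξ, map_smul]) (hm'.trans hn)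

/-- Follow `exists_triangular` and `lin_core` (copy and adapt; the lemmas `lin_inv_sub`, `lin_schur`,
`lin_scalar`, `lin_dim_one`, `lin_rad_kills` use `SI` only for one subgroup `K`, so `SIb b` with
`BI K b` suffices). Let `a₁, L₀` come from `traceU (d ^ 2)`, put `b = max a₁ d`, take the chain of
`chainU d b` for `lin_sl (lin_rep ρ)` with its group `G`, `BI G a`. The quotient of the group
algebra by the radical of the trace form has dimension at most `d ^ 2`. If the conjugation action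
on its lattice is unipotent on `K ≤ G` with `BI K a₁`, all factors have dimension one. Otherwise a
short element has an eigenvalue of modulus at least `1 + 1 / d ^ 2` under conjugation on some
factor, against `ppU` (`lin_pp`; `τ = 1 / 2`, `C₀ = m!`, `r₀` depends only on `d` and `L₀`). -/
theorem triangularU (d : ℕ) : ∃ a L : ℕ, ∀ (H : Type) [Group H]
    (ρ : H →* Matrix (Fin d) (Fin d) ℤ), NFL H L →
    ∃ H₁ : Subgroup H, BI H₁ a ∧ ∃ b : Module.Basis (Fin d) ℂ (Fin d → ℂ),
      ∀ h ∈ H₁, ∀ i j, i < j → b.repr ((cplx (ρ h)).mulVec (b i)) j = 0 := by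
  obtain ⟨c, L, hcore⟩ := ulin_core d
  obtain ⟨a, hch⟩ := chainU d c
  refine ⟨a, L * (2 * a + 1), ?_⟩
  intro H _ ρ hH
  let A := lin_sl (lin_rep ρ)
  obtain ⟨H₁, l, U, hH₁, -, h0, hl, hlt, hle, hmax⟩ := hch H ℂ (Fin d → ℂ) A ⊥ ⊤ bot_le
    (fun e => by
      show A.sub e ⊥ = ⊥
      ext v
      rw [A.mem_sub, Submodule.mem_bot, Submodule.mem_bot]
      refine ⟨fun h => ?_, fun h => by rw [h, map_zero]⟩
      have h2 : A.act e (A.act e⁻¹ v) = v := by
        have h3 : A.act e * A.act e⁻¹ = 1 := by rw [← map_mul, mul_inv_cancel, map_one]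
        exact DFunLike.congr_fun h3 v
      rw [← h2, h, map_zero])
    (fun e => by
      show A.sub e ⊤ = ⊤
      ext v
      rw [A.mem_sub]
      simp)
    (by simp)
  have hinv : ∀ k ≤ l, ∀ h ∈ H₁, ∀ v ∈ U k, lin_rep ρ h v ∈ U k := by
    intro k hk h hh v hv
    have h1 : A.sub h (U k) = U k := hle k hk hh
    rw [← h1]
    exact ⟨v, hv, rfl⟩
  let r : H₁ →* Module.End ℂ (Fin d → ℂ) := (lin_rep ρ).comp H₁.subtype
  have hB : ∀ k : Fin l, ∃ B : SL H₁ ℂ (SL.SQ (U k) (U (k + 1))), (∀ g, B.α g = 1) ∧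
      ∀ (e : H₁) (v w : U (k + 1)), (w : Fin d → ℂ) = A.act e v →
        B.act e (Submodule.Quotient.mk v) = Submodule.Quotient.mk w := by
    intro k
    obtain ⟨B, hB1, hB2⟩ := (A.comp H₁.subtype).exists_subquot (U₀ := U k) (U₁ := U (k + 1))
      (fun e => hle k k.2.le e.2) (fun e => hle (k + 1) k.2 e.2)
    exact ⟨B, fun g => by rw [hB1]; rfl, hB2⟩
  choose B hα hB using hB
  have hSI : ∀ k, (B k).SIb c := fun k =>
    A.sib_subquot (hlt k k.2).le (hmax k k.2) (B k) (hB k) (hle k k.2.le) (hle (k + 1) k.2)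
  have hnt : ∀ k : Fin l, Nontrivial (SL.SQ (U k) (U (k + 1))) := fun k => by
    apply Module.nontrivial_of_finrank_pos (R := ℂ)
    have h1 := lin_finrank_sq (hlt k k.2).le
    have h2 := Submodule.finrank_lt_finrank_of_lt (hlt k k.2)
    omega
  let φ : ∀ k : Fin l, H₁ →* Module.End ℂ (SL.SQ (U k) (U (k + 1))) :=
    fun k => lin_of_sl (B k) (hα k)
  have hcomp : ∀ (k : Fin l) (x : MonoidAlgebra ℂ H₁) (v : U (k + 1)), ∃ w : U (k + 1),
      (w : Fin d → ℂ) = lin_ext r x v ∧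
        lin_ext (φ k) x (Submodule.Quotient.mk v) = Submodule.Quotient.mk w := by
    intro k x v
    induction x using MonoidAlgebra.induction_on with
    | of g =>
      rw [lin_ext_of, lin_ext_of]
      exact ⟨⟨_, hinv (k + 1) k.2 g g.2 v v.2⟩, rfl, hB k g v _ rfl⟩
    | add y z hy hz =>
      obtain ⟨w, e1, e2⟩ := hy
      obtain ⟨w', e1', e2'⟩ := hz
      refine ⟨w + w', ?_, ?_⟩
      · rw [map_add, LinearMap.add_apply, ← e1, ← e1', Submodule.coe_add]
      · rw [map_add, LinearMap.add_apply, e2, e2', Submodule.Quotient.mk_add]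
    | smul c y hy =>
      obtain ⟨w, e1, e2⟩ := hy
      refine ⟨c • w, ?_, ?_⟩
      · rw [map_smul, LinearMap.smul_apply, ← e1, Submodule.coe_smul]
      · rw [map_smul, LinearMap.smul_apply, e2, Submodule.Quotient.mk_smul]
  have hone := hcore H₁ (Fin d → ℂ) (by simp) (hH.sub hH₁) r (fun g => ⟨(ρ g).trace, by
      rw [← lin_cplx_trace]
      exact Matrix.trace_toLin'_eq _⟩)
    (Fin l) (fun k : Fin l => SL.SQ (U k) (U (k + 1))) B φ
    (fun k => by
      have h1 := lin_finrank_sq (hlt k k.2).le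
      have h2 := Submodule.finrank_le (U (k + 1))
      rw [Module.finrank_fin_fun] at h2
      omega)
    (fun _ _ _ => rfl) hα hSI
    (by
      intro k x hx
      refine LinearMap.ext fun ξ => ?_
      obtain ⟨v, rfl⟩ := Submodule.Quotient.mk_surjective _ ξ
      obtain ⟨w, e1, e2⟩ := hcomp k x v
      rw [hx, LinearMap.zero_apply] at e1
      have : w = 0 := Subtype.ext e1
      rw [e2, this]
      rfl)
    (by
      intro x hx
      have h1 : ∀ k ≤ l, ∀ v ∈ U k, (lin_ext r x ^ k) v = 0 := by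
        intro k
        induction k with
        | zero =>
          intro _ v hv
          rw [h0, Submodule.mem_bot] at hv
          rw [hv, map_zero]
        | succ k ih =>
          intro hk v hv
          obtain ⟨w, e1, e2⟩ := hcomp ⟨k, hk⟩ x ⟨v, hv⟩
          rw [hx, LinearMap.zero_apply, eq_comm, Submodule.Quotient.mk_eq_zero] at e2
          rw [pow_succ, Module.End.mul_apply]
          refine ih (by omega) _ ?_
          have e3 : (w : Fin d → ℂ) ∈ U k := e2
          rwa [e1] at e3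
      refine ⟨l, LinearMap.ext fun v => h1 l le_rfl v ?_⟩
      rw [hl]
      exact Submodule.mem_top)
  obtain ⟨hld, b, hb⟩ := lin_flag_basis U h0 hl hlt fun k hk => by
    have h1 := lin_finrank_sq (hlt k hk).le
    have h2 : Module.finrank ℂ (SL.SQ (U k) (U (k + 1))) = 1 := hone ⟨k, hk⟩
    omega
  refine ⟨H₁, hH₁, b, fun h hh i j hij => (hb i).2 _ ?_ j hij⟩
  exact hinv (i + 1) (by omega) h hh _ (hb i).1

end Pool.Agent.Lib.MP_9ac97d_al
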