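import Pool.Agent.Lib.MP_9ac97d_al.ULin

/-!
# The weight dichotomy with bounded index (task UWeight)
-/

set_option autoImplicit false

noncomputable section

open Pointwise

namespace Pool.Agent.Lib.MP_9ac97d_al

section Aux

variable {H R : Type} [Group H] [Ring R] [Algebra ℚ R] (σ : H →* R)

/-- Conjugation by `σ h`. -/
def uweight_ad : H →* Module.End ℚ R where
  toFun h := LinearMap.mulLeft ℚ (σ h) ∘ₗ LinearMap.mulRight ℚ (σ h⁻¹)
  map_one' := by ext x; simp
  map_mul' g h := by ext x; simp [mul_assoc]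

theorem uweight_ad_apply (h : H) (x : R) : uweight_ad σ h x = σ h * (x * σ h⁻¹) := rfl

theorem uweight_ad_mul (h : H) (x y : R) :
    uweight_ad σ h (x * y) = uweight_ad σ h x * uweight_ad σ h y := by
  simp only [uweight_ad_apply, mul_assoc]
  rw [← mul_assoc (σ h⁻¹), ← map_mul, inv_mul_cancel, map_one, one_mul]

theorem uweight_ad_sub (h u : H) : uweight_ad σ h (σ u - 1) = σ (h * u * h⁻¹) - 1 := by
  rw [uweight_ad_apply, sub_mul, mul_sub, one_mul, ← map_mul σ h h⁻¹, mul_inv_cancel, map_one,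
    map_mul, map_mul, mul_assoc]

/-- The span of the `σ u - 1` for `u` in the commutator subgroup. -/
def uweight_J : Submodule ℚ R := Submodule.span ℚ {x | ∃ u ∈ commutator H, σ u - 1 = x}

theorem uweight_mem {u : H} (hu : u ∈ commutator H) : σ u - 1 ∈ uweight_J σ :=
  Submodule.subset_span ⟨u, hu, rfl⟩

theorem uweight_inv (h : H) (x : R) (hx : x ∈ uweight_J σ) : uweight_ad σ h x ∈ uweight_J σ := by
  have : uweight_J σ ≤ (uweight_J σ).comap (uweight_ad σ h) := by
    refine Submodule.span_le.2 ?_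
    rintro _ ⟨u, hu, rfl⟩
    change uweight_ad σ h (σ u - 1) ∈ uweight_J σ
    rw [uweight_ad_sub]
    exact uweight_mem σ (Subgroup.Normal.conj_mem inferInstance u hu h)
  exact this hx

theorem uweight_inv_pow (k : ℕ) (h : H) (x : R) (hx : x ∈ uweight_J σ ^ (k + 1)) :
    uweight_ad σ h x ∈ uweight_J σ ^ (k + 1) := by
  induction k generalizing x with
  | zero =>
    rw [zero_add, pow_one] at hx ⊢
    exact uweight_inv σ h x hx
  | succ k ih =>
    rw [pow_succ] at hx ⊢
    refine Submodule.mul_induction_on hx (fun y hy z hz => ?_) fun y z hy hz => ?_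
    · rw [uweight_ad_mul]
      exact Submodule.mul_mem_mul (ih y hy) (uweight_inv σ h z hz)
    · rw [map_add]
      exact add_mem hy hz

omit [Algebra ℚ R] in
theorem uweight_mul_eq (u v : H) :
    σ (u * v) - 1 = (σ u - 1) + (σ v - 1) + (σ u - 1) * (σ v - 1) := by
  rw [map_mul]
  noncomm_ring

theorem uweight_sq : uweight_J σ * uweight_J σ ≤ uweight_J σ := by
  rw [uweight_J, Submodule.span_mul_span]
  refine Submodule.span_le.2 ?_
  rintro _ ⟨_, ⟨u, hu, rfl⟩, _, ⟨v, hv, rfl⟩, rfl⟩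
  have e : (σ u - 1) * (σ v - 1) = (σ (u * v) - 1) - (σ u - 1) - (σ v - 1) := by
    rw [uweight_mul_eq]
    abel
  change (σ u - 1) * (σ v - 1) ∈ uweight_J σ
  rw [e]
  exact sub_mem (sub_mem (uweight_mem σ (mul_mem hu hv)) (uweight_mem σ hu)) (uweight_mem σ hv)

theorem uweight_pow_le (k : ℕ) : uweight_J σ ^ (k + 2) ≤ uweight_J σ ^ (k + 1) := by
  rw [pow_succ, pow_succ, mul_assoc]
  exact mul_le_mul' le_rfl (uweight_sq σ)

theorem uweight_list {M : Submodule ℚ R} (hM : ∀ h x, x ∈ M → uweight_ad σ h x ∈ M) (l : List H)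
    {x : R} (hx : x ∈ M) : (l.map fun h => uweight_ad σ h - 1).prod x ∈ M := by
  induction l with
  | nil => exact hx
  | cons h l ih =>
    rw [List.map_cons, List.prod_cons, Module.End.mul_apply]
    exact sub_mem (hM h _ ih) ih

/-- The elements of `M` that are mapped to `N` by all products of at least `k - t` operators. -/
def uweight_W (Γ : Subgroup H) (M N : Submodule ℚ R) (k t : ℕ) : Submodule ℚ R where
  carrier := {x | x ∈ M ∧ ∀ l : List H, (∀ h ∈ l, h ∈ Γ) → k ≤ l.length + t →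
    (l.map fun h => uweight_ad σ h - 1).prod x ∈ N}
  add_mem' := fun hx hy => ⟨add_mem hx.1 hy.1, fun l hl hk => by
    rw [map_add]
    exact add_mem (hx.2 l hl hk) (hy.2 l hl hk)⟩
  zero_mem' := ⟨zero_mem _, fun l _ _ => by rw [map_zero]; exact zero_mem _⟩
  smul_mem' := fun c x hx => ⟨M.smul_mem c hx.1, fun l hl hk => by
    rw [map_smul]
    exact N.smul_mem c (hx.2 l hl hk)⟩

theorem uweight_W_step {Γ : Subgroup H} {M N : Submodule ℚ R}
    (hM : ∀ h x, x ∈ M → uweight_ad σ h x ∈ M) {k t : ℕ} {x : R}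
    (hx : x ∈ uweight_W σ Γ M N k t) {h : H} (hh : h ∈ Γ) :
    uweight_ad σ h x - x ∈ uweight_W σ Γ M N k (t + 1) ∧
      uweight_ad σ h x ∈ uweight_W σ Γ M N k t := by
  have h1 : uweight_ad σ h x - x ∈ uweight_W σ Γ M N k (t + 1) := by
    refine ⟨sub_mem (hM h x hx.1) hx.1, fun l hl hk => ?_⟩
    have h2 := hx.2 (l ++ [h]) (fun g hg => (List.mem_append.1 hg).elim (hl g) fun e => by
      rwa [List.mem_singleton.1 e]) (by rw [List.length_append, List.length_singleton]; omega)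
    rwa [List.map_append, List.prod_append, List.map_singleton, List.prod_singleton] at h2
  refine ⟨h1, hM h x hx.1, fun l hl hk => ?_⟩
  have h3 := add_mem (h1.2 l hl (by omega)) (hx.2 l hl hk)
  rwa [← map_add, sub_add_cancel] at h3

theorem uweight_tensor {Γ : Subgroup H} {M N M' N' T : Submodule ℚ R} {k k' : ℕ}
    (hM : ∀ h x, x ∈ M → uweight_ad σ h x ∈ M) (hM' : ∀ h x, x ∈ M' → uweight_ad σ h x ∈ M')
    (h1 : ∀ x ∈ N, ∀ y ∈ M', x * y ∈ T) (h2 : ∀ x ∈ M, ∀ y ∈ N', x * y ∈ T) (l : List H) :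
    (∀ h ∈ l, h ∈ Γ) → ∀ t u x y, x ∈ uweight_W σ Γ M N k t → y ∈ uweight_W σ Γ M' N' k' u →
      k + k' ≤ l.length + t + u → (l.map fun h => uweight_ad σ h - 1).prod (x * y) ∈ T := by
  induction l using List.reverseRecOn with
  | nil =>
    intro _ t u x y hx hy hk
    rw [List.length_nil] at hk
    by_cases h : k ≤ t
    · exact h1 x (hx.2 [] (by simp) (by simpa using h)) y hy.1
    · exact h2 x hx.1 y (hy.2 [] (by simp) (by rw [List.length_nil]; omega))
  | append_singleton l g ih =>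
    intro hl t u x y hx hy hk
    rw [List.length_append, List.length_singleton] at hk
    have hg : g ∈ Γ := hl g (by simp)
    have hl' : ∀ h ∈ l, h ∈ Γ := fun h hh => hl h (List.mem_append_left _ hh)
    have e : (uweight_ad σ g - 1) (x * y) =
        (uweight_ad σ g x - x) * uweight_ad σ g y + x * (uweight_ad σ g y - y) := by
      rw [LinearMap.sub_apply, Module.End.one_apply, uweight_ad_mul]
      noncomm_ring
    rw [List.map_append, List.prod_append, List.map_singleton, List.prod_singleton,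
      Module.End.mul_apply, e, map_add]
    exact add_mem
      (ih hl' (t + 1) u _ _ (uweight_W_step σ hM hx hg).1 (uweight_W_step σ hM' hy hg).2 (by omega))
      (ih hl' t (u + 1) _ _ hx (uweight_W_step σ hM' hy hg).1 (by omega))

theorem uweight_leibniz {Γ : Subgroup H} {r : ℕ} (h0 : ∀ l : List H, (∀ h ∈ l, h ∈ Γ) →
    r ≤ l.length → ∀ x ∈ uweight_J σ, (l.map fun h => uweight_ad σ h - 1).prod x ∈ uweight_J σ ^ 2)
    (c : ℕ) : ∃ k : ℕ, ∀ l : List H, (∀ h ∈ l, h ∈ Γ) → k ≤ l.length →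
      ∀ x ∈ uweight_J σ ^ (c + 1),
        (l.map fun h => uweight_ad σ h - 1).prod x ∈ uweight_J σ ^ (c + 2) := by
  induction c with
  | zero => exact ⟨r, fun l hl hn x hx => h0 l hl hn x (by rwa [zero_add, pow_one] at hx)⟩
  | succ c ih =>
    obtain ⟨k, hk⟩ := ih
    refine ⟨k + r, fun l hl hn x hx => ?_⟩
    rw [pow_succ] at hx
    refine Submodule.mul_induction_on hx (fun y hy z hz => ?_) fun y z hy hz => ?_
    · refine uweight_tensor σ (M := uweight_J σ ^ (c + 1)) (N := uweight_J σ ^ (c + 2))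
        (M' := uweight_J σ) (N' := uweight_J σ ^ 2) (k := k) (k' := r)
        (uweight_inv_pow σ c) (uweight_inv σ) (fun y hy z hz => ?_)
        (fun y hy z hz => ?_) l hl 0 0 y z ⟨hy, fun l hl hk' => hk l hl hk' y hy⟩
        ⟨hz, fun l hl hk' => h0 l hl hk' z hz⟩ hn
      · rw [pow_succ _ (c + 2)]
        exact Submodule.mul_mem_mul hy hz
      · rw [pow_add _ (c + 1) 2]
        exact Submodule.mul_mem_mul hy hz
    · rw [map_add]
      exact add_mem hy hz

theorem uweight_step {Γ K : Subgroup H} {F F' : Submodule ℚ R} (hK : K ≤ commutator H)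
    (hF : ∀ g ∈ K, σ g - 1 ∈ F) (hF' : ∀ x ∈ F', ∀ y ∈ uweight_J σ, x * y ∈ F')
    (had : ∀ h ∈ Γ, ∀ x ∈ F, uweight_ad σ h x - x ∈ F') : ∀ g ∈ ⁅K, Γ⁆, σ g - 1 ∈ F' := by
  let A : Subgroup H :=
    { carrier := {g | g ∈ commutator H ∧ σ g - 1 ∈ F'}
      one_mem' := ⟨one_mem _, by rw [map_one, sub_self]; exact zero_mem _⟩
      mul_mem' := fun {u v} hu hv => ⟨mul_mem hu.1 hv.1, by
        rw [uweight_mul_eq]
        exact add_mem (add_mem hu.2 hv.2) (hF' _ hu.2 _ (uweight_mem σ hv.1))⟩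
      inv_mem' := fun {u} hu => ⟨inv_mem hu.1, by
        have e : σ u⁻¹ - 1 = -(σ u - 1) - (σ u - 1) * (σ u⁻¹ - 1) := by
          have := uweight_mul_eq σ u u⁻¹
          rw [mul_inv_cancel, map_one, sub_self] at this
          rw [← sub_eq_zero, this]
          abel
        rw [e]
        exact sub_mem (neg_mem hu.2) (hF' _ hu.2 _ (uweight_mem σ (inv_mem hu.1)))⟩ }
  have hA : ⁅K, Γ⁆ ≤ A := by
    rw [Subgroup.commutator_comm]
    refine Subgroup.commutator_le.2 fun h hh x hx => ⟨?_, ?_⟩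
    · exact Subgroup.commutator_mem_commutator (Subgroup.mem_top h) (Subgroup.mem_top x)
    · have hy := had h hh _ (hF x hx)
      have e : σ (h * x * h⁻¹ * x⁻¹) - 1 = (uweight_ad σ h (σ x - 1) - (σ x - 1)) +
          (uweight_ad σ h (σ x - 1) - (σ x - 1)) * (σ x⁻¹ - 1) := by
        have e1 : σ x * σ x⁻¹ = 1 := by rw [← map_mul, mul_inv_cancel, map_one]
        rw [uweight_ad_sub, map_mul σ _ x⁻¹, sub_sub_sub_cancel_right, mul_sub, sub_mul, e1,
          mul_one]
        abel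
      rw [commutatorElement_def, e]
      exact add_mem hy (hF' _ hy _ (uweight_mem σ (inv_mem (hK hx))))
  exact fun g hg => (hA hg).2

theorem uweight_nil {Γ : Subgroup H} {r : ℕ} (h0 : ∀ l : List H, (∀ h ∈ l, h ∈ Γ) →
    r ≤ l.length → ∀ x ∈ uweight_J σ, (l.map fun h => uweight_ad σ h - 1).prod x ∈ uweight_J σ ^ 2)
    (k : ℕ) : ∃ c : ℕ, ∀ g ∈ Γ.lowerCentralSeries (c + 1), σ g - 1 ∈ uweight_J σ ^ (k + 1) := by
  have hc : ∀ c, Γ.lowerCentralSeries (c + 1) ≤ commutator H := fun c =>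
    Subgroup.commutator_mono le_top le_top
  induction k with
  | zero => exact ⟨0, fun g hg => by rw [zero_add, pow_one]; exact uweight_mem σ (hc 0 hg)⟩
  | succ k ih =>
    obtain ⟨c, hc'⟩ := ih
    obtain ⟨m, hm⟩ := uweight_leibniz σ h0 k
    have key : ∀ t, ∀ g ∈ Γ.lowerCentralSeries (c + t + 1),
        σ g - 1 ∈ uweight_W σ Γ (uweight_J σ ^ (k + 1)) (uweight_J σ ^ (k + 2)) m t := by
      intro t
      induction t with
      | zero => exact fun g hg => ⟨hc' g hg, fun l hl hk => hm l hl hk _ (hc' g hg)⟩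
      | succ t ih =>
        refine uweight_step σ (hc (c + t)) ih (fun x hx y hy => ?_)
          fun h hh x hx => (uweight_W_step σ (uweight_inv_pow σ k) hx hh).1
        have h1 : x * y ∈ uweight_J σ ^ (k + 2) := by
          rw [pow_succ]
          exact Submodule.mul_mem_mul hx.1 hy
        exact ⟨uweight_pow_le σ k h1, fun l _ _ => uweight_list σ (uweight_inv_pow σ (k + 1)) l h1⟩
    exact ⟨c + m, fun g hg => (key m g hg).2 [] (by simp) (by simp)⟩

/-- The action on the quotient by the square. -/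
def uweight_th : H →* Module.End ℚ (R ⧸ uweight_J σ ^ 2) where
  toFun h := (uweight_J σ ^ 2).mapQ _ (uweight_ad σ h) fun x hx => uweight_inv_pow σ 1 h x hx
  map_one' := by ext x; simp
  map_mul' g h := by ext x; simp

theorem uweight_th_mk (h : H) (x : R) : uweight_th σ h (Submodule.Quotient.mk x) =
    Submodule.Quotient.mk (uweight_ad σ h x) := rfl

theorem uweight_th_list (l : List H) (x : R) :
    (l.map fun h => uweight_th σ h - 1).prod (Submodule.Quotient.mk x) =
      Submodule.Quotient.mk ((l.map fun h => uweight_ad σ h - 1).prod x) := by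
  induction l with
  | nil => rfl
  | cons h l ih =>
    rw [List.map_cons, List.prod_cons, Module.End.mul_apply, ih, List.map_cons, List.prod_cons,
      Module.End.mul_apply]
    rfl

end Aux

/-- A representation with unipotent commutator subgroup has nilpotent image on a subgroup of
bounded index. -/
theorem nilp_imageU (d : ℕ) : ∃ a L : ℕ, ∀ (H : Type) [Group H]
    (ρ : H →* Matrix (Fin d) (Fin d) ℤ), NFL H L → Unip (ρ '' (commutator H : Set H)) →
    ∃ H₁ : Subgroup H, BI H₁ a ∧ ∃ c : ℕ, ∀ g ∈ H₁.lowerCentralSeries c, ρ g = 1 := by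
  obtain ⟨a, L, h⟩ := nilU 1 (d ^ 2)
  refine ⟨a, L, fun H _ ρ hH hU => ?_⟩
  let ι : Matrix (Fin d) (Fin d) ℤ →+* Matrix (Fin d) (Fin d) ℚ := (Int.castRingHom ℚ).mapMatrix
  let σ : H →* Matrix (Fin d) (Fin d) ℚ := ι.toMonoidHom.comp ρ
  have hσ : ∀ g, σ g = ι (ρ g) := fun _ => rfl
  obtain ⟨H₁, h1, h2⟩ := h H (Matrix (Fin d) (Fin d) ℚ ⧸ uweight_J σ ^ 2)
    ((Submodule.finrank_quotient_le _).trans (by simp [Module.finrank_matrix, sq])) hH
    (uweight_th σ) (fun g => Submodule.Quotient.mk (σ g - 1))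
    (fun x hx y hy => by
      rw [← Submodule.Quotient.mk_add, Submodule.Quotient.eq, uweight_mul_eq, add_sub_cancel_left,
        sq]
      exact Submodule.mul_mem_mul (uweight_mem σ hx) (uweight_mem σ hy))
    (fun g x _ => by rw [uweight_th_mk, uweight_ad_sub])
  obtain ⟨c, hc⟩ := uweight_nil σ (Γ := H₁) (r := d ^ 2) (fun l hl hr x hx => by
    have : uweight_J σ ≤ (uweight_J σ ^ 2).comap (l.map fun h => uweight_ad σ h - 1).prod := by
      refine Submodule.span_le.2 ?_
      rintro _ ⟨u, hu, rfl⟩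
      have h3 := h2 l hl hr u hu
      rwa [uweight_th_list, Submodule.Quotient.mk_eq_zero] at h3
    exact this hx) d
  have hJ : uweight_J σ ^ d = ⊥ := by
    rw [uweight_J, Submodule.span_pow, Submodule.span_eq_bot]
    intro x hx
    obtain ⟨f, rfl⟩ := Set.mem_pow.1 hx
    choose u hu hu' using fun i => (f i).2
    have h3 := congrArg ι (hU (List.ofFn fun i => ρ (u i)) (fun A hA => by
      obtain ⟨i, rfl⟩ := (List.mem_ofFn' _ _).1 hA
      exact ⟨u i, hu i, rfl⟩) (by simp))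
    rw [map_zero, map_list_prod, List.map_map, List.map_ofFn] at h3
    rw [← h3]
    congr 2
    funext i
    rw [← hu' i, hσ]
    simp
  refine ⟨H₁, h1, c + 1, fun g hg => ?_⟩
  have h3 := hc g hg
  rw [pow_succ, hJ, Submodule.bot_mul, Submodule.mem_bot, sub_eq_zero, hσ, ← map_one ι] at h3
  exact Matrix.map_injective Int.cast_injective h3

/-- The weight dichotomy with bounded index. -/
theorem weightU (n : ℕ) : ∃ (a L₀ L : ℕ) (ε : ℝ), 0 < ε ∧ ∀ (H : Type) [Group H] (S : Set H)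
    (ρ : H →* Matrix (Fin n) (Fin n) ℤ), NFS S L →
    ∃ H₂ : Subgroup H, H₂.Normal ∧ BI H₂ a ∧ Unip (ρ '' (⁅H₂, H₂⁆ : Subgroup H)) ∧
      (Unip (ρ '' H₂) ∨ ∃ (v : Fin n → ℂ) (lam : H₂ →* ℂ), v ≠ 0 ∧
        (∀ h : H₂, (cplx (ρ h)).mulVec v = lam h • v) ∧
        ∃ h : H₂, (h : H) ∈ ball S L₀ ∧ 1 + ε ≤ ‖lam h‖) := by
  obtain ⟨a₁, L₁, htri⟩ := triangularU n
  obtain ⟨a₂, L₂, hnil⟩ := nilp_imageU n
  obtain ⟨a₃, L₃, htr⟩ := traceU n
  refine ⟨max (a₁ * a₂).factorial ((a₁ * a₂).factorial * a₃).factorial,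
    L₃ * (2 * (a₁ * a₂).factorial + 1), max L₁ (L₂ * (2 * a₁ + 1)), 1 / ((n : ℝ) + 1),
    by positivity, fun H _ S ρ hS => ?_⟩
  obtain ⟨H₁, hH₁, b, hb⟩ := htri H ρ ⟨S, hS.mono (le_max_left _ _)⟩
  let T : H →* Matrix (Fin n) (Fin n) ℂ := (weight_psi b).toMonoidHom.comp ρ
  have hTe : ∀ h, T h = weight_psi b (ρ h) := fun _ => rfl
  have hT : ∀ h ∈ H₁, weight_N 0 (T h) := by
    intro h hh i j hij
    rw [hTe, weight_psi_eq, LinearMap.toMatrix_apply]
    exact hb h hh j i hij
  have hu1 : Unip (ρ '' (⁅H₁, H₁⁆ : Subgroup H)) := by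
    refine weight_unip b ?_
    rintro _ ⟨g, hg, rfl⟩
    exact (weight_comm_le T H₁ hT hg).2
  obtain ⟨H', hH', c, hc⟩ := hnil H₁ (ρ.comp H₁.subtype)
    (NFL.sub ⟨S, hS.mono (le_max_right _ _)⟩ hH₁) (weight_unip_mono hu1 (by
      rintro _ ⟨g, hg, rfl⟩
      refine ⟨g, ?_, rfl⟩
      change (g : H) ∈ H₁.lowerCentralSeries 1
      rw [← Subgroup.top_subtype_lowerCentralSeries]
      exact ⟨g, hg, rfl⟩))
  let H₃ := (H'.map H₁.subtype).normalCore
  have h3' : H₃ ≤ H'.map H₁.subtype := Subgroup.normalCore_le _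
  have h31 : H₃ ≤ H₁ := h3'.trans (Subgroup.map_subtype_le _)
  have hfin : BI H₃ (a₁ * a₂).factorial := (hH₁.map_subtype hH').normalCore
  rcases htr n le_rfl H₃ (ρ.comp H₃.subtype) with ⟨H₄, -, h4, hu⟩ | hL
  · have hu' : Unip (ρ '' (H₄.map H₃.subtype).normalCore) := by
      refine weight_unip_mono hu ?_
      rintro _ ⟨g, hg, rfl⟩
      obtain ⟨g', hg', rfl⟩ := Subgroup.normalCore_le _ hg
      exact ⟨g', hg', rfl⟩
    refine ⟨(H₄.map H₃.subtype).normalCore, inferInstance,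
      (hfin.map_subtype h4).normalCore.mono (le_max_right _ _), ?_, Or.inl hu'⟩
    exact weight_unip_mono hu' (Set.image_mono (Subgroup.commutator_le_left _ _))
  refine ⟨H₃, inferInstance, hfin.mono (le_max_left _ _),
    weight_unip_mono hu1 (Set.image_mono (Subgroup.commutator_mono h31 h31)), Or.inr ?_⟩
  obtain ⟨x, hx, hxt⟩ := hL (H₃.subtype ⁻¹' ball S (2 * (a₁ * a₂).factorial + 1))
    (NFS.sub (L := 0) (hS.mono (by simp)) hfin le_rfl).2.1
  have hxS : (x : H) ∈ ball S (L₃ * (2 * (a₁ * a₂).factorial + 1)) := by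
    refine ball_subset_of_subset (Set.image_preimage_subset H₃.subtype _) L₃ ?_
    rw [ball_image]
    exact ⟨x, hx, rfl⟩
  obtain ⟨k, hk⟩ : ∃ k : Fin n, 1 + 1 / ((n : ℝ) + 1) ≤ ‖T x k k‖ := by
    by_contra hcon
    push Not at hcon
    have h1 : ‖(T x).trace‖ ≤ ∑ _k : Fin n, (1 + 1 / ((n : ℝ) + 1)) :=
      (norm_sum_le _ _).trans (Finset.sum_le_sum fun k _ => (hcon k).le)
    rw [hTe, weight_psi_trace, Complex.norm_intCast, Finset.sum_const, Finset.card_univ,
      Fintype.card_fin, nsmul_eq_mul] at h1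
    have h2 : (n + 2 : ℝ) ≤ |(((ρ x).trace : ℤ) : ℝ)| := by exact_mod_cast hxt
    have h3 : (n : ℝ) * (1 / ((n : ℝ) + 1)) ≤ 1 := by
      rw [mul_one_div, div_le_one (by positivity)]
      linarith
    nlinarith
  obtain ⟨j, p, hp0, hjk, hp⟩ := weight_common (T.comp H₃.subtype) (fun h => hT _ (h31 h.2))
    (c := c) (fun g hg => by
      have h1 : (g : H) ∈ H₃.lowerCentralSeries c := by
        rw [← Subgroup.top_subtype_lowerCentralSeries]
        exact ⟨g, hg, rfl⟩
      have h2 : (g : H) ∈ (H'.map H₁.subtype).lowerCentralSeries c :=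
        Subgroup.lowerCentralSeries_mono c h3' h1
      rw [← Subgroup.map_lowerCentralSeries] at h2
      obtain ⟨g', hg', e⟩ := h2
      have h3 : ρ g = 1 := e ▸ hc g' hg'
      change weight_psi b (ρ g) = 1
      rw [h3, map_one]) k
  let lam : H₃ →* ℂ :=
    { toFun := fun h => T h j j
      map_one' := by rw [OneMemClass.coe_one, map_one, Matrix.one_apply_eq]
      map_mul' := fun g h => by
        rw [Subgroup.coe_mul, map_mul, weight_diag_mul (hT _ (h31 g.2)) (hT _ (h31 h.2))] }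
  refine ⟨b.equivFun.symm p, lam, ?_, fun h => ?_, x, hxS, hk.trans (hjk x).ge⟩
  · exact fun e => hp0 (b.equivFun.symm.map_eq_zero_iff.1 e)
  · apply b.equivFun.injective
    have h1 := LinearMap.toMatrix_mulVec_repr b b (Matrix.toLin' (cplx (ρ h))) (b.equivFun.symm p)
    have h2 : ⇑(b.repr (b.equivFun.symm p)) = p := b.equivFun.apply_symm_apply p
    rw [h2] at h1
    rw [map_smul, LinearEquiv.apply_symm_apply]
    exact h1.symm.trans (hp h)

end Pool.Agent.Lib.MP_9ac97d_al
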