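import Pool.Agent.Lib.MP_9ac97d_al.UHier
import Pool.Agent.Lib.MP_9ac97d_al.ULevU
import Pool.Agent.Lib.MP_9ac97d_al.ULevH
import Pool.Agent.Lib.MP_9ac97d_al.UWeight

/-!
# The induction (task UMain)
-/

set_option autoImplicit false

noncomputable section

open Pointwise

namespace Pool.Agent.Lib.MP_9ac97d_al

theorem umain_unif {n : ℕ} (hm : ∀ k < n, MainU k) (d : ℕ) : ∃ m L : ℕ, ∀ k < n,
    ∀ (E H : Type) [Group E] [Group H] (X : Ext E H k), DG H d → NFL H L →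
      YY (Hm H m) ≤ X.kerIn ⊤ ⊤ := by
  choose m L h using fun k : Fin n => hm k k.2 d
  refine ⟨Finset.univ.sup m, Finset.univ.sup L, fun k hk E H _ _ X h1 h2 => ?_⟩
  exact (yy_mono (hm_anti (Finset.le_sup (Finset.mem_univ (⟨k, hk⟩ : Fin n))))).trans
    (h ⟨k, hk⟩ E H X h1 (h2.mono (Finset.le_sup (Finset.mem_univ (⟨k, hk⟩ : Fin n)))))

theorem exists_six (n : ℕ) : ∃ a : ℕ, ∀ (H : Type) [Group H] (τ : H →* Matrix (Fin n) (Fin n) ℤ),
    ∃ K : Subgroup H, BI K a ∧ ∀ h ∈ K, ∀ i j, (6 : ℤ) ∣ (τ h - 1) i j := by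
  refine ⟨Nat.card (Matrix (Fin n) (Fin n) (ZMod 6))ˣ, fun H _ τ => ?_⟩
  let f : H →* Matrix (Fin n) (Fin n) (ZMod 6) :=
    (Int.castRingHom (ZMod 6)).mapMatrix.toMonoidHom.comp τ
  refine ⟨f.toHomUnits.ker, bi_ker_of_finite _, fun h hh i j => ?_⟩
  have h1 : f h = 1 := congrArg Units.val hh
  have h2 : (Int.castRingHom (ZMod 6)).mapMatrix (τ h - 1) = 0 := by
    rw [map_sub, map_one]
    exact sub_eq_zero.2 h1
  exact (ZMod.intCast_zmod_eq_zero_iff_dvd _ 6).1 (congrFun (congrFun h2 i) j)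

theorem exists_ctx {n : ℕ} (hn : 2 ≤ n) (hm : ∀ k < n, MainU k) (d m₀ : ℕ) :
    ∃ m L : ℕ, m₀ ≤ m ∧ ∀ (E H : Type) [Group E] [Group H] (X : Ext E H n), DG H d → NFL H L →
      ∃ o, X.Ctx (Hm H m) o := by
  obtain ⟨m₁, L₁, h₁⟩ := umain_unif hm (cA n * d)
  obtain ⟨a₂, L₀, L₂, ε, -, h₂⟩ := weightU n
  obtain ⟨a₃, h₃⟩ := exists_six n
  obtain ⟨L₄, h₄⟩ := exists_yy
  set m := m₀ + cA n * m₁ + a₂ + a₃ + cA n with hmdef
  obtain ⟨a₅, h₅⟩ := exists_bi_hm d m
  refine ⟨m, L₁ * (2 * cA n + 1) + L₂ + L₄ * (2 * a₅ + 1), by omega, fun E H _ _ X hd hL => ?_⟩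
  have hu := under_hm (H := H) m
  obtain ⟨τ, hτ⟩ := X.exists_matH
  obtain ⟨S, hS⟩ := hL.mono (L' := L₂) (by omega)
  obtain ⟨H₂, -, hbi, hun, -⟩ := h₂ H S τ hS
  have hG2 : Hm H m ≤ H₂ := hu.le hbi (by omega)
  have hun' : Unip (τ '' (⁅Hm H m, Hm H m⁆ : Subgroup H)) :=
    weight_unip_mono hun (Set.image_mono (Subgroup.commutator_mono hG2 hG2))
  obtain ⟨o, ho⟩ := X.xprop_ordOn hτ hun'
  obtain ⟨K, hK, hK'⟩ := h₃ H τ
  obtain ⟨hfg, hsp⟩ := h₄ H (Hm H m) ((hL.mono (by omega)).sub (h₅ H hd))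
  refine ⟨o, hn, hm_normal m, hd.fg, hu.mono (by omega), hfg, hsp, ho, fun e he => ?_,
    fun e he => ?_, fun E' S' hp hb hS' hr => ?_⟩
  · refine weight_unip_mono (X.xprop_unip hτ hun') (Set.image_mono ?_)
    exact Subgroup.zpowers_le.2 ⟨e, he, rfl⟩
  · rw [← hτ]
    exact hK' _ (hu.le hK (by omega) he)
  · obtain ⟨b⟩ := exists_basis hS'
    have h1 := h₁ _ hr _ _ (X.restrict hp b) (hd.sub hb) ((hL.mono (by omega)).sub hb)
    have h2 := Subgroup.map_mono (f := (E'.map X.π).subtype) h1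
    rw [X.map_kerIn_restrict, Ext.map_emb_top, ← MonoidHom.range_eq_map, Subgroup.range_subtype,
      yy_map] at h2
    exact (yy_mono ((hu.mono (by omega)).le_hm_map hb)).trans h2

theorem exists_level {n : ℕ} (hn : 2 ≤ n) : ∃ a L : ℕ, ∀ (E H : Type) [Group E] [Group H]
    (X : Ext E H n) (G : Subgroup H), NFL H L → Under G a → (YY G).FG →
    YY G ≤ X.kerIn ⊤ ⊤ ∨ ∃ N E₀, X.Lvl (YY G) N E₀ := by
  obtain ⟨a₂, L₀, L₂, ε, hε, h₂⟩ := weightU n
  obtain ⟨a₃, L₃, h₃⟩ := level_unipU n hn a₂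
  obtain ⟨a₄, L₄, h₄⟩ := level_hypU n hn a₂ L₀ hε
  refine ⟨a₃ + a₄, L₂ + L₃ + L₄, fun E H _ _ X G hL hG hfg => ?_⟩
  obtain ⟨τ, hτ⟩ := X.exists_matH
  obtain ⟨S, hS⟩ := hL
  obtain ⟨H₂, hnor, hbi, hun, h | ⟨v, lam, hv, hlam, h⟩⟩ := h₂ H S τ (hS.mono (by omega))
  · exact h₃ E H X H₂ G hnor hbi (X.xprop_unip hτ h) ⟨S, hS.mono (by omega)⟩
      (hG.mono (by omega)) hfg
  · exact Or.inr (h₄ E H X S H₂ G τ v lam hnor hbi hτ hun hv hlam h (hS.mono (by omega))
      (hG.mono (by omega)))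

namespace Ext

variable {E H : Type} [Group E] [Group H] {n : ℕ} (X : Ext E H n)

theorem kerIn_restrictTop {E' : Subgroup E} {S : Subgroup (Fr n)} (h : X.Pair E' S)
    (hon : E'.map X.π = ⊤) {r : ℕ} (b : Fr r ≃* S) (E'' : Subgroup E') (T : Subgroup (Fr r)) :
    (X.restrictTop h hon b).kerIn E'' T = X.kerIn (E''.map E'.subtype) (T.map (emb b)) := by
  rw [← X.map_kerIn_restrict h b, kerIn, kerIn, Subgroup.map_map]
  rfl

theorem stepU {Y : Subgroup H} {E' : Subgroup E} {S : Subgroup (Fr n)} (h : X.BadU Y E' S)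
    (hs : ∀ (X' : Ext E' H n), ¬ Y ≤ X'.kerIn ⊤ ⊤ → ∃ E'' S', X'.BadU Y E'' S' ∧ S' ≠ ⊤) :
    ∃ E'' S', X.BadU Y E'' S' ∧ S' < S := by
  obtain ⟨hp, hon, hfg, hrk, hbad⟩ := h
  obtain ⟨b⟩ : Nonempty (Fr n ≃* S) := by
    have := exists_basis hfg
    rwa [hrk] at this
  obtain ⟨E'', T, ⟨hp', hon', hfg', hrk', hbad'⟩, hT⟩ := hs (X.restrictTop hp hon b) fun hY => by
    rw [X.kerIn_restrictTop, map_emb_top, ← MonoidHom.range_eq_map, Subgroup.range_subtype] at hY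
    exact hbad hY
  refine ⟨E''.map E'.subtype, T.map (emb b), ⟨X.pair_of_restrict hp b ⟨hp'.le, hp'.cap⟩, ?_,
    xmain_fg_map hfg' _, (rk_map _ (emb_injective b) T).trans hrk', fun h1 => hbad' ?_⟩, ?_⟩
  · rw [Subgroup.map_map]
    exact hon'
  · rwa [X.kerIn_restrictTop]
  · refine lt_of_le_of_ne ((Subgroup.map_mono le_top).trans (map_emb_top b).le) fun h1 => hT ?_
    exact Subgroup.map_injective (emb_injective b) (h1.trans (map_emb_top b).symm)

end Ext

theorem mainU_of_le_one {n : ℕ} (hn : n ≤ 1) : MainU n := by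
  intro d
  have := XRes_finite hn
  refine ⟨Nat.card (MulAut (Fr n)), 0, fun E H _ _ X _ _ => (yy_le _).trans ?_⟩
  refine (under_hm _ _ ((bi_ker_of_finite X.ρ).map_surj X.π X.surj)).trans ?_
  refine Subgroup.map_mono fun e he => ⟨trivial, fun s _ => ?_⟩
  rw [MonoidHom.mem_ker.1 he]
  rfl

theorem mainU (n : ℕ) : MainU n := by
  induction n using Nat.strong_induction_on with
  | _ n hm =>
    rcases le_or_gt n 1 with hn | hn
    · exact mainU_of_le_one hn
    intro d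
    obtain ⟨a, L₁, h₁⟩ := exists_level hn
    obtain ⟨m, L₂, ham, h₂⟩ := exists_ctx hn hm d a
    refine ⟨m, L₁ + L₂, fun E H _ _ X hd hL => ?_⟩
    have htop : ∀ (E' : Type) [Group E'] (X' : Ext E' H n), ¬ YY (Hm H m) ≤ X'.kerIn ⊤ ⊤ →
        ∃ E'' S', X'.BadU (YY (Hm H m)) E'' S' ∧ S' ≠ ⊤ := by
      intro E' _ X' hb
      obtain ⟨o, hc⟩ := h₂ E' H X' hd (hL.mono (by omega))
      exact X'.step_ctx hc
        (h₁ E' H X' _ (hL.mono (by omega)) ((under_hm m).mono ham) hc.fg) hb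
    by_contra hb
    obtain ⟨o, hc⟩ := h₂ E H X hd (hL.mono (by omega))
    obtain ⟨V, hV⟩ := X.core_ltU hc
    obtain ⟨A, hA, hcl⟩ := finite_classes n V
    have h0 : X.BadU (YY (Hm H m)) ⊤ ⊤ := ⟨⟨fun e _ => X.mem_norm.2 (by
      rw [eq_top_iff]
      intro x _
      rw [Subgroup.mem_pointwise_smul_iff_inv_smul_mem]
      trivial), fun g => by simp⟩, Subgroup.map_top_of_surjective _ X.surj,
      Group.FG.out, rk_top n, hb⟩
    have hstep : ∀ p : {p : Subgroup E × Subgroup (Fr n) // X.BadU (YY (Hm H m)) p.1 p.2},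
        ∃ q : {p : Subgroup E × Subgroup (Fr n) // X.BadU (YY (Hm H m)) p.1 p.2},
          q.1.2 < p.1.2 := fun p => by
      obtain ⟨E'', S', h1, h2⟩ := X.stepU p.2 (htop _)
      exact ⟨⟨(E'', S'), h1⟩, h2⟩
    choose f hf using hstep
    let s := fun k : ℕ => f^[k] ⟨(⊤, ⊤), h0⟩
    have hanti : StrictAnti fun k => (s k).1.2 := strictAnti_nat_of_succ_lt fun k => by
      simp only [s, Function.iterate_succ_apply']
      exact hf _
    choose g hg using fun k => hcl (s k).1.2 (s k).2.fg (hV _ _ (s k).2).le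
    obtain ⟨i, j, hij, he⟩ := Set.Finite.exists_lt_map_eq_of_forall_mem hg hA
    have h1 : MulAut.conj ((g j)⁻¹ * g i) • (s i).1.2 = (s j).1.2 := by
      rw [map_mul, map_inv, mul_smul, he, inv_smul_smul]
    have h2 := conj_eq_of_le (s i).2.fg (h1.le.trans (hanti hij).le)
    exact (hanti hij).ne (h1.symm.trans h2)

theorem umain_out (n d : ℕ) : ∃ L : ℕ, ∀ {Q : Type} [Group Q] (q : MulAut (Fr n) →* Q),
    Function.Surjective q → (∀ e, q e = 1 ↔ ∃ g, MulAut.conj g = e) → ∀ K : Subgroup Q,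
    DG K d → NFL K L → FF (⊥ : Subgroup K) := by
  obtain ⟨m, L, h⟩ := mainU n d
  obtain ⟨a, ha⟩ := exists_bi_hm d m
  refine ⟨L, fun {Q} _ q hs hq K hd hK => ?_⟩
  let X : Ext (K.comap q) K n :=
    { π := q.subgroupComap K
      ρ := (K.comap q).subtype
      j := (MulAut.conj : Fr n →* MulAut (Fr n)).codRestrict _ fun g => by
        rw [Subgroup.mem_comap, (hq _).2 ⟨g, rfl⟩]
        exact K.one_mem
      surj := q.subgroupComap_surjective_of_surjective K hs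
      ker := by
        ext e
        rw [MonoidHom.mem_ker, MonoidHom.mem_range, Subtype.ext_iff]
        simp only [Subtype.ext_iff]
        exact hq e
      ρ_j := fun _ => rfl
      conj_j := fun e g => Subtype.ext (xmain_conj e g) }
  refine ⟨Hm K m, (ha K hd).finiteIndex, 2, (h _ _ X hd hK).trans ?_⟩
  rintro _ ⟨e, he, rfl⟩
  have h1 : e = 1 := Subtype.ext (MulEquiv.ext fun x => he.2 x trivial)
  rw [h1, map_one]
  exact Subgroup.one_mem _

/-- Uniform uniform exponential growth for subgroups with boundedly many generators. -/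
theorem uegU (n d : ℕ) : ∃ c : ℝ, 1 < c ∧ ∀ T : Finset (MulAut (Fr n) ⧸
      Subgroup.normalClosure (Set.range (MulAut.conj : Fr n →* MulAut (Fr n)))), T.card ≤ d →
    (∃ b : ℝ, 1 < b ∧ ∀ k : ℕ, b ^ k ≤ ((ball (T : Set (MulAut (Fr n) ⧸
      Subgroup.normalClosure (Set.range (MulAut.conj : Fr n →* MulAut (Fr n))))) k).ncard : ℝ)) →
    ∀ S : Set (MulAut (Fr n) ⧸
      Subgroup.normalClosure (Set.range (MulAut.conj : Fr n →* MulAut (Fr n)))), S.Finite →
      Subgroup.closure S = Subgroup.closure ↑T → ∀ k : ℕ, c ^ k ≤ ((ball S k).ncard : ℝ) := by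
  classical
  obtain ⟨L, hL⟩ := umain_out n d
  obtain ⟨c, hc, hc'⟩ := exists_c L
  refine ⟨c, hc, fun T hT ⟨b, hb, hb'⟩ S hS hST => hc' _ S hS fun hno => ?_⟩
  have hn : (MulAut.conj : Fr n →* MulAut (Fr n)).range.Normal :=
    ⟨by rintro _ ⟨g, rfl⟩ e; exact ⟨e g, (xmain_conj e g).symm⟩⟩
  have hN : Subgroup.normalClosure (Set.range (MulAut.conj : Fr n →* MulAut (Fr n))) =
      (MulAut.conj : Fr n →* MulAut (Fr n)).range := by
    rw [← MonoidHom.coe_range]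
    exact Subgroup.normalClosure_eq_self _
  set K := Subgroup.closure (T : Set (MulAut (Fr n) ⧸
    Subgroup.normalClosure (Set.range (MulAut.conj : Fr n →* MulAut (Fr n))))) with hK
  have himg : ∀ R : Set _, Subgroup.closure R = K → K.subtype '' (K.subtype ⁻¹' R) = R :=
    fun R hR => Set.image_preimage_eq_of_subset fun x hx =>
      ⟨⟨x, hR ▸ Subgroup.subset_closure hx⟩, rfl⟩
  have hgen : ∀ R : Set _, Subgroup.closure R = K → Subgroup.closure (K.subtype ⁻¹' R) = ⊤ := by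
    rintro R hR
    refine Subgroup.map_injective K.subtype_injective ?_
    rw [MonoidHom.map_closure, himg R hR, hR, ← MonoidHom.range_eq_map, Subgroup.range_subtype]
  have hTf : (K.subtype ⁻¹' (T : Set _)).Finite :=
    T.finite_toSet.preimage K.subtype_injective.injOn
  have hdg : DG K d := by
    refine ⟨hTf.toFinset, le_trans ?_ hT, by rw [hTf.coe_toFinset]; exact hgen _ rfl⟩
    refine Finset.card_le_card_of_injOn K.subtype (fun x hx => ?_) K.subtype_injective.injOn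
    simpa using hx
  have hnf : NFL K L := by
    refine ⟨K.subtype ⁻¹' S, hS.preimage K.subtype_injective.injOn, hgen S hST,
      fun x hx y hy hxy => hno x ?_ y ?_ (gbasic_freePair_map K.subtype K.subtype_injective hxy)⟩
    · rw [← himg S hST, ball_image]
      exact ⟨x, hx, rfl⟩
    · rw [← himg S hST, ball_image]
      exact ⟨y, hy, rfl⟩
  have hff := hL (QuotientGroup.mk' _) (QuotientGroup.mk'_surjective _) (fun e => by
    rw [QuotientGroup.mk'_apply, QuotientGroup.eq_one_iff, hN, MonoidHom.mem_range]) K hdg hnf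
  refine (polyGrowth_of_ff hff hTf (hgen _ rfl)).not_exp hb fun k => ?_
  rw [← Set.ncard_image_of_injective _ K.subtype_injective, ← ball_image, himg _ rfl]
  exact hb' k

end Pool.Agent.Lib.MP_9ac97d_al
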