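import Pool.Agent.Lib.MP_9ac97d_al.UPPAux2

/-!
# Change of basis and contraction for reductions
-/

set_option autoImplicit false
set_option linter.unusedSectionVars false

noncomputable section

namespace Pool.Agent.Lib.MP_9ac97d_al.UP

open Filter

variable {E D V : ℕ → Type} {K : Type} [∀ L, Group (E L)] [∀ L, NormedDivisionRing (D L)]
  [∀ L, AddCommGroup (V L)] [∀ L, Module (D L) (V L)]
  [DivisionRing K] {ω : Ultrafilter ℕ} {Es : ℕ → ℝ} {red : (∀ L, D L) → K}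
  {κ : Type} [Fintype κ] [DecidableEq κ]

theorem pp_change0 (hE : ∀ L, 2 ≤ Es L) (hR : Res ω Es K red) (b : ∀ L, Module.Basis κ (D L) (V L))
    (B : Module.Basis κ K (κ → K)) :
    ∃ b' : ∀ L, Module.Basis κ (D L) (V L),
      (∀ i, MV ω Es b (fun L => b' L i) ∧ rv red b (fun L => b' L i) = B i) ∧
      ∀ v, MV ω Es b v → ∀ i, (Mod ω Es fun L => (b' L).repr (v L) i) ∧
        red (fun L => (b' L).repr (v L) i) = B.repr (rv red b v) i := by
  choose v hv hv' using fun i => pp_rv_surj hR b (B i)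
  let Q : ∀ L, Matrix κ κ (D L) := fun L i j => (b L).repr (v i L) j
  have hQ : ∀ i j, red (fun L => Q L i j) = B i j := fun i j => congrFun (hv' i) j
  have hexp : ∀ (y : κ → K) (k : κ), B.repr y k = ∑ j, y j * B.repr (Pi.single j 1) k := by
    intro y k
    conv_lhs => rw [← (Pi.basisFun K κ).sum_repr y]
    rw [map_sum, Finsupp.finsetSum_apply]
    refine Finset.sum_congr rfl fun j _ => ?_
    simp
  obtain ⟨Q', hQ', hinv⟩ := hR.exists_inv hE Q (fun i j => hv i j)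
    (Matrix.of fun j k => B.repr (Pi.single j 1) k) (by
      ext i k
      simp only [Matrix.mul_apply, Matrix.of_apply, hQ]
      rw [← hexp, B.repr_self, Finsupp.single_apply, Matrix.one_apply])
  have hb : ∀ L, ∃ b' : Module.Basis κ (D L) (V L), Q L * Q' L = 1 ∧ Q' L * Q L = 1 →
      (∀ i j, (b L).repr (b' i) j = Q L i j) ∧
        ∀ x i, b'.repr x i = ∑ j, (b L).repr x j * Q' L j i := by
    intro L
    by_cases h : Q L * Q' L = 1 ∧ Q' L * Q L = 1
    · obtain ⟨b', hb'⟩ := pp_basis_of_inv (b L) h.1 h.2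
      exact ⟨b', fun _ => hb'⟩
    · exact ⟨b L, fun h' => absurd h' h⟩
  choose b' hb' using hb
  have hev := hinv.mono fun L hL => hb' L hL
  have hQQ : ∀ k i, ∑ j, B k j * red (fun L => Q' L j i) = if k = i then 1 else 0 := by
    intro k i
    rw [← pp_red_ite hE hR]
    simp only [← hQ]
    rw [← pp_red_sum hE hR (x := fun j L => Q L k j) (fun j => hv k j) fun j => hQ' j i]
    refine pp_red_congr hE hR (pp_mod_sum hE (x := fun j L => Q L k j) (fun j => hv k j)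
      fun j => hQ' j i) (hinv.mono fun L hL => ?_)
    rw [← Matrix.mul_apply, hL.1, Matrix.one_apply]
  refine ⟨b', fun i => ⟨fun j => ?_, funext fun j => ?_⟩, fun x hx i => ?_⟩
  · exact pp_mod_congr (hv i j) (hev.mono fun L hL => (hL.1 i j).symm)
  · rw [← hQ]
    exact (pp_red_congr hE hR (hv i j) (hev.mono fun L hL => (hL.1 i j).symm)).symm
  · have hm := pp_mod_sum hE hx fun j => hQ' j i
    refine ⟨pp_mod_congr hm (hev.mono fun L hL => (hL.2 _ i).symm), ?_⟩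
    rw [← pp_red_congr hE hR hm (hev.mono fun L hL => (hL.2 _ i).symm),
      pp_red_sum hE hR hx fun j => hQ' j i]
    show ∑ j, rv red b x j * _ = _
    generalize rv red b x = y
    conv_lhs => rw [← B.sum_repr y]
    simp only [Finset.sum_apply, Pi.smul_apply, smul_eq_mul, Finset.sum_mul, mul_assoc]
    rw [Finset.sum_comm]
    simp only [← Finset.mul_sum, hQQ]
    simp

theorem pp_change (hE : ∀ L, 2 ≤ Es L) (hR : Res ω Es K red) (b : ∀ L, Module.Basis κ (D L) (V L))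
    {κ' : Type} [Fintype κ'] (B : Module.Basis κ' K (κ → K)) :
    ∃ b' : ∀ L, Module.Basis κ' (D L) (V L),
      (∀ i, MV ω Es b (fun L => b' L i) ∧ rv red b (fun L => b' L i) = B i) ∧
      ∀ v, MV ω Es b v → ∀ i, (Mod ω Es fun L => (b' L).repr (v L) i) ∧
        red (fun L => (b' L).repr (v L) i) = B.repr (rv red b v) i := by
  let e : κ' ≃ κ := B.indexEquiv (Pi.basisFun K κ)
  obtain ⟨b', h1, h2⟩ := pp_change0 hE hR b (B.reindex e)
  refine ⟨fun L => (b' L).reindex e.symm, fun i => ?_, fun v hv i => ?_⟩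
  · simpa using h1 (e i)
  · simpa using h2 v hv (e i)

theorem pp_mod_unif (hE : ∀ L, 2 ≤ Es L) {ι : Type} [Finite ι] {x : ι → ∀ L, D L}
    (hx : ∀ i, Mod ω Es (x i)) :
    ∃ C : ℕ, ∀ᶠ L in (ω : Filter ℕ), ∀ i, ‖x i L‖ ≤ Es L ^ C := by
  choose C hC using hx
  obtain ⟨c, hc⟩ := (Set.finite_range C).bddAbove
  refine ⟨c, (eventually_all.2 hC).mono fun L hL i => (hL i).trans ?_⟩
  exact pow_le_pow_right₀ (by linarith [hE L]) (hc ⟨i, rfl⟩)

theorem pp_neg_sum (hE : ∀ L, 2 ≤ Es L) {ι : Type} [Fintype ι] {x : ι → ∀ L, D L}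
    (hx : ∀ i, Neg ω Es (x i)) (k : ℕ) :
    ∀ᶠ L in (ω : Filter ℕ), (∑ i, ‖x i L‖) * Es L ^ k ≤ 1 := by
  obtain ⟨a, ha⟩ := pp_exists_pow hE (Fintype.card ι)
  refine (eventually_all.2 fun i => hx i (k + a)).mono fun L hL => ?_
  have hp : 0 < Es L ^ a := pow_pos (by linarith [hE L]) _
  have h1 : (∑ i, ‖x i L‖) * Es L ^ k * Es L ^ a ≤ Fintype.card ι := by
    rw [mul_assoc, ← pow_add, Finset.sum_mul]
    calc ∑ i, ‖x i L‖ * Es L ^ (k + a) ≤ ∑ _i : ι, (1 : ℝ) := Finset.sum_le_sum fun i _ => hL i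
      _ = _ := by simp
  exact le_of_mul_le_mul_right (by linarith [ha L]) hp

variable {A : ∀ L, SL (E L) (D L) (V L)} {b : ∀ L, Module.Basis κ (D L) (V L)}

theorem pp_contr (hE : ∀ L, 2 ≤ Es L) (hR : Res ω Es K red) {p q : ℕ}
    (B : Module.Basis (Fin p ⊕ Fin q) K (κ → K)) {b' : ∀ L, Module.Basis (Fin p ⊕ Fin q) (D L) (V L)}
    (h1 : ∀ i, MV ω Es b (fun L => b' L i) ∧ rv red b (fun L => b' L i) = B i)
    (h2 : ∀ v, MV ω Es b v → ∀ i, (Mod ω Es fun L => (b' L).repr (v L) i) ∧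
      red (fun L => (b' L).repr (v L) i) = B.repr (rv red b v) i)
    {g : ∀ L, E L} {c : ∀ L, D L} {f : AddMonoid.End (κ → K)} (hc : ∀ L, c L ≠ 0)
    (h : Rep ω Es red A b g c f)
    (hin : ∀ y, f y ∈ Submodule.span K (Set.range fun i => B (Sum.inl i)))
    (hsp : ∀ i, B (Sum.inl i) ∈ Submodule.span K (Set.range fun i => f (B (Sum.inl i)))) :
    ∃ (C : ℕ) (ε : ℕ → ℝ), (∀ L, 0 ≤ ε L) ∧
      (∀ k : ℕ, ∀ᶠ L in (ω : Filter ℕ), ε L * Es L ^ k ≤ 1) ∧
      ∀ᶠ L in (ω : Filter ℕ), (A L).Contr (b' L) (g L) (Es L ^ C) (ε L) := by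
  have hM : ∀ i j, (Mod ω Es fun L => (A L).mtx (b' L) (c L) (g L) i j) ∧
      red (fun L => (A L).mtx (b' L) (c L) (g L) i j) = B.repr (f (B i)) j := by
    intro i j
    obtain ⟨h3, h4⟩ := h _ (h1 i).1
    simp only [pp_mtx_eq]
    rw [← (h1 i).2, h4]
    exact h2 _ h3 j
  have hz : ∀ w ∈ Submodule.span K (Set.range fun i => B (Sum.inl i)), ∀ j,
      B.repr w (Sum.inr j) = 0 := by
    intro w hw j
    obtain ⟨d, rfl⟩ := (Submodule.mem_span_range_iff_exists_fun K).1 hw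
    simp [Finsupp.finsetSum_apply]
  have hneg : ∀ x : (Fin p ⊕ Fin q) × Fin q,
      Neg ω Es fun L => (A L).mtx (b' L) (c L) (g L) x.1 (Sum.inr x.2) := fun x =>
    (hR.zero_iff _ (hM _ _).1).1 (by rw [(hM _ _).2]; exact hz _ (hin _) _)
  choose d hd using fun i => (Submodule.mem_span_range_iff_exists_fun K).1 (hsp i)
  obtain ⟨Q, hQ, hinv⟩ := hR.exists_inv hE (fun L => ((A L).mtx (b' L) (c L) (g L)).toBlocks₁₁)
    (fun i j => (hM _ _).1) (Matrix.of d) (by
      rw [mul_eq_one_comm]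
      ext i j
      have h3 := congrArg (fun w => B.repr w (Sum.inl j)) (hd i)
      simp only [map_sum, map_smul, Finsupp.finsetSum_apply, Finsupp.smul_apply, smul_eq_mul,
        B.repr_self, Finsupp.single_apply, Sum.inl.injEq] at h3
      rw [Matrix.one_apply, ← h3, Matrix.mul_apply]
      refine Finset.sum_congr rfl fun k _ => ?_
      rw [← (hM _ _).2]
      rfl)
  obtain ⟨C₁, hC₁⟩ := pp_mod_unif hE (x := fun x : Fin p × Fin p => fun L => Q L x.1 x.2)
    fun x => hQ _ _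
  obtain ⟨C₂, hC₂⟩ := pp_mod_unif hE
    (x := fun x : Fin q × Fin p => fun L => (A L).mtx (b' L) (c L) (g L) (Sum.inr x.1) (Sum.inl x.2))
    fun x => (hM _ _).1
  refine ⟨C₁ + C₂, fun L => ∑ x : (Fin p ⊕ Fin q) × Fin q,
    ‖(A L).mtx (b' L) (c L) (g L) x.1 (Sum.inr x.2)‖,
    fun L => Finset.sum_nonneg fun _ _ => norm_nonneg _, pp_neg_sum hE hneg, ?_⟩
  filter_upwards [hinv, hC₁, hC₂] with L hL hL₁ hL₂
  have h1E : (1 : ℝ) ≤ Es L := by linarith [hE L]
  have hs : ∀ i j, ‖(A L).mtx (b' L) (c L) (g L) i (Sum.inr j)‖ ≤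
      ∑ x : (Fin p ⊕ Fin q) × Fin q, ‖(A L).mtx (b' L) (c L) (g L) x.1 (Sum.inr x.2)‖ :=
    fun i j => Finset.single_le_sum
      (f := fun x : (Fin p ⊕ Fin q) × Fin q => ‖(A L).mtx (b' L) (c L) (g L) x.1 (Sum.inr x.2)‖)
      (fun _ _ => norm_nonneg _) (Finset.mem_univ (i, j))
  refine ⟨c L, hc L, ⟨Q L, hL.1, hL.2, fun i j => ?_⟩, fun i j => ?_, fun i j => hs _ _,
    fun i j => hs _ _⟩
  · exact (hL₁ (i, j)).trans (pow_le_pow_right₀ h1E (Nat.le_add_right _ _))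
  · exact (hL₂ (i, j)).trans (pow_le_pow_right₀ h1E (Nat.le_add_left _ _))

theorem pp_inv_bound (hE : ∀ L, 2 ≤ Es L) (hR : Res ω Es K red) {g : ∀ L, E L} {c : ∀ L, D L}
    {f : AddMonoid.End (κ → K)} (hc : ∀ L, c L ≠ 0) (h : Rep ω Es red A b g c f)
    (hf : f ∈ semi K (κ → K)) (hs : Function.Surjective f) :
    ∃ C : ℕ, ∀ᶠ L in (ω : Filter ℕ), ∀ i j,
      ‖(b L).repr ((A L).act (g L)⁻¹ (b L i)) j‖ ≤ ‖c L‖ * Es L ^ C := by
  have hsp : ∀ i : κ, (Pi.single i 1 : κ → K) ∈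
      Submodule.span K (Set.range fun i : κ => f (Pi.single i 1)) := by
    intro i
    obtain ⟨y, hy⟩ := hs (Pi.single i 1)
    have h3 : y ∈ Submodule.span K (Set.range (Pi.basisFun K κ)) := by
      rw [Module.Basis.span_eq]; trivial
    have h4 := pp_semi_sum hf h3
    rw [← Set.range_comp, hy] at h4
    have e : (f ∘ (Pi.basisFun K κ)) = fun i : κ => f (Pi.single i 1) := by
      funext k; simp
    rwa [e] at h4
  choose d hd using fun i => (Submodule.mem_span_range_iff_exists_fun K).1 (hsp i)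
  obtain ⟨Q, hQ, hinv⟩ := hR.exists_inv hE (fun L => (A L).mtx (b L) (c L) (g L))
    (fun i j => (h.mtx hE hR i j).1) (Matrix.of d) (by
      rw [mul_eq_one_comm]
      ext i j
      have h3 := congrFun (hd i) j
      simp only [Finset.sum_apply, Pi.smul_apply, smul_eq_mul] at h3
      rw [Matrix.one_apply, Matrix.mul_apply]
      simp only [Matrix.of_apply, (h.mtx hE hR _ _).2]
      rw [h3, Pi.single_apply]
      by_cases e : i = j
      · simp [e]
      · simp [e, Ne.symm e])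
  obtain ⟨C, hC⟩ := pp_mod_unif hE (x := fun x : κ × κ => fun L => Q L x.1 x.2) fun x => hQ _ _
  refine ⟨C, ?_⟩
  filter_upwards [hinv, hC] with L hL hL₁ i j
  have h3 := (A L).mtx_mul (b L) (hc L) (((A L).α (g L)).symm (c L)⁻¹) (g L) (g L)⁻¹
  have h4 : (A L).mtx (b L) 1 1 = 1 := by
    ext i j
    simp [SL.mtx, Matrix.one_apply, Finsupp.single_apply]
  rw [RingEquiv.apply_symm_apply, mul_inv_cancel₀ (hc L), mul_inv_cancel, h4] at h3
  have h5 := congrArg (· * Q L) h3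
  simp only [Matrix.mul_assoc, hL.1, Matrix.one_mul, Matrix.mul_one] at h5
  have h6 := hL₁ (i, j)
  have h7 : ‖((A L).α (g L)).symm (c L)⁻¹‖ = ‖c L‖⁻¹ := by
    rw [← (A L).iso (g L), RingEquiv.apply_symm_apply, norm_inv]
  simp only [h5, Matrix.map_apply] at h6
  rw [pp_norm_conj (hc L), (A L).iso, SL.mtx, norm_mul, h7] at h6
  have h8 : 0 < ‖c L‖ := norm_pos_iff.2 (hc L)
  rwa [inv_mul_le_iff₀ h8] at h6

end Pool.Agent.Lib.MP_9ac97d_al.UP
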