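import Pool.Agent.Lib.MP_9ac97d_al.UDef
import Pool.Agent.Lib.MP_9ac97d_al.UPPAux3

/-!
# The semigroup of reductions of short words
-/

set_option autoImplicit false
set_option linter.unusedSectionVars false

noncomputable section

namespace Pool.Agent.Lib.MP_9ac97d_al.UP

open Filter

theorem upp_scale {D : Type} [NormedDivisionRing D] {τ : ℝ} (h0 : 0 < τ) (h1 : τ < 1)
    (ht : ∃ t : D, ‖t‖ = τ) {r : ℝ} (hr : 0 < r) : ∃ c : D, c ≠ 0 ∧ τ ≤ ‖c‖ * r ∧ ‖c‖ * r ≤ 1 := by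
  obtain ⟨t, rfl⟩ := ht
  exact pp_exists_scale (norm_pos_iff.1 h0) h1 hr

theorem upp_vol_le {E D V : Type} [Group E] [NormedDivisionRing D] [AddCommGroup V] [Module D V]
    {A : SL E D V} {δ : E →* ℝ} {C : ℝ} (h : A.VolC δ C) {κ : Type} [Fintype κ]
    (b : Module.Basis κ D V) (e : E) (k : ℝ) (hk : ∀ i j, ‖b.repr (A.act e (b i)) j‖ ≤ k) :
    δ e ≤ C * k := by
  refine h.le (b.reindex (Fintype.equivFinOfCardEq (Module.finrank_eq_card_basis b).symm)) e k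
    fun i j => ?_
  rw [Module.Basis.reindex_apply, Module.Basis.repr_reindex_apply]
  exact hk _ _

variable {E H D V : ℕ → Type} [∀ L, Group (E L)] [∀ L, Group (H L)]
  [∀ L, NormedDivisionRing (D L)] [∀ L, AddCommGroup (V L)] [∀ L, Module (D L) (V L)]

variable {K : Type} [DivisionRing K] (ω : Ultrafilter ℕ) (Es : ℕ → ℝ) (red : (∀ L, D L) → K)
  {κ : Type} [Fintype κ] [DecidableEq κ] (A : ∀ L, SL (E L) (D L) (V L)) (b : ∀ L, Module.Basis κ (D L) (V L))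
  (π : ∀ L, E L →* H L) (S : ∀ L, Set (H L)) (N : ℕ → ℕ)

/-- Reductions of short elements. -/
def ppS : Submonoid (AddMonoid.End (κ → K)) where
  carrier := {f | f ∈ semi K (κ → K) ∧ ∃ (a : ℕ) (g : ∀ L, E L) (c : ∀ L, D L),
    Rep ω Es red A b g c f ∧ ∀ L, π L (g L) ∈ ball (S L) (a * N L) ∧ c L ≠ 0}
  one_mem' := ⟨one_mem _, 0, fun _ => 1, fun _ => 1, pp_rep_one fun L v => by simp,
    fun L => ⟨by rw [map_one]; exact one_mem_ball _ _, one_ne_zero⟩⟩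
  mul_mem' := by
    rintro f f' ⟨hf, a, g, c, h, h1⟩ ⟨hf', a', g', c', h', h1'⟩
    refine ⟨mul_mem hf hf', a + a', _, _, h.mul h', fun L => ⟨?_, ?_⟩⟩
    · rw [map_mul, add_mul]; exact mul_mem_ball (h1 L).1 (h1' L).1
    · exact mul_ne_zero (h1 L).2 ((map_ne_zero _).2 (h1' L).2)

/-- Reductions of long blocks, normalized by the extremal growth rate. -/
def ppT (δ : ∀ L, E L →* ℝ) (ρ : ℕ → ℝ) : Set (AddMonoid.End (κ → K)) :=
  {f | f ∈ semi K (κ → K) ∧ ∃ (a : ℕ) (g : ∀ L, E L) (c : ∀ L, D L), a ≠ 0 ∧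
    Rep ω Es red A b g c f ∧ ∀ L, (π L (g L) ∈ ball (S L) (a * N L) ∧ c L ≠ 0) ∧
      ‖c L‖ * (δ L (g L) * ρ L ^ (a * N L)) ≤ 1}

variable {ω Es red A b π S N} {δ : ∀ L, E L →* ℝ} {ρ : ℕ → ℝ}

theorem ppT_sub {f : AddMonoid.End (κ → K)} (h : f ∈ ppT ω Es red A b π S N δ ρ) :
    f ∈ ppS ω Es red A b π S N := by
  obtain ⟨hf, a, g, c, -, h, h1⟩ := h
  exact ⟨hf, a, g, c, h, fun L => (h1 L).1⟩

theorem ppT_mul (hδ : ∀ L e, 0 < δ L e) (hρ : ∀ L, 0 < ρ L) {f f' : AddMonoid.End (κ → K)}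
    (h : f ∈ ppT ω Es red A b π S N δ ρ) (h' : f' ∈ ppT ω Es red A b π S N δ ρ) :
    f * f' ∈ ppT ω Es red A b π S N δ ρ := by
  obtain ⟨hf, a, g, c, ha, h, h1⟩ := h
  obtain ⟨hf', a', g', c', -, h', h1'⟩ := h'
  refine ⟨mul_mem hf hf', a + a', _, _, by omega, h.mul h', fun L => ⟨⟨?_, ?_⟩, ?_⟩⟩
  · rw [map_mul, add_mul]; exact mul_mem_ball (h1 L).1.1 (h1' L).1.1
  · exact mul_ne_zero (h1 L).1.2 ((map_ne_zero _).2 (h1' L).1.2)
  · rw [norm_mul, (A L).iso, map_mul, add_mul, pow_add]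
    have h2 := hδ L (g' L)
    have h3 := hρ L
    calc _ = (‖c L‖ * (δ L (g L) * ρ L ^ (a * N L))) *
          (‖c' L‖ * (δ L (g' L) * ρ L ^ (a' * N L))) := by ring
      _ ≤ 1 := mul_le_one₀ (h1 L).2 (by positivity) (h1' L).2

theorem pp_blocks (hE : ∀ L, 2 ≤ Es L) (hR : Res ω Es K red) {τ C₀ : ℝ} (ht0 : 0 < τ)
    (ht1 : τ < 1) (ht : ∀ L, ∃ t : D L, ‖t‖ = τ) (hsurj : ∀ L, Function.Surjective (π L))
    (hπ : ∀ L e, π L e = 1 → (A L).Scal e)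
    (hδ : ∀ L, (A L).VolC (δ L) C₀) (hρ : ∀ L, 0 < ρ L) {C : ℝ} (hC : 0 ≤ C)
    (hup : ∀ L e, π L e ∈ ball (S L) (N L) → ∀ i j,
      ‖(b L).repr ((A L).act e (b L i)) j‖ ≤ C * (δ L e * ρ L ^ N L))
    (a : ℕ) (w : ∀ L, E L) (hw : ∀ L, π L (w L) ∈ ball (S L) (a * N L)) :
    ∃ l : List (AddMonoid.End (κ → K)), l.length = a ∧
      (∀ f ∈ l, f ∈ ppT ω Es red A b π S N δ ρ) ∧ ∃ c, Rep ω Es red A b w c l.prod ∧
        ∀ L, τ ^ a ≤ ‖c L‖ * (δ L (w L) * ρ L ^ (a * N L)) := by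
  induction a generalizing w with
  | zero =>
    have h1 : ∀ L, π L (w L) = 1 := fun L => by
      obtain ⟨l, hl, -, h⟩ := hw L
      rw [zero_mul, Nat.le_zero, List.length_eq_zero_iff] at hl
      rw [← h, hl, List.prod_nil]
    choose d hd using fun L => hπ L _ (h1 L)
    have h2 : ∀ L, δ L (w L) = ‖d L‖ := fun L => (hδ L).scal _ _ (hd L)
    have h3 : ∀ L, d L ≠ 0 := fun L => norm_pos_iff.1 (h2 L ▸ (hδ L).pos _)
    refine ⟨[], rfl, by simp, fun L => (d L)⁻¹, pp_rep_one fun L v => ?_, fun L => ?_⟩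
    · rw [hd, smul_smul, inv_mul_cancel₀ (h3 L), one_smul]
    · simp [h2, h3]
  | succ a ih =>
    choose w₁ w₂ e h₁ h₂ using fun L => pp_split (π L) (hsurj L) (a := N L) (a' := a * N L) (w := w L)
      (by rw [add_comm, ← Nat.succ_mul]; exact hw L)
    obtain ⟨l, hl, hlT, c', hc', hn⟩ := ih w₂ h₂
    choose c hc0 hc1 hc2 using fun L => upp_scale ht0 ht1 (ht L)
      (r := δ L (w₁ L) * ρ L ^ N L) (mul_pos ((hδ L).pos _) (pow_pos (hρ L) _))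
    obtain ⟨f, hf, hrep⟩ := pp_exists_rep (A := A) (b := b) (g := w₁) hE hR hc0 fun i j =>
      pp_mod_of_le hE C 0 (Eventually.of_forall fun L => by
        rw [SL.mtx, norm_mul, pow_zero]
        calc _ ≤ ‖c L‖ * (C * (δ L (w₁ L) * ρ L ^ N L)) :=
              mul_le_mul_of_nonneg_left (hup L _ (h₁ L) i j) (norm_nonneg _)
          _ = C * (‖c L‖ * (δ L (w₁ L) * ρ L ^ N L)) := by ring
          _ ≤ C * 1 := mul_le_mul_of_nonneg_left (hc2 L) hC)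
    refine ⟨f :: l, by simp [hl], ?_, fun L => c L * (A L).α (w₁ L) (c' L), ?_, fun L => ?_⟩
    · intro f' hf'
      rcases List.mem_cons.1 hf' with rfl | hf'
      · exact ⟨hf, 1, w₁, c, one_ne_zero, hrep, fun L => by
          rw [one_mul]; exact ⟨⟨h₁ L, hc0 L⟩, hc2 L⟩⟩
      · exact hlT _ hf'
    · have : w = fun L => w₁ L * w₂ L := funext e
      rw [this, List.prod_cons]
      exact hrep.mul hc'
    · rw [norm_mul, (A L).iso, e L, map_mul, Nat.succ_mul, pow_add (ρ L), pow_succ']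
      calc τ * τ ^ a ≤ (‖c L‖ * (δ L (w₁ L) * ρ L ^ N L)) *
            (‖c' L‖ * (δ L (w₂ L) * ρ L ^ (a * N L))) :=
            mul_le_mul (hc1 L) (hn L) (by positivity) (ht0.le.trans (hc1 L))
        _ = _ := by ring

theorem pp_exists_not_nilp (hE : ∀ L, 2 ≤ Es L) (hR : Res ω Es K red) {τ C₀ : ℝ} (ht0 : 0 < τ)
    (ht1 : τ < 1) (ht : ∀ L, ∃ t : D L, ‖t‖ = τ) (hsurj : ∀ L, Function.Surjective (π L))
    (hπ : ∀ L e, π L e = 1 → (A L).Scal e)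
    (hδ : ∀ L, (A L).VolC (δ L) C₀) (hρ : ∀ L, 0 < ρ L) {C C' : ℝ} (hC : 0 ≤ C)
    (hup : ∀ L e, π L e ∈ ball (S L) (N L) → ∀ i j,
      ‖(b L).repr ((A L).act e (b L i)) j‖ ≤ C * (δ L e * ρ L ^ N L))
    (hlow : ∀ L k, ∃ w, π L w ∈ ball (S L) k ∧ ∃ i j,
      δ L w * ρ L ^ k ≤ C' * ‖(b L).repr ((A L).act w (b L i)) j‖) :
    ∃ f ∈ ppT ω Es red A b π S N δ ρ, ¬ IsNilpotent f := by
  by_contra hcon
  push Not at hcon
  choose w hw i j hij using fun L => hlow L (Module.finrank K (κ → K) * N L)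
  obtain ⟨l, hl, hlT, c, hrep, hn⟩ := pp_blocks hE hR ht0 ht1 ht hsurj hπ hδ hρ hC hup _ w hw
  have h0 := lev (K := K) (T := ppT ω Es red A b π S N δ ρ) (fun f hf => hf.1)
    (fun f hf g hg => ppT_mul (fun L => (hδ L).pos) hρ hf hg) hcon l hlT hl.ge
  rw [h0] at hrep
  have hneg : ∀ x : κ × κ, Neg ω Es fun L => (A L).mtx (b L) (c L) (w L) x.1 x.2 := fun x =>
    (hR.zero_iff _ (hrep.mtx hE hR _ _).1).1 (by rw [(hrep.mtx hE hR _ _).2]; rfl)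
  set a := Module.finrank K (κ → K)
  have ht : 0 < τ ^ a := pow_pos ht0 _
  obtain ⟨k, hk⟩ := pp_exists_pow hE (|C'| / τ ^ a + 1)
  obtain ⟨L, hL⟩ := (eventually_all.2 fun x => hneg x k).exists
  have h1 : ‖c L * (b L).repr ((A L).act (w L) (b L (i L))) (j L)‖ * Es L ^ k ≤ 1 := hL (i L, j L)
  rw [norm_mul] at h1
  set x := ‖c L‖ * ‖(b L).repr ((A L).act (w L) (b L (i L))) (j L)‖
  have hx : 0 ≤ x := by positivity
  have h2 : τ ^ a ≤ |C'| * x := by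
    calc _ ≤ _ := hn L
      _ ≤ ‖c L‖ * (C' * _) := mul_le_mul_of_nonneg_left (hij L) (norm_nonneg _)
      _ = C' * x := by ring
      _ ≤ _ := mul_le_mul_of_nonneg_right (le_abs_self _) hx
  have h3 : x * (|C'| / τ ^ a + 1) ≤ 1 := (mul_le_mul_of_nonneg_left (hk L) hx).trans h1
  have h4 : 1 ≤ x * (|C'| / τ ^ a) := by
    rw [← mul_div_assoc, le_div_iff₀ ht]; linarith
  have h5 : x = 0 := by nlinarith
  rw [h5] at h4
  linarith

theorem pp_not_surj (hE : ∀ L, 2 ≤ Es L) (hR : Res ω Es K red) {C₀ : ℝ}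
    (hδ : ∀ L, (A L).VolC (δ L) C₀) (hρ : ∀ L, 1 < ρ L)
    {k₀ : ℕ} (hk₀ : ∀ L, Es L ≤ ρ L ^ k₀) (hN : ∀ k, ∀ᶠ L in (ω : Filter ℕ), k < N L)
    {f : AddMonoid.End (κ → K)} (h : f ∈ ppT ω Es red A b π S N δ ρ) :
    ¬ Function.Surjective f := by
  intro hs
  obtain ⟨hf, a, g, c, ha, hrep, h1⟩ := h
  obtain ⟨C, hC⟩ := pp_inv_bound hE hR (fun L => (h1 L).1.2) hrep hf hs
  obtain ⟨k, hk⟩ := pp_exists_pow hE C₀
  obtain ⟨L, hL, hNL⟩ := (hC.and (hN (k₀ * (k + C)))).exists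
  have h2 := upp_vol_le (hδ L) _ _ _ hL
  have hE0 : 0 ≤ Es L := by linarith [hE L]
  have hd := (hδ L).pos (g L)
  have h3 : δ L (g L)⁻¹ * δ L (g L) = 1 := by rw [← map_mul, inv_mul_cancel, map_one]
  have h4 : 1 ≤ Es L ^ (k + C) * (‖c L‖ * δ L (g L)) := by
    calc 1 = δ L (g L)⁻¹ * δ L (g L) := h3.symm
      _ ≤ C₀ * (‖c L‖ * Es L ^ C) * δ L (g L) := mul_le_mul_of_nonneg_right h2 hd.le
      _ ≤ Es L ^ k * (‖c L‖ * Es L ^ C) * δ L (g L) := by gcongr; exact hk L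
      _ = _ := by ring
  have h5 : Es L ^ (k + C) < ρ L ^ (a * N L) := by
    calc Es L ^ (k + C) ≤ (ρ L ^ k₀) ^ (k + C) := pow_le_pow_left₀ hE0 (hk₀ L) _
      _ = ρ L ^ (k₀ * (k + C)) := (pow_mul _ _ _).symm
      _ < _ := pow_lt_pow_right₀ (hρ L)
        (hNL.trans_le (Nat.le_mul_of_pos_left _ (Nat.pos_of_ne_zero ha)))
  have h6 : 0 < ‖c L‖ * δ L (g L) := mul_pos (norm_pos_iff.2 (h1 L).1.2) hd
  have h7 := (h1 L).2
  nlinarith

theorem pp_unit (hE : ∀ L, 2 ≤ Es L) (hR : Res ω Es K red) {τ C₀ : ℝ} (ht0 : 0 < τ)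
    (ht1 : τ < 1) (ht : ∀ L, ∃ t : D L, ‖t‖ = τ) (hδ : ∀ L, (A L).VolC (δ L) C₀) {C : ℝ} (hC : 0 ≤ C) {m k : ℕ}
    (hup : ∀ L e, π L e ∈ ball (S L) m → ∀ i j,
      ‖(b L).repr ((A L).act e (b L i)) j‖ ≤ C * Es L ^ k * δ L e)
    (z : ∀ L, E L) (hz : ∀ L, π L (z L) ∈ ball (S L) m) :
    ∃ (f f' : AddMonoid.End (κ → K)) (c c' : ∀ L, D L), f ∈ semi K (κ → K) ∧ f' ∈ semi K (κ → K) ∧
      (∀ L, c L ≠ 0) ∧ (∀ L, c' L ≠ 0) ∧ Rep ω Es red A b z c f ∧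
      Rep ω Es red A b (fun L => (z L)⁻¹) c' f' ∧ f' * f = 1 ∧ f * f' = 1 := by
  choose c hc0 hc1 hc2 using fun L => upp_scale ht0 ht1 (ht L) ((hδ L).pos (z L))
  have hE0 : ∀ L, 0 ≤ Es L := fun L => by linarith [hE L]
  obtain ⟨f, hf, hrep⟩ := pp_exists_rep (A := A) (b := b) (g := z) hE hR hc0 fun i j =>
    pp_mod_of_le hE C k (Eventually.of_forall fun L => by
      rw [SL.mtx, norm_mul]
      have := hE0 L
      calc _ ≤ ‖c L‖ * (C * Es L ^ k * δ L (z L)) :=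
            mul_le_mul_of_nonneg_left (hup L _ (hz L) i j) (norm_nonneg _)
        _ = C * Es L ^ k * (‖c L‖ * δ L (z L)) := by ring
        _ ≤ _ := mul_le_of_le_one_right (by positivity) (hc2 L))
  have hc0' : ∀ L, (A L).α (z L)⁻¹ (c L)⁻¹ ≠ 0 := fun L => (map_ne_zero _).2 (inv_ne_zero (hc0 L))
  obtain ⟨f', hf', hrep'⟩ := pp_exists_rep (A := A) (b := b) (g := fun L => (z L)⁻¹) hE hR hc0'
    fun i j => pp_mod_of_le hE (C * τ⁻¹) k (Eventually.of_forall fun L => by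
      rw [SL.mtx, norm_mul, (A L).iso, norm_inv]
      have := hE0 L
      have h1 : δ L (z L)⁻¹ = (δ L (z L))⁻¹ := by
        refine eq_inv_of_mul_eq_one_left ?_
        rw [← map_mul, inv_mul_cancel, map_one]
      calc _ ≤ ‖c L‖⁻¹ * (C * Es L ^ k * δ L (z L)⁻¹) :=
            mul_le_mul_of_nonneg_left (hup L _ (by rw [map_inv]; exact inv_mem_ball (hz L)) i j)
              (by positivity)
        _ = C * (‖c L‖ * δ L (z L))⁻¹ * Es L ^ k := by rw [h1, mul_inv]; ring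
        _ ≤ _ := by gcongr; exact hc1 L)
  refine ⟨f, f', c, _, hf, hf', hc0, hc0', hrep, hrep', ?_, ?_⟩
  · refine (hrep'.mul hrep).unique hR (pp_rep_one fun L v => ?_)
    rw [← map_mul, inv_mul_cancel₀ (hc0 L), map_one, one_smul, inv_mul_cancel, map_one]
    rfl
  · refine (hrep.mul hrep').unique hR (pp_rep_one fun L v => ?_)
    have : (A L).α (z L) ((A L).α (z L)⁻¹ (c L)⁻¹) = (c L)⁻¹ := by
      show ((A L).α (z L) * (A L).α (z L)⁻¹) _ = _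
      rw [← map_mul, mul_inv_cancel, map_one]; rfl
    rw [this, mul_inv_cancel₀ (hc0 L), one_smul, mul_inv_cancel, map_one]
    rfl

end Pool.Agent.Lib.MP_9ac97d_al.UP
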