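import Pool.Agent.Lib.MP_9ac97d_al.UDef

/-!
# Extremal norms with constants that do not depend on the skew field
-/

set_option autoImplicit false

noncomputable section

namespace Pool.Agent.Lib.MP_9ac97d_al

theorem upp_auerbach {D V : Type} [NormedDivisionRing D] [AddCommGroup V] [Module D V]
    [Module.Finite D V] {t : D} (ht0 : t ≠ 0) (ht1 : ‖t‖ < 1) {N : V → ℝ} (h : IsNorm D N) :
    ∃ b : Module.Basis (Fin (Module.finrank D V)) D V,
      (∀ i, N (b i) ≤ ‖t‖⁻¹ * 3 ^ Module.finrank D V) ∧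
        ∀ v i, ‖b.repr v i‖ ≤ ‖t‖⁻¹ * 3 ^ Module.finrank D V * N v := by
  have ht : 0 < ‖t‖ := norm_pos_iff.2 ht0
  have hy : 1 < ‖t‖⁻¹ := (one_lt_inv₀ ht).2 ht1
  have h3 : (1 : ℝ) ≤ 3 ^ Module.finrank D V := one_le_pow₀ (by norm_num)
  obtain ⟨b, hb⟩ := auer_core D (θ := 2) (c := 3) (by norm_num) (by norm_num) _ V rfl N h
    fun v w hvw => by
      have h1 := h.add v (-w)
      rw [auer_neg h, ← sub_eq_add_neg] at h1
      linarith
  choose n hn using fun i => exists_mem_Ioc_zpow (auer_pos h (b.ne_zero i)) hy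
  have hu : ∀ i, IsUnit (t ^ n i) := fun i => (zpow_ne_zero _ ht0).isUnit
  have hN : ∀ i, 1 ≤ N (b.isUnitSMul hu i) ∧ N (b.isUnitSMul hu i) ≤ ‖t‖⁻¹ := by
    intro i
    rw [Module.Basis.isUnitSMul_apply, h.smul, norm_zpow]
    obtain ⟨h1, h2⟩ := hn i
    have hp : 0 < ‖t‖ ^ n i := zpow_pos ht _
    rw [inv_zpow] at h1
    rw [zpow_add_one₀ (by positivity), inv_zpow] at h2
    constructor
    · calc (1 : ℝ) = ‖t‖ ^ n i * (‖t‖ ^ n i)⁻¹ := by field_simp
        _ ≤ _ := mul_le_mul_of_nonneg_left h1.le hp.le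
    · calc ‖t‖ ^ n i * N (b i) ≤ ‖t‖ ^ n i * ((‖t‖ ^ n i)⁻¹ * ‖t‖⁻¹) :=
            mul_le_mul_of_nonneg_left h2 hp.le
        _ = ‖t‖⁻¹ := by field_simp
  refine ⟨b.isUnitSMul hu, fun i => (hN i).2.trans (by nlinarith), fun v i => ?_⟩
  set b' := b.isUnitSMul hu with hb'
  have h1 := hb (fun j => b'.repr v j * t ^ n j) i
  have h2 : ∑ j, (b'.repr v j * t ^ n j) • b j = v := by
    conv_rhs => rw [← b'.sum_repr v]
    refine Finset.sum_congr rfl fun j _ => ?_
    rw [mul_smul]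
    congr 1
    exact (Module.Basis.isUnitSMul_apply hu j).symm
  have h4 : N (b' i) = ‖t ^ n i‖ * N (b i) := by
    rw [hb', Module.Basis.isUnitSMul_apply, h.smul]
  rw [h2, norm_mul, mul_assoc, ← h4] at h1
  have h5 := (hN i).1
  have h6 := norm_nonneg (b'.repr v i)
  have h7 := h.nonneg v
  calc ‖b'.repr v i‖ ≤ ‖b'.repr v i‖ * N (b' i) := by nlinarith
    _ ≤ 3 ^ Module.finrank D V * N v := h1
    _ ≤ ‖t‖⁻¹ * 3 ^ Module.finrank D V * N v := by
        refine mul_le_mul_of_nonneg_right ?_ h7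
        nlinarith

theorem upp_extremal {τ : ℝ} (ht0 : 0 < τ) (ht1 : τ < 1) (m : ℕ) : ∃ C : ℝ, 1 ≤ C ∧
    ∀ (D E V : Type) [NormedDivisionRing D] [Group E] [AddCommGroup V] [Module D V]
      [Module.Finite D V] [Nontrivial V], (∃ t : D, ‖t‖ = τ) → Module.finrank D V = m →
      ∀ (A : SL E D V) (δ : E →* ℝ),
      (∀ e, 0 < δ e) → ∀ S : Set E, S.Finite → ∀ r₀ : ℝ, 0 < r₀ →
      (∀ N : V → ℝ, IsNorm D N → ∃ s, (s ∈ S ∨ s⁻¹ ∈ S) ∧ ∃ v, r₀ * δ s * N v < N (A.act s v)) →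
      ∃ ρ : ℝ, r₀ ≤ ρ ∧ ∀ η : ℝ, 0 < η → ∃ b : Module.Basis (Fin (Module.finrank D V)) D V,
        (∀ k w, IsWord S k w → ∀ i j,
          ‖b.repr (A.act w (b i)) j‖ ≤ C * δ w * (ρ * (1 + η)) ^ k) ∧
        ∀ k, ∃ w, IsWord S k w ∧ ∃ i j, δ w * ρ ^ k ≤ C * ‖b.repr (A.act w (b i)) j‖ := by
  obtain ⟨C, hCd⟩ : ∃ C : ℝ, C = τ⁻¹ * 3 ^ m := ⟨_, rfl⟩
  have hC1 : 1 ≤ C := by
    have hy : 1 < τ⁻¹ := (one_lt_inv₀ ht0).2 ht1
    have h3 : (1 : ℝ) ≤ 3 ^ m := one_le_pow₀ (by norm_num)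
    rw [hCd]
    nlinarith
  have hm2 : (0 : ℝ) ≤ (m : ℝ) ^ 2 := by positivity
  have hC2 : 1 ≤ C ^ 2 := one_le_pow₀ hC1
  refine ⟨(2 * (m : ℝ) ^ 2 + 1) * C ^ 2, by nlinarith, ?_⟩
  rintro D E V _ _ _ _ _ _ ⟨t, ht⟩ hm A δ hδ S hS r₀ hr₀ hyp
  have hC : ∀ N : V → ℝ, IsNorm D N → ∃ b : Module.Basis (Fin (Module.finrank D V)) D V,
      (∀ i, N (b i) ≤ C) ∧ ∀ v i, ‖b.repr v i‖ ≤ C * N v := fun N h => by
    rw [hCd, ← ht, ← hm]
    exact upp_auerbach (norm_pos_iff.1 (ht ▸ ht0)) (ht ▸ ht1) h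
  let R : Set ℝ := {r | ∃ N : V → ℝ, IsNorm D N ∧
    ∀ s, (s ∈ S ∨ s⁻¹ ∈ S) → ∀ v, N (A.act s v) ≤ r * δ s * N v}
  have hlow : ∀ r ∈ R, r₀ ≤ r := by
    rintro r ⟨N, h, hN⟩
    obtain ⟨s, hs, v, hv⟩ := hyp N h
    have h1 := hv.trans_le (hN s hs v)
    rw [mul_assoc, mul_assoc] at h1
    exact (lt_of_mul_lt_mul_right h1 (mul_nonneg (hδ s).le (h.nonneg v))).le
  have hne : R.Nonempty := by
    have h := isNorm_basis (Module.finBasis D V)
    generalize (fun v => ‖(fun i => (Module.finBasis D V).repr v i : _ → D)‖) = N at h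
    choose c _ hc using fun s => (auer_comp A h s (hδ s)).equiv h
    obtain ⟨r, hr⟩ := ((auer_letters_finite hS).image c).bddAbove
    refine ⟨r, N, h, fun s hs v => ?_⟩
    have h1 := hc s v
    rw [div_le_iff₀ (hδ s)] at h1
    have h2 : c s ≤ r := hr ⟨s, hs, rfl⟩
    calc N (A.act s v) ≤ c s * N v * δ s := h1
      _ = c s * (δ s * N v) := by ring
      _ ≤ r * (δ s * N v) :=
          mul_le_mul_of_nonneg_right h2 (mul_nonneg (hδ s).le (h.nonneg v))
      _ = r * δ s * N v := by ring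
  have hbd : BddBelow R := ⟨_, hlow⟩
  have hρ : r₀ ≤ sInf R := le_csInf hne hlow
  have hρ0 : 0 < sInf R := hr₀.trans_le hρ
  refine ⟨sInf R, hρ, fun η hη => ?_⟩
  obtain ⟨r, ⟨N, h, hN⟩, hr⟩ := exists_lt_of_csInf_lt hne
    (show sInf R < sInf R * (1 + η) by nlinarith)
  have hN' : ∀ s, (s ∈ S ∨ s⁻¹ ∈ S) → ∀ v,
      N (A.act s v) ≤ sInf R * (1 + η) * δ s * N v := fun s hs v =>
    (hN s hs v).trans (mul_le_mul_of_nonneg_right
      (mul_le_mul_of_nonneg_right hr.le (hδ s).le) (h.nonneg v))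
  obtain ⟨b, hb1, hb2⟩ := hC N h
  refine ⟨b, fun k w hw i j => ?_, fun k => ?_⟩
  · have h1 := auer_upper A δ hδ (by positivity) hN' hw (b i)
    have h2 : 0 ≤ δ w * (sInf R * (1 + η)) ^ k := mul_nonneg (hδ w).le (by positivity)
    calc ‖b.repr (A.act w (b i)) j‖ ≤ C * N (A.act w (b i)) := hb2 _ _
      _ ≤ C * (δ w * (sInf R * (1 + η)) ^ k * C) :=
          mul_le_mul_of_nonneg_left (h1.trans (mul_le_mul_of_nonneg_left (hb1 i) h2))
            (by linarith)
      _ = C ^ 2 * (δ w * (sInf R * (1 + η)) ^ k) := by ring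
      _ ≤ (2 * (m : ℝ) ^ 2 + 1) * C ^ 2 * (δ w * (sInf R * (1 + η)) ^ k) :=
          mul_le_mul_of_nonneg_right (by nlinarith) h2
      _ = _ := by ring
  · cases k with
    | zero =>
      have i : Fin (Module.finrank D V) := ⟨0, Module.finrank_pos⟩
      refine ⟨1, auer_word_zero S, i, i, ?_⟩
      rw [auer_act_one, map_one, pow_zero, b.repr_self, Finsupp.single_eq_same, norm_one]
      nlinarith
    | succ k =>
      by_contra hcon
      push Not at hcon
      set ρ := sInf R with hρdef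
      have hk0 : (0 : ℝ) < (k : ℝ) + 1 := by positivity
      set a : ℝ := -(1 / (2 * ((k : ℝ) + 1))) with ha
      have ha1 : a < 0 := by rw [ha]; exact neg_lt_zero.2 (by positivity)
      have ha2 : ((k + 1 : ℕ) : ℝ) * a = -(1 / 2) := by
        rw [ha]; push_cast; field_simp
      have ha3 : -(1 / 2) ≤ a := by
        rw [← ha2]; push_cast
        have : (0 : ℝ) ≤ k := Nat.cast_nonneg k
        nlinarith
      have hB : 1 / 2 ≤ (1 + a) ^ (k + 1) := by
        have := one_add_mul_le_pow (a := a) (by linarith) (k + 1)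
        linarith
      have hr0 : 0 < ρ * (1 + a) := mul_pos hρ0 (by linarith)
      have hmem : ρ * (1 + a) ∈ R := by
        refine auer_improve A δ hδ hS h hr0 (k := k) fun w hw v => ?_
        set B := δ w * ρ ^ (k + 1) with hBdef
        have hB0 : 0 < B := mul_pos (hδ w) (pow_pos hρ0 _)
        set K := (2 * (m : ℝ) ^ 2 + 1) * C ^ 2 with hK
        have hK0 : 0 < K := by rw [hK]; positivity
        have h1 : ∀ i, N (A.act w (b i)) ≤ m * (B / K * C) := by
          intro i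
          refine (auer_repr_le h b _).trans ?_
          have h2 : ∀ j ∈ Finset.univ, ‖b.repr (A.act w (b i)) j‖ * N (b j) ≤ B / K * C := by
            intro j _
            refine mul_le_mul ?_ (hb1 j) (h.nonneg _) (by positivity)
            rw [le_div_iff₀' hK0]
            exact (hcon w hw i j).le
          refine (Finset.sum_le_card_nsmul _ _ _ h2).trans (le_of_eq ?_)
          simp [hm]
        have hv := h.nonneg v
        have h3 : N (A.act w v) ≤ m * (C * N v * (m * (B / K * C))) := by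
          conv_lhs => rw [← b.sum_repr v]
          rw [map_sum]
          refine (auer_sum_le h _ _).trans ?_
          have h2 : ∀ i ∈ Finset.univ,
              N (A.act w (b.repr v i • b i)) ≤ C * N v * (m * (B / K * C)) := by
            intro i _
            rw [A.smul, h.smul, A.iso]
            exact mul_le_mul (hb2 v i) (h1 i) (h.nonneg _) (by positivity)
          refine (Finset.sum_le_card_nsmul _ _ _ h2).trans (le_of_eq ?_)
          simp [hm]
        have h4 : (m : ℝ) ^ 2 * C ^ 2 / K ≤ 1 / 2 := by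
          rw [div_le_iff₀ hK0, hK]
          nlinarith
        calc N (A.act w v) ≤ m * (C * N v * (m * (B / K * C))) := h3
          _ = (m : ℝ) ^ 2 * C ^ 2 / K * (B * N v) := by ring
          _ ≤ (1 + a) ^ (k + 1) * (B * N v) :=
              mul_le_mul_of_nonneg_right (h4.trans hB) (by positivity)
          _ = δ w * (ρ * (1 + a)) ^ (k + 1) * N v := by rw [hBdef, mul_pow]; ring
      have h5 := csInf_le hbd hmem
      rw [← hρdef] at h5
      nlinarith

theorem upp_level {τ : ℝ} (ht0 : 0 < τ) (ht1 : τ < 1) (m : ℕ) {r₀ : ℝ} (hr : 1 < r₀) :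
    ∃ C : ℝ, 1 ≤ C ∧ ∀ (E H D V : Type) [Group E] [Group H] [NormedDivisionRing D]
      [AddCommGroup V] [Module D V] [Module.Finite D V] [Nontrivial V], (∃ t : D, ‖t‖ = τ) →
      Module.finrank D V = m → ∀ (A : SL E D V) (π : E →* H), Function.Surjective π →
      (∀ e, π e = 1 → A.Scal e) → ∀ δ : E →* ℝ, A.Vol δ →
      ∀ S : Set H, S.Finite → (∀ N : V → ℝ, IsNorm D N →
      ∃ s : E, (π s ∈ S ∨ (π s)⁻¹ ∈ S) ∧ ∃ v, r₀ * δ s * N v < N (A.act s v)) → ∀ η : ℝ, 0 < η →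
      ∃ ρ : ℝ, r₀ ≤ ρ ∧ ∃ b : Module.Basis (Fin m) D V,
        (∀ k e, π e ∈ ball S k → ∀ i j,
          ‖b.repr (A.act e (b i)) j‖ ≤ C * δ e * (ρ * (1 + η)) ^ k) ∧
        ∀ k, ∃ w, π w ∈ ball S k ∧ ∃ i j, δ w * ρ ^ k ≤ C * ‖b.repr (A.act w (b i)) j‖ := by
  obtain ⟨C, hC, hex⟩ := upp_extremal ht0 ht1 m
  refine ⟨C, hC, fun E H D V _ _ _ _ _ _ _ ht hm A π hsurj hπ δ hδ S hS h η hη => ?_⟩
  obtain ⟨T, hT, rfl⟩ := exists_lifts π hsurj hS
  obtain ⟨ρ, hρ, hb⟩ := hex D E V ht hm A δ hδ.pos T hT r₀ (by linarith) (by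
    intro N hN
    obtain ⟨s, hs, v, hv⟩ := h N hN
    have : ∃ s', (s' ∈ T ∨ s'⁻¹ ∈ T) ∧ π s = π s' := by
      rcases hs with ⟨x, hx, e⟩ | ⟨x, hx, e⟩
      · exact ⟨x, Or.inl hx, e.symm⟩
      · exact ⟨x⁻¹, Or.inr (by simpa using hx), by simp [e]⟩
    obtain ⟨s', hs', e⟩ := this
    obtain ⟨d, h1, h2⟩ := pp_scal_of_eq A π hπ hδ e
    refine ⟨s', hs', v, ?_⟩
    rw [h1, h2, hN.smul] at hv
    exact lt_of_mul_lt_mul_left (a := ‖d‖) (by linarith) (norm_nonneg _))
  obtain ⟨b, hup, hlow⟩ := hb η hη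
  subst hm
  refine ⟨ρ, hρ, b, fun k e he i j => ?_, fun k => ?_⟩
  · rw [ball_image] at he
    obtain ⟨w, ⟨l, hl, hlT, hw⟩, e'⟩ := he
    obtain ⟨d, h1, h2⟩ := pp_scal_of_eq A π hπ hδ e'.symm
    have h3 := hup _ w ⟨l, rfl, hlT, hw⟩ i j
    have h4 : (ρ * (1 + η)) ^ l.length ≤ (ρ * (1 + η)) ^ k :=
      pow_le_pow_right₀ (by nlinarith) hl
    have h5 := hδ.pos w
    rw [h1, h2, map_smul, Finsupp.smul_apply, smul_eq_mul, norm_mul]
    calc ‖d‖ * ‖b.repr (A.act w (b i)) j‖ ≤ ‖d‖ * (C * δ w * (ρ * (1 + η)) ^ k) :=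
          mul_le_mul_of_nonneg_left (h3.trans (mul_le_mul_of_nonneg_left h4 (by positivity)))
            (norm_nonneg _)
      _ = _ := by ring
  · obtain ⟨w, ⟨l, hl, hlT, hw⟩, h1⟩ := hlow k
    refine ⟨w, ?_, h1⟩
    rw [ball_image]
    exact ⟨w, ⟨l, hl.le, hlT, hw⟩, rfl⟩

theorem upp_orbit {H X : Type} [Group H] [MulAction H X] {S : Set H}
    (hS : Subgroup.closure S = ⊤) (p : X) (m : ℕ) :
    (∃ z : Fin (m + 1) → H, (∀ i, z i ∈ ball S m) ∧ Function.Injective fun i => z i • p) ∨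
      BI (MulAction.stabilizer H p) m := by
  induction m with
  | zero =>
    exact Or.inl ⟨fun _ => 1, fun _ => one_mem_ball _ _, fun i j _ => Fin.ext (by omega)⟩
  | succ m ih =>
    rcases ih with ⟨z, hz, hi⟩ | h1
    · by_cases hc : ∀ g ∈ ball S (m + 1), ∃ i, g • p = z i • p
      · have h2 : ∀ g : H, ∃ i, g • p = z i • p := fun g => by
          induction g using gbasic_induction hS with
          | h1 => exact hc 1 (one_mem_ball _ _)
          | hs s g hs ih =>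
            obtain ⟨i, h⟩ := ih
            obtain ⟨j, h'⟩ := hc (s * z i)
              (by rw [add_comm]; exact mul_mem_ball (mem_ball_one hs) (hz i))
            exact ⟨j, by rw [← h', mul_smul, mul_smul, h]⟩
        have h3 : MulAction.orbit H p ⊆ Set.range fun i => z i • p := by
          rintro _ ⟨g, rfl⟩
          obtain ⟨i, h⟩ := h2 g
          exact ⟨i, h.symm⟩
        right
        rw [BI, MulAction.index_stabilizer]
        refine ⟨Set.ncard_ne_zero_of_mem (MulAction.mem_orbit_self p)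
          ((Set.finite_range _).subset h3), (Set.ncard_le_ncard h3).trans ?_⟩
        rw [← Set.image_univ]
        exact (Set.ncard_image_le).trans (by simp [Set.ncard_univ])
      · push Not at hc
        obtain ⟨g, hg, hne⟩ := hc
        refine Or.inl ⟨Fin.cons g z, fun i => ?_, fun i j hij => ?_⟩
        · refine Fin.cases ?_ (fun i => ?_) i
          · exact hg
          · exact ball_mono (Nat.le_succ m) (hz i)
        · revert hij
          refine Fin.cases ?_ (fun i => ?_) i <;> refine Fin.cases ?_ (fun j => ?_) j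
          · exact fun _ => rfl
          · exact fun h => absurd h (hne j)
          · exact fun h => absurd h.symm (hne i)
          · exact fun h => congrArg Fin.succ (hi h)
    · exact Or.inr ⟨h1.1, h1.2.trans (Nat.le_succ m)⟩

theorem upp_points {E H D V : Type} [Group E] [Group H] [NormedDivisionRing D]
    [AddCommGroup V] [Module D V] (A : SL E D V) (π : E →* H) (hsurj : Function.Surjective π)
    {m : ℕ} (hSI : A.SIb m) {S : Set H} (hS : Subgroup.closure S = ⊤) {U : Submodule D V} (h0 : U ≠ ⊥)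
    (h1 : U ≠ ⊤) : ∃ z : Fin (m + 1) → E, (∀ i, π (z i) ∈ ball S m) ∧
      Function.Injective fun i => A.sub (z i) U := by
  let _ := A.subAction
  have hgen : Subgroup.closure (π ⁻¹' (insert 1 S)) = ⊤ := by
    rw [eq_top_iff]
    intro e _
    have h2 : π e ∈ (Subgroup.closure (π ⁻¹' (insert 1 S))).map π := by
      rw [MonoidHom.map_closure, Set.image_preimage_eq _ hsurj]
      exact Subgroup.closure_mono (Set.subset_insert _ _) (hS ▸ Subgroup.mem_top _)
    obtain ⟨e', he', h3⟩ := h2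
    have h4 : e * e'⁻¹ ∈ Subgroup.closure (π ⁻¹' (insert 1 S)) :=
      Subgroup.subset_closure (Or.inl (by simp [h3]))
    simpa using mul_mem h4 he'
  obtain ⟨z, hz, hinj⟩ := (upp_orbit hgen U m).resolve_right (hSI U h0 h1)
  refine ⟨z, fun i => ?_, hinj⟩
  have h2 : π (z i) ∈ ball (insert 1 S) m := by
    rw [← Set.image_preimage_eq (insert 1 S) hsurj, ball_image]
    exact ⟨_, hz i, rfl⟩
  have h3 : insert 1 S ⊆ ball S 1 := by
    rintro x (rfl | hx)
    · exact one_mem_ball _ _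
    · exact mem_ball_one (Or.inl hx)
  simpa using ball_subset_of_subset h3 m h2

end Pool.Agent.Lib.MP_9ac97d_al
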