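import Pool.Agent.Lib.MP_9ac97d_al.UBasic
import Pool.Agent.Lib.MP_9ac97d_al.UPPAux4
import Pool.Agent.Lib.MP_9ac97d_al.UPPAux5

/-!
# Ping-pong, uniform in the skew field (task UPP)
-/

set_option autoImplicit false

noncomputable section

open Pointwise

namespace Pool.Agent.Lib.MP_9ac97d_al

open Filter

/-- The proof of `pp`, for a sequence of skew fields. -/
theorem upp_main {m₀ : ℕ} (hm₀ : 0 < m₀) {r₀ τ : ℝ} (hr : 1 < r₀) (hτ0 : 0 < τ) (hτ1 : τ < 1)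
    {C₀ : ℝ} {E H D V : ℕ → Type} [∀ L, Group (E L)] [∀ L, Group (H L)]
    [∀ L, NormedDivisionRing (D L)] [∀ L, CompleteSpace (D L)] [∀ L, AddCommGroup (V L)]
    [∀ L, Module (D L) (V L)] [∀ L, Module.Finite (D L) (V L)]
    (A : ∀ L, SL (E L) (D L) (V L)) (π : ∀ L, E L →* H L) (δ : ∀ L, E L →* ℝ)
    (S : ∀ L, Set (H L)) (hdim : ∀ L, Module.finrank (D L) (V L) = m₀)
    (ht : ∀ L, ∃ t : D L, ‖t‖ = τ) (hsurj : ∀ L, Function.Surjective (π L))
    (hπ : ∀ L e, π L e = 1 → (A L).Scal e) (hδ : ∀ L, (A L).VolC (δ L) C₀)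
    (hSI : ∀ L, (A L).SIb m₀) (hS : ∀ L, NFS (S L) L)
    (hSP : ∀ L (N : V L → ℝ), IsNorm (D L) N → ∃ s : E L, (π L s ∈ S L ∨ (π L s)⁻¹ ∈ S L) ∧
      ∃ v, r₀ * δ L s * N v < N ((A L).act s v)) : False := by
  have hSf := fun L => (hS L).1
  have hSg := fun L => (hS L).2.1
  have hSn := fun L => (hS L).2.2
  have hnt : ∀ L, Nontrivial (V L) := fun L =>
    Module.nontrivial_of_finrank_pos (R := D L) (hdim L ▸ hm₀)
  obtain ⟨C, hC, hlev⟩ := upp_level hτ0 hτ1 m₀ hr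
  choose ρ hρ b hup hlow using fun L : ℕ => hlev (E L) (H L) (D L) (V L) (ht L) (hdim L) (A L)
    (π L) (hsurj L) (hπ L) (δ L) ⟨(hδ L).pos, ⟨_, (hδ L).le⟩, (hδ L).scal⟩ (S L) (hSf L) (hSP L)
    (1 / ((L : ℝ) + 1)) (by positivity)
  have hρ1 : ∀ L, 1 < ρ L := fun L => hr.trans_le (hρ L)
  have hρ0 : ∀ L, 0 < ρ L := fun L => one_pos.trans (hρ1 L)
  let ω : Ultrafilter ℕ := hyperfilter ℕ
  have hω : (ω : Filter ℕ) ≤ atTop := Nat.hyperfilter_le_atTop
  let Es : ℕ → ℝ := fun L => max (ρ L) 2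
  have hE : ∀ L, 2 ≤ Es L := fun L => le_max_right _ _
  let N : ℕ → ℕ := fun L => Nat.sqrt L + 1
  obtain ⟨K, _, red, hR⟩ := UP.exists_res (D := D) (ω := ω) hE
  obtain ⟨f₀, hf₀, hf₀n⟩ := UP.pp_exists_not_nilp (b := b) (S := S) (N := N) (C := 3 * C) hE hR hτ0
    hτ1 ht hsurj hπ hδ hρ0 (by positivity) (fun L e he i j => (hup L _ e he i j).trans (by
      have h1 := pp_three L (N L) (Nat.succ_le_succ (Nat.sqrt_le_self L))
      have h2 := (hδ L).pos e
      have h3 := hρ0 L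
      rw [mul_pow]
      calc C * δ L e * (ρ L ^ N L * (1 + 1 / ((L : ℝ) + 1)) ^ N L) ≤
            C * δ L e * (ρ L ^ N L * 3) := by gcongr
        _ = _ := by ring)) hlow
  obtain ⟨k₀, hk₀⟩ := pow_unbounded_of_one_lt 2 hr
  have hk0 : k₀ ≠ 0 := by rintro rfl; norm_num at hk₀
  have hns := UP.pp_not_surj hE hR hδ hρ1 (k₀ := k₀) (fun L => max_le
    (le_self_pow₀ (hρ1 L).le hk0)
    (hk₀.le.trans (pow_le_pow_left₀ (by linarith) (hρ L) _)))
    (fun k => (pp_sqrt k).filter_mono hω |>.mono fun L hL => hL.1) hf₀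
  set 𝒮 := UP.ppS ω Es red A b π S N with h𝒮
  have hsemi : 𝒮 ≤ semi K _ := fun f hf => hf.1
  obtain ⟨P, ⟨hP, hPn⟩, hmin⟩ := (measure (erank K)).wf.has_min {f | f ∈ 𝒮 ∧ ¬ IsNilpotent f}
    ⟨f₀, UP.ppT_sub hf₀, hf₀n⟩
  have hmin' : ∀ y ∈ 𝒮, ¬ IsNilpotent y → erank K P ≤ erank K y :=
    fun y hy hyn => not_lt.1 (hmin y ⟨hy, hyn⟩)
  have hPs := hsemi hP
  have hPP : erank K (P * P) = erank K P :=
    le_antisymm (erank_mul_le_left hPs hPs) (hmin' _ (mul_mem hP hP) fun hn =>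
      hPn (IsNilpotent.of_pow (m := 2) (by rwa [pow_two])))
  set m := Module.finrank K (Fin m₀ → K) with hm
  have hmm : m₀ = m := by simp [hm]
  have hlt : erank K P < m := by
    refine (hmin' _ (UP.ppT_sub hf₀) hf₀n).trans_lt (lt_of_le_of_ne (Submodule.finrank_le _) ?_)
    intro e
    exact hns ((bijective_iff_erank hf₀.1).2 e).2
  have hpos : 0 < erank K P := by
    rw [Nat.pos_iff_ne_zero]
    intro e
    apply hPn
    have h1 : Submodule.span K (Set.range P) = ⊥ := Submodule.finrank_eq_zero.1 e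
    have h2 : P = 0 := AddMonoidHom.ext fun y => Submodule.span_eq_bot.1 h1 _ ⟨y, rfl⟩
    rw [h2]; exact IsNilpotent.zero
  obtain ⟨B, hB, -⟩ := exists_fitting_basis hPs hPP (q := m - erank K P) rfl (by omega)
  obtain ⟨b', hb1, hb2⟩ := UP.pp_change hE hR b B
  obtain ⟨-, a, g, c, hrep, hg⟩ := id hP
  have hcontr : ∀ {y : AddMonoid.End (Fin m₀ → K)} {g : ∀ L, E L} {c : ∀ L, D L},
      y ∈ semi K _ → erank K (P * y * P) = erank K P → (∀ L, c L ≠ 0) →
      UP.Rep ω Es red A b g c (P * y) → _ := fun hy hrk hc hrp =>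
    UP.pp_contr hE hR B hb1 hb2 hc hrp (fun v => hB ▸ Submodule.subset_span ⟨_, rfl⟩)
      (pp_span_of_rank hPs hy hrk hB)
  obtain ⟨C₂, ε, hε0, hε, hgc⟩ := hcontr (one_mem _) (by rwa [mul_one]) (fun L => (hg L).2)
    (by rwa [mul_one])
  have hz : ∀ L, ∃ z : Fin (m + 1) → E L, (∀ i, π L (z i) ∈ ball (S L) m) ∧
      (SL.Small (erank K P) (m - erank K P) (Es L ^ C₂) (ε L) →
        (A L).Contr (b' L) (g L) (Es L ^ C₂) (ε L) → ∀ i j, i ≠ j → ∀ K' ε', Es L ^ C₂ ≤ K' →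
        ε L ≤ ε' → SL.Small (erank K P) (m - erank K P) K' ε' →
        (A L).Contr (b' L) (g L * (z i)⁻¹ * z j) K' ε' →
        FreePair (π L (g L)) (π L (g L * (z i)⁻¹ * z j))) := by
    intro L
    by_cases h1 : SL.Small (erank K P) (m - erank K P) (Es L ^ C₂) (ε L) ∧
        (A L).Contr (b' L) (g L) (Es L ^ C₂) (ε L)
    · obtain ⟨U, hU0, hU1, hU, hfree⟩ := (A L).chart (b' L) hpos (by omega) (π L) (hπ L) h1.1 h1.2
      obtain ⟨z, hz, hinj⟩ := upp_points (A L) (π L) (hsurj L) (hmm ▸ hSI L) (hSg L) hU0 hU1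
      refine ⟨z, hz, fun _ _ i j hij K' ε' hK hε' hs hc => hfree _ K' ε' hK hε' hs hc fun e => ?_⟩
      apply hij
      apply hinj
      have h2 : g L * (z i)⁻¹ * z j ∈ (A L).stab U := e
      have h3 : g L ∈ (A L).stab U := hU
      have h4 : (z i)⁻¹ * z j ∈ (A L).stab U := by
        simpa [mul_assoc] using mul_mem (inv_mem h3) h2
      have h5 : (A L).sub ((z i)⁻¹ * z j) U = U := h4
      show (A L).sub (z i) U = (A L).sub (z j) U
      conv_lhs => rw [← h5, ← (A L).sub_mul, mul_inv_cancel_left]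
    · exact ⟨fun _ => 1, fun _ => by rw [map_one]; exact one_mem_ball _ _,
        fun h2 h3 => absurd ⟨h2, h3⟩ h1⟩
  choose z hzb hzf using hz
  choose f f' cz cz' hf hf' hcz hcz' hrz hrz' hff hff' using fun i : Fin (m + 1) =>
    UP.pp_unit (A := A) (b := b) (π := π) (S := S) (C := C * 2 ^ m) (m := m) (k := m) hE hR hτ0 hτ1 ht hδ
      (by positivity) (fun L e he i j => (hup L _ e he i j).trans (by
        have h2 := (hδ L).pos e
        have h3 := hρ0 L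
        have h4 : ρ L * (1 + 1 / ((L : ℝ) + 1)) ≤ 2 * Es L := by
          have h5 : 1 / ((L : ℝ) + 1) ≤ 1 := by
            rw [div_le_one (by positivity)]; linarith [Nat.cast_nonneg (α := ℝ) L]
          have h6 : ρ L ≤ Es L := le_max_left _ _
          nlinarith
        calc C * δ L e * (ρ L * (1 + 1 / ((L : ℝ) + 1))) ^ m ≤ C * δ L e * (2 * Es L) ^ m := by
              gcongr
          _ = _ := by rw [mul_pow]; ring)) (fun L => z L i) fun L => hzb L i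
  have hball : ∀ L i, π L (z L i) ∈ ball (S L) (m * N L) := fun L i =>
    ball_mono (Nat.le_mul_of_pos_right _ (Nat.succ_pos _)) (hzb L i)
  have hball' : ∀ L i, π L (z L i)⁻¹ ∈ ball (S L) (m * N L) := fun L i => by
    rw [map_inv]; exact inv_mem_ball (hball L i)
  obtain ⟨i, j, hij, hrk⟩ := sg hsemi hP hPn hmin' f f'
    (fun i => ⟨hf i, m, _, _, hrz i, fun L => ⟨hball L i, hcz i L⟩⟩)
    (fun i => ⟨hf' i, m, _, _, hrz' i, fun L => ⟨hball' L i, hcz' i L⟩⟩) hff hff'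
  obtain ⟨C₁, ε', hε0', hε', hhc⟩ := hcontr (y := f' i * f j) (mul_mem (hf' i) (hf j))
    (by rwa [← mul_assoc])
    (fun L => mul_ne_zero (mul_ne_zero (hg L).2 ((map_ne_zero _).2 (hcz' i L)))
      ((map_ne_zero _).2 (hcz j L)))
    (by rw [← mul_assoc]; exact (hrep.mul (hrz' i)).mul (hrz j))
  have hs₀ := pp_small hE (erank K P) (m - erank K P) C₂ hε0 (ε' := fun _ => 0) (fun _ => le_rfl)
    hε fun k => Eventually.of_forall fun L => by simp
  have hs₁ := pp_small hE (erank K P) (m - erank K P) (C₂ + C₁) hε0 hε0' hε hε'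
  obtain ⟨L, ⟨⟨⟨h1, h2⟩, h3⟩, h4⟩, -, h5⟩ := ((((hgc.and hhc).and hs₀).and hs₁).and
    ((pp_sqrt (a + m + m)).filter_mono hω)).exists
  have h1E : (1 : ℝ) ≤ Es L := by linarith [hE L]
  rw [add_zero] at h3
  refine hSn L _ (ball_mono ?_ (hg L).1) _ (ball_mono h5 ?_)
    (hzf L h3 h1 i j hij _ _ (pow_le_pow_right₀ h1E (Nat.le_add_right _ _))
      (le_add_of_nonneg_right (hε0' L)) h4
      (pp_contr_mono h2 (pow_le_pow_right₀ h1E (Nat.le_add_left _ _))
        (le_add_of_nonneg_left (hε0 L))))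
  · exact (Nat.mul_le_mul_right _ (by omega)).trans h5
  · rw [map_mul, map_mul, add_mul, add_mul]
    exact mul_mem_ball (mul_mem_ball (hg L).1 (hball' L i)) (hball L j)

/-- Otherwise there is a counterexample for every `L`; apply `upp_main` to this sequence. -/
theorem ppU (m : ℕ) (hm : 0 < m) {r₀ τ : ℝ} (hr : 1 < r₀) (hτ0 : 0 < τ) (hτ1 : τ < 1) (C₀ : ℝ) :
    ∃ L : ℕ, ∀ (E H D V : Type) [Group E] [Group H] [NormedDivisionRing D] [CompleteSpace D]
      [AddCommGroup V] [Module D V] [Module.Finite D V] (A : SL E D V) (π : E →* H) (δ : E →* ℝ)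
      (S : Set H), Module.finrank D V = m → (∃ t : D, ‖t‖ = τ) → Function.Surjective π →
      (∀ e, π e = 1 → A.Scal e) → A.VolC δ C₀ → A.SIb m → NFS S L →
      ∃ N : V → ℝ, IsNorm D N ∧ ∀ s : E, (π s ∈ S ∨ (π s)⁻¹ ∈ S) →
        ∀ v, N (A.act s v) ≤ r₀ * δ s * N v := by
  by_contra hcon
  push Not at hcon
  choose E H D V i1 i2 i3 i4 i5 i6 i7 A π δ S h1 h2 h3 h4 h5 h6 h7 h8 using hcon
  exact upp_main hm hr hτ0 hτ1 A π δ S h1 h2 h3 h4 h5 h6 h7 h8

end Pool.Agent.Lib.MP_9ac97d_al
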