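import Pool.Agent.Lib.MP_9ac97d_al.PP

/-!
# The asymptotic residue field of a sequence of normed skew fields
-/

set_option autoImplicit false

noncomputable section

open Pointwise

namespace Pool.Agent.Lib.MP_9ac97d_al.UP

open Filter

variable {D : ℕ → Type} [∀ L, NormedDivisionRing (D L)] (ω : Ultrafilter ℕ) (Es : ℕ → ℝ)

/-- Sequences of moderate growth. -/
def Mod (x : ∀ L, D L) : Prop := ∃ C : ℕ, ∀ᶠ L in (ω : Filter ℕ), ‖x L‖ ≤ Es L ^ C

/-- Negligible sequences. -/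
def Neg (x : ∀ L, D L) : Prop := ∀ C : ℕ, ∀ᶠ L in (ω : Filter ℕ), ‖x L‖ * Es L ^ C ≤ 1

/-- A residue map on the sequences of moderate growth. -/
structure Res (K : Type) [DivisionRing K] (red : (∀ L, D L) → K) : Prop where
  add : ∀ x y, Mod ω Es x → Mod ω Es y → red (x + y) = red x + red y
  mul : ∀ x y, Mod ω Es x → Mod ω Es y → red (x * y) = red x * red y
  one : red 1 = 1
  zero_iff : ∀ x, Mod ω Es x → (red x = 0 ↔ Neg ω Es x)
  surj : ∀ k, ∃ x, Mod ω Es x ∧ red x = k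
  aut : ∀ α : ∀ L, RingAut (D L), (∀ L d, ‖α L d‖ = ‖d‖) →
    ∃ β : K ≃+* K, ∀ x, Mod ω Es x → red (fun L => α L (x L)) = β (red x)

variable {ω Es}

theorem asym_mod_of_le (hE : ∀ L, 2 ≤ Es L) {x : ∀ L, D L} (h : ∀ L, ‖x L‖ ≤ 2) : Mod ω Es x :=
  ⟨1, Eventually.of_forall fun L => by
    rw [pow_one]
    exact (h L).trans (hE L)⟩

theorem asym_mod_zero : Mod ω Es (0 : ∀ L, D L) :=
  ⟨0, Eventually.of_forall fun L => by simp⟩

theorem asym_mod_one : Mod ω Es (1 : ∀ L, D L) :=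
  ⟨0, Eventually.of_forall fun L => by simp⟩

theorem Mod.add (hE : ∀ L, 2 ≤ Es L) {x y : ∀ L, D L} (hx : Mod ω Es x) (hy : Mod ω Es y) :
    Mod ω Es (x + y) := by
  obtain ⟨a, ha⟩ := hx
  obtain ⟨b, hb⟩ := hy
  refine ⟨a + b + 1, ?_⟩
  filter_upwards [ha, hb] with L h1 h2
  have h3 : Es L ^ a ≤ Es L ^ (a + b) := pow_le_pow_right₀ (asym_one_le hE L) (by omega)
  have h4 : Es L ^ b ≤ Es L ^ (a + b) := pow_le_pow_right₀ (asym_one_le hE L) (by omega)
  have h5 : Es L ^ (a + b) * 2 ≤ Es L ^ (a + b) * Es L :=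
    mul_le_mul_of_nonneg_left (hE L) (pow_pos (asym_pos hE L) _).le
  have h6 : ‖(x + y) L‖ ≤ ‖x L‖ + ‖y L‖ := norm_add_le _ _
  rw [pow_succ]
  linarith

theorem Mod.mul (hE : ∀ L, 2 ≤ Es L) {x y : ∀ L, D L} (hx : Mod ω Es x) (hy : Mod ω Es y) :
    Mod ω Es (x * y) := by
  obtain ⟨a, ha⟩ := hx
  obtain ⟨b, hb⟩ := hy
  refine ⟨a + b, ?_⟩
  filter_upwards [ha, hb] with L h1 h2
  rw [Pi.mul_apply, norm_mul, pow_add]
  exact mul_le_mul h1 h2 (norm_nonneg _) (pow_pos (asym_pos hE L) _).le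

theorem Mod.neg {x : ∀ L, D L} (hx : Mod ω Es x) : Mod ω Es (-x) := by
  obtain ⟨a, ha⟩ := hx
  refine ⟨a, ?_⟩
  filter_upwards [ha] with L h1
  rwa [Pi.neg_apply, norm_neg]

theorem Neg.mod (hE : ∀ L, 2 ≤ Es L) {x : ∀ L, D L} (hx : Neg ω Es x) : Mod ω Es x := by
  refine ⟨1, ?_⟩
  filter_upwards [hx 0] with L h1
  rw [pow_zero, mul_one] at h1
  rw [pow_one]
  exact h1.trans (asym_one_le hE L)

theorem Mod.sum (hE : ∀ L, 2 ≤ Es L) {κ : Type} (s : Finset κ) {x : κ → ∀ L, D L}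
    (hx : ∀ i ∈ s, Mod ω Es (x i)) : Mod ω Es (∑ i ∈ s, x i) := by
  classical
  induction s using Finset.induction_on with
  | empty =>
    rw [Finset.sum_empty]
    exact asym_mod_zero
  | insert i s hi ih =>
    rw [Finset.sum_insert hi]
    exact Mod.add hE (hx i (Finset.mem_insert_self _ _))
      (ih fun j hj => hx j (Finset.mem_insert_of_mem hj))

theorem asym_neg_of_eventually {x : ∀ L, D L} (h : ∀ᶠ L in (ω : Filter ℕ), x L = 0) :
    Neg ω Es x := fun C => by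
  filter_upwards [h] with L h1
  rw [h1, norm_zero, zero_mul]
  exact zero_le_one

theorem asym_neg_add (hE : ∀ L, 2 ≤ Es L) {x y : ∀ L, D L} (hx : Neg ω Es x) (hy : Neg ω Es y) :
    Neg ω Es (x + y) := fun C => by
  filter_upwards [hx (C + 1), hy (C + 1)] with L h1 h2
  have h3 : ‖(x + y) L‖ ≤ ‖x L‖ + ‖y L‖ := norm_add_le _ _
  have h4 : 0 ≤ Es L ^ C := (pow_pos (asym_pos hE L) _).le
  have h5 : ‖(x + y) L‖ * Es L ^ C ≤ (‖x L‖ + ‖y L‖) * Es L ^ C :=
    mul_le_mul_of_nonneg_right h3 h4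
  have h6 : (‖x L‖ + ‖y L‖) * Es L ^ C * 2 ≤ (‖x L‖ + ‖y L‖) * Es L ^ C * Es L :=
    mul_le_mul_of_nonneg_left (hE L) (mul_nonneg (add_nonneg (norm_nonneg _) (norm_nonneg _)) h4)
  rw [pow_succ] at h1 h2
  linarith

theorem asym_neg_of_le (hE : ∀ L, 2 ≤ Es L) {a x y : ∀ L, D L} (ha : Mod ω Es a) (hx : Neg ω Es x)
    (h : ∀ L, ‖y L‖ = ‖a L‖ * ‖x L‖) : Neg ω Es y := fun C => by
  obtain ⟨c, hc⟩ := ha
  filter_upwards [hc, hx (c + C)] with L h1 h2
  have h4 : 0 ≤ Es L ^ C := (pow_pos (asym_pos hE L) _).le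
  have h5 : ‖a L‖ * (‖x L‖ * Es L ^ C) ≤ Es L ^ c * (‖x L‖ * Es L ^ C) :=
    mul_le_mul_of_nonneg_right h1 (mul_nonneg (norm_nonneg _) h4)
  rw [pow_add] at h2
  rw [h L]
  linarith

theorem asym_not_neg_one (hE : ∀ L, 2 ≤ Es L) : ¬ Neg ω Es (1 : ∀ L, D L) := fun h => by
  obtain ⟨L, h1⟩ := (h 1).exists
  rw [Pi.one_apply, norm_one, one_mul, pow_one] at h1
  linarith [hE L]

theorem asym_red_zero {K : Type} [DivisionRing K] {red : (∀ L, D L) → K} (h : Res ω Es K red) :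
    red 0 = 0 :=
  (h.zero_iff 0 asym_mod_zero).2 (asym_neg_of_eventually (Eventually.of_forall fun _ => rfl))

theorem Res.sum (hE : ∀ L, 2 ≤ Es L) {K : Type} [DivisionRing K] {red : (∀ L, D L) → K}
    (h : Res ω Es K red) {κ : Type} (s : Finset κ) {x : κ → ∀ L, D L}
    (hx : ∀ i ∈ s, Mod ω Es (x i)) : red (∑ i ∈ s, x i) = ∑ i ∈ s, red (x i) := by
  classical
  induction s using Finset.induction_on with
  | empty =>
    rw [Finset.sum_empty, Finset.sum_empty]
    exact asym_red_zero h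
  | insert i s hi ih =>
    have h1 : ∀ j ∈ s, Mod ω Es (x j) := fun j hj => hx j (Finset.mem_insert_of_mem hj)
    rw [Finset.sum_insert hi, Finset.sum_insert hi,
      h.add _ _ (hx i (Finset.mem_insert_self _ _)) (Mod.sum hE s h1), ih h1]

/-- The ring of moderate sequences. -/
def asym_O (D : ℕ → Type) [∀ L, NormedDivisionRing (D L)] (ω : Ultrafilter ℕ) (hE : ∀ L, 2 ≤ Es L) :
    Subring (∀ L, D L) where
  carrier := {x | Mod ω Es x}
  mul_mem' := Mod.mul hE
  one_mem' := asym_mod_one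
  add_mem' := Mod.add hE
  zero_mem' := asym_mod_zero
  neg_mem' := Mod.neg

/-- The ideal of negligible sequences. -/
def asym_I (D : ℕ → Type) [∀ L, NormedDivisionRing (D L)] (ω : Ultrafilter ℕ) (hE : ∀ L, 2 ≤ Es L) :
    Ideal (asym_O D ω hE) where
  carrier := {x | Neg ω Es x.1}
  add_mem' := asym_neg_add hE
  zero_mem' := asym_neg_of_eventually (Eventually.of_forall fun _ => rfl)
  smul_mem' := fun a _ hx => asym_neg_of_le hE a.2 hx fun _ => norm_mul _ _

theorem asym_twoSided (hE : ∀ L, 2 ≤ Es L) : (asym_I D ω hE).IsTwoSided :=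
  ⟨fun b hx => asym_neg_of_le hE b.2 hx fun _ => (norm_mul _ _).trans (mul_comm _ _)⟩

/-- Isometric automorphisms act on the moderate sequences. -/
def asym_aut (hE : ∀ L, 2 ≤ Es L) (α : ∀ L, RingAut (D L)) (hα : ∀ L d, ‖α L d‖ = ‖d‖) :
    asym_O D ω hE ≃+* asym_O D ω hE where
  toFun x := ⟨fun L => α L (x.1 L), by
    obtain ⟨C, hC⟩ := x.2
    exact ⟨C, hC.mono fun L h => (hα L _).le.trans h⟩⟩
  invFun x := ⟨fun L => (α L).symm (x.1 L), by
    obtain ⟨C, hC⟩ := x.2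
    refine ⟨C, hC.mono fun L h => ?_⟩
    rw [← hα L, RingEquiv.apply_symm_apply]
    exact h⟩
  left_inv x := Subtype.ext (funext fun L => (α L).symm_apply_apply _)
  right_inv x := Subtype.ext (funext fun L => (α L).apply_symm_apply _)
  map_mul' x y := Subtype.ext (funext fun L => map_mul (α L) _ _)
  map_add' x y := Subtype.ext (funext fun L => map_add (α L) _ _)

theorem asym_aut_mem (hE : ∀ L, 2 ≤ Es L) (α : ∀ L, RingAut (D L)) (hα : ∀ L d, ‖α L d‖ = ‖d‖)
    (x : asym_O D ω hE) : asym_aut hE α hα x ∈ asym_I D ω hE ↔ x ∈ asym_I D ω hE := by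
  change (∀ C : ℕ, ∀ᶠ L in (ω : Filter ℕ), ‖α L (x.1 L)‖ * Es L ^ C ≤ 1) ↔
    ∀ C : ℕ, ∀ᶠ L in (ω : Filter ℕ), ‖x.1 L‖ * Es L ^ C ≤ 1
  simp only [hα]

theorem asym_map (hE : ∀ L, 2 ≤ Es L) (α : ∀ L, RingAut (D L)) (hα : ∀ L d, ‖α L d‖ = ‖d‖) :
    asym_I D ω hE = (asym_I D ω hE).map
      (asym_aut (ω := ω) hE α hα : asym_O D ω hE →+* asym_O D ω hE) := by
  apply le_antisymm
  · intro x hx
    obtain ⟨y, rfl⟩ := (asym_aut hE α hα).surjective x
    exact Ideal.mem_map_of_mem _ ((asym_aut_mem hE α hα y).1 hx)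
  · rw [Ideal.map_le_iff_le_comap]
    intro x hx
    exact (asym_aut_mem hE α hα x).2 hx

theorem asym_inv {x : ∀ L, D L} (hx : ¬ Neg ω Es x) :
    Mod ω Es (fun L => (x L)⁻¹) ∧ ∀ᶠ L in (ω : Filter ℕ), x L ≠ 0 := by
  obtain ⟨C, hC⟩ := not_forall.1 hx
  have h1 := Ultrafilter.eventually_not.2 hC
  have h2 : ∀ᶠ L in (ω : Filter ℕ), x L ≠ 0 := by
    filter_upwards [h1] with L h h0
    rw [h0, norm_zero, zero_mul] at h
    exact h zero_le_one
  refine ⟨⟨C, ?_⟩, h2⟩
  filter_upwards [h1, h2] with L h h0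
  rw [norm_inv, inv_le_iff_one_le_mul₀' (norm_pos_iff.2 h0)]
  exact (not_le.1 h).le

/-- The moderate sequences form a subring, the negligible ones a two sided ideal, and a moderate
sequence that is not negligible has a moderate inverse along the ultrafilter. -/
theorem exists_res (hE : ∀ L, 2 ≤ Es L) :
    ∃ (K : Type) (_ : DivisionRing K) (red : (∀ L, D L) → K), Res ω Es K red := by
  classical
  have := asym_twoSided (D := D) (ω := ω) hE
  have hnt : Nontrivial (asym_O D ω hE ⧸ asym_I D ω hE) := by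
    refine ⟨1, 0, fun h => asym_not_neg_one (D := D) (ω := ω) hE ?_⟩
    rw [← map_one (Ideal.Quotient.mk (asym_I D ω hE)), Ideal.Quotient.eq_zero_iff_mem] at h
    exact h
  have hu : ∀ a : asym_O D ω hE ⧸ asym_I D ω hE, IsUnit a ∨ a = 0 := by
    intro a
    obtain ⟨x, rfl⟩ := Ideal.Quotient.mk_surjective a
    by_cases hx : Neg ω Es x.1
    · exact Or.inr (Ideal.Quotient.eq_zero_iff_mem.2 hx)
    left
    obtain ⟨h1, h2⟩ := asym_inv hx
    refine ⟨⟨Ideal.Quotient.mk _ x, Ideal.Quotient.mk _ ⟨_, h1⟩, ?_, ?_⟩, rfl⟩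
    · rw [← map_mul, ← map_one (Ideal.Quotient.mk (asym_I D ω hE)), ← sub_eq_zero, ← map_sub,
        Ideal.Quotient.eq_zero_iff_mem]
      refine asym_neg_of_eventually (h2.mono fun L h => ?_)
      change x.1 L * (x.1 L)⁻¹ - 1 = 0
      rw [mul_inv_cancel₀ h, sub_self]
    · rw [← map_mul, ← map_one (Ideal.Quotient.mk (asym_I D ω hE)), ← sub_eq_zero, ← map_sub,
        Ideal.Quotient.eq_zero_iff_mem]
      refine asym_neg_of_eventually (h2.mono fun L h => ?_)
      change (x.1 L)⁻¹ * x.1 L - 1 = 0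
      rw [inv_mul_cancel₀ h, sub_self]
  obtain ⟨red, hred⟩ : ∃ red : (∀ L, D L) → asym_O D ω hE ⧸ asym_I D ω hE,
      ∀ x (hx : Mod ω Es x), red x = Ideal.Quotient.mk (asym_I D ω hE) ⟨x, hx⟩ :=
    ⟨fun x => if hx : Mod ω Es x then Ideal.Quotient.mk (asym_I D ω hE) ⟨x, hx⟩ else 0,
      fun x hx => dif_pos hx⟩
  let : DivisionRing (asym_O D ω hE ⧸ asym_I D ω hE) := DivisionRing.ofIsUnitOrEqZero hu
  refine ⟨asym_O D ω hE ⧸ asym_I D ω hE, inferInstance, red,
    fun x y hx hy => ?_, fun x y hx hy => ?_, ?_, fun x hx => ?_, fun k => ?_, fun α hα => ?_⟩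
  · rw [hred x hx, hred y hy, hred _ (Mod.add hE hx hy)]
    exact map_add (Ideal.Quotient.mk (asym_I D ω hE)) ⟨x, hx⟩ ⟨y, hy⟩
  · rw [hred x hx, hred y hy, hred _ (Mod.mul hE hx hy)]
    exact map_mul (Ideal.Quotient.mk (asym_I D ω hE)) ⟨x, hx⟩ ⟨y, hy⟩
  · rw [hred _ asym_mod_one]
    exact map_one (Ideal.Quotient.mk (asym_I D ω hE))
  · rw [hred x hx]
    exact Ideal.Quotient.eq_zero_iff_mem
  · obtain ⟨x, rfl⟩ := Ideal.Quotient.mk_surjective k
    exact ⟨x.1, x.2, hred _ x.2⟩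
  · refine ⟨Ideal.quotientEquiv _ _ (asym_aut hE α hα) (asym_map hE α hα), fun x hx => ?_⟩
    rw [hred x hx]
    exact hred _ (asym_aut (ω := ω) hE α hα ⟨x, hx⟩).2

/-- A moderate sequence of square matrices whose reduction has a right inverse has, along the
ultrafilter, a moderate inverse: lift the inverse to `M'`; then `M L * M' L = 1 - negligible` is
invertible with bounded inverse (it is injective on vectors by a norm estimate, the dimension is
finite, and the norm estimate bounds the inverse; no completeness is needed). -/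
theorem Res.exists_inv (hE : ∀ L, 2 ≤ Es L) {K : Type} [DivisionRing K] {red : (∀ L, D L) → K}
    (h : Res ω Es K red) {κ : Type} [Fintype κ] [DecidableEq κ] (M : ∀ L, Matrix κ κ (D L))
    (hM : ∀ i j, Mod ω Es fun L => M L i j) (P : Matrix κ κ K)
    (hP : (Matrix.of fun i j => red fun L => M L i j) * P = 1) :
    ∃ M' : ∀ L, Matrix κ κ (D L), (∀ i j, Mod ω Es fun L => M' L i j) ∧
      ∀ᶠ L in (ω : Filter ℕ), M L * M' L = 1 ∧ M' L * M L = 1 := by
  choose Q hQ hQP using fun i j => h.surj (P i j)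
  set N : ∀ L, Matrix κ κ (D L) := fun L => Matrix.of fun i j => Q i j L with hN
  have hone : ∀ i j, Mod ω Es (fun L => (1 : Matrix κ κ (D L)) i j) ∧
      red (fun L => (1 : Matrix κ κ (D L)) i j) = (1 : Matrix κ κ K) i j := by
    intro i j
    by_cases hij : i = j
    · subst hij
      simp only [Matrix.one_apply_eq]
      exact ⟨asym_mod_one, h.one⟩
    · simp only [Matrix.one_apply_ne hij]
      exact ⟨asym_mod_zero, asym_red_zero h⟩
  have hneg : ∀ i j, Neg ω Es fun L => (1 - M L * N L) i j := by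
    intro i j
    have e : (fun L => (M L * N L) i j) = ∑ k, (fun L => M L i k) * Q k j := by
      funext L
      rw [Matrix.mul_apply, Finset.sum_apply]
      rfl
    have h1 : ∀ k ∈ Finset.univ, Mod ω Es ((fun L => M L i k) * Q k j) :=
      fun k _ => Mod.mul hE (hM i k) (hQ k j)
    have h2 : Mod ω Es fun L => (M L * N L) i j := by
      rw [e]
      exact Mod.sum hE _ h1
    have h3 : red (fun L => (M L * N L) i j) = (1 : Matrix κ κ K) i j := by
      rw [e, h.sum hE _ h1, ← hP, Matrix.mul_apply]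
      refine Finset.sum_congr rfl fun k _ => ?_
      rw [h.mul _ _ (hM i k) (hQ k j), hQP, Matrix.of_apply]
    have h4 : Mod ω Es fun L => (1 - M L * N L) i j := by
      have e2 : (fun L => (1 - M L * N L) i j) =
          (fun L => (1 : Matrix κ κ (D L)) i j) + -fun L => (M L * N L) i j := by
        funext L
        rw [Matrix.sub_apply, sub_eq_add_neg]
        rfl
      rw [e2]
      exact Mod.add hE (hone i j).1 h2.neg
    have h5 := h.add _ _ h4 h2
    have e3 : ((fun L => (1 - M L * N L) i j) + fun L => (M L * N L) i j) =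
        fun L => (1 : Matrix κ κ (D L)) i j := by
      funext L
      rw [Pi.add_apply, Matrix.sub_apply, sub_add_cancel]
    rw [e3, (hone i j).2, h3] at h5
    exact (h.zero_iff _ h4).1 (by simpa using h5)
  have hB : ∀ L, ∃ B : Matrix κ κ (D L), (∀ i j, ‖B i j‖ ≤ 2) ∧
      ((∀ i j, ‖(1 - M L * N L) i j‖ * (2 * Fintype.card κ) ≤ 1) → B * (M L * N L) = 1) := by
    intro L
    by_cases hc : ∀ i j, ‖(1 - M L * N L) i j‖ * (2 * Fintype.card κ) ≤ 1
    · obtain ⟨B, h1, h2⟩ := asym_left_inv _ hc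
      exact ⟨B, h1, fun _ => h2⟩
    · exact ⟨0, fun i j => by simp, fun hc' => absurd hc' hc⟩
  choose B hB1 hB2 using hB
  refine ⟨fun L => N L * B L, fun i j => ?_, ?_⟩
  · have e : (fun L => (N L * B L) i j) = ∑ k, Q i k * fun L => B L k j := by
      funext L
      rw [Matrix.mul_apply, Finset.sum_apply]
      rfl
    rw [e]
    exact Mod.sum hE _ fun k _ => Mod.mul hE (hQ i k) (asym_mod_of_le hE fun L => hB1 L k j)
  · have h1 : ∀ᶠ L in (ω : Filter ℕ), ∀ i j,
        ‖(1 - M L * N L) i j‖ * Es L ^ (Fintype.card κ + 1) ≤ 1 :=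
      eventually_all.2 fun i => eventually_all.2 fun j => hneg i j _
    filter_upwards [h1] with L hL
    have h2 : (2 * Fintype.card κ : ℝ) ≤ Es L ^ (Fintype.card κ + 1) := by
      have h3 : (Fintype.card κ : ℝ) ≤ 2 ^ Fintype.card κ := by
        exact_mod_cast (Nat.lt_two_pow_self (n := Fintype.card κ)).le
      have h4 : (2 : ℝ) ^ (Fintype.card κ + 1) ≤ Es L ^ (Fintype.card κ + 1) :=
        pow_le_pow_left₀ zero_le_two (hE L) _
      rw [pow_succ] at h4
      linarith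
    have h5 := hB2 L fun i j => (mul_le_mul_of_nonneg_left h2 (norm_nonneg _)).trans (hL i j)
    have h6 : M L * (N L * B L) = 1 := by
      rw [← mul_assoc]
      exact mul_eq_one_comm.1 h5
    exact ⟨h6, mul_eq_one_comm.1 h6⟩

end Pool.Agent.Lib.MP_9ac97d_al.UP
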