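import Pool.Agent.Lib.MP_9ac97d_al.UPos

/-!
# Two sections that differ by a homomorphism into the fixed group (task UPair)
-/

set_option autoImplicit false

noncomputable section

open Pointwise

namespace Pool.Agent.Lib.MP_9ac97d_al

namespace Ext

variable {E H : Type} [Group E] [Group H] {n : ℕ} (X : Ext E H n)

/-- The formula for `σ` in terms of a pair of lifts that normalize `σ` and `τ`. -/
theorem upair_formula {M : Subgroup H} [M.Normal] {σ τ : M →* E} {u : M → Fr n}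
    (hu : ∀ x, u x ∈ X.Fix τ ∧ σ x = X.j (u x) * τ x) {A B : E} (hA : A ∈ X.NE σ)
    (hB : B ∈ X.NE τ) {g : Fr n} (hg : A = X.j g * B) (x : M) :
    σ (MulAut.conjNormal (X.π A) x) =
      X.j (g * X.ρ B (u x)) * τ (MulAut.conjNormal (X.π A) x) * (X.j g)⁻¹ := by
  have hAB : X.π A = X.π B := by rw [hg, map_mul, X.π_j, one_mul]
  rw [X.mem_ne.1 hA x, hAB, X.mem_ne.1 hB x, (hu x).2, map_mul, ← X.conj_j, hg]
  group

/-- Let `H₁` be the intersection of the images of `NE σ` and `NE τ`, and use `bi_of_no_family` in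
`H₁` with `a = n + 1`. For `h ∈ H₁` take `a ∈ NE σ`, `b ∈ NE τ` over `h`, `a = j g * b`; then
`σ x = j (g * u' x) * τ x * (j g)⁻¹` with `u' x = ρ b (u (h⁻¹ x h)) ∈ Fix τ`. If `g' = z * g * t`,
`z ∈ Fix σ`, `t ∈ Fix τ`, for two elements `h`, `h'` then `a⁻¹ * (j z)⁻¹ * a' = b⁻¹ * j t * b'` lies
in `NE σ ⊓ NE τ`. Among `n + 2` elements `g` two lie in the same double coset: otherwise at most one
lies in the double coset of `1`, drop it and apply `pos`. -/
theorem bi_ne_inf (hn : 2 ≤ n) {o : BiOrd (Fr n)} {M : Subgroup H} [M.Normal] {σ τ : M →* E}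
    (ho : ∀ x, o.Pres (X.ρ (τ x))) {a b : ℕ} (h1 : BI ((X.NE σ).map X.π) a)
    (h2 : BI ((X.NE τ).map X.π) b) {u : M → Fr n}
    (hu : ∀ x, u x ∈ X.Fix τ ∧ σ x = X.j (u x) * τ x) (hna : ∃ x y, ¬ Commute (u x) (u y)) :
    BI ((X.NE σ ⊓ X.NE τ).map X.π) (a * b * (n + 1)) := by
  refine BI.of_subgroupOf (h1.inf h2) (bi_of_no_family fun z => ?_)
  have hA : ∀ i, ∃ A ∈ X.NE σ, X.π A = z i := fun i => (z i).2.1
  have hB : ∀ i, ∃ B ∈ X.NE τ, X.π B = z i := fun i => (z i).2.2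
  choose A hA hA' using hA
  choose B hB hB' using hB
  have hg : ∀ i, ∃ g, A i = X.j g * B i := fun i =>
    X.exists_j_of_π_eq (by rw [hA', hB'])
  choose g hg using hg
  set u' : Fin (n + 1 + 1) → M → Fr n :=
    fun i x => X.ρ (B i) (u ((MulAut.conjNormal (X.π (A i)) : MulAut M).symm x)) with hu'
  have hu1 : ∀ i x, u' i x ∈ X.Fix τ ∧
      σ x = X.j (g i * u' i x) * τ x * (X.j (g i))⁻¹ := by
    intro i x
    refine ⟨X.smul_mem (X.pair_ne hn τ) (hB i) (hu _).1, ?_⟩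
    have h := X.upair_formula hu (hA i) (hB i) (hg i)
      ((MulAut.conjNormal (X.π (A i)) : MulAut M).symm x)
    rwa [MulEquiv.apply_symm_apply] at h
  have hna' : ∀ i, ∃ x y, ¬ Commute (u' i x) (u' i y) := by
    intro i
    obtain ⟨x, y, hxy⟩ := hna
    refine ⟨MulAut.conjNormal (X.π (A i)) x, MulAut.conjNormal (X.π (A i)) y, fun hc => hxy ?_⟩
    simp only [hu', MulEquiv.symm_apply_apply] at hc
    apply (X.ρ (B i)).injective
    rw [map_mul, map_mul]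
    exact hc
  have key : ∃ i k, i ≠ k ∧ ∃ z ∈ X.Fix σ, ∃ t ∈ X.Fix τ, g k = z * g i * t := by
    have hp : ∀ i₀ : Fin (n + 1 + 1), (∃ i, i ≠ i₀ ∧ ∃ z ∈ X.Fix σ, ∃ t ∈ X.Fix τ, g i = z * t) ∨
        ∃ i k, i ≠ k ∧ ∃ z ∈ X.Fix σ, ∃ t ∈ X.Fix τ, g k = z * g i * t := by
      intro i₀
      rcases X.pos hn σ τ ho u hu (fun i => g (i₀.succAbove i)) (fun i => u' (i₀.succAbove i))
        (fun i => hu1 _) (fun i => hna' _) with ⟨i, h⟩ | ⟨i, k, hik, h⟩
      · exact Or.inl ⟨_, Fin.succAbove_ne i₀ i, h⟩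
      · exact Or.inr ⟨_, _, fun h' => hik (Fin.succAbove_right_injective h'), h⟩
    rcases hp 0 with ⟨i, -, z₁, hz₁, t₁, ht₁, h₁⟩ | h
    · rcases hp i with ⟨k, hk, z₂, hz₂, t₂, ht₂, h₂⟩ | h
      · refine ⟨i, k, hk.symm, z₂ * z₁⁻¹, mul_mem hz₂ (inv_mem hz₁), t₁⁻¹ * t₂,
          mul_mem (inv_mem ht₁) ht₂, ?_⟩
        rw [h₁, h₂]
        group
      · exact h
    · exact h
  obtain ⟨i, k, hik, w, hw, t, ht, hwt⟩ := key
  refine ⟨i, k, hik, ?_⟩
  rw [Subgroup.mem_subgroupOf]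
  have heq : (A i)⁻¹ * (X.j w)⁻¹ * A k = (B i)⁻¹ * X.j t * B k := by
    rw [hg i, hg k, hwt, map_mul, map_mul]
    group
  refine Subgroup.mem_map.2 ⟨(A i)⁻¹ * (X.j w)⁻¹ * A k, Subgroup.mem_inf.2 ⟨?_, ?_⟩, ?_⟩
  · exact mul_mem (mul_mem (inv_mem (hA i)) (inv_mem ((X.j_mem_ne_iff hn).2 hw))) (hA k)
  · rw [heq]
    exact mul_mem (mul_mem (inv_mem (hB i)) ((X.j_mem_ne_iff hn).2 ht)) (hB k)
  · rw [map_mul, map_mul, map_inv, map_inv, X.π_j, hA', hA']
    simp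

/-- The fixed group does not change under restriction to a finite index subgroup. -/
theorem upair_fix_eq {Y Y₀ : Subgroup H} (hle : Y₀ ≤ Y) (hfi : (Y₀.subgroupOf Y).FiniteIndex)
    {o : BiOrd (Fr n)} {τ' : Y →* E} (hord : ∀ v, o.Pres (X.ρ (τ' v))) :
    X.Fix (τ'.comp (Subgroup.inclusion hle)) = X.Fix τ' := by
  ext g
  rw [X.mem_fix, X.mem_fix]
  refine ⟨fun h v => ?_, fun h x => h _⟩
  obtain ⟨k, hk, -, hk'⟩ := Subgroup.exists_pow_mem_of_index_ne_zero hfi.index_ne_zero v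
  refine fix_of_pow_fix (hord v) hk.ne' ?_
  have h2 := h ⟨((v ^ k : Y) : H), Subgroup.mem_subgroupOf.1 hk'⟩
  rw [← map_pow, ← map_pow]
  exact h2

/-- Lifts in the intersection of the two normalizers are unique. -/
theorem upair_uniq (hn : 2 ≤ n) {M : Subgroup H} [M.Normal] {σ τ : M →* E} {u : M → Fr n}
    (hu : ∀ x, u x ∈ X.Fix τ ∧ σ x = X.j (u x) * τ x) {x y : M} (hxy : ¬ Commute (u x) (u y)) :
    ∀ e ∈ X.NE σ ⊓ X.NE τ, X.π e = 1 → e = 1 := by
  intro e he he1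
  obtain ⟨g, hg⟩ := X.exists_j_of_π_eq (e := e) (e' := 1) (by rw [he1, map_one])
  rw [mul_one] at hg
  subst hg
  have hgσ := X.mem_fix.1 ((X.j_mem_ne_iff hn).1 (Subgroup.mem_inf.1 he).1)
  have hgτ := X.mem_fix.1 ((X.j_mem_ne_iff hn).1 (Subgroup.mem_inf.1 he).2)
  have hcm : ∀ v, Commute (u v) g := by
    intro v
    have h := hgσ v
    rw [(hu v).2, map_mul, MulAut.mul_apply, hgτ v, X.ρ_j, MulAut.conj_apply] at h
    exact mul_inv_eq_iff_eq_mul.1 h
  have hg1 : g = 1 := by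
    by_contra hg1
    exact hxy (commute_trans hg1 (hcm x) (hcm y).symm)
  rw [hg1, map_one]

/-- The values of a section normalize its restriction. -/
theorem upair_mem_ne {Y Y₀ : Subgroup H} [Y₀.Normal] (hle : Y₀ ≤ Y) {τ' : Y →* E}
    (hτ : X.Sec τ') (v : Y) : τ' v ∈ X.NE (τ'.comp (Subgroup.inclusion hle)) := by
  rw [X.mem_ne]
  intro x
  rw [MonoidHom.comp_apply, MonoidHom.comp_apply, ← map_inv, ← map_mul, ← map_mul]
  congr 1
  apply Subtype.ext
  simp [hτ v]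

/-- The difference of two sections is multiplicative if it takes values in the fixed group. -/
theorem upair_mul (hn : 2 ≤ n) {Γ : Type} [Group Γ] {σ τ : Γ →* E} {w : Γ → Fr n}
    (hw : ∀ v, σ v = X.j (w v) * τ v) (hfix : ∀ v, w v ∈ X.Fix τ) (v v' : Γ) :
    w (v * v') = w v * w v' := by
  apply X.j_injective hn
  have h := hw (v * v')
  rw [map_mul, hw v, hw v', map_mul] at h
  have h4 : τ v * X.j (w v') * (τ v)⁻¹ = X.j (w v') := by
    rw [X.conj_j, X.mem_fix.1 (hfix v') v]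
  have h5 : X.j (w (v * v')) = X.j (w v) * (τ v * X.j (w v') * (τ v)⁻¹) := by
    rw [← mul_inv_eq_iff_eq_mul] at h
    rw [← h]
    group
  rw [h5, h4, map_mul]

/-- An element that preserves the nonabelian fixed group conjugates the section to itself. -/
theorem upair_conj {Y : Subgroup H} {τ' : Y →* E} (hτ : X.Sec τ') (hna : NonAb (X.Fix τ'))
    {e : E} (he : ∀ s ∈ X.Fix τ', X.ρ e⁻¹ s ∈ X.Fix τ') {v v' : Y}
    (hv : (v' : H) = X.π e * v * (X.π e)⁻¹) : τ' v' = e * τ' v * e⁻¹ := by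
  have hcent : ∀ v : Y, τ' v ∈ X.cent (X.Fix τ') := fun v s hs => X.mem_fix.1 hs v
  have h4 : e * τ' v * e⁻¹ ∈ X.cent (X.Fix τ') := by
    intro s hs
    rw [map_mul, map_mul, MulAut.mul_apply, MulAut.mul_apply, hcent v _ (he s hs),
      ← MulAut.mul_apply, ← map_mul, mul_inv_cancel, map_one, MulAut.one_apply]
  have h6 := X.xglue_uniq_cent hna ((τ' v')⁻¹ * (e * τ' v * e⁻¹))
    (mul_mem (inv_mem (hcent v')) h4)
    (by
      rw [map_mul, map_inv, map_mul, map_mul, map_inv, hτ v, hτ v', hv]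
      exact inv_mul_cancel _)
  exact inv_mul_eq_one.1 h6

theorem upair_le (n : ℕ) : 4 * n ^ 2 * (n - 1) * (n + 1) ≤ cA n := by
  unfold cA
  refine Nat.mul_le_mul_right _ ?_
  rw [sq (4 * n ^ 2)]
  refine Nat.mul_le_mul_left _ ?_
  have : n ≤ n ^ 2 := Nat.le_self_pow (by norm_num) n
  omega

/-- Suppose not. Let `τ` be the restriction of `τ'` to `Y₀`; `Fix τ = Fix τ'` (`fix_of_pow_fix`), and
`fix_nice` bounds the index of the image of `NE τ`. By `bi_ne_inf` every `g ∈ G` has a lift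
`e g ∈ Q = NE σ ⊓ NE τ`, and it is unique, since `Fix σ ⊓ Fix τ` commutes with all `u x`
(`commute_trans`); so `e` is a homomorphism (`xglue_lift`). For `y ∈ YY G` write
`e y = j (u' y) * τ' y`; `τ' y ∈ NE τ`, so `u' y ∈ Fix τ` (`j_mem_ne_iff`) and `u'` is a homomorphism
that extends `u`. Also `e g * τ' y * (e g)⁻¹ = τ' (g y g⁻¹)`, because both fix the nonabelian group
`Fix τ` pointwise (`xglue_uniq_cent`, `ne_le_norm_fix`). So `u'` is equivariant for `φ g = ρ (e g)`,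
against `SPE`. -/
theorem pair_comm {G : Subgroup H} {o : BiOrd (Fr n)} (hc : X.Ctx G o) {Y₀ : Subgroup H}
    [Y₀.Normal] (hle : Y₀ ≤ YY G) (hfi : (Y₀.subgroupOf (YY G)).FiniteIndex) {σ : Y₀ →* E}
    (h1 : BI ((X.NE σ).map X.π) (4 * n ^ 2)) {τ' : YY G →* E} (hτ : X.Sec τ')
    (hna : NonAb (X.Fix τ')) {u : Y₀ → Fr n}
    (hu : ∀ x, u x ∈ X.Fix τ' ∧ σ x = X.j (u x) * τ' (Subgroup.inclusion hle x)) (x y : Y₀) :
    Commute (u x) (u y) := by
  by_contra hxy
  have hn := hc.two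
  have hord : ∀ v : YY G, o.Pres (X.ρ (τ' v)) := fun v =>
    hc.ord _ (by rw [hτ v]; exact yy_le_comm G v.2)
  have hfix := X.upair_fix_eq hle hfi hord
  have hτ'ne := X.upair_mem_ne hle hτ
  have hτa : ∀ x, τ'.comp (Subgroup.inclusion hle) x = τ' (Subgroup.inclusion hle x) :=
    fun _ => rfl
  generalize τ'.comp (Subgroup.inclusion hle) = τ at hfix hτ'ne hτa
  have hsτ : X.Sec τ := fun x => by rw [hτa, hτ]; rfl
  have hna1 : NonAb (X.Fix τ) := by rw [hfix]; exact hna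
  have hu1 : ∀ x, u x ∈ X.Fix τ ∧ σ x = X.j (u x) * τ x := fun x => by
    rw [hfix, hτa]; exact hu x
  have hsσ : X.Sec σ := fun x => by rw [(hu1 x).2, map_mul, X.π_j, one_mul, hsτ x]
  have h2 : BI ((X.NE τ).map X.π) (n - 1) :=
    (X.fix_nice (o := o) (fun e he => hc.ord e (yy_le_comm G (hle he))) hsτ hna1).2.2.1
  have h3 := X.bi_ne_inf hn (o := o) (fun x => by rw [hτa]; exact hord _) h1 h2 hu1 ⟨x, y, hxy⟩
  have hG : G ≤ (X.NE σ ⊓ X.NE τ).map X.π := hc.under.le h3 (upair_le n)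
  have huniq := X.upair_uniq hn hu1 hxy
  obtain ⟨e, he⟩ := X.xglue_lift G _ (fun g hg => hG hg) huniq
  have heτ : ∀ g, e g ∈ X.NE τ := fun g => (Subgroup.mem_inf.1 (he g).1).2
  have hw : ∀ v : YY G, ∃ w, e.comp (Subgroup.inclusion (yy_le G)) v = X.j w * τ' v := fun v =>
    X.exists_j_of_π_eq (by rw [MonoidHom.comp_apply, (he _).2, hτ v]; rfl)
  choose w hw using hw
  have hwfix : ∀ v, w v ∈ X.Fix τ' := by
    intro v
    rw [← hfix, ← X.j_mem_ne_iff hn]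
    have h : X.j (w v) = e.comp (Subgroup.inclusion (yy_le G)) v * (τ' v)⁻¹ := by
      rw [hw v, mul_inv_cancel_right]
    rw [h]
    exact mul_mem (heτ _) (inv_mem (hτ'ne v))
  have hext : ∀ x : Y₀, w (Subgroup.inclusion hle x) = u x := by
    intro x
    apply X.j_injective hn
    have hσQ : σ x ∈ X.NE σ ⊓ X.NE τ := by
      refine Subgroup.mem_inf.2 ⟨X.sec_mem_ne hsσ x, ?_⟩
      rw [(hu1 x).2]
      exact mul_mem ((X.j_mem_ne_iff hn).2 (hu1 x).1) (X.sec_mem_ne hsτ x)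
    have h := huniq ((e.comp (Subgroup.inclusion (yy_le G)) (Subgroup.inclusion hle x))⁻¹ * σ x)
      (mul_mem (inv_mem (he _).1) hσQ)
      (by rw [map_mul, map_inv, MonoidHom.comp_apply, (he _).2, hsσ x]; exact inv_mul_cancel _)
    rw [inv_mul_eq_one, hw, (hu x).2] at h
    exact mul_right_cancel h
  have hequiv : ∀ (g : G) (v v' : YY G), (v' : H) = g * v * (g : H)⁻¹ →
      w v' = X.ρ (e g) (w v) := by
    intro g v v' hv
    apply X.j_injective hn
    have h6 : τ' v' = e g * τ' v * (e g)⁻¹ := by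
      refine X.upair_conj hτ hna (fun s hs => ?_) (by rw [(he g).2]; exact hv)
      rw [← hfix] at hs ⊢
      exact X.smul_mem (X.pair_ne hn τ) (inv_mem (heτ g)) hs
    have h7 : Subgroup.inclusion (yy_le G) v' = g * Subgroup.inclusion (yy_le G) v * g⁻¹ :=
      Subtype.ext hv
    have h8 := hw v'
    have h9 := hw v
    rw [MonoidHom.comp_apply] at h8 h9
    rw [h7, map_mul, map_mul, map_inv, h9, h6, ← mul_inv_eq_iff_eq_mul] at h8
    rw [← X.conj_j, ← h8]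
    group
  have h9 := hc.sp n (MonoidHom.mk' w (X.upair_mul hn hw hwfix)) (fun g => X.ρ (e g)) hequiv
    (Subgroup.inclusion hle x) (Subgroup.inclusion hle y)
  apply hxy
  rw [← hext x, ← hext y]
  exact h9

end Ext

end Pool.Agent.Lib.MP_9ac97d_al
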