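import Pool.Agent.Lib.MP_9ac97d_al.UFix

/-!
# The number of relative positions of two sections (task UPos)
-/

set_option autoImplicit false

noncomputable section

open Pointwise

namespace Pool.Agent.Lib.MP_9ac97d_al

section General

variable {G D : Type} [Group G] [DivisionRing D] (ι : G →* D)

omit [Group G] in
theorem upos_supp_ind {M : Type} [AddCommGroup M] [Module D M] {S : Set G}
    (φ : (G →₀ D) →+ M) (R : Submodule D M) (h : ∀ a ∈ S, ∀ d, φ (Finsupp.single a d) ∈ R)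
    {z : G →₀ D} (hz : z ∈ Finsupp.supported D D S) : φ z ∈ R := by
  rw [← Finsupp.sum_single z, Finsupp.sum, map_sum]
  exact Submodule.sum_mem _ fun a ha => h a ((Finsupp.mem_supported _ _).1 hz ha) _

/-- Apply an additive map to all coefficients. -/
def uposCm (r : D →+ D) : (G →₀ D) →+ (G →₀ D) := Finsupp.mapRange.addMonoidHom r

omit [Group G] in
theorem upos_cm_single (r : D →+ D) (a : G) (d : D) :
    uposCm r (Finsupp.single a d) = Finsupp.single a (r d) := by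
  rw [uposCm, Finsupp.mapRange.addMonoidHom_apply, Finsupp.mapRange_single]

omit [Group G] in
theorem upos_cm_apply (r : D →+ D) (z : G →₀ D) (a : G) : uposCm r z a = r (z a) := rfl

omit [Group G] in
theorem upos_cm_supp (r : D →+ D) {S : Set G} {z : G →₀ D} (hz : z ∈ Finsupp.supported D D S) :
    uposCm r z ∈ Finsupp.supported D D S :=
  upos_supp_ind (uposCm r) _ (fun a ha d => by
    rw [upos_cm_single]; exact Finsupp.single_mem_supported D _ ha) hz

theorem upos_cm_rel (r : D →+ D) {S : Subgroup G} (hr : ∀ a ∈ S, ∀ d, r (d * ι a) = r d * ι a)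
    {z : G →₀ D} (hz : z ∈ Rel ι S) : uposCm r z ∈ Rel ι S := by
  have key : ∀ d : D, uposCm r (d • z) ∈ Rel ι S := by
    unfold Rel at hz
    induction hz using Submodule.span_induction with
    | mem w hw =>
      obtain ⟨a, ha, b, hb, rfl⟩ := hw
      intro d
      have h : Finsupp.single (a * b) (1 : D) - Finsupp.single a 1 - Finsupp.single b (ι a) ∈
          Rel ι S := Submodule.subset_span ⟨a, ha, b, hb, rfl⟩
      have h2 := (Rel ι S).smul_mem (r d) h
      simp only [smul_sub, Finsupp.smul_single, smul_eq_mul, mul_one, map_sub, upos_cm_single,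
        hr a ha] at h2 ⊢
      exact h2
    | zero => intro d; rw [smul_zero, map_zero]; exact zero_mem _
    | add x y _ _ hx hy => intro d; rw [smul_add, map_add]; exact add_mem (hx d) (hy d)
    | smul e x _ hx => intro d; rw [smul_smul]; exact hx _
  simpa using key 1

end General

variable {n : ℕ}

theorem upos_dep {D : Type} [DivisionRing D] (ι : Fr n →* D) (g : Fin (n + 1) → Fr n) :
    ∃ d : Fin (n + 1) → D, d ≠ 0 ∧ ∑ k, d k • Finsupp.single (g k) (1 : D) ∈ Rel ι ⊤ := by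
  set W := Submodule.span D (Set.range fun i : Fin n => MBasic_dl ι ⊤ (FreeGroup.of i)) with hW
  have hmem : ∀ a : Fr n, MBasic_dl ι ⊤ a ∈ W := by
    intro a
    induction a using FreeGroup.induction_on with
    | C1 => rw [MBasic_dl_one]; exact zero_mem _
    | of i => exact Submodule.subset_span ⟨i, rfl⟩
    | inv_of i h =>
      rw [MBasic_dl_inv ι (Subgroup.mem_top _)]
      exact neg_mem (W.smul_mem _ h)
    | mul a b ha hb =>
      rw [MBasic_dl_mul ι (Subgroup.mem_top _) (Subgroup.mem_top _)]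
      exact add_mem ha (W.smul_mem _ hb)
  have hfin : Module.Finite D W := Module.Finite.span_of_finite D (Set.finite_range _)
  have hdep : ¬ LinearIndependent D fun k => (⟨MBasic_dl ι ⊤ (g k), hmem _⟩ : W) := by
    intro h
    have h1 := h.fintype_card_le_finrank
    have h2 : Module.finrank D W ≤ Fintype.card (Fin n) := finrank_range_le_card _
    simp only [Fintype.card_fin] at h1 h2
    omega
  rw [Fintype.not_linearIndependent_iff] at hdep
  obtain ⟨d, hd, k, hk⟩ := hdep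
  refine ⟨d, fun h => hk (congrFun h k), ?_⟩
  have h3 := congrArg Subtype.val hd
  rw [MBasic_mem_rel, map_sum]
  simp only [map_smul]
  rw [Submodule.coe_sum] at h3
  exact h3

variable {o : BiOrd (Fr n)}

/-- The twisted action on coefficients. -/
def uposTw (Φ : MulAut (Fr n)) (h : o.Pres Φ) (w : Fr n) : MN o →+ MN o :=
  (AddMonoidHom.mulRight (MN.of o w)).comp (MN.map Φ h).toAddMonoidHom

theorem upos_tw_apply (Φ : MulAut (Fr n)) (h : o.Pres Φ) (w : Fr n) (f : MN o) :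
    uposTw Φ h w f = MN.map Φ h f * MN.of o w := rfl

theorem upos_chain {Φ : MulAut (Fr n)} (h : o.Pres Φ) {S : Set (Fr n)} {w : Fr n}
    (hw : ∀ a ∈ S, Φ a = w * a * w⁻¹) {z : Fr n →₀ MN o}
    (hz : z ∈ Finsupp.supported (MN o) (MN o) S) :
    (Rel (MN.of o) ⊤).mkQ (uposCm (uposTw Φ h w) z) = (Rel (MN.of o) ⊤).mkQ (chainMap o Φ h z) +
      MN.map Φ h (bdy (MN.of o) z) • MBasic_dl (MN.of o) ⊤ w := by
  rw [← Finsupp.sum_single z, Finsupp.sum]
  simp only [map_sum, Finset.sum_smul]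
  rw [← Finset.sum_add_distrib]
  refine Finset.sum_congr rfl fun a ha => ?_
  have haS : a ∈ S := (Finsupp.mem_supported _ _).1 hz ha
  rw [upos_cm_single, chainMap_single, MBasic_mk_single, MBasic_mk_single, MBasic_bdy_single,
    map_mul, map_sub, map_one, MN.map_of, hw a haS,
    MBasic_dl_conj _ (Subgroup.mem_top _) (Subgroup.mem_top _), upos_tw_apply]
  simp only [smul_add, smul_sub, smul_smul, mul_sub, sub_smul, mul_one, one_smul]
  abel

theorem upos_res_tw {Φ : MulAut (Fr n)} (h : o.Pres Φ) {S : Subgroup (Fr n)} {w g u : Fr n}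
    (hw : ∀ a ∈ S, Φ a = w * a * w⁻¹) (hu : u ∈ S) (hg : Φ g = g * u * w⁻¹) (f : MN o) :
    MN.res {a | g⁻¹ * a ∈ S} (uposTw Φ h w f) =
      MN.of o (g * u * g⁻¹) * MN.res {a | g⁻¹ * a ∈ S} f := by
  ext a
  rw [MN.mnapi_c_of_mul, MN.c_res, MN.c_res, upos_tw_apply, MN.mnapi_c_mul_of, MN.c_map]
  have e : g⁻¹ * ((g * u * g⁻¹)⁻¹ * a) = u⁻¹ * (g⁻¹ * a) := by group
  by_cases ha : g⁻¹ * a ∈ S
  · have hb : u⁻¹ * (g⁻¹ * a) ∈ S := S.mul_mem (S.inv_mem hu) ha
    rw [if_pos (show a ∈ {a | g⁻¹ * a ∈ S} from ha),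
      if_pos (show (g * u * g⁻¹)⁻¹ * a ∈ {a | g⁻¹ * a ∈ S} from by rw [← e] at hb; exact hb)]
    congr 1
    have e2 : (g * u * g⁻¹)⁻¹ * a = g * (u⁻¹ * (g⁻¹ * a)) := by group
    have e3 : Φ (g * (u⁻¹ * (g⁻¹ * a))) = a * w⁻¹ := by
      rw [map_mul, hg, hw _ hb]; group
    rw [e2, ← e3]
    exact Φ.symm_apply_apply _
  · have hb : u⁻¹ * (g⁻¹ * a) ∉ S := fun hb => ha ((S.mul_mem_cancel_left (S.inv_mem hu)).1 hb)
    rw [if_neg (show a ∉ {a | g⁻¹ * a ∈ S} from ha),
      if_neg (show (g * u * g⁻¹)⁻¹ * a ∉ {a | g⁻¹ * a ∈ S} from by rw [← e] at hb; exact hb)]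

theorem upos_res_zero {A : Set (Fr n)} {f : MN o} (h : ∀ a ∈ f.supp, a ∉ A) : MN.res A f = 0 := by
  ext a
  rw [MN.c_res, MN.c_zero]
  split_ifs with ha
  · by_contra h0
    exact h a h0 ha
  · rfl

theorem upos_final {z : Fr n →₀ MN o} {p q : Fr n} (h : ¬ Commute p q)
    (hp : MN.of o p • z - z - Finsupp.single p 1 ∈ Rel (MN.of o) ⊤)
    (hq : MN.of o q • z - z - Finsupp.single q 1 ∈ Rel (MN.of o) ⊤) : False := by
  refine zeta_not_mem_rel o h ?_
  have hp1 : MN.of o p - 1 ≠ 0 := by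
    rw [sub_ne_zero, ← map_one (MN.of o)]
    intro e
    exact h (by rw [MN.of_injective e]; exact Commute.one_left _)
  have h1 := sub_mem ((Rel (MN.of o) ⊤).smul_mem ((MN.of o q - 1) * (MN.of o p - 1)⁻¹) hp) hq
  have e1 : MN.of o p • z - z = (MN.of o p - 1) • z := by rw [sub_smul, one_smul]
  have e2 : MN.of o q • z - z = (MN.of o q - 1) • z := by rw [sub_smul, one_smul]
  rw [e1, e2, smul_sub, smul_smul, mul_assoc, inv_mul_cancel₀ hp1, mul_one, Finsupp.smul_single,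
    smul_eq_mul, mul_one] at h1
  convert h1 using 1
  rw [zeta]
  abel

namespace Ext

variable {E H : Type} [Group E] [Group H] (X : Ext E H n)

/-- Among `n + 1` relative positions of two sections one is trivial or two are equivalent. A minimal
relation between the `[g i]` modulo the chains supported in `Fix τ` has coefficients supported in
`Fix σ`; restrict its transform to the coset `g k₀ * Fix τ`. -/
theorem pos (hn : 2 ≤ n) {Γ : Type} [Group Γ] {o : BiOrd (Fr n)} (σ τ : Γ →* E)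
    (ho : ∀ x, o.Pres (X.ρ (τ x))) (u₀ : Γ → Fr n)
    (h₀ : ∀ x, u₀ x ∈ X.Fix τ ∧ σ x = X.j (u₀ x) * τ x) (g : Fin (n + 1) → Fr n)
    (u : Fin (n + 1) → Γ → Fr n)
    (hu : ∀ i x, u i x ∈ X.Fix τ ∧ σ x = X.j (g i * u i x) * τ x * (X.j (g i))⁻¹)
    (hna : ∀ i, ∃ x y, ¬ Commute (u i x) (u i y)) :
    (∃ i, ∃ z ∈ X.Fix σ, ∃ t ∈ X.Fix τ, g i = z * t) ∨
      ∃ i k, i ≠ k ∧ ∃ z ∈ X.Fix σ, ∃ t ∈ X.Fix τ, g k = z * g i * t := by
  classical
  by_contra hcon
  rw [not_or] at hcon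
  obtain ⟨hc1, hc2⟩ := hcon
  have hΦ : ∀ x a, X.ρ (σ x) a = u₀ x * X.ρ (τ x) a * (u₀ x)⁻¹ := fun x a => by
    rw [(h₀ x).2, map_mul, X.ρ_j, MulAut.mul_apply, MulAut.conj_apply]
  have hp : ∀ x, o.Pres (X.ρ (σ x)) := fun x a => by
    rw [hΦ, ← ho x a]
    refine ⟨fun h => ?_, o.conj_mem _ _⟩
    have h2 := o.conj_mem (u₀ x)⁻¹ _ h
    rwa [show (u₀ x)⁻¹ * (u₀ x * X.ρ (τ x) a * (u₀ x)⁻¹) * (u₀ x)⁻¹⁻¹ = X.ρ (τ x) a by group] at h2
  have hw : ∀ x, ∀ a ∈ X.Fix τ, X.ρ (σ x) a = u₀ x * a * (u₀ x)⁻¹ := fun x a ha => by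
    rw [hΦ, ha x]
  have hg : ∀ i x, X.ρ (σ x) (g i) = g i * u i x * (u₀ x)⁻¹ := fun i x => by
    have h1 : X.j (u₀ x * X.ρ (τ x) (g i)) = X.j (g i * u i x) := by
      rw [map_mul X.j (u₀ x), ← X.conj_j, ← mul_assoc, ← mul_assoc, ← (h₀ x).2, (hu i x).2]
      group
    rw [hΦ, X.j_injective hn h1]
  set R := Rel (MN.of o) (⊤ : Subgroup (Fr n)) with hR
  set Sp := Finsupp.supported (MN o) (MN o) (X.Fix τ : Set (Fr n)) with hSp
  have hv : ∀ (x : Γ) (k : Fin (n + 1)),
      R.mkQ (chainMap o _ (hp x) (Finsupp.single (g k) 1)) = MBasic_dl (MN.of o) ⊤ (g k) +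
        MN.of o (g k) • MBasic_dl (MN.of o) ⊤ (u k x * (u₀ x)⁻¹) := fun x k => by
    rw [chainMap_single, map_one, hg, mul_assoc,
      ← MBasic_dl_mul _ (Subgroup.mem_top _) (Subgroup.mem_top _)]
    rfl
  obtain ⟨d₀, hd₀, hd₀'⟩ := upos_dep (MN.of o) g
  obtain ⟨d, k₀, hd1, hdW, hdf⟩ := minrel (fun x => chainMap o _ (hp x))
    (fun x => (MN.map _ (hp x)).toRingHom) (fun x d z => chainMap_smul o _ (hp x) d z) (R ⊔ Sp)
    (fun x z hz => by
      obtain ⟨r, hr, s, hs, rfl⟩ := Submodule.mem_sup.1 hz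
      rw [map_add]
      refine Submodule.add_mem_sup ?_ (upos_supp_ind _ _ (fun a ha e => ?_) hs)
      · exact rel_mono _ le_top (chainMap_mem_rel o _ (hp x) hr)
      · rw [chainMap_single, hw x a ha]
        exact Finsupp.single_mem_supported _ _
          (mul_mem (mul_mem (h₀ x).1 ha) (inv_mem (h₀ x).1)))
    (fun k => Finsupp.single (g k) 1) (fun _ _ => 1)
    (fun x k => by
      refine Submodule.mem_sup.2 ⟨_, ?_, Finsupp.single (u k x * (u₀ x)⁻¹) (MN.of o (g k)),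
        Finsupp.single_mem_supported _ _ (mul_mem (hu k x).1 (inv_mem (h₀ x).1)),
        sub_add_cancel _ _⟩
      rw [hR, MBasic_mem_rel, map_sub, map_sub, hv, one_smul, MBasic_mk_single, MBasic_mk_single,
        one_smul]
      abel)
    hd₀ (Submodule.mem_sup_left hd₀')
  have hdf' : ∀ x k, MN.map _ (hp x) (d k) = d k := fun x k => by simpa using hdf x k
  have hdZ : ∀ k, ∀ a ∈ (d k).supp, a ∈ X.Fix σ := fun k a ha x => supp_fix (hp x) (hdf' x k) a ha
  obtain ⟨r, hr, ζ, hζ, hsum⟩ := Submodule.mem_sup.1 hdW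
  have hq : R.mkQ ζ = ∑ k, d k • MBasic_dl (MN.of o) ⊤ (g k) := by
    have h1 := congrArg R.mkQ hsum
    rw [map_add, (MBasic_mem_rel _).1 hr, zero_add, map_sum] at h1
    simp only [map_smul] at h1
    exact h1
  have hb : bdy (MN.of o) ζ = ∑ k, d k * (MN.of o (g k) - 1) := by
    have h1 := congrArg (bdy (MN.of o)) hsum
    rw [map_add, (rel_le_zz _ _ hr).2, zero_add, map_sum] at h1
    simpa only [map_smul, MBasic_bdy_single, one_mul, smul_eq_mul] using h1
  have hE : ∀ x, uposCm (uposTw _ (hp x) (u₀ x)) ζ - ζ -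
      ∑ k, Finsupp.single (u k x) (d k * MN.of o (g k)) +
      ∑ k, Finsupp.single (u₀ x) (d k) ∈ Rel (MN.of o) (X.Fix τ) := by
    intro x
    have h1 : R.mkQ (chainMap o _ (hp x) ζ) = ∑ k, d k • (MBasic_dl (MN.of o) ⊤ (g k) +
        MN.of o (g k) • MBasic_dl (MN.of o) ⊤ (u k x * (u₀ x)⁻¹)) := by
      have h2 := congrArg (fun z => R.mkQ (chainMap o _ (hp x) z)) hsum
      have h3 : R.mkQ (chainMap o _ (hp x) r) = 0 :=
        (MBasic_mem_rel _).1 (rel_mono _ le_top (chainMap_mem_rel o _ (hp x) hr))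
      simpa only [map_add, h3, zero_add, map_sum, chainMap_smul, map_smul, hdf', hv] using h2
    have h4 : uposCm (uposTw _ (hp x) (u₀ x)) ζ - ζ -
        ∑ k, Finsupp.single (u k x) (d k * MN.of o (g k)) +
        ∑ k, Finsupp.single (u₀ x) (d k) ∈ R := by
      rw [hR, MBasic_mem_rel, map_add, map_sub, map_sub, upos_chain (hp x) (hw x) hζ, h1, hq, hb]
      simp only [map_sum, map_mul, map_sub, map_one, hdf', MN.map_of, hg, MBasic_mk_single,
        Finset.sum_smul]
      rw [← Finset.sum_add_distrib, ← Finset.sum_sub_distrib, ← Finset.sum_sub_distrib,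
        ← Finset.sum_add_distrib]
      refine Finset.sum_eq_zero fun k _ => ?_
      rw [MBasic_dl_mul _ (Subgroup.mem_top _) (Subgroup.mem_top _),
        MBasic_dl_inv _ (Subgroup.mem_top _)]
      simp only [smul_add, smul_neg, smul_smul, mul_sub, sub_smul, mul_one, mul_assoc]
      abel
    have h5 := X.fix_ind (κ := Unit) (o := o) (fun _ => τ) (fun _ _ _ => rfl) (fun _ => ho)
      (fun _ _ _ => rfl) (fun _ => _) (fun _ => ⟨?_, (rel_le_zz _ _ h4).2⟩) (by simpa using h4) ()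
    · exact h5
    · refine add_mem (sub_mem (sub_mem (upos_cm_supp _ hζ) hζ) ?_) ?_
      · exact Submodule.sum_mem _ fun k _ => Finsupp.single_mem_supported _ _ (hu k x).1
      · exact Submodule.sum_mem _ fun k _ => Finsupp.single_mem_supported _ _ (h₀ x).1
  set A : Set (Fr n) := {a | (g k₀)⁻¹ * a ∈ X.Fix τ} with hA
  have hA1 : ∀ k, MN.res A (d k) = 0 := fun k => upos_res_zero fun a ha haA =>
    hc1 ⟨k₀, a, hdZ k a ha, _, inv_mem haA, by group⟩
  have hA2 : ∀ k, k ≠ k₀ → MN.res A (d k * MN.of o (g k)) = 0 := fun k hk =>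
    upos_res_zero fun a ha haA => by
      rw [MN.mnapi_mem_supp, MN.mnapi_c_mul_of] at ha
      exact hc2 ⟨k, k₀, hk, _, hdZ k _ ha, _, inv_mem haA, by group⟩
  have hA3 : MN.res A (d k₀ * MN.of o (g k₀)) = MN.of o (g k₀) := by
    rw [hd1, one_mul]
    refine MN.mnapi_res_of_subset fun a ha => ?_
    rw [MN.mnapi_supp_of _ ha]
    change (g k₀)⁻¹ * g k₀ ∈ X.Fix τ
    rw [inv_mul_cancel]
    exact one_mem _
  have hF : ∀ x, MN.of o (u k₀ x) • MN.of o (g k₀)⁻¹ • uposCm (MN.res A) ζ -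
      MN.of o (g k₀)⁻¹ • uposCm (MN.res A) ζ - Finsupp.single (u k₀ x) 1 ∈ R := by
    intro x
    have h1 := upos_cm_rel (MN.of o) (MN.res A) (fun a ha e =>
      MN.res_mul_right (N := X.Fix τ) (fun b hb c => by
        change (g k₀)⁻¹ * (c * b) ∈ X.Fix τ ↔ (g k₀)⁻¹ * c ∈ X.Fix τ
        rw [← mul_assoc]
        exact (X.Fix τ).mul_mem_cancel_right hb) (MN.of_mem_sub ha) e) (hE x)
    have h2 : uposCm (MN.res A) (uposCm (uposTw _ (hp x) (u₀ x)) ζ) =
        MN.of o (g k₀ * u k₀ x * (g k₀)⁻¹) • uposCm (MN.res A) ζ := by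
      ext a : 1
      rw [Finsupp.smul_apply, upos_cm_apply, upos_cm_apply, upos_cm_apply, smul_eq_mul]
      exact upos_res_tw (hp x) (hw x) (hu k₀ x).1 (hg k₀ x) _
    rw [map_add, map_sub, map_sub, map_sum, map_sum, h2,
      Finset.sum_eq_single k₀ (fun k _ hk => by rw [upos_cm_single, hA2 k hk, Finsupp.single_zero])
        (fun h => absurd (Finset.mem_univ _) h),
      Finset.sum_eq_zero (fun k _ => by rw [upos_cm_single, hA1 k, Finsupp.single_zero]),
      add_zero, upos_cm_single, hA3] at h1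
    have h3 := R.smul_mem (MN.of o (g k₀)⁻¹) (rel_mono _ le_top h1)
    rw [smul_sub, smul_sub, smul_smul, Finsupp.smul_single, smul_eq_mul, ← map_mul, ← map_mul,
      inv_mul_cancel, map_one,
      show (g k₀)⁻¹ * (g k₀ * u k₀ x * (g k₀)⁻¹) = u k₀ x * (g k₀)⁻¹ by group, map_mul,
      mul_smul] at h3
    exact h3
  obtain ⟨x, y, hxy⟩ := hna k₀
  exact upos_final hxy (hF x) (hF y)

end Ext

end Pool.Agent.Lib.MP_9ac97d_al
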