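import Pool.Agent.Lib.MP_9ac97d_al.UHt
import Pool.Agent.Lib.MP_9ac97d_al.UOrd

/-!
# Strips one level below a tame level (task UStrip)
-/

set_option autoImplicit false

noncomputable section

open Pointwise

namespace Pool.Agent.Lib.MP_9ac97d_al

/-- An integer character as a real character. -/
def ustrip_real {G : Type} [Group G] (θ : G →* Multiplicative ℤ) : G →* Multiplicative ℝ :=
  MonoidHom.mk' (fun x => Multiplicative.ofAdd ((θ x).toAdd : ℝ)) fun x y => by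
    rw [map_mul, toAdd_mul, Int.cast_add, ofAdd_add]

/-- Elements on which finitely many integer characters are bounded lie in finitely many cosets of
the common kernel. -/
theorem ustrip_fin {G κ : Type} [Group G] [Finite κ] (θ : κ → G →* Multiplicative ℤ) (C : κ → ℤ) :
    ∃ Ω : Set G, Ω.Finite ∧ ∀ x, (∀ a, |(θ a x).toAdd| ≤ C a) →
      ∃ w ∈ Ω, ∀ a, θ a (x * w⁻¹) = 1 := by
  let F : G → κ → ℤ := fun x a => (θ a x).toAdd
  let S : Set G := {x | ∀ a, |(θ a x).toAdd| ≤ C a}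
  have h1 : (F '' S).Finite := by
    refine (Set.Finite.pi' fun a => Set.finite_Icc (-C a) (C a)).subset ?_
    rintro _ ⟨x, hx, rfl⟩ a
    exact abs_le.1 (hx a)
  obtain ⟨Ω, -, hΩ, h2⟩ := h1.exists_subset_finite_image_eq (f := F) (s := S) subset_rfl
  refine ⟨Ω, hΩ, fun x hx => ?_⟩
  have h3 : F x ∈ F '' Ω := h2 ▸ Set.mem_image_of_mem F hx
  obtain ⟨w, hw, hwx⟩ := h3
  refine ⟨w, hw, fun a => ?_⟩
  have h4 : θ a w = θ a x := Multiplicative.toAdd.injective (congrFun hwx a)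
  rw [map_mul, map_inv, h4, mul_inv_cancel]

/-- `height_bdd` without the height. -/
theorem ustrip_lower (n : ℕ) : ∃ a L : ℕ, ∀ (E H : Type) [Group E] [Group H]
    (X : Ext E H n) (o : BiOrd (Fr n)) (E₀ : Subgroup E) (M : Subgroup (Fr n))
    (θ : M →* Multiplicative ℤ), (∀ e, o.Pres (X.ρ e)) → OrdKer E₀ →
    (∀ g, X.j g ∈ E₀ ↔ g ∈ M) → Function.Surjective θ →
    (∀ (e : E) (x y : M), (y : Fr n) = X.ρ e x → θ y = θ x) → NFL H L →
    (E₀.map X.π).FiniteIndex → X.FC E₀ M →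
    ∀ G : Subgroup H, Under G a → ∀ K : Subgroup E,
    K ≤ ⁅E₀ ⊓ G.comap X.π, E₀ ⊓ G.comap X.π⁆ → K.FG →
    ∀ B ≤ M, B.FG → NonAb B → (∀ x : M, (x : Fr n) ∈ B → θ x = 1) →
    ∀ w : Fr n, ∃ C : ℤ, ∀ k ∈ K, ∀ x : M, (x : Fr n) * w ∈ TT (X.ρ k • B) →
      -C ≤ (θ x).toAdd := by
  obtain ⟨a, L, hb⟩ := height_bdd n
  refine ⟨a, L, ?_⟩
  intro E H _ _ X o E₀ M θ ho hok hcap hsurj hinv hL hfi hFC
  obtain ⟨Q, _, h, hker, hN, hP⟩ := X.exists_ht ho hok hcap (ustrip_real θ) fun e x y hxy => by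
    change Multiplicative.ofAdd ((θ y).toAdd : ℝ) = Multiplicative.ofAdd ((θ x).toAdd : ℝ)
    rw [hinv e x y hxy]
  subst hker
  subst hN
  exact hb E H Q X h _ θ (ustrip_real θ) (fun _ => rfl) hsurj hP hinv hL hfi hFC

/-- For each `a` write `ψ a = r * θ` on `M` and bound `θ` from both sides on the minimal
subtrees. -/
theorem stripU (n : ℕ) (hn : 2 ≤ n) : ∃ a L : ℕ, ∀ (E H κ : Type) [Group E] [Group H] [Finite κ]
    (X : Ext E H n) (o : BiOrd (Fr n)) (E₀ : Subgroup E) (M N : Subgroup (Fr n))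
    (ψ : κ → Fr n → ℚ) (c : ℕ), (∀ e, o.Pres (X.ρ e)) → OrdKer E₀ → (∀ g, X.j g ∈ E₀ ↔ g ∈ M) →
    (E₀.map X.π).FiniteIndex → X.FC E₀ M →
    (∀ a, ∀ x ∈ M, ∀ y ∈ M, ψ a (x * y) = ψ a x + ψ a y) →
    (∀ a e, ∀ x ∈ M, ψ a (X.ρ e x) = ψ a x) → (∀ x, x ∈ N ↔ x ∈ M ∧ ∀ a, ψ a x = 0) →
    (⊤ : Subgroup (Fr n)).lowerCentralSeries c ≤ N → NFL H L →
    ∀ G : Subgroup H, Under G a → G ≤ E₀.map X.π ∧ ∀ K : Subgroup E,
      K ≤ ⁅E₀ ⊓ G.comap X.π, E₀ ⊓ G.comap X.π⁆ → K.FG →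
      ∀ B ≤ N, B.FG → NonAb B → X.Strip K N B := by
  obtain ⟨a₀, L, hb⟩ := ustrip_lower n
  refine ⟨a₀ + n, L, ?_⟩
  intro E H κ _ _ _ X o E₀ M N ψ c ho hok hcap hfi hFC hadd hinv hN hc hL G hG
  have hNM : N ≤ M := fun x hx => ((hN x).1 hx).1
  obtain ⟨Q, _, h, hker, hhN, -⟩ := X.exists_ht ho hok hcap 1 fun _ _ _ _ => rfl
  have hMinv : X.Inv M := hhN ▸ h.inv_N
  have hMn : M.Normal := hhN ▸ h.normal_N
  constructor
  · obtain ⟨B, hB, hBfg, hw⟩ := Ext.exists_wide hn (hc.trans hNM)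
    have hidx := h.idx (by rw [hker]; exact hfi) (hhN ▸ hB) hw.nonAb (by
      rw [hker, hhN]
      exact hFC.strip hMinv hB hBfg)
    rw [hker] at hidx
    exact hG.le hidx (by omega)
  intro K hK hKfg B hB hBfg hna
  have hKE : K ≤ E₀ := hK.trans ((Subgroup.commutator_le_self _).trans inf_le_left)
  obtain ⟨Ω, hΩ, hs⟩ := (hFC.strip hMinv (hB.trans hNM) hBfg).mono hKE
  choose θ r hr hθ hψ using fun a => exists_int_char (H := Fr n) (hc.trans hNM) (hadd a)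
    fun x hx => ((hN x).1 (hc hx)).2 a
  have hθinv : ∀ a (e : E) (x y : M), (y : Fr n) = X.ρ e x → θ a y = θ a x := by
    intro a e x y hxy
    have h1 : ψ a y = ψ a x := by rw [hxy, hinv a e x x.2]
    rw [hψ, hψ] at h1
    have h2 : (θ a y).toAdd = (θ a x).toAdd := by exact_mod_cast mul_left_cancel₀ (hr a) h1
    exact Multiplicative.toAdd.injective h2
  have hθB : ∀ a (x : M), (x : Fr n) ∈ B → θ a x = 1 := by
    intro a x hx
    have h1 := ((hN x).1 (hB hx)).2 a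
    rw [hψ, mul_eq_zero] at h1
    have h2 : (θ a x).toAdd = 0 := by exact_mod_cast h1.resolve_left (hr a)
    exact Multiplicative.toAdd.injective h2
  have hG₀ : Under G a₀ := hG.mono (Nat.le_add_right _ _)
  have hbd : ∀ (w : Fr n) a, ∃ C : ℤ, ∀ k ∈ K, ∀ x : M, (x : Fr n) * w ∈ TT (X.ρ k • B) →
      |(θ a x).toAdd| ≤ C := by
    intro w a
    rcases hθ a with hsurj | h1
    · obtain ⟨C, hC⟩ := hb E H X o E₀ M (θ a) ho hok hcap hsurj (hθinv a) hL hfi hFC G hG₀ K hK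
        hKfg B (hB.trans hNM) hBfg hna (hθB a) w
      obtain ⟨C', hC'⟩ := hb E H X o E₀ M (θ a)⁻¹ ho hok hcap
        (fun y => by
          obtain ⟨x, hx⟩ := hsurj y⁻¹
          exact ⟨x, by rw [MonoidHom.inv_apply, hx, inv_inv]⟩)
        (fun e x y hxy => by rw [MonoidHom.inv_apply, MonoidHom.inv_apply, hθinv a e x y hxy])
        hL hfi hFC G hG₀ K hK hKfg B (hB.trans hNM) hBfg hna
        (fun x hx => by rw [MonoidHom.inv_apply, hθB a x hx, inv_one]) w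
      refine ⟨max C C', fun k hk x hx => abs_le.2 ⟨?_, ?_⟩⟩
      · have := hC k hk x hx
        have := le_max_left C C'
        omega
      · have h2 := hC' k hk x hx
        rw [MonoidHom.inv_apply, toAdd_inv] at h2
        have := le_max_right C C'
        omega
    · exact ⟨0, fun k _ x _ => by simp [h1]⟩
  choose C hC using hbd
  choose Ω₁ hΩ₁ hrep using fun w : Fr n => ustrip_fin θ (C w)
  refine ⟨⋃ w ∈ Ω, (fun u : M => (u : Fr n) * w) '' Ω₁ w,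
    hΩ.biUnion fun w _ => (hΩ₁ w).image _, fun k hk y hy => ?_⟩
  obtain ⟨x, hx, w, hw, rfl⟩ := hs k hk hy
  obtain ⟨u, hu, hxu⟩ := hrep w ⟨x, hx⟩ fun a => hC w a k hk ⟨x, hx⟩ hy
  refine ⟨x * (u : Fr n)⁻¹, ?_, (u : Fr n) * w, Set.mem_biUnion hw ⟨u, hu, rfl⟩, by group⟩
  refine (hN _).2 ⟨M.mul_mem hx (M.inv_mem u.2), fun a => ?_⟩
  have h1 := hψ a (⟨x, hx⟩ * u⁻¹)
  rw [hxu a] at h1
  simpa using h1

end Pool.Agent.Lib.MP_9ac97d_al
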