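import Pool.Agent.Lib.MP_9ac97d_al.UAnch

/-!
# Twisting numbers grow linearly (task UTw)
-/

set_option autoImplicit false

noncomputable section

open Pointwise

namespace Pool.Agent.Lib.MP_9ac97d_al

variable {n : ℕ}

/-- The attracting end of `b` lies at least `k` periods of `w` beyond that of `a`. -/
def TwSep (w a b : Fr n) (k : ℤ) : Prop :=
  ∃ x y, dd x y = 1 ∧ Att w x y ∧ Att w⁻¹ y x ∧ Att a y x ∧ Att b (w ^ k * x) (w ^ k * y)

/-- The oriented edge `(x, y)` lies on the axis of `w` and points forward. -/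
def utwAE (w x y : Fr n) : Prop := dd x y = 1 ∧ Att w x y ∧ Att w⁻¹ y x

theorem utw_att_mono {a x y x' y' : Fr n} (h : Att a x y) (hs : Half x y ⊆ Half x' y') :
    Att a x' y' := h.mono fun _ hk => hs hk

theorem utw_symm {x y : Fr n} (h : dd x y = 1) : dd y x = 1 := by rw [dd_comm]; exact h

theorem utw_self_mem {x y : Fr n} (h : dd x y = 1) : y ∈ Half x y := by
  show dd y y < dd y x
  rw [dd_self, dd_comm, h]
  exact Nat.one_pos

theorem utw_compl {x y x' y' : Fr n} (h : dd x y = 1) (h' : dd x' y' = 1)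
    (hs : Half x y ⊆ Half x' y') : Half y' x' ⊆ Half y x := fun z hz =>
  (not_mem_half h z).1 fun hz' => (not_mem_half h' z).2 hz (hs hz')

theorem utw_mul_subset {x y x' y' : Fr n} (hs : Half x y ⊆ Half x' y') (g : Fr n) :
    Half (g * x) (g * y) ⊆ Half (g * x') (g * y') := by
  intro z hz
  obtain ⟨u, rfl⟩ : ∃ u, z = g * u := ⟨g⁻¹ * z, by group⟩
  rw [mul_mem_half] at hz ⊢
  exact hs hz

theorem utwAE.ne_one {w x y : Fr n} (h : utwAE w x y) : w ≠ 1 := by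
  rintro rfl
  exact not_att_both h.1 h.2.1 (by simpa using h.2.2)

theorem utwAE.conj {w x y : Fr n} (h : utwAE w x y) (g : Fr n) :
    utwAE (g * w * g⁻¹) (g * x) (g * y) := by
  refine ⟨by rw [dd_mul_left]; exact h.1, (att_conj h.ne_one h.1 g).2 h.2.1, ?_⟩
  have e : (g * w * g⁻¹)⁻¹ = g * w⁻¹ * g⁻¹ := by group
  rw [e]
  exact (att_conj (inv_ne_one.2 h.ne_one) (utw_symm h.1) g).2 h.2.2

theorem utwAE.zpow {w x y : Fr n} (h : utwAE w x y) (k : ℤ) :
    utwAE w (w ^ k * x) (w ^ k * y) := by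
  have h1 := h.conj (w ^ k)
  have e : w ^ k * w * (w ^ k)⁻¹ = w := by group
  rwa [e] at h1

theorem utwAE.nested {w x y x' y' : Fr n} (h : utwAE w x y) (h' : utwAE w x' y') :
    Half x y ⊆ Half x' y' ∨ Half x' y' ⊆ Half x y := by
  by_cases hy : y ∈ Half x' y'
  · rcases half_subset_or h.1 h'.1 hy with h1 | ⟨h1, -⟩
    · exact Or.inl h1
    · exact (not_att_both h'.1 (utw_att_mono h.2.2 h1) h'.2.2).elim
  · rcases half_subset_or h.1 (utw_symm h'.1) ((not_mem_half h'.1 y).1 hy) with h1 | ⟨h1, -⟩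
    · exact (not_att_both h'.1 h'.2.1 (utw_att_mono h.2.1 h1)).elim
    · exact Or.inr (utw_compl (utw_symm h.1) (utw_symm h'.1) h1)

theorem utwAE.shrink {w x y : Fr n} (h : utwAE w x y) : Half (w * x) (w * y) ⊆ Half x y := by
  have h1 : utwAE w (w * x) (w * y) := by simpa using h.zpow 1
  rcases h1.nested h with h2 | h2
  · exact h2
  · exfalso
    have h3 : ∀ k : ℕ, Half x y ⊆ Half (w ^ k * x) (w ^ k * y) := by
      intro k
      induction k with
      | zero => simp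
      | succ k ih =>
        have h4 := utw_mul_subset h2 (w ^ k)
        rw [← mul_assoc, ← mul_assoc, ← pow_succ] at h4
        exact ih.trans h4
    obtain ⟨k, hk⟩ := ((att_iff (inv_ne_one.2 h.ne_one) (utw_symm h.1) y).1 h.2.2).exists
    have h5 : w ^ k * (w⁻¹ ^ k * y) ∈ Half (w ^ k * x) (w ^ k * y) := by
      have e : w ^ k * (w⁻¹ ^ k * y) = y := by group
      rw [e]
      exact h3 k (utw_self_mem h.1)
    rw [mul_mem_half] at h5
    exact (not_mem_half h.1 _).2 hk h5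

theorem utwAE.shrink_pow {w x y : Fr n} (h : utwAE w x y) (k : ℕ) :
    Half (w ^ k * x) (w ^ k * y) ⊆ Half x y := by
  induction k with
  | zero => simp
  | succ k ih =>
    have h4 := utw_mul_subset h.shrink (w ^ k)
    rw [← mul_assoc, ← mul_assoc, ← pow_succ] at h4
    exact h4.trans ih

theorem utwAE.anti {w x y : Fr n} (h : utwAE w x y) {k k' : ℤ} (hk : k' ≤ k) :
    Half (w ^ k * x) (w ^ k * y) ⊆ Half (w ^ k' * x) (w ^ k' * y) := by
  obtain ⟨m, rfl⟩ := Int.le.dest hk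
  have h4 := utw_mul_subset (h.shrink_pow m) (w ^ k')
  rwa [← mul_assoc, ← mul_assoc, ← zpow_natCast, ← zpow_add] at h4

theorem utw_step {x y x' y' u : Fr n} (h : dd x y = 1) (h' : dd x' y' = 1)
    (hs : Half x' y' ⊆ Half x y) (hne : x ≠ x') (hu : u ∈ Half y x) : dd u x < dd u x' := by
  have hy' : y' ∈ Half x' y' := utw_self_mem h'
  obtain ⟨h1, h2, h3⟩ := (sep_iff h u y').1 ⟨hu, hs hy'⟩
  obtain ⟨h4, -, h6⟩ := (sep_iff h' u y').1 ⟨utw_compl h' h hs hu, hy'⟩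
  by_contra hlt
  rcases (not_lt.1 hlt).eq_or_lt with he | he
  · exact hne (h1.unique h4 he.symm)
  · unfold Btw at h1 h2
    omega

theorem utwAE.far {w x y u : Fr n} (h : utwAE w x y) (hu : u ∈ Half y x) (k : ℕ) :
    k ≤ dd u (w ^ k * x) := by
  induction k with
  | zero => exact Nat.zero_le _
  | succ k ih =>
    have h1 : utwAE w (w ^ k * x) (w ^ k * y) := by simpa using h.zpow k
    have h2 := utw_step h1.1 (by rw [dd_mul_left]; exact h1.1) h1.shrink (u := u)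
      (fun he => h.ne_one (by simpa using he.symm))
      (utw_compl h1.1 h.1 (h.shrink_pow k) hu)
    rw [← mul_assoc, ← pow_succ'] at h2
    omega

theorem utwAE.far' {w x y u z : Fr n} (h : utwAE w x y) (hu : u ∈ Half y x) {k : ℕ}
    (hz : z ∈ Half (w ^ k * x) (w ^ k * y)) : k < dd u z := by
  have h1 : utwAE w (w ^ k * x) (w ^ k * y) := by simpa using h.zpow k
  obtain ⟨-, h2, h3⟩ := (sep_iff h1.1 u z).1 ⟨utw_compl h1.1 h.1 (h.shrink_pow k) hu, hz⟩
  have h4 := h.far hu k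
  unfold Btw at h2
  omega

theorem utw_exists_ae {w : Fr n} (hw : w ≠ 1) : ∃ x y, utwAE w x y := by
  obtain ⟨p, hp⟩ := ax_nonempty w
  have h1 : 1 ≤ dd p (w * p) := by
    rw [mem_ax_iff.1 hp]
    exact tl_pos hw
  obtain ⟨y, hy, hd⟩ := exists_btw p (w * p) h1
  have h2 : Att w p y := by
    rw [att_iff hw hd p]
    filter_upwards [Filter.eventually_ge_atTop 1] with k hk
    have h3 := tends_ax_btw hp hk
    rw [pow_one] at h3
    exact (mem_half_iff hd _).2 (h3.left hy).1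
  refine ⟨p, y, hd, h2, ?_⟩
  rcases att_or (inv_ne_one.2 hw) hd with h3 | h3
  · exact ((not_mem_half hd p).2 (utw_self_mem (utw_symm hd)) (tcut_ax_half hw hd h2 h3 hp)).elim
  · exact h3

theorem utw_anch_side {w x y u v : Fr n} (h : utwAE w x y) (huv : dd u v = 1) (h1 : Att w u v)
    (h2 : Att w⁻¹ u v) : Half v u ⊆ Half x y ∨ Half v u ⊆ Half y x := by
  by_cases hu : u ∈ Half x y
  · rcases half_subset_or (utw_symm huv) h.1 hu with h3 | ⟨h3, -⟩
    · exact Or.inl h3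
    · exact (not_att_both h.1 (utw_att_mono h2 h3) h.2.2).elim
  · rcases half_subset_or (utw_symm huv) (utw_symm h.1) ((not_mem_half h.1 u).1 hu) with
      h3 | ⟨h3, -⟩
    · exact Or.inr h3
    · exact (not_att_both h.1 h.2.1 (utw_att_mono h1 h3)).elim

theorem utw_conj {w a b : Fr n} (ha : a ≠ 1) (hb : b ≠ 1) (g : Fr n) {k : ℤ}
    (h : TwSep w a b k) : TwSep (g * w * g⁻¹) (g * a * g⁻¹) (g * b * g⁻¹) k := by
  obtain ⟨x, y, h1, h2, h3, h4, h5⟩ := h
  have h6 := utwAE.conj ⟨h1, h2, h3⟩ g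
  refine ⟨g * x, g * y, h6.1, h6.2.1, h6.2.2, (att_conj ha (utw_symm h1) g).2 h4, ?_⟩
  have e : ∀ z, (g * w * g⁻¹) ^ k * (g * z) = g * (w ^ k * z) := fun z => by
    rw [conj_zpow]
    group
  rw [e, e]
  exact (att_conj hb (by rw [dd_mul_left]; exact h1) g).2 h5

theorem utw_mono {w a b : Fr n} {k k' : ℤ} (h : TwSep w a b k) (hk : k' ≤ k) :
    TwSep w a b k' := by
  obtain ⟨x, y, h1, h2, h3, h4, h5⟩ := h
  exact ⟨x, y, h1, h2, h3, h4, utw_att_mono h5 (utwAE.anti ⟨h1, h2, h3⟩ hk)⟩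

theorem utw_conj_ne {a : Fr n} (ha : a ≠ 1) (g : Fr n) : g * a * g⁻¹ ≠ 1 := by
  intro h
  apply ha
  have e : a = g⁻¹ * (g * a * g⁻¹) * g := by group
  rw [e, h]
  group

/-- Invariance under conjugation. -/
theorem twSep_conj {w a b : Fr n} (hw : w ≠ 1) (ha : a ≠ 1) (hb : b ≠ 1) (g : Fr n) (k : ℤ) :
    TwSep (g * w * g⁻¹) (g * a * g⁻¹) (g * b * g⁻¹) k ↔ TwSep w a b k := by
  have _ := hw
  refine ⟨fun h => ?_, utw_conj ha hb g⟩
  have h1 := utw_conj (utw_conj_ne ha g) (utw_conj_ne hb g) g⁻¹ h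
  have e : ∀ z : Fr n, g⁻¹ * (g * z * g⁻¹) * g⁻¹⁻¹ = z := fun z => by group
  rwa [e, e, e] at h1

/-- Conjugating `b` by a power of `w` shifts the number. -/
theorem twSep_shift {w b : Fr n} (hb : b ≠ 1) (a : Fr n) (k r : ℤ) :
    TwSep w a (w ^ r * b * (w ^ r)⁻¹) (k + r) ↔ TwSep w a b k := by
  have e : ∀ z : Fr n, w ^ (k + r) * z = w ^ r * (w ^ k * z) := fun z => by group
  refine exists_congr fun x => exists_congr fun y => and_congr_right fun h1 => ?_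
  rw [e, e, att_conj hb (by rw [dd_mul_left]; exact h1)]

theorem utw_aut_zero (Φ : MulAut (Fr n)) : ∃ C : ℕ, ∀ w a b : Fr n,
    TwSep w a b C → TwSep (Φ w) (Φ a) (Φ b) 0 := by
  obtain ⟨mu, hmu⟩ := exists_lip Φ⁻¹
  obtain ⟨C, hC⟩ := bcc' Φ
  refine ⟨mu * (2 * C), fun w a b h => ?_⟩
  obtain ⟨x, y, h1, h2, h3, h4, h5⟩ := h
  rw [zpow_natCast] at h5
  have hae : utwAE w x y := ⟨h1, h2, h3⟩
  have hae' : utwAE w (w ^ (mu * (2 * C)) * x) (w ^ (mu * (2 * C)) * y) := by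
    have := hae.zpow ((mu * (2 * C) : ℕ) : ℤ)
    rwa [zpow_natCast] at this
  obtain ⟨p, q, hL, hp, hq⟩ := tbcc_bridge (P := Φ '' Half y x)
    (Q := Φ '' Half (w ^ (mu * (2 * C)) * x) (w ^ (mu * (2 * C)) * y))
    ⟨_, _, utw_self_mem (utw_symm h1), rfl⟩ ⟨_, _, utw_self_mem hae'.1, rfl⟩ (L := 1) (by
      rintro _ ⟨a₁, ha₁, rfl⟩ _ ⟨a₂, ha₂, rfl⟩ _ ⟨b₁, hb₁, rfl⟩ _ ⟨b₂, hb₂, rfl⟩ p q hp hq
      obtain ⟨u, hu, hdu⟩ := hC _ _ _ hp
      obtain ⟨z, hz, hdz⟩ := hC _ _ _ hq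
      have h6 := hae.far' (half_convex (utw_symm h1) ha₁ ha₂ hu) (half_convex hae'.1 hb₁ hb₂ hz)
      have h7 := hmu (Φ u) (Φ z)
      have e1 : Φ⁻¹ (Φ u) = u := by simp
      have e2 : Φ⁻¹ (Φ z) = z := by simp
      rw [e1, e2] at h7
      by_contra h8
      have h9 : dd (Φ u) (Φ z) ≤ 2 * C := by
        have t1 := dd_triangle (Φ u) p (Φ z)
        have t2 := dd_triangle p q (Φ z)
        have t3 := dd_comm (Φ u) p
        have t4 := dd_comm p q
        omega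
      have h10 := Nat.mul_le_mul_left mu h9
      omega)
  obtain ⟨r, hr, hd⟩ := exists_btw p q (t := 1) (by rw [dd_comm]; exact hL)
  have hpq : p ≠ r := fun he => by
    rw [← he, dd_self] at hd
    exact Nat.zero_ne_one hd
  have hP : ∀ c : Fr n, Att c y x → Att (Φ c) r p := fun c hc => hc.mono fun k hk => by
    rw [← map_pow, mem_half_iff (utw_symm hd)]
    have h6 := (hp _ ⟨_, hk, rfl⟩).symm
    have h7 := hr
    unfold Btw at h6 h7 ⊢
    have t1 := dd_triangle (Φ (c ^ k)) r q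
    have t2 := dd_triangle r p (Φ (c ^ k))
    have t3 := dd_comm r (Φ (c ^ k))
    have t4 := dd_comm p (Φ (c ^ k))
    have t5 := dd_comm r p
    omega
  have hQ : ∀ c : Fr n, Att c (w ^ (mu * (2 * C)) * x) (w ^ (mu * (2 * C)) * y) →
      Att (Φ c) p r := fun c hc => hc.mono fun k hk => by
    rw [← map_pow, mem_half_iff hd]
    exact ((hq _ ⟨_, hk, rfl⟩).left hr).1
  refine ⟨p, r, hd, hQ w hae'.2.1, ?_, hP a h4, ?_⟩
  · rw [← map_inv]
    exact hP _ h3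
  · simpa using hQ b h5

/-- An automorphism changes the number by a bounded amount (bounded cancellation). -/
theorem twSep_aut (Φ : MulAut (Fr n)) : ∃ C : ℕ, ∀ (w a b : Fr n) (k : ℤ), w ≠ 1 → a ≠ 1 → b ≠ 1 →
    TwSep w a b (k + C) → TwSep (Φ w) (Φ a) (Φ b) k := by
  obtain ⟨C, hC⟩ := utw_aut_zero Φ
  refine ⟨C, fun w a b k _ _ hb h => ?_⟩
  obtain ⟨b', rfl⟩ : ∃ b', b = w ^ k * b' * (w ^ k)⁻¹ := ⟨(w ^ k)⁻¹ * b * w ^ k, by group⟩
  have hb' : b' ≠ 1 := by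
    rintro rfl
    exact hb (by group)
  rw [add_comm, twSep_shift hb'] at h
  have h1 := (twSep_shift (w := Φ w) (by simpa using hb' : Φ b' ≠ 1) (Φ a) 0 k).2 (hC _ _ _ h)
  rw [zero_add] at h1
  rw [map_mul, map_mul, map_inv, map_zpow]
  exact h1

/-- The two numbers of a pair have a nonpositive sum. -/
theorem twSep_sum {w a b : Fr n} (hw : w ≠ 1) {k k' : ℤ} (h : TwSep w a b k)
    (h' : TwSep w b a k') : k + k' ≤ 0 := by
  have _ := hw
  obtain ⟨x, y, h1, h2, h3, h4, h5⟩ := h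
  obtain ⟨x', y', h1', h2', h3', h4', h5'⟩ := h'
  have hae : utwAE w x y := ⟨h1, h2, h3⟩
  have hae' : utwAE w x' y' := ⟨h1', h2', h3'⟩
  by_contra hlt
  rcases (hae.zpow k).nested hae' with h6 | h6
  · exact not_att_both h1' (utw_att_mono h5 h6) h4'
  · have h7 := utw_mul_subset h6 (w ^ k')
    rw [← mul_assoc, ← mul_assoc, ← zpow_add] at h7
    have h8 := hae.anti (k := k' + k) (k' := 0) (by omega)
    rw [zpow_zero, one_mul, one_mul] at h8
    exact not_att_both h1 (utw_att_mono h5' (h7.trans h8)) h4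

/-- The number depends only on the anchored sets. -/
theorem twSep_anch {w : Fr n} {P P' : Set (Fr n)} (h : Anch w P) (h' : Anch w P')
    {a a' b b' : Fr n} (ha : a ∈ P) (ha' : a' ∈ P) (hb : b ∈ P') (hb' : b' ∈ P') {k : ℤ}
    (hs : TwSep w a b k) : TwSep w a' b' k := by
  obtain ⟨x, y, h1, h2, h3, h4, h5⟩ := hs
  obtain ⟨-, u, v, huv, hu1, hu2, hu3⟩ := h
  obtain ⟨-, u', v', huv', hu1', hu2', hu3'⟩ := h'
  have hae : utwAE w x y := ⟨h1, h2, h3⟩
  refine ⟨x, y, h1, h2, h3, ?_, ?_⟩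
  · rcases utw_anch_side hae huv hu1 hu2 with h6 | h6
    · exact (not_att_both h1 (utw_att_mono (hu3 a ha).2 h6) h4).elim
    · exact utw_att_mono (hu3 a' ha').2 h6
  · rcases utw_anch_side (hae.zpow k) huv' hu1' hu2' with h6 | h6
    · exact utw_att_mono (hu3' b' hb').2 h6
    · exact (not_att_both (hae.zpow k).1 h5 (utw_att_mono (hu3' b hb).2 h6)).elim

/-- Some number works. -/
theorem exists_twSep {w : Fr n} (hw : w ≠ 1) {P P' : Set (Fr n)} (h : Anch w P) (h' : Anch w P')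
    {a b : Fr n} (ha : a ∈ P) (hb : b ∈ P') : ∃ k, TwSep w a b k := by
  obtain ⟨x, y, hae⟩ := utw_exists_ae hw
  obtain ⟨-, u, v, huv, hu1, -, hu3⟩ := h
  obtain ⟨-, u', v', huv', -, hu2', hu3'⟩ := h'
  obtain ⟨m, hm⟩ := (north_south (inv_ne_one.2 hw) (utw_symm hae.1) (utw_symm huv) hae.2.2
    (by rw [inv_inv]; exact hu1)).exists
  obtain ⟨m', hm'⟩ := (north_south hw hae.1 (utw_symm huv') hae.2.1 hu2').exists
  have h1 := hae.zpow m
  refine ⟨-(m' : ℤ) - m, _, _, h1.1, h1.2.1, h1.2.2, utw_att_mono (hu3 a ha).2 fun z hz => ?_,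
    utw_att_mono (hu3' b hb).2 fun z hz => ?_⟩
  · have e : z = w ^ (m : ℤ) * (w⁻¹ ^ m * z) := by group
    rw [e, mul_mem_half]
    exact hm z hz
  · have e : z = w ^ (-(m' : ℤ)) * (w ^ m' * z) := by group
    have e' : ∀ t : Fr n, w ^ (-(m' : ℤ) - m) * (w ^ (m : ℤ) * t) = w ^ (-(m' : ℤ)) * t :=
      fun t => by group
    rw [e', e', e, mul_mem_half]
    exact hm' z hz

theorem utw_letters {A : Set (MulAut (Fr n))} (hA : A.Finite) : ∃ C : ℕ, ∀ Φ : MulAut (Fr n),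
    (Φ ∈ A ∨ Φ⁻¹ ∈ A) → ∀ (w a b : Fr n) (k : ℤ), w ≠ 1 → a ≠ 1 → b ≠ 1 →
    TwSep w a b (k + C) → TwSep (Φ w) (Φ a) (Φ b) k := by
  choose c hc using fun Φ : MulAut (Fr n) => twSep_aut Φ
  obtain ⟨C, hC⟩ := ((hA.union hA.inv).image c).bddAbove
  refine ⟨C, fun Φ hΦ w a b k hw ha hb h => hc Φ w a b k hw ha hb (utw_mono h ?_)⟩
  have h1 : c Φ ≤ C := hC ⟨Φ, hΦ.imp id fun h => Set.mem_inv.2 h, rfl⟩
  omega

theorem utw_ball {A : Set (MulAut (Fr n))} (hA : A.Finite) : ∃ C : ℕ, ∀ (l : ℕ),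
    ∀ Φ ∈ ball A l, ∀ (w a b : Fr n) (k : ℤ), w ≠ 1 → a ≠ 1 → b ≠ 1 →
    TwSep w a b (k + C * l) → TwSep (Φ w) (Φ a) (Φ b) k := by
  obtain ⟨C, hC⟩ := utw_letters hA
  have key : ∀ L : List (MulAut (Fr n)), (∀ x ∈ L, x ∈ A ∨ x⁻¹ ∈ A) → ∀ (w a b : Fr n) (k : ℤ),
      w ≠ 1 → a ≠ 1 → b ≠ 1 → TwSep w a b (k + C * L.length) →
      TwSep (L.prod w) (L.prod a) (L.prod b) k := by
    intro L
    induction L with
    | nil => intro _ w a b k _ _ _ h; simpa using h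
    | cons Φ L ih =>
      intro hL w a b k hw ha hb h
      simp only [List.prod_cons, MulAut.mul_apply]
      refine hC Φ (hL Φ List.mem_cons_self) _ _ _ k (by simpa using hw) (by simpa using ha)
        (by simpa using hb) (ih (fun x hx => hL x (List.mem_cons_of_mem _ hx)) w a b _ hw ha hb ?_)
      have e : k + C + C * (L.length : ℤ) = k + C * ((Φ :: L).length : ℕ) := by
        rw [List.length_cons]
        push_cast
        ring
      rw [e]
      exact h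
  refine ⟨C, ?_⟩
  rintro l _ ⟨L, hl, hL, rfl⟩ w a b k hw ha hb h
  refine key L hL w a b k hw ha hb (utw_mono h ?_)
  have h1 : (L.length : ℤ) ≤ l := by exact_mod_cast hl
  have h2 := mul_le_mul_of_nonneg_left h1 (Int.natCast_nonneg C)
  omega

theorem utw_nonneg {w a b : Fr n} (hw : w ≠ 1) {P P' : Set (Fr n)} (h : Anch w P)
    (h' : Anch w P') (ha : a ∈ P) (hb : b ∈ P') {s : ℤ}
    (hs : ∀ k, TwSep w a b k → TwSep w a b (k - s)) : 0 ≤ s := by
  obtain ⟨k', hk'⟩ := exists_twSep hw h' h hb ha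
  obtain ⟨k, hk, hmax⟩ := Int.exists_greatest_of_bdd (P := fun k => TwSep w a b k)
    ⟨-k', fun z hz => by have := twSep_sum hw hz hk'; omega⟩ (exists_twSep hw h h' ha hb)
  have := hmax _ (hs k hk)
  omega

/-- Twisting numbers grow at most linearly with the word length of the automorphism. -/
theorem tw {A : Set (MulAut (Fr n))} (hA : A.Finite) : ∃ C : ℕ, ∀ (l : ℕ) (Φ : MulAut (Fr n))
    (g w a b : Fr n) (P P' : Set (Fr n)) (κ : ℤ), Φ ∈ ball A l → w ≠ 1 →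
    (MulAut.conj g * Φ) w = w → Anch w P → Anch w P' → a ∈ P → (MulAut.conj g * Φ) a ∈ P →
    b ∈ P' → (w ^ κ)⁻¹ * (MulAut.conj g * Φ) b * w ^ κ ∈ P' → |κ| ≤ C * (l + 1) := by
  obtain ⟨C, hC⟩ := utw_ball hA
  refine ⟨C, fun l Φ g w a b P P' κ hΦ hw hfix hP hP' ha ha' hb hb' => ?_⟩
  have hne : ∀ {Q : Set (Fr n)} {c : Fr n}, Anch w Q → c ∈ Q → c ≠ 1 := fun hQ hc => by
    obtain ⟨-, u, v, -, -, -, h⟩ := hQ
    exact (h _ hc).1
  have hΨ : ∀ (c e : Fr n) (k : ℤ), c ≠ 1 → e ≠ 1 → TwSep w c e k →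
      TwSep w ((MulAut.conj g * Φ) c) ((MulAut.conj g * Φ) e) (k - C * l) := by
    intro c e k hc he h
    have h1 := utw_conj (by simpa using hc : Φ c ≠ 1) (by simpa using he : Φ e ≠ 1) g
      (hC l Φ hΦ w c e (k - C * l) hw hc he (by rwa [sub_add_cancel]))
    have h2 : g * Φ w * g⁻¹ = w := hfix
    rw [h2] at h1
    exact h1
  generalize (MulAut.conj g * Φ) = Ψ at hΨ ha' hb'
  obtain ⟨b₂, hb₂⟩ : ∃ b₂, Ψ b = w ^ κ * b₂ * (w ^ κ)⁻¹ := ⟨(w ^ κ)⁻¹ * Ψ b * w ^ κ, by group⟩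
  have e : (w ^ κ)⁻¹ * Ψ b * w ^ κ = b₂ := by
    rw [hb₂]
    group
  rw [e] at hb'
  have h1 : 0 ≤ C * (l : ℤ) + κ := utw_nonneg hw hP hP' ha hb fun k hk => by
    have h2 := hΨ a b k (hne hP ha) (hne hP' hb) hk
    have e2 : k - C * l = k - (C * l + κ) + κ := by ring
    rw [hb₂, e2, twSep_shift (hne hP' hb')] at h2
    exact twSep_anch hP hP' ha' ha hb' hb h2
  have h3 : 0 ≤ C * (l : ℤ) - κ := utw_nonneg hw hP' hP hb ha fun k hk => by
    have h2 := hΨ b a k (hne hP' hb) (hne hP ha) hk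
    have h5 := (twSep_shift (w := w) (hne hP ha') (Ψ b) (k - C * l) κ).2 h2
    have h6 := twSep_conj hw (hne hP' hb') (hne hP ha') (w ^ κ) (k - C * l + κ)
    have e3 : w ^ κ * w * (w ^ κ)⁻¹ = w := by group
    rw [e3, ← hb₂] at h6
    have e2 : k - (C * l - κ) = k - C * l + κ := by ring
    rw [e2]
    exact twSep_anch hP' hP hb' hb ha' ha (h6.1 h5)
  have h4 : (0 : ℤ) ≤ C := Int.natCast_nonneg C
  rw [abs_le, mul_add]
  constructor <;> omega

end Pool.Agent.Lib.MP_9ac97d_al
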