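import Pool.Agent.Lib.MP_9ac97d_al.UBasic

/-!
# Heights of homology classes (task UVal)
-/

set_option autoImplicit false

noncomputable section

open Pointwise

namespace Pool.Agent.Lib.MP_9ac97d_al

namespace Ext.Ht

variable {E H Q : Type} [Group E] [Group H] [Group Q] {n : ℕ} {X : Ext E H n} (h : X.Ht Q)

theorem mem_N {g : Fr n} : g ∈ h.N ↔ h.lam (X.j g) = 1 := Iff.rfl

theorem normal_N : h.N.Normal := MonoidHom.normal_ker _

theorem inv_N : X.Inv h.N := by
  have key : ∀ e g, X.ρ e g ∈ h.N ↔ g ∈ h.N := by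
    intro e g
    rw [h.mem_N, h.mem_N, ← X.conj_j, map_mul, map_mul, map_inv, mul_inv_eq_one,
      mul_eq_left]
  intro e
  ext g
  rw [Subgroup.mem_pointwise_smul_iff_inv_smul_mem, ← map_inv]
  exact key e⁻¹ g

theorem act_one (v : h.V) : h.act 1 v = v := by
  unfold act
  rw [xuAct_one h.o _ (map_one _)]
  rfl

theorem act_mul (e e' : E) (v : h.V) : h.act (e * e') v = h.act e (h.act e' v) := by
  unfold act
  rw [xuAct_mul h.o _ (h.pres e) (h.pres e') (map_mul _ _ _)]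
  rfl

theorem act_smul (e : E) (d : MN h.o) (v : h.V) :
    h.act e (d • v) = MN.map (X.ρ e) (h.pres e) d • h.act e v := xuAct_smul h.o _ _ d v

theorem act_j (g : Fr n) (v : h.V) : h.act (X.j g) v = MN.of h.o g • v :=
  xuAct_conj h.o _ (X.ρ_j g) v

theorem act_cls (e : E) {z : Fr n →₀ MN h.o} (hz : z ∈ ZZ (MN.of h.o) ⊤)
    (hz' : chainMap h.o (X.ρ e) (h.pres e) z ∈ ZZ (MN.of h.o) ⊤) :
    h.act e (h.cls z hz) = h.cls _ hz' := rfl

theorem map_mem_DN (e : E) {d : MN h.o} (hd : d ∈ MN.sub h.o h.N) :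
    MN.map (X.ρ e) (h.pres e) d ∈ MN.sub h.o h.N := by
  rw [MN.mem_sub, MN.supp_map]
  rintro _ ⟨g, hg, rfl⟩
  have h1 := Subgroup.smul_mem_pointwise_smul g (X.ρ e) h.N (MN.mem_sub.1 hd hg)
  rw [h.inv_N e] at h1
  exact h1

theorem vals_act (e : E) (v : h.V) :
    h.vals (h.act e v) = (fun q => h.lam e * q) '' h.vals v := by
  ext q
  constructor
  · rintro ⟨a, i, g, hg, rfl⟩
    refine ⟨h.lam (e⁻¹ * a * X.j g), ⟨e⁻¹ * a, i, g, ?_, rfl⟩, ?_⟩
    · rwa [mul_inv_rev, inv_inv, h.act_mul]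
    · simp only
      rw [← map_mul, mul_assoc, mul_inv_cancel_left]
  · rintro ⟨_, ⟨a, i, g, hg, rfl⟩, rfl⟩
    refine ⟨e * a, i, g, ?_, ?_⟩
    · rwa [← h.act_mul, mul_inv_rev, inv_mul_cancel_right]
    · simp only
      rw [← map_mul, mul_assoc]

theorem vals_add (v w : h.V) : h.vals (v + w) ⊆ h.vals v ∪ h.vals w := by
  rintro _ ⟨a, i, g, hg, rfl⟩
  rw [map_add, map_add] at hg
  rcases MN.mnapi_supp_add _ _ hg with h1 | h1
  · exact Or.inl ⟨a, i, g, h1, rfl⟩
  · exact Or.inr ⟨a, i, g, h1, rfl⟩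

theorem vals_neg (v : h.V) : h.vals (-v) = h.vals v := by
  unfold vals
  simp only [map_neg, MN.mnapi_supp_neg]

theorem vals_zero : h.vals 0 = ∅ := by
  unfold vals
  simp [MN.mnapi_supp_zero]

/-- `act a⁻¹ (d • v) = d' • act a⁻¹ v` with `d'` supported on the `ρ a⁻¹ s`, and
`a * j (ρ a⁻¹ s * g) = j s * (a * j g)`. -/
theorem vals_smul (d : MN h.o) (v : h.V) :
    h.vals (d • v) ⊆ {q | ∃ s ∈ d.supp, ∃ x ∈ h.vals v, q = h.lam (X.j s) * x} := by
  rintro _ ⟨a, i, g, hg, rfl⟩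
  rw [h.act_smul, map_smul, smul_eq_mul] at hg
  obtain ⟨s', hs', g', hg', rfl⟩ := MN.supp_mul _ _ hg
  rw [MN.supp_map] at hs'
  obtain ⟨s, hs, rfl⟩ := hs'
  refine ⟨s, hs, _, ⟨a, i, g', hg', rfl⟩, ?_⟩
  simp only
  rw [← map_mul h.lam, map_mul X.j, ← X.conj_j]
  congr 1
  group

/-- `mclimb_rel_iff`. -/
theorem vals_nonempty {v : h.V} (hv : v ≠ 0) : (h.vals v).Nonempty := by
  by_contra hcon
  apply hv
  obtain ⟨_, z, hz, rfl⟩ := v
  refine Subtype.ext ((Submodule.Quotient.mk_eq_zero _).2 (mclimb_rel_iff.2 fun i => ?_))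
  refine MN.ext fun g => ?_
  by_contra hg
  refine hcon ⟨_, 1, i, g, ?_, rfl⟩
  rw [inv_one, h.act_one]
  exact hg

/-- The classes all of whose heights satisfy `p` form a subspace over `DN`. -/
theorem exists_sub (p : Q → Prop) :
    ∃ W : Submodule h.DN h.V, ∀ v, v ∈ W ↔ ∀ x ∈ h.vals v, p x := by
  refine ⟨{ carrier := {v | ∀ x ∈ h.vals v, p x}
            add_mem' := fun {v w} hv hw x hx => ?_
            zero_mem' := fun x hx => ?_
            smul_mem' := fun d v hv x hx => ?_ }, fun v => Iff.rfl⟩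
  · rcases h.vals_add v w hx with h1 | h1
    · exact hv x h1
    · exact hw x h1
  · rw [h.vals_zero] at hx
    exact hx.elim
  · obtain ⟨s, hs, y, hy, rfl⟩ := h.vals_smul (d : MN h.o) v hx
    rw [h.mem_N.1 (MN.mem_sub.1 d.2 hs), one_mul]
    exact hv y hy

theorem exists_val {v : h.V} (hv : v ≠ 0) (hf : (h.vals v).Finite) :
    ∃ q ∈ h.vals v, h.Ge q v ∧ ¬ h.Gt q v := by
  obtain ⟨q, hq, hmin⟩ := (h.oQ.wo_of_finite hf).exists_min (h.vals_nonempty hv)
  exact ⟨q, hq, hmin, fun h1 => h.oQ.lt_irrefl q (h1 q hq)⟩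

theorem uval_mono {m g : Fr n} (hmg : g = m ∨ h.o.lt m g) :
    h.lam (X.j g) = h.lam (X.j m) ∨ h.oQ.lt (h.lam (X.j m)) (h.lam (X.j g)) := by
  rcases hmg with rfl | hmg
  · exact Or.inl rfl
  rcases h.oQ.lt_tri (h.lam (X.j m)) (h.lam (X.j g)) with h1 | h1 | h1
  · exact Or.inr h1
  · exact Or.inl h1.symm
  · exfalso
    have h2 : h.o.lt g m := by
      apply h.compat
      rw [map_mul, map_mul, map_inv, map_inv]
      exact h1
    exact h.o.lt_irrefl _ (h.o.lt_trans hmg h2)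

theorem uval_gt_of (g : Fr n) {x : Q} {w : h.V} (hw : h.Gt x w) :
    h.Gt (h.lam (X.j g) * x) (MN.of h.o g • w) := by
  intro y hy
  rw [← h.act_j, h.vals_act] at hy
  obtain ⟨z, hz, rfl⟩ := hy
  exact (h.oQ.lt_mul_left _).2 (hw z hz)

theorem uval_gt_smul {x q : Q} {w : h.V} {e : MN h.o} (hw : h.Ge q w)
    (he : ∀ g ∈ e.supp, h.oQ.lt x (h.lam (X.j g) * q)) : h.Gt x (e • w) := by
  intro y hy
  obtain ⟨g, hg, z, hz, rfl⟩ := h.vals_smul e w hy
  rcases hw z hz with rfl | h1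
  · exact he g hg
  · exact h.oQ.lt_trans (he g hg) ((h.oQ.lt_mul_left _).2 h1)

theorem uval_card {κ : Type} [Fintype κ] {v : κ → h.V} (hv : LinearIndependent (MN h.o) v) :
    Fintype.card κ ≤ n - 1 := by
  rcases Nat.eq_zero_or_pos n with hn | hn
  · have : IsEmpty κ := by
      refine ⟨fun k => ?_⟩
      obtain ⟨_, _, i, _⟩ := h.vals_nonempty (hv.ne_zero k)
      have := i.2
      omega
    simp
  · have hp : MN.of h.o (FreeGroup.of (⟨0, hn⟩ : Fin n)) ≠ 1 := fun h0 =>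
      FreeGroup.of_ne_one _ (MN.of_injective (h0.trans (map_one _).symm))
    obtain ⟨h1, h2⟩ := finrank_vv (MN.of h.o) (S := ⊤) (Group.fg_def.1 inferInstance)
      (Subgroup.mem_top _) hp
    have h3 := hv.fintype_card_le_finrank
    rw [rk_top] at h2
    have h4 : Module.finrank (MN h.o) h.V + 1 = n := h2
    omega

/-- The key computation. Suppose `∑ d i • v i = 0` with `d ≠ 0`. Let `s i` be the least element of
the support of `d i ≠ 0`; by `compat` all `g` in the support have `lam (j (s i)) ≤ lam (j g)`. Let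
`x` be the least of the `lam (j (s i)) * q i`, and `J` the set of `i` where it is attained. Write
`d i = of (s i) * d' i + d'' i` with `d' i ∈ DN` not zero (`MN.res` to the coset `s i * N`). All
heights of `d'' i • v i`, and of `d i • v i` for `i ∉ J`, are larger than `x` (`vals_smul`). -/
theorem exists_top_rel {κ : Type} [Fintype κ] (v : κ → h.V) (q : κ → Q) (hq : ∀ i, h.Ge (q i) (v i))
    {d : κ → MN h.o} (hd : d ≠ 0) (hs : ∑ i, d i • v i = 0) :
    ∃ (s : κ → Fr n) (d' : κ → h.DN) (x : Q), d' ≠ 0 ∧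
      (∀ i, d' i ≠ 0 → h.lam (X.j (s i)) * q i = x) ∧
      h.Gt x (∑ i, MN.of h.o (s i) • d' i • v i) := by
  classical
  have hex : ∀ i, ∃ m : Fr n, d i ≠ 0 →
      m ∈ (d i).supp ∧ ∀ g ∈ (d i).supp, g = m ∨ h.o.lt m g := by
    intro i
    by_cases hi : d i = 0
    · exact ⟨1, fun h0 => absurd hi h0⟩
    · obtain ⟨m, hm, hm'⟩ := MN.mnval_exists_min hi
      exact ⟨m, fun _ => ⟨hm, hm'⟩⟩
  choose s hsm using hex
  obtain ⟨i₁, hi₁⟩ := Function.ne_iff.1 hd
  obtain ⟨x, ⟨i₀, hi₀, hx₀⟩, hmin⟩ := (h.oQ.wo_of_finite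
    ((Set.toFinite {i | d i ≠ 0}).image fun i => h.lam (X.j (s i)) * q i)).exists_min
    ⟨_, i₁, hi₁, rfl⟩
  let d' : κ → h.DN := fun i =>
    if d i ≠ 0 ∧ h.lam (X.j (s i)) * q i = x then
      ⟨MN.res (h.N : Set (Fr n)) (MN.of h.o (s i)⁻¹ * d i), MN.mnapi_supp_res _ _⟩ else 0
  refine ⟨s, d', x, ?_, fun i hi => ?_, ?_⟩
  · intro h0
    have h1 : ((d' i₀ : h.DN) : MN h.o).c 1 = 0 := by
      rw [h0]
      rfl
    simp only [d'] at h1
    rw [if_pos ⟨hi₀, hx₀⟩, MN.c_res, if_pos (show (1 : Fr n) ∈ (h.N : Set (Fr n)) from one_mem _),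
      MN.mnapi_c_of_mul, inv_inv, mul_one] at h1
    exact (hsm i₀ hi₀).1 h1
  · by_contra hne
    apply hi
    simp only [d']
    rw [if_neg fun h1 => hne h1.2]
  · obtain ⟨W, hW⟩ := h.exists_sub (h.oQ.lt x)
    have e1 : ∑ i, MN.of h.o (s i) • d' i • v i =
        -∑ i, (d i - MN.of h.o (s i) * (d' i : MN h.o)) • v i := by
      have e2 : ∀ i, (d i - MN.of h.o (s i) * (d' i : MN h.o)) • v i =
          d i • v i - MN.of h.o (s i) • d' i • v i := fun i => by
        refine (sub_smul (d i) (MN.of h.o (s i) * (d' i : MN h.o)) (v i)).trans ?_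
        rw [mul_smul]
        rfl
      rw [Finset.sum_congr rfl fun i _ => e2 i, Finset.sum_sub_distrib, hs, zero_sub, neg_neg]
    rw [e1]
    refine (hW _).1 (W.neg_mem (W.sum_mem fun i _ => (hW _).2 ?_))
    refine h.uval_gt_smul (hq i) fun g hg => ?_
    rw [MN.mnapi_mem_supp, MN.c_sub, MN.mnapi_c_of_mul] at hg
    by_cases hi : d i ≠ 0 ∧ h.lam (X.j (s i)) * q i = x
    · simp only [d'] at hg
      rw [if_pos hi, MN.c_res, MN.mnapi_c_of_mul, inv_inv, mul_inv_cancel_left] at hg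
      by_cases hN : (s i)⁻¹ * g ∈ (h.N : Set (Fr n))
      · rw [if_pos hN, sub_self] at hg
        exact absurd rfl hg
      · rw [if_neg hN, sub_zero] at hg
        rcases h.uval_mono ((hsm i hi.1).2 g hg) with h1 | h1
        · exfalso
          apply hN
          rw [SetLike.mem_coe, h.mem_N, map_mul, map_mul, map_inv, map_inv, h1, inv_mul_cancel]
        · rw [← hi.2]
          exact (h.oQ.lt_mul_right _).2 h1
    · simp only [d'] at hg
      rw [if_neg hi] at hg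
      have hg' : g ∈ (d i).supp := by
        intro h0
        apply hg
        rw [h0]
        simp
      have hi0 : d i ≠ 0 := MN.mnval_ne_zero hg'
      have h2 : h.oQ.lt x (h.lam (X.j (s i)) * q i) := by
        rcases hmin _ ⟨i, hi0, rfl⟩ with h1 | h1
        · exact absurd ⟨hi0, h1⟩ hi
        · exact h1
      rcases h.uval_mono ((hsm i hi0).2 g hg') with h1 | h1
      · rw [h1]
        exact h2
      · exact h.oQ.lt_trans h2 ((h.oQ.lt_mul_right _).2 h1)

/-- The family is independent over `MN h.o` by `exists_top_rel` (all `s i`, `i ∈ J`, lie in one coset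
of `N`; multiply by the inverse of a representative, `act_j`, `vals_act`), and the dimension of `V`
is `n - 1` (`finrank_vv`, `rk_top`; for `n = 0` the space is trivial). -/
theorem ind1 {κ : Type} [Fintype κ] (v : κ → h.V) (q : Q) (hq : ∀ i, h.Ge q (v i))
    (hi : ∀ d : κ → h.DN, h.Gt q (∑ i, d i • v i) → ∀ i, d i = 0) :
    Fintype.card κ ≤ n - 1 := by
  refine h.uval_card (v := v) (Fintype.linearIndependent_iff.2 fun d hs => ?_)
  by_contra hcon
  have hd : d ≠ 0 := fun h0 => hcon fun i => by rw [h0]; rfl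
  obtain ⟨s, d', x, hd', hx, hgt⟩ := h.exists_top_rel v (fun _ => q) hq hd hs
  obtain ⟨i₀, hi₀⟩ := Function.ne_iff.1 hd'
  have hmem : ∀ i, MN.of h.o ((s i₀)⁻¹ * s i) * (d' i : MN h.o) ∈ MN.sub h.o h.N := by
    intro i
    by_cases h0 : d' i = 0
    · rw [h0]
      simp
    · refine mul_mem (MN.of_mem_sub ?_) (d' i).2
      have h1 := mul_right_cancel ((hx i h0).trans (hx i₀ hi₀).symm)
      rw [h.mem_N, map_mul, map_mul, map_inv, map_inv, h1, inv_mul_cancel]
  have h1 := h.uval_gt_of (s i₀)⁻¹ hgt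
  rw [← hx i₀ hi₀, map_inv, map_inv, inv_mul_cancel_left, Finset.smul_sum] at h1
  have h2 := hi (fun i => ⟨_, hmem i⟩) (by
    convert h1 using 2 with i
    rw [← mul_smul, ← map_mul]
    exact mul_smul (MN.of h.o ((s i₀)⁻¹ * s i)) (d' i : MN h.o) (v i)) i₀
  apply hi₀
  have h3 := congrArg Subtype.val h2
  simp only [inv_mul_cancel, map_one, one_mul] at h3
  exact Subtype.ext h3

/-- Here `J` has one element `i`; multiply by the inverses of `of (s i)` and of `d' i`. -/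
theorem ind2 {κ : Type} [Fintype κ] (v : κ → h.V) (q : κ → Q) (hq : ∀ i, h.Ge (q i) (v i))
    (hq' : ∀ i, ¬ h.Gt (q i) (v i))
    (hne : ∀ i k s t, h.lam (X.j s) * q i = h.lam (X.j t) * q k → i = k) :
    Fintype.card κ ≤ n - 1 := by
  refine h.uval_card (v := v) (Fintype.linearIndependent_iff.2 fun d hs => ?_)
  by_contra hcon
  have hd : d ≠ 0 := fun h0 => hcon fun i => by rw [h0]; rfl
  obtain ⟨s, d', x, hd', hx, hgt⟩ := h.exists_top_rel v q hq hd hs
  obtain ⟨i₀, hi₀⟩ := Function.ne_iff.1 hd'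
  have hi₁ : d' i₀ ≠ 0 := hi₀
  rw [Finset.sum_eq_single i₀ (fun k _ hk => by
    have h0 : d' k = 0 := by
      by_contra h0
      exact hk (hne _ _ _ _ ((hx k h0).trans (hx i₀ hi₁).symm))
    rw [h0, zero_smul, smul_zero]) (fun h0 => absurd (Finset.mem_univ _) h0)] at hgt
  have h1 := h.uval_gt_of (s i₀)⁻¹ hgt
  rw [← hx i₀ hi₁, map_inv, map_inv, inv_mul_cancel_left, ← mul_smul, ← map_mul, inv_mul_cancel,
    map_one, one_smul] at h1
  obtain ⟨W, hW⟩ := h.exists_sub (h.oQ.lt (q i₀))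
  have h2 := W.smul_mem (d' i₀)⁻¹ ((hW _).2 h1)
  rw [← mul_smul, inv_mul_cancel₀ hi₁, one_smul] at h2
  exact hq' i₀ ((hW _).1 h2)

end Ext.Ht

end Pool.Agent.Lib.MP_9ac97d_al
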