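import Pool.Agent.Lib.MP_9ac97d_al.Lin
import Pool.Agent.Lib.MP_9ac97d_al.GFF

/-!
# Unipotent, or a common eigenvector with a uniformly hyperbolic weight (task Weight)
-/

set_option autoImplicit false

noncomputable section

open Pointwise

namespace Pool.Agent.Lib.MP_9ac97d_al

variable {H : Type} [Group H] {d : ℕ}

/-- Finitely many nonzero real characters are simultaneously nonzero somewhere. -/
theorem exists_all_ne {κ : Type} [Finite κ] (f : κ → H →* Multiplicative ℝ) (hf : ∀ i, f i ≠ 1) :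
    ∃ x, ∀ i, f i x ≠ 1 := by
  have := Fintype.ofFinite κ
  by_contra hc
  push Not at hc
  obtain ⟨k, -, hk⟩ := Subgroup.exists_finiteIndex_of_leftCoset_cover
    (H := fun i => (f i).ker) (g := fun _ => (1 : H)) (s := Finset.univ) (by
      refine Set.eq_univ_of_forall fun x => ?_
      obtain ⟨i, hi⟩ := hc x
      simp only [Set.mem_iUnion, one_smul]
      exact ⟨i, Finset.mem_univ i, hi⟩)
  refine hf k (MonoidHom.ext fun y => ?_)
  have h1 : f k (y ^ (f k).ker.index) = 1 := (f k).ker.pow_index_mem y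
  rw [map_pow] at h1
  have h2 := congrArg Multiplicative.toAdd h1
  rw [toAdd_pow, toAdd_one, smul_eq_zero] at h2
  rcases h2 with h2 | h2
  · exact absurd h2 hk.index_ne_zero
  · exact h2

/-- Matrices that vanish below the `k`-th superdiagonal. -/
def weight_N (k : ℕ) (A : Matrix (Fin d) (Fin d) ℂ) : Prop :=
  ∀ i j : Fin d, (j : ℕ) < i + k → A i j = 0

theorem weight_N_mul {a b : ℕ} {A B : Matrix (Fin d) (Fin d) ℂ} (hA : weight_N a A)
    (hB : weight_N b B) : weight_N (a + b) (A * B) := by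
  intro i j hij
  rw [Matrix.mul_apply]
  refine Finset.sum_eq_zero fun l _ => ?_
  by_cases h : (l : ℕ) < i + a
  · rw [hA i l h, zero_mul]
  · rw [hB l j (by omega), mul_zero]

theorem weight_N_mono {a b : ℕ} {A : Matrix (Fin d) (Fin d) ℂ} (hA : weight_N a A) (h : b ≤ a) :
    weight_N b A := fun i j hij => hA i j (by omega)

theorem weight_N_add {a : ℕ} {A B : Matrix (Fin d) (Fin d) ℂ} (hA : weight_N a A)
    (hB : weight_N a B) : weight_N a (A + B) := fun i j hij => by
  rw [Matrix.add_apply, hA i j hij, hB i j hij, add_zero]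

theorem weight_N_sub {a : ℕ} {A B : Matrix (Fin d) (Fin d) ℂ} (hA : weight_N a A)
    (hB : weight_N a B) : weight_N a (A - B) := fun i j hij => by
  rw [Matrix.sub_apply, hA i j hij, hB i j hij, sub_zero]

theorem weight_N_neg {a : ℕ} {A : Matrix (Fin d) (Fin d) ℂ} (hA : weight_N a A) :
    weight_N a (-A) := fun i j hij => by
  rw [Matrix.neg_apply, hA i j hij, neg_zero]

theorem weight_N_one : weight_N 0 (1 : Matrix (Fin d) (Fin d) ℂ) := fun i j hij =>
  Matrix.one_apply_ne fun e => by subst e; omega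

theorem weight_N_zero (a : ℕ) : weight_N a (0 : Matrix (Fin d) (Fin d) ℂ) := fun _ _ _ => rfl

theorem weight_N_eq_zero {a : ℕ} {A : Matrix (Fin d) (Fin d) ℂ} (hA : weight_N a A) (h : d ≤ a) :
    A = 0 := by
  ext i j
  exact hA i j (by have := j.2; omega)

theorem weight_diag_mul {A B : Matrix (Fin d) (Fin d) ℂ} (hA : weight_N 0 A) (hB : weight_N 0 B)
    (i : Fin d) : (A * B) i i = A i i * B i i := by
  rw [Matrix.mul_apply]
  refine Finset.sum_eq_single i (fun l _ hl => ?_) fun h => absurd (Finset.mem_univ i) h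
  rcases lt_or_gt_of_ne hl with h | h
  · rw [hA i l h, zero_mul]
  · rw [hB l i h, mul_zero]

theorem weight_N_prod (l : List (Matrix (Fin d) (Fin d) ℂ)) (h : ∀ A ∈ l, weight_N 1 A) :
    weight_N l.length l.prod := by
  induction l with
  | nil => exact weight_N_one
  | cons A l ih =>
    rw [List.prod_cons, List.length_cons, add_comm]
    exact weight_N_mul (h A List.mem_cons_self) (ih fun B hB => h B (List.mem_cons_of_mem _ hB))

/-- The complex matrix in the basis `b`. -/
def weight_psi (b : Module.Basis (Fin d) ℂ (Fin d → ℂ)) :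
    Matrix (Fin d) (Fin d) ℤ →+* Matrix (Fin d) (Fin d) ℂ :=
  (LinearMap.toMatrixAlgEquiv b).toRingEquiv.toRingHom.comp
    ((Matrix.toLinAlgEquiv' (R := ℂ) (n := Fin d)).toRingEquiv.toRingHom.comp
      (Int.castRingHom ℂ).mapMatrix)

theorem weight_psi_eq (b : Module.Basis (Fin d) ℂ (Fin d → ℂ)) (A : Matrix (Fin d) (Fin d) ℤ) :
    weight_psi b A = LinearMap.toMatrix b b (Matrix.toLin' (cplx A)) := rfl

theorem weight_psi_inj (b : Module.Basis (Fin d) ℂ (Fin d → ℂ)) :
    Function.Injective (weight_psi b) := by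
  intro A B h
  rw [weight_psi_eq, weight_psi_eq] at h
  have h1 := Matrix.toLin'.injective ((LinearMap.toMatrix b b).injective h)
  ext i j
  have h2 : ((A i j : ℤ) : ℂ) = (B i j : ℤ) := congrFun (congrFun h1 i) j
  exact_mod_cast h2

theorem weight_psi_trace (b : Module.Basis (Fin d) ℂ (Fin d → ℂ)) (A : Matrix (Fin d) (Fin d) ℤ) :
    (weight_psi b A).trace = ((A.trace : ℤ) : ℂ) := by
  rw [weight_psi_eq, ← LinearMap.trace_eq_matrix_trace, Matrix.trace_toLin'_eq]
  simp [Matrix.trace, cplx]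

theorem weight_unip_mono {Γ Γ' : Set (Matrix (Fin d) (Fin d) ℤ)} (h : Unip Γ') (hle : Γ ⊆ Γ') :
    Unip Γ := fun l hl hd => h l (fun A hA => hle (hl A hA)) hd

theorem weight_unip (b : Module.Basis (Fin d) ℂ (Fin d → ℂ)) {Γ : Set (Matrix (Fin d) (Fin d) ℤ)}
    (h : ∀ A ∈ Γ, weight_N 1 (weight_psi b A - 1)) : Unip Γ := by
  intro l hl hd
  apply weight_psi_inj b
  rw [map_zero, map_list_prod]
  refine weight_N_eq_zero (weight_N_prod _ fun B hB => ?_) (by simp [hd])
  simp only [List.map_map, List.mem_map, Function.comp_apply] at hB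
  obtain ⟨A, hA, rfl⟩ := hB
  rw [map_sub, map_one]
  exact h A (hl A hA)

/-- The filtration of a triangular group. -/
def weight_U (T : H →* Matrix (Fin d) (Fin d) ℂ) (H₁ : Subgroup H)
    (hT : ∀ h ∈ H₁, weight_N 0 (T h)) (c : ℕ) : Subgroup H where
  carrier := {h | h ∈ H₁ ∧ weight_N (c + 1) (T h - 1)}
  one_mem' := ⟨H₁.one_mem, by rw [map_one, sub_self]; exact weight_N_zero _⟩
  mul_mem' := by
    rintro x y ⟨hx, hx'⟩ ⟨hy, hy'⟩
    refine ⟨H₁.mul_mem hx hy, ?_⟩
    have e : T (x * y) - 1 = (T x - 1) * T y + (T y - 1) := by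
      rw [map_mul]
      noncomm_ring
    rw [e]
    exact weight_N_add (weight_N_mul (a := c + 1) (b := 0) hx' (hT y hy)) hy'
  inv_mem' := by
    rintro x ⟨hx, hx'⟩
    refine ⟨H₁.inv_mem hx, ?_⟩
    have e : T x⁻¹ - 1 = -((T x - 1) * T x⁻¹) := by
      rw [sub_mul, ← map_mul, mul_inv_cancel, map_one, one_mul, neg_sub]
    rw [e]
    exact weight_N_neg (weight_N_mul (a := c + 1) (b := 0) hx' (hT _ (H₁.inv_mem hx)))

theorem weight_comm_eq (T : H →* Matrix (Fin d) (Fin d) ℂ) (x y : H) :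
    T (x * y * x⁻¹ * y⁻¹) - 1 = (T x * T y - T y * T x) * T (x⁻¹ * y⁻¹) := by
  rw [sub_mul, ← map_mul, ← map_mul, ← map_mul, ← map_mul]
  congr 2
  · group
  · rw [← map_one T]
    congr 1
    group

theorem weight_comm_le (T : H →* Matrix (Fin d) (Fin d) ℂ) (H₁ : Subgroup H)
    (hT : ∀ h ∈ H₁, weight_N 0 (T h)) : ⁅H₁, H₁⁆ ≤ weight_U T H₁ hT 0 := by
  refine Subgroup.commutator_le.2 fun x hx y hy => ⟨?_, ?_⟩
  · rw [commutatorElement_def]
    exact H₁.mul_mem (H₁.mul_mem (H₁.mul_mem hx hy) (H₁.inv_mem hx)) (H₁.inv_mem hy)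
  · rw [commutatorElement_def, weight_comm_eq]
    refine weight_N_mul (a := 1) (b := 0) (fun i j hij => ?_)
      (hT _ (H₁.mul_mem (H₁.inv_mem hx) (H₁.inv_mem hy)))
    rcases Nat.lt_succ_iff_lt_or_eq.1 hij with h | h
    · exact weight_N_sub (weight_N_mul (hT x hx) (hT y hy)) (weight_N_mul (hT y hy) (hT x hx)) i j h
    · obtain rfl : j = i := Fin.ext h
      rw [Matrix.sub_apply, weight_diag_mul (hT x hx) (hT y hy),
        weight_diag_mul (hT y hy) (hT x hx), mul_comm, sub_self]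

theorem weight_lcs_le (T : H →* Matrix (Fin d) (Fin d) ℂ) (H₁ : Subgroup H)
    (hT : ∀ h ∈ H₁, weight_N 0 (T h)) (c : ℕ) :
    (weight_U T H₁ hT 0).lowerCentralSeries c ≤ weight_U T H₁ hT c := by
  induction c with
  | zero => exact le_rfl
  | succ c ih =>
    rw [Subgroup.lowerCentralSeries_succ]
    refine Subgroup.commutator_le.2 fun x hx y hy => ?_
    obtain ⟨hx, hx'⟩ := ih hx
    obtain ⟨hy, hy'⟩ := hy
    refine ⟨?_, ?_⟩
    · rw [commutatorElement_def]
      exact H₁.mul_mem (H₁.mul_mem (H₁.mul_mem hx hy) (H₁.inv_mem hx)) (H₁.inv_mem hy)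
    · rw [commutatorElement_def, weight_comm_eq]
      refine weight_N_mul (a := c + 1 + 1) (b := 0) ?_
        (hT _ (H₁.mul_mem (H₁.inv_mem hx) (H₁.inv_mem hy)))
      have e : T x * T y - T y * T x = (T x - 1) * (T y - 1) - (T y - 1) * (T x - 1) := by
        noncomm_ring
      rw [e]
      exact weight_N_sub (weight_N_mul hx' hy') (weight_N_mono (weight_N_mul hy' hx') (by omega))

theorem weight_mulVec {A : Matrix (Fin d) (Fin d) ℂ} (hA : weight_N 0 A) {w : Fin d → ℂ}
    {j : Fin d} (hw : ∀ i, j < i → w i = 0) :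
    A.mulVec w j = A j j * w j ∧ ∀ i, j < i → A.mulVec w i = 0 := by
  constructor
  · rw [Matrix.mulVec, dotProduct]
    refine Finset.sum_eq_single j (fun l _ hl => ?_) fun h => absurd (Finset.mem_univ j) h
    rcases lt_or_gt_of_ne hl with h | h
    · rw [hA j l h, zero_mul]
    · rw [hw l h, mul_zero]
  · intro i hi
    rw [Matrix.mulVec, dotProduct]
    refine Finset.sum_eq_zero fun l _ => ?_
    by_cases h : j < l
    · rw [hw l h, mul_zero]
    · rw [hA i l (lt_of_le_of_lt (not_lt.1 h) hi), zero_mul]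

theorem weight_inj {A : Matrix (Fin d) (Fin d) ℂ} (hA : weight_N 0 A) {j : Fin d}
    (hne : ∀ i, i < j → A i i ≠ A j j) {u : Fin d → ℂ} (hu : ∀ i, j ≤ i → u i = 0)
    (h : A.mulVec u = A j j • u) : u = 0 := by
  by_contra h0
  obtain ⟨i₁, hi₁⟩ := Function.ne_iff.1 h0
  obtain ⟨i, hi, hmax⟩ := Finset.exists_max_image (Finset.univ.filter fun i => u i ≠ 0) id
    ⟨i₁, by simpa using hi₁⟩
  have hi' : u i ≠ 0 := (Finset.mem_filter.1 hi).2
  have hz : ∀ l, i < l → u l = 0 := by
    intro l hl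
    by_contra hl'
    exact absurd (hmax l (by simpa using hl')) (not_le.2 hl)
  have hij : i < j := by
    by_contra hc
    exact hi' (hu i (not_lt.1 hc))
  have h1 := (weight_mulVec hA hz).1
  rw [h, Pi.smul_apply, smul_eq_mul] at h1
  exact hne i hij (mul_right_cancel₀ hi' h1).symm

theorem weight_fixed {A : Matrix (Fin d) (Fin d) ℂ} (hA : weight_N 0 A) {j : Fin d}
    (hne : ∀ i, i < j → A i i ≠ A j j) :
    ∃ p : Fin d → ℂ, (p j = 1 ∧ ∀ i, j < i → p i = 0) ∧ A.mulVec p = A j j • p := by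
  let W : Submodule ℂ (Fin d → ℂ) :=
    { carrier := {u | ∀ i, j ≤ i → u i = 0}
      zero_mem' := fun _ _ => rfl
      add_mem' := fun ha hb i hi => by rw [Pi.add_apply, ha i hi, hb i hi, add_zero]
      smul_mem' := fun c u hu i hi => by rw [Pi.smul_apply, hu i hi, smul_zero] }
  let φ : (Fin d → ℂ) →ₗ[ℂ] (Fin d → ℂ) := Matrix.toLin' A - A j j • LinearMap.id
  have hφ : ∀ u, φ u = A.mulVec u - A j j • u := fun u => rfl
  have hφW : ∀ u : Fin d → ℂ, (∀ i, j < i → u i = 0) → φ u ∈ W := by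
    intro u hu i hi
    rw [hφ, Pi.sub_apply, Pi.smul_apply, smul_eq_mul]
    rcases hi.eq_or_lt with rfl | h
    · rw [(weight_mulVec hA hu).1, sub_self]
    · rw [(weight_mulVec hA hu).2 i h, hu i h, mul_zero, sub_zero]
  have hres : ∀ u ∈ W, φ u ∈ W := fun u hu => hφW u fun i hi => hu i hi.le
  have hinj : Function.Injective (φ.restrict hres) := by
    rw [injective_iff_map_eq_zero]
    intro u hu
    have h1 : φ u = 0 := congrArg Subtype.val hu
    rw [hφ, sub_eq_zero] at h1
    exact Subtype.ext (weight_inj hA hne u.2 h1)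
  have he : ∀ i, j < i → (Pi.single j 1 : Fin d → ℂ) i = 0 := fun i hi =>
    Pi.single_eq_of_ne hi.ne' _
  obtain ⟨u, hu⟩ := LinearMap.injective_iff_surjective.1 hinj ⟨_, hφW _ he⟩
  have h1 : φ u = φ (Pi.single j 1) := congrArg Subtype.val hu
  refine ⟨Pi.single j 1 - u.1, ⟨?_, fun i hi => ?_⟩, ?_⟩
  · rw [Pi.sub_apply, Pi.single_eq_same, u.2 j le_rfl, sub_zero]
  · rw [Pi.sub_apply, he i hi, u.2 i hi.le, sub_zero]
  · rw [← sub_eq_zero, ← hφ, map_sub, h1, sub_self]

/-- A triangular nilpotent group has a common eigenvector for each absolute value of a weight. -/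
theorem weight_common {G : Type} [Group G] (T : G →* Matrix (Fin d) (Fin d) ℂ)
    (hT : ∀ h, weight_N 0 (T h)) {c : ℕ}
    (hc : ∀ g ∈ (⊤ : Subgroup G).lowerCentralSeries c, T g = 1) (k : Fin d) :
    ∃ (j : Fin d) (p : Fin d → ℂ), p ≠ 0 ∧ (∀ h, ‖T h j j‖ = ‖T h k k‖) ∧
      ∀ h, (T h).mulVec p = T h j j • p := by
  classical
  have hmul : ∀ i g h, T (g * h) i i = T g i i * T h i i := fun i g h => by
    rw [map_mul, weight_diag_mul (hT g) (hT h)]
  have hone : ∀ i, T 1 i i = 1 := fun i => by rw [map_one, Matrix.one_apply_eq]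
  have hne0 : ∀ i g, T g i i ≠ 0 := fun i g => by
    have := hmul i g g⁻¹
    rw [mul_inv_cancel, hone] at this
    exact left_ne_zero_of_mul_eq_one this.symm
  obtain ⟨j, hj, hmin⟩ := Finset.exists_min_image
    (Finset.univ.filter fun i => ∀ h, ‖T h i i‖ = ‖T h k k‖) id ⟨k, by simp⟩
  have hj' : ∀ h, ‖T h j j‖ = ‖T h k k‖ := (Finset.mem_filter.1 hj).2
  let f : {i // i < j} → G →* Multiplicative ℝ := fun i =>
    MonoidHom.mk' (fun h => Multiplicative.ofAdd (Real.log ‖T h i i‖ - Real.log ‖T h j j‖))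
      fun g h => by
        rw [← ofAdd_add, hmul, hmul, norm_mul, norm_mul,
          Real.log_mul (norm_ne_zero_iff.2 (hne0 _ _)) (norm_ne_zero_iff.2 (hne0 _ _)),
          Real.log_mul (norm_ne_zero_iff.2 (hne0 _ _)) (norm_ne_zero_iff.2 (hne0 _ _))]
        congr 1
        ring
  have hf : ∀ i h, (f i h).toAdd = Real.log ‖T h i i‖ - Real.log ‖T h j j‖ := fun i h => rfl
  obtain ⟨x, hx⟩ := exists_all_ne f fun i hi => by
    refine absurd (hmin i.1 (Finset.mem_filter.2 ⟨Finset.mem_univ _, fun h => ?_⟩)) (not_le.2 i.2)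
    have h1 := hf i h
    rw [hi, MonoidHom.one_apply, toAdd_one, eq_comm, sub_eq_zero] at h1
    rw [← hj' h]
    exact Real.log_injOn_pos (norm_pos_iff.2 (hne0 _ _)) (norm_pos_iff.2 (hne0 _ _)) h1
  have hxne : ∀ i, i < j → T x i i ≠ T x j j := by
    intro i hi e
    refine hx ⟨i, hi⟩ (Multiplicative.toAdd.injective ?_)
    rw [hf, toAdd_one]
    change Real.log ‖T x i i‖ - _ = 0
    rw [e, sub_self]
  obtain ⟨p, hp, hpx⟩ := weight_fixed (hT x) hxne
  let X := {w : Fin d → ℂ // w j = 1 ∧ ∀ i, j < i → w i = 0}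
  let act : G → X → X := fun g w => ⟨(T g j j)⁻¹ • (T g).mulVec w.1, by
    rw [Pi.smul_apply, (weight_mulVec (hT g) w.2.2).1, w.2.1, mul_one, smul_eq_mul,
      inv_mul_cancel₀ (hne0 j g)], fun i hi => by
    rw [Pi.smul_apply, (weight_mulVec (hT g) w.2.2).2 i hi, smul_zero]⟩
  have hact : ∀ g (w : X), (act g w).1 = (T g j j)⁻¹ • (T g).mulVec w.1 := fun _ _ => rfl
  let inst : MulAction G X :=
    { smul := act
      one_smul := fun w => Subtype.ext (by
        change (act 1 w).1 = w.1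
        rw [hact, hone, map_one, Matrix.one_mulVec, inv_one, one_smul])
      mul_smul := fun g h w => Subtype.ext (by
        change (act (g * h) w).1 = (act g (act h w)).1
        rw [hact, hact, hact, hmul, map_mul, Matrix.mulVec_smul, smul_smul, Matrix.mulVec_mulVec,
          mul_inv]) }
  have hsm : ∀ g (w : X), g • w = w ↔ (T g).mulVec w.1 = T g j j • w.1 := by
    intro g w
    change act g w = w ↔ _
    rw [Subtype.ext_iff, hact, inv_smul_eq_iff₀ (hne0 j g)]
  have key := fixed_of_unique (X := X) (c := c) (fun g hg q => by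
    rw [hsm, hc g hg, Matrix.one_mulVec, Matrix.one_apply_eq, one_smul]) (x := x) (p := ⟨p, hp⟩)
    (fun q => by
      rw [hsm]
      constructor
      · intro hq
        refine Subtype.ext (sub_eq_zero.1
          (weight_inj (u := q.1 - p) (hT x) hxne (fun i hi => ?_) ?_))
        · rw [Pi.sub_apply]
          rcases hi.eq_or_lt with rfl | h
          · rw [q.2.1, hp.1, sub_self]
          · rw [q.2.2 i h, hp.2 i h, sub_self]
        · rw [Matrix.mulVec_sub, hq, hpx, smul_sub]
      · rintro rfl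
        exact hpx)
  refine ⟨j, p, fun e => ?_, hj', fun h => (hsm h _).1 (key h)⟩
  have := hp.1
  rw [e] at this
  exact zero_ne_one this

/-- Take `H₁` and the basis `b` from `exists_triangular`; the diagonal entries `lam i` are
characters of `H₁`, trivial on `⁅H₁, H₁⁆`, which is therefore unipotent and has nilpotent image, so
the kernel of `ρ` (as a map to the units) is in `FF` (`FF.ker_of_nilpotent`): a term of the lower
central series of a finite index normal subgroup `H₃ ≤ H₁` acts trivially. Apply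
`trace_dichotomy` to `H₃`. In the second case the trace is the sum of the `lam i`, so some
`‖lam k h‖ ≥ 1 + 1 / d`, with `k` fixed by `NFP.pigeon`. Let `j` be the first index with
`‖lam j‖ = ‖lam k‖` on `H₃` and `x ∈ H₃` with `‖lam j x‖ ≠ ‖lam i x‖` for `i < j`
(`exists_all_ne`). On the set of vectors `b j + (combination of the b i, i < j)` the group acts by
`v ↦ (lam j h)⁻¹ ρ h v`, and `x` has a unique fixed point; use `fixed_of_unique`. -/
theorem weight_dichotomy (hH : NF H) (ρ : H →* Matrix (Fin d) (Fin d) ℤ) :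
    ∃ H₂ : Subgroup H, H₂.FiniteIndex ∧ H₂.Normal ∧ Unip (ρ '' (⁅H₂, H₂⁆ : Subgroup H)) ∧
      (Unip (ρ '' H₂) ∨ ∃ (v : Fin d → ℂ) (lam : H₂ →* ℂ) (ε : ℝ) (L₀ : ℕ), v ≠ 0 ∧ 0 < ε ∧
        (∀ h : H₂, (cplx (ρ h)).mulVec v = lam h • v) ∧
        NFP H₂ fun S => ∃ h ∈ ball S L₀, 1 + ε ≤ ‖lam h‖) := by
  obtain ⟨H₁, hH₁, b, hb⟩ := exists_triangular hH ρ
  let T : H →* Matrix (Fin d) (Fin d) ℂ := (weight_psi b).toMonoidHom.comp ρ
  have hTe : ∀ h, T h = weight_psi b (ρ h) := fun _ => rfl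
  have hT : ∀ h ∈ H₁, weight_N 0 (T h) := by
    intro h hh i j hij
    rw [hTe, weight_psi_eq, LinearMap.toMatrix_apply]
    exact hb h hh j i hij
  have hK : FF (weight_U T H₁ hT 0) := (ff_commutator H₁).mono (weight_comm_le T H₁ hT)
  have hker : FF ρ.toHomUnits.ker := by
    refine FF.ker_of_nilpotent hH hK ρ.toHomUnits (c := d) ?_
    rw [← Subgroup.map_lowerCentralSeries, Subgroup.map_eq_bot_iff]
    intro g hg
    have h1 := weight_N_eq_zero (weight_lcs_le T H₁ hT d hg).2 (Nat.le_succ d)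
    rw [sub_eq_zero, hTe, ← map_one (weight_psi b)] at h1
    exact Units.ext (weight_psi_inj b h1)
  obtain ⟨H', hH', c, hc⟩ := hker
  let H₃ := (H' ⊓ H₁).normalCore
  have h31 : H₃ ≤ H₁ := (Subgroup.normalCore_le _).trans inf_le_right
  have h3' : H₃ ≤ H' := (Subgroup.normalCore_le _).trans inf_le_left
  have hfin : H₃.FiniteIndex := inferInstance
  rcases trace_dichotomy (ρ.comp H₃.subtype) with ⟨H₄, h4, -, hu⟩ | ⟨L₀, hL⟩
  · have h5 : (H₄.map H₃.subtype).FiniteIndex :=
      ⟨by rw [Subgroup.index_map_subtype]; exact mul_ne_zero h4.index_ne_zero hfin.index_ne_zero⟩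
    have hu' : Unip (ρ '' (H₄.map H₃.subtype).normalCore) := by
      refine weight_unip_mono hu ?_
      rintro _ ⟨g, hg, rfl⟩
      obtain ⟨g', hg', rfl⟩ := Subgroup.normalCore_le _ hg
      exact ⟨g', hg', rfl⟩
    refine ⟨(H₄.map H₃.subtype).normalCore, inferInstance, inferInstance, ?_, Or.inl hu'⟩
    exact weight_unip_mono hu' (Set.image_mono (Subgroup.commutator_le_left _ _))
  refine ⟨H₃, hfin, inferInstance, ?_, Or.inr ?_⟩
  · refine weight_unip b ?_
    rintro _ ⟨g, hg, rfl⟩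
    exact (weight_comm_le T H₁ hT (Subgroup.commutator_mono h31 h31 hg)).2
  have hε : (0 : ℝ) < 1 / ((d : ℝ) + 1) := by positivity
  have hNF : NFP H₃ fun S => ∃ k : Fin d, ∃ h ∈ ball S L₀, 1 + 1 / ((d : ℝ) + 1) ≤ ‖T h k k‖ := by
    refine NFP.mono (hH.subgroup H₃) fun S _ hS _ => ?_
    obtain ⟨a, ha, htr⟩ := hL S hS
    by_contra hcon
    push Not at hcon
    have h1 : ‖(T a).trace‖ ≤ ∑ _k : Fin d, (1 + 1 / ((d : ℝ) + 1)) :=
      (norm_sum_le _ _).trans (Finset.sum_le_sum fun k _ => (hcon k a ha).le)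
    rw [hTe, weight_psi_trace, Complex.norm_intCast, Finset.sum_const, Finset.card_univ,
      Fintype.card_fin, nsmul_eq_mul] at h1
    have h2 : (d + 2 : ℝ) ≤ |(((ρ a).trace : ℤ) : ℝ)| := by exact_mod_cast htr
    have h3 : (d : ℝ) * (1 / ((d : ℝ) + 1)) ≤ 1 := by
      rw [mul_one_div, div_le_one (by positivity)]
      linarith
    nlinarith
  obtain ⟨k, hk⟩ := hNF.pigeon
  obtain ⟨j, p, hp0, hjk, hp⟩ := weight_common (T.comp H₃.subtype) (fun h => hT _ (h31 h.2))
    (c := c) (fun g hg => by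
      have h1 : (g : H) ∈ H₃.lowerCentralSeries c := by
        rw [← Subgroup.top_subtype_lowerCentralSeries]
        exact ⟨g, hg, rfl⟩
      have h2 : ρ g = 1 :=
        congrArg Units.val (hc (Subgroup.lowerCentralSeries_mono c h3' h1))
      change weight_psi b (ρ g) = 1
      rw [h2, map_one]) k
  let lam : H₃ →* ℂ :=
    { toFun := fun h => T h j j
      map_one' := by rw [OneMemClass.coe_one, map_one, Matrix.one_apply_eq]
      map_mul' := fun g h => by
        rw [Subgroup.coe_mul, map_mul, weight_diag_mul (hT _ (h31 g.2)) (hT _ (h31 h.2))] }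
  refine ⟨b.equivFun.symm p, lam, 1 / ((d : ℝ) + 1), L₀, ?_, hε, fun h => ?_, ?_⟩
  · exact fun e => hp0 (b.equivFun.symm.map_eq_zero_iff.1 e)
  · apply b.equivFun.injective
    have h1 := LinearMap.toMatrix_mulVec_repr b b (Matrix.toLin' (cplx (ρ h))) (b.equivFun.symm p)
    have h2 : ⇑(b.repr (b.equivFun.symm p)) = p := b.equivFun.apply_symm_apply p
    rw [h2] at h1
    rw [map_smul, LinearEquiv.apply_symm_apply]
    exact h1.symm.trans (hp h)
  · refine hk.mono fun S _ _ hS => ?_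
    obtain ⟨h, hh, hle⟩ := hS
    exact ⟨h, hh, hle.trans (hjk h).ge⟩

end Pool.Agent.Lib.MP_9ac97d_al
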