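import Pool.Agent.Lib.MP_9ac97d_al.Ext
import Pool.Agent.Lib.MP_9ac97d_al.GFF
import Pool.Agent.Lib.MP_9ac97d_al.TCore
import Pool.Agent.Lib.MP_9ac97d_al.MRank
import Pool.Agent.Lib.MP_9ac97d_al.TFilt2

/-!
# Basic facts on extensions, restriction (task XBasic)
-/

set_option autoImplicit false

noncomputable section

open Pointwise

namespace Pool.Agent.Lib.MP_9ac97d_al

namespace Ext

variable {E H : Type} [Group E] [Group H] {n : ℕ} (X : Ext E H n)

theorem mem_norm {S : Subgroup (Fr n)} {e : E} : e ∈ X.norm S ↔ X.ρ e • S = S := Iff.rfl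

theorem π_j (g : Fr n) : X.π (X.j g) = 1 := by
  have : X.j g ∈ X.π.ker := by rw [X.ker]; exact ⟨g, rfl⟩
  exact this

theorem exists_j_of_π_eq {e e' : E} (h : X.π e = X.π e') : ∃ g, e = X.j g * e' := by
  have h1 : e * e'⁻¹ ∈ X.π.ker := by
    rw [MonoidHom.mem_ker, map_mul, map_inv, h, mul_inv_cancel]
  rw [X.ker] at h1
  obtain ⟨g, hg⟩ := h1
  exact ⟨g, by rw [hg, inv_mul_cancel_right]⟩

theorem xbasic_nonAb_top (hn : 2 ≤ n) : NonAb (⊤ : Subgroup (Fr n)) :=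
  nonAb_of_two_le_rk (by rw [rk_top]; exact hn)

theorem j_injective (hn : 2 ≤ n) : Function.Injective X.j := by
  rw [injective_iff_map_eq_one]
  intro g hg
  refine eq_one_of_commute (xbasic_nonAb_top hn) fun s _ => ?_
  have h1 : MulAut.conj g = 1 := by rw [← X.ρ_j, hg, map_one]
  have h2 : MulAut.conj g s = s := by rw [h1]; rfl
  rw [MulAut.conj_apply] at h2
  exact mul_inv_eq_iff_eq_mul.1 h2

theorem mem_stabH {S : Subgroup (Fr n)} {e : E} :
    X.π e ∈ X.stabH S ↔ ∃ g : Fr n, X.ρ e • S = MulAut.conj g • S := by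
  constructor
  · rintro ⟨e', he', h⟩
    obtain ⟨g, rfl⟩ := X.exists_j_of_π_eq h.symm
    have h1 : X.ρ e' • S = S := he'
    exact ⟨g, by rw [map_mul, mul_smul, h1, X.ρ_j]⟩
  · rintro ⟨g, hg⟩
    refine ⟨X.j g⁻¹ * e, ?_, by rw [map_mul, X.π_j, one_mul]⟩
    change X.ρ (X.j g⁻¹ * e) • S = S
    rw [map_mul, mul_smul, hg, X.ρ_j, ← mul_smul, ← map_mul, inv_mul_cancel, map_one, one_smul]

theorem xbasic_mul_conj (Φ : MulAut (Fr n)) (g : Fr n) :
    Φ * MulAut.conj g = MulAut.conj (Φ g) * Φ := by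
  ext x
  simp

theorem xbasic_smul_conj (Φ : MulAut (Fr n)) (g : Fr n) (S : Subgroup (Fr n)) :
    Φ • MulAut.conj g • S = MulAut.conj (Φ g) • Φ • S := by
  rw [← mul_smul, ← mul_smul, xbasic_mul_conj]

theorem stabH_smul (e : E) (S : Subgroup (Fr n)) :
    X.stabH (X.ρ e • S) = MulAut.conj (X.π e) • X.stabH S := by
  ext h
  obtain ⟨f, rfl⟩ := X.surj h
  rw [Subgroup.mem_pointwise_smul_iff_inv_smul_mem]
  have h1 : (MulAut.conj (X.π e))⁻¹ • X.π f = X.π (e⁻¹ * f * e) := by simp [mul_assoc]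
  rw [h1, X.mem_stabH, X.mem_stabH]
  constructor
  · rintro ⟨g, hg⟩
    refine ⟨X.ρ e⁻¹ g, ?_⟩
    rw [map_mul, map_mul, mul_smul, mul_smul, hg, xbasic_smul_conj, ← mul_smul (X.ρ e⁻¹),
      ← map_mul, inv_mul_cancel, map_one, one_smul]
  · rintro ⟨g, hg⟩
    refine ⟨X.ρ e g, ?_⟩
    rw [← xbasic_smul_conj, ← hg, ← mul_smul, ← mul_smul, ← map_mul, ← map_mul]
    congr 2
    group

theorem stabH_conj (g : Fr n) (S : Subgroup (Fr n)) :
    X.stabH (MulAut.conj g • S) = X.stabH S := by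
  rw [← X.ρ_j, X.stabH_smul, X.π_j, map_one, one_smul]

theorem xbasic_finiteIndex {K₀ : Subgroup E} {B : Subgroup (Fr n)} {A : Set (Subgroup (Fr n))}
    (hA : A.Finite) (h : ∀ k ∈ K₀, ∃ g : Fr n, MulAut.conj g • (X.ρ k • B) ∈ A) :
    ((X.stabH B).subgroupOf (K₀.map X.π)).FiniteIndex := by
  have hk : ∀ q : (K₀.map X.π) ⧸ (X.stabH B).subgroupOf (K₀.map X.π),
      ∃ k : E, X.π k = (q.out : K₀.map X.π) ∧
        ∃ g : Fr n, MulAut.conj g • (X.ρ k • B) ∈ A := by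
    intro q
    obtain ⟨k, hk, hq⟩ := (q.out : K₀.map X.π).2
    exact ⟨k, hq, h k hk⟩
  choose k hk g hg using hk
  have : Finite A := hA
  have hinj : Function.Injective fun q => (⟨_, hg q⟩ : A) := by
    intro q q' hq
    have h1 : MulAut.conj (g q) • (X.ρ (k q) • B) = MulAut.conj (g q') • (X.ρ (k q') • B) :=
      congrArg Subtype.val hq
    rw [← q.out_eq', ← q'.out_eq', QuotientGroup.eq, Subgroup.mem_subgroupOf]
    have h2 : (((q.out : K₀.map X.π)⁻¹ * q'.out : K₀.map X.π) : H) =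
        X.π ((X.j (g q) * k q)⁻¹ * (X.j (g q') * k q')) := by
      simp [X.π_j, hk]
    rw [h2, X.mem_stabH]
    refine ⟨1, ?_⟩
    rw [map_one, one_smul, map_mul, mul_smul, map_inv, inv_smul_eq_iff, map_mul, map_mul,
      mul_smul, mul_smul, X.ρ_j, X.ρ_j, h1]
  have : Finite ((K₀.map X.π) ⧸ (X.stabH B).subgroupOf (K₀.map X.π)) := Finite.of_injective _ hinj
  exact Subgroup.finiteIndex_of_finite_quotient

theorem per_iff {S : Subgroup (Fr n)} :
    X.Per S ↔ ∃ A : Set (Subgroup (Fr n)), A.Finite ∧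
      ∀ e, ∃ g : Fr n, MulAut.conj g • (X.ρ e • S) ∈ A := by
  constructor
  · intro h
    have : (X.stabH S).FiniteIndex := h
    choose l hl using fun q : H ⧸ X.stabH S => X.surj q.out
    refine ⟨Set.range fun q => X.ρ (l q) • S, Set.finite_range _, fun e => ?_⟩
    have h1 : X.π ((l (X.π e : H ⧸ X.stabH S))⁻¹ * e) ∈ X.stabH S := by
      rw [map_mul, map_inv, hl, ← QuotientGroup.eq, QuotientGroup.out_eq']
    obtain ⟨g, hg⟩ := X.mem_stabH.1 h1
    rw [map_mul, mul_smul, map_inv, inv_smul_eq_iff, xbasic_smul_conj] at hg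
    refine ⟨(X.ρ (l (X.π e : H ⧸ X.stabH S)) g)⁻¹, (X.π e : H ⧸ X.stabH S), ?_⟩
    rw [hg, ← mul_smul (MulAut.conj _), ← map_mul, inv_mul_cancel, map_one, one_smul]
  · rintro ⟨A, hA, h⟩
    have h1 := X.xbasic_finiteIndex (K₀ := ⊤) hA fun k _ => h k
    rw [Subgroup.map_top_of_surjective _ X.surj] at h1
    refine ⟨?_⟩
    rw [← Subgroup.relIndex_top_right]
    exact h1.index_ne_zero

theorem Per.smul {X : Ext E H n} {S : Subgroup (Fr n)} (h : X.Per S) (e : E) :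
    X.Per (X.ρ e • S) := by
  obtain ⟨A, hA, h1⟩ := X.per_iff.1 h
  refine X.per_iff.2 ⟨A, hA, fun f => ?_⟩
  rw [← mul_smul, ← map_mul]
  exact h1 _

theorem xbasic_smul_top (Φ : MulAut (Fr n)) : Φ • (⊤ : Subgroup (Fr n)) = ⊤ := by
  rw [eq_top_iff]
  intro x _
  rw [Subgroup.mem_pointwise_smul_iff_inv_smul_mem]
  trivial

theorem per_top : X.Per ⊤ := by
  refine X.per_iff.2 ⟨{⊤}, Set.finite_singleton _, fun e => ⟨1, ?_⟩⟩
  rw [xbasic_smul_top, xbasic_smul_top]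
  rfl

/-- The cores of the images of a periodic subgroup are bounded, and conversely. -/
theorem per_iff_core {S : Subgroup (Fr n)} (hS : S.FG) :
    X.Per S ↔ ∃ V, ∀ e, core (X.ρ e • S) ≤ V := by
  rw [X.per_iff]
  constructor
  · rintro ⟨A, hA, h⟩
    obtain ⟨V, hV⟩ := (hA.image core).bddAbove
    refine ⟨V, fun e => ?_⟩
    obtain ⟨g, hg⟩ := h e
    rw [← core_conj _ g]
    exact hV ⟨_, hg, rfl⟩
  · rintro ⟨V, hV⟩
    obtain ⟨A, hA, h⟩ := finite_classes n V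
    refine ⟨A, hA, fun e => h _ ?_ (hV e)⟩
    obtain ⟨T, hT, hTf⟩ := (Subgroup.fg_iff _).1 hS
    rw [← hT, Subgroup.smul_closure]
    exact (Subgroup.fg_iff _).2 ⟨_, rfl, hTf.smul_set⟩

/-- If a subgroup `K₀` of `E` has finitely many images of `B` up to conjugacy, the stabilizer of the
class of `B` has finite index in the image of `K₀`. -/
theorem finiteIndex_stabH {K₀ : Subgroup E} {B : Subgroup (Fr n)} {A : Set (Subgroup (Fr n))}
    (hA : A.Finite) (h : ∀ k ∈ K₀, ∃ g : Fr n, MulAut.conj g • (X.ρ k • B) ∈ A) :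
    ((X.stabH B).subgroupOf (K₀.map X.π)).FiniteIndex := by
  exact X.xbasic_finiteIndex hA h

theorem xbasic_cent_anti {S S' : Subgroup (Fr n)} (h' : S' ≤ S) : X.cent S ≤ X.cent S' :=
  fun _ he s hs => he s (h' hs)

theorem kerIn_mono {E' E'' : Subgroup E} (h : E' ≤ E'') {S S' : Subgroup (Fr n)} (h' : S' ≤ S) :
    X.kerIn E' S ≤ X.kerIn E'' S' := by
  exact Subgroup.map_mono (inf_le_inf h (X.xbasic_cent_anti h'))

theorem Good.mono {X : Ext E H n} {S S' : Subgroup (Fr n)} (h : X.Good S) (h' : S' ≤ S) :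
    X.Good S' := by
  exact FF.mono h (X.kerIn_mono le_rfl h')

theorem xbasic_kerIn_smul (e : E) (S : Subgroup (Fr n)) :
    MulAut.conj (X.π e) • X.kerIn ⊤ S ≤ X.kerIn ⊤ (X.ρ e • S) := by
  intro h hh
  rw [Subgroup.mem_smul_pointwise_iff_exists] at hh
  obtain ⟨_, ⟨f, ⟨-, hf⟩, rfl⟩, rfl⟩ := hh
  refine ⟨e * f * e⁻¹, ⟨trivial, fun s hs => ?_⟩, by simp⟩
  rw [Subgroup.mem_smul_pointwise_iff_exists] at hs
  obtain ⟨t, ht, rfl⟩ := hs
  have h1 : X.ρ f t = t := hf t ht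
  simp [h1]

theorem Good.smul {X : Ext E H n} {S : Subgroup (Fr n)} (h : X.Good S) (e : E) :
    X.Good (X.ρ e • S) := by
  exact FF.mono (FF.smul h _) (X.xbasic_kerIn_smul e S)

theorem kerIn_conj (g : Fr n) (S : Subgroup (Fr n)) :
    X.kerIn ⊤ (MulAut.conj g • S) = X.kerIn ⊤ S := by
  have h1 : ∀ (g : Fr n) (S : Subgroup (Fr n)),
      X.kerIn ⊤ S ≤ X.kerIn ⊤ (MulAut.conj g • S) := by
    intro g S
    have h2 := X.xbasic_kerIn_smul (X.j g) S
    rwa [X.π_j, map_one, one_smul, X.ρ_j] at h2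
  refine le_antisymm ?_ (h1 g S)
  have h2 := h1 g⁻¹ (MulAut.conj g • S)
  rwa [← mul_smul, ← map_mul, inv_mul_cancel, map_one, one_smul] at h2

theorem xbasic_fix {S : Subgroup (Fr n)} (hS : NonAb S) {Φ : MulAut (Fr n)} {g : Fr n}
    (h1 : ∀ s ∈ S, Φ s = s) (h2 : ∀ s ∈ S, Φ (g * s * g⁻¹) = g * s * g⁻¹) : Φ g = g := by
  have h3 : g⁻¹ * Φ g = 1 := by
    refine eq_one_of_commute hS fun s hs => ?_
    have h4 := h2 s hs
    rw [map_mul, map_mul, map_inv, h1 s hs] at h4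
    have h5 : Φ g * s = g * s * g⁻¹ * Φ g := by rw [← h4]; group
    change g⁻¹ * Φ g * s = s * (g⁻¹ * Φ g)
    rw [mul_assoc, h5]
    group
  exact (inv_mul_eq_one.1 h3).symm

/-- An element that fixes a nonabelian subgroup pointwise fixes its normalizer pointwise. -/
theorem cent_le_cent_normalizer {S : Subgroup (Fr n)} (hS : NonAb S) :
    X.cent S ≤ X.cent (Subgroup.normalizer (S : Set (Fr n))) := by
  intro e he g hg
  refine xbasic_fix hS he fun s hs => he _ ?_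
  exact (Subgroup.mem_normalizer_iff.1 hg s).1 hs

/-- `B` contains a nonabelian subgroup together with its conjugates by the generators. -/
def Wide (B : Subgroup (Fr n)) : Prop :=
  ∃ D ≤ B, NonAb D ∧ ∀ i : Fin n, MulAut.conj (FreeGroup.of i : Fr n) • D ≤ B

theorem Wide.mono {B B' : Subgroup (Fr n)} (h : Wide B) (h' : B ≤ B') : Wide B' := by
  obtain ⟨D, hD, h1, h2⟩ := h
  exact ⟨D, hD.trans h', h1, fun i => (h2 i).trans h'⟩

theorem Wide.nonAb {B : Subgroup (Fr n)} (h : Wide B) : NonAb B := by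
  obtain ⟨D, hD, ⟨a, ha, b, hb, hab⟩, -⟩ := h
  exact ⟨a, hD ha, b, hD hb, hab⟩

theorem cent_le_cent_top {B : Subgroup (Fr n)} (hB : Wide B) : X.cent B ≤ X.cent ⊤ := by
  obtain ⟨D, hD, h1, h2⟩ := hB
  intro e he g _
  have h3 : (X.ρ e).toMonoidHom = MonoidHom.id _ := by
    refine FreeGroup.ext_hom _ _ fun i => ?_
    refine xbasic_fix h1 (fun s hs => he s (hD hs)) fun s hs => he _ (h2 i ?_)
    exact Subgroup.smul_mem_pointwise_smul s (MulAut.conj (FreeGroup.of i : Fr n)) D hs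
  exact DFunLike.congr_fun h3 g

theorem xbasic_lcs_ne (hn : 2 ≤ n) (c : ℕ) :
    ∃ a ∈ (⊤ : Subgroup (Fr n)).lowerCentralSeries c, a ≠ 1 := by
  induction c with
  | zero =>
    obtain ⟨a, -, b, -, hab⟩ := xbasic_nonAb_top hn
    exact ⟨a, trivial, fun h => hab (h ▸ Commute.one_left b)⟩
  | succ c ih =>
    obtain ⟨a, ha, ha1⟩ := ih
    obtain ⟨b, -, hab⟩ := (xbasic_nonAb_top hn).exists_not_commute ha1
    refine ⟨a * b * a⁻¹ * b⁻¹, ?_, fun h => hab (commutatorElement_eq_one_iff_commute.1 h)⟩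
    rw [Subgroup.lowerCentralSeries_succ]
    exact Subgroup.commutator_mem_commutator ha (Subgroup.mem_top b)

theorem xbasic_not_commute_conj {a b : Fr n} (h : ¬ Commute a b) :
    ¬ Commute a (b * a * b⁻¹) := by
  intro hc
  have h1 := freePair_of_not_commute h [true, false] [false, true] rfl
  have h2 : Commute (a * a) (b * a * b⁻¹ * (b * a * b⁻¹)) :=
    (hc.mul_right hc).mul_left (hc.mul_right hc)
  have h3 := h1 (by simpa [wd] using h2.eq)
  simp at h3

/-- A normal subgroup with nilpotent quotient is nonabelian and contains a wide finitely generated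
subgroup. -/
theorem exists_wide (hn : 2 ≤ n) {N : Subgroup (Fr n)} [N.Normal] {c : ℕ}
    (hc : (⊤ : Subgroup (Fr n)).lowerCentralSeries c ≤ N) : ∃ B ≤ N, B.FG ∧ Wide B := by
  obtain ⟨a, ha, ha1⟩ := xbasic_lcs_ne hn c
  obtain ⟨b, -, hab⟩ := (xbasic_nonAb_top hn).exists_not_commute ha1
  have haN : a ∈ N := hc ha
  have hbN : b * a * b⁻¹ ∈ N := Subgroup.Normal.conj_mem inferInstance a haN b
  set T : Set (Fr n) := {a, b * a * b⁻¹} with hT
  have hTN : ∀ x ∈ T, x ∈ N := by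
    rintro x (rfl | rfl)
    · exact haN
    · exact hbN
  have hTf : T.Finite := Set.toFinite _
  refine ⟨Subgroup.closure (T ∪ ⋃ i : Fin n, MulAut.conj (FreeGroup.of i : Fr n) • T), ?_, ?_,
    Subgroup.closure T, Subgroup.closure_mono Set.subset_union_left, ?_, fun i => ?_⟩
  · rw [Subgroup.closure_le]
    rintro x (hx | hx)
    · exact hTN x hx
    · obtain ⟨i, y, hy, rfl⟩ := Set.mem_iUnion.1 hx
      exact Subgroup.Normal.conj_mem inferInstance y (hTN y hy) _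
  · exact (Subgroup.fg_iff _).2 ⟨_, rfl, hTf.union (Set.finite_iUnion fun i => hTf.smul_set)⟩
  · exact ⟨a, Subgroup.subset_closure (Or.inl rfl), b * a * b⁻¹,
      Subgroup.subset_closure (Or.inr rfl), xbasic_not_commute_conj hab⟩
  · rw [Subgroup.smul_closure]
    exact Subgroup.closure_mono
      ((Set.subset_iUnion (fun i : Fin n => MulAut.conj (FreeGroup.of i : Fr n) • T) i).trans
        Set.subset_union_right)

/-- The action of `H` on `Hom (F, ℤ)`. -/
theorem exists_matH : ∃ τ : H →* Matrix (Fin n) (Fin n) ℤ, ∀ e, τ (X.π e) = mat (X.ρ e) := by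
  have key : ∀ e e', X.π e = X.π e' → mat (X.ρ e) = mat (X.ρ e') := by
    intro e e' h
    obtain ⟨g, rfl⟩ := X.exists_j_of_π_eq h
    rw [map_mul, mat_mul, X.ρ_j, mat_conj, one_mul]
  choose l hl using X.surj
  refine ⟨⟨⟨fun h => mat (X.ρ (l h)), ?_⟩, fun h h' => ?_⟩, fun e => key _ _ (hl _)⟩
  · change mat (X.ρ (l 1)) = 1
    rw [key _ 1 (by rw [hl, map_one]), map_one, mat_one]
  · change mat (X.ρ (l (h * h'))) = mat (X.ρ (l h)) * mat (X.ρ (l h'))
    rw [← mat_mul, ← map_mul]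
    exact key _ _ (by rw [map_mul, hl, hl, hl])

end Ext

end Pool.Agent.Lib.MP_9ac97d_al
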