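import Pool.Agent.Lib.MP_9ac97d_al.XRes
import Pool.Agent.Lib.MP_9ac97d_al.TDual
import Pool.Agent.Lib.MP_9ac97d_al.TCount

/-!
# Gluing along an invariant family of cuts (task XGlue)
-/

set_option autoImplicit false

noncomputable section

open Pointwise

namespace Pool.Agent.Lib.MP_9ac97d_al

namespace Ext

variable {E H : Type} [Group E] [Group H] {n : ℕ} (X : Ext E H n)

/-- The elements of `S` that fix the vertex `v`. -/
def vstab (S : Subgroup (Fr n)) (v : Set (Set (Fr n))) : Subgroup (Fr n) :=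
  S ⊓ (MulAction.stabilizer (MulAut (Fr n)) v).comap MulAut.conj

/-- The elements of `E'` that fix the vertex `v`. -/
def estab (E' : Subgroup E) (v : Set (Set (Fr n))) : Subgroup E :=
  E' ⊓ (MulAction.stabilizer (MulAut (Fr n)) v).comap X.ρ

theorem xglue_mem_vstab {S : Subgroup (Fr n)} {v : Set (Set (Fr n))} {g : Fr n} :
    g ∈ vstab S v ↔ g ∈ S ∧ MulAut.conj g • v = v := Iff.rfl

theorem xglue_mem_estab {E' : Subgroup E} {v : Set (Set (Fr n))} {e : E} :
    e ∈ X.estab E' v ↔ e ∈ E' ∧ X.ρ e • v = v := Iff.rfl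

/-- The elements of `E'` that fix the cut `U`. -/
def xglue_cst (E' : Subgroup E) (U : Set (Fr n)) : Subgroup E :=
  E' ⊓ (MulAction.stabilizer (MulAut (Fr n)) U).comap X.ρ

theorem xglue_mem_cst {E' : Subgroup E} {U : Set (Fr n)} {e : E} :
    e ∈ X.xglue_cst E' U ↔ e ∈ E' ∧ X.ρ e • U = U := Iff.rfl

theorem xglue_finiteIndex {G : Type} [Group G] (K₀ : Subgroup G) {ι : Type} [Finite ι] (c : G → ι)
    (h : ∀ a b, c a = c b → a⁻¹ * b ∈ K₀) : K₀.FiniteIndex := by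
  have hinj : Function.Injective fun q : G ⧸ K₀ => c q.out := by
    intro q q' hq
    have h1 := QuotientGroup.eq.2 (h _ _ hq)
    simpa using h1
  have : Finite (G ⧸ K₀) := Finite.of_injective _ hinj
  exact Subgroup.finiteIndex_of_finite_quotient

theorem xglue_conj_aut (Φ : MulAut (Fr n)) (g : Fr n) :
    MulAut.conj (Φ g) = Φ * MulAut.conj g * Φ⁻¹ := by
  ext x
  simp

theorem xglue_vstab_smul {S : Subgroup (Fr n)} {Φ : MulAut (Fr n)} (hΦ : Φ • S = S)
    (v : Set (Set (Fr n))) : Φ • vstab S v = vstab S (Φ • v) := by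
  ext g
  rw [Subgroup.mem_pointwise_smul_iff_inv_smul_mem, xglue_mem_vstab, xglue_mem_vstab]
  have h1 : Φ⁻¹ • g ∈ S ↔ g ∈ S := by
    rw [← Subgroup.mem_pointwise_smul_iff_inv_smul_mem, hΦ]
  have h2 : MulAut.conj (Φ⁻¹ • g) = Φ⁻¹ * MulAut.conj g * Φ := by
    have := xglue_conj_aut Φ⁻¹ g
    rw [inv_inv] at this
    exact this
  rw [h1, h2, mul_smul, mul_smul, inv_smul_eq_iff]

theorem xglue_smul_mem {E' : Subgroup E} {𝒰 : Set (Set (Fr n))}
    (hinv : ∀ e ∈ E', X.ρ e • 𝒰 = 𝒰) {e : E} (he : e ∈ E') {U : Set (Fr n)} (hU : U ∈ 𝒰) :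
    X.ρ e • U ∈ 𝒰 := by
  rw [← hinv e he]
  exact Set.smul_mem_smul_set hU

theorem xglue_finiteIndex_cst {E' : Subgroup E} {S : Subgroup (Fr n)} (hS : S.FG) (hN : NonAb S)
    (hj : ∀ s ∈ S, X.j s ∈ E') {m : ℕ}
    (hinv : ∀ e ∈ E', X.ρ e • UU S m = UU S m) {U : Set (Fr n)} (hU : U ∈ UU S m) :
    (((X.xglue_cst E' U).map X.π).subgroupOf (E'.map X.π)).FiniteIndex := by
  have : Finite (cutOrbits S m) := (cutOrbits_le hS hN m).1.to_subtype
  have hl : ∀ x : E'.map X.π, ∃ e ∈ E', X.π e = x := fun x => x.2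
  choose l hl hl' using hl
  refine xglue_finiteIndex _ (ι := cutOrbits S m)
    (fun x => ⟨{U' | ∃ s ∈ S, U' = MulAut.conj s • (X.ρ (l x) • U)},
      ⟨X.ρ (l x) • U, X.xglue_smul_mem hinv (hl x) hU, rfl⟩⟩) ?_
  intro a b hab
  have h1 : {U' | ∃ s ∈ S, U' = MulAut.conj s • (X.ρ (l a) • U)} =
      {U' | ∃ s ∈ S, U' = MulAut.conj s • (X.ρ (l b) • U)} := congrArg Subtype.val hab
  have h2 : X.ρ (l b) • U ∈ {U' | ∃ s ∈ S, U' = MulAut.conj s • (X.ρ (l a) • U)} := by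
    rw [h1]
    exact ⟨1, S.one_mem, by simp⟩
  obtain ⟨s, hs, h3⟩ := h2
  rw [Subgroup.mem_subgroupOf]
  refine ⟨(l a)⁻¹ * (X.j s)⁻¹ * l b, ⟨?_, ?_⟩, ?_⟩
  · exact E'.mul_mem (E'.mul_mem (E'.inv_mem (hl a)) (E'.inv_mem (hj s hs))) (hl b)
  · show X.ρ ((l a)⁻¹ * (X.j s)⁻¹ * l b) • U = U
    rw [map_mul, map_mul, map_inv, map_inv, X.ρ_j, mul_smul, mul_smul, h3, inv_smul_smul,
      inv_smul_smul]
  · rw [map_mul, map_mul, map_inv, map_inv, X.π_j, hl', hl']
    simp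

theorem xglue_cst_le_estab {E' : Subgroup E} {S : Subgroup (Fr n)} (hE : E' ≤ X.norm S)
    {𝒰 : Set (Set (Fr n))} (hinv : ∀ e ∈ E', X.ρ e • 𝒰 = 𝒰) (U : Set (Fr n)) :
    X.xglue_cst E' U ≤ X.estab E' (head S 𝒰 U) := by
  intro e he
  obtain ⟨he, hU⟩ := X.xglue_mem_cst.1 he
  refine X.xglue_mem_estab.2 ⟨he, ?_⟩
  rw [smul_head (X.mem_norm.1 (hE he)) (hinv e he), hU]

/-- The image of the stabilizer of a vertex has finite index: there are finitely many `S`-orbits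
of cuts (`cutOrbits_le`), permuted by `E'`. -/
theorem finiteIndex_estab {E' : Subgroup E} {S : Subgroup (Fr n)} (hS : S.FG) (hN : NonAb S)
    (hE : E' ≤ X.norm S) (hj : ∀ s ∈ S, X.j s ∈ E') {m : ℕ}
    (hinv : ∀ e ∈ E', X.ρ e • UU S m = UU S m) {U : Set (Fr n)} (hU : U ∈ UU S m) :
    (((X.estab E' (head S (UU S m) U)).map X.π).subgroupOf (E'.map X.π)).FiniteIndex := by
  have := X.xglue_finiteIndex_cst hS hN hj hinv hU
  refine Subgroup.finiteIndex_of_le
    (H := ((X.xglue_cst E' U).map X.π).subgroupOf (E'.map X.π)) ?_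
  exact Subgroup.subgroupOf_mono _ (Subgroup.map_mono (X.xglue_cst_le_estab hE hinv U))

theorem estab_le_norm {E' : Subgroup E} {S : Subgroup (Fr n)} (hE : E' ≤ X.norm S)
    (v : Set (Set (Fr n))) : X.estab E' v ≤ X.norm (vstab S v) := by
  intro e he
  obtain ⟨he, hv⟩ := X.xglue_mem_estab.1 he
  rw [mem_norm, xglue_vstab_smul (X.mem_norm.1 (hE he)), hv]

/-- An order preserving automorphism that preserves an abelian subgroup fixes it pointwise. -/
theorem fix_of_pres {o : BiOrd (Fr n)} {Φ : MulAut (Fr n)} (h : o.Pres Φ) {C : Subgroup (Fr n)}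
    (hC : ¬ NonAb C) (hΦ : Φ • C = C) : ∀ c ∈ C, Φ c = c := by
  obtain ⟨c, rfl⟩ := exists_zpowers_of_not_nonAb hC
  suffices hc : Φ c = c by
    rintro _ ⟨k, rfl⟩
    simp [hc]
  by_cases hc1 : c = 1
  · simp [hc1]
  have h1 : Φ c ∈ Subgroup.zpowers c := by
    rw [← hΦ]
    exact Subgroup.smul_mem_pointwise_smul _ _ _ (Subgroup.mem_zpowers c)
  have h2 : Φ⁻¹ c ∈ Subgroup.zpowers c := by
    have h3 : c ∈ Φ • Subgroup.zpowers c := by
      rw [hΦ]
      exact Subgroup.mem_zpowers c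
    exact Subgroup.mem_pointwise_smul_iff_inv_smul_mem.1 h3
  obtain ⟨k, hk⟩ := Subgroup.mem_zpowers_iff.1 h1
  obtain ⟨l, hl⟩ := Subgroup.mem_zpowers_iff.1 h2
  have h4 : c ^ (k * l - 1) = 1 := by
    have h5 : Φ (Φ⁻¹ c) = c := by simp
    rw [← hl, map_zpow, ← hk, ← zpow_mul] at h5
    rw [zpow_sub, h5, zpow_one, mul_inv_cancel]
  have h6 : k * l = 1 := by
    have := (IsMulTorsionFree.zpow_eq_one_iff_right hc1).1 h4
    omega
  rcases Int.eq_one_or_neg_one_of_mul_eq_one h6 with rfl | rfl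
  · rw [← hk, zpow_one]
  · exfalso
    have h7 : c⁻¹ ∈ o.P ↔ c ∈ o.P := by
      have := h c
      rwa [← hk, zpow_neg, zpow_one] at this
    have h8 : c ∈ o.P := by
      rcases o.tri c with h9 | h9 | h9
      · exact absurd h9 hc1
      · exact h9
      · exact h7.1 h9
    have h10 := o.mul_mem _ h8 _ (h7.2 h8)
    rw [mul_inv_cancel] at h10
    exact o.one_notMem h10

/-- A subgroup of `E` that meets the kernel trivially and covers `M` gives a section over `M`. -/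
theorem xglue_lift (M : Subgroup H) (Q : Subgroup E) (hex : ∀ x ∈ M, x ∈ Q.map X.π)
    (huniq : ∀ e ∈ Q, X.π e = 1 → e = 1) :
    ∃ σ : M →* E, ∀ x, σ x ∈ Q ∧ X.π (σ x) = x := by
  have hl : ∀ x : M, ∃ e ∈ Q, X.π e = x := fun x => hex x x.2
  choose l hl hl' using hl
  refine ⟨MonoidHom.mk' l fun a b => ?_, fun x => ⟨hl x, hl' x⟩⟩
  have h1 := huniq ((l (a * b))⁻¹ * (l a * l b))
    (Q.mul_mem (Q.inv_mem (hl _)) (Q.mul_mem (hl a) (hl b)))
    (by rw [map_mul, map_mul, map_inv, hl', hl', hl']; simp)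
  exact inv_mul_eq_one.1 h1

/-- Two sections whose difference is fixed by one of them agree on the commutator subgroup. -/
theorem xglue_eq (hn : 2 ≤ n) {M : Subgroup H} (hM : SP M) (σ τ : M →* E)
    (h : ∀ x, X.π (σ x) = X.π (τ x))
    (hfix : ∀ x y g, σ x = X.j g * τ x → X.ρ (τ y) g = g) :
    ∀ x ∈ commutator M, σ x = τ x := by
  choose u hu using fun x => X.exists_j_of_π_eq (h x)
  have hmul : ∀ a b, u (a * b) = u a * u b := by
    intro a b
    apply X.j_injective hn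
    have h1 : τ a * X.j (u b) * (τ a)⁻¹ = X.j (u b) := by
      rw [X.conj_j, hfix b a _ (hu b)]
    have h2 : X.j (u (a * b)) * τ (a * b) = X.j (u a) * τ a * (X.j (u b) * τ b) := by
      rw [← hu, ← hu, ← hu, map_mul]
    rw [map_mul τ] at h2
    have h3 : X.j (u (a * b)) = X.j (u a) * (τ a * X.j (u b) * (τ a)⁻¹) := by
      rw [eq_mul_inv_of_mul_eq h2]
      group
    rw [h3, h1, map_mul]
  have hker : commutator M ≤ (MonoidHom.mk' u hmul).ker := by
    rw [commutator_def, Subgroup.commutator_le]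
    intro a _ b _
    rw [MonoidHom.mem_ker, map_commutatorElement, commutatorElement_eq_one_iff_commute]
    exact hM n _ a b
  intro x hx
  have h4 : u x = 1 := hker hx
  rw [hu x, h4, map_one, one_mul]

theorem xglue_uniq_cst {E' : Subgroup E} {S : Subgroup (Fr n)} (hN : NonAb S)
    (hE : E' ≤ X.norm S) {m : ℕ} {U : Set (Fr n)} (hU : U ∈ UU S m) :
    ∀ e ∈ X.xglue_cst E' U, X.π e = 1 → e = 1 := by
  intro e he h1
  obtain ⟨g, hg⟩ := X.exists_j_of_π_eq (e := e) (e' := 1) (by rw [h1, map_one])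
  rw [mul_one] at hg
  subst hg
  obtain ⟨he, hfix⟩ := X.xglue_mem_cst.1 he
  obtain ⟨⟨p, hp, hp'⟩, -⟩ := hU
  have h2 := X.mem_norm.1 (hE he)
  rw [X.ρ_j] at h2 hfix
  rw [← hp'] at hfix
  rw [eq_one_of_fix_cut hN hp h2 hfix, map_one]

theorem xglue_uniq_cent {S : Subgroup (Fr n)} (hN : NonAb S) :
    ∀ e ∈ X.cent S, X.π e = 1 → e = 1 := by
  intro e he h1
  obtain ⟨g, hg⟩ := X.exists_j_of_π_eq (e := e) (e' := 1) (by rw [h1, map_one])
  rw [mul_one] at hg
  subst hg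
  have h2 : g = 1 := by
    refine eq_one_of_commute hN fun s hs => ?_
    have h3 : X.ρ (X.j g) s = s := he s hs
    rw [X.ρ_j, MulAut.conj_apply] at h3
    exact mul_inv_eq_iff_eq_mul.1 h3
  rw [h2, map_one]

theorem xglue_cent_le_norm (S : Subgroup (Fr n)) : X.cent S ≤ X.norm S := by
  intro e he
  rw [mem_norm]
  ext g
  rw [Subgroup.mem_pointwise_smul_iff_inv_smul_mem]
  constructor
  · intro hg
    have h1 : X.ρ e ((X.ρ e)⁻¹ • g) = (X.ρ e)⁻¹ • g := he _ hg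
    have h2 : X.ρ e ((X.ρ e)⁻¹ • g) = g := smul_inv_smul (X.ρ e) g
    rw [← h2, h1]
    exact hg
  · intro hg
    have h1 : X.ρ e⁻¹ g = g := (X.cent S).inv_mem he g hg
    rw [map_inv] at h1
    have h2 : (X.ρ e)⁻¹ • g = g := h1
    rw [h2]
    exact hg

theorem xglue_le_norm_comap (E' : Subgroup E) : E' ≤ X.norm (E'.comap X.j) := by
  intro e he
  rw [mem_norm]
  ext g
  rw [Subgroup.mem_pointwise_smul_iff_inv_smul_mem, Subgroup.mem_comap, Subgroup.mem_comap]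
  have h1 : X.j ((X.ρ e)⁻¹ • g) = e⁻¹ * X.j g * e := by
    have := X.conj_j e⁻¹ g
    rw [inv_inv, map_inv] at this
    exact this.symm
  rw [h1, E'.mul_mem_cancel_right he, E'.mul_mem_cancel_left (E'.inv_mem he)]

theorem xglue_not_nonAb {E' : Subgroup E} {S : Subgroup (Fr n)} (hS : S.FG) (hN : NonAb S)
    (hE : E' ≤ X.norm S) {v : Set (Set (Fr n))} (hv : ¬ NonAb (vstab S v)) :
    ¬ NonAb (vstab (E'.comap X.j) v) := by
  have hS1 : S ≠ ⊥ := by
    rintro rfl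
    obtain ⟨a, ha, b, -, hab⟩ := hN
    rw [Subgroup.mem_bot] at ha
    subst ha
    exact hab (Commute.one_left b)
  have key : ∀ a ∈ vstab (E'.comap X.j) v, ∃ k : ℕ, k ≠ 0 ∧ a ^ k ∈ vstab S v := by
    intro a ha
    have ha1 : X.j a ∈ E' := (xglue_mem_vstab.1 ha).1
    have h2 := X.mem_norm.1 (hE ha1)
    rw [X.ρ_j] at h2
    obtain ⟨k, hk, hk'⟩ := exists_pow_mem hS hS1 h2.le
    exact ⟨k, hk, xglue_mem_vstab.2
      ⟨hk', (xglue_mem_vstab.1 ((vstab (E'.comap X.j) v).pow_mem ha k)).2⟩⟩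
  rintro ⟨a, ha, b, hb, hab⟩
  obtain ⟨k, hk, hk'⟩ := key a ha
  obtain ⟨l, hl, hl'⟩ := key b hb
  have h1 : Commute (a ^ k) (b ^ l) := by
    by_contra h
    exact hv ⟨_, hk', _, hl', h⟩
  have ha1 : a ≠ 1 := by
    rintro rfl
    exact hab (Commute.one_left b)
  have hb1 : b ≠ 1 := by
    rintro rfl
    exact hab (Commute.one_right a)
  have ha2 : a ^ k ≠ 1 := fun h => ha1 ((pow_eq_one_iff_left hk).1 h)
  have hb2 : b ^ l ≠ 1 := fun h => hb1 ((pow_eq_one_iff_left hl).1 h)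
  exact hab (commute_trans hb2 (commute_trans ha2 (Commute.self_pow a k) h1)
    (Commute.pow_self b l))

/-- Sections that fix two cuts with the same head agree on the commutator subgroup. -/
theorem xglue_same_head (hn : 2 ≤ n) {o : BiOrd (Fr n)} {K : Subgroup H}
    (ho : X.OrdOn o K) {E' : Subgroup E} {S : Subgroup (Fr n)} (hS : S.FG) (hN : NonAb S)
    (hE : E' ≤ X.norm S) {M : Subgroup H} (hM : SP M) (hMK : M ≤ K) {v : Set (Set (Fr n))}
    (hv : NonAb (vstab S v) → M ≤ X.kerIn ⊤ (vstab S v)) (σ σ' : M →* E)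
    (hσ : ∀ x, σ x ∈ X.estab E' v ∧ X.π (σ x) = x)
    (hσ' : ∀ x, σ' x ∈ X.estab E' v ∧ X.π (σ' x) = x) :
    ∀ x ∈ commutator M, σ x = σ' x := by
  by_cases hA : NonAb (vstab S v)
  · obtain ⟨τ, hτ⟩ := X.xglue_lift M (X.cent (vstab S v))
      (fun x hx => Subgroup.map_mono inf_le_right (hv hA hx)) (X.xglue_uniq_cent hA)
    have key : ∀ σ : M →* E, (∀ x, σ x ∈ X.estab E' v ∧ X.π (σ x) = x) →
        ∀ x ∈ commutator M, σ x = τ x := by
      intro σ hσ
      refine X.xglue_eq hn hM σ τ (fun x => by rw [(hσ x).2, (hτ x).2]) ?_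
      intro x y g hg
      refine X.cent_le_cent_normalizer hA (hτ y).1 g ?_
      have h1 : X.j g ∈ X.norm (vstab S v) := by
        rw [← mul_inv_eq_iff_eq_mul.2 hg]
        exact Subgroup.mul_mem _ (X.estab_le_norm hE v (hσ x).1)
          (Subgroup.inv_mem _ (X.xglue_cent_le_norm _ (hτ x).1))
      rw [mem_norm, X.ρ_j] at h1
      exact Subgroup.mem_normalizer_iff_map_conj_eq.2 h1
    intro x hx
    rw [key σ hσ x hx, key σ' hσ' x hx]
  · have hA' := X.xglue_not_nonAb hS hN hE hA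
    refine X.xglue_eq hn hM σ σ' (fun x => by rw [(hσ x).2, (hσ' x).2]) ?_
    intro x y g hg
    have h1 : X.j g ∈ X.estab E' v := by
      rw [← mul_inv_eq_iff_eq_mul.2 hg]
      exact Subgroup.mul_mem _ (hσ x).1 (Subgroup.inv_mem _ (hσ' x).1)
    obtain ⟨h2, h3⟩ := X.xglue_mem_estab.1 h1
    rw [X.ρ_j] at h3
    refine fix_of_pres (ho (σ' y) ?_) hA'
      (X.mem_norm.1 (X.estab_le_norm (X.xglue_le_norm_comap E') v (hσ' y).1)) g
      (xglue_mem_vstab.2 ⟨h2, h3⟩)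
    rw [(hσ' y).2]
    exact hMK y.2

/-- One member of the filter works for all cuts. -/
theorem xglue_uniform (hH : NF H) {E' : Subgroup E} {S : Subgroup (Fr n)} (hS : S.FG)
    (hN : NonAb S) (hj : ∀ s ∈ S, X.j s ∈ E') (hE' : FF (E'.map X.π)) {m : ℕ}
    (hinv : ∀ e ∈ E', X.ρ e • UU S m = UU S m)
    (hv : ∀ U ∈ UU S m, NonAb (vstab S (head S (UU S m) U)) →
      X.Good (vstab S (head S (UU S m) U))) :
    ∃ L : Subgroup H, FF L ∧ ∀ U ∈ UU S m, L ≤ (X.xglue_cst E' U).map X.π ∧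
      (NonAb (vstab S (head S (UU S m) U)) → L ≤ X.kerIn ⊤ (vstab S (head S (UU S m) U))) := by
  have : Finite (cutOrbits S m) := (cutOrbits_le hS hN m).1.to_subtype
  have key : ∀ O : cutOrbits S m, ∃ L : Subgroup H, FF L ∧ ∀ U ∈ (O : Set (Set (Fr n))),
      L ≤ (X.xglue_cst E' U).map X.π ∧
      (NonAb (vstab S (head S (UU S m) U)) → L ≤ X.kerIn ⊤ (vstab S (head S (UU S m) U))) := by
    rintro ⟨_, U, hU, rfl⟩
    have h1 : FF ((X.xglue_cst E' U).map X.π) :=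
      FF.of_relIndex hH hE' (X.xglue_finiteIndex_cst hS hN hj hinv hU)
    have h2 : ∀ s ∈ S, (X.xglue_cst E' U).map X.π ≤
        (X.xglue_cst E' (MulAut.conj s • U)).map X.π := by
      rintro s hs _ ⟨e, he, rfl⟩
      obtain ⟨he, hfix⟩ := X.xglue_mem_cst.1 he
      refine ⟨X.j s * e * (X.j s)⁻¹, X.xglue_mem_cst.2 ⟨?_, ?_⟩, ?_⟩
      · exact E'.mul_mem (E'.mul_mem (hj s hs) he) (E'.inv_mem (hj s hs))
      · rw [map_mul, map_mul, map_inv, X.ρ_j, mul_smul, mul_smul, inv_smul_smul, hfix]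
      · rw [map_mul, map_mul, map_inv, X.π_j]
        simp
    have h3 : ∀ s ∈ S, vstab S (head S (UU S m) (MulAut.conj s • U)) =
        MulAut.conj s • vstab S (head S (UU S m) U) := by
      intro s hs
      have h4 : MulAut.conj s • S = S := Subgroup.conj_smul_eq_self_of_mem hs
      have h5 := hinv _ (hj s hs)
      rw [X.ρ_j] at h5
      rw [xglue_vstab_smul h4, smul_head h4 h5]
    by_cases hA : NonAb (vstab S (head S (UU S m) U))
    · refine ⟨_, h1.inf (hv U hU hA), ?_⟩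
      rintro _ ⟨s, hs, rfl⟩
      refine ⟨inf_le_left.trans (h2 s hs), fun _ => ?_⟩
      rw [h3 s hs, kerIn_conj]
      exact inf_le_right
    · refine ⟨_, h1, ?_⟩
      rintro _ ⟨s, hs, rfl⟩
      refine ⟨h2 s hs, fun hB => absurd ?_ hA⟩
      rw [h3 s hs] at hB
      obtain ⟨a, ha, b, hb, hab⟩ := hB
      rw [Subgroup.mem_pointwise_smul_iff_inv_smul_mem] at ha hb
      refine ⟨_, ha, _, hb, fun h => hab ?_⟩
      have h6 := h.map (MulAut.conj s)
      have h7 : ∀ c : Fr n, MulAut.conj s ((MulAut.conj s)⁻¹ • c) = c :=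
        fun c => smul_inv_smul (MulAut.conj s) c
      rwa [h7, h7] at h6
  choose L hL hL' using key
  refine ⟨⨅ O, L O, FF.iInf hL, fun U hU => ?_⟩
  have h8 := hL' ⟨_, U, hU, rfl⟩ U ⟨1, S.one_mem, by simp⟩
  exact ⟨(iInf_le _ _).trans h8.1, fun hA => (iInf_le _ _).trans (h8.2 hA)⟩

/-- Let `Ŝ = {g | X.j g ∈ E'}`; it normalizes `S` and acts freely on `𝒰 = UU S m`
(`eq_one_of_fix_cut`) with finitely many orbits. Take `M` from `FF.exists_normal` inside the
intersection of `K`, of the image of the finite index subgroup of `E'` that fixes every `S`-orbit of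
cuts (`FF.of_relIndex`), and of the `kerIn ⊤ (vstab ..)` for orbit representatives with nonabelian
vertex group (`kerIn_conj`). For `U ∈ 𝒰` and `x ∈ M` let `σ U x` be the unique lift in `E'` that
fixes `U`; `σ U` is a homomorphism and `σ (opp S U) = σ U`. If `U`, `U'` have the same head `v`
then `σ U = σ U'` on `⁅M, M⁆`. Indeed if `S v = vstab S v` is nonabelian let `τ x` be the unique lift
fixing `S v` pointwise (a homomorphism); `σ U x = j (u x) * τ x` with `u x` in the normalizer of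
`S v`, which `τ` fixes pointwise, so `u : M →* Fr n` is a homomorphism and kills `⁅M, M⁆` by `SP`. If
`S v` is abelian, so is `vstab Ŝ v` (powers of its elements lie in `S` by `exists_pow_mem`, use
`commute_trans`), and `σ U x = j (u x) * σ U' x` with `u x ∈ vstab Ŝ v`, fixed by `σ U' y`
(`fix_of_pres`), so again `u` is a homomorphism with abelian image. By connectivity (`dual_tree`)
`σ x` fixes all cuts for `x ∈ ⁅M, M⁆`; it fixes `U` and `conj s • U`, hence fixes `s ∈ S`. Conclude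
with `FF.commutator`. -/
theorem glue (hn : 2 ≤ n) (hH : NF H) {o : BiOrd (Fr n)} {K : Subgroup H} (hK : FF K)
    (ho : X.OrdOn o K) {E' : Subgroup E} {S : Subgroup (Fr n)} (hS : S.FG) (hN : NonAb S)
    (hE : E' ≤ X.norm S) (hj : ∀ s ∈ S, X.j s ∈ E') (hE' : FF (E'.map X.π)) {m : ℕ}
    (hne : (UU S m).Nonempty) (hinv : ∀ e ∈ E', X.ρ e • UU S m = UU S m)
    (hv : ∀ U ∈ UU S m, NonAb (vstab S (head S (UU S m) U)) →
      X.Good (vstab S (head S (UU S m) U))) :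
    FF (X.kerIn E' S) := by
  obtain ⟨L, hL, hL'⟩ := X.xglue_uniform hH hS hN hj hE' hinv hv
  obtain ⟨M, hMle, hM, -, -, hSP⟩ := (hK.inf hL).exists_normal hH
  have hMK : M ≤ K := hMle.trans inf_le_left
  have hML : M ≤ L := hMle.trans inf_le_right
  refine (hM.commutator hH).mono ?_
  rw [← Subgroup.map_subtype_commutator]
  rintro _ ⟨x, hx, rfl⟩
  have hσ : ∀ U ∈ UU S m, ∃ σ : M →* E, ∀ x, σ x ∈ X.xglue_cst E' U ∧ X.π (σ x) = x :=
    fun U hU => X.xglue_lift M _ (fun y hy => (hL' U hU).1 (hML hy)) (X.xglue_uniq_cst hN hE hU)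
  obtain ⟨U₀, hU₀⟩ := hne
  obtain ⟨σ₀, hσ₀⟩ := hσ U₀ hU₀
  have he : σ₀ x ∈ E' := (X.xglue_mem_cst.1 (hσ₀ x).1).1
  have step : ∀ U U', Adjc S (UU S m) U U' → σ₀ x ∈ X.xglue_cst E' U →
      σ₀ x ∈ X.xglue_cst E' U' := by
    rintro U U' ⟨hU, hU', rfl | h⟩ h1
    · refine X.xglue_mem_cst.2 ⟨he, ?_⟩
      rw [smul_opp (X.mem_norm.1 (hE he)), (X.xglue_mem_cst.1 h1).2]
    · obtain ⟨σ, h2⟩ := hσ U hU
      obtain ⟨σ', h2'⟩ := hσ U' hU'
      have h3 : σ₀ x = σ x := by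
        refine inv_mul_eq_one.1 (X.xglue_uniq_cst hN hE hU _
          (Subgroup.mul_mem _ (Subgroup.inv_mem _ h1) (h2 x).1) ?_)
        rw [map_mul, map_inv, (hσ₀ x).2, (h2 x).2, inv_mul_cancel]
      have h4 : σ x = σ' x := by
        refine X.xglue_same_head hn ho hS hN hE hSP hMK (v := head S (UU S m) U)
          (fun hA => hML.trans ((hL' U hU).2 hA)) σ σ'
          (fun y => ⟨X.xglue_cst_le_estab hE hinv U (h2 y).1, (h2 y).2⟩)
          (fun y => ⟨?_, (h2' y).2⟩) x hx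
        rw [h]
        exact X.xglue_cst_le_estab hE hinv U' (h2' y).1
      rw [h3, h4]
      exact (h2' x).1
  have hall : ∀ U ∈ UU S m, X.ρ (σ₀ x) • U = U := by
    intro U hU
    obtain ⟨-, -, -, hconn⟩ := dual_tree hN m
    have h5 := hconn U₀ hU₀ U hU
    clear hU
    refine (X.xglue_mem_cst.1 (?_ : σ₀ x ∈ X.xglue_cst E' U)).2
    induction h5 with
    | refl => exact (hσ₀ x).1
    | tail _ hadj ih => exact step _ _ hadj ih
  refine ⟨σ₀ x, ⟨he, fun s hs => ?_⟩, (hσ₀ x).2⟩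
  have h6 : MulAut.conj s • U₀ ∈ UU S m := by
    have := X.xglue_smul_mem hinv (hj s hs) hU₀
    rwa [X.ρ_j] at this
  have h7 : X.ρ (σ₀ x) s ∈ S := by
    rw [← X.mem_norm.1 (hE he)]
    exact Subgroup.smul_mem_pointwise_smul _ _ _ hs
  have h8 : MulAut.conj (s⁻¹ * X.ρ (σ₀ x) s) • U₀ = U₀ := by
    have h9 : (X.ρ (σ₀ x))⁻¹ • U₀ = U₀ := inv_smul_eq_iff.2 (hall U₀ hU₀).symm
    rw [map_mul, map_inv, mul_smul, xglue_conj_aut, mul_smul, mul_smul, h9, hall _ h6,
      inv_smul_smul]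
  obtain ⟨⟨p, hp, hp'⟩, -⟩ := hU₀
  rw [← hp'] at h8
  have h10 := eq_one_of_fix_cut hN hp
    (Subgroup.conj_smul_eq_self_of_mem (S.mul_mem (S.inv_mem hs) h7)) h8
  exact (inv_mul_eq_one.1 h10).symm

end Ext

end Pool.Agent.Lib.MP_9ac97d_al
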