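import Pool.Agent.Lib.MP_9ac97d_al.XGlue
import Pool.Agent.Lib.MP_9ac97d_al.MSys

/-!
# Long arcs and the hierarchy (task XHier)
-/

set_option autoImplicit false

noncomputable section

open Pointwise

namespace Pool.Agent.Lib.MP_9ac97d_al

namespace Ext

variable {E H : Type} [Group E] [Group H] {n : ℕ} (X : Ext E H n)

theorem xhier_mem_vstab {S : Subgroup (Fr n)} {v : Set (Set (Fr n))} {s : Fr n} :
    s ∈ vstab S v ↔ s ∈ S ∧ MulAut.conj s • v = v := Iff.rfl

theorem xhier_mem_estab {E' : Subgroup E} {v : Set (Set (Fr n))} {e : E} :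
    e ∈ X.estab E' v ↔ e ∈ E' ∧ X.ρ e • v = v := Iff.rfl

theorem xhier_fg_smul (Φ : MulAut (Fr n)) {S : Subgroup (Fr n)} (hS : S.FG) : (Φ • S).FG := by
  rw [Subgroup.pointwise_smul_def]
  obtain ⟨T, hT, hfin⟩ := (Subgroup.fg_iff S).1 hS
  refine (Subgroup.fg_iff _).2 ⟨_, ?_, hfin.image (MulDistribMulAction.toMonoidEnd _ _ Φ)⟩
  rw [← hT, MonoidHom.map_closure]
  rfl

theorem xhier_nonAb_smul (Φ : MulAut (Fr n)) {S : Subgroup (Fr n)} (hS : NonAb S) :
    NonAb (Φ • S) := by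
  obtain ⟨a, ha, b, hb, hab⟩ := hS
  refine ⟨Φ • a, Subgroup.smul_mem_pointwise_smul _ _ _ ha, Φ • b,
    Subgroup.smul_mem_pointwise_smul _ _ _ hb, fun h => hab ?_⟩
  apply Φ.injective
  rw [map_mul, map_mul]
  exact h

theorem xhier_conj_smul {G : Type} [Group G] {S : Subgroup G} {s : G}
    (h : ∀ x ∈ S, s * x * s⁻¹ ∈ S) (h' : ∀ x ∈ S, s⁻¹ * x * s ∈ S) : MulAut.conj s • S = S := by
  ext x
  rw [Subgroup.mem_pointwise_smul_iff_inv_smul_mem, ← map_inv, MulAut.smul_def, MulAut.conj_apply,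
    inv_inv]
  constructor
  · intro hx
    have := h _ hx
    simpa [mul_assoc] using this
  · exact h' x

/-- The vertex groups are finitely generated of smaller rank (`dual_tree`, `goodSys_fsys`,
`GoodSys.fg_inf`, `GoodSys.drop`). -/
theorem vstab_fg_rk {S : Subgroup (Fr n)} (hS : S.FG) (hN : NonAb S) {m : ℕ} {U : Set (Fr n)}
    (hU : U ∈ UU S m) :
    (vstab S (head S (UU S m) U)).FG ∧ rk (vstab S (head S (UU S m) U)) < rk S := by
  obtain ⟨R, hR, h1, -⟩ := dual_tree hN m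
  obtain ⟨y, hy, hs⟩ := h1 U hU
  have hle : stabC S R y ≤ S := stabC_le hR y
  have he : vstab S (head S (UU S m) U) = stabC S R y := by
    ext s
    rw [xhier_mem_vstab]
    exact ⟨fun h => (hs s h.1).1 h.2, fun h => ⟨hle h, (hs s (hle h)).2 h⟩⟩
  have hg := goodSys_fsys hR
  have h2 := (hg.fg_inf le_rfl hS ⟨y, rfl⟩).1
  have h3 := hg.drop S le_rfl hS hN _ ⟨y, rfl⟩ hy
  rw [inf_eq_left.2 hle] at h2 h3
  rw [he]
  exact ⟨h2, h3⟩

/-- Uniform version of `exists_invariant_scale`: fix lifts of a finite symmetric generating set of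
`K`; an element of `E'` is a product of elements `j g * (lift)` of `E'` and of an element `j g`. -/
theorem exists_scale {K : Subgroup H} (hK : K.FG) (r : ℕ) :
    ∃ V : ℕ, ∀ (S : Subgroup (Fr n)) (E' : Subgroup E), S.FG → NonAb S → rk S ≤ r → V ≤ core S →
      E' ≤ X.norm S → E'.map X.π = K →
      ∃ m, (UU S m).Nonempty ∧ ∀ e ∈ E', X.ρ e • UU S m = UU S m := by
  obtain ⟨T, hT, hfin⟩ := (Subgroup.fg_iff K).1 hK
  obtain ⟨σ, hσ⟩ := X.surj.hasRightInverse
  have hA : ((fun t => X.ρ (σ t)) '' (insert 1 (T ∪ T⁻¹))).Finite :=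
    ((hfin.union hfin.inv).insert 1).image _
  obtain ⟨V, hV⟩ := exists_invariant_scale _ hA r
  refine ⟨V, fun S E' hS hN hr hc hE hm => ?_⟩
  obtain ⟨m, hne, hinv⟩ := hV S hS hN hr hc
  refine ⟨m, hne, ?_⟩
  have h1 : ∀ e ∈ E', X.π e ∈ insert 1 (T ∪ T⁻¹) → ∀ U ∈ UU S m, X.ρ e • U ∈ UU S m := by
    intro e he ht U hU
    obtain ⟨g, hg⟩ := X.exists_j_of_π_eq (e := e) (e' := σ (X.π e)) (hσ _).symm
    have h2 : X.ρ e = MulAut.conj g * X.ρ (σ (X.π e)) := by
      rw [← X.ρ_j, ← map_mul, ← hg]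
    have h3 : X.ρ e • S = S := hE he
    rw [h2] at h3 ⊢
    exact hinv _ ⟨_, ht, rfl⟩ g h3 U hU
  have h2 : ∀ e ∈ E', X.π e ∈ insert 1 (T ∪ T⁻¹) → X.ρ e • UU S m = UU S m := by
    intro e he ht
    have ht' : X.π e⁻¹ ∈ insert 1 (T ∪ T⁻¹) := by
      rw [map_inv]
      rcases ht with h | h | h
      · exact Or.inl (by rw [h, inv_one])
      · exact Or.inr (Or.inr (by simpa using h))
      · exact Or.inr (Or.inl h)
    ext U
    rw [Set.mem_smul_set_iff_inv_smul_mem, ← map_inv]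
    constructor
    · intro hU
      have := h1 e he ht _ hU
      rwa [← mul_smul, ← map_mul, mul_inv_cancel, map_one, one_smul] at this
    · exact h1 e⁻¹ (E'.inv_mem he) ht' U
  have h3 : ∀ x ∈ Subgroup.closure T, ∀ e ∈ E', X.π e = x → X.ρ e • UU S m = UU S m := by
    intro x hx
    induction hx using Subgroup.closure_induction with
    | mem x hx => exact fun e he h => h2 e he (Or.inr (Or.inl (h ▸ hx)))
    | one => exact fun e he h => h2 e he (Or.inl h)
    | mul a b _ hb iha ihb =>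
      intro e he h
      rw [hT, ← hm] at hb
      obtain ⟨e', he', hb'⟩ := hb
      have h4 := iha (e * e'⁻¹) (E'.mul_mem he (E'.inv_mem he'))
        (by rw [map_mul, map_inv, h, hb', mul_inv_cancel_right])
      have h5 := ihb e' he' hb'
      have h6 : e = e * e'⁻¹ * e' := by rw [inv_mul_cancel_right]
      rw [h6, map_mul, mul_smul, h5, h4]
    | inv a _ iha =>
      intro e he h
      have h4 := iha e⁻¹ (E'.inv_mem he) (by rw [map_inv, h, inv_inv])
      rw [map_inv, inv_smul_eq_iff] at h4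
      exact h4.symm
  intro e he
  refine h3 _ ?_ e he rfl
  rw [hT, ← hm]
  exact ⟨e, he, rfl⟩

/-- Induction on the rank. If `S` is not periodic take `M ≤ stabH S` from `FF.exists_normal`; it
stabilizes the class of every `S' = ρ e • S` (`stabH_smul`), and the cores are unbounded
(`per_iff_core`). Put `E' = norm S' ⊓ comap π M`, apply `exists_scale`, and `glue`; the vertex groups
are handled by induction (`finiteIndex_estab`, `estab_le_norm`, `FF.of_relIndex`). -/
theorem good_of_ff_stabH (hn : 2 ≤ n) (hH : NF H) {o : BiOrd (Fr n)} {K : Subgroup H} (hK : FF K)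
    (ho : X.OrdOn o K) {N : Subgroup (Fr n)} (hN : X.Inv N)
    (hper : ∀ S ≤ N, S.FG → NonAb S → X.Per S → X.Good S) {S : Subgroup (Fr n)} (hSN : S ≤ N)
    (hS : S.FG) (hna : NonAb S) (hst : FF (X.stabH S)) : X.Good S := by
  induction hr : rk S using Nat.strong_induction_on generalizing S with
  | _ r ih =>
  by_cases hp : X.Per S
  · exact hper S hSN hS hna hp
  obtain ⟨M, hMle, hMff, hMn, hMfg, -⟩ := FF.exists_normal hH hst
  obtain ⟨V, hV⟩ := X.exists_scale hMfg r
  have h1 : ∃ e, V ≤ core (X.ρ e • S) := by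
    by_contra hc
    push Not at hc
    exact hp ((X.per_iff_core hS).2 ⟨V, fun e => (hc e).le⟩)
  obtain ⟨e, he⟩ := h1
  set S' := X.ρ e • S with hS'
  have hS'N : S' ≤ N := by
    rw [← hN e]
    exact Subgroup.pointwise_smul_le_pointwise_smul_iff.2 hSN
  have hfg : S'.FG := xhier_fg_smul _ hS
  have hna' : NonAb S' := xhier_nonAb_smul _ hna
  have hrk : rk S' = r := by rw [hS', rk_smul, hr]
  have hM' : M ≤ X.stabH S' := by
    rw [hS', X.stabH_smul]
    have h2 : MulAut.conj (X.π e) • M = M :=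
      xhier_conj_smul (fun x hx => hMn.conj_mem x hx _) fun x hx => by
        simpa using hMn.conj_mem x hx (X.π e)⁻¹
    rw [← h2]
    exact Subgroup.pointwise_smul_le_pointwise_smul_iff.2 hMle
  set E' : Subgroup E := X.norm S' ⊓ M.comap X.π with hE'
  have hle : E' ≤ X.norm S' := inf_le_left
  have hmap : E'.map X.π = M := by
    apply le_antisymm
    · rintro _ ⟨x, hx, rfl⟩
      exact hx.2
    · intro x hx
      obtain ⟨y, hy, rfl⟩ := hM' hx
      exact ⟨y, ⟨hy, hx⟩, rfl⟩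
  have hj : ∀ s ∈ S', X.j s ∈ E' := by
    intro s hs
    refine ⟨?_, ?_⟩
    · change X.ρ (X.j s) • S' = S'
      rw [X.ρ_j]
      exact xhier_conj_smul (fun x hx => S'.mul_mem (S'.mul_mem hs hx) (S'.inv_mem hs))
        fun x hx => S'.mul_mem (S'.mul_mem (S'.inv_mem hs) hx) hs
    · change X.π (X.j s) ∈ M
      rw [X.π_j]
      exact M.one_mem
  obtain ⟨m, hne, hinv⟩ := hV S' E' hfg hna' hrk.le he hle hmap
  have hff : FF (E'.map X.π) := by rw [hmap]; exact hMff
  have h2 : FF (X.kerIn E' S') := by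
    refine X.glue hn hH hK ho hfg hna' hle hj hff hne hinv fun U hU hv => ?_
    obtain ⟨h3, h4⟩ := vstab_fg_rk hfg hna' hU
    refine ih _ (hrk ▸ h4) (le_trans inf_le_left hS'N) h3 hv ?_ rfl
    exact (FF.of_relIndex hH hff (X.finiteIndex_estab hfg hna' hle hj hinv hU)).mono
      (Subgroup.map_mono (X.estab_le_norm hle _))
  have h3 : X.Good S' := h2.mono (X.kerIn_mono le_top le_rfl)
  have h4 := h3.smul e⁻¹
  rwa [hS', ← mul_smul, ← map_mul, inv_mul_cancel, map_one, one_smul] at h4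

/-- A counterexample has a bounded core: otherwise `glue`, with the main statement in smaller
rank for the pairs `(estab E' v, vstab S v)` (`ff_kerIn_of_main`). -/
theorem core_lt_of_bad (hn : 2 ≤ n) (hH : NF H) {o : BiOrd (Fr n)} {K : Subgroup H} (hK : FF K)
    (ho : X.OrdOn o K) {r : ℕ} (hr : 2 ≤ r) (hm : ∀ k < r, Main k) :
    ∃ V : ℕ, ∀ E' S, X.Bad r E' S → core S < V := by
  have hfg : (⊤ : Subgroup H).FG := hH.fg.out
  obtain ⟨V, hV⟩ := X.exists_scale hfg r
  refine ⟨V, fun E' S hb => ?_⟩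
  by_contra hc
  have hna : NonAb S := nonAb_of_two_le_rk (hb.rank ▸ hr)
  obtain ⟨m, hne, hinv⟩ := hV S E' hb.fg hna hb.rank.le (not_lt.1 hc) hb.pair.le hb.onto
  have hj : ∀ s ∈ S, X.j s ∈ E' := fun s hs => (hb.pair.cap s).2 hs
  have hff : FF (E'.map X.π) := by rw [hb.onto]; exact ff_of_finiteIndex ⊤
  refine hb.bad (X.glue hn hH hK ho hb.fg hna hb.pair.le hj hff hne hinv fun U hU _ => ?_)
  obtain ⟨h3, h4⟩ := vstab_fg_rk hb.fg hna hU
  have hp : X.Pair (X.estab E' (head S (UU S m) U)) (vstab S (head S (UU S m) U)) :=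
    ⟨X.estab_le_norm hb.pair.le _, fun g => by
      rw [xhier_mem_estab, xhier_mem_vstab, X.ρ_j, hb.pair.cap]⟩
  have h5 := X.finiteIndex_estab hb.fg hna hb.pair.le hj hinv hU
  rw [hb.onto] at h5
  have h6 : ((X.estab E' (head S (UU S m) U)).map X.π).FiniteIndex :=
    ⟨by rw [← Subgroup.relIndex_top_right]; exact h5.index_ne_zero⟩
  exact (X.ff_kerIn_of_main hH hp h6 h3 (hm _ (hb.rank ▸ h4))).mono (X.kerIn_mono le_top le_rfl)

end Ext

end Pool.Agent.Lib.MP_9ac97d_al
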