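import Pool.Agent.Lib.MP_9ac97d_al.XRes
import Pool.Agent.Lib.MP_9ac97d_al.MSys

/-!
# Hulls (task XHull)
-/

set_option autoImplicit false

noncomputable section

open Pointwise

namespace Pool.Agent.Lib.MP_9ac97d_al

variable {n : ℕ}

/-- The intersection of the members of `PP` that contain `T`. -/
def xhull_car (PP : Set (Subgroup (Fr n))) (T : Subgroup (Fr n)) : Subgroup (Fr n) :=
  sInf {P | P ∈ PP ∧ T ≤ P}

theorem xhull_le_car (PP : Set (Subgroup (Fr n))) (T : Subgroup (Fr n)) : T ≤ xhull_car PP T :=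
  le_sInf fun _ h => h.2

theorem xhull_car_mem {N : Subgroup (Fr n)} {PP : Set (Subgroup (Fr n))} (h : GoodSys N PP)
    {T P : Subgroup (Fr n)} (hT : T ≠ ⊥) (hP : P ∈ PP) (hle : T ≤ P) : xhull_car PP T ∈ PP := by
  have e : xhull_car PP T = P := by
    refine le_antisymm (sInf_le ⟨hP, hle⟩) (le_sInf fun Q hQ => ?_)
    refine (h.eq_of_inf P hP Q hQ.1 fun c => hT ?_).le
    exact le_bot_iff.1 (c ▸ le_inf hle hQ.2)
  rwa [e]

theorem xhull_car_smul (Φ : MulAut (Fr n)) (PP : Set (Subgroup (Fr n))) (T : Subgroup (Fr n)) :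
    Φ • xhull_car PP T = xhull_car (Φ • PP) (Φ • T) := by
  ext x
  simp only [xhull_car, Subgroup.mem_pointwise_smul_iff_inv_smul_mem, Subgroup.mem_sInf,
    Set.mem_ofPred_eq]
  constructor
  · rintro h _ ⟨⟨P, hP, rfl⟩, hle⟩
    exact Subgroup.mem_pointwise_smul_iff_inv_smul_mem.2
      (h P ⟨hP, Subgroup.pointwise_smul_le_pointwise_smul_iff.1 hle⟩)
  · rintro h P ⟨hP, hle⟩
    exact Subgroup.mem_pointwise_smul_iff_inv_smul_mem.1
      (h (Φ • P) ⟨⟨P, hP, rfl⟩, Subgroup.pointwise_smul_le_pointwise_smul_iff.2 hle⟩)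

theorem xhull_smul_iInf {Θ : Type} (Φ : MulAut (Fr n)) (P : Θ → Subgroup (Fr n)) :
    Φ • ⨅ θ, P θ = ⨅ θ, Φ • P θ := by
  ext x
  simp only [Subgroup.mem_pointwise_smul_iff_inv_smul_mem, Subgroup.mem_iInf]

theorem xhull_nonAb_mono {S T : Subgroup (Fr n)} (h : NonAb S) (hle : S ≤ T) : NonAb T := by
  obtain ⟨a, ha, b, hb, hab⟩ := h
  exact ⟨a, hle ha, b, hle hb, hab⟩

theorem xhull_nonAb_smul {S : Subgroup (Fr n)} (h : NonAb S) (Φ : MulAut (Fr n)) :
    NonAb (Φ • S) := by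
  obtain ⟨a, ha, b, hb, hab⟩ := h
  refine ⟨Φ • a, Subgroup.smul_mem_pointwise_smul _ _ _ ha, Φ • b,
    Subgroup.smul_mem_pointwise_smul _ _ _ hb, fun c => hab ?_⟩
  apply Φ.injective
  rw [map_mul, map_mul]
  exact c

theorem xhull_ne_bot {S : Subgroup (Fr n)} (h : NonAb S) : S ≠ ⊥ := by
  obtain ⟨a, ha, b, -, hab⟩ := h
  rintro rfl
  rw [Subgroup.mem_bot] at ha
  exact hab (ha ▸ Commute.one_left b)

theorem xhull_fg_smul {S : Subgroup (Fr n)} (h : S.FG) (Φ : MulAut (Fr n)) : (Φ • S).FG := by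
  rw [Subgroup.fg_iff] at h ⊢
  obtain ⟨T, hT, hfin⟩ := h
  exact ⟨Φ • T, by rw [← Subgroup.smul_closure, hT], hfin.smul_set⟩

theorem xhull_smul_le {N S : Subgroup (Fr n)} {Φ : MulAut (Fr n)} (hΦ : Φ • N = N) (h : S ≤ N) :
    Φ • S ≤ N :=
  hΦ ▸ Subgroup.pointwise_smul_le_pointwise_smul_iff.2 h

theorem xhull_inv_smul {N : Subgroup (Fr n)} {Φ : MulAut (Fr n)} (hΦ : Φ • N = N) :
    Φ⁻¹ • N = N :=
  inv_smul_eq_iff.2 hΦ.symm

theorem xhull_smul_conj (Φ : MulAut (Fr n)) (g : Fr n) (S : Subgroup (Fr n)) :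
    Φ • (MulAut.conj g • S) = MulAut.conj (Φ g) • (Φ • S) := by
  rw [smul_smul, smul_smul]
  congr 1
  ext x
  simp

theorem xhull_conj_mul (g h : Fr n) (S : Subgroup (Fr n)) :
    MulAut.conj (g * h) • S = MulAut.conj g • (MulAut.conj h • S) := by
  rw [map_mul, mul_smul]

/-- A family without large pairwise non conjugate subfamilies has finitely many classes. -/
theorem xhull_finite_classes {N : Subgroup (Fr n)} {ι : Type} (F : ι → Subgroup (Fr n)) (V : ℕ)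
    (h : ∀ (κ : Type) [Fintype κ] (f : κ → ι), NonConj N (fun i => F (f i)) →
      Fintype.card κ ≤ V) :
    ∃ A : Set (Subgroup (Fr n)), A.Finite ∧ ∀ i, ∃ g ∈ N, MulAut.conj g • F i ∈ A := by
  classical
  let r : Setoid ι :=
    ⟨fun i j => ∃ g ∈ N, MulAut.conj g • F i = F j,
      fun i => ⟨1, N.one_mem, by simp⟩,
      fun ⟨g, hg, e⟩ => ⟨g⁻¹, N.inv_mem hg, by rw [← e, ← xhull_conj_mul]; simp⟩,
      fun ⟨g, hg, e⟩ ⟨g', hg', e'⟩ =>
        ⟨g' * g, N.mul_mem hg' hg, by rw [xhull_conj_mul, e, e']⟩⟩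
  have hfin : Finite (Quotient r) := by
    by_contra c
    rw [not_finite_iff_infinite] at c
    obtain ⟨s, hs⟩ := Infinite.exists_subset_card_eq (Quotient r) (V + 1)
    have := h s (fun a => Quotient.out a.1) fun a b l hl e =>
      Subtype.ext (Quotient.out_equiv_out.1 ⟨l, hl, e⟩)
    rw [Fintype.card_coe, hs] at this
    omega
  refine ⟨Set.range fun a : Quotient r => F a.out, Set.finite_range _, fun i => ?_⟩
  obtain ⟨g, hg, e⟩ := r.symm (Quotient.mk_out (s := r) i)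
  exact ⟨g, hg, Quotient.mk r i, e.symm⟩

/-- Bounded orbits give a periodic hull. Let `PP = fsys N (offStrip N Ω)`; for `k ∈ Γ` and a
subgroup `T = k₀ • B₀` let `P T k` be `k⁻¹ •` (the member of `PP` containing `k • T`), and
`hull T = ⨅ k, P T k`. Then `k₁ • hull T = hull (k₁ • T)`. By `exists_common_sys` (for the systems
`k⁻¹ • PP`) each hull is finitely generated and any finite family of hulls lies in one system bounded
by `V`, so by `BddSys.finite_classes` there are at most `V` classes. -/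
theorem exists_hull {N : Subgroup (Fr n)} {Γ : Subgroup (MulAut (Fr n))} (hΓ : ∀ k ∈ Γ, k • N = N)
    {B₀ : Subgroup (Fr n)} (hB : B₀ ≤ N) (hna : NonAb B₀) {Ω : Set (Fr n)} (hΩ : Ω.Finite)
    (h : ∀ k ∈ Γ, TT (k • B₀) ⊆ (N : Set (Fr n)) * Ω) :
    ∃ B, B₀ ≤ B ∧ B ≤ N ∧ B.FG ∧ ∃ A : Set (Subgroup (Fr n)), A.Finite ∧
      ∀ k ∈ Γ, ∃ g ∈ N, MulAut.conj g • (k • B) ∈ A := by
  obtain ⟨V, hV⟩ := cocpt_offStrip N hΩ
  have hR := rinv_offStrip N Ω
  have hgood := goodSys_fsys hR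
  have hbdd := bddSys_fsys hR hV
  set PP := fsys N (offStrip N Ω)
  have hsys : ∀ k : Γ, GoodSys N ((k : MulAut (Fr n))⁻¹ • PP) := fun k =>
    hgood.smul (xhull_inv_smul (hΓ k k.2))
  let hull : Subgroup (Fr n) → Subgroup (Fr n) := fun T =>
    ⨅ k : Γ, xhull_car ((k : MulAut (Fr n))⁻¹ • PP) T
  have hle : ∀ T, T ≤ hull T := fun T => le_iInf fun k => xhull_le_car _ _
  have hsmul : ∀ k₁ ∈ Γ, ∀ T, k₁ • hull T = hull (k₁ • T) := by
    intro k₁ hk T
    simp only [hull, xhull_smul_iInf, xhull_car_smul]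
    refine (Equiv.mulRight (⟨k₁, hk⟩ : Γ)⁻¹).iInf_congr fun k => ?_
    simp [smul_smul]
  have hmem : ∀ k₀ k : Γ, xhull_car ((k : MulAut (Fr n))⁻¹ • PP) ((k₀ : MulAut (Fr n)) • B₀) ∈
      (k : MulAut (Fr n))⁻¹ • PP := by
    intro k₀ k
    have hk : (k : MulAut (Fr n)) * k₀ ∈ Γ := Γ.mul_mem k.2 k₀.2
    obtain ⟨y, hy⟩ := tt_nonempty (xhull_ne_bot (xhull_nonAb_smul hna ((k : MulAut (Fr n)) * k₀)))
    have h1 := le_stabC_offStrip (xhull_smul_le (hΓ _ hk) hB) (h _ hk) hy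
    refine xhull_car_mem (hsys k) (xhull_ne_bot (xhull_nonAb_smul hna _))
      (Set.smul_mem_smul_set (⟨y, rfl⟩ : stabC N (offStrip N Ω) y ∈ PP)) ?_
    rw [← Subgroup.pointwise_smul_subset_iff, smul_smul]
    exact h1
  have hcommon : ∀ (κ : Type) [Finite κ] (f : κ → Γ), ∃ QQ, GoodSys N QQ ∧ BddSys N QQ V ∧
      ∀ i, hull ((f i : MulAut (Fr n)) • B₀) ∈ QQ := by
    intro κ _ f
    refine exists_common_sys (fun k : Γ => (k : MulAut (Fr n))⁻¹ • PP) hsys 1 (by simpa using hbdd)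
      (fun i k => xhull_car ((k : MulAut (Fr n))⁻¹ • PP) ((f i : MulAut (Fr n)) • B₀))
      (fun i k => hmem (f i) k) fun i => xhull_nonAb_mono (xhull_nonAb_smul hna _) (hle _)
  obtain ⟨QQ, q1, q2, q3⟩ := hcommon Unit fun _ => 1
  have q4 : hull B₀ ∈ QQ := by simpa using q3 ()
  obtain ⟨A, hA, hA'⟩ := xhull_finite_classes (N := N)
    (fun k : Γ => hull ((k : MulAut (Fr n)) • B₀)) V fun κ _ f hf => by
      obtain ⟨QQ', -, p2, p3⟩ := hcommon κ f
      exact p2.finite_classes _ p3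
        (fun i => xhull_nonAb_mono (xhull_nonAb_smul hna _) (hle _)) hf
  refine ⟨hull B₀, hle _, q1.le _ q4, q2.1 _ q4, A, hA, fun k hk => ?_⟩
  rw [hsmul k hk]
  exact hA' ⟨k, hk⟩

/-- Bounded values of finitely many integral characters leave finitely many cosets. -/
theorem exists_strip {κ : Type} [Finite κ] (θ : κ → Fr n →* Multiplicative ℤ)
    {N : Subgroup (Fr n)} (hN : ∀ g, g ∈ N ↔ ∀ k, θ k g = 1) (C : ℝ) :
    ∃ Ω : Set (Fr n), Ω.Finite ∧
      {y | ∀ k, |((θ k y).toAdd : ℝ)| ≤ C} ⊆ (N : Set (Fr n)) * Ω := by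
  let f : Fr n → κ → ℤ := fun y k => (θ k y).toAdd
  have h1 : {z : ℤ | |(z : ℝ)| ≤ C}.Finite := by
    refine (Set.finite_Icc (-⌈C⌉) ⌈C⌉).subset fun z hz => ?_
    have h2 : |(z : ℝ)| ≤ (⌈C⌉ : ℤ) := le_trans hz (Int.le_ceil C)
    have h3 : |z| ≤ ⌈C⌉ := by exact_mod_cast h2
    exact abs_le.1 h3
  have hW : (Set.univ.pi fun _ : κ => {z : ℤ | |(z : ℝ)| ≤ C}).Finite :=
    Set.Finite.pi fun _ => h1
  refine ⟨_, hW.image (Function.invFun f), fun y hy => ?_⟩
  have e : f (Function.invFun f (f y)) = f y := Function.invFun_eq ⟨y, rfl⟩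
  refine ⟨y * (Function.invFun f (f y))⁻¹, (hN _).2 fun k => ?_, Function.invFun f (f y),
    ⟨f y, fun k _ => hy k, rfl⟩, by simp⟩
  rw [map_mul, map_inv, mul_inv_eq_one]
  exact Multiplicative.toAdd.injective (congrFun e k).symm

namespace Ext

variable {E H : Type} [Group E] [Group H] (X : Ext E H n)

/-- The family `D` is linked: in every good system that carries it, the carriers are conjugate. -/
def Linked (N : Subgroup (Fr n)) {κ : Type} (D : κ → Subgroup (Fr n)) : Prop :=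
  ∀ QQ, GoodSys N QQ → ∀ Q : κ → Subgroup (Fr n), (∀ i, Q i ∈ QQ ∧ D i ≤ Q i) →
    ∀ i j, ∃ g ∈ N, MulAut.conj g • Q i = Q j

/-- The hull of `T` for the family `D`. -/
def xhull_hull (N : Subgroup (Fr n)) {κ : Type} (D : κ → Subgroup (Fr n)) (T : Subgroup (Fr n)) :
    Subgroup (Fr n) :=
  ⨅ e : E, xhull_car ((X.ρ e)⁻¹ • fsys N (outside N fun i => X.ρ e • D i)) T

theorem xhull_hull_smul (N : Subgroup (Fr n)) {κ : Type} (D : κ → Subgroup (Fr n))
    (T : Subgroup (Fr n)) (e₁ : E) :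
    X.ρ e₁ • X.xhull_hull N D T = X.xhull_hull N (fun i => X.ρ e₁ • D i) (X.ρ e₁ • T) := by
  simp only [xhull_hull, xhull_smul_iInf, xhull_car_smul]
  refine (Equiv.mulRight e₁⁻¹).iInf_congr fun e => ?_
  simp [smul_smul]

theorem xhull_rho_mem {N : Subgroup (Fr n)} (hN : X.Inv N) (e : E) {g : Fr n} (hg : g ∈ N) :
    X.ρ e g ∈ N := by
  rw [← hN e]
  exact Subgroup.smul_mem_pointwise_smul _ _ _ hg

theorem xhull_hull_congr {N : Subgroup (Fr n)} (hN : X.Inv N) {κ : Type}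
    {D D' : κ → Subgroup (Fr n)} (h : ∀ i, ∃ g ∈ N, D' i = MulAut.conj g • D i)
    (T : Subgroup (Fr n)) : X.xhull_hull N D' T = X.xhull_hull N D T := by
  refine iInf_congr fun e => ?_
  rw [outside_congr (D := fun i => X.ρ e • D i) (D' := fun i => X.ρ e • D' i) fun i => ?_]
  obtain ⟨g, hg, hi⟩ := h i
  exact ⟨X.ρ e g, X.xhull_rho_mem hN e hg, by rw [hi, xhull_smul_conj]⟩

/-- The twisted members of a linked family are close to each other modulo `N`. -/
theorem xhull_near {N : Subgroup (Fr n)} (hN : X.Inv N) {κ : Type} [Fintype κ]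
    {D : κ → Subgroup (Fr n)} (hD : ∀ i, D i ≤ N ∧ (D i).FG ∧ NonAb (D i)) (hl : Linked N D)
    (e : E) (i i₀ : κ) {z z₀ : Fr n} (hz : z ∈ TT (X.ρ e • D i)) (hz₀ : z₀ ∈ TT (X.ρ e • D i₀)) :
    ∃ g ∈ N, dd (g * z) z₀ ≤ 2 * ∑ j, n * core (X.ρ e • D j) := by
  have hle : ∀ j, X.ρ e • D j ≤ N := fun j => xhull_smul_le (hN e) (hD j).1
  have hne : ∀ j, X.ρ e • D j ≠ ⊥ := fun j => xhull_ne_bot (xhull_nonAb_smul (hD j).2.2 _)
  have hR := rinv_outside N fun j => X.ρ e • D j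
  have hV := cocpt_outside (D := fun j => X.ρ e • D j) hle fun j => xhull_fg_smul (hD j).2.1 _
  choose y hy using fun j => tt_nonempty (hne j)
  have hst := fun j => le_stabC_outside (D := fun j => X.ρ e • D j) hle j (hy j)
  set R := outside N fun j => X.ρ e • D j
  obtain ⟨g, hg, hc⟩ := hl _ ((goodSys_fsys hR).smul (xhull_inv_smul (hN e)))
    (fun j => (X.ρ e)⁻¹ • stabC N R (y j))
    (fun j => ⟨Set.smul_mem_smul_set ⟨y j, rfl⟩,
      Subgroup.pointwise_smul_subset_iff.1 (hst j)⟩) i i₀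
  have hg' := X.xhull_rho_mem hN e hg
  have h1 : stabC N R (X.ρ e g * y i) = stabC N R (y i₀) := by
    have := congrArg (X.ρ e • ·) hc
    simp only [xhull_smul_conj, smul_inv_smul] at this
    rw [← this, stabC_conj hR hg']
  have h2 : Same R (X.ρ e g * y i) (y i₀) := by
    refine same_of_inf_ne_bot hR fun c => hne i₀ ?_
    rw [h1, inf_idem] at c
    exact le_bot_iff.1 (c ▸ hst i₀)
  have h3 : Same R (X.ρ e g * z) z₀ :=
    (((same_of_mem_tt hR (hst i) hz).mul hR hg').trans h2).trans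
      (same_of_mem_tt hR (hst i₀) hz₀).symm
  obtain ⟨g', hg'', hd⟩ := exists_near_of_same hR hV h3
  exact ⟨g' * X.ρ e g, N.mul_mem hg'' hg', by rwa [mul_assoc]⟩

/-- The periodic hull of a linked family. For a family `D'` let `C D' i` be the stabilizer of the
component of the forest `outside N D'` that contains `TT (D' i)`, and
`hull D' i = ⨅ e, (ρ e)⁻¹ • C (ρ e • D') i`. Then `ρ e • hull D' i = hull (ρ e • D') i` (in particular
for `e = j g`), and `hull D' i₀` depends only on `D' i₀` and on the `N`-classes of the others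
(`outside_congr`). Periodicity: after conjugation `ρ e • D i₀` is in a finite set; write
`ρ e • D i = conj (g i) • A i` with `A i` in a finite set with base points `y A ∈ TT A`. By `Linked`
applied to the twisted system, an `N`-translate of `g i * y (A i)` is in the component of
`y (A i₀)`, so by `exists_near_of_same` and `cocpt_outside` (`core` is bounded) `g i` lies in
finitely many cosets `N w`. The last claims come from `exists_common_sys`. -/
theorem exists_per_hull {N : Subgroup (Fr n)} [N.Normal] (hN : X.Inv N) {κ : Type} [Fintype κ]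
    (D : κ → Subgroup (Fr n)) (hD : ∀ i, D i ≤ N ∧ (D i).FG ∧ NonAb (D i) ∧ X.Per (D i))
    (hl : Linked N D) (i₀ : κ) :
    ∃ QQ, GoodSys N QQ ∧ ∃ Q : κ → Subgroup (Fr n), (∀ i, Q i ∈ QQ ∧ D i ≤ Q i) ∧
      (Q i₀).FG ∧ X.Per (Q i₀) := by
  have hle : ∀ e j, X.ρ e • D j ≤ N := fun e j => xhull_smul_le (hN e) (hD j).1
  have hne : ∀ e j, X.ρ e • D j ≠ ⊥ := fun e j => xhull_ne_bot (xhull_nonAb_smul (hD j).2.2.1 _)
  have hsys : ∀ e : E, GoodSys N ((X.ρ e)⁻¹ • fsys N (outside N fun i => X.ρ e • D i)) :=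
    fun e => (goodSys_fsys (rinv_outside N _)).smul (xhull_inv_smul (hN e))
  have hbdd : BddSys N ((X.ρ 1)⁻¹ • fsys N (outside N fun i => X.ρ 1 • D i))
      (∑ i, n * core (D i)) := by
    simpa using bddSys_fsys (rinv_outside N D)
      (cocpt_outside (fun i => (hD i).1) fun i => (hD i).2.1)
  have hhull : ∀ i, D i ≤ X.xhull_hull N D (D i) := fun i => le_iInf fun e => xhull_le_car _ _
  obtain ⟨QQ, q1, q2, q3⟩ := exists_common_sys _ hsys 1 hbdd
    (fun i e => xhull_car ((X.ρ e)⁻¹ • fsys N (outside N fun i => X.ρ e • D i)) (D i))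
    (fun i e => by
      obtain ⟨y, hy⟩ := tt_nonempty (hne e i)
      exact xhull_car_mem (hsys e) (xhull_ne_bot (hD i).2.2.1) (Set.smul_mem_smul_set ⟨y, rfl⟩)
        (Subgroup.pointwise_smul_subset_iff.1
          (le_stabC_outside (D := fun j => X.ρ e • D j) (hle e) i hy)))
    fun i => xhull_nonAb_mono (hD i).2.2.1 (hhull i)
  refine ⟨QQ, q1, fun i => X.xhull_hull N D (D i), fun i => ⟨q3 i, hhull i⟩, q2.1 _ (q3 i₀), ?_⟩
  choose A hA hA' using fun i => X.per_iff.1 (hD i).2.2.2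
  choose V hV using fun i => (X.per_iff_core (hD i).2.1).1 (hD i).2.2.2
  have hbase : ∀ S : Subgroup (Fr n), ∃ y, S ≠ ⊥ → y ∈ TT S := fun S => by
    by_cases c : S = ⊥
    · exact ⟨1, fun d => absurd c d⟩
    · obtain ⟨y, hy⟩ := tt_nonempty c
      exact ⟨y, fun _ => hy⟩
  choose y hy using hbase
  let W : κ → Set (Fr n) := fun i => ⋃ S ∈ A i, ⋃ S' ∈ A i₀,
    (fun z => z * (y S)⁻¹) '' {z | dd (y S') z ≤ 2 * ∑ j, n * V j}
  have hW : ∀ i, (W i).Finite := fun i =>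
    (hA i).biUnion fun S _ => (hA i₀).biUnion fun S' _ => (finite_dball _ _).image _
  have hB : (Set.univ.pi fun i => Set.image2 (fun w S => MulAut.conj w • S) (W i) (A i)).Finite :=
    Set.Finite.pi fun i => (hW i).image2 _ (hA i)
  refine X.per_iff.2 ⟨_, hB.image2 (X.xhull_hull N) (hA i₀), fun e => ?_⟩
  obtain ⟨g₀, hg₀⟩ := hA' i₀ e
  have he : ∀ S : Subgroup (Fr n), MulAut.conj g₀ • (X.ρ e • S) = X.ρ (X.j g₀ * e) • S :=
    fun S => by rw [map_mul, X.ρ_j, mul_smul]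
  rw [he] at hg₀
  have key : ∀ i, ∃ g ∈ N, MulAut.conj g • (X.ρ (X.j g₀ * e) • D i) ∈
      Set.image2 (fun w S => MulAut.conj w • S) (W i) (A i) := by
    intro i
    obtain ⟨g, hg⟩ := hA' i (X.j g₀ * e)
    set S := MulAut.conj g • (X.ρ (X.j g₀ * e) • D i) with hS
    have hS1 : S ≠ ⊥ := xhull_ne_bot (xhull_nonAb_smul (xhull_nonAb_smul (hD i).2.2.1 _) _)
    have hz : g⁻¹ * y S ∈ TT (X.ρ (X.j g₀ * e) • D i) := by
      rw [← mul_mem_tt_conj _ g, mul_inv_cancel_left]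
      exact hy S hS1
    obtain ⟨g', hg', hd⟩ := X.xhull_near hN (fun i => ⟨(hD i).1, (hD i).2.1, (hD i).2.2.1⟩) hl
      (X.j g₀ * e) i i₀ hz (hy _ (hne _ i₀))
    refine ⟨g', hg', g' * g⁻¹, ?_, S, hg, ?_⟩
    · refine Set.mem_iUnion₂.2 ⟨S, hg, Set.mem_iUnion₂.2 ⟨_, hg₀, g' * (g⁻¹ * y S), ?_, ?_⟩⟩
      · rw [Set.mem_ofPred_eq, dd_comm]
        exact hd.trans (Nat.mul_le_mul_left _
          (Finset.sum_le_sum fun j _ => Nat.mul_le_mul_left _ (hV j _)))
      · simp [mul_assoc]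
    · show MulAut.conj (g' * g⁻¹) • S = _
      rw [hS, ← xhull_conj_mul, inv_mul_cancel_right]
  choose g hg hg' using key
  refine ⟨g₀, fun i => MulAut.conj (g i) • (X.ρ (X.j g₀ * e) • D i), fun i _ => hg' i, _, hg₀, ?_⟩
  rw [he, X.xhull_hull_smul]
  exact X.xhull_hull_congr hN (fun i => ⟨g i, hg i, rfl⟩) _

end Ext

end Pool.Agent.Lib.MP_9ac97d_al
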