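import Pool.Agent.Lib.MP_9ac97d_al.XRes
import Pool.Agent.Lib.MP_9ac97d_al.TBcc
import Pool.Agent.Lib.MP_9ac97d_al.GSim

/-!
# The hyperbolic step: a fixed height function (task XHypA)
-/

set_option autoImplicit false

noncomputable section

open Pointwise

namespace Pool.Agent.Lib.MP_9ac97d_al

variable {n : ℕ}

/-- Heights in all directions `c` along axes drop by at most `C ‖c‖` under `Φ`. -/
def HtBd (v : Fin n → ℂ) (C : ℝ) (Φ : MulAut (Fr n)) : Prop :=
  ∀ a, a ≠ 1 → chr v a = 0 → ∀ c : ℂ, ∀ y ∈ Ax (Φ a), ∃ y' ∈ Ax a,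
    (c * chr v y').re - C * ‖c‖ ≤ (c * chr v y).re

open BoundedContinuousFunction in
/-- A fixed function at bounded distance from `F₀`, for the action
`(e F) z = r e * F (e⁻¹ z)`. -/
theorem xhypa_fixed {E H Z : Type} [Group E] [Group H] [MulAction E Z] (π : E →* H)
    (hπ : Function.Surjective π) (r : E →* ℝ) (hr : ∀ e, 0 ≤ r e) (F₀ : Z → ℝ)
    (hF : ∀ e, ∃ C, ∀ z, |r e * F₀ (e⁻¹ • z) - F₀ z| ≤ C)
    (hker : ∀ e, π e = 1 → ∀ z, r e * F₀ (e⁻¹ • z) = F₀ z)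
    (T : Z → Z → Z → Prop) (hT : ∀ (e : E) x y z, T x y z → T (e • x) (e • y) (e • z))
    (hT0 : ∀ x y z, T x y z → F₀ x + F₀ y = F₀ z) {ε : ℝ} (hε : 0 < ε) {L₀ : ℕ}
    (h : NFP H fun S => ∃ e : E, π e ∈ ball S L₀ ∧ 1 + ε ≤ r e) :
    ∃ F : Z → ℝ, (∃ C, ∀ z, |F z - F₀ z| ≤ C) ∧ (∀ x y z, T x y z → F x + F y = F z) ∧
      ∀ (e : E) z, r e * F (e⁻¹ • z) = F z := by
  let _ : TopologicalSpace Z := ⊥
  have : DiscreteTopology Z := ⟨rfl⟩
  choose C hC using hF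
  let W : Set (Z →ᵇ ℝ) := {G | (∀ x y z, T x y z → G x + G y = G z) ∧
    ∀ e, π e = 1 → ∀ z, r e * G (e⁻¹ • z) = G z}
  have hW : IsClosed W := by
    simp only [W, Set.ofPred_and, Set.ofPred_forall]
    refine IsClosed.inter ?_ ?_
    · refine isClosed_iInter fun x => isClosed_iInter fun y => isClosed_iInter fun z =>
        isClosed_iInter fun _ => isClosed_eq ?_ ?_
      · exact (continuous_eval_const x).add (continuous_eval_const y)
      · exact continuous_eval_const z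
    · refine isClosed_iInter fun e => isClosed_iInter fun _ => isClosed_iInter fun z =>
        isClosed_eq ?_ ?_
      · exact continuous_const.mul (continuous_eval_const _)
      · exact continuous_eval_const z
  have hbd : ∀ (e : E) (G : Z →ᵇ ℝ) (z : Z),
      ‖r e * (F₀ (e⁻¹ • z) + G (e⁻¹ • z)) - F₀ z‖ ≤ C e + r e * ‖G‖ := by
    intro e G z
    have h1 := hC e z
    have h2 : |r e * G (e⁻¹ • z)| ≤ r e * ‖G‖ := by
      rw [abs_mul, abs_of_nonneg (hr e)]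
      exact mul_le_mul_of_nonneg_left (G.norm_coe_le_norm _) (hr e)
    have h3 : r e * (F₀ (e⁻¹ • z) + G (e⁻¹ • z)) - F₀ z =
        (r e * F₀ (e⁻¹ • z) - F₀ z) + r e * G (e⁻¹ • z) := by ring
    rw [Real.norm_eq_abs, h3]
    exact (abs_add_le _ _).trans (add_le_add h1 h2)
  let act : E → (Z →ᵇ ℝ) → (Z →ᵇ ℝ) := fun e G => ofNormedAddCommGroupDiscrete
    (fun z => r e * (F₀ (e⁻¹ • z) + G (e⁻¹ • z)) - F₀ z) (C e + r e * ‖G‖) (hbd e G)
  have hact : ∀ e G z, act e G z = r e * (F₀ (e⁻¹ • z) + G (e⁻¹ • z)) - F₀ z :=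
    fun _ _ _ => rfl
  have hmem : ∀ e, ∀ G ∈ W, act e G ∈ W := by
    rintro e G ⟨h1, h2⟩
    refine ⟨fun x y z hxyz => ?_, fun k hk z => ?_⟩
    · rw [hact, hact, hact, ← hT0 x y z hxyz, ← hT0 _ _ _ (hT e⁻¹ x y z hxyz),
        ← h1 _ _ _ (hT e⁻¹ x y z hxyz)]
      ring
    · have hk' : π (e⁻¹ * k * e) = 1 := by simp [hk]
      have e1 : r (e⁻¹ * k * e) = r k := by
        rw [map_mul, map_mul, mul_right_comm, ← map_mul, inv_mul_cancel, map_one, one_mul]
      have e2 : (e⁻¹ * k * e)⁻¹ • e⁻¹ • z = e⁻¹ • k⁻¹ • z := by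
        simp [smul_smul, mul_assoc]
      have a1 := hker _ hk' (e⁻¹ • z)
      have a2 := h2 _ hk' (e⁻¹ • z)
      rw [e1, e2] at a1 a2
      rw [hact, hact, ← a1, ← a2, ← hker k hk z]
      ring
  let _ : MulAction E W :=
    { smul := fun e G => ⟨act e G, hmem e _ G.2⟩
      one_smul := fun G => Subtype.ext (BoundedContinuousFunction.ext fun z => by
        change act 1 G z = G.1 z
        rw [hact]
        simp)
      mul_smul := fun e e' G => Subtype.ext (BoundedContinuousFunction.ext fun z => by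
        change act (e * e') G z = act e (act e' G) z
        rw [hact, hact, hact, map_mul, mul_inv_rev, mul_smul]
        ring) }
  have hsm : ∀ (e : E) (G : W) z, (e • G).1 z = r e * (F₀ (e⁻¹ • z) + G.1 (e⁻¹ • z)) - F₀ z :=
    fun _ _ _ => rfl
  have : CompleteSpace W := hW.completeSpace_coe
  have : Nonempty W := ⟨⟨0, fun _ _ _ _ => by simp, fun _ _ _ => by simp⟩⟩
  have hle : ∀ (e : E) (p q : W), dist (e • p) (e • q) ≤ r e * dist p q := by
    intro e p q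
    rw [Subtype.dist_eq, Subtype.dist_eq,
      BoundedContinuousFunction.dist_le (mul_nonneg (hr e) dist_nonneg)]
    intro z
    have h3 : (e • p).1 z - (e • q).1 z = r e * (p.1 (e⁻¹ • z) - q.1 (e⁻¹ • z)) := by
      rw [hsm, hsm]; ring
    rw [Real.dist_eq, h3, abs_mul, abs_of_nonneg (hr e), ← Real.dist_eq]
    exact mul_le_mul_of_nonneg_left (dist_coe_le_dist _) (hr e)
  have heq : ∀ (e : E) (p q : W), dist (e • p) (e • q) = r e * dist p q := by
    intro e p q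
    refine le_antisymm (hle e p q) ?_
    have h1 := hle e⁻¹ (e • p) (e • q)
    rw [inv_smul_smul, inv_smul_smul] at h1
    have h2 := mul_le_mul_of_nonneg_left h1 (hr e)
    rwa [← mul_assoc, ← map_mul, mul_inv_cancel, map_one, one_mul] at h2
  have hk : ∀ e, π e = 1 → ∀ p : W, e • p = p := by
    intro e he p
    refine Subtype.ext (BoundedContinuousFunction.ext fun z => ?_)
    rw [hsm, mul_add, hker e he, p.2.2 e he]
    ring
  obtain ⟨p, hp⟩ := exists_fixed_of_sim π hπ hk r heq hε h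
  refine ⟨fun z => F₀ z + p.1 z, ⟨‖p.1‖, fun z => ?_⟩, fun x y z hxyz => ?_, fun e z => ?_⟩
  · rw [add_sub_cancel_left]
    exact p.1.norm_coe_le_norm z
  · have h1 := hT0 x y z hxyz
    have h2 := p.2.1 x y z hxyz
    change F₀ x + p.1 x + (F₀ y + p.1 y) = F₀ z + p.1 z
    linarith
  · have := hsm e p z
    rw [hp e] at this
    change r e * (F₀ (e⁻¹ • z) + p.1 (e⁻¹ • z)) = F₀ z + p.1 z
    linarith

theorem xhypa_chr_one (v : Fin n → ℂ) : chr v 1 = 0 := by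
  have := chr_mul v 1 1
  rw [mul_one] at this
  exact left_eq_add.1 this

theorem xhypa_chr_inv (v : Fin n → ℂ) (g : Fr n) : chr v g⁻¹ = -chr v g := by
  have := chr_mul v g⁻¹ g
  rw [inv_mul_cancel, xhypa_chr_one] at this
  exact eq_neg_of_add_eq_zero_left this.symm

theorem xhypa_chr_zpow (v : Fin n → ℂ) {a : Fr n} (ha : chr v a = 0) (k : ℤ) :
    chr v (a ^ k) = 0 := by
  induction k using Int.induction_on with
  | zero => rw [zpow_zero, xhypa_chr_one]
  | succ k ih => rw [zpow_add_one, chr_mul, ih, ha, add_zero]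
  | pred k ih => rw [zpow_sub_one, chr_mul, ih, xhypa_chr_inv, ha, neg_zero, add_zero]

theorem xhypa_lip (v : Fin n → ℂ) (d : ℕ) :
    ∀ x y : Fr n, dd x y = d → ‖chr v x - chr v y‖ ≤ ‖v‖ * d := by
  induction d with
  | zero =>
    intro x y h
    rw [dd_eq_zero.1 h]
    simp
  | succ d ih =>
    intro x y h
    obtain ⟨m, hm, h1⟩ := exists_btw x y (t := 1) (by omega)
    have h2 : dd m y = d := by
      unfold Btw at hm
      omega
    have h3 : ‖chr v x - chr v m‖ ≤ ‖v‖ := by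
      obtain ⟨i, hi | hi⟩ := dd_eq_one.1 h1
      · rw [hi, chr_mul, chr_of, sub_add_cancel_left, norm_neg]
        exact norm_le_pi_norm v i
      · rw [hi, chr_mul, chr_of, add_sub_cancel_left]
        exact norm_le_pi_norm v i
    have h4 := ih m y h2
    have h5 := norm_sub_le_norm_sub_add_norm_sub (chr v x) (chr v m) (chr v y)
    push_cast
    linarith

theorem xhypa_re_le (v : Fin n → ℂ) (c : ℂ) {x y : Fr n} {C : ℕ} (h : dd x y ≤ C) :
    |(c * chr v x).re - (c * chr v y).re| ≤ ‖v‖ * C * ‖c‖ := by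
  rw [← Complex.sub_re, ← mul_sub]
  refine (Complex.abs_re_le_norm _).trans ?_
  rw [norm_mul, mul_comm]
  refine mul_le_mul_of_nonneg_right ((xhypa_lip v _ x y rfl).trans ?_) (norm_nonneg c)
  exact mul_le_mul_of_nonneg_left (Nat.cast_le.2 h) (norm_nonneg v)

/-- The minimal height along the axis. -/
def xhypaMu (v : Fin n → ℂ) (a : Fr n) (c : ℂ) : ℝ :=
  sInf ((fun y => (c * chr v y).re) '' Ax a)

theorem xhypa_finite (v : Fin n → ℂ) {a : Fr n} (ha : a ≠ 1) (h0 : chr v a = 0) (c : ℂ) :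
    ((fun y => (c * chr v y).re) '' Ax a).Finite := by
  obtain ⟨y, hy⟩ := ax_nonempty a
  refine ((finite_dball y (dd y (a * y))).image fun y => (c * chr v y).re).subset ?_
  rintro _ ⟨z, hz, rfl⟩
  obtain ⟨k, hk⟩ := exists_zpow_btw ha hy hz
  refine ⟨a ^ k * z, ?_, ?_⟩
  · unfold Btw at hk
    change dd y (a ^ k * z) ≤ dd y (a * y)
    omega
  · simp only [chr_mul, xhypa_chr_zpow v h0, zero_add]

theorem xhypa_mu_le (v : Fin n → ℂ) {a : Fr n} (ha : a ≠ 1) (h0 : chr v a = 0) (c : ℂ)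
    {y : Fr n} (hy : y ∈ Ax a) : xhypaMu v a c ≤ (c * chr v y).re :=
  csInf_le (xhypa_finite v ha h0 c).bddBelow ⟨y, hy, rfl⟩

theorem xhypa_mu_mem (v : Fin n → ℂ) {a : Fr n} (ha : a ≠ 1) (h0 : chr v a = 0) (c : ℂ) :
    ∃ y ∈ Ax a, (c * chr v y).re = xhypaMu v a c :=
  ((ax_nonempty a).image _).csInf_mem (xhypa_finite v ha h0 c)

theorem xhypa_mu_conj (v : Fin n → ℂ) {a : Fr n} (ha : a ≠ 1) (h0 : chr v a = 0) (c : ℂ)
    (g : Fr n) : xhypaMu v (g * a * g⁻¹) c = xhypaMu v a c + (c * chr v g).re := by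
  have ha' : g * a * g⁻¹ ≠ 1 := by simpa using ha
  have h0' : chr v (g * a * g⁻¹) = 0 := by
    rw [chr_mul, chr_mul, xhypa_chr_inv, h0]; ring
  apply le_antisymm
  · obtain ⟨y, hy, e⟩ := xhypa_mu_mem v ha h0 c
    have := xhypa_mu_le v ha' h0' c ((mul_mem_ax_conj g a y).2 hy)
    rw [chr_mul, mul_add, Complex.add_re, e] at this
    linarith
  · obtain ⟨y, hy, e⟩ := xhypa_mu_mem v ha' h0' c
    have hy' : g⁻¹ * y ∈ Ax a := (mul_mem_ax_conj g a _).1 (by rwa [mul_inv_cancel_left])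
    have := xhypa_mu_le v ha h0 c hy'
    rw [chr_mul, xhypa_chr_inv, mul_add, Complex.add_re, e, mul_neg, Complex.neg_re] at this
    linarith

theorem xhypa_mu_aut (v : Fin n → ℂ) (Φ : MulAut (Fr n)) (l : ℂ)
    (hl : ∀ g, chr v (Φ g) = l * chr v g) : ∃ C : ℝ, ∀ a : Fr n, a ≠ 1 → chr v a = 0 → ∀ c : ℂ,
      |xhypaMu v a (c * l) - xhypaMu v (Φ a) c| ≤ C * ‖c‖ := by
  obtain ⟨C, hC⟩ := ax_near Φ
  refine ⟨‖v‖ * C, fun a ha h0 c => ?_⟩
  have ha' : Φ a ≠ 1 := by simpa using ha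
  have h0' : chr v (Φ a) = 0 := by rw [hl, h0, mul_zero]
  rw [abs_le]
  constructor
  · obtain ⟨y, hy, e⟩ := xhypa_mu_mem v ha h0 (c * l)
    obtain ⟨m, hm, hd⟩ := (hC a ha).1 y hy
    have h1 := xhypa_mu_le v ha' h0' c hm
    have h2 := (abs_le.1 (xhypa_re_le v c hd)).2
    rw [hl, ← mul_assoc, e] at h2
    linarith
  · obtain ⟨m, hm, e⟩ := xhypa_mu_mem v ha' h0' c
    obtain ⟨y, hy, hd⟩ := (hC a ha).2 m hm
    have h1 := xhypa_mu_le v ha h0 (c * l) hy
    have h2 := (abs_le.1 (xhypa_re_le v c hd)).1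
    rw [hl, ← mul_assoc, e] at h2
    linarith

/-- Pairs of nontrivial elements of height zero, together with a direction. -/
structure XhypaZ (v : Fin n → ℂ) : Type where
  a : Fr n
  b : Fr n
  c : ℂˣ
  ha : a ≠ 1
  ha0 : chr v a = 0
  hb : b ≠ 1
  hb0 : chr v b = 0

theorem XhypaZ.ext' {v : Fin n → ℂ} {z z' : XhypaZ v} (h1 : z.a = z'.a) (h2 : z.b = z'.b)
    (h3 : z.c = z'.c) : z = z' := by
  cases z
  cases z'
  simp only at h1 h2 h3
  subst h1 h2 h3
  rfl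

/-- The action on pairs and directions. -/
@[reducible] def xhypaAct {E : Type} [Group E] (ρ : E →* MulAut (Fr n)) (v : Fin n → ℂ)
    (lam : E →* ℂ) (hlam : ∀ e g, chr v (ρ e g) = lam e * chr v g) : MulAction E (XhypaZ v) where
  smul e z := ⟨ρ e z.a, ρ e z.b, z.c * (lam.toHomUnits e)⁻¹, by simpa using z.ha,
    by rw [hlam, z.ha0, mul_zero], by simpa using z.hb, by rw [hlam, z.hb0, mul_zero]⟩
  one_smul z := XhypaZ.ext' (by change ρ 1 z.a = z.a; simp) (by change ρ 1 z.b = z.b; simp)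
    (by change z.c * (lam.toHomUnits 1)⁻¹ = z.c; simp)
  mul_smul e e' z := XhypaZ.ext' (by change ρ (e * e') z.a = ρ e (ρ e' z.a); simp)
    (by change ρ (e * e') z.b = ρ e (ρ e' z.b); simp)
    (by
      change z.c * (lam.toHomUnits (e * e'))⁻¹ =
        z.c * (lam.toHomUnits e')⁻¹ * (lam.toHomUnits e)⁻¹
      rw [map_mul, mul_inv_rev, mul_assoc])

/-- Let `I = {a | a ≠ 1 ∧ chr v a = 0}` (if empty there is nothing to prove) and
`μ a c = min over y ∈ Ax a of re (c * chr v y)` (attained: finitely many values, by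
`exists_zpow_btw`). By `ax_near`, `|μ ((ρ e)⁻¹ a) (c * lam e) - μ a c| ≤ C e * ‖c‖`. `E` acts on
functions `F : I → I → ℂ → ℝ` by `(e F) a a' c = F (e⁻¹ a) (e⁻¹ a') (c * lam e)`. Let `𝒳` be the set
of `F` that are positively homogeneous in `c`, satisfy `F a a' + F a' a'' = F a a''`, are fixed by
all `j g`, and are within `C ‖c‖` of `F₀ a a' c = μ a c - μ a' c` for some `C`, with the distance
`sup |F - F'|` over `‖c‖ = 1` (a closed subset of a space of bounded functions after subtracting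
`F₀`). `F₀ ∈ 𝒳` because `μ (g a g⁻¹) c = μ a c + re (c * chr v g)`. `E` acts by similarities of ratio
`‖lam e‖`; take a fixed point `F` (`exists_fixed_of_sim`). For `e` in the kernel of `lam`,
`β e = F (ρ e a₀) a₀ c` is a homomorphism and `F (ρ e a) a c = β e`; it vanishes on commutators. -/
theorem Ext.hyp_heights {E H : Type} [Group E] [Group H] (X : Ext E H n) (v : Fin n → ℂ)
    (lam : E →* ℂ) (hlam : ∀ e g, chr v (X.ρ e g) = lam e * chr v g) (hv : v ≠ 0) {ε : ℝ}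
    (hε : 0 < ε) {L₀ : ℕ} (h : NFP H fun S => ∃ e : E, X.π e ∈ ball S L₀ ∧ 1 + ε ≤ ‖lam e‖) :
    ∃ C : ℝ, ∀ k ∈ ⁅lam.toHomUnits.ker, lam.toHomUnits.ker⁆, HtBd v C (X.ρ k) := by
  let _ := xhypaAct X.ρ v lam hlam
  have sa : ∀ (e : E) (z : XhypaZ v), (e • z).a = X.ρ e z.a := fun _ _ => rfl
  have sb : ∀ (e : E) (z : XhypaZ v), (e • z).b = X.ρ e z.b := fun _ _ => rfl
  have sc : ∀ (e : E) (z : XhypaZ v), (e • z).c = z.c * (lam.toHomUnits e)⁻¹ := fun _ _ => rfl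
  have sc' : ∀ (e : E) (z : XhypaZ v), ((e⁻¹ • z).c : ℂ) = z.c * lam e := fun e z => by
    rw [sc, map_inv, inv_inv, Units.val_mul, MonoidHom.coe_toHomUnits]
  have hl0 : ∀ e, ‖lam e‖ ≠ 0 := fun e => by
    rw [norm_ne_zero_iff, ← MonoidHom.coe_toHomUnits]
    exact Units.ne_zero _
  have hc0 : ∀ c : ℂˣ, 0 < ‖(c : ℂ)‖ := fun c => norm_pos_iff.2 c.ne_zero
  let r : E →* ℝ := (normHom : ℂ →*₀ ℝ).toMonoidHom.comp lam
  have hr : ∀ e, r e = ‖lam e‖ := fun _ => rfl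
  let F₀ : XhypaZ v → ℝ := fun z => (xhypaMu v z.a z.c - xhypaMu v z.b z.c) / ‖(z.c : ℂ)‖
  have hF₀ : ∀ (e : E) (z : XhypaZ v), r e * F₀ (e⁻¹ • z) =
      (xhypaMu v (e⁻¹ • z).a (z.c * lam e) - xhypaMu v (e⁻¹ • z).b (z.c * lam e)) /
        ‖(z.c : ℂ)‖ := by
    intro e z
    have := hl0 e
    have := (hc0 z.c).ne'
    simp only [F₀, hr, sc', norm_mul]
    field_simp
  obtain ⟨F, ⟨C, hC⟩, hT, hfix⟩ := xhypa_fixed X.π X.surj r (fun e => norm_nonneg (lam e)) F₀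
    (fun e => by
      obtain ⟨C, hC⟩ := xhypa_mu_aut v (X.ρ e) (lam e) (hlam e)
      refine ⟨C + C, fun z => ?_⟩
      have h1 := hC _ (e⁻¹ • z).ha (e⁻¹ • z).ha0 z.c
      have h2 := hC _ (e⁻¹ • z).hb (e⁻¹ • z).hb0 z.c
      rw [← sa, smul_inv_smul] at h1
      rw [← sb, smul_inv_smul] at h2
      rw [hF₀, ← sub_div, abs_div, abs_of_pos (hc0 z.c), div_le_iff₀ (hc0 z.c)]
      rw [abs_le] at h1 h2 ⊢
      constructor <;> linarith [h1.1, h1.2, h2.1, h2.2])
    (fun e he z => by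
      have he' : e⁻¹ ∈ X.π.ker := X.π.ker.inv_mem he
      rw [X.ker] at he'
      obtain ⟨g, hg⟩ := he'
      have hl : lam e = 1 := by
        obtain ⟨i, hi⟩ := Function.ne_iff.1 hv
        have h1 := hlam e⁻¹ (FreeGroup.of i)
        rw [← hg, X.ρ_j, MulAut.conj_apply, chr_mul, chr_mul, xhypa_chr_inv, chr_of, hg] at h1
        have h2 : lam e⁻¹ = 1 := by
          apply mul_right_cancel₀ hi
          rw [← h1]; ring
        have h3 : lam e * lam e⁻¹ = 1 := by rw [← map_mul, mul_inv_cancel, map_one]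
        rwa [h2, mul_one] at h3
      rw [hF₀, sa, sb, ← hg, X.ρ_j, MulAut.conj_apply, MulAut.conj_apply, hl, mul_one,
        xhypa_mu_conj v z.ha z.ha0, xhypa_mu_conj v z.hb z.hb0, add_sub_add_right_eq_sub])
    (fun x y z => x.a = z.a ∧ x.b = y.a ∧ y.b = z.b ∧ x.c = z.c ∧ y.c = z.c)
    (fun e x y z ⟨h1, h2, h3, h4, h5⟩ => by
      simp only [sa, sb, sc, h1, h2, h3, h4, h5, and_self])
    (fun x y z ⟨h1, h2, h3, h4, h5⟩ => by
      simp only [F₀, h1, h2, h3, h4, h5]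
      ring)
    hε h
  refine ⟨C, fun k hk a ha h0 c y hy => ?_⟩
  by_cases hc : c = 0
  · obtain ⟨y', hy'⟩ := ax_nonempty a
    exact ⟨y', hy', by simp [hc]⟩
  let P : E → E → XhypaZ v := fun e e' => ⟨X.ρ e a, X.ρ e' a, Units.mk0 c hc, by simpa using ha,
    by rw [hlam, h0, mul_zero], by simpa using ha, by rw [hlam, h0, mul_zero]⟩
  have hP : ∀ e ∈ lam.toHomUnits.ker, ∀ e', F (P (e * e') e) = F (P e' 1) := by
    intro e he e'
    have h1 : lam.toHomUnits e = 1 := he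
    have h2 : r e = 1 := by rw [hr, ← MonoidHom.coe_toHomUnits, h1]; simp
    have h3 := hfix e (P (e * e') e)
    rw [h2, one_mul] at h3
    rw [← h3]
    congr 1
    refine XhypaZ.ext' ?_ ?_ ?_
    · rw [sa]; simp [P]
    · rw [sb]; simp [P]
    · rw [sc, map_inv, h1]; simp [P]
  let β : lam.toHomUnits.ker →* Multiplicative ℝ := MonoidHom.mk'
    (fun e => Multiplicative.ofAdd (F (P e 1))) (fun e e' => by
      rw [← ofAdd_add, ← hP e e.2 e', add_comm,
        hT (P (e * e') e) (P e 1) (P (e * e') 1) ⟨rfl, rfl, rfl, rfl, rfl⟩]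
      rfl)
  have hle : ⁅lam.toHomUnits.ker, lam.toHomUnits.ker⁆ ≤ β.ker.map lam.toHomUnits.ker.subtype := by
    rw [Subgroup.commutator_le]
    intro g₁ h₁ g₂ h₂
    refine ⟨(⟨g₁, h₁⟩ : lam.toHomUnits.ker) * ⟨g₂, h₂⟩ * (⟨g₁, h₁⟩ : lam.toHomUnits.ker)⁻¹ *
      (⟨g₂, h₂⟩ : lam.toHomUnits.ker)⁻¹, ?_, rfl⟩
    change β _ = 1
    rw [map_mul, map_mul, map_mul, map_inv, map_inv, mul_comm (β ⟨g₁, h₁⟩), mul_inv_cancel_right,
      mul_inv_cancel]
  obtain ⟨k', hk', rfl⟩ := hle hk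
  have hz : F (P k' 1) = 0 := Multiplicative.ofAdd.injective hk'
  have h1 := hC (P k' 1)
  rw [hz, zero_sub, abs_neg] at h1
  have h2 : F₀ (P k' 1) = (xhypaMu v (X.ρ k' a) c - xhypaMu v a c) / ‖c‖ := by
    simp [F₀, P]
  rw [h2, abs_div, abs_norm, div_le_iff₀ (norm_pos_iff.2 hc)] at h1
  obtain ⟨y', hy', e⟩ := xhypa_mu_mem v ha h0 c
  have h3 := xhypa_mu_le v (P k' 1).ha (P k' 1).ha0 c hy
  refine ⟨y', hy', ?_⟩
  have h4 := (abs_le.1 h1).1
  have h5 : xhypaMu v (P k' 1).a c = xhypaMu v (X.ρ k' a) c := rfl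
  linarith

end Pool.Agent.Lib.MP_9ac97d_al
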