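import Pool.Agent.Lib.MP_9ac97d_al.XHypBAux
import Pool.Agent.Lib.MP_9ac97d_al.MFlux
import Pool.Agent.Lib.MP_9ac97d_al.Ore

/-!
# Fox derivatives of the generators, change of the valuation (task XHypB, part two)
-/

set_option autoImplicit false

noncomputable section

open Pointwise

namespace Pool.Agent.Lib.MP_9ac97d_al

section Der

variable {n : ℕ}

theorem xhypb_of_mul_of (i i' : Fin n) : (FreeGroup.of i * FreeGroup.of i' : Fr n) ≠ 1 := by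
  intro h
  have h1 := congrArg (FreeGroup.lift fun _ : Fin n => Multiplicative.ofAdd (1 : ℤ)) h
  rw [MonoidHom.map_mul, MonoidHom.map_one, FreeGroup.lift_apply_of, FreeGroup.lift_apply_of] at h1
  have h2 := congrArg Multiplicative.toAdd h1
  simp at h2

theorem xhypb_dd_of (x : Fr n) (i : Fin n) : dd x (x * FreeGroup.of i) = 1 :=
  dd_eq_one.2 ⟨i, Or.inl rfl⟩

open Classical in
theorem xhypb_cf_of (i i' : Fin n) (l : Fr n) :
    cf ⊤ 1 i (FreeGroup.of i') l = if l = 1 ∧ i = i' then 1 else 0 := by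
  have hd := xhypb_dd_of (1 : Fr n) i
  have hd' := xhypb_dd_of l⁻¹ i'
  unfold cf
  rw [if_pos (Subgroup.mem_top l)]
  by_cases hw : l⁻¹ * FreeGroup.of i' ∈ Half (1 : Fr n) (1 * FreeGroup.of i)
  · by_cases hz : l⁻¹ ∈ Half (1 : Fr n) (1 * FreeGroup.of i)
    · rw [if_pos hw, if_pos hz, if_neg, sub_self]
      rintro ⟨rfl, -⟩
      have h1 : dd (1 : Fr n)⁻¹ (1 * FreeGroup.of i) < dd (1 : Fr n)⁻¹ 1 := hz
      rw [inv_one, dd_self] at h1
      exact Nat.not_lt_zero _ h1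
    · obtain ⟨h1, h2⟩ := sep_adj hd hd' ((not_mem_half hd _).1 hz) hw
      rw [h1, one_mul, one_mul] at h2
      rw [if_pos hw, if_neg hz, if_pos ⟨inv_eq_one.1 h1, (FreeGroup.of_injective h2).symm⟩,
        sub_zero]
  · by_cases hz : l⁻¹ ∈ Half (1 : Fr n) (1 * FreeGroup.of i)
    · obtain ⟨h1, h2⟩ := sep_adj hd ((dd_comm _ _).trans hd') ((not_mem_half hd _).1 hw) hz
      rw [h2, one_mul] at h1
      exact absurd h1 (xhypb_of_mul_of i i')
    · rw [if_neg hw, if_neg hz, if_neg, sub_self]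
      rintro ⟨rfl, rfl⟩
      apply hw
      show dd ((1 : Fr n)⁻¹ * FreeGroup.of i) (1 * FreeGroup.of i) <
        dd ((1 : Fr n)⁻¹ * FreeGroup.of i) 1
      rw [inv_one, dd_self, dd_comm, hd]
      exact Nat.one_pos

variable {D : Type} [DivisionRing D]

theorem xhypb_der_of (ι : Fr n →* D) (i i' : Fin n) :
    der ι ⊤ 1 i (FreeGroup.of i') = if i = i' then 1 else 0 := by
  unfold der
  rw [finsum_eq_single _ (1 : Fr n)]
  · rw [xhypb_cf_of]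
    by_cases h : i = i' <;> simp [h]
  · intro l hl
    rw [xhypb_cf_of, if_neg fun h => hl h.1]
    simp

theorem xhypb_der_unique (κ : Fr n →* D) (δ δ' : Fr n → D)
    (h : ∀ a b, δ (a * b) = δ a + κ a * δ b) (h' : ∀ a b, δ' (a * b) = δ' a + κ a * δ' b)
    (hof : ∀ i, δ (FreeGroup.of i) = δ' (FreeGroup.of i)) (a : Fr n) : δ a = δ' a := by
  have h1 : δ 1 = 0 := by
    have h2 := h 1 1
    rw [mul_one, map_one, one_mul] at h2
    exact left_eq_add.1 h2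
  have h1' : δ' 1 = 0 := by
    have h2 := h' 1 1
    rw [mul_one, map_one, one_mul] at h2
    exact left_eq_add.1 h2
  induction a using FreeGroup.induction_on with
  | C1 => rw [h1, h1']
  | of i => exact hof i
  | inv_of i ih =>
    have h2 := h (FreeGroup.of i)⁻¹ (FreeGroup.of i)
    have h2' := h' (FreeGroup.of i)⁻¹ (FreeGroup.of i)
    rw [inv_mul_cancel, h1] at h2
    rw [inv_mul_cancel, h1', ← ih] at h2'
    exact add_right_cancel (h2.symm.trans h2')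
  | mul x y ihx ihy => rw [h, h', ihx, ihy]

theorem xhypb_cv_surj (ι : Fr n →* D) (v : Fin n → D) :
    ∃ z : Fr n →₀ D, v = fun i => coef ι ⊤ 1 i z := by
  refine ⟨∑ j, Finsupp.single (FreeGroup.of j) (v j), funext fun i => ?_⟩
  simp [coef, xhypb_der_of]

theorem xhypb_coef_zeta (ι : Fr n →* D) (p g : Fr n) (i : Fin n) :
    coef ι ⊤ 1 i (zeta ι p g) =
      der ι ⊤ 1 i g - (ι g - 1) * (ι p - 1)⁻¹ * der ι ⊤ 1 i p := by
  unfold coef zeta
  rw [map_sub, Finsupp.linearCombination_single, Finsupp.linearCombination_single, one_smul,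
    smul_eq_mul]

theorem xhypb_der_mem (ι : Fr n →* D) (R : Subring D) (hR : ∀ g, ι g ∈ R) (i : Fin n) (a : Fr n) :
    der ι ⊤ 1 i a ∈ R := by
  unfold der
  refine finsum_induction (fun x => x ∈ R) R.zero_mem (fun x y hx hy => R.add_mem hx hy)
    fun l => R.mul_mem (intCast_mem R _) (hR l)

end Der

section Transfer

variable {G : Type} [Group G]

theorem xhypb_c_mul {o₁ o₂ : BiOrd G} {x y : MN o₁} {x' y' : MN o₂} (hx : x'.c = x.c)
    (hy : y'.c = y.c) : (x' * y').c = (x * y).c := by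
  funext g
  rw [MN.c_mul, MN.c_mul, hx, hy]

theorem xhypb_c_sub {o₁ o₂ : BiOrd G} {x y : MN o₁} {x' y' : MN o₂} (hx : x'.c = x.c)
    (hy : y'.c = y.c) : (x' - y').c = (x - y).c := by
  funext g
  rw [MN.c_sub, MN.c_sub, hx, hy]

theorem xhypb_c_inv {o₁ o₂ : BiOrd G} {N : Subgroup G} [N.Normal]
    (h : ∀ g ∈ N, g ∈ o₁.P ↔ g ∈ o₂.P) {x : MN o₁} {x' : MN o₂} (hx : x ∈ MN.sub o₁ N)
    (hc : x'.c = x.c) : (x'⁻¹).c = (x⁻¹).c := by
  by_cases h0 : x = 0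
  · have h0' : x' = 0 := MN.ext fun g => by rw [hc, h0]; rfl
    rw [h0, h0', inv_zero, inv_zero]
    rfl
  · let y : MN o₂ := MN.transfer o₁ o₂ N h ⟨x⁻¹, MN.mem_fin_of_mem_sub (inv_mem hx)⟩
    have hy : y.c = (x⁻¹).c := rfl
    have h1 : x' * y = 1 := MN.ext fun g => by
      rw [xhypb_c_mul hc hy, mul_inv_cancel₀ h0]
      rfl
    rw [← eq_inv_of_mul_eq_one_right h1]
    exact hy

/-- The perturbed character. -/
def xhypb_psi (χ θ : G →* Multiplicative ℝ) (η : ℝ) : G →* Multiplicative ℝ where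
  toFun g := Multiplicative.ofAdd ((χ g).toAdd + η * (θ g).toAdd)
  map_one' := by simp
  map_mul' := fun a b => by
    rw [← ofAdd_add, χ.map_mul, θ.map_mul, toAdd_mul, toAdd_mul]
    exact congrArg Multiplicative.ofAdd (by ring)

theorem xhypb_psi_apply (χ θ : G →* Multiplicative ℝ) (η : ℝ) (g : G) :
    (xhypb_psi χ θ η g).toAdd = (χ g).toAdd + η * (θ g).toAdd := rfl

theorem xhypb_theta_eq {χ θ : G →* Multiplicative ℝ} (hθ : ∀ g, χ g = 1 → θ g = 1) {a b : G}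
    (h : χ a = χ b) : θ a = θ b := by
  have h1 := hθ (a⁻¹ * b) (by rw [map_mul, map_inv, h, inv_mul_cancel])
  rw [map_mul, map_inv] at h1
  exact inv_mul_eq_one.1 h1

theorem xhypb_agree (o : BiOrd G) {χ θ : G →* Multiplicative ℝ} (hθ : ∀ g, χ g = 1 → θ g = 1)
    (η : ℝ) : ∀ g ∈ χ.ker, g ∈ (o.lex χ).P ↔ g ∈ (o.lex (xhypb_psi χ θ η)).P := by
  intro g hg
  have h1 : χ g = 1 := hg
  have h2 : (xhypb_psi χ θ η g).toAdd = (χ g).toAdd := by
    rw [xhypb_psi_apply, hθ g h1]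
    simp
  show (0 < (χ g).toAdd ∨ ((χ g).toAdd = 0 ∧ g ∈ o.P)) ↔
    (0 < (xhypb_psi χ θ η g).toAdd ∨ ((xhypb_psi χ θ η g).toAdd = 0 ∧ g ∈ o.P))
  rw [h2]

theorem xhypb_open {o : BiOrd G} {χ θ : G →* Multiplicative ℝ} (hθ : ∀ g, χ g = 1 → θ g = 1)
    {x : MN o} (hx : x ∈ MN.fin o χ.ker) (g₀ : G)
    (h : ∀ u ∈ x.supp, (χ g₀).toAdd ≤ (χ u).toAdd) :
    ∀ᶠ η in nhds (0 : ℝ), ∀ u ∈ x.supp,
      (xhypb_psi χ θ η g₀).toAdd ≤ (xhypb_psi χ θ η u).toAdd := by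
  have h1 : ∀ᶠ η in nhds (0 : ℝ), ∀ b ∈ (QuotientGroup.mk : G → G ⧸ χ.ker) '' x.supp,
      ∀ u : G, (u : G ⧸ χ.ker) = b →
        (xhypb_psi χ θ η g₀).toAdd ≤ (xhypb_psi χ θ η u).toAdd := by
    rw [Filter.eventually_all_finite (MN.mem_fin.1 hx)]
    rintro _ ⟨u₀, hu₀, rfl⟩
    have h2 : ∀ᶠ η in nhds (0 : ℝ),
        (xhypb_psi χ θ η g₀).toAdd ≤ (xhypb_psi χ θ η u₀).toAdd := by
      rcases (h u₀ hu₀).eq_or_lt with h3 | h3
      · refine Filter.Eventually.of_forall fun η => ?_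
        have h4 : χ g₀ = χ u₀ := Multiplicative.toAdd.injective h3
        rw [xhypb_psi_apply, xhypb_psi_apply, h4, xhypb_theta_eq hθ h4]
      · have h4 : ∀ g : G, ContinuousAt (fun η : ℝ => (χ g).toAdd + η * (θ g).toAdd) 0 :=
          fun g => by fun_prop
        refine ((h4 g₀).eventually_lt (h4 u₀) (by simpa using h3)).mono fun η hη => ?_
        exact hη.le
    refine h2.mono fun η hη u hu => ?_
    have h3 : χ (u⁻¹ * u₀) = 1 := QuotientGroup.eq.1 hu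
    rw [map_mul, map_inv] at h3
    have h4 : χ u = χ u₀ := inv_mul_eq_one.1 h3
    rw [xhypb_psi_apply χ θ η u, h4, xhypb_theta_eq hθ h4]
    exact hη
  exact h1.mono fun η hη u hu => hη _ ⟨u, hu, rfl⟩ u rfl

/-- An integral relation over the field of fractions remains integral for nearby valuations. -/
theorem xhypb_transfer_rel (o : BiOrd G) {χ θ : G →* Multiplicative ℝ}
    (hθ : ∀ g, χ g = 1 → θ g = 1) (hO : LOre (MN.fin (o.lex χ) χ.ker)) {κ : Type} (I : Finset κ)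
    {n : ℕ} (w : κ → Fin n → MN (o.lex χ)) (x : Fin n → MN (o.lex χ)) (c : κ → MN (o.lex χ))
    (hc : ∀ b, (∃ q ∈ MN.fin (o.lex χ) χ.ker, q ≠ 0 ∧ q * c b ∈ MN.fin (o.lex χ) χ.ker) ∧
      ‖c b‖ ≤ 1) (h : x = ∑ b ∈ I, c b • w b) :
    ∀ᶠ η in nhds (0 : ℝ), ∀ (w' : κ → Fin n → MN (o.lex (xhypb_psi χ θ η)))
      (x' : Fin n → MN (o.lex (xhypb_psi χ θ η))), (∀ b i, (w' b i).c = (w b i).c) →
      (∀ i, (x' i).c = (x i).c) → Gen (MN (o.lex (xhypb_psi χ θ η))) ∅ (w' '' I) x' := by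
  obtain ⟨q, hq, hq0, hqc⟩ := hO.common (κ := I) (fun b => c b) fun b => (hc b).1
  obtain ⟨g₀, hg₀, hn⟩ := MN.norm_mem q hq0
  have h1 : ∀ᶠ η in nhds (0 : ℝ), ∀ b : I, ∀ u ∈ (q * c b).supp,
      (xhypb_psi χ θ η g₀).toAdd ≤ (xhypb_psi χ θ η u).toAdd := by
    rw [Filter.eventually_all]
    intro b
    refine xhypb_open hθ (hqc b) g₀ ((MN.norm_le_iff _ _).1 ?_)
    rw [norm_mul, ← hn]
    exact mul_le_of_le_one_right (norm_nonneg _) (hc b).2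
  refine h1.mono fun η hη w' x' hw' hx' => ?_
  let q' : MN (o.lex (xhypb_psi χ θ η)) := MN.transfer _ _ χ.ker (xhypb_agree o hθ η) ⟨q, hq⟩
  have hq'c : q'.c = q.c := rfl
  have hg₀' : g₀ ∈ q'.supp := hg₀
  have hq'0 : q' ≠ 0 := fun h0 => by
    rw [h0] at hg₀'
    exact hg₀' rfl
  have hq'n : Real.exp (-(xhypb_psi χ θ η g₀).toAdd) ≤ ‖q'‖ := by
    obtain ⟨g₁, -, hg₁⟩ := MN.norm_mem q' hq'0
    rw [hg₁]
    exact Real.exp_le_exp.2 (neg_le_neg ((MN.norm_le_iff _ _).1 hg₁.le g₀ hg₀'))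
  have hp : ∀ b, ∃ p' : MN (o.lex (xhypb_psi χ θ η)), ‖p'‖ ≤ ‖q'‖ ∧
      (b ∈ I → p'.c = (q * c b).c) := by
    intro b
    by_cases hb : b ∈ I
    · refine ⟨MN.transfer _ _ χ.ker (xhypb_agree o hθ η) ⟨q * c b, hqc ⟨b, hb⟩⟩, ?_, fun _ => rfl⟩
      exact le_trans ((MN.norm_le_iff _ _).2 (hη ⟨b, hb⟩)) hq'n
    · exact ⟨0, by simp, fun h => absurd h hb⟩
  choose p' hp1 hp2 using hp
  have key : x' = ∑ b ∈ I, (q'⁻¹ * p' b) • w' b := by
    funext i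
    have h2 : q' * x' i = ∑ b ∈ I, p' b * w' b i := by
      refine MN.ext fun g => ?_
      rw [xhypb_c_mul hq'c (hx' i), h, Finset.sum_apply, Finset.mul_sum, MN.c_sum, MN.c_sum]
      refine Finset.sum_congr rfl fun b hb => ?_
      rw [xhypb_c_mul (hp2 b hb) (hw' b i), Pi.smul_apply, smul_eq_mul, mul_assoc]
    rw [Finset.sum_apply]
    simp only [Pi.smul_apply, smul_eq_mul, mul_assoc]
    rw [← Finset.mul_sum, ← h2, inv_mul_cancel_left₀ hq'0]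
  rw [key]
  refine xhypb_gen_sum w' I _ fun b => ?_
  rw [norm_mul, norm_inv]
  exact inv_mul_le_one_of_le₀ (hp1 b) (norm_nonneg _)

theorem xhypb_map_mem_fin {o : BiOrd G} {χ : G →* Multiplicative ℝ} {Φ : MulAut G} (h : o.Pres Φ)
    (hχ : ∀ g, χ (Φ g) = χ g) {x : MN o} (hx : x ∈ MN.fin o χ.ker) :
    MN.map Φ h x ∈ MN.fin o χ.ker := by
  refine MN.mem_fin.2 ((MN.mem_fin.1 hx).subset ?_)
  rw [MN.supp_map]
  rintro _ ⟨_, ⟨u, hu, rfl⟩, rfl⟩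
  refine ⟨u, hu, QuotientGroup.eq.2 ?_⟩
  show χ (u⁻¹ * Φ u) = 1
  rw [map_mul, map_inv, hχ, inv_mul_cancel]

theorem xhypb_map_mem_sub {o : BiOrd G} {χ : G →* Multiplicative ℝ} {Φ : MulAut G} (h : o.Pres Φ)
    (hχ : ∀ g, χ (Φ g) = χ g) {Q : Subfield (MN o)}
    (hQ : ∀ x, x ∈ Q ↔ ∃ q ∈ MN.fin o χ.ker, q ≠ 0 ∧ q * x ∈ MN.fin o χ.ker) {d : MN o}
    (hd : d ∈ Q) : MN.map Φ h d ∈ Q := by
  obtain ⟨q, hq, hq0, hqd⟩ := (hQ d).1 hd
  have h1 := xhypb_map_mem_fin h hχ hq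
  have h2 := xhypb_map_mem_fin h hχ hqd
  rw [map_mul] at h2
  exact (hQ _).2 ⟨_, h1, (map_ne_zero_iff _ (MN.map Φ h).injective).2 hq0, h2⟩

end Transfer

theorem xhypb_c_zeta {n : ℕ} {o₁ o₂ : BiOrd (Fr n)} {N : Subgroup (Fr n)} [N.Normal]
    (h : ∀ g ∈ N, g ∈ o₁.P ↔ g ∈ o₂.P) {p : Fr n} (hp : p ∈ N) (g : Fr n) (i : Fin n) :
    (coef (MN.of o₂) ⊤ 1 i (zeta (MN.of o₂) p g)).c =
      (coef (MN.of o₁) ⊤ 1 i (zeta (MN.of o₁) p g)).c := by
  have hder : ∀ a, (der (MN.of o₂) ⊤ 1 i a).c = (der (MN.of o₁) ⊤ 1 i a).c := fun a => by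
    funext u
    rw [c_der, c_der]
  have hsub : ∀ a, (MN.of o₂ a - 1).c = (MN.of o₁ a - 1).c := fun a => xhypb_c_sub rfl rfl
  rw [xhypb_coef_zeta, xhypb_coef_zeta]
  exact xhypb_c_sub (hder g) (xhypb_c_mul (xhypb_c_mul (hsub g)
    (xhypb_c_inv h (sub_mem (MN.of_mem_sub hp) (one_mem _)) (hsub p))) (hder p))

end Pool.Agent.Lib.MP_9ac97d_al
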