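import Pool.Agent.Lib.MP_9ac97d_al.XHypA
import Pool.Agent.Lib.MP_9ac97d_al.XHull
import Pool.Agent.Lib.MP_9ac97d_al.Stab
import Pool.Agent.Lib.MP_9ac97d_al.Ore
import Pool.Agent.Lib.MP_9ac97d_al.XHypBAux2

/-!
# The hyperbolic step: boundedness is an open condition on the direction (task XHypB)
-/

set_option autoImplicit false

noncomputable section

open Pointwise

namespace Pool.Agent.Lib.MP_9ac97d_al

variable {n : ℕ}

/-- The Fox matrix: the coefficients of the image of a chain are semilinear functions of the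
coefficients of the chain, with a matrix in the group ring. (Modulo `Rel ⊤` a chain `z` is
`∑ coef i z • single (of i) 1`.) -/
theorem coef_chainMap (o : BiOrd (Fr n)) (Φ : MulAut (Fr n)) (h : o.Pres Φ) (z : Fr n →₀ MN o)
    (j : Fin n) :
    coef (MN.of o) ⊤ 1 j (chainMap o Φ h z) =
      ∑ i, MN.map Φ h (coef (MN.of o) ⊤ 1 i z) * der (MN.of o) ⊤ 1 j (Φ (FreeGroup.of i)) := by
  have key : ∀ a, der (MN.of o) ⊤ 1 j (Φ a) =
      ∑ i, MN.map Φ h (der (MN.of o) ⊤ 1 i a) * der (MN.of o) ⊤ 1 j (Φ (FreeGroup.of i)) := by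
    refine xhypb_der_unique ((MN.of o).comp Φ.toMonoidHom) _ _ (fun a b => ?_) (fun a b => ?_)
      fun i' => ?_
    · rw [map_mul, der_mul _ _ _ (Subgroup.mem_top _)]
      rfl
    · rw [Finset.mul_sum, ← Finset.sum_add_distrib]
      refine Finset.sum_congr rfl fun i _ => ?_
      rw [der_mul _ _ _ (Subgroup.mem_top _), map_add, map_mul, MN.map_of, add_mul, mul_assoc]
      rfl
    · rw [Finset.sum_eq_single i']
      · rw [xhypb_der_of, if_pos rfl, map_one, one_mul]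
      · intro i _ hi
        rw [xhypb_der_of, if_neg hi, map_zero, zero_mul]
      · intro hi
        exact absurd (Finset.mem_univ _) hi
  induction z using Finsupp.induction_linear with
  | zero => simp
  | add z z' ih ih' =>
    rw [map_add, map_add, ih, ih', ← Finset.sum_add_distrib]
    refine Finset.sum_congr rfl fun i _ => ?_
    rw [map_add, map_add, add_mul]
  | single a d =>
    rw [chainMap_single]
    unfold coef
    simp only [Finsupp.linearCombination_single, smul_eq_mul, map_mul, mul_assoc]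
    rw [key, Finset.mul_sum]

/-- The action on coefficient vectors. -/
def xhypb_act (o : BiOrd (Fr n)) (ψ : Fr n →* Multiplicative ℝ) {Γ : Subgroup (MulAut (Fr n))}
    (hP : ∀ k : Γ, (o.lex ψ).Pres k) (k : Γ) (v : Fin n → MN (o.lex ψ)) : Fin n → MN (o.lex ψ) :=
  fun j => ∑ i, MN.map k (hP k) (v i) *
    der (MN.of (o.lex ψ)) ⊤ 1 j ((k : MulAut (Fr n)) (FreeGroup.of i))

theorem xhypb_act_cv (o : BiOrd (Fr n)) (ψ : Fr n →* Multiplicative ℝ)
    {Γ : Subgroup (MulAut (Fr n))} (hP : ∀ k : Γ, (o.lex ψ).Pres k) (k : Γ)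
    (z : Fr n →₀ MN (o.lex ψ)) :
    xhypb_act o ψ hP k (fun i => coef (MN.of (o.lex ψ)) ⊤ 1 i z) =
      fun j => coef (MN.of (o.lex ψ)) ⊤ 1 j (chainMap (o.lex ψ) k (hP k) z) :=
  funext fun j => (coef_chainMap (o.lex ψ) k (hP k) z j).symm

/-- The action on coefficient vectors is semilinear and isometric. -/
def xhypb_A (o : BiOrd (Fr n)) (ψ : Fr n →* Multiplicative ℝ) {Γ : Subgroup (MulAut (Fr n))}
    (hP : ∀ k : Γ, (o.lex ψ).Pres k) (hψ : ∀ k ∈ Γ, ∀ g, ψ (k g) = ψ g) :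
    xhypb_Act (MN (o.lex ψ)) Γ n where
  act := xhypb_act o ψ hP
  α k d := MN.map k (hP k) d
  add := fun k v w => by
    funext j
    simp only [xhypb_act, Pi.add_apply, map_add, add_mul, Finset.sum_add_distrib]
  iso := fun k d => MN.norm_map (hP k) (hψ k k.2) d
  smul := fun k d v => by
    funext j
    simp only [xhypb_act, Pi.smul_apply, smul_eq_mul, map_mul, mul_assoc, Finset.mul_sum]
  one := fun v => by
    obtain ⟨z, rfl⟩ := xhypb_cv_surj (MN.of (o.lex ψ)) v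
    rw [xhypb_act_cv]
    funext j
    exact congrArg _ (chainMap_one (o.lex ψ) (hP 1) z)
  mul := fun k k' v => by
    obtain ⟨z, rfl⟩ := xhypb_cv_surj (MN.of (o.lex ψ)) v
    rw [xhypb_act_cv, xhypb_act_cv, xhypb_act_cv]
    funext j
    exact congrArg _ (chainMap_mul (o.lex ψ) k k' (hP k) (hP k') (hP (k * k')) z)

theorem xhypb_A_zeta (o : BiOrd (Fr n)) (ψ : Fr n →* Multiplicative ℝ)
    {Γ : Subgroup (MulAut (Fr n))} (hP : ∀ k : Γ, (o.lex ψ).Pres k)
    (hψ : ∀ k ∈ Γ, ∀ g, ψ (k g) = ψ g) (k : Γ) (p g : Fr n) :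
    (xhypb_A o ψ hP hψ).act k
        (fun i => coef (MN.of (o.lex ψ)) ⊤ 1 i (zeta (MN.of (o.lex ψ)) p g)) =
      fun j => coef (MN.of (o.lex ψ)) ⊤ 1 j
        (zeta (MN.of (o.lex ψ)) ((k : MulAut (Fr n)) p) ((k : MulAut (Fr n)) g)) := by
  refine (xhypb_act_cv o ψ hP k _).trans ?_
  rw [chainMap_zeta]

theorem xhypb_nonAb_smul (k : MulAut (Fr n)) {S : Subgroup (Fr n)} (h : NonAb S) :
    NonAb (k • S) := by
  obtain ⟨a, ha, b, hb, hab⟩ := h
  refine ⟨k a, Subgroup.smul_mem_pointwise_smul _ _ _ ha, k b,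
    Subgroup.smul_mem_pointwise_smul _ _ _ hb, fun hc => hab (k.injective ?_)⟩
  rw [map_mul, map_mul]
  exact hc

/-- One direction. `N` is the kernel of `χ`; `o' = o.lex χ`, `R = MN.fin o' N`, `Q` its subfield of
left fractions (`lOre_fin`, `LOre.exists_subfield`; a normed skew field with the induced norm,
preserved by `MN.map k`). Let `V` be the `Q`-space of `x : Fin n → Q` with
`∑ x i * (of (of i) - 1) = 0`; `k ∈ Γ` acts by `x ↦ (∑ i, k (x i) * der j (k (of i)))_j`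
(`coef_chainMap`). The vectors `z i = coef (zeta p (of i))` span (`x = ∑ x i • z i`), have entries in
`R`, and have bounded orbits, so `N x = sup over k of ‖k x‖` is an invariant ultrametric norm.
`gen_fg` for a finite symmetric generating set of `Γ` gives finitely many `w`, which may be replaced
by finitely many orbit vectors `k z i`, with relations `s w a = ∑ c a b • w b`, `‖c a b‖ ≤ 1`. Clear
denominators (`LOre.common`): `q • s w a = ∑ p a b • w b` with `‖p a b‖ ≤ ‖q‖`. Let `g₀` be the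
minimum of the support of `q`; each of the finitely many cosets `u N` met by the support of `p a b`
has `χ u > χ g₀` or `u N = g₀ N`, so `(χ + η θ) u ≥ (χ + η θ) g₀` for small `η > 0`. Transfer the
relations (`MN.transfer`) to the field of `o'.lex (χ + η θ)`: the set of combinations of the `w b`
with coefficients of norm at most one is invariant under `Γ`, so the orbits of the `z i`, and of
`coef (zeta p g)`, are bounded there. Conclude with `height_ge`. -/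
theorem height_ge_perturb (o : BiOrd (Fr n)) (χ θ : Fr n →* Multiplicative ℝ)
    (hθ : ∀ g, χ g = 1 → θ g = 1) {Γ : Subgroup (MulAut (Fr n))} (hΓ : Γ.FG)
    (ho : ∀ k ∈ Γ, o.Pres k) (hχ : ∀ k ∈ Γ, ∀ g, χ (k g) = χ g)
    (hbd : ∀ S : Subgroup (Fr n), S.FG → S ≤ χ.ker →
      ∃ C : ℝ, ∀ k ∈ Γ, ∀ y ∈ TT (k • S), -C ≤ (χ y).toAdd)
    {B₀ : Subgroup (Fr n)} (hB : B₀ ≤ χ.ker) (hfg : B₀.FG) (hna : NonAb B₀) :
    ∃ η : ℝ, 0 < η ∧ ∀ η', 0 < η' → η' ≤ η → ∃ C : ℝ, ∀ k ∈ Γ, ∀ y ∈ TT (k • B₀),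
      -C ≤ (χ y).toAdd + η' * (θ y).toAdd := by
  have hlcs : (⊤ : Subgroup (Fr n)).lowerCentralSeries 1 ≤ χ.ker := by
    rw [Subgroup.top_lowerCentralSeries_one]
    exact Abelianization.commutator_subset_ker χ
  have hO : LOre (MN.fin (o.lex χ) χ.ker) := lOre_fin _ _ hlcs
  obtain ⟨Q, hQ⟩ := hO.exists_subfield
  have hRQ : ∀ x ∈ MN.fin (o.lex χ) χ.ker, x ∈ Q := fun x hx =>
    (hQ x).2 ⟨1, one_mem _, one_ne_zero, by rwa [one_mul]⟩
  have hofQ : ∀ g, MN.of (o.lex χ) g ∈ Q := fun g => hRQ _ (MN.of_mem_fin _ g)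
  have hderQ : ∀ i a, der (MN.of (o.lex χ)) ⊤ 1 i a ∈ Q := fun i a =>
    xhypb_der_mem _ Q.toSubring hofQ i a
  have hP : ∀ k : Γ, (o.lex χ).Pres k := fun k => MN.pres_lex (ho k k.2) (hχ k k.2)
  have hαQ : ∀ (k : Γ) d, d ∈ Q → MN.map k (hP k) d ∈ Q := fun k d hd =>
    xhypb_map_mem_sub (hP k) (hχ k k.2) hQ hd
  obtain ⟨S, hgen, hS⟩ := Monoid.fg_iff.1
    (Group.fg_iff_monoid_fg.1 ((Group.fg_iff_subgroup_fg Γ).2 hΓ))
  obtain ⟨T₀, hT₀⟩ := hfg
  have hT₀B : ∀ t : T₀, (t : Fr n) ∈ B₀ := fun t => hT₀ ▸ Subgroup.subset_closure t.2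
  obtain ⟨p, hp, hp1⟩ : ∃ p ∈ B₀, p ≠ 1 := by
    obtain ⟨a, ha, b, -, hab⟩ := hna
    exact ⟨a, ha, fun h => hab (h ▸ Commute.one_left b)⟩
  have hkp1 : ∀ k : MulAut (Fr n), k p ≠ 1 := fun k h =>
    hp1 (k.injective (h.trans (map_one k).symm))
  have hmem : ∀ (k : MulAut (Fr n)), ∀ g ∈ B₀, k g ∈ k • B₀ := fun k g hg =>
    Subgroup.smul_mem_pointwise_smul _ _ _ hg
  obtain ⟨C₀, hC₀⟩ := hbd B₀ ⟨T₀, hT₀⟩ hB
  obtain ⟨I, hI⟩ := xhypb_fin_orbit_sub (xhypb_A o χ hP hχ) Q hαQ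
    (fun k v hv j => by
      show ∑ i, MN.map k (hP k) (v i) *
        der (MN.of (o.lex χ)) ⊤ 1 j ((k : MulAut (Fr n)) (FreeGroup.of i)) ∈ Q
      exact Q.sum_mem fun i _ => Q.mul_mem (hαQ k _ (hv i)) (hderQ _ _)) hS hgen
    (T := T₀) (fun t i => coef (MN.of (o.lex χ)) ⊤ 1 i (zeta (MN.of (o.lex χ)) p t))
    (fun t i => by
      rw [xhypb_coef_zeta]
      exact sub_mem (hderQ _ _) (mul_mem (mul_mem (sub_mem (hofQ _) (one_mem _))
        (inv_mem (sub_mem (hofQ _) (one_mem _)))) (hderQ _ _)))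
    (fun t => ⟨Real.exp C₀, fun k => by
      rw [xhypb_A_zeta]
      refine (pi_norm_le_iff_of_nonneg (Real.exp_pos _).le).2 fun j => ?_
      refine norm_coef_le o χ (hC₀ k k.2) (zeta_mem_zz _ (hmem k p hp) (fun h => ?_)
        (hmem k t (hT₀B t))) (coefIn_zeta _ (hmem k p hp) (hmem k t (hT₀B t))) j
      exact hkp1 k (MN.of_injective (h.trans (map_one _).symm))⟩)
  have hev : ∀ a : Γ × T₀, ∀ᶠ η in nhds (0 : ℝ),
      ∀ (w' : Γ × T₀ → Fin n → MN (o.lex (xhypb_psi χ θ η))), (∀ b i, (w' b i).c =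
        (coef (MN.of (o.lex χ)) ⊤ 1 i (zeta (MN.of (o.lex χ)) ((b.1 : MulAut (Fr n)) p)
          ((b.1 : MulAut (Fr n)) b.2))).c) →
      Gen (MN (o.lex (xhypb_psi χ θ η))) ∅ (w' '' I) (w' a) := by
    intro a
    obtain ⟨c, hc, hca⟩ := hI a
    simp only [xhypb_A_zeta] at hca
    refine (xhypb_transfer_rel o hθ hO I _ _ c (fun b => ⟨(hQ _).1 (hc b).1, (hc b).2⟩) hca).mono
      fun η hη w' hw' => hη w' (w' a) hw' (hw' a)
  have hev1 := (Filter.eventually_all (ι := T₀)).2 fun t => hev (1, t)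
  have hev2 := (Filter.eventually_all_finite hS).2 fun s _ =>
    (Filter.eventually_all_finset I).2 fun b _ => hev (s * b.1, b.2)
  obtain ⟨ε, hε, hε'⟩ := Metric.eventually_nhds_iff.1 (hev1.and hev2)
  refine ⟨ε / 2, half_pos hε, fun η hη hη' => ?_⟩
  obtain ⟨h1, h2⟩ := hε' (y := η) (by
    rw [Real.dist_eq, sub_zero, abs_of_pos hη]
    linarith)
  have hψ : ∀ k ∈ Γ, ∀ g, xhypb_psi χ θ η (k g) = xhypb_psi χ θ η g := fun k hk g =>
    Multiplicative.toAdd.injective (by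
      rw [xhypb_psi_apply, xhypb_psi_apply, hχ k hk g, xhypb_theta_eq hθ (hχ k hk g)])
  have hψ1 : ∀ g ∈ χ.ker, xhypb_psi χ θ η g = 1 := fun g hg =>
    Multiplicative.toAdd.injective (by
      have h3 : χ g = 1 := hg
      rw [xhypb_psi_apply, h3, hθ g h3]
      simp)
  have hP' : ∀ k : Γ, (o.lex (xhypb_psi χ θ η)).Pres k := fun k =>
    MN.pres_lex (ho k k.2) (hψ k k.2)
  have hw' : ∀ (b : Γ × T₀) i, ((xhypb_A o _ hP' hψ).act b.1 (fun i =>
      coef (MN.of (o.lex (xhypb_psi χ θ η))) ⊤ 1 i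
        (zeta (MN.of (o.lex (xhypb_psi χ θ η))) p b.2)) i).c =
      (coef (MN.of (o.lex χ)) ⊤ 1 i (zeta (MN.of (o.lex χ)) ((b.1 : MulAut (Fr n)) p)
          ((b.1 : MulAut (Fr n)) b.2))).c := by
    intro b i
    rw [xhypb_A_zeta]
    refine xhypb_c_zeta (xhypb_agree o hθ η) ?_ _ i
    show χ _ = 1
    rw [hχ _ b.1.2]
    exact hB hp
  obtain ⟨C, hC⟩ := xhypb_bdd_of_rel (xhypb_A o _ hP' hψ) hgen
    (fun (t : T₀) i => coef (MN.of (o.lex (xhypb_psi χ θ η))) ⊤ 1 i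
        (zeta (MN.of (o.lex (xhypb_psi χ θ η))) p t)) I
    (fun t => by
      have h3 := h1 t _ hw'
      rwa [(xhypb_A o _ hP' hψ).one] at h3)
    (fun s hs b hb => h2 s hs b hb _ hw')
  refine ⟨C + ∑ i, |(xhypb_psi χ θ η (FreeGroup.of i)).toAdd|, fun k hk y hy => ?_⟩
  have h4 := height_ge o (xhypb_psi χ θ η) (xhypb_nonAb_smul k hna)
    (fun s hs => by
      obtain ⟨s', hs', rfl⟩ := Subgroup.mem_smul_pointwise_iff_exists _ _ _ |>.1 hs
      exact (hψ k hk s').trans (hψ1 s' (hB hs')))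
    (T := k • (T₀ : Set (Fr n))) (by rw [← hT₀, Subgroup.smul_closure]) (hmem k p hp) (hkp1 k)
    (t := C)
    (by
      rintro _ ⟨g, hg, rfl⟩ i
      have h5 := hC ⟨k, hk⟩ ⟨g, hg⟩
      rw [xhypb_A_zeta] at h5
      refine ((norm_le_pi_norm _ i).trans h5).trans ?_
      linarith [Real.add_one_le_exp C]) hy
  rw [xhypb_psi_apply] at h4
  linarith

/-- The character `chr v` as a homomorphism. -/
def xhypb_chr (v : Fin n → ℂ) : Fr n →* Multiplicative ℂ :=
  MonoidHom.mk' (fun g => Multiplicative.ofAdd (chr v g)) fun a b => by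
    rw [chr_mul, ofAdd_add]

/-- The real character in the direction `c`. -/
def xhypb_re (v : Fin n → ℂ) (c : ℂ) : Fr n →* Multiplicative ℝ :=
  MonoidHom.mk' (fun g => Multiplicative.ofAdd (c * chr v g).re) fun a b => by
    rw [chr_mul, mul_add, Complex.add_re, ofAdd_add]

theorem xhypb_re_apply (v : Fin n → ℂ) (c : ℂ) (g : Fr n) :
    (xhypb_re v c g).toAdd = (c * chr v g).re := rfl

theorem xhypb_exists_dir (v : Fin n → ℂ) :
    ∃ c : ℂ, ∀ g, (c * chr v g).re = 0 → chr v g = 0 := by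
  have hc : (Set.range fun g : Fr n => (chr v g).re / (chr v g).im).Countable :=
    Set.countable_range _
  obtain ⟨t, ht⟩ : ∃ t : ℝ, t ∉ Set.range fun g : Fr n => (chr v g).re / (chr v g).im := by
    by_contra h
    push Not at h
    exact Cardinal.not_countable_real (hc.mono fun t _ => h t)
  refine ⟨⟨1, t⟩, fun g hg => ?_⟩
  rw [Complex.mul_re] at hg
  by_cases him : (chr v g).im = 0
  · rw [him] at hg
    exact Complex.ext (by simpa using hg) him
  · refine absurd ⟨g, ?_⟩ ht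
    show (chr v g).re / (chr v g).im = t
    rw [div_eq_iff him]
    simpa [sub_eq_zero] using hg

theorem xhypb_hbd (v : Fin n → ℂ) {Γ : Subgroup (MulAut (Fr n))} {C : ℝ}
    (hbd : ∀ k ∈ Γ, HtBd v C k) {c : ℂ} (hc : ∀ g, (c * chr v g).re = 0 → chr v g = 0)
    (S : Subgroup (Fr n)) (hS : S.FG) (hle : S ≤ (xhypb_re v c).ker) :
    ∃ C' : ℝ, ∀ k ∈ Γ, ∀ y ∈ TT (k • S), -C' ≤ (xhypb_re v c y).toAdd := by
  obtain ⟨R, hR⟩ := exists_tt_subset hS
  obtain ⟨M, hM⟩ := ((finite_dball (1 : Fr n) R).image fun y => (xhypb_re v c y).toAdd).bddBelow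
  have h1 : ∀ y ∈ TT S, M ≤ (xhypb_re v c y).toAdd := by
    intro y hy
    obtain ⟨s, hs, hsy⟩ := hR y hy
    have h2 : dd 1 (s⁻¹ * y) ≤ R := by
      rw [← dd_mul_left s, mul_one, mul_inv_cancel_left]
      exact hsy
    have h3 : xhypb_re v c s = 1 := hle hs
    have h4 := hM ⟨s⁻¹ * y, h2, rfl⟩
    simp only [map_mul, map_inv, h3, inv_one, one_mul] at h4
    exact h4
  refine ⟨C * ‖c‖ - M, fun k hk y hy => ?_⟩
  obtain ⟨a', ha', ha1, hy⟩ := hy
  obtain ⟨a, ha, rfl⟩ := Subgroup.mem_smul_pointwise_iff_exists _ _ _ |>.1 ha'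
  have ha1' : a ≠ 1 := fun h => ha1 (by rw [h, smul_one])
  have h5 : xhypb_re v c a = 1 := hle ha
  obtain ⟨y', hy', h6⟩ := hbd k hk a ha1' (hc a (congrArg Multiplicative.toAdd h5)) c y hy
  have h7 := h1 y' ⟨a, ha, ha1', hy'⟩
  rw [xhypb_re_apply] at h7 ⊢
  linarith

theorem xhypb_lower (o : BiOrd (Fr n)) (v : Fin n → ℂ) {Γ : Subgroup (MulAut (Fr n))} (hΓ : Γ.FG)
    (ho : ∀ k ∈ Γ, o.Pres k) (hv : ∀ k ∈ Γ, ∀ g, chr v (k g) = chr v g) {C : ℝ}
    (hbd : ∀ k ∈ Γ, HtBd v C k) {B₀ : Subgroup (Fr n)} (hB : ∀ g ∈ B₀, chr v g = 0)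
    (hfg : B₀.FG) (hna : NonAb B₀) (θ : Fr n →* Multiplicative ℝ)
    (hθ : ∀ g, chr v g = 0 → θ g = 1) :
    ∃ C' : ℝ, ∀ k ∈ Γ, ∀ y ∈ TT (k • B₀), -C' ≤ (θ y).toAdd := by
  obtain ⟨c, hc⟩ := xhypb_exists_dir v
  have key : ∀ c : ℂ, (∀ g, (c * chr v g).re = 0 → chr v g = 0) →
      ∃ η : ℝ, 0 < η ∧ ∀ η', 0 < η' → η' ≤ η → ∃ C : ℝ, ∀ k ∈ Γ, ∀ y ∈ TT (k • B₀),
        -C ≤ (xhypb_re v c y).toAdd + η' * (θ y).toAdd := fun c hc =>
    height_ge_perturb o (xhypb_re v c) θ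
      (fun g hg => hθ g (hc g (congrArg Multiplicative.toAdd hg))) hΓ ho
      (fun k hk g => Multiplicative.toAdd.injective (by
        rw [xhypb_re_apply, xhypb_re_apply, hv k hk]))
      (xhypb_hbd v hbd hc)
      (fun g hg => Multiplicative.toAdd.injective (by
        rw [xhypb_re_apply, hB g hg]
        simp)) hfg hna
  obtain ⟨η₁, hη₁, h₁⟩ := key c hc
  obtain ⟨η₂, hη₂, h₂⟩ := key (-c) fun g hg => hc g (by
    rw [neg_mul, Complex.neg_re] at hg
    exact neg_eq_zero.1 hg)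
  have hη : 0 < min η₁ η₂ := lt_min hη₁ hη₂
  obtain ⟨C₁, hC₁⟩ := h₁ _ hη (min_le_left _ _)
  obtain ⟨C₂, hC₂⟩ := h₂ _ hη (min_le_right _ _)
  refine ⟨(C₁ + C₂) / (2 * min η₁ η₂), fun k hk y hy => ?_⟩
  have h3 := hC₁ k hk y hy
  have h4 := hC₂ k hk y hy
  rw [xhypb_re_apply] at h3 h4
  rw [neg_mul, Complex.neg_re] at h4
  rw [← neg_div, div_le_iff₀ (by positivity)]
  linarith

/-- Choose `c` of norm one such that `χ = re (c * chr v)` has the same kernel `N` as `chr v` (avoid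
countably many directions), and integral characters `θ k` with common kernel `N`
(`exists_lattice_quotient`; the quotient is torsion free). `HtBd` and `exists_tt_subset` give the
hypothesis of `height_ge_perturb` for `χ` and `χ⁻¹`; adding the bounds for `χ + η θ` and
`- χ + η θ` bounds `θ = ± θ k`. Use `exists_strip`. -/
theorem hyp_strip (o : BiOrd (Fr n)) (v : Fin n → ℂ) {Γ : Subgroup (MulAut (Fr n))} (hΓ : Γ.FG)
    (ho : ∀ k ∈ Γ, o.Pres k) (hv : ∀ k ∈ Γ, ∀ g, chr v (k g) = chr v g) {C : ℝ}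
    (hbd : ∀ k ∈ Γ, HtBd v C k) {N : Subgroup (Fr n)} (hN : ∀ g, g ∈ N ↔ chr v g = 0)
    {B₀ : Subgroup (Fr n)} (hB : B₀ ≤ N) (hfg : B₀.FG) (hna : NonAb B₀) :
    ∃ Ω : Set (Fr n), Ω.Finite ∧ ∀ k ∈ Γ, TT (k • B₀) ⊆ (N : Set (Fr n)) * Ω := by
  obtain ⟨d, p, -, hp, hfi⟩ := exists_lattice_quotient (Fr n) N (by
    intro g hg
    have h1 : xhypb_chr v g = 1 := Abelianization.commutator_subset_ker (xhypb_chr v) hg
    exact (hN g).2 (congrArg Multiplicative.toAdd h1))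
  have hker : ∀ g, p g = 1 → g ∈ N := by
    intro g hg
    obtain ⟨m, hm, -, hgm⟩ := Subgroup.exists_pow_mem_of_relIndex_ne_zero
      (H := N) (K := p.ker) hfi.index_ne_zero (a := g) hg
    have h1 : xhypb_chr v (g ^ m) = 1 := congrArg Multiplicative.ofAdd ((hN _).1 hgm.1)
    rw [map_pow] at h1
    have h2 : m • chr v g = 0 := congrArg Multiplicative.toAdd h1
    exact (hN g).2 ((nsmul_eq_zero_iff.1 h2).resolve_right hm.ne')
  let θ : Fin d → Fr n →* Multiplicative ℤ := fun i =>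
    MonoidHom.mk' (fun g => Multiplicative.ofAdd ((p g).toAdd i)) fun a b => by
      rw [map_mul, toAdd_mul, Pi.add_apply, ofAdd_add]
  have hθ : ∀ i g, (θ i g).toAdd = (p g).toAdd i := fun _ _ => rfl
  have hNθ : ∀ g, g ∈ N ↔ ∀ i, θ i g = 1 := by
    intro g
    constructor
    · intro hg i
      have h1 : p g = 1 := hp hg
      refine Multiplicative.toAdd.injective ?_
      rw [hθ, h1]
      rfl
    · intro hg
      refine hker g (Multiplicative.toAdd.injective (funext fun i => ?_))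
      rw [← hθ, hg i]
      rfl
  have hlow : ∀ (i : Fin d) (e : ℝ), ∃ C' : ℝ, ∀ k ∈ Γ, ∀ y ∈ TT (k • B₀),
      -C' ≤ e * ((θ i y).toAdd : ℝ) := fun i e =>
    xhypb_lower o v hΓ ho hv hbd (fun g hg => (hN g).1 (hB hg)) hfg hna
      (MonoidHom.mk' (fun g => Multiplicative.ofAdd (e * ((θ i g).toAdd : ℝ))) fun a b => by
        rw [(θ i).map_mul, toAdd_mul, Int.cast_add, mul_add, ofAdd_add])
      fun g hg => Multiplicative.toAdd.injective (by
        show e * ((θ i g).toAdd : ℝ) = 0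
        rw [(hNθ g).1 ((hN g).2 hg) i]
        simp)
  choose B hBd using hlow
  obtain ⟨M, hM⟩ := (Set.finite_range fun i : Fin d => max (B i 1) (B i (-1))).bddAbove
  obtain ⟨Ω, hΩ, hΩ'⟩ := exists_strip θ hNθ M
  refine ⟨Ω, hΩ, fun k hk y hy => hΩ' fun i => ?_⟩
  have h1 := hBd i 1 k hk y hy
  have h2 := hBd i (-1) k hk y hy
  have h3 : max (B i 1) (B i (-1)) ≤ M := hM ⟨i, rfl⟩
  have h4 := le_max_left (B i 1) (B i (-1))
  have h5 := le_max_right (B i 1) (B i (-1))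
  rw [abs_le]
  constructor <;> linarith

end Pool.Agent.Lib.MP_9ac97d_al
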