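import Pool.Agent.Lib.MP_9ac97d_al.Stab

/-!
# Bounded orbits: finitely many relations with integral coefficients (task XHypB, part one)
-/

set_option autoImplicit false

noncomputable section

namespace Pool.Agent.Lib.MP_9ac97d_al

section GenLemmas

variable {D V : Type} [NormedDivisionRing D] [AddCommGroup V] [Module D V]

theorem xhypb_gen_trans {T : Set (V → V)} {Z W : Set V} (h : ∀ w ∈ W, Gen D T Z w) {v : V}
    (hv : Gen D ∅ W v) : Gen D T Z v := by
  induction hv with
  | base z hz => exact h z hz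
  | zero => exact Gen.zero
  | add v w _ _ ih ih' => exact Gen.add _ _ ih ih'
  | smul d v hd _ ih => exact Gen.smul _ _ hd ih
  | map f hf => exact absurd hf (Set.notMem_empty f)

theorem xhypb_gen_map {T : Set (V → V)} {Z W : Set V} {f : V → V}
    (hadd : ∀ v w, f (v + w) = f v + f w) {α : D → D} (hα : ∀ d, ‖α d‖ = ‖d‖)
    (hs : ∀ (d : D) v, f (d • v) = α d • f v) (h : ∀ w ∈ W, Gen D T Z (f w)) {v : V}
    (hv : Gen D ∅ W v) : Gen D T Z (f v) := by
  induction hv with
  | base z hz => exact h z hz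
  | zero =>
    have h0 : f 0 = 0 := by
      have h1 := hadd 0 0
      rw [add_zero] at h1
      exact left_eq_add.1 h1
    rw [h0]
    exact Gen.zero
  | add v w _ _ ih ih' => rw [hadd]; exact Gen.add _ _ ih ih'
  | smul d v hd _ ih => rw [hs]; exact Gen.smul _ _ (by rw [hα]; exact hd) ih
  | map f hf => exact absurd hf (Set.notMem_empty f)

theorem xhypb_gen_coef [IsUltrametricDist D] {ι : Type} (w : ι → V) {I : Set ι} {v : V}
    (hv : Gen D ∅ (w '' I) v) :
    ∃ c : ι →₀ D, (c.support : Set ι) ⊆ I ∧ (∀ b, ‖c b‖ ≤ 1) ∧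
      v = Finsupp.linearCombination D w c := by
  classical
  induction hv with
  | base z hz =>
    obtain ⟨b, hb, rfl⟩ := hz
    refine ⟨Finsupp.single b 1, ?_, fun a => ?_, by simp⟩
    · intro a ha
      have h1 := Finsupp.support_single_subset (Finset.mem_coe.1 ha)
      rw [Finset.mem_singleton] at h1
      rw [h1]
      exact hb
    · rw [Finsupp.single_apply]
      split_ifs <;> simp
  | zero => exact ⟨0, by simp, by simp, by simp⟩
  | add v v' _ _ ih ih' =>
    obtain ⟨c, hc, hc1, rfl⟩ := ih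
    obtain ⟨c', hc', hc1', rfl⟩ := ih'
    refine ⟨c + c', ?_, fun b => ?_, by rw [map_add]⟩
    · intro a ha
      have h1 := Finsupp.support_add (Finset.mem_coe.1 ha)
      rcases Finset.mem_union.1 h1 with h | h
      · exact hc (Finset.mem_coe.2 h)
      · exact hc' (Finset.mem_coe.2 h)
    · rw [Finsupp.add_apply]
      exact (IsUltrametricDist.norm_add_le_max _ _).trans (max_le (hc1 b) (hc1' b))
  | smul d v hd _ ih =>
    obtain ⟨c, hc, hc1, rfl⟩ := ih
    refine ⟨d • c, ?_, fun b => ?_, by rw [map_smul]⟩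
    · intro a ha
      exact hc (Finset.mem_coe.2 (Finsupp.support_smul (Finset.mem_coe.1 ha)))
    · rw [Finsupp.smul_apply, smul_eq_mul, norm_mul]
      exact mul_le_one₀ hd (norm_nonneg _) (hc1 b)
  | map f hf => exact absurd hf (Set.notMem_empty f)

theorem xhypb_gen_sum {ι : Type} (w : ι → V) (I : Finset ι) (c : ι → D) (hc : ∀ b, ‖c b‖ ≤ 1) :
    Gen D ∅ (w '' I) (∑ b ∈ I, c b • w b) := by
  refine Finset.sum_induction _ (Gen D ∅ (w '' I)) (fun a b ha hb => Gen.add _ _ ha hb)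
    Gen.zero fun b hb => ?_
  exact Gen.smul _ _ (hc b) (Gen.base _ ⟨b, Finset.mem_coe.2 hb, rfl⟩)

end GenLemmas

section Orbit

variable {K : Type} [NormedDivisionRing K] [IsUltrametricDist K] {Γ : Type} [Group Γ] {n : ℕ}

/-- A semilinear isometric action on the coordinate space. -/
structure xhypb_Act (K Γ : Type) [NormedDivisionRing K] [Group Γ] (n : ℕ) where
  act : Γ → (Fin n → K) → (Fin n → K)
  α : Γ → K → K
  add : ∀ k v w, act k (v + w) = act k v + act k w
  iso : ∀ k d, ‖α k d‖ = ‖d‖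
  smul : ∀ k (d : K) v, act k (d • v) = α k d • act k v
  one : ∀ v, act 1 v = v
  mul : ∀ k k' v, act (k * k') v = act k (act k' v)

theorem xhypb_gen_norm {W : Set (Fin n → K)} {C : ℝ} (hC : 0 ≤ C) (h : ∀ w ∈ W, ‖w‖ ≤ C)
    {v : Fin n → K} (hv : Gen K ∅ W v) : ‖v‖ ≤ C := by
  induction hv with
  | base z hz => exact h z hz
  | zero => simpa using hC
  | add v w _ _ ih ih' => exact (IsUltrametricDist.norm_add_le_max _ _).trans (max_le ih ih')
  | smul d v hd _ ih =>
    rw [norm_smul]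
    exact (mul_le_of_le_one_left (norm_nonneg _) hd).trans ih
  | map f hf => exact absurd hf (Set.notMem_empty f)

/-- Finitely many integral relations bound the orbits. -/
theorem xhypb_bdd_of_rel (A : xhypb_Act K Γ n) {S : Set Γ} (hgen : Submonoid.closure S = ⊤)
    {T : Type} (z : T → Fin n → K) (I : Finset (Γ × T))
    (h1 : ∀ t, Gen K ∅ ((fun b : Γ × T => A.act b.1 (z b.2)) '' I) (z t))
    (h2 : ∀ s ∈ S, ∀ b ∈ I,
      Gen K ∅ ((fun b : Γ × T => A.act b.1 (z b.2)) '' I) (A.act (s * b.1) (z b.2))) :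
    ∃ C : ℝ, ∀ k t, ‖A.act k (z t)‖ ≤ C := by
  have key : ∀ k t, Gen K ∅ ((fun b : Γ × T => A.act b.1 (z b.2)) '' I) (A.act k (z t)) := by
    intro k t
    induction k using Submonoid.induction_of_closure_eq_top_left hgen with
    | one => rw [A.one]; exact h1 t
    | mul_left s hs k ih =>
      rw [A.mul]
      refine xhypb_gen_map (A.add s) (A.iso s) (A.smul s) ?_ ih
      rintro _ ⟨b, hb, rfl⟩
      rw [← A.mul]
      exact h2 s hs b (Finset.mem_coe.1 hb)
  refine ⟨∑ b ∈ I, ‖A.act b.1 (z b.2)‖, fun k t => ?_⟩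
  refine xhypb_gen_norm (Finset.sum_nonneg fun b _ => norm_nonneg _) ?_ (key k t)
  rintro _ ⟨b, hb, rfl⟩
  exact Finset.single_le_sum (f := fun b : Γ × T => ‖A.act b.1 (z b.2)‖)
    (fun b _ => norm_nonneg _) (Finset.mem_coe.1 hb)

/-- The vectors with bounded orbit. -/
def xhypb_bddSub (A : xhypb_Act K Γ n) : Submodule K (Fin n → K) where
  carrier := {v | ∃ C : ℝ, ∀ k, ‖A.act k v‖ ≤ C}
  add_mem' := by
    rintro v w ⟨C, hC⟩ ⟨C', hC'⟩
    refine ⟨C + C', fun k => ?_⟩
    rw [A.add]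
    exact (norm_add_le _ _).trans (add_le_add (hC k) (hC' k))
  zero_mem' := by
    refine ⟨0, fun k => ?_⟩
    have h1 := A.add k 0 0
    rw [add_zero] at h1
    rw [left_eq_add.1 h1, norm_zero]
  smul_mem' := by
    rintro d v ⟨C, hC⟩
    refine ⟨‖d‖ * C, fun k => ?_⟩
    rw [A.smul, norm_smul, A.iso]
    exact mul_le_mul_of_nonneg_left (hC k) (norm_nonneg _)

/-- The action on the vectors with bounded orbit. -/
def xhypb_actV (A : xhypb_Act K Γ n) (k : Γ) (v : xhypb_bddSub A) : xhypb_bddSub A :=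
  ⟨A.act k v, by
    obtain ⟨C, hC⟩ := v.2
    exact ⟨C, fun k' => by rw [← A.mul]; exact hC _⟩⟩

/-- The invariant norm. -/
def xhypb_N (A : xhypb_Act K Γ n) (v : xhypb_bddSub A) : ℝ := ⨆ k : Γ, ‖A.act k v‖

omit [IsUltrametricDist K] in
theorem xhypb_le_N (A : xhypb_Act K Γ n) (v : xhypb_bddSub A) (k : Γ) :
    ‖A.act k v‖ ≤ xhypb_N A v := by
  obtain ⟨C, hC⟩ := v.2
  refine le_ciSup (f := fun k : Γ => ‖A.act k v‖) ⟨C, ?_⟩ k
  rintro _ ⟨k', rfl⟩
  exact hC k'

theorem xhypb_N_ultra (A : xhypb_Act K Γ n) (v w : xhypb_bddSub A) :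
    xhypb_N A (v + w) ≤ max (xhypb_N A v) (xhypb_N A w) := by
  refine ciSup_le fun k => ?_
  rw [Submodule.coe_add, A.add]
  exact (IsUltrametricDist.norm_add_le_max _ _).trans
    (max_le_max (xhypb_le_N A v k) (xhypb_le_N A w k))

omit [IsUltrametricDist K] in
theorem xhypb_isNorm (A : xhypb_Act K Γ n) : IsNorm K (xhypb_N A) where
  add := fun v w => by
    refine ciSup_le fun k => ?_
    rw [Submodule.coe_add, A.add]
    exact (norm_add_le _ _).trans (add_le_add (xhypb_le_N A v k) (xhypb_le_N A w k))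
  smul := fun d v => by
    unfold xhypb_N
    rw [Real.mul_iSup_of_nonneg (norm_nonneg d)]
    refine iSup_congr fun k => ?_
    rw [Submodule.coe_smul, A.smul, norm_smul, A.iso]
  bdd := fun f => by
    classical
    obtain ⟨g, hg⟩ := f.exists_extend
    refine ⟨∑ i, ‖g (Pi.single i 1)‖, fun v => ?_⟩
    have h1 : f v = g v := by rw [← hg]; rfl
    have h2 : (v : Fin n → K) = ∑ i, (v : Fin n → K) i • (Pi.single i 1 : Fin n → K) := by
      funext j
      simp [Finset.sum_apply, Pi.single_apply]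
    have h3 : ‖(v : Fin n → K)‖ ≤ xhypb_N A v := by
      have h4 := xhypb_le_N A v 1
      rwa [A.one] at h4
    rw [h1, h2, map_sum, Finset.sum_mul]
    refine (norm_sum_le _ _).trans (Finset.sum_le_sum fun i _ => ?_)
    rw [map_smul, smul_eq_mul, norm_mul, mul_comm]
    exact mul_le_mul_of_nonneg_left ((norm_le_pi_norm _ i).trans h3) (norm_nonneg _)

/-- Bounded orbits are contained in the integral span of finitely many orbit vectors. -/
theorem xhypb_fin_orbit (A : xhypb_Act K Γ n) {S : Set Γ} (hS : S.Finite)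
    (hgen : Submonoid.closure S = ⊤) {T : Type} [Finite T] (z : T → Fin n → K)
    (hb : ∀ t, ∃ C : ℝ, ∀ k, ‖A.act k (z t)‖ ≤ C) :
    ∃ I : Finset (Γ × T), ∀ a : Γ × T, ∃ c : Γ × T → K, (∀ b, ‖c b‖ ≤ 1) ∧
      A.act a.1 (z a.2) = ∑ b ∈ I, c b • A.act b.1 (z b.2) := by
  classical
  let zV : T → xhypb_bddSub A := fun t => ⟨z t, hb t⟩
  let wV : Γ × T → xhypb_bddSub A := fun b => xhypb_actV A b.1 (zV b.2)
  have hadd : ∀ k v w, xhypb_actV A k (v + w) = xhypb_actV A k v + xhypb_actV A k w :=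
    fun k v w => Subtype.ext (A.add k v w)
  have hsm : ∀ k (d : K) v, xhypb_actV A k (d • v) = A.α k d • xhypb_actV A k v :=
    fun k d v => Subtype.ext (A.smul k d v)
  have hmul : ∀ k k' v, xhypb_actV A (k * k') v = xhypb_actV A k (xhypb_actV A k' v) :=
    fun k k' v => Subtype.ext (A.mul k k' v)
  have hone : ∀ v, xhypb_actV A 1 v = v := fun v => Subtype.ext (A.one v)
  obtain ⟨W, hW, hW1, hW2⟩ := gen_fg (xhypb_isNorm A) (xhypb_N_ultra A)
    (T := xhypb_actV A '' S) (hS.image _)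
    (by rintro _ ⟨s, -, rfl⟩; exact hadd s)
    (by rintro _ ⟨s, -, rfl⟩; exact ⟨A.α s, A.iso s, hsm s⟩)
    (by
      rintro _ ⟨s, -, rfl⟩ v
      refine ciSup_le fun k => ?_
      have h1 := xhypb_le_N A v (k * s)
      rwa [A.mul] at h1)
    (Z := Set.range zV) (Set.finite_range zV)
  have horb : ∀ a : Γ × T, Gen K (xhypb_actV A '' S) (Set.range zV) (wV a) := by
    rintro ⟨k, t⟩
    induction k using Submonoid.induction_of_closure_eq_top_left hgen with
    | one =>
      have h1 : wV (1, t) = zV t := hone _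
      rw [h1]
      exact Gen.base _ ⟨t, rfl⟩
    | mul_left s hs k ih =>
      have h1 : wV (s * k, t) = xhypb_actV A s (wV (k, t)) := hmul _ _ _
      rw [h1]
      exact Gen.map _ (Set.mem_image_of_mem _ hs) _ ih
  have hback : ∀ v, Gen K (xhypb_actV A '' S) (Set.range zV) v → Gen K ∅ (wV '' Set.univ) v := by
    intro v hv
    induction hv with
    | base y hy =>
      obtain ⟨t, rfl⟩ := hy
      exact Gen.base _ ⟨(1, t), Set.mem_univ _, hone _⟩
    | zero => exact Gen.zero
    | add v w _ _ ih ih' => exact Gen.add _ _ ih ih'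
    | smul d v hd _ ih => exact Gen.smul _ _ hd ih
    | map f hf v _ ih =>
      obtain ⟨s, -, rfl⟩ := hf
      refine xhypb_gen_map (hadd s) (A.iso s) (hsm s) ?_ ih
      rintro _ ⟨b, -, rfl⟩
      exact Gen.base _ ⟨(s * b.1, b.2), Set.mem_univ _, hmul _ _ _⟩
  have hc : ∀ w : W, ∃ c : Γ × T →₀ K, (∀ b, ‖c b‖ ≤ 1) ∧
      (w : xhypb_bddSub A) = Finsupp.linearCombination K wV c := fun w => by
    obtain ⟨c, -, hc⟩ := xhypb_gen_coef wV (hback _ (hW1 w w.2))
    exact ⟨c, hc⟩
  choose c hc1 hc2 using hc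
  have : Finite W := hW
  have : Fintype W := Fintype.ofFinite W
  refine ⟨Finset.univ.biUnion fun w : W => (c w).support, fun a => ?_⟩
  set I : Finset (Γ × T) := Finset.univ.biUnion fun w : W => (c w).support with hI
  have hWI : ∀ w ∈ W, Gen K ∅ (wV '' I) w := by
    intro w hw
    have h1 := hc2 ⟨w, hw⟩
    have h2 : (c ⟨w, hw⟩).support ⊆ I := fun b hb =>
      Finset.mem_biUnion.2 ⟨⟨w, hw⟩, Finset.mem_univ _, hb⟩
    rw [Finsupp.linearCombination_apply, Finsupp.sum_of_support_subset _ h2 _ (by simp)] at h1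
    have h3 := xhypb_gen_sum wV I (c ⟨w, hw⟩) (hc1 _)
    rw [← h1] at h3
    exact h3
  obtain ⟨d, hd, hd1, hd2⟩ := xhypb_gen_coef wV (xhypb_gen_trans hWI (hW2 _ (horb a)))
  refine ⟨d, hd1, ?_⟩
  rw [Finsupp.linearCombination_apply,
    Finsupp.sum_of_support_subset _ (Finset.coe_subset.1 hd) _ (by simp)] at hd2
  have h4 := congrArg (Submodule.subtype _) hd2
  rw [map_sum] at h4
  exact h4

end Orbit

section Sub

variable {D : Type} [NormedDivisionRing D] [IsUltrametricDist D] {Γ : Type} [Group Γ] {n : ℕ}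

/-- The version with coefficients in an invariant subfield. -/
theorem xhypb_fin_orbit_sub (A : xhypb_Act D Γ n) (Q : Subfield D)
    (hα : ∀ k d, d ∈ Q → A.α k d ∈ Q)
    (hact : ∀ k (v : Fin n → D), (∀ i, v i ∈ Q) → ∀ i, A.act k v i ∈ Q)
    {S : Set Γ} (hS : S.Finite)
    (hgen : Submonoid.closure S = ⊤) {T : Type} [Finite T] (z : T → Fin n → D)
    (hz : ∀ t i, z t i ∈ Q) (hb : ∀ t, ∃ C : ℝ, ∀ k, ‖A.act k (z t)‖ ≤ C) :
    ∃ I : Finset (Γ × T), ∀ a : Γ × T, ∃ c : Γ × T → D, (∀ b, c b ∈ Q ∧ ‖c b‖ ≤ 1) ∧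
      A.act a.1 (z a.2) = ∑ b ∈ I, c b • A.act b.1 (z b.2) := by
  let inst : NormedDivisionRing Q := NormedDivisionRing.induced Q D Q.subtype Subtype.val_injective
  let up : (Fin n → Q) → Fin n → D := fun v i => v i
  have hup : ∀ v w, up v = up w → v = w := fun v w h =>
    funext fun i => Subtype.ext (congrFun h i)
  let actQ : Γ → (Fin n → Q) → Fin n → Q := fun k v i =>
    ⟨A.act k (up v) i, hact k _ (fun j => (v j).2) i⟩
  have hup_act : ∀ k v, up (actQ k v) = A.act k (up v) := fun _ _ => rfl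
  let B : xhypb_Act Q Γ n :=
    { act := actQ
      α := fun k d => ⟨A.α k d, hα k d d.2⟩
      add := fun k v w => hup _ _ (A.add k (up v) (up w))
      iso := fun k d => A.iso k d
      smul := fun k d v => hup _ _ (A.smul k d (up v))
      one := fun v => hup _ _ (A.one (up v))
      mul := fun k k' v => hup _ _ (A.mul k k' (up v)) }
  let zQ : T → Fin n → Q := fun t i => ⟨z t i, hz t i⟩
  obtain ⟨I, hI⟩ := @xhypb_fin_orbit Q inst
      ⟨fun x y z => IsUltrametricDist.dist_triangle_max (x : D) y z⟩ Γ _ n B S hS hgen T _ zQ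
      fun t => by
    obtain ⟨C, hC⟩ := hb t
    refine ⟨C, fun k => ?_⟩
    have h0 : 0 ≤ C := (norm_nonneg _).trans (hC k)
    refine (pi_norm_le_iff_of_nonneg h0).2 fun i => ?_
    exact (norm_le_pi_norm (A.act k (z t)) i).trans (hC k)
  refine ⟨I, fun a => ?_⟩
  obtain ⟨c, hc1, hc2⟩ := hI a
  refine ⟨fun b => c b, fun b => ⟨(c b).2, hc1 b⟩, ?_⟩
  funext i
  have h1 := congrArg Q.subtype (congrFun hc2 i)
  rw [Finset.sum_apply, map_sum] at h1
  rw [Finset.sum_apply]
  exact h1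

end Sub

end Pool.Agent.Lib.MP_9ac97d_al
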