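import Pool.Agent.Lib.MP_9ac97d_al.XHull
import Pool.Agent.Lib.MP_9ac97d_al.MClimb

/-!
# The periodic system (task XPer)
-/

set_option autoImplicit false
set_option linter.unusedSectionVars false

noncomputable section

open Pointwise

namespace Pool.Agent.Lib.MP_9ac97d_al

section Aux

variable {G : Type} [Group G]

theorem xper_mem_smul {Φ : MulAut G} {S : Subgroup G} {x : G} : x ∈ Φ • S ↔ Φ⁻¹ x ∈ S :=
  Subgroup.mem_pointwise_smul_iff_inv_smul_mem

theorem xper_mem_normalizer {S : Subgroup G} {g : G} :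
    g ∈ Subgroup.normalizer (S : Set G) ↔ MulAut.conj g • S = S :=
  Subgroup.mem_normalizer_iff_map_conj_eq

theorem xper_smul_normalizer (Φ : MulAut G) (S : Subgroup G) :
    Φ • Subgroup.normalizer (S : Set G) = Subgroup.normalizer ((Φ • S : Subgroup G) : Set G) := by
  ext g
  rw [xper_mem_smul, xper_mem_normalizer, xper_mem_normalizer]
  have e : MulAut.conj g * Φ = Φ * MulAut.conj (Φ⁻¹ g) := by
    ext x
    simp
  rw [← mul_smul, e, mul_smul, smul_left_cancel_iff]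

theorem xper_nonAb_mono {S T : Subgroup G} (h : NonAb S) (hST : S ≤ T) : NonAb T := by
  obtain ⟨a, ha, b, hb, hab⟩ := h
  exact ⟨a, hST ha, b, hST hb, hab⟩

theorem xper_exists_ne_one {S : Subgroup G} (h : NonAb S) : ∃ x ∈ S, x ≠ 1 := by
  obtain ⟨a, ha, b, _, hab⟩ := h
  refine ⟨a, ha, fun e => hab ?_⟩
  rw [e]
  exact Commute.one_left b

theorem xper_ne_bot {S : Subgroup G} {x : G} (hx : x ∈ S) (h1 : x ≠ 1) : S ≠ ⊥ := fun e =>
  h1 (Subgroup.mem_bot.1 (e ▸ hx))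

theorem xper_nonAb_ne_bot {S T : Subgroup G} (h : NonAb S) (hST : S ≤ T) : T ≠ ⊥ := by
  obtain ⟨x, hx, h1⟩ := xper_exists_ne_one h
  exact xper_ne_bot (hST hx) h1

theorem xper_nonAb_smul (Φ : MulAut G) {S : Subgroup G} (h : NonAb S) : NonAb (Φ • S) := by
  obtain ⟨a, ha, b, hb, hab⟩ := h
  refine ⟨Φ a, Subgroup.smul_mem_pointwise_smul _ _ _ ha, Φ b,
    Subgroup.smul_mem_pointwise_smul _ _ _ hb, fun c => hab ?_⟩
  apply Φ.injective
  simpa using c.eq

theorem xper_fg_smul (Φ : MulAut G) {S : Subgroup G} (h : S.FG) : (Φ • S).FG := by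
  classical
  obtain ⟨T, rfl⟩ := h
  refine ⟨T.image Φ, ?_⟩
  rw [Finset.coe_image, Subgroup.smul_closure]
  rfl

theorem xper_smul_mono (Φ : MulAut G) {S T : Subgroup G} (h : S ≤ T) : Φ • S ≤ Φ • T :=
  Subgroup.pointwise_smul_le_pointwise_smul_iff.2 h

theorem xper_conj_normal (N : Subgroup G) [h : N.Normal] (g : G) : MulAut.conj g • N = N :=
  xper_mem_normalizer.1 (by rw [Subgroup.normalizer_eq_top]; trivial)

/-- Conjugacy under `L`. -/
def xperRel (L : Subgroup G) (S T : Subgroup G) : Prop := ∃ g ∈ L, MulAut.conj g • S = T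

theorem xperRel_equiv (L : Subgroup G) : Equivalence (xperRel L) where
  refl S := ⟨1, L.one_mem, by simp⟩
  symm := by
    rintro S T ⟨g, hg, rfl⟩
    exact ⟨g⁻¹, L.inv_mem hg, by rw [← mul_smul, ← map_mul, inv_mul_cancel, map_one, one_smul]⟩
  trans := by
    rintro S T U ⟨g, hg, rfl⟩ ⟨g', hg', rfl⟩
    exact ⟨g' * g, L.mul_mem hg' hg, by rw [map_mul, mul_smul]⟩

theorem xper_mem_zz {D : Type} [DivisionRing D] (ι : G →* D) {S T : Subgroup G} {z : G →₀ D}
    (hz : z ∈ ZZ ι S) (hT : (z.support : Set G) ⊆ T) : z ∈ ZZ ι T :=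
  ⟨(Finsupp.mem_supported D z).2 hT, hz.2⟩

theorem xper_support {D : Type} [DivisionRing D] (ι : G →* D) {S : Subgroup G} {z : G →₀ D}
    (hz : z ∈ ZZ ι S) : (z.support : Set G) ⊆ S :=
  (Finsupp.mem_supported D z).1 hz.1

end Aux

/-- The sum over one conjugacy class of carriers is a relation. -/
theorem xper_class_sum {n : ℕ} {N : Subgroup (Fr n)} {QQ : Set (Subgroup (Fr n))}
    (hQQ : GoodSys N QQ) {F : Type} [DivisionRing F] (ι : Fr n →* F) {κ : Type} [Fintype κ]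
    (Q : κ → Subgroup (Fr n)) (hQ : ∀ k, Q k ∈ QQ) (z : κ → (Fr n →₀ F))
    (hz : ∀ k, z k ∈ ZZ ι (Q k)) (hs : ∑ k, z k ∈ Rel ι N) (j : κ)
    [DecidablePred fun k => xperRel N (Q k) (Q j)] :
    ∑ k : {k // xperRel N (Q k) (Q j)}, z k ∈ Rel ι N := by
  classical
  let r : Setoid κ := ⟨fun k k' => xperRel N (Q k) (Q k'),
    ⟨fun _ => (xperRel_equiv N).refl _, fun h => (xperRel_equiv N).symm h,
      fun h h' => (xperRel_equiv N).trans h h'⟩⟩
  have ex : ∀ k, xperRel N (Q k) (Q (Quotient.mk r k).out) := fun k =>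
    (xperRel_equiv N).symm (Quotient.mk_out (s := r) k)
  choose g hg hgQ using ex
  have hzN : ∀ k, z k ∈ ZZ ι N := fun k => zz_mono ι (hQQ.le _ (hQ k)) (hz k)
  have key := hQQ.ind N le_rfl F ι (Quotient r) (fun c => Q c.out) (fun c => hQ _)
    (fun c c' l hl e => by
      rw [← Quotient.out_eq c, ← Quotient.out_eq c']
      exact Quotient.sound (s := r) ⟨l, hl, e⟩)
    (fun c => ∑ k ∈ Finset.univ.filter (fun k => Quotient.mk r k = c), tau ι (g k) (z k))
    (fun c => Submodule.sum_mem _ fun k hk => by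
      have e : Quotient.mk r k = c := (Finset.mem_filter.1 hk).2
      change tau ι (g k) (z k) ∈ ZZ ι (Q c.out ⊓ N)
      rw [inf_of_le_left (hQQ.le _ (hQ _)), ← e, ← hgQ k, tau_mem_zz]
      exact hz k)
    (by
      rw [Finset.sum_fiberwise]
      have e : ∑ k, tau ι (g k) (z k) = ∑ k, (tau ι (g k) (z k) - z k) + ∑ k, z k := by
        rw [Finset.sum_sub_distrib, sub_add_cancel]
      rw [e]
      exact Submodule.add_mem _
        (Submodule.sum_mem _ fun k _ => tau_sub_mem_rel ι (hg k) (hzN k)) hs)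
    (Quotient.mk r j)
  have k2 := rel_mono ι (inf_le_right : Q (Quotient.mk r j).out ⊓ N ≤ N) key
  have e1 : ∑ k : {k // xperRel N (Q k) (Q j)}, z k =
      ∑ k ∈ Finset.univ.filter (fun k => Quotient.mk r k = Quotient.mk r j), z k := by
    refine (Finset.sum_subtype _ (fun k => ?_) z).symm
    rw [Finset.mem_filter, Quotient.eq]
    exact ⟨fun h => h.2, fun h => ⟨Finset.mem_univ _, h⟩⟩
  have e2 : ∑ k ∈ Finset.univ.filter (fun k => Quotient.mk r k = Quotient.mk r j), z k =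
      ∑ k ∈ Finset.univ.filter (fun k => Quotient.mk r k = Quotient.mk r j), tau ι (g k) (z k) -
      ∑ k ∈ Finset.univ.filter (fun k => Quotient.mk r k = Quotient.mk r j),
        (tau ι (g k) (z k) - z k) := by
    rw [Finset.sum_sub_distrib, sub_sub_cancel]
  rw [e1, e2]
  exact Submodule.sub_mem _ k2 (Submodule.sum_mem _ fun k _ => tau_sub_mem_rel ι (hg k) (hzN k))

namespace Ext

variable {E H : Type} [Group E] [Group H] {n : ℕ} (X : Ext E H n)

/-- Finitely generated nonabelian periodic subgroups of `N`. -/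
def PerIn (N D : Subgroup (Fr n)) : Prop := D ≤ N ∧ D.FG ∧ NonAb D ∧ X.Per D

/-- The union of the periodic subgroups of `N` that contain `D`. -/
def cls (N D : Subgroup (Fr n)) : Subgroup (Fr n) := sSup {P | X.PerIn N P ∧ D ≤ P}

variable {N : Subgroup (Fr n)} [N.Normal]

/-- Two periodic subgroups that meet lie in a periodic subgroup that is malnormal in `N`
(`exists_per_hull` for the pair, which is linked by `GoodSys.eq_of_inf`). -/
theorem exists_perIn_sup (hN : X.Inv N) {D D' : Subgroup (Fr n)} (h : X.PerIn N D)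
    (h' : X.PerIn N D') (hne : D ⊓ D' ≠ ⊥) :
    ∃ P, X.PerIn N P ∧ D ≤ P ∧ D' ≤ P ∧ ∀ g ∈ N, P ⊓ MulAut.conj g • P ≠ ⊥ → g ∈ P := by
  have one : ∀ QQ, GoodSys N QQ → ∀ Q : Bool → Subgroup (Fr n),
      (∀ i, Q i ∈ QQ ∧ (fun b => cond b D D') i ≤ Q i) → Q false = Q true := by
    intro QQ hQQ Q hQ
    refine (hQQ.eq_of_inf _ (hQ true).1 _ (hQ false).1 fun e => hne ?_).symm
    exact le_bot_iff.1 (e ▸ inf_le_inf (hQ true).2 (hQ false).2)
  obtain ⟨QQ, hQQ, Q, hQ, hfg, hper⟩ := X.exists_per_hull hN (fun b => cond b D D')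
    (fun b => by cases b; exacts [h', h])
    (fun QQ hQQ Q hQ i j => ⟨1, N.one_mem, by
      have := one QQ hQQ Q hQ
      cases i <;> cases j <;> simp [this]⟩) true
  have e := one QQ hQQ Q hQ
  have hD : D ≤ Q true := (hQ true).2
  refine ⟨Q true, ⟨hQQ.le _ (hQ true).1, hfg, xper_nonAb_mono h.2.2.1 hD, hper⟩, hD,
    e ▸ (hQ false).2, fun g hg hne' => ?_⟩
  exact hQQ.mal _ (hQ true).1 (xper_nonAb_ne_bot h.2.2.1 hD) g hg
    (hQQ.eq_of_inf _ (hQ true).1 _ (hQQ.conj _ (hQ true).1 g hg) hne').symm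

theorem xper_sup (hN : X.Inv N) {D P P' : Subgroup (Fr n)} (h : NonAb D) (hP : X.PerIn N P)
    (hP' : X.PerIn N P') (h1 : D ≤ P) (h2 : D ≤ P') : ∃ Q, X.PerIn N Q ∧ P ≤ Q ∧ P' ≤ Q := by
  obtain ⟨Q, a, b, c, -⟩ := X.exists_perIn_sup hN hP hP' (xper_nonAb_ne_bot h (le_inf h1 h2))
  exact ⟨Q, a, b, c⟩

omit [N.Normal] in
theorem xper_le_cls {D P : Subgroup (Fr n)} (hP : X.PerIn N P) (h : D ≤ P) : P ≤ X.cls N D :=
  le_sSup ⟨hP, h⟩

omit [N.Normal] in
theorem xper_cls_le (D : Subgroup (Fr n)) : X.cls N D ≤ N := sSup_le fun _ hP => hP.1.1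

theorem xper_mem_cls (hN : X.Inv N) {D : Subgroup (Fr n)} (h : X.PerIn N D) {x : Fr n}
    (hx : x ∈ X.cls N D) : ∃ P, X.PerIn N P ∧ D ≤ P ∧ x ∈ P := by
  obtain ⟨P, hP, hxP⟩ := (Subgroup.mem_sSup_of_directedOn (K := {P | X.PerIn N P ∧ D ≤ P})
    ⟨D, h, le_rfl⟩ (by
    rintro P ⟨a, b⟩ P' ⟨a', b'⟩
    obtain ⟨Q, q1, q2, q3⟩ := X.xper_sup hN h.2.2.1 a a' b b'
    exact ⟨Q, ⟨q1, b.trans q2⟩, q2, q3⟩)).1 hx
  exact ⟨P, hP.1, hP.2, hxP⟩

theorem exists_perIn_of_finite (hN : X.Inv N) {D : Subgroup (Fr n)} (h : X.PerIn N D)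
    {T : Set (Fr n)} (hT : T.Finite) (hTD : T ⊆ X.cls N D) :
    ∃ P, X.PerIn N P ∧ D ≤ P ∧ T ⊆ P := by
  induction T, hT using Set.Finite.induction_on with
  | empty => exact ⟨D, h, le_rfl, Set.empty_subset _⟩
  | @insert a T _ _ ih =>
    obtain ⟨P, p1, p2, p3⟩ := ih ((Set.subset_insert a T).trans hTD)
    obtain ⟨P', q1, q2, q3⟩ := X.xper_mem_cls hN h (hTD (Set.mem_insert a T))
    obtain ⟨Q, r1, r2, r3⟩ := X.xper_sup hN h.2.2.1 p1 q1 p2 q2
    exact ⟨Q, r1, p2.trans r2, Set.insert_subset (r3 q3) fun x hx => r2 (p3 hx)⟩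

theorem xper_cls_eq (hN : X.Inv N) {D P : Subgroup (Fr n)} (h : NonAb D) (hP : X.PerIn N P)
    (hle : D ≤ P) : X.cls N D = X.cls N P := by
  refine le_antisymm (sSup_le fun Q hQ => ?_) (sSup_le fun Q hQ => ?_)
  · obtain ⟨Q', r1, r2, r3⟩ := X.xper_sup hN h hQ.1 hP hQ.2 hle
    exact r2.trans (X.xper_le_cls r1 r3)
  · exact X.xper_le_cls hQ.1 (hle.trans hQ.2)

theorem cls_eq_of_inf (hN : X.Inv N) {D D' : Subgroup (Fr n)} (h : X.PerIn N D)
    (h' : X.PerIn N D') (hne : X.cls N D ⊓ X.cls N D' ≠ ⊥) : X.cls N D = X.cls N D' := by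
  obtain ⟨⟨x, hx⟩, h1⟩ := Subgroup.ne_bot_iff_exists_ne_one.1 hne
  have h1' : x ≠ 1 := fun e => h1 (Subtype.ext e)
  obtain ⟨P, p1, p2, p3⟩ := X.xper_mem_cls hN h hx.1
  obtain ⟨P', q1, q2, q3⟩ := X.xper_mem_cls hN h' hx.2
  obtain ⟨Q, r1, r2, r3, -⟩ := X.exists_perIn_sup hN p1 q1
    (xper_ne_bot (S := P ⊓ P') ⟨p3, q3⟩ h1')
  rw [X.xper_cls_eq hN h.2.2.1 r1 (p2.trans r2), X.xper_cls_eq hN h'.2.2.1 r1 (q2.trans r3)]

omit [N.Normal] in
theorem xper_perIn_smul (hN : X.Inv N) (e : E) {D : Subgroup (Fr n)} (h : X.PerIn N D) :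
    X.PerIn N (X.ρ e • D) :=
  ⟨(xper_smul_mono _ h.1).trans (hN e).le, xper_fg_smul _ h.2.1, xper_nonAb_smul _ h.2.2.1,
    h.2.2.2.smul e⟩

theorem smul_cls (hN : X.Inv N) (e : E) (D : Subgroup (Fr n)) :
    X.ρ e • X.cls N D = X.cls N (X.ρ e • D) := by
  have key : ∀ (e : E) (D : Subgroup (Fr n)), X.ρ e • X.cls N D ≤ X.cls N (X.ρ e • D) := by
    intro e D
    rw [Subgroup.pointwise_smul_subset_iff]
    refine sSup_le fun P hP => ?_
    rw [← Subgroup.pointwise_smul_subset_iff]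
    exact X.xper_le_cls (X.xper_perIn_smul hN e hP.1) (xper_smul_mono _ hP.2)
  refine le_antisymm (key e D) ?_
  have := xper_smul_mono (X.ρ e) (key e⁻¹ (X.ρ e • D))
  simpa only [map_inv, smul_inv_smul, inv_smul_smul] using this

omit [N.Normal] in
theorem xper_perIn_conj (hN : X.Inv N) (g : Fr n) {D : Subgroup (Fr n)} (h : X.PerIn N D) :
    X.PerIn N (MulAut.conj g • D) := by
  rw [← X.ρ_j]
  exact X.xper_perIn_smul hN _ h

theorem xper_conj_cls (hN : X.Inv N) (g : Fr n) (D : Subgroup (Fr n)) :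
    MulAut.conj g • X.cls N D = X.cls N (MulAut.conj g • D) := by
  rw [← X.ρ_j]
  exact X.smul_cls hN _ D

theorem normalizer_cls_inf (hN : X.Inv N) {D : Subgroup (Fr n)} (h : X.PerIn N D) :
    Subgroup.normalizer (X.cls N D : Set (Fr n)) ⊓ N = X.cls N D := by
  refine le_antisymm (fun g hg => ?_) (le_inf Subgroup.le_normalizer (X.xper_cls_le D))
  obtain ⟨x, hx, h1⟩ := xper_exists_ne_one h.2.2.1
  have hx' : MulAut.conj g x ∈ X.cls N D := by
    rw [← xper_mem_normalizer.1 hg.1]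
    exact Subgroup.smul_mem_pointwise_smul _ _ _ (X.xper_le_cls h le_rfl hx)
  obtain ⟨P, p1, p2, p3⟩ := X.xper_mem_cls hN h hx'
  obtain ⟨Q, q1, q2, -, q3⟩ := X.exists_perIn_sup hN p1 p1
    (xper_nonAb_ne_bot p1.2.2.1 (le_inf le_rfl le_rfl))
  refine X.xper_le_cls q1 (p2.trans q2) (q3 g hg.2 (xper_ne_bot (x := MulAut.conj g x)
    ⟨q2 p3, Subgroup.smul_mem_pointwise_smul _ _ _ (q2 (p2 hx))⟩ fun e => h1 ?_))
  exact (MulAut.conj g).injective (by rw [e, map_one])

theorem xper_ind (hN : X.Inv N) {F : Type} [DivisionRing F] (ι : Fr n →* F) (m : ℕ) :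
    ∀ (κ : Type) [Fintype κ], Fintype.card κ < m → ∀ P : κ → Subgroup (Fr n),
      (∀ i, ∃ D, X.PerIn N D ∧ P i = X.cls N D) → NonConj N P → Ind ι N P := by
  induction m with
  | zero => intro κ _ h; omega
  | succ m ih =>
    intro κ _ hcard P hP hc z hz hs i₀
    classical
    by_contra hi
    have ex : ∀ i, ∃ D, X.PerIn N D ∧ P i = X.cls N D ∧ z i ∈ ZZ ι D := by
      intro i
      obtain ⟨D₀, d1, d2⟩ := hP i
      obtain ⟨D, e1, e2, e3⟩ := X.exists_perIn_of_finite hN d1 (z i).support.finite_toSet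
        (d2 ▸ xper_support ι (hz i))
      exact ⟨D, e1, d2.trans (X.xper_cls_eq hN d1.2.2.1 e1 e2), xper_mem_zz ι (hz i) e3⟩
    choose D hD hPD hzD using ex
    have sub : ∀ (p : κ → Prop) [DecidablePred p], (∃ k, ¬ p k) → ∑ k : {k // p k}, z k ∈ Rel ι N →
        ∀ k, p k → z k ∈ Rel ι (P k) := by
      rintro p _ ⟨k₀, hk₀⟩ hsum k hk
      have hlt := Fintype.card_subtype_lt hk₀
      exact ih {k // p k} (by omega) (fun k => P k) (fun k => hP k)
        (fun a b l hl e => Subtype.ext (hc a b l hl e)) (fun k => z k) (fun k => hz k) hsum ⟨k, hk⟩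
    have hl : Linked N D := by
      intro QQ hQQ Q hQ i j
      by_contra hij
      have s1 := xper_class_sum hQQ ι Q (fun k => (hQ k).1) z
        (fun k => zz_mono ι (hQ k).2 (hzD k)) hs j
      have s2 : ∑ k : {k // ¬ xperRel N (Q k) (Q j)}, z k ∈ Rel ι N := by
        have := Fintype.sum_subtype_add_sum_subtype (fun k => xperRel N (Q k) (Q j)) z
        rw [eq_sub_of_add_eq' this]
        exact Submodule.sub_mem _ hs s1
      by_cases c : xperRel N (Q i₀) (Q j)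
      · exact hi (sub _ ⟨i, hij⟩ s1 i₀ c)
      · exact hi (sub (fun k => ¬ xperRel N (Q k) (Q j))
          ⟨j, not_not.2 ((xperRel_equiv N).refl _)⟩ s2 i₀ c)
    obtain ⟨QQ, hQQ, Q, hQ, hfg, hper⟩ := X.exists_per_hull hN D hD hl i₀
    have hQ0 : X.PerIn N (Q i₀) :=
      ⟨hQQ.le _ (hQ i₀).1, hfg, xper_nonAb_mono (hD i₀).2.2.1 (hQ i₀).2, hper⟩
    have uniq : ∀ j, j = i₀ := by
      intro j
      obtain ⟨g, hg, e⟩ := hl QQ hQQ Q hQ j i₀
      refine hc j i₀ g hg ?_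
      rw [hPD j, hPD i₀, X.xper_conj_cls hN, X.xper_cls_eq hN (hD i₀).2.2.1 hQ0 (hQ i₀).2]
      exact X.xper_cls_eq hN (xper_nonAb_smul _ (hD j).2.2.1) hQ0
        (e ▸ xper_smul_mono _ (hQ j).2)
    have e : ∑ k, z k = z i₀ := Fintype.sum_eq_single i₀ fun j hj => absurd (uniq j) hj
    have key := hQQ.ind N le_rfl F ι Unit (fun _ => Q i₀) (fun _ => (hQ i₀).1)
      (fun _ _ _ _ _ => rfl) (fun _ => z i₀)
      (fun _ => zz_mono ι (le_inf (hQ i₀).2 (hD i₀).1) (hzD i₀)) (by simpa [e] using hs) ()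
    refine hi (rel_mono ι (inf_le_left.trans ?_) key)
    rw [hPD i₀]
    exact X.xper_le_cls hQ0 (hQ i₀).2

/-- Take a dependent family of minimal cardinality with all `z i ∉ Rel (cls ..)`; each `z i` is a
cycle of a periodic subgroup `D i` of its class. The family `D` is linked (group the indices by the
class of the carrier; each of these sums lies in `Rel N`, so by minimality there is one class). With
`exists_per_hull` all classes are conjugate, so there is one index, and then `z i ∈ Rel (Q i)`. -/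
theorem ind_cls (hN : X.Inv N) {F : Type} [DivisionRing F] (ι : Fr n →* F) {κ : Type} [Fintype κ]
    (P : κ → Subgroup (Fr n)) (hP : ∀ i, ∃ D, X.PerIn N D ∧ P i = X.cls N D) (hc : NonConj N P) :
    Ind ι N P :=
  X.xper_ind hN ι _ κ (Nat.lt_succ_self _) P hP hc

/-- The rank inequality for the normalizers of the classes. -/
theorem xper_rk (hN : X.Inv N) {c : ℕ} (hc : (⊤ : Subgroup (Fr n)).lowerCentralSeries c ≤ N)
    {κ : Type} [Fintype κ] (P : κ → Subgroup (Fr n))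
    (hP : ∀ i, ∃ D, X.PerIn N D ∧ P i = X.cls N D) (hnc : NonConj ⊤ P) :
    (∀ i, (Subgroup.normalizer (P i : Set (Fr n))).FG ∧
      2 ≤ rk (Subgroup.normalizer (P i : Set (Fr n)))) ∧
      ∑ i, (rk (Subgroup.normalizer (P i : Set (Fr n))) - 1) ≤ n - 1 := by
  obtain ⟨o⟩ := nonempty_biOrd n
  have h1 := climb o N hc (XX := {Y | ∃ D, X.PerIn N D ∧ Y = X.cls N D})
    (by rintro _ ⟨D, -, rfl⟩; exact X.xper_cls_le D)
    (by rintro _ ⟨D, hD, rfl⟩; exact xper_nonAb_ne_bot hD.2.2.1 (X.xper_le_cls hD le_rfl))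
    (by
      rintro _ ⟨D, hD, rfl⟩ g
      exact ⟨_, X.xper_perIn_conj hN g hD, X.xper_conj_cls hN g D⟩)
    (fun κ _ P hP hc => X.ind_cls hN _ P hP hc) P hP hnc
  obtain ⟨h2, h3⟩ := Ind.rk_le (MN.of o) MN.of_injective Group.FG.out (fun _ => le_top) h1
  rw [rk_top] at h3
  refine ⟨fun i => ⟨h2 i, nonAb_iff_two_le_rk' (h2 i) ?_⟩, h3⟩
  obtain ⟨D, hD, e⟩ := hP i
  refine xper_nonAb_mono hD.2.2.1 (le_trans ?_ Subgroup.le_normalizer)
  rw [e]
  exact X.xper_le_cls hD le_rfl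

/-- There are finitely many conjugacy classes of classes. -/
theorem xper_finite (hn : 2 ≤ n) (hN : X.Inv N) {c : ℕ}
    (hc : (⊤ : Subgroup (Fr n)).lowerCentralSeries c ≤ N) :
    ∃ A : Set (Subgroup (Fr n)), A.Finite ∧ ∀ D, X.PerIn N D →
      ∃ g : Fr n, MulAut.conj g • X.cls N D ∈ A := by
  let r : Setoid {Y : Subgroup (Fr n) // ∃ D, X.PerIn N D ∧ Y = X.cls N D} :=
    ⟨fun a b => xperRel ⊤ a.1 b.1, ⟨fun _ => (xperRel_equiv ⊤).refl _,
      fun h => (xperRel_equiv ⊤).symm h, fun h h' => (xperRel_equiv ⊤).trans h h'⟩⟩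
  have fin : Finite (Quotient r) := by
    by_contra hinf
    rw [not_finite_iff_infinite] at hinf
    let f : Fin n ↪ Quotient r := Fin.valEmbedding.trans (Infinite.natEmbedding _)
    obtain ⟨h1, h2⟩ := X.xper_rk hN hc (fun i => (f i).out.1) (fun i => (f i).out.2)
      fun i j l hl e => f.injective (by
        rw [← Quotient.out_eq (f i), ← Quotient.out_eq (f j)]
        exact Quotient.sound (s := r) ⟨l, hl, e⟩)
    have h3 : ∑ _i : Fin n, 1 ≤ ∑ i : Fin n,
        (rk (Subgroup.normalizer (((f i).out.1 : Subgroup (Fr n)) : Set (Fr n))) - 1) :=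
      Finset.sum_le_sum fun i _ => by have := (h1 i).2; omega
    simp only [Finset.sum_const, Finset.card_univ, Fintype.card_fin, smul_eq_mul, mul_one] at h3
    omega
  refine ⟨Set.range fun c : Quotient r => c.out.1, Set.finite_range _, fun D hD => ?_⟩
  obtain ⟨g, -, e⟩ := (xperRel_equiv ⊤).symm (Quotient.mk_out (s := r) ⟨X.cls N D, D, hD, rfl⟩)
  exact ⟨g, _, e.symm⟩

/-- The conclusion. With `climb` and `Ind.rk_le`, the normalizers `G` of the classes are finitely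
generated, nonabelian, and the reduced ranks of pairwise non conjugate ones add up to at most
`n - 1`; so there are finitely many conjugacy classes of classes, and only one if some `G` has rank
`n`. `G` is self-normalizing since `G ⊓ N` is the class. -/
theorem exists_pair (hn : 2 ≤ n) (hN : X.Inv N) {c : ℕ}
    (hc : (⊤ : Subgroup (Fr n)).lowerCentralSeries c ≤ N) (hnt : ¬ X.Tame N)
    {D : Subgroup (Fr n)} (h : X.PerIn N D) :
    ∃ G : Subgroup (Fr n), D ≤ G ∧ G ≠ ⊤ ∧ G.FG ∧ rk G ≤ n ∧ X.Pair (X.norm G) G ∧ X.Per G ∧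
      (rk G = n → X.stabH G = ⊤) := by
  obtain ⟨h1, h2⟩ := X.xper_rk hN hc (fun _ : Unit => X.cls N D) (fun _ => ⟨D, h, rfl⟩)
    fun _ _ _ _ _ => rfl
  have hinf := X.normalizer_cls_inf hN h
  refine ⟨Subgroup.normalizer (X.cls N D : Set (Fr n)),
    (X.xper_le_cls h le_rfl).trans Subgroup.le_normalizer, fun e => hnt fun D' hD' hfg => ?_,
    (h1 ()).1, ?_, X.pair_norm (le_antisymm (fun g hg => ?_) Subgroup.le_normalizer), ?_,
    fun hrk => ?_⟩
  · rw [e, top_inf_eq] at hinf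
    obtain ⟨T, rfl⟩ := hfg
    obtain ⟨P, p1, -, p3⟩ := X.exists_perIn_of_finite hN h T.finite_toSet
      (by rw [← hinf]; exact Subgroup.subset_closure.trans hD')
    exact ⟨P, (Subgroup.closure_le _).2 p3, p1.1, p1.2.1, p1.2.2.2⟩
  · simp only [Finset.univ_unique, Finset.sum_singleton] at h2
    omega
  · rw [xper_mem_normalizer] at hg ⊢
    have e := congrArg (fun S => MulAut.conj g • S) hinf
    simp only [Subgroup.smul_inf, hg, xper_conj_normal] at e
    rw [← e, hinf]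
  · obtain ⟨A, hA, hA'⟩ := X.xper_finite hn hN hc
    refine X.per_iff.2 ⟨(fun Y : Subgroup (Fr n) => Subgroup.normalizer (Y : Set (Fr n))) '' A,
      hA.image _, fun e => ?_⟩
    obtain ⟨g, hg⟩ := hA' _ (X.xper_perIn_smul hN e h)
    refine ⟨g, _, hg, ?_⟩
    rw [xper_smul_normalizer, xper_smul_normalizer, X.smul_cls hN]
  · refine eq_top_iff.2 fun x _ => ?_
    obtain ⟨e, rfl⟩ := X.surj x
    rw [X.mem_stabH]
    by_contra hno
    have nr : ¬ xperRel ⊤ (X.cls N D) (X.cls N (X.ρ e • D)) := by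
      rintro ⟨g, -, hg⟩
      refine hno ⟨g, ?_⟩
      rw [xper_smul_normalizer, xper_smul_normalizer, X.smul_cls hN, hg]
    obtain ⟨h3, h4⟩ := X.xper_rk hN hc (fun b : Bool => cond b (X.cls N D) (X.cls N (X.ρ e • D)))
      (fun b => by
        cases b
        exacts [⟨_, X.xper_perIn_smul hN e h, rfl⟩, ⟨D, h, rfl⟩])
      (fun i j l hl e' => by
        cases i <;> cases j
        · rfl
        · exact absurd ((xperRel_equiv ⊤).symm ⟨l, hl, e'⟩) nr
        · exact absurd ⟨l, hl, e'⟩ nr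
        · rfl)
    have h5 := (h3 false).2
    rw [Fintype.sum_bool] at h4
    simp only [cond_true, cond_false] at h4 h5
    omega

end Ext

end Pool.Agent.Lib.MP_9ac97d_al
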