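import Pool.Agent.Lib.MP_9ac97d_al.XProp
import Pool.Agent.Lib.MP_9ac97d_al.XHier
import Pool.Agent.Lib.MP_9ac97d_al.XPer
import Pool.Agent.Lib.MP_9ac97d_al.GWolf

/-!
# The induction (task XMain)
-/

set_option autoImplicit false

noncomputable section

open Pointwise

namespace Pool.Agent.Lib.MP_9ac97d_al

theorem xmain_fg_map {G G' : Type} [Group G] [Group G'] {S : Subgroup G} (h : S.FG)
    (f : G →* G') : (S.map f).FG := by
  obtain ⟨T, rfl, hT⟩ := (Subgroup.fg_iff S).1 h
  exact (Subgroup.fg_iff _).2 ⟨f '' T, (MonoidHom.map_closure f T).symm, hT.image f⟩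

namespace Ext

variable {E H : Type} [Group E] [Group H] {n : ℕ} (X : Ext E H n)

/-- If no proper counterexample of rank `n` exists, every periodic `D ≤ N` is good by
`exists_pair` and `ff_kerIn_of_main`; then `B` is good by `good_of_ff_stabH`, and so is `⊤` by
`cent_le_cent_top`. -/
theorem step_top (hn : 2 ≤ n) (hH : NF H) (hm : ∀ k < n, Main k) (hb : ¬ X.Good ⊤) :
    ∃ E' S, X.Bad n E' S ∧ S ≠ ⊤ := by
  by_contra hno
  rcases X.good_or_level hn hH with h | ⟨N, hNn, c, hinv, hc, hnt, B, hBN, hBfg, hBw, hBff⟩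
  · exact hb h
  obtain ⟨o, K, hK, ho⟩ := X.exists_ordOn hH
  have hper : ∀ S ≤ N, S.FG → NonAb S → X.Per S → X.Good S := by
    intro S h1 h2 h3 h4
    obtain ⟨G, hSG, hGt, hGfg, hrk, hpair, hGper, hst⟩ :=
      X.exists_pair hn hinv hc hnt ⟨h1, h2, h3, h4⟩
    have hG : FF (X.kerIn (X.norm G) G) := by
      rcases hrk.lt_or_eq with h | h
      · exact X.ff_kerIn_of_main hH hpair hGper hGfg (hm _ h)
      · by_contra hbad
        exact hno ⟨_, G, ⟨hpair, hst h, hGfg, h, hbad⟩, hGt⟩
    exact hG.mono (X.kerIn_mono le_top hSG)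
  have hB := X.good_of_ff_stabH hn hH hK ho hinv hper hBN hBfg hBw.nonAb hBff
  exact hb (FF.mono hB (Subgroup.map_mono (inf_le_inf_left _ (X.cent_le_cent_top hBw))))

/-- Restrict to the pair and apply `step_top`. -/
theorem step (hH : NF H) {r : ℕ} (hr : 2 ≤ r) (hm : ∀ k < r, Main k) {E' : Subgroup E}
    {S : Subgroup (Fr n)} (h : X.Bad r E' S) : ∃ E'' S', X.Bad r E'' S' ∧ S' < S := by
  obtain ⟨hp, hon, hfg, rfl, hbad⟩ := h
  obtain ⟨b⟩ := exists_basis hfg
  have hfi : (E'.map X.π).FiniteIndex := by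
    rw [hon]
    infer_instance
  have hfi' : (E'.map X.π).subtype.range.FiniteIndex := by
    rwa [Subgroup.range_subtype]
  have hY : ¬ (X.restrict hp b).Good ⊤ := fun hY => by
    have h1 := FF.map hY (E'.map X.π).subtype
    rw [X.map_kerIn_restrict, map_emb_top, ← MonoidHom.range_eq_map, Subgroup.range_subtype] at h1
    exact hbad h1
  obtain ⟨E'', T, ⟨hp', hon', hfg', hrk', hbad'⟩, hT⟩ :=
    (X.restrict hp b).step_top hr (hH.subgroup _) hm hY
  refine ⟨E''.map E'.subtype, T.map (emb b), ⟨X.pair_of_restrict hp b hp', ?_, xmain_fg_map hfg' _,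
    (rk_map _ (emb_injective b) T).trans hrk', fun h1 => hbad' ?_⟩, ?_⟩
  · rw [eq_top_iff]
    intro x _
    have hx : x ∈ E'.map X.π := hon ▸ Subgroup.mem_top x
    have hx' : (⟨x, hx⟩ : E'.map X.π) ∈ E''.map (X.restrict hp b).π := hon' ▸ Subgroup.mem_top _
    obtain ⟨e, he, hex⟩ := hx'
    exact ⟨e, ⟨e, he, rfl⟩, congrArg Subtype.val hex⟩
  · rw [← X.map_kerIn_restrict hp b] at h1
    have h2 := h1.comap (E'.map X.π).subtype
    rwa [Subgroup.comap_map_eq_self_of_injective (Subgroup.subtype_injective _)] at h2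
  · refine lt_of_le_of_ne ((Subgroup.map_mono le_top).trans (map_emb_top b).le) fun h1 => hT ?_
    exact Subgroup.map_injective (emb_injective b) (h1.trans (map_emb_top b).symm)

end Ext

/-- Strong induction. A counterexample gives an infinite strictly decreasing chain of subgroups
with bounded cores (`core_lt_of_bad`), two of which are conjugate (`finite_classes`), against
`conj_eq_of_le`. -/
theorem main (n : ℕ) : Main n := by
  induction n using Nat.strong_induction_on with
  | _ n hm =>
    rcases le_or_gt n 1 with hn | hn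
    · exact main_of_le_one hn
    intro E H _ _ X hH
    by_contra hb
    obtain ⟨o, K, hK, ho⟩ := X.exists_ordOn hH
    obtain ⟨V, hV⟩ := X.core_lt_of_bad hn hH hK ho hn hm
    obtain ⟨A, hA, hcl⟩ := finite_classes n V
    have h0 : X.Bad n ⊤ ⊤ := ⟨⟨fun e _ => X.mem_norm.2 (by
      rw [eq_top_iff]
      intro x _
      rw [Subgroup.mem_pointwise_smul_iff_inv_smul_mem]
      trivial), fun g => by simp⟩, Subgroup.map_top_of_surjective _ X.surj,
      Group.FG.out, rk_top n, hb⟩
    have hstep : ∀ p : {p : Subgroup E × Subgroup (Fr n) // X.Bad n p.1 p.2},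
        ∃ q : {p : Subgroup E × Subgroup (Fr n) // X.Bad n p.1 p.2}, q.1.2 < p.1.2 := fun p => by
      obtain ⟨E'', S', h1, h2⟩ := X.step hH hn hm p.2
      exact ⟨⟨(E'', S'), h1⟩, h2⟩
    choose f hf using hstep
    let s := fun k : ℕ => f^[k] ⟨(⊤, ⊤), h0⟩
    have hanti : StrictAnti fun k => (s k).1.2 := strictAnti_nat_of_succ_lt fun k => by
      simp only [s, Function.iterate_succ_apply']
      exact hf _
    choose g hg using fun k => hcl (s k).1.2 (s k).2.fg (hV _ _ (s k).2).le
    obtain ⟨i, j, hij, he⟩ := Set.Finite.exists_lt_map_eq_of_forall_mem hg hA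
    have h1 : MulAut.conj ((g j)⁻¹ * g i) • (s i).1.2 = (s j).1.2 := by
      rw [map_mul, map_inv, mul_smul, he, inv_smul_smul]
    have h2 := conj_eq_of_le (s i).2.fg (h1.le.trans (hanti hij).le)
    exact (hanti hij).ne (h1.symm.trans h2)

theorem xmain_conj {n : ℕ} (e : MulAut (Fr n)) (g : Fr n) :
    e * MulAut.conj g * e⁻¹ = MulAut.conj (e g) := by
  ext x
  simp

theorem xmain_out (n : ℕ) {Q : Type} [Group Q] (q : MulAut (Fr n) →* Q)
    (hs : Function.Surjective q) (hq : ∀ e, q e = 1 ↔ ∃ g, MulAut.conj g = e) (K : Subgroup Q)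
    (hK : NF K) : FF (⊥ : Subgroup K) := by
  let X : Ext (K.comap q) K n :=
    { π := q.subgroupComap K
      ρ := (K.comap q).subtype
      j := (MulAut.conj : Fr n →* MulAut (Fr n)).codRestrict _ fun g => by
        rw [Subgroup.mem_comap, (hq _).2 ⟨g, rfl⟩]
        exact K.one_mem
      surj := q.subgroupComap_surjective_of_surjective K hs
      ker := by
        ext e
        rw [MonoidHom.mem_ker, MonoidHom.mem_range, Subtype.ext_iff]
        simp only [Subtype.ext_iff]
        exact hq e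
      ρ_j := fun _ => rfl
      conj_j := fun e g => Subtype.ext (xmain_conj e g) }
  refine FF.mono (main n _ _ X hK) ?_
  rintro _ ⟨e, he, rfl⟩
  have h1 : e = 1 := Subtype.ext (MulEquiv.ext fun x => he.2 x trivial)
  rw [h1, map_one]
  exact Subgroup.one_mem _

/-- A subgroup of the outer automorphism group with `NF` is virtually nilpotent. Use the extension
with `E` the preimage of `K` in `MulAut (Fr n)`. -/
theorem ff_bot_of_nf (n : ℕ)
    (K : Subgroup (MulAut (Fr n) ⧸
      Subgroup.normalClosure (Set.range (MulAut.conj : Fr n →* MulAut (Fr n)))))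
    (hK : NF K) : FF (⊥ : Subgroup K) := by
  have hn : (MulAut.conj : Fr n →* MulAut (Fr n)).range.Normal :=
    ⟨by rintro _ ⟨g, rfl⟩ e; exact ⟨e g, (xmain_conj e g).symm⟩⟩
  have hN : Subgroup.normalClosure (Set.range (MulAut.conj : Fr n →* MulAut (Fr n))) =
      (MulAut.conj : Fr n →* MulAut (Fr n)).range := by
    rw [← MonoidHom.coe_range]
    exact Subgroup.normalClosure_eq_self _
  refine xmain_out n (QuotientGroup.mk' _) (QuotientGroup.mk'_surjective _) (fun e => ?_) K hK
  rw [QuotientGroup.mk'_apply, QuotientGroup.eq_one_iff, hN, MonoidHom.mem_range]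

/-- Exponential growth implies uniform exponential growth, for a subgroup `K` of any group, once
`NF K` is known to imply virtual nilpotence. Transfer balls along `Subgroup.subtype`
(`ball_image`, `Set.ncard_image_of_injective`); use `nf_of_not_ueg`, `polyGrowth_of_ff`,
`PolyGrowth.not_exp`. -/
theorem ueg_of {Γ : Type} [Group Γ] {T : Set Γ} (hT : T.Finite)
    (h : NF (Subgroup.closure T) → FF (⊥ : Subgroup (Subgroup.closure T)))
    (hexp : ∃ c : ℝ, 1 < c ∧ ∀ k : ℕ, c ^ k ≤ ((ball T k).ncard : ℝ)) :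
    ∃ c : ℝ, 1 < c ∧ ∀ S : Set Γ, S.Finite → Subgroup.closure S = Subgroup.closure T →
      ∀ k : ℕ, c ^ k ≤ ((ball S k).ncard : ℝ) := by
  have key : ∀ S : Set Γ, S.Finite → Subgroup.closure S = Subgroup.closure T →
      ∃ S' : Set (Subgroup.closure T), S'.Finite ∧ Subgroup.closure S' = ⊤ ∧
        ∀ k, (ball S' k).ncard = (ball S k).ncard := by
    intro S hS
    generalize Subgroup.closure T = K
    rintro rfl
    refine ⟨(Subgroup.closure S).subtype ⁻¹' S,
      hS.preimage (Subgroup.subtype_injective _).injOn, Subgroup.closure_preimage_eq_top S,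
      fun k => ?_⟩
    rw [← Set.ncard_image_of_injective _ (Subgroup.subtype_injective _), ← ball_image,
      Set.image_preimage_eq_of_subset]
    intro x hx
    exact ⟨⟨x, Subgroup.subset_closure hx⟩, rfl⟩
  by_contra hno
  have hnf : NF (Subgroup.closure T) := nf_of_not_ueg fun ⟨c, hc, h1⟩ => hno ⟨c, hc, by
    intro S hS hST k
    obtain ⟨S', h2, h3, h4⟩ := key S hS hST
    rw [← h4]
    exact h1 S' h2 h3 k⟩
  obtain ⟨c, hc, h1⟩ := hexp
  obtain ⟨T', h2, h3, h4⟩ := key T hT rfl
  refine (polyGrowth_of_ff (h hnf) h2 h3).not_exp hc fun k => ?_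
  rw [h4]
  exact h1 k

end Pool.Agent.Lib.MP_9ac97d_al
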