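import Pool.Agent.Lib.MP_9ac97d_al.XRes

/-!
# Consequences of tameness, and the symmetrized filtration (task XTame)
-/

set_option autoImplicit false

noncomputable section

open Pointwise

namespace Pool.Agent.Lib.MP_9ac97d_al

section Aux

variable {n : ℕ}

/-- The set of `g` such that `P` meets its conjugate by `g`. -/
def xtame_W (P : Subgroup (Fr n)) : Set (Fr n) := {g | P ⊓ MulAut.conj g • P ≠ ⊥}

theorem xtame_conj_comm (Φ : MulAut (Fr n)) (g : Fr n) :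
    Φ * MulAut.conj g = MulAut.conj (Φ g) * Φ := by
  ext x : 1
  simp

theorem xtame_W_map {P : Subgroup (Fr n)} {Φ : MulAut (Fr n)} (hΦ : Φ • P = P) {g : Fr n}
    (hg : g ∈ xtame_W P) : Φ g ∈ xtame_W P := by
  intro h
  apply hg
  have h1 : Φ • (P ⊓ MulAut.conj g • P) = ⊥ := by
    rw [Subgroup.smul_inf, ← mul_smul, xtame_conj_comm, mul_smul, hΦ]
    exact h
  have h2 : P ⊓ MulAut.conj g • P = Φ⁻¹ • (Φ • (P ⊓ MulAut.conj g • P)) := by
    rw [inv_smul_smul]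
  rw [h2, h1, Subgroup.smul_bot]

theorem xtame_W_pow {P : Subgroup (Fr n)} {Φ : MulAut (Fr n)} (hΦ : Φ • P = P) {g : Fr n}
    (hg : g ∈ xtame_W P) (k : ℕ) : (Φ ^ k) g ∈ xtame_W P := by
  induction k with
  | zero => simpa using hg
  | succ k ih =>
    rw [pow_succ', MulAut.mul_apply]
    exact xtame_W_map hΦ ih

theorem xtame_of_mem_W {P : Subgroup (Fr n)} (hP : Ext.Wide P) (i : Fin n) :
    (FreeGroup.of i : Fr n) ∈ xtame_W P := by
  obtain ⟨D, hD, ⟨a, ha, b, hb, hab⟩, hi⟩ := hP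
  intro h
  have h1 : MulAut.conj (FreeGroup.of i : Fr n) • D ≤
      P ⊓ MulAut.conj (FreeGroup.of i : Fr n) • P :=
    le_inf (hi i) (Subgroup.pointwise_smul_le_pointwise_smul_iff.2 hD)
  rw [h] at h1
  have h2 := h1 (Subgroup.smul_mem_pointwise_smul a (MulAut.conj (FreeGroup.of i : Fr n)) D ha)
  rw [Subgroup.mem_bot] at h2
  have h3 : a = 1 := by
    have h4 : MulAut.conj (FreeGroup.of i : Fr n) a = 1 := h2
    exact (map_eq_one_iff _ (MulAut.conj (FreeGroup.of i : Fr n)).injective).1 h4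
  apply hab
  rw [h3]
  exact Commute.one_left b

theorem xtame_pow_smul {N : Subgroup (Fr n)} {Φ : MulAut (Fr n)} (hΦ : Φ • N = N) (k : ℕ) :
    Φ ^ k • N = N := by
  induction k with
  | zero => simp
  | succ k ih => rw [pow_succ', mul_smul, ih, hΦ]

theorem xtame_mem_iff {N : Subgroup (Fr n)} {Φ : MulAut (Fr n)} (hΦ : Φ • N = N) (x : Fr n) :
    Φ x ∈ N ↔ x ∈ N := by
  have h := Subgroup.smul_mem_pointwise_smul_iff (a := Φ) (S := N) (x := x)
  rw [hΦ] at h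
  exact h

/-- An automorphism preserving a wide finitely generated `P ≤ N` and `N` has a power that is
trivial modulo `N`. -/
theorem xtame_pow_triv {N P : Subgroup (Fr n)} [N.Normal] (hPN : P ≤ N) (hP : P.FG)
    (hw : Ext.Wide P) {Φ : MulAut (Fr n)} (hΦP : Φ • P = P) (hΦN : Φ • N = N) :
    ∃ m : ℕ, m ≠ 0 ∧ ∀ w, (Φ ^ m) w * w⁻¹ ∈ N := by
  classical
  obtain ⟨Ω, hΩ⟩ := finite_double_cosets hP hP
  have key : ∀ g ∈ xtame_W P, ∃ w : Ω, (g : Fr n ⧸ N) = ((w : Fr n) : Fr n ⧸ N) := by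
    intro g hg
    obtain ⟨q, hq, w, hw, p, hp, rfl⟩ := hΩ g hg
    refine ⟨⟨w, hw⟩, ?_⟩
    have h1 : ((q : Fr n) : Fr n ⧸ N) = 1 := (QuotientGroup.eq_one_iff q).2 (hPN hq)
    have h2 : ((p : Fr n) : Fr n ⧸ N) = 1 := (QuotientGroup.eq_one_iff p).2 (hPN hp)
    simp [QuotientGroup.mk_mul, h1, h2]
  choose f hf using fun (k : ℕ) (i : Fin n) => key _ (xtame_W_pow hΦP (xtame_of_mem_W hw i) k)
  have main : ∀ a b : ℕ, a < b → f a = f b → ∃ m : ℕ, m ≠ 0 ∧ ∀ w, (Φ ^ m) w * w⁻¹ ∈ N := by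
    intro a b hab h
    refine ⟨b - a, by omega, ?_⟩
    have hgen : ∀ i : Fin n, (((Φ ^ (b - a)) (FreeGroup.of i) : Fr n) : Fr n ⧸ N) =
        ((FreeGroup.of i : Fr n) : Fr n ⧸ N) := by
      intro i
      have h1 : (((Φ ^ b) (FreeGroup.of i) : Fr n) : Fr n ⧸ N) =
          (((Φ ^ a) (FreeGroup.of i) : Fr n) : Fr n ⧸ N) := by
        rw [hf a i, hf b i, h]
      rw [QuotientGroup.eq] at h1 ⊢
      have h2 : Φ ^ b = Φ ^ a * Φ ^ (b - a) := by
        rw [← pow_add]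
        congr 1
        omega
      rw [h2, MulAut.mul_apply, ← map_inv, ← map_mul, xtame_mem_iff (xtame_pow_smul hΦN a)] at h1
      exact h1
    have hall : (QuotientGroup.mk' N).comp (Φ ^ (b - a)).toMonoidHom = QuotientGroup.mk' N := by
      ext i
      exact hgen i
    intro w
    have h3 : (((Φ ^ (b - a)) w : Fr n) : Fr n ⧸ N) = ((w : Fr n) : Fr n ⧸ N) :=
      DFunLike.congr_fun hall w
    rw [← QuotientGroup.eq_one_iff, QuotientGroup.mk_mul, h3, QuotientGroup.mk_inv,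
      mul_inv_cancel]
  obtain ⟨a, b, hab, h⟩ := Finite.exists_ne_map_eq_of_infinite f
  rcases lt_or_gt_of_ne hab with h1 | h1
  · exact main a b h1 h
  · exact main b a h1 h.symm

variable {Γ : Subgroup (MulAut (Fr n))} {N : ℕ → Subgroup (Fr n)} {χ : ℕ → Fr n → ℚ}

theorem xtame_chi_one (h : Filt Γ N χ) (j : ℕ) : χ j 1 = 0 := by
  have h1 := h.add j 1 (N j).one_mem 1 (N j).one_mem
  rw [mul_one] at h1
  linarith

theorem xtame_chi_inv (h : Filt Γ N χ) (j : ℕ) {x : Fr n} (hx : x ∈ N j) :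
    χ j x⁻¹ = -χ j x := by
  have h1 := h.add j x hx x⁻¹ ((N j).inv_mem hx)
  rw [mul_inv_cancel, xtame_chi_one h] at h1
  linarith

theorem xtame_chi_pow (h : Filt Γ N χ) (j : ℕ) {x : Fr n} (hx : x ∈ N j) (k : ℕ) :
    χ j (x ^ k) = k * χ j x := by
  induction k with
  | zero => simp [xtame_chi_one h]
  | succ k ih =>
    rw [pow_succ, h.add j _ ((N j).pow_mem hx k) x hx, ih]
    push_cast
    ring

theorem xtame_isolated (h : Filt Γ N χ) (j : ℕ) {g : Fr n} {k : ℕ} (hk : k ≠ 0)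
    (hg : g ^ k ∈ N j) : g ∈ N j := by
  induction j with
  | zero => rw [h.zero]; trivial
  | succ j ih =>
    rw [h.succ] at hg ⊢
    have h1 := ih hg.1
    refine ⟨h1, ?_⟩
    have h2 := hg.2
    rw [xtame_chi_pow h j h1] at h2
    rcases mul_eq_zero.1 h2 with h3 | h3
    · exact absurd (Nat.cast_eq_zero.1 h3) hk
    · exact h3

theorem xtame_comm_mem (h : Filt Γ N χ) (j : ℕ) {x : Fr n} (hx : x ∈ N j) (g : Fr n) :
    x * g * x⁻¹ * g⁻¹ ∈ N (j + 1) := by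
  have hx' := (N j).inv_mem hx
  have h1 : g * x⁻¹ * g⁻¹ ∈ N j := (h.normal j).conj_mem _ hx' g
  have h2 : x * g * x⁻¹ * g⁻¹ = x * (g * x⁻¹ * g⁻¹) := by group
  rw [h2, h.succ]
  refine ⟨(N j).mul_mem hx h1, ?_⟩
  rw [h.add j _ hx _ h1, h.conj j g _ hx', xtame_chi_inv h j hx]
  ring

end Aux

namespace Ext

variable {E H : Type} [Group E] [Group H] {n : ℕ} (X : Ext E H n)

/-- Take a wide `B ≤ N` (`exists_wide`) and a periodic `P ≥ B`. A power of `e`, corrected by an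
inner automorphism, is an automorphism `Φ` that preserves `P` and `N`; it permutes the finite image
in `Fr n / N` of `{g | P ⊓ conj g • P ≠ ⊥}` (`finite_double_cosets`), which contains the
generators; so a power of `Φ` is trivial modulo `N`. -/
theorem pow_inner_of_tame (hn : 2 ≤ n) {N : Subgroup (Fr n)} [N.Normal] (hN : X.Inv N) {c : ℕ}
    (hc : (⊤ : Subgroup (Fr n)).lowerCentralSeries c ≤ N) (ht : X.Tame N) (e : E) :
    ∃ m : ℕ, m ≠ 0 ∧ ∃ g : Fr n, ∀ w, (X.ρ e ^ m) w * (g * w * g⁻¹)⁻¹ ∈ N := by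
  obtain ⟨B, hBN, hB, hw⟩ := exists_wide hn hc
  obtain ⟨P, hBP, hPN, hP, hper⟩ := ht B hBN hB
  obtain ⟨k, hk, -, hmem⟩ :=
    Subgroup.exists_pow_mem_of_index_ne_zero (H := X.stabH P) hper.index_ne_zero (X.π e)
  obtain ⟨e', he', hπ⟩ := hmem
  have he'' : X.ρ e' • P = P := he'
  obtain ⟨m, hm, hw'⟩ := xtame_pow_triv hPN hP (hw.mono hBP) he'' (hN e')
  have h1 : X.π (e ^ (k * m)) = X.π (e' ^ m) := by
    rw [map_pow, map_pow, hπ, pow_mul]
  obtain ⟨g, hg⟩ := X.exists_j_of_π_eq h1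
  refine ⟨k * m, Nat.mul_ne_zero hk.ne' hm, g, fun w => ?_⟩
  have h2 : X.ρ e ^ (k * m) = MulAut.conj g * X.ρ e' ^ m := by
    rw [← map_pow, hg, map_mul, X.ρ_j, map_pow]
  rw [h2, MulAut.mul_apply, MulAut.conj_apply]
  have h3 : g * (X.ρ e' ^ m) w * g⁻¹ * (g * w * g⁻¹)⁻¹ = g * ((X.ρ e' ^ m) w * w⁻¹) * g⁻¹ := by
    group
  rw [h3]
  exact ‹N.Normal›.conj_mem _ (hw' w) g

/-- By `tl_eq_of_pow_inner` the elements of `E₁` preserve translation lengths, so by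
`finite_tl_preserving` they form finitely many cosets modulo `cent ⊤` and the image of `j`. -/
theorem good_of_tame (hn : 2 ≤ n) {E₁ : Subgroup E} [E₁.FiniteIndex]
    (hu : Unip (matHom n '' (E₁.map X.ρ : Set (MulAut (Fr n))))) (M : ℕ → Subgroup (Fr n))
    (hnor : ∀ j, (M j).Normal) (hinv : ∀ j, X.Inv (M j))
    (hnil : ∀ j, (⊤ : Subgroup (Fr n)).lowerCentralSeries j ≤ M j)
    (hcof : ∀ c, ∃ j, (M j : Set (Fr n)) ⊆ Dim (Fr n) c) (ht : ∀ j, X.Tame (M j)) :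
    X.Good ⊤ := by
  have htl : ∀ e ∈ E₁, ∀ w, tl (X.ρ e w) = tl w := by
    intro e he w
    apply tl_eq_of_pow_inner
    · intro l hl hlen
      refine hu l (fun A hA => ?_) hlen
      obtain ⟨Ψ, hΨ, rfl⟩ := hl A hA
      refine ⟨Ψ, ?_, rfl⟩
      have h1 : Subgroup.zpowers (X.ρ e) ≤ E₁.map X.ρ := by
        rw [Subgroup.zpowers_le]
        exact ⟨e, he, rfl⟩
      exact h1 hΨ
    · intro c
      obtain ⟨j, hj⟩ := hcof c
      have := hnor j
      obtain ⟨m, hm, g, hg⟩ := X.pow_inner_of_tame hn (hinv j) (hnil j) (ht j) e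
      exact ⟨m, hm, g, fun w => hj (hg w)⟩
  obtain ⟨A, hA, hfin⟩ := finite_tl_preserving n
  choose g hg using fun e : E₁ => hfin (X.ρ e) (htl e e.2)
  set K : Subgroup E := (X.kerIn ⊤ ⊤).comap X.π with hK
  have hcos : ∀ e e' : E₁, MulAut.conj (g e) * X.ρ e = MulAut.conj (g e') * X.ρ e' →
      e⁻¹ * e' ∈ K.subgroupOf E₁ := by
    intro e e' h
    rw [Subgroup.mem_subgroupOf, hK, Subgroup.mem_comap]
    refine ⟨(X.j (g e) * e)⁻¹ * (X.j (g e') * e'), ⟨trivial, ?_⟩, ?_⟩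
    · intro s _
      rw [map_mul, map_inv, map_mul, map_mul, X.ρ_j, X.ρ_j, ← h, inv_mul_cancel]
      rfl
    · simp [X.π_j]
  have : Finite A := hA.to_subtype
  have : Finite (E₁ ⧸ K.subgroupOf E₁) := by
    refine Finite.of_injective
      (fun q : E₁ ⧸ K.subgroupOf E₁ => (⟨_, hg q.out⟩ : A)) fun q q' h => ?_
    have h1 := hcos q.out q'.out (congrArg Subtype.val h)
    rw [← QuotientGroup.eq] at h1
    rw [← q.out_eq', ← q'.out_eq']
    exact h1
  have h2 : (K ⊓ E₁).index ≠ 0 := by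
    rw [← Subgroup.relIndex_mul_index (inf_le_right : K ⊓ E₁ ≤ E₁), Subgroup.inf_relIndex_right]
    exact Nat.mul_ne_zero Subgroup.index_ne_zero_of_finite Subgroup.FiniteIndex.index_ne_zero
  have : (K ⊓ E₁).FiniteIndex := ⟨h2⟩
  have : K.FiniteIndex := Subgroup.finiteIndex_of_le (inf_le_left : K ⊓ E₁ ≤ K)
  have : (X.kerIn ⊤ ⊤).FiniteIndex := by
    constructor
    rw [← Subgroup.index_comap_of_surjective _ X.surj]
    exact Subgroup.FiniteIndex.index_ne_zero (H := K)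
  exact ff_of_finiteIndex _

/-- The largest `E`-invariant subgroup of `N`. -/
def xtame_core (N : Subgroup (Fr n)) : Subgroup (Fr n) :=
  ⨅ e : E, N.comap (X.ρ e).toMonoidHom

theorem xtame_mem_core {N : Subgroup (Fr n)} {x : Fr n} :
    x ∈ X.xtame_core N ↔ ∀ e, X.ρ e x ∈ N := by
  simp [xtame_core, Subgroup.mem_iInf]

theorem xtame_core_smul {N : Subgroup (Fr n)} {x : Fr n} (hx : x ∈ X.xtame_core N) (e : E) :
    X.ρ e x ∈ X.xtame_core N := by
  rw [xtame_mem_core] at hx ⊢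
  intro e'
  have h := hx (e' * e)
  rwa [map_mul, MulAut.mul_apply] at h

/-- `M j = ⨅ e, ρ e • N j`, with the characters `χ j ∘ (ρ e)⁻¹`, `e` in a set of representatives of
`E / E₁`. -/
theorem exists_sym_filt {E₁ : Subgroup E} [E₁.FiniteIndex] [E₁.Normal]
    {N : ℕ → Subgroup (Fr n)} {χ : ℕ → Fr n → ℚ} (h : Filt (E₁.map X.ρ) N χ) :
    ∃ (M : ℕ → Subgroup (Fr n)) (κ : Type) (_ : Finite κ) (ψ : ℕ → κ → Fr n → ℚ),
      M 0 = ⊤ ∧ (∀ j, (M j).Normal) ∧ (∀ j, X.Inv (M j)) ∧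
      (∀ j, (⊤ : Subgroup (Fr n)).lowerCentralSeries j ≤ M j) ∧
      (∀ c, ∃ j, (M j : Set (Fr n)) ⊆ Dim (Fr n) c) ∧
      (∀ j g, ∀ k : ℕ, k ≠ 0 → g ^ k ∈ M j → g ∈ M j) ∧
      (∀ j a, ∀ x ∈ M j, ∀ y ∈ M j, ψ j a (x * y) = ψ j a x + ψ j a y) ∧
      (∀ j x, x ∈ M (j + 1) ↔ x ∈ M j ∧ ∀ a, ψ j a x = 0) ∧
      ∀ j a, ∀ e ∈ E₁, ∀ x ∈ M j, ψ j a (X.ρ e x) = ψ j a x := by
  have hzero : X.xtame_core (N 0) = ⊤ := by
    rw [eq_top_iff]
    intro x _
    rw [xtame_mem_core, h.zero]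
    intro e
    trivial
  have hinv : ∀ j, ∀ e ∈ E₁, ∀ x ∈ N j, χ j (X.ρ e x) = χ j x := fun j e he x hx =>
    (h.inv (X.ρ e) ⟨e, he, rfl⟩ j x hx).2
  refine ⟨fun j => X.xtame_core (N j), E ⧸ E₁, inferInstance,
    fun j a x => χ j (X.ρ a.out⁻¹ x), hzero, ?_, ?_, ?_, ?_, ?_, ?_, ?_, ?_⟩
  · intro j
    constructor
    intro x hx g
    rw [xtame_mem_core] at hx ⊢
    intro e
    rw [map_mul, map_mul, map_inv]
    exact (h.normal j).conj_mem _ (hx e) _
  · intro j e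
    ext x
    rw [Subgroup.mem_pointwise_smul_iff_inv_smul_mem]
    constructor
    · intro hx
      have h1 := X.xtame_core_smul hx e
      simpa using h1
    · intro hx
      have h1 := X.xtame_core_smul hx e⁻¹
      rw [map_inv] at h1
      exact h1
  · intro j
    induction j with
    | zero => exact le_top.trans hzero.ge
    | succ j ih =>
      rw [Subgroup.lowerCentralSeries_succ, Subgroup.commutator_le]
      intro x hx g _
      have h1 := ih hx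
      rw [xtame_mem_core] at h1 ⊢
      intro e
      rw [commutatorElement_def, map_mul, map_mul, map_mul, map_inv, map_inv]
      exact xtame_comm_mem h j (h1 e) _
  · intro c
    obtain ⟨j, hj⟩ := h.cofinal c
    refine ⟨j, fun x hx => hj ?_⟩
    have h1 := X.xtame_mem_core.1 hx 1
    simpa using h1
  · intro j g k hk hg
    rw [xtame_mem_core] at hg ⊢
    intro e
    apply xtame_isolated h j hk
    rw [← map_pow]
    exact hg e
  · intro j a x hx y hy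
    rw [xtame_mem_core] at hx hy
    simp only [map_mul]
    exact h.add j _ (hx _) _ (hy _)
  · intro j x
    simp only [xtame_mem_core, h.succ]
    constructor
    · intro hx
      exact ⟨fun e => (hx e).1, fun a => (hx _).2⟩
    · rintro ⟨hx, ha⟩ e
      refine ⟨hx e, ?_⟩
      obtain ⟨t, ht⟩ := QuotientGroup.mk_out_eq_mul E₁ e⁻¹
      have h1 := ha (QuotientGroup.mk e⁻¹)
      have h2 : e = t * (QuotientGroup.mk e⁻¹ : E ⧸ E₁).out⁻¹ := by
        rw [ht]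
        group
      rw [h2, map_mul, MulAut.mul_apply, hinv j t t.2 _ (hx _)]
      exact h1
  · intro j a e he x hx
    rw [xtame_mem_core] at hx
    have h1 : a.out⁻¹ * e * a.out⁻¹⁻¹ ∈ E₁ := ‹E₁.Normal›.conj_mem e he _
    have h2 : X.ρ a.out⁻¹ (X.ρ e x) = X.ρ (a.out⁻¹ * e * a.out⁻¹⁻¹) (X.ρ a.out⁻¹ x) := by
      rw [← MulAut.mul_apply, ← MulAut.mul_apply, ← map_mul, ← map_mul, inv_mul_cancel_right]
    show χ j (X.ρ a.out⁻¹ (X.ρ e x)) = χ j (X.ρ a.out⁻¹ x)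
    rw [h2, hinv j _ h1 _ (hx _)]

end Ext

end Pool.Agent.Lib.MP_9ac97d_al
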