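import Pool.Agent.Lib.MP_9ac97d_al.XU
import Pool.Agent.Lib.MP_9ac97d_al.XHypB
import Pool.Agent.Lib.MP_9ac97d_al.XTame
import Pool.Agent.Lib.MP_9ac97d_al.Weight

/-!
# The first non tame level (task XProp)
-/

set_option autoImplicit false

noncomputable section

open Pointwise

namespace Pool.Agent.Lib.MP_9ac97d_al

namespace Ext

variable {E H : Type} [Group E] [Group H] {n : ℕ} (X : Ext E H n)

/-- A non tame level with a wide subgroup whose class is fixed by a member of the filter. -/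
def Level : Prop :=
  ∃ (N : Subgroup (Fr n)) (_ : N.Normal) (c : ℕ), X.Inv N ∧
    (⊤ : Subgroup (Fr n)).lowerCentralSeries c ≤ N ∧ ¬ X.Tame N ∧
    ∃ B ≤ N, B.FG ∧ Wide B ∧ FF (X.stabH B)

theorem xprop_fg_map {G G' : Type} [Group G] [Group G'] {P : Subgroup G} (h : P.FG) (f : G →* G') :
    (P.map f).FG :=
  (Subgroup.fg_iff_submonoid_fg _).2 (((Subgroup.fg_iff_submonoid_fg _).1 h).map f)

theorem xprop_fg_of_map {G G' : Type} [Group G] [Group G'] {P : Subgroup G} (f : G →* G')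
    (hf : Function.Injective f) (h : (P.map f).FG) : P.FG :=
  (Subgroup.fg_iff_submonoid_fg _).2
    (Submonoid.FG.map_injective f hf ((Subgroup.fg_iff_submonoid_fg _).1 h))

theorem xprop_ne_bot {G : Type} [Group G] {S : Subgroup G} (h : NonAb S) : S ≠ ⊥ := by
  rintro rfl
  obtain ⟨a, ha, b, -, hab⟩ := h
  rw [Subgroup.mem_bot.1 ha] at hab
  exact hab (Commute.one_left b)

theorem xprop_unip {τ : H →* Matrix (Fin n) (Fin n) ℤ} (hτ : ∀ e, τ (X.π e) = mat (X.ρ e))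
    {K : Subgroup H} (hu : Unip (τ '' K)) :
    Unip (matHom n '' ((K.comap X.π).map X.ρ : Set (MulAut (Fr n)))) := by
  intro l hl
  refine hu l fun A hA => ?_
  obtain ⟨_, ⟨e, he, rfl⟩, rfl⟩ := hl A hA
  exact ⟨X.π e, he, hτ e⟩

theorem xprop_ordOn {τ : H →* Matrix (Fin n) (Fin n) ℤ} (hτ : ∀ e, τ (X.π e) = mat (X.ρ e))
    {K : Subgroup H} (hu : Unip (τ '' K)) : ∃ o : BiOrd (Fr n), X.OrdOn o K := by
  obtain ⟨o, ho⟩ := exists_order (X.xprop_unip hτ hu)
  exact ⟨o, fun e he => ho _ ⟨e, he, rfl⟩⟩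

/-- From `weight_dichotomy` (for `exists_matH`) and `exists_order`, with `K = ⁅H₂, H₂⁆`. -/
theorem exists_ordOn (hH : NF H) : ∃ (o : BiOrd (Fr n)) (K : Subgroup H), FF K ∧ X.OrdOn o K := by
  obtain ⟨τ, hτ⟩ := X.exists_matH
  obtain ⟨H₂, hfi, -, hu, -⟩ := weight_dichotomy hH τ
  obtain ⟨o, ho⟩ := X.xprop_ordOn hτ hu
  exact ⟨o, _, ff_commutator H₂, ho⟩

theorem xprop_finiteIndex_comap (K : Subgroup H) [K.FiniteIndex] : (K.comap X.π).FiniteIndex :=
  ⟨by rw [K.index_comap_of_surjective X.surj]; exact Subgroup.FiniteIndex.index_ne_zero⟩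

theorem xprop_tame_top : X.Tame ⊤ := fun _ _ _ =>
  ⟨⊤, le_top, le_rfl, Group.fg_def.1 inferInstance, X.per_top⟩

/-- A periodic self-normalizing overgroup inside a tame level. -/
theorem xprop_hull {M : Subgroup (Fr n)} [M.Normal] (hinv : X.Inv M) (ht : X.Tame M)
    (hroot : ∀ g, ∀ k : ℕ, k ≠ 0 → g ^ k ∈ M → g ∈ M) {B₀ : Subgroup (Fr n)} (hB : B₀ ≤ M)
    (hfg : B₀.FG) (hna : NonAb B₀) :
    ∃ A, B₀ ≤ A ∧ A ≤ M ∧ A.FG ∧ X.Per A ∧ Subgroup.normalizer (A : Set (Fr n)) = A := by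
  obtain ⟨P, hBP, hPM, hPfg, hPper⟩ := ht B₀ hB hfg
  have hPna : NonAb P := by
    obtain ⟨a, ha, b, hb, hab⟩ := hna
    exact ⟨a, hBP ha, b, hBP hb, hab⟩
  obtain ⟨QQ, hQQ, Q, hQ, hQfg, hQper⟩ := X.exists_per_hull hinv (fun _ : Unit => P)
    (fun _ => ⟨hPM, hPfg, hPna, hPper⟩)
    (fun _ _ _ _ i j => ⟨1, M.one_mem, by rw [map_one, one_smul]⟩) ()
  have hAM := hQQ.le _ (hQ ()).1
  have hne : Q () ≠ ⊥ := fun h0 => xprop_ne_bot hPna (le_bot_iff.1 (h0 ▸ (hQ ()).2))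
  refine ⟨Q (), hBP.trans (hQ ()).2, hAM, hQfg, hQper, le_antisymm (fun g hg => ?_)
    Subgroup.le_normalizer⟩
  have h1 : MulAut.conj g • Q () = Q () := Subgroup.mem_normalizer_iff_map_conj_eq.1 hg
  obtain ⟨k, hk, hgk⟩ := exists_pow_mem hQfg hne h1.le
  exact hQQ.mal _ (hQ ()).1 hne g (hroot g k hk (hAM hgk)) h1

/-- Unipotent case. With `M` from `exists_filt`, `exists_sym_filt`: either all levels are tame
(`good_of_tame`), or there is `j` with `M j` tame and `M (j + 1)` not tame (`M 0 = ⊤` is tame by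
`per_top`). Take a wide `B₀ ≤ M (j + 1)`, a periodic `P` with `B₀ ≤ P ≤ M j`, and replace it by
`A = Q ()` from `exists_per_hull` for the single group `P`: it is malnormal in `M j`
(`GoodSys.mal`), hence self-normalizing (`exists_pow_mem` and the roots property of `M j`). Restrict
to the pair `(norm A ⊓ E₁, A)` (here `E₁` contains the image of `j`), pull back the order
(`BiOrd.comap`) and the characters along `emb b`, apply `u_step` with `B₀.comap (emb b)`, and push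
forward (`map_stabH_restrict`, `FF.map`). -/
theorem level_of_unip (hn : 2 ≤ n) (hH : NF H) {H₂ : Subgroup H} [H₂.FiniteIndex] [H₂.Normal]
    (hu : Unip (matHom n '' ((H₂.comap X.π).map X.ρ : Set (MulAut (Fr n))))) :
    X.Good ⊤ ∨ X.Level := by
  classical
  have := X.xprop_finiteIndex_comap H₂
  obtain ⟨N, χ, hF⟩ := exists_filt hu
  obtain ⟨o, ho⟩ := hF.exists_order
  obtain ⟨M, κ, hκ, ψ, hM0, hnor, hinv, hnil, hcof, hroot, hadd, hsucc, hψ⟩ := X.exists_sym_filt hF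
  by_cases ht : ∀ j, X.Tame (M j)
  · exact Or.inl (X.good_of_tame hn hu M hnor hinv hnil hcof ht)
  right
  have hex : ∃ j, X.Tame (M j) ∧ ¬ X.Tame (M (j + 1)) := by
    by_contra hc
    refine ht fun j => ?_
    induction j with
    | zero => rw [hM0]; exact X.xprop_tame_top
    | succ j ih => exact by_contra fun h => hc ⟨j, ih, h⟩
  obtain ⟨j, htj, hnt⟩ := hex
  have := hnor j
  have := hnor (j + 1)
  have hle : M (j + 1) ≤ M j := fun x hx => ((hsucc j x).1 hx).1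
  obtain ⟨B₀, hB₀, hfg₀, hw₀⟩ := exists_wide hn (hnil (j + 1))
  obtain ⟨A, hBA, hAM, hAfg, hAper, hAn⟩ :=
    X.xprop_hull (hinv j) htj (hroot j) (hB₀.trans hle) hfg₀ hw₀.nonAb
  have hpair : X.Pair (X.norm A ⊓ H₂.comap X.π) A := by
    refine ⟨inf_le_left, fun g => ?_⟩
    rw [Subgroup.mem_inf, (X.pair_norm hAn).cap, Subgroup.mem_comap, X.π_j]
    exact and_iff_left H₂.one_mem
  have hfi : ((X.norm A ⊓ H₂.comap X.π).map X.π).FiniteIndex := by
    have : (X.stabH A).FiniteIndex := hAper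
    refine Subgroup.finiteIndex_of_le (H := X.stabH A ⊓ H₂) ?_
    rintro _ ⟨⟨e, he, rfl⟩, h2⟩
    exact ⟨e, ⟨he, h2⟩, rfl⟩
  obtain ⟨b⟩ := exists_basis hAfg
  have hemb : ∀ g, emb b g ∈ A := fun g => (b g).2
  have hrange : ∀ a ∈ A, ∃ g, emb b g = a := fun a ha =>
    ⟨b.symm ⟨a, ha⟩, congrArg Subtype.val (b.apply_symm_apply ⟨a, ha⟩)⟩
  have hmc : (B₀.comap (emb b)).map (emb b) = B₀ :=
    Subgroup.map_comap_eq_self fun a ha => hrange a (hBA ha)
  obtain ⟨B, hB1, hB2, hBfg, hBff⟩ := (X.restrict hpair b).u_step (hH.subgroup _)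
    (o := o.comap (emb b) (emb_injective b))
    (fun e g => by
      change emb b _ ∈ o.P ↔ emb b g ∈ o.P
      rw [X.emb_ρ]
      exact ho _ ⟨e, e.2.2, rfl⟩ _)
    (fun a => MonoidHom.mk' (fun g => Multiplicative.ofAdd (ψ j a (emb b g))) fun g g' => by
      rw [map_mul, hadd j a _ (hAM (hemb g)) _ (hAM (hemb g')), ofAdd_add])
    (fun a e g => by
      change Multiplicative.ofAdd (ψ j a (emb b _)) = Multiplicative.ofAdd (ψ j a (emb b g))
      rw [X.emb_ρ, hψ j a _ e.2.2 _ (hAM (hemb g))])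
    (N := (M (j + 1)).comap (emb b))
    (fun g => by
      rw [Subgroup.mem_comap, hsucc, and_iff_right (hAM (hemb g))]
      exact Iff.rfl)
    (B₀ := B₀.comap (emb b)) (Subgroup.comap_mono hB₀)
    (xprop_fg_of_map _ (emb_injective b) (hmc.symm ▸ hfg₀))
    (by
      obtain ⟨x, hx, y, hy, hxy⟩ := hw₀.nonAb
      obtain ⟨x, rfl⟩ := hrange x (hBA hx)
      obtain ⟨y, rfl⟩ := hrange y (hBA hy)
      exact ⟨x, hx, y, hy, fun h => hxy (h.map _)⟩)
  refine ⟨M (j + 1), this, j + 1, hinv _, hnil _, hnt, B.map (emb b),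
    Subgroup.map_le_iff_le_comap.2 hB2, xprop_fg_map hBfg _,
    hw₀.mono (hmc ▸ Subgroup.map_mono hB1), ?_⟩
  have : ((X.norm A ⊓ H₂.comap X.π).map X.π).subtype.range.FiniteIndex := by
    rwa [Subgroup.range_subtype]
  exact (hBff.map _).mono (X.map_stabH_restrict hpair b B)

theorem finite_inter_strip {κ : Type} [Finite κ] (N : κ → Subgroup (Fr n))
    (Ω : κ → Set (Fr n)) (hΩ : ∀ a, (Ω a).Finite) :
    ∃ Ω' : Set (Fr n), Ω'.Finite ∧
      (⋂ a, (N a : Set (Fr n)) * Ω a) ⊆ ((⨅ a, N a : Subgroup (Fr n)) : Set (Fr n)) * Ω' := by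
  classical
  have : ∀ a, Finite (Ω a) := fun a => (hΩ a).to_subtype
  refine ⟨Set.range fun w : ∀ a, Ω a =>
    if h : ∃ y : Fr n, ∀ a, y * (w a : Fr n)⁻¹ ∈ N a then h.choose else 1,
    Set.finite_range _, fun y hy => ?_⟩
  have h1 : ∀ a, ∃ w : Ω a, y * (w : Fr n)⁻¹ ∈ N a := fun a => by
    obtain ⟨g, hg, w, hw, rfl⟩ := Set.mem_iInter.1 hy a
    exact ⟨⟨w, hw⟩, by simpa using hg⟩
  choose w hw using h1
  have h2 : ∃ y : Fr n, ∀ a, y * (w a : Fr n)⁻¹ ∈ N a := ⟨y, hw⟩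
  refine ⟨y * h2.choose⁻¹, ?_, h2.choose, ⟨w, dif_pos h2⟩, by simp⟩
  refine SetLike.mem_coe.2 (Subgroup.mem_iInf.2 fun a => ?_)
  have h3 := (N a).mul_mem (hw a) ((N a).inv_mem (h2.choose_spec a))
  simpa [mul_assoc] using h3

/-- The extension over a subgroup of `H`. -/
def xprop_sub (K : Subgroup H) : Ext (K.comap X.π) K n where
  π := X.π.subgroupComap K
  ρ := X.ρ.comp (K.comap X.π).subtype
  j := X.j.codRestrict _ fun g => by
    rw [Subgroup.mem_comap, X.π_j]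
    exact K.one_mem
  surj := X.π.subgroupComap_surjective_of_surjective K X.surj
  ker := by
    ext e
    simp only [MonoidHom.mem_ker, MonoidHom.mem_range]
    constructor
    · intro he
      have h1 : (e : E) ∈ X.π.ker := congrArg Subtype.val he
      rw [X.ker] at h1
      obtain ⟨g, hg⟩ := h1
      exact ⟨g, Subtype.ext hg⟩
    · rintro ⟨g, rfl⟩
      exact Subtype.ext (X.π_j g)
  ρ_j := X.ρ_j
  conj_j := fun e g => Subtype.ext (X.conj_j e g)

theorem xprop_sub_stabH (K : Subgroup H) (B : Subgroup (Fr n)) :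
    ((X.xprop_sub K).stabH B).map K.subtype ≤ X.stabH B := by
  rintro _ ⟨_, ⟨e, he, rfl⟩, rfl⟩
  exact ⟨e, he, rfl⟩

/-- The character as a homomorphism. -/
def xprop_chr (v : Fin n → ℂ) : Fr n →* Multiplicative ℂ :=
  MonoidHom.mk' (fun g => Multiplicative.ofAdd (chr v g)) fun g h => by rw [chr_mul, ofAdd_add]

theorem xprop_mem_ker {v : Fin n → ℂ} {g : Fr n} : g ∈ (xprop_chr v).ker ↔ chr v g = 0 := Iff.rfl

theorem xprop_chr_inv (v : Fin n → ℂ) (g : Fr n) : chr v g⁻¹ = -chr v g :=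
  congrArg Multiplicative.toAdd (map_inv (xprop_chr v) g)

theorem xprop_chr_smul (c : ℂ) (v : Fin n → ℂ) (g : Fr n) : chr (c • v) g = c * chr v g := by
  simp only [chr, Pi.smul_apply, smul_eq_mul, Finset.mul_sum, mul_assoc]

/-- The translate of the eigenvector. -/
def xprop_vt (v : Fin n → ℂ) (t : E) : Fin n → ℂ := (cplx (mat (X.ρ t))).mulVec v

theorem xprop_chr_vt (v : Fin n → ℂ) (t : E) (g : Fr n) :
    chr (X.xprop_vt v t) g = chr v (X.ρ t⁻¹ g) := by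
  rw [map_inv]
  exact chr_mulVec _ _ _

theorem xprop_vt_ne {v : Fin n → ℂ} (hv : v ≠ 0) (t : E) : X.xprop_vt v t ≠ 0 := by
  intro h0
  refine hv (funext fun i => ?_)
  have h1 := X.xprop_chr_vt v t (X.ρ t (FreeGroup.of i))
  rw [h0, ← MulAut.mul_apply, ← map_mul, inv_mul_cancel, map_one, MulAut.one_apply, chr_of] at h1
  rw [← h1]
  simp [chr]

/-- Conjugation on a normal subgroup. -/
def xprop_cj {G : Type} [Group G] (K : Subgroup G) [K.Normal] (t : G) : K →* K :=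
  (MulAut.conjNormal t : MulAut K).toMonoidHom

theorem xprop_cj_coe {G : Type} [Group G] (K : Subgroup G) [K.Normal] (t : G) (k : K) :
    (xprop_cj K t k : G) = t * k * t⁻¹ := MulAut.conjNormal_apply t k

/-- The inverse of a character. -/
def xprop_inv {G : Type} [Group G] (lam : G →* ℂ) : G →* ℂ where
  toFun g := lam g⁻¹
  map_one' := by simp
  map_mul' g h := by rw [mul_inv_rev, map_mul, mul_comm]

/-- The weight of the translated eigenvector. -/
def xprop_lam {H₂ : Subgroup H} [H₂.Normal] (lam : H₂ →* ℂ) (t : E) : H₂.comap X.π →* ℂ :=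
  ((xprop_inv lam).comp (X.xprop_sub H₂).π).comp (xprop_cj (H₂.comap X.π) t⁻¹)

section Hyp

variable {H₂ : Subgroup H} [H₂.Normal] {v : Fin n → ℂ} {lam : H₂ →* ℂ}

omit [H₂.Normal] in
theorem xprop_eig {τ : H →* Matrix (Fin n) (Fin n) ℤ} (hτ : ∀ e, τ (X.π e) = mat (X.ρ e))
    (hlam : ∀ h : H₂, (cplx (τ h)).mulVec v = lam h • v) (e : H₂.comap X.π) (g : Fr n) :
    chr v (X.ρ e g) = lam ((X.xprop_sub H₂).π e)⁻¹ * chr v g := by
  have h1 := X.xprop_chr_vt v ((e⁻¹ : H₂.comap X.π) : E) g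
  have h2 : X.xprop_vt v ((e⁻¹ : H₂.comap X.π) : E) = lam ((X.xprop_sub H₂).π e⁻¹) • v := by
    rw [← hlam, xprop_vt, ← hτ]
    rfl
  rw [h2, xprop_chr_smul, map_inv, Subgroup.coe_inv, inv_inv] at h1
  exact h1.symm

theorem xprop_eig_vt {τ : H →* Matrix (Fin n) (Fin n) ℤ} (hτ : ∀ e, τ (X.π e) = mat (X.ρ e))
    (hlam : ∀ h : H₂, (cplx (τ h)).mulVec v = lam h • v) (t : E) (e : H₂.comap X.π) (g : Fr n) :
    chr (X.xprop_vt v t) (X.ρ e g) = X.xprop_lam lam t e * chr (X.xprop_vt v t) g := by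
  have h1 := X.xprop_eig hτ hlam (xprop_cj (H₂.comap X.π) t⁻¹ e) (X.ρ t⁻¹ g)
  rw [xprop_cj_coe, ← MulAut.mul_apply, ← map_mul, inv_inv, mul_assoc, mul_inv_cancel, mul_one,
    map_mul, MulAut.mul_apply] at h1
  rw [xprop_chr_vt, xprop_chr_vt]
  exact h1

theorem xprop_nfp {ε : ℝ} {L₀ : ℕ} (h : NFP H₂ fun S => ∃ h ∈ ball S L₀, 1 + ε ≤ ‖lam h‖) (t : E) :
    NFP H₂ fun S => ∃ e : H₂.comap X.π,
      (X.xprop_sub H₂).π e ∈ ball S L₀ ∧ 1 + ε ≤ ‖X.xprop_lam lam t e‖ := by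
  refine (h.map (xprop_cj H₂ (X.π t)) (MulAut.conjNormal (X.π t) : MulAut H₂).surjective).mono ?_
  rintro _ - - ⟨S, -, -, ⟨x, hx, hx'⟩, rfl⟩
  obtain ⟨e, he⟩ := (X.xprop_sub H₂).surj x⁻¹
  have he' : X.π e = (x : H)⁻¹ := congrArg Subtype.val he
  refine ⟨xprop_cj (H₂.comap X.π) t e, ?_, ?_⟩
  · rw [ball_image]
    refine ⟨x⁻¹, inv_mem_ball hx, Subtype.ext ?_⟩
    change _ = X.π (xprop_cj (H₂.comap X.π) t e : E)
    rw [xprop_cj_coe, xprop_cj_coe, map_mul, map_mul, map_inv, he', Subgroup.coe_inv]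
  · have h1 : xprop_cj (H₂.comap X.π) t⁻¹ (xprop_cj (H₂.comap X.π) t e) = e := by
      refine Subtype.ext ?_
      rw [xprop_cj_coe, xprop_cj_coe]
      group
    change 1 + ε ≤ ‖lam ((X.xprop_sub H₂).π
      (xprop_cj (H₂.comap X.π) t⁻¹ (xprop_cj (H₂.comap X.π) t e)))⁻¹‖
    rwa [h1, he, inv_inv]

end Hyp

/-- Hyperbolic case. Let `E₂` be the preimage of `H₂`. For each `t` in a set of representatives of
`E / E₂` the character `chr v ∘ ρ t⁻¹` is `chr (v t)` (`chr_mulVec`) and is an eigenvector of `E₂`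
with weight `lam t`, which satisfies the `NFP` hypothesis (conjugate the generating sets). `N` is
the intersection of the kernels. Apply `hyp_heights` to the restriction of `X` to the pair
`(E₂, ⊤)`; all `lam t` are trivial on `K = ⁅E₂, E₂⁆`, which preserves an order (`exists_order`; note
that the preimage of `⁅H₂, H₂⁆` is `K` times the image of `j`). Take `M` from `FF.exists_normal` in
the image of `⁅K, K⁆` (`ff_commutator`, `FF.commutator`), `K₀ ≤ ⁅K, K⁆` from `exists_fg_lift`, then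
`hyp_strip`, `finite_inter_strip`, `exists_hull`, `finiteIndex_stabH`, `FF.of_relIndex`. `N` is not
tame by `pow_inner_of_tame`, since some `‖lam e‖ > 1`. -/
theorem level_of_hyp (hn : 2 ≤ n) (hH : NF H) {H₂ : Subgroup H} [H₂.FiniteIndex] [H₂.Normal]
    (τ : H →* Matrix (Fin n) (Fin n) ℤ) (hτ : ∀ e, τ (X.π e) = mat (X.ρ e))
    (hu : Unip (τ '' (⁅H₂, H₂⁆ : Subgroup H))) {v : Fin n → ℂ} {lam : H₂ →* ℂ} {ε : ℝ} {L₀ : ℕ}
    (hv : v ≠ 0) (hε : 0 < ε) (hlam : ∀ h : H₂, (cplx (τ h)).mulVec v = lam h • v)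
    (h : NFP H₂ fun S => ∃ h ∈ ball S L₀, 1 + ε ≤ ‖lam h‖) : X.Level := by
  have := X.xprop_finiteIndex_comap H₂
  have hH₂ : NF H₂ := h.nf
  obtain ⟨o, ho⟩ := X.xprop_ordOn hτ hu
  -- the level
  let Nk : E ⧸ H₂.comap X.π → Subgroup (Fr n) := fun a => (xprop_chr (X.xprop_vt v a.out)).ker
  have hmem : ∀ g, g ∈ ⨅ a, Nk a ↔ ∀ t : E, chr v (X.ρ t g) = 0 := by
    intro g
    rw [Subgroup.mem_iInf]
    refine ⟨fun hg t => ?_, fun hg a => ?_⟩
    · obtain ⟨e, he⟩ := QuotientGroup.mk_out_eq_mul (H₂.comap X.π) t⁻¹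
      have h1 := xprop_mem_ker.1 (hg (t⁻¹ : E))
      rw [xprop_chr_vt, he] at h1
      have h2 := X.xprop_eig hτ hlam e (X.ρ (t⁻¹ * e)⁻¹ g)
      rw [h1, mul_zero, ← MulAut.mul_apply, ← map_mul] at h2
      simpa using h2
    · exact xprop_mem_ker.2 (by rw [xprop_chr_vt]; exact hg _)
  have hnor : (⨅ a, Nk a).Normal := Subgroup.normal_iInf_normal fun a => MonoidHom.normal_ker _
  have hinv : X.Inv (⨅ a, Nk a) := by
    intro e
    ext g
    rw [Subgroup.mem_pointwise_smul_iff_inv_smul_mem, hmem, hmem, ← map_inv, MulAut.smul_def]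
    refine ⟨fun hg t => ?_, fun hg t => ?_⟩
    · have h1 := hg (t * e)
      rwa [← MulAut.mul_apply, ← map_mul, mul_inv_cancel_right] at h1
    · rw [← MulAut.mul_apply, ← map_mul]
      exact hg _
  have hnil : (⊤ : Subgroup (Fr n)).lowerCentralSeries 1 ≤ ⨅ a, Nk a := by
    rw [Subgroup.top_lowerCentralSeries_one]
    exact le_iInf fun a => Abelianization.commutator_subset_ker _
  have hnt : ¬ X.Tame (⨅ a, Nk a) := by
    intro ht
    obtain ⟨S, -, -, -, x, -, hx⟩ := h 0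
    obtain ⟨e, he⟩ := (X.xprop_sub H₂).surj x⁻¹
    obtain ⟨m, hm, g, hg⟩ := X.pow_inner_of_tame hn hinv hnil ht e
    obtain ⟨i, hi⟩ := Function.ne_iff.1 hv
    have h1 := (hmem _).1 (hg (FreeGroup.of i)) 1
    have h2 := X.xprop_eig hτ hlam (e ^ m) (FreeGroup.of i)
    rw [map_pow, he, inv_pow, inv_inv, map_pow, Subgroup.coe_pow, map_pow, chr_of] at h2
    rw [map_one, MulAut.one_apply, chr_mul, xprop_chr_inv, chr_mul, chr_mul, xprop_chr_inv, h2,
      chr_of] at h1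
    have h3 : lam x ^ m = 1 := mul_right_cancel₀ hi (by linear_combination h1)
    have h4 : 1 < ‖lam x‖ ^ m := one_lt_pow₀ (by linarith) hm
    rw [← norm_pow, h3, norm_one] at h4
    exact lt_irrefl _ h4
  obtain ⟨B₀, hB₀, hfg₀, hw₀⟩ := exists_wide hn hnil
  -- the group of automorphisms
  have hff : FF ⁅⁅(⊤ : Subgroup H₂), (⊤ : Subgroup H₂)⁆, ⁅(⊤ : Subgroup H₂), (⊤ : Subgroup H₂)⁆⁆ :=
    (ff_commutator ⊤).commutator hH₂
  obtain ⟨M, hM, hMff, -, hMfg, -⟩ := hff.exists_normal hH₂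
  obtain ⟨K₀, hK₀, hKfg, hKM⟩ := (X.xprop_sub H₂).exists_fg_lift
    (K := ⁅commutator (H₂.comap X.π), commutator (H₂.comap X.π)⁆) hMfg (by
      rwa [commutator_def, Subgroup.map_commutator, Subgroup.map_commutator,
        Subgroup.map_top_of_surjective _ (X.xprop_sub H₂).surj])
  have hK₁ : K₀ ≤ commutator (H₂.comap X.π) :=
    hK₀.trans (Subgroup.commutator_mono le_top le_top)
  have hker : ∀ t : E, commutator (H₂.comap X.π) ≤ (X.xprop_lam lam t).toHomUnits.ker :=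
    fun t => Abelianization.commutator_subset_ker _
  have hord : ∀ k ∈ K₀.map (X.xprop_sub H₂).ρ, o.Pres k := by
    rintro _ ⟨k, hk, rfl⟩
    refine ho k ?_
    have h1 : (commutator (H₂.comap X.π)).map (X.π.comp (H₂.comap X.π).subtype) ≤
        ⁅H₂, H₂⁆ := by
      have h2 : (⊤ : Subgroup (H₂.comap X.π)).map (X.π.comp (H₂.comap X.π).subtype) ≤ H₂ := by
        rintro _ ⟨e, -, rfl⟩
        exact e.2
      rw [commutator_def, Subgroup.map_commutator]
      exact Subgroup.commutator_mono h2 h2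
    exact h1 ⟨k, hK₁ hk, rfl⟩
  have hstrip : ∀ a, ∃ Ω : Set (Fr n), Ω.Finite ∧
      ∀ k ∈ K₀.map (X.xprop_sub H₂).ρ, TT (k • B₀) ⊆ (Nk a : Set (Fr n)) * Ω := by
    intro a
    obtain ⟨C, hC⟩ := (X.xprop_sub H₂).hyp_heights (X.xprop_vt v a.out) (X.xprop_lam lam a.out)
      (X.xprop_eig_vt hτ hlam a.out) (X.xprop_vt_ne hv _) hε (X.xprop_nfp h a.out)
    refine hyp_strip o (X.xprop_vt v a.out) (xprop_fg_map hKfg _) hord ?_ (C := C) ?_
      (fun g => xprop_mem_ker) (hB₀.trans (iInf_le _ a)) hfg₀ hw₀.nonAb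
    · rintro _ ⟨k, hk, rfl⟩ g
      have h1 : X.xprop_lam lam a.out k = 1 := congrArg Units.val (hker a.out (hK₁ hk))
      have h2 := X.xprop_eig_vt hτ hlam a.out k g
      rw [h1, one_mul] at h2
      exact h2
    · rintro _ ⟨k, hk, rfl⟩
      exact hC k (Subgroup.commutator_mono (hker _) (hker _) (hK₀ hk))
  choose Ω hΩ hΩ' using hstrip
  obtain ⟨Ω', hfin, hsub⟩ := finite_inter_strip Nk Ω hΩ
  obtain ⟨B, hB1, hB2, hBfg, A, hA, hA'⟩ := exists_hull (Γ := K₀.map (X.xprop_sub H₂).ρ)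
    (by
      rintro _ ⟨k, -, rfl⟩
      exact hinv k) hB₀ hw₀.nonAb hfin
    (fun k hk => (Set.subset_iInter fun a => hΩ' a k hk).trans hsub)
  have hfi := (X.xprop_sub H₂).finiteIndex_stabH (K₀ := K₀) (B := B) hA fun k hk => by
    obtain ⟨g, -, hg⟩ := hA' _ ⟨k, hk, rfl⟩
    exact ⟨g, hg⟩
  rw [hKM] at hfi
  have : H₂.subtype.range.FiniteIndex := by rwa [Subgroup.range_subtype]
  exact ⟨_, hnor, 1, hinv, hnil, hnt, B, hB2, hBfg, hw₀.mono hB1,
    ((hMff.of_relIndex hH₂ hfi).map _).mono (X.xprop_sub_stabH H₂ B)⟩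

theorem good_or_level (hn : 2 ≤ n) (hH : NF H) : X.Good ⊤ ∨ X.Level := by
  obtain ⟨τ, hτ⟩ := X.exists_matH
  obtain ⟨H₂, hfi, hnor, hu, h | ⟨v, lam, ε, L₀, hv, hε, hlam, h⟩⟩ := weight_dichotomy hH τ
  · exact X.level_of_unip hn hH (X.xprop_unip hτ h)
  · exact Or.inr (X.level_of_hyp hn hH τ hτ hu hv hε hlam h)

end Ext

end Pool.Agent.Lib.MP_9ac97d_al
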