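import Pool.Agent.Lib.MP_9ac97d_al.XBasic

/-!
# Restriction of extensions (task XRes)
-/

set_option autoImplicit false

noncomputable section

open Pointwise

namespace Pool.Agent.Lib.MP_9ac97d_al

namespace Ext

variable {E H : Type} [Group E] [Group H] {n : ℕ} (X : Ext E H n)

section Restrict

variable {E' : Subgroup E} {S : Subgroup (Fr n)} (h : X.Pair E' S) {r : ℕ} (b : Fr r ≃* S)

/-- The embedding of the small free group. -/
def emb (b : Fr r ≃* S) : Fr r →* Fr n := S.subtype.comp b.toMonoidHom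

theorem emb_injective : Function.Injective (emb b) := by
  exact S.subtype_injective.comp b.injective

theorem map_emb_top : (⊤ : Subgroup (Fr r)).map (emb b) = S := by
  ext x
  constructor
  · rintro ⟨g, -, rfl⟩
    exact (b g).2
  · intro hx
    exact ⟨b.symm ⟨x, hx⟩, Subgroup.mem_top _, congrArg Subtype.val (b.apply_symm_apply _)⟩

theorem emb_ρ (e : E') (g : Fr r) : emb b ((X.restrict h b).ρ e g) = X.ρ e (emb b g) := by
  exact congrArg Subtype.val (b.apply_symm_apply (X.resAut h e (b g)))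

theorem map_emb_smul (e : E') (T : Subgroup (Fr r)) :
    ((X.restrict h b).ρ e • T).map (emb b) = X.ρ e • T.map (emb b) := by
  ext x
  constructor
  · rintro ⟨y, hy, rfl⟩
    obtain ⟨g, hg, rfl⟩ := (Subgroup.mem_smul_pointwise_iff_exists _ _ _).1 hy
    exact (Subgroup.mem_smul_pointwise_iff_exists _ _ _).2
      ⟨emb b g, ⟨g, hg, rfl⟩, (X.emb_ρ h b e g).symm⟩
  · intro hx
    obtain ⟨y, ⟨g, hg, rfl⟩, rfl⟩ := (Subgroup.mem_smul_pointwise_iff_exists _ _ _).1 hx
    exact ⟨(X.restrict h b).ρ e g,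
      (Subgroup.mem_smul_pointwise_iff_exists _ _ _).2 ⟨g, hg, rfl⟩, X.emb_ρ h b e g⟩

theorem map_kerIn_restrict (E'' : Subgroup E') (T : Subgroup (Fr r)) :
    ((X.restrict h b).kerIn E'' T).map (E'.map X.π).subtype =
      X.kerIn (E''.map E'.subtype) (T.map (emb b)) := by
  have key : ∀ e : E', e ∈ (X.restrict h b).cent T ↔ (e : E) ∈ X.cent (T.map (emb b)) := by
    intro e
    constructor
    · rintro he _ ⟨g, hg, rfl⟩
      rw [← X.emb_ρ h b e g, he g hg]
    · intro he g hg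
      apply emb_injective b
      rw [X.emb_ρ h b e g]
      exact he _ ⟨g, hg, rfl⟩
  ext x
  constructor
  · rintro ⟨_, ⟨e, he, rfl⟩, rfl⟩
    exact ⟨e, ⟨⟨e, he.1, rfl⟩, (key e).1 he.2⟩, rfl⟩
  · rintro ⟨_, ⟨⟨e, he, rfl⟩, he'⟩, rfl⟩
    exact ⟨_, ⟨e, ⟨he, (key e).2 he'⟩, rfl⟩, rfl⟩

theorem map_stabH_restrict (T : Subgroup (Fr r)) :
    ((X.restrict h b).stabH T).map (E'.map X.π).subtype ≤ X.stabH (T.map (emb b)) := by
  rintro _ ⟨_, ⟨e, he, rfl⟩, rfl⟩
  refine ⟨e, ?_, rfl⟩
  have h1 : (X.restrict h b).ρ e • T = T := he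
  change X.ρ e • T.map (emb b) = T.map (emb b)
  rw [← X.map_emb_smul h b e T, h1]

theorem pair_of_restrict {E'' : Subgroup E'} {T : Subgroup (Fr r)}
    (h' : (X.restrict h b).Pair E'' T) : X.Pair (E''.map E'.subtype) (T.map (emb b)) := by
  constructor
  · rintro _ ⟨e, he, rfl⟩
    have h1 : (X.restrict h b).ρ e • T = T := h'.le he
    change X.ρ e • T.map (emb b) = T.map (emb b)
    rw [← X.map_emb_smul h b e T, h1]
  · intro g
    constructor
    · rintro ⟨e, he, heg⟩
      have h1 : g ∈ S := (h.cap g).1 (heg ▸ e.2)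
      have h2 : emb b (b.symm ⟨g, h1⟩) = g := congrArg Subtype.val (b.apply_symm_apply _)
      refine ⟨b.symm ⟨g, h1⟩, (h'.cap _).1 ?_, h2⟩
      have h3 : (X.restrict h b).j (b.symm ⟨g, h1⟩) = e :=
        Subtype.ext ((congrArg X.j h2).trans heg.symm)
      rw [h3]
      exact he
    · rintro ⟨g', hg', rfl⟩
      exact ⟨(X.restrict h b).j g', (h'.cap g').2 hg', rfl⟩

end Restrict

/-- Applying the main statement to a pair. -/
theorem ff_kerIn_of_main (hH : NF H) {E' : Subgroup E} {S : Subgroup (Fr n)} (h : X.Pair E' S)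
    (hfi : (E'.map X.π).FiniteIndex) (hS : S.FG) (hm : Main (rk S)) : FF (X.kerIn E' S) := by
  obtain ⟨b⟩ := exists_basis hS
  have h1 : FF ((X.restrict h b).kerIn ⊤ ⊤) :=
    hm E' (E'.map X.π) (X.restrict h b) (hH.subgroup _)
  have : (E'.map X.π).subtype.range.FiniteIndex := by
    rw [Subgroup.range_subtype]
    exact hfi
  have h2 := h1.map (E'.map X.π).subtype
  rwa [X.map_kerIn_restrict h b, map_emb_top, ← MonoidHom.range_eq_map,
    Subgroup.range_subtype] at h2

theorem pair_norm {S : Subgroup (Fr n)} (hS : Subgroup.normalizer (S : Set (Fr n)) = S) :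
    X.Pair (X.norm S) S := by
  refine ⟨le_rfl, fun g => ?_⟩
  rw [mem_norm, X.ρ_j]
  conv_rhs => rw [← hS]
  rw [Subgroup.mem_normalizer_iff'']
  constructor
  · intro h x
    conv_lhs => rw [← h]
    rw [Subgroup.mem_pointwise_smul_iff_inv_smul_mem]
    simp
  · intro h
    ext x
    rw [Subgroup.mem_pointwise_smul_iff_inv_smul_mem]
    simpa using (h x).symm

end Ext

theorem XRes_finite_int : Finite (MulAut (Multiplicative ℤ)) := by
  have h1 : ∀ Φ : MulAut (Multiplicative ℤ),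
      (Φ (Multiplicative.ofAdd 1)).toAdd ∈ ({1, -1} : Set ℤ) := by
    intro Φ
    obtain ⟨a, ha⟩ := Φ.surjective (Multiplicative.ofAdd 1)
    have h2 : a = Multiplicative.ofAdd (1 : ℤ) ^ a.toAdd := by
      rw [← ofAdd_zsmul]
      simp
    rw [h2, map_zpow] at ha
    have h3 := congrArg Multiplicative.toAdd ha
    rw [toAdd_zpow, toAdd_ofAdd, smul_eq_mul] at h3
    exact Int.isUnit_iff.1 (IsUnit.of_mul_eq_one_right _ h3)
  have : Finite ({1, -1} : Set ℤ) := Set.toFinite _
  refine Finite.of_injective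
    (fun Φ : MulAut (Multiplicative ℤ) => (⟨_, h1 Φ⟩ : ({1, -1} : Set ℤ))) fun Φ Ψ h => ?_
  apply MulEquiv.toMonoidHom_injective
  apply MonoidHom.ext_mint
  exact Multiplicative.toAdd.injective (congrArg Subtype.val h)

theorem XRes_finite {n : ℕ} (hn : n ≤ 1) : Finite (MulAut (Fr n)) := by
  obtain rfl | rfl : n = 0 ∨ n = 1 := by omega
  · have : Subsingleton (MulAut (Fr 0)) :=
      ⟨fun _ _ => MulEquiv.ext fun _ => Subsingleton.elim _ _⟩
    infer_instance
  · have := XRes_finite_int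
    exact Finite.of_equiv _
      (MulAut.congr (FreeGroup.mulEquivIntOfUnique (α := Fin 1))).symm.toEquiv

/-- In rank at most one the automorphism group is finite. -/
theorem main_of_le_one {n : ℕ} (hn : n ≤ 1) : Main n := by
  intro E H _ _ X _
  have := XRes_finite hn
  have h1 : X.ρ.ker.map X.π ≤ X.kerIn ⊤ ⊤ := by
    apply Subgroup.map_mono
    intro e he
    refine ⟨Subgroup.mem_top e, fun s _ => ?_⟩
    rw [MonoidHom.mem_ker.1 he]
    rfl
  have h2 : (X.ρ.ker.map X.π).FiniteIndex :=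
    ⟨ne_zero_of_dvd_ne_zero Subgroup.FiniteIndex.index_ne_zero
      (Subgroup.index_map_dvd X.ρ.ker X.surj)⟩
  exact (ff_of_finiteIndex _).mono h1

end Pool.Agent.Lib.MP_9ac97d_al
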