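import Pool.Agent.Lib.MP_9ac97d_al.XHull
import Pool.Agent.Lib.MP_9ac97d_al.LZero2

/-!
# The unipotent step (task XU)
-/

set_option autoImplicit false

noncomputable section

open Pointwise

namespace Pool.Agent.Lib.MP_9ac97d_al

section Aux

variable {n : ℕ}

theorem xu_smul_top (Φ : MulAut (Fr n)) : Φ • (⊤ : Subgroup (Fr n)) = ⊤ := by
  ext g
  simp [Subgroup.mem_pointwise_smul_iff_inv_smul_mem]

/-- The action on chains as a semilinear map. -/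
def xuCs (o : BiOrd (Fr n)) (Φ : MulAut (Fr n)) (h : o.Pres Φ) :
    (Fr n →₀ MN o) →ₛₗ[(MN.map Φ h : MN o →+* MN o)] (Fr n →₀ MN o) where
  toFun := chainMap o Φ h
  map_add' := map_add _
  map_smul' := fun d z => chainMap_smul o Φ h d z

theorem xu_rel_le (o : BiOrd (Fr n)) (Φ : MulAut (Fr n)) (h : o.Pres Φ) :
    Rel (MN.of o) ⊤ ≤ (Rel (MN.of o) ⊤).comap (xuCs o Φ h) := by
  intro z hz
  have h1 := chainMap_mem_rel o Φ h hz
  rw [xu_smul_top] at h1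
  exact h1

/-- The action on chains modulo relations. -/
def xuQs (o : BiOrd (Fr n)) (Φ : MulAut (Fr n)) (h : o.Pres Φ) :
    ((Fr n →₀ MN o) ⧸ Rel (MN.of o) ⊤) →ₛₗ[(MN.map Φ h : MN o →+* MN o)]
      ((Fr n →₀ MN o) ⧸ Rel (MN.of o) ⊤) :=
  (Rel (MN.of o) ⊤).mapQ (Rel (MN.of o) ⊤) (xuCs o Φ h) (xu_rel_le o Φ h)

theorem xuQs_mk (o : BiOrd (Fr n)) (Φ : MulAut (Fr n)) (h : o.Pres Φ) (z : Fr n →₀ MN o) :
    xuQs o Φ h ((Rel (MN.of o) ⊤).mkQ z) = (Rel (MN.of o) ⊤).mkQ (chainMap o Φ h z) := rfl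

theorem xuQs_mem (o : BiOrd (Fr n)) (Φ : MulAut (Fr n)) (h : o.Pres Φ)
    {v : (Fr n →₀ MN o) ⧸ Rel (MN.of o) ⊤} (hv : v ∈ VV (MN.of o) ⊤) :
    xuQs o Φ h v ∈ VV (MN.of o) ⊤ := by
  obtain ⟨z, hz, rfl⟩ := hv
  rw [xuQs_mk]
  have h1 := chainMap_mem_zz o Φ h hz
  rw [xu_smul_top] at h1
  exact ⟨_, h1, rfl⟩

/-- The action on the first homology. -/
def xuAct (o : BiOrd (Fr n)) (Φ : MulAut (Fr n)) (h : o.Pres Φ) :
    AddMonoid.End (VV (MN.of o) ⊤) :=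
  AddMonoidHom.mk' (fun v => ⟨xuQs o Φ h v.1, xuQs_mem o Φ h v.2⟩)
    fun v w => Subtype.ext (map_add (xuQs o Φ h) v.1 w.1)

theorem xuAct_coe (o : BiOrd (Fr n)) (Φ : MulAut (Fr n)) (h : o.Pres Φ) (v : VV (MN.of o) ⊤) :
    (xuAct o Φ h v).1 = xuQs o Φ h v.1 := rfl

theorem xuAct_one (o : BiOrd (Fr n)) {Φ : MulAut (Fr n)} (h : o.Pres Φ) (hΦ : Φ = 1) :
    xuAct o Φ h = 1 := by
  subst hΦ
  refine AddMonoidHom.ext fun v => Subtype.ext ?_
  obtain ⟨v, z, hz, rfl⟩ := v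
  change xuQs o 1 h ((Rel (MN.of o) ⊤).mkQ z) = (Rel (MN.of o) ⊤).mkQ z
  rw [xuQs_mk, chainMap_one]

theorem xuAct_mul (o : BiOrd (Fr n)) {Θ Φ Ψ : MulAut (Fr n)} (h'' : o.Pres Θ) (h : o.Pres Φ)
    (h' : o.Pres Ψ) (hΘ : Θ = Φ * Ψ) : xuAct o Θ h'' = xuAct o Φ h * xuAct o Ψ h' := by
  subst hΘ
  refine AddMonoidHom.ext fun v => Subtype.ext ?_
  obtain ⟨v, z, hz, rfl⟩ := v
  change xuQs o (Φ * Ψ) h'' ((Rel (MN.of o) ⊤).mkQ z) =
    xuQs o Φ h (xuQs o Ψ h' ((Rel (MN.of o) ⊤).mkQ z))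
  rw [xuQs_mk, xuQs_mk, xuQs_mk, chainMap_mul o Φ Ψ h h' h'']

theorem xuAct_smul (o : BiOrd (Fr n)) (Φ : MulAut (Fr n)) (h : o.Pres Φ) (d : MN o)
    (v : VV (MN.of o) ⊤) : xuAct o Φ h (d • v) = MN.map Φ h d • xuAct o Φ h v :=
  Subtype.ext (map_smulₛₗ (xuQs o Φ h) d v.1)

theorem xuAct_conj (o : BiOrd (Fr n)) {Φ : MulAut (Fr n)} (h : o.Pres Φ) {g : Fr n}
    (hΦ : Φ = MulAut.conj g) (v : VV (MN.of o) ⊤) : xuAct o Φ h v = MN.of o g • v := by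
  subst hΦ
  refine Subtype.ext ?_
  obtain ⟨v, z, hz, rfl⟩ := v
  change xuQs o (MulAut.conj g) h ((Rel (MN.of o) ⊤).mkQ z) =
    MN.of o g • (Rel (MN.of o) ⊤).mkQ z
  rw [xuQs_mk, chainMap_conj, map_smul]
  congr 1
  exact (Submodule.Quotient.eq _).2 (tau_sub_mem_rel (MN.of o) (Subgroup.mem_top g) hz)

/-- The functional on the first homology induced by the coefficient at an edge. -/
def xuFun (o : BiOrd (Fr n)) (i : Fin n) : VV (MN.of o) ⊤ →ₗ[MN o] MN o :=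
  ((Rel (MN.of o) ⊤).liftQ (coef (MN.of o) ⊤ 1 i)
    fun _ hz => coef_eq_zero_of_mem_rel (MN.of o) 1 i hz).comp (VV (MN.of o) ⊤).subtype

theorem xuFun_act (o : BiOrd (Fr n)) (i : Fin n) (Φ : MulAut (Fr n)) (h : o.Pres Φ)
    {z : Fr n →₀ MN o} (hz : (Rel (MN.of o) ⊤).mkQ z ∈ VV (MN.of o) ⊤) :
    xuFun o i (xuAct o Φ h ⟨_, hz⟩) = coef (MN.of o) ⊤ 1 i (chainMap o Φ h z) := rfl

/-- The semilinear action on the first homology over the valued Malcev-Neumann field. -/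
def xuSL {E : Type} [Group E] (ρ : E →* MulAut (Fr n)) (o : BiOrd (Fr n))
    (χ : Fr n →* Multiplicative ℝ) (h : ∀ e, (o.lex χ).Pres (ρ e))
    (hχ : ∀ e g, χ (ρ e g) = χ g) : SL E (MN (o.lex χ)) (VV (MN.of (o.lex χ)) ⊤) where
  α := MN.mapHom ρ h
  act :=
    { toFun := fun e => xuAct (o.lex χ) (ρ e) (h e)
      map_one' := xuAct_one _ _ (map_one ρ)
      map_mul' := fun e e' => xuAct_mul _ _ _ _ (map_mul ρ e e') }
  smul := fun e d v => xuAct_smul _ _ (h e) d v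
  iso := fun e d => MN.norm_map (h e) (hχ e) d

theorem xu_nonAb_smul (Φ : MulAut (Fr n)) {S : Subgroup (Fr n)} (h : NonAb S) :
    NonAb (Φ • S) := by
  obtain ⟨a, ha, b, hb, hab⟩ := h
  refine ⟨Φ a, Subgroup.smul_mem_pointwise_smul _ _ _ ha, Φ b,
    Subgroup.smul_mem_pointwise_smul _ _ _ hb, fun hc => hab ?_⟩
  apply Φ.injective
  rw [map_mul, map_mul]
  exact hc

/-- A nonzero rational character is a multiple of a surjection onto the integers. -/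
theorem xu_exists_int (χ : Fr n →* Multiplicative ℚ) (hχ : χ ≠ 1) :
    ∃ θ : Fr n →* Multiplicative ℤ, Function.Surjective θ ∧
      ∃ r : ℚ, r ≠ 0 ∧ ∀ g, (χ g).toAdd = r * ((θ g).toAdd : ℚ) := by
  classical
  set d : ℕ := ∏ i : Fin n, (χ (FreeGroup.of i)).toAdd.den with hd
  have hd0 : d ≠ 0 := Finset.prod_ne_zero_iff.2 fun i _ => Rat.den_nz _
  have hgen : ∀ i : Fin n, ∃ m : ℤ, (m : ℚ) = d * (χ (FreeGroup.of i)).toAdd := by
    intro i
    obtain ⟨c, hc⟩ : (χ (FreeGroup.of i)).toAdd.den ∣ d :=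
      Finset.dvd_prod_of_mem _ (Finset.mem_univ i)
    refine ⟨c * (χ (FreeGroup.of i)).toAdd.num, ?_⟩
    rw [hc]
    push_cast
    rw [mul_comm ((χ (FreeGroup.of i)).toAdd.den : ℚ), mul_assoc, Rat.den_mul_eq_num]
  have hint : ∀ g, ∃ m : ℤ, (m : ℚ) = d * (χ g).toAdd := by
    intro g
    induction g using FreeGroup.induction_on with
    | C1 => exact ⟨0, by simp⟩
    | of i => exact hgen i
    | inv_of i _ =>
      obtain ⟨m, hm⟩ := hgen i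
      exact ⟨-m, by rw [map_inv, toAdd_inv]; push_cast; rw [hm]; ring⟩
    | mul x y hx hy =>
      obtain ⟨m, hm⟩ := hx
      obtain ⟨m', hm'⟩ := hy
      exact ⟨m + m', by rw [map_mul, toAdd_mul]; push_cast; rw [hm, hm']; ring⟩
  let A : AddSubgroup ℤ :=
    { carrier := {m | ∃ g, (m : ℚ) = d * (χ g).toAdd}
      zero_mem' := ⟨1, by simp⟩
      add_mem' := by
        rintro m m' ⟨g, hg⟩ ⟨g', hg'⟩
        exact ⟨g * g', by rw [map_mul, toAdd_mul]; push_cast; rw [hg, hg']; ring⟩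
      neg_mem' := by
        rintro m ⟨g, hg⟩
        exact ⟨g⁻¹, by rw [map_inv, toAdd_inv]; push_cast; rw [hg]; ring⟩ }
  obtain ⟨a, ha⟩ := Int.subgroup_cyclic A
  have hdiv : ∀ g, ∃ m : ℤ, ((m : ℚ) * a) = d * (χ g).toAdd := by
    intro g
    obtain ⟨m, hm⟩ := hint g
    have hmA : m ∈ A := ⟨g, hm⟩
    rw [ha, AddSubgroup.mem_closure_singleton] at hmA
    obtain ⟨k, hk⟩ := hmA
    refine ⟨k, ?_⟩
    rw [← hm, ← hk]
    simp
  have hdq : (d : ℚ) ≠ 0 := by exact_mod_cast hd0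
  have ha0 : (a : ℚ) ≠ 0 := by
    intro h0
    apply hχ
    ext i
    obtain ⟨m, hm⟩ := hdiv (FreeGroup.of i)
    rw [h0, mul_zero] at hm
    have h1 := (mul_eq_zero.1 hm.symm).resolve_left hdq
    simpa using h1
  choose t ht using hdiv
  have hadd : ∀ g g', t (g * g') = t g + t g' := by
    intro g g'
    have h1 : ((t (g * g') : ℤ) : ℚ) * a = ((t g + t g' : ℤ) : ℚ) * a := by
      rw [ht, map_mul, toAdd_mul]
      push_cast
      rw [add_mul, ht, ht]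
      ring
    exact_mod_cast mul_right_cancel₀ ha0 h1
  let θ : Fr n →* Multiplicative ℤ :=
    MonoidHom.mk' (fun g => Multiplicative.ofAdd (t g)) fun g g' => by rw [hadd, ofAdd_add]
  have hθ : ∀ g, (θ g).toAdd = t g := fun g => rfl
  refine ⟨θ, ?_, a / d, div_ne_zero ha0 hdq, fun g => ?_⟩
  · have haA : a ∈ A := by
      rw [ha]
      exact AddSubgroup.subset_closure rfl
    obtain ⟨g, hg⟩ := haA
    have h1 : t g = 1 := by
      have h2 : ((t g : ℤ) : ℚ) * a = ((1 : ℤ) : ℚ) * a := by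
        rw [ht, ← hg]
        simp
      exact_mod_cast mul_right_cancel₀ ha0 h2
    intro m
    refine ⟨g ^ m.toAdd, ?_⟩
    apply Multiplicative.toAdd.injective
    rw [map_zpow, toAdd_zpow, hθ, h1]
    simp
  · rw [hθ]
    have h1 := ht g
    field_simp
    linarith

end Aux

namespace Ext

variable {E H : Type} [Group E] [Group H] {n : ℕ} (X : Ext E H n)

/-- Let `χ'` be `χ` with values in `ℝ`, `D = MN (o.lex χ')` (complete, `Disc D`), and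
`V = VV (MN.of _) ⊤`, finite dimensional by `finrank_vv`. `chainMap` induces an `SL E D V` with
`α = MN.mapHom`; `j g` acts as the scalar `of g` (`chainMap_conj`, `tau_sub_mem_rel`). Apply
`lzero`, to the functionals induced by `coef _ ⊤ 1 i` and the vectors `zeta p g`, `g` in a finite
generating set of `B₀`; conclude with `chainMap_zeta` and `height_ge` for `S = ρ k • B₀`. -/
theorem u_height (hH : NF H) {o : BiOrd (Fr n)} (ho : ∀ e, o.Pres (X.ρ e))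
    (χ : Fr n →* Multiplicative ℤ) (hsurj : Function.Surjective χ)
    (hχ : ∀ e g, χ (X.ρ e g) = χ g) :
    ∃ E₂ : Subgroup E, E₂.FiniteIndex ∧ ∀ K : Subgroup E, K ≤ ⁅E₂, E₂⁆ → K.FG →
      ∀ B₀ : Subgroup (Fr n), B₀.FG → NonAb B₀ → (∀ s ∈ B₀, χ s = 1) →
        ∃ C : ℝ, ∀ k ∈ K, ∀ y ∈ TT (X.ρ k • B₀), -C ≤ ((χ y).toAdd : ℝ) := by
  classical
  let χ' : Fr n →* Multiplicative ℝ :=
    (AddMonoidHom.toMultiplicative (Int.castAddHom ℝ)).comp χ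
  have hχ'v : ∀ g, (χ' g).toAdd = ((χ g).toAdd : ℝ) := fun g => rfl
  have hχ' : ∀ e g, χ' (X.ρ e g) = χ' g := fun e g => by
    simp only [χ', MonoidHom.comp_apply, hχ]
  have ho' : ∀ e, (o.lex χ').Pres (X.ρ e) := fun e => MN.pres_lex (ho e) (hχ' e)
  obtain ⟨p₀, hp₀⟩ := hsurj (Multiplicative.ofAdd 1)
  have hof : ∀ p : Fr n, p ≠ 1 → MN.of (o.lex χ') p ≠ 1 := fun p hp h =>
    hp (MN.of_injective (h.trans (map_one _).symm))
  have hp₀1 : p₀ ≠ 1 := by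
    rintro rfl
    rw [map_one] at hp₀
    have h1 := congrArg Multiplicative.toAdd hp₀
    simp at h1
  have hfin : Module.Finite (MN (o.lex χ')) (VV (MN.of (o.lex χ')) ⊤) :=
    (finrank_vv (MN.of (o.lex χ')) (Group.fg_def.1 inferInstance) (Subgroup.mem_top p₀)
      (hof p₀ hp₀1)).1
  have : CompleteSpace (MN (o.lex χ')) := MN.complete fun g => ⟨_, hχ'v g⟩
  have hD : Disc (MN (o.lex χ')) := by
    refine ⟨fun d hd => ?_, ⟨MN.of _ p₀, ?_⟩⟩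
    · obtain ⟨g, -, hg⟩ := MN.norm_mem d hd
      refine ⟨-(χ g).toAdd, ?_⟩
      rw [hg, hχ'v]
      push_cast
      rfl
    · rw [MN.norm_of, hχ'v, hp₀]
      simp
  have hscal : ∀ e, X.π e = 1 → (xuSL X.ρ o χ' ho' hχ').Scal e := by
    intro e he
    have h1 : e ∈ X.π.ker := he
    rw [X.ker] at h1
    obtain ⟨g, rfl⟩ := h1
    exact ⟨MN.of _ g, fun v => xuAct_conj _ (ho' _) (X.ρ_j g) v⟩
  obtain ⟨E₂, hE₂, -, hbdd⟩ := lzero hD (xuSL X.ρ o χ' ho' hχ') X.π X.surj hscal hH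
  refine ⟨E₂, hE₂, fun K hK hKfg B₀ hB₀ hna hB₀χ => ?_⟩
  obtain ⟨T, hT, hTfin⟩ := (Subgroup.fg_iff _).1 hB₀
  obtain ⟨p, hp, hp1⟩ : ∃ p ∈ B₀, p ≠ 1 := by
    obtain ⟨a, ha, b, -, hab⟩ := hna
    exact ⟨a, ha, fun h => hab (h ▸ Commute.one_left b)⟩
  have hmem : ∀ g, (Rel (MN.of (o.lex χ')) ⊤).mkQ (zeta (MN.of (o.lex χ')) p g) ∈
      VV (MN.of (o.lex χ')) ⊤ := fun g =>
    ⟨_, zeta_mem_zz _ (Subgroup.mem_top p) (hof p hp1) (Subgroup.mem_top g), rfl⟩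
  have hC : ∀ (g : Fr n) (i : Fin n), ∃ C : ℝ, ∀ k ∈ K,
      ‖coef (MN.of (o.lex χ')) ⊤ 1 i (zeta (MN.of (o.lex χ')) (X.ρ k p) (X.ρ k g))‖ ≤ C := by
    intro g i
    obtain ⟨C, hC⟩ := hbdd K hK hKfg (xuFun _ i) ⟨_, hmem g⟩
    refine ⟨C, fun k hk => ?_⟩
    have h1 := hC k hk
    rw [← chainMap_zeta _ _ (ho' k), ← xuFun_act _ i _ (ho' k) (hmem g)]
    exact h1
  choose C hC using hC
  obtain ⟨t, ht⟩ : ∃ t : ℝ, ∀ g ∈ T, ∀ i, C g i ≤ t := by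
    obtain ⟨t, ht⟩ := ((hTfin.prod (Set.finite_univ (α := Fin n))).image
      fun q : Fr n × Fin n => C q.1 q.2).bddAbove
    exact ⟨t, fun g hg i => ht ⟨(g, i), ⟨hg, Set.mem_univ _⟩, rfl⟩⟩
  refine ⟨t + ∑ i, |(χ' (FreeGroup.of i)).toAdd|, fun k hk y hy => ?_⟩
  have h1 := height_ge o χ' (xu_nonAb_smul (X.ρ k) hna) (S := X.ρ k • B₀) (T := X.ρ k • T)
    (p := X.ρ k p) (t := t) (y := y) ?_ ?_ (Subgroup.smul_mem_pointwise_smul _ _ _ hp) ?_ ?_ hy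
  · rw [hχ'v y] at h1
    linarith
  · intro s hs
    obtain ⟨s₀, hs₀, rfl⟩ := (Subgroup.mem_smul_pointwise_iff_exists _ _ _).1 hs
    change χ' (X.ρ k s₀) = 1
    rw [hχ']
    simp only [χ', MonoidHom.comp_apply, hB₀χ s₀ hs₀, map_one]
  · rw [← hT, Subgroup.smul_closure]
  · intro h
    exact hp1 ((X.ρ k).injective (h.trans (map_one _).symm))
  · rintro _ ⟨g, hg, rfl⟩ i
    have h2 := hC g i k hk
    have h3 := ht g hg i
    have h4 := Real.add_one_le_exp t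
    change ‖coef (MN.of (o.lex χ')) ⊤ 1 i (zeta (MN.of (o.lex χ')) (X.ρ k p) (X.ρ k g))‖ ≤ _
    linarith

/-- A finitely generated subgroup of the image of `K` is the image of a finitely generated
subgroup of `K`. -/
theorem exists_fg_lift {K : Subgroup E} {M : Subgroup H} (hM : M.FG) (h : M ≤ K.map X.π) :
    ∃ K₀ ≤ K, K₀.FG ∧ K₀.map X.π = M := by
  obtain ⟨S, hS, hfin⟩ := (Subgroup.fg_iff _).1 hM
  have hsub : S ⊆ X.π '' (K : Set E) := fun s hs =>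
    h (hS ▸ Subgroup.subset_closure hs)
  obtain ⟨T, hTK, hTfin, hT⟩ := hfin.exists_subset_finite_image_eq hsub
  refine ⟨Subgroup.closure T, (Subgroup.closure_le _).2 hTK,
    (Subgroup.fg_iff _).2 ⟨T, rfl, hTfin⟩, ?_⟩
  rw [MonoidHom.map_closure, hT, hS]

/-- Each nonzero `χ k` is a rational multiple of a surjection onto `ℤ` (its image is a finitely
generated subgroup of `ℚ`). Apply `u_height` to these and to their inverses, intersect the `E₂`,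
take `M` from `FF.exists_normal` in `⁅π E₂, π E₂⁆` (`ff_commutator`), `K₀` from `exists_fg_lift`,
then `exists_strip`, `exists_hull`, `finiteIndex_stabH`, `FF.of_relIndex`. -/
theorem u_step (hH : NF H) {o : BiOrd (Fr n)} (ho : ∀ e, o.Pres (X.ρ e)) {κ : Type} [Finite κ]
    (χ : κ → Fr n →* Multiplicative ℚ) (hχ : ∀ k e g, χ k (X.ρ e g) = χ k g)
    {N : Subgroup (Fr n)} (hN : ∀ g, g ∈ N ↔ ∀ k, χ k g = 1) {B₀ : Subgroup (Fr n)}
    (hB : B₀ ≤ N) (hfg : B₀.FG) (hna : NonAb B₀) :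
    ∃ B, B₀ ≤ B ∧ B ≤ N ∧ B.FG ∧ FF (X.stabH B) := by
  classical
  have h0 : ∀ k : {k : κ // χ k ≠ 1}, ∃ θ : Fr n →* Multiplicative ℤ, Function.Surjective θ ∧
      ∃ r : ℚ, r ≠ 0 ∧ ∀ g, (χ k g).toAdd = r * ((θ g).toAdd : ℚ) :=
    fun k => xu_exists_int (χ k) k.2
  choose θ hsurj r hr hθ using h0
  have hinv : ∀ k e g, θ k (X.ρ e g) = θ k g := by
    intro k e g
    have h1 := hθ k (X.ρ e g)
    rw [hχ, hθ] at h1
    have h2 := mul_left_cancel₀ (hr k) h1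
    apply Multiplicative.toAdd.injective
    exact_mod_cast h2.symm
  have hN' : ∀ g, g ∈ N ↔ ∀ k, θ k g = 1 := by
    intro g
    rw [hN]
    constructor
    · intro h k
      have h1 := hθ k g
      rw [h k, toAdd_one] at h1
      have h2 := (mul_eq_zero.1 h1.symm).resolve_left (hr k)
      apply Multiplicative.toAdd.injective
      exact_mod_cast h2
    · intro h k
      by_cases hk : χ k = 1
      · rw [hk]
        rfl
      · have h1 := hθ ⟨k, hk⟩ g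
        rw [h ⟨k, hk⟩] at h1
        apply Multiplicative.toAdd.injective
        simpa using h1
  have hsurj' : ∀ k, Function.Surjective ((θ k)⁻¹ : Fr n →* Multiplicative ℤ) := by
    intro k m
    obtain ⟨g, hg⟩ := hsurj k m⁻¹
    exact ⟨g, by rw [MonoidHom.inv_apply, hg, inv_inv]⟩
  have hinv' : ∀ k e g, ((θ k)⁻¹ : Fr n →* Multiplicative ℤ) (X.ρ e g) =
      ((θ k)⁻¹ : Fr n →* Multiplicative ℤ) g := by
    intro k e g
    rw [MonoidHom.inv_apply, MonoidHom.inv_apply, hinv]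
  choose E₁ hE₁ hb₁ using fun k => X.u_height hH ho (θ k) (hsurj k) (hinv k)
  choose E₂ hE₂ hb₂ using fun k => X.u_height hH ho (θ k)⁻¹ (hsurj' k) (hinv' k)
  set E₀ : Subgroup E := ⨅ k, (E₁ k ⊓ E₂ k) with hE₀
  have : E₀.FiniteIndex := Subgroup.finiteIndex_iInf fun k => by
    have := hE₁ k
    have := hE₂ k
    infer_instance
  have : (E₀.map X.π).FiniteIndex :=
    ⟨ne_zero_of_dvd_ne_zero Subgroup.FiniteIndex.index_ne_zero (E₀.index_map_dvd X.surj)⟩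
  obtain ⟨M, hMle, hMff, -, hMfg, -⟩ := FF.exists_normal hH (ff_commutator (E₀.map X.π))
  rw [← Subgroup.map_commutator] at hMle
  obtain ⟨K₀, hK₀, hK₀fg, hK₀M⟩ := X.exists_fg_lift hMfg hMle
  have hle₁ : ∀ k, K₀ ≤ ⁅E₁ k, E₁ k⁆ := fun k =>
    hK₀.trans (Subgroup.commutator_mono ((iInf_le _ k).trans inf_le_left)
      ((iInf_le _ k).trans inf_le_left))
  have hle₂ : ∀ k, K₀ ≤ ⁅E₂ k, E₂ k⁆ := fun k =>
    hK₀.trans (Subgroup.commutator_mono ((iInf_le _ k).trans inf_le_right)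
      ((iInf_le _ k).trans inf_le_right))
  choose C₁ hC₁ using fun k =>
    hb₁ k K₀ (hle₁ k) hK₀fg B₀ hfg hna fun s hs => (hN' s).1 (hB hs) k
  choose C₂ hC₂ using fun k =>
    hb₂ k K₀ (hle₂ k) hK₀fg B₀ hfg hna fun s hs => by
      rw [MonoidHom.inv_apply, (hN' s).1 (hB hs) k, inv_one]
  obtain ⟨C, hC⟩ := (Set.finite_range fun k => max (C₁ k) (C₂ k)).bddAbove
  obtain ⟨Ω, hΩ, hstrip⟩ := exists_strip θ hN' C
  have hΓ : ∀ Φ ∈ K₀.map X.ρ, Φ • N = N := by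
    rintro _ ⟨e, -, rfl⟩
    ext g
    rw [Subgroup.mem_pointwise_smul_iff_inv_smul_mem, ← map_inv, hN', hN']
    exact forall_congr' fun k => by rw [MulAut.smul_def, hinv]
  have hTT : ∀ Φ ∈ K₀.map X.ρ, TT (Φ • B₀) ⊆ (N : Set (Fr n)) * Ω := by
    rintro _ ⟨e, he, rfl⟩ y hy
    refine hstrip fun k => ?_
    have h1 := hC₁ k e he y hy
    have h2 := hC₂ k e he y hy
    have h3 : max (C₁ k) (C₂ k) ≤ C := hC ⟨k, rfl⟩
    rw [MonoidHom.inv_apply, toAdd_inv] at h2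
    push_cast at h2
    have h4 := le_max_left (C₁ k) (C₂ k)
    have h5 := le_max_right (C₁ k) (C₂ k)
    exact abs_le.2 ⟨by linarith, by linarith⟩
  obtain ⟨B, hB₀B, hBN, hBfg, A, hA, hcl⟩ := exists_hull hΓ hB hna hΩ hTT
  refine ⟨B, hB₀B, hBN, hBfg, FF.of_relIndex hH hMff ?_⟩
  rw [← hK₀M]
  refine X.finiteIndex_stabH hA fun k hk => ?_
  obtain ⟨g, -, hg⟩ := hcl (X.ρ k) ⟨k, hk, rfl⟩
  exact ⟨g, hg⟩

end Ext

end Pool.Agent.Lib.MP_9ac97d_al
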